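import Pool.Agent.MP_c78e8e_al.Sg.Clas
import Pool.Agent.MP_c78e8e_al.Sg.Sl2

attribute [-instance] instCharZeroOfIsSemireal SemilinearMapClass.toAddHomClass
  DistribMulActionSemiHomClass.toAddMonoidHomClass Fintype.decidableForallFintype instCoeTCOfCoe
  NonUnitalAlgHomClass.toNonUnitalRingHomClass NonUnitalNormedRing.toNormedAddCommGroup
  MonTypeEquivalenceMon.monMonoid instNoNatZeroDivisorsOfIsAddTorsionFree FloorSemiring.instCharZero
  decidableEq_of_subsingleton IdemSemiring.toSemiring UniformSpace.toTopologicalSpace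
  NonUnitalAlgSemiHomClass.toMulHomClass FunLike.toDecidableEq littleWedderburn
  CommGroup.toDivisionCommMonoid RCLike.charZero_rclike SemilatticeInf.toPartialOrder invertibleTwo
  SubsemiringClass.toCommSemiring RingConeClass.toSubsemiringClass IsMulCommutative.is_comm
  ContinuousMonoidHom.instCoeOutOfMonoidHomClassOfContinuousMapClass LinearOrder.toDecidableEq
  Finset.decidableDforallFinset NormedRing.toRing NumberField.to_charZero
  Multiset.decidableDforallMultiset Vector.instDecidableForallForallMemOfDecidablePred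
  BooleanRing.toRing instCoeOutOfCoeFun Array.instDecidableForallForallMemOfDecidablePred
  Option.decidableForallMem SubringClass.toSubsemiringClass MonoidWithZero.toMulZeroOneClass
  Int.decidableLTLE AddQuantale.instAddLeftMono LieRing.toAddCommGroup NormedField.toField
  BialgHomClass.toMonoidHomClass SeminormedRing.toRing CommSemigroup.toCommMagma
  IsStrictOrderedRing.toCharZero instCoeTOfCoeDep FirstOrder.Language.instDecidableEqRelations
  SetLike.GradeZero.instRing SetLike.GradeZero.instSemiring SetLike.GradeZero.instMonoid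
  Int.decidableLELE instCoeTCOfCoe_1 NonAssocRing.toNonAssocSemiring Int.decidableLELT
  Int.decidableLTLT SetLike.GradeZero.instCommSemiring NonAssocCommSemiring.toNonAssocSemiring
  Group.IsPerfect.subsingleton_of_isMulCommutative AlgHomClass.toRingHomClass
  NonUnitalNonAssocRing.toAddCommGroup LieAdmissibleRing.toNonUnitalNonAssocRing
  TestFunctionClass.toDFunLike NormedCommRing.toCommRing instCoeHTC instCoeTC instCoeHTCT
  AddQuantale.instAddRightMono AddCommGroupWithOne.toAddGroupWithOne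
  ContDiffMapSupportedInClass.toDFunLike FiniteField.instGrindPowIdentity
  FirstOrder.Language.instDecidableEqFunctions LinearOrderedAddCommMonoidWithTop.toAddCommMonoid
  CommMonTypeEquivalenceCommMon.commMonCommMonoid ValuationClass.toMonoidWithZeroHomClass
  SemilatticeSup.toPartialOrder Order.Coframe.toCompleteLattice NeZero.of_gt' RCLike.toDecidableEq
  GroupConeClass.toSubmonoidClass forall_prop_decidable EuclideanDomain.toCommRing
  CompletelyDistribLattice.toCompleteLattice SeminormedCommRing.toCommRing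
  IsometryClass.instCoeOutIsometryEquiv FinEnum.decEq
  ContinuousAddMonoidHom.instCoeOutOfAddMonoidHomClassOfContinuousMapClass
  OmegaCompletePartialOrder.toPartialOrder CategoryTheory.Limits.Concrete.instUniqueToTypeTerminal
  HomeomorphClass.instCoeOutHomeomorph IdemCommSemiring.toCommSemiring MulCharClass.toMonoidHomClass
  SubsemiringClass.toSemiring GrpTypeEquivalenceGrp.grpGroup
  LinearOrderedAddCommGroupWithTop.toAddCommMonoid RingEquivClass.toNonUnitalRingHomClass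
  MulDistribMulActionSemiHomClass.toMonoidHomClass SubsemiringClass.toSubmonoidClass
  GroupWithZero.toDivisionMonoid IsStrictOrderedRing.noZeroDivisors
  NonUnitalRing.toNonUnitalNonAssocRing NormedDivisionRing.toDivisionRing Units.instPreorder
  Invertible.toNeZero BooleanRing.instIdempotentOpHMul MulSemiringActionSemiHomClass.toRingHomClass
  ChainCompletePartialOrder.toPartialOrder SubringClass.toRing Order.Frame.toCompleteLattice
  NeZero.charZero_one MulSemiringAction.toMulDistribMulAction BooleanRing.toCommRing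
  Matrix.instNatCastOfZero instCoeTailIntOfIntCast IsAddCyclic.isAddCommutative
  RightPreLieRing.toNonUnitalNonAssocRing

-- part MP_c78e8e_al.Sg.Nat
section

section

namespace Pool.Agent.MP_c78e8e_al.H75

open Subgroup Matrix

variable {r : ℕ} {K : Type} [Field K]

/-- Elementary matrices. -/
def el (i j : Fin (r + 1)) (s : K) : GL (Fin (r + 1)) K :=
  if h : i = j then 1 else ⟨1 + single i j s, 1 - single i j s, by
    simp [mul_sub, add_mul, single_mul_single_of_ne _ _ _ _ (Ne.symm h)], by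
    simp [mul_add, sub_mul, single_mul_single_of_ne _ _ _ _ (Ne.symm h)]⟩

theorem el_val {i j : Fin (r + 1)} (h : i ≠ j) (s : K) : (el i j s).1 = 1 + single i j s := by
  simp [el, h]

theorem el_inv {i j : Fin (r + 1)} (h : i ≠ j) (s : K) : (el i j s)⁻¹.1 = 1 - single i j s := by
  simp [el, h]

variable (r K) in
/-- The Gram matrix: antidiagonal with alternating signs. -/
def Jm : Matrix (Fin (r + 1)) (Fin (r + 1)) K := of fun i j => if j = i.rev then (-1) ^ (i : ℕ) else 0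

/-- Scalar matrices. -/
def Sc (g : GL (Fin (r + 1)) K) : Prop := ∃ z : K, g.1 = z • (1 : Matrix _ _ K)

/-- Matrices preserving the form. -/
def Fx (φ : K →+* K) (g : GL (Fin (r + 1)) K) : Prop := g.1 * Jm r K * (g.1.map φ)ᵀ = Jm r K

/-- Root groups of the twisted group. -/
def rt (φ : K →+* K) (i j : Fin (r + 1)) : Set (GL (Fin (r + 1)) K) :=
  {g | Fx φ g ∧ g ∈ Subgroup.closure (Set.range (el i j) ∪ Set.range (el j.rev i.rev))}

variable (r K) in
/-- The special linear group. -/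
def slg : Subgroup (GL (Fin (r + 1)) K) := Subgroup.closure {g | ∃ i j s, g = el i j s}

variable (r) in
/-- The symplectic or special unitary group. -/
def sug (φ : K →+* K) : Subgroup (GL (Fin (r + 1)) K) := Subgroup.closure {g | ∃ i j, g ∈ rt φ i j}

end Pool.Agent.MP_c78e8e_al.H75

end

section

namespace Pool.Agent.MP_c78e8e_al.H75

open Subgroup Matrix

variable {N : ℕ} {K : Type} [Field K]

/-- Root elements of the split orthogonal group of the form `∑ x i * x i.rev` (each pair once). -/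
def eo (i j : Fin (N + 1)) (s : K) : GL (Fin (N + 1)) K := el i j s * el j.rev i.rev (-s)

variable (N K) in
/-- The split orthogonal group `Ω⁺ (N + 1, K)`, `N` odd. -/
def sog : Subgroup (GL (Fin (N + 1)) K) := Subgroup.closure {g | ∃ i j s, j ≠ i.rev ∧ g = eo i j s}

/-- The two middle indices. -/
def Mid (i : Fin (N + 1)) : Prop := (i : ℕ) + 1 = i.rev ∨ (i.rev : ℕ) + 1 = i

variable (N) in
/-- The fixed points of the swap of the two middle coordinates combined with `φ`: the group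
`Ω⁻ (N + 1, q)` if `φ` has order two and `Ω (N, q)` if `φ` is the identity. -/
def sog2 (φ : K →+* K) : Subgroup (GL (Fin (N + 1)) K) := Subgroup.closure
  ({g | ∃ i j s, j ≠ i.rev ∧ ¬ Mid i ∧ ¬ Mid j ∧ φ s = s ∧ g = eo i j s} ∪
    {g | ∃ i m s, ¬ Mid i ∧ Mid m ∧ g = eo i m s * eo i m.rev (φ s)})

end Pool.Agent.MP_c78e8e_al.H75

end

section

namespace Pool.Agent.MP_c78e8e_al.H75

open Subgroup Matrix

variable {r : ℕ} {K : Type} [Field K]

/-- The root `e i - e j` in the basis of simple roots. -/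
def rtA (i j : Fin (r + 1)) : Fin r → ℤ := fun k =>
  if (i : ℕ) ≤ k ∧ (k : ℕ) < j then 1 else if (j : ℕ) ≤ k ∧ (k : ℕ) < i then -1 else 0

theorem nata_eq (i j : Fin (r + 1)) (k : Fin r) :
    rtA i j k = (if (i : ℕ) < k + 1 then 1 else 0) - (if (j : ℕ) < k + 1 then 1 else 0) := by
  unfold rtA
  split_ifs <;> omega

theorem nata_sum (i m : Fin (r + 1)) :
    ∑ k : Fin r, (if (i : ℕ) < k + 1 then (1 : ℤ) else 0) * tA r k m = ee i m - ee r m := by
  have h : ∀ n, n ≤ r → ∑ k ∈ Finset.range n, (if (i : ℕ) < k + 1 then (1 : ℤ) else 0) *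
      ((ee k : Fin (r + 1) → ℤ) m - (ee (k + 1) : Fin (r + 1) → ℤ) m) =
      if (i : ℕ) ≤ n then ee i m - ee n m else 0 := by
    intro n hn
    induction n with
    | zero => simp only [Finset.range_zero, Finset.sum_empty, ee]; split_ifs <;> omega
    | succ n ih =>
      rw [Finset.sum_range_succ, ih (by omega)]
      simp only [ee]
      split_ifs <;> omega
  have := h r le_rfl
  rw [if_pos (by omega), ← Fin.sum_univ_eq_sum_range (fun k => (if (i : ℕ) < k + 1 then (1 : ℤ)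
    else 0) * ((ee k : Fin (r + 1) → ℤ) m - (ee (k + 1) : Fin (r + 1) → ℤ) m))] at this
  exact this

theorem nata_tau (i j : Fin (r + 1)) : tau (tA r) (rtA i j) = ee i - ee j := by
  ext m
  simp only [tau_apply, Finset.sum_apply, Pi.smul_apply, smul_eq_mul, nata_eq, sub_mul,
    Finset.sum_sub_distrib, nata_sum, Pi.sub_apply]
  ring

theorem nata_dp (w : Fin (r + 1) → ℤ) (i : Fin (r + 1)) : dp w (ee i) = w i := by
  rw [dp_apply, Finset.sum_eq_single i (fun j _ ne => by simp [ee, Fin.val_ne_of_ne ne]) (by simp)]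
  simp [ee]

theorem nata_fm (u : Fin r → ℤ) (i j : Fin (r + 1)) :
    fm (CartanMatrix.A r) u (rtA i j) = tau (tA r) u i - tau (tA r) u j := by
  rw [← tau_iso gramA, nata_tau, map_sub, nata_dp, nata_dp]

theorem nata_fm2 (i j a b : Fin (r + 1)) : fm (CartanMatrix.A r) (rtA i j) (rtA a b) =
    ((if a = i then 1 else 0) - (if a = j then 1 else 0)) -
      ((if b = i then 1 else 0) - (if b = j then 1 else 0)) := by
  simp only [nata_fm, nata_tau, Pi.sub_apply, ee, Fin.ext_iff]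

theorem rtA_root {i j : Fin (r + 1)} (h : i ≠ j) : form (CartanMatrix.A r) (rtA i j) (rtA i j) = 2 := by
  rw [fm_apply, nata_fm2]
  simp [h, h.symm]

theorem nata_tA_sum (k : Fin r) : ∑ m, tA r k m = 0 := by
  have h : ∀ n, n < r + 1 → ∑ m, (ee n : Fin (r + 1) → ℤ) m = 1 := fun n hn => by
    have := nata_dp (fun _ => 1) ⟨n, hn⟩
    simpa [dp_apply] using this
  simp only [tA, Pi.sub_apply, Finset.sum_sub_distrib]
  rw [h _ (by omega), h _ (by omega), sub_self]

theorem rtA_surj (hr : 2 ≤ r) {β : Fin r → ℤ} (h : form (CartanMatrix.A r) β β = 2) :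
    ∃ i j, i ≠ j ∧ β = rtA i j := by
  set w := tau (tA r) β with hw
  have s : ∑ m, w m = 0 := by
    simp only [hw, tau_apply, Finset.sum_apply, Pi.smul_apply, smul_eq_mul]
    rw [Finset.sum_comm]
    simp only [← Finset.mul_sum, nata_tA_sum, mul_zero, Finset.sum_const_zero]
  have ne : w ≠ 0 := fun e => by
    have := tau_iso gramA β β
    rw [← hw, e, ← fm_apply, h] at this
    simp at this
  obtain ⟨i, hi⟩ : ∃ i, 0 < w i := by
    by_contra! c
    exact ne (funext fun m => (Finset.sum_eq_zero_iff_of_nonpos fun m _ => c m).1 s m (by simp))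
  obtain ⟨j, hj⟩ : ∃ j, w j < 0 := by
    by_contra! c
    exact ne (funext fun m => (Finset.sum_eq_zero_iff_of_nonneg fun m _ => c m).1 s m (by simp))
  have ij : i ≠ j := by rintro rfl; omega
  refine ⟨i, j, ij, (goodA hr).eq2 h (rtA_root ij) ?_⟩
  rw [nata_fm, ← hw]; omega

theorem rtA_rev (i j : Fin (r + 1)) : rtA i j ∘ Fin.revPerm = rtA j.rev i.rev := by
  ext k
  simp only [Function.comp_apply, nata_eq, Fin.revPerm_apply, Fin.val_rev]
  split_ifs <;> omega

theorem nata_neg (i j : Fin (r + 1)) : -rtA i j = rtA j i := by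
  ext k; simp only [Pi.neg_apply, nata_eq]; ring

theorem nata_subl (a b j : Fin (r + 1)) : rtA a j - rtA a b = rtA b j := by
  ext k; simp only [Pi.sub_apply, nata_eq]; ring

theorem nata_subr (a b i : Fin (r + 1)) : rtA i b - rtA a b = rtA i a := by
  ext k; simp only [Pi.sub_apply, nata_eq]; ring

theorem nata_cm0 (u v : Fin r → ℤ) :
    cm (CartanMatrix.A r) u v = -∑ i : Fin r, u i * tau (tA r) v i.succ := by
  change coc _ u v = _
  simp only [coc, tau_apply, Finset.sum_apply, Pi.smul_apply, smul_eq_mul, Finset.mul_sum,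
    ← Finset.sum_neg_distrib]
  refine Finset.sum_congr rfl fun i _ => Finset.sum_congr rfl fun j _ => ?_
  simp only [tA, ee, Pi.sub_apply, CartanMatrix.A, of_apply, Fin.ext_iff, Fin.val_succ, Fin.lt_def]
  split_ifs <;> first | omega | ring

theorem nata_cm (i j a b : Fin (r + 1)) : cm (CartanMatrix.A r) (rtA i j) (rtA a b) =
    ((if i < b then 1 else 0) - (if j < b then 1 else 0)) -
      ((if i < a then 1 else 0) - (if j < a then 1 else 0)) := by
  have h : ∀ y : Fin (r + 1) → ℤ, ∑ k : Fin r, rtA i j k * y k.succ =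
      dp (fun k => (if i < k then 1 else 0) - (if j < k then 1 else 0)) y := fun y => by
    rw [dp_apply, Fin.sum_univ_succ]
    simp only [nata_eq, Fin.lt_def, Fin.val_succ, Fin.val_zero, Nat.not_lt_zero, if_false]
    simp only [Order.lt_add_one_iff, sub_self, zero_mul, zero_add]
  rw [nata_cm0, h, nata_tau, map_sub, nata_dp, nata_dp]; ring

variable (K) in
/-- The signs of the root vectors. -/
def nata_sg (i j : Fin (r + 1)) : K := if i < j then -1 else 1

theorem nata_sg_pm (i j : Fin (r + 1)) : Pm (nata_sg K i j) := by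
  unfold nata_sg Pm; split_ifs <;> simp

theorem nata_sg_swap {i j : Fin (r + 1)} (h : i ≠ j) : nata_sg K j i = -nata_sg K i j := by
  unfold nata_sg
  rcases lt_or_gt_of_ne h with p | p <;> simp [p, p.not_gt]

theorem nata_epl (a b j : Fin (r + 1)) :
    nata_sg K a j * ep (CartanMatrix.A r) K (rtA a b) (rtA b j) = nata_sg K a b * nata_sg K b j := by
  simp only [ep, nata_cm, nata_sg, lt_irrefl, if_false]
  split_ifs <;> norm_num

theorem nata_epr {a b i : Fin (r + 1)} (h : a ≠ b) (h1 : i ≠ a) (h2 : i ≠ b) :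
    nata_sg K i b * ep (CartanMatrix.A r) K (rtA a b) (rtA i a) = -(nata_sg K a b * nata_sg K i a) := by
  simp only [ep, nata_cm, nata_sg, lt_irrefl, if_false]
  split_ifs <;> first | (exfalso; omega) | norm_num

theorem nata_tw (hr : 2 ≤ r) {i j : Fin (r + 1)} (h : i ≠ j) :
    (-1 : K) ^ tw (CartanMatrix.A r) Fin.revPerm (rtA i j) = -((-1) ^ (i : ℕ) * (-1) ^ (j : ℕ)) := by
  have h1 : ∀ u : Fin r → ℤ, cm (CartanMatrix.A r) u u =
      tw (CartanMatrix.A r) Fin.revPerm u + ∑ k, u k * u k := fun u => by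
    change coc _ u u = _
    simp only [coc, tw, ← Finset.sum_add_distrib]
    refine Finset.sum_congr rfl fun a _ => ?_
    rw [show u a * u a = ∑ b, if a = b then u a * u b else 0 by simp only [Finset.sum_ite_eq, Finset.mem_univ, ↓ reduceIte], ← Finset.sum_add_distrib]
    refine Finset.sum_congr rfl fun b _ => ?_
    simp only [Fin.revPerm_apply, Fin.rev_lt_rev, and_self]
    split_ifs with p q
    · exact absurd q p.ne
    all_goals simp
  have h2 : ∀ u : Fin r → ℤ, ∑ k, u k = dp (fun m : Fin (r + 1) => -(m : ℤ)) (tau (tA r) u) :=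
    fun u => by
      simp only [tau_apply, map_sum, map_zsmul, tA, map_sub, dp_ee fun m : ℕ => -(m : ℤ)]
      refine Finset.sum_congr rfl fun k _ => ?_
      rw [if_pos (by omega), if_pos (by omega)]; simp
  have h3 : Even (∑ k, rtA i j k * rtA i j k - ∑ k, rtA i j k) := by
    rw [← Finset.sum_sub_distrib]
    refine Finset.even_sum _ fun k _ => ?_
    unfold rtA; split_ifs <;> decide
  have h4 := (goodA hr).cm_add (rtA i j) (rtA i j)
  rw [← fm_apply, rtA_root h, h1] at h4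
  rw [h2 (rtA i j), nata_tau, map_sub, nata_dp, nata_dp] at h3
  obtain ⟨c, hc⟩ := h3
  rw [show tw (CartanMatrix.A r) Fin.revPerm (rtA i j) = 1 + (i : ℕ) + (j : ℕ) + ((-c - j) + (-c - j))
    by omega, sg_add, sg_add (-c - j), (pm_zpow _).sq, sg_add, sg_add]
  simp only [zpow_ofNat, pow_one, zpow_natCast, neg_mul, one_mul, mul_one]

/-- The diagonal entries of an element of the Cartan subalgebra. -/
def nata_dg (h : Fin r → K) (i : Fin (r + 1)) : K := ∑ k, h k * (tA r k i : ℤ)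

/-- The natural representation. -/
def nata_io (v : Lie (CartanMatrix.A r) K) : Matrix (Fin (r + 1)) (Fin (r + 1)) K :=
  of fun i j => if i = j then nata_dg v.1 i else nata_sg K i j * co _ v (rtA i j)

theorem nata_io_d (v : Lie (CartanMatrix.A r) K) (i : Fin (r + 1)) :
    nata_io v i i = nata_dg v.1 i := if_pos rfl

theorem nata_io_o (v : Lie (CartanMatrix.A r) K) {i j : Fin (r + 1)} (h : i ≠ j) :
    nata_io v i j = nata_sg K i j * co _ v (rtA i j) := if_neg h

theorem nata_hb (hr : 2 ≤ r) (h : Fin r → K) (a b : Fin (r + 1)) :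
    hb (CartanMatrix.A r) (rtA a b) h = nata_dg h a - nata_dg h b := by
  simp only [hb, nata_dg, ← Finset.sum_sub_distrib]
  refine Finset.sum_congr rfl fun k _ => ?_
  rw [(goodA hr).fsymm, nata_fm, tau_single]; push_cast; ring

theorem nata_tr (v : Lie (CartanMatrix.A r) K) : trace (nata_io v) = 0 := by
  simp only [trace, diag_apply, nata_io_d, nata_dg]
  rw [Finset.sum_comm]
  simp only [← Finset.mul_sum, ← Int.cast_sum, nata_tA_sum, Int.cast_zero, mul_zero, Finset.sum_const_zero]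

theorem nata_dg_inv (h : Fin r → K) (k : Fin r) :
    ∑ m : Fin (r + 1), (if (m : ℕ) < k + 1 then nata_dg h m else 0) = h k := by
  have e : ∀ l : Fin r, ∑ m : Fin (r + 1), (if (m : ℕ) < k + 1 then 1 else 0) * tA r l m =
      if l = k then 1 else 0 := fun l => by
    rw [← dp_apply]
    simp only [tA, map_sub, dp_ee fun m : ℕ => if m < k + 1 then 1 else 0, Fin.ext_iff]
    split_ifs <;> omega
  calc _ = ∑ m : Fin (r + 1), ∑ l, h l * (((if (m : ℕ) < k + 1 then 1 else 0) * tA r l m : ℤ) : K) :=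
        Finset.sum_congr rfl fun m _ => by split_ifs <;> simp only [nata_dg, one_mul, zero_mul, Int.cast_zero, mul_zero, Finset.sum_const_zero]
    _ = _ := by
      rw [Finset.sum_comm]
      simp only [← Finset.mul_sum, ← Int.cast_sum, e]
      simp only [Int.cast_ite, Int.cast_one, Int.cast_zero, mul_ite, mul_one, mul_zero, Finset.sum_ite_eq', Finset.mem_univ, ↓ reduceIte]

theorem nata_inj (hr : 2 ≤ r) : Function.Injective (nata_io (r := r) (K := K)) := by
  intro v w e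
  refine lie_ext (funext fun k => ?_) fun u hu => ?_
  · rw [← nata_dg_inv v.1, ← nata_dg_inv w.1]
    simp only [← nata_io_d, e]
  · obtain ⟨i, j, h, rfl⟩ := rtA_surj hr hu
    have := congrFun (congrFun e i) j
    rw [nata_io_o _ h, nata_io_o _ h] at this
    exact mul_left_cancel₀ (nata_sg_pm i j).ne this

theorem nata_rt_inj {i j a b : Fin (r + 1)} (h : i ≠ j) (e : rtA i j = rtA a b) : i = a ∧ j = b := by
  have := rtA_root h
  rw [fm_apply] at this
  nth_rewrite 2 [e] at this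
  rw [nata_fm2] at this
  split_ifs at this <;> omega

theorem nata_surj (X : Matrix (Fin (r + 1)) (Fin (r + 1)) K) : ∃ v, trace X = 0 → nata_io v = X := by
  classical
  refine ⟨(fun k => ∑ m : Fin (r + 1), (if (m : ℕ) < k + 1 then 1 else 0) * X m m, fun u =>
    ∑ i, ∑ j, if u.1 = rtA i j then nata_sg K i j * X i j else 0), fun t => ?_⟩
  ext i j
  by_cases h : i = j
  · subst h
    rw [nata_io_d]
    simp only [nata_dg, Finset.sum_mul]
    rw [Finset.sum_comm]
    have e : ∀ m : Fin (r + 1), ∑ k : Fin r, (if (m : ℕ) < k + 1 then (1 : K) else 0) * X m m *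
        (tA r k i : ℤ) = X m m * ((ee m i - ee r i : ℤ) : K) := fun m => by
      rw [← nata_sum, Int.cast_sum, Finset.mul_sum]
      exact Finset.sum_congr rfl fun k _ => by split_ifs <;> simp
    simp only [e, Int.cast_sub, mul_sub, Finset.sum_sub_distrib, ← Finset.sum_mul]
    rw [show ∑ m, X m m = 0 from t, zero_mul, sub_zero,
      Finset.sum_eq_single i (fun m _ ne => by simp [ee, Fin.val_ne_of_ne ne.symm]) (by simp only [Finset.mem_univ, not_true_eq_false, mul_eq_zero, IsEmpty.forall_iff])]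
    simp [ee]
  · rw [nata_io_o _ h, co_root (rtA_root h)]
    dsimp only
    rw [Finset.sum_eq_single i, Finset.sum_eq_single j]
    · simp only [if_true]
      rw [← mul_assoc, (nata_sg_pm i j).sq, one_mul]
    · exact fun b _ ne => if_neg fun e => ne (nata_rt_inj h e).2.symm
    · simp
    · exact fun a _ ne => Finset.sum_eq_zero fun b _ => if_neg fun e => ne (nata_rt_inj h e).1.symm
    · simp

theorem nata_conj {a b : Fin (r + 1)} (h : a ≠ b) (s : K) (X : Matrix (Fin (r + 1)) (Fin (r + 1)) K)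
    (i j : Fin (r + 1)) : ((1 + single a b s) * X * (1 - single a b s) : Matrix _ _ K) i j =
      X i j + (if i = a then s * X b j else 0) - (if j = b then s * X i a else 0) -
        if i = a ∧ j = b then s ^ 2 * X b a else 0 := by
  simp only [mul_sub, add_mul, mul_one, one_mul, Matrix.sub_apply, Matrix.add_apply]
  by_cases p : i = a <;> by_cases q : j = b
  · subst p q; simp only [single_mul_apply_same, mul_single_apply_same, ↓ reduceIte, and_self]; ring
  · subst p; simp [q]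
  · subst q; simp [p]; ring
  · simp [p, q]

theorem nata_xo (hr : 2 ≤ r) {a b : Fin (r + 1)} (h : a ≠ b) (t : K) (v : Lie (CartanMatrix.A r) K) :
    nata_io (xo _ (rtA a b) t v) =
      (1 + single a b (nata_sg K a b * t)) * nata_io v * (1 - single a b (nata_sg K a b * t)) := by
  have hC := goodA hr
  have hβ : fm _ _ _ = 2 := rtA_root h
  have sq := (nata_sg_pm (K := K) a b).sq
  have ba := nata_io_o v h.symm
  rw [nata_sg_swap h] at ba
  ext i j
  rw [nata_conj h]
  by_cases e : i = j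
  · subst e
    have := congrFun (nata_tau a b) i
    simp only [tau_apply, Finset.sum_apply, Pi.smul_apply, smul_eq_mul] at this
    have e2 : nata_dg (xo _ (rtA a b) t v).1 i = nata_dg v.1 i - t * co _ v (rtA b a) *
        ((ee a - ee b : Fin (r + 1) → ℤ) i : ℤ) := by
      simp only [nata_dg, xo_fst, nata_neg, ← this, Int.cast_sum, Finset.mul_sum,
        ← Finset.sum_sub_distrib]
      exact Finset.sum_congr rfl fun k _ => by push_cast; ring
    rw [nata_io_d, nata_io_d, e2]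
    simp only [Pi.sub_apply, ee, ← Fin.ext_iff]
    by_cases p : i = a
    · subst p
      simp only [if_true, h, if_false, and_false, ba]
      push_cast
      linear_combination (t * co _ v (rtA b i)) * sq
    · by_cases q : i = b
      · subst q
        simp only [if_true, p, if_false, false_and, ba]
        push_cast
        linear_combination (-(t * co _ v (rtA i a))) * sq
      · simp [p, q]
  · have hu : fm _ _ _ = 2 := rtA_root e
    rw [nata_io_o _ e, nata_io_o _ e]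
    by_cases p : i = a <;> by_cases q : j = b
    · subst p q
      simp only [if_true, and_self, Good0.co_self hβ, nata_hb hr, nata_io_d, ba, nata_neg]
      linear_combination (-(t ^ 2 * nata_sg K i j * co _ v (rtA j i))) * sq
    · subst p
      simp only [if_true, q, if_false, and_false]
      rw [Good0.co_one hβ hu (by simp [nata_fm2, e, h.symm, Ne.symm q]), nata_subl,
        nata_io_o _ (Ne.symm q)]
      linear_combination (t * co _ v (rtA b j)) * nata_epl (K := K) i b j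
    · subst q
      simp only [if_true, p, if_false, false_and]
      rw [Good0.co_one hβ hu (by simp [nata_fm2, Ne.symm e, h, Ne.symm p]), nata_subr,
        nata_io_o _ p]
      linear_combination (t * co _ v (rtA i a)) * nata_epr (K := K) h p e
    · simp only [p, q, if_false, false_and]
      rw [hC.co_fix hβ (by
        simp only [nata_fm2, Ne.symm p, Ne.symm q, if_false]; split_ifs <;> omega)]
      ring

theorem nata_tA_rev (k : Fin r) (i : Fin (r + 1)) : tA r k.rev i = -tA r k i.rev := by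
  have := congrFun (rA_tA k) i
  rw [Fin.revPerm_apply] at this
  rw [← this]; rfl

theorem nata_sigma (hr : 2 ≤ r) (φ : K →+* K) (v : Lie (CartanMatrix.A r) K) :
    nata_io (sigma _ Fin.revPerm φ v) * Jm r K = -(Jm r K * ((nata_io v).map φ)ᵀ) := by
  have hρC : ∀ i j : Fin r, CartanMatrix.A r (Fin.revPerm i) (Fin.revPerm j) = CartanMatrix.A r i j :=
    fun i j => by rw [← gramA, ← rA_tA, ← rA_tA, dp_rA, gramA]
  ext i j
  have e1 : ∀ X : Matrix (Fin (r + 1)) (Fin (r + 1)) K, (X * Jm r K) i j =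
      X i j.rev * (-1) ^ (j.rev : ℕ) := fun X => by
    rw [mul_apply, Finset.sum_eq_single j.rev (fun m _ ne => by
      rw [Jm, of_apply, if_neg (fun e => ne (by rw [e, Fin.rev_rev])), mul_zero]) (by simp)]
    simp only [Jm, of_apply, Fin.rev_rev, ↓ reduceIte, Fin.val_rev, Nat.reduceSubDiff]
  have e2 : ∀ X : Matrix (Fin (r + 1)) (Fin (r + 1)) K, (Jm r K * X) i j =
      (-1) ^ (i : ℕ) * X i.rev j := fun X => by
    rw [mul_apply, Finset.sum_eq_single i.rev (fun m _ ne => by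
      rw [Jm, of_apply, if_neg ne, zero_mul]) (by simp)]
    simp only [Jm, of_apply, ↓ reduceIte]
  rw [neg_apply, e1, e2, transpose_apply, map_apply]
  by_cases e : i = j.rev
  · subst e
    rw [Fin.rev_rev, nata_io_d, nata_io_d]
    simp only [nata_dg, sigma_fst (ρ := Fin.revPerm) Fin.rev_rev, map_sum, map_mul, map_intCast]
    rw [← Equiv.sum_comp Fin.revPerm]
    simp only [Fin.revPerm_apply, Fin.rev_rev, nata_tA_rev, Int.cast_neg, mul_neg,
      Finset.sum_neg_distrib]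
    ring
  · have e' : j ≠ i.rev := fun c => e (by rw [c, Fin.rev_rev])
    rw [nata_io_o _ e, nata_io_o _ e', co_sigma hρC, rtA_rev, Fin.rev_rev, nata_tw hr e', map_mul,
      (nata_sg_pm _ _).map, show nata_sg K i j.rev = nata_sg K j i.rev by
        simp only [nata_sg, Fin.lt_rev_iff]]
    have a1 : (-1 : K) ^ (j : ℕ) * (-1) ^ (j.rev : ℕ) = (-1) ^ (i : ℕ) * (-1) ^ (i.rev : ℕ) := by
      rw [← pow_add, ← pow_add, Fin.val_rev, Fin.val_rev]; congr 1; omega
    have a2 : (-1 : K) ^ (i.rev : ℕ) * (-1) ^ (i.rev : ℕ) = 1 := by rw [← mul_pow]; simp only [mul_neg, mul_one, neg_neg, Fin.val_rev, Nat.reduceSubDiff, one_pow]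
    linear_combination (-(nata_sg K j i.rev * φ (co _ v (rtA j i.rev)) * (-1) ^ (i.rev : ℕ))) * a1 +
      (-(nata_sg K j i.rev * φ (co _ v (rtA j i.rev)) * (-1) ^ (i : ℕ))) * a2

/-- The adjoint action of the general linear group on the model. -/
theorem nat_ex (hr : 2 ≤ r) : ∃ Ψ : GL (Fin (r + 1)) K →* Equiv.Perm (Lie (CartanMatrix.A r) K),
    (∀ g, Ψ g = 1 ↔ Sc g) ∧
    (∀ i j, i ≠ j → rootGroup (CartanMatrix.A r) K (rtA i j) = Set.range fun s => Ψ (el i j s)) ∧
    ∀ (φ : K →+* K) (g g' : GL (Fin (r + 1)) K), g'.1 * Jm r K * (g.1.map φ)ᵀ = Jm r K → ∀ v,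
      Ψ g' (sigma (CartanMatrix.A r) Fin.revPerm φ v) =
        sigma (CartanMatrix.A r) Fin.revPerm φ (Ψ g v) := by
  choose κ hκ using nata_surj (r := r) (K := K)
  have inj := nata_inj (K := K) hr
  have key : ∀ (g : GL (Fin (r + 1)) K) v, nata_io (κ (g.1 * nata_io v * (g⁻¹).1)) =
      g.1 * nata_io v * (g⁻¹).1 := fun g v => hκ _ (by rw [trace_units_conj, nata_tr])
  let F : GL (Fin (r + 1)) K →* Function.End (Lie (CartanMatrix.A r) K) :=
    { toFun := fun g v => κ (g.1 * nata_io v * (g⁻¹).1)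
      map_one' := funext fun v => inj (by rw [key]; simp; rfl)
      map_mul' := fun g k => funext fun v => inj (by
        change nata_io (κ _) = nata_io (κ (g.1 * nata_io (κ _) * _))
        rw [key, key, key, _root_.mul_inv_rev, Units.val_mul, Units.val_mul]
        simp only [mul_assoc]) }
  have hF : ∀ g v, nata_io (F.toHomPerm g v) = g.1 * nata_io v * (g⁻¹).1 := key
  refine ⟨F.toHomPerm, fun g => ⟨fun e => ?_, ?_⟩, fun i j h => ?_, fun φ g g' e v => inj ?_⟩
  · obtain ⟨z, hz⟩ := mem_range_scalar_of_commute_single (M := g.1) fun i j h => by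
      have := hF g (κ (single i j 1))
      rw [e, Equiv.Perm.one_apply, hκ _ (trace_single_eq_of_ne _ _ _ h)] at this
      change _ * _ = _ * _
      nth_rewrite 1 [this]
      rw [mul_assoc, Units.inv_mul, mul_one]
    exact ⟨z, by rw [← hz, scalar_apply, smul_one_eq_diagonal]⟩
  · rintro ⟨z, hz⟩
    ext1 v
    refine inj ?_
    rw [hF, Equiv.Perm.one_apply, show g.1 * nata_io v = nata_io v * g.1 by simp [hz], mul_assoc,
      Units.mul_inv, mul_one]
  · have x : ∀ t v, F.toHomPerm (el i j (nata_sg K i j * t)) v = xo _ (rtA i j) t v := fun t v =>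
      inj (by rw [hF, nata_xo hr h, el_val h, el_inv h])
    ext g
    constructor
    · rintro ⟨t, ht⟩
      exact ⟨_, Equiv.ext fun v => (x t v).trans (ht v).symm⟩
    · rintro ⟨s, rfl⟩
      refine ⟨nata_sg K i j * s, fun v => ?_⟩
      have := x (nata_sg K i j * s) v
      rwa [← mul_assoc, (nata_sg_pm i j).sq, one_mul] at this
  · have u1 : (g.1.map φ)ᵀ * ((g⁻¹).1.map φ)ᵀ = 1 := by
      rw [← transpose_mul, ← Matrix.map_mul, Units.inv_mul, Matrix.map_one _ φ.map_zero φ.map_one,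
        transpose_one]
    have uJ : IsUnit (Jm r K) := by
      refine IsUnit.of_mul_eq_one (Jm r K)ᵀ ?_
      ext a b
      rw [mul_apply, Finset.sum_eq_single a.rev (fun m _ ne => by simp only [Jm, of_apply, ne, ↓ reduceIte, transpose_apply, mul_ite, zero_mul, mul_zero, ite_self]) (by simp)]
      by_cases c : a = b
      · subst c; simp only [Jm, of_apply, ↓ reduceIte, transpose_apply, ← mul_pow, mul_neg, mul_one, neg_neg, one_pow, one_apply_eq]
      · simp only [Jm, of_apply, ↓ reduceIte, transpose_apply, Fin.rev_inj, c, mul_zero, ne_eq, not_false_eq_true, one_apply_ne]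
    refine uJ.mul_right_cancel ?_
    have e1 : (g'⁻¹).1 * Jm r K = Jm r K * (g.1.map φ)ᵀ := by
      nth_rewrite 1 [← e]
      rw [mul_assoc, ← mul_assoc, Units.inv_mul, one_mul]
    have e2 : g'.1 * Jm r K = Jm r K * ((g⁻¹).1.map φ)ᵀ := by
      nth_rewrite 2 [← e]
      rw [mul_assoc _ _ ((g⁻¹).1.map φ)ᵀ, u1, mul_one]
    rw [hF, nata_sigma hr, hF, mul_assoc, e1, ← mul_assoc, mul_assoc g'.1, nata_sigma hr,
      Matrix.map_mul, Matrix.map_mul, transpose_mul, transpose_mul, mul_neg, ← mul_assoc, e2]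
    simp only [neg_mul, mul_assoc]

end Pool.Agent.MP_c78e8e_al.H75

end

section

namespace Pool.Agent.MP_c78e8e_al.H75

open Subgroup Matrix
open scoped commutatorElement

variable {r : ℕ} {K : Type} [Field K] {φ : K →+* K}

theorem Fx.mul {g g' : GL (Fin (r + 1)) K} (h : Fx φ g) (h' : Fx φ g') : Fx φ (g * g') := by
  unfold Fx at *
  rw [Units.val_mul, Matrix.map_mul, transpose_mul]
  calc g.1 * g'.1 * Jm r K * ((g'.1.map φ)ᵀ * (g.1.map φ)ᵀ)
      = g.1 * (g'.1 * Jm r K * (g'.1.map φ)ᵀ) * (g.1.map φ)ᵀ := by simp only [Matrix.mul_assoc]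
    _ = _ := by rw [h', h]

theorem natb1_one : Fx φ (1 : GL (Fin (r + 1)) K) := by
  simp [Fx, Matrix.map_one]

theorem Fx.inv {g : GL (Fin (r + 1)) K} (h : Fx φ g) : Fx φ g⁻¹ := by
  unfold Fx at *
  have e : (g.1.map φ)ᵀ * ((g⁻¹).1.map φ)ᵀ = 1 := by
    rw [← transpose_mul, ← Matrix.map_mul, Units.inv_mul]; simp [Matrix.map_one]
  calc (g⁻¹).1 * Jm r K * ((g⁻¹).1.map φ)ᵀ
      = (g⁻¹).1 * (g.1 * Jm r K * (g.1.map φ)ᵀ) * ((g⁻¹).1.map φ)ᵀ := by rw [h]
    _ = ((g⁻¹).1 * g.1) * Jm r K * ((g.1.map φ)ᵀ * ((g⁻¹).1.map φ)ᵀ) := by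
        simp only [Matrix.mul_assoc]
    _ = _ := by rw [e, Units.inv_mul, Matrix.one_mul, Matrix.mul_one]

theorem sug_fx {g : GL (Fin (r + 1)) K} (h : g ∈ sug r φ) : Fx φ g := by
  induction h using Subgroup.closure_induction with
  | mem x hx => obtain ⟨i, j, hx⟩ := hx; exact hx.1
  | one => exact natb1_one
  | mul x y _ _ hx hy => exact hx.mul hy
  | inv x _ hx => exact hx.inv

theorem rt_mem {i j : Fin (r + 1)} {g : GL (Fin (r + 1)) K} (h : g ∈ rt φ i j) : g ∈ sug r φ :=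
  Subgroup.subset_closure ⟨i, j, h⟩

theorem natb1_sm (i j k l : Fin (r + 1)) (a b : K) :
    single i j a * single k l b = if j = k then single i l (a * b) else 0 := by
  split_ifs with h
  · subst h; exact single_mul_single_same _ _ _ _ _
  · exact single_mul_single_of_ne _ _ _ _ h _

theorem natb1_sJ (i j : Fin (r + 1)) (a : K) :
    single i j a * Jm r K = single i j.rev (a * (-1) ^ (j : ℕ)) := by
  ext x y
  by_cases hx : i = x
  · subst hx
    rw [single_mul_apply_same]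
    by_cases hy : y = j.rev
    · subst hy; simp only [Jm, of_apply, ↓ reduceIte, single_apply_same]
    · simp only [Jm, of_apply, hy, ↓ reduceIte, mul_zero, Ne.symm hy, and_false, not_false_eq_true, single_apply_of_ne]
  · rw [single_mul_apply_of_ne _ _ _ _ _ (Ne.symm hx)]
    simp only [hx, false_and, not_false_eq_true, single_apply_of_ne]

theorem natb1_Js (i j : Fin (r + 1)) (a : K) :
    Jm r K * single j i a = single j.rev i ((-1) ^ (j.rev : ℕ) * a) := by
  ext x y
  by_cases hy : i = y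
  · subst hy
    rw [mul_single_apply_same]
    by_cases hx : x = j.rev
    · subst hx; simp only [Jm, of_apply, Fin.rev_rev, ↓ reduceIte, Fin.val_rev, Nat.reduceSubDiff, single_apply_same]
    · have : j ≠ x.rev := fun e => hx (by rw [e, Fin.rev_rev])
      simp only [Jm, of_apply, this, ↓ reduceIte, zero_mul, Fin.val_rev, Nat.reduceSubDiff, Ne.symm hx, and_true, not_false_eq_true, single_apply_of_ne]
  · rw [mul_single_apply_of_ne _ _ _ _ _ (Ne.symm hy)]
    simp only [Fin.val_rev, Nat.reduceSubDiff, hy, and_false, not_false_eq_true, single_apply_of_ne]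

theorem natb1_sg (j : Fin (r + 1)) : ((-1 : K)) ^ (j.rev : ℕ) = (-1) ^ r * (-1) ^ (j : ℕ) := by
  have : ((-1 : K)) ^ r = (-1) ^ ((j.rev : ℕ) + j) := by
    congr 1; have := j.2; rw [Fin.val_rev]; omega
  rw [this, pow_add, mul_assoc, ← mul_pow]; simp only [Fin.val_rev, Nat.reduceSubDiff, mul_neg, mul_one, neg_neg, one_pow]

theorem natb1_sq (n : ℕ) : ((-1 : K)) ^ n * (-1) ^ n = 1 := by
  rw [← mul_pow]; simp

/-- Normal form in the group generated by two families of elementary matrices. -/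
theorem natb1_nf {i j : Fin (r + 1)} (h : i ≠ j) (h2 : i ≠ i.rev) {g : GL (Fin (r + 1)) K}
    (hg : g ∈ Subgroup.closure (Set.range (el i j) ∪ Set.range (el j.rev i.rev))) :
    ∃ s t u : K, (j ≠ j.rev → u = 0) ∧
      g.1 = 1 + (single j.rev i.rev t + single i j s + single i i.rev u) := by
  have h3 : j.rev ≠ i.rev := fun e => h (Fin.rev_injective e).symm
  induction hg using Subgroup.closure_induction'' with
  | mem x hx =>
    rcases hx with ⟨s, rfl⟩ | ⟨t, rfl⟩
    · exact ⟨s, 0, 0, fun _ => rfl, by simp [el_val h]⟩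
    · exact ⟨0, t, 0, fun _ => rfl, by simp [el_val h3]⟩
  | inv_mem x hx =>
    rcases hx with ⟨s, rfl⟩ | ⟨t, rfl⟩
    · exact ⟨-s, 0, 0, fun _ => rfl, by rw [el_inv h]; simp [single_neg, sub_eq_add_neg]⟩
    · exact ⟨0, -t, 0, fun _ => rfl, by rw [el_inv h3]; simp [single_neg, sub_eq_add_neg]⟩
  | one => exact ⟨0, 0, 0, fun _ => rfl, by simp⟩
  | mul x y _ _ hx hy =>
    obtain ⟨s, t, u, hu, e⟩ := hx
    obtain ⟨s', t', u', hu', e'⟩ := hy
    refine ⟨s + s', t + t', u + u' + if j = j.rev then s * t' else 0, fun n => by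
      simp [hu n, hu' n, n], ?_⟩
    rw [Units.val_mul, e, e']
    simp only [mul_add, add_mul, Matrix.one_mul, Matrix.mul_one, natb1_sm, h.symm, h2.symm, h3.symm,
      if_false, single_add, add_zero, zero_add]
    split_ifs
    · abel
    · simp only [single_zero]; abel

theorem natb1_fx {i j : Fin (r + 1)} (h : i ≠ j) (h2 : i ≠ i.rev) {g : GL (Fin (r + 1)) K}
    {s t u : K} (e : g.1 = 1 + (single j.rev i.rev t + single i j s + single i i.rev u)) :
    Fx φ g ↔ single j.rev i (t * (-1) ^ (i.rev : ℕ) + (-1) ^ (j.rev : ℕ) * φ s)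
      + single i j.rev (s * (-1) ^ (j : ℕ) + (-1) ^ (i : ℕ) * φ t)
      + single i i (u * (-1) ^ (i.rev : ℕ) + (-1) ^ (i : ℕ) * φ u
        + if j = j.rev then s * (-1) ^ (j : ℕ) * φ s else 0) = 0 := by
  have h3 : j.rev ≠ i.rev := fun e => h (Fin.rev_injective e).symm
  have m : (g.1.map φ)ᵀ = 1 + (single i.rev j.rev (φ t) + single j i (φ s) + single i.rev i (φ u)) := by
    rw [e]
    simp only [Matrix.map_add _ (map_add φ), transpose_add, map_single, transpose_single,
      Matrix.map_one _ (map_zero φ) (map_one φ), transpose_one]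
  unfold Fx
  rw [m, e]
  simp only [mul_add, add_mul, Matrix.one_mul, Matrix.mul_one, natb1_sm, natb1_sJ, natb1_Js,
    Fin.rev_rev, h, h2, h3, if_false, single_add, add_zero, zero_add]
  rw [← sub_eq_zero]
  refine Eq.congr_left ?_
  by_cases hj : j = j.rev
  · rw [if_pos hj, if_pos hj.symm]; abel
  · rw [if_neg hj, if_neg (Ne.symm hj), single_zero]; abel

theorem rt_long (hφ : ∀ s, φ (φ s) = s) {i : Fin (r + 1)} (h : i ≠ i.rev) (g : GL (Fin (r + 1)) K) :
    g ∈ rt φ i i.rev ↔ ∃ s, φ s = (-1) ^ (r + 1) * s ∧ g = el i i.rev s := by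
  have q := natb1_sq (K := K) i
  have n : i.rev ≠ i.rev.rev := by rw [Fin.rev_rev]; exact h.symm
  constructor
  · rintro ⟨f, c⟩
    obtain ⟨s, t, u, hu, e⟩ := natb1_nf h h c
    have e' : g.1 = 1 + (single i.rev.rev i.rev 0 + single i i.rev (t + s + u) + single i i.rev 0) := by
      rw [e]; simp [single_add]
    have k := congrFun₂ ((natb1_fx h h e').1 f) i i
    simp only [Fin.rev_rev, Matrix.add_apply, single_apply_same, h.symm, if_false, map_zero,
      natb1_sg, Matrix.zero_apply] at k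
    refine ⟨t + s + u, ?_, Units.ext (by rw [e', el_val h]; simp)⟩
    linear_combination (-1) ^ (i : ℕ) * k - (φ (t + s + u) + (-1) ^ r * (t + s + u)) * q
  · rintro ⟨s, hs, rfl⟩
    refine ⟨(natb1_fx (s := s) (t := 0) (u := 0) h h (by rw [el_val h]; simp)).2 ?_,
      Subgroup.subset_closure (Or.inl ⟨s, rfl⟩)⟩
    simp only [Fin.rev_rev, h.symm, if_false, map_zero, natb1_sg, ← single_add, hs]
    rw [← single_zero i i]
    congr 1
    ring

theorem natb1_val {i j : Fin (r + 1)} (h : i ≠ j) (h3 : j ≠ j.rev) (s t : K) :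
    (el i j s * el j.rev i.rev t).1 = 1 + (single i j s + single j.rev i.rev t) := by
  have h4 : j.rev ≠ i.rev := fun e => h (Fin.rev_injective e).symm
  rw [Units.val_mul, el_val h, el_val h4]
  simp only [mul_add, add_mul, Matrix.one_mul, Matrix.mul_one, natb1_sm, h3, if_false, add_zero]
  abel

theorem rt_short (hφ : ∀ s, φ (φ s) = s) {i j : Fin (r + 1)} (h : i ≠ j) (h1 : j ≠ i.rev)
    (h2 : i ≠ i.rev) (h3 : j ≠ j.rev) (g : GL (Fin (r + 1)) K) :
    g ∈ rt φ i j ↔ ∃ s, g = el i j s * el j.rev i.rev (-(-1) ^ ((i : ℕ) + j) * φ s) := by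
  have q := natb1_sq (K := K) i
  have q' := natb1_sq (K := K) r
  have h5 : i ≠ j.rev := fun e => h1 (by rw [e, Fin.rev_rev])
  constructor
  · rintro ⟨f, c⟩
    obtain ⟨s, t, u, hu, e⟩ := natb1_nf h h2 c
    have k := congrFun₂ ((natb1_fx h h2 e).1 f) j.rev i
    simp only [Matrix.add_apply, single_apply, h5, h5.symm, false_and, and_self, if_true, if_false,
      natb1_sg, Matrix.zero_apply] at k
    have ht : t = -(-1) ^ ((i : ℕ) + j) * φ s := by
      linear_combination (-1) ^ r * (-1) ^ (i : ℕ) * k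
        - (t * (-1) ^ (i : ℕ) * (-1) ^ (i : ℕ) + (-1) ^ ((i : ℕ) + j) * φ s) * q' - t * q
    refine ⟨s, Units.ext ?_⟩
    rw [natb1_val h h3, e, hu h3, ← ht, single_zero]
    abel
  · rintro ⟨s, rfl⟩
    refine ⟨(natb1_fx (s := s) (t := -(-1) ^ ((i : ℕ) + j) * φ s) (u := 0) h h2
      (by rw [natb1_val h h3, single_zero]; abel)).2 ?_, mul_mem
      (Subgroup.subset_closure (Or.inl ⟨s, rfl⟩)) (Subgroup.subset_closure (Or.inr ⟨_, rfl⟩))⟩
    have a1 : -(-1) ^ ((i : ℕ) + j) * φ s * (-1) ^ (i.rev : ℕ) + (-1) ^ (j.rev : ℕ) * φ s = 0 := by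
      rw [natb1_sg, natb1_sg]
      linear_combination (-(-1) ^ r * (-1) ^ (j : ℕ) * φ s) * q
    have a2 : s * (-1) ^ (j : ℕ) + (-1) ^ (i : ℕ) * φ (-(-1) ^ ((i : ℕ) + j) * φ s) = 0 := by
      simp only [map_mul, map_neg, map_pow, map_one, hφ]
      linear_combination (-(-1) ^ (j : ℕ) * s) * q
    rw [a1, a2]
    simp only [single_zero, add_zero, Fin.val_rev, Nat.reduceSubDiff, zero_mul, map_zero, mul_zero, h3, ↓ reduceIte]

theorem natb1_val3 {i m k : Fin (r + 1)} (h : i ≠ m) (h2 : i ≠ k) (h4 : m ≠ k) (s t u : K) :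
    (el m k t * el i m s * el i k u).1 = 1 + (single m k t + single i m s + single i k u) := by
  rw [Units.val_mul, Units.val_mul, el_val h, el_val h2, el_val h4]
  simp only [mul_add, add_mul, Matrix.one_mul, Matrix.mul_one, natb1_sm, h.symm, h2.symm, if_false,
    add_zero]
  abel

theorem natb1_comm {i m k : Fin (r + 1)} (h : i ≠ m) (h2 : i ≠ k) (h4 : m ≠ k) (u : K) :
    el i k u = (el m k 1 * el i m u)⁻¹ * (el i m u * el m k 1) := by
  rw [eq_inv_mul_iff_mul_eq]
  refine Units.ext ?_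
  rw [natb1_val3 h h2 h4, Units.val_mul, el_val h, el_val h4]
  simp only [mul_add, add_mul, Matrix.one_mul, Matrix.mul_one, natb1_sm, if_true, mul_one]
  abel

theorem rt_mid (hφ : ∀ s, φ (φ s) = s) {i m : Fin (r + 1)} (h : i ≠ m) (hm : m = m.rev)
    (g : GL (Fin (r + 1)) K) :
    g ∈ rt φ i m ↔ ∃ s u, u + φ u = -(-1) ^ ((i : ℕ) + m) * (s * φ s) ∧
      g = el m i.rev (-(-1) ^ ((i : ℕ) + m) * φ s) * el i m s * el i i.rev u := by
  have q := natb1_sq (K := K) i
  have hv : r = m + m := by have := congrArg Fin.val hm; have := m.2; rw [Fin.val_rev] at *; omega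
  have h2 : i ≠ i.rev := fun e => h (Fin.ext (by
    have := congrArg Fin.val e; have := i.2; rw [Fin.val_rev] at *; omega))
  have h4 : m ≠ i.rev := fun e => h (by rw [hm, e, Fin.rev_rev])
  have sr : ((-1 : K)) ^ r = 1 := by rw [hv, pow_add, natb1_sq]
  have si : ((-1 : K)) ^ (i.rev : ℕ) = (-1) ^ (i : ℕ) := by rw [natb1_sg, sr, one_mul]
  constructor
  · rintro ⟨f, c⟩
    obtain ⟨s, t, u, -, e⟩ := natb1_nf h h2 c
    have k0 := (natb1_fx h h2 e).1 f
    rw [if_pos hm, ← hm, si] at k0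
    rw [← hm] at e
    have k := congrFun₂ k0 m i
    have k' := congrFun₂ k0 i i
    simp only [Matrix.add_apply, single_apply, h, h.symm, false_and, and_false, and_self, if_true,
      if_false, Matrix.zero_apply] at k k'
    have ht : t = -(-1) ^ ((i : ℕ) + m) * φ s := by
      linear_combination (-1) ^ (i : ℕ) * k - t * q
    refine ⟨s, u, ?_, Units.ext ?_⟩
    · linear_combination (-1) ^ (i : ℕ) * k' - (u + φ u) * q
    · rw [natb1_val3 h h2 h4, e, ← ht]
  · rintro ⟨s, u, hu, rfl⟩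
    refine ⟨(natb1_fx (s := s) (t := -(-1) ^ ((i : ℕ) + m) * φ s) (u := u) h h2
      (by rw [natb1_val3 h h2 h4, ← hm])).2 ?_, ?_⟩
    · rw [if_pos hm, ← hm, si]
      have a1 : -(-1) ^ ((i : ℕ) + m) * φ s * (-1) ^ (i : ℕ) + (-1) ^ (m : ℕ) * φ s = 0 := by
        linear_combination (-(-1) ^ (m : ℕ) * φ s) * q
      have a2 : s * (-1) ^ (m : ℕ) + (-1) ^ (i : ℕ) * φ (-(-1) ^ ((i : ℕ) + m) * φ s) = 0 := by
        simp only [map_mul, map_neg, map_pow, map_one, hφ]
        linear_combination (-(-1) ^ (m : ℕ) * s) * q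
      have a3 : u * (-1) ^ (i : ℕ) + (-1) ^ (i : ℕ) * φ u + s * (-1) ^ (m : ℕ) * φ s = 0 := by
        linear_combination (-1) ^ (i : ℕ) * hu - ((-1) ^ (m : ℕ) * s * φ s) * q
      rw [a1, a2, a3]
      simp
    · rw [← hm]
      have b1 : ∀ s : K, el i m s ∈ Subgroup.closure (Set.range (el i m) ∪ Set.range (el m i.rev)) :=
        fun s => Subgroup.subset_closure (Or.inl ⟨s, rfl⟩)
      have b2 : ∀ s : K, el m i.rev s ∈
          Subgroup.closure (Set.range (el i m) ∪ Set.range (el m i.rev)) :=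
        fun s => Subgroup.subset_closure (Or.inr ⟨s, rfl⟩)
      refine mul_mem (mul_mem (b2 _) (b1 _)) ?_
      rw [natb1_comm h h2 h4]
      exact mul_mem (inv_mem (mul_mem (b2 _) (b1 _))) (mul_mem (b1 _) (b2 _))

theorem rt_rev (i j : Fin (r + 1)) : rt φ j.rev i.rev = rt φ i j := by
  unfold rt
  rw [Fin.rev_rev, Fin.rev_rev, Set.union_comm]

theorem natb1_per {G : Type} [Group G] {N : Subgroup G} {S : Set G} (hS : ∀ g ∈ S, g ∈ N)
    (per : ∀ g ∈ S, ∃ a ∈ S, ∃ b ∈ S, g = ⁅a, b⁆) {g : G} (hg : g ∈ S) (n : g ≠ 1) :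
    ¬ Group.IsSolvable N := by
  have key : ∀ (k : ℕ) (x : N), x.1 ∈ S → x ∈ derivedSeries N k := by
    intro k
    induction k with
    | zero => intro x _; exact Subgroup.mem_top _
    | succ k ih =>
      intro x hx
      obtain ⟨a, ha, b, hb, e⟩ := per _ hx
      have : x = ⁅(⟨a, hS a ha⟩ : N), (⟨b, hS b hb⟩ : N)⁆ := Subtype.ext e
      rw [this, derivedSeries_succ]
      exact Subgroup.commutator_mem_commutator (ih _ ha) (ih _ hb)
  exact not_isSolvable_of_mem_derivedSeries (g := (⟨g, hS g hg⟩ : N))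
    (fun e => n (congrArg Subtype.val e)) fun k => key k _ hg

theorem natb1_ns5 (hr : 5 ≤ r) (hφ : ∀ s, φ (φ s) = s) : ¬ Group.IsSolvable (sug r φ) := by
  have ne : ∀ i j : Fin (r + 1), (i : ℕ) < 3 → (j : ℕ) < 3 → i ≠ j.rev := fun i j hi hj e => by
    have := congrArg Fin.val e; rw [Fin.val_rev] at this; omega
  let X : Fin (r + 1) → Fin (r + 1) → K → GL (Fin (r + 1)) K := fun i j s =>
    el i j s * el j.rev i.rev (-(-1) ^ ((i : ℕ) + j) * φ s)
  refine natb1_per (S := {g | ∃ (i j : Fin (r + 1)) (s : K), (i : ℕ) < 3 ∧ (j : ℕ) < 3 ∧ i ≠ j ∧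
    g = X i j s}) ?_ ?_ (g := X ⟨0, by omega⟩ ⟨1, by omega⟩ 1)
    ⟨_, _, _, by simp, by simp, by simp, rfl⟩ ?_
  · rintro g ⟨i, j, s, hi, hj, h, rfl⟩
    exact rt_mem ((rt_short hφ h (ne _ _ hj hi) (ne _ _ hi hi) (ne _ _ hj hj) _).2 ⟨s, rfl⟩)
  · rintro g ⟨i, k, s, hi, hk, h, rfl⟩
    have hik : (i : ℕ) ≠ k := fun e => h (Fin.ext e)
    obtain ⟨j, hj, hij, hjk⟩ : ∃ j : Fin (r + 1), (j : ℕ) < 3 ∧ i ≠ j ∧ j ≠ k :=
      ⟨⟨3 - i - k, by omega⟩, by simp only; omega, fun e => by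
        have := congrArg Fin.val e; simp only at this; omega, fun e => by
        have := congrArg Fin.val e; simp only at this; omega⟩
    refine ⟨_, ⟨i, j, s, hi, hj, hij, rfl⟩, _, ⟨j, k, 1, hj, hk, hjk, rfl⟩, ?_⟩
    rw [commutatorElement_def, eq_mul_inv_iff_mul_eq, eq_mul_inv_iff_mul_eq]
    refine Units.ext ?_
    have z : (-(-1) ^ ((i : ℕ) + k) * φ s : K)
        = -(-(-1) ^ ((j : ℕ) + k) * φ 1 * (-(-1) ^ ((i : ℕ) + j) * φ s)) := by
      rw [map_one]
      linear_combination ((-1) ^ ((i : ℕ) + k) * φ s) * natb1_sq (K := K) j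
    simp only [X]
    rw [Units.val_mul (_ * _ * _), Units.val_mul (_ * _) (_ * _), Units.val_mul (_ * _) (_ * _),
      natb1_val h (ne _ _ hk hk), natb1_val hij (ne _ _ hj hj), natb1_val hjk (ne _ _ hk hk), z]
    generalize (-(-1) ^ ((j : ℕ) + k) * φ 1 : K) = t
    generalize (-(-1) ^ ((i : ℕ) + j) * φ s : K) = v
    simp only [mul_add, add_mul, Matrix.one_mul, Matrix.mul_one, natb1_sm, Fin.rev_inj, h, h.symm,
      hij, hij.symm, hjk, hjk.symm, ne _ _ hk hk, ne _ _ hk hj, ne _ _ hj hk, (ne _ _ hj hi).symm,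
      (ne _ _ hi hi).symm, (ne _ _ hi hj).symm, if_true, if_false, add_zero, zero_add, mul_one,
      Matrix.zero_mul]
    rw [← single_neg]
    abel
  · intro e
    have e1 := congrArg Units.val e
    simp only [X] at e1
    rw [natb1_val (by simp) (ne _ _ (by simp) (by simp))] at e1
    have e2 := congrFun₂ e1 ⟨0, by omega⟩ ⟨1, by omega⟩
    have n1 := (ne ⟨0, by omega⟩ ⟨1, by omega⟩ (by simp) (by simp)).symm
    rw [Matrix.add_apply, Matrix.add_apply, single_apply_same, single_apply_of_row_ne n1] at e2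
    simp at e2

/-- Two commuting blocks. -/
def natb1_psi (φ : K →+* K) (P Q : Matrix (Fin (r + 1)) (Fin 2) K) (pp : Pᵀ * P = 1)
    (qq : Qᵀ * Q = 1) (pq : Pᵀ * Q = 0) (qp : Qᵀ * P = 0) :
    SL2 K →* Matrix (Fin (r + 1)) (Fin (r + 1)) K where
  toFun A := 1 + (P * (A.1 - 1) * Pᵀ + Q * (A.1.map φ - 1) * Qᵀ)
  map_one' := by simp [Matrix.map_one]
  map_mul' A B := by
    have w : ∀ (U V W : Matrix (Fin (r + 1)) (Fin 2) K) (M N : Matrix (Fin 2) (Fin 2) K),
        U * M * Vᵀ * (W * N * Wᵀ) = U * (M * (Vᵀ * W) * N) * Wᵀ := by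
      intros; simp only [Matrix.mul_assoc]
    have y : ∀ M N : Matrix (Fin 2) (Fin 2) K, M * N - 1 = (M - 1) + (N - 1) + (M - 1) * (N - 1) := by
      intros; noncomm_ring
    rw [show (A * B).1 = A.1 * B.1 from rfl, Matrix.map_mul, y A.1, y (A.1.map φ)]
    simp only [mul_add, add_mul, Matrix.one_mul, Matrix.mul_one, w, pp, qq, pq, qp, Matrix.mul_zero,
      Matrix.zero_mul, Matrix.mul_add, Matrix.add_mul]
    abel

/-- Inclusion of two coordinates. -/
def natb1_in (K : Type) [Field K] (e : Fin 2 → Fin (r + 1)) : Matrix (Fin (r + 1)) (Fin 2) K :=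
  of fun x a => if e a = x then 1 else 0

theorem natb1_in_mul (e f : Fin 2 → Fin (r + 1)) (a b : Fin 2) :
    ((natb1_in K e)ᵀ * natb1_in K f) a b = if e a = f b then 1 else 0 := by
  simp [natb1_in, Matrix.mul_apply, eq_comm]

theorem natb1_in_single (e : Fin 2 → Fin (r + 1)) (a b : Fin 2) (s : K) :
    natb1_in K e * single a b s * (natb1_in K e)ᵀ = single (e a) (e b) s := by
  ext x y
  rw [Matrix.mul_apply, Finset.sum_eq_single b
    (fun c _ hc => by rw [mul_single_apply_of_ne _ _ _ _ _ hc, zero_mul]) (by simp),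
    mul_single_apply_same]
  simp only [natb1_in, single_apply, transpose_apply, of_apply, ite_and]
  split_ifs <;> simp

theorem natb1_ns4 [Finite K] (hr : 3 ≤ r) (hφ : ∀ s, φ (φ s) = s) (h : 4 ≤ Nat.card K) :
    ¬ Group.IsSolvable (sug r φ) := by
  have ne : ∀ i j : Fin (r + 1), (i : ℕ) < 2 → (j : ℕ) < 2 → i ≠ j.rev := fun i j hi hj e => by
    have := congrArg Fin.val e; rw [Fin.val_rev] at this; omega
  obtain ⟨i, hi⟩ : ∃ i : Fin (r + 1), (i : ℕ) = 0 := ⟨⟨0, by omega⟩, rfl⟩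
  obtain ⟨j, hj⟩ : ∃ j : Fin (r + 1), (j : ℕ) = 1 := ⟨⟨1, by omega⟩, rfl⟩
  have ij : i ≠ j := fun e => by rw [e] at hi; omega
  have n1 := ne i i (by omega) (by omega)
  have n2 := ne i j (by omega) (by omega)
  have n3 := ne j i (by omega) (by omega)
  have n4 := ne j j (by omega) (by omega)
  let ψ := (natb1_psi φ (natb1_in K ![i, j]) (natb1_in K ![j.rev, i.rev])
    (by ext a b; rw [natb1_in_mul]; fin_cases a <;> fin_cases b <;> simp [ij, ij.symm])
    (by ext a b; rw [natb1_in_mul]; fin_cases a <;> fin_cases b <;> simp [ij, ij.symm])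
    (by ext a b; rw [natb1_in_mul]; fin_cases a <;> fin_cases b <;> simp [n1, n2, n3, n4])
    (by ext a b; rw [natb1_in_mul]
        fin_cases a <;> fin_cases b <;> simp [n1.symm, n2.symm, n3.symm, n4.symm])).toHomUnits
  have v0 : ∀ A : SL2 K, (ψ A).1 = 1 + (natb1_in K ![i, j] * (A.1 - 1) * (natb1_in K ![i, j])ᵀ +
      natb1_in K ![j.rev, i.rev] * (A.1.map φ - 1) * (natb1_in K ![j.rev, i.rev])ᵀ) := fun _ => rfl
  have v1 : ∀ s : K, ψ (mx s) = el i j s * el j.rev i.rev (-(-1) ^ ((i : ℕ) + j) * φ s) := by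
    intro s
    refine Units.ext ?_
    have a : (mx s).1 - 1 = single 0 1 s := by
      ext a b; fin_cases a <;> fin_cases b <;> simp [mx]
    have b : (mx s).1.map φ - 1 = single 0 1 (φ s) := by
      ext a b; fin_cases a <;> fin_cases b <;> simp [mx]
    rw [natb1_val ij n4, hi, hj, v0, a, b, natb1_in_single, natb1_in_single]
    simp
  have v2 : ∀ s : K, ψ (mz s) = el j i (-s) * el i.rev j.rev (-(-1) ^ ((j : ℕ) + i) * φ (-s)) := by
    intro s
    refine Units.ext ?_
    have a : (mz s).1 - 1 = single 1 0 (-s) := by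
      ext a b; fin_cases a <;> fin_cases b <;> simp [mz]
    have b : (mz s).1.map φ - 1 = single 1 0 (φ (-s)) := by
      ext a b; fin_cases a <;> fin_cases b <;> simp [mz]
    rw [natb1_val ij.symm n1, hi, hj, v0, a, b, natb1_in_single, natb1_in_single]
    simp only [Fin.isValue, cons_val_one, cons_val_fin_one, cons_val_zero, map_neg, add_zero, pow_one, neg_neg, mul_neg, one_mul]
  refine sl2_not_solvable (ψ := ψ) h ?_ (sl2_gen (fun s => ?_) (fun s => ?_))
  · intro e
    have e1 := congrArg Units.val e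
    rw [v1, natb1_val ij n4] at e1
    have e2 := congrFun₂ e1 i j
    simp only [map_one, mul_one, Matrix.add_apply, ne_eq, ij, not_false_eq_true, one_apply_ne, single_apply_same, n2.symm, false_and, single_apply_of_ne, add_zero, zero_add, Units.val_one, one_ne_zero] at e2
  · exact rt_mem ((rt_short hφ ij n3 n1 n4 _).2 ⟨s, v1 s⟩)
  · exact rt_mem ((rt_short hφ ij.symm n2 n4 n1 _).2 ⟨-s, v2 s⟩)

theorem sug_ns [Finite K] (hr : 3 ≤ r) (hφ : ∀ s, φ (φ s) = s) (h : 5 ≤ r ∨ 4 ≤ Nat.card K) :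
    ¬ Group.IsSolvable (sug r φ) :=
  h.elim (fun h => natb1_ns5 h hφ) (natb1_ns4 hr hφ)

end Pool.Agent.MP_c78e8e_al.H75

end

section

namespace Pool.Agent.MP_c78e8e_al.H75

open Subgroup Matrix

variable {r : ℕ} {K : Type} [Field K] {φ : K →+* K}

theorem natb_un {C : Matrix (Fin r) (Fin r) ℤ} {ρ : Equiv.Perm (Fin r)} (β : Fin r → ℤ) :
    rootGroup C K β ∪ rootGroup C K (β ∘ ρ) ⊆ ⋃ k : ℕ, rootGroup C K (β ∘ ⇑(ρ ^ k)) :=
  Set.union_subset (Set.subset_iUnion_of_subset 0 (by simp))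
    (Set.subset_iUnion_of_subset 1 (by simp))

/-- The simple roots suffice. -/
theorem natb_gen {C : Matrix (Fin r) (Fin r) ℤ} {ρ : Equiv.Perm (Fin r)} (hρ : ∀ i, ρ (ρ i) = i)
    (hρC : ∀ i j, C (ρ i) (ρ j) = C i j) (hφ : ∀ s, φ (φ s) = s) (hC : Good0 C) (j : Kˣ) (m : ℤ)
    (χ : (Fin r → ℤ) →+ ℤ) (hj : φ j = (-1) ^ m * j)
    (hχ : ∀ β, fm C β β = 2 → fm C β (β ∘ ρ) = 0 → χ (β ∘ ρ) = χ β)
    (hf : ∀ β : Fin r → ℤ, Even ((∑ i, if i < ρ i then C i (ρ i) * β i * β i else 0) + m * χ β))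
    {H : Subgroup (Equiv.Perm (Lie C K))}
    (h : ∀ i β, β = Pi.single i 1 ∨ β = -Pi.single i 1 → ∀ u : Equiv.Perm (Lie C K),
      (∀ v, u (sigma C ρ φ v) = sigma C ρ φ (u v)) →
      u ∈ Subgroup.closure (rootGroup C K β ∪ rootGroup C K (β ∘ ρ)) → u ∈ H) :
    chev C ρ φ ≤ H := by
  set M := model hρ hρC hφ hC j m χ hj hχ (fun β _ b => by
      have := (tw_fix hC hρ hρC b).add (hf β)
      rw [← add_assoc, sub_add_cancel] at this
      exact this.neg_one_zpow)
  have rg : ∀ β, fm C β β = 2 → Set.range (M.x β) ⊆ rootGroup C K β := by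
    rintro β h _ ⟨s, rfl⟩
    exact ⟨_, hC.xx_apply h _⟩
  have fu : ∀ i β, β = Pi.single i 1 ∨ β = -Pi.single i 1 → M.Fu H β := by
    rintro i β e u ⟨b, t, hu⟩
    refine h i β e u ?_ (closure_mono (Set.union_subset_union (rg β b)
      (rg _ ((fm_ρ hρC β β).trans b))) hu)
    change sg hρ hρC hφ hC * _ * _⁻¹ = _ at t
    rw [mul_inv_eq_iff_eq_mul, eq_comm, Equiv.ext_iff] at t
    exact t
  refine (model_Gs .. : M.Gs = _).ge.trans ((Subgroup.closure_le H).2 ?_)
  rintro u ⟨β, hu⟩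
  exact fin_model hC hρ M rfl (fun _ => id) (fun _ => rfl)
    (fun i => ⟨fu i _ (Or.inl rfl), fu i _ (Or.inr rfl)⟩) β u hu

theorem natb_three {G G' : Type} [Group G] [Group G'] (Ψ : G →* G') {N : Subgroup G'}
    (ns : ¬ Group.IsSolvable N) {a b c g g' : G} (ha : Ψ a ∈ N) (hb : Ψ b ∈ N) (hc : Ψ c ∈ N)
    (hg : Ψ g ∈ N) (hg' : Ψ g' ∈ N) (aa : Ψ (a * a) = 1) (eb : Ψ (b⁻¹ * (g * a * g⁻¹)) = 1)
    (ec : Ψ (c⁻¹ * (g' * a * g'⁻¹)) = 1) (ab : Ψ ((a * b)⁻¹ * (b * a)) = 1)
    (gen : ∀ H : Subgroup G', Ψ a ∈ H → Ψ b ∈ H → Ψ c ∈ H → N ≤ H) :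
    IsLeast {n | Good N n} 3 := by
  rw [map_mul, map_inv, inv_mul_eq_one] at eb ec ab
  simp only [map_mul, map_inv] at aa eb ec ab
  refine isLeast_three ns ⟨_, ha⟩ ⟨_, hb⟩ ⟨_, hc⟩ (Subtype.ext aa)
    (isConj_iff.2 ⟨⟨_, hg⟩, Subtype.ext eb.symm⟩) (isConj_iff.2 ⟨⟨_, hg'⟩, Subtype.ext ec.symm⟩)
    (Subtype.ext ab) ?_
  apply Subgroup.map_injective N.subtype_injective
  rw [MonoidHom.map_closure, ← MonoidHom.range_eq_map, range_subtype]
  simp only [Set.image_insert_eq, Set.image_singleton, coe_subtype]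
  refine le_antisymm ?_ (gen _ (subset_closure (by simp)) (subset_closure (by simp))
    (subset_closure (by simp)))
  rw [Subgroup.closure_le]
  rintro x (rfl | rfl | rfl) <;> assumption

theorem natb_up (i : Fin r) : rtA i.castSucc i.succ = Pi.single i 1 := by
  ext k
  simp only [rtA, Fin.val_castSucc, Fin.val_succ, Pi.single_apply, Fin.ext_iff]
  split_ifs <;> omega

theorem natb_down (i : Fin r) : rtA i.succ i.castSucc = -Pi.single i 1 := by
  ext k
  simp only [rtA, Fin.val_castSucc, Fin.val_succ, Pi.single_apply, Fin.ext_iff, Pi.neg_apply]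
  split_ifs <;> omega

theorem natb_one {C : Matrix (Fin r) (Fin r) ℤ} (v : Lie C K) :
    sigma C 1 (RingHom.id K) v = v := by
  refine lie_ext rfl fun u _ => ?_
  rw [co_sigma (fun _ _ => rfl), tw, Finset.sum_eq_zero fun i _ => Finset.sum_eq_zero fun j _ =>
    if_neg fun h => lt_asymm h.1 h.2]
  simp

/-- Transfer for the special linear groups. -/
theorem goodSL (hr : 2 ≤ r) {a b c g g' : GL (Fin (r + 1)) K} (ha : a ∈ slg r K) (hb : b ∈ slg r K)
    (hc : c ∈ slg r K) (hg : g ∈ slg r K) (hg' : g' ∈ slg r K) (aa : Sc (a * a))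
    (eb : Sc (b⁻¹ * (g * a * g⁻¹))) (ec : Sc (c⁻¹ * (g' * a * g'⁻¹))) (ab : Sc ((a * b)⁻¹ * (b * a)))
    (gen : ∀ H : Subgroup (GL (Fin (r + 1)) K), (∀ z, Sc z → z ∈ H) → a ∈ H → b ∈ H → c ∈ H →
      ∀ (i : Fin r) s, el i.castSucc i.succ s ∈ H ∧ el i.succ i.castSucc s ∈ H) :
    IsLeast {n | Good (chev (CartanMatrix.A r) 1 (RingHom.id K)) n} 3 := by
  obtain ⟨Ψ, ker, rg, -⟩ := nat_ex (K := K) hr
  have mem : slg r K ≤ (chev (CartanMatrix.A r) 1 (RingHom.id K)).comap Ψ := by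
    rw [slg, Subgroup.closure_le]
    rintro _ ⟨i, j, s, rfl⟩
    by_cases h : i = j
    · simp [el, h]
    · refine subset_closure ⟨fun v => by rw [natb_one, natb_one], ⟨_, rtA_root h⟩,
        subset_closure (natb_un _ (Or.inl ?_))⟩
      rw [rg i j h]
      exact ⟨s, rfl⟩
  have ns : ¬ Group.IsSolvable (chev (CartanMatrix.A r) 1 (RingHom.id K)) := by
    rw [← model_Gs (ρ := 1) (φ := RingHom.id K) (fun _ => rfl) (fun _ _ => rfl) (fun _ => rfl)
      (goodA hr) 1 0 0 (by simp) (by simp only [Equiv.Perm.coe_one, CompTriple.comp_eq, AddMonoidHom.zero_apply, implies_true]) (fun β _ _ => by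
        rw [tw, Finset.sum_eq_zero fun i _ => Finset.sum_eq_zero fun j _ =>
          if_neg fun h => lt_asymm h.1 h.2]
        simp)]
    obtain ⟨j, hj⟩ := (goodA hr).nbr ⟨0, by omega⟩
    exact St.not_solvable (β := Pi.single ⟨0, by omega⟩ 1) (γ := Pi.single j 1)
      ⟨(fm_single _ _).trans ((goodA hr).diag _), (fm_single _ _).trans ((goodA hr).diag _),
        (fm_single _ _).trans hj, Or.inl ⟨rfl, rfl⟩⟩
  refine natb_three Ψ ns (mem ha) (mem hb) (mem hc) (mem hg) (mem hg') ((ker _).2 aa)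
    ((ker _).2 eb) ((ker _).2 ec) ((ker _).2 ab) fun H h1 h2 h3 => ?_
  have k := gen (H.comap Ψ) (fun z hz => by simp [(ker z).2 hz]) h1 h2 h3
  refine natb_gen (fun _ => rfl) (fun _ _ => rfl) (fun _ => rfl) (goodA hr) 1 0 0 (by simp)
    (by simp only [Equiv.Perm.coe_one, CompTriple.comp_eq, AddMonoidHom.zero_apply, implies_true]) (by simp only [Equiv.Perm.coe_one, id_eq, lt_self_iff_false, ↓ reduceIte, Finset.sum_const_zero, AddMonoidHom.zero_apply, mul_zero, add_zero, Even.zero, implies_true]) fun i β e u _ hu => (Subgroup.closure_le H).2 ?_ hu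
  have ne : i.castSucc ≠ i.succ := Fin.castSucc_lt_succ.ne
  change rootGroup _ K β ∪ rootGroup _ K β ⊆ _
  rw [Set.union_self]
  rcases e with rfl | rfl
  · rw [← natb_up, rg _ _ ne]
    rintro _ ⟨s, rfl⟩
    exact (k i s).1
  · rw [← natb_down, rg _ _ ne.symm]
    rintro _ ⟨s, rfl⟩
    exact (k i s).2

theorem natb_el {i j : Fin (r + 1)} (h : i ≠ j) (s : K) :
    ∃ t, (el j.rev i.rev t).1 * Jm r K * ((el i j s).1.map φ)ᵀ = Jm r K := by
  have h' : j.rev ≠ i.rev := fun e => h (Fin.rev_injective e).symm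
  have e1 : ∀ t : K, single j.rev i.rev t * Jm r K = single j.rev i (t * (-1) ^ (i.rev : ℕ)) := by
    intro t
    ext a b
    simp only [mul_apply, single, Jm, of_apply, ite_mul, zero_mul, mul_ite, mul_zero]
    rw [Finset.sum_eq_single i.rev (fun k _ ne => by simp [ne.symm]) (by simp only [Finset.mem_univ, not_true_eq_false, Fin.rev_rev, and_true, Fin.val_rev, Nat.reduceSubDiff, ite_eq_right_iff, mul_eq_zero, pow_eq_zero_iff', neg_eq_zero, one_ne_zero, ne_eq, false_and, or_false, IsEmpty.forall_iff])]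
    simp only [Fin.rev_rev, and_true, eq_comm (a := b)]
    split_ifs <;> simp_all
  have e2 : ∀ t : K, Jm r K * single j i t = single j.rev i ((-1) ^ (j.rev : ℕ) * t) := by
    intro t
    ext a b
    simp only [mul_apply, single, Jm, of_apply, ite_mul, zero_mul, mul_ite, mul_zero]
    rw [Finset.sum_eq_single j (fun k _ ne => by simp [ne.symm]) (by simp only [Finset.mem_univ, not_true_eq_false, true_and, ite_eq_right_iff, mul_eq_zero, pow_eq_zero_iff', neg_eq_zero, one_ne_zero, ne_eq, Fin.val_eq_zero_iff, false_and, false_or, IsEmpty.forall_iff])]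
    simp only [true_and, Fin.rev_eq_iff]
    split_ifs <;> simp_all
  have e3 : ((el i j s).1.map φ)ᵀ = 1 + single j i (φ s) := by
    rw [el_val h]
    ext a b
    simp only [transpose_apply, map_apply, Matrix.add_apply, Matrix.one_apply, single, of_apply, map_add,
      apply_ite φ, map_one, map_zero, eq_comm (a := b), and_comm (a := i = b)]
  refine ⟨-((-1) ^ (j.rev : ℕ) * φ s * (-1) ^ (i.rev : ℕ)), ?_⟩
  rw [e3, el_val h', add_mul, one_mul, e1, mul_add, mul_one, add_mul, e2,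
    single_mul_single_of_ne _ _ _ _ h, add_zero, add_assoc, ← single_add, neg_mul, mul_assoc,
    ← mul_pow]
  simp only [Fin.val_rev, Nat.reduceSubDiff, mul_neg, mul_one, neg_neg, one_pow, neg_add_cancel, single_zero, add_zero]

theorem natb_tw {i j : Fin (r + 1)} (h : i ≠ j) {w : GL (Fin (r + 1)) K}
    (hw : w ∈ Subgroup.closure (Set.range (el i j) ∪ Set.range (el j.rev i.rev))) :
    ∃ w' ∈ Subgroup.closure (Set.range (el (K := K) i j) ∪ Set.range (el j.rev i.rev)),
      w'.1 * Jm r K * (w.1.map φ)ᵀ = Jm r K := by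
  induction hw using Subgroup.closure_induction with
  | mem a ha =>
    rcases ha with ⟨s, rfl⟩ | ⟨s, rfl⟩
    · obtain ⟨t, e⟩ := natb_el (φ := φ) h s
      exact ⟨_, subset_closure (Or.inr ⟨t, rfl⟩), e⟩
    · obtain ⟨t, e⟩ := natb_el (φ := φ) (fun e => h (Fin.rev_injective e).symm : j.rev ≠ i.rev) s
      rw [Fin.rev_rev, Fin.rev_rev] at e
      exact ⟨_, subset_closure (Or.inl ⟨t, rfl⟩), e⟩
  | one => exact ⟨1, one_mem _, by simp⟩
  | mul a b _ _ ha hb =>
    obtain ⟨a', ha, e⟩ := ha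
    obtain ⟨b', hb, f⟩ := hb
    refine ⟨a' * b', mul_mem ha hb, ?_⟩
    rw [Units.val_mul, Units.val_mul, Matrix.map_mul, transpose_mul, ← mul_assoc, mul_assoc a'.1,
      mul_assoc a'.1, f, e]
  | inv a _ ha =>
    obtain ⟨a', ha, e⟩ := ha
    refine ⟨a'⁻¹, inv_mem ha, ?_⟩
    nth_rw 1 [← e]
    rw [← mul_assoc, ← mul_assoc, Units.inv_mul, one_mul, mul_assoc, ← transpose_mul,
      ← Matrix.map_mul, Units.inv_mul]
    simp

theorem natb_fix {i j k : Fin (r + 1)} (h : i ≠ j) (h1 : j ≠ k) (h2 : i.rev ≠ k)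
    {w : GL (Fin (r + 1)) K}
    (hw : w ∈ Subgroup.closure (Set.range (el i j) ∪ Set.range (el j.rev i.rev))) :
    w.1 * single k k (1 : K) = single k k (1 : K) := by
  induction hw using Subgroup.closure_induction with
  | mem a ha =>
    rcases ha with ⟨s, rfl⟩ | ⟨s, rfl⟩
    · rw [el_val h, add_mul, one_mul, single_mul_single_of_ne _ _ _ _ h1, add_zero]
    · rw [el_val (fun e => h (Fin.rev_injective e).symm), add_mul, one_mul,
        single_mul_single_of_ne _ _ _ _ h2, add_zero]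
  | one => simp
  | mul a b _ _ ha hb => rw [Units.val_mul, mul_assoc, hb, ha]
  | inv a _ ha =>
    nth_rw 1 [← ha]
    rw [← mul_assoc, Units.inv_mul, one_mul]

theorem natb_model (hr : 2 ≤ r) (hφ : ∀ s, φ (φ s) = s) (hev : Even r → φ ≠ RingHom.id K) :
    ∃ (j : Kˣ) (m : ℤ) (χ : (Fin r → ℤ) →+ ℤ), φ j = (-1) ^ m * j ∧
    (∀ β, dp (tau (tA r) β) (tau (tA r) β) = 2 → dp (tau (tA r) β) (rA r (tau (tA r) β)) = 0 →
      χ (β ∘ Fin.revPerm) = χ β) ∧
    ∀ β : Fin r → ℤ, Even ((∑ i, if i < Fin.revPerm i then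
      CartanMatrix.A r i (Fin.revPerm i) * β i * β i else 0) + m * χ β) := by
  rcases Nat.even_or_odd' r with ⟨n, rfl | rfl⟩
  · obtain ⟨s, hs⟩ : ∃ s, s - φ s ≠ 0 := by
      by_contra hn
      push Not at hn
      exact hev (even_two_mul n) (RingHom.ext fun s => (sub_eq_zero.1 (hn s)).symm)
    refine ⟨Units.mk0 _ hs, 1, Pi.evalAddMonoidHom _ ⟨n - 1, by omega⟩, by simp [hφ],
      fun β p q => ?_, fun β => ?_⟩
    · have e1 : tau (tA (2 * n)) β ⟨n, by omega⟩ = β ⟨n, by omega⟩ - β ⟨n - 1, by omega⟩ := by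
        simp only [tau_apply, Finset.sum_apply, tA, Pi.smul_apply, Pi.sub_apply, smul_eq_mul,
          mul_sub, Finset.sum_sub_distrib, ee]
        rw [Finset.sum_eq_single ⟨n, by omega⟩, Finset.sum_eq_single ⟨n - 1, by omega⟩]
        · simp only [↓ reduceIte, mul_one, mul_ite, mul_zero, sub_right_inj, ite_eq_left_iff]; omega
        all_goals simp only [Finset.mem_univ, ne_eq, Fin.ext_iff, mul_ite, mul_one, mul_zero, ite_eq_right_iff, forall_const, not_true_eq_false, IsEmpty.forall_iff, ↓ reduceIte]; try omega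
      generalize tau (tA (2 * n)) β = v at p q e1
      have e2 : v ⟨n, by omega⟩ * v ⟨n, by omega⟩ ≤ 2 := p ▸
        Finset.single_le_sum (fun i _ => mul_self_nonneg (v i)) (Finset.mem_univ _)
      have e3 : ∑ k ∈ Finset.univ.erase ⟨n, by omega⟩, ((v k * -v k.rev : ℤ) : ZMod 2) = 0 :=
        Finset.sum_involution (fun k _ => k.rev) (fun k _ => by
          rw [Fin.rev_rev]; push_cast; ring_nf; simp [show (2 : ZMod 2) = 0 from rfl])
          (fun k hk _ => by simp only [Finset.mem_erase, ne_eq, Fin.ext_iff, Finset.mem_univ, and_true, Fin.val_rev, Nat.reduceSubDiff] at hk ⊢; omega)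
          (fun k hk => by simp only [Finset.mem_erase, ne_eq, Fin.ext_iff, Finset.mem_univ, and_true, Fin.val_rev, Nat.reduceSubDiff] at hk ⊢; omega) (fun k _ => Fin.rev_rev k)
      change ∑ k, v k * -v k.rev = 0 at q
      rw [← Finset.add_sum_erase _ _ (Finset.mem_univ ⟨n, by omega⟩),
        show Fin.rev (⟨n, by omega⟩ : Fin (2 * n + 1)) = ⟨n, by omega⟩ by
          simp only [Fin.ext_iff, Fin.val_rev, Nat.reduceSubDiff]; omega] at q
      rw [← Int.cast_sum, ZMod.intCast_zmod_eq_zero_iff_dvd] at e3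
      have e4 : Fin.revPerm (⟨n - 1, by omega⟩ : Fin (2 * n)) = ⟨n, by omega⟩ := by
        simp only [Fin.revPerm_apply, Fin.ext_iff, Fin.val_rev]; omega
      simp only [Pi.evalAddMonoidHom_apply, Function.comp_apply, e4]
      generalize v ⟨n, _⟩ = x at *
      obtain rfl | rfl | rfl : x = -1 ∨ x = 0 ∨ x = 1 := by
        have : x ≤ 1 := by nlinarith only [e2]
        have : -1 ≤ x := by nlinarith only [e2]
        omega
      all_goals omega
    · rw [Finset.sum_eq_single ⟨n - 1, by omega⟩]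
      · simp only [CartanMatrix.A, of_apply, Fin.ext_iff, Fin.lt_def, Fin.revPerm_apply,
          Fin.val_rev, Pi.evalAddMonoidHom_apply]
        rw [if_pos (by omega), if_neg (by omega), if_pos (by omega)]
        have := Int.even_mul_pred_self (β ⟨n - 1, by omega⟩)
        rw [show ∀ x : ℤ, -1 * x * x + 1 * x = -(x * (x - 1)) from fun x => by ring]
        exact this.neg
      · intro i _ ne
        simp only [CartanMatrix.A, of_apply, Fin.ext_iff, Fin.lt_def, Fin.revPerm_apply,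
          Fin.val_rev, ne_eq] at ne ⊢
        split_ifs <;> omega
      · simp only [Finset.mem_univ, not_true_eq_false, Fin.revPerm_apply, ite_eq_right_iff, mul_eq_zero, or_self_right, IsEmpty.forall_iff]
  · refine ⟨1, 0, 0, by simp, by simp, fun β => ?_⟩
    rw [Finset.sum_eq_zero]
    · simp only [AddMonoidHom.zero_apply, mul_zero, add_zero, Even.zero]
    intro i _
    simp only [CartanMatrix.A, of_apply, Fin.ext_iff, Fin.lt_def, Fin.revPerm_apply, Fin.val_rev]
    split_ifs <;> omega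

/-- Transfer for the symplectic and special unitary groups. -/
theorem goodSU (hr : 2 ≤ r) (hφ : ∀ s, φ (φ s) = s) (hev : Even r → φ ≠ RingHom.id K)
    (ns : ¬ Group.IsSolvable (sug r φ))
    {a b c g g' : GL (Fin (r + 1)) K} (ha : a ∈ sug r φ) (hb : b ∈ sug r φ)
    (hc : c ∈ sug r φ) (hg : g ∈ sug r φ) (hg' : g' ∈ sug r φ) (aa : Sc (a * a))
    (eb : Sc (b⁻¹ * (g * a * g⁻¹))) (ec : Sc (c⁻¹ * (g' * a * g'⁻¹))) (ab : Sc ((a * b)⁻¹ * (b * a)))
    (gen : ∀ H : Subgroup (GL (Fin (r + 1)) K), (∀ z, Sc z → z ∈ H) → a ∈ H → b ∈ H → c ∈ H →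
      ∀ i : Fin r, rt φ i.castSucc i.succ ⊆ H ∧ rt φ i.succ i.castSucc ⊆ H) :
    IsLeast {n | Good (chev (CartanMatrix.A r) Fin.revPerm φ) n} 3 := by
  obtain ⟨Ψ, ker, rg, tw⟩ := nat_ex (K := K) hr
  have hρ : ∀ i : Fin r, Fin.revPerm (Fin.revPerm i) = i := by simp
  have hρC : ∀ i j, CartanMatrix.A r (Fin.revPerm i) (Fin.revPerm j) = CartanMatrix.A r i j :=
    fun i j => by rw [← gramA, ← rA_tA, ← rA_tA, dp_rA, gramA]
  have cl : ∀ i j : Fin (r + 1), i ≠ j → Subgroup.closure (rootGroup (CartanMatrix.A r) K (rtA i j) ∪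
      rootGroup (CartanMatrix.A r) K (rtA i j ∘ Fin.revPerm)) =
      (Subgroup.closure (Set.range (el i j) ∪ Set.range (el j.rev i.rev))).map Ψ := fun i j h => by
    rw [MonoidHom.map_closure, Set.image_union, ← Set.range_comp, ← Set.range_comp, rtA_rev,
      rg i j h, rg _ _ fun e => h (Fin.rev_injective e).symm]
    rfl
  have mem : sug r φ ≤ (chev (CartanMatrix.A r) Fin.revPerm φ).comap Ψ := by
    rw [sug, Subgroup.closure_le]
    rintro w ⟨i, j, f, hw⟩
    by_cases h : i = j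
    · subst h
      have : Subgroup.closure (Set.range (el (K := K) i i) ∪ Set.range (el i.rev i.rev)) ≤ ⊥ := by
        rw [Subgroup.closure_le]
        rintro _ (⟨s, rfl⟩ | ⟨s, rfl⟩) <;> simp [el]
      rw [Subgroup.mem_bot.1 (this hw)]
      exact one_mem _
    · refine subset_closure ⟨tw φ w w f, ⟨_, rtA_root h⟩, closure_mono (natb_un _) ?_⟩
      rw [cl i j h]
      exact ⟨w, hw, rfl⟩
  have ns' : ¬ Group.IsSolvable (chev (CartanMatrix.A r) Fin.revPerm φ) := fun hs => by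
    set f : sug r φ →* chev (CartanMatrix.A r) Fin.revPerm φ :=
      (Ψ.comp (sug r φ).subtype).codRestrict _ fun x => mem x.2
    have : Group.IsSolvable f.ker := Group.isSolvable_of_comm fun x y => by
      obtain ⟨z, e⟩ := (ker x.1.1).1 (congrArg Subtype.val x.2)
      refine Subtype.ext (Subtype.ext (Units.ext ?_))
      simp only [coe_mul, Units.val_mul, e, Algebra.smul_mul_assoc, one_mul, Algebra.mul_smul_comm, mul_one]
    exact ns (Group.isSolvable_of_ker_le_range f.ker.subtype f (by simp))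
  refine natb_three Ψ ns' (mem ha) (mem hb) (mem hc) (mem hg) (mem hg') ((ker _).2 aa)
    ((ker _).2 eb) ((ker _).2 ec) ((ker _).2 ab) fun H h1 h2 h3 => ?_
  have k := gen (H.comap Ψ) (fun z hz => by simp [(ker z).2 hz]) h1 h2 h3
  have key : ∀ i j : Fin (r + 1), i ≠ j → rt φ i j ⊆ H.comap Ψ →
      ∀ u : Equiv.Perm (Lie (CartanMatrix.A r) K), (∀ v, u (sigma _ Fin.revPerm φ v) =
        sigma _ Fin.revPerm φ (u v)) → u ∈ Subgroup.closure (rootGroup _ K (rtA i j) ∪
        rootGroup _ K (rtA i j ∘ Fin.revPerm)) → u ∈ H := by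
    intro i j h sub u cm hu
    rw [cl i j h] at hu
    obtain ⟨w, hw, rfl⟩ := hu
    obtain ⟨w', hw', e⟩ := natb_tw (φ := φ) h hw
    have e1 : Ψ w = Ψ w' := Equiv.ext fun v => by
      rw [← sigma_sigma hρ hρC hφ (goodA hr) v, tw φ w w' e, cm]
    obtain ⟨z, hz⟩ := (ker (w⁻¹ * w')).1 (by simp only [map_mul, map_inv, e1, inv_mul_cancel])
    obtain ⟨l, l1, l2⟩ : ∃ l : Fin (r + 1), j ≠ l ∧ i.rev ≠ l := by
      by_contra hn
      push Not at hn
      have p0 := hn ⟨0, by omega⟩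
      have p1 := hn ⟨1, by omega⟩
      have p2 := hn ⟨2, by omega⟩
      simp only [ne_eq, Fin.ext_iff] at p0 p1 p2
      omega
    have e2 := congrFun (congrFun (natb_fix h l1 l2 (mul_mem (inv_mem hw) hw')) l) l
    rw [hz] at e2
    have e3 : w⁻¹ * w' = 1 := Units.ext (by rw [hz, show z = 1 by simpa using e2]; simp)
    rw [inv_mul_eq_one] at e3
    subst e3
    exact sub ⟨e, hw⟩
  obtain ⟨j, m, χ, hj, hχ, hf⟩ := natb_model hr hφ hev
  have h7 : ∀ v, rA r (tau (tA r) v) = tau (tA r) (v ∘ Fin.revPerm) := fun v => by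
    simp only [tau_apply, map_sum, map_zsmul, rA_tA]
    rw [← Equiv.sum_comp Fin.revPerm]; simp only [Fin.revPerm_apply, Fin.rev_rev, zsmul_eq_mul, Function.comp_apply]
  refine natb_gen hρ hρC hφ (goodA hr) j m χ hj
    (fun β a b => hχ β (by rw [tau_iso gramA, a]) (by rw [h7, tau_iso gramA, b])) hf
    fun i β e => ?_
  have ne : i.castSucc ≠ i.succ := Fin.castSucc_lt_succ.ne
  rcases e with rfl | rfl
  · rw [← natb_up]; exact key _ _ ne (k i).1
  · rw [← natb_down]; exact key _ _ ne.symm (k i).2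

end Pool.Agent.MP_c78e8e_al.H75

end

end

-- part MP_c78e8e_al.Sg.Ort
section

section

namespace Pool.Agent.MP_c78e8e_al.H75

open Subgroup Matrix

variable {n : ℕ} {K : Type} [Field K]

/-- Coordinates of `ε a + e n` in the basis of simple roots. -/
def orta1_w (n a k : ℕ) : ℤ :=
  if k < n then (if a ≤ k then 1 else if 2 * n + 3 ≤ a + k then -1 else 0)
  else if k = n then (if a ≤ n ∨ a = n + 2 then 1 else 0) else if a ≤ n + 1 then 1 else 0

/-- The lattice vector `ε a + e n`. -/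
def orta1_W (a : Fin (2 * n + 3 + 1)) : Fin (n + 2) → ℤ := fun k => orta1_w n a k

/-- The root `ε i - ε j` of type `D (n + 2)` in the basis of simple roots, where `ε i = e i` for
`i < n + 2` and `ε i = - e i.rev` otherwise. -/
def rtD (i j : Fin (2 * n + 3 + 1)) : Fin (n + 2) → ℤ := orta1_W i - orta1_W j

/-- The weights of the natural representation. -/
def orta1_e (a : Fin (2 * n + 3 + 1)) : Fin (n + 2) → ℤ :=
  if (a : ℕ) < n + 2 then ee a else -ee a.rev

theorem orta1_one {R : Type} [CommRing R] {M : ℕ} (w : ℕ → R) (l : ℕ) :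
    ∑ k : Fin M, w k * (if (k : ℕ) = l then 1 else 0) = if l < M then w l else 0 := by
  split_ifs with h
  · rw [Finset.sum_eq_single ⟨l, h⟩ (fun j _ ne => by simp [Fin.val_ne_of_ne ne]) (by simp only [Finset.mem_univ, not_true_eq_false, ↓ reduceIte, mul_one, IsEmpty.forall_iff])]
    simp
  · exact Finset.sum_eq_zero fun j _ => by simp [show (j : ℕ) ≠ l by omega]

theorem orta1_sum {R : Type} [CommRing R] (w : ℕ → R) (m : Fin (n + 2)) :
    ∑ k : Fin (n + 2), w k * (tD (n + 2) k m : ℤ) =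
      w m - (if 1 ≤ (m : ℕ) then w (m - 1) else 0) + if (m : ℕ) = n then w (n + 1) else 0 := by
  have h : ∀ k : Fin (n + 2), ((tD (n + 2) k m : ℤ) : R) = (if (k : ℕ) = m then 1 else 0) -
      (if 1 ≤ (m : ℕ) then 1 else 0) * (if (k : ℕ) = m - 1 then 1 else 0) +
      (if (m : ℕ) = n then 1 else 0) * if (k : ℕ) = n + 1 then 1 else 0 := fun k => by
    have : tD (n + 2) k m = (if (k : ℕ) = m then 1 else 0) -
      (if 1 ≤ (m : ℕ) then 1 else 0) * (if (k : ℕ) = m - 1 then 1 else 0) +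
      (if (m : ℕ) = n then 1 else 0) * if (k : ℕ) = n + 1 then 1 else 0 := by
      unfold tD
      split <;> simp only [ee, Pi.sub_apply, Pi.add_apply] <;> split_ifs <;> omega
    rw [this]; push_cast; rfl
  simp only [h, mul_add, mul_sub, mul_left_comm (w _), Finset.sum_add_distrib,
    Finset.sum_sub_distrib, ← Finset.mul_sum, orta1_one]
  rw [if_pos m.2, if_pos (show (m : ℕ) - 1 < n + 2 by omega), if_pos (show n + 1 < n + 2 by omega)]
  split_ifs <;> simp

theorem orta1_e_ap (a : Fin (2 * n + 3 + 1)) (m : Fin (n + 2)) : orta1_e a m =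
    (if (m : ℕ) = a then 1 else 0) - if (m : ℕ) + a = 2 * n + 3 then 1 else 0 := by
  unfold orta1_e
  by_cases h : (a : ℕ) < n + 2
  · simp only [if_pos h, ee]; split_ifs <;> omega
  · simp only [if_neg h, ee, Pi.neg_apply, Fin.val_rev]; split_ifs <;> omega

theorem orta1_tau (a : Fin (2 * n + 3 + 1)) :
    tau (tD (n + 2)) (orta1_W a) = orta1_e a + ee n := by
  ext m
  have := orta1_sum (orta1_w n a) m
  simp only [Int.cast_id] at this
  simp only [tau_apply, Finset.sum_apply, Pi.smul_apply, smul_eq_mul, orta1_W, this, Pi.add_apply]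
  simp only [orta1_e_ap, orta1_w, ee]
  have := m.2
  have := a.2
  grind

theorem orta1_taur (i j : Fin (2 * n + 3 + 1)) :
    tau (tD (n + 2)) (rtD i j) = orta1_e i - orta1_e j := by
  rw [rtD, map_sub, orta1_tau, orta1_tau]; abel

theorem tau_rtD (i j : Fin (2 * n + 3 + 1)) : tau (tD (n + 2)) (rtD i j) =
    (if (i : ℕ) < n + 2 then ee i else -ee i.rev) - (if (j : ℕ) < n + 2 then ee j else -ee j.rev) :=
  orta1_taur i j

theorem orta1_e_rev (a : Fin (2 * n + 3 + 1)) : orta1_e a.rev = -orta1_e a := by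
  unfold orta1_e
  rw [Fin.rev_rev, Fin.val_rev]
  split_ifs <;> first | omega | simp only [Nat.reduceSubDiff, neg_neg]

theorem orta1_ee (a b : Fin (2 * n + 3 + 1)) : dp (orta1_e a) (orta1_e b) =
    (if b = a then 1 else 0) - if b = a.rev then 1 else 0 := by
  unfold orta1_e
  split <;> split <;> simp only [map_neg, AddMonoidHom.neg_apply, ee_ee, Fin.ext_iff, Fin.val_rev] <;>
    split_ifs <;> omega

/-- The root `ε a + ε b`. -/
def orta1_r (a b : Fin (2 * n + 3 + 1)) : Fin (n + 2) → ℤ := rtD a b.rev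

theorem orta1_tr (a b : Fin (2 * n + 3 + 1)) :
    tau (tD (n + 2)) (orta1_r a b) = orta1_e a + orta1_e b := by
  rw [orta1_r, orta1_taur, orta1_e_rev, sub_neg_eq_add]

/-- The vector `2 e n`. -/
def orta1_om (n : ℕ) : Fin (n + 2) → ℤ :=
  Pi.single (Fin.last n).castSucc 1 + Pi.single (Fin.last (n + 1)) 1

theorem orta1_W_rev (a : Fin (2 * n + 3 + 1)) : orta1_W a.rev = orta1_om n - orta1_W a := by
  ext k
  simp only [orta1_W, orta1_om, orta1_w, Pi.sub_apply, Pi.add_apply, Pi.single_apply, Fin.ext_iff,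
    Fin.val_rev, Fin.val_castSucc, Fin.val_last]
  split_ifs <;> omega

theorem orta1_r_eq (a b : Fin (2 * n + 3 + 1)) :
    orta1_r a b = orta1_W a + orta1_W b - orta1_om n := by
  rw [orta1_r, rtD, orta1_W_rev]; abel

theorem orta1_r_comm (a b : Fin (2 * n + 3 + 1)) : orta1_r a b = orta1_r b a := by
  rw [orta1_r_eq, orta1_r_eq, add_comm (orta1_W a)]

theorem orta1_r_neg (a b : Fin (2 * n + 3 + 1)) : -orta1_r a b = orta1_r b.rev a.rev := by
  simp only [orta1_r_eq, orta1_W_rev]; abel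

theorem orta1_r_sub (a b c : Fin (2 * n + 3 + 1)) :
    orta1_r a b - orta1_r a c = orta1_r c.rev b := by
  simp only [orta1_r_eq, orta1_W_rev]; abel

theorem orta1_fm (hn : 1 ≤ n) (a b c d : Fin (2 * n + 3 + 1)) :
    fm (CartanMatrix.D (n + 2)) (orta1_r a b) (orta1_r c d) =
      ((if c = a then 1 else 0) - if c = a.rev then 1 else 0) +
      ((if c = b then 1 else 0) - if c = b.rev then 1 else 0) +
      (((if d = a then 1 else 0) - if d = a.rev then 1 else 0) +
      ((if d = b then 1 else 0) - if d = b.rev then 1 else 0)) := by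
  rw [← tau_iso (gramD (by omega))]
  simp only [orta1_tr, map_add, AddMonoidHom.add_apply, orta1_ee]

theorem orta1_ne (a : Fin (2 * n + 3 + 1)) : a ≠ a.rev := by
  rw [Ne, Fin.ext_iff, Fin.val_rev]; omega

theorem orta1_root (hn : 1 ≤ n) {a b : Fin (2 * n + 3 + 1)} (h : b ≠ a.rev) (h' : b ≠ a) :
    fm (CartanMatrix.D (n + 2)) (orta1_r a b) (orta1_r a b) = 2 := by
  rw [orta1_fm hn]
  simp [h, h', h'.symm, orta1_ne, Fin.rev_eq_iff.not.2 h |> Ne.symm]

theorem orta1_surj (hn : 1 ≤ n) {β : Fin (n + 2) → ℤ} (h : fm (CartanMatrix.D (n + 2)) β β = 2) :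
    ∃ a b, b ≠ a.rev ∧ b ≠ a ∧ β = orta1_r a b := by
  have iso := tau_iso (gramD (r := n + 2) (by omega))
  set w := tau (tD (n + 2)) β with hw
  have s : ∑ m, w m * w m = 2 := by rw [← dp_apply, iso, h]
  have k : ∀ m, w m ≠ 0 → ∃ a : Fin (2 * n + 3 + 1), ((a : ℕ) = m ∨ (a : ℕ) + m = 2 * n + 3) ∧
      1 ≤ dp w (orta1_e a) := fun m hm => by
    have e : dp w (ee m) = w m := by
      rw [dp_apply, Finset.sum_eq_single m (fun j _ ne => by simp [ee, Fin.val_ne_of_ne ne]) (by simp)]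
      simp [ee]
    have e2 : orta1_e (⟨m, by omega⟩ : Fin (2 * n + 3 + 1)) = ee m := if_pos m.2
    rcases lt_or_gt_of_ne hm with p | p
    · refine ⟨Fin.rev ⟨m, by omega⟩, Or.inr (by rw [Fin.val_rev]; dsimp only; omega), ?_⟩
      rw [orta1_e_rev, e2, map_neg, e]; omega
    · exact ⟨⟨m, by omega⟩, Or.inl rfl, by rw [e2, e]; omega⟩
  obtain ⟨m, hm⟩ : ∃ m, w m ≠ 0 := by
    by_contra! c
    simp [c] at s
  obtain ⟨l, ne, hl⟩ : ∃ l, l ≠ m ∧ w l ≠ 0 := by
    by_contra! c
    rw [Finset.sum_eq_single m (fun j _ ne => by simp [c j ne]) (by simp)] at s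
    have h1 : w m ≤ 1 := by nlinarith only [s]
    have h2 : -1 ≤ w m := by nlinarith only [s]
    interval_cases w m <;> omega
  obtain ⟨a, ha, pa⟩ := k m hm
  obtain ⟨b, hb, pb⟩ := k l hl
  have := Fin.val_ne_of_ne ne
  have h1 : b ≠ a.rev := by rw [Ne, Fin.ext_iff, Fin.val_rev]; omega
  have h2 : b ≠ a := by rw [Ne, Fin.ext_iff]; omega
  refine ⟨a, b, h1, h2, (goodD (by omega)).eq2 h (orta1_root hn h1 h2) ?_⟩
  rw [← iso, orta1_tr, map_add, ← hw]; omega

theorem rtD_surj (hn : 1 ≤ n) (β : Root (CartanMatrix.D (n + 2))) :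
    ∃ i j, i ≠ j ∧ j ≠ i.rev ∧ β.1 = rtD i j := by
  obtain ⟨a, b, h1, h2, e⟩ := orta1_surj hn β.2
  exact ⟨a, b.rev, fun c => h1 (by rw [c, Fin.rev_rev]), fun c => h2 (Fin.rev_injective c), e⟩

theorem orta1_cm (v : Fin (n + 2) → ℤ) : cm (CartanMatrix.D (n + 2)) (orta1_om n) v =
    v (Fin.last n).castSucc + v (Fin.last (n + 1)) := by
  have h : ∀ i, (n : ℕ) ≤ (i : Fin (n + 2)) → cm (CartanMatrix.D (n + 2)) (Pi.single i 1) v = v i :=
    fun i hi => by
      change coc _ _ v = _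
      rw [coc, Finset.sum_eq_single i (fun j _ ne => by simp [ne]) (by simp only [Finset.mem_univ, not_true_eq_false, Pi.single_eq_same, mul_one, one_mul, IsEmpty.forall_iff]),
        Finset.sum_eq_single i (fun j _ ne => ?_) (by simp)]
      · simp
      · rw [if_neg ne.symm]
        split_ifs with p
        · have : CartanMatrix.D (n + 2) i j = 0 := by
            simp only [CartanMatrix.D, of_apply, Fin.ext_iff, Fin.lt_def] at p ⊢
            split_ifs <;> omega
          simp [this]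
        · rfl
  rw [orta1_om, map_add, AddMonoidHom.add_apply, h _ (by simp), h _ (by simp)]

variable (K) in
/-- An auxiliary sign. -/
def orta1_mu (a : Fin (2 * n + 3 + 1)) : K := if (a : ℕ) < n + 3 then 1 else -1

variable (K) in
/-- The values of the cocycle. -/
def orta1_E (a b : Fin (2 * n + 3 + 1)) : K := ep (CartanMatrix.D (n + 2)) K (orta1_W a) (orta1_W b)

variable (K) in
/-- The signs of the root vectors. -/
def orta1_sg (a b : Fin (2 * n + 3 + 1)) : K :=
  orta1_E K a b * orta1_mu K a * orta1_mu K b.rev * orta1_E K b.rev b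

theorem orta1_mu_pm (a : Fin (2 * n + 3 + 1)) : Pm (orta1_mu K a) := by
  unfold orta1_mu Pm; split_ifs <;> simp

theorem orta1_E_pm (a b : Fin (2 * n + 3 + 1)) : Pm (orta1_E K a b) := ep_pm _ _

theorem orta1_sg_pm (a b : Fin (2 * n + 3 + 1)) : Pm (orta1_sg K a b) :=
  (((orta1_E_pm _ _).mul (orta1_mu_pm _)).mul (orta1_mu_pm _)).mul (orta1_E_pm _ _)

theorem orta1_om_l (a : Fin (2 * n + 3 + 1)) :
    ep (CartanMatrix.D (n + 2)) K (orta1_om n) (orta1_W a) = -(orta1_mu K a * orta1_mu K a.rev) := by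
  simp only [ep, orta1_cm, orta1_W, orta1_w, orta1_mu, Fin.val_rev, Fin.val_castSucc, Fin.val_last]
  split_ifs <;> first | omega | norm_num

theorem orta1_tom (n : ℕ) : tau (tD (n + 2)) (orta1_om n) = ee n + ee n := by
  have := orta1_W_rev (n := n) 0
  rw [eq_sub_iff_add_eq] at this
  rw [← this, map_add, orta1_tau, orta1_tau, orta1_e_rev]; abel

theorem orta1_om_r (hn : 1 ≤ n) (v : Fin (n + 2) → ℤ) :
    ep (CartanMatrix.D (n + 2)) K v (orta1_om n) = ep (CartanMatrix.D (n + 2)) K (orta1_om n) v := by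
  rw [(goodD (by omega)).ep_swap, ← tau_iso (gramD (by omega)), orta1_tom, map_add,
    AddMonoidHom.add_apply, sg_add, (pm_zpow _).sq, one_mul]

theorem orta1_E_revr (hn : 1 ≤ n) (a b : Fin (2 * n + 3 + 1)) :
    orta1_E K a b.rev = -(orta1_mu K a * orta1_mu K a.rev) * orta1_E K a b := by
  rw [orta1_E, orta1_W_rev, ep_subr, orta1_om_r hn, orta1_om_l, orta1_E]

theorem orta1_E_revl (a b : Fin (2 * n + 3 + 1)) :
    orta1_E K a.rev b = -(orta1_mu K b * orta1_mu K b.rev) * orta1_E K a b := by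
  rw [orta1_E, orta1_W_rev, sub_eq_add_neg, ep_addl, ep_negl, orta1_om_l, orta1_E]

theorem orta1_E_swap (hn : 1 ≤ n) {a b : Fin (2 * n + 3 + 1)} (h : b ≠ a.rev) (h' : b ≠ a) :
    orta1_E K b a = -(orta1_E K a a * orta1_E K b b * orta1_E K a b) := by
  have := (goodD (by omega)).ep_self (K := K) (orta1_root hn (a := a) (b := b.rev)
    (fun e => h' (Fin.rev_injective e)) fun e => h (by rw [← e, Fin.rev_rev]))
  rw [orta1_r, Fin.rev_rev, rtD, ep_subr, sub_eq_add_neg, ep_addl, ep_addl, ep_negl, ep_negl] at this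
  change orta1_E K a a * orta1_E K b a * (orta1_E K a b * orta1_E K b b) = -1 at this
  have e := (orta1_E_pm (K := K) b a).sq
  linear_combination (orta1_E K b a) * this -
    (orta1_E K a a * orta1_E K b b * orta1_E K a b) * e

theorem orta1_sg_eq (a b : Fin (2 * n + 3 + 1)) :
    orta1_sg K a b = -(orta1_E K a b * orta1_mu K a * orta1_mu K b * orta1_E K b b) := by
  rw [orta1_sg, orta1_E_revl]
  linear_combination (-(orta1_E K a b * orta1_mu K a * orta1_mu K b * orta1_E K b b)) *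
    (orta1_mu_pm (K := K) b.rev).sq

theorem orta1_sg_swap (hn : 1 ≤ n) {a b : Fin (2 * n + 3 + 1)} (h : b ≠ a.rev) (h' : b ≠ a) :
    orta1_sg K b a = -orta1_sg K a b := by
  rw [orta1_sg_eq, orta1_sg_eq, orta1_E_swap hn h h']
  linear_combination (orta1_E K a b * orta1_mu K a * orta1_mu K b * orta1_E K b b) *
    (orta1_E_pm (K := K) a a).sq

theorem orta1_sg_rev (hn : 1 ≤ n) (a b : Fin (2 * n + 3 + 1)) :
    orta1_sg K a.rev b.rev = orta1_sg K a b := by
  rw [orta1_sg_eq a b, orta1_sg, orta1_E_revr hn, orta1_E_revl, Fin.rev_rev, Fin.rev_rev,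
    orta1_E_revr hn]
  rcases orta1_mu_pm (K := K) a.rev with p | p <;> rcases orta1_mu_pm (K := K) b.rev with q | q <;>
    rcases orta1_mu_pm (K := K) b with r | r <;> rw [p, q, r] <;> ring

theorem orta1_sg_ep (p q b : Fin (2 * n + 3 + 1)) : orta1_sg K p b * orta1_sg K p q *
    ep (CartanMatrix.D (n + 2)) K (orta1_r p q) (orta1_r q.rev b) = orta1_sg K q.rev b := by
  rw [orta1_r_comm q.rev, orta1_r, orta1_r, Fin.rev_rev, rtD, rtD, ep_subr, sub_eq_add_neg, ep_addl,
    ep_addl, ep_negl, ep_negl]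
  change _ * (orta1_E K p b * orta1_E K q.rev b * (orta1_E K p q * orta1_E K q.rev q)) = _
  unfold orta1_sg
  rcases orta1_E_pm (K := K) p b with a1 | a1 <;> rcases orta1_E_pm (K := K) p q with a2 | a2 <;>
    rcases orta1_E_pm (K := K) q.rev q with a3 | a3 <;> rcases orta1_mu_pm (K := K) p with a4 | a4 <;>
    rw [a1, a2, a3, a4] <;> ring

theorem orta1_sg_mid (hn : 1 ≤ n) {i m : Fin (2 * n + 3 + 1)} (hi : ¬ Mid i) (hm : Mid m) :
    orta1_sg K i m.rev = orta1_sg K i m := by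
  have h1 : orta1_mu K i * orta1_mu K i.rev = -1 := by
    simp only [Mid, Fin.val_rev, orta1_mu] at hi ⊢
    split_ifs <;> first | omega | simp
  have h2 : orta1_mu K m = 1 ∧ orta1_mu K m.rev = 1 := by
    simp only [Mid, Fin.val_rev, orta1_mu] at hm ⊢
    exact ⟨if_pos (by omega), if_pos (by omega)⟩
  rw [orta1_sg_eq i m, orta1_sg, orta1_E_revr hn, Fin.rev_rev, orta1_E_revr hn, h1, h2.1, h2.2]
  ring

/-- The values of the weights on the Cartan subalgebra. -/
def orta1_d (h : Fin (n + 2) → K) (a : Fin (2 * n + 3 + 1)) : K :=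
  ∑ k, h k * (dp (tD (n + 2) k) (orta1_e a) : ℤ)

theorem orta1_d_rev (h : Fin (n + 2) → K) (a : Fin (2 * n + 3 + 1)) :
    orta1_d h a.rev = -orta1_d h a := by
  simp only [orta1_d, orta1_e_rev, map_neg, Int.cast_neg, mul_neg, Finset.sum_neg_distrib]

theorem orta1_hb (hn : 1 ≤ n) (h : Fin (n + 2) → K) (a b : Fin (2 * n + 3 + 1)) :
    hb (CartanMatrix.D (n + 2)) (orta1_r a b) h = orta1_d h a + orta1_d h b := by
  simp only [hb, orta1_d, ← Finset.sum_add_distrib]
  refine Finset.sum_congr rfl fun k _ => ?_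
  rw [← tau_iso (gramD (by omega)), tau_single, dp_symm, orta1_tr, map_add]; push_cast; ring

theorem orta1_d_xo (p q : Fin (2 * n + 3 + 1)) (t : K) (v : Lie (CartanMatrix.D (n + 2)) K)
    (a : Fin (2 * n + 3 + 1)) : orta1_d (xo _ (orta1_r p q) t v).1 a = orta1_d v.1 a -
      t * co _ v (orta1_r q.rev p.rev) * ((((if a = p then 1 else 0) - if a = p.rev then 1 else 0) +
        ((if a = q then 1 else 0) - if a = q.rev then 1 else 0) : ℤ) : K) := by
  rw [← orta1_ee, ← orta1_ee, ← AddMonoidHom.add_apply, ← map_add, ← orta1_tr, tau_apply]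
  simp only [orta1_d, xo_fst, orta1_r_neg, map_sum, map_zsmul, AddMonoidHom.finsetSum_apply,
    AddMonoidHom.smul_apply, smul_eq_mul, Int.cast_sum, Finset.mul_sum, ← Finset.sum_sub_distrib]
  exact Finset.sum_congr rfl fun k _ => by push_cast; ring

theorem orta1_d_inj {h h' : Fin (n + 2) → K} (e : ∀ a, orta1_d h a = orta1_d h' a)
    (l : h (Fin.last (n + 1)) = h' (Fin.last (n + 1))) : h = h' := by
  set w : ℕ → K := fun k => if hk : k < n + 2 then h ⟨k, hk⟩ - h' ⟨k, hk⟩ else 0 with hw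
  have w1 : ∀ k : Fin (n + 2), w k = h k - h' k := fun k => dif_pos k.2
  have w2 : w (n + 1) = 0 := (w1 (Fin.last (n + 1))).trans (sub_eq_zero.2 l)
  have w3 : ∀ m, m < n + 2 → w m = if 1 ≤ m then w (m - 1) else 0 := fun m hm => by
    have := orta1_sum w ⟨m, hm⟩
    have e2 : ∀ k, dp (tD (n + 2) k) (orta1_e (⟨m, by omega⟩ : Fin (2 * n + 3 + 1))) =
        tD (n + 2) k ⟨m, hm⟩ := fun k => by
      rw [orta1_e, if_pos hm, dp_apply, Finset.sum_eq_single ⟨m, hm⟩
        (fun j _ ne => by simp [ee, Fin.val_ne_of_ne ne]) (by simp)]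
      simp [ee]
    have e3 := e ⟨m, by omega⟩
    simp only [orta1_d, e2] at e3
    simp only [w1, sub_mul, Finset.sum_sub_distrib, e3, sub_self, w2, ite_self, add_zero] at this
    exact sub_eq_zero.1 this.symm
  have w4 : ∀ m, m < n + 2 → w m = 0 := fun m hm => by
    induction m with
    | zero => simpa using w3 0 hm
    | succ m ih => rw [w3 _ hm, if_pos (by omega)]; exact ih (by omega)
  ext k
  exact sub_eq_zero.1 ((w1 k).symm.trans (w4 k k.2))

/-- The alternating matrix of an element of the model. -/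
def orta1_A (v : Lie (CartanMatrix.D (n + 2)) K) :
    Matrix (Fin (2 * n + 3 + 1)) (Fin (2 * n + 3 + 1)) K := of fun a b =>
  if b = a then 0 else if b = a.rev then orta1_d v.1 a else orta1_sg K a b * co _ v (orta1_r a b)

theorem orta1_A0 (v : Lie (CartanMatrix.D (n + 2)) K) (a : Fin (2 * n + 3 + 1)) :
    orta1_A v a a = 0 := if_pos rfl

theorem orta1_A1 (v : Lie (CartanMatrix.D (n + 2)) K) (a : Fin (2 * n + 3 + 1)) :
    orta1_A v a a.rev = orta1_d v.1 a := (if_neg (orta1_ne a).symm).trans (if_pos rfl)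

theorem orta1_A2 (v : Lie (CartanMatrix.D (n + 2)) K) {a b : Fin (2 * n + 3 + 1)} (h : b ≠ a.rev)
    (h' : b ≠ a) : orta1_A v a b = orta1_sg K a b * co _ v (orta1_r a b) :=
  (if_neg h').trans (if_neg h)

theorem orta1_A_swap (hn : 1 ≤ n) (v : Lie (CartanMatrix.D (n + 2)) K)
    (a b : Fin (2 * n + 3 + 1)) : orta1_A v b a = -orta1_A v a b := by
  by_cases h' : b = a
  · subst h'; simp [orta1_A0]
  by_cases h : b = a.rev
  · subst h
    have := orta1_A1 v a.rev
    rw [Fin.rev_rev] at this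
    rw [this, orta1_A1, orta1_d_rev]
  · rw [orta1_A2 v h h', orta1_A2 v (fun e => h (by rw [e, Fin.rev_rev])) (Ne.symm h'),
      orta1_sg_swap hn h h', orta1_r_comm]
    ring

theorem orta1_inj (hn : 1 ≤ n) {v w : Lie (CartanMatrix.D (n + 2)) K} (e : orta1_A v = orta1_A w)
    (l : v.1 (Fin.last (n + 1)) = w.1 (Fin.last (n + 1))) : v = w := by
  refine lie_ext (orta1_d_inj (fun a => by rw [← orta1_A1, ← orta1_A1, e]) l) fun u hu => ?_
  obtain ⟨a, b, h, h', rfl⟩ := orta1_surj hn hu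
  have := congrFun (congrFun e a) b
  rw [orta1_A2 _ h h', orta1_A2 _ h h'] at this
  exact mul_left_cancel₀ (orta1_sg_pm a b).ne this

section
variable (hn : 1 ≤ n) {p q : Fin (2 * n + 3 + 1)} (h : q ≠ p.rev) (h' : q ≠ p)
include hn h h'

theorem orta1_opp (v : Lie (CartanMatrix.D (n + 2)) K) :
    orta1_A v q.rev p.rev = -(orta1_sg K p q * co _ v (orta1_r q.rev p.rev)) := by
  rw [orta1_A2 v (fun e => h (by rw [e, Fin.rev_rev])) (fun e => h' (Fin.rev_injective e).symm),
    orta1_sg_rev hn, orta1_sg_swap hn h h', neg_mul]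

theorem orta1_fix (t : K) (v : Lie (CartanMatrix.D (n + 2)) K) {a b : Fin (2 * n + 3 + 1)}
    (ap : a ≠ p) (aq : a ≠ q) (bp : b ≠ p) (bq : b ≠ q) :
    orta1_A (xo _ (orta1_r p q) t v) a b = orta1_A v a b := by
  by_cases e' : b = a
  · rw [e', orta1_A0, orta1_A0]
  by_cases e : b = a.rev
  · subst e
    rw [orta1_A1, orta1_A1, orta1_d_xo]
    simp [ap, aq, Fin.rev_eq_iff.not.1 bp, Fin.rev_eq_iff.not.1 bq]
  · rw [orta1_A2 _ e e', orta1_A2 _ e e', (goodD (by omega)).co_fix (orta1_root hn h h')]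
    simp only [orta1_fm hn, ap.symm, aq.symm, bp.symm, bq.symm, if_false]
    split_ifs <;> omega

theorem orta1_row (s : K) (v : Lie (CartanMatrix.D (n + 2)) K) {b : Fin (2 * n + 3 + 1)}
    (bp : b ≠ p) (bq : b ≠ q) : orta1_A (xo _ (orta1_r p q) (orta1_sg K p q * s) v) p b =
      orta1_A v p b + s * orta1_A v q.rev b := by
  have hβ := orta1_root hn h h'
  have h2 : p ≠ q.rev := fun e => h (by rw [e, Fin.rev_rev])
  by_cases e : b = p.rev
  · subst e
    rw [orta1_A1, orta1_A1, orta1_d_xo, orta1_opp hn h h']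
    simp [h'.symm, h2, orta1_ne]
    ring
  rw [orta1_A2 _ e bp, orta1_A2 _ e bp]
  by_cases f : b = q.rev
  · subst f
    rw [orta1_A0, (goodD (by omega)).co_fix hβ]
    · simp
    · simp [orta1_fm hn, h, h', h'.symm, h2, orta1_ne]
  · rw [Good0.co_one hβ (orta1_root hn e bp), orta1_r_sub,
      orta1_A2 v (by rwa [Fin.rev_rev]) f]
    · linear_combination (s * co _ v (orta1_r q.rev b)) * orta1_sg_ep (K := K) p q b
    · simp [orta1_fm hn, h, h', bp.symm, bq.symm, orta1_ne, Fin.rev_eq_iff.not.2 e |> Ne.symm,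
        Fin.rev_eq_iff.not.2 f |> Ne.symm]

theorem orta1_top (s : K) (v : Lie (CartanMatrix.D (n + 2)) K) :
    orta1_A (xo _ (orta1_r p q) (orta1_sg K p q * s) v) p q = orta1_A v p q +
      s * orta1_A v q.rev q - s * (orta1_A v p p.rev + s * orta1_A v q.rev p.rev) := by
  rw [orta1_A2 _ h h', orta1_A2 _ h h', Good0.co_self (orta1_root hn h h'), orta1_hb hn,
    orta1_opp hn h h', orta1_A_swap hn v q, orta1_A1, orta1_A1, orta1_r_neg]
  linear_combination (-(s * (orta1_d v.1 p + orta1_d v.1 q)) +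
    s ^ 2 * orta1_sg K p q * co _ v (orta1_r q.rev p.rev)) * (orta1_sg_pm (K := K) p q).sq

end

theorem orta1_mul_l (p q : Fin (2 * n + 3 + 1)) (s : K) (M : Matrix _ (Fin (2 * n + 3 + 1)) K)
    (a b : Fin (2 * n + 3 + 1)) :
    ((1 + single p q.rev s - single q p.rev s) * M : Matrix _ _ K) a b = M a b +
      (if a = p then s * M q.rev b else 0) - if a = q then s * M p.rev b else 0 := by
  have k : ∀ i j : Fin (2 * n + 3 + 1), (single i j s * M) a b = if a = i then s * M j b else 0 :=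
    fun i j => by
      split_ifs with e
      · subst e; simp
      · simp [e]
  simp only [sub_mul, add_mul, one_mul, Matrix.sub_apply, Matrix.add_apply, k]

theorem orta1_conj (p q : Fin (2 * n + 3 + 1)) (s : K)
    (g M : Matrix (Fin (2 * n + 3 + 1)) (Fin (2 * n + 3 + 1)) K)
    (hg : g = 1 + single p q.rev s - single q p.rev s) (a b : Fin (2 * n + 3 + 1)) :
    (g * M * gᵀ) a b = (g * M) a b +
      (if b = p then s * (g * M) a q.rev else 0) - if b = q then s * (g * M) a p.rev else 0 := by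
  have := orta1_mul_l p q s (g * M)ᵀ b a
  rw [← hg] at this
  rw [← transpose_apply (g * M * gᵀ) b a, transpose_mul, transpose_transpose, this]
  rfl

theorem orta1_xo (hn : 1 ≤ n) {p q : Fin (2 * n + 3 + 1)} (h : q ≠ p.rev) (h' : q ≠ p) (s : K)
    (v : Lie (CartanMatrix.D (n + 2)) K) (g T : Matrix _ (Fin (2 * n + 3 + 1)) K)
    (hg : g = 1 + single p q.rev s - single q p.rev s) (hT : T - Tᵀ = orta1_A v) :
    g * T * gᵀ - (g * T * gᵀ)ᵀ = orta1_A (xo _ (orta1_r p q) (orta1_sg K p q * s) v) := by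
  have e : g * T * gᵀ - (g * T * gᵀ)ᵀ = g * orta1_A v * gᵀ := by
    rw [← hT]; simp only [transpose_mul, transpose_transpose, mul_sub, sub_mul, mul_assoc]
  have h2 : p ≠ q.rev := fun e => h (by rw [e, Fin.rev_rev])
  have k : ∀ a b, b ≠ p ∧ b ≠ q ∨ a = p ∧ b = q → (g * T * gᵀ - (g * T * gᵀ)ᵀ) a b =
      orta1_A (xo _ (orta1_r p q) (orta1_sg K p q * s) v) a b := fun a b c => by
    rw [e, orta1_conj p q s g _ hg]
    simp only [hg, orta1_mul_l]
    rcases c with ⟨bp, bq⟩ | ⟨rfl, rfl⟩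
    · simp only [bp, bq, if_false, add_zero, sub_zero]
      by_cases ap : a = p
      · subst ap
        rw [orta1_row hn h h' s v bp bq]; simp [h'.symm]
      by_cases aq : a = q
      · subst aq
        have := orta1_row hn h2 h'.symm (-s) v bq bp
        rw [orta1_r_comm, orta1_sg_swap hn h h', neg_mul_neg] at this
        rw [this]; simp [h', sub_eq_add_neg]
      · rw [orta1_fix hn h h' _ v ap aq bp bq]; simp [ap, aq]
    · rw [orta1_top hn h h']; simp [h', h'.symm]
  have k' : ∀ a b, b ≠ p ∧ b ≠ q ∨ a = p ∧ b = q → (g * T * gᵀ - (g * T * gᵀ)ᵀ) b a =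
      orta1_A (xo _ (orta1_r p q) (orta1_sg K p q * s) v) b a := fun a b c => by
    rw [orta1_A_swap hn, ← k a b c]; simp only [Matrix.sub_apply, transpose_apply, neg_sub]
  ext a b
  by_cases c : b ≠ p ∧ b ≠ q ∨ a = p ∧ b = q
  · exact k a b c
  by_cases c' : a ≠ p ∧ a ≠ q ∨ b = p ∧ a = q
  · exact k' b a c'
  obtain rfl : a = b := by grind
  rw [orta1_A0, Matrix.sub_apply, transpose_apply, sub_self]

variable (K) in
/-- The indicator of the first half of the indices. -/
def orta1_ch (a : Fin (2 * n + 3 + 1)) : K := (orta1_W a (Fin.last (n + 1)) : ℤ)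

theorem orta1_ch_rev (a : Fin (2 * n + 3 + 1)) : orta1_ch K a.rev = 1 - orta1_ch K a := by
  simp [orta1_ch, orta1_W_rev, orta1_om, Fin.ext_iff]

/-- The contraction with the quadratic form. -/
def orta1_lam (T : Matrix (Fin (2 * n + 3 + 1)) (Fin (2 * n + 3 + 1)) K) : K :=
  ∑ a, orta1_ch K a * T a a.rev

theorem orta1_lam_xo {p q : Fin (2 * n + 3 + 1)} (h : q ≠ p.rev) (h' : q ≠ p) (s : K)
    (g T : Matrix _ (Fin (2 * n + 3 + 1)) K) (hg : g = 1 + single p q.rev s - single q p.rev s) :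
    orta1_lam (g * T * gᵀ) = orta1_lam T +
      s * (orta1_ch K p - orta1_ch K q.rev) * (T - Tᵀ) q.rev p.rev := by
  have h2 : p ≠ q.rev := fun e => h (by rw [e, Fin.rev_rev])
  have k : ∀ a, (g * T * gᵀ) a a.rev = T a a.rev + (if a = p then s * T q.rev p.rev else 0) -
      (if a = q then s * T p.rev q.rev else 0) + (if a = p.rev then s * T p.rev q.rev else 0) -
      if a = q.rev then s * T q.rev p.rev else 0 := fun a => by
    rw [orta1_conj p q s g _ hg]
    simp only [hg, orta1_mul_l, Fin.rev_eq_iff]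
    have := orta1_ne p
    have := orta1_ne q
    grind
  simp only [orta1_lam, k, mul_add, mul_sub, mul_ite, mul_zero, Finset.sum_add_distrib,
    Finset.sum_sub_distrib, Finset.sum_ite_eq', Finset.mem_univ, if_true, orta1_ch_rev,
    Matrix.sub_apply, transpose_apply]
  ring

/-- The permutation `σ` of the model is induced by the matrix `g`. -/
def orta1_R (g : Matrix (Fin (2 * n + 3 + 1)) (Fin (2 * n + 3 + 1)) K)
    (σ : Equiv.Perm (Lie (CartanMatrix.D (n + 2)) K)) : Prop :=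
  ∀ v T, T - Tᵀ = orta1_A v → g * T * gᵀ - (g * T * gᵀ)ᵀ = orta1_A (σ v) ∧
    (σ v).1 (Fin.last (n + 1)) - orta1_lam (g * T * gᵀ) = v.1 (Fin.last (n + 1)) - orta1_lam T

theorem orta1_R_mul {g k : Matrix (Fin (2 * n + 3 + 1)) (Fin (2 * n + 3 + 1)) K}
    {σ τ : Equiv.Perm (Lie (CartanMatrix.D (n + 2)) K)} (h : orta1_R g σ) (h' : orta1_R k τ) :
    orta1_R (g * k) (σ * τ) := fun v T e => by
  have a := h' v T e
  have b := h _ _ a.1
  rw [show g * k * T * (g * k)ᵀ = g * (k * T * kᵀ) * gᵀ by simp only [transpose_mul, mul_assoc]]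
  exact ⟨b.1, b.2.trans a.2⟩

theorem orta1_R_eq (hn : 1 ≤ n) {g : Matrix (Fin (2 * n + 3 + 1)) (Fin (2 * n + 3 + 1)) K}
    {σ τ : Equiv.Perm (Lie (CartanMatrix.D (n + 2)) K)} (h : orta1_R g σ) (h' : orta1_R g τ) :
    σ = τ := by
  ext1 v
  have e : (of fun a b => if a < b then orta1_A v a b else 0) -
      (of fun a b => if a < b then orta1_A v a b else 0)ᵀ = orta1_A v := by
    ext a b
    rcases lt_trichotomy a b with c | rfl | c
    · simp [c, c.not_gt]
    · simp [orta1_A0]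
    · simp [c, c.not_gt, orta1_A_swap hn v b a]
  exact orta1_inj hn ((h v _ e).1.symm.trans (h' v _ e).1)
    (sub_left_injective ((h v _ e).2.trans (h' v _ e).2.symm))

theorem orta1_R_eo (hn : 1 ≤ n) {i j : Fin (2 * n + 3 + 1)} (h : i ≠ j) (h' : j ≠ i.rev) (s : K) :
    orta1_R (eo i j s).1 ((goodD (by omega)).xx (rtD i j) (orta1_sg K i j.rev * s)) := by
  obtain ⟨q, rfl⟩ := Fin.rev_surjective j
  have h1 : q ≠ i.rev := fun e => h (by rw [e, Fin.rev_rev])
  have h2 : q ≠ i := fun e => h' (by rw [e])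
  have hg : (eo i q.rev s).1 = 1 + single i q.rev s - single q i.rev s := by
    rw [eo, Units.val_mul, el_val h, Fin.rev_rev, el_val h1, mul_add, add_mul, add_mul,
      single_mul_single_of_ne _ _ _ _ (orta1_ne q).symm, ← single_neg]
    simp only [mul_one, mul_neg, one_mul, add_zero, sub_eq_add_neg]
  intro v T e
  rw [Fin.rev_rev, ← orta1_r, Good0.xx_apply _ (orta1_root hn h1 h2)]
  refine ⟨orta1_xo hn h1 h2 s v _ T hg e, ?_⟩
  rw [orta1_lam_xo h1 h2 s _ T hg, e, orta1_opp hn h1 h2, xo_fst, orta1_r_neg]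
  simp only [orta1_r, rtD, orta1_ch, Pi.sub_apply]
  push_cast
  ring

theorem orta1_R_one : orta1_R (n := n) (K := K) 1 1 := fun v T e => by simpa using e

theorem orta1_el_inv (i j : Fin (2 * n + 3 + 1)) (s : K) : (el i j s)⁻¹ = el i j (-s) := by
  by_cases h : i = j
  · simp [el, h]
  · exact Units.ext (by rw [el_inv h, el_val h, ← single_neg, sub_eq_add_neg])

theorem orta1_ex (hn : 1 ≤ n) (g : sog (2 * n + 3) K) : ∃ σ, orta1_R g.1.1 σ := by
  have k : ∀ (i j : Fin (2 * n + 3 + 1)) (s : K), j ≠ i.rev → ∃ σ, orta1_R (eo i j s).1 σ :=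
    fun i j s h => by
      by_cases e : i = j
      · exact ⟨1, by simpa [eo, el, e] using orta1_R_one⟩
      · exact ⟨_, orta1_R_eo hn e h s⟩
  obtain ⟨g, hg⟩ := g
  induction hg using Subgroup.closure_induction'' with
  | mem g hg => obtain ⟨i, j, s, h, rfl⟩ := hg; exact k i j s h
  | inv_mem g hg =>
    obtain ⟨i, j, s, h, rfl⟩ := hg
    have := k j.rev i.rev s (by rw [Fin.rev_rev]; exact h.symm)
    rw [eo, Fin.rev_rev, Fin.rev_rev] at this
    dsimp only
    rwa [eo, _root_.mul_inv_rev, orta1_el_inv, orta1_el_inv, neg_neg]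
  | one => exact ⟨1, orta1_R_one⟩
  | mul a b _ _ ha hb => exact ⟨_, orta1_R_mul ha.choose_spec hb.choose_spec⟩

/-- The natural representation of type `D`. -/
theorem ort_ex (hn : 1 ≤ n) :
    ∃ Ψ : sog (2 * n + 3) K →* Equiv.Perm (Lie (CartanMatrix.D (n + 2)) K),
    (∀ g, Sc g.1 → Ψ g = 1) ∧ ∃ e : Fin (2 * n + 3 + 1) → Fin (2 * n + 3 + 1) → K,
    (∀ i m : Fin (2 * n + 3 + 1), ¬ Mid i → Mid m → e i m = e i m.rev) ∧
    ∀ i j, i ≠ j → j ≠ i.rev → Pm (e i j) ∧ ∀ (s : K) (g : sog (2 * n + 3) K), g.1 = eo i j s →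
      ∀ v, Ψ g v = v + (e i j * s) • ad _ (rtD i j) v + (e i j * s) ^ 2 • ad2 _ (rtD i j) v := by
  choose F hF using orta1_ex (K := K) hn
  refine ⟨MonoidHom.mk' F fun a b => orta1_R_eq hn (hF _) (orta1_R_mul (hF a) (hF b)),
    fun g ⟨z, hz⟩ => orta1_R_eq hn (hF g) ?_, fun i j => orta1_sg K i j.rev, fun i m hi hm => ?_,
    fun i j h h' => ⟨orta1_sg_pm _ _, fun s g e v => ?_⟩⟩
  · have k := hF g
    rw [hz] at k ⊢
    have c : ∀ T : Matrix (Fin (2 * n + 3 + 1)) (Fin (2 * n + 3 + 1)) K,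
        z • 1 * T * (z • 1)ᵀ = (z * z) • T := fun T => by simp [smul_smul]
    have A0 : orta1_A (0 : Lie (CartanMatrix.D (n + 2)) K) = 0 := by
      ext a b; simp [orta1_A, orta1_d, co]
    have l0 : ∀ (y : K) (T : Matrix (Fin (2 * n + 3 + 1)) (Fin (2 * n + 3 + 1)) K),
        orta1_lam (y • T) = y * orta1_lam T := fun y T => by
      simp [orta1_lam, Finset.mul_sum, mul_left_comm]
    have l1 : orta1_lam (single (0 : Fin (2 * n + 3 + 1)) (Fin.rev 0) (1 : K) +
        single (Fin.rev 0) 0 1) = 1 := by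
      simp only [orta1_lam, Matrix.add_apply, single_apply, Fin.rev_inj, and_self, mul_add,
        eq_comm (a := 0) (b := Fin.rev _), Fin.rev_eq_iff (i := _) (j := 0), eq_comm (b := Fin.rev 0),
        mul_ite, mul_one, mul_zero, Finset.sum_add_distrib, Finset.sum_ite_eq, Finset.mem_univ,
        if_true, orta1_ch_rev]
      ring
    have k0 := (k 0 0 (by simp [A0])).2
    have k1 := (k 0 _ (show single (0 : Fin (2 * n + 3 + 1)) (Fin.rev 0) (1 : K) +
      single (Fin.rev 0) 0 1 - _ = _ by simp [A0, add_comm])).2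
    rw [c, l0] at k0 k1
    rw [l1] at k1
    have zz : z * z = 1 := by
      simp only [orta1_lam, Matrix.zero_apply, mul_zero, Finset.sum_const_zero] at k0
      linear_combination k0 - k1
    intro v T e
    rw [c, zz, one_smul]
    exact ⟨e, rfl⟩
  · dsimp only
    rw [Fin.rev_rev, orta1_sg_mid hn hi hm]
  · have := orta1_R_eq hn (hF g) (e ▸ orta1_R_eo hn h h' s)
    rw [MonoidHom.mk'_apply, this, Good0.xx_apply]
    · rfl
    · have := orta1_root hn (a := i) (b := j.rev) (fun e => h (Fin.rev_injective e).symm)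
        fun e => h' (by rw [← e, Fin.rev_rev])
      rwa [orta1_r, Fin.rev_rev] at this

end Pool.Agent.MP_c78e8e_al.H75

end

section

namespace Pool.Agent.MP_c78e8e_al.H75

open Subgroup Matrix

section
variable {r : ℕ} {K : Type} [Field K] {φ : K →+* K} {C : Matrix (Fin r) (Fin r) ℤ}
  {ρ : Equiv.Perm (Fin r)} (hρ : ∀ i, ρ (ρ i) = i) (hρC : ∀ i j, C (ρ i) (ρ j) = C i j)
  (hφ : ∀ s, φ (φ s) = s) (hC : Good0 C) (ht : ∀ β, tw C ρ β = 0)

/-- The model without signs. -/
noncomputable def ortaM : St (Equiv.Perm (Lie C K)) (Fin r → ℤ) K :=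
  model hρ hρC hφ hC 1 0 0 (by simp) (by simp) (fun β _ _ => by simp [ht])

theorem orta_x (β : Fin r → ℤ) (s : K) : (ortaM hρ hρC hφ hC ht).x β s = hC.xx β s := by
  simp [ortaM, model]

theorem orta_θ {β : Fin r → ℤ} (h : fm C β β = 2) (s : K) :
    (ortaM hρ hρC hφ hC ht).θ (hC.xx β s) = hC.xx (β ∘ ρ) (φ s) := by
  rw [← orta_x hρ hρC hφ hC ht, St.θx _ β h, orta_x]
  congr 1
  simp [ortaM, model, ht]

theorem orta_Gs : (ortaM hρ hρC hφ hC ht).Gs = chev C ρ φ := model_Gs ..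

include hρ hρC hφ ht in
theorem orta_long {β : Fin r → ℤ} (h : fm C β β = 2) (l : β ∘ ρ = β) {s : K} (hs : φ s = s) :
    hC.xx β s ∈ chev C ρ φ := by
  rw [← orta_Gs hρ hρC hφ hC ht, ← orta_x hρ hρC hφ hC ht]
  exact St.U_Gs (St.yp_long h l hs).mem

include hρ hρC hφ ht in
theorem orta_short {β : Fin r → ℤ} (h : fm C β β = 2) (l : fm C β (β ∘ ρ) = 0) (s : K) :
    hC.xx β s * hC.xx (β ∘ ρ) (φ s) ∈ chev C ρ φ := by
  rw [← orta_Gs hρ hρC hφ hC ht, ← orta_θ hρ hρC hφ hC ht h, ← orta_x hρ hρC hφ hC ht]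
  exact St.U_Gs (St.yp_short h l s).mem

include hρ hρC hφ hC ht in
theorem orta_ns {i j : Fin r} (hi : ρ i = i) (hj : ρ j = j) (h : C i j = -1) :
    ¬ Group.IsSolvable (chev C ρ φ) := by
  rw [← orta_Gs hρ hρC hφ hC ht]
  exact St.not_solvable (β := Pi.single i 1) (γ := Pi.single j 1)
    ⟨(fm_single _ _).trans (hC.diag _), (fm_single _ _).trans (hC.diag _),
      (fm_single _ _).trans h, Or.inl ⟨(single_ρ hρ i).trans (by rw [hi]),
        (single_ρ hρ j).trans (by rw [hj])⟩⟩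

include hρ hρC hφ ht in
theorem orta_gen {H : Subgroup (Equiv.Perm (Lie C K))}
    (h : ∀ i β, β = Pi.single i 1 ∨ β = -Pi.single i 1 →
      (β ∘ ρ = β ∧ ∀ s, φ s = s → hC.xx β s ∈ H) ∨
      (fm C β (β ∘ ρ) = 0 ∧ ∀ s, hC.xx β s * hC.xx (β ∘ ρ) (φ s) ∈ H)) :
    chev C ρ φ ≤ H := by
  have fu : ∀ i β, β = Pi.single i 1 ∨ β = -Pi.single i 1 → (ortaM hρ hρC hφ hC ht).Fu H β := by
    intro i β e u hu
    rcases h i β e with ⟨l, k⟩ | ⟨l, k⟩
    · obtain ⟨s, y⟩ := St.U_Yp hu (Or.inl l)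
      rw [(y.long l).1, orta_x]
      exact k s (y.long l).2
    · obtain ⟨s, y⟩ := St.U_Yp hu (Or.inr (Or.inl l))
      rw [y.short l, orta_x, orta_θ hρ hρC hφ hC ht hu.1]
      exact k s
  refine (orta_Gs hρ hρC hφ hC ht).ge.trans ((Subgroup.closure_le H).2 ?_)
  rintro u ⟨β, hu⟩
  exact fin_model hC hρ _ rfl (fun _ => id) (fun _ => rfl)
    (fun i => ⟨fu i _ (Or.inl rfl), fu i _ (Or.inr rfl)⟩) β u hu

end

section
variable {N : ℕ} {K : Type} [Field K]

theorem orta_sc_mul {g h : GL (Fin (N + 1)) K} (a : Sc g) (b : Sc h) : Sc (g * h) := by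
  obtain ⟨z, a⟩ := a
  obtain ⟨w, b⟩ := b
  exact ⟨z * w, by simp only [Units.val_mul, a, b, Algebra.mul_smul_comm, mul_one, smul_smul, mul_comm]⟩

theorem orta_sc_comm {z : GL (Fin (N + 1)) K} (a : Sc z) (g : GL (Fin (N + 1)) K) :
    z * g = g * z := by
  obtain ⟨w, a⟩ := a
  exact Units.ext (by simp [a])

theorem orta_sc_inv {g : GL (Fin (N + 1)) K} (a : Sc g) : Sc g⁻¹ := by
  obtain ⟨z, a⟩ := a
  have e : z • (g⁻¹).1 = 1 := by
    have := g.mul_inv
    rwa [a, smul_mul_assoc, one_mul] at this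
  have z0 : z ≠ 0 := by
    rintro rfl
    simpa using congrFun (congrFun e 0) 0
  exact ⟨z⁻¹, by rw [← e, smul_smul, inv_mul_cancel₀ z0, one_smul]⟩

/-- Preimage of a subgroup, enlarged by the scalars. -/
def ortaH {G' : Type} [Group G'] {S : Subgroup (GL (Fin (N + 1)) K)} (Ψ : S →* G')
    (H : Subgroup G') : Subgroup (GL (Fin (N + 1)) K) where
  carrier := {g | ∃ h : S, Ψ h ∈ H ∧ Sc (g * h.1⁻¹)}
  one_mem' := ⟨1, by simp, 1, by simp only [OneMemClass.coe_one, inv_one, mul_one, Units.val_one, one_smul]⟩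
  mul_mem' := by
    rintro a b ⟨h, m, s⟩ ⟨k, m', s'⟩
    refine ⟨h * k, by rw [map_mul]; exact mul_mem m m', ?_⟩
    have : a * b * (h * k).1⁻¹ = a * h.1⁻¹ * (b * k.1⁻¹) := by
      rw [mul_assoc a h.1⁻¹, ← orta_sc_comm s', Subgroup.coe_mul]; group
    rw [this]
    exact orta_sc_mul s s'
  inv_mem' := by
    rintro a ⟨h, m, s⟩
    refine ⟨h⁻¹, by rw [map_inv]; exact inv_mem m, ?_⟩
    have : a⁻¹ * (h⁻¹).1⁻¹ = (a * h.1⁻¹)⁻¹ := by
      have := orta_sc_comm (orta_sc_inv s) h.1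
      rw [Subgroup.coe_inv, inv_inv, ← mul_right_inj h.1, ← this]; group
    rw [this]
    exact orta_sc_inv s

theorem orta_back {G' : Type} [Group G'] {S : Subgroup (GL (Fin (N + 1)) K)} {Ψ : S →* G'}
    (ker : ∀ g : S, Sc g.1 → Ψ g = 1) {H : Subgroup G'} {g : S} (h : g.1 ∈ ortaH Ψ H) :
    Ψ g ∈ H := by
  obtain ⟨k, m, s⟩ := h
  have := ker (g * k⁻¹) s
  rw [map_mul, map_inv, mul_inv_eq_one] at this
  rwa [this]

theorem orta_three {G' : Type} [Group G'] {S : Subgroup (GL (Fin (N + 1)) K)} (Ψ : S →* G')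
    (ker : ∀ g : S, Sc g.1 → Ψ g = 1) {M : Subgroup G'} (ns : ¬ Group.IsSolvable M)
    {T : Subgroup (GL (Fin (N + 1)) K)} (le : T ≤ S) (mem : ∀ g : S, g.1 ∈ T → Ψ g ∈ M)
    {a b c g g' : GL (Fin (N + 1)) K} (ha : a ∈ T) (hb : b ∈ T) (hc : c ∈ T) (hg : g ∈ T)
    (hg' : g' ∈ T) (aa : Sc (a * a)) (eb : Sc (b⁻¹ * (g * a * g⁻¹)))
    (ec : Sc (c⁻¹ * (g' * a * g'⁻¹))) (ab : Sc ((a * b)⁻¹ * (b * a)))
    (gen : ∀ H : Subgroup G', (∀ z, Sc z → z ∈ ortaH Ψ H) → a ∈ ortaH Ψ H → b ∈ ortaH Ψ H →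
      c ∈ ortaH Ψ H → M ≤ H) : IsLeast {k | Good M k} 3 :=
  natb_three Ψ ns (a := ⟨a, le ha⟩) (b := ⟨b, le hb⟩) (c := ⟨c, le hc⟩) (g := ⟨g, le hg⟩)
    (g' := ⟨g', le hg'⟩) (mem _ ha) (mem _ hb) (mem _ hc) (mem _ hg) (mem _ hg') (ker _ aa)
    (ker _ eb) (ker _ ec) (ker _ ab) fun H h1 h2 h3 =>
    gen H (fun z hz => ⟨1, by simp, by simpa only [OneMemClass.coe_one, inv_one, mul_one] using hz⟩) ⟨_, h1, 1, by simp⟩ ⟨_, h2, 1, by simp⟩
      ⟨_, h3, 1, by simp⟩

theorem orta_self (i : Fin (N + 1)) (s : K) : eo i i s = 1 := by simp [eo, el]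

theorem orta_mem {i j : Fin (N + 1)} (h : j ≠ i.rev) (s : K) : eo i j s ∈ sog N K :=
  subset_closure ⟨i, j, s, h, rfl⟩

theorem orta_flip {i j : Fin (N + 1)} (hi : i ≠ i.rev) (hj : j ≠ j.rev) (s : K) :
    eo i j s = eo j.rev i.rev (-s) := by
  by_cases h : i = j
  · subst h; rw [orta_self, orta_self]
  have h' : j.rev ≠ i.rev := fun e => h (Fin.rev_injective e).symm
  refine Units.ext ?_
  simp only [eo, Fin.rev_rev, neg_neg, Units.val_mul, el_val h, el_val h', mul_add, add_mul,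
    one_mul, mul_one, single_mul_single_of_ne _ _ _ _ hj, single_mul_single_of_ne _ _ _ _ hi.symm]
  abel

end

variable {n : ℕ} {K : Type} [Field K] {φ : K →+* K}

theorem orta_inj (hn : 1 ≤ n) {u v : Fin (n + 2) → ℤ}
    (h : tau (tD (n + 2)) u = tau (tD (n + 2)) v) : u = v :=
  sub_eq_zero.1 ((goodD (by omega)).pos _ (by
    rw [fm_apply, ← tau_iso (gramD (by omega)), map_sub, h, sub_self]; simp))

theorem orta_fm (hn : 1 ≤ n) (i j k l : Fin (2 * n + 3 + 1)) :
    fm (CartanMatrix.D (n + 2)) (rtD i j) (rtD k l) =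
      (if k = i then 1 else 0) - (if k = i.rev then 1 else 0) - (if k = j then 1 else 0) +
      (if k = j.rev then 1 else 0) - (if l = i then 1 else 0) + (if l = i.rev then 1 else 0) +
      (if l = j then 1 else 0) - (if l = j.rev then 1 else 0) := by
  have e : ∀ i k : Fin (2 * n + 3 + 1), dp (N := n + 2) (if (i : ℕ) < n + 2 then ee i else -ee i.rev)
      (if (k : ℕ) < n + 2 then ee k else -ee k.rev) =
      (if k = i then 1 else 0) - (if k = i.rev then 1 else 0) := by
    intro i k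
    have := i.2
    have := k.2
    by_cases p : (i : ℕ) < n + 2 <;> by_cases q : (k : ℕ) < n + 2 <;>
      simp only [p, q, if_true, if_false, map_neg, AddMonoidHom.neg_apply, ee_ee, Fin.ext_iff,
        Fin.val_rev, true_and] <;> split_ifs <;> omega
  rw [← tau_iso (gramD (by omega)), tau_rtD, tau_rtD]
  simp only [map_sub, AddMonoidHom.sub_apply, e]
  ring

theorem orta_ne (i : Fin (2 * n + 3 + 1)) : i ≠ i.rev := by
  have := i.2
  rw [ne_eq, Fin.ext_iff, Fin.val_rev]; omega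

theorem orta_root (hn : 1 ≤ n) {i j : Fin (2 * n + 3 + 1)} (h : i ≠ j) (h' : j ≠ i.rev) :
    fm (CartanMatrix.D (n + 2)) (rtD i j) (rtD i j) = 2 := by
  have : i ≠ j.rev := fun e => h' (by rw [e, Fin.rev_rev])
  simp [orta_fm hn, orta_ne, h, h.symm, h', this]

theorem orta_neg (hn : 1 ≤ n) (i j : Fin (2 * n + 3 + 1)) : rtD j i = -rtD i j :=
  orta_inj hn (by rw [map_neg, tau_rtD, tau_rtD, neg_sub])

theorem orta_simple (hn : 1 ≤ n) (k : Fin (n + 2)) {i j : Fin (2 * n + 3 + 1)}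
    (h : (k : ℕ) ≤ n ∧ (i : ℕ) = k ∧ (j : ℕ) = k + 1 ∨
      (k : ℕ) = n + 1 ∧ (i : ℕ) = n ∧ (j : ℕ) = n + 2) : rtD i j = Pi.single k 1 := by
  refine orta_inj hn ?_
  rw [tau_rtD, tau_single, tD, Fin.val_rev, Fin.val_rev]
  rcases h with ⟨h, p, q⟩ | ⟨h, p, q⟩
  · rw [p, q, if_pos (by omega), if_pos (by omega), if_pos (by omega)]
  · rw [p, q, if_pos (by omega), if_neg (by omega), if_neg (by omega), sub_neg_eq_add]
    congr 2
    omega

theorem orta_xx {hC : Good0 (CartanMatrix.D (n + 2))} {β : Fin (n + 2) → ℤ}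
    (h : fm (CartanMatrix.D (n + 2)) β β = 2) {u : Equiv.Perm (Lie (CartanMatrix.D (n + 2)) K)}
    {t : K} (e : ∀ v, u v = v + t • ad _ β v + t ^ 2 • ad2 _ β v) : u = hC.xx β t :=
  Equiv.ext fun v => by rw [e, hC.xx_apply h]; rfl

/-- Transfer for the split orthogonal groups. -/
theorem goodO (hn : 1 ≤ n) {a b c g g' : GL (Fin (2 * n + 3 + 1)) K} (ha : a ∈ sog _ K)
    (hb : b ∈ sog _ K) (hc : c ∈ sog _ K) (hg : g ∈ sog _ K) (hg' : g' ∈ sog _ K) (aa : Sc (a * a))
    (eb : Sc (b⁻¹ * (g * a * g⁻¹))) (ec : Sc (c⁻¹ * (g' * a * g'⁻¹))) (ab : Sc ((a * b)⁻¹ * (b * a)))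
    (gen : ∀ H : Subgroup (GL (Fin (2 * n + 3 + 1)) K), (∀ z, Sc z → z ∈ H) → a ∈ H → b ∈ H →
      c ∈ H → ∀ (i j : Fin (2 * n + 3 + 1)) s, (i : ℕ) ≤ n ∧ (j : ℕ) = i + 1 ∨
        (i : ℕ) = n ∧ (j : ℕ) = n + 2 → eo i j s ∈ H ∧ eo j i s ∈ H) :
    IsLeast {k | Good (chev (CartanMatrix.D (n + 2)) 1 (RingHom.id K)) k} 3 := by
  obtain ⟨Ψ, ker, e, -, rg⟩ := ort_ex (K := K) hn
  have hC := goodD (r := n + 2) (by omega)
  have ht : ∀ β, tw (CartanMatrix.D (n + 2)) 1 β = 0 := fun β =>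
    Finset.sum_eq_zero fun i _ => Finset.sum_eq_zero fun j _ => if_neg fun h => lt_asymm h.1 h.2
  have xx : ∀ i j, i ≠ j → ∀ (h : j ≠ i.rev) (s : K),
      Ψ ⟨_, orta_mem h s⟩ = hC.xx (rtD i j) (e i j * s) := fun i j p q s =>
    orta_xx (orta_root hn p q) ((rg i j p q).2 s _ rfl)
  obtain ⟨j0, hj0⟩ := hC.nbr 0
  refine orta_three Ψ ker (orta_ns (fun _ => rfl) (fun _ _ => rfl)
    (fun _ => rfl) hC ht rfl rfl hj0) le_rfl (fun g _ => ?_) ha hb hc hg hg' aa eb ec ab
    fun H h0 h1 h2 h3 => ?_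
  · obtain ⟨g, hg⟩ := g
    induction hg using Subgroup.closure_induction with
    | mem x hx =>
      obtain ⟨i, j, s, h, rfl⟩ := hx
      by_cases p : i = j
      · subst p
        rw [ker _ ⟨1, by simp [orta_self]⟩]
        exact one_mem _
      · rw [xx i j p h]
        exact orta_long (fun _ => rfl) (fun _ _ => rfl) (fun _ => rfl) hC ht (orta_root hn p h)
          rfl rfl
    | one => exact (map_one Ψ).symm ▸ one_mem _
    | mul x y hx hy p q =>
      exact (map_mul Ψ ⟨x, hx⟩ ⟨y, hy⟩).symm ▸ mul_mem (p hx) (q hy)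
    | inv x hx p => exact (map_inv Ψ ⟨x, hx⟩).symm ▸ inv_mem (p hx)
  have k := gen _ h0 h1 h2 h3
  have key : ∀ i j, i ≠ j → j ≠ i.rev → (∀ s, eo i j s ∈ ortaH Ψ H) →
      ∀ s, hC.xx (rtD i j) s ∈ H := fun i j p q m s => by
    have := orta_back ker (g := ⟨_, orta_mem q (e i j * s)⟩) (m _)
    rwa [xx i j p q, ← mul_assoc, (rg i j p q).1.sq, one_mul] at this
  refine orta_gen (fun _ => rfl) (fun _ _ => rfl) (fun _ => rfl) hC ht fun l β hβ =>
    Or.inl ⟨rfl, fun s _ => ?_⟩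
  obtain ⟨i, j, h⟩ : ∃ i j : Fin (2 * n + 3 + 1), (l : ℕ) ≤ n ∧ (i : ℕ) = l ∧ (j : ℕ) = l + 1 ∨
      (l : ℕ) = n + 1 ∧ (i : ℕ) = n ∧ (j : ℕ) = n + 2 := by
    have := l.2
    by_cases p : (l : ℕ) ≤ n
    · exact ⟨⟨l, by omega⟩, ⟨l + 1, by omega⟩, Or.inl ⟨p, rfl, rfl⟩⟩
    · exact ⟨⟨n, by omega⟩, ⟨n + 2, by omega⟩, Or.inr ⟨by omega, rfl, rfl⟩⟩
  have p : i ≠ j := by simp only [ne_eq, Fin.ext_iff]; omega
  have q : j ≠ i.rev := by simp only [ne_eq, Fin.ext_iff, Fin.val_rev]; omega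
  have q' : i ≠ j.rev := by simp only [ne_eq, Fin.ext_iff, Fin.val_rev]; omega
  have m := fun s => k i j s (by omega)
  rw [← orta_simple hn l h, ← orta_neg hn] at hβ
  rcases hβ with rfl | rfl
  · exact key i j p q (fun s => (m s).1) s
  · exact key j i p.symm q' (fun s => (m s).2) s

theorem orta_mid {i : Fin (2 * n + 3 + 1)} : Mid i ↔ (i : ℕ) = n + 1 ∨ (i : ℕ) = n + 2 := by
  have := i.2
  simp only [Mid, Fin.val_rev]
  omega

theorem orta_rev (hn : 1 ≤ n) (i j : Fin (2 * n + 3 + 1)) : rtD j.rev i.rev = rtD i j := by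
  refine orta_inj hn ?_
  have e : ∀ i : Fin (2 * n + 3 + 1), (if (i.rev : ℕ) < n + 2 then ee i.rev else -ee i.rev.rev :
      Fin (n + 2) → ℤ) = -(if (i : ℕ) < n + 2 then ee i else -ee i.rev) := fun i => by
    have := i.2
    by_cases p : (i : ℕ) < n + 2
    · rw [if_pos p, if_neg (by rw [Fin.val_rev]; omega), Fin.rev_rev]
    · rw [if_neg p, if_pos (by rw [Fin.val_rev]; omega), neg_neg]
  rw [tau_rtD, tau_rtD, e, e]
  abel

/-- The reflection in the last coordinate. -/
def ortaR (n : ℕ) : (Fin (n + 2) → ℤ) →+ (Fin (n + 2) → ℤ) :=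
  AddMonoidHom.mk' (fun v j => if (j : ℕ) = n + 1 then -v j else v j) fun u v => by
    ext j; simp only [Pi.add_apply]; split_ifs <;> ring

theorem orta_R_ee (k : ℕ) : ortaR n (ee k) = if k = n + 1 then -ee k else ee k := by
  ext j
  simp only [ortaR, AddMonoidHom.mk'_apply]
  split_ifs <;> simp [ee] <;> omega

theorem orta_R_tD (i : Fin (n + 2)) : ortaR n (tD (n + 2) i) =
    tD (n + 2) (Equiv.swap (Fin.last n).castSucc (Fin.last (n + 1)) i) := by
  have i3 : i = (Fin.last n).castSucc ∨ i = Fin.last (n + 1) ∨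
      (i ≠ (Fin.last n).castSucc ∧ i ≠ Fin.last (n + 1)) := by tauto
  rcases i3 with rfl | rfl | ⟨h1, h2⟩
  · simp only [tD, Fin.val_castSucc, Fin.val_last, add_lt_add_iff_left, Order.lt_two_iff, Std.le_refl, ↓ reduceIte, map_sub, orta_R_ee, Nat.left_eq_add, one_ne_zero, Nat.add_left_cancel_iff, sub_neg_eq_add, Equiv.swap_apply_left, lt_self_iff_false, add_tsub_cancel_right, Nat.add_one_sub_one]
  · simp only [tD, Fin.val_last, lt_self_iff_false, ↓ reduceIte, add_tsub_cancel_right, Nat.add_one_sub_one, map_add, orta_R_ee, Nat.left_eq_add, one_ne_zero, Nat.add_left_cancel_iff, Equiv.swap_apply_right, Fin.val_castSucc, add_lt_add_iff_left, Order.lt_two_iff, Std.le_refl, sub_eq_add_neg]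
  · rw [Equiv.swap_apply_of_ne_of_ne h1 h2]
    simp only [ne_eq, Fin.ext_iff, Fin.val_castSucc, Fin.val_last] at h1 h2
    simp [tD, orta_R_ee, h1, h2, show (i : ℕ) + 1 < n + 2 by omega]

theorem orta_ρC (hn : 1 ≤ n) (i j : Fin (n + 2)) :
    CartanMatrix.D (n + 2) (Equiv.swap (Fin.last n).castSucc (Fin.last (n + 1)) i)
      (Equiv.swap (Fin.last n).castSucc (Fin.last (n + 1)) j) = CartanMatrix.D (n + 2) i j := by
  rw [← gramD (by omega), ← gramD (by omega), ← orta_R_tD, ← orta_R_tD, dp_apply, dp_apply]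
  refine Finset.sum_congr rfl fun k _ => ?_
  simp only [ortaR, AddMonoidHom.mk'_apply]
  split_ifs <;> simp

theorem orta_tw (β : Fin (n + 2) → ℤ) :
    tw (CartanMatrix.D (n + 2)) (Equiv.swap (Fin.last n).castSucc (Fin.last (n + 1))) β = 0 := by
  refine Finset.sum_eq_zero fun i _ => Finset.sum_eq_zero fun j _ => ?_
  have v : ∀ i : Fin (n + 2), (Equiv.swap (Fin.last n).castSucc (Fin.last (n + 1)) i : ℕ) =
      if (i : ℕ) = n then n + 1 else if (i : ℕ) = n + 1 then n else i := fun i => by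
    rw [Equiv.swap_apply_def]
    simp only [Fin.ext_iff, Fin.val_castSucc, Fin.val_last]
    split_ifs <;> simp
  split_ifs with h
  · have := i.2
    have := j.2
    simp only [Fin.lt_def, v] at h
    have : CartanMatrix.D (n + 2) i j = 0 := by
      simp only [CartanMatrix.D, of_apply, Fin.ext_iff]
      split_ifs at h ⊢ <;> omega
    simp [this]
  · rfl

theorem orta_sw (hn : 1 ≤ n) {i j i' j' : Fin (2 * n + 3 + 1)}
    (hi : ¬ Mid i ∧ i' = i ∨ Mid i ∧ i' = i.rev) (hj : ¬ Mid j ∧ j' = j ∨ Mid j ∧ j' = j.rev) :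
    rtD i j ∘ Equiv.swap (Fin.last n).castSucc (Fin.last (n + 1)) = rtD i' j' := by
  have h7 : ∀ v, ortaR n (tau (tD (n + 2)) v) =
      tau (tD (n + 2)) (v ∘ Equiv.swap (Fin.last n).castSucc (Fin.last (n + 1))) := fun v => by
    simp only [tau_apply, map_sum, map_zsmul, orta_R_tD]
    rw [← Equiv.sum_comp (Equiv.swap (Fin.last n).castSucc (Fin.last (n + 1)))]; simp only [Equiv.swap_apply_self, zsmul_eq_mul, Function.comp_apply]
  have e : ∀ {i i' : Fin (2 * n + 3 + 1)}, ¬ Mid i ∧ i' = i ∨ Mid i ∧ i' = i.rev →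
      ortaR n (if (i : ℕ) < n + 2 then ee i else -ee i.rev) =
      if (i' : ℕ) < n + 2 then ee i' else -ee i'.rev := by
    rintro i i' (⟨h, rfl⟩ | ⟨h, rfl⟩)
    · rw [orta_mid] at h
      have := i'.2
      split_ifs
      · rw [orta_R_ee, if_neg (by omega)]
      · rw [map_neg, orta_R_ee, if_neg (by rw [Fin.val_rev]; omega)]
    · rw [orta_mid] at h
      rw [Fin.rev_rev, Fin.val_rev]
      rcases h with h | h
      · rw [if_pos (by omega), if_neg (by omega), orta_R_ee, if_pos h]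
      · rw [if_neg (by omega), if_pos (by omega), map_neg, orta_R_ee, if_pos (by omega), neg_neg]
  refine orta_inj hn ?_
  rw [← h7, tau_rtD, tau_rtD, map_sub, e hi, e hj]

/-- Transfer for the non-split and the odd dimensional orthogonal groups. -/
theorem goodO2 (hn : 2 ≤ n) (hφ : ∀ s, φ (φ s) = s) {a b c g g' : GL (Fin (2 * n + 3 + 1)) K}
    (ha : a ∈ sog2 _ φ) (hb : b ∈ sog2 _ φ) (hc : c ∈ sog2 _ φ) (hg : g ∈ sog2 _ φ)
    (hg' : g' ∈ sog2 _ φ) (aa : Sc (a * a))
    (eb : Sc (b⁻¹ * (g * a * g⁻¹))) (ec : Sc (c⁻¹ * (g' * a * g'⁻¹))) (ab : Sc ((a * b)⁻¹ * (b * a)))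
    (gen : ∀ H : Subgroup (GL (Fin (2 * n + 3 + 1)) K), (∀ z, Sc z → z ∈ H) → a ∈ H → b ∈ H →
      c ∈ H → (∀ (i j : Fin (2 * n + 3 + 1)) s, (i : ℕ) < n → (j : ℕ) = i + 1 → φ s = s →
        eo i j s ∈ H ∧ eo j i s ∈ H) ∧ ∀ (i m : Fin (2 * n + 3 + 1)) s, (i : ℕ) = n →
        (m : ℕ) = n + 1 → eo i m s * eo i m.rev (φ s) ∈ H ∧ eo m i s * eo m.rev i (φ s) ∈ H) :
    IsLeast {k | Good (chev (CartanMatrix.D (n + 2))
      (Equiv.swap (Fin.last n).castSucc (Fin.last (n + 1))) φ) k} 3 := by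
  have hn' : 1 ≤ n := by omega
  obtain ⟨Ψ, ker, e, he, rg⟩ := ort_ex (K := K) hn'
  have hC := goodD (r := n + 2) (by omega)
  have hρ : ∀ i, Equiv.swap (Fin.last n).castSucc (Fin.last (n + 1))
      (Equiv.swap (Fin.last n).castSucc (Fin.last (n + 1)) i) = i := by simp
  have xx : ∀ i j, i ≠ j → ∀ (h : j ≠ i.rev) (s : K),
      Ψ ⟨_, orta_mem h s⟩ = hC.xx (rtD i j) (e i j * s) := fun i j p q s =>
    orta_xx (orta_root hn' p q) ((rg i j p q).2 s _ rfl)
  have mr : ∀ {i : Fin (2 * n + 3 + 1)}, Mid i.rev ↔ Mid i := fun {i} => by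
    rw [Mid, Mid, Fin.rev_rev, or_comm]
  have n1 : ∀ {i m : Fin (2 * n + 3 + 1)}, ¬ Mid i → Mid m → i ≠ m := fun p q r => p (r ▸ q)
  have n2 : ∀ {i m : Fin (2 * n + 3 + 1)}, ¬ Mid i → Mid m → m ≠ i.rev := fun p q r =>
    p (mr.1 (r ▸ q))
  have ort : ∀ {i m : Fin (2 * n + 3 + 1)}, ¬ Mid i → Mid m →
      fm (CartanMatrix.D (n + 2)) (rtD i m) (rtD i m.rev) = 0 := fun {i m} p q => by
    simp [orta_fm hn', orta_ne, (orta_ne _).symm, n1 p q, (n1 p q).symm, n1 p (mr.2 q),
      (n1 p (mr.2 q)).symm]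
  have x2 : ∀ {i m : Fin (2 * n + 3 + 1)} (p : ¬ Mid i) (q : Mid m) (s : K),
      Ψ (⟨_, orta_mem (n2 p q) s⟩ * ⟨_, orta_mem (n2 p (mr.2 q)) (φ s)⟩) =
      hC.xx (rtD i m) (e i m * s) * hC.xx (rtD i m.rev) (φ (e i m * s)) := fun {i m} p q s => by
    rw [map_mul, xx _ _ (n1 p q) (n2 p q), xx _ _ (n1 p (mr.2 q)) (n2 p (mr.2 q)), ← he i m p q,
      map_mul, (rg i m (n1 p q) (n2 p q)).1.map]
  have le : sog2 (2 * n + 3) φ ≤ sog _ K := by
    rw [sog2, Subgroup.closure_le]
    rintro _ (⟨i, j, s, h, -, -, -, rfl⟩ | ⟨i, m, s, p, q, rfl⟩)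
    · exact orta_mem h s
    · exact mul_mem (orta_mem (n2 p q) s) (orta_mem (n2 p (mr.2 q)) _)
  refine orta_three Ψ ker (orta_ns hρ (orta_ρC hn') hφ hC orta_tw
    (i := ⟨0, by omega⟩) (j := ⟨1, by omega⟩) ?_ ?_ ?_) le (fun g hg => ?_) ha hb hc hg hg' aa eb
    ec ab fun H h0 h1 h2 h3 => ?_
  · exact Equiv.swap_apply_of_ne_of_ne (by simp [Fin.ext_iff]; omega) (by simp [Fin.ext_iff])
  · exact Equiv.swap_apply_of_ne_of_ne (by simp [Fin.ext_iff]; omega)
      (by simp [Fin.ext_iff]; omega)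
  · simp only [CartanMatrix.D, of_apply, Fin.ext_iff]
    grind
  · obtain ⟨g, hg'⟩ := g
    replace hg : g ∈ sog2 _ φ := hg
    change Ψ ⟨g, le hg⟩ ∈ _
    clear hg'
    induction hg using Subgroup.closure_induction with
    | mem x hx =>
      obtain ⟨i, j, s, h, p, q, f, rfl⟩ | ⟨i, m, s, p, q, rfl⟩ := hx
      · by_cases r : i = j
        · subst r
          rw [ker _ ⟨1, by simp [orta_self]⟩]
          exact one_mem _
        · rw [xx i j r h]
          exact orta_long hρ (orta_ρC hn') hφ hC orta_tw (orta_root hn' r h)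
            (orta_sw hn' (Or.inl ⟨p, rfl⟩) (Or.inl ⟨q, rfl⟩))
            (by rw [map_mul, f, (rg i j r h).1.map])
      · have w := orta_sw hn' (Or.inl ⟨p, rfl⟩) (Or.inr ⟨q, rfl⟩)
        refine (x2 p q s).symm ▸ ?_
        rw [← w]
        exact orta_short hρ (orta_ρC hn') hφ hC orta_tw (orta_root hn' (n1 p q) (n2 p q))
          (by rw [w, ort p q]) _
    | one => exact (map_one Ψ).symm ▸ one_mem _
    | mul x y hx hy p q => exact (map_mul Ψ ⟨x, le hx⟩ ⟨y, le hy⟩).symm ▸ mul_mem p q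
    | inv x hx p => exact (map_inv Ψ ⟨x, le hx⟩).symm ▸ inv_mem p
  obtain ⟨k1, k2⟩ := gen _ h0 h1 h2 h3
  have key : ∀ i j, i ≠ j → j ≠ i.rev → (∀ s, φ s = s → eo i j s ∈ ortaH Ψ H) →
      ∀ s, φ s = s → hC.xx (rtD i j) s ∈ H := fun i j p q m s f => by
    have := orta_back ker (g := ⟨_, orta_mem q (e i j * s)⟩)
      (m _ (by rw [map_mul, f, (rg i j p q).1.map]))
    rwa [xx i j p q, ← mul_assoc, (rg i j p q).1.sq, one_mul] at this
  have key2 : ∀ i m, ¬ Mid i → Mid m → (∀ s, eo i m s * eo i m.rev (φ s) ∈ ortaH Ψ H) →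
      ∀ m', m' = m ∨ m' = m.rev → fm (CartanMatrix.D (n + 2)) (rtD i m') (rtD i m' ∘
        Equiv.swap (Fin.last n).castSucc (Fin.last (n + 1))) = 0 ∧ ∀ s, hC.xx (rtD i m') s *
        hC.xx (rtD i m' ∘ Equiv.swap (Fin.last n).castSucc (Fin.last (n + 1))) (φ s) ∈ H := by
    intro i m p q h m' hm
    have a1 : ∀ s, hC.xx (rtD i m) s * hC.xx (rtD i m.rev) (φ s) ∈ H := fun s => by
      have := orta_back ker (g := ⟨_, orta_mem (n2 p q) (e i m * s)⟩ *
        ⟨_, orta_mem (n2 p (mr.2 q)) (φ (e i m * s))⟩) (h (e i m * s))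
      rwa [x2 p q, ← mul_assoc, (rg i m (n1 p q) (n2 p q)).1.sq, one_mul] at this
    rcases hm with rfl | rfl
    · rw [orta_sw hn' (Or.inl ⟨p, rfl⟩) (Or.inr ⟨q, rfl⟩)]
      exact ⟨ort p q, a1⟩
    · rw [orta_sw hn' (Or.inl ⟨p, rfl⟩) (Or.inr ⟨mr.2 q, rfl⟩), Fin.rev_rev]
      refine ⟨by rw [hC.fsymm, ort p q], fun s => ?_⟩
      have r1 := orta_root hn' (n1 p q) (n2 p q)
      have r2 := orta_root hn' (n1 p (mr.2 q)) (n2 p (mr.2 q))
      have := a1 (φ s)
      rw [hφ] at this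
      convert this using 1
      ext1 v
      simp only [Equiv.Perm.mul_apply, hC.xx_apply r1, hC.xx_apply r2,
        hC.xo_comm r1 r2 (ort p q).ge]
  refine orta_gen hρ (orta_ρC hn') hφ hC orta_tw fun l β hβ => ?_
  have := l.2
  by_cases p : (l : ℕ) < n
  · obtain ⟨i, j, hi, hj⟩ : ∃ i j : Fin (2 * n + 3 + 1), (i : ℕ) = l ∧ (j : ℕ) = l + 1 :=
      ⟨⟨l, by omega⟩, ⟨l + 1, by omega⟩, rfl, rfl⟩
    have mi : ¬ Mid i := by rw [orta_mid]; omega
    have mj : ¬ Mid j := by rw [orta_mid]; omega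
    have r : i ≠ j := by simp only [ne_eq, Fin.ext_iff]; omega
    have q : j ≠ i.rev := by simp only [ne_eq, Fin.ext_iff, Fin.val_rev]; omega
    have q' : i ≠ j.rev := by simp only [ne_eq, Fin.ext_iff, Fin.val_rev]; omega
    have m := fun s => k1 i j s (by omega) (by omega)
    rw [← orta_simple hn' l (Or.inl ⟨p.le, hi, hj⟩), ← orta_neg hn'] at hβ
    rcases hβ with rfl | rfl
    · exact Or.inl ⟨orta_sw hn' (Or.inl ⟨mi, rfl⟩) (Or.inl ⟨mj, rfl⟩),
        key i j r q fun s f => (m s f).1⟩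
    · exact Or.inl ⟨orta_sw hn' (Or.inl ⟨mj, rfl⟩) (Or.inl ⟨mi, rfl⟩),
        key j i r.symm q' fun s f => (m s f).2⟩
  obtain ⟨i, m, hi, hm⟩ : ∃ i m : Fin (2 * n + 3 + 1), (i : ℕ) = n ∧ (m : ℕ) = n + 1 :=
    ⟨⟨n, by omega⟩, ⟨n + 1, by omega⟩, rfl, rfl⟩
  have mi : ¬ Mid i := by rw [orta_mid]; omega
  have mm : Mid m := by rw [orta_mid]; omega
  obtain ⟨m', h1, h2⟩ : ∃ m', (m' = m ∨ m' = m.rev) ∧ rtD i m' = Pi.single l 1 := by
    by_cases q : (l : ℕ) = n
    · exact ⟨m, Or.inl rfl, orta_simple hn' l (Or.inl ⟨by omega, by omega, by omega⟩)⟩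
    · exact ⟨m.rev, Or.inr rfl, orta_simple hn' l (Or.inr ⟨by omega, hi, by
        rw [Fin.val_rev]; omega⟩)⟩
  rw [← h2, ← orta_neg hn', ← orta_rev hn' m' i] at hβ
  rcases hβ with rfl | rfl
  · exact Or.inr (key2 i m mi mm (fun s => (k2 i m s hi hm).1) m' h1)
  · refine Or.inr (key2 i.rev m.rev (fun h => mi (mr.1 h)) (mr.2 mm) (fun s => ?_) m'.rev
      (h1.imp (congrArg _) (congrArg _)))
    have := (k2 i m (-s) hi hm).2
    rwa [orta_flip (orta_ne m) (orta_ne i), orta_flip (orta_ne m.rev) (orta_ne i), map_neg,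
      neg_neg, neg_neg] at this

end Pool.Agent.MP_c78e8e_al.H75

end

end
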