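import Pool.Agent.MP_c78e8e_al.Mg.Sg_Ort
import Pool.Agent.MP_c78e8e_al.Sg.Sl2

attribute [-instance] DistribMulActionSemiHomClass.toAddMonoidHomClass instCharZeroOfIsSemireal
  MonTypeEquivalenceMon.monMonoid FloorSemiring.instCharZero IdemSemiring.toSemiring RKHS.instFunLike
  SemilinearMapClass.toAddHomClass instNoNatZeroDivisorsOfIsAddTorsionFree
  UniformSpace.toTopologicalSpace AlgHom.instNonUnitalAlgHomClassOfAlgHomClass RCLike.charZero_rclike
  NormedAlgebra.toAlgebra IsMulCommutative.is_comm RingConeClass.toSubsemiringClass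
  SemilatticeInf.toPartialOrder CommMonTypeEquivalenceCommMon.commMonCommMonoid littleWedderburn
  instCoeTCOfCoe instNonUnitalAlgHomClassOfNonUnitalAlgEquivClass NormedCommGroup.toCommGroup
  NormMulClass.toNoZeroDivisors SeminormedCommGroup.toCommGroup instCoeOutOfCoeFun
  QuotientGroup.Quotient.commGroup BialgHomClass.toMonoidHomClass
  ContinuousMonoidHom.instCoeOutOfMonoidHomClassOfContinuousMapClass NumberField.to_charZero
  BooleanRing.toRing LieRing.toAddCommGroup SubringClass.toSubsemiringClass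
  instIsRightCancelAddOfAddRightReflectLE IsStrictOrderedRing.toCharZero
  GrpTypeEquivalenceGrp.grpGroup Fintype.decidableForallFintype
  ValuationClass.toMonoidWithZeroHomClass invertibleTwo Bialgebra.toAlgebra NormedCommRing.toCommRing
  IsFormallyReal.instIsReduced NormedRing.toRing TestFunctionClass.toDFunLike
  LieAdmissibleRing.toNonUnitalNonAssocRing MonoidWithZero.toSemigroupWithZero
  CommGrpTypeEquivalenceCommGrp.commGrpCommGroup ContDiffMapSupportedInClass.toDFunLike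
  MulCharClass.toMonoidHomClass Preorder.toLT NeZero.of_gt' NeZero.charZero_one
  instCommGroupOfIsSimpleGroupOfIsNilpotent NonUnitalNormedRing.toNormedAddCommGroup
  NonUnitalRing.toNonUnitalSemiring MulDistribMulActionSemiHomClass.toMonoidHomClass
  instCoeOutOfCoeSort NormedField.toField IsometryClass.instCoeOutIsometryEquiv
  GroupConeClass.toSubmonoidClass LinearOrderedAddCommMonoidWithTop.toAddCommMonoid
  EuclideanDomain.toCommRing SeminormedCommRing.toCommRing SeminormedRing.toRing instCoeTOfCoeDep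
  FiniteField.instGrindPowIdentity
  ContinuousAddMonoidHom.instCoeOutOfAddMonoidHomClassOfContinuousMapClass
  NonUnitalAlgHomClass.toNonUnitalRingHomClass HomeomorphClass.instCoeOutHomeomorph
  MulSemiringAction.toDistribMulAction NonUnitalAlgSemiHomClass.toMulHomClass
  IdemCommSemiring.toCommSemiring NonUnitalNormedCommRing.toNonUnitalCommRing
  BooleanRing.instIdempotentOpHMul GradedMonoid.GradeZero.commMonoid Units.instPreorder
  CentroidHomClass.toAddMonoidHomClass SubsemiringClass.toSubmonoidClass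
  CommMonoidWithZero.toCommMonoid CategoryTheory.Limits.Concrete.instUniqueToTypeTerminal
  Invertible.toNeZero instCoeHTCTOfCoeTailOfCoeHTC LinearOrder.toDecidableEq instCoeTCOfCoe_1
  instSMulZeroClass NonUnitalRing.toNonUnitalNonAssocRing RingEquivClass.toNonUnitalRingHomClass
  instCoeHTCT instCoeHTC CommMonoidWithZero.toMonoidWithZero GroupWithZero.toDivisionMonoid
  LinearOrderedCommGroupWithZero.toCommGroupWithZero CommSemiring.toNonUnitalCommSemiring
  LinearOrderedAddCommGroupWithTop.toAddCommMonoid NonAssocCommSemiring.toNonAssocSemiring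
  NonUnitalSeminormedCommRing.toNonUnitalCommRing instCoeTC BooleanRing.toCommRing
  AddCommGroupWithOne.toAddGroupWithOne AlgHomClass.toRingHomClass
  instIsLeftCancelAddOfAddLeftReflectLE LeftPreLieRing.toNonUnitalNonAssocRing
  RightPreLieRing.toNonUnitalNonAssocRing instIsLeftCancelMulOfMulLeftReflectLE
  IsAddCyclic.isAddCommutative LinearOrderedAddCommGroupWithTop.toSubNegMonoid FunLike.toDecidableEq
  instTopologicalSpaceMatrix Order.Coframe.toCompleteLattice

section

namespace Pool.Agent.MP_c78e8e_al.H75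

open Subgroup Matrix
open scoped commutatorElement

variable {N : ℕ} {K : Type} [Field K]

/-- The monomial matrix sending the basis vector `i` to `d i` times the basis vector `π i`. -/
def mon (π : Equiv.Perm (Fin (N + 1))) (d : Fin (N + 1) → Kˣ) : GL (Fin (N + 1)) K :=
  ⟨of fun i j => if i = π j then (d j : K) else 0,
    of fun i j => if j = π i then ((d i)⁻¹ : Kˣ) else 0, by
      ext i j
      simp only [mul_apply, of_apply, one_apply]
      rw [Finset.sum_eq_single (π⁻¹ i) (fun k _ h => by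
        rw [if_neg (fun e => h (by simp [e])), zero_mul]) (by simp)]
      simp only [Equiv.Perm.coe_inv, Equiv.apply_symm_apply, ↓ reduceIte, eq_comm, Units.val_inv_eq_inv_val, mul_ite, mul_inv_cancel_of_invertible, mul_zero], by
      ext i j
      simp only [mul_apply, of_apply, one_apply]
      rw [Finset.sum_eq_single (π i) (fun k _ h => by rw [if_neg h, zero_mul]) (by simp)]
      by_cases h : i = j <;> simp [h]⟩

theorem mon_val (π : Equiv.Perm (Fin (N + 1))) (d : Fin (N + 1) → Kˣ) (i j : Fin (N + 1)) :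
    (mon π d).1 i j = if i = π j then (d j : K) else 0 := rfl

theorem mona_mul (π : Equiv.Perm (Fin (N + 1))) (d : Fin (N + 1) → Kˣ)
    (A : Matrix (Fin (N + 1)) (Fin (N + 1)) K) (i j : Fin (N + 1)) :
    ((mon π d).1 * A) (π i) j = d i * A i j := by
  rw [mul_apply, Finset.sum_eq_single i (fun k _ h => by
    rw [mon_val, if_neg (fun e => h (π.injective e).symm), zero_mul]) (by simp), mon_val, if_pos rfl]

theorem mona_mul' (π : Equiv.Perm (Fin (N + 1))) (d : Fin (N + 1) → Kˣ)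
    (A : Matrix (Fin (N + 1)) (Fin (N + 1)) K) (i j : Fin (N + 1)) :
    (A * (mon π d).1) i j = A i (π j) * d j := by
  rw [mul_apply, Finset.sum_eq_single (π j) (fun k _ h => by rw [mon_val, if_neg h, mul_zero])
    (by simp), mon_val, if_pos rfl]

theorem mon_mul (π π' : Equiv.Perm (Fin (N + 1))) (d d' : Fin (N + 1) → Kˣ) :
    mon π d * mon π' d' = mon (π * π') fun i => d (π' i) * d' i := by
  ext i j
  rw [Units.val_mul, mona_mul', mon_val, mon_val]
  simp

@[simp] theorem mon_one : mon 1 1 = (1 : GL (Fin (N + 1)) K) := by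
  ext i j
  simp [mon_val, one_apply]

theorem mon_congr {π π' : Equiv.Perm (Fin (N + 1))} {d d' : Fin (N + 1) → Kˣ} (h : ∀ i, π i = π' i)
    (h' : ∀ i, d i = d' i) : mon π d = mon π' d' := by
  rw [Equiv.ext h, funext h']

theorem mon_eq_one {π : Equiv.Perm (Fin (N + 1))} {d : Fin (N + 1) → Kˣ} (h : ∀ i, π i = i)
    (h' : ∀ i, d i = 1) : mon π d = 1 := (mon_congr h h').trans mon_one

theorem mon_inv (π : Equiv.Perm (Fin (N + 1))) (d : Fin (N + 1) → Kˣ) :
    (mon π d)⁻¹ = mon π⁻¹ fun i => (d (π⁻¹ i))⁻¹ := by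
  rw [inv_eq_iff_mul_eq_one, mon_mul]
  exact mon_eq_one (by simp) (by simp)

theorem mon_pow (π : Equiv.Perm (Fin (N + 1))) (d : Fin (N + 1) → Kˣ) (n : ℕ) :
    mon π d ^ n = mon (π ^ n) fun i => ∏ k ∈ Finset.range n, d ((π ^ k) i) := by
  induction n with
  | zero => exact (mon_eq_one (by simp) (by simp)).symm
  | succ n ih =>
    rw [pow_succ', ih, mon_mul, ← pow_succ']
    exact mon_congr (fun _ => rfl) fun i => by rw [Finset.prod_range_succ, mul_comm]

theorem mon_one_mul (d d' : Fin (N + 1) → Kˣ) : mon 1 (d * d') = mon 1 d * mon 1 d' := by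
  rw [mon_mul]; rfl

theorem mon_one_pow (d : Fin (N + 1) → Kˣ) (n : ℕ) : mon 1 d ^ n = mon 1 (d ^ n) := by
  rw [mon_pow]; exact mon_congr (by simp) (by simp)

theorem mon_conj (π π' : Equiv.Perm (Fin (N + 1))) (d d' : Fin (N + 1) → Kˣ) :
    mon π d * mon π' d' * (mon π d)⁻¹ =
      mon (π * π' * π⁻¹) fun i => d (π' (π⁻¹ i)) * d' (π⁻¹ i) * (d (π⁻¹ i))⁻¹ := by
  rw [mon_inv, mon_mul, mon_mul]

@[simp] theorem el_self (i : Fin (N + 1)) (s : K) : el i i s = 1 := by simp [el]

@[simp] theorem el_zero (i j : Fin (N + 1)) : el i j (0 : K) = 1 := by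
  by_cases h : i = j
  · simp [h]
  · ext1; simp [el_val h]

theorem mon_el (π : Equiv.Perm (Fin (N + 1))) (d : Fin (N + 1) → Kˣ) (i j : Fin (N + 1)) (s : K) :
    mon π d * el i j s * (mon π d)⁻¹ = el (π i) (π j) (d i * s / d j) := by
  by_cases h : i = j
  · simp [h]
  rw [mul_inv_eq_iff_eq_mul]
  ext k l
  obtain ⟨k, rfl⟩ := π.surjective k
  rw [Units.val_mul, Units.val_mul, mona_mul, mona_mul', el_val h, el_val (π.injective.ne h)]
  simp only [Matrix.add_apply, one_apply, single_apply, π.injective.eq_iff]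
  by_cases p : k = l
  · subst p
    by_cases q : i = k ∧ j = k
    · exact absurd (q.1.trans q.2.symm) h
    · simp [q]
  · by_cases q : i = k ∧ j = l
    · obtain ⟨rfl, rfl⟩ := q
      simp only [p, ↓ reduceIte, and_self, zero_add, isUnit_iff_ne_zero, ne_eq, Units.ne_zero, not_false_eq_true, IsUnit.div_mul_cancel]
    · simp [p, q]

theorem mon_mul_el (π : Equiv.Perm (Fin (N + 1))) (d : Fin (N + 1) → Kˣ) (i j : Fin (N + 1))
    (s : K) : mon π d * el i j s = el (π i) (π j) (d i * s / d j) * mon π d := by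
  rw [← mon_el, inv_mul_cancel_right]

theorem mon_det (π : Equiv.Perm (Fin (N + 1))) (d : Fin (N + 1) → Kˣ) :
    (mon π d).1.det = (Equiv.Perm.sign π : ℤ) * ∏ i, (d i : K) := by
  have : (mon π d).1 = (diagonal fun i => (d i : K)).submatrix ⇑π⁻¹ id := by
    ext i j
    simp only [mon_val, submatrix_apply, diagonal_apply, id, Equiv.Perm.inv_eq_iff_eq]
    split_ifs with h
    · simp [h]
    · rfl
  rw [this, det_permute, det_diagonal, Equiv.Perm.sign_inv]

theorem el_add (i j : Fin (N + 1)) (s t : K) : el i j (s + t) = el i j s * el i j t := by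
  by_cases h : i = j
  · simp [h]
  ext1
  simp only [Units.val_mul, el_val h, mul_add, add_mul, Matrix.mul_one, Matrix.one_mul,
    single_mul_single_of_ne _ _ _ _ (Ne.symm h), single_add]
  abel

theorem el_neg (i j : Fin (N + 1)) (s : K) : el i j (-s) = (el i j s)⁻¹ := by
  rw [eq_inv_iff_mul_eq_one, ← el_add, neg_add_cancel, el_zero]

theorem el_det (i j : Fin (N + 1)) (s : K) : (el i j s).1.det = 1 := by
  by_cases h : i = j
  · simp [h]
  · rw [el_val h]; exact det_transvection_of_ne i j h s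

theorem el_eq_one {i j : Fin (N + 1)} (h : i ≠ j) {s : K} (e : el i j s = 1) : s = 0 := by
  have := congrArg (fun g : GL (Fin (N + 1)) K => g.1 i j) e
  simpa [el_val h, one_apply_ne h] using this

theorem el_comm {i j k l : Fin (N + 1)} (h : j ≠ k) (h' : l ≠ i) (s t : K) :
    Commute (el i j s) (el k l t) := by
  by_cases p : i = j
  · simp [p]
  by_cases q : k = l
  · simp [q]
  refine Units.ext ?_
  simp only [Units.val_mul, el_val p, el_val q, mul_add, add_mul, Matrix.mul_one, Matrix.one_mul,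
    single_mul_single_of_ne _ _ _ _ h, single_mul_single_of_ne _ _ _ _ h']
  abel

theorem el_rel {i j k : Fin (N + 1)} (h : i ≠ j) (h' : j ≠ k) (h'' : i ≠ k) (s t : K) :
    ⁅el i j s, el j k t⁆ = el i k (s * t) := by
  rw [commutatorElement_def, mul_inv_eq_iff_eq_mul, mul_inv_eq_iff_eq_mul]
  ext1
  simp only [Units.val_mul, el_val h, el_val h', el_val h'', mul_add, add_mul, Matrix.mul_one,
    Matrix.one_mul, single_mul_single_same, single_mul_single_of_ne _ _ _ _ h'.symm,
    single_mul_single_of_ne _ _ _ _ h''.symm, Matrix.zero_mul]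
  abel

theorem el_rel' {i j k : Fin (N + 1)} (h : i ≠ j) (h' : j ≠ k) (h'' : i ≠ k) (s t : K) :
    ⁅el j k t, el i j s⁆ = el i k (-(s * t)) := by
  rw [← commutatorElement_inv, el_rel h h' h'', el_neg]

/-- The monomial element of an elementary `SL₂`. -/
theorem mon_swap {i j : Fin (N + 1)} (h : i ≠ j) (a : Kˣ) :
    el i j (a : K) * el j i (-(a : K)⁻¹) * el i j (a : K) =
      mon (Equiv.swap i j) fun k => if k = j then a else if k = i then -a⁻¹ else 1 := by
  have e : (el i j (a : K) * el j i (-(a : K)⁻¹) * el i j (a : K)).1 =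
      1 + single i j (a : K) + single j i (-(a : K)⁻¹) + single i i (-1) + single j j (-1) := by
    simp only [Units.val_mul, el_val h, el_val h.symm, mul_add, add_mul, Matrix.mul_one,
      single_mul_single_same, single_mul_single_of_ne _ _ _ _ h.symm, mul_neg,
      neg_mul, mul_inv_cancel₀ a.ne_zero, inv_mul_cancel₀ a.ne_zero,
      one_mul, ← single_neg]
    abel
  ext k l
  rw [e, mon_val]
  have h' := h.symm
  simp only [Matrix.add_apply, one_apply, single_apply, Equiv.swap_apply_def,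
    apply_ite (Units.val (α := K)), Units.val_neg, Units.val_inv_eq_inv_val, Units.val_one]
  grind

theorem mona_cc {G : Type} [Group G] {a a' b b' : G} (h1 : Commute a a') (h2 : Commute a b')
    (h3 : Commute b a') (h4 : Commute b b') : ⁅a * a', b * b'⁆ = ⁅a, b⁆ * ⁅a', b'⁆ := by
  simp only [commutatorElement_def, _root_.mul_inv_rev]
  rw [h3.symm.mul_mul_mul_comm, ← h1.inv_inv.eq, ← h4.inv_inv.eq,
    ((h1.inv_left.mul_right h2.inv_left).symm).mul_mul_mul_comm,
    (((h3.inv_left.mul_right h4.inv_left).mul_right h3.inv_inv).symm).mul_mul_mul_comm]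

theorem eo_add {i j : Fin (N + 1)} (h : j ≠ i.rev) (hi : i ≠ i.rev) (hj : j ≠ j.rev) (s t : K) :
    eo i j (s + t) = eo i j s * eo i j t := by
  rw [eo, eo, eo, neg_add, el_add, el_add, (el_comm hj hi.symm t (-s)).mul_mul_mul_comm]

theorem eo_rev {i j : Fin (N + 1)} (hi : i ≠ i.rev) (hj : j ≠ j.rev) (s : K) :
    eo j.rev i.rev s = eo i j (-s) := by
  rw [eo, eo, Fin.rev_rev, Fin.rev_rev, neg_neg, (el_comm hj hi.symm (-s) s).eq]

@[simp] theorem eo_zero (i j : Fin (N + 1)) : eo i j (0 : K) = 1 := by simp [eo]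

@[simp] theorem eo_self (i : Fin (N + 1)) (s : K) : eo i i s = 1 := by simp [eo]

theorem eo_neg {i j : Fin (N + 1)} (hi : i ≠ i.rev) (hj : j ≠ j.rev) (s : K) :
    eo i j (-s) = (eo i j s)⁻¹ := by
  rw [eo, eo, el_neg, el_neg j.rev, _root_.mul_inv_rev, (el_comm hj hi.symm s (-s)).inv_inv.eq]

theorem eo_comm {i j k l : Fin (N + 1)} (h1 : j ≠ k) (h2 : l ≠ i) (h3 : j ≠ l.rev) (h4 : k.rev ≠ i)
    (s t : K) : Commute (eo i j s) (eo k l t) :=
  ((el_comm h1 h2 _ _).mul_right (el_comm h3 h4 _ _)).mul_left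
    ((el_comm (fun e => h4 (by rw [← e, Fin.rev_rev])) (fun e => h3 (by rw [e, Fin.rev_rev])) _ _).mul_right
      (el_comm (fun e => h2 (Fin.rev_injective e).symm) (fun e => h1 (Fin.rev_injective e).symm) _ _))

theorem mon_eo {π : Equiv.Perm (Fin (N + 1))} {d : Fin (N + 1) → Kˣ} {i j : Fin (N + 1)}
    (hi : π i.rev = (π i).rev) (hj : π j.rev = (π j).rev) (e : d i * d i.rev = d j * d j.rev) (s : K) :
    mon π d * eo i j s * (mon π d)⁻¹ = eo (π i) (π j) (d i * s / d j) := by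
  have e' : (d i : K) * d i.rev = d j * d j.rev := by exact_mod_cast e
  have : (d j.rev : K) * -s / d i.rev = -(d i * s / d j) := by
    field_simp
    linear_combination s * e'
  rw [eo, eo, ← hi, ← hj, ← this, ← mon_el, ← mon_el]; group

theorem eo_rel (hN : ∀ i : Fin (N + 1), i ≠ i.rev) {i j k : Fin (N + 1)} (h : i ≠ j) (h' : j ≠ k)
    (h'' : i ≠ k) (r : j ≠ i.rev) (r' : k ≠ j.rev) (r'' : k ≠ i.rev) (s t : K) :
    ⁅eo i j s, eo j k t⁆ = eo i k (s * t) := by
  have inj : ∀ {a b : Fin (N + 1)}, a ≠ b → a.rev ≠ b.rev := fun p => Fin.rev_injective.ne p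
  have sw : ∀ {a b : Fin (N + 1)}, a ≠ b.rev → a.rev ≠ b := fun p e => p (by rw [← e, Fin.rev_rev])
  rw [eo, eo, eo, mona_cc (el_comm (hN j) (hN i).symm _ _) (el_comm (sw r').symm (sw r) _ _)
    (el_comm r' r.symm _ _) (el_comm (hN k) (hN j).symm _ _), el_rel h h' h'',
    el_rel' (inj h'.symm) (inj h.symm) (inj h''.symm)]
  congr 2; ring

theorem el_slg (i j : Fin (N + 1)) (s : K) : el i j s ∈ slg N K := subset_closure ⟨i, j, s, rfl⟩

theorem mon_hh {i j : Fin (N + 1)} (h : i ≠ j) (a : Kˣ) :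
    el i j (a : K) * el j i (-(a : K)⁻¹) * el i j (a : K) * (el i j 1 * el j i (-1) * el i j 1)⁻¹ =
      mon 1 (Pi.mulSingle i a * Pi.mulSingle j a⁻¹) := by
  have := mon_swap (K := K) h 1
  rw [Units.val_one, inv_one] at this
  rw [this, mon_swap h, mon_inv, mon_mul]
  refine mon_congr (by simp) fun k => ?_
  have h' := h.symm
  simp only [Equiv.swap_inv, Equiv.swap_apply_def, Pi.mul_apply, Pi.mulSingle_apply]
  by_cases p : k = i <;> by_cases q : k = j <;> simp_all

theorem mona_diag {d : Fin (N + 1) → Kˣ} (h : ∏ i, d i = 1) : mon 1 d ∈ slg N K := by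
  let f : (Fin (N + 1) → Kˣ) →* GL (Fin (N + 1)) K := MonoidHom.mk' (mon 1) mon_one_mul
  have e : d = ∏ i, (Pi.mulSingle i (d i) * Pi.mulSingle 0 (d i)⁻¹) := by
    rw [Finset.prod_mul_distrib, Finset.univ_prod_mulSingle, left_eq_mul]
    ext1 k
    by_cases p : k = 0 <;> simp [p, h]
  change d ∈ (slg N K).comap f
  rw [e]
  refine prod_mem fun i _ => ?_
  by_cases p : i = 0
  · rw [p, ← Pi.mulSingle_mul]; simp
  · have := mon_hh p (d i)
    refine mem_comap.2 (this ▸ mul_mem (mul_mem (mul_mem ?_ ?_) ?_)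
      (inv_mem (mul_mem (mul_mem ?_ ?_) ?_)) : mon 1 _ ∈ _) <;> exact el_slg _ _ _

theorem mem_slg {g : GL (Fin (N + 1)) K} (h : g.1.det = 1) : g ∈ slg N K := by
  obtain ⟨k, hk, e⟩ : ∃ k ∈ slg N K, k.1 = g.1 := by
    refine diagonal_transvection_induction (fun M => ∃ k ∈ slg N K, k.1 = M) g.1 (fun D hD => ?_)
      (fun t => ⟨_, el_slg t.i t.j t.c, el_val t.hij _⟩) ?_
    · rw [h, det_diagonal] at hD
      have n : ∀ i, D i ≠ 0 := fun i z => by
        rw [Finset.prod_eq_zero (Finset.mem_univ i) z] at hD; exact zero_ne_one hD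
      refine ⟨mon 1 fun i => Units.mk0 _ (n i), mona_diag (Units.ext (by simpa using hD)), ?_⟩
      ext i j
      rw [mon_val, diagonal_apply]
      by_cases p : i = j <;> simp [p]
    · rintro _ _ ⟨a, ha, rfl⟩ ⟨b, hb, rfl⟩
      exact ⟨a * b, mul_mem ha hb, rfl⟩
  rwa [← Units.ext e]

theorem slg_det {g : GL (Fin (N + 1)) K} (h : g ∈ slg N K) : g.1.det = 1 := by
  induction h using closure_induction with
  | mem a ha => obtain ⟨i, j, s, rfl⟩ := ha; exact el_det _ _ _
  | one => simp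
  | mul a b _ _ p q => simp [p, q]
  | inv a _ p => simp only [coe_units_inv, det_nonsing_inv, p, Ring.inverse_one]

theorem mon_slg {π : Equiv.Perm (Fin (N + 1))} {d : Fin (N + 1) → Kˣ}
    (h : (Equiv.Perm.sign π : ℤ) * ∏ i, (d i : K) = 1) : mon π d ∈ slg N K :=
  mem_slg ((mon_det π d).trans h)

theorem sc_iff {g : GL (Fin (N + 1)) K} : Sc g ↔ g ∈ center (GL (Fin (N + 1)) K) := by
  rw [GeneralLinearGroup.mem_center_iff_val_mem_range_scalar]
  exact exists_congr fun z => by rw [scalar_apply, smul_one_eq_diagonal, eq_comm]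

theorem sc_one : Sc (1 : GL (Fin (N + 1)) K) := sc_iff.2 (one_mem _)

theorem Sc.mul {g h : GL (Fin (N + 1)) K} (p : Sc g) (q : Sc h) : Sc (g * h) :=
  sc_iff.2 (mul_mem (sc_iff.1 p) (sc_iff.1 q))

theorem Sc.inv {g : GL (Fin (N + 1)) K} (p : Sc g) : Sc g⁻¹ := sc_iff.2 (inv_mem (sc_iff.1 p))

theorem Sc.comm {g : GL (Fin (N + 1)) K} (p : Sc g) (h : GL (Fin (N + 1)) K) : Commute h g :=
  mem_center_iff.1 (sc_iff.1 p) h

theorem Sc.conj {g : GL (Fin (N + 1)) K} (p : Sc g) (h : GL (Fin (N + 1)) K) : Sc (h * g * h⁻¹) := by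
  rwa [(p.comm h).mul_inv_cancel]

theorem sc_of_eq {g h : GL (Fin (N + 1)) K} (e : g = h) : Sc (g⁻¹ * h) := by
  rw [e, inv_mul_cancel]; exact sc_one

theorem sc_mon {π : Equiv.Perm (Fin (N + 1))} {d : Fin (N + 1) → Kˣ} :
    Sc (mon π d) ↔ (∀ i, π i = i) ∧ ∀ i, d i = d 0 := by
  constructor
  · rintro ⟨z, e⟩
    have k : ∀ i, (d i : K) = if π i = i then z else 0 := fun i => by
      simpa [mon_val, one_apply] using congrFun (congrFun e (π i)) i
    have p : ∀ i, π i = i := fun i => by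
      by_contra c
      exact (d i).ne_zero (by rw [k, if_neg c])
    exact ⟨p, fun i => Units.ext (by rw [k, k, if_pos (p _), if_pos (p _)])⟩
  · rintro ⟨p, q⟩
    refine ⟨d 0, ?_⟩
    ext i j
    simp [mon_val, one_apply, p, q j]

theorem fx_mon {φ : K →+* K} {π : Equiv.Perm (Fin (N + 1))} {d : Fin (N + 1) → Kˣ}
    (h : ∀ i, π i.rev = (π i).rev)
    (h' : ∀ i : Fin (N + 1), (d i : K) * (-1) ^ (i : ℕ) * φ (d i.rev) = (-1) ^ (π i : ℕ)) :
    Fx φ (mon π d) := by
  ext k l
  obtain ⟨k, rfl⟩ := π.surjective k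
  obtain ⟨l, rfl⟩ := π.surjective l
  rw [Matrix.mul_assoc, mona_mul, mul_apply, Finset.sum_eq_single k.rev
    (fun m _ p => by simp only [Jm, of_apply, p, ↓ reduceIte, transpose_apply, map_apply, zero_mul]) (by simp)]
  simp only [Jm, of_apply, if_true, transpose_apply, map_apply, mon_val, ← h, π.injective.eq_iff]
  split_ifs
  · rw [← mul_assoc, h']
  · simp only [map_zero, mul_zero]

/-- A whole elementary group lies in `H`. -/
def Pe (H : Subgroup (GL (Fin (N + 1)) K)) (i j : Fin (N + 1)) : Prop := ∀ s, el i j s ∈ H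

theorem Pe.rel {H : Subgroup (GL (Fin (N + 1)) K)} {i j k : Fin (N + 1)} (p : Pe H i j)
    (q : Pe H j k) (h : i ≠ j) (h' : j ≠ k) (h'' : i ≠ k) : Pe H i k := fun s => by
  rw [← mul_one s, ← el_rel h h' h'', commutatorElement_def]
  exact mul_mem (mul_mem (mul_mem (p _) (q _)) (inv_mem (p _))) (inv_mem (q _))

theorem Pe.mon {H : Subgroup (GL (Fin (N + 1)) K)} {i j : Fin (N + 1)} (p : Pe H i j)
    {π : Equiv.Perm (Fin (N + 1))} {d : Fin (N + 1) → Kˣ} (m : mon π d ∈ H) : Pe H (π i) (π j) :=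
  fun s => by
    have := mul_mem (mul_mem m (p (s * d j / d i))) (inv_mem m)
    rw [mon_el] at this
    convert this using 2
    field_simp

/-- A whole orthogonal root group lies in `H`. -/
def Po (H : Subgroup (GL (Fin (N + 1)) K)) (i j : Fin (N + 1)) : Prop := ∀ s, eo i j s ∈ H

theorem Po.rel {H : Subgroup (GL (Fin (N + 1)) K)} (hN : ∀ i : Fin (N + 1), i ≠ i.rev)
    {i j k : Fin (N + 1)} (p : Po H i j) (q : Po H j k) (h : i ≠ j) (h' : j ≠ k) (h'' : i ≠ k)
    (r : j ≠ i.rev) (r' : k ≠ j.rev) (r'' : k ≠ i.rev) : Po H i k := fun s => by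
  rw [← mul_one s, ← eo_rel hN h h' h'' r r' r'', commutatorElement_def]
  exact mul_mem (mul_mem (mul_mem (p _) (q _)) (inv_mem (p _))) (inv_mem (q _))

theorem Po.rev {H : Subgroup (GL (Fin (N + 1)) K)} {i j : Fin (N + 1)} (p : Po H i j)
    (hi : i ≠ i.rev) (hj : j ≠ j.rev) : Po H j.rev i.rev := fun s => by
  rw [eo_rev hi hj]; exact p _

theorem Po.mon {H : Subgroup (GL (Fin (N + 1)) K)} {i j : Fin (N + 1)} (p : Po H i j)
    {π : Equiv.Perm (Fin (N + 1))} {d : Fin (N + 1) → Kˣ} (m : mon π d ∈ H)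
    (hi : π i.rev = (π i).rev) (hj : π j.rev = (π j).rev) (e : d i * d i.rev = d j * d j.rev) :
    Po H (π i) (π j) := fun s => by
  have := mul_mem (mul_mem m (p (s * d j / d i))) (inv_mem m)
  rw [mon_eo hi hj e] at this
  convert this using 2
  field_simp

/-- The elementary `SL₂`. -/
theorem psi_el {i j : Fin (N + 1)} (h : i ≠ j) : ∃ ψ : SL2 K →* GL (Fin (N + 1)) K,
    (∀ s, ψ (mx s) = el i j s) ∧ (∀ v, ψ (mz v) = el j i (-v)) ∧
    ψ mw = mon (Equiv.swap i j) (fun k => if k = i then -1 else 1) ∧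
    ∀ a, ψ (mdg a) = mon 1 (Pi.mulSingle i a * Pi.mulSingle j a⁻¹) := by
  have h' := h.symm
  obtain ⟨ψ, p, q⟩ := psi_ex (el i j) (fun v : K => el j i (-v)) (el_add i j)
    (fun s t => by rw [neg_add, el_add]) (fun t u t0 => by
      have := mon_swap h (Units.mk0 t t0)
      rw [Units.val_mk0] at this
      rw [this, mon_el]
      simp only [Equiv.swap_apply_left, Equiv.swap_apply_right, if_neg h, if_true]
      congr 1; simp; field_simp) (fun t u t0 u0 => by
      have h1 := mon_hh h (Units.mk0 t t0)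
      have h2 := mon_swap h (Units.mk0 u u0)
      have h3 := mon_swap h (Units.mk0 t t0 * Units.mk0 u u0)
      simp only [Units.val_mul, Units.val_mk0] at h1 h2 h3
      rw [h1, h2, h3, mon_mul]
      refine mon_congr (by simp) fun k => ?_
      simp only [Equiv.swap_apply_def, Pi.mul_apply, Pi.mulSingle_apply]
      by_cases p : k = i <;> by_cases q : k = j <;> simp_all [mul_comm])
  refine ⟨ψ, p, q, ?_, fun a => ?_⟩
  · have := mon_swap (K := K) h 1
    rw [Units.val_one, inv_one] at this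
    rw [mw_eq, map_mul, map_mul, p, q, this]
    exact mon_congr (fun _ => rfl) fun k => by by_cases p : k = j <;> simp_all
  · simp only [mdg_eq, mw_eq, map_mul, map_inv, p, q, mon_hh h]

theorem Act.map {F G G' : Type} [Field F] [Group G] [Group G'] {ψ : SL2 F →* G} {g : G}
    {P : Matrix (Fin 2) (Fin 2) F} (h : Act ψ g P) (f : G →* G') : Act (f.comp ψ) (f g) P :=
  ⟨h.1, fun A B e => by simpa only [MonoidHom.coe_comp, Function.comp_apply, map_mul, map_inv] using congrArg f (h.2 A B e)⟩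

/-- The rank one argument for matrices, modulo scalars. `T` is usually a group of diagonal
matrices. -/
theorem r1m {F : Type} [Field F] [Finite F] (ψ : SL2 F →* GL (Fin (N + 1)) K)
    {T : Subgroup (GL (Fin (N + 1)) K)} {τ d b : GL (Fin (N + 1)) K} {x δ ε : F} (e : ε * ε = 1)
    (so : Sol x δ ε) (sp : Spn x) (nil : ∀ a ∈ T, ∀ a' ∈ T, ∀ a'' ∈ T, Commute ⁅a, a'⁆ a'')
    (n1 : ψ mw ∈ normalizer (T : Set _)) (n2 : ∀ a, ψ (mdg a) ∈ normalizer (T : Set _))
    (tT : τ ∈ T) (aτ : Act ψ τ !![x, 0; 0, 1]) (nd : d ∈ normalizer (T : Set _))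
    (ad : Act ψ d !![0, δ; 1, 0]) (nb : b ∈ normalizer (T : Set _)) (ab : Act ψ b !![ε, 0; 0, 1])
    (bb : Sc (b * ψ mw * (b * ψ mw))) (db : Sc (d * b * d⁻¹ * b)) :
    ∃ S : SL2 F, ∀ B, B = ψ S * (b * ψ mw) * (ψ S)⁻¹ → Sc ((d * B)⁻¹ * (B * d)) ∧
      ∀ H : Subgroup (GL (Fin (N + 1)) K), τ ∈ H → d ∈ H → B ∈ H → (∀ A, ψ A ∈ H) ∧ b ∈ H := by
  obtain ⟨u, y, l, i, j, u0, y0, h, hl, x1, c⟩ := so
  obtain ⟨S, hS⟩ := ab.conj (M := mw) (M' := mM u y δ ε e h) (by simp [mw, trace_fin_two])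
    (by simp [mM, trace_fin_two, ← mul_assoc, e]) (by simp [mw]) (by simpa [mM] using y0)
  refine ⟨S, fun B hB => ?_⟩
  rw [hS] at hB
  subst hB
  constructor
  · let f := QuotientGroup.mk' (center (GL (Fin (N + 1)) K))
    have k : ∀ g, Sc g ↔ f g = 1 := fun g => sc_iff.trans (QuotientGroup.eq_one_iff g).symm
    have := r1_comm e h (ad.map f) (ab.map f) (by simpa only [MonoidHom.coe_comp, Function.comp_apply, map_mul] using (k _).1 bb)
      (eq_inv_of_mul_eq_one_left (by simpa only [map_mul, map_inv] using (k _).1 db))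
    rw [k, map_mul, map_inv, inv_mul_eq_one]
    simpa only [map_mul, MonoidHom.coe_comp, Function.comp_apply] using this.eq
  · intro H m1 m2 m3
    have k := r1 e h u0 y0 hl x1 c sp nil n1 n2 tT aτ nd ad nb ab m1 m2 m3
    exact ⟨k, (mul_mem_cancel_right (k _)).1 m3⟩

/-- The diagonal matrices. -/
def dgl : Subgroup (GL (Fin (N + 1)) K) := (MonoidHom.mk' (mon 1) mon_one_mul).range

theorem mem_dgl {g : GL (Fin (N + 1)) K} : g ∈ dgl ↔ ∃ d, g = mon 1 d :=
  exists_congr fun _ => eq_comm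

theorem mon_dgl {π : Equiv.Perm (Fin (N + 1))} (h : ∀ i, π i = i) (d : Fin (N + 1) → Kˣ) :
    mon π d ∈ dgl := mem_dgl.2 ⟨d, mon_congr h fun _ => rfl⟩

theorem dgl_comm {a a' : GL (Fin (N + 1)) K} (h : a ∈ dgl) (h' : a' ∈ dgl) : Commute a a' := by
  obtain ⟨d, rfl⟩ := mem_dgl.1 h
  obtain ⟨d', rfl⟩ := mem_dgl.1 h'
  rw [Commute, SemiconjBy, ← mon_one_mul, ← mon_one_mul, mul_comm]

theorem dgl_nil (a : GL (Fin (N + 1)) K) (h : a ∈ dgl) (a' : GL (Fin (N + 1)) K) (h' : a' ∈ dgl)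
    (a'' : GL (Fin (N + 1)) K) (h'' : a'' ∈ dgl) : Commute ⁅a, a'⁆ a'' := by
  rw [commutatorElement_eq_one_iff_commute.2 (dgl_comm h h')]
  exact Commute.one_left _

theorem mon_norm (π : Equiv.Perm (Fin (N + 1))) (d : Fin (N + 1) → Kˣ) :
    mon π d ∈ normalizer ((dgl : Subgroup (GL (Fin (N + 1)) K)) : Set _) := by
  have key : ∀ π d, ∀ g ∈ (dgl : Subgroup (GL (Fin (N + 1)) K)), mon π d * g * (mon π d)⁻¹ ∈ dgl := by
    intro π d g hg
    obtain ⟨e, rfl⟩ := mem_dgl.1 hg
    rw [mon_conj]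
    exact mon_dgl (by simp) _
  refine mem_normalizer_iff.2 fun g => ⟨key π d g, fun k => ?_⟩
  have := key π⁻¹ (fun i => (d (π⁻¹ i))⁻¹) _ k
  rw [← mon_inv] at this
  convert this using 1
  group

end Pool.Agent.MP_c78e8e_al.H75

end

section

namespace Pool.Agent.MP_c78e8e_al.H75

open Subgroup Matrix

variable {r : ℕ} {K : Type} [Field K] {φ : K →+* K}

/-- The form on column vectors, linear in the first and semilinear in the second argument. -/
def bu (φ : K →+* K) (u v : Fin (r + 1) → K) : K :=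
  ∑ i : Fin (r + 1), (-1) ^ (i : ℕ) * u i * φ (v i.rev)

theorem bu_add_left (u u' v : Fin (r + 1) → K) : bu φ (u + u') v = bu φ u v + bu φ u' v := by
  simp only [bu, Pi.add_apply, mul_add, add_mul, Finset.sum_add_distrib]

theorem bu_add_right (u v v' : Fin (r + 1) → K) : bu φ u (v + v') = bu φ u v + bu φ u v' := by
  simp only [bu, Pi.add_apply, map_add, mul_add, Finset.sum_add_distrib]

theorem bu_smul_left (c : K) (u v : Fin (r + 1) → K) : bu φ (c • u) v = c * bu φ u v := by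
  simp only [bu, Finset.mul_sum, Pi.smul_apply, smul_eq_mul]
  exact Finset.sum_congr rfl fun _ _ => by ring

theorem bu_smul_right (c : K) (u v : Fin (r + 1) → K) : bu φ u (c • v) = φ c * bu φ u v := by
  simp only [bu, Finset.mul_sum, Pi.smul_apply, smul_eq_mul, map_mul]
  exact Finset.sum_congr rfl fun _ _ => by ring

theorem bu_neg_left (u v : Fin (r + 1) → K) : bu φ (-u) v = -bu φ u v := by simp only [bu, Pi.neg_apply, mul_neg, neg_mul, Finset.sum_neg_distrib]

theorem bu_neg_right (u v : Fin (r + 1) → K) : bu φ u (-v) = -bu φ u v := by simp only [bu, Pi.neg_apply, map_neg, mul_neg, Finset.sum_neg_distrib]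

theorem bu_sub_left (u u' v : Fin (r + 1) → K) : bu φ (u - u') v = bu φ u v - bu φ u' v := by
  rw [sub_eq_add_neg, bu_add_left, bu_neg_left, sub_eq_add_neg]

theorem bu_sub_right (u v v' : Fin (r + 1) → K) : bu φ u (v - v') = bu φ u v - bu φ u v' := by
  rw [sub_eq_add_neg, bu_add_right, bu_neg_right, sub_eq_add_neg]

@[simp] theorem bu_zero_left (v : Fin (r + 1) → K) : bu φ 0 v = 0 := by simp only [bu, Pi.zero_apply, mul_zero, zero_mul, Finset.sum_const_zero]

@[simp] theorem bu_zero_right (v : Fin (r + 1) → K) : bu φ v 0 = 0 := by simp only [bu, Pi.zero_apply, map_zero, mul_zero, Finset.sum_const_zero]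

theorem bu_single_left (i : Fin (r + 1)) (s : K) (v : Fin (r + 1) → K) :
    bu φ (Pi.single i s) v = (-1) ^ (i : ℕ) * s * φ (v i.rev) := by
  rw [bu, Finset.sum_eq_single i (fun k _ h => by simp only [ne_eq, h, not_false_eq_true, Pi.single_eq_of_ne, mul_zero, zero_mul]) (by simp only [Finset.mem_univ, not_true_eq_false, Pi.single_eq_same, mul_eq_zero, pow_eq_zero_iff', neg_eq_zero, one_ne_zero, ne_eq, Fin.val_eq_zero_iff, false_and, false_or, map_eq_zero, IsEmpty.forall_iff])]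
  simp only [Pi.single_eq_same]

theorem bu_single_right (u : Fin (r + 1) → K) (i : Fin (r + 1)) (s : K) :
    bu φ u (Pi.single i s) = (-1) ^ (i.rev : ℕ) * u i.rev * φ s := by
  rw [bu, Finset.sum_eq_single i.rev (fun k _ h => by
    rw [Pi.single_eq_of_ne (fun e => h (by rw [← e, Fin.rev_rev])), map_zero, mul_zero]) (by simp only [Finset.mem_univ, not_true_eq_false, Fin.val_rev, Nat.reduceSubDiff, Fin.rev_rev, Pi.single_eq_same, mul_eq_zero, pow_eq_zero_iff', neg_eq_zero, one_ne_zero, ne_eq, false_and, false_or, map_eq_zero, IsEmpty.forall_iff])]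
  simp only [Fin.val_rev, Nat.reduceSubDiff, Fin.rev_rev, Pi.single_eq_same]

theorem bu_symm (hφ : ∀ s, φ (φ s) = s) (u v : Fin (r + 1) → K) :
    bu φ v u = (-1) ^ r * φ (bu φ u v) := by
  rw [bu, bu, map_sum, Finset.mul_sum, ← Equiv.sum_comp Fin.revPerm]
  refine Finset.sum_congr rfl fun i _ => ?_
  simp only [Fin.revPerm_apply, Fin.rev_rev, map_mul, map_pow, map_neg, map_one, hφ, natb1_sg]
  ring

theorem monb_bu (u v : Fin (r + 1) → K) : bu φ u v = u ⬝ᵥ Jm r K *ᵥ (φ ∘ v) := by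
  refine Finset.sum_congr rfl fun i _ => ?_
  simp only [mulVec, dotProduct, Jm, of_apply, Function.comp_apply, ite_mul, zero_mul, Finset.sum_ite_eq', Finset.mem_univ, ↓ reduceIte]
  ring

theorem monb_swap {a b : Matrix (Fin (r + 1)) (Fin (r + 1)) K} (h : a * Jm r K * b = Jm r K) :
    b * Jm r K * a = Jm r K := by
  have q := natb1_sq (K := K) r
  have JJ : Jm r K * ((-1 : K) ^ r • Jm r K) = 1 := by
    ext i j
    rw [mul_apply, Finset.sum_eq_single i.rev (fun k _ h => by simp only [Jm, of_apply, h, ↓ reduceIte, Matrix.smul_apply, smul_eq_mul, mul_ite, mul_zero, zero_mul, ite_self]) (by simp only [Finset.mem_univ, not_true_eq_false, Matrix.smul_apply, smul_eq_mul, mul_eq_zero, pow_eq_zero_iff', neg_eq_zero, one_ne_zero, ne_eq, false_and, false_or, IsEmpty.forall_iff])]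
    have := natb1_sq (K := K) i
    by_cases p : i = j
    · subst p
      simp only [Jm, of_apply, if_true, Matrix.smul_apply, Fin.rev_rev, natb1_sg, smul_eq_mul,
        one_apply_eq]
      linear_combination ((-1 : K) ^ r * (-1) ^ r) * this + q
    · simp only [Jm, of_apply, ↓ reduceIte, Matrix.smul_apply, Fin.rev_rev, Ne.symm p, smul_eq_mul, mul_zero, ne_eq, p, not_false_eq_true, one_apply_ne]
  have h1 : a * (Jm r K * b * ((-1 : K) ^ r • Jm r K)) = 1 := by
    rw [← Matrix.mul_assoc, ← Matrix.mul_assoc, h, JJ]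
  have h2 := congrArg (Jm r K * ·) (mul_eq_one_comm.1 h1)
  have J2 : Jm r K * Jm r K = (-1 : K) ^ r • 1 := by
    rw [← JJ, Matrix.mul_smul, smul_smul, q, one_smul]
  simp only [← Matrix.mul_assoc, J2, Matrix.mul_one, Matrix.smul_mul, Matrix.mul_smul, smul_smul, q,
    one_smul, Matrix.one_mul] at h2
  exact h2

theorem fx_iff (hφ : ∀ s, φ (φ s) = s) {g : GL (Fin (r + 1)) K} :
    Fx φ g ↔ ∀ u v, bu φ (g.1 *ᵥ u) (g.1 *ᵥ v) = bu φ u v := by
  have m : ∀ A : Matrix (Fin (r + 1)) (Fin (r + 1)) K, (A.map φ).map φ = A := fun A => by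
    ext i j; exact hφ _
  have J : (Jm r K).map φ = Jm r K := by
    ext i j; simp only [Jm, map_apply, of_apply, apply_ite φ, map_pow, map_neg, map_one, map_zero]
  have k : ∀ u v, bu φ (g.1 *ᵥ u) (g.1 *ᵥ v) = u ⬝ᵥ (g.1ᵀ * Jm r K * g.1.map φ) *ᵥ (φ ∘ v) := by
    intro u v
    rw [monb_bu, ← mulVec_mulVec, ← mulVec_mulVec, dotProduct_mulVec u, vecMul_transpose]
    congr 2
    funext i
    exact RingHom.map_mulVec φ _ _ _
  constructor
  · intro h u v
    have := congrArg (·.map φ) (monb_swap h)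
    simp only [Matrix.map_mul, J, transpose_map, m] at this
    rw [k, this, monb_bu]
  · intro h
    refine monb_swap ?_
    have : g.1ᵀ * Jm r K * g.1.map φ = Jm r K := by
      ext i j
      have := h (Pi.single i 1) (Pi.single j 1)
      have e : φ ∘ (Pi.single j 1 : Fin (r + 1) → K) = Pi.single j 1 := by
        funext l; simp [Pi.single_apply, apply_ite φ]
      rw [k, monb_bu, e] at this
      simpa using this
    have := congrArg (·.map φ) this
    simpa only [Matrix.map_mul, J, transpose_map, m] using this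

theorem monb_ext {g g' : GL (Fin (r + 1)) K} (h : ∀ v, g.1 *ᵥ v = g'.1 *ᵥ v) : g = g' :=
  Units.ext (Matrix.ext_iff_mulVec.2 h)

theorem monb_mul (g g' : GL (Fin (r + 1)) K) (v : Fin (r + 1) → K) :
    (g * g').1 *ᵥ v = g.1 *ᵥ g'.1 *ᵥ v := by rw [Units.val_mul, mulVec_mulVec]

theorem monb_inv {g : GL (Fin (r + 1)) K} {u v : Fin (r + 1) → K} (h : g.1 *ᵥ u = v) :
    (g⁻¹).1 *ᵥ v = u := by rw [← h, ← monb_mul, inv_mul_cancel, Units.val_one, one_mulVec]

theorem monb_inv' (g : GL (Fin (r + 1)) K) (v : Fin (r + 1) → K) : g.1 *ᵥ (g⁻¹).1 *ᵥ v = v := by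
  rw [← monb_mul, mul_inv_cancel, Units.val_one, one_mulVec]

/-- The matrix of a Siegel transformation. -/
noncomputable def monb_sm (φ : K →+* K) (e w : Fin (r + 1) → K) (a : K) :
    Matrix (Fin (r + 1)) (Fin (r + 1)) K := LinearMap.toMatrix'
  { toFun := fun v => v + bu φ v e • w - ((-1) ^ r * bu φ v w + a * bu φ v e) • e
    map_add' := fun u v => by simp only [bu_add_left]; module
    map_smul' := fun c v => by simp only [bu_smul_left, RingHom.id_apply]; module }

theorem monb_sm_apply (e w : Fin (r + 1) → K) (a : K) (v : Fin (r + 1) → K) : monb_sm φ e w a *ᵥ v =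
    v + bu φ v e • w - ((-1) ^ r * bu φ v w + a * bu φ v e) • e := by
  rw [monb_sm, ← toLin'_apply, toLin'_toMatrix']
  rfl

theorem monb_sm_inv {e w : Fin (r + 1) → K} (h : bu φ e e = 0 ∧ bu φ w e = 0 ∧ bu φ e w = 0) (a : K) :
    monb_sm φ e w a * monb_sm φ e (-w) (-a + (-1) ^ r * bu φ w w) = 1 := by
  refine Matrix.ext_iff_mulVec.2 fun v => ?_
  simp only [← mulVec_mulVec, monb_sm_apply, one_mulVec, bu_add_left, bu_sub_left, bu_smul_left,
    bu_neg_left, bu_neg_right, h.1, h.2.1, h.2.2]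
  module

open Classical in
/-- The Siegel transformation of an isotropic vector `e` and a vector `w` orthogonal to `e`. -/
noncomputable def sie (φ : K →+* K) (e w : Fin (r + 1) → K) (a : K) : GL (Fin (r + 1)) K :=
  if h : bu φ e e = 0 ∧ bu φ w e = 0 ∧ bu φ e w = 0 then
    ⟨monb_sm φ e w a, _, monb_sm_inv h a, mul_eq_one_comm.1 (monb_sm_inv h a)⟩ else 1

theorem sie_apply {e w : Fin (r + 1) → K} (h : bu φ e e = 0) (h' : bu φ w e = 0)
    (h'' : bu φ e w = 0) (a : K) (v : Fin (r + 1) → K) : (sie φ e w a).1 *ᵥ v =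
      v + bu φ v e • w - ((-1) ^ r * bu φ v w + a * bu φ v e) • e := by
  rw [sie, dif_pos ⟨h, h', h''⟩, monb_sm_apply]

theorem sie_fx (hφ : ∀ s, φ (φ s) = s) {e w : Fin (r + 1) → K} (h : bu φ e e = 0)
    (h' : bu φ w e = 0) {a : K} (c : φ a + (-1) ^ r * a = bu φ w w) : Fx φ (sie φ e w a) := by
  have h'' : bu φ e w = 0 := by rw [bu_symm hφ, h', map_zero, mul_zero]
  have q := natb1_sq (K := K) r
  refine (fx_iff hφ).2 fun u v => ?_
  simp only [sie_apply h h' h'', bu_add_left, bu_sub_left, bu_smul_left, bu_add_right, bu_sub_right,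
    bu_smul_right, h, h', h'', bu_symm hφ v w, bu_symm hφ v e, ← c, map_add, map_mul, map_pow,
    map_neg, map_one]
  linear_combination (-bu φ u w * φ (bu φ v e)) * q

theorem sie_conj (hφ : ∀ s, φ (φ s) = s) {g : GL (Fin (r + 1)) K} (f : Fx φ g)
    (e w : Fin (r + 1) → K) (a : K) :
    g * sie φ e w a * g⁻¹ = sie φ (g.1 *ᵥ e) (g.1 *ᵥ w) a := by
  have k := (fx_iff hφ).1 f
  by_cases h : bu φ e e = 0 ∧ bu φ w e = 0 ∧ bu φ e w = 0
  · rw [mul_inv_eq_iff_eq_mul]
    refine monb_ext fun v => ?_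
    rw [monb_mul, monb_mul, sie_apply h.1 h.2.1 h.2.2,
      sie_apply ((k _ _).trans h.1) ((k _ _).trans h.2.1) ((k _ _).trans h.2.2), k, k]
    simp only [mulVec_add, mulVec_sub, mulVec_smul]
  · rw [sie, sie, dif_neg h, dif_neg (by rwa [k, k, k])]
    simp

/-- The Heisenberg element: it fixes the basis vector `i` and sends the basis vector `i.rev` to
itself plus `w` plus `a` times the basis vector `i`. -/
noncomputable def hei (φ : K →+* K) (i : Fin (r + 1)) (w : Fin (r + 1) → K) (a : K) :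
    GL (Fin (r + 1)) K := sie φ (Pi.single i 1) ((-1 : K) ^ (i.rev : ℕ) • w) (-(-1) ^ (i.rev : ℕ) * a)

/-- `w` has no components at `i` and `i.rev`, and `i` is not the middle index. -/
def Off (i : Fin (r + 1)) (w : Fin (r + 1) → K) : Prop := i ≠ i.rev ∧ w i = 0 ∧ w i.rev = 0

/-- The trace condition: the image of the basis vector `i.rev` is isotropic. -/
def Trc (φ : K →+* K) (i : Fin (r + 1)) (w : Fin (r + 1) → K) (a : K) : Prop :=
  (-1) ^ (i : ℕ) * a + (-1) ^ (i.rev : ℕ) * φ a + bu φ w w = 0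

theorem monb_off {i : Fin (r + 1)} {w : Fin (r + 1) → K} (h : Off i w) :
    bu φ (Pi.single i 1) (Pi.single i 1) = 0 ∧
      bu φ ((-1 : K) ^ (i.rev : ℕ) • w) (Pi.single i 1) = 0 ∧
      bu φ (Pi.single i 1) ((-1 : K) ^ (i.rev : ℕ) • w) = 0 := by
  refine ⟨?_, ?_, ?_⟩
  · simp only [bu_single_left, mul_one, ne_eq, h.1.symm, not_false_eq_true, Pi.single_eq_of_ne, map_zero, mul_zero]
  · simp only [Fin.val_rev, Nat.reduceSubDiff, bu_single_right, Pi.smul_apply, h.2.2, smul_eq_mul, mul_zero, map_one, mul_one]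
  · simp only [Fin.val_rev, Nat.reduceSubDiff, bu_single_left, mul_one, Pi.smul_apply, h.2.2, smul_eq_mul, mul_zero, map_zero]

theorem Off.zero {i : Fin (r + 1)} (h : i ≠ i.rev) : Off i (0 : Fin (r + 1) → K) := ⟨h, rfl, rfl⟩

theorem Off.rev {i : Fin (r + 1)} {w : Fin (r + 1) → K} (h : Off i w) : Off i.rev w :=
  ⟨by rw [Fin.rev_rev]; exact h.1.symm, h.2.2, by rw [Fin.rev_rev]; exact h.2.1⟩

theorem Off.add {i : Fin (r + 1)} {w w' : Fin (r + 1) → K} (h : Off i w) (h' : Off i w') :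
    Off i (w + w') := ⟨h.1, by simp [h.2.1, h'.2.1], by simp [h.2.2, h'.2.2]⟩

theorem Off.smul {i : Fin (r + 1)} {w : Fin (r + 1) → K} (h : Off i w) (c : K) : Off i (c • w) :=
  ⟨h.1, by simp [h.2.1], by simp [h.2.2]⟩

theorem Off.neg {i : Fin (r + 1)} {w : Fin (r + 1) → K} (h : Off i w) : Off i (-w) :=
  ⟨h.1, by simp [h.2.1], by simp [h.2.2]⟩

theorem Off.single {i j : Fin (r + 1)} (hi : i ≠ i.rev) (h : j ≠ i) (h' : j ≠ i.rev) (s : K) :
    Off i (Pi.single j s : Fin (r + 1) → K) := ⟨hi, by simp [h.symm], by simp [h'.symm]⟩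

theorem hei_apply {i : Fin (r + 1)} {w : Fin (r + 1) → K} (h : Off i w) (a : K)
    (v : Fin (r + 1) → K) : (hei φ i w a).1 *ᵥ v =
      v + v i.rev • w + (a * v i.rev - (-1) ^ (i : ℕ) * bu φ v w) • Pi.single i 1 := by
  have q := natb1_sq (K := K) r
  have q' := natb1_sq (K := K) i.rev
  rw [hei, sie_apply (monb_off h).1 (monb_off h).2.1 (monb_off h).2.2, bu_smul_right, bu_single_right,
    smul_smul, sub_eq_add_neg, ← neg_smul]
  simp only [map_pow, map_neg, map_one]
  congr 2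
  · congr 1
    linear_combination v i.rev * q'
  · rw [natb1_sg] at *
    linear_combination (a * v i.rev) * q' - ((-1) ^ (i : ℕ) * bu φ v w) * q

/-- The entries of a Heisenberg element. -/
theorem hei_val {i : Fin (r + 1)} {w : Fin (r + 1) → K} (h : Off i w) (a : K) (k l : Fin (r + 1)) :
    (hei φ i w a).1 k l = (if k = l then 1 else 0) + (if l = i.rev then w k else 0) +
      if k = i then (if l = i.rev then a else 0) - (-1) ^ ((i : ℕ) + l) * φ (w l.rev) else 0 := by
  have := congrFun (hei_apply (φ := φ) h a (Pi.single l 1)) k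
  rw [mulVec_single_one, bu_single_left] at this
  rw [show (hei φ i w a).1 k l = _ from this]
  simp only [Pi.add_apply, Pi.smul_apply, Pi.single_apply, smul_eq_mul, pow_add, eq_comm (a := i.rev)]
  split_ifs <;> ring

theorem hei_mul {i : Fin (r + 1)} {w w' : Fin (r + 1) → K} (h : Off i w) (h' : Off i w') (a a' : K) :
    hei φ i w a * hei φ i w' a' = hei φ i (w + w') (a + a' - (-1) ^ (i : ℕ) * bu φ w' w) := by
  refine monb_ext fun v => ?_
  simp only [monb_mul, hei_apply h, hei_apply h', hei_apply (h.add h'), bu_add_left, bu_add_right,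
    bu_smul_left, bu_single_left, Pi.add_apply, Pi.smul_apply, h.2.2, h'.2.2, map_zero,
    Pi.single_eq_of_ne h.1.symm, smul_eq_mul]
  module

theorem hei_zero (i : Fin (r + 1)) : hei φ i 0 0 = 1 := by
  by_cases h : i = i.rev
  · rw [hei, sie, dif_neg]
    rintro ⟨c, -⟩
    rw [bu_single_left, ← h] at c
    simp only [mul_one, Pi.single_eq_same, map_one, pow_eq_zero_iff', neg_eq_zero, one_ne_zero, ne_eq, Fin.val_eq_zero_iff, false_and] at c
  · exact monb_ext fun v => by simp only [hei_apply (Off.zero h), smul_zero, add_zero, zero_mul, bu_zero_right, mul_zero, sub_self, zero_smul, Units.val_one, one_mulVec]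

theorem hei_inv {i : Fin (r + 1)} {w : Fin (r + 1) → K} (h : Off i w) (a : K) :
    (hei φ i w a)⁻¹ = hei φ i (-w) (-a - (-1) ^ (i : ℕ) * bu φ w w) := by
  rw [inv_eq_iff_mul_eq_one, hei_mul h h.neg, bu_neg_left, add_neg_cancel, ← hei_zero (φ := φ) i]
  congr 1
  ring

theorem hei_centre {i : Fin (r + 1)} (h : i ≠ i.rev) (a : K) : hei φ i 0 a = el i i.rev a := by
  ext k l
  rw [hei_val (Off.zero h), el_val h]
  simp only [Matrix.add_apply, one_apply, single_apply, Pi.zero_apply, map_zero]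
  grind

theorem hei_single {i j : Fin (r + 1)} (hi : i ≠ i.rev) (h : j ≠ i) (h' : j ≠ i.rev) (s a : K) :
    hei φ i (Pi.single j s) a =
      el j i.rev s * el i j.rev (-(-1) ^ ((i : ℕ) + j.rev) * φ s) * el i i.rev a := by
  have n : i ≠ j.rev := fun e => h' (by rw [e, Fin.rev_rev])
  have : (el j i.rev s * el i j.rev (-(-1) ^ ((i : ℕ) + j.rev) * φ s) * el i i.rev a).1 =
      1 + (single j i.rev s + single i j.rev (-(-1) ^ ((i : ℕ) + j.rev) * φ s) + single i i.rev a) := by
    rw [Units.val_mul, Units.val_mul, el_val h', el_val n, el_val hi]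
    simp only [mul_add, add_mul, Matrix.one_mul, Matrix.mul_one, natb1_sm, hi.symm, n.symm, if_false,
      add_zero]
    abel
  ext k l
  rw [this, hei_val (Off.single hi h h' s)]
  simp only [Matrix.add_apply, one_apply, single_apply, Pi.single_apply, apply_ite φ, map_zero,
    Fin.rev_eq_iff]
  grind

theorem monb_ind {i : Fin (r + 1)} {P : (Fin (r + 1) → K) → Prop} {w : Fin (r + 1) → K}
    (h : Off i w) (h0 : P 0)
    (hs : ∀ w j s, Off i w → j ≠ i → j ≠ i.rev → P w → P (w + Pi.single j s)) : P w := by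
  have k : ∀ T : Finset (Fin (r + 1)), Off i (∑ j ∈ T, Pi.single j (w j)) ∧
      P (∑ j ∈ T, Pi.single j (w j)) := fun T => by
    induction T using Finset.induction_on with
    | empty => exact ⟨Off.zero h.1, h0⟩
    | insert j T hj ih =>
      rw [Finset.sum_insert hj, add_comm]
      by_cases p : j = i
      · simpa [p, h.2.1] using ih
      by_cases q : j = i.rev
      · simpa [q, h.2.2] using ih
      exact ⟨ih.1.add (Off.single h.1 p q _), hs _ _ _ ih.1 p q ih.2⟩
  simpa [Finset.univ_sum_single] using (k Finset.univ).2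

theorem hei_det {i : Fin (r + 1)} {w : Fin (r + 1) → K} (h : Off i w) (a : K) :
    (hei φ i w a).1.det = 1 := by
  refine monb_ind (P := fun w => ∀ a, (hei φ i w a).1.det = 1) h (fun a => ?_) ?_ a
  · rw [hei_centre h.1, el_det]
  · intro w j s hw p q ih a
    have := hei_mul (φ := φ) hw (Off.single h.1 p q s) (a + (-1) ^ (i : ℕ) * bu φ (Pi.single j s) w) 0
    rw [add_zero, add_sub_cancel_right] at this
    rw [← this, hei_single h.1 p q]
    simp only [Units.val_mul, det_mul, ih, el_det, mul_one]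

theorem hei_fx (hφ : ∀ s, φ (φ s) = s) {i : Fin (r + 1)} {w : Fin (r + 1) → K} (h : Off i w) {a : K}
    (c : Trc φ i w a) : Fx φ (hei φ i w a) := by
  refine sie_fx hφ (monb_off h).1 (monb_off h).2.1 ?_
  have q := natb1_sq (K := K) r
  have q' := natb1_sq (K := K) i.rev
  simp only [bu_smul_left, bu_smul_right, map_mul, map_neg, map_pow, map_one]
  unfold Trc at c
  rw [natb1_sg] at *
  linear_combination -c - (bu φ w w) * q' - ((-1) ^ (i : ℕ) * a) * q

theorem trc_of_fx (hφ : ∀ s, φ (φ s) = s) {i : Fin (r + 1)} {w : Fin (r + 1) → K} (h : Off i w)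
    {a : K} (c : Fx φ (hei φ i w a)) : Trc φ i w a := by
  have := (fx_iff hφ).1 c (Pi.single i.rev 1) (Pi.single i.rev 1)
  simp only [hei_apply h, bu_add_left, bu_add_right, bu_smul_left, bu_smul_right, bu_single_left,
    bu_single_right, Fin.rev_rev, h.2.1, h.2.2, Pi.single_eq_same, Pi.single_eq_of_ne h.1,
    Pi.single_eq_of_ne h.1.symm, Pi.add_apply, Pi.smul_apply, smul_eq_mul, map_zero, map_one,
    mul_zero, mul_one, sub_zero, zero_add, add_zero, one_smul] at this
  unfold Trc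
  linear_combination this

theorem monb_tr (hφ : ∀ s, φ (φ s) = s) (h : φ ≠ RingHom.id K ∨ (2 : K) ≠ 0) :
    ∃ t, t + φ t = 1 := by
  obtain ⟨s, hs⟩ : ∃ s, s + φ s ≠ 0 := by
    by_contra! c
    have h2 : (2 : K) = 0 := by linear_combination c 1 - map_one φ
    refine h.elim (fun n => n (RingHom.ext fun s => ?_)) fun n => n h2
    change φ s = s
    linear_combination c s - s * h2
  refine ⟨s / (s + φ s), ?_⟩
  rw [map_div₀, map_add, hφ, add_comm (φ s), ← add_div, div_self hs]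

theorem trc_ex (hφ : ∀ s, φ (φ s) = s) (hev : Even r → φ ≠ RingHom.id K) (i : Fin (r + 1))
    (w : Fin (r + 1) → K) : ∃ a, Trc φ i w a := by
  by_cases h : φ = RingHom.id K
  · have o : Odd r := Nat.not_even_iff_odd.1 fun e => hev e h
    refine ⟨0, ?_⟩
    rw [Trc, map_zero, mul_zero, mul_zero, zero_add, zero_add, bu]
    refine Finset.sum_involution (fun k _ => k.rev) (fun k _ => ?_) (fun k _ _ e => ?_) (by simp)
      (by simp)
    · simp only [h, RingHom.id_apply, Fin.rev_rev, natb1_sg, o.neg_one_pow]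
      ring
    · have := congrArg Fin.val e
      have := k.2
      obtain ⟨m, rfl⟩ := o
      rw [Fin.val_rev] at *
      omega
  · obtain ⟨t, ht⟩ := monb_tr hφ (.inl h)
    have q := natb1_sq (K := K) i
    have := bu_symm hφ w w
    refine ⟨-(-1) ^ (i : ℕ) * t * bu φ w w, ?_⟩
    simp only [Trc, natb1_sg, map_mul, map_neg, map_pow, map_one]
    linear_combination (-bu φ w w) * ht + (φ t) * this -
      (t * bu φ w w + (-1) ^ r * φ t * φ (bu φ w w)) * q

/-- Conjugation by an isometry that maps the plane of `i` to the plane of `j`. -/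
theorem hei_conj (hφ : ∀ s, φ (φ s) = s) {g : GL (Fin (r + 1)) K} (f : Fx φ g) {i j : Fin (r + 1)}
    {l l' : K} (h1 : g.1 *ᵥ Pi.single i 1 = Pi.single j l)
    (h2 : g.1 *ᵥ Pi.single i.rev 1 = Pi.single j.rev l') {w : Fin (r + 1) → K} (h : Off i w)
    (a : K) : Off j (l'⁻¹ • g.1 *ᵥ w) ∧
      g * hei φ i w a * g⁻¹ = hei φ j (l'⁻¹ • g.1 *ᵥ w) (a * l / l') := by
  have k := (fx_iff hφ).1 f
  have n : ∀ m : ℕ, (-1 : K) ^ m ≠ 0 := fun m => pow_ne_zero _ (by simp)
  have e1 := k (Pi.single i 1) (Pi.single i.rev 1)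
  simp only [h1, h2, bu_single_left, Pi.single_eq_same, map_one, mul_one] at e1
  have l0 : l ≠ 0 := fun z => n i (by rw [← e1, z, mul_zero, zero_mul])
  have l1 : l' ≠ 0 := fun z => n i (by rw [← e1, z, map_zero, mul_zero])
  have o : Off j (l'⁻¹ • g.1 *ᵥ w) := by
    refine ⟨fun e => ?_, ?_, ?_⟩
    · have := k (Pi.single i 1) (Pi.single i 1)
      rw [h1, bu_single_left, bu_single_left, ← e] at this
      simp only [Pi.single_eq_same, mul_one, ne_eq, h.1.symm, not_false_eq_true, Pi.single_eq_of_ne, map_zero, mul_zero, mul_eq_zero, pow_eq_zero_iff', neg_eq_zero, one_ne_zero, Fin.val_eq_zero_iff, false_and, l0, or_self, map_eq_zero] at this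
    · have := k w (Pi.single i.rev 1)
      rw [h2, bu_single_right, bu_single_right] at this
      simpa only [Pi.smul_apply, smul_eq_mul, mul_eq_zero, inv_eq_zero, l1, false_or, Fin.rev_rev, h.2.1, mul_zero, map_one, mul_one, pow_eq_zero_iff', neg_eq_zero, one_ne_zero, ne_eq, Fin.val_eq_zero_iff, false_and, map_eq_zero, or_false] using this
    · have := k w (Pi.single i 1)
      rw [h1, bu_single_right, bu_single_right] at this
      simpa only [Pi.smul_apply, smul_eq_mul, mul_eq_zero, inv_eq_zero, l1, false_or, Fin.val_rev, Nat.reduceSubDiff, h.2.2, mul_zero, map_one, mul_one, pow_eq_zero_iff', neg_eq_zero, one_ne_zero, ne_eq, false_and, map_eq_zero, l0, or_false] using this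
  refine ⟨o, ?_⟩
  rw [mul_inv_eq_iff_eq_mul]
  refine monb_ext fun v => ?_
  have e2 := k v (Pi.single i 1)
  rw [h1, bu_single_right, bu_single_right, natb1_sg, natb1_sg, map_one] at e2
  have e3 := congrArg φ e1
  simp only [map_mul, map_pow, map_neg, map_one, hφ] at e3
  have q := natb1_sq (K := K) j
  have q' := natb1_sq (K := K) i
  have e4 : (g.1 *ᵥ v) j.rev = l' * v i.rev := by
    refine mul_left_cancel₀ (mul_ne_zero (n r) (n i)) ?_
    linear_combination l' * e2 - ((-1) ^ r * (g.1 *ᵥ v) j.rev) * e3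
  have e5 : φ l' = (-1) ^ (i : ℕ) * (-1) ^ (j : ℕ) * l⁻¹ := by
    field_simp
    linear_combination (-1) ^ (j : ℕ) * e1 - l * φ l' * q
  have e6 : (Pi.single j l : Fin (r + 1) → K) = l • Pi.single j 1 := by
    rw [← Pi.single_smul, smul_eq_mul, mul_one]
  rw [monb_mul, monb_mul, hei_apply h, hei_apply o, mulVec_add, mulVec_add, mulVec_smul, mulVec_smul,
    h1, bu_smul_right, k, e4, map_inv₀, e5, e6, smul_smul, smul_smul]
  congr 2
  · congr 1
    field_simp
  · have := n i
    have := n j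
    field_simp
    linear_combination (-bu φ v w) * q'

theorem monb_trc_mul (hφ : ∀ s, φ (φ s) = s) {i : Fin (r + 1)} {w w' : Fin (r + 1) → K} (h : Off i w)
    (h' : Off i w') {a a' : K} (c : Trc φ i w a) (c' : Trc φ i w' a') :
    Trc φ i (w + w') (a + a' - (-1) ^ (i : ℕ) * bu φ w' w) :=
  trc_of_fx hφ (h.add h') (hei_mul (φ := φ) h h' a a' ▸ (hei_fx hφ h c).mul (hei_fx hφ h' c'))

theorem monb_shift {i : Fin (r + 1)} {w : Fin (r + 1) → K} (h : Off i w) (a b : K) :
    hei φ i w a = hei φ i 0 (a - b) * hei φ i w b := by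
  rw [hei_mul (Off.zero h.1) h]
  simp only [zero_add, sub_add_cancel, bu_zero_right, mul_zero, sub_zero]

theorem monb_trc_sub {i : Fin (r + 1)} {w : Fin (r + 1) → K} {a b : K} (c : Trc φ i w a)
    (c' : Trc φ i w b) : Trc φ i 0 (a - b) := by
  unfold Trc at *
  rw [map_sub, bu_zero_left]
  linear_combination c - c'

theorem monb_hei (hφ : ∀ s, φ (φ s) = s) (hev : Even r → φ ≠ RingHom.id K)
    {H : Subgroup (GL (Fin (r + 1)) K)} {i : Fin (r + 1)} (hH : ∀ j, rt φ i j ⊆ H)
    {w : Fin (r + 1) → K} (h : Off i w) {a : K} (c : Trc φ i w a) : hei φ i w a ∈ H := by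
  have z : ∀ a, Trc φ i 0 a → hei φ i 0 a ∈ H := fun a c => hH i.rev ⟨hei_fx hφ (Off.zero h.1) c, by
    rw [hei_centre h.1]; exact subset_closure (.inl ⟨_, rfl⟩)⟩
  refine monb_ind (P := fun w => ∀ a, Trc φ i w a → hei φ i w a ∈ H) h z ?_ a c
  intro w j s hw p q ih a c
  have o := Off.single h.1 p q s
  obtain ⟨b, hb⟩ := trc_ex hφ hev i w
  obtain ⟨b', hb', m⟩ : ∃ b', Trc φ i (Pi.single j s) b' ∧ hei φ i (Pi.single j s) b' ∈ H := by
    have m1 : ∀ t, el i j.rev t ∈ closure (Set.range (el (K := K) i j.rev) ∪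
      Set.range (el j.rev.rev i.rev)) := fun t => subset_closure (.inl ⟨_, rfl⟩)
    have m2 : ∀ t, el j i.rev t ∈ closure (Set.range (el (K := K) i j.rev) ∪
      Set.range (el j.rev.rev i.rev)) := fun t => subset_closure (.inr ⟨t, by rw [Fin.rev_rev]⟩)
    by_cases e : j = j.rev
    · obtain ⟨b', hb'⟩ := trc_ex hφ hev i (Pi.single j s)
      refine ⟨b', hb', hH j.rev ⟨hei_fx hφ o hb', ?_⟩⟩
      rw [hei_single h.1 p q, natb1_comm p.symm h.1 q b']
      have m3 : ∀ t, el i j t ∈ closure (Set.range (el (K := K) i j.rev) ∪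
        Set.range (el j.rev.rev i.rev)) := fun t => by convert m1 t
      exact mul_mem (mul_mem (m2 _) (m1 _))
        (mul_mem (inv_mem (mul_mem (m2 _) (m3 _))) (mul_mem (m3 _) (m2 _)))
    · have hb' : Trc φ i (Pi.single j s) 0 := by simp only [Trc, mul_zero, Fin.val_rev, Nat.reduceSubDiff, map_zero, add_zero, bu_single_left, ne_eq, Ne.symm e, not_false_eq_true, Pi.single_eq_of_ne]
      refine ⟨0, hb', hH j.rev ⟨hei_fx hφ o hb', ?_⟩⟩
      rw [hei_single h.1 p q, el_zero, mul_one]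
      exact mul_mem (m2 _) (m1 _)
  rw [monb_shift (hw.add o) a, ← hei_mul hw o b b']
  exact mul_mem (z _ (monb_trc_sub c (monb_trc_mul hφ hw o hb hb'))) (mul_mem (ih b hb) m)

theorem hei_mem (hφ : ∀ s, φ (φ s) = s) (hev : Even r → φ ≠ RingHom.id K) {i : Fin (r + 1)}
    {w : Fin (r + 1) → K} (h : Off i w) {a : K} (c : Trc φ i w a) : hei φ i w a ∈ sug r φ := by
  exact monb_hei hφ hev (fun j _ m => rt_mem m) h c

/-- The unipotent radical of the stabiliser of a vector. -/
def monb_rad (φ : K →+* K) (e : Fin (r + 1) → K) (g : GL (Fin (r + 1)) K) : Prop :=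
  g.1 *ᵥ e = e ∧ ∀ v, bu φ v e = 0 → ∃ c : K, g.1 *ᵥ v = v + c • e

theorem monb_el (i j : Fin (r + 1)) (s : K) (v : Fin (r + 1) → K) :
    (el i j s).1 *ᵥ v = v + (if i = j then 0 else s * v j) • Pi.single i 1 := by
  split_ifs with h
  · simp [h]
  · rw [el_val h, add_mulVec, one_mulVec, single_mulVec_eq]

theorem monb_rt {k l : Fin (r + 1)} (hk : k ≠ k.rev) {g : GL (Fin (r + 1)) K}
    (h : g ∈ Subgroup.closure (Set.range (el k l) ∪ Set.range (el l.rev k.rev))) :
    monb_rad φ (Pi.single k 1) g := by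
  induction h using closure_induction with
  | mem x hx =>
    rcases hx with ⟨s, rfl⟩ | ⟨s, rfl⟩
    · refine ⟨?_, fun v _ => ⟨_, monb_el _ _ _ _⟩⟩
      rw [monb_el]
      split_ifs with p
      · simp
      · simp [Ne.symm p]
    · refine ⟨by rw [monb_el]; simp [hk.symm], fun v hv => ⟨0, ?_⟩⟩
      rw [bu_single_right] at hv
      have : v k.rev = 0 := by simpa only [Fin.val_rev, Nat.reduceSubDiff, map_one, mul_one, mul_eq_zero, pow_eq_zero_iff', neg_eq_zero, one_ne_zero, ne_eq, false_and, false_or] using hv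
      simp [monb_el, this]
  | one => exact ⟨one_mulVec _, fun v _ => ⟨0, by simp⟩⟩
  | mul x y _ _ hx hy =>
    refine ⟨by rw [monb_mul, hy.1, hx.1], fun v hv => ?_⟩
    obtain ⟨c, hc⟩ := hx.2 v hv
    obtain ⟨d, hd⟩ := hy.2 v hv
    exact ⟨c + d, by rw [monb_mul, hd, mulVec_add, mulVec_smul, hx.1, hc, add_smul, add_assoc]⟩
  | inv x _ hx =>
    refine ⟨monb_inv hx.1, fun v hv => ?_⟩
    obtain ⟨c, hc⟩ := hx.2 v hv
    exact ⟨-c, monb_inv (by rw [mulVec_add, mulVec_smul, hx.1, hc]; module)⟩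

theorem monb_move {i : Fin (r + 1)} (hi : i ≠ i.rev) {x : Fin (r + 1) → K} (h : x i.rev = 1) :
    Off i (x - Pi.single i.rev 1 - Pi.single i (x i)) ∧
      (hei φ i (x - Pi.single i.rev 1 - Pi.single i (x i)) (x i)).1 *ᵥ Pi.single i.rev 1 = x := by
  have o : Off i (x - Pi.single i.rev 1 - Pi.single i (x i)) :=
    ⟨hi, by simp [hi], by simp [hi.symm, h]⟩
  refine ⟨o, ?_⟩
  rw [hei_apply o, bu_single_left, Fin.rev_rev, o.2.1, ← Pi.single_smul]
  simp only [Pi.single_eq_same, one_smul, map_zero, mul_zero, mul_one, sub_zero, smul_eq_mul]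
  abel

theorem monb_fix {i : Fin (r + 1)} {w : Fin (r + 1) → K} (h : Off i w) (a : K) :
    (hei φ i w a).1 *ᵥ Pi.single i 1 = Pi.single i 1 := by
  simp only [hei_apply h, ne_eq, h.1.symm, not_false_eq_true, Pi.single_eq_of_ne, zero_smul, add_zero, mul_zero, bu_single_left, mul_one, h.2.2, map_zero, sub_self]

theorem monb_trc {i : Fin (r + 1)} {w : Fin (r + 1) → K} (h : Off i w) {a : K}
    (c : bu φ ((hei φ i w a).1 *ᵥ Pi.single i.rev 1) ((hei φ i w a).1 *ᵥ Pi.single i.rev 1) = 0) :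
    Trc φ i w a := by
  simp only [hei_apply h, bu_add_left, bu_add_right, bu_smul_left, bu_smul_right, bu_single_left,
    bu_single_right, Fin.rev_rev, h.2.1, h.2.2, Pi.single_eq_same, Pi.single_eq_of_ne h.1,
    Pi.single_eq_of_ne h.1.symm, Pi.add_apply, Pi.smul_apply, smul_eq_mul, map_zero, map_one,
    mul_zero, mul_one, sub_zero, zero_add, add_zero, one_smul] at c
  unfold Trc
  linear_combination c

theorem monb_of_rad (hφ : ∀ s, φ (φ s) = s) {i : Fin (r + 1)} (hi : i ≠ i.rev)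
    {g : GL (Fin (r + 1)) K} (f : Fx φ g) (h : monb_rad φ (Pi.single i 1) g) :
    ∃ w a, Off i w ∧ g = hei φ i w a := by
  have k := (fx_iff hφ).1 f
  have n : ∀ m : ℕ, (-1 : K) ^ m ≠ 0 := fun m => pow_ne_zero _ (by simp)
  have e1 : (g.1 *ᵥ Pi.single i.rev 1) i.rev = 1 := by
    have := k (Pi.single i.rev 1) (Pi.single i 1)
    rw [h.1, bu_single_right, bu_single_right] at this
    simpa only [mulVec_single, MulOpposite.op_one, Pi.smul_apply, col_apply, one_smul, Fin.val_rev, Nat.reduceSubDiff, map_one, mul_one, Pi.single_eq_same, ne_eq, pow_eq_zero_iff', neg_eq_zero, one_ne_zero, false_and, not_false_eq_true, mul_eq_left₀] using this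
  obtain ⟨o, e⟩ := monb_move (φ := φ) hi e1
  refine ⟨_, (g.1 *ᵥ Pi.single i.rev 1) i, o, ?_⟩
  have c := monb_trc o (by rw [e, k]; simp only [bu_single_left, Fin.val_rev, Nat.reduceSubDiff, mul_one, Fin.rev_rev, ne_eq, hi, not_false_eq_true, Pi.single_eq_of_ne, map_zero, mul_zero])
  have k' := (fx_iff hφ).1 (hei_fx hφ o c)
  generalize g.1 *ᵥ Pi.single i.rev 1 - Pi.single i.rev 1 - Pi.single i _ = w at *
  generalize (g.1 *ᵥ Pi.single i.rev 1) i = a at *
  have z : ∀ v, v i.rev = 0 → g.1 *ᵥ v = (hei φ i w a).1 *ᵥ v := fun v hv => by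
    obtain ⟨c, hc⟩ := h.2 v (by simp only [bu_single_right, Fin.val_rev, Nat.reduceSubDiff, hv, mul_zero, map_one, mul_one])
    have p := k v (Pi.single i.rev 1)
    rw [← k' v, e, hc, hei_apply o, hv, zero_smul, add_zero, bu_add_left, bu_add_left, bu_smul_left,
      bu_smul_left, bu_single_left, e1, map_one, add_right_inj] at p
    rw [hc, hei_apply o, hv, zero_smul, add_zero, mul_right_cancel₀ (by simp) p]
  refine monb_ext fun v => ?_
  have := z (v - v i.rev • Pi.single i.rev 1) (by simp)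
  rwa [mulVec_sub, mulVec_sub, mulVec_smul, mulVec_smul, e, sub_left_inj] at this

/-- Two opposite unipotent radicals generate the group. -/
theorem gen_hei_all (hφ : ∀ s, φ (φ s) = s) {H : Subgroup (GL (Fin (r + 1)) K)} {i : Fin (r + 1)}
    (hi : i ≠ i.rev) (h : ∀ w a, Off i w → Trc φ i w a → hei φ i w a ∈ H)
    (h' : ∀ w a, Off i w → Trc φ i.rev w a → hei φ i.rev w a ∈ H) (k l : Fin (r + 1)) :
    rt φ k l ⊆ H := by
  let Ω : (Fin (r + 1) → K) → Prop := fun e => ∀ g, Fx φ g → monb_rad φ e g → g ∈ H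
  have mv : ∀ e g, Ω e → Fx φ g → g ∈ H → Ω (g.1 *ᵥ e) := by
    intro e g he f m x fx hx
    have : g⁻¹ * x * g ∈ H := by
      refine he _ ((f.inv.mul fx).mul f) ⟨?_, fun v hv => ?_⟩
      · rw [monb_mul, monb_mul, hx.1, monb_inv rfl]
      · obtain ⟨c, hc⟩ := hx.2 (g.1 *ᵥ v) (((fx_iff hφ).1 f _ _).trans hv)
        exact ⟨c, by rw [monb_mul, monb_mul, hc, mulVec_add, mulVec_smul, monb_inv rfl, monb_inv rfl]⟩
    exact (mul_mem_cancel_left (inv_mem m)).1 ((mul_mem_cancel_right m).1 this)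
  have o1 : Ω (Pi.single i 1) := fun g f x => by
    obtain ⟨w, a, o, rfl⟩ := monb_of_rad hφ hi f x
    exact h w a o (trc_of_fx hφ o f)
  have o2 : Ω (Pi.single i.rev 1) := fun g f x => by
    obtain ⟨w, a, o, rfl⟩ := monb_of_rad hφ (Off.zero (K := K) hi).rev.1 f x
    exact h' w a (by simpa using o.rev) (trc_of_fx hφ o f)
  have o3 : ∀ k : Fin (r + 1), k ≠ k.rev → Ω (Pi.single k 1) := fun k hk => by
    by_cases p : k = i
    · rwa [p]
    by_cases q : k = i.rev
    · rwa [q]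
    have p' : k.rev ≠ i := fun e => q (by rw [← e, Fin.rev_rev])
    have q' : k.rev ≠ i.rev := fun e => p (Fin.rev_injective e)
    have a1 := Off.single hi p q (1 : K)
    have a2 := Off.single hi p' q' ((-1 : K) ^ ((i : ℕ) + k))
    have t1 : Trc φ i.rev (Pi.single k 1) 0 := by simp only [Trc, Fin.val_rev, Nat.reduceSubDiff, mul_zero, Fin.rev_rev, map_zero, add_zero, bu_single_left, mul_one, ne_eq, hk.symm, not_false_eq_true, Pi.single_eq_of_ne]
    have t2 : Trc φ i (Pi.single k.rev ((-1 : K) ^ ((i : ℕ) + k))) 0 := by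
      simp only [Trc, mul_zero, Fin.val_rev, Nat.reduceSubDiff, map_zero, add_zero, bu_single_left, Fin.rev_rev, ne_eq, hk, not_false_eq_true, Pi.single_eq_of_ne]
    have := mv _ _ (mv _ _ o1 (hei_fx hφ a1.rev t1) (h' _ _ a1 t1)) (hei_fx hφ a2 t2) (h _ _ a2 t2)
    convert this using 1
    have s1 := natb1_sq (K := K) i
    have s2 := natb1_sq (K := K) k
    rw [hei_apply a2]
    simp only [hei_apply a1.rev, map_mul, Pi.zero_apply, bu_single_right, Fin.rev_rev,
      Pi.single_eq_same, Pi.single_eq_of_ne (Ne.symm q), Pi.single_eq_of_ne p,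
      Pi.single_eq_of_ne hi.symm, Pi.single_eq_of_ne p', Pi.add_apply, mul_zero, sub_zero,
      zero_smul, add_zero, one_smul, zero_add, map_pow, map_neg, map_one, pow_add, mul_one,
      zero_sub]
    rw [show (-1 : K) ^ (i : ℕ) * ((-1) ^ (k : ℕ) * ((-1) ^ (i : ℕ) * (-1) ^ (k : ℕ))) = 1 by
      linear_combination ((-1) ^ (k : ℕ) * (-1) ^ (k : ℕ)) * s1 + s2]
    module
  have o4 : ∀ k l : Fin (r + 1), k ≠ k.rev → rt φ k l ⊆ H := fun k l hk g m =>
    o3 k hk g m.1 (monb_rt hk m.2)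
  by_cases p : k = k.rev
  · by_cases q : l = l.rev
    · have : k = l := Fin.ext (by
        have := congrArg Fin.val p; have := congrArg Fin.val q; rw [Fin.val_rev] at *; omega)
      subst this
      intro g m
      refine (closure_le H).2 ?_ m.2
      rintro _ (⟨s, rfl⟩ | ⟨s, rfl⟩) <;> simp
    · rw [← rt_rev]
      exact o4 _ _ (by rw [Fin.rev_rev]; exact Ne.symm q)
  · exact o4 k l p

/-- The same modulo the centres; false for symplectic groups in characteristic two. -/
theorem gen_hei (hr : 3 ≤ r) (hφ : ∀ s, φ (φ s) = s) (hev : Even r → φ ≠ RingHom.id K)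
    (h2 : φ ≠ RingHom.id K ∨ (2 : K) ≠ 0) {H : Subgroup (GL (Fin (r + 1)) K)} {i : Fin (r + 1)}
    (hi : i ≠ i.rev) (h : ∀ w, Off i w → ∃ a, Trc φ i w a ∧ hei φ i w a ∈ H)
    (h' : ∀ w, Off i w → ∃ a, Trc φ i.rev w a ∧ hei φ i.rev w a ∈ H) (k l : Fin (r + 1)) :
    rt φ k l ⊆ H := by
  obtain ⟨t, ht⟩ := monb_tr hφ h2
  obtain ⟨j, p, q, n⟩ : ∃ j : Fin (r + 1), j ≠ i ∧ j ≠ i.rev ∧ j ≠ j.rev := by
    by_cases c : (i : ℕ) = 0 ∨ (i : ℕ) = r
    · refine ⟨⟨1, by omega⟩, ?_, ?_, ?_⟩ <;> intro e <;> have := congrArg Fin.val e <;>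
        simp only [Fin.val_rev] at this <;> omega
    · have := i.2
      refine ⟨0, ?_, ?_, ?_⟩ <;> intro e <;> have := congrArg Fin.val e <;>
        simp only [Fin.val_rev, Fin.val_zero] at this <;> omega
  have key : ∀ i : Fin (r + 1), i ≠ i.rev → j ≠ i → j ≠ i.rev →
      (∀ w, Off i w → ∃ a, Trc φ i w a ∧ hei φ i w a ∈ H) →
      ∀ w a, Off i w → Trc φ i w a → hei φ i w a ∈ H := by
    intro i hi p q h w a o c
    obtain ⟨b, hb, m⟩ := h w o
    rw [monb_shift o a b]
    refine mul_mem ?_ m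
    have c' := monb_trc_sub c hb
    generalize a - b = x at c'
    have o1 := Off.single hi p q ((-1 : K) ^ ((i : ℕ) + j) * (t * x))
    have o2 := Off.single (j := j.rev) hi (fun e => q (by rw [← e, Fin.rev_rev]))
      (fun e => p (Fin.rev_injective e)) (1 : K)
    obtain ⟨a1, -, m1⟩ := h _ o1
    obtain ⟨a2, -, m2⟩ := h _ o2
    have := mul_mem (mul_mem m1 m2) (inv_mem (mul_mem m2 m1))
    rw [hei_mul o1 o2, hei_mul o2 o1, add_comm (Pi.single j.rev 1), monb_shift (o1.add o2) _ _,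
      mul_inv_cancel_right] at this
    convert this using 2
    have s1 := natb1_sq (K := K) i
    have s2 := natb1_sq (K := K) j
    simp only [Trc, bu_single_left, Fin.rev_rev, Pi.single_eq_same, map_mul, map_pow, map_neg,
      map_one, natb1_sg, pow_add, bu_zero_left] at c' ⊢
    linear_combination -x * ht + ((-1) ^ (i : ℕ) * φ t) * c' -
      ((t * x - (-1) ^ r * φ t * φ x) * ((-1) ^ (i : ℕ) * (-1) ^ (i : ℕ))) * s2 -
      (t * x + φ t * x) * s1
  refine gen_hei_all hφ hi (key i hi p q h) (fun w a o => ?_) k l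
  exact key i.rev o.rev.1 q (by rwa [Fin.rev_rev]) (fun w o => h' w (by simpa using o.rev)) w a o.rev

/-- Special isometries fixing the basis vectors outside `S`. -/
def monb_A (φ : K →+* K) (S : Finset (Fin (r + 1))) : Subgroup (GL (Fin (r + 1)) K) where
  carrier := {g | Fx φ g ∧ g.1.det = 1 ∧ ∀ j ∉ S, g.1 *ᵥ Pi.single j 1 = Pi.single j 1}
  one_mem' := ⟨natb1_one, by simp, fun _ _ => one_mulVec _⟩
  mul_mem' := fun {a b} h h' => ⟨h.1.mul h'.1, by simp [h.2.1, h'.2.1], fun j hj => by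
    rw [monb_mul, h'.2.2 j hj, h.2.2 j hj]⟩
  inv_mem' := fun {a} h => ⟨h.1.inv, by simp only [coe_units_inv, det_nonsing_inv, h.2.1, Ring.inverse_one], fun j hj => monb_inv (h.2.2 j hj)⟩

theorem monb_det {g : GL (Fin (r + 1)) K} (π : Equiv.Perm (Fin (r + 1))) (d : Fin (r + 1) → K)
    (h : ∀ j, g.1 *ᵥ Pi.single j 1 = d j • Pi.single (π j) 1) :
    g.1.det = (Equiv.Perm.sign π : ℤ) * ∏ i, d i := by
  have : g.1 = (diagonal d).submatrix ⇑π⁻¹ id := by
    ext i j
    have := congrFun (h j) i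
    rw [mulVec_single_one] at this
    rw [show g.1 i j = _ from this]
    simp only [submatrix_apply, diagonal_apply, id, Equiv.Perm.inv_eq_iff_eq, Pi.smul_apply,
      Pi.single_apply]
    split_ifs with h
    · simp [h]
    · simp
  rw [this, det_permute, det_diagonal, Equiv.Perm.sign_inv]

section

variable (hφ : ∀ s, φ (φ s) = s) (hev : Even r → φ ≠ RingHom.id K) {S : Finset (Fin (r + 1))}
  (hS : ∀ j ∈ S, j.rev ∈ S)

include hφ hS in
theorem monb_col {g : GL (Fin (r + 1)) K} (h : g ∈ monb_A φ S) {i : Fin (r + 1)} (hi : i ∈ S) :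
    ∀ j ∉ S, (g.1 *ᵥ Pi.single i 1) j = 0 := fun j hj => by
  have := (fx_iff hφ).1 h.1 (Pi.single i 1) (Pi.single j.rev 1)
  rw [h.2.2 j.rev (fun m => hj (by simpa using hS _ m)), bu_single_right, bu_single_right,
    Fin.rev_rev, Pi.single_eq_of_ne (fun e : j = i => hj (e ▸ hi))] at this
  simpa only [map_one, mul_one, mul_zero, mul_eq_zero, pow_eq_zero_iff', neg_eq_zero, one_ne_zero, ne_eq, Fin.val_eq_zero_iff, false_and, false_or] using this

include hφ hev hS in
theorem monb_in {i : Fin (r + 1)} (hi : i ∈ S) {w : Fin (r + 1) → K} (o : Off i w)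
    (hw : ∀ j ∉ S, w j = 0) {a : K} (c : Trc φ i w a) : hei φ i w a ∈ monb_A φ S ⊓ sug r φ := by
  refine ⟨⟨hei_fx hφ o c, hei_det o a, fun j hj => ?_⟩, hei_mem hφ hev o c⟩
  rw [hei_apply o, bu_single_left, hw j.rev (fun m => hj (by simpa using hS _ m)),
    Pi.single_eq_of_ne (fun e : i.rev = j => hj (e ▸ hS _ hi))]
  simp only [zero_smul, add_zero, mul_zero, mul_one, map_zero, sub_self]

include hφ hev hS in
theorem monb_red {i : Fin (r + 1)} (hi : i ∈ S) (n : i ≠ i.rev) {x : Fin (r + 1) → K}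
    (hx : ∀ j ∉ S, x j = 0) (iso : bu φ x x = 0) (x0 : x i.rev ≠ 0) :
    ∃ h ∈ monb_A φ S ⊓ sug r φ, h.1 *ᵥ Pi.single i 1 = Pi.single i 1 ∧
      h.1 *ᵥ x = x i.rev • Pi.single i.rev 1 := by
  obtain ⟨o, e⟩ := monb_move (φ := φ) (x := (x i.rev)⁻¹ • x) n (by simp [x0])
  refine ⟨_, inv_mem (monb_in hφ hev hS hi o (fun j hj => ?_) (monb_trc o ?_)),
    monb_inv (monb_fix o (((x i.rev)⁻¹ • x) i)), monb_inv ?_⟩
  · simp [hx j hj, Pi.single_eq_of_ne (fun e : j = i => hj (e ▸ hi)),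
      Pi.single_eq_of_ne (fun e : j = i.rev => hj (e ▸ hS _ hi))]
  · rw [e, bu_smul_left, bu_smul_right, iso, mul_zero, mul_zero]
  · rw [mulVec_smul, e, smul_smul, mul_inv_cancel₀ x0, one_smul]

include hφ hev hS in
theorem monb_two {i : Fin (r + 1)} (hi : i ∈ S) (n : i ≠ i.rev) {g : GL (Fin (r + 1)) K}
    (hg : g ∈ monb_A φ S) (x0 : (g.1 *ᵥ Pi.single i 1) i.rev ≠ 0) :
    ∃ h ∈ monb_A φ S ⊓ sug r φ, ∃ c : K,
      (h * g).1 *ᵥ Pi.single i 1 = (g.1 *ᵥ Pi.single i 1) i.rev • Pi.single i.rev 1 ∧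
      (h * g).1 *ᵥ Pi.single i.rev 1 = c • Pi.single i 1 := by
  obtain ⟨h, m, -, e⟩ := monb_red hφ hev hS hi n (monb_col hφ hS hg hi)
    (by rw [(fx_iff hφ).1 hg.1]; simp only [bu_single_left, mul_one, ne_eq, n.symm, not_false_eq_true, Pi.single_eq_of_ne, map_zero, mul_zero]) x0
  have m' := mul_mem m.1 hg
  have k := (fx_iff hφ).1 m'.1
  rw [← monb_mul] at e
  obtain ⟨h', p, e1, e2⟩ := monb_red hφ hev hS (hS _ hi) (Off.zero (K := K) n).rev.1
    (monb_col hφ hS m' (hS _ hi)) (by rw [k]; simp only [bu_single_left, Fin.val_rev, Nat.reduceSubDiff, mul_one, Fin.rev_rev, ne_eq, n, not_false_eq_true, Pi.single_eq_of_ne, map_zero, mul_zero]) (fun z => by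
      have := k (Pi.single i 1) (Pi.single i.rev 1)
      rw [e, bu_smul_left, bu_single_left, bu_single_left, z, eq_comm] at this
      simp only [mul_one, Pi.single_eq_same, map_one, mulVec_single, MulOpposite.op_one, Pi.smul_apply, col_apply, one_smul, Fin.val_rev, Nat.reduceSubDiff, map_zero, mul_zero, pow_eq_zero_iff', neg_eq_zero, one_ne_zero, ne_eq, Fin.val_eq_zero_iff, false_and] at this)
  rw [Fin.rev_rev] at e2
  exact ⟨h' * h, mul_mem p m, _, by rw [mul_assoc, monb_mul, e, mulVec_smul, e1],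
    by rw [mul_assoc, monb_mul, e2]⟩

include hφ hev hS in
theorem monb_pre {i : Fin (r + 1)} (hi : i ∈ S) (n : i ≠ i.rev) {g : GL (Fin (r + 1)) K}
    (hg : g ∈ monb_A φ S) :
    ∃ h ∈ monb_A φ S ⊓ sug r φ, ((h * g).1 *ᵥ Pi.single i 1) i.rev ≠ 0 := by
  have hx := monb_col hφ hS hg hi
  have x0 : g.1 *ᵥ Pi.single i 1 ≠ 0 := fun z => by
    have := congrFun (monb_inv z) i
    simp at this
  simp only [monb_mul]
  generalize g.1 *ᵥ Pi.single i 1 = x at hx x0
  by_cases p : x i.rev = 0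
  swap
  · exact ⟨1, one_mem _, by simpa using p⟩
  by_cases q : x i = 0
  · obtain ⟨j, hj⟩ := Function.ne_iff.1 x0
    have o := (Off.single (j := j.rev) n (fun e => hj (by rw [← e, Fin.rev_rev] at p; exact p))
      (fun e => hj (by rw [Fin.rev_injective e]; exact q)) (1 : K)).rev
    obtain ⟨a, c⟩ := trc_ex hφ hev i.rev (Pi.single j.rev 1)
    refine ⟨_, monb_in hφ hev hS (hS _ hi) o (fun k hk => Pi.single_eq_of_ne (fun e => ?_) _) c, ?_⟩
    · exact hk (e ▸ hS _ (by_contra fun m => hj (hx j m)))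
    · simpa only [hei_apply o, Fin.rev_rev, q, zero_smul, add_zero, mul_zero, Fin.val_rev, Nat.reduceSubDiff, bu_single_right, map_one, mul_one, zero_sub, neg_smul, Pi.add_apply, p, Pi.neg_apply, Pi.smul_apply, Pi.single_eq_same, smul_eq_mul, zero_add, ne_eq, neg_eq_zero, mul_eq_zero, pow_eq_zero_iff', one_ne_zero, false_and, Fin.val_eq_zero_iff, false_or, Pi.zero_apply] using hj
  · obtain ⟨a, a0, c⟩ : ∃ a ≠ 0, Trc φ i.rev (0 : Fin (r + 1) → K) a := by
      rcases Nat.even_or_odd r with e | e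
      · obtain ⟨s, hs⟩ := DFunLike.ne_iff.1 (hev e)
        refine ⟨φ s - s, sub_ne_zero.2 hs, ?_⟩
        simp only [Trc, Fin.rev_rev, natb1_sg, e.neg_one_pow, map_sub, hφ, bu_zero_left]
        ring
      · refine ⟨1, one_ne_zero, ?_⟩
        simp only [Trc, natb1_sg, e.neg_one_pow, neg_mul, one_mul, mul_one, Fin.rev_rev, map_one, neg_add_cancel, bu_zero_right, add_zero]
    have o := (Off.zero (K := K) n).rev
    exact ⟨_, monb_in hφ hev hS (hS _ hi) o (fun _ _ => rfl) c, by simp only [hei_apply o, Fin.rev_rev, smul_zero, add_zero, Fin.val_rev, Nat.reduceSubDiff, bu_zero_right, mul_zero, sub_zero, Pi.add_apply, p, Pi.smul_apply, Pi.single_eq_same, smul_eq_mul, mul_one, zero_add, ne_eq, mul_eq_zero, a0, q, or_self, not_false_eq_true]⟩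

end

theorem monb_main [Finite K] (hφ : ∀ s, φ (φ s) = s) (hev : Even r → φ ≠ RingHom.id K) (N : ℕ) :
    ∀ S : Finset (Fin (r + 1)), S.card ≤ N → (∀ j ∈ S, j.rev ∈ S) →
      ∀ g ∈ monb_A φ S, g ∈ sug r φ := by
  have base : ∀ S : Finset (Fin (r + 1)), (∀ j ∈ S, j = j.rev) → ∀ g ∈ monb_A φ S, g ∈ sug r φ := by
    intro S hS g hg
    have u : ∀ j ∈ S, ∀ k ≠ j, k ∉ S := fun j p k q m => q (Fin.ext (by
      have := congrArg Fin.val (hS _ p); have := congrArg Fin.val (hS _ m)
      rw [Fin.val_rev] at *; omega))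
    have e : ∀ j, g.1 *ᵥ Pi.single j 1 = (g.1 *ᵥ Pi.single j 1) j • Pi.single j 1 := fun j => by
      by_cases p : j ∈ S
      · funext k
        by_cases q : k = j
        · simp [q]
        · rw [monb_col hφ (fun j m => hS j m ▸ m) hg p k (u j p k q)]
          simp [q]
      · rw [hg.2.2 j p]; simp
    have d := monb_det 1 _ e
    rw [hg.2.1] at d
    have : g = 1 := Units.ext (Matrix.ext_of_mulVec_single fun j => by
      by_cases p : j ∈ S
      · rw [Fintype.prod_eq_single j fun k q => by rw [hg.2.2 k (u j p k q)]; simp] at d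
        rw [e, show (g.1 *ᵥ Pi.single j 1) j = 1 by simpa [-mulVec_single] using d.symm]
        simp [-mulVec_single]
      · rw [hg.2.2 j p]; simp [-mulVec_single])
    exact this ▸ one_mem _
  induction N with
  | zero =>
    intro S c _
    exact base S fun j m => absurd (Finset.card_pos.2 ⟨j, m⟩) (by omega)
  | succ N ih =>
    intro S c hS g hg
    by_cases b : ∀ j ∈ S, j = j.rev
    · exact base S b g hg
    push Not at b
    obtain ⟨i, hi, n⟩ := b
    obtain ⟨h0, m0, x0⟩ := monb_pre hφ hev hS hi n hg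
    obtain ⟨h1, m1, c', e1, e2⟩ := monb_two hφ hev hS hi n (mul_mem (mem_inf.1 m0).1 hg) x0
    have m2 := mul_mem (mem_inf.1 m1).1 (mul_mem (mem_inf.1 m0).1 hg)
    refine (mul_mem_cancel_left (mem_inf.1 m0).2).1 ((mul_mem_cancel_left (mem_inf.1 m1).2).1 ?_)
    generalize ((h0 * g).1 *ᵥ Pi.single i 1) i.rev = c at e1
    generalize h1 * (h0 * g) = g at e1 e2 m2
    have rel : ∀ {g : GL (Fin (r + 1)) K} {c : K}, Fx φ g →
        g.1 *ᵥ Pi.single i 1 = c • Pi.single i.rev 1 →
        g.1 *ᵥ Pi.single i.rev 1 = c' • Pi.single i 1 → (-1) ^ r * c * φ c' = 1 := by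
      intro g c f e1 e2
      have := (fx_iff hφ).1 f (Pi.single i 1) (Pi.single i.rev 1)
      simp only [e1, e2, bu_smul_left, bu_smul_right, bu_single_left, Fin.rev_rev, Pi.single_eq_same,
        map_one, natb1_sg] at this
      refine mul_left_cancel₀ (a := (-1 : K) ^ (i : ℕ)) (by simp only [ne_eq, pow_eq_zero_iff', neg_eq_zero, one_ne_zero, Fin.val_eq_zero_iff, false_and, not_false_eq_true]) ?_
      linear_combination this
    have r1 := rel m2.1 e1 e2
    have c0 : c' ≠ 0 := fun z => by simp only [z, map_zero, mul_zero, zero_ne_one] at r1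
    have q := natb1_sq (K := K) r
    obtain ⟨w, o, hw, t⟩ : ∃ w, Off i w ∧ (∀ j ∉ S, w j = 0) ∧ Trc φ i w c' := by
      by_cases b : ∃ j ∈ S, j ≠ i ∧ j ≠ i.rev
      · obtain ⟨j, hj, p, p'⟩ := b
        have s2 := natb1_sq (K := K) j
        have z : ∀ s : K, ∀ k ∉ S, (Pi.single j s : Fin (r + 1) → K) k = 0 := fun s k hk =>
          Pi.single_eq_of_ne (fun e : k = j => hk (e ▸ hj)) _
        by_cases mid : j = j.rev
        · have ev : Even r := ⟨j, by
            have := congrArg Fin.val mid; have := j.2; rw [Fin.val_rev] at *; omega⟩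
          obtain ⟨s, hs⟩ := norm_surj hφ (hev ev) (t := -(-1) ^ ((i : ℕ) + j) * (c' + φ c'))
            (by simp only [neg_mul, map_neg, map_mul, map_pow, map_one, map_add, hφ, add_comm])
          refine ⟨_, Off.single n p p' s, z s, ?_⟩
          simp only [Trc, bu_single_left, ← mid, Pi.single_eq_same, natb1_sg, ev.neg_one_pow, pow_add]
            at hs ⊢
          linear_combination (-1) ^ (j : ℕ) * hs - ((-1) ^ (i : ℕ) * (c' + φ c')) * s2
        · refine ⟨_, (Off.single n p p' (-(-1) ^ ((i : ℕ) + j) * c')).add (Off.single (j := j.rev) n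
            (fun e => p' (by rw [← e, Fin.rev_rev])) (fun e => p (Fin.rev_injective e)) 1),
            fun k hk => ?_, ?_⟩
          · rw [Pi.add_apply, z _ k hk, Pi.single_eq_of_ne (fun e : k = j.rev => hk (e ▸ hS _ hj)),
              add_zero]
          · simp only [Trc, bu_add_left, bu_single_left, Fin.rev_rev, Pi.add_apply, Pi.single_eq_same,
              Pi.single_eq_of_ne mid, Pi.single_eq_of_ne (Ne.symm mid), natb1_sg, pow_add, map_mul,
              map_neg, map_pow, map_one, zero_add, add_zero]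
            linear_combination (-(-1) ^ (i : ℕ) * (c' + (-1) ^ r * φ c')) * s2
      · push Not at b
        refine ⟨0, Off.zero n, fun _ _ => rfl, ?_⟩
        have d := monb_det (g := g) (Equiv.swap i i.rev)
          (fun j => if j = i then c else if j = i.rev then c' else 1) fun j => by
            split_ifs with p p'
            · rw [p, e1, Equiv.swap_apply_left]
            · rw [p', e2, Equiv.swap_apply_right]
            · rw [m2.2.2 j fun m => p' (b j m p), Equiv.swap_apply_of_ne_of_ne p p', one_smul]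
        rw [m2.2.1, Fintype.prod_eq_mul i i.rev n (fun k hk => by simp [hk.1, hk.2]),
          Equiv.Perm.sign_swap n] at d
        simp only [if_true, if_neg n.symm, Units.val_neg, Units.val_one, Int.cast_neg,
          Int.cast_one] at d
        simp only [Trc, natb1_sg, bu_zero_left]
        linear_combination (-(-1) ^ (i : ℕ) * c') * r1 + ((-1) ^ r * (-1) ^ (i : ℕ) * φ c') * d
    have m3 := monb_in hφ hev hS hi o hw t
    have y : ((hei φ i w c').1 *ᵥ Pi.single i.rev 1) i.rev.rev = c' := by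
      simp only [Fin.rev_rev, hei_apply o, Pi.single_eq_same, one_smul, mul_one, bu_single_left, Fin.val_rev, Nat.reduceSubDiff, o.2.1, map_zero, mul_zero, sub_zero, Pi.add_apply, ne_eq, n, not_false_eq_true, Pi.single_eq_of_ne, add_zero, Pi.smul_apply, smul_eq_mul, zero_add]
    obtain ⟨h2, m4, d, f1, f2⟩ := monb_two hφ hev hS (hS _ hi) o.rev.1 m3.1 (by rwa [y])
    rw [y] at f1
    rw [Fin.rev_rev] at f1 f2
    have m5 := mul_mem m4 m3
    generalize h2 * hei φ i w c' = x at f1 f2 m5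
    have r2 := rel m5.1.1 f2 f1
    have : d = c := by
      refine mul_right_cancel₀ (b := φ c') (by simpa using c0) ?_
      linear_combination (-1) ^ r * r2 - (-1) ^ r * r1 - (d * φ c' - c * φ c') * q
    subst this
    refine (mul_mem_cancel_left (inv_mem (mem_inf.1 m5).2)).1 (ih ((S.erase i).erase i.rev) ?_ ?_ _ ?_)
    · have := Finset.card_erase_of_mem hi
      have := Finset.card_erase_le (s := S.erase i) (a := i.rev)
      omega
    · intro j m
      simp only [Finset.mem_erase] at m ⊢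
      exact ⟨fun e => m.2.1 (Fin.rev_injective e), fun e => m.1 (by rw [← e, Fin.rev_rev]),
        hS _ m.2.2⟩
    · have m6 := mul_mem (inv_mem (mem_inf.1 m5).1) m2
      refine ⟨m6.1, m6.2.1, fun j hj => ?_⟩
      by_cases p : j = i
      · rw [p, monb_mul, e1, monb_inv f2]
      by_cases p' : j = i.rev
      · rw [p', monb_mul, e2, monb_inv f1]
      exact m6.2.2 j fun m => hj (by simp [p, p', m])

/-- The symplectic and special unitary groups are generated by their root groups. -/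
theorem mem_sug [Finite K] (hr : 3 ≤ r) (hφ : ∀ s, φ (φ s) = s) (hev : Even r → φ ≠ RingHom.id K)
    {g : GL (Fin (r + 1)) K} (h : Fx φ g) (d : g.1.det = 1) : g ∈ sug r φ := by
  exact monb_main hφ hev _ Finset.univ le_rfl (by simp) g ⟨h, d, by simp⟩

/-- The unipotent radical of the stabiliser of the first basis line, and of the last one. -/
def QP (φ : K →+* K) (i : Fin (r + 1)) : Set (GL (Fin (r + 1)) K) := ⋃ j, rt φ i j

/-- These two radicals generate the group. -/
theorem gen_QP (hr : 3 ≤ r) (hφ : ∀ s, φ (φ s) = s) (hev : Even r → φ ≠ RingHom.id K)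
    {H : Subgroup (GL (Fin (r + 1)) K)} {i : Fin (r + 1)} (hi : i ≠ i.rev) (h : QP φ i ⊆ H)
    (h' : QP φ i.rev ⊆ H) (k l : Fin (r + 1)) : rt φ k l ⊆ H := by
  exact gen_hei_all hφ hi
    (fun w a o c => monb_hei hφ hev (fun j => (Set.subset_iUnion _ j).trans h) o c)
    (fun w a o c => monb_hei hφ hev (fun j => (Set.subset_iUnion _ j).trans h') o.rev c) k l

end Pool.Agent.MP_c78e8e_al.H75

end

section

namespace Pool.Agent.MP_c78e8e_al.H75

open Subgroup Matrix

variable {n : ℕ} {K : Type} [Field K] {φ : K →+* K}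

/-- The quadratic form. -/
def qo (v : Fin (2 * n + 3 + 1) → K) : K :=
  ∑ i : Fin (2 * n + 3 + 1), if (i : ℕ) < n + 2 then v i * v i.rev else 0

/-- Its polar form. -/
def bo (u v : Fin (2 * n + 3 + 1) → K) : K := ∑ i, u i * v i.rev

open Classical in
/-- The swap of the two middle indices. -/
noncomputable def swm (i : Fin (2 * n + 3 + 1)) : Fin (2 * n + 3 + 1) := if Mid i then i.rev else i

/-- Rational vectors for the twisted form. -/
def Rat (φ : K →+* K) (v : Fin (2 * n + 3 + 1) → K) : Prop := ∀ i, φ (v i) = v (swm i)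

theorem monc_ne (i : Fin (2 * n + 3 + 1)) : i ≠ i.rev := by
  intro h
  have := congrArg Fin.val h
  rw [Fin.val_rev] at this
  omega

theorem monc_sum (f : Fin (2 * n + 3 + 1) → K) :
    ∑ i, f i = ∑ i : Fin (2 * n + 3 + 1), if (i : ℕ) < n + 2 then f i + f i.rev else 0 := by
  have h : ∑ i : Fin (2 * n + 3 + 1), (if (i : ℕ) < n + 2 then f i.rev else 0) =
      ∑ i : Fin (2 * n + 3 + 1), if (i : ℕ) < n + 2 then 0 else f i := by
    refine (Equiv.sum_comp Fin.revPerm _).symm.trans (Finset.sum_congr rfl fun i _ => ?_)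
    have := i.2
    simp only [Fin.revPerm_apply, Fin.rev_rev, Fin.val_rev]
    split_ifs <;> first | rfl | omega
  have h2 : ∀ i : Fin (2 * n + 3 + 1), (if (i : ℕ) < n + 2 then f i + f i.rev else 0) =
      (if (i : ℕ) < n + 2 then f i else 0) + if (i : ℕ) < n + 2 then f i.rev else 0 := fun i => by
    split_ifs <;> simp
  simp only [h2, Finset.sum_add_distrib, h]
  rw [← Finset.sum_add_distrib]
  exact Finset.sum_congr rfl fun i _ => by split_ifs <;> simp

theorem qo_add (u v : Fin (2 * n + 3 + 1) → K) : qo (u + v) = qo u + qo v + bo u v := by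
  unfold qo bo
  rw [monc_sum fun i => u i * v i.rev, ← Finset.sum_add_distrib, ← Finset.sum_add_distrib]
  refine Finset.sum_congr rfl fun i _ => ?_
  simp only [Pi.add_apply, Fin.rev_rev]
  split_ifs <;> ring

theorem qo_smul (c : K) (v : Fin (2 * n + 3 + 1) → K) : qo (c • v) = c ^ 2 * qo v := by
  unfold qo
  rw [Finset.mul_sum]
  refine Finset.sum_congr rfl fun i _ => ?_
  simp only [Pi.smul_apply, smul_eq_mul]
  split_ifs <;> ring

theorem qo_neg (v : Fin (2 * n + 3 + 1) → K) : qo (-v) = qo v := by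
  have := qo_smul (-1) v
  simpa only [neg_smul, one_smul, even_two, Even.neg_pow, one_pow, one_mul] using this

theorem qo_zero : qo (0 : Fin (2 * n + 3 + 1) → K) = 0 := by simp [qo]

theorem qo_single (i : Fin (2 * n + 3 + 1)) (a : K) : qo (Pi.single i a) = 0 := by
  refine Finset.sum_eq_zero fun j _ => ?_
  by_cases h : j = i
  · subst h
    simp [Pi.single_eq_of_ne (monc_ne j).symm]
  · simp [Pi.single_eq_of_ne h]

theorem bo_self (v : Fin (2 * n + 3 + 1) → K) : bo v v = 2 * qo v := by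
  have h := qo_add v v
  rw [← two_smul K v, qo_smul] at h
  linear_combination -h

theorem bo_comm (u v : Fin (2 * n + 3 + 1) → K) : bo u v = bo v u := by
  have h := qo_add u v
  rw [add_comm, qo_add] at h
  linear_combination -h

theorem bo_add (u u' v : Fin (2 * n + 3 + 1) → K) : bo (u + u') v = bo u v + bo u' v := by
  simp only [bo, Pi.add_apply, add_mul, Finset.sum_add_distrib]

theorem bo_sub (u u' v : Fin (2 * n + 3 + 1) → K) : bo (u - u') v = bo u v - bo u' v := by
  simp [bo, sub_mul, Finset.sum_sub_distrib]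

theorem bo_smul (c : K) (u v : Fin (2 * n + 3 + 1) → K) : bo (c • u) v = c * bo u v := by
  simp [bo, Finset.mul_sum, mul_assoc]

theorem bo_neg (u v : Fin (2 * n + 3 + 1) → K) : bo (-u) v = -bo u v := by
  simp [bo]

theorem bo_single (i : Fin (2 * n + 3 + 1)) (a : K) (v : Fin (2 * n + 3 + 1) → K) :
    bo (Pi.single i a) v = a * v i.rev := by
  unfold bo
  rw [Finset.sum_eq_single i (fun j _ h => by simp [Pi.single_eq_of_ne h]) (by simp)]
  simp

theorem bo_add' (v u u' : Fin (2 * n + 3 + 1) → K) : bo v (u + u') = bo v u + bo v u' := by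
  simp only [bo_comm v, bo_add]

theorem bo_sub' (v u u' : Fin (2 * n + 3 + 1) → K) : bo v (u - u') = bo v u - bo v u' := by
  simp only [bo_comm v, bo_sub]

theorem bo_smul' (c : K) (v u : Fin (2 * n + 3 + 1) → K) : bo v (c • u) = c * bo v u := by
  simp only [bo_comm v, bo_smul]

theorem bo_neg' (v u : Fin (2 * n + 3 + 1) → K) : bo v (-u) = -bo v u := by
  simp only [bo_comm v, bo_neg]

theorem bo_single' (v : Fin (2 * n + 3 + 1) → K) (i : Fin (2 * n + 3 + 1)) (a : K) :
    bo v (Pi.single i a) = a * v i.rev := by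
  rw [bo_comm, bo_single]

theorem qo_sub (u v : Fin (2 * n + 3 + 1) → K) : qo (u - v) = qo u + qo v - bo u v := by
  rw [sub_eq_add_neg, qo_add, qo_neg, bo_neg', sub_eq_add_neg]

theorem monc_ext {g h : GL (Fin (2 * n + 3 + 1)) K} (H : ∀ v, g.1 *ᵥ v = h.1 *ᵥ v) : g = h :=
  Units.ext (Matrix.toLin'.injective (LinearMap.ext H))

theorem monc_mul (g h : GL (Fin (2 * n + 3 + 1)) K) (v : Fin (2 * n + 3 + 1) → K) :
    (g * h).1 *ᵥ v = g.1 *ᵥ (h.1 *ᵥ v) := by
  rw [Units.val_mul, mulVec_mulVec]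

theorem monc_inv (g : GL (Fin (2 * n + 3 + 1)) K) (v : Fin (2 * n + 3 + 1) → K) :
    g.1 *ᵥ (g⁻¹.1 *ᵥ v) = v := by
  rw [← monc_mul, mul_inv_cancel, Units.val_one, one_mulVec]

theorem monc_inv' (g : GL (Fin (2 * n + 3 + 1)) K) (v : Fin (2 * n + 3 + 1) → K) :
    g⁻¹.1 *ᵥ (g.1 *ᵥ v) = v := by
  rw [← monc_mul, inv_mul_cancel, Units.val_one, one_mulVec]

/-- An invertible matrix from a linear map with a right inverse. -/
def moncMk (f g : (Fin (2 * n + 3 + 1) → K) →ₗ[K] (Fin (2 * n + 3 + 1) → K)) (h : ∀ v, f (g v) = v) :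
    GL (Fin (2 * n + 3 + 1)) K :=
  have e : LinearMap.toMatrix' f * LinearMap.toMatrix' g = 1 := by
    rw [← LinearMap.toMatrix'_comp, show f ∘ₗ g = LinearMap.id from LinearMap.ext h,
      LinearMap.toMatrix'_id]
  ⟨LinearMap.toMatrix' f, LinearMap.toMatrix' g, e, mul_eq_one_comm.1 e⟩

theorem moncMk_apply (f g : (Fin (2 * n + 3 + 1) → K) →ₗ[K] (Fin (2 * n + 3 + 1) → K))
    (h : ∀ v, f (g v) = v) (v : Fin (2 * n + 3 + 1) → K) : (moncMk f g h).1 *ᵥ v = f v :=
  LinearMap.toMatrix'_mulVec f v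

/-- The reflection as a linear map. -/
def moncR (u : Fin (2 * n + 3 + 1) → K) : (Fin (2 * n + 3 + 1) → K) →ₗ[K] (Fin (2 * n + 3 + 1) → K) where
  toFun v := v - (bo v u / qo u) • u
  map_add' v v' := by rw [bo_add, add_div]; module
  map_smul' c v := by rw [bo_smul, mul_div_assoc, RingHom.id_apply]; module

theorem moncR_sq (u v : Fin (2 * n + 3 + 1) → K) : moncR u (moncR u v) = v := by
  show v - (bo v u / qo u) • u - (bo (v - (bo v u / qo u) • u) u / qo u) • u = v
  by_cases h : qo u = 0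
  · simp [h]
  · rw [bo_sub, bo_smul, bo_self]
    have : (bo v u - bo v u / qo u * (2 * qo u)) / qo u = -(bo v u / qo u) := by
      field_simp
      ring
    rw [this]
    module

/-- The reflection in a nonsingular vector. -/
def rfx (u : Fin (2 * n + 3 + 1) → K) : GL (Fin (2 * n + 3 + 1)) K :=
  moncMk (moncR u) (moncR u) (moncR_sq u)

theorem rfx_app (u v : Fin (2 * n + 3 + 1) → K) : (rfx u).1 *ᵥ v = v - (bo v u / qo u) • u :=
  moncMk_apply _ _ _ _

theorem rfx_apply {u : Fin (2 * n + 3 + 1) → K} (h : qo u ≠ 0) (v : Fin (2 * n + 3 + 1) → K) :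
    (rfx u).1 *ᵥ v = v - (bo v u / qo u) • u :=
  (fun _ => rfx_app u v) h

theorem rfx_sq (u : Fin (2 * n + 3 + 1) → K) : rfx u * rfx u = 1 := monc_ext fun v => by
  rw [monc_mul, Units.val_one, one_mulVec, rfx_app u v, rfx_app]
  exact moncR_sq u v

theorem rfx_inv (u : Fin (2 * n + 3 + 1) → K) : (rfx u)⁻¹ = rfx u :=
  inv_eq_of_mul_eq_one_right (rfx_sq u)

theorem rfx_iso (u v : Fin (2 * n + 3 + 1) → K) : qo ((rfx u).1 *ᵥ v) = qo v := by
  rw [rfx_app, qo_sub, qo_smul, bo_smul']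
  by_cases h : qo u = 0
  · simp [h]
  · field_simp
    ring

theorem rfx_smul {c : K} (h : c ≠ 0) (u : Fin (2 * n + 3 + 1) → K) : rfx (c • u) = rfx u :=
  monc_ext fun v => by
    rw [rfx_app, rfx_app, qo_smul, bo_smul', smul_smul]
    congr 2
    by_cases h : qo u = 0
    · simp [h]
    · field_simp

theorem iso_bo {g : GL (Fin (2 * n + 3 + 1)) K} (iso : ∀ v, qo (g.1 *ᵥ v) = qo v)
    (u v : Fin (2 * n + 3 + 1) → K) : bo (g.1 *ᵥ u) (g.1 *ᵥ v) = bo u v := by
  have h := iso (u + v)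
  rw [mulVec_add, qo_add, qo_add, iso, iso] at h
  linear_combination h

theorem rfx_conj {g : GL (Fin (2 * n + 3 + 1)) K} (iso : ∀ v, qo (g.1 *ᵥ v) = qo v)
    (u : Fin (2 * n + 3 + 1) → K) : g * rfx u * g⁻¹ = rfx (g.1 *ᵥ u) := by
  rw [mul_inv_eq_iff_eq_mul]
  refine monc_ext fun v => ?_
  rw [monc_mul, monc_mul, rfx_app, rfx_app, iso, iso_bo iso, mulVec_sub, mulVec_smul]

/-- The Eichler transformation as a linear map. -/
def moncE (i : Fin (2 * n + 3 + 1)) (w : Fin (2 * n + 3 + 1) → K) :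
    (Fin (2 * n + 3 + 1) → K) →ₗ[K] (Fin (2 * n + 3 + 1) → K) where
  toFun v := v + (bo v w - qo w * v i.rev) • Pi.single i 1 - v i.rev • w
  map_add' v v' := by rw [bo_add, Pi.add_apply]; module
  map_smul' c v := by rw [bo_smul, Pi.smul_apply, RingHom.id_apply, smul_eq_mul]; module

theorem moncE_add {i : Fin (2 * n + 3 + 1)} {w w' : Fin (2 * n + 3 + 1) → K} (h' : w i.rev = 0)
    (k' : w' i.rev = 0) (v : Fin (2 * n + 3 + 1) → K) :
    moncE i w (moncE i w' v) = moncE i (w + w') v := by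
  have e : (moncE i w' v) i.rev = v i.rev := by
    show (v + (bo v w' - qo w' * v i.rev) • Pi.single i 1 - v i.rev • w' : _ → K) i.rev = _
    simp [k', Pi.single_eq_of_ne (monc_ne i).symm]
  have e' : bo (moncE i w' v) w = bo v w - v i.rev * bo w w' := by
    show bo (v + (bo v w' - qo w' * v i.rev) • Pi.single i 1 - v i.rev • w') w = _
    rw [bo_sub, bo_add, bo_smul, bo_smul, bo_single, h', bo_comm w' w]
    ring
  show moncE i w' v + (bo (moncE i w' v) w - qo w * (moncE i w' v) i.rev) • Pi.single i 1 -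
    (moncE i w' v) i.rev • w = _
  rw [e, e']
  show v + (bo v w' - qo w' * v i.rev) • Pi.single i 1 - v i.rev • w' + _ - _ =
    v + (bo v (w + w') - qo (w + w') * v i.rev) • Pi.single i 1 - v i.rev • (w + w')
  rw [bo_add', qo_add]
  module

theorem moncE_zero (i : Fin (2 * n + 3 + 1)) (v : Fin (2 * n + 3 + 1) → K) : moncE i 0 v = v := by
  show v + (bo v 0 - qo (0 : Fin (2 * n + 3 + 1) → K) * v i.rev) • Pi.single i 1 - v i.rev • 0 = v
  simp [bo, qo_zero]

/-- Removal of the components at `i` and `i.rev`. -/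
def moncT (i : Fin (2 * n + 3 + 1)) (w : Fin (2 * n + 3 + 1) → K) : Fin (2 * n + 3 + 1) → K :=
  fun j => if j = i ∨ j = i.rev then 0 else w j

theorem moncT_eq {i : Fin (2 * n + 3 + 1)} {w : Fin (2 * n + 3 + 1) → K} (h : w i = 0)
    (h' : w i.rev = 0) : moncT i w = w := by
  funext j
  unfold moncT
  split_ifs with c
  · rcases c with rfl | rfl
    exacts [h.symm, h'.symm]
  · rfl

/-- The Eichler transformation for the basis vector `i` and a vector `w` without components at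
`i` and `i.rev`. -/
def eic (i : Fin (2 * n + 3 + 1)) (w : Fin (2 * n + 3 + 1) → K) : GL (Fin (2 * n + 3 + 1)) K :=
  moncMk (moncE i (moncT i w)) (moncE i (-moncT i w)) fun v => by
    rw [moncE_add (by simp [moncT]) (by simp [moncT]), add_neg_cancel, moncE_zero]

theorem eic_app {i : Fin (2 * n + 3 + 1)} {w : Fin (2 * n + 3 + 1) → K} (h : w i = 0)
    (h' : w i.rev = 0) (v : Fin (2 * n + 3 + 1) → K) : (eic i w).1 *ᵥ v = moncE i w v := by
  rw [eic, moncMk_apply, moncT_eq h h']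

theorem eic_apply {i : Fin (2 * n + 3 + 1)} {w : Fin (2 * n + 3 + 1) → K} (h : w i = 0)
    (h' : w i.rev = 0) (v : Fin (2 * n + 3 + 1) → K) : (eic i w).1 *ᵥ v =
      v + (bo v w - qo w * v i.rev) • Pi.single i 1 - v i.rev • w :=
  eic_app h h' v

theorem eic_add {i : Fin (2 * n + 3 + 1)} {w w' : Fin (2 * n + 3 + 1) → K} (h : w i = 0)
    (h' : w i.rev = 0) (k : w' i = 0) (k' : w' i.rev = 0) : eic i (w + w') = eic i w * eic i w' :=
  monc_ext fun v => by
    rw [monc_mul, eic_app h h', eic_app k k', eic_app (by simp [h, k]) (by simp [h', k']),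
      moncE_add h' k']

theorem eic_zero (i : Fin (2 * n + 3 + 1)) : eic i (0 : Fin (2 * n + 3 + 1) → K) = 1 :=
  monc_ext fun v => by rw [eic_app rfl rfl, moncE_zero, Units.val_one, one_mulVec]

theorem eic_neg {i : Fin (2 * n + 3 + 1)} {w : Fin (2 * n + 3 + 1) → K} (h : w i = 0)
    (h' : w i.rev = 0) : eic i (-w) = (eic i w)⁻¹ := by
  refine (inv_eq_of_mul_eq_one_right ?_).symm
  rw [← eic_add h h' (by simp [h]) (by simp [h']), add_neg_cancel, eic_zero]

theorem eic_iso {i : Fin (2 * n + 3 + 1)} {w : Fin (2 * n + 3 + 1) → K} (h : w i = 0)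
    (h' : w i.rev = 0) (v : Fin (2 * n + 3 + 1) → K) : qo ((eic i w).1 *ᵥ v) = qo v := by
  rw [eic_apply h h', qo_sub, qo_add, qo_smul, qo_smul, qo_single, bo_smul', bo_smul', bo_single',
    bo_add, bo_smul, bo_single, h']
  ring

theorem monc_el {i j : Fin (2 * n + 3 + 1)} (h : i ≠ j) (s : K) (v : Fin (2 * n + 3 + 1) → K) :
    (el i j s).1 *ᵥ v = v + (s * v j) • Pi.single i 1 := by
  rw [el_val h, add_mulVec, one_mulVec, single_mulVec]
  congr 1
  funext k
  by_cases c : k = i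
  · subst c; simp
  · simp [c]

theorem eic_single {i j : Fin (2 * n + 3 + 1)} (h : i ≠ j) (h' : j ≠ i.rev) (s : K) :
    eic i (Pi.single j.rev s) = eo i j s := by
  have a : i ≠ j.rev := fun c => h' (by rw [c, Fin.rev_rev])
  have b : i.rev ≠ j.rev := fun c => h (Fin.rev_injective c)
  refine monc_ext fun v => ?_
  rw [eic_apply (Pi.single_eq_of_ne a _) (Pi.single_eq_of_ne b _), eo, monc_mul, monc_el h,
    monc_el b.symm, bo_single', qo_single, Fin.rev_rev]
  have e : (Pi.single j.rev s : _ → K) = s • Pi.single j.rev 1 := by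
    rw [← Pi.single_smul', smul_eq_mul, mul_one]
  rw [e]
  simp only [Pi.add_apply, Pi.smul_apply, Pi.single_eq_of_ne (monc_ne j), smul_zero, add_zero]
  module

theorem monc_one (i : Fin (2 * n + 3 + 1)) (s : K) :
    (Pi.single i s : Fin (2 * n + 3 + 1) → K) = s • Pi.single i 1 := by
  rw [← Pi.single_smul', smul_eq_mul, mul_one]

theorem eic_perp {g : GL (Fin (2 * n + 3 + 1)) K} (iso : ∀ v, qo (g.1 *ᵥ v) = qo v)
    {i j : Fin (2 * n + 3 + 1)} {l : K} (h1 : g.1 *ᵥ Pi.single i 1 = Pi.single j l)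
    (v : Fin (2 * n + 3 + 1) → K) : l * (g.1 *ᵥ v) j.rev = v i.rev := by
  have := iso_bo iso (Pi.single i 1) v
  rwa [h1, bo_single, bo_single, one_mul] at this

theorem eic_perp0 {g : GL (Fin (2 * n + 3 + 1)) K} (iso : ∀ v, qo (g.1 *ᵥ v) = qo v)
    {i j : Fin (2 * n + 3 + 1)} {l : K} (l0 : l ≠ 0) (h1 : g.1 *ᵥ Pi.single i 1 = Pi.single j l)
    (h2 : g.1 *ᵥ Pi.single i.rev 1 = Pi.single j.rev l⁻¹) {w : Fin (2 * n + 3 + 1) → K}
    (h : w i = 0) (h' : w i.rev = 0) : (l • g.1 *ᵥ w) j = 0 ∧ (l • g.1 *ᵥ w) j.rev = 0 := by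
  have a := eic_perp iso h1 w
  have b := eic_perp iso h2 w
  rw [Fin.rev_rev, Fin.rev_rev, h, mul_eq_zero] at b
  refine ⟨?_, by rw [Pi.smul_apply, smul_eq_mul, a, h']⟩
  rw [Pi.smul_apply, b.resolve_left (inv_ne_zero l0), smul_zero]

/-- Conjugation by an isometry that maps the plane of `i` to the plane of `j`. -/
theorem eic_conj {g : GL (Fin (2 * n + 3 + 1)) K} (iso : ∀ v, qo (g.1 *ᵥ v) = qo v)
    {i j : Fin (2 * n + 3 + 1)} {l : K} (l0 : l ≠ 0) (h1 : g.1 *ᵥ Pi.single i 1 = Pi.single j l)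
    (h2 : g.1 *ᵥ Pi.single i.rev 1 = Pi.single j.rev l⁻¹) {w : Fin (2 * n + 3 + 1) → K}
    (h : w i = 0) (h' : w i.rev = 0) : g * eic i w * g⁻¹ = eic j (l • g.1 *ᵥ w) := by
  obtain ⟨a, b⟩ := eic_perp0 iso l0 h1 h2 h h'
  rw [mul_inv_eq_iff_eq_mul]
  refine monc_ext fun v => ?_
  rw [monc_mul, monc_mul, eic_apply h h', eic_apply a b, mulVec_sub, mulVec_add, mulVec_smul,
    mulVec_smul, h1, bo_smul', qo_smul, iso, iso_bo iso, ← eic_perp iso h1 v, monc_one j l]
  module

/-- An Eichler transformation is a product of two reflections. -/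
theorem rfx_eic {i : Fin (2 * n + 3 + 1)} {w : Fin (2 * n + 3 + 1) → K} (h : w i = 0)
    (h' : w i.rev = 0) (q : qo w ≠ 0) (t : K) :
    rfx (w + Pi.single i t) * rfx w = eic i ((t / qo w) • w) := by
  refine monc_ext fun v => ?_
  rw [monc_mul, rfx_app w, rfx_app, eic_apply (by simp [h]) (by simp [h']), qo_add, qo_single,
    bo_single', h', bo_add', bo_single', bo_sub, bo_smul, bo_self, bo_smul', qo_smul, monc_one i t]
  simp only [Pi.sub_apply, Pi.smul_apply, h', smul_zero, sub_zero, mul_zero, add_zero]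
  match_scalars <;> field_simp <;> ring

/-- A rational structure: scalars `F`, vectors `S`, good indices `P`. -/
structure MoncFr (F : Subfield K) (S : AddSubgroup (Fin (2 * n + 3 + 1) → K))
    (P : Fin (2 * n + 3 + 1) → Prop) : Prop where
  rev : ∀ i, P i → P i.rev
  smul : ∀ c ∈ F, ∀ v ∈ S, c • v ∈ S
  one : ∀ i, P i → Pi.single i 1 ∈ S
  co : ∀ v ∈ S, ∀ i, P i → v i ∈ F
  q : ∀ v ∈ S, qo v ∈ F

/-- The group generated by the rational Eichler transformations. -/
def moncG (S : AddSubgroup (Fin (2 * n + 3 + 1) → K)) (P : Fin (2 * n + 3 + 1) → Prop) :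
    Subgroup (GL (Fin (2 * n + 3 + 1)) K) :=
  Subgroup.closure {g | ∃ i w, P i ∧ w ∈ S ∧ w i = 0 ∧ w i.rev = 0 ∧ g = eic i w}

section
variable {F : Subfield K} {S : AddSubgroup (Fin (2 * n + 3 + 1) → K)}
  {P : Fin (2 * n + 3 + 1) → Prop}

theorem moncG_eic {i : Fin (2 * n + 3 + 1)} {w : Fin (2 * n + 3 + 1) → K} (hi : P i) (r : w ∈ S)
    (h : w i = 0) (h' : w i.rev = 0) : eic i w ∈ moncG S P :=
  Subgroup.subset_closure ⟨i, w, hi, r, h, h', rfl⟩

theorem moncG_ind {p : GL (Fin (2 * n + 3 + 1)) K → Prop} (h1 : p 1)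
    (hm : ∀ g h, p g → p h → p (g * h))
    (he : ∀ i w, P i → w ∈ S → w i = 0 → w i.rev = 0 → p (eic i w))
    {g : GL (Fin (2 * n + 3 + 1)) K} (hg : g ∈ moncG S P) : p g := by
  refine Subgroup.closure_induction'' (p := fun g _ => p g) ?_ ?_ h1 (fun g h _ _ => hm g h) hg
  · rintro _ ⟨i, w, a, b, c, d, rfl⟩
    exact he i w a b c d
  · rintro _ ⟨i, w, a, b, c, d, rfl⟩
    rw [← eic_neg c d]
    exact he i _ a (S.neg_mem b) (by simp [c]) (by simp [d])

theorem moncG_iso {g : GL (Fin (2 * n + 3 + 1)) K} (hg : g ∈ moncG S P) :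
    ∀ v, qo (g.1 *ᵥ v) = qo v :=
  moncG_ind (p := fun g => ∀ v, qo (g.1 *ᵥ v) = qo v) (by simp)
    (fun g h a b v => by rw [monc_mul, a, b]) (fun _ _ _ _ c d => eic_iso c d) hg

theorem MoncFr.b (f : MoncFr F S P) {u v : Fin (2 * n + 3 + 1) → K} (hu : u ∈ S) (hv : v ∈ S) :
    bo u v ∈ F := by
  have : bo u v = qo (u + v) - qo u - qo v := by rw [qo_add]; ring
  rw [this]
  exact F.sub_mem (F.sub_mem (f.q _ (S.add_mem hu hv)) (f.q _ hu)) (f.q _ hv)

theorem MoncFr.sg (f : MoncFr F S P) {i : Fin (2 * n + 3 + 1)} (hi : P i) {c : K} (hc : c ∈ F) :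
    Pi.single i c ∈ S := by
  rw [monc_one]
  exact f.smul _ hc _ (f.one i hi)

theorem MoncFr.rat (f : MoncFr F S P) {g : GL (Fin (2 * n + 3 + 1)) K} (hg : g ∈ moncG S P) :
    ∀ v ∈ S, g.1 *ᵥ v ∈ S := by
  refine moncG_ind (p := fun g => ∀ v ∈ S, g.1 *ᵥ v ∈ S) (by simp)
    (fun g h a b v hv => by rw [monc_mul]; exact a _ (b _ hv)) (fun i w a b c d v hv => ?_) hg
  have e := f.co v hv _ (f.rev i a)
  rw [eic_apply c d]
  exact S.sub_mem (S.add_mem hv (f.smul _ (F.sub_mem (f.b hv b) (F.mul_mem (f.q _ b) e)) _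
    (f.one i a))) (f.smul _ e _ b)

theorem MoncFr.rfx (f : MoncFr F S P) {u : Fin (2 * n + 3 + 1) → K} (hu : u ∈ S) :
    ∀ v ∈ S, (rfx u).1 *ᵥ v ∈ S := fun v hv => by
  rw [rfx_app]
  exact S.sub_mem hv (f.smul _ (F.div_mem (f.b hv hu) (f.q _ hu)) _ hu)

/-- Isometries that permute the good planes normalise the group. -/
theorem MoncFr.norm (f : MoncFr F S P) {g : GL (Fin (2 * n + 3 + 1)) K}
    (iso : ∀ v, qo (g.1 *ᵥ v) = qo v) (r : ∀ v ∈ S, g.1 *ᵥ v ∈ S)
    (m : ∀ i, P i → ∃ j l, P j ∧ l ∈ F ∧ l ≠ 0 ∧ g.1 *ᵥ Pi.single i 1 = Pi.single j l ∧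
      g.1 *ᵥ Pi.single i.rev 1 = Pi.single j.rev l⁻¹) {x : GL (Fin (2 * n + 3 + 1)) K}
    (hx : x ∈ moncG S P) : g * x * g⁻¹ ∈ moncG S P := by
  refine moncG_ind (p := fun x => g * x * g⁻¹ ∈ moncG S P) (by simp)
    (fun x y a b => ?_) (fun i w a b c d => ?_) hx
  · have := mul_mem a b
    rwa [show g * x * g⁻¹ * (g * y * g⁻¹) = g * (x * y) * g⁻¹ by group] at this
  · obtain ⟨j, l, pj, lF, l0, h1, h2⟩ := m i a
    obtain ⟨k, k'⟩ := eic_perp0 iso l0 h1 h2 c d
    rw [eic_conj iso l0 h1 h2 c d]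
    exact moncG_eic pj (f.smul _ lF _ (r _ b)) k k'

theorem MoncFr.gen (f : MoncFr F S P) {H : Subgroup (GL (Fin (2 * n + 3 + 1)) K)}
    {i : Fin (2 * n + 3 + 1)} (hi : P i)
    (h : ∀ w ∈ S, w i = 0 → w i.rev = 0 → eic i w ∈ H ∧ eic i.rev w ∈ H) : moncG S P ≤ H := by
  refine (Subgroup.closure_le _).2 ?_
  rintro _ ⟨j, w, pj, r, c, d, rfl⟩
  by_cases a : j = i
  · subst a; exact (h w r c d).1
  by_cases b : j = i.rev
  · subst b; exact (h w r (by simpa using d) c).2
  have a1 : i ≠ j := Ne.symm a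
  have b1 : i.rev ≠ j := Ne.symm b
  have a2 : i.rev ≠ j.rev := fun e => a1 (Fin.rev_injective e)
  have b2 : i ≠ j.rev := fun e => b (by rw [e, Fin.rev_rev])
  have p1 : (Pi.single j.rev 1 : _ → K) i = 0 := Pi.single_eq_of_ne b2 _
  have p2 : (Pi.single j.rev 1 : _ → K) i.rev = 0 := Pi.single_eq_of_ne a2 _
  have p3 : (Pi.single j 1 : _ → K) i.rev = 0 := Pi.single_eq_of_ne b1 _
  have p4 : (Pi.single j 1 : _ → K) i = 0 := Pi.single_eq_of_ne a1 _
  have p5 : (Pi.single j 1 : _ → K) i.rev.rev = 0 := by rwa [Fin.rev_rev]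
  obtain ⟨g, hg⟩ : ∃ g, g = eic i (Pi.single j.rev (1 : K)) * eic i.rev (Pi.single j 1) *
    eic i (Pi.single j.rev 1) := ⟨_, rfl⟩
  have s1 := f.one _ (f.rev j pj)
  have s2 := f.one _ pj
  have gH : g ∈ H := hg ▸ mul_mem (mul_mem (h _ s1 p1 p2).1 (h _ s2 p4 p3).2) (h _ s1 p1 p2).1
  have gG : g ∈ moncG S P := hg ▸ mul_mem (mul_mem (moncG_eic hi s1 p1 p2)
    (moncG_eic (f.rev i hi) s2 p3 p5)) (moncG_eic hi s1 p1 p2)
  have e1 : ∀ v, (eic i (Pi.single j.rev (1 : K))).1 *ᵥ v =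
      v + v j • Pi.single i 1 - v i.rev • Pi.single j.rev 1 := fun v => by
    rw [eic_apply p1 p2, bo_single', qo_single]; simp only [Fin.rev_rev, one_mul, zero_mul, sub_zero]
  have e2 : ∀ v, (eic i.rev (Pi.single j (1 : K))).1 *ᵥ v =
      v + v j.rev • Pi.single i.rev 1 - v i • Pi.single j 1 := fun v => by
    rw [eic_apply p3 p5, bo_single', qo_single]; simp only [one_mul, Fin.rev_rev, zero_mul, sub_zero]
  have h1 : g.1 *ᵥ Pi.single j 1 = Pi.single i 1 := by
    rw [hg, monc_mul, monc_mul, e1, e2, e1]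
    simp [a, a1, b1, b2.symm, (monc_ne _).symm]
  have h2 : g.1 *ᵥ Pi.single j.rev 1 = Pi.single i.rev 1⁻¹ := by
    rw [hg, monc_mul, monc_mul, e1, e2, e1]
    simp [b, a2, b2, monc_ne]
  have iso := moncG_iso gG
  obtain ⟨k, k'⟩ := eic_perp0 iso one_ne_zero h1 h2 c d
  have := (h _ (f.smul _ F.one_mem _ (f.rat gG w r)) k k').1
  rw [← eic_conj iso one_ne_zero h1 h2 c d] at this
  exact (H.mul_mem_cancel_left gH).1 ((H.mul_mem_cancel_right (H.inv_mem gH)).1 this)

/-- All rational reflections of a given norm lie in one coset. -/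
theorem MoncFr.cos (f : MoncFr F S P) {i j : Fin (2 * n + 3 + 1)} (hi : P i) (hj : P j) (a1 : j ≠ i)
    (a2 : j ≠ i.rev) {u : Fin (2 * n + 3 + 1) → K} (hu : u ∈ S) {a : K} (q : a ≠ 0) (e : qo u = a) :
    H75.rfx (Pi.single i 1 + Pi.single i.rev a) * H75.rfx u ∈ moncG S P := by
  have aF : a ∈ F := e ▸ f.q u hu
  obtain ⟨z, hz⟩ : ∃ z : Fin (2 * n + 3 + 1) → K, z = Pi.single i 1 + Pi.single i.rev a := ⟨_, rfl⟩
  rw [← hz]
  have ii := monc_ne i
  have zS : z ∈ S := hz ▸ S.add_mem (f.one i hi) (f.sg (f.rev i hi) aF)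
  have zq : qo z = a := by rw [hz, qo_add, qo_single, qo_single, bo_single]; simp
  have nm : ∀ x ∈ moncG S P, H75.rfx z * x * (H75.rfx z)⁻¹ ∈ moncG S P := fun x hx => by
    refine f.norm (rfx_iso z) (f.rfx zS) (fun k hk => ?_) hx
    have r1 : (H75.rfx z).1 *ᵥ Pi.single i 1 = Pi.single i.rev (-a) := by
      rw [rfx_app, zq, bo_single, hz, monc_one i.rev a, monc_one i.rev (-a)]
      simp only [Pi.add_apply, Pi.smul_apply, Pi.single_eq_same, Pi.single_eq_of_ne ii.symm]
      match_scalars <;> field_simp <;> ring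
    have r2 : (H75.rfx z).1 *ᵥ Pi.single i.rev 1 = Pi.single i (-a)⁻¹ := by
      rw [rfx_app, zq, bo_single, hz, monc_one i.rev a, monc_one i (-a)⁻¹, Fin.rev_rev]
      simp only [Pi.add_apply, Pi.smul_apply, Pi.single_eq_same, Pi.single_eq_of_ne ii]
      match_scalars <;> field_simp <;> ring
    have r3 : ∀ k, k ≠ i → k ≠ i.rev → (H75.rfx z).1 *ᵥ Pi.single k 1 = Pi.single k 1 :=
      fun k c d => by
        have c' : k.rev ≠ i.rev := fun e => c (Fin.rev_injective e)
        have d' : k.rev ≠ i := fun e => d (by rw [← e, Fin.rev_rev])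
        rw [rfx_app, bo_single, hz]
        simp [c', d']
    by_cases c : k = i
    · subst c
      exact ⟨_, -a, f.rev _ hi, F.neg_mem aF, neg_ne_zero.2 q, r1, by rw [r2, Fin.rev_rev]⟩
    by_cases d : k = i.rev
    · subst d
      exact ⟨_, (-a)⁻¹, hi, F.inv_mem (F.neg_mem aF), inv_ne_zero (neg_ne_zero.2 q), r2,
        by rw [Fin.rev_rev, r1, inv_inv]⟩
    exact ⟨k, 1, hk, F.one_mem, one_ne_zero, r3 k c d, by
      rw [inv_one]
      exact r3 _ (fun e => d (by rw [← e, Fin.rev_rev])) fun e => c (Fin.rev_injective e)⟩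
  have mv : ∀ g ∈ moncG S P, ∀ v, H75.rfx z * H75.rfx (g.1 *ᵥ v) ∈ moncG S P →
      H75.rfx z * H75.rfx v ∈ moncG S P := fun g hg v h => by
    rw [← rfx_conj (moncG_iso hg)] at h
    have := mul_mem (mul_mem (inv_mem (nm g hg)) h) hg
    rwa [show (H75.rfx z * g * (H75.rfx z)⁻¹)⁻¹ * (H75.rfx z * (g * H75.rfx v * g⁻¹)) * g =
      H75.rfx z * H75.rfx v by group] at this
  have cA : ∀ v ∈ S, qo v = a → v i = 1 → H75.rfx z * H75.rfx v ∈ moncG S P := fun v hv e c => by
    obtain ⟨w, hw⟩ : ∃ w, w = v - Pi.single i 1 - Pi.single i.rev (v i.rev) := ⟨_, rfl⟩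
    have wS : w ∈ S := hw ▸ S.sub_mem (S.sub_mem hv (f.one i hi))
      (f.sg (f.rev i hi) (f.co v hv _ (f.rev i hi)))
    have w1 : w i.rev = 0 := by simp [hw, ii.symm]
    have w2 : w i.rev.rev = 0 := by simp [hw, ii, c]
    have hg := moncG_eic (f.rev i hi) wS w1 w2
    refine mv _ hg v ?_
    have iso := moncG_iso hg v
    obtain ⟨t, ht⟩ : ∃ t, (eic i.rev w).1 *ᵥ v = Pi.single i 1 + Pi.single i.rev t := by
      refine ⟨v i.rev + (bo v w - qo w * v i.rev.rev), ?_⟩
      rw [eic_apply w1 w2]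
      generalize bo v w - qo w * v i.rev.rev = y
      rw [Fin.rev_rev, c, hw, monc_one i.rev (v i.rev), monc_one i.rev (v i.rev + y)]
      module
    rw [ht, e, qo_add, qo_single, qo_single, bo_single] at iso
    rw [ht, show t = a by simpa using iso, ← hz, rfx_sq]
    exact one_mem _
  have cC : ∀ v ∈ S, qo v = a → ∀ k, P k → k ≠ i → k ≠ i.rev → v k ≠ 0 →
      H75.rfx z * H75.rfx v ∈ moncG S P := fun v hv e k hk c d k0 => by
    have w1 : (Pi.single k.rev ((1 - v i) / v k) : _ → K) i = 0 :=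
      Pi.single_eq_of_ne (fun e => d (by rw [e, Fin.rev_rev])) _
    have w2 : (Pi.single k.rev ((1 - v i) / v k) : _ → K) i.rev = 0 :=
      Pi.single_eq_of_ne (fun e => c (Fin.rev_injective e).symm) _
    have hg := moncG_eic hi (f.sg (f.rev k hk)
      (F.div_mem (F.sub_mem F.one_mem (f.co v hv i hi)) (f.co v hv k hk))) w1 w2
    refine mv _ hg v (cA _ (f.rat hg v hv) (by rw [moncG_iso hg, e]) ?_)
    rw [eic_apply w1 w2, bo_single', qo_single, Fin.rev_rev]
    simp only [Pi.add_apply, Pi.sub_apply, Pi.smul_apply, w1, Pi.single_eq_same, smul_eq_mul]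
    field_simp
    ring
  by_cases c : u j = 0
  swap
  · exact cC u hu e j hj a1 a2 c
  have w1 : (Pi.single j 1 : _ → K) i = 0 := Pi.single_eq_of_ne a1.symm _
  have w2 : (Pi.single j 1 : _ → K) i.rev = 0 := Pi.single_eq_of_ne a2.symm _
  have w3 : (Pi.single j 1 : _ → K) i.rev.rev = 0 := by rwa [Fin.rev_rev]
  by_cases c1 : u i.rev = 0
  swap
  · have hg := moncG_eic hi (f.one j hj) w1 w2
    refine mv _ hg u (cC _ (f.rat hg u hu) (by rw [moncG_iso hg, e]) j hj a1 a2 ?_)
    rw [eic_apply w1 w2]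
    simpa [a1, c] using c1
  by_cases c2 : u i = 0
  swap
  · have hg := moncG_eic (f.rev i hi) (f.one j hj) w2 w3
    refine mv _ hg u (cC _ (f.rat hg u hu) (by rw [moncG_iso hg, e]) j hj a1 a2 ?_)
    rw [eic_apply w2 w3]
    simpa [a2, c] using c2
  have h1 := cA (u + Pi.single i 1) (S.add_mem hu (f.one i hi))
    (by rw [qo_add, qo_single, bo_single', c1, e]; simp) (by simp [c2])
  have h2 := moncG_eic hi (f.smul _ (F.div_mem F.one_mem (f.q u hu)) _ hu) (by simp [c2])
    (by simp [c1])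
  rw [← rfx_eic c2 c1 (e ▸ q)] at h2
  have := mul_mem h1 h2
  rwa [mul_assoc, ← mul_assoc (H75.rfx (u + _)), rfx_sq, one_mul] at this

theorem MoncFr.mem (f : MoncFr F S P) {i j : Fin (2 * n + 3 + 1)} (hi : P i) (hj : P j) (a1 : j ≠ i)
    (a2 : j ≠ i.rev) {u v : Fin (2 * n + 3 + 1) → K} (hu : u ∈ S) (hv : v ∈ S) (h : qo u ≠ 0)
    {k : K} (k0 : k ≠ 0) (hk : k ∈ F) (e : qo v = k ^ 2 * qo u) :
    H75.rfx u * H75.rfx v ∈ moncG S P := by
  have h1 := f.cos hi hj a1 a2 hu h rfl
  have h2 := f.cos hi hj a1 a2 (f.smul _ (F.inv_mem hk) _ hv) h (by rw [qo_smul, e]; field_simp)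
  rw [rfx_smul (inv_ne_zero k0)] at h2
  have := mul_mem (inv_mem h1) h2
  rwa [_root_.mul_inv_rev, rfx_inv u, mul_assoc, inv_mul_cancel_left] at this

end

theorem monc_sumE {G : Subgroup (GL (Fin (2 * n + 3 + 1)) K)} {i : Fin (2 * n + 3 + 1)}
    {J : Type} (s : Finset J) (w : J → Fin (2 * n + 3 + 1) → K)
    (h : ∀ j ∈ s, w j i = 0 ∧ w j i.rev = 0 ∧ eic i (w j) ∈ G) : eic i (∑ j ∈ s, w j) ∈ G := by
  refine (Finset.sum_induction w (fun x => x i = 0 ∧ x i.rev = 0 ∧ eic i x ∈ G) ?_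
    ⟨rfl, rfl, eic_zero (K := K) i ▸ one_mem _⟩ h).2.2
  rintro x y ⟨a, b, c⟩ ⟨a', b', c'⟩
  exact ⟨by simp [a, a'], by simp [b, b'], eic_add a b a' b' ▸ mul_mem c c'⟩

theorem monc_sgE {G : Subgroup (GL (Fin (2 * n + 3 + 1)) K)} {i j : Fin (2 * n + 3 + 1)} {s : K}
    (h : j = i ∨ j = i.rev → s = 0) (k : j ≠ i → j ≠ i.rev → eo i j.rev s ∈ G) :
    (Pi.single j s : _ → K) i = 0 ∧ (Pi.single j s : _ → K) i.rev = 0 ∧ eic i (Pi.single j s) ∈ G := by
  by_cases c : j = i ∨ j = i.rev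
  · rw [h c, Pi.single_zero, eic_zero]
    exact ⟨rfl, rfl, one_mem _⟩
  · rw [not_or] at c
    refine ⟨Pi.single_eq_of_ne (Ne.symm c.1) _, Pi.single_eq_of_ne (Ne.symm c.2) _, ?_⟩
    have := eic_single (i := i) (j := j.rev) (fun e => c.2 (by rw [e, Fin.rev_rev]))
      (fun e => c.1 (Fin.rev_injective e)) s
    rw [Fin.rev_rev] at this
    exact this ▸ k c.1 c.2

theorem eic_mem {i : Fin (2 * n + 3 + 1)} {w : Fin (2 * n + 3 + 1) → K} (h : w i = 0)
    (h' : w i.rev = 0) : eic i w ∈ sog _ K := by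
  rw [← Finset.univ_sum_single w]
  refine monc_sumE _ _ fun j _ => monc_sgE ?_ fun a _ => Subgroup.subset_closure
    ⟨i, j.rev, _, fun e => a (Fin.rev_injective e), rfl⟩
  rintro (rfl | rfl)
  exacts [h, h']

theorem monc_eo (i : Fin (2 * n + 3 + 1)) (s : K) : eo i i s = 1 := by simp [eo, el]

theorem monc_sog : sog (2 * n + 3) K = moncG ⊤ fun _ => True := by
  refine le_antisymm ((Subgroup.closure_le _).2 ?_) ((Subgroup.closure_le _).2 ?_)
  · rintro _ ⟨i, j, s, h, rfl⟩
    by_cases c : i = j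
    · rw [c, monc_eo]; exact one_mem _
    rw [← eic_single c h]
    exact moncG_eic trivial trivial (Pi.single_eq_of_ne (fun e => h (by rw [e, Fin.rev_rev])) _)
      (Pi.single_eq_of_ne (fun e => c (Fin.rev_injective e)) _)
  · rintro _ ⟨i, w, -, -, h, h', rfl⟩
    exact eic_mem h h'

theorem monc_fr : MoncFr (⊤ : Subfield K) (⊤ : AddSubgroup (Fin (2 * n + 3 + 1) → K)) fun _ => True :=
  ⟨fun _ _ => trivial, fun _ _ _ _ => trivial, fun _ _ => trivial, fun _ _ _ _ => trivial,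
    fun _ _ => trivial⟩

theorem mid_rev {i : Fin (2 * n + 3 + 1)} : Mid i.rev ↔ Mid i := by
  unfold Mid
  rw [Fin.rev_rev]
  exact or_comm

theorem mid_iff {i : Fin (2 * n + 3 + 1)} : Mid i ↔ (i : ℕ) = n + 1 ∨ (i : ℕ) = n + 2 := by
  have := i.2
  unfold Mid
  rw [Fin.val_rev]
  omega

theorem swm_mid {i : Fin (2 * n + 3 + 1)} (h : Mid i) : swm i = i.rev := if_pos h

theorem swm_not {i : Fin (2 * n + 3 + 1)} (h : ¬ Mid i) : swm i = i := if_neg h

/-- The rational vectors as an additive group. -/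
def moncS (φ : K →+* K) : AddSubgroup (Fin (2 * n + 3 + 1) → K) where
  carrier := {v | Rat φ v}
  add_mem' := fun {a b} h k i => by rw [Pi.add_apply, map_add, h i, k i, Pi.add_apply]
  zero_mem' := fun i => by simp
  neg_mem' := fun {a} h i => by rw [Pi.neg_apply, map_neg, h i, Pi.neg_apply]

theorem Rat.qo {v : Fin (2 * n + 3 + 1) → K} (h : Rat φ v) : φ (qo v) = qo v := by
  unfold H75.qo
  rw [map_sum]
  refine Finset.sum_congr rfl fun i _ => ?_
  split_ifs
  · rw [map_mul, h i, h i.rev]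
    by_cases c : Mid i
    · rw [swm_mid c, swm_mid (mid_rev.2 c), Fin.rev_rev, mul_comm]
    · rw [swm_not c, swm_not (mt mid_rev.1 c)]
  · exact map_zero _

theorem rat_single {i : Fin (2 * n + 3 + 1)} (hi : ¬ Mid i) {s : K} (h : φ s = s) :
    Rat φ (Pi.single i s) := fun j => by
  by_cases c : Mid j
  · have a : j ≠ i := fun e => hi (e ▸ c)
    have b : j.rev ≠ i := fun e => hi (e ▸ mid_rev.2 c)
    rw [swm_mid c, Pi.single_eq_of_ne a, Pi.single_eq_of_ne b, map_zero]
  · rw [swm_not c]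
    by_cases e : j = i
    · rw [e, Pi.single_eq_same, h]
    · rw [Pi.single_eq_of_ne e, map_zero]

theorem rat_mid (hφ : ∀ s, φ (φ s) = s) {m : Fin (2 * n + 3 + 1)} (hm : Mid m) (s : K) :
    Rat φ (Pi.single m.rev s + Pi.single m (φ s)) := fun j => by
  by_cases c : Mid j
  · rw [swm_mid c]
    by_cases e : j = m
    · subst e
      simp [monc_ne, (monc_ne _).symm, hφ]
    · have e' : j = m.rev := by
        have := mid_iff.1 c
        have := mid_iff.1 hm
        have := Fin.val_ne_iff.2 e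
        ext
        rw [Fin.val_rev]
        omega
      subst e'
      simp [monc_ne, (monc_ne _).symm]
  · have a : j ≠ m := fun e => c (e ▸ hm)
    have b : j ≠ m.rev := fun e => c (e ▸ mid_rev.2 hm)
    simp [swm_not c, a, b]

theorem monc_fr2 : MoncFr (φ.eqLocusField (RingHom.id K)) (moncS (n := n) φ) fun i => ¬ Mid i where
  rev _ h := mt mid_rev.1 h
  smul c hc v hv i := by
    rw [Pi.smul_apply, Pi.smul_apply, smul_eq_mul, map_mul, hv i, show φ c = c from hc, smul_eq_mul]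
  one _ h := rat_single h (map_one _)
  co v hv i h := (hv i).trans (by rw [swm_not h]; rfl)
  q _ h := Rat.qo h

theorem monc_eo2 {i m : Fin (2 * n + 3 + 1)} (hi : ¬ Mid i) (hm : Mid m) (s t : K) :
    (Pi.single m.rev s + Pi.single m t : _ → K) i = 0 ∧
    (Pi.single m.rev s + Pi.single m t : _ → K) i.rev = 0 ∧
    eic i (Pi.single m.rev s + Pi.single m t) = eo i m s * eo i m.rev t := by
  have a : i ≠ m := fun e => hi (e ▸ hm)
  have b : i ≠ m.rev := fun e => hi (e ▸ mid_rev.2 hm)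
  have c : i.rev ≠ m := fun e => hi (mid_rev.1 (e ▸ hm))
  have d : i.rev ≠ m.rev := fun e => a (Fin.rev_injective e)
  refine ⟨by simp [a, b], by simp [c, d], ?_⟩
  rw [eic_add (by simp [b]) (by simp [d]) (by simp [a]) (by simp [c]), eic_single a c.symm,
    ← eic_single b d.symm, Fin.rev_rev]

theorem eic_mem2 (hφ : ∀ s, φ (φ s) = s) {i : Fin (2 * n + 3 + 1)} (hi : ¬ Mid i)
    {w : Fin (2 * n + 3 + 1) → K} (h : w i = 0) (h' : w i.rev = 0) (r : Rat φ w) :
    eic i w ∈ sog2 _ φ := by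
  classical
  obtain ⟨m, hm⟩ : ∃ m : Fin (2 * n + 3 + 1), (m : ℕ) = n + 1 := ⟨⟨n + 1, by omega⟩, rfl⟩
  have mm : Mid m := mid_iff.2 (Or.inl hm)
  have key := fun _ : ∀ s, φ (φ s) = s => monc_eo2 hi mm (w m.rev) (φ (w m.rev))
  obtain ⟨a, b, c⟩ := key hφ
  have e : w = ∑ j, (if j = m then Pi.single m.rev (w m.rev) + Pi.single m (φ (w m.rev))
      else Pi.single j (if Mid j then 0 else w j) : _ → K) := by
    have e1 : φ (w m.rev) = w m := by rw [r, swm_mid (mid_rev.2 mm), Fin.rev_rev]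
    rw [← Finset.add_sum_erase _ _ (Finset.mem_univ m), if_pos rfl,
      Finset.sum_congr rfl fun j hj => if_neg (Finset.ne_of_mem_erase hj), e1]
    funext k
    rw [Pi.add_apply, Finset.sum_apply]
    simp only [Pi.single_apply, Finset.sum_ite_eq, Finset.mem_erase, Finset.mem_univ, and_true,
      Pi.add_apply]
    by_cases c1 : k = m
    · simp [c1, monc_ne]
    by_cases c2 : k = m.rev
    · simp [c2, (monc_ne _).symm, mid_rev.2 mm]
    have : ¬ Mid k := fun x => by
      have := mid_iff.1 x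
      have := Fin.val_ne_iff.2 c1
      have := Fin.val_ne_iff.2 c2
      rw [Fin.val_rev] at this
      omega
    simp [c1, c2, this]
  rw [e]
  refine monc_sumE _ _ fun j _ => ?_
  split_ifs with c1 c2
  · exact ⟨a, b, c ▸ Subgroup.subset_closure (Or.inr ⟨i, m, _, hi, mm, rfl⟩)⟩
  · rw [Pi.single_zero, eic_zero]
    exact ⟨rfl, rfl, one_mem _⟩
  · refine monc_sgE ?_ fun a _ => Subgroup.subset_closure (Or.inl
      ⟨i, j.rev, _, fun e => a (Fin.rev_injective e), hi, mt mid_rev.1 c2,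
        (r j).trans (by rw [swm_not c2]), rfl⟩)
    rintro (rfl | rfl)
    exacts [h, h']

theorem monc_sog2 (hφ : ∀ s, φ (φ s) = s) :
    sog2 (2 * n + 3) φ = moncG (moncS φ) fun i => ¬ Mid i := by
  refine le_antisymm ((Subgroup.closure_le _).2 ?_) ((Subgroup.closure_le _).2 ?_)
  · rintro _ (⟨i, j, s, h, a, b, hs, rfl⟩ | ⟨i, m, s, a, b, rfl⟩)
    · by_cases c : i = j
      · rw [c, monc_eo]; exact one_mem _
      rw [← eic_single c h]
      exact moncG_eic a (rat_single (mt mid_rev.1 b) hs)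
        (Pi.single_eq_of_ne (fun e => h (by rw [e, Fin.rev_rev])) _)
        (Pi.single_eq_of_ne (fun e => c (Fin.rev_injective e)) _)
    · obtain ⟨c, d, e⟩ := monc_eo2 a b s (φ s)
      rw [← e]
      exact moncG_eic a (rat_mid hφ b s) c d
  · rintro _ ⟨i, w, a, b, h, h', rfl⟩
    exact eic_mem2 hφ a h h' b

theorem sog_iso {g : GL (Fin (2 * n + 3 + 1)) K} (h : g ∈ sog _ K) (v : Fin (2 * n + 3 + 1) → K) :
    qo (g.1 *ᵥ v) = qo v :=
  moncG_iso (monc_sog (n := n) (K := K) ▸ h) v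

theorem sog2_iso (hφ : ∀ s, φ (φ s) = s) {g : GL (Fin (2 * n + 3 + 1)) K} (h : g ∈ sog2 _ φ)
    (v : Fin (2 * n + 3 + 1) → K) : qo (g.1 *ᵥ v) = qo v :=
  moncG_iso (monc_sog2 (n := n) hφ ▸ h) v

theorem sog2_rat (hφ : ∀ s, φ (φ s) = s) {g : GL (Fin (2 * n + 3 + 1)) K} (h : g ∈ sog2 _ φ)
    {v : Fin (2 * n + 3 + 1) → K} (r : Rat φ v) : Rat φ (g.1 *ᵥ v) :=
  monc_fr2.rat (monc_sog2 (n := n) hφ ▸ h) v r

theorem rfx_rat {u v : Fin (2 * n + 3 + 1) → K} (ru : Rat φ u) (r : Rat φ v) :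
    Rat φ ((rfx u).1 *ᵥ v) :=
  monc_fr2.rfx ru v r

/-- Products of two reflections with trivial spinor norm. -/
theorem rfx_mem {u v : Fin (2 * n + 3 + 1) → K} (h : qo u ≠ 0) {k : K} (k0 : k ≠ 0)
    (e : qo v = k ^ 2 * qo u) : rfx u * rfx v ∈ sog _ K := by
  rw [monc_sog]
  exact monc_fr.mem (i := ⟨0, by omega⟩) (j := ⟨1, by omega⟩) trivial trivial (by simp)
    (Fin.val_ne_iff.1 (by simp)) trivial trivial h k0 trivial e

theorem rfx_mem2 (hn : 1 ≤ n) (hφ : ∀ s, φ (φ s) = s) {u v : Fin (2 * n + 3 + 1) → K} (ru : Rat φ u)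
    (rv : Rat φ v) (h : qo u ≠ 0) {k : K} (k0 : k ≠ 0) (hk : φ k = k) (e : qo v = k ^ 2 * qo u) :
    rfx u * rfx v ∈ sog2 _ φ := by
  rw [monc_sog2 hφ]
  exact monc_fr2.mem (i := ⟨0, by omega⟩) (j := ⟨1, by omega⟩) (by simp [mid_iff])
    (by simp only [mid_iff]; omega) (by simp) (Fin.val_ne_iff.1 (by simp)) ru rv h k0
    hk e

/-- Two opposite unipotent radicals generate the group. -/
theorem gen_eic (hn : 1 ≤ n) {H : Subgroup (GL (Fin (2 * n + 3 + 1)) K)} {i : Fin (2 * n + 3 + 1)}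
    (h : ∀ w, w i = 0 → w i.rev = 0 → eic i w ∈ H ∧ eic i.rev w ∈ H) : sog _ K ≤ H := by
  rw [monc_sog]
  exact (fun _ => monc_fr.gen trivial fun w _ => h w) hn

theorem gen_eic2 (hn : 1 ≤ n) (hφ : ∀ s, φ (φ s) = s) {H : Subgroup (GL (Fin (2 * n + 3 + 1)) K)}
    {i : Fin (2 * n + 3 + 1)} (hi : ¬ Mid i)
    (h : ∀ w, w i = 0 → w i.rev = 0 → Rat φ w → eic i w ∈ H ∧ eic i.rev w ∈ H) : sog2 _ φ ≤ H := by
  rw [monc_sog2 hφ]
  exact (fun _ => monc_fr2.gen hi fun w r a b => h w a b r) hn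

/-- The action of a two by two matrix as on binary quadratic forms. -/
def moncP (i : Fin (2 * n + 3 + 1)) (w : Fin (2 * n + 3 + 1) → K) (a b c d : K) :
    (Fin (2 * n + 3 + 1) → K) →ₗ[K] (Fin (2 * n + 3 + 1) → K) where
  toFun v := v + ((a ^ 2 - 1) * v i + a * b * bo v w - b ^ 2 * qo w * v i.rev) • Pi.single i 1 +
    ((d ^ 2 - 1) * v i.rev - (c ^ 2 * v i + c * d * bo v w) / qo w) • Pi.single i.rev 1 +
    ((a * c * v i + b * c * bo v w) / qo w - b * d * v i.rev) • w
  map_add' v v' := by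
    rw [bo_add, Pi.add_apply, Pi.add_apply]
    match_scalars <;> ring
  map_smul' c v := by
    rw [bo_smul, Pi.smul_apply, Pi.smul_apply, RingHom.id_apply, smul_eq_mul, smul_eq_mul]
    match_scalars <;> ring

theorem moncP_app (i : Fin (2 * n + 3 + 1)) (w : Fin (2 * n + 3 + 1) → K) (a b c d : K)
    (v : Fin (2 * n + 3 + 1) → K) : moncP i w a b c d v =
    v + ((a ^ 2 - 1) * v i + a * b * bo v w - b ^ 2 * qo w * v i.rev) • Pi.single i 1 +
    ((d ^ 2 - 1) * v i.rev - (c ^ 2 * v i + c * d * bo v w) / qo w) • Pi.single i.rev 1 +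
    ((a * c * v i + b * c * bo v w) / qo w - b * d * v i.rev) • w := rfl

theorem moncP_mul {i : Fin (2 * n + 3 + 1)} {w : Fin (2 * n + 3 + 1) → K} (h : w i = 0)
    (h' : w i.rev = 0) (q : qo w ≠ 0) (a b c d : K) {a' b' c' d' : K} (e : a' * d' - b' * c' = 1)
    (v : Fin (2 * n + 3 + 1) → K) : moncP i w a b c d (moncP i w a' b' c' d' v) =
      moncP i w (a * a' + b * c') (a * b' + b * d') (c * a' + d * c') (c * b' + d * d') v +
      ((a * d - b * c - 1) *
        ((a' * c' * v i + b' * c' * bo v w) / qo w - b' * d' * v i.rev) * (-1)) • w := by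
  have ii := monc_ne i
  have e1 : moncP i w a' b' c' d' v i =
      a' ^ 2 * v i + a' * b' * bo v w - b' ^ 2 * qo w * v i.rev := by
    simp only [moncP_app, Pi.add_apply, Pi.smul_apply, Pi.single_eq_same, smul_eq_mul, mul_one, ne_eq, ii, not_false_eq_true, Pi.single_eq_of_ne, mul_zero, add_zero, h]
    ring
  have e2 : moncP i w a' b' c' d' v i.rev =
      d' ^ 2 * v i.rev - (c' ^ 2 * v i + c' * d' * bo v w) / qo w := by
    simp only [moncP_app, Pi.add_apply, Pi.smul_apply, ne_eq, ii.symm, not_false_eq_true, Pi.single_eq_of_ne, smul_eq_mul, mul_zero, add_zero, Pi.single_eq_same, mul_one, h']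
    ring
  have e3 : bo (moncP i w a' b' c' d' v) w =
      bo v w + 2 * (a' * c' * v i + b' * c' * bo v w - b' * d' * qo w * v i.rev) := by
    rw [moncP_app, bo_add, bo_add, bo_add, bo_smul, bo_smul, bo_smul, bo_single, bo_single, bo_self,
      Fin.rev_rev, h, h']
    field_simp
    ring
  rw [moncP_app i w a, e1, e2, e3, moncP_app, moncP_app]
  match_scalars
  · ring
  · field_simp
    linear_combination (-(a * b * bo v w)) * e
  · field_simp
    linear_combination (c * d * bo v w) * e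
  · field_simp
    linear_combination (-(b * c * bo v w)) * e

/-- The rank one subgroup attached to a nonsingular vector. -/
theorem psi_eic {F : Type} [Field F] (ι : F →+* K) {i : Fin (2 * n + 3 + 1)}
    {w : Fin (2 * n + 3 + 1) → K} (h : w i = 0) (h' : w i.rev = 0) (q : qo w ≠ 0) :
    ∃ ψ : SL2 F →* GL (Fin (2 * n + 3 + 1)) K, (∀ s, ψ (mx s) = eic i (ι s • w)) ∧
      ∀ s, ψ (mz s) = eic i.rev ((ι s / qo w) • w) := by
  have dt : ∀ A : SL2 F, ι (A.1 0 0) * ι (A.1 1 1) - ι (A.1 0 1) * ι (A.1 1 0) = 1 := fun A => by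
    have := A.2
    rw [det_fin_two] at this
    rw [← map_mul, ← map_mul, ← map_sub, this, map_one]
  let p : SL2 F →* Matrix (Fin (2 * n + 3 + 1)) (Fin (2 * n + 3 + 1)) K :=
    { toFun := fun A => LinearMap.toMatrix'
        (moncP i w (ι (A.1 0 0)) (ι (A.1 0 1)) (ι (A.1 1 0)) (ι (A.1 1 1)))
      map_one' := by
        rw [← LinearMap.toMatrix'_id]
        congr 1
        refine LinearMap.ext fun v => ?_
        simp only [Fin.isValue, Matrix.SpecialLinearGroup.coe_one, one_apply_eq, map_one, ne_eq, zero_ne_one, not_false_eq_true, one_apply_ne, map_zero, one_ne_zero, moncP_app, one_pow, sub_self, zero_mul, mul_zero, add_zero, OfNat.ofNat_ne_zero, zero_pow, zero_smul, mul_one, zero_div, LinearMap.id_coe, id_eq]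
      map_mul' := fun A B => by
        rw [← LinearMap.toMatrix'_comp]
        congr 1
        refine LinearMap.ext fun v => ?_
        rw [LinearMap.comp_apply, moncP_mul h h' q _ _ _ _ (dt B), dt A]
        simp only [Fin.isValue, Matrix.SpecialLinearGroup.coe_mul, Matrix.mul_apply, Fin.sum_univ_two, map_add, map_mul, sub_self, zero_mul, mul_neg, mul_one, neg_zero, zero_smul, add_zero] }
  have hp : ∀ A v, (p.toHomUnits A).1 *ᵥ v =
      moncP i w (ι (A.1 0 0)) (ι (A.1 0 1)) (ι (A.1 1 0)) (ι (A.1 1 1)) v := fun A v =>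
    LinearMap.toMatrix'_mulVec _ v
  refine ⟨p.toHomUnits, fun s => monc_ext fun v => ?_, fun s => monc_ext fun v => ?_⟩
  · rw [hp, eic_apply (by simp [h]) (by simp [h']), moncP_app, bo_smul', qo_smul]
    simp only [mx, of_apply, cons_val', cons_val_zero, cons_val_one, cons_val_fin_one, map_one,
      map_zero]
    match_scalars <;> ring
  · rw [hp, eic_apply (by simp [h']) (by simp [h]), moncP_app, bo_smul', qo_smul, Fin.rev_rev]
    simp only [mz, of_apply, cons_val', cons_val_zero, cons_val_one, cons_val_fin_one, map_one,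
      map_zero, map_neg]
    match_scalars <;> field_simp <;> ring

end Pool.Agent.MP_c78e8e_al.H75

end
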