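import Pool.Agent.MP_c78e8e_al.Gen
import Pool.Agent.MP_c78e8e_al.Sg.Clas
import Pool.Agent.MP_c78e8e_al.Sg.Defs
import Pool.Agent.MP_c78e8e_al.Mg.Sg_Ort
import Pool.Agent.MP_c78e8e_al.Mg.Sg_Mon

attribute [-instance] IsMulCommutative.is_comm instNoNatZeroDivisorsOfIsAddTorsionFree
  SemilinearMapClass.toAddHomClass MonTypeEquivalenceMon.monMonoid Units.instPreorder
  instCharZeroOfIsSemireal DistribMulActionSemiHomClass.toAddMonoidHomClass
  UniformSpace.toTopologicalSpace SemilatticeInf.toPartialOrder littleWedderburn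
  IdemSemiring.toSemiring BooleanRing.instIdempotentOpHMul Ring.toSemiring
  CompletePartialOrder.toPartialOrder RKHS.instFunLike FiniteField.instGrindPowIdentity
  AddCommGroup.toGrindIntModule CharP.ofCharZero NonUnitalAlgHomClass.toNonUnitalRingHomClass
  MulZeroClass.toMul CommGroup.toDivisionCommMonoid NonUnitalAlgSemiHomClass.toMulHomClass
  CommRing.toGrindCommRing NonUnitalRing.toNonUnitalNonAssocRing
  NonUnitalNonAssocSemiring.toAddCommMonoid Preorder.toLT NormedCommRing.toCommRing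
  NonUnitalRing.toNonUnitalSemiring SubsemiringClass.toSubmonoidClass
  MonoidWithZero.toSemigroupWithZero BialgHomClass.toMonoidHomClass Ring.toGrindRing
  NonUnitalNormedCommRing.toNonUnitalCommRing NormMulClass.toNoZeroDivisors
  MonoidWithZero.toMulZeroOneClass NeZero.charZero_one EuclideanDomain.toCommRing NormedField.toField
  SeminormedCommRing.toCommRing Std.PreorderPackage.toLE SemilatticeSup.toPartialOrder
  NonAssocCommSemiring.toNonAssocSemiring OmegaCompletePartialOrder.toPartialOrder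
  NonUnitalSeminormedCommRing.toNonUnitalCommRing NonUnitalSemiring.toNonUnitalNonAssocSemiring
  ValuationClass.toMonoidWithZeroHomClass IdemCommSemiring.toCommSemiring
  ContDiffMapSupportedInClass.toDFunLike FloorSemiring.instCharZero TestFunctionClass.toDFunLike
  Std.PreorderPackage.toLT ESeminormedAddCommMonoid.toAddCommMonoid
  LieAdmissibleRing.toNonUnitalNonAssocRing NonUnitalNonAssocCommSemiring.toNonUnitalNonAssocSemiring
  Semiring.toNonUnitalSemiring BooleanRing.toRing BooleanRing.toCommRing RCLike.charZero_rclike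
  IsStrictOrderedRing.noZeroDivisors AddCommGroup.toAddCommMonoid
  ChainCompletePartialOrder.toPartialOrder GroupWithZero.toDivisionMonoid
  GrpTypeEquivalenceGrp.grpGroup CommSemiring.toGrindCommSemiring
  CommSemiring.toNonUnitalCommSemiring
  ConditionallyCompleteLinearOrderBot.toConditionallyCompleteLinearOrder
  MulCharClass.toMonoidHomClass MonoidWithZero.toMonoid NonAssocRing.toNonUnitalNonAssocRing
  MulDistribMulActionSemiHomClass.toMonoidHomClass NumberField.to_charZero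
  GroupWithZero.toDivInvMonoid CompleteSemilatticeSup.toPartialOrder LieRing.toAddCommGroup
  Fintype.decidableForallFintype DivisionRing.toDivisionSemiring
  CompleteSemilatticeInf.toPartialOrder ConditionallyCompletePartialOrderInf.toPartialOrder
  NonAssocCommRing.toNonUnitalNonAssocCommRing Std.LinearPreorderPackage.toIsLinearPreorder
  instCoeTCOfCoe NormedRing.toRing AlgHomClass.toRingHomClass
  LinearOrderedAddCommMonoidWithTop.toAddCommMonoid Unique.instSubsingleton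
  AddCommMonoidWithOne.toAddCommMonoid AddCommGroupWithOne.toAddGroupWithOne
  CancelCommMonoid.toLeftCancelMonoid LinearOrderedCommGroupWithZero.toCommGroupWithZero
  Semiring.toGrindSemiring IsStrictOrderedRing.toCharZero GroupConeClass.toSubmonoidClass
  IsFormallyReal.instIsReduced RingEquivClass.toNonUnitalRingHomClass
  CentroidHomClass.toAddMonoidHomClass instCoeOutOfCoeFun
  ContinuousMonoidHom.instCoeOutOfMonoidHomClassOfContinuousMapClass
  RightPreLieRing.toNonUnitalNonAssocRing LeftPreLieRing.toNonUnitalNonAssocRing CommGroup.toGroup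
  NeZero.of_gt' ContinuousAddMonoidHom.instCoeOutOfAddMonoidHomClassOfContinuousMapClass
  SeminormedRing.toRing LinearOrderedAddCommGroupWithTop.toAddCommMonoid
  CompleteLattice.toConditionallyCompleteLattice CompleteLattice.toPartialOrder'
  LinearOrder.toPartialOrder NormedDivisionRing.toDivisionRing instIsLeftCancelAddOfAddLeftReflectLE
  instConditionallyCompletePartialOrderSup IsometryClass.instCoeOutIsometryEquiv CommRing.toRing
  LinearOrder.toDecidableEq AddCancelCommMonoid.toAddCommMonoid SubtractionCommMonoid.toAddCommMonoid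
  instCoeTCOfCoe_1 Ring.toNonAssocRing Invertible.toNeZero

section

namespace Pool.Agent.MP_c78e8e_al.H75.Ree

open Subgroup
open scoped commutatorElement

/-- Coordinate vectors. -/
structure V6 where
  a : ℤ
  b : ℤ
  c : ℤ
  d : ℤ
  e : ℤ
  f : ℤ
  deriving DecidableEq

namespace V6
def B (x y : V6) : ℤ :=
  x.a * (y.a + y.a - y.c) + x.b * (y.b + y.b - y.d) + x.c * (y.c + y.c - y.a - y.d) +
  x.d * (y.d + y.d - y.b - y.c - y.e) + x.e * (y.e + y.e - y.d - y.f) + x.f * (y.f + y.f - y.e)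
def add (x y : V6) : V6 := ⟨x.a + y.a, x.b + y.b, x.c + y.c, x.d + y.d, x.e + y.e, x.f + y.f⟩
def neg (x : V6) : V6 := ⟨-x.a, -x.b, -x.c, -x.d, -x.e, -x.f⟩
def sub (x : V6) (k : ℤ) (z : V6) : V6 := ⟨x.a - k * z.a, x.b - k * z.b, x.c - k * z.c,
  x.d - k * z.d, x.e - k * z.e, x.f - k * z.f⟩
def rf (z x : V6) : V6 := x.sub (x.B z) z
def dot (x y : V6) : ℕ :=
  (x.a * y.a + x.b * y.b + x.c * y.c + x.d * y.d + x.e * y.e + x.f * y.f).natAbs
theorem B_add {x y : V6} (hx : x.B x = 2) (hy : y.B y = 2) (h : x.B y = -1) :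
    (x.add y).B (x.add y) = 2 ∧ (x.add y).B y = 1 := by
  simp only [B, add] at *
  constructor
  · linear_combination hx + hy + 2 * h
  · linear_combination hy + h
theorem B_rf {x z : V6} (hx : x.B x = 2) (hz : z.B z = 2) : (z.rf x).B (z.rf x) = 2 := by
  have : (z.rf x).B (z.rf x) = x.B x - 2 * x.B z * x.B z + x.B z * x.B z * z.B z := by
    simp only [rf, sub]; generalize hk : x.B z = k; simp only [B] at hk ⊢
    linear_combination (-2 * k) * hk
  rw [this, hx, hz]; ring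
end V6

/-- Monomials. -/
structure Mo where
  a : ℕ
  b : ℕ
  c : ℕ
  d : ℕ
  e : ℕ
  f : ℕ
  deriving DecidableEq

namespace Mo
def mul (x y : Mo) : Mo := ⟨x.a + y.a, x.b + y.b, x.c + y.c, x.d + y.d, x.e + y.e, x.f + y.f⟩
def ph (x : Mo) : Mo := ⟨x.b + x.b, x.a, x.d + x.d, x.c, x.f + x.f, x.e⟩
def cd (x : Mo) : ℕ := x.a + 32 * (x.b + 32 * (x.c + 32 * (x.d + 32 * (x.e + 32 * x.f))))
end Mo

/-- Letters with a sorting key. -/
structure Lt where
  k : ℕ
  v : V6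
  m : Mo

/-- Collection: insertion of a letter. -/
def ins : ℕ → Lt → List Lt → List Lt
  | 0, l, w => l :: w
  | _ + 1, l, [] => [l]
  | n + 1, l, h :: w =>
    bif Nat.blt l.k h.k then l :: h :: w else
    bif Nat.beq l.k h.k then
      (if l.v = h.v then (if l.m = h.m then w else
        bif Nat.blt l.m.cd h.m.cd then l :: h :: w else h :: ins n l w) else l :: h :: w)
    else match l.v.B h.v with
      | .ofNat _ => h :: ins n l w
      | .negSucc 0 => h :: ins n ⟨l.k + h.k, l.v.add h.v, l.m.mul h.m⟩ (ins n l w)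
      | .negSucc (_ + 1) => l :: h :: w

/-- Words in the root elements. -/
abbrev Wd : Type := List (V6 × Mo)

def col (f : V6) : Wd → List Lt
  | [] => []
  | p :: w => ins 99 ⟨f.dot p.1, p.1, p.2⟩ (col f w)

def ok (w : Wd) : Bool := w.all fun p => p.1.B p.1 == 2

def chk (f : V6) (w w' : Wd) : Bool := ok (w ++ w'.reverse) && (col f (w ++ w'.reverse)).isEmpty

def rfw (N : List V6) (w : Wd) : Wd := w.map fun p => (N.foldr V6.rf p.1, p.2)

/-- The roots of the first eight classes. -/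
def tb : ℕ → List V6
  | 1 => [⟨1, 0, 0, 0, 0, 0⟩, ⟨0, 0, 0, 0, 0, 1⟩, ⟨0, 1, 0, 0, 0, 0⟩]
  | 2 => [⟨1, 0, 1, 0, 0, 0⟩, ⟨0, 0, 0, 0, 1, 1⟩, ⟨0, 1, 0, 1, 0, 0⟩, ⟨1, 1, 1, 1, 0, 0⟩,
    ⟨0, 1, 0, 1, 1, 1⟩, ⟨1, 1, 1, 1, 1, 1⟩]
  | 3 => [⟨0, 1, 1, 1, 1, 1⟩, ⟨1, 1, 1, 1, 1, 0⟩, ⟨1, 1, 1, 2, 1, 1⟩]
  | 4 => [⟨0, 1, 1, 1, 0, 0⟩, ⟨0, 1, 0, 1, 1, 0⟩, ⟨1, 0, 1, 1, 1, 1⟩, ⟨1, 1, 2, 2, 1, 1⟩,
    ⟨1, 1, 1, 2, 2, 1⟩, ⟨1, 2, 2, 3, 2, 1⟩]
  | 5 => [⟨1, 1, 1, 2, 1, 0⟩, ⟨0, 1, 1, 2, 1, 1⟩, ⟨1, 1, 2, 2, 2, 1⟩]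
  | 6 => [⟨1, 0, 1, 1, 0, 0⟩, ⟨0, 0, 0, 1, 1, 1⟩, ⟨0, 1, 1, 1, 1, 0⟩, ⟨1, 1, 2, 2, 1, 0⟩,
    ⟨0, 1, 1, 2, 2, 1⟩, ⟨1, 1, 2, 3, 2, 1⟩]
  | 7 => [⟨0, 0, 1, 1, 1, 1⟩, ⟨1, 0, 1, 1, 1, 0⟩, ⟨0, 1, 1, 2, 1, 0⟩]
  | _ => [⟨0, 0, 1, 0, 0, 0⟩, ⟨0, 0, 0, 0, 1, 0⟩, ⟨0, 0, 0, 1, 0, 0⟩, ⟨0, 0, 1, 1, 0, 0⟩,
    ⟨0, 0, 0, 1, 1, 0⟩, ⟨0, 0, 1, 1, 1, 0⟩]

def rt (k i : ℕ) : V6 :=
  bif Nat.ble k 8 then (tb k).getD i ⟨0, 0, 0, 0, 0, 0⟩ else ((tb (k - 8)).getD i ⟨0, 0, 0, 0, 0, 0⟩).neg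

/-- Letters of the second level. -/
inductive L2 where
  | t (k i : ℕ) (m : Mo)
  | y (k : ℕ) (m : Mo)

def L2.ex : L2 → Wd
  | .t k i m => [(rt k i, m), (rt k (i + 1), m), (rt k (i + 2), m.ph)]
  | .y k m => [(rt k 0, m), (rt k 1, m), (rt k 2, m.ph), (rt k 3, m.mul m.ph), (rt k 4, m.mul m.ph)]

def exw (w : List L2) : Wd := w.flatMap L2.ex

/-- Sorting functionals. -/
def fn : ℕ → V6
  | 1 => ⟨12, 17, 8, 13, 10, 14⟩
  | 2 => ⟨-35, -50, 47, 67, 48, -34⟩
  | 7 => ⟨-63, -89, 21, 31, 23, -62⟩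
  | _ => ⟨-42, -58, 7, 11, 8, -41⟩

def ck (j : ℕ) (w w' : List L2) : Bool := chk (fn j) (exw w) (exw w')

def cw (N : List V6) (w w' : List L2) : Bool :=
  N.all (fun v => v.B v == 2) && ok (exw w) && chk (fn 1) (rfw N (exw w)) (exw w')

/-- Root elements of type `E₆` in characteristic two. -/
structure Sys (G K : Type) [Group G] [Field K] where
  x : V6 → K → G
  add : ∀ β, β.B β = 2 → ∀ s t, x β (s + t) = x β s * x β t
  comm : ∀ β γ, β.B β = 2 → γ.B γ = 2 → 0 ≤ β.B γ → ∀ s t, Commute (x β s) (x γ t)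
  rel : ∀ β γ, β.B β = 2 → γ.B γ = 2 → β.B γ = -1 → ∀ s t, ⁅x β s, x γ t⁆ = x (β.add γ) (s * t)
  cj : ∀ β γ, β.B β = 2 → γ.B γ = 2 → ∀ s,
    (x β 1 * x β.neg 1 * x β 1) * x γ s * (x β 1 * x β.neg 1 * x β 1)⁻¹ = x (β.rf γ) s
  inj : ∀ β, β.B β = 2 → ∀ s, x β s = 1 → s = 0
  φ : K →+* K
  φφ : ∀ s, φ (φ s) = s ^ 2

namespace Sys

variable {G K : Type} [Group G] [Field K] (S : Sys G K)

include S in
theorem two (s : K) : s + s = 0 := by
  have := S.φφ (1 + 1)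
  simp only [map_add, map_one] at this
  linear_combination (-s) * this

theorem x0 {β : V6} (h : β.B β = 2) : S.x β 0 = 1 := by simpa using S.add β h 0 0

theorem sq {β : V6} (h : β.B β = 2) (s : K) : S.x β s * S.x β s = 1 := by
  rw [← S.add β h, S.two, S.x0 h]

/-- Values of monomials. -/
def mo (u s t : K) (m : Mo) : K :=
  u ^ m.a * S.φ u ^ m.b * s ^ m.c * S.φ s ^ m.d * t ^ m.e * S.φ t ^ m.f

variable (u s t : K)

theorem mo_mul (m m' : Mo) : S.mo u s t (m.mul m') = S.mo u s t m * S.mo u s t m' := by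
  simp only [mo, Mo.mul]; ring

theorem mo_ph (m : Mo) : S.mo u s t m.ph = S.φ (S.mo u s t m) := by
  simp only [mo, Mo.ph, map_mul, map_pow, S.φφ]; ring

def evl (w : List Lt) : G := (w.map fun l => S.x l.v (S.mo u s t l.m)).prod

def ev (w : Wd) : G := (w.map fun p => S.x p.1 (S.mo u s t p.2)).prod

theorem ins_snd : ∀ (n : ℕ) (l : Lt) (w : List Lt), l.v.B l.v = 2 → (∀ h ∈ w, h.v.B h.v = 2) →
    (∀ h ∈ ins n l w, h.v.B h.v = 2) ∧
      S.evl u s t (ins n l w) = S.x l.v (S.mo u s t l.m) * S.evl u s t w := by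
  intro n
  induction n with
  | zero => exact fun l w hl hw => ⟨List.forall_mem_cons.2 ⟨hl, hw⟩, rfl⟩
  | succ n ih =>
    rintro l (_ | ⟨h, w⟩) hl hw
    · exact ⟨List.forall_mem_cons.2 ⟨hl, hw⟩, rfl⟩
    have st : (∀ g ∈ l :: h :: w, g.v.B g.v = 2) ∧ S.evl u s t (l :: h :: w) =
        S.x l.v (S.mo u s t l.m) * S.evl u s t (h :: w) := ⟨List.forall_mem_cons.2 ⟨hl, hw⟩, rfl⟩
    obtain ⟨hh, hw'⟩ := List.forall_mem_cons.1 hw
    obtain ⟨i1, i2⟩ := ih l w hl hw'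
    have e : ∀ g w, S.evl u s t (g :: w) = S.x g.v (S.mo u s t g.m) * S.evl u s t w := fun _ _ => rfl
    have ps : 0 ≤ l.v.B h.v → (∀ g ∈ h :: ins n l w, g.v.B g.v = 2) ∧ S.evl u s t (h :: ins n l w) =
        S.x l.v (S.mo u s t l.m) * S.evl u s t (h :: w) := fun b =>
      ⟨List.forall_mem_cons.2 ⟨hh, i1⟩, by
        rw [e, e, i2, ← mul_assoc, ← mul_assoc, (S.comm _ _ hl hh b _ _).eq]⟩
    rw [ins]
    cases Nat.blt l.k h.k
    swap
    · exact st
    cases Nat.beq l.k h.k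
    · simp only [cond_false]
      split
      · rename_i b; exact ps (by rw [b]; exact Int.natCast_nonneg _)
      · rename_i b
        obtain ⟨b1, b2⟩ := V6.B_add hl hh b
        obtain ⟨j1, j2⟩ := ih ⟨l.k + h.k, l.v.add h.v, l.m.mul h.m⟩ _ b1 i1
        refine ⟨List.forall_mem_cons.2 ⟨hh, j1⟩, ?_⟩
        rw [e, e, j2, i2, ← mul_assoc, ← (S.comm _ _ b1 hh (by rw [b2]; decide) _ _).eq, mo_mul,
          ← S.rel _ _ hl hh b, commutatorElement_def]
        group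
      · exact st
    · simp only [cond_false, cond_true]
      split_ifs with h1 h2
      · refine ⟨hw', ?_⟩
        rw [e, ← mul_assoc, h1, h2, S.sq hh, one_mul]
      · cases Nat.blt l.m.cd h.m.cd
        · exact ps (by rw [h1, hh]; decide)
        · exact st
      · exact st

theorem ok_cons {p : V6 × Mo} {w : Wd} : ok (p :: w) = true ↔ p.1.B p.1 = 2 ∧ ok w = true := by
  simp only [ok, List.all_cons, Bool.and_eq_true, beq_iff_eq, List.all_eq_true, Prod.forall]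

theorem col_snd (f : V6) : ∀ w : Wd, ok w = true →
    (∀ h ∈ col f w, h.v.B h.v = 2) ∧ S.evl u s t (col f w) = S.ev u s t w
  | [], _ => ⟨by simp [col], rfl⟩
  | p :: w, h => by
    obtain ⟨h1, h2⟩ := ok_cons.1 h
    obtain ⟨i1, i2⟩ := col_snd f w h2
    obtain ⟨j1, j2⟩ := S.ins_snd u s t 99 ⟨f.dot p.1, p.1, p.2⟩ _ h1 i1
    exact ⟨j1, by rw [col, j2, i2]; rfl⟩

theorem ev_rev : ∀ w : Wd, ok w = true → S.ev u s t w.reverse * S.ev u s t w = 1
  | [], _ => by simp [ev]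
  | p :: w, h => by
    obtain ⟨h1, h2⟩ := ok_cons.1 h
    have := ev_rev w h2
    simp only [ev, List.reverse_cons, List.map_append, List.prod_append, List.map_cons, List.map_nil,
      List.prod_cons, List.prod_nil, mul_one] at this ⊢
    rw [mul_assoc, ← mul_assoc (S.x _ _), S.sq h1, one_mul, this]

theorem chk_snd {f : V6} {w w' : Wd} (h : chk f w w' = true) : S.ev u s t w = S.ev u s t w' := by
  simp only [chk, Bool.and_eq_true, List.isEmpty_iff] at h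
  have := (S.col_snd u s t f _ h.1).2
  rw [h.2] at this
  have e : 1 = S.ev u s t w * S.ev u s t w'.reverse := by simpa only [ev, List.map_reverse, evl, List.map_nil, List.prod_nil, List.map_append, List.prod_append] using this
  have o : ok w' = true := by
    have := h.1
    simp only [ok, List.all_append, List.all_reverse, Bool.and_eq_true] at this ⊢
    exact this.2
  rw [← mul_one (S.ev u s t w), ← S.ev_rev u s t w' o, ← mul_assoc, ← e, one_mul]

/-- Weyl elements. -/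
def nn (N : List V6) : G := (N.map fun β => S.x β 1 * S.x β.neg 1 * S.x β 1).prod

theorem nn_x {γ : V6} (h : γ.B γ = 2) (r : K) : ∀ N : List V6, (∀ v ∈ N, v.B v = 2) →
    (N.foldr V6.rf γ).B (N.foldr V6.rf γ) = 2 ∧
      S.nn N * S.x γ r * (S.nn N)⁻¹ = S.x (N.foldr V6.rf γ) r
  | [], _ => ⟨h, by simp [nn]⟩
  | β :: N, hN => by
    obtain ⟨h1, h2⟩ := List.forall_mem_cons.1 hN
    obtain ⟨i1, i2⟩ := nn_x h r N h2
    refine ⟨V6.B_rf i1 h1, ?_⟩
    rw [List.foldr_cons, ← S.cj _ _ h1 i1, ← i2]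
    simp only [nn, List.map_cons, List.prod_cons]
    group

theorem rfw_snd {N : List V6} (hN : ∀ v ∈ N, v.B v = 2) : ∀ w : Wd, ok w = true →
    S.nn N * S.ev u s t w * (S.nn N)⁻¹ = S.ev u s t (rfw N w)
  | [], _ => by simp [ev, rfw]
  | p :: w, h => by
    obtain ⟨h1, h2⟩ := ok_cons.1 h
    have := rfw_snd hN w h2
    simp only [ev, rfw, List.map_cons, List.prod_cons] at this ⊢
    rw [← this, ← (S.nn_x h1 _ N hN).2]
    group

/-- The involutions in the root groups of the twisted group. -/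
def T (k i : ℕ) (r : K) : G := S.x (rt k i) r * (S.x (rt k (i + 1)) r * S.x (rt k (i + 2)) (S.φ r))

/-- The elements of order four in the root groups of the twisted group. -/
def Y (k : ℕ) (r : K) : G := S.x (rt k 0) r * (S.x (rt k 1) r * (S.x (rt k 2) (S.φ r) *
  (S.x (rt k 3) (r * S.φ r) * S.x (rt k 4) (r * S.φ r))))

def l2 : L2 → G
  | .t k i m => S.T k i (S.mo u s t m)
  | .y k m => S.Y k (S.mo u s t m)

def e2 (w : List L2) : G := (w.map (S.l2 u s t)).prod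

theorem ev_exw : ∀ w : List L2, S.ev u s t (exw w) = S.e2 u s t w
  | [] => rfl
  | l :: w => by
    have := ev_exw w
    simp only [ev, exw, e2, List.flatMap_cons, List.map_append, List.prod_append, List.map_cons,
      List.prod_cons] at this ⊢
    rw [this]
    cases l <;> simp [L2.ex, l2, T, Y, mo_ph, mo_mul]

theorem ck_snd {j : ℕ} {w w' : List L2} (h : ck j w w' = true) : S.e2 u s t w = S.e2 u s t w' := by
  rw [← ev_exw, ← ev_exw, S.chk_snd u s t h]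

theorem cw_snd {N : List V6} {w w' : List L2} (h : cw N w w' = true) :
    S.nn N * S.e2 u s t w * (S.nn N)⁻¹ = S.e2 u s t w' := by
  simp only [cw, Bool.and_eq_true, List.all_eq_true, beq_iff_eq] at h
  rw [← ev_exw, ← ev_exw, S.rfw_snd u s t h.1.1 _ h.1.2, S.chk_snd u s t h.2]

end Sys

end Pool.Agent.MP_c78e8e_al.H75.Ree

end

section

namespace Pool.Agent.MP_c78e8e_al.H75.Ree

open Subgroup
open scoped commutatorElement

section
variable {G : Type} [Group G]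

theorem cj_mem {P : Subgroup G} {a b : G} (ha : a ∈ P) (hb : b ∈ P) : a * b * a⁻¹ ∈ P :=
  mul_mem (mul_mem ha hb) (inv_mem ha)

theorem comm_conj {Q : Subgroup G} {g h : G} (hg : g ∈ Q) (hh : h ∈ ⁅Q, Q⁆) : g * h * g⁻¹ ∈ ⁅Q, Q⁆ := by
  have : Q.map (MulAut.conj g).toMonoidHom ≤ Q := by
    rintro _ ⟨k, hk, rfl⟩
    exact Q.mul_mem (Q.mul_mem hg hk) (Q.inv_mem hg)
  apply commutator_mono this this
  rw [← map_commutator]
  exact ⟨h, hh, rfl⟩

theorem comm_le {H : Subgroup G} {s : Set G} (hn : ∀ g ∈ s, g ∈ normalizer (H : Set G))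
    (hc : ∀ g ∈ s, ∀ g' ∈ s, ⁅g, g'⁆ ∈ H) : ⁅closure s, closure s⁆ ≤ H := by
  have n : ∀ g ∈ closure s, ∀ h ∈ H, g * h * g⁻¹ ∈ H := fun g hg h hh =>
    ((closure_le _).2 hn hg h).1 hh
  have sw : ∀ g g', ⁅g, g'⁆ ∈ H → ⁅g', g⁆ ∈ H := fun g g' h => by
    rw [← commutatorElement_inv]; exact H.inv_mem h
  have k : ∀ y, (∀ g ∈ s, ⁅g, y⁆ ∈ H) → ∀ g ∈ closure s, ⁅g, y⁆ ∈ H := fun y hy g hg => by
    induction hg using closure_induction with
    | mem a ha => exact hy a ha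
    | one => simp
    | mul a b ha _ h1 h2 =>
      have : ⁅a * b, y⁆ = a * ⁅b, y⁆ * a⁻¹ * ⁅a, y⁆ := by simp only [commutatorElement_def]; group
      exact this ▸ H.mul_mem (n a ha _ h2) h1
    | inv a ha h1 =>
      have : ⁅a⁻¹, y⁆ = a⁻¹ * ⁅y, a⁆ * a⁻¹⁻¹ := by simp only [commutatorElement_def]; group
      exact this ▸ n _ (inv_mem ha) _ (sw _ _ h1)
  exact commutator_le.2 fun g hg g' hg' => k g' (fun a ha => sw _ _ (k a (fun b hb => hc b hb a ha) g' hg')) g hg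

theorem least_sub {P : Subgroup G} {a b c : G} (gen : closure {a, b, c} = P) (per : P ≤ ⁅P, P⁆)
    (ne : P ≠ ⊥) (aa : a * a = 1) (ab : a * b * a⁻¹ = b) (eb : ∃ g ∈ P, g * a * g⁻¹ = b)
    (ec : ∃ g ∈ P, g * a * g⁻¹ = c) : IsLeast {n | Good P n} 3 := by
  have m : ∀ g ∈ ({a, b, c} : Set G), g ∈ P := fun g hg => gen ▸ subset_closure hg
  obtain ⟨g, hg, eb⟩ := eb
  obtain ⟨g', hg', ec⟩ := ec
  refine isLeast_three (fun hs => ?_) ⟨a, m a (by simp)⟩ ⟨b, m b (by simp)⟩ ⟨c, m c (by simp)⟩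
    (Subtype.ext aa) (isConj_iff.2 ⟨⟨g, hg⟩, Subtype.ext eb⟩) (isConj_iff.2 ⟨⟨g', hg'⟩, Subtype.ext ec⟩)
    (Subtype.ext (mul_inv_eq_iff_eq_mul.1 ab)) ?_
  · have : Nontrivial P := (nontrivial_iff_ne_bot P).2 ne
    have := Group.IsSolvable.commutator_lt_top_of_nontrivial P
    refine this.ne (map_injective P.subtype_injective ?_)
    rw [commutator_def, map_commutator, ← MonoidHom.range_eq_map, range_subtype]
    exact le_antisymm (commutator_le.2 fun g hg h hh => mul_mem (cj_mem hg hh) (inv_mem hh)) per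
  · apply map_injective P.subtype_injective
    rw [MonoidHom.map_closure, ← MonoidHom.range_eq_map, range_subtype]
    simpa only [Set.image_insert_eq, Set.image_singleton, coe_subtype] using gen

theorem mem_of {P : Subgroup G} {a b w : G} (e : a * b = w * (b * a)) (ha : a ∈ P) (hb : b ∈ P) :
    w ∈ P := (mul_mem_cancel_right (mul_mem hb ha)).1 (e ▸ mul_mem ha hb)

end

def o : Mo := ⟨0, 0, 0, 0, 0, 0⟩
def p (a b : ℕ) : Mo := ⟨a, b, 0, 0, 0, 0⟩
def ms : Mo := ⟨0, 0, 1, 0, 0, 0⟩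
def mt : Mo := ⟨0, 0, 0, 0, 1, 0⟩
def lx (k : ℕ) (m : Mo) : L2 := .t k 0 m
def lz (k : ℕ) (m : Mo) : L2 := .t k 3 m
def nk (k : ℕ) : List V6 := [rt k 0, rt k 1, rt k 2]
def n8 : List V6 := [rt 8 5, rt 8 2]

def ta (k i : ℕ) : Bool := ok (exw [.t k i o]) && chk (fn 1) [(rt k i, ms), (rt k i, mt),
  (rt k (i + 1), ms), (rt k (i + 1), mt), (rt k (i + 2), ms.ph), (rt k (i + 2), mt.ph)]
  (exw [.t k i ms, .t k i mt])

def qw : List L2 := [lx 3 o, lz 4 (p 1 0), lz 6 (p 1 0)]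
def qp : List L2 := [lx 3 o, lz 2 (p 1 0), lz 16 (p 1 0)]
def bw : List L2 := qw ++ [lx 7 o]
def cA : List L2 := [lx 3 (p 4 0), lz 4 (p 1 3), lx 5 ms, lz 6 mt]
def cB : List L2 := [lx 3 (p 4 0), lz 2 (p 1 3), lx 1 ms, lz 16 mt]
def gw : List L2 := [lx 1 (p 0 1), .y 2 (p 1 0), lz 2 (p 1 1), lx 3 o, .y 4 (p 1 0), lx 5 (p 0 1)]
def q15 : List L2 := [lz 16 (p 1 0), lx 1 (p 0 1), .y 2 (p 1 0), lz 2 (p 1 0), lz 2 (p 1 1), lx 3 o,
  lx 3 (p 2 0), .y 4 (p 1 0), lz 4 (p 1 0), lx 5 (p 0 1), lz 6 (p 1 0)]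
def ww : List L2 := [lz 2 ⟨0, 0, 0, 0, 1, 1⟩, lz 2 ⟨0, 0, 1, 0, 1, 0⟩, lx 3 ⟨0, 0, 0, 0, 2, 0⟩,
  lz 4 ⟨0, 0, 0, 0, 1, 1⟩, lz 4 ⟨0, 0, 1, 0, 1, 0⟩]

namespace Sys

variable {G K : Type} [Group G] [Field K] (S : Sys G K)

theorem T_add {k i : ℕ} (h : ta k i = true) (s t : K) : S.T k i (s + t) = S.T k i s * S.T k i t := by
  simp only [ta, Bool.and_eq_true] at h
  have := S.chk_snd 1 s t h.2
  rw [ev_exw] at this
  have h := h.1
  simp only [exw, List.flatMap_cons, L2.ex, List.flatMap_nil, List.append_nil, ok_cons] at h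
  rw [T, map_add, S.add _ h.1, S.add _ h.2.1, S.add _ h.2.2.1]
  simpa only [mul_assoc, ev, mo, one_pow, map_one, mul_one, one_mul, ms, mt, Mo.ph, add_zero, List.map_cons, pow_one, pow_zero, List.map_nil, List.prod_cons, List.prod_nil, e2, l2] using this

theorem T_zero {k i : ℕ} (h : ta k i = true) : S.T k i 0 = 1 := by simpa using S.T_add h 0 0

theorem T_sq {k i : ℕ} (h : ta k i = true) (s : K) : S.T k i s * S.T k i s = 1 := by
  rw [← S.T_add h, S.two, S.T_zero h]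

theorem cT {N : List V6} {k k' i : ℕ} (h : cw N [.t k i ms] [.t k' i ms] = true) (s : K) :
    S.nn N * S.T k i s * (S.nn N)⁻¹ = S.T k' i s := by
  simpa only [e2, ms, List.map_cons, l2, mo, pow_zero, map_one, mul_one, pow_one, one_mul, List.map_nil, List.prod_cons, List.prod_nil] using S.cw_snd 1 s 1 h

theorem cY {N : List V6} {k k' : ℕ} (h : cw N [.y k ms] [.y k' ms] = true) (s : K) :
    S.nn N * S.Y k s * (S.nn N)⁻¹ = S.Y k' s := by
  simpa only [e2, ms, List.map_cons, l2, mo, pow_zero, map_one, mul_one, pow_one, one_mul, List.map_nil, List.prod_cons, List.prod_nil] using S.cw_snd 1 s 1 h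

theorem nk_eq {k : ℕ} (h : chk (fn 1) ((nk k).flatMap fun v => [(v, o), (v.neg, o), (v, o)])
    (exw [lx k o, lx (k + 8) o, lx k o]) = true) :
    S.nn (nk k) = S.T k 0 1 * S.T (k + 8) 0 1 * S.T k 0 1 := by
  have := S.chk_snd 1 1 1 h
  rw [ev_exw] at this
  simpa only [nn, mul_assoc, nk, List.map_cons, List.map_nil, List.prod_cons, List.prod_nil, mul_one, ev, mo, one_pow, map_one, o, List.flatMap_cons, List.flatMap_nil, List.append_nil, List.cons_append, List.nil_append, e2, lx, l2, pow_zero] using this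

/-- The three generators. -/
def a : G := S.nn (nk 1)
def c : G := S.nn (nk 7)
def b (u : K) : G := S.e2 u 1 1 bw

theorem a_eq : S.a = S.T 1 0 1 * S.T 9 0 1 * S.T 1 0 1 := S.nk_eq (by decide +kernel)
theorem c_eq : S.c = S.T 7 0 1 * S.T 15 0 1 * S.T 7 0 1 := S.nk_eq (by decide +kernel)
theorem b_eq (u : K) : S.b u = S.T 3 0 1 * (S.T 4 3 u * S.T 6 3 u) * S.T 7 0 1 := by
  simp [b, bw, qw, e2, l2, mo, o, p, lx, lz, mul_assoc]

theorem sq1 (s : K) : S.T 1 0 s * S.T 1 0 s = 1 := S.T_sq (by decide +kernel) s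
theorem sq7 (s : K) : S.T 7 0 s * S.T 7 0 s = 1 := S.T_sq (by decide +kernel) s
theorem sq9 (s : K) : S.T 9 0 s * S.T 9 0 s = 1 := S.T_sq (by decide +kernel) s
theorem sq15 (s : K) : S.T 15 0 s * S.T 15 0 s = 1 := S.T_sq (by decide +kernel) s

theorem sq_cj {g h : G} (hg : g * g = 1) (hh : h * h = 1) : g * h * g * (g * h * g) = 1 := by
  rw [show g * h * g * (g * h * g) = g * (h * (g * g) * h) * g by group, hg, mul_one, hh, mul_one, hg]

theorem aa : S.a * S.a = 1 := by rw [a_eq, sq_cj (S.sq1 1) (S.sq9 1)]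

theorem cc : S.c * S.c = 1 := by rw [c_eq, sq_cj (S.sq7 1) (S.sq15 1)]

theorem n8_eq : S.Y 8 1 * S.T 8 3 1 * S.nn n8 = S.T 16 3 1 * (S.Y 8 1 * S.T 8 3 1) := by
  have e1 := (S.rfw_snd 1 1 1 (N := [rt 8 5]) (by decide) [(rt 16 3, o), (rt 16 4, o), (rt 8 2, o)]
    (by decide)).trans (S.chk_snd 1 1 1 (f := fn 1) (w' := [(rt 8 0, o), (rt 8 1, o), (rt 8 2, o)])
    (by decide +kernel))
  have e2 := S.chk_snd 1 1 1 (f := ⟨0, 0, 5, -11, 7, 0⟩)
    (w := [(rt 8 5, o), (rt 16 3, o), (rt 16 4, o), (rt 16 2, o)])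
    (w' := [(rt 16 3, o), (rt 16 4, o), (rt 8 5, o), (rt 8 0, o), (rt 8 1, o)]) (by decide +kernel)
  have e3 := S.chk_snd 1 1 1 (f := fn 1) (w := exw [lz 16 o])
    (w' := [(rt 16 5, o), (rt 16 3, o), (rt 16 4, o)]) (by decide +kernel)
  have e4 := S.chk_snd 1 1 1 (f := fn 1) (w := exw [.y 8 o, lz 8 o])
    (w' := [(rt 8 5, o), (rt 8 0, o), (rt 8 1, o), (rt 8 2, o)]) (by decide +kernel)
  have s5 := S.sq (β := rt 8 5) (by decide) 1
  have s2 := S.sq (β := rt 8 2) (by decide) 1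
  have r5 : (rt 8 5).neg = rt 16 5 := by decide
  have r2 : (rt 8 2).neg = rt 16 2 := by decide
  rw [ev_exw] at e3 e4
  simp only [ev, Sys.e2, l2, mo, o, lz, nn, n8, List.map_cons, List.prod_cons, List.map_nil,
    List.prod_nil, pow_zero, mul_one, r5, r2] at e1 e2 e3 e4 ⊢
  rw [mul_inv_eq_iff_eq_mul] at e1
  rw [e3, e4, mul_assoc, ← mul_assoc (_ * _) (_ * _ * _), ← e1]
  generalize S.x (rt 8 5) 1 = v, S.x (rt 16 5) 1 = v', S.x (rt 8 2) 1 = w, S.x (rt 16 2) 1 = w',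
    S.x (rt 16 3) 1 = A, S.x (rt 16 4) 1 = A', S.x (rt 8 0) 1 = D, S.x (rt 8 1) 1 = D' at *
  calc _ = v * v * v' * (v * (A * (A' * (w * w * w')))) * w := by group
    _ = _ := by rw [s5, s2, one_mul, one_mul, e2]; group

theorem n8_mem {P : Subgroup G} (h : S.T 8 3 1 ∈ P) (h' : S.T 16 3 1 ∈ P) : S.nn n8 ∈ P := by
  have e1 := S.n8_eq
  have e2 := S.cT (N := n8) (k := 8) (k' := 16) (i := 3) (by decide +kernel) 1
  have e3 : S.Y 8 1 * S.T 8 3 1 * (S.Y 8 1 * S.T 8 3 1) = S.T 8 3 1 := by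
    simpa only [mul_assoc, Sys.e2, o, lz, List.map_cons, l2, mo, pow_zero, map_one, mul_one, List.map_nil, List.prod_cons, List.prod_nil] using S.ck_snd 1 1 1 (j := 1)
      (w := [.y 8 o, lz 8 o, .y 8 o, lz 8 o]) (w' := [lz 8 o]) (by decide +kernel)
  have e4 := S.T_sq (k := 16) (i := 3) (by decide +kernel) 1
  generalize S.Y 8 1 * S.T 8 3 1 = L, S.nn n8 = n at *
  generalize S.T 8 3 1 = z, S.T 16 3 1 = z' at *
  rw [← mul_inv_eq_iff_eq_mul] at e1
  have : n = z⁻¹ * (z' * z * z'⁻¹) * z := by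
    calc n = (L * L)⁻¹ * (L * (L * n * L⁻¹) * L⁻¹) * (L * L) := by group
      _ = z⁻¹ * (L * (n * (L * L) * n⁻¹) * L⁻¹) * z := by rw [e1, e3, e2]
      _ = _ := by rw [← e1, ← e3]; group
  exact this ▸ mul_mem (mul_mem (inv_mem h) (cj_mem h' h)) h

theorem e2_app (u s t : K) (w w' : List L2) : S.e2 u s t (w ++ w') = S.e2 u s t w * S.e2 u s t w' := by
  simp [e2]

theorem e2_o (u s t : K) (k : ℕ) : S.e2 u s t [lx k o] = S.T k 0 1 := by simp [e2, l2, lx, mo, o]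

theorem g_eq (u : K) : S.b u * S.c * (S.b u * S.c) * (S.b u * S.c) = S.e2 u 1 1 gw := by
  have e1 := S.cw_snd u 1 1 (N := nk 7) (w := bw) (w' := qp ++ [lx 15 o]) (by decide +kernel)
  have e2 := S.ck_snd u 1 1 (j := 7) (w := [lx 15 o] ++ qw) (w' := q15 ++ [lx 15 o]) (by decide +kernel)
  have e3 := S.ck_snd u 1 1 (j := 8) (w := bw ++ qp ++ q15 ++ [lx 7 o]) (w' := gw) (by decide +kernel)
  have e4 : S.T 15 0 1 * S.T 7 0 1 * S.c = S.T 7 0 1 := by
    rw [c_eq, ← mul_assoc, ← mul_assoc, mul_assoc (S.T 15 0 1), sq7, mul_one, sq15, one_mul]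
  have e5 : S.b u = S.e2 u 1 1 qw * S.T 7 0 1 := by rw [b, bw, e2_app, e2_o]
  simp only [e2_app, e2_o] at e1 e2 e3
  change S.c * S.b u * S.c⁻¹ = _ at e1
  change S.b u * _ * _ * _ = _ at e3
  calc _ = S.b u * (S.c * S.b u * S.c⁻¹) * (S.c * S.c) * S.b u * S.c := by group
    _ = S.b u * S.e2 u 1 1 qp * (S.T 15 0 1 * S.e2 u 1 1 qw) * S.T 7 0 1 * S.c := by
      rw [e1, cc, mul_one]; nth_rw 2 [e5]; group
    _ = _ := by rw [e2, ← e3]; nth_rw 2 [← e4]; group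

theorem g_sq (u : K) : S.e2 u 1 1 gw * S.e2 u 1 1 gw = S.T 3 0 (u ^ 2) := by
  rw [← e2_app, S.ck_snd u 1 1 (j := 1) (w := gw ++ gw) (w' := [lx 3 (p 2 0)]) (by decide +kernel)]
  simp [e2, l2, lx, mo, p]

theorem g_x7 (u : K) : S.e2 u 1 1 gw * S.T 7 0 (u ^ 2) =
    S.e2 u (S.φ u ^ 3 + u ^ 2 * S.φ u) (u * S.φ u ^ 2 + u ^ 3) cA * (S.T 7 0 (u ^ 2) * S.e2 u 1 1 gw) := by
  have e := S.ck_snd u 1 1 (j := 1) (w := gw ++ [lx 7 (p 2 0)]) (w' := [lx 3 (p 4 0), lz 4 (p 1 3),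
    lx 5 (p 0 3), lx 5 (p 2 1), lz 6 (p 1 2), lz 6 (p 3 0), lx 7 (p 2 0)] ++ gw) (by decide +kernel)
  simp only [e2_app] at e
  generalize S.e2 u 1 1 gw = g at *
  simpa [cA, e2, l2, lx, lz, mo, p, ms, mt, mul_assoc, S.T_add (k := 5) (i := 0) (by decide +kernel),
    S.T_add (k := 6) (i := 3) (by decide +kernel)] using e

theorem rA (s t : K) : S.T 2 3 s * S.T 7 0 t = S.T 4 3 (s * t) * (S.T 7 0 t * S.T 2 3 s) := by
  simpa only [e2, lz, ms, lx, mt, List.map_cons, l2, mo, pow_zero, map_one, mul_one, pow_one, one_mul, List.map_nil, List.prod_cons, List.prod_nil, Mo.mul, add_zero, zero_add] using S.ck_snd 1 s t (j := 1) (w := [lz 2 ms, lx 7 mt])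
    (w' := [lz 4 (ms.mul mt), lx 7 mt, lz 2 ms]) (by decide +kernel)

theorem rB (t : K) : S.T 2 3 1 * S.T 8 3 t =
    S.T 4 3 t * S.T 5 0 t * S.T 6 3 (S.φ t) * (S.T 8 3 t * S.T 2 3 1) := by
  simpa only [mul_assoc, e2, lz, o, mt, List.map_cons, l2, mo, pow_zero, map_one, mul_one, pow_one, one_mul, List.map_nil, List.prod_cons, List.prod_nil, lx, Mo.ph, add_zero] using S.ck_snd 1 1 t (j := 1)
    (w := [lz 2 o, lz 8 mt]) (w' := [lz 4 mt, lx 5 mt, lz 6 mt.ph, lz 8 mt, lz 2 o]) (by decide +kernel)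

theorem rC (t : K) : S.T 16 3 1 * S.T 6 3 t =
    S.T 2 3 t * S.T 3 0 t * S.T 4 3 (S.φ t) * (S.T 6 3 t * S.T 16 3 1) := by
  simpa only [mul_assoc, e2, lz, o, mt, List.map_cons, l2, mo, pow_zero, map_one, mul_one, pow_one, one_mul, List.map_nil, List.prod_cons, List.prod_nil, lx, Mo.ph, add_zero] using S.ck_snd 1 1 t (j := 8)
    (w := [lz 16 o, lz 6 mt]) (w' := [lz 2 mt, lx 3 mt, lz 4 mt.ph, lz 6 mt, lz 16 o]) (by decide +kernel)

/-- Subgroups containing all the involutions in the root groups that are used. -/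
structure Fu (P : Subgroup G) : Prop where
  x : ∀ k ∈ [1, 3, 5, 7, 9, 15], ∀ s, S.T k 0 s ∈ P
  z : ∀ k ∈ [2, 4, 6, 8, 16], ∀ s, S.T k 3 s ∈ P

theorem fu_of {P : Subgroup G} (ha : ∀ g ∈ P, S.a * g * S.a⁻¹ ∈ P) (hc : ∀ g ∈ P, S.c * g * S.c⁻¹ ∈ P)
    (z4 : ∀ s, S.T 4 3 s ∈ P) : S.Fu P := by
  have A : ∀ {k k' i}, cw (nk 1) [.t k i ms] [.t k' i ms] = true → (∀ s, S.T k i s ∈ P) →
      ∀ s, S.T k' i s ∈ P := fun h hk s => S.cT h s ▸ ha _ (hk s)
  have C : ∀ {k k' i}, cw (nk 7) [.t k i ms] [.t k' i ms] = true → (∀ s, S.T k i s ∈ P) →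
      ∀ s, S.T k' i s ∈ P := fun h hk s => S.cT h s ▸ hc _ (hk s)
  have z2 := C (k' := 2) (by decide +kernel) z4
  have z6 := A (k' := 6) (by decide +kernel) z4
  have z8 := A (k' := 8) (by decide +kernel) z2
  have z16 := C (k' := 16) (by decide +kernel) z6
  have x5 : ∀ s, S.T 5 0 s ∈ P := fun s => (mul_mem_cancel_left (z4 s)).1
    ((mul_mem_cancel_right (z6 _)).1 (mem_of (S.rB s) (z2 1) (z8 s)))
  have x3 : ∀ s, S.T 3 0 s ∈ P := fun s => (mul_mem_cancel_left (z2 s)).1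
    ((mul_mem_cancel_right (z4 _)).1 (mem_of (S.rC s) (z16 1) (z6 s)))
  have x1 := C (k' := 1) (by decide +kernel) x5
  have x9 := A (k' := 9) (by decide +kernel) x1
  have x7 := A (k' := 7) (by decide +kernel) x3
  have x15 := C (k' := 15) (by decide +kernel) x7
  constructor <;> simp only [List.forall_mem_cons] <;> simp only [x1, implies_true, x3, x5, x7, x9, x15, List.not_mem_nil, IsEmpty.forall_iff, and_self, z2, z4, z6, z8, z16]

variable {S}

theorem Fu.a {P : Subgroup G} (h : S.Fu P) : S.a ∈ P :=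
  S.a_eq ▸ mul_mem (mul_mem (h.x 1 (by simp) 1) (h.x 9 (by simp) 1)) (h.x 1 (by simp) 1)

theorem Fu.c {P : Subgroup G} (h : S.Fu P) : S.c ∈ P :=
  S.c_eq ▸ mul_mem (mul_mem (h.x 7 (by simp) 1) (h.x 15 (by simp) 1)) (h.x 7 (by simp) 1)

theorem Fu.b {P : Subgroup G} (h : S.Fu P) (u : K) : S.b u ∈ P :=
  S.b_eq u ▸ mul_mem (mul_mem (h.x 3 (by simp) 1) (mul_mem (h.z 4 (by simp) u) (h.z 6 (by simp) u)))
    (h.x 7 (by simp) 1)

theorem Fu.comm {P : Subgroup G} (h : S.Fu P) : S.Fu ⁅P, P⁆ :=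
  S.fu_of (fun _ => comm_conj h.a) (fun _ => comm_conj h.c) fun s => by
    have := commutator_mem_commutator (h.z 2 (by simp) s) (h.x 7 (by simp) 1)
    rwa [commutatorElement_def, rA, mul_one, mul_assoc, mul_assoc, mul_assoc, mul_inv_cancel_left,
      mul_inv_cancel, mul_one] at this

theorem Fu.e2 {P : Subgroup G} (h : S.Fu P) (u s t : K) {w : List L2}
    (hw : (w.all fun l => match l with
      | .t k i _ => i == 0 && [1, 3, 5, 7, 9, 15].contains k || i == 3 && [2, 4, 6, 8, 16].contains k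
      | .y .. => false) = true) : S.e2 u s t w ∈ P := by
  refine list_prod_mem fun g hg => ?_
  obtain ⟨l, hl, rfl⟩ := List.mem_map.1 hg
  have := List.all_eq_true.1 hw l hl
  cases l with
  | y => simp at this
  | t k i m =>
    simp only [Bool.or_eq_true, Bool.and_eq_true, beq_iff_eq, List.contains_iff_mem] at this
    rcases this with ⟨rfl, hk⟩ | ⟨rfl, hk⟩
    exacts [h.x k hk _, h.z k hk _]

variable (S)

theorem cA_one : S.e2 1 (S.φ 1 ^ 3 + 1 ^ 2 * S.φ 1) (1 * S.φ 1 ^ 2 + 1 ^ 3) cA = S.T 3 0 1 * S.T 4 3 1 := by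
  simp [cA, e2, l2, lx, lz, mo, p, ms, mt, S.two, S.T_zero (k := 5) (i := 0) (by decide +kernel),
    S.T_zero (k := 6) (i := 3) (by decide +kernel)]

theorem fu_gen {P : Subgroup G} {u : K} (u0 : u ≠ 0) (hu : ∀ s : K, s ≠ 0 → ∃ n : ℕ, s = (u ^ 2) ^ n)
    (ha : S.a ∈ P) (hb : S.b u ∈ P) (hc : S.c ∈ P) : S.Fu P := by
  have hg : S.e2 u 1 1 gw ∈ P :=
    S.g_eq u ▸ mul_mem (mul_mem (mul_mem hb hc) (mul_mem hb hc)) (mul_mem hb hc)
  have x3 : S.T 3 0 (u ^ 2) ∈ P := S.g_sq u ▸ mul_mem hg hg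
  have x7 : S.T 7 0 (u ^ 2) ∈ P :=
    S.cT (N := nk 1) (k := 3) (k' := 7) (i := 0) (by decide +kernel) _ ▸ cj_mem ha x3
  have hA := mem_of (S.g_x7 u) hg x7
  obtain ⟨w, w0, hw⟩ : ∃ w, w ≠ 0 ∧ S.T 4 3 w ∈ P := by
    by_cases u1 : u = 1
    · subst u1
      rw [cA_one, mul_mem_cancel_left (by simpa using x3)] at hA
      exact ⟨1, one_ne_zero, hA⟩
    have h2 : (2 : K) = 0 := by linear_combination S.two 1
    have n1 : u + 1 ≠ 0 := fun h => u1 (by linear_combination h - h2)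
    have n2 : u + S.φ u ≠ 0 := fun h => by
      have := congrArg S.φ h
      rw [map_add, S.φφ, map_zero] at this
      exact mul_ne_zero u0 n1 (by linear_combination this + h - S.φ u * h2)
    have v0 : S.φ u ≠ 0 := (map_ne_zero _).2 u0
    generalize hp : S.φ u ^ 3 + u ^ 2 * S.φ u = s at hA
    generalize hr : u * S.φ u ^ 2 + u ^ 3 = r at hA
    have hB : S.e2 u s r cB ∈ P :=
      S.cw_snd u s r (N := nk 7) (w := cA) (w' := cB) (by decide +kernel) ▸ cj_mem hc hA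
    have e1 := S.ck_snd u s r (j := 8) (w := cA ++ cB) (w' := ww ++ (cB ++ cA)) (by decide +kernel)
    have e2 := S.ck_snd u s r (j := 1) (w := ww ++ [lx 7 (p 2 0)]) (w' := [lz 4 ⟨2, 0, 0, 0, 1, 1⟩,
      lz 4 ⟨2, 0, 1, 0, 1, 0⟩] ++ ([lx 7 (p 2 0)] ++ ww)) (by decide +kernel)
    simp only [e2_app] at e1 e2
    have := mem_of e2 (mem_of e1 hA hB) (by simpa [Sys.e2, l2, lx, mo, p] using x7)
    refine ⟨u ^ 2 * r * S.φ r + u ^ 2 * s * r, ?_, ?_⟩
    · have e : u ^ 2 * r * S.φ r + u ^ 2 * s * r = u ^ 2 * (u * (u + S.φ u) ^ 2) *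
          (S.φ u * u ^ 2 * (u + 1) ^ 2) := by
        have a1 : r = u * (u + S.φ u) ^ 2 := by linear_combination -hr - u ^ 2 * S.φ u * h2
        have a2 : S.φ r + s = S.φ u * u ^ 2 * (u + 1) ^ 2 := by
          rw [← hr, ← hp]
          simp only [map_add, map_mul, map_pow, S.φφ]
          linear_combination (S.φ u ^ 3 - S.φ u * u ^ 3) * h2
        rw [← a1, ← a2]; ring
      rw [e]
      simp [u0, v0, n1, n2]
    · rw [S.T_add (by decide +kernel)]
      simpa [Sys.e2, l2, lz, mo] using this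
  have st : ∀ n : ℕ, S.T 4 3 (w * (u ^ 2) ^ n) ∈ P := fun n => by
    induction n with
    | zero => simpa using hw
    | succ n ih =>
      rw [pow_succ, ← mul_assoc]
      exact mem_of (S.rA _ _) (S.cT (N := nk 7) (k := 4) (k' := 2) (i := 3) (by decide +kernel) _ ▸
        cj_mem hc ih) x7
  refine S.fu_of (fun _ => cj_mem ha) (fun _ => cj_mem hc) fun s => ?_
  by_cases s0 : s = 0
  · rw [s0, S.T_zero (by decide +kernel)]; exact one_mem _
  obtain ⟨n, hn⟩ := hu _ (div_ne_zero s0 w0)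
  have := st n
  rwa [← hn, mul_div_cancel₀ _ w0] at this

theorem y_cj {P : Subgroup G} (h : S.Fu P) (u t : K) {g : G} (hg : g ∈ closure {S.a, S.b u, S.c}) :
    S.Y 4 t * g * (S.Y 4 t)⁻¹ ∈ P := by
  have k : ∀ j w w', ck j ([.y 4 mt] ++ w) (w' ++ [.y 4 mt]) = true → S.e2 u 1 t w' ∈ P →
      S.Y 4 t * S.e2 u 1 t w * (S.Y 4 t)⁻¹ ∈ P := fun j w w' e m => by
    have := S.ck_snd u 1 t e
    have y : S.e2 u 1 t [.y 4 mt] = S.Y 4 t := by simp [e2, l2, mo, mt]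
    rw [e2_app, e2_app, y] at this
    rwa [this, mul_inv_cancel_right]
  have k1 := k 1 [lx 1 o] [lx 1 o, lz 2 mt] (by decide +kernel) (h.e2 _ _ _ rfl)
  have k9 := k 2 [lx 9 o] [lx 7 mt.ph, lz 8 mt, lx 9 o] (by decide +kernel) (h.e2 _ _ _ rfl)
  have k7 := k 1 [lx 7 o] [lz 6 mt, lx 7 o] (by decide +kernel) (h.e2 _ _ _ rfl)
  have k15 := k 7 [lx 15 o] [lx 15 o, lz 16 mt, lx 1 mt.ph] (by decide +kernel) (h.e2 _ _ _ rfl)
  have kb := k 1 bw (lz 6 mt :: bw) (by decide +kernel) (h.e2 _ _ _ rfl)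
  simp only [e2_o] at k1 k9 k7 k15
  have : closure {S.a, S.b u, S.c} ≤ P.comap (MulAut.conj (S.Y 4 t)).toMonoidHom := by
    rw [closure_le]
    rintro _ (rfl | rfl | rfl)
    · rw [a_eq]; exact mul_mem (mul_mem k1 k9) k1
    · simpa only [MulEquiv.toMonoidHom_eq_coe, coe_comap, MonoidHom.coe_coe, b, e2, bw, qw, lx, o, lz, p, List.cons_append, List.nil_append, List.map_cons, l2, mo, pow_zero, mul_one, map_one, pow_one, List.map_nil, List.prod_cons, List.prod_nil, Set.mem_preimage, MulAut.conj_apply, SetLike.mem_coe] using kb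
    · rw [c_eq]; exact mul_mem (mul_mem k7 k15) k7
  exact this hg

/-- Short and long root elements. -/
def A (k : ℕ) (s : K) : G := S.x (rt k 0) s * S.x (rt k 1) s
def B (k : ℕ) (s : K) : G := S.x (rt k 2) s
def D (k : ℕ) (u v : K) : G := S.x (rt k 3) u * (S.x (rt k 4) u * S.x (rt k 5) v)

/-- The graph of the twisting automorphism. -/
def gr (k : ℕ) : Subgroup (G × G) := closure {q | ∃ t, q.1 = S.A k t ∧ q.2 = S.B k (S.φ t) ∨
  q.2 = S.A k t ∧ q.1 = S.B k (S.φ t)}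

theorem gr_ind {k : ℕ} (h : k ∈ [1, 9, 8, 16]) {R : G → G → Prop} (h1 : R 1 1)
    (h2 : ∀ g g', R g g' → R g' g) (h3 : ∀ t g g', R g g' → R (S.A k t * g) (S.B k (S.φ t) * g'))
    {q : G × G} (hq : q ∈ S.gr k) : R q.1 q.2 := by
  have r : (∀ i < 3, (rt k i).B (rt k i) = 2) ∧ 0 ≤ (rt k 0).B (rt k 1) := by
    clear hq h3; revert k; decide
  have i1 : ∀ t, (S.A k t)⁻¹ = S.A k t := fun t => inv_eq_of_mul_eq_one_right (by
    rw [A, (S.comm _ _ (r.1 0 (by decide)) (r.1 1 (by decide)) r.2 t t).symm.mul_mul_mul_comm,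
      S.sq (r.1 0 (by decide)), S.sq (r.1 1 (by decide)), mul_one])
  have i2 : ∀ t, (S.B k t)⁻¹ = S.B k t := fun t => inv_eq_of_mul_eq_one_right (S.sq (r.1 2 (by decide)) t)
  induction hq using closure_induction_left with
  | one => exact h1
  | mul_left a ha b _ ih =>
    obtain ⟨t, ⟨e, e'⟩ | ⟨e, e'⟩⟩ := ha <;> simp only [Prod.fst_mul, Prod.snd_mul, e, e']
    exacts [h3 _ _ _ ih, h2 _ _ (h3 _ _ _ (h2 _ _ ih))]
  | inv_mul_cancel a ha b _ ih =>
    obtain ⟨t, ⟨e, e'⟩ | ⟨e, e'⟩⟩ := ha <;>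
      simp only [Prod.fst_mul, Prod.snd_mul, Prod.fst_inv, Prod.snd_inv, e, e', i1, i2]
    exacts [h3 _ _ _ ih, h2 _ _ (h3 _ _ _ (h2 _ _ ih))]

theorem ab_inj {k : ℕ} (h : k = 1 ∨ k = 9) {s t : K} (e : S.A k s * S.B k t = 1) : t = 0 := by
  have := S.chk_snd 1 s t (f := fn 1) (w := [(rt k 0, ms), (rt k 1, ms), (rt k 2, mt), (rt (k + 7) 2, o)])
    (w' := [(rt (k + 1) 2, mt), (rt (k + 7) 2, o), (rt k 0, ms), (rt k 1, ms), (rt k 2, mt)])
    (by rcases h with rfl | rfl <;> decide +kernel)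
  have : S.A k s * S.B k t * S.x (rt (k + 7) 2) 1 =
      S.x (rt (k + 1) 2) t * S.x (rt (k + 7) 2) 1 * (S.A k s * S.B k t) := by
    simpa only [A, B, mul_assoc, ev, mo, one_pow, map_one, mul_one, one_mul, ms, mt, o, List.map_cons, pow_one, pow_zero, List.map_nil, List.prod_cons, List.prod_nil] using this
  exact S.inj (rt (k + 1) 2) (by rcases h with rfl | rfl <;> decide) t (by simpa [e] using this)

theorem A_add {k : ℕ} (h : k ∈ [1, 9, 8, 16]) (s t : K) : S.A k (s + t) = S.A k s * S.A k t := by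
  have r : (∀ i < 3, (rt k i).B (rt k i) = 2) ∧ 0 ≤ (rt k 0).B (rt k 1) := by revert k; decide
  rw [A, A, A, (S.comm _ _ (r.1 0 (by decide)) (r.1 1 (by decide)) r.2 t s).symm.mul_mul_mul_comm,
    S.add _ (r.1 0 (by decide)), S.add _ (r.1 1 (by decide))]

theorem B_add {k : ℕ} (h : k ∈ [1, 9, 8, 16]) (s t : K) : S.B k (s + t) = S.B k s * S.B k t :=
  S.add _ (by revert k; decide) s t

theorem gr_x {k : ℕ} (h : k = 1 ∨ k = 9) (g : G) : (g, g) ∈ S.gr k ↔ ∃ t, g = S.T k 0 t := by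
  have hk : k ∈ [1, 9, 8, 16] := by rcases h with rfl | rfl <;> simp
  have c : ∀ s t, Commute (S.A k s) (S.B k t) := fun s t => by
    refine Commute.mul_left ?_ ?_ <;> apply S.comm <;> rcases h with rfl | rfl <;> decide
  have e : ∀ t, S.T k 0 t = S.A k t * S.B k (S.φ t) := fun t => (mul_assoc _ _ _).symm
  have a0 : S.A k 0 = 1 := by simpa using S.A_add hk 0 0
  have b0 : S.B k 0 = 1 := by simpa using S.B_add hk 0 0
  constructor
  · intro hg
    obtain ⟨s, t, e1, e2⟩ := S.gr_ind hk (R := fun g g' => ∃ s t, g = S.A k s * S.B k (S.φ t) ∧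
      g' = S.A k t * S.B k (S.φ s)) ⟨0, 0, by simp [a0, b0]⟩ (fun _ _ ⟨s, t, e⟩ => ⟨t, s, e.symm⟩)
      (by
        rintro w _ _ ⟨s, t, rfl, rfl⟩
        exact ⟨w + s, t, by rw [S.A_add hk, mul_assoc],
          by rw [map_add, S.B_add hk, (c _ _).left_comm]⟩) hg
    dsimp only at e1 e2
    have : S.A k (s + t) * S.B k (S.φ (s + t)) = 1 := by
      rw [S.A_add hk, map_add, add_comm (S.φ s), S.B_add hk, ← (c _ _).symm.mul_mul_mul_comm,
        ← e2, e1, (c _ _).symm.mul_mul_mul_comm, ← S.A_add hk, ← S.B_add hk, S.two, S.two, a0, b0, mul_one]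
    have := (map_eq_zero _).1 (S.ab_inj h this)
    obtain rfl : s = t := by linear_combination this - S.two t
    exact ⟨s, e1.trans (e s).symm⟩
  · rintro ⟨t, rfl⟩
    have := mul_mem (subset_closure (k := {q : G × G | ∃ t, q.1 = S.A k t ∧ q.2 = S.B k (S.φ t) ∨
      q.2 = S.A k t ∧ q.1 = S.B k (S.φ t)}) (show (S.A k t, S.B k (S.φ t)) ∈ _ from ⟨t, .inl ⟨rfl, rfl⟩⟩))
      (subset_closure (show (S.B k (S.φ t), S.A k t) ∈ _ from ⟨t, .inr ⟨rfl, rfl⟩⟩))
    rwa [Prod.mk_mul_mk, ← (c _ _).eq, ← e] at this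

theorem x_ne : S.T 1 0 1 ≠ 1 := fun h =>
  one_ne_zero ((map_one S.φ).symm.trans (S.ab_inj (.inl rfl) ((mul_assoc _ _ _).trans h)))

section
variable {k : ℕ} (h : k = 8 ∨ k = 16)
include h

theorem D_add (u v u' v' : K) : S.D k (u + u') (v + v') = S.D k u v * S.D k u' v' := by
  have r : ∀ i ∈ [3, 4, 5], ∀ j ∈ [3, 4, 5], (rt k i).B (rt k i) = 2 ∧ 0 ≤ (rt k i).B (rt k j) := by
    rcases h with rfl | rfl <;> decide
  have c : ∀ i ∈ [3, 4, 5], ∀ j ∈ [3, 4, 5], ∀ s t, Commute (S.x (rt k i) s) (S.x (rt k j) t) :=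
    fun i hi j hj => S.comm _ _ (r i hi j hj).1 (r j hj i hi).1 (r i hi j hj).2
  rw [D, D, D, ((c 4 (by simp) 3 (by simp) _ _).mul_left (c 5 (by simp) 3 (by simp) _ _)).mul_mul_mul_comm,
    (c 5 (by simp) 4 (by simp) _ _).mul_mul_mul_comm, S.add _ (r 3 (by simp) 3 (by simp)).1,
    S.add _ (r 4 (by simp) 3 (by simp)).1, S.add _ (r 5 (by simp) 3 (by simp)).1]

theorem BD (t u v : K) : Commute (S.B k t) (S.D k u v) := by
  refine Commute.mul_right ?_ (Commute.mul_right ?_ ?_) <;> apply S.comm <;>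
    rcases h with rfl | rfl <;> decide

theorem BA (s t : K) : S.B k t * S.A k s = S.A k s * (S.B k t * S.D k (s * t) (s ^ 2 * t)) := by
  simpa only [B, A, D, mul_assoc, ev, mo, one_pow, map_one, mul_one, one_mul, mt, ms, List.map_cons, pow_zero, pow_one, List.map_nil, List.prod_cons, List.prod_nil, Mo.mul, add_zero, zero_add, Nat.reduceAdd] using S.chk_snd 1 s t (f := fn 1)
    (w := [(rt k 2, mt), (rt k 0, ms), (rt k 1, ms)]) (w' := [(rt k 0, ms), (rt k 1, ms), (rt k 2, mt),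
      (rt k 3, ms.mul mt), (rt k 4, ms.mul mt), (rt k 5, (ms.mul ms).mul mt)])
    (by rcases h with rfl | rfl <;> decide +kernel)

theorem D_inj {u v : K} (e : S.D k u v = 1) : u = 0 := by
  have : S.x (rt k 1) 1 * S.D k u v = S.x (rt k 5) u * S.D k u v * S.x (rt k 1) 1 := by
    simpa only [D, mul_assoc, ev, mo, one_pow, map_one, mul_one, one_mul, o, ms, mt, List.map_cons, pow_zero, pow_one, List.map_nil, List.prod_cons, List.prod_nil] using S.chk_snd 1 u v (f := fn 1)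
      (w := [(rt k 1, o), (rt k 3, ms), (rt k 4, ms), (rt k 5, mt)])
      (w' := [(rt k 5, ms), (rt k 3, ms), (rt k 4, ms), (rt k 5, mt), (rt k 1, o)])
      (by rcases h with rfl | rfl <;> decide +kernel)
  exact S.inj (rt k 5) (by rcases h with rfl | rfl <;> decide) u (by simpa [e] using this)

theorem gr_y {g : G} (hg : (g, g) ∈ S.gr k) : ∃ t u, g = S.Y k t * S.T k 3 u := by
  have hk : k ∈ [1, 9, 8, 16] := by rcases h with rfl | rfl <;> simp
  have a0 : S.A k 0 = 1 := by simpa using S.A_add hk 0 0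
  have b0 : S.B k 0 = 1 := by simpa using S.B_add hk 0 0
  have d0 : S.D k 0 0 = 1 := by simpa using S.D_add h 0 0 0 0
  have m : ∀ t u v t' u' v', S.B k t * S.D k u v * (S.B k t' * S.D k u' v') =
      S.B k (t + t') * S.D k (u + u') (v + v') := fun _ _ _ _ _ _ => by
    rw [(S.BD h _ _ _).symm.mul_mul_mul_comm, S.B_add hk, S.D_add h]
  obtain ⟨s, t, u, v, e1, e2⟩ := S.gr_ind hk (R := fun g g' => ∃ s t u v,
    g = S.A k s * (S.B k (S.φ t) * S.D k u (S.φ v)) ∧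
    g' = S.A k t * (S.B k (S.φ s) * S.D k (v + t * S.φ s) (S.φ (u + s * S.φ t))))
    ⟨0, 0, 0, 0, by simp [a0, b0, d0]⟩
    (fun _ _ ⟨s, t, u, v, e⟩ => ⟨t, s, _, _, e.2, by simpa [add_assoc, S.two] using e.1⟩)
    (by
      rintro w _ _ ⟨s, t, u, v, rfl, rfl⟩
      refine ⟨w + s, t, u, v, by rw [S.A_add hk, mul_assoc], ?_⟩
      rw [← mul_assoc, S.BA h, mul_assoc, m]
      simp only [map_add, map_mul, S.φφ]
      congr 3 <;> ring) hg
  dsimp only at e1 e2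
  have e : S.A k (s + t) * (S.B k (S.φ s + S.φ t) *
      S.D k (v + t * S.φ s + u) (S.φ (u + s * S.φ t) + S.φ v)) = 1 := by
    rw [S.A_add hk, ← m, mul_assoc, ← mul_assoc (S.A k t), ← e2, e1, ← mul_assoc, ← mul_assoc,
      ← mul_assoc, ← S.A_add hk, S.two, a0, one_mul, mul_assoc (_ * _), m, S.two, S.two, S.two, b0, d0,
      mul_one]
  have st : s + t = 0 := by
    have f := S.BA h (s + t) 1
    have c : Commute (S.B k 1) (S.A k (s + t)) := by
      rw [eq_inv_of_mul_eq_one_left e]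
      refine (Commute.mul_right ?_ (S.BD h _ _ _)).inv_right
      rw [Commute, SemiconjBy, ← S.B_add hk, ← S.B_add hk, add_comm]
    rw [c.eq, mul_right_inj, left_eq_mul] at f
    simpa only [mul_one] using S.D_inj h f
  obtain rfl : s = t := by linear_combination st - S.two t
  rw [S.two, S.two, a0, b0, one_mul, one_mul] at e
  obtain rfl : u = s * S.φ s + v := by linear_combination S.two u - S.D_inj h e
  refine ⟨s, v, ?_⟩
  rw [e1, ← zero_add (S.φ v), S.D_add h]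
  simp only [A, B, D, Y, T, mul_assoc, S.x0 (β := rt k 5) (by rcases h with rfl | rfl <;> decide), one_mul]

theorem gr_z (u : K) : (S.T k 3 u, S.T k 3 u) ∈ S.gr k := by
  have d0 : S.D k 0 0 = 1 := by simpa using S.D_add h 0 0 0 0
  change (S.D k u (S.φ u), S.D k u (S.φ u)) ∈ _
  by_cases u0 : u = 0
  · rw [u0, map_zero, d0]; exact one_mem _
  obtain ⟨t, rfl⟩ : ∃ t, u = t * S.φ t := ⟨S.φ u / u, by
    have := (map_ne_zero S.φ).2 u0
    rw [map_div₀, S.φφ]; field_simp⟩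
  have p1 : (S.A k t, S.B k (S.φ t)) ∈ S.gr k := subset_closure ⟨t, .inl ⟨rfl, rfl⟩⟩
  have p2 : (S.B k (S.φ t), S.A k t) ∈ S.gr k := subset_closure ⟨t, .inr ⟨rfl, rfl⟩⟩
  have := mul_mem (inv_mem (mul_mem p1 p2)) (mul_mem p2 p1)
  have i : (S.D k (t * S.φ t) (t ^ 2 * S.φ t))⁻¹ = S.D k (t * S.φ t) (t ^ 2 * S.φ t) :=
    inv_eq_of_mul_eq_one_right (by rw [← S.D_add h, S.two, S.two, d0])
  simp only [Prod.mk_mul_mk, Prod.inv_mk, S.BA h, ← mul_assoc, inv_mul_cancel, one_mul, mul_inv_rev,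
    inv_mul_cancel_right, i] at this
  rwa [map_mul, S.φφ, mul_comm (S.φ t)]

end

theorem main [Finite K] {Q : Subgroup G}
    (hQ : Q = closure {g | ∃ k ∈ [1, 9, 8, 16], (g, g) ∈ S.gr k}) :
    IsLeast {n | Good (⁅Q, Q⁆ : Subgroup G) n} 3 := by
  have h1 : ∀ t, S.T 1 0 t ∈ Q ∧ S.T 9 0 t ∈ Q := fun t => hQ ▸
    ⟨subset_closure ⟨1, by simp, (S.gr_x (.inl rfl) _).2 ⟨t, rfl⟩⟩,
      subset_closure ⟨9, by simp, (S.gr_x (.inr rfl) _).2 ⟨t, rfl⟩⟩⟩
  have z8 : ∀ s, S.T 8 3 s ∈ Q := fun s => hQ ▸ subset_closure ⟨8, by simp, S.gr_z (.inl rfl) s⟩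
  have z16 : ∀ s, S.T 16 3 s ∈ Q := fun s => hQ ▸ subset_closure ⟨16, by simp, S.gr_z (.inr rfl) s⟩
  have h3 : ∀ P : Subgroup G, (∀ t, S.T 1 0 t ∈ P ∧ S.T 9 0 t ∈ P) →
      (∀ t u, S.Y 8 t * S.T 8 3 u ∈ P ∧ S.Y 16 t * S.T 16 3 u ∈ P) → Q ≤ P := fun P p1 p2 => by
    rw [hQ, closure_le]
    rintro g ⟨k, hk, hg⟩
    simp only [List.mem_cons, List.not_mem_nil, or_false] at hk
    rcases hk with rfl | rfl | rfl | rfl
    · obtain ⟨t, rfl⟩ := (S.gr_x (.inl rfl) _).1 hg; exact (p1 t).1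
    · obtain ⟨t, rfl⟩ := (S.gr_x (.inr rfl) _).1 hg; exact (p1 t).2
    · obtain ⟨t, u, rfl⟩ := S.gr_y (.inl rfl) hg; exact (p2 t u).1
    · obtain ⟨t, u, rfl⟩ := S.gr_y (.inr rfl) hg; exact (p2 t u).2
  obtain ⟨u, hu⟩ := IsCyclic.exists_monoid_generator (α := Kˣ)
  have hu' : ∀ s : K, s ≠ 0 → ∃ n : ℕ, s = ((u : K) ^ 2) ^ n := fun s s0 => by
    have sj := Finite.surjective_of_injective S.φ.injective
    obtain ⟨r, rfl⟩ := (sj.comp sj) s
    obtain ⟨n, hn⟩ := hu (Units.mk0 r (by rintro rfl; simp at s0))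
    exact ⟨n, by rw [Function.comp, S.φφ, pow_right_comm, ← Units.val_pow_eq_pow_val,
      show u ^ n = _ from hn]; rfl⟩
  have ec : S.nn n8 * S.a * (S.nn n8)⁻¹ = S.c := by
    rw [a_eq, c_eq, ← S.cT (N := n8) (k := 1) (k' := 7) (by decide +kernel),
      ← S.cT (N := n8) (k := 9) (k' := 15) (by decide +kernel)]
    group
  have ha : S.a ∈ Q := S.a_eq ▸ mul_mem (mul_mem (h1 1).1 (h1 1).2) (h1 1).1
  have hc : S.c ∈ Q := ec ▸ cj_mem (S.n8_mem (z8 1) (z16 1)) ha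
  have fQ : S.Fu Q := S.fu_of (fun _ => cj_mem ha) (fun _ => cj_mem hc) fun s =>
    S.cT (N := nk 7) (k := 2) (k' := 4) (i := 3) (by decide +kernel) s ▸ cj_mem hc
      (S.cT (N := nk 1) (k := 8) (k' := 2) (i := 3) (by decide +kernel) s ▸ cj_mem ha (z8 s))
  have f := fQ.comm
  have m8 : S.nn n8 ∈ ⁅Q, Q⁆ := S.n8_mem (f.z 8 (by simp) 1) (f.z 16 (by simp) 1)
  set H := closure {S.a, S.b u, S.c} with hH
  have le : ∀ {P}, S.Fu P → H ≤ P := fun h => (closure_le _).2 (by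
    rintro _ (rfl | rfl | rfl); exacts [h.a, h.b u, h.c])
  have fH : S.Fu H := S.fu_gen u.ne_zero hu' (subset_closure (by simp)) (subset_closure (by simp))
    (subset_closure (by simp))
  have yy : ∀ t, S.Y 4 t * S.Y 4 t ∈ H := fun t => by
    have := fH.e2 1 1 t (w := [lz 4 (mt.mul mt.ph)]) rfl
    rw [← S.ck_snd 1 1 t (j := 1) (w := [.y 4 mt, .y 4 mt]) (by decide +kernel)] at this
    simpa [e2, l2, mo, mt] using this
  have gen : H = ⁅Q, Q⁆ := by
    refine le_antisymm (le f) ?_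
    have s1 : H ≤ closure (H ∪ Set.range (S.Y 4)) := fun g hg => subset_closure (Or.inl hg)
    have s2 : ∀ t, S.Y 4 t ∈ closure (H ∪ Set.range (S.Y 4)) := fun t => subset_closure (Or.inr ⟨t, rfl⟩)
    have : Q ≤ closure (H ∪ Set.range (S.Y 4)) := h3 _
      (fun t => ⟨s1 (fH.x 1 (by simp) t), s1 (fH.x 9 (by simp) t)⟩) fun t s =>
      ⟨mul_mem (S.cY (N := nk 1 ++ nk 7) (k := 4) (k' := 8) (by decide +kernel) t ▸ cj_mem
        (by rw [nn, List.map_append, List.prod_append]; exact s1 (mul_mem fH.a fH.c)) (s2 t))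
        (s1 (fH.z 8 (by simp) s)),
      mul_mem (S.cY (N := nk 7 ++ nk 1) (k := 4) (k' := 16) (by decide +kernel) t ▸ cj_mem
        (by rw [nn, List.map_append, List.prod_append]; exact s1 (mul_mem fH.c fH.a)) (s2 t))
        (s1 (fH.z 16 (by simp) s))⟩
    refine (commutator_mono this this).trans (comm_le ?_ ?_)
    · rintro g (hg | ⟨t, rfl⟩)
      · exact le_normalizer hg
      · refine fun g => ⟨S.y_cj fH u t, fun hg => ?_⟩
        have := cj_mem (inv_mem (yy t)) (S.y_cj fH u t hg)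
        rwa [show ∀ y g : G, (y * y)⁻¹ * (y * (y * g * y⁻¹) * y⁻¹) * (y * y)⁻¹⁻¹ = g from
          fun _ _ => by group] at this
    · rintro g (hg | ⟨t, rfl⟩) g' (hg' | ⟨s, rfl⟩)
      · exact mul_mem (cj_mem hg hg') (inv_mem hg')
      · rw [commutatorElement_def, mul_assoc, mul_assoc, ← mul_assoc (S.Y 4 s)]
        exact mul_mem hg (S.y_cj fH u s (inv_mem hg))
      · exact mul_mem (S.y_cj fH u t hg') (inv_mem hg')
      · have := S.ck_snd 1 t s (j := 1) (w := [.y 4 ms, .y 4 mt]) (w' := [lz 4 (ms.mul mt.ph),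
          lz 4 (mt.mul ms.ph)] ++ [.y 4 mt, .y 4 ms]) (by decide +kernel)
        rw [e2_app, ← mul_inv_eq_iff_eq_mul] at this
        have m := fH.e2 1 t s (w := [lz 4 (ms.mul mt.ph), lz 4 (mt.mul ms.ph)]) rfl
        rw [← this] at m
        simpa only [commutatorElement_def, mul_assoc, e2, ms, mt, List.map_cons, l2, mo, pow_zero, map_one, mul_one, pow_one, one_mul, List.map_nil, List.prod_cons, List.prod_nil, mul_inv_rev] using m
  refine least_sub gen (gen ▸ le (gen ▸ f.comm)) (fun h => S.x_ne ?_) S.aa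
    (S.cw_snd u 1 1 (N := nk 1) (w := bw) (w' := bw) (by decide +kernel)) ?_ ⟨_, m8, ec⟩
  · simpa only [h, mem_bot] using f.x 1 (by simp) 1
  have e1 := S.g_x7 1
  have e2 := S.ck_snd u 1 1 (j := 1) (w := [lz 2 (p 1 0), lz 8 (p 1 0), lz 2 o] ++ [lx 3 o, lz 4 o, lx 7 o])
    (w' := bw ++ [lz 2 (p 1 0), lz 8 (p 1 0), lz 2 o]) (by decide +kernel)
  have e3 : S.c * S.T 15 0 1 * S.c⁻¹ = S.T 7 0 1 := S.cT (N := nk 7) (by decide +kernel) 1
  have e4 : S.T 7 0 1 * S.c * (S.T 7 0 1)⁻¹ = S.T 15 0 1 := by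
    rw [c_eq, ← mul_assoc, mul_inv_cancel_right, ← mul_assoc, sq7, one_mul]
  have e5 : S.e2 u 1 1 [lx 3 o, lz 4 o, lx 7 o] = S.T 3 0 1 * S.T 4 3 1 * S.T 7 0 1 := by
    simp [Sys.e2, l2, lx, lz, mo, o, mul_assoc]
  rw [cA_one, one_pow, ← mul_assoc, ← mul_inv_eq_iff_eq_mul] at e1
  rw [e2_app, e2_app, e5, ← mul_inv_eq_iff_eq_mul] at e2
  refine ⟨S.e2 u 1 1 [lz 2 (p 1 0), lz 8 (p 1 0), lz 2 o] * (S.e2 1 1 1 gw * (S.c * (S.T 7 0 1 *
    S.nn n8))), mul_mem (f.e2 _ _ _ rfl) (mul_mem (S.g_eq 1 ▸ mul_mem (mul_mem (mul_mem (f.b 1) f.c)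
    (mul_mem (f.b 1) f.c)) (mul_mem (f.b 1) f.c)) (mul_mem f.c (mul_mem (f.x 7 (by simp) 1) m8))), ?_⟩
  have : ∀ g h a : G, g * h * a * (g * h)⁻¹ = g * (h * a * h⁻¹) * g⁻¹ := fun _ _ _ => by group
  rw [this, this, this, this, ec, e4, e3, e1]
  exact e2

end Sys

end Pool.Agent.MP_c78e8e_al.H75.Ree

end

section

namespace Pool.Agent.MP_c78e8e_al.H75

open Subgroup Matrix

namespace Ree

def V6.vec (x : V6) : Fin 6 → ℤ := ![x.a, x.b, x.c, x.d, x.e, x.f]

theorem V6.B_eq (x y : V6) : x.B y = fm CartanMatrix.E₆ x.vec y.vec := by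
  simp only [B, CartanMatrix.E₆, Int.reduceNeg, vec, ← fm_apply, form_eq, of_apply, cons_val', cons_val_fin_one, Fin.sum_univ_succ, Fin.isValue, cons_val_zero, cons_val_succ, Finset.univ_unique, Fin.default_eq_zero, Finset.sum_const, Finset.card_singleton, Int.nsmul_eq_mul, Nat.cast_one, one_mul, zero_mul, neg_mul, add_zero, zero_add]; ring

variable {K : Type} [Field K] (φ : K →+* K) (hφ : ∀ s, φ (φ s) = s ^ 2)

/-- The adjoint model. -/
noncomputable def sys : Sys (Equiv.Perm (Lie CartanMatrix.E₆ K)) K :=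
  let M := model (ρ := 1) (φ := RingHom.id K) (fun _ => rfl) (fun _ _ => rfl) (fun _ => rfl) good6 1 0 0
    (by simp) (by simp only [Equiv.Perm.coe_one, CompTriple.comp_eq, AddMonoidHom.zero_apply, implies_true]) fun β _ _ => by
      simp [tw, fun i j : Fin 6 => show ¬ (i < j ∧ j < i) from fun h => lt_asymm h.1 h.2]
  have pm : ∀ e : K, Pm e → e = 1 := fun e h => h.elim id fun h => by
    have := hφ (1 + 1)
    simp only [map_add, map_one] at this
    linear_combination h + this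
  { x β s := M.x β.vec s
    add β h := M.x_add _ (β.B_eq β ▸ h :)
    comm β γ h h' b := M.x_comm _ _ (β.B_eq β ▸ h :) (γ.B_eq γ ▸ h' :) (β.B_eq γ ▸ b :)
    rel β γ h h' b s t := by
      obtain ⟨e, he, r, -⟩ := M.x_rel _ _ (β.B_eq β ▸ h :) (γ.B_eq γ ▸ h' :) (β.B_eq γ ▸ b :)
      rw [r, pm e he, one_mul]
      congr 1
      ext i; fin_cases i <;> rfl
    cj β γ h h' s := by
      obtain ⟨-, e, he, r⟩ := M.n_cj (β.B_eq β ▸ h :) (γ.B_eq γ ▸ h' :)
      have e1 : β.neg.vec = -β.vec := by ext i; fin_cases i <;> rfl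
      have e2 : (β.rf γ).vec = M.rf β.vec γ.vec := by
        change _ = γ.vec - fm _ γ.vec β.vec • β.vec
        rw [← V6.B_eq]
        ext i; fin_cases i <;> rfl
      rw [e1, e2, ← one_mul s, ← pm e he, ← r, pm e he, one_mul]; rfl
    inj β h _ e := M.x_eq_one (β.B_eq β ▸ h :) e
    φ := φ
    φφ := hφ }

theorem sys_x {β : V6} (h : β.B β = 2) (t : K) : ⇑((sys φ hφ).x β t) = xo CartanMatrix.E₆ β.vec t := by
  funext v
  change good6.xx β.vec _ _ = _
  rw [good6.xx_apply (β.B_eq β ▸ h :)]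
  simp

theorem gr_eq {k : ℕ} {e : ℤˣ} {i j l : Fin 6} (h : ∀ n < 3, (rt k n).B (rt k n) = 2)
    (h0 : (rt k 0).vec = Pi.single i (e : ℤ)) (h1 : (rt k 1).vec = Pi.single j (e : ℤ))
    (h2 : (rt k 2).vec = Pi.single l (e : ℤ)) : (sys φ hφ).gr k = Subgroup.closure
    {p : Equiv.Perm (Lie CartanMatrix.E₆ K) × Equiv.Perm (Lie CartanMatrix.E₆ K) | ∃ t,
      ⇑p.1 = rx _ [i, j] e t ∧ ⇑p.2 = rx _ [l] e (φ t) ∨ ⇑p.2 = rx _ [i, j] e t ∧ ⇑p.1 = rx _ [l] e (φ t)} := by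
  have a : ∀ t, rx _ [i, j] e t = ⇑((sys φ hφ).A k t) := fun t => by
    rw [Sys.A, Equiv.Perm.coe_mul, sys_x φ hφ (h 0 (by decide)), sys_x φ hφ (h 1 (by decide)), h0, h1]; rfl
  have b : ∀ t, rx _ [l] e t = ⇑((sys φ hφ).B k t) := fun t => by
    rw [Sys.B, sys_x φ hφ (h 2 (by decide)), h2]; rfl
  simp only [a, b, DFunLike.coe_fn_eq]
  rfl

end Ree

open Ree in
/-- The Ree groups of type `F₄` and the Tits group. -/
theorem ree_good (K : Type) [Field K] [Finite K] (φ : K →+* K) (hφ : ∀ s, φ (φ s) = s ^ 2) :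
    IsLeast {n : ℕ | Good (⁅ree CartanMatrix.E₆ [([0, 5], 1), ([2, 4], 3)] φ,
      ree CartanMatrix.E₆ [([0, 5], 1), ([2, 4], 3)] φ⁆ : Subgroup _) n} 3 := by
  refine (sys φ hφ).main (congrArg Subgroup.closure (Set.ext fun g => ?_))
  simp only [Set.mem_ofPred_eq, List.mem_cons, List.not_mem_nil, or_false, exists_eq_or_imp, exists_eq_left]
  rw [gr_eq φ hφ (k := 1) (e := 1) (i := 0) (j := 5) (l := 1) (by decide) (by decide) (by decide) (by decide),
    gr_eq φ hφ (k := 9) (e := -1) (i := 0) (j := 5) (l := 1) (by decide) (by decide) (by decide) (by decide),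
    gr_eq φ hφ (k := 8) (e := 1) (i := 2) (j := 4) (l := 3) (by decide) (by decide) (by decide) (by decide),
    gr_eq φ hφ (k := 16) (e := -1) (i := 2) (j := 4) (l := 3) (by decide) (by decide) (by decide) (by decide)]
  have : ∀ P : ℤˣ → Prop, (∃ e, P e) ↔ P 1 ∨ P (-1) := fun P =>
    ⟨fun ⟨e, h⟩ => by rcases Int.units_eq_one_or e with rfl | rfl <;> simp [h], fun h => h.elim (⟨_, ·⟩) (⟨_, ·⟩)⟩
  rw [this, this, or_assoc]

end Pool.Agent.MP_c78e8e_al.H75

end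

section

namespace Pool.Agent.MP_c78e8e_al.H75.Ree

open Subgroup
open scoped commutatorElement

/-- The unipotent group of type `B₂` in characteristic two. -/
structure B2 (G K : Type) [Group G] [Field K] where
  A : K → G
  B : K → G
  D : K → K → G
  A_add : ∀ s t, A (s + t) = A s * A t
  B_add : ∀ s t, B (s + t) = B s * B t
  D_add : ∀ u v u' v', D (u + u') (v + v') = D u v * D u' v'
  AD : ∀ t u v, A t * D u v = D u v * A t
  BD : ∀ t u v, B t * D u v = D u v * B t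
  BA : ∀ s t, B t * A s = A s * (B t * D (s * t) (s ^ 2 * t))
  D_inj : ∀ u v, D u v = 1 → u = 0

variable {G G' K : Type} [Group G] [Group G'] [Field K] {φ : K →+* K} (hφ : ∀ s, φ (φ s) = s ^ 2)

namespace B2

variable (S : B2 G K)

def map (f : G →* G') (h : ∀ u v, f (S.D u v) = 1 → u = 0) : B2 G' K where
  A t := f (S.A t)
  B t := f (S.B t)
  D u v := f (S.D u v)
  A_add s t := by rw [S.A_add, map_mul]
  B_add s t := by rw [S.B_add, map_mul]
  D_add u v u' v' := by rw [S.D_add, map_mul]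
  AD t u v := by rw [← map_mul, S.AD, map_mul]
  BD t u v := by rw [← map_mul, S.BD, map_mul]
  BA s t := by rw [← map_mul, S.BA, map_mul, map_mul]
  D_inj := h

/-- The fixed points. -/
def u (φ : K →+* K) (a b : K) : G := S.A a * (S.B (φ a) * S.D b (φ b + a ^ 2 * φ a))

include hφ

theorem two (s : K) : s + s = 0 := by
  have := hφ (1 + 1)
  simp only [map_add, map_one] at this
  linear_combination (-s) * this

theorem fix (h2 : ∃ s : K, s ≠ 0 ∧ s ≠ 1) (g : G) : (g, g) ∈ closure {q : G × G | ∃ t,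
    q.1 = S.A t ∧ q.2 = S.B (φ t) ∨ q.2 = S.A t ∧ q.1 = S.B (φ t)} ↔ ∃ a b, g = S.u φ a b := by
  have tw := two hφ
  have a0 : S.A 0 = 1 := by simpa using S.A_add 0 0
  have b0 : S.B 0 = 1 := by simpa using S.B_add 0 0
  have d0 : S.D 0 0 = 1 := by simpa using S.D_add 0 0 0 0
  have m : ∀ t u v t' u' v', S.B t * S.D u v * (S.B t' * S.D u' v') =
      S.B (t + t') * S.D (u + u') (v + v') := fun _ _ _ _ _ _ => by
    rw [Commute.mul_mul_mul_comm (S.BD _ _ _).symm, S.B_add, S.D_add]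
  set P : Subgroup (G × G) := closure {q : G × G | ∃ t,
    q.1 = S.A t ∧ q.2 = S.B (φ t) ∨ q.2 = S.A t ∧ q.1 = S.B (φ t)}
  constructor
  · intro hg
    let R : G → G → Prop := fun g g' => ∃ s t u v, g = S.A s * (S.B (φ t) * S.D u (φ v)) ∧
      g' = S.A t * (S.B (φ s) * S.D (v + t * φ s) (φ (u + s * φ t)))
    have r2 : ∀ g g', R g g' → R g' g := fun _ _ ⟨s, t, u, v, e⟩ =>
      ⟨t, s, _, _, e.2, by simpa [add_assoc, tw] using e.1⟩
    have r3 : ∀ t g g', R g g' → R (S.A t * g) (S.B (φ t) * g') := by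
      rintro w _ _ ⟨s, t, u, v, rfl, rfl⟩
      refine ⟨w + s, t, u, v, by rw [S.A_add, mul_assoc], ?_⟩
      rw [← mul_assoc, S.BA, mul_assoc, m]
      simp only [map_add, map_mul, hφ]
      congr 3 <;> ring
    have i1 : ∀ t, (S.A t)⁻¹ = S.A t := fun t => inv_eq_of_mul_eq_one_right (by rw [← S.A_add, tw, a0])
    have i2 : ∀ t, (S.B t)⁻¹ = S.B t := fun t => inv_eq_of_mul_eq_one_right (by rw [← S.B_add, tw, b0])
    have : ∀ q ∈ P, R q.1 q.2 := fun q hq => by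
      induction hq using closure_induction_left with
      | one => exact ⟨0, 0, 0, 0, by simp [a0, b0, d0]⟩
      | mul_left a ha b _ ih =>
        obtain ⟨t, ⟨e, e'⟩ | ⟨e, e'⟩⟩ := ha <;> simp only [Prod.fst_mul, Prod.snd_mul, e, e']
        exacts [r3 _ _ _ ih, r2 _ _ (r3 _ _ _ (r2 _ _ ih))]
      | inv_mul_cancel a ha b _ ih =>
        obtain ⟨t, ⟨e, e'⟩ | ⟨e, e'⟩⟩ := ha <;>
          simp only [Prod.fst_mul, Prod.snd_mul, Prod.fst_inv, Prod.snd_inv, e, e', i1, i2]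
        exacts [r3 _ _ _ ih, r2 _ _ (r3 _ _ _ (r2 _ _ ih))]
    obtain ⟨s, t, u, v, e1, e2⟩ := this _ hg
    dsimp only at e1 e2
    have e : S.A (s + t) * (S.B (φ s + φ t) * S.D (v + t * φ s + u) (φ (u + s * φ t) + φ v)) = 1 := by
      rw [S.A_add, ← m, mul_assoc, ← mul_assoc (S.A t), ← e2, e1, ← mul_assoc, ← mul_assoc,
        ← mul_assoc, ← S.A_add, tw, a0, one_mul, mul_assoc (_ * _), m, tw, tw, tw, b0, d0, mul_one]
    have st : s + t = 0 := by
      have f := S.BA (s + t) 1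
      have c : Commute (S.B 1) (S.A (s + t)) := by
        rw [eq_inv_of_mul_eq_one_left e]
        refine (Commute.mul_right ?_ (S.BD _ _ _)).inv_right
        rw [Commute, SemiconjBy, ← S.B_add, ← S.B_add, add_comm]
      rw [c.eq, mul_right_inj, left_eq_mul] at f
      simpa only [mul_one] using S.D_inj _ _ f
    obtain rfl : s = t := by linear_combination st - tw t
    rw [tw, tw, a0, b0, one_mul, one_mul] at e
    obtain rfl : v = s * φ s + u := by linear_combination tw v - S.D_inj _ _ e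
    exact ⟨s, u, by rw [e1, B2.u, map_add, map_mul, hφ, add_comm, mul_comm (φ s)]⟩
  · rintro ⟨a, b, rfl⟩
    have p1 : ∀ t, (S.A t, S.B (φ t)) ∈ P := fun t => subset_closure ⟨t, .inl ⟨rfl, rfl⟩⟩
    have p2 : ∀ t, (S.B (φ t), S.A t) ∈ P := fun t => subset_closure ⟨t, .inr ⟨rfl, rfl⟩⟩
    have i : ∀ u v, (S.D u v)⁻¹ = S.D u v := fun u v =>
      inv_eq_of_mul_eq_one_right (by rw [← S.D_add, tw, tw, d0])
    let Q : K → K → Prop := fun u v => (S.D u (φ v), S.D v (φ u)) ∈ P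
    have q1 : ∀ u v u' v', Q u v → Q u' v' → Q (u + u') (v + v') := fun u v u' v' h h' => by
      simpa only [Q, map_add, S.D_add, Prod.mk_mul_mk] using mul_mem h h'
    have q2 : ∀ s t, Q (t * φ s) (s * φ t) := fun s t => by
      have := mul_mem (inv_mem (mul_mem (p1 t) (p2 s))) (mul_mem (p2 s) (p1 t))
      simp only [Prod.mk_mul_mk, Prod.inv_mk, S.BA, ← mul_assoc, inv_mul_cancel, one_mul, mul_inv_rev,
        inv_mul_cancel_right, i] at this
      simpa only [Q, map_mul, hφ, mul_comm] using this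
    have nm : ∀ w, ∃ t, w = t * φ t := fun w => by
      by_cases w0 : w = 0
      · exact ⟨0, by simp [w0]⟩
      have := (map_ne_zero φ).2 w0
      exact ⟨φ w / w, by rw [map_div₀, hφ]; field_simp⟩
    have q3 : ∀ w, Q w w := fun w => by obtain ⟨t, rfl⟩ := nm w; exact q2 t t
    have q4 : ∀ w, Q 0 w := fun w => by
      obtain ⟨s, s0, s1⟩ := h2
      have n2 : s + φ s ≠ 0 := fun h => by
        have := congrArg φ h
        rw [map_add, hφ, map_zero] at this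
        exact mul_ne_zero s0 (sub_ne_zero.2 s1) (by linear_combination this - h)
      obtain ⟨t, ht⟩ := nm (w / (s + φ s))
      have := q1 _ _ _ _ (q2 t (t * s)) (q3 (t * s * φ t))
      rwa [tw, map_mul, show t * (φ t * φ s) + t * s * φ t = w by
        rw [div_eq_iff n2] at ht; rw [ht]; ring] at this
    have := mul_mem (mul_mem (p1 a) (p2 a)) (q1 _ _ _ _ (q3 b) (q4 (a * φ a)))
    rw [Prod.mk_mul_mk, Prod.mk_mul_mk, S.BA, mul_assoc, mul_assoc, mul_assoc, ← S.D_add, map_add,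
      map_mul, hφ, add_zero, add_comm b, ← add_assoc, tw, zero_add, add_comm (a ^ 2 * φ a),
      mul_comm (φ a)] at this
    exact this

theorem u_mul (a b c d : K) : S.u φ a b * S.u φ c d = S.u φ (a + c) (b + d + φ a * c) := by
  have : ∀ t u v, S.B t * S.D u v * S.A c = S.A c * (S.B t * S.D (c * t + u) (c ^ 2 * t + v)) :=
    fun t u v => by rw [mul_assoc, ← S.AD, ← mul_assoc, S.BA, S.D_add]; group
  rw [u, u, u, mul_assoc, ← mul_assoc (_ * _), this, S.A_add, mul_assoc (S.A c), mul_assoc (S.A a),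
    Commute.mul_mul_mul_comm (S.BD _ _ _).symm, ← S.B_add, ← S.D_add]
  simp only [map_add, map_mul, hφ]
  congr 4
  · ring
  · linear_combination two hφ (-(a ^ 2 * φ c) - a * c * φ a - a * c * φ c)

end B2

/-- The relations in the Suzuki groups. -/
structure Suz (G : Type) [Group G] {K : Type} [Field K] (φ : K →+* K) where
  u : K → K → G
  h : K → G
  n : G
  u_mul : ∀ a b c d, u a b * u c d = u (a + c) (b + d + φ a * c)
  h_mul : ∀ x y, x ≠ 0 → y ≠ 0 → h (x * y) = h x * h y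
  h_u : ∀ x a b, x ≠ 0 → h x * u a b = u (x * a) (x * φ x * b) * h x
  n_h : ∀ x, x ≠ 0 → n * h x = h x⁻¹ * n
  nn : n * n = 1
  nz : n * u 0 1 * n * u 1 0 = u 1 0 * n
  key : ∃ s x r l, s ≠ 0 ∧ x ≠ 0 ∧ r ≠ 0 ∧ r ≠ 1 ∧ l ≠ 0 ∧ n * (u 1 1 * (n * u 0 s * n) * u 1 0) * h l *
    (u 1 1 * (n * u 0 s * n) * u 1 0) * u x 0 = u x 0 * n * h (r / x ^ 2)
  ne : u 0 1 ≠ 1

namespace Suz

variable (S : Suz G φ)

theorem u0 : S.u 0 0 = 1 := by simpa using S.u_mul 0 0 0 0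

theorem h1 : S.h 1 = 1 := by simpa using S.h_mul 1 1 one_ne_zero one_ne_zero

theorem hi {x : K} (h : x ≠ 0) : (S.h x)⁻¹ = S.h x⁻¹ :=
  inv_eq_of_mul_eq_one_right (by rw [← S.h_mul _ _ h (inv_ne_zero h), mul_inv_cancel₀ h, h1])

theorem cu {x : K} (h : x ≠ 0) (a b : K) : S.h x * S.u a b * (S.h x)⁻¹ = S.u (x * a) (x * φ x * b) := by
  rw [S.h_u _ _ _ h, mul_inv_cancel_right]

theorem cn {t k : K} (h : t ≠ 0) (h' : k ≠ 0) : S.h t * (S.n * S.h k) * (S.h t)⁻¹ = S.n * S.h (k / t ^ 2) := by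
  have i := inv_ne_zero h
  have := S.n_h _ i
  rw [inv_inv] at this
  rw [← mul_assoc, ← this, S.hi h, mul_assoc, mul_assoc, ← S.h_mul _ _ h' i, ← S.h_mul _ _ i (mul_ne_zero h' i)]
  congr 2; field_simp

theorem cw {t k : K} (h : t ≠ 0) (h' : k ≠ 0) (x : K) :
    S.h t * (S.u x 0 * (S.n * S.h k) * (S.u x 0)⁻¹) * (S.h t)⁻¹ =
      S.u (t * x) 0 * (S.n * S.h (k / t ^ 2)) * (S.u (t * x) 0)⁻¹ := by
  have := S.cu h x 0
  rw [mul_zero] at this
  rw [← S.cn h h', ← this]; group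

theorem cz {t : K} (h : t ≠ 0) : S.h t * (S.n * S.u 0 1 * S.n) * (S.h t)⁻¹ = S.n * S.u 0 (t * φ t)⁻¹ * S.n := by
  have i := inv_ne_zero h
  have e := S.n_h _ i
  have := S.cu i 0 1
  rw [mul_zero, mul_one, map_inv₀, ← mul_inv, S.hi i, inv_inv] at this
  rw [inv_inv] at e
  rw [← this, S.hi h, mul_assoc, mul_assoc, e, ← mul_assoc, ← mul_assoc, ← mul_assoc, ← e]; group

theorem zp {t : K} (h : t ≠ 0) : S.n * S.u 0 (t * φ t)⁻¹ * S.n =
    S.u t 0 * (S.n * S.h (1 / t ^ 2)) * (S.u t 0)⁻¹ := by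
  have := S.cw h one_ne_zero 1
  rw [mul_one] at this
  rw [← S.cz h, ← this, h1, mul_one, ← S.nz, mul_inv_cancel_right]

include hφ

theorem ui (a b : K) : (S.u a b)⁻¹ = S.u a (b + φ a * a) :=
  inv_eq_of_mul_eq_one_right (by rw [S.u_mul, B2.two hφ, ← add_assoc, B2.two hφ, zero_add, B2.two hφ, u0])

omit S in
theorem nm {w : K} (h : w ≠ 0) : φ w / w * φ (φ w / w) = w := by
  have := (map_ne_zero φ).2 h
  rw [map_div₀, hφ]; field_simp

omit S in
theorem n1 {r : K} (h : r * φ r = 1) : r = 1 := by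
  have := congrArg φ h
  rw [map_mul, hφ, map_one] at this
  linear_combination this - r * h

theorem u_mem {H : Subgroup G} (hh : ∀ x, x ≠ 0 → S.h x ∈ H) (hn : S.n ∈ H) {r : K} (r0 : r ≠ 0) (r1 : r ≠ 1)
    (hW : ∀ y, y ≠ 0 → S.u y 0 * (S.n * S.h (r / y ^ 2)) * (S.u y 0)⁻¹ ∈ H) (a b : K) : S.u a b ∈ H := by
  have tw := B2.two hφ
  obtain ⟨X, rfl⟩ : ∃ X, r = 1 + X := ⟨1 + r, by rw [← add_assoc, tw, zero_add]⟩
  have X0 : X ≠ 0 := fun h => r1 (by simp [h])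
  have Y0 := (map_ne_zero φ).2 X0
  have Y1 := (map_ne_zero φ).2 r0
  have N1 : X * φ X + 1 ≠ 0 := fun h => r0 (by rw [n1 hφ (r := X) (by linear_combination h - tw 1), tw])
  have N2 := (map_ne_zero φ).2 N1
  rw [map_add, map_one] at Y1 N2
  rw [map_mul, hφ, mul_comm] at N2
  obtain ⟨m, m0⟩ : ∃ m : K → G, ∀ y, m y = S.u y 0 * S.h (1 + X) * (S.u y 0)⁻¹ := ⟨_, fun _ => rfl⟩
  have hm : ∀ y, ∃ c, m y = S.u (y * X) c * S.h (1 + X) := fun y => by
    rw [show y * X = y + (1 + X) * y by linear_combination -tw y]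
    exact ⟨_, by rw [m0, S.ui hφ, mul_assoc, S.h_u _ _ _ r0, ← mul_assoc, S.u_mul]⟩
  have hZ : ∀ y w, y ≠ 0 → (y * φ y)⁻¹ = w → S.n * S.u 0 w * S.n * m y ∈ H := fun y w y0 e => by
    have := hW y y0
    rw [show (1 + X) / y ^ 2 = 1 / y ^ 2 * (1 + X) by ring, S.h_mul _ _ (by simpa only [one_div, ne_eq, inv_eq_zero, OfNat.ofNat_ne_zero, not_false_eq_true, pow_eq_zero_iff]) r0] at this
    rw [← e, S.zp y0]
    convert this using 1; rw [m0]; group
  have e1 : S.h (1 + X) * (m 1)⁻¹ * S.u X 0 = S.u 0 (φ X * (1 + X)) := by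
    have : S.h (1 + X) * (m 1)⁻¹ = S.h (1 + X) * S.u 1 0 * (S.h (1 + X))⁻¹ * (S.u 1 0)⁻¹ := by
      rw [m0]; group
    rw [this, S.cu r0, S.ui hφ, S.u_mul, S.u_mul]
    simp only [map_add, map_mul, map_one]
    congr 1
    · linear_combination tw (1 + X)
    · linear_combination tw (1 + X)
  have e2 : (S.n * S.u 0 1 * S.n)⁻¹ * (S.n * S.u 0 (1 + (X * φ X)⁻¹) * S.n) =
      S.u X 0 * (S.n * S.h (1 / X ^ 2)) * (S.u X 0)⁻¹ := by
    have := S.u_mul 0 1 0 (X * φ X)⁻¹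
    rw [add_zero, mul_zero, add_zero] at this
    rw [← S.zp X0, ← this, show ∀ n z w : G, (n * z * n)⁻¹ * (n * (z * w) * n) = n⁻¹ * w * n from
      fun _ _ _ => by group, inv_eq_of_mul_eq_one_right S.nn]
  have E : (m (φ X * (1 + X) / (X ^ 2 * (1 + φ X))))⁻¹ * S.h (1 / X ^ 2) * (S.u X 0)⁻¹ *
      m (X * (X * φ X + 1) / (X ^ 2 * φ X + 1)) ∈ H := by
    have a1 := hZ 1 1 one_ne_zero (by simp)
    have a2 := hZ (X * (X * φ X + 1) / (X ^ 2 * φ X + 1)) (1 + (X * φ X)⁻¹) (by positivity) (by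
      simp only [map_div₀, map_mul, map_add, map_pow, map_one, hφ]
      rw [show φ X ^ 2 * X ^ 2 + 1 = (X * φ X + 1) ^ 2 by linear_combination -tw (X * φ X), mul_comm _ (X ^ 2)]
      field_simp)
    have a3 := hZ (φ X * (1 + X) / (X ^ 2 * (1 + φ X))) (φ X * (1 + X)) (by positivity) (by
      simp only [map_div₀, map_mul, map_add, map_pow, map_one, hφ]
      rw [show 1 + X ^ 2 = (1 + X) ^ 2 by linear_combination -tw X]
      field_simp)
    have := mul_mem (mul_mem (inv_mem (mul_mem hn a3)) (hh _ r0)) (mul_mem (inv_mem a1) a2)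
    rw [← e1, mul_inv_rev (_ * _ * _) (m 1), mul_assoc (m 1)⁻¹, ← mul_assoc (_ * _ * _)⁻¹, e2,
      ← mul_assoc S.n, ← mul_assoc S.n, ← mul_assoc S.n, S.nn] at this
    convert this using 1; group
  obtain ⟨c, h⟩ : ∃ c, S.u (φ X * (1 + X) / (X ^ 2 * (1 + φ X)) * X + 1 / X ^ 2 * (X + X * (X * φ X + 1) /
      (X ^ 2 * φ X + 1) * X)) c ∈ H := by
    obtain ⟨c, e⟩ := hm (φ X * (1 + X) / (X ^ 2 * (1 + φ X)))
    obtain ⟨c', e'⟩ := hm (X * (X * φ X + 1) / (X ^ 2 * φ X + 1))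
    have i : 1 / X ^ 2 ≠ 0 := by simpa
    have := mul_mem (cj_mem (hh _ r0) E) (inv_mem (hh _ i))
    rw [e, e', show ∀ a b c d e : G, a * ((b * a)⁻¹ * c * d * (e * a)) * a⁻¹ * c⁻¹ = b⁻¹ * (c * (d * e) * c⁻¹)
      from fun _ _ _ _ _ => by group, S.ui hφ, S.ui hφ, S.u_mul, S.cu i, S.u_mul] at this
    exact ⟨_, this⟩
  generalize he : (_ + _ : K) = x at h
  have x0 : x ≠ 0 := by
    have := mul_comm (X ^ 2) (φ X) ▸ N2
    rw [← he, show _ + _ = (X * φ X + 1) ^ 2 * (1 + X) / (X * (1 + φ X) * (X ^ 2 * φ X + 1)) by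
      field_simp; linear_combination tw (φ X + φ X ^ 2 * X ^ 2)]
    positivity
  have p0 := (map_ne_zero φ).2 x0
  have z : ∀ w, S.u 0 w ∈ H := fun w => by
    by_cases w0 : w = 0
    · rw [w0, u0]; exact one_mem _
    have i : w / (φ x * x) ≠ 0 := by positivity
    have i' : φ (w / (φ x * x)) / (w / (φ x * x)) ≠ 0 := div_ne_zero ((map_ne_zero φ).2 i) i
    have := cj_mem (hh _ i') (mul_mem h h)
    rwa [S.u_mul, S.cu i', nm hφ i, tw, tw, mul_zero, zero_add, div_mul_cancel₀ _ (by positivity)] at this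
  by_cases a0 : a = 0
  · exact a0 ▸ z b
  have i : a / x ≠ 0 := by positivity
  have := mul_mem (cj_mem (hh _ i) h) (z (a / x * φ (a / x) * c + b))
  rwa [S.cu i, S.u_mul, div_mul_cancel₀ _ x0, add_zero, mul_zero, add_zero, ← add_assoc, tw, zero_add] at this

theorem main [Finite K] {Q : Subgroup G}
    (hQ : Q = closure {g | ∃ a b, g = S.u a b ∨ g = S.n * S.u a b * S.n}) : IsLeast {n | Good Q n} 3 := by
  obtain ⟨s, x, r, l, s0, x0, r0, r1, l0, key⟩ := S.key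
  have tw := B2.two hφ
  have ni := inv_eq_of_mul_eq_one_right S.nn
  have qu : ∀ a b, S.u a b ∈ Q := fun a b => hQ ▸ subset_closure ⟨a, b, .inl rfl⟩
  have qv : ∀ a b, S.n * S.u a b * S.n ∈ Q := fun a b => hQ ▸ subset_closure ⟨a, b, .inr rfl⟩
  have L : S.u 1 1 = (S.u 1 0)⁻¹ := by simp [S.ui hφ]
  have nz : S.n = (S.u 1 0)⁻¹ * (S.n * S.u 0 1 * S.n) * (S.u 1 0)⁻¹⁻¹ := by
    rw [inv_inv, mul_assoc, S.nz, inv_mul_cancel_left]
  have qn : S.n ∈ Q := nz ▸ cj_mem (inv_mem (qu _ _)) (qv _ _)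
  have sq : ∀ y : K, y ≠ 0 → ∃ t, t ≠ 0 ∧ 1 / t ^ 2 = y := fun y y0 => by
    have := Finite.injective_iff_surjective.1 φ.injective
    obtain ⟨t, e⟩ := (this.comp this) y⁻¹
    rw [Function.comp, hφ] at e
    exact ⟨t, fun h => by simp [h, eq_comm, y0] at e, by simp [e]⟩
  have qh : ∀ y, y ≠ 0 → S.h y ∈ Q := fun y y0 => by
    obtain ⟨t, t0, rfl⟩ := sq y y0
    have := S.zp t0 ▸ qv 0 (t * φ t)⁻¹
    rwa [mul_mem_cancel_right (inv_mem (qu _ _)), mul_mem_cancel_left (qu _ _), mul_mem_cancel_left qn] at this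
  obtain ⟨g, hg⟩ := IsCyclic.exists_monoid_generator (α := Kˣ)
  set b := S.u 1 1 * (S.n * S.u 0 s * S.n) * S.u 1 0 with hb
  have eb : ∃ k ∈ Q, k * S.n * k⁻¹ = b := by
    have i := inv_ne_zero s0
    have i' : φ s⁻¹ / s⁻¹ ≠ 0 := div_ne_zero ((map_ne_zero φ).2 i) i
    have := S.cz i'
    rw [nm hφ i, inv_inv, eq_mul_inv_of_mul_eq S.nz] at this
    exact ⟨(S.u 1 0)⁻¹ * S.h _ * S.u 1 0, mul_mem (mul_mem (inv_mem (qu _ _)) (qh _ i')) (qu _ _), by
      rw [hb, ← this, L]; group⟩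
  have ec : ∃ k ∈ Q, k * S.n * k⁻¹ = S.n * S.h g := by
    obtain ⟨t, t0, e⟩ := sq g g.ne_zero
    exact ⟨_, qh t t0, by rw [← e, ← S.cn t0 one_ne_zero, h1, mul_one]⟩
  have gen : closure {S.n, b, S.n * S.h g} = Q := by
    refine le_antisymm ((closure_le _).2 ?_) ?_
    · obtain ⟨k, hk, e⟩ := eb
      rintro _ (rfl | rfl | rfl)
      exacts [qn, e ▸ cj_mem hk qn, mul_mem qn (qh _ g.ne_zero)]
    set H := closure {S.n, b, S.n * S.h g}
    have hn : S.n ∈ H := subset_closure (by simp)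
    have hb : b ∈ H := subset_closure (by simp)
    have hh : ∀ y, y ≠ 0 → S.h y ∈ H := fun y y0 => by
      obtain ⟨k, e⟩ := hg (Units.mk0 y y0)
      obtain rfl : (g : K) ^ k = y := by simpa using congrArg Units.val e
      clear e y0
      induction k with
      | zero => rw [pow_zero, h1]; exact one_mem _
      | succ k ih =>
        rw [pow_succ, S.h_mul _ _ (by simp) g.ne_zero]
        exact mul_mem ih ((mul_mem_cancel_left hn).1 (subset_closure (by simp)))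
    have := S.u_mem hφ hh hn r0 r1 fun y y0 => by
      have i : y / x ≠ 0 := by positivity
      have := cj_mem (hh _ i) (mul_mem (mul_mem (mul_mem hn hb) (hh _ l0)) hb)
      rwa [eq_mul_inv_of_mul_eq key, mul_assoc _ S.n, S.cw i (by positivity), div_mul_cancel₀ _ x0,
        show r / x ^ 2 / (y / x) ^ 2 = r / y ^ 2 by field_simp] at this
    rw [hQ, closure_le]
    rintro _ ⟨a, b, rfl | rfl⟩
    exacts [this a b, mul_mem (mul_mem hn (this a b)) hn]
  have pn : S.n ∈ ⁅Q, Q⁆ := by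
    have i : r * φ r + 1 ≠ 0 := fun h => r1 (n1 hφ (by linear_combination h - tw 1))
    have := commutator_mem_commutator (qh r r0) (qu 0 (r * φ r + 1)⁻¹)
    rw [commutatorElement_def, S.cu r0, S.ui hφ, S.u_mul] at this
    simp only [mul_zero, add_zero] at this
    rw [show r * φ r * (r * φ r + 1)⁻¹ + (r * φ r + 1)⁻¹ = 1 by field_simp] at this
    have := comm_conj (inv_mem (qu 1 0)) (comm_conj qn this)
    rwa [ni, ← nz] at this
  refine least_sub gen ?_ (fun h => S.ne (by simpa [h] using qu 0 1)) S.nn ?_ eb ec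
  · obtain ⟨k, hk, e⟩ := eb
    obtain ⟨k', hk', e'⟩ := ec
    nth_rw 1 [← gen]
    rw [closure_le]
    rintro _ (rfl | rfl | rfl)
    exacts [pn, e ▸ comm_conj hk pn, e' ▸ comm_conj hk' pn]
  · have c : S.u 0 1 * S.u 0 s = S.u 0 s * S.u 0 1 := by simp [S.u_mul, add_comm]
    have : ∀ n m L z y : G, m = n⁻¹ → n = L⁻¹ * (n * z * m) * L⁻¹⁻¹ → z * y = y * z →
        n * (L⁻¹ * (n * y * m) * L) * n⁻¹ = L⁻¹ * (n * y * m) * L := by
      rintro n _ L z y rfl e c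
      calc _ = (L⁻¹ * (n * z * n⁻¹) * L⁻¹⁻¹) * (L⁻¹ * (n * y * n⁻¹) * L) * (L⁻¹ * (n * z * n⁻¹) * L⁻¹⁻¹)⁻¹ := by
            rw [← e]
        _ = L⁻¹ * n * (z * y) * z⁻¹ * n⁻¹ * L := by group
        _ = _ := by rw [c]; group
    rw [hb, L]
    exact this _ _ _ _ _ ni.symm nz c

end Suz

end Pool.Agent.MP_c78e8e_al.H75.Ree

end

section

namespace Pool.Agent.MP_c78e8e_al.H75

open Subgroup Matrix Ree

variable {K : Type} [Field K] {φ : K →+* K}

theorem sz_psi {r : ℕ} (hr : 2 ≤ r) : ∃ Ψ : GL (Fin (r + 1)) K →* Equiv.Perm (Lie (CartanMatrix.A r) K),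
    (∀ g, Ψ g = 1 ↔ Sc g) ∧
    ∀ i j, i ≠ j → ∀ t v, Ψ (el i j (nata_sg K i j * t)) v = xo _ (rtA i j) t v := by
  choose κ hκ using nata_surj (r := r) (K := K)
  have inj := nata_inj (K := K) hr
  have key : ∀ (g : GL (Fin (r + 1)) K) v, nata_io (κ (g.1 * nata_io v * (g⁻¹).1)) =
      g.1 * nata_io v * (g⁻¹).1 := fun g v => hκ _ (by rw [trace_units_conj, nata_tr])
  let F : GL (Fin (r + 1)) K →* Function.End (Lie (CartanMatrix.A r) K) :=
    { toFun := fun g v => κ (g.1 * nata_io v * (g⁻¹).1)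
      map_one' := funext fun v => inj (by rw [key]; simp; rfl)
      map_mul' := fun g k => funext fun v => inj (by
        change nata_io (κ _) = nata_io (κ (g.1 * nata_io (κ _) * _))
        rw [key, key, key, _root_.mul_inv_rev, Units.val_mul, Units.val_mul]
        simp only [mul_assoc]) }
  have hF : ∀ g v, nata_io (F.toHomPerm g v) = g.1 * nata_io v * (g⁻¹).1 := key
  refine ⟨F.toHomPerm, fun g => ⟨fun e => ?_, ?_⟩, fun i j h t v =>
    inj (by rw [hF, nata_xo hr h, el_val h, el_inv h])⟩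
  · obtain ⟨z, hz⟩ := mem_range_scalar_of_commute_single (M := g.1) fun i j h => by
      have := hF g (κ (single i j 1))
      rw [e, Equiv.Perm.one_apply, hκ _ (trace_single_eq_of_ne _ _ _ h)] at this
      change _ * _ = _ * _
      nth_rewrite 1 [this]
      rw [mul_assoc, Units.inv_mul, mul_one]
    exact ⟨z, by rw [← hz, scalar_apply, smul_one_eq_diagonal]⟩
  · rintro ⟨z, hz⟩
    ext1 v
    refine inj ?_
    rw [hF, Equiv.Perm.one_apply, show g.1 * nata_io v = nata_io v * g.1 by simp [hz], mul_assoc,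
      Units.mul_inv, mul_one]

theorem sz_mul (a b c d e f g h i j k l m n o p a' b' c' d' e' f' g' h' i' j' k' l' m' n' o' p' : K) :
    HMul.hMul (α := Matrix (Fin (3 + 1)) (Fin (3 + 1)) K) (β := Matrix (Fin (3 + 1)) (Fin (3 + 1)) K)
      (γ := Matrix (Fin (3 + 1)) (Fin (3 + 1)) K) !![a, b, c, d; e, f, g, h; i, j, k, l; m, n, o, p]
      !![a', b', c', d'; e', f', g', h'; i', j', k', l'; m', n', o', p'] =
    !![a * a' + b * e' + c * i' + d * m', a * b' + b * f' + c * j' + d * n',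
        a * c' + b * g' + c * k' + d * o', a * d' + b * h' + c * l' + d * p';
      e * a' + f * e' + g * i' + h * m', e * b' + f * f' + g * j' + h * n',
        e * c' + f * g' + g * k' + h * o', e * d' + f * h' + g * l' + h * p';
      i * a' + j * e' + k * i' + l * m', i * b' + j * f' + k * j' + l * n',
        i * c' + j * g' + k * k' + l * o', i * d' + j * h' + k * l' + l * p';
      m * a' + n * e' + o * i' + p * m', m * b' + n * f' + o * j' + p * n',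
        m * c' + n * g' + o * k' + p * o', m * d' + n * h' + o * l' + p * p'] := by
  ext i j
  rw [Matrix.mul_apply, Fin.sum_univ_four]
  fin_cases i <;> fin_cases j <;> rfl

theorem sz_smul (z a b c d e f g h i j k l m n o p : K) :
    HSMul.hSMul (β := Matrix (Fin (3 + 1)) (Fin (3 + 1)) K) (γ := Matrix (Fin (3 + 1)) (Fin (3 + 1)) K) z
      !![a, b, c, d; e, f, g, h; i, j, k, l; m, n, o, p] =
    !![z * a, z * b, z * c, z * d; z * e, z * f, z * g, z * h; z * i, z * j, z * k, z * l;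
      z * m, z * n, z * o, z * p] := by
  ext i j
  fin_cases i <;> fin_cases j <;> rfl

omit [Field K] in
theorem sz_eta (M : Matrix (Fin 4) (Fin 4) K) : M = !![M 0 0, M 0 1, M 0 2, M 0 3;
    M 1 0, M 1 1, M 1 2, M 1 3; M 2 0, M 2 1, M 2 2, M 2 3; M 3 0, M 3 1, M 3 2, M 3 3] := by
  ext i j
  fin_cases i <;> fin_cases j <;> rfl

omit [Field K] in
theorem sz_ext {a b c d e f g h i j k l m n o p a' b' c' d' e' f' g' h' i' j' k' l' m' n' o' p' : K}
    (H : a = a' ∧ b = b' ∧ c = c' ∧ d = d' ∧ e = e' ∧ f = f' ∧ g = g' ∧ h = h' ∧ i = i' ∧ j = j' ∧ k = k' ∧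
      l = l' ∧ m = m' ∧ n = n' ∧ o = o' ∧ p = p') : !![a, b, c, d; e, f, g, h; i, j, k, l; m, n, o, p] =
      !![a', b', c', d'; e', f', g', h'; i', j', k', l'; m', n', o', p'] := by
  simp only [H]

theorem sz_one : (1 : Matrix (Fin (3 + 1)) (Fin (3 + 1)) K) =
    !![1, 0, 0, 0; 0, 1, 0, 0; 0, 0, 1, 0; 0, 0, 0, 1] := by
  rw [sz_eta 1]; simp

theorem sz_A (t : K) : (el 0 1 t * el 2 3 t : GL (Fin (3 + 1)) K).1 =
    !![1, t, 0, 0; 0, 1, 0, 0; 0, 0, 1, t; 0, 0, 0, 1] := by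
  rw [Units.val_mul, el_val (by decide), el_val (by decide), sz_eta (1 + single 0 1 t),
    sz_eta (1 + single 2 3 t), sz_mul]
  simp

theorem sz_A' (t : K) : (el 1 0 t * el 3 2 t : GL (Fin (3 + 1)) K).1 =
    !![1, 0, 0, 0; t, 1, 0, 0; 0, 0, 1, 0; 0, 0, t, 1] := by
  rw [Units.val_mul, el_val (by decide), el_val (by decide), sz_eta (1 + single 1 0 t),
    sz_eta (1 + single 3 2 t), sz_mul]
  simp

theorem sz_B (t : K) : (el 1 2 t : GL (Fin (3 + 1)) K).1 =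
    !![1, 0, 0, 0; 0, 1, t, 0; 0, 0, 1, 0; 0, 0, 0, 1] := by
  rw [el_val (by decide), sz_eta (1 + _)]
  simp only [Nat.reduceAdd, Fin.isValue, Matrix.add_apply, one_apply_eq, one_ne_zero, Fin.reduceEq, and_self, not_false_eq_true, single_apply_of_ne, add_zero, ne_eq, zero_ne_one, one_apply_ne, and_true, and_false, single_apply_same, zero_add]

theorem sz_B' (t : K) : (el 2 1 t : GL (Fin (3 + 1)) K).1 =
    !![1, 0, 0, 0; 0, 1, 0, 0; 0, t, 1, 0; 0, 0, 0, 1] := by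
  rw [el_val (by decide), sz_eta (1 + _)]
  simp only [Nat.reduceAdd, Fin.isValue, Matrix.add_apply, one_apply_eq, Fin.reduceEq, one_ne_zero, and_self, not_false_eq_true, single_apply_of_ne, add_zero, ne_eq, zero_ne_one, one_apply_ne, and_true, and_false, single_apply_same, zero_add]

theorem sz_D (u v : K) : (el 0 2 u * (el 1 3 u * el 0 3 v) : GL (Fin (3 + 1)) K).1 =
    !![1, 0, u, v; 0, 1, 0, u; 0, 0, 1, 0; 0, 0, 0, 1] := by
  rw [Units.val_mul, Units.val_mul, el_val (by decide), el_val (by decide), el_val (by decide),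
    sz_eta (1 + single 0 2 u), sz_eta (1 + single 1 3 u), sz_eta (1 + single 0 3 v), sz_mul, sz_mul]
  simp

/-- The unitriangular symplectic matrices. -/
def szB (tw : ∀ s : K, s + s = 0) : B2 (GL (Fin (3 + 1)) K) K where
  A t := el 0 1 t * el 2 3 t
  B t := el 1 2 t
  D u v := el 0 2 u * (el 1 3 u * el 0 3 v)
  A_add s t := Units.ext (by rw [Units.val_mul (_ * _), sz_A, sz_A, sz_A, sz_mul]; simp [add_comm])
  B_add := el_add _ _
  D_add u v u' v' := Units.ext (by rw [Units.val_mul (_ * _), sz_D, sz_D, sz_D, sz_mul]; simp [add_comm])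
  AD t u v := Units.ext (by
    rw [Units.val_mul (_ * _), Units.val_mul (_ * _) (_ * _), sz_A, sz_D, sz_mul, sz_mul]; simp [add_comm, mul_comm])
  BD t u v := Units.ext (by rw [Units.val_mul, Units.val_mul (_ * _), sz_B, sz_D, sz_mul, sz_mul]; simp)
  BA s t := Units.ext (by
    rw [Units.val_mul, Units.val_mul (_ * _), Units.val_mul (el 1 2 t), sz_A, sz_B, sz_D, sz_mul, sz_mul, sz_mul]
    simp [tw, mul_comm, sq, mul_left_comm])
  D_inj u v e := by simpa using congrFun (congrFun ((sz_D u v).symm.trans (congrArg _ e)) 1) 3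

theorem sz_u (tw : ∀ s : K, s + s = 0) (a b : K) : ((szB tw).u φ a b).1 =
    !![1, a, b + a * φ a, φ b + a ^ 2 * φ a + a * b; 0, 1, φ a, b; 0, 0, 1, a; 0, 0, 0, 1] := by
  rw [B2.u, Units.val_mul, Units.val_mul]
  simp only [szB]
  rw [sz_A, sz_B, sz_D, sz_mul, sz_mul]
  simp

variable (K) in
/-- The antidiagonal matrix. -/
def szN : GL (Fin (3 + 1)) K :=
  ⟨!![0, 0, 0, 1; 0, 0, 1, 0; 0, 1, 0, 0; 1, 0, 0, 0], !![0, 0, 0, 1; 0, 0, 1, 0; 0, 1, 0, 0; 1, 0, 0, 0],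
    by rw [sz_mul, sz_one]; simp, by rw [sz_mul, sz_one]; simp⟩

open Classical in
/-- The torus, up to scalars. -/
noncomputable def szH (φ : K →+* K) (x : K) : GL (Fin (3 + 1)) K :=
  if h : x = 0 then 1 else ⟨!![x ^ 2 * φ x, 0, 0, 0; 0, x * φ x, 0, 0; 0, 0, x, 0; 0, 0, 0, 1],
    !![(x ^ 2 * φ x)⁻¹, 0, 0, 0; 0, (x * φ x)⁻¹, 0, 0; 0, 0, x⁻¹, 0; 0, 0, 0, 1],
    by rw [sz_mul, sz_one]; simp [h, -_root_.mul_inv_rev], by rw [sz_mul, sz_one]; simp [h, -_root_.mul_inv_rev]⟩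

theorem sz_H {x : K} (h : x ≠ 0) :
    (szH φ x).1 = !![x ^ 2 * φ x, 0, 0, 0; 0, x * φ x, 0, 0; 0, 0, x, 0; 0, 0, 0, 1] := by
  rw [szH, dif_neg h]

theorem sz_b (tw : ∀ s : K, s + s = 0) (s : K) :
    ((szB tw).u φ 1 1 * (szN K * (szB tw).u φ 0 s * szN K) * (szB tw).u φ 1 0).1 =
    !![1 + φ s, s + φ s, s + φ s, φ s; s + φ s, 1 + φ s, φ s, s + φ s; s + φ s, φ s, 1 + φ s, s + φ s;
      φ s, s + φ s, s + φ s, 1 + φ s] := by
  have := tw 1
  simp only [Units.val_mul, sz_u, szN, sz_mul, map_one, map_zero]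
  refine sz_ext ⟨?_, ?_, ?_, ?_, ?_, ?_, ?_, ?_, ?_, ?_, ?_, ?_, ?_, ?_, ?_, ?_⟩ <;> grind

theorem sz_key (hφ : ∀ s, φ (φ s) = s ^ 2) (tw : ∀ s : K, s + s = 0) {s : K} (s0 : s ≠ 0) (s1 : 1 + s ≠ 0)
    (s2 : s + φ s ≠ 0) (b : GL (Fin (3 + 1)) K)
    (hb : b = (szB tw).u φ 1 1 * (szN K * (szB tw).u φ 0 s * szN K) * (szB tw).u φ 1 0) :
    (szN K * b * szH φ (φ s / (1 + φ s)) * b * (szB tw).u φ ((s + φ s) / (φ s + s ^ 2)) 0).1 =
    (s ^ 2 * φ s / ((1 + φ s) * (φ s + s ^ 2))) • ((szB tw).u φ ((s + φ s) / (φ s + s ^ 2)) 0 * szN K *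
      szH φ (φ s * (1 + φ s) / (s * (1 + s)) ^ 2 / ((s + φ s) / (φ s + s ^ 2)) ^ 2)).1 := by
  have y0 := (map_ne_zero φ).2 s0
  have y1 := (map_ne_zero φ).2 s1
  have y2 := (map_ne_zero φ).2 s2
  rw [map_add, map_one] at y1
  rw [map_add, hφ] at y2
  have two := tw 1
  have e1 : 1 + s ^ 2 = (1 + s) ^ 2 := by grind
  have e2 : s ^ 2 + φ s ^ 2 = (s + φ s) ^ 2 := by grind
  have vb := hb ▸ sz_b (φ := φ) tw s
  rw [Units.val_mul, Units.val_mul, Units.val_mul, Units.val_mul, Units.val_mul, Units.val_mul, vb,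
    sz_H (by positivity), sz_H (by positivity), sz_u]
  simp only [szN, sz_mul, sz_smul, map_div₀, map_add, map_mul, map_pow, map_one, map_zero, hφ, e1, e2,
    mul_zero, zero_mul, add_zero, zero_add, mul_one, one_mul]
  generalize φ s = y at *
  refine sz_ext ⟨?_, ?_, ?_, ?_, ?_, ?_, ?_, ?_, ?_, ?_, ?_, ?_, ?_, ?_, ?_, ?_⟩ <;> field_simp <;> grind

/-- The Suzuki groups. -/
theorem tSz [Finite K] (hφ : ∀ s, φ (φ s) = s ^ 2) (h : Nat.card K ≠ 2) :
    IsLeast {n | Good (ree (CartanMatrix.A 3) [([0, 2], 1)] φ) n} 3 := by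
  have tw := B2.two hφ
  obtain ⟨Ψ, hk, hx⟩ := sz_psi (K := K) (r := 3) (by decide)
  obtain ⟨s, s0, s1⟩ : ∃ s : K, s ≠ 0 ∧ s ≠ 1 := by
    by_contra! c
    exact h (Nat.card_eq_two_iff.2 ⟨0, 1, zero_ne_one, Set.eq_univ_of_forall fun s => by
      by_cases s = 0 <;> simp_all⟩)
  have sc : ∀ (g g' : GL (Fin (3 + 1)) K) (z : K), g.1 = z • g'.1 → Ψ g = Ψ g' := fun g g' z e => by
    rw [← mul_inv_eq_one, ← map_inv, ← map_mul, hk]
    exact ⟨z, by rw [Units.val_mul, e, smul_mul_assoc, Units.mul_inv]⟩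
  have di : ∀ u v, Sc ((szB tw).D u v) → u = 0 := fun u v ⟨z, e⟩ => by
    simpa using congrFun (congrFun ((sz_D u v).symm.trans e) 1) 3
  have s1' : 1 + s ≠ 0 := fun h => s1 (by linear_combination h - tw 1)
  have s2 : s + φ s ≠ 0 := fun h => by
    have := congrArg φ h
    rw [map_add, hφ, map_zero] at this
    exact mul_ne_zero s0 s1' (by linear_combination this + h - tw (φ s))
  have y0 := (map_ne_zero φ).2 s0
  have y1 := (map_ne_zero φ).2 s1'
  have y2 := (map_ne_zero φ).2 s2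
  rw [map_add, map_one] at y1
  rw [map_add, hφ] at y2
  have two := tw 1
  have nn : szN K * szN K = 1 := Units.ext (szN K).3
  let S : Suz _ φ :=
    { u a b := Ψ ((szB tw).u φ a b)
      h x := Ψ (szH φ x)
      n := Ψ (szN K)
      u_mul a b c d := by rw [← map_mul, B2.u_mul hφ]
      h_mul x y hx hy := by
        rw [← map_mul]
        refine congrArg Ψ (Units.ext ?_)
        rw [Units.val_mul, sz_H hx, sz_H hy, sz_H (mul_ne_zero hx hy), sz_mul, map_mul]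
        refine sz_ext ⟨?_, ?_, ?_, ?_, ?_, ?_, ?_, ?_, ?_, ?_, ?_, ?_, ?_, ?_, ?_, ?_⟩ <;> ring
      h_u x a b hx := by
        rw [← map_mul, ← map_mul]
        refine congrArg Ψ (Units.ext ?_)
        simp only [Units.val_mul, sz_H hx, sz_u, sz_mul, map_mul, hφ]
        refine sz_ext ⟨?_, ?_, ?_, ?_, ?_, ?_, ?_, ?_, ?_, ?_, ?_, ?_, ?_, ?_, ?_, ?_⟩ <;> ring
      n_h x hx := by
        have := (map_ne_zero φ).2 hx
        rw [← map_mul, ← map_mul]
        refine sc _ _ (x ^ 2 * φ x) ?_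
        simp only [Units.val_mul, sz_H hx, sz_H (inv_ne_zero hx), szN, sz_mul, sz_smul, map_inv₀]
        refine sz_ext ⟨?_, ?_, ?_, ?_, ?_, ?_, ?_, ?_, ?_, ?_, ?_, ?_, ?_, ?_, ?_, ?_⟩ <;> field_simp <;> ring
      nn := by rw [← map_mul, nn, map_one]
      nz := by
        simp only [← map_mul]
        refine congrArg Ψ (Units.ext ?_)
        simp only [Units.val_mul, sz_u, szN, sz_mul, map_one, map_zero]
        refine sz_ext ⟨?_, ?_, ?_, ?_, ?_, ?_, ?_, ?_, ?_, ?_, ?_, ?_, ?_, ?_, ?_, ?_⟩ <;> grind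
      key := ⟨s, (s + φ s) / (φ s + s ^ 2), φ s * (1 + φ s) / (s * (1 + s)) ^ 2, φ s / (1 + φ s), s0,
        by positivity, by positivity, fun e => by
          rw [div_eq_one_iff_eq (by positivity)] at e
          have e1 : (φ s + s ^ 2) * (φ s + (s ^ 2 + 1)) = 0 := by grind
          have e2 := congrArg φ ((mul_eq_zero.1 e1).resolve_left y2)
          have e3 := (mul_eq_zero.1 e1).resolve_left y2
          rw [map_add, map_add, map_pow, hφ, map_one, map_zero] at e2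
          have e4 : (s * (1 + s)) ^ 2 = 0 := by grind
          exact (by positivity : (s * (1 + s)) ^ 2 ≠ 0) e4, by positivity, by
          simp only [← map_mul]
          exact sc _ _ _ (sz_key hφ tw s0 s1' s2 _ rfl)⟩
      ne e := one_ne_zero (di 1 1 (by simpa [B2.u, szB] using (hk _).1 e)) }
  refine S.main hφ (congrArg Subgroup.closure (Set.ext fun g => ?_))
  have sg : ∀ (i j : Fin (3 + 1)) t, nata_sg K i j * t = t := fun i j t => by
    rcases nata_sg_pm (K := K) i j with e | e <;> rw [e] <;> grind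
  simp only [sg] at hx
  let f : GL (Fin (3 + 1)) K →* _ := Ψ.comp (MulAut.conj (szN K)).toMonoidHom
  have hf : ∀ g, f g = Ψ (szN K * g * szN K) := fun g => by
    rw [← inv_eq_of_mul_eq_one_right nn]; rfl
  have a1 : ∀ t, rx _ [0, 2] 1 t = ⇑(Ψ ((szB tw).A t)) := fun t => funext fun v => by
    rw [szB, map_mul, Equiv.Perm.mul_apply, hx _ _ (by decide), hx _ _ (by decide),
      show rtA 0 1 = Pi.single (0 : Fin 3) ((1 : ℤˣ) : ℤ) by decide,
      show rtA 2 3 = Pi.single (2 : Fin 3) ((1 : ℤˣ) : ℤ) by decide]; rfl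
  have b1 : ∀ t, rx _ [1] 1 t = ⇑(Ψ ((szB tw).B t)) := fun t => funext fun v => by
    rw [szB, hx _ _ (by decide), show rtA 1 2 = Pi.single (1 : Fin 3) ((1 : ℤˣ) : ℤ) by decide]; rfl
  have a2 : ∀ t, rx _ [0, 2] (-1) t = ⇑(f ((szB tw).A t)) := fun t => funext fun v => by
    rw [hf, show szN K * (szB tw).A t * szN K = el 1 0 t * el 3 2 t from Units.ext (by
      rw [sz_A', Units.val_mul, Units.val_mul, szB, sz_A, szN, sz_mul, sz_mul]; simp), map_mul,
      Equiv.Perm.mul_apply, hx _ _ (by decide), hx _ _ (by decide),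
      show rtA 1 0 = Pi.single (0 : Fin 3) ((-1 : ℤˣ) : ℤ) by decide,
      show rtA 3 2 = Pi.single (2 : Fin 3) ((-1 : ℤˣ) : ℤ) by decide]; rfl
  have b2 : ∀ t, rx _ [1] (-1) t = ⇑(f ((szB tw).B t)) := fun t => funext fun v => by
    rw [hf, show szN K * (szB tw).B t * szN K = el 2 1 t from Units.ext (by
      rw [sz_B', Units.val_mul, Units.val_mul, szB, sz_B, szN, sz_mul, sz_mul]; simp), hx _ _ (by decide),
      show rtA 2 1 = Pi.single (1 : Fin 3) ((-1 : ℤˣ) : ℤ) by decide]; rfl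
  have F1 := ((szB tw).map Ψ fun u v e => di u v ((hk _).1 e)).fix hφ ⟨s, s0, s1⟩ g
  have F2 := ((szB tw).map f fun u v e => di u v (by
    have := ((hk _).1 e).conj (szN K)⁻¹
    simpa only [Nat.reduceAdd, MulEquiv.toMonoidHom_eq_coe, MonoidHom.coe_coe, MulAut.conj_apply, mul_assoc, inv_mul_cancel_left, inv_inv, inv_mul_cancel, mul_one] using this)).fix hφ ⟨s, s0, s1⟩ g
  have : ∀ P : ℤˣ → Prop, (∃ e, P e) ↔ P 1 ∨ P (-1) := fun P =>
    ⟨fun ⟨e, h⟩ => by rcases Int.units_eq_one_or e with rfl | rfl <;> simp [h], fun h => h.elim (⟨_, ·⟩) (⟨_, ·⟩)⟩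
  simp only [Set.mem_ofPred_eq, List.mem_cons, List.not_mem_nil, or_false, exists_eq_left, this, a1, a2, b1, b2,
    DFunLike.coe_fn_eq]
  refine (or_congr F1 F2).trans ?_
  simp only [B2.u, B2.map, S, ← map_mul, exists_or]
  simp only [hf]

end Pool.Agent.MP_c78e8e_al.H75

end
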