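import Pool.Agent.MP_c78e8e_al.Mg.Sg_Mon
import Pool.Agent.MP_c78e8e_al.Sg.Defs
import Pool.Agent.MP_c78e8e_al.Mg.Sg_Ort
import Pool.Agent.MP_c78e8e_al.Mg.Sg_Ree

attribute [-instance] instNoNatZeroDivisorsOfIsAddTorsionFree
  DistribMulActionSemiHomClass.toAddMonoidHomClass MonTypeEquivalenceMon.monMonoid
  SemilinearMapClass.toAddHomClass NonUnitalAlgHomClass.toNonUnitalRingHomClass
  SemilatticeInf.toPartialOrder instCharZeroOfIsSemireal NonUnitalAlgSemiHomClass.toMulHomClass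
  IdemSemiring.toSemiring FiniteField.instGrindPowIdentity littleWedderburn
  UniformSpace.toTopologicalSpace NeZero.charZero_one CommRing.toGrindCommRing LieRing.toAddCommGroup
  Ring.toSemiring RingConeClass.toSubsemiringClass SemilatticeSup.toPartialOrder CharP.ofCharZero
  BooleanRing.toRing CommGrpTypeEquivalenceCommGrp.commGrpCommGroup RKHS.instFunLike
  Order.Coframe.toCompleteLattice BialgHomClass.toMonoidHomClass FloorSemiring.instCharZero
  NormMulClass.toNoZeroDivisors Std.PreorderPackage.toLE OmegaCompletePartialOrder.toPartialOrder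
  MulZeroClass.toMul NonUnitalRing.toNonUnitalNonAssocRing SubringClass.toSubsemiringClass
  AddCommGroup.toGrindIntModule instCommGroupOfIsSimpleGroupOfIsNilpotent
  ConditionallyCompleteLinearOrderBot.toConditionallyCompleteLinearOrder
  ValuationClass.toMonoidWithZeroHomClass Order.Frame.toCompleteLattice NormedField.toField
  LieAdmissibleRing.toNonUnitalNonAssocRing NormedCommRing.toCommRing
  ChainCompletePartialOrder.toPartialOrder CompleteSemilatticeSup.toPartialOrder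
  RCLike.charZero_rclike CompleteSemilatticeInf.toPartialOrder
  ConditionallyCompletePartialOrderInf.toPartialOrder NumberField.to_charZero
  CommMonTypeEquivalenceCommMon.commMonCommMonoid NonAssocCommSemiring.toNonAssocSemiring
  NormedRing.toRing SeminormedCommRing.toCommRing MulDistribMulActionSemiHomClass.toMonoidHomClass
  LinearOrderedAddCommGroupWithTop.toSubNegMonoid EuclideanDomain.toCommRing
  LinearOrderedAddCommMonoidWithTop.toAddCommMonoid NonUnitalNormedRing.toNormedAddCommGroup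
  IsStrictOrderedRing.noZeroDivisors NonUnitalNormedCommRing.toNonUnitalCommRing
  ContinuousMonoidHom.instCoeOutOfMonoidHomClassOfContinuousMapClass GroupWithZero.toDivisionMonoid
  AlgHomClass.toRingHomClass CompleteAtomicBooleanAlgebra.toCompletelyDistribLattice
  CentroidHomClass.toAddMonoidHomClass SubsemiringClass.toCommSemiring
  CompleteLinearOrder.toCompleteLattice instIsLeftCancelAddOfAddLeftReflectLE
  LinearOrderedCommGroupWithZero.toCommGroupWithZero IsStrictOrderedRing.toCharZero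
  AddCommGroupWithOne.toAddGroupWithOne instCoeOTCOfCoeTC NonUnitalRing.toNonUnitalSemiring
  GrpTypeEquivalenceGrp.grpGroup RingEquivClass.toNonUnitalRingHomClass
  NonAssocRing.toNonAssocSemiring GroupConeClass.toSubmonoidClass NeZero.of_gt' instCoeOutOfCoeFun
  IdemCommSemiring.toCommSemiring SeminormedCommGroup.toCommGroup
  NonUnitalSeminormedCommRing.toNonUnitalCommRing
  NonUnitalNonAssocCommSemiring.toNonUnitalNonAssocSemiring MonoidWithZero.toSemigroupWithZero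
  AddSubmonoidClass.toZeroMemClass instIsRightCancelAddOfAddRightReflectLE
  SubsemiringClass.toSubmonoidClass LinearOrderedAddCommGroupWithTop.toAddCommMonoid
  Std.PreorderPackage.toLT SeminormedRing.toRing LinearOrder.toPartialOrder
  CompleteLattice.toConditionallyCompleteLattice RightPreLieRing.toNonUnitalNonAssocRing
  CompleteLattice.toPartialOrder' LeftPreLieRing.toNonUnitalNonAssocRing
  instConditionallyCompletePartialOrderSup SetLike.GradeZero.instMonoid BooleanRing.toCommRing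
  SetLike.GradeZero.instCommSemiring Std.LinearPreorderPackage.toIsLinearPreorder
  Unique.instSubsingleton SetLike.GradeZero.instSemiring CommSemiring.toNonUnitalCommSemiring
  NonAssocRing.toNonUnitalNonAssocRing AddQuantale.instAddLeftMono DivisionRing.toDivisionSemiring

section

namespace Pool.Agent.MP_c78e8e_al.H75

open Matrix

variable {K : Type} [Field K]

/-- The six positive root groups of `G₂` in the eight-dimensional representation. -/
def reA (t : K) : GL (Fin (7 + 1)) K := eo 0 1 (-t) * (eo 2 3 (-t) * eo 2 4 (-t))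
def reB (t : K) : GL (Fin (7 + 1)) K := eo 1 2 t
def reC (t : K) : GL (Fin (7 + 1)) K := eo 0 2 t * (eo 1 3 (-t) * eo 1 4 (-t))
def reD (t : K) : GL (Fin (7 + 1)) K := eo 0 3 (-t) * (eo 0 4 (-t) * eo 1 5 (-t))
def reE (t : K) : GL (Fin (7 + 1)) K := eo 0 5 (-t)
def reF (t : K) : GL (Fin (7 + 1)) K := eo 0 6 (-t)

/-- The Sylow 3-subgroup of the Ree group. -/
def reU (φ : K →+* K) (a b c : K) : GL (Fin (7 + 1)) K :=
  reA a * (reB (φ a) * (reC b * (reD c * (reE (a ^ 3 * φ a - φ b) * reF (a ^ 3 * φ a ^ 2 - φ c)))))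

variable (K) in
/-- The negative of the antidiagonal matrix. -/
def reN : GL (Fin (7 + 1)) K := mon Fin.revPerm fun _ => -1

end Pool.Agent.MP_c78e8e_al.H75

end

section

namespace Pool.Agent.MP_c78e8e_al.H75

open Subgroup Matrix

variable {K : Type} [Field K] {φ : K →+* K}

theorem rel_el {N : ℕ} {i j : Fin (N + 1)} (h : i ≠ j) (s : K) (y : Fin (N + 1) → K) :
    (el i j s).1 *ᵥ y = fun a => y a + if a = i then s * y j else 0 := by
  ext a
  rw [el_val h, add_mulVec, one_mulVec, single_mulVec, Pi.add_apply, Function.update_apply]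
  simp

section
variable (t y0 y1 y2 y3 y4 y5 y6 y7 : K)

theorem rel_A : (reA t).1 *ᵥ ![y0, y1, y2, y3, y4, y5, y6, y7] = ![y0 - t * y1, y1,
    y2 - t * y4 - t * y3 - t ^ 2 * y5, y3 + t * y5, y4 + t * y5, y5, y6 + t * y7, y7] := by
  ext a
  simp (disch := decide) only [reA, eo, Units.val_mul, ← mulVec_mulVec, rel_el]
  fin_cases a <;> simp only [Nat.reduceAdd, Fin.zero_eta, Fin.isValue, cons_val_zero, Fin.rev, Fin.coe_ofNat_eq_mod, Nat.reduceMod, Nat.reduceSub, Fin.reduceFinMk, Fin.ext_iff, Nat.zero_mod, OfNat.zero_ne_ofNat, ↓ reduceIte, add_zero, Nat.one_mod, cons_val_one, OfNat.one_ne_ofNat, neg_mul, Nat.succ_eq_add_one, Fin.mk_one, one_ne_zero, cons_val, Nat.reduceEqDiff, Nat.succ_ne_self, neg_neg, OfNat.ofNat_ne_zero, zero_add, Nat.add_one_sub_one, Nat.mod_succ, OfNat.ofNat_eq_ofNat] <;> ring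

theorem rel_B : (reB t).1 *ᵥ ![y0, y1, y2, y3, y4, y5, y6, y7] =
    ![y0, y1 + t * y2, y2, y3, y4, y5 - t * y6, y6, y7] := by
  ext a
  simp (disch := decide) only [reB, eo, Units.val_mul, ← mulVec_mulVec, rel_el]
  fin_cases a <;> simp only [Nat.reduceAdd, Fin.zero_eta, Fin.isValue, cons_val_zero, Fin.rev, Fin.coe_ofNat_eq_mod, Nat.reduceMod, Nat.reduceSub, Fin.reduceFinMk, Fin.ext_iff, Nat.zero_mod, OfNat.zero_ne_ofNat, ↓ reduceIte, add_zero, zero_ne_one, Nat.succ_eq_add_one, sub_eq_add_neg, Fin.mk_one, cons_val_one, Nat.one_mod, OfNat.one_ne_ofNat, cons_val, Nat.reduceEqDiff, OfNat.ofNat_ne_one, neg_mul, Nat.succ_ne_self, Nat.mod_succ, OfNat.ofNat_eq_ofNat]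

theorem rel_C : (reC t).1 *ᵥ ![y0, y1, y2, y3, y4, y5, y6, y7] = ![y0 + t * y2,
    y1 - t * y4 - t * y3 - t ^ 2 * y6, y2, y3 + t * y6, y4 + t * y6, y5 - t * y7, y6, y7] := by
  ext a
  simp (disch := decide) only [reC, eo, Units.val_mul, ← mulVec_mulVec, rel_el]
  fin_cases a <;> simp only [Nat.reduceAdd, Fin.zero_eta, Fin.isValue, cons_val_zero, Fin.rev, Fin.coe_ofNat_eq_mod, Nat.reduceMod, Nat.reduceSub, Fin.reduceFinMk, Fin.ext_iff, Nat.zero_mod, OfNat.zero_ne_ofNat, ↓ reduceIte, add_zero, zero_ne_one, cons_val, Nat.reduceEqDiff, Nat.one_mod, OfNat.ofNat_ne_one, Nat.succ_eq_add_one, Fin.mk_one, cons_val_one, OfNat.one_ne_ofNat, Nat.succ_ne_self, neg_mul, neg_neg, one_ne_zero, OfNat.ofNat_ne_zero, zero_add, Nat.add_one_sub_one, Nat.mod_succ, OfNat.ofNat_eq_ofNat] <;> ring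

theorem rel_D : (reD t).1 *ᵥ ![y0, y1, y2, y3, y4, y5, y6, y7] = ![y0 - t * y4 - t * y3 - t ^ 2 * y7,
    y1 - t * y5, y2 + t * y6, y3 + t * y7, y4 + t * y7, y5, y6, y7] := by
  ext a
  simp (disch := decide) only [reD, eo, Units.val_mul, ← mulVec_mulVec, rel_el]
  fin_cases a <;> simp only [Nat.reduceAdd, Fin.zero_eta, Fin.isValue, cons_val_zero, Fin.rev, Fin.coe_ofNat_eq_mod, Nat.reduceMod, Nat.reduceSub, Fin.reduceFinMk, Fin.ext_iff, Nat.zero_mod, OfNat.zero_ne_ofNat, ↓ reduceIte, add_zero, zero_ne_one, cons_val, Nat.reduceEqDiff, Nat.one_mod, OfNat.ofNat_ne_one, Nat.succ_ne_self, neg_mul, neg_neg, zero_add, Nat.add_one_sub_one, Nat.mod_succ, OfNat.ofNat_eq_ofNat, OfNat.ofNat_ne_zero, Nat.succ_eq_add_one, Fin.mk_one, cons_val_one, OfNat.one_ne_ofNat, one_ne_zero] <;> ring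

theorem rel_E : (reE t).1 *ᵥ ![y0, y1, y2, y3, y4, y5, y6, y7] =
    ![y0 - t * y5, y1, y2 + t * y7, y3, y4, y5, y6, y7] := by
  ext a
  simp (disch := decide) only [reE, eo, Units.val_mul, ← mulVec_mulVec, rel_el]
  fin_cases a <;> simp only [Nat.reduceAdd, Fin.zero_eta, Fin.isValue, cons_val_zero, Fin.rev, Fin.coe_ofNat_eq_mod, Nat.reduceMod, Nat.reduceSub, Fin.reduceFinMk, Fin.ext_iff, Nat.zero_mod, OfNat.zero_ne_ofNat, ↓ reduceIte, add_zero, cons_val, Nat.reduceEqDiff, neg_mul, Nat.succ_eq_add_one, sub_eq_add_neg, Fin.mk_one, cons_val_one, Nat.one_mod, OfNat.one_ne_ofNat, one_ne_zero, neg_neg, zero_add, Nat.add_one_sub_one, OfNat.ofNat_ne_zero, Nat.succ_ne_self, Nat.mod_succ, OfNat.ofNat_eq_ofNat]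

theorem rel_F : (reF t).1 *ᵥ ![y0, y1, y2, y3, y4, y5, y6, y7] =
    ![y0 - t * y6, y1 + t * y7, y2, y3, y4, y5, y6, y7] := by
  ext a
  simp (disch := decide) only [reF, eo, Units.val_mul, ← mulVec_mulVec, rel_el]
  fin_cases a <;> simp only [Nat.reduceAdd, Fin.zero_eta, Fin.isValue, cons_val_zero, Fin.rev, Fin.coe_ofNat_eq_mod, Nat.reduceMod, Nat.reduceSub, Fin.mk_one, zero_ne_one, ↓ reduceIte, add_zero, cons_val, Fin.ext_iff, Nat.one_mod, OfNat.ofNat_ne_one, neg_mul, Nat.succ_eq_add_one, sub_eq_add_neg, cons_val_one, neg_neg, Nat.zero_mod, zero_add, Nat.add_one_sub_one, Fin.reduceFinMk, one_ne_zero, OfNat.ofNat_ne_zero, Nat.mod_succ]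
end

theorem rel_ext {g h : GL (Fin (7 + 1)) K} (e : ∀ y0 y1 y2 y3 y4 y5 y6 y7,
    g.1 *ᵥ ![y0, y1, y2, y3, y4, y5, y6, y7] = h.1 *ᵥ ![y0, y1, y2, y3, y4, y5, y6, y7]) : g = h := by
  refine Units.ext (mulVec_injective (funext fun y => ?_))
  have : y = ![y 0, y 1, y 2, y 3, y 4, y 5, y 6, y 7] := by ext a; fin_cases a <;> rfl
  rw [this]
  exact e ..

/-- The normal form. -/
def relN (s t u v w x : K) : GL (Fin (7 + 1)) K :=
  reA s * (reB t * (reC u * (reD v * (reE w * reF x))))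

theorem rel_mul (h3 : (3 : K) = 0) (s t u v w x s' t' u' v' w' x' : K) :
    relN s t u v w x * relN s' t' u' v' w' x' = relN (s + s') (t + t') (s' * t + u + u')
      (s' ^ 2 * t - s' * u + v + v') (s' ^ 3 * t + w + w')
      (s' ^ 3 * t ^ 2 - t' * (s' ^ 3 * t + w) + x + x') := by
  refine rel_ext fun y0 y1 y2 y3 y4 y5 y6 y7 => ?_
  simp only [relN, Units.val_mul, ← mulVec_mulVec, rel_A, rel_B, rel_C, rel_D, rel_E, rel_F,
    vecCons_inj, and_true]
  refine ⟨?_, ?_, ?_, ?_, ?_, ?_, ?_⟩ <;> grind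


theorem rel_inj {s t u v w x s' t' u' v' w' x' z : K}
    (e : (relN s t u v w x).1 = z • (relN s' t' u' v' w' x').1) :
    s = s' ∧ t = t' ∧ u = u' ∧ v = v' ∧ w = w' ∧ x = x' := by
  have e1 := congrArg (· *ᵥ ![0, 0, 0, 0, 0, 0, 0, 1]) e
  have e2 := congrArg (· *ᵥ ![0, 0, 0, 0, 0, 0, 1, 0]) e
  simp only [smul_mulVec, relN, Units.val_mul, ← mulVec_mulVec, rel_A, rel_B, rel_C, rel_D, rel_E, rel_F,
    smul_cons, smul_empty, smul_eq_mul, vecCons_inj, and_true] at e1 e2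
  grind

theorem reU_mul (hφ : ∀ s, φ (φ s) = s ^ 3) (h3 : (3 : K) = 0) (a b c d e f : K) :
    reU φ a b c * reU φ d e f = reU φ (a + d) (b + e + φ a * d) (c + f - b * d + φ a * d ^ 2) := by
  refine (rel_mul h3 ..).trans ?_
  change _ = relN _ _ _ _ _ _
  simp only [map_add, map_sub, map_mul, map_pow, hφ]
  congr 1 <;> grind

theorem re_ex [Finite K] (h : 3 < Nat.card K) : ∃ s : K, s ^ 3 ≠ s := by
  by_contra! c
  have : Nat.card K ≤ ({0, 1, -1} : Set K).ncard := by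
    rw [← Set.ncard_univ]
    exact Set.ncard_le_ncard fun s _ => by have := c s; grind
  have := (Set.ncard_insert_le (0 : K) {1, -1}).trans (Nat.succ_le_succ (Set.ncard_insert_le 1 {-1}))
  rw [Set.ncard_singleton] at this
  omega

theorem re_three [Finite K] (hφ : ∀ s, φ (φ s) = s ^ 3) (h : 3 < Nat.card K) : (3 : K) = 0 := by
  obtain ⟨s, hs⟩ := re_ex h
  have := hφ (s + 1)
  rw [map_add, map_add, hφ, hφ] at this
  grind

/-- The unipotent group of type `G₂` in characteristic three. -/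
structure G2u (G K : Type) [Group G] [Field K] where
  n : K → K → K → K → K → K → G
  mul : ∀ s t u v w x s' t' u' v' w' x', n s t u v w x * n s' t' u' v' w' x' = n (s + s') (t + t')
    (s' * t + u + u') (s' ^ 2 * t - s' * u + v + v') (s' ^ 3 * t + w + w')
    (s' ^ 3 * t ^ 2 - t' * (s' ^ 3 * t + w) + x + x')
  inj : ∀ s t u v w x s' t' u' v' w' x', n s t u v w x = n s' t' u' v' w' x' →
    s = s' ∧ t = t' ∧ u = u' ∧ v = v' ∧ w = w' ∧ x = x'

theorem G2u.fix {G : Type} [Group G] (S : G2u G K) (hφ : ∀ s, φ (φ s) = s ^ 3) (h3 : (3 : K) = 0)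
    (h : ∃ s : K, s ^ 3 ≠ s) (g : G) : (g, g) ∈ closure {q : G × G | ∃ t,
      q.1 = S.n t 0 0 0 0 0 ∧ q.2 = S.n 0 (φ t) 0 0 0 0 ∨ q.2 = S.n t 0 0 0 0 0 ∧ q.1 = S.n 0 (φ t) 0 0 0 0} ↔
    ∃ a b c, g = S.n a (φ a) b c (a ^ 3 * φ a - φ b) (a ^ 3 * φ a ^ 2 - φ c) := by
  have n0 : S.n 0 0 0 0 0 0 = 1 := by simpa using S.mul 0 0 0 0 0 0 0 0 0 0 0 0
  set P : Subgroup (G × G) := closure {q : G × G | ∃ t,
      q.1 = S.n t 0 0 0 0 0 ∧ q.2 = S.n 0 (φ t) 0 0 0 0 ∨ q.2 = S.n t 0 0 0 0 0 ∧ q.1 = S.n 0 (φ t) 0 0 0 0}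
  obtain ⟨Γ, hΓ⟩ : ∃ Γ : K → K → K → K → K → K → G × G, ∀ s t u v w x, Γ s t u v w x =
      (S.n s (φ t) u v (φ w) (φ x), S.n t (φ s) (t * φ s - w) (t ^ 2 * φ s - x) (t ^ 3 * φ s - φ u)
        (t ^ 3 * φ s ^ 2 - φ v)) := ⟨_, fun _ _ _ _ _ _ => rfl⟩
  have m : ∀ s t u v w x s' t' u' v' w' x', Γ s t u v w x * Γ s' t' u' v' w' x' = Γ (s + s') (t + t')
      (s' * φ t + u + u') (s' ^ 2 * φ t - s' * u + v + v') (φ s' * t + w + w')
      (φ s' * t ^ 2 - t' * (φ s' * t + w) + x + x') := fun s t u v w x s' t' u' v' w' x' => by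
    simp only [hΓ, Prod.mk_mul_mk, S.mul, map_add, map_sub, map_mul, map_pow, hφ]
    congr 2 <;> grind
  have a : ∀ t, (S.n t 0 0 0 0 0, S.n 0 (φ t) 0 0 0 0) = Γ t 0 0 0 0 0 := fun t => by simp [hΓ]
  have b : ∀ t, (S.n 0 (φ t) 0 0 0 0, S.n t 0 0 0 0 0) = Γ 0 t 0 0 0 0 := fun t => by simp [hΓ]
  have g0 : Γ 0 0 0 0 0 0 = 1 := by simp [hΓ, n0]
  constructor
  · intro hg
    have : ∀ q ∈ P, ∃ s t u v w x, q = Γ s t u v w x := fun q hq => by
      induction hq using closure_induction'' with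
      | one => exact ⟨_, _, _, _, _, _, g0.symm⟩
      | mem q hq =>
        obtain ⟨t, ⟨e, e'⟩ | ⟨e', e⟩⟩ := hq
        exacts [⟨_, _, _, _, _, _, (Prod.ext e e').trans (a t)⟩, ⟨_, _, _, _, _, _, (Prod.ext e e').trans (b t)⟩]
      | inv_mem q hq =>
        obtain ⟨t, ⟨e, e'⟩ | ⟨e', e⟩⟩ := hq
        · exact ⟨-t, 0, 0, 0, 0, 0, inv_eq_of_mul_eq_one_right (by
            rw [(Prod.ext e e').trans (a t), m, ← g0]; simp only [add_neg_cancel, add_zero, map_zero, mul_zero, even_two, Even.neg_pow, sub_self, map_neg, ne_eq, OfNat.ofNat_ne_zero, not_false_eq_true, zero_pow])⟩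
        · exact ⟨0, -t, 0, 0, 0, 0, inv_eq_of_mul_eq_one_right (by
            rw [(Prod.ext e e').trans (b t), m, ← g0]; simp)⟩
      | mul p q _ _ hp hq =>
        obtain ⟨_, _, _, _, _, _, rfl⟩ := hp
        obtain ⟨_, _, _, _, _, _, rfl⟩ := hq
        exact ⟨_, _, _, _, _, _, m ..⟩
    obtain ⟨s, t, u, v, w, x, e⟩ := this _ hg
    rw [hΓ, Prod.mk.injEq] at e
    obtain ⟨rfl, -, -, -, e1, e2⟩ := S.inj _ _ _ _ _ _ _ _ _ _ _ _ (e.1.symm.trans e.2)
    exact ⟨s, u, v, by rw [e.1, e1, e2]⟩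
  rintro ⟨s, u, v, rfl⟩
  have p1 : ∀ t, Γ t 0 0 0 0 0 ∈ P := fun t => a t ▸ subset_closure ⟨t, .inl ⟨rfl, rfl⟩⟩
  have p2 : ∀ t, Γ 0 t 0 0 0 0 ∈ P := fun t => b t ▸ subset_closure ⟨t, .inr ⟨rfl, rfl⟩⟩
  have c : ∀ {s t u v w x}, Γ s t u v w x ∈ P ↔ Γ 0 0 u v w x ∈ P := fun {s t u v w x} => by
    rw [show Γ s t u v w x = Γ s 0 0 0 0 0 * (Γ 0 t 0 0 0 0 * Γ 0 0 u v w x) by simp [m],
      mul_mem_cancel_left (p1 s), mul_mem_cancel_left (p2 t)]
  have q1 : ∀ s t, Γ 0 0 (s * φ t) (s ^ 2 * φ t) (φ s * t) (φ s * t ^ 2) ∈ P := fun s t => by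
    have := mul_mem (p2 t) (p1 s)
    rw [m, c] at this
    simpa using this
  have d : ∀ {u v w x u' v' w' x'}, Γ 0 0 u v w x ∈ P → Γ 0 0 u' v' w' x' ∈ P →
      Γ 0 0 (u - u') (v - v') (w - w') (x - x') ∈ P := fun h h' =>
    (mul_mem_cancel_right h').1 (by simpa [m] using h)
  have qD : ∀ v, Γ 0 0 0 v 0 0 ∈ P := fun v => by
    have := mul_mem (q1 v 1) (p1 1)
    rw [m, c] at this
    have := d (q1 v 1) this
    simpa using this
  have qF : ∀ x, Γ 0 0 0 0 0 x ∈ P := fun x => by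
    have := mul_mem (q1 1 x) (p2 1)
    rw [m, c] at this
    have := d (q1 1 x) this
    simpa using this
  have q2 : ∀ s t, Γ 0 0 (s * φ t) 0 (φ s * t) 0 ∈ P := fun s t => by
    have := d (d (q1 s t) (qD (s ^ 2 * φ t))) (qF (φ s * t ^ 2))
    simpa using this
  have qC : ∀ u, Γ 0 0 u 0 0 0 ∈ P := fun u => by
    obtain ⟨s, hs⟩ := h
    obtain ⟨r, rfl⟩ : ∃ r, u = r * s ^ 3 - r * s := ⟨u / (s ^ 3 - s), by
      rw [← mul_sub, div_mul_cancel₀ _ (sub_ne_zero.2 hs)]⟩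
    have := d (q2 r (φ s)) (q2 (r * s) 1)
    simpa [hφ] using this
  have qE : ∀ w, Γ 0 0 0 0 w 0 ∈ P := fun w => by
    have := d (q2 1 w) (qC (φ w))
    simpa using this
  have := c (s := s) (t := s).2 (d (d (d (qC u) (qD (-v))) (qE (u - s * φ s))) (qF (v - s ^ 2 * φ s)))
  simpa only [sub_zero, sub_neg_eq_add, zero_add, sub_self, zero_sub, neg_sub, hΓ, map_sub, map_mul, hφ, mul_comm, map_pow, sub_sub_cancel] using this

theorem rel_ker {g : GL (Fin (7 + 1)) K} (h : orta1_R (n := 2) g.1 1) : Sc g := by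
  have k : ∀ a b : Fin (2 * 2 + 3 + 1), b ≠ a.rev → b ≠ a → ∀ i j, g.1 i a * g.1 j b - g.1 i b * g.1 j a =
      (if a = i ∧ b = j then 1 else 0) - if b = i ∧ a = j then 1 else 0 := fun a b h1 h2 i j => by
    have e : single a b (1 : K) - (single a b 1)ᵀ =
        orta1_A (n := 2) (0, fun β => if β.1 = orta1_r a b then orta1_sg K a b else 0) := by
      ext c d
      rw [Matrix.sub_apply, transpose_apply, single_apply, single_apply]
      by_cases p : d = c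
      · rw [p, orta1_A0, sub_self]
      by_cases q : d = c.rev
      · rw [q, orta1_A1, if_neg (by grind), if_neg (by grind [Fin.rev_rev])]
        simp [orta1_d]
      rw [orta1_A2 _ q p, co_root (orta1_root one_le_two q p)]
      have : ∀ a b c d : Fin (2 * 2 + 3 + 1), b ≠ a.rev → orta1_r c d = orta1_r a b →
          a = c ∧ b = d ∨ a = d ∧ b = c := by decide +kernel
      by_cases r : a = c ∧ b = d
      · obtain ⟨rfl, rfl⟩ := r
        simp [(orta1_sg_pm a b).sq, h2]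
      by_cases r' : a = d ∧ b = c
      · obtain ⟨rfl, rfl⟩ := r'
        simp [orta1_sg_swap one_le_two h1 h2, (orta1_sg_pm a b).sq, orta1_r_comm b, h2, h2.symm]
      · simp [r, r', show orta1_r c d ≠ orta1_r a b from fun e => (this a b c d h1 e).elim r r']
    have := congrFun (congrFun ((h _ _ e).1.trans e.symm) i) j
    simpa only [Nat.reduceAdd, Nat.reduceMul, ite_and, transpose_mul, transpose_transpose, transpose_single, Matrix.sub_apply, mul_apply, single_apply, mul_ite, mul_one, mul_zero, Finset.sum_ite_eq, Finset.mem_univ, ↓ reduceIte, transpose_apply, ite_mul, zero_mul, one_mul, Finset.sum_ite_irrel, Finset.sum_const_zero] using this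
  have z : ∀ i a, i ≠ a → g.1 i a = 0 := fun i a ne => by
    obtain ⟨b, h1, h2, h3⟩ : ∃ b : Fin (2 * 2 + 3 + 1), b ≠ Fin.rev a ∧ b ≠ a ∧ b ≠ i := by
      revert i a; decide
    have := k a b h1 h2 i a
    have := k a b h1 h2 i b
    have := k a b h1 h2 a b
    grind
  refine ⟨g.1 0 0, Matrix.ext fun i j => ?_⟩
  by_cases ne : i = j
  · obtain ⟨b, h1, h2, h3, h4⟩ : ∃ b : Fin (2 * 2 + 3 + 1), b ≠ Fin.rev i ∧ b ≠ i ∧ b ≠ Fin.rev 0 ∧ b ≠ 0 := by
      clear ne; revert i; decide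
    have := k i b h1 h2 i b
    have := k 0 b h3 h4 0 b
    have := z b i h2
    have := z b 0 h4
    rw [← ne, Matrix.smul_apply, one_apply_eq, smul_eq_mul]
    grind
  · simp [z i j ne, ne]

theorem rel_N (g : GL (Fin (7 + 1)) K) : reN K * g * reN K = reN K * g * (reN K)⁻¹ := by
  rw [inv_eq_of_mul_eq_one_right (a := reN K) (b := reN K)]
  rw [reN, mon_mul]
  exact mon_eq_one (by simp) (by simp)

theorem rel_eo (i j : Fin (7 + 1)) (s : K) : reN K * eo i j s * (reN K)⁻¹ = eo i.rev j.rev s := by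
  rw [reN, mon_eo (i := i) (j := j) rfl rfl rfl]
  simp

theorem re_link [Finite K] (hφ : ∀ s, φ (φ s) = s ^ 3) (h : 3 < Nat.card K) :
    ∃ Ψ : sog 7 K →* Equiv.Perm (Lie (CartanMatrix.D 4) K),
      (∀ g : sog 7 K, g.1 = reU φ 0 0 1 → Ψ g ≠ 1) ∧
      (∀ a b c, reU φ a b c ∈ sog 7 K ∧ reN K * reU φ a b c * reN K ∈ sog 7 K) ∧
      ree (CartanMatrix.D 4) [([0, 2, 3], 1)] φ = Subgroup.closure {σ | ∃ g : sog 7 K, σ = Ψ g ∧
        ∃ a b c, g.1 = reU φ a b c ∨ g.1 = reN K * reU φ a b c * reN K} := by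
  have h3 := re_three hφ h
  obtain ⟨Ψ, hF⟩ : ∃ Ψ : sog 7 K →* Equiv.Perm (Lie (CartanMatrix.D 4) K),
      ∀ g, orta1_R (n := 2) g.1.1 (Ψ g) := by
    choose F hF using orta1_ex (n := 2) (K := K) one_le_two
    exact ⟨MonoidHom.mk' F fun a b => orta1_R_eq one_le_two (hF _) (orta1_R_mul (hF a) (hF b)), hF⟩
  have ker : ∀ g, Ψ g = 1 → Sc g.1 := fun g e => rel_ker (e ▸ hF g)
  have me : ∀ {i j : Fin (7 + 1)}, j ≠ i.rev → ∀ s : K, eo i j s ∈ sog 7 K := fun h s =>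
    subset_closure ⟨_, _, s, h, rfl⟩
  have mn : ∀ s t u v w x : K, relN s t u v w x ∈ sog 7 K := fun s t u v w x => by
    refine mul_mem (mul_mem ?_ (mul_mem ?_ ?_)) (mul_mem ?_ (mul_mem (mul_mem ?_ (mul_mem ?_ ?_))
      (mul_mem (mul_mem ?_ (mul_mem ?_ ?_)) (mul_mem ?_ ?_)))) <;> exact me (by decide) _
  have mc : ∀ g ∈ sog 7 K, reN K * g * (reN K)⁻¹ ∈ sog 7 K := fun g hg => by
    induction hg using closure_induction with
    | mem x hx =>
      obtain ⟨i, j, s, h, rfl⟩ := hx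
      rw [rel_eo]
      exact me (Fin.rev_injective.ne h) s
    | one => simp
    | mul x y _ _ p q => simpa only [Nat.reduceAdd, mul_assoc, inv_mul_cancel_left] using mul_mem p q
    | inv x _ p => simpa [mul_assoc] using inv_mem p
  have key : ∀ (k : GL (Fin (7 + 1)) K) (hk : ∀ g ∈ sog 7 K, k * g * k⁻¹ ∈ sog 7 K), ∃ S : G2u _ K,
      ∀ s t u v w x, S.n s t u v w x = Ψ ⟨_, hk _ (mn s t u v w x)⟩ := fun k hk =>
    ⟨⟨fun s t u v w x => Ψ ⟨_, hk _ (mn s t u v w x)⟩, fun _ _ _ _ _ _ _ _ _ _ _ _ => by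
      rw [← map_mul]
      exact congrArg Ψ (Subtype.ext (by simp only [Nat.reduceAdd, mul_assoc, MulMemClass.mk_mul_mk, inv_mul_cancel_left, ← rel_mul h3])),
      fun s t u v w x s' t' u' v' w' x' e => by
      rw [← mul_inv_eq_one, ← map_inv, ← map_mul] at e
      obtain ⟨z, hz⟩ := (ker _ e).conj k⁻¹
      refine rel_inj (z := z) ?_
      simp only [Subgroup.coe_mul, Subgroup.coe_inv, _root_.mul_inv_rev, inv_inv, mul_assoc,
        inv_mul_cancel_left, inv_mul_cancel, mul_one] at hz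
      rw [← one_mul (relN s' t' u' v' w' x').1, ← smul_mul_assoc, ← hz, ← Units.val_mul,
        inv_mul_cancel_right]⟩, fun _ _ _ _ _ _ => rfl⟩
  obtain ⟨S, hS⟩ := key 1 (by simp)
  obtain ⟨S', hS'⟩ := key _ mc
  have hx : ∀ (i j : Fin (7 + 1)) (z : ℤ) (k : Fin 4) (e : ℤˣ), j ≠ i.rev ∧ i ≠ j ∧
      rtD (n := 2) i j = Pi.single k (e : ℤ) ∧
      Even (coc (CartanMatrix.D 4) (orta1_W (n := 2) i) (orta1_W (n := 2) j.rev) +
        (if (i : ℕ) < 5 then 0 else 1) + (if (j : ℕ) < 5 then 0 else 1) +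
        coc (CartanMatrix.D 4) (orta1_W (n := 2) j) (orta1_W (n := 2) j.rev) + z) →
      ∀ t, ∃ g : sog 7 K, g.1 = eo i j ((-1) ^ z * t) ∧ ∀ v, Ψ g v = xo _ (Pi.single k (e : ℤ)) t v :=
    fun i j z k e ⟨h, h', r, p⟩ t => ⟨⟨_, me h _⟩, rfl, fun v => by
      have q := orta1_root (n := 2) one_le_two (a := i) (b := j.rev) (Fin.rev_injective.ne h'.symm)
        fun c => h (Fin.rev_eq_iff.1 c)
      rw [orta1_r, Fin.rev_rev] at q
      rw [orta1_R_eq (n := 2) one_le_two (hF ⟨_, me h _⟩) (orta1_R_eo (n := 2) one_le_two h' h _),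
        Good0.xx_apply _ q, r, ← mul_assoc]
      have := p.neg_one_zpow (α := K)
      simp only [sg_add, apply_ite ((-1 : K) ^ · : ℤ → K), zpow_zero, zpow_one] at this
      rw [orta1_sg, Fin.rev_rev]
      exact congrArg (xo _ _ · v) ((congrArg (· * t) this).trans (one_mul t))⟩
  have fl : ∀ (i j : Fin (7 + 1)) (s : K), eo i.rev j.rev s = eo j i (-s) := fun i j =>
    eo_rev (by revert j; decide) (by revert i; decide)
  have a1 : ∀ t, rx _ [0, 2, 3] 1 t = ⇑(S.n t 0 0 0 0 0) := fun t => funext fun v => by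
    obtain ⟨a, e, r⟩ := hx 0 1 1 0 1 (by decide) t
    obtain ⟨b, e', r'⟩ := hx 2 3 1 2 1 (by decide) t
    obtain ⟨c, e'', r''⟩ := hx 2 4 1 3 1 (by decide) t
    rw [hS, show (⟨_, _⟩ : sog 7 K) = a * (b * c) from Subtype.ext (by
      simp only [Nat.reduceAdd, relN, reA, Fin.isValue, reB, eo_zero, reC, neg_zero, mul_one, reD, reE, reF, one_mul, inv_one, coe_mul, e, zpow_ofNat, pow_one, neg_mul, e', e'']), map_mul, map_mul, Equiv.Perm.mul_apply,
      Equiv.Perm.mul_apply, r, r', r'']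
    rfl
  have a2 : ∀ t, rx _ [0, 2, 3] (-1) t = ⇑(S'.n t 0 0 0 0 0) := fun t => funext fun v => by
    obtain ⟨a, e, r⟩ := hx 1 0 0 0 (-1) (by decide) t
    obtain ⟨b, e', r'⟩ := hx 3 2 0 2 (-1) (by decide) t
    obtain ⟨c, e'', r''⟩ := hx 4 2 0 3 (-1) (by decide) t
    rw [hS', show (⟨_, _⟩ : sog 7 K) = a * (b * c) from Subtype.ext (by
      simp only [relN, reA, reB, reC, reD, reE, reF, ← conj_mul, rel_eo, fl]
      simp only [Nat.reduceAdd, Fin.isValue, neg_neg, neg_zero, eo_zero, mul_one, coe_mul, e, zpow_ofNat, pow_zero, one_mul, e', e'']), map_mul, map_mul, Equiv.Perm.mul_apply, Equiv.Perm.mul_apply, r, r', r'']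
    rfl
  have b1 : ∀ t, rx _ [1] 1 t = ⇑(S.n 0 t 0 0 0 0) := fun t => funext fun v => by
    obtain ⟨a, e, r⟩ := hx 1 2 0 1 1 (by decide) t
    rw [hS, show (⟨_, _⟩ : sog 7 K) = a from Subtype.ext (by simp [relN, reA, reB, reC, reD, reE, reF, e]), r]
    rfl
  have b2 : ∀ t, rx _ [1] (-1) t = ⇑(S'.n 0 t 0 0 0 0) := fun t => funext fun v => by
    obtain ⟨a, e, r⟩ := hx 2 1 1 1 (-1) (by decide) t
    rw [hS', show (⟨_, _⟩ : sog 7 K) = a from Subtype.ext (by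
      simp only [Nat.reduceAdd, relN, reA, Fin.isValue, neg_zero, eo_zero, mul_one, reB, reC, reD, reE, reF, one_mul, rel_eo, Fin.reduceRev, e, zpow_ofNat, pow_one, neg_mul, ← fl]), r]
    rfl
  refine ⟨Ψ, fun g e c => ?_, fun a b c => ⟨mn _ _ _ _ _ _, rel_N (K := K) _ ▸ mc _ (mn _ _ _ _ _ _)⟩,
    congrArg Subgroup.closure (Set.ext fun g => ?_)⟩
  · obtain ⟨z, hz⟩ := ker g c
    have := rel_inj (z := z) (s' := 0) (t' := 0) (u' := 0) (v' := 0) (w' := 0) (x' := 0)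
      (((congrArg Units.val e).symm.trans hz).trans (by simp [relN, reA, reB, reC, reD, reE, reF]))
    simp at this
  have : ∀ P : ℤˣ → Prop, (∃ e, P e) ↔ P 1 ∨ P (-1) := fun P =>
    ⟨fun ⟨e, h⟩ => by rcases Int.units_eq_one_or e with rfl | rfl <;> simp [h], fun h => h.elim (⟨_, ·⟩) (⟨_, ·⟩)⟩
  simp only [Set.mem_ofPred_eq, List.mem_cons, List.not_mem_nil, or_false, exists_eq_left, this, a1, a2, b1, b2,
    DFunLike.coe_fn_eq]
  rw [S.fix hφ h3 (re_ex h), S'.fix hφ h3 (re_ex h)]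
  simp only [hS, hS', rel_N]
  constructor
  · rintro (⟨a, b, c, rfl⟩ | ⟨a, b, c, rfl⟩)
    exacts [⟨_, rfl, a, b, c, .inl (by simp; rfl)⟩, ⟨_, rfl, a, b, c, .inr rfl⟩]
  · rintro ⟨g, rfl, a, b, c, e | e⟩
    exacts [.inl ⟨a, b, c, congrArg Ψ (Subtype.ext (e.trans (by simp; rfl)))⟩,
      .inr ⟨a, b, c, congrArg Ψ (Subtype.ext e)⟩]

end Pool.Agent.MP_c78e8e_al.H75

end

section

namespace Pool.Agent.MP_c78e8e_al.H75.Ree

open Subgroup
open scoped commutatorElement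

/-- The relations in the Ree groups of type `G₂`. -/
structure Rg (G : Type) [Group G] {K : Type} [Field K] (φ : K →+* K) where
  u : K → K → K → G
  h : K → G
  n : G
  u_mul : ∀ a b c d e f, u a b c * u d e f = u (a + d) (b + e + φ a * d) (c + f - b * d + φ a * d ^ 2)
  h_mul : ∀ x y, x ≠ 0 → y ≠ 0 → h (x * y) = h x * h y
  h_u : ∀ x a b c, x ≠ 0 → h x * u a b c = u (x * a) (x * φ x * b) (x ^ 2 * φ x * c) * h x
  n_h : ∀ x, x ≠ 0 → n * h x = h x⁻¹ * n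
  nn : n * n = 1
  ra : n * u 1 1 0 * n = u (-1) 1 0 * n * u 0 0 1
  rb : n * u 0 1 1 * n = u 0 1 1 * n * h (-1) * u 1 (-1) 0
  key : ∃ a b c y v x, a ≠ 0 ∧ y ≠ 0 ∧ v ≠ 0 ∧ x ≠ 0 ∧ 1 + x ≠ 0 ∧ n * h y * (u a b c)⁻¹ * n * h v * u a b c =
    (u a b c)⁻¹ * h x * u a b c * n * h (-(x * y))

namespace Rg

variable {G G' K : Type} [Group G] [Group G'] [Field K] {φ : K →+* K} (S : Rg G φ)

/-- Transport along a homomorphism defined on a subgroup. -/
def map {P : Subgroup G} (hu : ∀ a b c, S.u a b c ∈ P) (hh : ∀ x, S.h x ∈ P) (hn : S.n ∈ P) (f : P →* G') :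
    Rg G' φ where
  u a b c := f ⟨_, hu a b c⟩
  h x := f ⟨_, hh x⟩
  n := f ⟨_, hn⟩
  u_mul a b c d e g := by rw [← map_mul]; exact congrArg f (Subtype.ext (S.u_mul ..))
  h_mul x y hx hy := by rw [← map_mul]; exact congrArg f (Subtype.ext (S.h_mul x y hx hy))
  h_u x a b c hx := by rw [← map_mul, ← map_mul]; exact congrArg f (Subtype.ext (S.h_u x a b c hx))
  n_h x hx := by rw [← map_mul, ← map_mul]; exact congrArg f (Subtype.ext (S.n_h x hx))
  nn := by rw [← map_mul, ← map_one f]; exact congrArg f (Subtype.ext S.nn)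
  ra := by simp only [← map_mul]; exact congrArg f (Subtype.ext S.ra)
  rb := by simp only [← map_mul]; exact congrArg f (Subtype.ext S.rb)
  key := by
    obtain ⟨a, b, c, y, v, x, h0, h1, h2, h3, h4, e⟩ := S.key
    exact ⟨a, b, c, y, v, x, h0, h1, h2, h3, h4, by
      simp only [← map_inv, ← map_mul]; exact congrArg f (Subtype.ext e)⟩

theorem u0 : S.u 0 0 0 = 1 := by simpa using S.u_mul 0 0 0 0 0 0

theorem h1 : S.h 1 = 1 := by simpa using S.h_mul 1 1 one_ne_zero one_ne_zero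

theorem hi {x : K} (h : x ≠ 0) : (S.h x)⁻¹ = S.h x⁻¹ :=
  inv_eq_of_mul_eq_one_right (by rw [← S.h_mul _ _ h (inv_ne_zero h), mul_inv_cancel₀ h, h1])

theorem cu {x : K} (h : x ≠ 0) (a b c : K) :
    S.h x * S.u a b c * (S.h x)⁻¹ = S.u (x * a) (x * φ x * b) (x ^ 2 * φ x * c) := by
  rw [S.h_u _ _ _ _ h, mul_inv_cancel_right]

theorem cn {t k : K} (h : t ≠ 0) (h' : k ≠ 0) : S.h t * (S.n * S.h k) * (S.h t)⁻¹ = S.n * S.h (k / t ^ 2) := by
  have i := inv_ne_zero h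
  have := S.n_h _ i
  rw [inv_inv] at this
  rw [← mul_assoc, ← this, S.hi h, mul_assoc, mul_assoc, ← S.h_mul _ _ h' i, ← S.h_mul _ _ i (mul_ne_zero h' i)]
  congr 2; field_simp

theorem nh {x y : K} (hx : x ≠ 0) (hy : y ≠ 0) : S.n * S.h x * (S.n * S.h y) = S.h (y / x) := by
  rw [S.n_h x hx, mul_assoc, ← mul_assoc S.n, S.nn, one_mul, ← S.h_mul _ _ (inv_ne_zero hx) hy, div_eq_inv_mul]

theorem ui (a b c : K) : (S.u a b c)⁻¹ = S.u (-a) (φ a * a - b) (-c - a * b - φ a * a ^ 2) :=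
  inv_eq_of_mul_eq_one_right (by rw [S.u_mul, ← S.u0]; congr 1 <;> ring)

variable (hφ : ∀ s, φ (φ s) = s ^ 3) (h3 : (3 : K) = 0)
include hφ h3

omit S in
theorem pm [Finite K] {y : K} (h : y ≠ 0) : ∃ t, t ≠ 0 ∧ (y = t ^ 2 ∨ y = -t ^ 2) := by
  classical
  have := Fintype.ofFinite K
  have n : ¬ IsSquare (-1 : K) := fun ⟨t, e⟩ => by
    have e1 := congrArg φ e
    rw [map_neg, map_one, map_mul] at e1
    have e2 : (φ t - t) * (φ t + t) = 0 := by linear_combination e - e1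
    have e3 := hφ t
    have e4 : t = t ^ 3 := by
      rcases mul_eq_zero.1 e2 with e2 | e2
      · rwa [sub_eq_zero.1 e2, sub_eq_zero.1 e2] at e3
      · rwa [eq_neg_of_add_eq_zero_left e2, map_neg, eq_neg_of_add_eq_zero_left e2, neg_neg] at e3
    exact one_ne_zero (α := K) (by linear_combination h3 + (2 - t ^ 2) * e + t * e4)
  by_cases s : IsSquare y
  · obtain ⟨t, rfl⟩ := s
    exact ⟨t, left_ne_zero_of_mul h, .inl (sq t).symm⟩
  · obtain ⟨t, e⟩ : IsSquare (-1 * y) := (quadraticChar_one_iff_isSquare (by simpa)).1 (by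
      rw [map_mul, quadraticChar_neg_one_iff_not_isSquare.2 n, quadraticChar_neg_one_iff_not_isSquare.2 s]; rfl)
    exact ⟨t, fun z => h (by simpa [z] using e), .inr (by linear_combination -e)⟩

theorem u_mem [Finite K] (h9 : ∃ m : K, m ^ 3 ≠ m) {H : Subgroup G}
    (hh : ∀ x, x ≠ 0 → ∀ g ∈ H, S.h x * g * (S.h x)⁻¹ ∈ H) {x y z : K} (x0 : x ≠ 0) (h : S.u x y z ∈ H)
    (a b c : K) : S.u a b c ∈ H := by
  have p1 : ∀ a, a ≠ 0 → ∃ b c, S.u a b c ∈ H := fun a a0 => ⟨_, _, by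
    have := hh _ (div_ne_zero a0 x0) _ h
    rwa [S.cu (div_ne_zero a0 x0), div_mul_cancel₀ _ x0] at this⟩
  obtain ⟨m, hm⟩ := h9
  have m1 : m - φ m ≠ 0 := fun e => hm (by rw [← hφ, ← sub_eq_zero.1 e, ← sub_eq_zero.1 e])
  obtain ⟨b1, c1, u1⟩ := p1 1 one_ne_zero
  obtain ⟨b2, c2, u2⟩ := p1 m fun e => hm (by simp [e])
  have p2 : ∀ b c, S.u 0 b c ∈ H → S.u 0 b 0 ∈ H := fun b c h => by
    have := inv_mem (mul_mem h (hh (-1) (by simp) _ h))
    rw [S.cu (by simp), S.u_mul, S.ui] at this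
    simp only [map_neg, map_one] at this
    convert this using 2 <;> first | ring1 | linear_combination b * h3
  have u3 : S.u 0 (m - φ m) 0 ∈ H := p2 _ _ (by
    have := mul_mem (mul_mem u1 u2) (inv_mem (mul_mem u2 u1))
    simp only [S.u_mul, S.ui, map_add, map_one] at this
    convert this using 2 <;> ring)
  have p3 : ∀ b, S.u 0 b 0 ∈ H := fun b => by
    by_cases b0 : b = 0
    · rw [b0, u0]; exact one_mem _
    obtain ⟨t, t0, e⟩ := pm hφ h3 (div_ne_zero b0 m1)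
    have t1 := (map_ne_zero φ).2 t0
    have := hh _ (div_ne_zero t1 t0) _ u3
    rw [S.cu (div_ne_zero t1 t0), map_div₀, hφ, show φ t / t * (t ^ 3 / φ t) = t ^ 2 by field_simp] at this
    simp only [div_eq_iff m1] at e
    rcases e with e | e
    · simpa [e] using this
    · simpa [e, S.ui] using inv_mem this
  have p4 : ∀ c, S.u 0 0 c ∈ H := fun c => by
    have := mul_mem (mul_mem u1 (p3 c)) (inv_mem (mul_mem (p3 c) u1))
    simp only [S.u_mul, S.ui, map_add, map_one, map_zero] at this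
    convert this using 2 <;> ring
  by_cases a0 : a = 0
  · simpa [a0, S.u_mul] using mul_mem (p3 b) (p4 c)
  obtain ⟨b', c', h⟩ := p1 a a0
  simpa [S.u_mul] using mul_mem (mul_mem h (p3 (b - b'))) (p4 (c - c'))

theorem nh_mem [Finite K] {Q : Subgroup G} (qu : ∀ a b c, S.u a b c ∈ Q)
    (qv : ∀ a b c, S.n * S.u a b c * S.n ∈ Q) : S.n ∈ Q ∧ ∀ y, y ≠ 0 → S.h y ∈ Q := by
  have qn : S.n ∈ Q := by
    have := S.ra ▸ qv 1 1 0
    rwa [mul_mem_cancel_right (qu ..), mul_mem_cancel_left (qu ..)] at this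
  have qz : S.h (-1) ∈ Q := by
    have := S.rb ▸ qv 0 1 1
    rwa [mul_mem_cancel_right (qu ..), mul_mem_cancel_left (mul_mem (qu ..) qn)] at this
  have qs : ∀ t, t ≠ 0 → S.h (t ^ 2) ∈ Q := fun t t0 => by
    have i := inv_ne_zero t0
    have e := S.cn i one_ne_zero
    have e' := S.n_h t t0
    have := qv (t * 1) (t * φ t * 1) (t ^ 2 * φ t * 0)
    rw [h1, mul_one, one_div, inv_pow, inv_inv] at e
    rwa [← S.cu t0, show S.n * (S.h t * S.u 1 1 0 * (S.h t)⁻¹) * S.n = S.h t⁻¹ * (S.n * S.u 1 1 0 * S.n) * (S.h t⁻¹)⁻¹ by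
        rw [S.hi i, inv_inv, S.hi t0, mul_assoc, mul_assoc, mul_assoc, ← e', ← mul_assoc, e']
        simp only [mul_assoc, e'], S.ra,
      show ∀ h a n b : G, h * (a * n * b) * h⁻¹ = h * a * h⁻¹ * (h * n * h⁻¹) * (h * b * h⁻¹) from
        fun _ _ _ _ => by group, e, S.cu i, S.cu i, mul_mem_cancel_right (qu ..), mul_mem_cancel_left (qu ..),
      mul_mem_cancel_left qn] at this
  refine ⟨qn, fun y y0 => ?_⟩
  obtain ⟨t, t0, rfl | rfl⟩ := pm hφ h3 y0
  · exact qs t t0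
  · rw [neg_eq_neg_one_mul, S.h_mul _ _ (by simp) (by simpa)]
    exact mul_mem qz (qs t t0)

theorem main [Finite K] (h9 : ∃ m : K, m ^ 3 ≠ m) (ne : S.u 0 0 1 ≠ 1) {Q : Subgroup G}
    (hQ : Q = closure {g | ∃ a b c, g = S.u a b c ∨ g = S.n * S.u a b c * S.n}) : IsLeast {n | Good Q n} 3 := by
  obtain ⟨p, q, r, y, v, x, p0, y0, v0, x0, x1, key⟩ := S.key
  have qu : ∀ a b c, S.u a b c ∈ Q := fun a b c => hQ ▸ subset_closure ⟨a, b, c, .inl rfl⟩
  have qv : ∀ a b c, S.n * S.u a b c * S.n ∈ Q := fun a b c => hQ ▸ subset_closure ⟨a, b, c, .inr rfl⟩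
  obtain ⟨qn, qh⟩ := S.nh_mem hφ h3 qu qv
  have ni := inv_eq_of_mul_eq_one_right S.nn
  have m1 : (-1 : K) ≠ 0 := by simp
  have zu : ∀ a b c, S.h (-1) * S.u a b c = S.u (-a) b (-c) * S.h (-1) := fun a b c => by
    simpa only [neg_mul, one_mul, map_neg, map_one, mul_neg, mul_one, neg_neg, even_two, Even.neg_pow, one_pow] using S.h_u (-1) a b c m1
  have cz : ∀ w, w ≠ 0 → ∃ k ∈ Q, k * S.h (-1) * k⁻¹ = S.n * S.h w := fun w w0 => by
    obtain ⟨t, t0, e⟩ := pm hφ h3 (inv_ne_zero w0)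
    simp only [inv_eq_iff_eq_inv] at e
    rcases e with rfl | rfl
    · refine ⟨S.h t * (S.u 0 1 1 * S.n * S.u 1 0 (-1)), mul_mem (qh t t0) (mul_mem (mul_mem (qu ..) qn) (qu ..)), ?_⟩
      have e : S.u 1 0 (-1) * S.h (-1) * (S.u 1 0 (-1))⁻¹ = S.h (-1) * S.u 1 (-1) 0 := by
        rw [zu, mul_inv_eq_iff_eq_mul, mul_assoc, zu, ← mul_assoc, S.u_mul]
        simp only [map_neg, map_one]
        congr 2 <;> first | ring1 | linear_combination h3
      calc _ = S.h t * (S.u 0 1 1 * S.n * (S.u 1 0 (-1) * S.h (-1) * (S.u 1 0 (-1))⁻¹) * S.n⁻¹ * (S.u 0 1 1)⁻¹) *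
            (S.h t)⁻¹ := by group
        _ = _ := by
          rw [e, ← mul_assoc (_ * _) (S.h _), ← S.rb, mul_inv_cancel_right, mul_inv_cancel_right, ← one_div (t ^ 2),
            ← S.cn t0 one_ne_zero, h1, mul_one]
    · refine ⟨S.h t * (S.u (-1) 1 0 * S.n * S.u 0 0 (-1)), mul_mem (qh t t0) (mul_mem (mul_mem (qu ..) qn) (qu ..)), ?_⟩
      have e : S.u 0 0 (-1) * S.h (-1) * (S.u 0 0 (-1))⁻¹ = S.u 0 0 1 * S.h (-1) := by
        rw [mul_inv_eq_iff_eq_mul, mul_assoc, zu, ← mul_assoc, S.u_mul]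
        simp only [map_zero]
        congr 2 <;> first | ring1 | linear_combination h3 | linear_combination -h3
      have e' := S.n_h _ m1
      have e'' := zu (-1) 1 0
      rw [inv_neg, inv_one] at e'
      rw [neg_neg, neg_zero] at e''
      calc _ = S.h t * (S.u (-1) 1 0 * S.n * (S.u 0 0 (-1) * S.h (-1) * (S.u 0 0 (-1))⁻¹) * S.n⁻¹ *
            (S.u (-1) 1 0)⁻¹) * (S.h t)⁻¹ := by group
        _ = _ := by
          rw [e, ← mul_assoc (_ * _) (S.u ..), ← S.ra, mul_assoc _ S.n, e', ← mul_assoc (_ * _) (S.h _), mul_inv_cancel_right, mul_assoc S.n,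
            ← e'', ← mul_assoc S.n, mul_inv_cancel_right, S.cn t0 m1, neg_div, one_div, inv_neg]
  obtain ⟨g, hg⟩ := IsCyclic.exists_monoid_generator (α := Kˣ)
  have w0 := div_ne_zero v0 x0
  have xy : -(x * y) ≠ 0 := by simp [x0, y0]
  set U := S.u p q r with hU
  have key' : U * (S.n * S.h y) * U⁻¹ * (S.n * S.h v) = S.h x * (U * (S.n * S.h (-(x * y))) * U⁻¹) := by
    calc _ = U * (S.n * S.h y * U⁻¹ * S.n * S.h v * U) * U⁻¹ := by group
      _ = _ := by rw [key]; group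
  set b := U * (S.n * S.h y) * U⁻¹ with hb
  have sq : ∀ w, w ≠ 0 → S.n * S.h w * (S.n * S.h w) = 1 := fun w w0 => by rw [S.nh w0 w0, div_self w0, h1]
  have sq' : ∀ k a : G, a * a = 1 → k * a * k⁻¹ * (k * a * k⁻¹) = 1 := fun k a e => by
    rw [conj_mul, e, mul_one, mul_inv_cancel]
  have cj : ∀ k ∈ Q, ∀ w, w ≠ 0 → ∃ l ∈ Q, l * (S.n * S.h (v / x)) * l⁻¹ = k * (S.n * S.h w) * k⁻¹ :=
    fun k hk w w1 => by
      obtain ⟨k1, q1, e1⟩ := cz _ w0
      obtain ⟨k2, q2, e2⟩ := cz _ w1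
      exact ⟨k * k2 * k1⁻¹, mul_mem (mul_mem hk q2) (inv_mem q1), by rw [← e1, ← e2]; group⟩
  have le : ∀ H : Subgroup G, (∀ g ∈ H, S.n * g * S.n⁻¹ ∈ H) → (∀ a b c, S.u a b c ∈ H) → Q ≤ H := fun H hn hu => by
    rw [hQ, closure_le]
    rintro _ ⟨a, b, c, rfl | rfl⟩
    exacts [hu a b c, by simpa only [ni, SetLike.mem_coe] using hn _ (hu a b c)]
  refine least_sub (a := S.n * S.h (v / x)) (b := b) (c := S.n * S.h (v / x * g)) ?_ ?_
    (fun h => ne (by simpa [h] using qu 0 0 1)) (sq _ w0) ?_ (cj U (qu ..) y y0)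
    (by simpa only [one_mul, inv_one, mul_one] using cj 1 (one_mem _) _ (mul_ne_zero w0 g.ne_zero))
  · refine le_antisymm ((closure_le _).2 ?_) ?_
    · rintro _ (rfl | rfl | rfl)
      exacts [mul_mem qn (qh _ w0), cj_mem (qu ..) (mul_mem qn (qh _ y0)),
        mul_mem qn (qh _ (mul_ne_zero w0 g.ne_zero))]
    set H := closure {S.n * S.h (v / x), b, S.n * S.h (v / x * g)}
    have ha : S.n * S.h (v / x) ∈ H := subset_closure (by simp only [Set.mem_insert_iff, Set.mem_singleton_iff, mul_right_inj, true_or])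
    have hb' : b ∈ H := subset_closure (by simp only [Set.mem_insert_iff, Set.mem_singleton_iff, true_or, or_true])
    have hh : ∀ y, y ≠ 0 → S.h y ∈ H := fun y y0 => by
      obtain ⟨k, e⟩ := hg (Units.mk0 y y0)
      obtain rfl : (g : K) ^ k = y := by simpa using congrArg Units.val e
      clear e y0
      induction k with
      | zero => rw [pow_zero, h1]; exact one_mem _
      | succ k ih =>
        have := mul_mem ha (subset_closure (by simp only [Set.mem_insert_iff, mul_right_inj, Set.mem_singleton_iff, or_true]) : S.n * S.h (v / x * g) ∈ H)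
        rw [S.nh w0 (mul_ne_zero w0 g.ne_zero), mul_div_cancel_left₀ _ w0] at this
        rw [pow_succ, S.h_mul _ _ (by simp) g.ne_zero]
        exact mul_mem ih this
    have hn := (mul_mem_cancel_right (hh _ w0)).1 ha
    have := mul_mem (mul_mem hb' ((mul_mem_cancel_left (hh x x0)).1 (key' ▸ mul_mem hb' (mul_mem hn (hh v v0)))))
      (inv_mem (hh (-x) (by simpa)))
    rw [hb, conj_mul, S.nh y0 xy, show -(x * y) / y = -x by field_simp, mul_assoc, mul_assoc, ← mul_assoc (S.h _),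
      hU, S.ui, S.cu (by simpa), S.u_mul] at this
    exact le H (fun g => cj_mem hn) (S.u_mem hφ h3 h9 (fun x x0 g => cj_mem (hh x x0))
      (fun e => mul_ne_zero x1 p0 (by linear_combination e)) this)
  · have := commutator_mem_commutator (qh _ m1) (qu 1 0 0)
    rw [commutatorElement_def, S.cu m1, S.ui, S.u_mul] at this
    exact le _ (fun g => comm_conj qn) (S.u_mem hφ h3 h9 (fun x x0 g => comm_conj (qh x x0)) (fun e => m1 (by linear_combination -e - h3)) this)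
  · have e : b * (S.n * S.h (v / x)) * (b * (S.n * S.h (v / x))) = 1 := by
      rw [div_eq_mul_inv, S.h_mul _ _ v0 (inv_ne_zero x0), ← S.hi x0, ← mul_assoc S.n, ← mul_assoc b, key']
      exact sq' _ _ (sq' _ _ (sq _ xy))
    rw [inv_eq_of_mul_eq_one_right (sq _ w0), ← mul_right_inj b, hb, sq' _ _ (sq _ y0), ← e, ← hb]; group

end Rg

end Pool.Agent.MP_c78e8e_al.H75.Ree

end

section

namespace Pool.Agent.MP_c78e8e_al.H75

open Subgroup Matrix Ree

variable {K : Type} [Field K] {φ : K →+* K}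

section
variable [CharP K 3] {s t u v w x e2 e3 e5 e6 e7 f6 f7 g6 g7 : K} (H : e2 = u - s * t ∧ e3 = s * u - v ∧
  e5 = s * v - w ∧ g7 = s ^ 2 * u - s * v - e5 ∧ f7 = x + t * s * v - t * e5 + u * v ∧
  e6 = s * u ^ 2 - f7 - t * e5 - u * v ∧ e7 = u * g7 - s * f7 - e3 ^ 2 ∧ f6 = t * v - u ^ 2 ∧
  g6 = v + s * u + s ^ 2 * t)
  (y0 y1 y2 y3 y4 y5 y6 y7 : K)
include H

theorem re_vec : (relN s t u v w x).1 *ᵥ ![y0, y1, y2, y3, y4, y5, y6, y7] =
    ![y0 - s * y1 + e2 * y2 + e3 * y3 + e3 * y4 + e5 * y5 + e6 * y6 + e7 * y7,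
      y1 + t * y2 - u * y3 - u * y4 - v * y5 + f6 * y6 + f7 * y7,
      y2 - s * y3 - s * y4 - s ^ 2 * y5 + g6 * y6 + g7 * y7, y3 + s * y5 + e2 * y6 - e3 * y7,
      y4 + s * y5 + e2 * y6 - e3 * y7, y5 - t * y6 - u * y7, y6 + s * y7, y7] := by
  obtain ⟨rfl, rfl, rfl, rfl, rfl, rfl, rfl, rfl, rfl⟩ := H
  simp only [relN, Units.val_mul, ← mulVec_mulVec, rel_A, rel_B, rel_C, rel_D, rel_E, rel_F,
    vecCons_inj, and_true]
  refine ⟨?_, ?_, ?_, ?_, ?_, ?_⟩ <;> grobner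

theorem re_inv : (relN s t u v w x)⁻¹.1 *ᵥ ![y0, y1, y2, y3, y4, y5, y6, y7] =
    ![y0 + s * y1 - u * y2 - e3 * y3 - e3 * y4 + g7 * y5 + f7 * y6 + e7 * y7,
      y1 - t * y2 + e2 * y3 + e2 * y4 + g6 * y5 + f6 * y6 + e6 * y7,
      y2 + s * y3 + s * y4 - s ^ 2 * y5 - v * y6 + e5 * y7, y3 - s * y5 - u * y6 + e3 * y7,
      y4 - s * y5 - u * y6 + e3 * y7, y5 + t * y6 + e2 * y7, y6 - s * y7, y7] := by
  refine (congrArg _ ?_).trans ((mulVec_mulVec _ _ (relN s t u v w x).1).trans (by rw [Units.inv_mul, one_mulVec]))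
  rw [re_vec H]
  obtain ⟨rfl, rfl, rfl, rfl, rfl, rfl, rfl, rfl, rfl⟩ := H
  simp only [vecCons_inj, and_true]
  refine ⟨?_, ?_, ?_, ?_, ?_, ?_, ?_⟩ <;> grobner

end

open Classical in
/-- The torus. -/
noncomputable def reH (φ : K →+* K) (x : K) : GL (Fin (7 + 1)) K :=
  if h : x = 0 then 1 else
    let a := Units.mk0 x h
    let b := Units.mk0 (φ x) ((map_ne_zero φ).2 h)
    mon 1 ![a ^ 2 * b, a * b, a, 1, 1, a⁻¹, (a * b)⁻¹, (a ^ 2 * b)⁻¹]

variable (y0 y1 y2 y3 y4 y5 y6 y7 : K)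

theorem re_H {x : K} (h : x ≠ 0) : (reH φ x).1 *ᵥ ![y0, y1, y2, y3, y4, y5, y6, y7] =
    ![x ^ 2 * φ x * y0, x * φ x * y1, x * y2, y3, y4, x⁻¹ * y5, (x * φ x)⁻¹ * y6, (x ^ 2 * φ x)⁻¹ * y7] := by
  ext a
  rw [reH, dif_neg h]
  simp only [mulVec, dotProduct, mon_val]
  fin_cases a <;> simp

theorem re_N : (reN K).1 *ᵥ ![y0, y1, y2, y3, y4, y5, y6, y7] = ![-y7, -y6, -y5, -y4, -y3, -y2, -y1, -y0] := by
  ext a
  simp only [reN, mulVec, dotProduct, mon_val, Fin.revPerm_apply, ← Fin.rev_eq_iff, ite_mul, zero_mul,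
    Finset.sum_ite_eq, Finset.mem_univ, if_true]
  fin_cases a <;> simp

theorem re_bas {g h : GL (Fin (7 + 1)) K} (e : 
    g.1 *ᵥ ![1, 0, 0, 0, 0, 0, 0, 0] = h.1 *ᵥ ![1, 0, 0, 0, 0, 0, 0, 0] ∧
    g.1 *ᵥ ![0, 1, 0, 0, 0, 0, 0, 0] = h.1 *ᵥ ![0, 1, 0, 0, 0, 0, 0, 0] ∧
    g.1 *ᵥ ![0, 0, 1, 0, 0, 0, 0, 0] = h.1 *ᵥ ![0, 0, 1, 0, 0, 0, 0, 0] ∧
    g.1 *ᵥ ![0, 0, 0, 1, 0, 0, 0, 0] = h.1 *ᵥ ![0, 0, 0, 1, 0, 0, 0, 0] ∧
    g.1 *ᵥ ![0, 0, 0, 0, 1, 0, 0, 0] = h.1 *ᵥ ![0, 0, 0, 0, 1, 0, 0, 0] ∧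
    g.1 *ᵥ ![0, 0, 0, 0, 0, 1, 0, 0] = h.1 *ᵥ ![0, 0, 0, 0, 0, 1, 0, 0] ∧
    g.1 *ᵥ ![0, 0, 0, 0, 0, 0, 1, 0] = h.1 *ᵥ ![0, 0, 0, 0, 0, 0, 1, 0] ∧
    g.1 *ᵥ ![0, 0, 0, 0, 0, 0, 0, 1] = h.1 *ᵥ ![0, 0, 0, 0, 0, 0, 0, 1]) : g = h := by
  refine rel_ext fun y0 y1 y2 y3 y4 y5 y6 y7 => ?_
  rw [show ![y0, y1, y2, y3, y4, y5, y6, y7] = y0 • ![1, 0, 0, 0, 0, 0, 0, 0] + y1 • ![0, 1, 0, 0, 0, 0, 0, 0] + y2 • ![0, 0, 1, 0, 0, 0, 0, 0] + y3 • ![0, 0, 0, 1, 0, 0, 0, 0] + y4 • ![0, 0, 0, 0, 1, 0, 0, 0] + y5 • ![0, 0, 0, 0, 0, 1, 0, 0] + y6 • ![0, 0, 0, 0, 0, 0, 1, 0] + y7 • ![0, 0, 0, 0, 0, 0, 0, 1] by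
    ext a; fin_cases a <;> simp]
  simp only [mulVec_add, mulVec_smul, e]

theorem re_key [CharP K 3] (hφ : ∀ s, φ (φ s) = s ^ 3) {m n a A b B g G d D e E k : K} (m0 : m ≠ 0) (a0 : a ≠ 0)
    (b0 : b ≠ 0) (g0 : g ≠ 0) (d0 : d ≠ 0) (e0 : e ≠ 0) (hn : φ m = n) (ha : a = 1 + m) (hA : φ a = A)
    (hb : b = m ^ 2 * n - 1) (hB : φ b = B) (hg : g = m ^ 2 * n + 1) (hG : φ g = G) (hd : d = 1 - m * n)
    (hD : φ d = D) (he : e = 1 + m * n) (hE : φ e = E) (hk : k = m - 1) {U : GL (Fin (7 + 1)) K}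
    (hU : U = reU φ 1 (d * E / (b * g)) (k * d ^ 2 * E / (a * B * g))) :
    reN K * reH φ (a * B / (d ^ 2 * E)) * U⁻¹ * reN K * reH φ (a * B * G / (D * e ^ 2 * g)) * U =
      U⁻¹ * reH φ (m * n) * U * reN K * reH φ (-(m * n * (a * B / (d ^ 2 * E)))) := by
  have z := fun x : K => (map_ne_zero φ (a := x)).2
  have n0 := hn ▸ z _ m0
  have A0 := hA ▸ z _ a0
  have B0 := hB ▸ z _ b0
  have G0 := hG ▸ z _ g0
  have D0 := hD ▸ z _ d0
  have E0 := hE ▸ z _ e0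
  have pn : φ n = m ^ 3 := hn ▸ hφ m
  have pB : φ B = b ^ 3 := hB ▸ hφ b
  have pG : φ G = g ^ 3 := hG ▸ hφ g
  have pD : φ D = d ^ 3 := hD ▸ hφ d
  have pE : φ E = e ^ 3 := hE ▸ hφ e
  have pk : φ k = n - 1 := by rw [hk, map_sub, hn, map_one]
  have qA : A = 1 + n := by rw [← hA, ha, map_add, hn, map_one]
  have qB : B = n ^ 2 * m ^ 3 - 1 := by rw [← hB, hb, map_sub, map_mul, map_pow, hn, pn, map_one]
  have qG : G = n ^ 2 * m ^ 3 + 1 := by rw [← hG, hg, map_add, map_mul, map_pow, hn, pn, map_one]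
  have qD : D = 1 - n * m ^ 3 := by rw [← hD, hd, map_sub, map_mul, hn, pn, map_one]
  have qE : E = 1 + n * m ^ 3 := by rw [← hE, he, map_add, map_mul, hn, pn, map_one]
  have H : ∀ u v w x e5 g7 f7, e5 = d ^ 2 * D * e * E / (a * B * g * G) → g7 = -(d * D * e ^ 2 * E / (a * b * B * G)) →
      f7 = d ^ 3 * D * e ^ 2 * E ^ 2 / (a * A * b ^ 3 * B * g ^ 2) → u = d * E / (b * g) → v = k * d ^ 2 * E / (a * B * g) → w = 1 - D * e ^ 3 / (B * G) →
      x = 1 - (n - 1) * D ^ 2 * e ^ 3 / (A * b ^ 3 * G) → -(D * e / (b * g)) = u - 1 * 1 ∧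
      d * D * e * E / (a * b * B * g) = 1 * u - v ∧ e5 = 1 * v - w ∧ g7 = 1 ^ 2 * u - 1 * v - e5 ∧
      f7 = x + 1 * 1 * v - 1 * e5 + u * v ∧
      -(d ^ 2 * D ^ 2 * e ^ 4 * E / (a * A * b ^ 3 * B * g * G)) = 1 * u ^ 2 - f7 - 1 * e5 - u * v ∧
      d ^ 3 * D ^ 2 * e ^ 4 * E ^ 2 / (a ^ 2 * A * b ^ 3 * B ^ 2 * g * G) =
        u * g7 - 1 * f7 - (d * D * e * E / (a * b * B * g)) ^ 2 ∧
      -(m * d ^ 2 * D * e ^ 2 * E / (a * b ^ 2 * B * g ^ 2)) = 1 * v - u ^ 2 ∧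
      -(k * D * e ^ 2 / (a * b * B)) = v + 1 * u + 1 ^ 2 * 1 := by
    rintro _ _ _ _ _ _ _ rfl rfl rfl rfl rfl rfl rfl
    clear hU pn pB pG pD pE pk hn hA hB hG hD hE z hφ
    refine ⟨?_, ?_, ?_, ?_, ?_, ?_, ?_, ?_, ?_⟩ <;> field_simp <;>
      (subst ha hb hg hd he hk qA qB qG qD qE; clear * -; grobner)
  replace H := H _ _ _ _ _ _ _ rfl rfl rfl rfl rfl rfl rfl
  obtain rfl : U = relN 1 1 (d * E / (b * g)) (k * d ^ 2 * E / (a * B * g)) (1 - D * e ^ 3 / (B * G))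
      (1 - (n - 1) * D ^ 2 * e ^ 3 / (A * b ^ 3 * G)) := by
    simp only [hU, reU, relN, map_one, map_div₀, map_mul, map_pow, hA, hB, hG, hD, pB, pE, pk, one_pow, mul_one]
  have l1 : ∀ x : K, x * 0 = 0 := mul_zero
  have l3 : ∀ x : K, x + 0 = x := add_zero
  have l4 : ∀ x : K, 0 + x = x := zero_add
  have l5 : ∀ x : K, x * 1 = x := mul_one
  have l6 : ∀ x : K, 1 * x = x := one_mul
  have l7 : ∀ x : K, x - 0 = x := sub_zero
  have l8 : -(0 : K) = 0 := neg_zero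
  have l9 : ∀ x : K, 0 - x = -x := zero_sub
  have h1 : a * B / (d ^ 2 * E) ≠ 0 := by positivity
  have h2 : a * B * G / (D * e ^ 2 * g) ≠ 0 := by positivity
  have h3 : m * n ≠ 0 := by positivity
  have h4 : -(m * n * (a * B / (d ^ 2 * E))) ≠ 0 := neg_ne_zero.2 (by positivity)
  refine re_bas ?_
  simp only [Units.val_mul, ← mulVec_mulVec, re_vec H, re_inv H, re_N, re_H _ _ _ _ _ _ _ _ h1, re_H _ _ _ _ _ _ _ _ h2,
    re_H _ _ _ _ _ _ _ _ h3, re_H _ _ _ _ _ _ _ _ h4, l1, l3, l4, l5, l6, l7, l8, l9, mul_neg, neg_mul, neg_neg, sub_neg_eq_add, one_pow, neg_eq_zero, map_neg, map_div₀, map_mul, map_pow,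
    hn, hA, hG, hD, hE, pn, pB, pG, pD, pE, vecCons_inj, and_true, and_assoc]
  clear H hU pn pB pG pD pE pk hn hA hB hG hD hE z hφ l1 l3 l4 l5 l6 l7 l8 l9 h1 h2 h3 h4
  refine ⟨?_, ?_, ?_, ?_, ?_, ?_, ?_, ?_, ?_, ?_, ?_, ?_, ?_, ?_, ?_, ?_, ?_, ?_, ?_, ?_, ?_, ?_, ?_, ?_, ?_, ?_, ?_, ?_, ?_, ?_, ?_, ?_, ?_, ?_, ?_, ?_, ?_, ?_, ?_, ?_, ?_, ?_, ?_, ?_, ?_, ?_, ?_, ?_, ?_, ?_, ?_, ?_, ?_, ?_, ?_, ?_, ?_, ?_, ?_, ?_, ?_, ?_, ?_, ?_⟩ <;> field_simp <;>
    (subst ha hb hg hd he hk qA qB qG qD qE; clear * -; try (rw [mul_zero]; try refine mul_eq_zero_of_right _ ?_)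
     grobner)

end Pool.Agent.MP_c78e8e_al.H75

end

section

namespace Pool.Agent.MP_c78e8e_al.H75

open Subgroup Matrix Ree

variable {K : Type} [Field K] {φ : K →+* K}

/-- The Ree group of type `G₂` in its eight-dimensional representation. -/
noncomputable def reS [CharP K 3] (hφ : ∀ s, φ (φ s) = s ^ 3) (h9 : ∃ m : K, m ^ 3 ≠ m) :
    Rg (GL (Fin (7 + 1)) K) φ :=
  have V := fun s t u v w x : K => re_vec (s := s) (t := t) (u := u) (v := v) (w := w) (x := x)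
    ⟨rfl, rfl, rfl, rfl, rfl, rfl, rfl, rfl, rfl⟩
  have U : ∀ a b c, reU φ a b c = relN a (φ a) b c (a ^ 3 * φ a - φ b) (a ^ 3 * φ a ^ 2 - φ c) := fun _ _ _ => rfl
  { u := reU φ
    h := reH φ
    n := reN K
    u_mul := reU_mul hφ (CharP.cast_eq_zero K 3)
    h_mul x y hx hy := rel_ext fun _ _ _ _ _ _ _ _ => by
      simp only [Units.val_mul, ← mulVec_mulVec, re_H _ _ _ _ _ _ _ _ hx, re_H _ _ _ _ _ _ _ _ hy,
        re_H _ _ _ _ _ _ _ _ (mul_ne_zero hx hy), map_mul, vecCons_inj, and_true, true_and]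
      refine ⟨?_, ?_, ?_, ?_, ?_, ?_⟩ <;> ring
    h_u x a b c hx := rel_ext fun _ _ _ _ _ _ _ _ => by
      have := (map_ne_zero φ).2 hx
      simp only [Units.val_mul, ← mulVec_mulVec, re_H _ _ _ _ _ _ _ _ hx, U, V, map_mul, map_pow, hφ, vecCons_inj,
        and_true]
      refine ⟨?_, ?_, ?_, ?_, ?_, ?_, ?_⟩ <;> field_simp
    n_h x hx := rel_ext fun _ _ _ _ _ _ _ _ => by
      simp only [Units.val_mul, ← mulVec_mulVec, re_H _ _ _ _ _ _ _ _ hx, re_H _ _ _ _ _ _ _ _ (inv_ne_zero hx),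
        re_N, map_inv₀, vecCons_inj, and_true, true_and]
      refine ⟨?_, ?_, ?_, ?_, ?_, ?_⟩ <;> simp [mul_comm]
    nn := rel_ext fun _ _ _ _ _ _ _ _ => by
      simp only [Units.val_mul, ← mulVec_mulVec, re_N, neg_neg, Units.val_one, one_mulVec]
    ra := rel_ext fun _ _ _ _ _ _ _ _ => by
      simp only [Units.val_mul, ← mulVec_mulVec, re_N, U, V, map_one, map_zero, map_neg, vecCons_inj, and_true]
      refine ⟨?_, ?_, ?_, ?_, ?_, ?_, ?_, ?_⟩ <;> grobner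
    rb := rel_ext fun _ _ _ _ _ _ _ _ => by
      simp only [Units.val_mul, ← mulVec_mulVec, re_N, U, V, re_H _ _ _ _ _ _ _ _ (neg_ne_zero.2 (one_ne_zero' K)),
        map_one, map_zero, map_neg, vecCons_inj, and_true, even_two.neg_pow, one_pow, mul_neg, neg_mul, mul_one,
        neg_neg, inv_neg, inv_one]
      refine ⟨?_, ?_, ?_, ?_, ?_, ?_, ?_, ?_⟩ <;> grobner
    key := by
      obtain ⟨m, hm⟩ := h9
      have z := fun x : K => (map_ne_zero φ (a := x)).2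
      have m0 : m ≠ 0 := fun e => hm (by simp [e])
      have p : ∀ x : K, x = 0 → φ x = 0 := fun x e => by rw [e, map_zero]
      have a0 : 1 + m ≠ 0 := fun e => hm (by linear_combination (m ^ 2 - m) * e)
      have b0 : m ^ 2 * φ m - 1 ≠ 0 := fun e => hm (by
        have := p _ e
        rw [map_sub, map_mul, map_pow, hφ, map_one] at this
        grobner)
      have g0 : m ^ 2 * φ m + 1 ≠ 0 := fun e => hm (by
        have := p _ e
        rw [map_add, map_mul, map_pow, hφ, map_one] at this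
        grobner)
      have d0 : 1 - m * φ m ≠ 0 := fun e => hm (by
        have := p _ e
        rw [map_sub, map_mul, hφ, map_one] at this
        grobner)
      have e0 : 1 + m * φ m ≠ 0 := fun e => hm (by
        have := p _ e
        rw [map_add, map_mul, hφ, map_one] at this
        grobner)
      have := z _ m0
      have := z _ b0
      have := z _ g0
      have := z _ d0
      have := z _ e0
      exact ⟨1, _, _, _, _, _, one_ne_zero, by positivity, by positivity, by positivity, e0,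
        re_key hφ m0 a0 b0 g0 d0 e0 rfl rfl rfl rfl rfl rfl rfl rfl rfl rfl rfl rfl rfl⟩ }

/-- The Ree groups of type `G₂`. -/
theorem tRe [Finite K] (hφ : ∀ s, φ (φ s) = s ^ 3) (h : 3 < Nat.card K) :
    IsLeast {n | Good (ree (CartanMatrix.D 4) [([0, 2, 3], 1)] φ) n} 3 := by
  have h3 := re_three hφ h
  have : CharP K 3 := (CharP.charP_iff_prime_eq_zero Nat.prime_three).2 h3
  obtain ⟨Ψ, ne, me, e⟩ := re_link hφ h
  obtain ⟨qn, qh⟩ := (reS hφ (re_ex h)).nh_mem hφ h3 (fun a b c => (me a b c).1) fun a b c => (me a b c).2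
  refine ((reS hφ (re_ex h)).map (fun a b c => (me a b c).1) (fun x => ?_) qn Ψ).main hφ h3 (re_ex h) (ne _ rfl)
    (e.trans (congrArg Subgroup.closure (Set.ext fun σ => ⟨?_, ?_⟩)))
  · by_cases x0 : x = 0
    · change reH φ x ∈ _
      rw [reH, dif_pos x0]; exact one_mem _
    · exact qh x x0
  · rintro ⟨g, rfl, a, b, c, e | e⟩
    · exact ⟨a, b, c, .inl (congrArg Ψ (Subtype.ext e))⟩
    · exact ⟨a, b, c, .inr (by simp only [Rg.map, ← map_mul]; exact congrArg Ψ (Subtype.ext e))⟩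
  · rintro ⟨a, b, c, rfl | rfl⟩
    · exact ⟨_, rfl, a, b, c, .inl rfl⟩
    · exact ⟨⟨_, (me a b c).2⟩, by simp only [Rg.map, ← map_mul]; rfl, a, b, c, .inr rfl⟩

end Pool.Agent.MP_c78e8e_al.H75

end
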