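import Pool.Agent.MP_c78e8e_al.Mg.Sg_Pk
import Pool.Agent.MP_c78e8e_al.Mg.Sg_Mon
import Pool.Agent.MP_c78e8e_al.Mg.Sg_Ort
import Pool.Agent.MP_c78e8e_al.Sg.Sl2

attribute [-instance] DistribMulActionSemiHomClass.toAddMonoidHomClass
  MonTypeEquivalenceMon.monMonoid Fintype.decidableForallFintype CharP.ofCharZero instCoeTCOfCoe
  IdemSemiring.toSemiring AddSubmonoidWithOneClass.toOneMemClass CommGroup.toDivisionCommMonoid
  RKHS.instFunLike NeZero.charZero_one littleWedderburn Finset.decidableDforallFinset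
  AlgHom.instNonUnitalAlgHomClassOfAlgHomClass Multiset.decidableDforallMultiset
  Vector.instDecidableForallForallMemOfDecidablePred instCharZeroOfIsSemireal
  instIsRightCancelAddOfAddRightReflectLE Array.instDecidableForallForallMemOfDecidablePred
  Option.decidableForallMem SubsemiringClass.toSubmonoidClass Int.decidableLTLE
  IsFormallyReal.instIsReduced NormedField.toField NormMulClass.toNoZeroDivisors Int.decidableLELE
  FloorSemiring.instCharZero ContinuousMonoidHom.instCoeOutOfMonoidHomClassOfContinuousMapClass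
  Int.decidableLTLT Semiring.toNonUnitalSemiring Int.decidableLELT BialgHomClass.toMonoidHomClass
  instCoeHTCT ringChar.charP

section

namespace Pool.Agent.MP_c78e8e_al.H75

open Finset Polynomial

/-- Parameters: a field with `p ^ k = Q + 1` elements, the table `T` of the powers of a primitive
element, the width `w` of a digit, constants `m`, `s` of the reduction of digits up to `B`. -/
structure EvP where
  p : ℕ
  k : ℕ
  Q : ℕ
  T : ℕ
  w : ℕ
  m : ℕ
  s : ℕ
  B : ℕ

/-- The coefficient of `a ^ u` in `a ^ n`. -/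
def EvP.d (c : EvP) (n u : ℕ) : ℕ :=
  Nat.mod (Nat.shiftRight c.T (Nat.mul 5 (Nat.add (Nat.mul c.k (Nat.mod n c.Q)) u))) 32

/-- The exponent of `-1`. -/
def EvP.h (c : EvP) : ℕ := if c.p = 2 then 0 else c.Q / 2

/-- The relation `a ^ x + a ^ y = a ^ z`. -/
def EvP.ad (c : EvP) (x y z : ℕ) : Prop := ∀ u < c.k, (c.d x u + c.d y u) % c.p = c.d z u % c.p

instance (c : EvP) (x y z : ℕ) : Decidable (c.ad x y z) := Nat.decidableBallLT _ _

/-- Correctness of the table. -/
def EvP.Tb (c : EvP) : Prop := c.p ^ c.k = c.Q + 1 ∧ 0 < c.k ∧ 0 < c.Q ∧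
  (∀ u < c.k, c.d 0 u = (if u = 0 then 1 else 0) ∧ (c.d c.h u + c.d 0 u) % c.p = 0 % c.p) ∧
  ∀ n < c.Q, (∀ u < c.k, c.d n u ≤ c.p - 1 ∧ c.d (n + 1) u % c.p =
    ((if u = 0 then 0 else c.d n (u - 1)) + c.d n (c.k - 1) * c.d c.k u) % c.p) ∧
    (n = 0 ∨ ∃ m < c.Q, c.ad m 0 n)

instance (c : EvP) : Decidable c.Tb := by unfold EvP.Tb; infer_instance

theorem EvP.d_mod (c : EvP) (n u : ℕ) : c.d (n % c.Q) u = c.d n u := by
  have : Nat.mod (n % c.Q) c.Q = Nat.mod n c.Q := Nat.mod_mod _ _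
  rw [EvP.d, this, EvP.d]

theorem ev_val {A : Type*} [CommRing A] {p k : ℕ} (hp : (p : A) = 0) (x : A) {f g : ℕ → ℕ}
    (h : ∀ u < k, f u % p = g u % p) :
    ∑ u ∈ range k, (f u : A) * x ^ u = ∑ u ∈ range k, (g u : A) * x ^ u :=
  sum_congr rfl fun u hu => by
    rw [← Nat.mod_add_div (f u) p, ← Nat.mod_add_div (g u) p, h u (mem_range.1 hu)]
    simp only [Nat.cast_add, Nat.cast_mul, hp, zero_mul, add_zero]

theorem EvP.Tb.pw {c : EvP} (h : c.Tb) {A : Type*} [CommRing A] (hp : (c.p : A) = 0) {x : A}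
    (hx : ∑ u ∈ range c.k, (c.d c.k u : A) * x ^ u = x ^ c.k) (n : ℕ) :
    ∑ u ∈ range c.k, (c.d n u : A) * x ^ u = x ^ n := by
  obtain ⟨-, k0, q0, z, s⟩ := h
  induction n with
  | zero =>
    rw [sum_eq_single 0 (fun u hu n => by simp [(z u (mem_range.1 hu)).1, n]) (by simp only [mem_range, k0, not_true_eq_false, pow_zero, mul_one, IsEmpty.forall_iff])]
    simp only [(z 0 k0).1, ↓ reduceIte, Nat.cast_one, pow_zero, mul_one]
  | succ n ih =>
    have e : ∀ u, c.d (n % c.Q + 1) u = c.d (n + 1) u := fun u => by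
      rw [← c.d_mod, Nat.mod_add_mod, c.d_mod]
    have s1 := fun u hu => ((s _ (Nat.mod_lt n q0)).1 u hu).2
    simp only [c.d_mod, e] at s1
    rw [ev_val hp x s1, pow_succ, ← ih]
    simp only [Nat.cast_add, Nat.cast_mul, add_mul, sum_add_distrib, mul_assoc, ← mul_sum, hx]
    obtain ⟨k, hk⟩ := Nat.exists_eq_succ_of_ne_zero k0.ne'
    rw [hk, sum_range_succ', sum_range_succ, add_mul, sum_mul]
    simp only [Nat.add_eq_zero_iff, one_ne_zero, and_false, ↓ reduceIte, add_tsub_cancel_right, pow_succ, Nat.cast_zero, pow_zero, mul_one, add_zero, Nat.succ_eq_add_one, mul_assoc]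

/-- What is used about the primitive element. -/
structure EvK {K : Type} [Field K] (c : EvP) (a : K) : Prop where
  ch : (c.p : K) = 0
  pw : ∀ n, ∑ u ∈ range c.k, (c.d n u : K) * a ^ u = a ^ n
  ord : orderOf a = c.Q
  gen : ∀ s, s ≠ 0 → ∃ n < c.Q, s = a ^ n
  neg : a ^ c.h = -1

theorem ev_ad {K : Type} [Field K] {c : EvP} {a : K} (ch : (c.p : K) = 0)
    (pw : ∀ n, ∑ u ∈ range c.k, (c.d n u : K) * a ^ u = a ^ n) {x y z : ℕ} (h : c.ad x y z) :
    a ^ x + a ^ y = a ^ z := by
  rw [← pw z, ← ev_val ch a h, ← pw x, ← pw y]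
  simp only [Nat.cast_add, add_mul, sum_add_distrib]

theorem EvP.Tb.ex {c : EvP} (h : c.Tb) {K : Type} [Field K] [Finite K]
    (hq : Nat.card K = c.Q + 1) : ∃ a : K, EvK c a := by
  have := Fintype.ofFinite K
  rw [Nat.card_eq_fintype_card] at hq
  have ch : (c.p : K) = 0 := by
    have := FiniteField.cast_card_eq_zero K
    rw [hq, ← h.1, Nat.cast_pow] at this
    exact pow_eq_zero_iff h.2.1.ne' |>.1 this
  obtain ⟨a, ha⟩ : ∃ a : K, ∑ u ∈ range c.k, (c.d c.k u : K) * a ^ u = a ^ c.k := by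
    set f : K[X] := X ^ c.k - ∑ u ∈ range c.k, (c.d c.k u : K[X]) * X ^ u with hf
    have dg : f.degree = c.k := by
      rw [hf, degree_sub_eq_left_of_degree_lt, degree_X_pow]
      rw [degree_X_pow]
      refine (degree_sum_le _ _).trans_lt ((Finset.sup_lt_iff (WithBot.bot_lt_coe _)).2 fun u hu => ?_)
      rw [← C_eq_natCast]
      exact (degree_C_mul_X_pow_le _ _).trans_lt (by exact_mod_cast mem_range.1 hu)
    have r := h.pw (A := AdjoinRoot f) (x := AdjoinRoot.root f)
      (by rw [← map_natCast (algebraMap K _), ch, map_zero]) (by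
        have := AdjoinRoot.mk_self (f := f)
        simp only [hf, map_sub, map_pow, map_sum, map_mul, map_natCast, AdjoinRoot.mk_X] at this
        exact (sub_eq_zero.1 this).symm)
    have dv : f ∣ X ^ Fintype.card K - X := by
      have e := r c.Q
      simp only [← c.d_mod c.Q, Nat.mod_self, r 0] at e
      rw [← AdjoinRoot.mk_eq_zero, hq, map_sub, map_pow, AdjoinRoot.mk_X, pow_succ, ← e]
      simp
    have sp : (X ^ Fintype.card K - X : K[X]).Splits := by
      rw [splits_iff_card_roots, FiniteField.roots_X_pow_card_sub_X,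
        FiniteField.X_pow_card_sub_X_natDegree_eq K Fintype.one_lt_card]
      rfl
    obtain ⟨a, ha⟩ := Splits.exists_eval_eq_zero (sp.of_dvd
      (FiniteField.X_pow_card_sub_X_ne_zero K Fintype.one_lt_card) dv)
      (by rw [dg]; exact_mod_cast h.2.1.ne')
    exact ⟨a, (sub_eq_zero.1 (by simpa only [hf, eval_sub, eval_pow, eval_X, eval_finsetSum, eval_mul, eval_natCast] using ha)).symm⟩
  have pw := h.pw ch ha
  obtain ⟨-, k0, q0, z, s⟩ := h
  have e : a ^ c.Q = 1 := by
    have e := pw c.Q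
    simpa only [← c.d_mod c.Q, Nat.mod_self, pw 0, pow_zero, eq_comm] using e
  have a0 : a ≠ 0 := by rintro rfl; simp [q0.ne'] at e
  have o : orderOf a = c.Q := (orderOf_eq_iff q0).2 ⟨e, fun n hn n0 e1 => by
    obtain ⟨m, -, hm⟩ := (s n hn).2.resolve_left n0.ne'
    simpa [e1, a0] using ev_ad ch pw hm⟩
  refine ⟨a, ch, pw, o, fun t t0 => ?_, ?_⟩
  · classical
    have o' : orderOf (Units.mk0 a a0) = c.Q := by rw [← orderOf_units]; exact o
    have : Subgroup.zpowers (Units.mk0 a a0) = ⊤ := Subgroup.eq_top_of_card_eq _ (by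
      rw [Nat.card_zpowers, o', Nat.card_units, Nat.card_eq_fintype_card, hq]; rfl)
    have m : Units.mk0 t t0 ∈ Subgroup.zpowers (Units.mk0 a a0) := this ▸ Subgroup.mem_top _
    obtain ⟨n, hn, e⟩ := mem_image.1 (mem_zpowers_iff_mem_range_orderOf.1 m)
    exact ⟨n, o' ▸ mem_range.1 hn, by simpa using (congrArg Units.val e).symm⟩
  · have := ev_val ch a (f := fun u => c.d c.h u + c.d 0 u) (g := fun _ => 0) fun u hu => (z u hu).2
    simp only [Nat.cast_add, add_mul, sum_add_distrib, pw] at this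
    simpa only [← add_eq_zero_iff_eq_neg, pow_zero, Nat.cast_zero, zero_mul, sum_const_zero] using this

end Pool.Agent.MP_c78e8e_al.H75

end

section

namespace Pool.Agent.MP_c78e8e_al.H75

open Finset Matrix

/-- List access with a default value. -/
def evGet (o : ℕ) (l : List ℕ) : ℕ → ℕ :=
  List.rec (fun _ => o) (fun a _ r i => Nat.rec a (fun j _ => r j) i) l

/-- The product of a word given by digits in base `1024`. -/
def evW (mu : ℕ → ℕ → ℕ) (g : ℕ → ℕ) (n : ℕ) : ℕ → ℕ → ℕ :=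
  Nat.rec (fun x _ => x) (fun _ r x v => cond (Nat.beq v 0) x
    (evF (mu x (g (Nat.pred (Nat.mod v 1024)))) fun y => r y (Nat.shiftRight v 10))) n

/-- Binary powering. -/
def evPw (mu : ℕ → ℕ → ℕ) (n : ℕ) : ℕ → ℕ → ℕ :=
  Nat.rec (fun x _ => x) (fun _ r x e => cond (Nat.ble e 1) x
    (evF (mu x x) fun y => cond (Nat.beq (Nat.mod e 2) 0) (r y (Nat.shiftRight e 1))
      (mu x (r y (Nat.shiftRight e 1))))) n

/-- A straight line program. -/
def evRun (mu : ℕ → ℕ → ℕ) (o : ℕ) (p : List ℕ) : List ℕ → List ℕ :=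
  List.rec (fun m => m) (fun v _ r m => evF (cond (Nat.beq (Nat.mod v 2) 0) (evW mu (evGet o m) v)
    (evPw mu v) (evGet o m (Nat.mod (Nat.shiftRight v 1) 1024)) (Nat.shiftRight v 11))
      fun y => r (y :: m)) p

/-- The first list is an initial part of the second one. -/
def evPre (l : List ℕ) : List ℕ → Bool :=
  List.rec (fun _ => true) (fun a _ r m => List.rec false (fun b m _ => Nat.beq a b && r m) m) l

theorem evPre_mem (l : List ℕ) : ∀ m, evPre l m = true → ∀ x ∈ l, x ∈ m := by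
  induction l with
  | nil => simp
  | cons a l ih =>
    intro m h x hx
    cases m with
    | nil => exact absurd h Bool.false_ne_true
    | cons b m =>
      have : (Nat.beq a b && evPre l m) = true := h
      rw [Bool.and_eq_true, Nat.beq_eq] at this
      rcases List.mem_cons.1 hx with rfl | hx
      · simp [this.1]
      · exact List.mem_cons_of_mem _ (ih m this.2 x hx)

section
variable {P : ℕ → Prop} {mu : ℕ → ℕ → ℕ} {o : ℕ}

theorem evGet_p (ho : P o) (l : List ℕ) (h : ∀ x ∈ l, P x) : ∀ i, P (evGet o l i) := by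
  induction l with
  | nil => exact fun _ => ho
  | cons a l ih =>
    intro i
    cases i with
    | zero => exact h a (by simp)
    | succ i => exact ih (fun x hx => h x (by simp [hx])) i

theorem evRun_p (ho : P o) (hm : ∀ x y, P x → P y → P (mu x y)) (p : List ℕ) :
    ∀ m, (∀ x ∈ m, P x) → ∀ x ∈ evRun mu o p m, P x := by
  have w : ∀ g, (∀ i, P (g i)) → ∀ n x v, P x → P (evW mu g n x v) := fun g hg n => by
    induction n with
    | zero => exact fun _ _ h => h
    | succ n ih =>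
      intro x v h
      change P (cond _ _ (evF _ fun y => evW mu g n y _))
      cases Nat.beq v 0
      · rw [evF_eq]; exact ih _ _ (hm _ _ h (hg _))
      · exact h
  have q : ∀ n x v, P x → P (evPw mu n x v) := fun n => by
    induction n with
    | zero => exact fun _ _ h => h
    | succ n ih =>
      intro x v h
      change P (cond _ _ (evF _ fun y => cond _ (evPw mu n y _) (mu x (evPw mu n y _))))
      cases Nat.ble v 1
      · rw [evF_eq]
        cases Nat.beq (Nat.mod v 2) 0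
        · exact hm _ _ h (ih _ _ (hm _ _ h h))
        · exact ih _ _ (hm _ _ h h)
      · exact h
  induction p with
  | nil => exact fun _ h => h
  | cons v p ih =>
    intro m h
    change ∀ x ∈ evF _ fun y => evRun mu o p (y :: m), P x
    rw [evF_eq]
    refine ih _ (List.forall_mem_cons.2 ⟨?_, h⟩)
    cases Nat.beq (Nat.mod v 2) 0
    · exact q _ _ _ (evGet_p ho m h _)
    · exact w _ (evGet_p ho m h) _ _ _ (evGet_p ho m h _)
end

/-- Finite sums. -/
def evSum (f : ℕ → ℕ) (n : ℕ) : ℕ := Nat.rec 0 (fun i r => Nat.add r (f i)) n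

theorem evSum_eq (f : ℕ → ℕ) (n : ℕ) : evSum f n = ∑ i ∈ range n, f i := by
  induction n with
  | zero => rfl
  | succ n ih => rw [sum_range_succ, ← ih]; rfl

/-- The packed matrix with the single entry `a ^ n`. -/
def EvP.bl (c : EvP) (D i j n : ℕ) : ℕ := evSum (fun t => evSum (fun u =>
  Nat.shiftLeft (c.d (Nat.add n t) u) (Nat.mul c.w
    (Nat.add (Nat.mul D (Nat.add (Nat.mul c.k i) t)) (Nat.add (Nat.mul c.k j) u)))) c.k) c.k

/-- Products of elementary matrices. -/
def evC (mu : ℕ → ℕ → ℕ) (o : ℕ) (E : ℕ × ℕ × ℕ → ℕ) (l : List (ℕ × ℕ × ℕ)) : ℕ :=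
  List.rec o (fun x l r => List.rec (E x) (fun _ _ _ => mu (E x) r) l) l

/-- Equality up to a scalar. -/
def evSc (mu : ℕ → ℕ → ℕ) (sc : ℕ → ℕ) (Q x y : ℕ) : Bool :=
  Nat.rec false (fun i r => r || Nat.beq x (mu (sc i) y)) Q

/-- The main check. -/
def evMain (mu : ℕ → ℕ → ℕ) (sc : ℕ → ℕ) (Q o : ℕ) (tc p p' : List ℕ) : Bool :=
  evF (evGet o (evRun mu o p tc) 0) fun a => evF (evGet o (evRun mu o p tc) 1) fun b =>
  evF (evGet o (evRun mu o p tc) 2) fun c => evF (evGet o (evRun mu o p tc) 3) fun g =>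
  evF (evGet o (evRun mu o p tc) 4) fun g' =>
  evSc mu sc Q (mu a a) o && evSc mu sc Q (mu g b) (mu a g) && evSc mu sc Q (mu g' c) (mu a g') &&
    evSc mu sc Q (mu b a) (mu a b) && evPre tc (evRun mu o p' [a, b, c, sc 1])

/-- Correctness of the parameters for matrices of size `N + 1`. -/
def EvP.Ok (c : EvP) (N : ℕ) : Prop := c.Tb ∧ c.p - 1 < 2 ^ c.w ∧ c.s ≤ c.w ∧
  c.k * (N + 1) * ((c.p - 1) * (c.p - 1)) ≤ c.B ∧ (N + 1) * (c.k * (c.k * (c.p - 1))) ≤ c.B ∧
  c.p - 1 + c.k * (c.k * (c.p - 1)) ≤ c.B ∧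
  ∀ x < c.B + 1, x * c.m < 2 ^ c.w ∧ c.p * (x * c.m / 2 ^ c.s) ≤ x ∧
    x - c.p * (x * c.m / 2 ^ c.s) ≤ c.p - 1

instance (c : EvP) (N : ℕ) : Decidable (c.Ok N) := by unfold EvP.Ok; infer_instance

/-- The complete check for the list `td` of generators. -/
def EvP.chk (c : EvP) (N : ℕ) (td : List (List (ℕ × ℕ × ℕ))) (p p' : List ℕ) : Bool :=
  decide (c.Ok N) && evF (c.k * (N + 1)) fun D => evF (c.w * D) fun W => evF (2 ^ W) fun B =>
  evF (evMk (2 ^ c.w - 1) W D) fun M => evF (evMk (2 ^ (c.w - c.s) - 1) c.w (D * D)) fun M' =>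
  evF (evRd c.p c.m c.s M' (evSum (fun i => c.bl D i i 0) (N + 1))) fun o =>
  evMain (fun x y => evRd c.p c.m c.s M' (evMr c.w W B M D x y))
    (fun n => evRd c.p c.m c.s M' (evSum (fun i => c.bl D i i n) (N + 1))) c.Q o
    (td.map (evC (fun x y => evRd c.p c.m c.s M' (evMr c.w W B M D x y)) o fun x =>
      cond (Nat.beq (Nat.mod x.1 (N + 1)) (Nat.mod x.2.1 (N + 1))) o (evRd c.p c.m c.s M'
        (Nat.add o (c.bl D (Nat.mod x.1 (N + 1)) (Nat.mod x.2.1 (N + 1)) x.2.2))))) p p'

variable {N : ℕ} {K : Type} [Field K]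

/-- The matrix described by a list of triples. -/
def evG (N : ℕ) (a : K) (l : List (ℕ × ℕ × ℕ)) : GL (Fin (N + 1)) K :=
  (l.map fun x => el (Fin.ofNat _ x.1) (Fin.ofNat _ x.2.1) (a ^ x.2.2)).prod

theorem ev_c {R : ℕ → GL (Fin (N + 1)) K → Prop} {mu : ℕ → ℕ → ℕ} {o : ℕ} {E : ℕ × ℕ × ℕ → ℕ}
    {a : K} (mul : ∀ x g y h, R x g → R y h → R (mu x y) (g * h)) (one : R o 1)
    (hE : ∀ x, R (E x) (el (Fin.ofNat _ x.1) (Fin.ofNat _ x.2.1) (a ^ x.2.2))) (l : List _) :
    R (evC mu o E l) (evG N a l) := by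
  induction l with
  | nil => exact one
  | cons x l ih =>
    cases l with
    | nil => rw [evG, List.map_singleton, List.prod_singleton]; exact hE x
    | cons y l => exact mul _ _ _ _ (hE x) ih

theorem ev_main {R : ℕ → GL (Fin (N + 1)) K → Prop} {mu : ℕ → ℕ → ℕ} {sc : ℕ → ℕ} {Q o : ℕ}
    {tc p p' : List ℕ} (mul : ∀ x g y h, R x g → R y h → R (mu x y) (g * h))
    (uq : ∀ x g h, R x g → R x h → g = h) (one : R o 1) (hs : ∀ n, ∃ z, Sc z ∧ R (sc n) z)
    {G : Subgroup (GL (Fin (N + 1)) K)} (hG : ∀ x ∈ tc, ∃ g ∈ G, R x g)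
    (h : evMain mu sc Q o tc p p' = true) : ∃ a ∈ G, ∃ b ∈ G, ∃ c ∈ G, ∃ g ∈ G, ∃ g' ∈ G,
      Sc (a * a) ∧ Sc (b⁻¹ * (g * a * g⁻¹)) ∧ Sc (c⁻¹ * (g' * a * g'⁻¹)) ∧
      Sc ((a * b)⁻¹ * (b * a)) ∧ ∀ H : Subgroup (GL (Fin (N + 1)) K), (∀ z, Sc z → z ∈ H) →
      a ∈ H → b ∈ H → c ∈ H → ∀ x ∈ tc, ∀ t, R x t → t ∈ H := by
  have run : ∀ (H : Subgroup (GL (Fin (N + 1)) K)) p m, (∀ x ∈ m, ∃ g ∈ H, R x g) →
      ∀ x ∈ evRun mu o p m, ∃ g ∈ H, R x g := fun H => evRun_p ⟨1, H.one_mem, one⟩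
    fun x y ⟨g, a, b⟩ ⟨h, c, d⟩ => ⟨g * h, H.mul_mem a c, mul _ _ _ _ b d⟩
  have sc' : ∀ x g y h, R x g → R y h → evSc mu sc Q x y = true → ∃ z, Sc z ∧ g = z * h :=
    fun x g y h' a b => by
      clear h
      induction Q with
      | zero => exact fun e => absurd e Bool.false_ne_true
      | succ Q ih =>
        intro e
        have : (evSc mu sc Q x y || Nat.beq x (mu (sc Q) y)) = true := e
        rw [Bool.or_eq_true, Nat.beq_eq] at this
        refine this.elim ih fun e => ?_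
        obtain ⟨z, s, r⟩ := hs Q
        exact ⟨z, s, uq _ _ _ a (e ▸ mul _ _ _ _ r b)⟩
  have cj : ∀ {a b g z : GL (Fin (N + 1)) K}, Sc z → g * b = z * (a * g) →
      Sc (b⁻¹ * (g⁻¹ * a * g⁻¹⁻¹)) := fun {a b g z} s e => by
    have : b = g⁻¹ * z * (a * g) := by rw [mul_assoc, ← e, inv_mul_cancel_left]
    rw [this, (s.comm g⁻¹).eq]
    simpa [mul_assoc] using s.inv.conj (g⁻¹ * a * g)⁻¹
  simp only [evMain, evF_eq, Bool.and_eq_true] at h
  obtain ⟨⟨⟨⟨h1, h2⟩, h3⟩, h4⟩, h5⟩ := h
  have gt := evGet_p (P := fun x => ∃ g ∈ G, R x g) ⟨1, G.one_mem, one⟩ _ (run G p tc hG)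
  obtain ⟨a, ma, ra⟩ := gt 0
  obtain ⟨b, mb, rb⟩ := gt 1
  obtain ⟨c, mc, rc⟩ := gt 2
  obtain ⟨g, mg, rg⟩ := gt 3
  obtain ⟨g', mg', rg'⟩ := gt 4
  obtain ⟨z1, s1, e1⟩ := sc' _ _ _ _ (mul _ _ _ _ ra ra) one h1
  obtain ⟨z2, s2, e2⟩ := sc' _ _ _ _ (mul _ _ _ _ rg rb) (mul _ _ _ _ ra rg) h2
  obtain ⟨z3, s3, e3⟩ := sc' _ _ _ _ (mul _ _ _ _ rg' rc) (mul _ _ _ _ ra rg') h3
  obtain ⟨z4, s4, e4⟩ := sc' _ _ _ _ (mul _ _ _ _ rb ra) (mul _ _ _ _ ra rb) h4
  refine ⟨a, ma, b, mb, c, mc, _, G.inv_mem mg, _, G.inv_mem mg', by rw [e1, mul_one]; exact s1,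
    cj s2 e2, cj s3 e3, by rw [e4]; simpa [mul_assoc] using s4.conj (a * b)⁻¹,
    fun H z ha hb hc x hx t r => ?_⟩
  obtain ⟨y, s, ry⟩ := hs 1
  obtain ⟨u, mu, ru⟩ := run H p' _ (by
    simp only [List.forall_mem_cons, List.not_mem_nil, false_imp_iff, implies_true, and_true]
    exact ⟨⟨a, ha, ra⟩, ⟨b, hb, rb⟩, ⟨c, hc, rc⟩, y, z y s, ry⟩) x (evPre_mem _ _ h5 x hx)
  exact uq _ _ _ ru r ▸ mu

/-- A basis over the prime field. -/
def evE (N k : ℕ) (a : K) (x : ℕ) : Fin (N + 1) → K := Pi.single (Fin.ofNat _ (x / k)) (a ^ (x % k))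

theorem ev_bl {c : EvP} {a : K} (h : c.Tb) (ha : EvK c a) (i j : Fin (N + 1)) (n : ℕ) :
    EvR (evE N c.k a) c.w (c.k * (N + 1)) (c.k * (c.k * (c.p - 1))) (c.bl (c.k * (N + 1)) i j n)
      fun x => evE N c.k a x ᵥ* single i j (a ^ n) := by
  obtain ⟨-, k0, q0, -, s⟩ := h
  have lt : ∀ i : Fin (N + 1), ∀ t < c.k, c.k * i + t < c.k * (N + 1) := fun i t ht => by
    have := Nat.mul_le_mul_left c.k i.is_le
    rw [Nat.mul_succ]; omega
  have ev : ∀ i : Fin (N + 1), ∀ t < c.k, evE N c.k a (c.k * i + t) = Pi.single i (a ^ t) :=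
    fun i t ht => by
      rw [evE, Nat.mul_add_div k0, Nat.div_eq_of_lt ht, Nat.mul_add_mod, Nat.mod_eq_of_lt ht]
      simp
  have := EvR.sum (e := evE N c.k a) (w := c.w) fun t ht => EvR.sum fun u hu =>
    (EvR.atom (lt i t ht) (lt j u hu) (c.d (n + t) u)).mono (Y := c.p - 1) (by
      rw [← c.d_mod]; exact ((s _ (Nat.mod_lt _ q0)).1 u hu).1) fun _ _ => rfl
  simp only [← Nat.shiftLeft_eq, ← evSum_eq] at this
  refine this.mono le_rfl fun x hx => ?_
  obtain ⟨y, t, ht, rfl⟩ : ∃ (y : Fin (N + 1)) (t : ℕ), t < c.k ∧ x = c.k * y + t :=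
    ⟨⟨x / c.k, Nat.div_lt_of_lt_mul hx⟩, x % c.k, Nat.mod_lt _ k0, (Nat.div_add_mod _ _).symm⟩
  have k : ∀ t' ∈ range c.k, c.k * y + t = c.k * i + t' ↔ y = i ∧ t = t' := fun t' h' => by
    refine ⟨fun e => ?_, fun e => by rw [e.1, e.2]⟩
    have e1 := congrArg (· % c.k) e
    simp only [Nat.mul_add_mod, Nat.mod_eq_of_lt ht, Nat.mod_eq_of_lt (mem_range.1 h')] at e1
    exact ⟨Fin.ext (Nat.eq_of_mul_eq_mul_left k0 (by omega)), e1⟩
  simp only [Finset.sum_apply]
  rw [sum_congr rfl (g := fun t' => if y = i ∧ t = t' then Pi.single j (a ^ (n + t')) else 0)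
    fun t' h' => ?_, ev y t ht]
  · by_cases e : y = i
    · subst e
      simp only [true_and, sum_ite_eq, mem_range, ht, if_true]
      ext l
      by_cases e' : l = j
      · simp [e', pow_add, mul_comm]
      · simp [e', Ne.symm e']
    · ext l
      simp [e, Ne.symm e]
  · simp only [k t' h']
    split_ifs
    · rw [← ha.pw (n + t')]
      ext l
      rw [Finset.sum_apply, sum_congr rfl fun u hu => by rw [ev j u (mem_range.1 hu)]]
      by_cases e' : l = j <;> simp [e']
    · simp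

theorem ev_chk {c : EvP} {td : List (List (ℕ × ℕ × ℕ))} {p p' : List ℕ}
    (h : c.chk N td p p' = true) {a : K} (ha : EvK c a) {G : Subgroup (GL (Fin (N + 1)) K)}
    (hG : ∀ l ∈ td, evG N a l ∈ G) : ∃ x ∈ G, ∃ b ∈ G, ∃ c ∈ G, ∃ g ∈ G, ∃ g' ∈ G,
      Sc (x * x) ∧ Sc (b⁻¹ * (g * x * g⁻¹)) ∧ Sc (c⁻¹ * (g' * x * g'⁻¹)) ∧
      Sc ((x * b)⁻¹ * (b * x)) ∧ ∀ H : Subgroup (GL (Fin (N + 1)) K), (∀ z, Sc z → z ∈ H) →
      x ∈ H → b ∈ H → c ∈ H → ∀ l ∈ td, evG N a l ∈ H := by
  simp only [EvP.chk, evF_eq, Bool.and_eq_true, decide_eq_true_eq] at h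
  obtain ⟨⟨tb, l, sw, b1, b2, b3, ok⟩, h⟩ := h
  have k0 := tb.2.1
  have a0 : a ≠ 0 := fun e => by
    have := ha.ord
    rw [e, orderOf_zero] at this
    exact tb.2.2.1.ne this
  have rd := fun X (l : X ≤ c.B) A R (h : EvR (evE N c.k a) c.w (c.k * (N + 1)) X A R) =>
    (h.mono l fun _ _ => rfl).red (p := c.p) (fun v => by
      rw [← Nat.cast_smul_eq_nsmul K, ha.ch, zero_smul]) sw fun x hx => ok x (by omega)
  let R : ℕ → GL (Fin (N + 1)) K → Prop := fun A g =>
    EvR (evE N c.k a) c.w (c.k * (N + 1)) (c.p - 1) A fun x => evE N c.k a x ᵥ* g.1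
  have mul : ∀ x g y h, R x g → R y h → R _ (g * h) := fun x g y h r r' =>
    (rd _ b1 _ _ (r.mul l (AddMonoidHom.mk' (· ᵥ* h.1) fun u v => add_vecMul _ u v) r')).mono le_rfl
      fun i _ => vecMul_vecMul _ g.1 h.1
  have sc : ∀ n, EvR _ _ _ _ _ fun x => evE N c.k a x ᵥ* (a ^ n • (1 : Matrix _ _ K)) := fun n => by
    have := rd _ b2 _ _ (EvR.sum (n := N + 1) (A := fun i => c.bl (c.k * (N + 1)) i i n)
      (R := fun i x => evE N c.k a x ᵥ* single (Fin.ofNat _ i) (Fin.ofNat _ i) (a ^ n)) fun i hi => by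
        simpa only [Fin.ofNat_eq_cast, Fin.val_natCast, Nat.mod_eq_of_lt hi] using ev_bl tb ha (Fin.ofNat (N + 1) i) (Fin.ofNat _ i) n)
    rw [← evSum_eq] at this
    refine this.mono le_rfl fun x _ => ?_
    rw [Finset.sum_apply, ← vecMul_sum, sum_range]
    congr 1
    ext i j
    by_cases e : i = j <;> simp only [Fin.ofNat_eq_cast, Fin.cast_val_eq_self, e, Matrix.sum_apply, single_apply, and_self, sum_ite_eq', mem_univ, ↓ reduceIte, Matrix.smul_apply, one_apply, smul_eq_mul, mul_one, ite_and, mul_zero]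
  have one : R _ 1 := (sc 0).mono le_rfl fun _ _ => by simp
  have E : ∀ x : ℕ × ℕ × ℕ, R (cond (Nat.beq (Nat.mod x.1 (N + 1)) (Nat.mod x.2.1 (N + 1))) _
      (evRd c.p c.m c.s _ (Nat.add _ (c.bl _ (Nat.mod x.1 (N + 1)) (Nat.mod x.2.1 (N + 1)) x.2.2))))
      (el (Fin.ofNat _ x.1) (Fin.ofNat _ x.2.1) (a ^ x.2.2)) := fun x => by
    cases e : Nat.beq (Nat.mod x.1 (N + 1)) (Nat.mod x.2.1 (N + 1))
    · refine (rd _ b3 _ _ (one.add (ev_bl tb ha (Fin.ofNat (N + 1) x.1) (Fin.ofNat _ x.2.1)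
        x.2.2))).mono le_rfl fun i _ => ?_
      rw [el_val fun e' => Nat.ne_of_beq_eq_false e (congrArg Fin.val e'), vecMul_add]
      rfl
    · rw [show Fin.ofNat (N + 1) x.1 = Fin.ofNat _ x.2.1 from Fin.ext (Nat.eq_of_beq_eq_true e),
        el_self]
      exact one
  have cd := ev_c mul one E
  obtain ⟨x, m1, b, m2, c', m3, g, m4, g', m5, e1, e2, e3, e4, e5⟩ := ev_main (G := G) mul
    (fun x g h r r' => Units.ext (Matrix.ext fun i j => by
      have := congrFun (r.uniq l r' (i := c.k * i) (Nat.mul_lt_mul_of_pos_left i.2 k0)) j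
      simpa [evE, Nat.mul_div_cancel_left _ k0] using this)) one
    (fun n => ⟨⟨a ^ n • 1, (a ^ n)⁻¹ • 1, by simp [smul_smul, a0], by simp [smul_smul, a0]⟩,
      ⟨_, rfl⟩, sc n⟩) (List.forall_mem_map.2 fun l hl => ⟨_, hG l hl, cd l⟩) h
  exact ⟨x, m1, b, m2, c', m3, g, m4, g', m5, e1, e2, e3, e4, fun H z h1 h2 h3 l hl =>
    e5 H z h1 h2 h3 _ (List.mem_map_of_mem hl) _ (cd l)⟩

end Pool.Agent.MP_c78e8e_al.H75

end

section

namespace Pool.Agent.MP_c78e8e_al.H75

open Subgroup Matrix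

/-- Pairs of neighbouring indices. -/
def evPr (r : ℕ) : List (ℕ × ℕ) := (List.range r).flatMap fun i => [(i, i + 1), (i + 1, i)]

theorem mem_evPr {r : ℕ} {x : ℕ × ℕ} :
    x ∈ evPr r ↔ x.2 = x.1 + 1 ∧ x.1 < r ∨ x.1 = x.2 + 1 ∧ x.2 < r := by
  obtain ⟨i, j⟩ := x
  simp only [evPr, List.mem_flatMap, List.mem_range, List.mem_cons, Prod.mk.injEq, List.not_mem_nil,
    or_false]
  exact ⟨fun ⟨_, _, _⟩ => by omega, fun h => h.elim (fun h => ⟨i, by omega⟩) fun h => ⟨j, by omega⟩⟩

/-- The exponents `n` with `φ (a ^ n) = a ^ e * a ^ n`. -/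
def EvP.fx (c : EvP) (q e : ℕ) : List ℕ := (List.range c.Q).filter fun n => n * q % c.Q = (e + n) % c.Q

/-- Simple root elements of the special linear groups. -/
def EvP.tL (c : EvP) (r : ℕ) : List (List (ℕ × ℕ × ℕ)) :=
  (evPr r).flatMap fun x => (List.range c.Q).map fun n => [(x.1, x.2, n)]

/-- Long root elements. -/
def EvP.lg (c : EvP) (r q i : ℕ) : List (List (ℕ × ℕ × ℕ)) :=
  (c.fx q (c.h * (r + 1))).map fun n => [(i, r - i, n)]

/-- Elements of the non-abelian root groups. -/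
def EvP.md (c : EvP) (r q e i m : ℕ) : List (List (ℕ × ℕ × ℕ)) :=
  ((List.range c.Q).map fun n => [(m, r - i, n * q), (i, m, n), (i, r - i, n + n * q + e)]) ++
    c.lg r q i

/-- Elements of one root group. -/
def EvP.fU (c : EvP) (r q e i j : ℕ) : List (List (ℕ × ℕ × ℕ)) :=
  if i + j = r then c.lg r q i else if 2 * j = r then c.md r q e i j else
    if 2 * i = r then c.md r q e (r - j) i else
      (List.range c.Q).map fun n => [(i, j, n), (r - j, r - i, n * q)]

/-- Simple root elements of the symplectic and unitary groups. -/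
def EvP.tU (c : EvP) (r q e : ℕ) : List (List (ℕ × ℕ × ℕ)) :=
  (evPr ((r + 1) / 2)).flatMap fun x => c.fU r q e x.1 x.2

/-- Orthogonal root elements. -/
def EvP.eo (c : EvP) (N i j n : ℕ) : List (ℕ × ℕ × ℕ) := [(i, j, n), (N - j, N - i, n + c.h)]

/-- Simple root elements of the split orthogonal groups. -/
def EvP.tO (c : EvP) (n : ℕ) : List (List (ℕ × ℕ × ℕ)) :=
  ((n, n + 2) :: (n + 2, n) :: evPr (n + 1)).flatMap fun x =>
    (List.range c.Q).map (c.eo (2 * n + 3) x.1 x.2)

/-- Simple root elements of the other orthogonal groups. -/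
def EvP.tT (c : EvP) (n q : ℕ) : List (List (ℕ × ℕ × ℕ)) :=
  ((evPr n).flatMap fun x => (c.fx q 0).map (c.eo (2 * n + 3) x.1 x.2)) ++
    (List.range c.Q).flatMap fun t =>
      [c.eo (2 * n + 3) n (n + 1) t ++ c.eo (2 * n + 3) n (n + 2) (t * q),
        c.eo (2 * n + 3) (n + 1) n t ++ c.eo (2 * n + 3) (n + 2) n (t * q)]

variable {K : Type} [Field K] {φ : K →+* K} {c : EvP} {a : K} {r q e : ℕ} {p p' : List ℕ}

theorem ev_rev (i : Fin (r + 1)) : Fin.ofNat (r + 1) (r - i) = i.rev := by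
  ext; simp only [Fin.ofNat_eq_cast, Fin.val_natCast, Nat.mod_eq_of_lt (by omega : r - i < r + 1), Fin.val_rev, Nat.reduceSubDiff]

theorem ev_all (ha : EvK c a) {P : K → Prop} (z : P 0) (h : ∀ n < c.Q, P (a ^ n)) (s : K) : P s := by
  by_cases s0 : s = 0
  · exact s0 ▸ z
  · obtain ⟨n, hn, rfl⟩ := ha.gen s s0
    exact h n hn

theorem ev_fx (ha : EvK c a) (hq : ∀ s, φ s = s ^ q) {n : ℕ} :
    n ∈ c.fx q e ↔ n < c.Q ∧ φ (a ^ n) = a ^ e * a ^ n := by
  simp only [EvP.fx, List.mem_filter, List.mem_range, decide_eq_true_eq]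
  refine and_congr_right fun h => ?_
  rw [hq, ← pow_mul, ← pow_add, (orderOf_pos_iff.1 (by rw [ha.ord]; omega)).pow_eq_pow_iff_modEq,
    ha.ord, Nat.ModEq]

theorem ev_tb {N : ℕ} {td : List (List (ℕ × ℕ × ℕ))} (h : c.chk N td p p' = true) : c.Tb := by
  simp only [EvP.chk, Bool.and_eq_true, decide_eq_true_eq] at h
  exact h.1.1

theorem evSL [Finite K] (hr : 2 ≤ r) (hK : Nat.card K = c.Q + 1) (h : c.chk r (c.tL r) p p' = true) :
    IsLeast {n | Good (chev (CartanMatrix.A r) 1 (RingHom.id K)) n} 3 := by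
  obtain ⟨a, ha⟩ := (ev_tb h).ex hK
  obtain ⟨x, m1, b, m2, c', m3, g, m4, g', m5, e1, e2, e3, e4, e5⟩ := ev_chk h ha (G := slg r K) (by
    simp only [EvP.tL, List.mem_flatMap, List.mem_map]
    rintro _ ⟨x, -, n, -, rfl⟩
    rw [evG, List.map_singleton, List.prod_singleton]
    exact subset_closure ⟨_, _, _, rfl⟩)
  refine goodSL hr m1 m2 m3 m4 m5 e1 e2 e3 e4 fun H z h1 h2 h3 i => ?_
  have k : ∀ i j : Fin (r + 1), ((i : ℕ), (j : ℕ)) ∈ evPr r → ∀ s, el i j s ∈ H := fun i j m =>
    ev_all ha (by simp) fun n hn => by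
      simpa [evG] using e5 H z h1 h2 h3 [(i, j, n)]
        (List.mem_flatMap.2 ⟨_, m, List.mem_map.2 ⟨n, List.mem_range.2 hn, rfl⟩⟩)
  exact fun s => ⟨k _ _ (by simp [mem_evPr]) s, k _ _ (by simp [mem_evPr]) s⟩

theorem ev_lg (ha : EvK c a) (hq : ∀ s, φ s = s ^ q) (i : Fin (r + 1)) {S : Set (GL (Fin (r + 1)) K)}
    (o : 1 ∈ S) : (∀ l ∈ c.lg r q i, evG r a l ∈ S) ↔
      ∀ s, φ s = (-1) ^ (r + 1) * s → el i i.rev s ∈ S := by
  simp only [EvP.lg, List.forall_mem_map, ev_fx ha hq, pow_mul, ha.neg, evG, List.map_singleton,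
    List.prod_singleton, ev_rev, Fin.ofNat_val_eq_self]
  exact ⟨fun h => ev_all ha (by simpa only [map_zero, mul_zero, el_zero, forall_const] using o) fun n hn e => h n ⟨hn, e⟩, fun h n hn => h _ hn.2⟩

theorem ev_md (ha : EvK c a) (hφ : ∀ s, φ (φ s) = s) (hq : ∀ s, φ s = s ^ q) (he : c.ad e (e * q) 0)
    {i m : Fin (r + 1)} (hm : m = m.rev) (od : Odd ((i : ℕ) + m)) :
    (∀ l ∈ c.md r q e i m, evG r a l ∈ rt φ i m) ∧ ∀ H : Subgroup (GL (Fin (r + 1)) K),
      (∀ l ∈ c.md r q e i m, evG r a l ∈ H) → rt φ i m ⊆ H := by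
  have ne : i ≠ m := by rintro rfl; exact absurd od (by simp only [Nat.not_odd_iff_even, Even.add_self])
  have ev : Odd (r + 1) := by
    have := congrArg Fin.val hm
    have := m.2
    rw [Fin.val_rev] at *
    exact ⟨m, by omega⟩
  have u1 : a ^ e + φ (a ^ e) = 1 := by simpa only [hq, pow_mul, pow_zero] using ev_ad ha.ch ha.pw he
  have tr : ∀ s, s * φ s * a ^ e + φ (s * φ s * a ^ e) = s * φ s := fun s => by
    rw [map_mul, map_mul, hφ]; linear_combination s * φ s * u1
  have ch := rt_mid hφ ne hm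
  simp only [od.neg_one_pow, neg_neg, one_mul] at ch
  have cd : ∀ n, evG r a [(m, r - i, n * q), (i, m, n), (i, r - i, n + n * q + e)] =
      el m i.rev (φ (a ^ n)) * el i m (a ^ n) * el i i.rev (a ^ n * φ (a ^ n) * a ^ e) := fun n => by
    simp only [evG, List.map_cons, List.map_nil, List.prod_cons, List.prod_nil, ev_rev, mul_one,
      Fin.ofNat_val_eq_self, hq, pow_add, pow_mul, mul_assoc]
  simp only [EvP.md, List.forall_mem_append, List.forall_mem_map, cd, List.mem_range]
  refine ⟨⟨fun n _ => (ch _).2 ⟨_, _, tr _, rfl⟩, (ev_lg ha hq i ((ch _).2 ⟨0, 0, by simp⟩)).2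
    fun s hs => (ch _).2 ⟨0, s, by simp [hs, ev.neg_one_pow], by simp⟩⟩, fun H ⟨h1, h2⟩ g hg => ?_⟩
  obtain ⟨s, u, hu, rfl⟩ := (ch g).1 hg
  have := H.mul_mem (ev_all ha (P := fun s => el m i.rev (φ s) * el i m s *
    el i i.rev (s * φ s * a ^ e) ∈ H) (by simp) h1 s) ((ev_lg ha hq i (S := H) H.one_mem).1 h2
    (u - s * φ s * a ^ e) (by rw [map_sub, ev.neg_one_pow]; linear_combination hu - tr s))
  rwa [mul_assoc, ← el_add, add_sub_cancel] at this

theorem ev_fU (ha : EvK c a) (hφ : ∀ s, φ (φ s) = s) (hq : ∀ s, φ s = s ^ q)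
    (he : r % 2 = 1 ∨ c.ad e (e * q) 0) {i j : Fin (r + 1)} (od : Odd ((i : ℕ) + j)) :
    (∀ l ∈ c.fU r q e i j, evG r a l ∈ rt φ i j) ∧ ∀ H : Subgroup (GL (Fin (r + 1)) K),
      (∀ l ∈ c.fU r q e i j, evG r a l ∈ H) → rt φ i j ⊆ H := by
  have o' := Nat.odd_iff.1 od
  have rv : ∀ i j : Fin (r + 1), j = i.rev ↔ (i : ℕ) + j = r := fun i j => by
    rw [Fin.ext_iff, Fin.val_rev]; omega
  unfold EvP.fU
  split_ifs with h1 h2 h3
  · obtain rfl := (rv i j).2 h1
    have ch := rt_long hφ (i := i) fun e => by have := congrArg Fin.val e; omega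
    exact ⟨(ev_lg ha hq i ((ch _).2 ⟨0, by simp only [map_zero, mul_zero, el_zero, and_self]⟩)).2 fun s hs => (ch _).2 ⟨s, hs, rfl⟩,
      fun H h g hg => by
        obtain ⟨s, hs, rfl⟩ := (ch g).1 hg
        exact (ev_lg ha hq i (S := H) H.one_mem).1 h s hs⟩
  · exact ev_md ha hφ hq (he.resolve_left (by omega)) ((rv j j).2 (by omega)) od
  · have hi := (rv i i).2 (by omega)
    have := ev_md ha hφ hq (he.resolve_left (by omega)) (i := j.rev) hi (by
      rw [Nat.odd_iff, Fin.val_rev]; omega)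
    rwa [← rt_rev, Fin.rev_rev, ← hi, Fin.val_rev, Nat.add_sub_add_right] at this
  · have ch := rt_short hφ (i := i) (j := j) (by rintro rfl; omega) (mt (rv i j).1 h1)
      (fun e => h3 (by have := (rv i i).1 e; omega)) fun e => h2 (by have := (rv j j).1 e; omega)
    simp only [od.neg_one_pow, neg_neg, one_mul] at ch
    simp only [List.forall_mem_map, evG, List.map_cons, List.map_nil, List.prod_cons, List.prod_nil,
      ev_rev, mul_one, Fin.ofNat_val_eq_self, pow_mul, ← hq, List.mem_range]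
    refine ⟨fun n _ => (ch _).2 ⟨_, rfl⟩, fun H h g hg => ?_⟩
    obtain ⟨s, rfl⟩ := (ch g).1 hg
    exact ev_all ha (P := fun s => el i j s * el j.rev i.rev (φ s) ∈ H) (by simp) h s

theorem evSU [Finite K] (hr : 3 ≤ r) (h5 : 5 ≤ r ∨ 3 ≤ c.Q) (hφ : ∀ s, φ (φ s) = s)
    (hev : Even r → φ ≠ RingHom.id K) (hq : ∀ s, φ s = s ^ q) (hK : Nat.card K = c.Q + 1)
    (he : r % 2 = 1 ∨ c.ad e (e * q) 0) (h : c.chk r (c.tU r q e) p p' = true) :
    IsLeast {n | Good (chev (CartanMatrix.A r) Fin.revPerm φ) n} 3 := by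
  obtain ⟨a, ha⟩ := (ev_tb h).ex hK
  have k : ∀ i j : Fin (r + 1), ((i : ℕ), (j : ℕ)) ∈ evPr ((r + 1) / 2) → _ := fun i j m =>
    ev_fU ha hφ hq he (i := i) (j := j) (by rw [mem_evPr] at m; rw [Nat.odd_iff]; omega)
  obtain ⟨x, m1, b, m2, c', m3, g, m4, g', m5, e1, e2, e3, e4, e5⟩ := ev_chk h ha (G := sug r φ) (by
    simp only [EvP.tU, List.mem_flatMap]
    rintro l ⟨⟨i, j⟩, m, hl⟩
    have := mem_evPr.1 m
    exact rt_mem ((k ⟨i, by omega⟩ ⟨j, by omega⟩ m).1 l hl))
  refine goodSU (by omega) hφ hev (sug_ns hr hφ (h5.imp id (by omega))) m1 m2 m3 m4 m5 e1 e2 e3 e4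
    fun H z h1 h2 h3 i => ?_
  have k' : ∀ i j : Fin (r + 1), (j : ℕ) = i + 1 ∨ (i : ℕ) = j + 1 → rt φ i j ⊆ H := fun i j m => by
    have u := fun i j m => (k i j m).2 H fun l hl =>
      e5 H z h1 h2 h3 l (List.mem_flatMap.2 ⟨_, m, hl⟩)
    by_cases l : (i : ℕ) + j ≤ r
    · exact u i j (by rw [mem_evPr]; omega)
    · exact rt_rev (φ := φ) i j ▸ u j.rev i.rev (by simp only [mem_evPr, Fin.val_rev]; omega)
  exact ⟨k' _ _ (by simp), k' _ _ (by simp)⟩

theorem ev_eo (ha : EvK c a) (i j : Fin (r + 1)) (n : ℕ) :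
    evG r a (c.eo r i j n) = eo i j (a ^ n) := by
  simp only [evG, EvP.eo, List.map_cons, List.map_nil, List.prod_cons, List.prod_nil, ev_rev, mul_one,
    Fin.ofNat_val_eq_self, pow_add, ha.neg, mul_neg, eo]

theorem evO [Finite K] {n : ℕ} (hn : 1 ≤ n) (hK : Nat.card K = c.Q + 1)
    (h : c.chk (2 * n + 3) (c.tO n) p p' = true) :
    IsLeast {k | Good (chev (CartanMatrix.D (n + 2)) 1 (RingHom.id K)) k} 3 := by
  obtain ⟨a, ha⟩ := (ev_tb h).ex hK
  obtain ⟨x, m1, b, m2, c', m3, g, m4, g', m5, e1, e2, e3, e4, e5⟩ := ev_chk h ha (G := sog _ K) (by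
    simp only [EvP.tO, List.mem_flatMap, List.mem_map, List.mem_cons, mem_evPr, Prod.ext_iff]
    rintro _ ⟨⟨i, j⟩, m, t, -, rfl⟩
    rw [ev_eo ha ⟨i, by omega⟩ ⟨j, by omega⟩]
    exact subset_closure ⟨_, _, _, by simp only [Ne, Fin.ext_iff, Fin.val_rev]; omega, rfl⟩)
  refine goodO hn m1 m2 m3 m4 m5 e1 e2 e3 e4 fun H z h1 h2 h3 i j s m => ?_
  have k : ∀ i j : Fin (2 * n + 3 + 1), ((i : ℕ), (j : ℕ)) ∈ (n, n + 2) :: (n + 2, n) ::
      evPr (n + 1) → ∀ s, eo i j s ∈ H := fun i j m => ev_all ha (by simp) fun t ht =>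
    ev_eo ha i j t ▸ e5 H z h1 h2 h3 _
      (List.mem_flatMap.2 ⟨_, m, List.mem_map.2 ⟨t, List.mem_range.2 ht, rfl⟩⟩)
  constructor <;> exact k _ _ (by simp only [List.mem_cons, mem_evPr, Prod.ext_iff]; omega) s

theorem evO2 [Finite K] {n : ℕ} (hn : 2 ≤ n) (hφ : ∀ s, φ (φ s) = s) (hq : ∀ s, φ s = s ^ q)
    (hK : Nat.card K = c.Q + 1) (h : c.chk (2 * n + 3) (c.tT n q) p p' = true) :
    IsLeast {k | Good (chev (CartanMatrix.D (n + 2))
      (Equiv.swap (Fin.last n).castSucc (Fin.last (n + 1))) φ) k} 3 := by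
  obtain ⟨a, ha⟩ := (ev_tb h).ex hK
  have cd : ∀ (i m : Fin (2 * n + 3 + 1)) t, (i : ℕ) = n → (m : ℕ) = n + 1 →
      evG _ a (c.eo (2 * n + 3) n (n + 1) t ++ c.eo (2 * n + 3) n (n + 2) (t * q)) =
        eo i m (a ^ t) * eo i m.rev (φ (a ^ t)) ∧
      evG _ a (c.eo (2 * n + 3) (n + 1) n t ++ c.eo (2 * n + 3) (n + 2) n (t * q)) =
        eo m i (a ^ t) * eo m.rev i (φ (a ^ t)) := fun i m t hi hm => by
    have : (m.rev : ℕ) = n + 2 := by rw [Fin.val_rev]; omega
    simp only [hq, ← pow_mul, ← ev_eo ha, hi, hm, this, evG, List.map_append, List.prod_append,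
      and_self]
  obtain ⟨x, m1, b, m2, c', m3, g, m4, g', m5, e1, e2, e3, e4, e5⟩ := ev_chk h ha (G := sog2 _ φ) (by
    simp only [EvP.tT, List.mem_append, List.mem_flatMap, List.mem_map, List.mem_cons, mem_evPr,
      ev_fx ha hq, List.not_mem_nil, or_false]
    have c0 := fun t => cd ⟨n, by omega⟩ ⟨n + 1, by omega⟩ t rfl rfl
    rintro _ (⟨⟨i, j⟩, m, t, ht, rfl⟩ | ⟨t, -, rfl | rfl⟩)
    · rw [ev_eo ha ⟨i, by omega⟩ ⟨j, by omega⟩]
      refine subset_closure (Or.inl ⟨_, _, _, ?_, ?_, ?_, by simpa only [map_pow, pow_zero, one_mul] using ht.2, rfl⟩) <;>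
        simp only [Ne, Mid, Fin.ext_iff, Fin.val_rev] <;> omega
    · rw [(c0 t).1]
      refine subset_closure (Or.inr ⟨_, _, _, ?_, ?_, rfl⟩) <;>
        simp only [Mid, Fin.val_rev] <;> omega
    · have ne : ∀ i : Fin (2 * n + 3 + 1), i ≠ i.rev := fun i e => by
        have := congrArg Fin.val e
        rw [Fin.val_rev] at this
        omega
      rw [(c0 t).2]
      refine subset_closure (Or.inr ⟨Fin.rev ⟨n, by omega⟩, Fin.rev ⟨n + 1, by omega⟩, -a ^ t, ?_, ?_,
        by rw [eo_rev (ne _) (ne _), eo_rev (ne _) (ne _), map_neg, neg_neg, neg_neg]⟩) <;>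
        simp only [Mid, Fin.val_rev] <;> omega)
  refine goodO2 hn hφ m1 m2 m3 m4 m5 e1 e2 e3 e4 fun H z h1 h2 h3 => ⟨fun i j s hi hj => ?_,
    fun i m s hi hm => ev_all ha (P := fun s => eo i m s * eo i m.rev (φ s) ∈ H ∧
      eo m i s * eo m.rev i (φ s) ∈ H) (by simp) (fun t ht => ?_) s⟩
  · have k : ∀ i j : Fin (2 * n + 3 + 1), ((i : ℕ), (j : ℕ)) ∈ evPr n → ∀ s, φ s = s →
        eo i j s ∈ H := fun i j m => ev_all ha (by simp) fun t ht e =>
      ev_eo ha i j t ▸ e5 H z h1 h2 h3 _ (List.mem_append_left _ (List.mem_flatMap.2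
        ⟨_, m, List.mem_map.2 ⟨t, (ev_fx ha hq).2 ⟨ht, by simpa only [map_pow, pow_zero, one_mul] using e⟩, rfl⟩⟩))
    exact fun e => ⟨k _ _ (by rw [mem_evPr]; omega) s e, k _ _ (by rw [mem_evPr]; omega) s e⟩
  · rw [← (cd i m t hi hm).1, ← (cd i m t hi hm).2]
    constructor <;> exact e5 H z h1 h2 h3 _ (List.mem_append_right _ (List.mem_flatMap.2
      ⟨t, List.mem_range.2 ht, by simp⟩))

theorem ev_frob [Finite K] (hφ : ∀ s, φ (φ s) = s) (ne : φ ≠ RingHom.id K)
    (hK : Nat.card K = q ^ 2) (s : K) : φ s = s ^ q := by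
  obtain ⟨h, e⟩ := card_fix hφ ne
  rw [e, Nat.pow_left_injective two_ne_zero (h.symm.trans hK)]

end Pool.Agent.MP_c78e8e_al.H75

end

section

namespace Pool.Agent.MP_c78e8e_al.H75

variable {K : Type} [Field K] [Finite K] {φ : K →+* K}

theorem evU4_25 (hφ : ∀ s, φ (φ s) = s) (ne : φ ≠ RingHom.id K) (h : Nat.card K = 25) :
    IsLeast {n | Good (chev (CartanMatrix.A 3) Fin.revPerm φ) n} 3 :=
  evSU (c := ⟨5, 2, 24, 115659968253897298995175992168307912794383414600920967947902173284696065, 14, 103, 9, 128⟩) (q := 5) (e := 0)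
    (p := [6250, 113350718, 115357802, 122492657686, 4102, 2054, 6150, 2054, 6150, 2054, 6150, 2054, 6150, 6150, 6150, 6150, 6759799637149698, 26625, 11008013772810, 256001, 4301260804, 14337, 17609380612108, 210945, 2, 8204, 8407044, 15044980754, 20])
    (p' := [24583, 2050, 4102, 6154, 14344, 8194, 18446, 10246, 18450, 14350, 12310, 18442, 8220, 20486, 16402, 20494, 20490, 12306, 20486, 8210, 20486, 8210, 16402, 20494, 20482, 4114, 20494, 16402, 20486, 8210, 20482, 4114, 12306, 20490, 20494, 16402, 12306, 20490, 20490, 12306, 4114, 20482, 4114, 20482, 8210, 20486, 20482, 4114, 20486, 8210, 8210, 20486, 20482, 4114, 20486, 8210, 20494, 16402, 20486, 8210, 12611638, 6145, 126976, 23069717680680345620, 2048, 33880682969268587270791196, 2048, 77392551599281034135355456, 65303272659557062019141686, 2050, 2048, 2050, 91958693339560870523504712, 50775924182448381996, 2050, 8192, 4098, 2062, 2054, 2054, 4116, 4118, 4110, 6170, 18460, 92344153166898626640, 87113607610698475558201412,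 2050, 2048, 2050, 92308137574773362764, 113726497020903136100950106, 2050, 8192, 4098, 2062, 2054, 2054, 4116, 4118, 4110, 6170, 18460, 75850, 77898, 76, 80, 88150, 90198, 88, 92, 36900, 41008, 22568, 26676, 43052, 52, 28, 32, 63540, 38, 42, 69698, 48, 52, 56, 60, 64, 78, 61522, 71764, 63574, 76, 80, 92, 123000, 127108, 108668, 112776, 129152, 136, 112, 116, 149640, 122, 126, 155798, 132, 136, 140, 144, 148, 162, 147622, 157864, 149674, 160, 164, 176])
    (by decide) (by decide) hφ (fun _ => ne) (ev_frob hφ ne h) h (by decide +kernel)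
    (by decide +kernel)

theorem evU5_9 (hφ : ∀ s, φ (φ s) = s) (ne : φ ≠ RingHom.id K) (h : Nat.card K = 9) :
    IsLeast {n | Good (chev (CartanMatrix.A 4) Fin.revPerm φ) n} 3 :=
  evSU (c := ⟨3, 2, 8, 40216279983558925254657, 11, 43, 7, 40⟩) (q := 3) (e := 1)
    (p := [46151740, 58042890272, 79486289938, 16181499451223859260, 4102, 2054, 6150, 2054, 2054, 4102, 6150, 2054, 6150, 4102, 2054, 2054, 9013802769063936, 12289, 6609967263752, 169985, 4301260804, 6145, 17609386903568, 22529, 2, 6, 8407044, 12595218, 20])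
    (p' := [6144, 4102, 10246, 10250, 10250, 14346, 18446, 18450, 22530, 4118, 20482, 4114, 20494, 16402, 20490, 12306, 12306, 20490, 20490, 12306, 16402, 20494, 4114, 20482, 8210, 20486, 20494, 16402, 20486, 8210, 16402, 20494, 4114, 20482, 4114, 20482, 20494, 16402, 4114, 20482, 20486, 8210, 20486, 8210, 20494, 16402, 20494, 16402, 20486, 8210, 20482, 4114, 20494, 16402, 4114, 20482, 54530060, 14337, 18480540864292618252, 2048, 16208470458528491534, 2048, 23119281474450284560, 19836319080462, 2050, 68197655011386, 48383052002689397936906276, 2050, 2054, 2050, 53099772798369329198, 83073475722426247240, 2050, 99202810448580533951723598, 73886145683189225532, 2050, 2054, 2050, 103855340616014712922, 76167214507134877758, 106127435219643451480, 80765387531953950786, 2151684102, 76205503908658911294, 78511362313197553728, 82296803035063077864290372, 117688171077937739878, 2151684102, 60819466, 65013762, 85433370764076226634, 94668041384599076942, 122353876115503839338,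 117730946493332967522, 2151684102, 103902668031061522518, 108919169471307814958895194, 94699817932882, 125479703150706, 2151684102, 81790986, 85985282, 80, 84, 92282898, 8212, 96483340, 96495640, 12, 16, 20, 32, 104, 108, 117493822, 53312, 121694264, 121706564, 56, 60, 64, 76, 94306, 94308, 100448, 108648, 96, 100, 104, 112, 127106, 127108, 133248, 141448, 128, 132, 136, 144])
    (by decide) (by decide) hφ (fun _ => ne) (ev_frob hφ ne h) h (by decide +kernel)
    (by decide +kernel)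

theorem evU7_4 (hφ : ∀ s, φ (φ s) = s) (ne : φ ≠ RingHom.id K) (h : Nat.card K = 4) :
    IsLeast {n | Good (chev (CartanMatrix.A 6) Fin.revPerm φ) n} 3 :=
  evSU (c := ⟨2, 2, 3, 34635777, 5, 1, 1, 28⟩) (q := 2) (e := 1)
    (p := [11283231292807168, 21278330585434359373850, 11835930460112795211812, 11547258055513108498, 2054, 6150, 2054, 6150, 2054, 2054, 4102, 4102, 6150, 6150, 4102, 2054, 6762000814182400, 36865, 6766407450634250, 6145, 15403916998664, 126977, 4301260808, 6145, 24212897030164, 28673, 4301260804, 4097, 33015447191582, 71681, 2, 6, 8407044, 12595218, 20])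
    (p' := [6144, 4102, 10246, 10250, 10250, 14346, 8206, 18438, 22542, 16406, 4114, 20482, 20482, 4114, 4114, 20482, 20482, 4114, 20482, 4114, 20494, 16402, 12306, 20490, 16402, 20494, 4114, 20482, 20486, 8210, 8210, 20486, 16402, 20494, 12306, 20490, 20494, 16402, 4114, 20482, 20486, 8210, 4114, 20482, 20490, 12306, 20494, 16402, 20482, 4114, 8210, 20486, 12306, 20490, 20486, 8210, 21004312, 24577, 20795424058137157650, 43853867346577887266, 53072737984978128942, 61598429374520, 2050, 66000775051324, 50748878386815324200, 2050, 60035311817879269424, 36922836333335961632, 2050, 41539030353736396836, 69220405465512450104, 2050, 60006058224410212400, 73872632683134269504, 2050, 66930349255010865206, 73861389083685752892, 2050, 108442283224795768926, 57715988824051478574, 2050, 62332182844451913778, 108435538829067214942, 2050, 69267737272171712568, 110775106065324398688, 103470118053982, 119985028880301893736, 2151684102, 129233177316474056816, 85442402152605661258,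 94638781181173262414, 145376332386251405438, 2151684102, 147661915798517137532, 147713700599303370880, 110799937459602960476, 96962649596912314452, 2151684102, 117724228490203613282, 114486738548836, 106195037637713184860, 150012755238728097922, 2151684102, 88, 96473100, 4, 16, 98, 106987560, 32, 44, 59454, 58, 66, 77904, 76, 84, 96354, 94, 102, 114804, 112, 120])
    (by decide) (by decide) hφ (fun _ => ne) (ev_frob hφ ne h) h (by decide +kernel)
    (by decide +kernel)

theorem evU7_9 (hφ : ∀ s, φ (φ s) = s) (ne : φ ≠ RingHom.id K) (h : Nat.card K = 9) :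
    IsLeast {n | Good (chev (CartanMatrix.A 6) Fin.revPerm φ) n} 3 :=
  evSU (c := ⟨3, 2, 8, 40216279983558925254657, 12, 43, 7, 56⟩) (q := 3) (e := 1)
    (p := [41809426280456, 123835192450511393306456412168, 13880118292359745558, 118912425308512732809412010010, 6150, 4102, 6150, 4102, 6150, 6150, 4102, 4102, 6150, 2054, 2054, 4102, 6759799637149698, 573441, 8804689258504, 1144833, 4301260804, 12289, 19806260576270, 112641, 2, 6, 8407044, 12595218, 20])
    (p' := [6144, 4102, 10246, 10250, 4104, 12290, 16390, 8208, 22538, 12310, 4114, 20482, 16402, 20494, 16402, 20494, 20494, 16402, 20486, 8210, 8210, 20486, 20490, 12306, 20494, 16402, 20494, 16402, 20494, 16402, 12306, 20490, 12306, 20490, 20490, 12306, 20494, 16402, 16402, 20494, 20482, 4114, 8210, 20486, 20490, 12306, 20494, 16402, 12306, 20490, 8210, 20486, 16402, 20494, 20486, 8210, 56645678, 28673, 20336900789866105344016217319436, 2048, 70148459836528852488712250, 2048, 26655416135874045781528598, 86272075230286976092033039523908,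 2050, 77416158820015960999628864, 89505456215495604143431754, 2050, 2054, 2050, 109095387373793177876849804837476444242, 96796764673762610856923216, 2050, 46028982257679967270811682, 104057410065465720973633622, 2050, 2054, 2050, 120977674589660998057138272, 106503598222957008998471768, 2050, 81238640120387841029580985034816, 130658535111931811546085480, 2050, 2054, 2050, 84698130996535104030965830, 135520239049151597756125296, 2050, 147578815736502319195437174, 154772324378967330607717318490234, 2050, 2054, 2050, 175572457931636943148700992595638179968, 157283276541710619526670462, 104107064156428566068846678, 175069586873589141942009298270342, 2151684102, 119270689667527389924290948325466, 172549174827152731148547820476548, 174208233422657019369859216, 152454679896191714185035902, 2151684102, 94373898, 98568194, 157309256524459258329301122, 130729430592673303163451500, 192821717194811454435298646276244, 212860973330305944296881382743303401632, 2151684102, 157351794700541613972815998,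 210623275614558628879229039831206, 226176636415700017368616186417938335910, 147670936506647226769109114, 2151684102, 115345418, 119539714, 112, 116, 125837330, 8212, 130037772, 130050072, 12, 16, 20, 32, 136, 140, 151048254, 53312, 155248696, 155260996, 56, 60, 64, 76, 94306, 94308, 100448, 108648, 96, 100, 104, 112, 127106, 127108, 133248, 141448, 128, 132, 136, 144, 159906, 159908, 166048, 174248, 160, 164, 168, 176, 192706, 192708, 198848, 207048, 192, 196, 200, 208])
    (by decide) (by decide) hφ (fun _ => ne) (ev_frob hφ ne h) h (by decide +kernel)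
    (by decide +kernel)

end Pool.Agent.MP_c78e8e_al.H75

end

section

namespace Pool.Agent.MP_c78e8e_al.H75

variable {K : Type} [Field K] [Finite K] {φ : K →+* K}

theorem evU6_9 (hφ : ∀ s, φ (φ s) = s) (ne : φ ≠ RingHom.id K) (h : Nat.card K = 9) :
    IsLeast {n | Good (chev (CartanMatrix.A 5) Fin.revPerm φ) n} 3 :=
  evSU (c := ⟨3, 2, 8, 40216279983558925254657, 12, 43, 7, 48⟩) (q := 3) (e := 0)
    (p := [15824222951596040, 63424685342183640137794179840040, 79216454463500, 56319268423237672, 6150, 4102, 6150, 4102, 2054, 2054, 2054, 2054, 4102, 6150, 2054, 6150, 4508001975142400, 6145, 13204889540616, 169985, 4301260804, 6145, 15414652319762, 184321, 2, 8204, 8407044, 15044980754, 20])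
    (p' := [8199, 2050, 4102, 6154, 14344, 8194, 18446, 10246, 18450, 14350, 24582, 8208, 16412, 20494, 20490, 12306, 20486, 8210, 20494, 16402, 8210, 20486, 16402, 20494, 20486, 8210, 4114, 20482, 20486, 8210, 12306, 20490, 20494, 16402, 20490, 12306, 20486, 8210, 8210, 20486, 16402, 20494, 4114, 20482, 12306, 20490, 12306, 20490, 4114, 20482, 20494, 16402, 20494, 16402, 12306, 20490, 16402, 20494, 8210, 20486, 29411332, 57345, 60469925918865941472495666, 72580450918599217628876860, 78661212636465406268146360311870, 70388079935552, 2050, 86262205592968348551627961057348, 84705159124913938206099526, 2050, 2054, 2050, 94388373897134549432877134, 89510148626292168703647814, 2050, 66919072655149676598, 109089848955243036859305887330390, 2050, 2054, 2050, 116170312396099101369923676, 118526766362531437847033950, 2050, 123367196623666844591507554, 118569283826554747807152226, 2050, 2054, 2050, 133052747237376003615549550, 92323895775414274128, 2050, 91991805288001396950534220,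 142733607759646817104496758, 2050, 2054, 2050, 67648, 66, 73798, 72, 12306, 12308, 18448, 26648, 16, 20, 24, 32, 45106, 45108, 51248, 59448, 48, 52, 56, 64, 77906, 77908, 84048, 92248, 80, 84, 88, 96, 110706, 110708, 116848, 125048, 112, 116, 120, 128])
    (by decide) (by decide) hφ (fun _ => ne) (ev_frob hφ ne h) h (by decide +kernel)
    (by decide +kernel)

theorem evU6_25 (hφ : ∀ s, φ (φ s) = s) (ne : φ ≠ RingHom.id K) (h : Nat.card K = 25) :
    IsLeast {n | Good (chev (CartanMatrix.A 5) Fin.revPerm φ) n} 3 :=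
  evSU (c := ⟨5, 2, 24, 115659968253897298995175992168307912794383414600920967947902173284696065, 16, 205, 10, 192⟩) (q := 5) (e := 0)
    (p := [231543558859197253732386, 23851714621086783111212, 149976831908921940132, 113776028945078484270764150, 6150, 6150, 6150, 4102, 6150, 4102, 2054, 2054, 2054, 2054, 4102, 6150, 2254005285691396, 212993, 11270007080097800, 444417, 13211334092814, 636929, 4301260808, 26625, 19810557648918, 1331201, 4301260804, 61441, 28615253194782, 2131969, 2, 6, 8407044, 12595218, 20])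
    (p' := [40967, 2050, 4102, 6154, 14344, 8194, 18446, 10246, 20496, 16396, 24586, 12304, 30722, 4114, 16402, 20494, 4114, 20482, 20486, 8210, 20490, 12306, 4114, 20482, 16402, 20494, 16402, 20494, 20494, 16402, 20486, 8210, 8210, 20486, 20490, 12306, 20494, 16402, 20494, 16402, 20494, 16402, 12306, 20490, 12306, 20490, 20490, 12306, 20494, 16402, 16402, 20494, 20482, 4114, 8210, 20486, 20490, 12306, 20494, 16402, 29372466, 258049, 61162701476837070752236305335673962542, 2048, 67716397300344621866434612, 2048, 68517529531984693246280077461558, 77160203599649093784084052425165553718, 2050, 2048, 2050, 106018411539401544990302846558495706569572428, 103768095852666574092190445887033509966, 2050, 8192, 4098, 2062, 2054, 2054, 4116, 4118, 4110, 6170, 18460, 114157963401000140092720900266074, 67775486853611129185306680, 2050, 2048, 2050, 88849555906945476144548865472578, 147144106448387519717246238802032, 2050, 8192, 4098, 2062, 2054, 2054, 4116, 4118, 4110, 6170,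 18460, 139602609555420549653176780984430, 186273764064389833847938523549646600332, 2050, 2048, 2050, 167661988621817972252486038618443489402, 175057243785831068082828470227082, 2050, 8192, 4098, 2062, 2054, 2054, 4116, 4118, 4110, 6170, 18460, 172564037358792561894093452609668, 234159823284063258120258775088711766192, 2050, 2048, 2050, 220779340546700922530551986038954, 247457313293333622182821451924980805818, 2050, 8192, 4098, 2062, 2054, 2054, 4116, 4118, 4110, 6170, 18460, 149650, 151698, 148, 152, 161950, 163998, 160, 164, 36900, 41008, 22568, 26676, 43052, 52, 28, 32, 63540, 38, 42, 69698, 48, 52, 56, 60, 64, 78, 61522, 71764, 63574, 76, 80, 92, 123000, 127108, 108668, 112776, 129152, 136, 112, 116, 149640, 122, 126, 155798, 132, 136, 140, 144, 148, 162, 147622, 157864, 149674, 160, 164, 176, 209100, 213208, 194768, 198876, 215252, 220, 196, 200, 235740, 206, 210, 241898, 216, 220, 224, 228, 232, 246, 233722, 243964, 235774, 244, 248, 260, 295200, 299308,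 280868, 284976, 301352, 304, 280, 284, 321840, 290, 294, 327998, 300, 304, 308, 312, 316, 330, 319822, 330064, 321874, 328, 332, 344])
    (by decide) (by decide) hφ (fun _ => ne) (ev_frob hφ ne h) h (by decide +kernel)
    (by decide +kernel)

end Pool.Agent.MP_c78e8e_al.H75

end
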