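import Pool.Agent.MP_c78e8e_al.Mg.Sg_Mon
import Pool.Agent.MP_c78e8e_al.Mg.Sg_Ort
import Pool.Agent.MP_c78e8e_al.Sg.Sl2

attribute [-instance] ESeminormedCommMonoid.toCommMonoid instCharZeroOfIsSemireal
  MonTypeEquivalenceMon.monMonoid DistribMulActionSemiHomClass.toAddMonoidHomClass
  RingConeClass.toSubsemiringClass ContinuousMonoidHom.instCoeOutOfMonoidHomClassOfContinuousMapClass
  CommMonTypeEquivalenceCommMon.commMonCommMonoid SemigroupWithZero.toSemigroup littleWedderburn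
  FloorSemiring.instCharZero Fintype.decidableForallFintype
  NonUnitalAlgHomClass.toNonUnitalRingHomClass SemilinearMapClass.toAddHomClass
  IdemSemiring.toSemiring instCoeTCOfCoe instCoeOutOfCoeFun
  CommGrpTypeEquivalenceCommGrp.commGrpCommGroup RCLike.charZero_rclike
  SubsemiringClass.toSubmonoidClass NonUnitalAlgSemiHomClass.toMulHomClass
  instCommGroupOfIsSimpleGroupOfIsNilpotent SemilatticeInf.toPartialOrder AddQuantale.instAddLeftMono
  IsMulCommutative.is_comm GroupConeClass.toSubmonoidClass instNoNatZeroDivisorsOfIsAddTorsionFree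
  CompletePartialOrder.toPartialOrder NormedCommRing.toCommRing GroupWithZero.toDivisionMonoid
  CommMonoidWithZero.toCommMonoid NeZero.charZero_one NormedRing.toRing
  Group.IsPerfect.subsingleton_of_isMulCommutative NumberField.to_charZero NormedField.toField
  BialgHomClass.toMonoidHomClass IsometryClass.instCoeOutIsometryEquiv BooleanRing.toRing
  SeminormedCommRing.toCommRing NonUnitalNormedRing.toNormedAddCommGroup EuclideanDomain.toCommRing
  LinearOrderedCommGroupWithZero.toCommGroupWithZero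
  ContinuousAddMonoidHom.instCoeOutOfAddMonoidHomClassOfContinuousMapClass
  HomeomorphClass.instCoeOutHomeomorph

section

namespace Pool.Agent.MP_c78e8e_al.H75

open Subgroup Matrix

variable {N : ℕ} {K : Type} [Field K]

/-- A row over the field with two elements times a matrix; rows are packed into numbers. -/
def o2rm (B : List ℕ) : ℕ → ℕ :=
  B.rec (fun _ => 0) fun b _ ih r => Nat.xor (r % 2 * b) (ih (r / 2))

/-- Product of packed matrices. -/
def o2bm (A B : List ℕ) : List ℕ := A.map (o2rm B)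

/-- The packed identity. -/
def o2one (M : ℕ) : List ℕ := (List.range M).map (2 ^ ·)

/-- The packed root element. -/
def o2eb (M i j : ℕ) : List ℕ := (List.range M).map fun k =>
  Nat.xor (Nat.xor (2 ^ k) (if k = i then 2 ^ j else 0))
    (if k = M - (j + 1) then 2 ^ (M - (i + 1)) else 0)

/-- Evaluate a list before it is passed on. -/
def o2fl (l : List ℕ) : (List ℕ → Bool) → Bool :=
  l.rec (fun f => f []) fun x _ ih f =>
    x.rec (ih fun l => f (0 :: l)) fun k _ => ih fun l => f (k.succ :: l)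

/-- Straight line programs. -/
def o2run (M : ℕ) (s : List (ℕ × ℕ)) : List (List ℕ) → (List (List ℕ) → Bool) → Bool :=
  s.rec (fun R f => f R) fun p _ ih R f =>
    o2fl (o2bm (R.getD p.1 (o2one M)) (R.getD p.2 (o2one M))) fun C => ih (C :: R) f

/-- The matrix maps the plane of `i` to the plane of `j` and the complement to the complement. -/
def o2pm (M i j : ℕ) (A : List ℕ) : Bool := (List.range M).all fun k => (List.range M).all fun l =>
  !(A.getD k 0).testBit l || decide ((l = i ↔ k = j) ∧ (l = M - (i + 1) ↔ k = M - (j + 1)))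

/-- The targets. -/
def o2tgt (n : ℕ) (R : List (List ℕ)) : Bool := (List.range (n + 1)).all fun i =>
  (o2one (2 * n + 4) :: R).any (o2pm (2 * n + 4) 0 i) && [i + 1, n + 2].all fun j =>
    (j == n + 2 && i != n) || (R.elem (o2eb (2 * n + 4) i j) && R.elem (o2eb (2 * n + 4) j i))

/-- The conditions which give the torus. -/
def o2tor (M : ℕ) (A C : List ℕ) : Bool := o2pm M 0 (M - 1) A && o2pm M 0 (M - 1) C &&
  o2run M [(0, 1), (0, 0), (0, 0), (0, 0), (0, 0)] [A, C] fun R => R.getD 0 [] == o2one M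

/-- The check. Mode `0`: only the field with two elements, mode `1`: all fields, mode `2`: all
larger fields. -/
def o2chk (n md : ℕ) (L s₁ s₂ : List (ℕ × ℕ)) : Bool :=
  (L.all fun p => decide (p.1 < 2 * n + 4 ∧ p.2 < 2 * n + 4 ∧ p.1 ≠ p.2 ∧ p.1 + p.2 ≠ 2 * n + 3)) &&
  o2run (2 * n + 4) s₁ (L.map fun p => o2eb (2 * n + 4) p.1 p.2) fun R =>
    match R with
    | A :: B :: C :: G :: G' :: _ =>
      o2bm A A == o2one (2 * n + 4) && o2bm G A == o2bm B G && o2bm G' A == o2bm C G' &&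
      o2bm A B == o2bm B A && (md == 0 || o2tor (2 * n + 4) A C) &&
      (md != 2 || o2pm (2 * n + 4) 0 1 B &&
        o2pm (2 * n + 4) 1 1 (o2bm (o2eb (2 * n + 4) 1 2) C)) &&
      o2run (2 * n + 4) s₂
        [A, B, C, if md = 2 then o2eb (2 * n + 4) 1 2 else o2one (2 * n + 4)] (o2tgt n)
    | _ => false

theorem o2fl_eq (l : List ℕ) (f : List ℕ → Bool) : o2fl l f = f l := by
  induction l generalizing f with
  | nil => rfl
  | cons x l ih => cases x <;> exact ih _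

theorem o2run_ok {M : ℕ} {P : List ℕ → Prop} (h1 : P (o2one M))
    (hm : ∀ A B, P A → P B → P (o2bm A B)) (s : List (ℕ × ℕ)) {R : List (List ℕ)}
    {f : List (List ℕ) → Bool} (hR : ∀ A ∈ R, P A) (h : o2run M s R f = true) :
    ∃ R', (∀ A ∈ R', P A) ∧ f R' = true := by
  induction s generalizing R with
  | nil => exact ⟨R, hR, h⟩
  | cons p s ih =>
    have g : ∀ i, P (R.getD i (o2one M)) := fun i => by
      rw [List.getD_eq_getElem?_getD]
      cases e : R[i]? with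
      | none => exact h1
      | some A => exact hR A (List.mem_of_getElem? e)
    exact ih (List.forall_mem_cons.2 ⟨hm _ _ (g _) (g _), hR⟩) ((o2fl_eq _ _).symm.trans h)

variable (K) in
/-- A bit as a field element. -/
def o2bit (x j : ℕ) : K := if x.testBit j then 1 else 0

theorem o2bit_xor (h2 : (2 : K) = 0) (x y j : ℕ) :
    o2bit K (Nat.xor x y) j = o2bit K x j + o2bit K y j := by
  have : Nat.xor x y = x ^^^ y := rfl
  simp only [o2bit, this, Nat.testBit_xor]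
  cases x.testBit j <;> cases y.testBit j <;> simp [one_add_one_eq_two, h2]

theorem o2bit_pow (k l : ℕ) : o2bit K (2 ^ k) l = if k = l then 1 else 0 := by
  simp [o2bit, Nat.testBit_two_pow]

theorem o2bit_rm (h2 : (2 : K) = 0) (B : List ℕ) (r j : ℕ) : o2bit K (o2rm B r) j =
    ∑ k ∈ Finset.range B.length, o2bit K r k * o2bit K (B.getD k 0) j := by
  induction B generalizing r with
  | nil => simp [o2rm, o2bit]
  | cons b B ih =>
    have : o2rm (b :: B) r = Nat.xor (r % 2 * b) (o2rm B (r / 2)) := rfl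
    rw [this, o2bit_xor h2, ih, List.length_cons, Finset.sum_range_succ', add_comm]
    congr 1
    · exact Finset.sum_congr rfl fun k _ => by simp only [o2bit, List.getD_eq_getElem?_getD, mul_ite, mul_one, mul_zero, Nat.testBit_succ, List.getElem?_cons_succ]
    · rcases Nat.mod_two_eq_zero_or_one r with e | e <;> simp [o2bit, e]

/-- The group element `g` has the packed matrix `A`. -/
def O2Rp (g : GL (Fin (N + 1)) K) (A : List ℕ) : Prop :=
  A.length = N + 1 ∧ ∀ i j : Fin (N + 1), g.1 i j = o2bit K (A.getD i 0) j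

theorem O2Rp.eq {g h : GL (Fin (N + 1)) K} {A B : List ℕ} (p : O2Rp g A) (q : O2Rp h B)
    (e : A = B) : g = h := by
  ext i j
  rw [p.2, q.2, e]

theorem O2Rp.mul (h2 : (2 : K) = 0) {g h : GL (Fin (N + 1)) K} {A B : List ℕ} (p : O2Rp g A)
    (q : O2Rp h B) : O2Rp (g * h) (o2bm A B) := by
  refine ⟨by rw [o2bm, List.length_map, p.1], fun i j => ?_⟩
  have l : (i : ℕ) < A.length := i.2.trans_eq p.1.symm
  rw [Units.val_mul, mul_apply, o2bm, List.getD_eq_getElem _ _ (by simpa using l),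
    List.getElem_map, o2bit_rm h2, q.1, Finset.sum_range]
  exact Finset.sum_congr rfl fun k _ => by rw [p.2, q.2, List.getD_eq_getElem _ _ l]

theorem o2_getD (f : ℕ → ℕ) (i : Fin (N + 1)) : ((List.range (N + 1)).map f).getD i 0 = f i := by
  rw [List.getD_eq_getElem _ _ (by simpa using i.2)]
  simp

theorem o2rp_one : O2Rp (1 : GL (Fin (N + 1)) K) (o2one (N + 1)) :=
  ⟨by simp [o2one], fun i j => by
    rw [o2one, o2_getD, o2bit_pow, Units.val_one, one_apply]
    simp only [Fin.ext_iff]⟩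

theorem o2rp_eo (h2 : (2 : K) = 0) {i j : Fin (N + 1)} (h : i ≠ j) (hj : j ≠ j.rev) :
    O2Rp (eo i j (1 : K)) (o2eb (N + 1) i j) := by
  refine ⟨by simp only [o2eb, Nat.xor_eq, Nat.reduceSubDiff, List.length_map, List.length_range, Nat.add_left_cancel_iff], fun k l => ?_⟩
  have e : (-1 : K) = 1 := by linear_combination -h2
  rw [o2eb, o2_getD, o2bit_xor h2, o2bit_xor h2, eo, Units.val_mul, el_val h,
    el_val (Fin.rev_injective.ne h.symm), e, mul_add, add_mul, add_mul, Matrix.mul_one,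
    Matrix.mul_one, Matrix.one_mul, single_mul_single_of_ne _ _ _ _ hj, add_zero, ← Fin.val_rev,
    ← Fin.val_rev]
  have z : o2bit K 0 l = 0 := by simp [o2bit]
  simp only [Matrix.add_apply, one_apply, single_apply, apply_ite (o2bit K · l), o2bit_pow, z,
    Fin.val_inj, ite_and, eq_comm (a := k)]

/-- The torus of a hyperbolic plane. -/
def o2t (i : Fin (N + 1)) : Kˣ →* GL (Fin (N + 1)) K :=
  MonoidHom.mk' (fun x => mon 1 (Pi.mulSingle i x * Pi.mulSingle i.rev x⁻¹)) fun x y => by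
    rw [← mon_one_mul, mul_inv, Pi.mulSingle_mul, Pi.mulSingle_mul, mul_mul_mul_comm]

theorem o2t_def (i : Fin (N + 1)) (x : Kˣ) :
    o2t i x = mon 1 (Pi.mulSingle i x * Pi.mulSingle i.rev x⁻¹) := rfl

theorem o2t_rev (i : Fin (N + 1)) (x : Kˣ) : o2t i.rev x = (o2t i x)⁻¹ := by
  rw [← map_inv, o2t_def, o2t_def, Fin.rev_rev, inv_inv, mul_comm]

theorem O2Rp.pm {g : GL (Fin (N + 1)) K} {A : List ℕ} (p : O2Rp g A) {i j : Fin (N + 1)}
    (h : o2pm (N + 1) i j A = true) (x : Kˣ) : g * o2t i x * g⁻¹ = o2t j x := by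
  rw [mul_inv_eq_iff_eq_mul]
  ext k l
  have := mona_mul 1 (Pi.mulSingle j x * Pi.mulSingle j.rev x⁻¹) g.1 k l
  rw [Equiv.Perm.one_apply] at this
  rw [Units.val_mul, Units.val_mul, o2t_def, o2t_def, mona_mul', this, Equiv.Perm.one_apply, p.2]
  simp only [o2pm, List.all_eq_true, List.mem_range, Bool.or_eq_true, Bool.not_eq_true',
    decide_eq_true_eq, ← Fin.val_rev] at h
  rcases h k k.2 l l.2 with q | q
  · rw [o2bit, q]; simp
  · simp only [Fin.val_inj] at q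
    simp only [Pi.mul_apply, Pi.mulSingle_apply, q.1, q.2, mul_comm]

theorem o2t_eo (hN : ∀ i : Fin (N + 1), i ≠ i.rev) {i j : Fin (N + 1)} (h : i ≠ j) (r : j ≠ i.rev)
    (x : Kˣ) (s : K) : o2t i x * eo i j s * (o2t i x)⁻¹ = eo i j (x * s) ∧
      o2t i x⁻¹ * eo j i s * (o2t i x⁻¹)⁻¹ = eo j i (x * s) := by
  have a1 := hN i
  have a2 : j.rev ≠ i := fun e => r (by rw [← e, Fin.rev_rev])
  have a3 : j.rev ≠ i.rev := Fin.rev_injective.ne h.symm
  rw [o2t_def, o2t_def, mon_eo rfl rfl (by simp [a1, a1.symm, a2, a3, h.symm, r]),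
    mon_eo rfl rfl (by simp [a1, a1.symm, a2, a3, h.symm, r])]
  simp [a1, h.symm, r, mul_comm]

theorem o2t_hh (h2 : (2 : K) = 0) (hN : ∀ i : Fin (N + 1), i ≠ i.rev) {i j : Fin (N + 1)}
    (h : i ≠ j) (r : j ≠ i.rev) (x : Kˣ) : o2t i x * (o2t j x)⁻¹ ∈ sog N K := by
  have a2 : j.rev ≠ i := fun e => r (by rw [← e, Fin.rev_rev])
  have a3 : j.rev ≠ i.rev := Fin.rev_injective.ne h.symm
  have e : ∀ s : K, -s = s := fun s => by linear_combination -s * h2
  have m : ∀ s t : K, el i j s * el j i t * el i j s *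
      (el j.rev i.rev s * el i.rev j.rev t * el j.rev i.rev s) ∈ sog N K := fun s t => by
    have c1 := el_comm (hN j) (hN i).symm s s
    have c2 := el_comm r a2 s t
    have c3 := el_comm a2.symm r.symm t s
    have c4 := el_comm (hN i) (hN j).symm t t
    rw [(c1.mul_right c2).mul_mul_mul_comm, c3.mul_mul_mul_comm]
    have p : ∀ s, el i j s * el j.rev i.rev s ∈ sog N K := fun s =>
      subset_closure ⟨i, j, s, r, by rw [eo, e]⟩
    exact mul_mem (mul_mem (p _) (subset_closure ⟨j, i, t, a2.symm, by rw [eo, e]⟩)) (p _)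
  have k := mul_mem (m x (-(x : K)⁻¹)) (inv_mem (m (1 : Kˣ) (-((1 : Kˣ) : K)⁻¹)))
  rw [mon_swap h, mon_swap a3, mon_swap h, mon_swap a3, mon_mul, mon_mul, mon_inv, mon_mul] at k
  convert k using 1
  rw [← map_inv, o2t_def, o2t_def, ← mon_one_mul]
  refine mon_congr (by simp) fun k => Units.ext ?_
  have a1 := hN i
  have a4 := hN j
  simp only [_root_.mul_inv_rev, Equiv.swap_inv, Equiv.Perm.mul_apply, Equiv.swap_apply_def,
    Pi.mul_apply, Pi.mulSingle_apply, Units.val_mul, apply_ite (Units.val (α := K)), Units.val_neg,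
    e, inv_one, ite_self, Units.val_one, inv_inv, Units.val_inv_eq_inv_val]
  grind

theorem o2_ne {n : ℕ} (i : Fin (2 * n + 3 + 1)) : i ≠ i.rev := fun e => by
  have := congrArg Fin.val e
  rw [Fin.val_rev] at this
  omega

theorem o2t_sog {n : ℕ} (h2 : (2 : K) = 0) (x : Kˣ) :
    o2t (0 : Fin (2 * n + 3 + 1)) (x ^ 2) ∈ sog _ K := by
  have k := mul_mem (o2t_hh h2 o2_ne (i := (0 : Fin (2 * n + 3 + 1))) (j := Fin.rev 1)
    (by simp only [ne_eq, Fin.ext_iff, Fin.coe_ofNat_eq_mod, Nat.zero_mod, Fin.val_rev, Nat.one_mod, Nat.reduceAdd, Nat.reduceSubDiff, Nat.right_eq_add, Nat.add_eq_zero_iff, mul_eq_zero, OfNat.ofNat_ne_zero, false_or, and_false, not_false_eq_true]) (Fin.rev_injective.ne (by simp)) x)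
    (inv_mem (o2t_hh h2 o2_ne (i := (1 : Fin (2 * n + 3 + 1))) (j := 0) (by simp) (by simp only [ne_eq, Fin.ext_iff, Fin.coe_ofNat_eq_mod, Nat.zero_mod, Fin.val_rev, Nat.one_mod, Nat.reduceAdd, Nat.reduceSubDiff, Nat.right_eq_add, Nat.add_eq_zero_iff, mul_eq_zero, OfNat.ofNat_ne_zero, false_or, and_false, not_false_eq_true]) x))
  rwa [o2t_rev, inv_inv, _root_.mul_inv_rev, inv_inv, (dgl_comm (mon_dgl (fun _ => rfl) _)
    (mon_dgl (fun _ => rfl) _) : Commute (o2t 0 x) (o2t 1 x)).inv_right.eq, mul_assoc,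
    mul_inv_cancel_left, ← map_mul, ← sq] at k

theorem o2_tor (h2 : (2 : K) = 0) [Finite K] {a c : GL (Fin (N + 1)) K} {A C : List ℕ}
    (pa : O2Rp a A) (pc : O2Rp c C) (h : o2tor (N + 1) A C = true) {u : Kˣ}
    (hu : ∀ x, x ∈ zpowers u) {H : Subgroup (GL (Fin (N + 1)) K)} (ha : a ∈ H)
    (hc : o2t 0 (u ^ 2) * c * (o2t 0 (u ^ 2))⁻¹ ∈ H) (x : Kˣ) : o2t 0 x ∈ H := by
  simp only [o2tor, o2run, o2fl_eq, Bool.and_eq_true, List.getD_cons_zero, List.getD_cons_succ,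
    beq_iff_eq] at h
  have e : N + 1 - 1 = ((0 : Fin (N + 1)).rev : ℕ) := by simp
  rw [e] at h
  have k1 := pa.pm (i := 0) h.1.1
  have k2 := pc.pm (i := 0) h.1.2
  have p1 := pa.mul h2 pc
  have p2 := p1.mul h2 p1
  have p3 := p2.mul h2 p2
  have p4 := p3.mul h2 p3
  have p5 := (p4.mul h2 p4).eq o2rp_one h.2
  have o : (a * c) ^ 16 = 1 := by rw [← p5]; simp only [pow_succ, pow_zero, one_mul, mul_assoc]
  simp only [o2t_rev] at k1 k2
  have cm : ∀ y, Commute (o2t 0 y) (a * c) := fun y => by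
    have : a * c * o2t 0 y * (a * c)⁻¹ = o2t 0 y := by
      calc _ = a * (c * o2t 0 y * c⁻¹) * a⁻¹ := by group
        _ = _ := by rw [k2, ← map_inv, k1, map_inv, inv_inv]
    exact (mul_inv_eq_iff_eq_mul.1 this).symm
  have e2 : a * (o2t 0 (u ^ 2) * c * (o2t 0 (u ^ 2))⁻¹) = o2t 0 (u ^ 4)⁻¹ * (a * c) := by
    calc _ = a * o2t 0 (u ^ 2) * a⁻¹ * (a * c * (o2t 0 (u ^ 2))⁻¹) := by group
      _ = _ := by
        rw [k1, ← (cm _).inv_left.eq, ← mul_assoc, ← map_inv, ← map_mul, ← mul_inv, ← pow_add]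
  have m := pow_mem (mul_mem ha hc) 16
  rw [e2, (cm _).mul_pow, o, mul_one, ← map_pow, inv_pow, map_inv, inv_mem_iff, ← pow_mul] at m
  have : CharP K 2 := CharTwo.of_one_ne_zero_of_two_eq_zero one_ne_zero h2
  obtain ⟨y, hy⟩ := Finite.surjective_of_injective (f := fun y : Kˣ => y ^ (4 * 16))
    (fun y z q => Units.ext ((iterateFrobenius K 2 6).injective (by
      simpa only [iterateFrobenius_def, Nat.reducePow, Nat.reduceMul, Units.val_pow_eq_pow_val] using congrArg Units.val q))) x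
  obtain ⟨k, rfl⟩ := mem_zpowers_iff.1 (hu y)
  have := zpow_mem m k
  rw [← map_zpow, ← zpow_natCast, zpow_comm, zpow_natCast] at this
  exact hy ▸ this

theorem o2_grp {G : Type} [Group G] {t X c : G} (xx : X * X = 1) (k : X * c * t * (X * c)⁻¹ = t) :
    t * X * t⁻¹ * X = t * c * t⁻¹ * c⁻¹ :=
  calc _ = t * X⁻¹ * (X * c * t * (X * c)⁻¹)⁻¹ * X := by rw [k, inv_eq_of_mul_eq_one_right xx]
    _ = _ := by group

theorem o2_main (h2 : (2 : K) = 0) [Finite K] {n md : ℕ} (hn : 1 ≤ n) {L s₁ s₂ : List (ℕ × ℕ)}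
    (h : o2chk n md L s₁ s₂ = true) (h0 : md = 0 → ∀ x : Kˣ, x = 1)
    (h1 : md = 2 → ∃ x : Kˣ, x ≠ 1) :
    IsLeast {k | Good (chev (CartanMatrix.D (n + 2)) 1 (RingHom.id K)) k} 3 := by
  have cl : ∀ H : Subgroup (GL (Fin (2 * n + 3 + 1)) K), ∀ A B, (∃ g ∈ H, O2Rp g A) →
      (∃ g ∈ H, O2Rp g B) → ∃ g ∈ H, O2Rp g (o2bm A B) :=
    fun H A B ⟨a, p, q⟩ ⟨b, p', q'⟩ => ⟨_, mul_mem p p', q.mul h2 q'⟩
  rw [o2chk, Bool.and_eq_true] at h
  obtain ⟨R, hR, h⟩ := o2run_ok (P := fun A => ∃ g ∈ sog (2 * n + 3) K, O2Rp g A)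
    ⟨1, one_mem _, o2rp_one⟩ (cl _) s₁ (fun A hA => by
      obtain ⟨p, hp, rfl⟩ := List.mem_map.1 hA
      obtain ⟨a1, a2, a3, a4⟩ := of_decide_eq_true (List.all_eq_true.1 h.1 p hp)
      exact ⟨_, subset_closure ⟨⟨_, a1⟩, ⟨_, a2⟩, 1, by simp only [ne_eq, Fin.ext_iff, Fin.val_rev, Nat.reduceSubDiff]; omega, rfl⟩,
        o2rp_eo h2 (i := ⟨_, a1⟩) (j := ⟨_, a2⟩) (by simpa using a3) (o2_ne _)⟩) h.2
  obtain _ | ⟨A, _ | ⟨B, _ | ⟨C, _ | ⟨G, _ | ⟨G', R⟩⟩⟩⟩⟩ := R <;> try exact (Bool.false_ne_true h).elim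
  simp only [List.forall_mem_cons] at hR
  obtain ⟨⟨a, ma, pa⟩, ⟨b, mb, pb⟩, ⟨c, mc, pc⟩, ⟨g, mg, pg⟩, ⟨g', mg', pg'⟩, -⟩ := hR
  simp only [Bool.and_eq_true, Bool.or_eq_true, beq_iff_eq, bne_iff_ne] at h
  obtain ⟨⟨⟨⟨⟨⟨e1, e2⟩, e3⟩, e4⟩, e5⟩, e6⟩, e7⟩ := h
  obtain ⟨u, hu⟩ := IsCyclic.exists_generator (α := Kˣ)
  have mt := o2t_sog (n := n) h2 u
  refine goodO hn ma mb (mul_mem (mul_mem mt mc) (inv_mem mt)) mg (mul_mem mt mg')
    (by rw [(pa.mul h2 pa).eq o2rp_one e1]; exact sc_one)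
    (sc_of_eq (by rw [(pg.mul h2 pa).eq (pb.mul h2 pg) e2, mul_inv_cancel_right]))
    (sc_of_eq (by rw [mul_assoc _ g', (pg'.mul h2 pa).eq (pc.mul h2 pg') e3]; group))
    (sc_of_eq ((pa.mul h2 pb).eq (pb.mul h2 pa) e4)) fun H _ ha hb hc => ?_
  have t0 : ∀ x, o2t 0 x ∈ H := fun x => by
    rcases e5 with e | e
    · rw [h0 e x, map_one]; exact one_mem _
    · exact o2_tor h2 pa pc e hu ha hc x
  have hc' : c ∈ H := (mul_mem_cancel_left (t0 _)).1 ((mul_mem_cancel_right (inv_mem (t0 _))).1 hc)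
  have cj : ∀ {g A} {i : Fin (2 * n + 3 + 1)}, g ∈ H → O2Rp g A → o2pm (2 * n + 4) 0 i A = true →
      ∀ x, o2t i x ∈ H := fun m p q x =>
    p.pm (i := 0) q x ▸ mul_mem (mul_mem m (t0 x)) (inv_mem m)
  obtain ⟨R, hR, h⟩ := o2run_ok (P := fun A => ∃ g ∈ H, O2Rp g A) ⟨1, one_mem _, o2rp_one⟩ (cl _) s₂
    (by
      simp only [List.forall_mem_cons]
      refine ⟨⟨a, ha, pa⟩, ⟨b, hb, pb⟩, ⟨c, hc', pc⟩, ?_, by simp⟩
      split_ifs with e
      · obtain ⟨q1, q2⟩ := e6.resolve_left (not_not.2 e)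
        let j : Fin (2 * n + 3 + 1) := ⟨2, by omega⟩
        have d1 : (1 : Fin (2 * n + 3 + 1)) ≠ j := by simp [j, Fin.ext_iff]
        have d2 : j ≠ Fin.rev 1 := by simp only [j, ne_eq, Fin.ext_iff, Fin.val_rev, Fin.coe_ofNat_eq_mod, Nat.one_mod, Nat.reduceAdd, Nat.reduceSubDiff, Nat.right_eq_add, mul_eq_zero, OfNat.ofNat_ne_zero, false_or]; omega
        have px := o2rp_eo h2 d1 (o2_ne j)
        have ad := eo_add (K := K) d2 (o2_ne _) (o2_ne _)
        have key : ∀ x : Kˣ, eo 1 j (x + 1 : K) ∈ H := fun x => by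
          have t1 := cj (i := 1) hb pb q1 x
          have k1 := (px.mul h2 pc).pm (i := 1) (j := 1) q2 x
          have k2 := (o2t_eo o2_ne d1 d2 x 1).1
          have xx : eo 1 j (1 : K) * eo 1 j 1 = 1 := by rw [← ad, one_add_one_eq_two, h2, eo_zero]
          rw [mul_one] at k2
          rw [ad, ← k2, o2_grp xx k1]
          exact mul_mem (mul_mem (mul_mem t1 hc') (inv_mem t1)) (inv_mem hc')
        obtain ⟨x, hx⟩ := h1 e
        have x1 : (x : K) + 1 ≠ 0 := fun z => hx (Units.ext (by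
          rw [Units.val_one]; linear_combination z - h2))
        refine ⟨_, ?_, px⟩
        have := mul_mem (key x) (key (Units.mk0 _ x1))
        rw [← ad] at this
        convert this using 2
        rw [Units.val_mk0]
        linear_combination (-x - 1) * h2
      · exact ⟨1, one_mem _, o2rp_one⟩) e7
  intro i j s hij
  have d1 : i ≠ j := by rw [Ne, Fin.ext_iff]; omega
  have d2 : j ≠ i.rev := by rw [Ne, Fin.ext_iff, Fin.val_rev]; omega
  simp only [o2tgt, List.all_eq_true, List.mem_range, Bool.and_eq_true, List.any_eq_true,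
    Bool.or_eq_true, beq_iff_eq, bne_iff_ne, List.elem_eq_mem, decide_eq_true_eq] at h
  obtain ⟨⟨T, hT, q⟩, h⟩ := h i (by omega)
  obtain ⟨t, mt, pt⟩ : ∃ g ∈ H, O2Rp g T := by
    rcases List.mem_cons.1 hT with rfl | hT
    · exact ⟨1, one_mem _, o2rp_one⟩
    · exact hR T hT
  have ti := cj mt pt q
  obtain ⟨q1, q2⟩ := (h j (by simp; omega)).resolve_left (by omega)
  obtain ⟨y, my, py⟩ := hR _ q1
  obtain ⟨z, mz, pz⟩ := hR _ q2
  rw [py.eq (o2rp_eo h2 d1 (o2_ne j)) rfl] at my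
  rw [pz.eq (o2rp_eo h2 d1.symm (o2_ne i)) rfl] at mz
  by_cases s0 : s = 0
  · simp [s0]
  obtain ⟨k1, k2⟩ := o2t_eo o2_ne d1 d2 (Units.mk0 s s0) 1
  rw [Units.val_mk0, mul_one] at k1 k2
  exact ⟨k1 ▸ mul_mem (mul_mem (ti _) my) (inv_mem (ti _)),
    k2 ▸ mul_mem (mul_mem (ti _) mz) (inv_mem (ti _))⟩

theorem o2_p4 : o2chk 2 0
    [(0,3), (2,0), (1,5), (0,5), (0,2), (3,1), (4,0), (3,0), (1,3), (1,2), (4,1), (2,1), (2,4),
    (4,2), (0,6), (0,1), (6,0), (1,0), (2,3), (3,2)]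
    [(19,18), (0,20), (0,19), (0,19), (0,19), (0,19), (0,23), (0,23), (27,21), (0,27), (0,22),
    (0,30), (0,25), (0,24), (0,24), (0,24), (0,24), (0,28), (0,25), (0,25), (0,25), (0,36), (0,26),
    (0,26), (0,41), (42,28), (0,30), (0,42), (0,33), (0,35), (0,37), (0,42), (0,40), (0,42),
    (0,44), (0,46), (0,49), (0,56), (0,50), (0,57), (0,53), (0,60), (55,54), (0,54), (0,54),
    (0,54), (0,48), (0,48), (0,55), (0,62), (0,54), (0,51), (0,66), (0,54), (0,66), (67,56),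
    (0,70), (0,57), (0,62), (0,72), (0,67), (0,62), (0,64), (0,72), (0,74), (0,76), (0,78), (0,80),
    (60,26), (44,0), (62,2), (16,0), (17,999), (48,999), (2,999), (5,999), (68,999)]
    [(0,1), (0,3), (0,2), (0,5), (0,5), (0,7), (0,6), (0,9), (0,0), (0,1), (12,9), (11,0), (9,9),
    (1,1), (1,13), (14,1), (3,6), (0,3), (20,0), (0,21), (8,0), (0,18), (8,0), (0,10), (26,0),
    (0,27), (10,4), (0,12), (16,0), (0,26), (27,20), (0,19), (34,0), (0,35), (23,0), (0,33),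
    (22,0), (0,24), (24,0), (0,26), (42,30), (0,43), (26,0), (0,28), (41,0), (0,33), (31,0),
    (0,31), (36,6), (0,46), (39,0), (0,49), (38,0), (0,40), (40,0), (0,42), (42,14), (0,44),
    (43,0), (0,43), (47,0), (0,47), (61,0), (0,62), (66,14), (0,67), (63,0), (0,55), (53,0),
    (0,53), (56,60), (0,58), (74,0), (0,75), (63,0), (0,73), (73,0), (0,65), (65,0), (0,65),
    (67,0), (0,67), (56,52), (0,57), (44,36), (0,45), (0,2)] = true := by
  decide +kernel

theorem o2_d4 : o2chk 2 2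
    [(0,3), (0,2), (2,0), (1,3), (3,1), (2,1), (2,3), (0,6), (0,1), (6,0), (1,0), (3,2)]
    [(11,10), (0,10), (0,10), (0,10), (0,14), (0,14), (12,11), (0,11), (0,11), (0,13), (0,12),
    (0,12), (0,12), (0,15), (16,14), (0,16), (0,18), (0,21), (0,21), (0,23), (0,25), (25,24),
    (0,26), (17,9), (10,0), (19,2), (3,0), (4,999), (14,999), (2,999), (5,999), (25,999)]
    [(0,2), (0,1), (0,4), (1,4), (5,2), (1,5), (6,1), (8,10), (0,9), (4,0), (0,6), (4,0), (0,6),
    (8,0), (0,10), (8,0), (0,10), (20,0), (0,21), (16,10), (0,17), (15,0), (0,15), (19,0), (0,19),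
    (19,0), (0,19), (21,0), (0,21), (31,20), (0,32), (26,0), (0,28), (35,0), (0,36), (30,0),
    (0,32), (32,0), (0,34), (34,0), (0,36), (34,4), (0,36), (46,0), (0,47), (41,0), (0,41), (48,2),
    (0,49), (30,20), (0,31), (54,40), (0,55), (0,2)] = true := by
  decide +kernel

theorem o2_p5 : o2chk 3 0
    [(5,0), (3,0), (1,3), (2,6), (3,5), (3,4), (6,0), (0,6), (0,4), (0,3), (0,2), (4,0), (7,1),
    (1,7), (1,4), (1,2), (5,1), (4,1), (3,1), (2,1), (4,2), (2,5), (2,4), (6,2), (5,3), (4,3),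
    (0,8), (0,1), (8,0), (1,0), (2,3), (3,2)]
    [(31,30), (0,32), (0,31), (0,31), (0,31), (0,31), (0,35), (0,35), (33,32), (0,40), (0,33),
    (0,41), (0,34), (0,34), (0,34), (0,34), (0,34), (0,34), (0,34), (0,34), (0,34), (0,34), (0,34),
    (0,34), (0,48), (0,35), (0,35), (0,35), (0,35), (0,35), (36,37), (0,39), (0,41), (0,43),
    (0,58), (0,46), (0,48), (0,50), (0,52), (0,54), (0,56), (0,58), (0,60), (0,62), (0,64), (0,66),
    (0,68), (0,77), (0,71), (0,80), (0,74), (0,76), (77,57), (0,57), (0,78), (0,78), (0,78),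
    (0,78), (0,61), (0,77), (0,83), (0,76), (0,64), (0,77), (0,68), (0,94), (0,67), (0,67), (0,96),
    (0,96), (0,80), (0,80), (0,80), (0,80), (0,80), (41,102), (0,104), (0,77), (0,79), (0,108),
    (0,84), (0,95), (0,84), (0,98), (0,107), (0,103), (0,89), (0,108), (0,110), (0,112), (0,114),
    (0,95), (0,97), (0,118), (86,42), (65,0), (88,2), (22,0), (23,999), (69,999), (2,999), (5,999),
    (94,999)]
    [(1,0), (0,3), (0,2), (0,5), (0,0), (0,0), (6,8), (9,7), (1,8), (0,10), (0,0), (8,8), (1,5),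
    (5,1), (5,8), (0,6), (18,0), (0,19), (9,0), (0,10), (13,0), (0,13), (10,0), (0,12), (11,0),
    (0,11), (19,0), (0,19), (30,2), (0,31), (18,24), (0,20), (18,0), (0,20), (20,0), (0,22),
    (33,0), (0,27), (24,0), (0,26), (26,0), (0,28), (43,0), (0,44), (31,38), (0,31), (39,0),
    (0,39), (34,0), (0,36), (36,0), (0,38), (49,0), (0,43), (51,48), (0,45), (42,0), (0,44),
    (44,0), (0,46), (52,0), (0,54), (52,0), (0,60), (61,4), (0,55), (68,0), (0,69), (55,48),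
    (0,55), (60,0), (0,68), (59,0), (0,59), (64,0), (0,72), (78,44), (0,79), (67,0), (0,67),
    (82,0), (0,83), (74,0), (0,76), (72,0), (0,74), (73,54), (0,73), (90,0), (0,91), (82,0),
    (0,84), (82,0), (0,90), (81,0), (0,81), (88,78), (0,90), (87,0), (0,87), (89,0), (0,89),
    (89,0), (0,89), (94,0), (0,102), (78,76), (0,79), (64,54), (0,65), (0,2), (47,43), (0,48),
    (0,2)] = true := by
  decide +kernel

theorem o2_d5 : o2chk 3 2
    [(1,4), (4,1), (2,4), (0,7), (0,6), (0,2), (7,0), (3,0), (2,0), (1,7), (1,3), (1,2), (6,1),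
    (3,1), (4,3), (3,4), (0,8), (0,1), (8,0), (1,0), (2,6), (2,3), (6,2), (3,2)]
    [(23,22), (0,22), (0,22), (0,26), (0,26), (0,24), (0,24), (0,24), (0,24), (0,28), (0,28),
    (26,25), (0,35), (0,33), (0,27), (0,27), (0,27), (0,27), (0,27), (0,38), (0,28), (0,28),
    (0,28), (0,40), (0,29), (0,29), (0,29), (0,46), (47,31), (0,33), (0,35), (0,48), (0,38),
    (0,40), (0,42), (0,54), (0,45), (0,47), (0,49), (0,51), (0,53), (0,61), (0,65), (0,57), (0,59),
    (60,68), (0,48), (0,48), (0,48), (0,58), (59,50), (0,52), (0,54), (0,76), (0,69), (44,10),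
    (28,0), (46,2), (8,0), (9,999), (32,999), (2,999), (5,999), (52,999)]
    [(0,3), (1,3), (4,2), (1,4), (5,1), (1,8), (9,1), (1,8), (9,1), (1,9), (10,1), (1,1), (1,1),
    (1,13), (14,1), (9,10), (12,0), (0,12), (5,0), (0,7), (5,2), (0,7), (21,22), (17,7), (0,17),
    (21,0), (0,21), (13,0), (0,13), (30,0), (0,31), (28,34), (0,30), (30,0), (0,32), (30,0),
    (0,32), (32,0), (0,34), (34,0), (0,36), (37,8), (0,37), (33,0), (0,33), (47,0), (0,48), (50,0),
    (0,51), (40,0), (0,42), (42,16), (0,44), (40,0), (0,42), (40,0), (0,42), (45,4), (0,45),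
    (48,10), (0,50), (41,39), (0,42), (66,40), (0,67), (0,2), (35,25), (0,36), (0,2)] = true := by
  decide +kernel

theorem o2_d6 : o2chk 4 1
    [(1,3), (5,3), (6,1), (5,1), (7,3), (6,2), (3,5), (4,3), (3,7), (0,6), (0,4), (0,3), (8,0),
    (6,0), (4,0), (3,0), (1,9), (1,8), (1,6), (1,5), (1,4), (4,1), (3,1), (2,1), (2,8), (2,7),
    (2,6), (2,5), (7,2), (5,2), (4,2), (3,6), (6,3), (4,6), (6,4), (0,10), (0,1), (10,0), (1,0),
    (2,3), (3,2), (4,5), (5,4)]
    [(42,41), (0,43), (0,42), (0,42), (0,44), (0,43), (0,43), (0,43), (0,43), (0,47), (0,47),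
    (53,45), (0,53), (0,46), (0,56), (0,47), (0,47), (0,47), (0,47), (0,47), (0,47), (0,47),
    (0,47), (0,47), (0,47), (0,47), (0,47), (0,55), (0,48), (0,48), (0,48), (0,48), (0,48), (0,54),
    (0,72), (0,50), (0,50), (0,50), (0,67), (0,51), (0,51), (0,51), (0,51), (0,78), (0,59), (0,53),
    (54,61), (0,82), (0,57), (0,59), (0,61), (0,63), (0,81), (0,66), (0,68), (0,70), (0,94),
    (0,78), (0,74), (0,76), (0,78), (0,80), (0,82), (0,91), (0,85), (0,87), (0,89), (0,91), (0,93),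
    (0,95), (0,97), (0,99), (0,101), (0,103), (0,105), (0,107), (0,118), (0,110), (0,119), (0,113),
    (0,122), (69,114), (0,89), (0,89), (0,92), (0,125), (0,116), (0,116), (0,93), (0,93), (0,116),
    (0,115), (0,97), (0,114), (0,97), (0,97), (0,97), (0,97), (0,118), (119,99), (0,101), (0,103),
    (0,105), (0,124), (0,109), (0,129), (0,132), (0,111), (0,113), (0,138), (0,140), (0,151),
    (0,120), (0,119), (0,121), (0,148), (0,150), (0,159), (107,37), (73,0), (109,2), (22,0),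
    (23,999), (77,999), (2,999), (5,999), (115,999)]
    [(0,2), (0,1), (0,3), (0,5), (0,0), (0,0), (0,0), (9,7), (7,9), (10,1), (10,0), (13,0), (8,12),
    (0,15), (16,1), (17,8), (0,18), (2,0), (0,4), (9,0), (0,11), (6,0), (0,8), (13,0), (0,15),
    (13,0), (0,22), (15,0), (0,24), (18,0), (0,27), (21,2), (0,23), (23,26), (0,25), (37,0),
    (0,38), (22,0), (0,24), (29,0), (0,31), (37,0), (0,30), (39,0), (0,32), (36,0), (0,36), (48,0),
    (0,49), (35,42), (0,35), (52,0), (0,53), (39,0), (0,39), (52,0), (0,45), (59,0), (0,60),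
    (44,0), (0,46), (51,0), (0,53), (54,46), (0,54), (62,0), (0,55), (53,0), (0,53), (55,0),
    (0,55), (72,0), (0,73), (62,0), (0,71), (65,0), (0,67), (66,2), (0,75), (69,26), (0,71),
    (69,0), (0,78), (73,0), (0,75), (81,0), (0,74), (83,36), (0,76), (85,0), (0,78), (88,0),
    (0,81), (89,0), (0,82), (86,0), (0,86), (83,0), (0,83), (90,0), (0,90), (102,94), (0,103),
    (92,0), (0,101), (94,0), (0,103), (95,0), (0,104), (94,0), (0,96), (102,0), (0,102), (110,0),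
    (0,103), (112,0), (0,105), (105,8), (0,114), (108,0), (0,117), (110,0), (0,119), (113,0),
    (0,115), (127,0), (0,128), (112,24), (0,114), (120,0), (0,120), (133,0), (0,134), (118,0),
    (0,120), (125,0), (0,127), (133,0), (0,126), (130,88), (0,130), (127,0), (0,127), (139,0),
    (0,132), (136,0), (0,136), (144,0), (0,137), (145,0), (0,138), (142,0), (0,142), (122,120),
    (0,123), (106,92), (0,107), (0,2), (81,79), (0,82), (0,2), (74,60), (0,75), (0,2)] = true := by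
  decide +kernel

/-- Block O2. -/
theorem tO2 [Finite K] (h : (2 : K) = 0) {r : ℕ} (hr : r = 4 ∨ r = 5 ∨ r = 6) :
    IsLeast {n | Good (chev (CartanMatrix.D r) 1 (RingHom.id K)) n} 3 := by
  rcases hr with rfl | rfl | rfl
  · by_cases q : ∀ x : Kˣ, x = 1
    · exact o2_main h one_le_two o2_p4 (fun _ => q) (by simp)
    · exact o2_main h one_le_two o2_d4 (by simp) fun _ => not_forall.1 q
  · by_cases q : ∀ x : Kˣ, x = 1
    · exact o2_main h (by simp) o2_p5 (fun _ => q) (by simp)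
    · exact o2_main h (by simp) o2_d5 (by simp) fun _ => not_forall.1 q
  · exact o2_main h (by simp) o2_d6 (by simp) (by simp)

end Pool.Agent.MP_c78e8e_al.H75

end

section

namespace Pool.Agent.MP_c78e8e_al.H75

open Subgroup Matrix

variable {n : ℕ} {K : Type} [Field K] {φ : K →+* K}

/-- Packed generators: a long root element, or a short root element if the indices agree. -/
def o5g (n : ℕ) (p : ℕ × ℕ) : List ℕ :=
  if p.1 = p.2 then o2bm (o2eb (2 * n + 4) p.1 (n + 1)) (o2eb (2 * n + 4) p.1 (n + 2))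
  else o2eb (2 * n + 4) p.1 p.2

/-- The check. -/
def o5chk (n : ℕ) (L s₁ s₂ : List (ℕ × ℕ)) (x : List ℕ) : Bool :=
  (L.all fun p => decide (p.1 < 2 * n + 4 ∧ p.2 < 2 * n + 4 ∧ p.1 + p.2 ≠ 2 * n + 3 ∧
    p.1 ≠ n + 1 ∧ p.1 ≠ n + 2 ∧ p.2 ≠ n + 1 ∧ p.2 ≠ n + 2)) &&
  o2run (2 * n + 4) s₁ (L.map (o5g n)) fun R =>
    match R with
    | A :: B :: C :: G :: G' :: _ =>
      o2bm A A == o2one (2 * n + 4) && o2bm G A == o2bm B G && o2bm G' A == o2bm C G' &&
      o2bm A B == o2bm B A && o2pm (2 * n + 4) (n + 1) (n + 2) A &&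
      o2pm (2 * n + 4) (n + 1) (n + 2) C &&
      (o2run (2 * n + 4) [(0, 1), (0, 0), (0, 0), (0, 0), (0, 0)] [A, C] fun R =>
        R.getD 0 [] == o2one (2 * n + 4)) &&
      o2run (2 * n + 4) s₂ [A, B, C] fun R => (List.range (2 * n + 4)).all fun i =>
        i == n + 1 || i == n + 2 || o2fl (o2bm (o5g n (i, i))
          (R.getD (x.getD i 0) (o2one (2 * n + 4)))) (o2pm (2 * n + 4) (n + 1) (n + 1))
    | _ => false

variable (φ) in
/-- Short root elements. -/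
def o5x (i m : Fin (2 * n + 3 + 1)) (s : K) : GL (Fin (2 * n + 3 + 1)) K :=
  eo i m s * eo i m.rev (φ s)

variable {i j m : Fin (2 * n + 3 + 1)}

theorem o5x_eq (hi : ¬ Mid i) (hm : Mid m) (s : K) :
    o5x φ i m s = eic i (Pi.single m.rev s + Pi.single m (φ s)) := (monc_eo2 hi hm _ _).2.2.symm

theorem o5x_add (hi : ¬ Mid i) (hm : Mid m) (s t : K) :
    o5x φ i m (s + t) = o5x φ i m s * o5x φ i m t := by
  have p := monc_eo2 hi hm s (φ s)
  have q := monc_eo2 hi hm t (φ t)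
  rw [o5x_eq hi hm, o5x_eq hi hm, o5x_eq hi hm, ← eic_add p.1 p.2.1 q.1 q.2.1, map_add,
    Pi.single_add, Pi.single_add, add_add_add_comm]

theorem o5x_tor (hi : ¬ Mid i) (hm : Mid m) {y : Kˣ} (hy : φ y = (y⁻¹ : Kˣ)) (s : K) :
    o2t m y⁻¹ * o5x φ i m s * (o2t m y⁻¹)⁻¹ = o5x φ i m (y * s) := by
  have a : m ≠ i := fun e => hi (e ▸ hm)
  have b : i ≠ m.rev := fun e => hi (e ▸ mid_rev.2 hm)
  have k1 := (o2t_eo o2_ne a b y s).2
  have k2 := (o2t_eo o2_ne b.symm (by rw [Fin.rev_rev]; exact a.symm) y⁻¹ (φ s)).2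
  rw [o2t_rev, ← map_inv, inv_inv] at k2
  rw [o5x, o5x, map_mul φ, hy, ← k1, ← k2]
  group

theorem o5_vec (d : Fin (2 * n + 3 + 1) → Kˣ) (v : Fin (2 * n + 3 + 1) → K)
    (k : Fin (2 * n + 3 + 1)) : ((mon 1 d).1 *ᵥ v) k = d k * v k := by
  simp [mulVec, dotProduct, mon_val]

theorem o5_mem (hn : 1 ≤ n) (hφ : ∀ s, φ (φ s) = s) (hm : Mid m) {y : Kˣ}
    (hy : φ y = (y⁻¹ : Kˣ)) : o2t m (y ^ 2) ∈ sog2 _ φ := by
  have q : ∀ s t : K, qo (Pi.single m.rev s + Pi.single m t) = s * t := fun s t => by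
    rw [qo_add, qo_single, qo_single, bo_single, Fin.rev_rev, Pi.single_eq_same]; ring
  have y' : φ (y⁻¹ : Kˣ) = y := by rw [← hy, hφ]
  have := rfx_mem2 hn hφ (rat_mid hφ hm (y⁻¹ : Kˣ)) (rat_mid hφ hm 1) (by rw [q, y']; simp)
    one_ne_zero (map_one φ) (by rw [q, q, y']; simp)
  convert this using 1
  refine monc_ext fun v => funext fun k => ?_
  have a := monc_ne m
  rw [monc_mul, rfx_app, rfx_app, q, q, y', o2t_def, o5_vec]
  simp only [bo_add', bo_single', Fin.rev_rev, map_one]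
  by_cases e : k = m
  · subst e
    simp only [Pi.mul_apply, Pi.mulSingle_eq_same, ne_eq, a, not_false_eq_true, Pi.mulSingle_eq_of_ne, mul_one, Units.val_pow_eq_pow_val, one_mul, div_one, smul_add, Units.val_inv_eq_inv_val, Pi.sub_apply, Pi.add_apply, Pi.smul_apply, Pi.single_eq_of_ne, smul_eq_mul, mul_zero, Pi.single_eq_same, zero_add, sub_add_cancel_left, mul_neg, a.symm, add_zero, sub_add_cancel_right, Units.ne_zero, inv_mul_cancel₀]
    field_simp
    ring
  by_cases e' : k = m.rev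
  · subst e'
    simp only [Pi.mul_apply, ne_eq, a.symm, not_false_eq_true, Pi.mulSingle_eq_of_ne, Pi.mulSingle_eq_same, one_mul, Units.val_inv_eq_inv_val, Units.val_pow_eq_pow_val, mul_one, div_one, smul_add, Pi.sub_apply, Pi.add_apply, Pi.smul_apply, a, Pi.single_eq_of_ne, smul_eq_mul, mul_zero, Pi.single_eq_same, zero_add, sub_add_cancel_left, mul_neg, add_zero, sub_add_cancel_right, Units.ne_zero, inv_mul_cancel₀]
    field_simp
    ring
  simp only [Pi.mul_apply, ne_eq, e, not_false_eq_true, Pi.mulSingle_eq_of_ne, e', mul_one, Units.val_one, one_mul, div_one, smul_add, Units.val_inv_eq_inv_val, Pi.sub_apply, Pi.add_apply, Pi.smul_apply, smul_eq_mul, Pi.single_eq_same, Units.ne_zero, inv_mul_cancel₀, Pi.single_eq_of_ne, mul_zero, add_zero, sub_zero]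

theorem o5_tor (h2 : (2 : K) = 0) [Finite K] {a c : GL (Fin (2 * n + 3 + 1)) K}
    (k1 : ∀ x, a * o2t m x * a⁻¹ = (o2t m x)⁻¹) (k2 : ∀ x, c * o2t m x * c⁻¹ = (o2t m x)⁻¹)
    (o : (a * c) ^ 16 = 1) {u : Kˣ} {H : Subgroup (GL (Fin (2 * n + 3 + 1)) K)} (ha : a ∈ H)
    (hc : o2t m (u ^ 2) * c * (o2t m (u ^ 2))⁻¹ ∈ H) : o2t m u ∈ H := by
  have cm : ∀ y, Commute (o2t m y) (a * c) := fun y => by
    have : a * c * o2t m y * (a * c)⁻¹ = o2t m y := by
      calc _ = a * (c * o2t m y * c⁻¹) * a⁻¹ := by group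
        _ = _ := by rw [k2, ← map_inv, k1, map_inv, inv_inv]
    exact (mul_inv_eq_iff_eq_mul.1 this).symm
  have e2 : a * (o2t m (u ^ 2) * c * (o2t m (u ^ 2))⁻¹) = o2t m (u ^ 4)⁻¹ * (a * c) := by
    calc _ = a * o2t m (u ^ 2) * a⁻¹ * (a * c * (o2t m (u ^ 2))⁻¹) := by group
      _ = _ := by
        rw [k1, ← (cm _).inv_left.eq, ← mul_assoc, ← map_inv, ← map_mul, ← mul_inv, ← pow_add]
  have p := pow_mem (mul_mem ha hc) 16
  rw [e2, (cm _).mul_pow, o, mul_one, ← map_pow, inv_pow, map_inv, inv_mem_iff, ← pow_mul] at p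
  have : CharP K 2 := CharTwo.of_one_ne_zero_of_two_eq_zero one_ne_zero h2
  obtain ⟨⟨y, hy⟩, e⟩ := Finite.surjective_of_injective (f := fun y : zpowers u => y ^ (4 * 16))
    (fun y z q => Subtype.ext (Units.ext ((iterateFrobenius K 2 6).injective (by
      simpa only [iterateFrobenius_def, Nat.reducePow, Nat.reduceMul, SubmonoidClass.coe_pow, Units.val_pow_eq_pow_val] using congrArg (fun t : zpowers u => (t.1 : K)) q))))
    ⟨u, mem_zpowers u⟩
  obtain ⟨k, rfl⟩ := mem_zpowers_iff.1 hy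
  have := zpow_mem p k
  rw [← map_zpow, ← zpow_natCast, zpow_comm, zpow_natCast] at this
  rwa [show (u ^ k) ^ (4 * 16) = u from congrArg Subtype.val e] at this

theorem o5_long {H : Subgroup (GL (Fin (2 * n + 3 + 1)) K)} (hi : ¬ Mid i) (hj : ¬ Mid j)
    (hm : Mid m) (h : i ≠ j) (r : j ≠ i.rev) {s : K} (p : o5x φ i m s ∈ H)
    (q : o5x φ j.rev m 1 ∈ H) : eo i j (s + φ s) ∈ H := by
  have hj' := mt mid_rev.1 hj
  have a := monc_eo2 hi hm s (φ s)
  have a' := monc_eo2 hj' hm s (φ s)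
  have b := monc_eo2 hj' hm (1 : K) (φ 1)
  have b' := monc_eo2 hi hm (1 : K) (φ 1)
  rw [Fin.rev_rev] at a'
  rw [o5x_eq hi hm] at p
  rw [o5x_eq hj' hm] at q
  have k := eic_conj (eic_iso b.1 b.2.1) (i := i) (j := i) one_ne_zero
    (by rw [eic_apply b.1 b.2.1, bo_single, b'.2.1]; simp [h.symm])
    (by rw [eic_apply b.1 b.2.1, bo_single, Fin.rev_rev, b'.1]; simp [r]) a.1 a.2.1
  have e : bo (Pi.single m.rev s + Pi.single m (φ s)) (Pi.single m.rev (1 : K) + Pi.single m (φ 1)) =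
      s + φ s := by
    have := monc_ne m
    simp [bo_add, bo_single, this, this.symm]
  have r' : i ≠ j.rev := fun e => r (by rw [e, Fin.rev_rev])
  rw [one_smul, eic_apply b.1 b.2.1, Fin.rev_rev, a'.2.1, e, mul_zero, sub_zero, zero_smul, sub_zero,
    ← Pi.single_smul, smul_eq_mul, mul_one, eic_add a.1 a.2.1 (Pi.single_eq_of_ne r' _)
      (Pi.single_eq_of_ne (Fin.rev_injective.ne h) _), eic_single h r] at k
  exact (mul_mem_cancel_left p).1 (k ▸ mul_mem (mul_mem q p) (inv_mem q))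

theorem o5_rp (h2 : (2 : K) = 0) (hi : ¬ Mid i) (hm : (m : ℕ) = n + 1) :
    O2Rp (o5x φ i m 1) (o5g n (i, i)) := by
  have p : Mid m := mid_iff.2 (Or.inl hm)
  have e : (m.rev : ℕ) = n + 2 := by rw [Fin.val_rev]; omega
  rw [o5g, if_pos rfl, o5x, map_one, ← e, ← hm]
  exact (o2rp_eo h2 (i := i) (j := m) (fun e => hi (e ▸ p)) (o2_ne _)).mul h2
    (o2rp_eo h2 (i := i) (j := m.rev) (fun e => hi (e ▸ mid_rev.2 p)) (o2_ne _))

theorem o5_main (h2 : (2 : K) = 0) [Finite K] (hφ : ∀ s, φ (φ s) = s) (ne : φ ≠ RingHom.id K)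
    (hn : 2 ≤ n) {L s₁ s₂ : List (ℕ × ℕ)} {x : List ℕ} (h : o5chk n L s₁ s₂ x = true) :
    IsLeast {k | Good (chev (CartanMatrix.D (n + 2))
      (Equiv.swap (Fin.last n).castSucc (Fin.last (n + 1))) φ) k} 3 := by
  have cl : ∀ H : Subgroup (GL (Fin (2 * n + 3 + 1)) K), ∀ A B, (∃ g ∈ H, O2Rp g A) →
      (∃ g ∈ H, O2Rp g B) → ∃ g ∈ H, O2Rp g (o2bm A B) :=
    fun H A B ⟨a, p, q⟩ ⟨b, p', q'⟩ => ⟨_, mul_mem p p', q.mul h2 q'⟩
  obtain ⟨m, hm⟩ : ∃ m : Fin (2 * n + 3 + 1), (m : ℕ) = n + 1 := ⟨⟨n + 1, by omega⟩, rfl⟩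
  have pm : Mid m := mid_iff.2 (Or.inl hm)
  have em : (m.rev : ℕ) = n + 2 := by rw [Fin.val_rev]; omega
  rw [o5chk, Bool.and_eq_true] at h
  obtain ⟨R, hR, h⟩ := o2run_ok (P := fun A => ∃ g ∈ sog2 (2 * n + 3) φ, O2Rp g A)
    ⟨1, one_mem _, o2rp_one⟩ (cl _) s₁ (fun A hA => by
      obtain ⟨⟨p, q⟩, hp, rfl⟩ := List.mem_map.1 hA
      obtain ⟨a1, a2, a3, a4, a5, a6, a7⟩ := of_decide_eq_true (List.all_eq_true.1 h.1 _ hp)
      have b1 : ¬ Mid (⟨p, a1⟩ : Fin (2 * n + 3 + 1)) := by simp [mid_iff, a4, a5]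
      have b2 : ¬ Mid (⟨q, a2⟩ : Fin (2 * n + 3 + 1)) := by simp [mid_iff, a6, a7]
      by_cases e : p = q
      · subst e
        exact ⟨_, subset_closure (Or.inr ⟨_, m, 1, b1, pm, rfl⟩), o5_rp h2 b1 hm⟩
      · rw [o5g, if_neg e]
        exact ⟨_, subset_closure (Or.inl ⟨⟨_, a1⟩, ⟨_, a2⟩, 1, by simp only [ne_eq, Fin.ext_iff, Fin.val_rev, Nat.reduceSubDiff]; omega, b1, b2,
          map_one φ, rfl⟩), o2rp_eo h2 (i := ⟨_, a1⟩) (j := ⟨_, a2⟩) (by simpa using e) (o2_ne _)⟩) h.2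
  obtain _ | ⟨A, _ | ⟨B, _ | ⟨C, _ | ⟨G, _ | ⟨G', R⟩⟩⟩⟩⟩ := R <;> try exact (Bool.false_ne_true h).elim
  simp only [List.forall_mem_cons] at hR
  obtain ⟨⟨a, ma, pa⟩, ⟨b, mb, pb⟩, ⟨c, mc, pc⟩, ⟨g, mg, pg⟩, ⟨g', mg', pg'⟩, -⟩ := hR
  simp only [Bool.and_eq_true, beq_iff_eq] at h
  obtain ⟨⟨⟨⟨⟨⟨⟨e1, e2⟩, e3⟩, e4⟩, e5⟩, e6⟩, e7⟩, e8⟩ := h
  obtain ⟨z, z1, oz, -, sp, -⟩ := norm_gen hφ ne
  obtain ⟨u, rfl⟩ : ∃ u : Kˣ, z = u := ⟨Units.mk0 z (left_ne_zero_of_mul_eq_one z1), rfl⟩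
  have hu : φ u = (u⁻¹ : Kˣ) := by
    rw [Units.val_inv_eq_inv_val]; exact eq_inv_of_mul_eq_one_right z1
  have u1 : (u : K) * 1 + 1 ≠ 0 := fun e => by
    have : 0 < Nat.card (Fix φ) := Nat.card_pos
    rw [show (u : K) = 1 by linear_combination e - h2, orderOf_one] at oz
    omega
  have ms := o5_mem (by omega) hφ pm hu
  refine goodO2 hn hφ ma mb (mul_mem (mul_mem ms mc) (inv_mem ms)) mg (mul_mem ms mg')
    (by rw [(pa.mul h2 pa).eq o2rp_one e1]; exact sc_one)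
    (sc_of_eq (by rw [(pg.mul h2 pa).eq (pb.mul h2 pg) e2, mul_inv_cancel_right]))
    (sc_of_eq (by rw [mul_assoc _ g', (pg'.mul h2 pa).eq (pc.mul h2 pg') e3]; group))
    (sc_of_eq ((pa.mul h2 pb).eq (pb.mul h2 pa) e4)) fun H _ ha hb hc => ?_
  rw [← em, ← hm] at e5 e6
  simp only [o2run, o2fl_eq, List.getD_cons_zero, List.getD_cons_succ, beq_iff_eq] at e7
  have p1 := pa.mul h2 pc
  have p2 := p1.mul h2 p1
  have p3 := p2.mul h2 p2
  have p4 := p3.mul h2 p3
  have t0 := o5_tor h2 (fun y => (pa.pm e5 y).trans (o2t_rev _ _))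
    (fun y => (pc.pm e6 y).trans (o2t_rev _ _)) (by
      rw [← (p4.mul h2 p4).eq o2rp_one e7]; simp only [pow_succ, pow_zero, one_mul, mul_assoc]) ha hc
  have t2 : o2t m (u ^ 2) ∈ H := map_pow (o2t m) u 2 ▸ pow_mem t0 2
  have t1 : o2t m u⁻¹ ∈ H := map_inv (o2t m) u ▸ inv_mem t0
  have hc' : c ∈ H := (mul_mem_cancel_left t2).1 ((mul_mem_cancel_right (inv_mem t2)).1 hc)
  obtain ⟨R, hR, h⟩ := o2run_ok (P := fun A => ∃ g ∈ H, O2Rp g A) ⟨1, one_mem _, o2rp_one⟩ (cl _) s₂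
    (by
      simp only [List.forall_mem_cons]
      exact ⟨⟨a, ha, pa⟩, ⟨b, hb, pb⟩, ⟨c, hc', pc⟩, by simp⟩) e8
  have key : ∀ i, ¬ Mid i → ∀ s, o5x φ i m s ∈ H := fun i hi => by
    have q := List.all_eq_true.1 h i (List.mem_range.2 i.2)
    simp only [Bool.or_eq_true, beq_iff_eq, ← mid_iff, hi, false_or, o2fl_eq] at q
    obtain ⟨y, my, py⟩ : ∃ g ∈ H, O2Rp g (R.getD (x.getD i 0) (o2one (2 * n + 4))) := by
      rw [List.getD_eq_getElem?_getD]
      cases e : R[x.getD i 0]? with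
      | none => exact ⟨1, one_mem _, o2rp_one⟩
      | some A => exact hR A (List.mem_of_getElem? e)
    rw [← hm] at q
    have xx : o5x φ i m 1 * o5x φ i m 1 = 1 := by
      rw [← o5x_add hi pm, one_add_one_eq_two, h2, o5x, map_zero, eo_zero, eo_zero, mul_one]
    refine sp.ind (fun s t p p' => o5x_add hi pm s t ▸ mul_mem p p') u1 ?_ fun s p =>
      o5x_tor hi pm hu s ▸ mul_mem (mul_mem t1 p) (inv_mem t1)
    rw [o5x_add hi pm, ← o5x_tor hi pm hu, o2_grp xx (((o5_rp h2 hi hm).mul h2 py).pm q u⁻¹)]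
    exact mul_mem (mul_mem (mul_mem t1 my) (inv_mem t1)) (inv_mem my)
  refine ⟨fun i j s hi hj hs => ?_, fun i m' s hi hm' => ?_⟩
  · obtain ⟨t, rfl⟩ := trace_surj hφ ne hs
    have a1 : ¬ Mid i := by rw [mid_iff]; omega
    have a2 : ¬ Mid j := by rw [mid_iff]; omega
    have a3 : i ≠ j := by rw [Ne, Fin.ext_iff]; omega
    exact ⟨o5_long a1 a2 pm a3 (by rw [Ne, Fin.ext_iff, Fin.val_rev]; omega) (key _ a1 _)
      (key _ (mt mid_rev.1 a2) _), o5_long a2 a1 pm a3.symm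
      (by rw [Ne, Fin.ext_iff, Fin.val_rev]; omega) (key _ a2 _) (key _ (mt mid_rev.1 a1) _)⟩
  · obtain rfl : m' = m := Fin.ext (hm'.trans hm.symm)
    have a1 : ¬ Mid i := by rw [mid_iff]; omega
    have a2 := mt mid_rev.1 a1
    refine ⟨key _ a1 s, ?_⟩
    have := key _ a2 (-φ s)
    rw [o5x_eq a2 pm, add_comm (Pi.single m'.rev _), map_neg, hφ] at this
    have k := (monc_eo2 a2 (mid_rev.2 pm) (-s) (-φ s)).2.2
    rw [Fin.rev_rev, ← eo_rev (o2_ne _) (o2_ne _), ← eo_rev (o2_ne _) (o2_ne _), Fin.rev_rev,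
      Fin.rev_rev] at k
    exact k ▸ this

theorem o5_c2 : o5chk 2
    [(7,7), (0,0), (6,6), (1,1), (5,5), (2,2), (2,1), (1,0)]
    [(0,1), (0,1), (4,5), (0,5), (8,9), (0,9), (4,2), (0,1), (14,12), (0,15), (17,12), (0,18),
    (16,2), (0,13), (0,2), (3,15), (0,6), (0,21), (8,10), (4,11), (5,28), (11,29), (2,4),
    (4,13), (16,32)]
    [(1,0), (3,0), (2,0), (4,0), (6,0), (5,0), (8,7), (8,0), (10,0), (9,0), (11,0), (12,9),
    (14,0), (14,0), (14,7), (16,0), (18,0)]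
    [11, 6, 4, 0, 0, 7, 3, 0] = true := by
  decide +kernel

theorem o5_c3 : o5chk 3
    [(9,9), (0,0), (8,8), (1,1), (7,7), (2,2), (8,0), (3,2), (6,0), (2,0), (6,6)]
    [(0,1), (0,1), (4,5), (0,5), (8,9), (0,9), (4,2), (0,1), (14,11), (0,15), (17,15), (0,18),
    (21,13), (0,22), (22,0), (0,23), (20,0), (0,21), (26,6), (0,27), (30,0), (0,31), (10,27),
    (0,13), (14,29), (0,13), (4,29), (0,17), (0,10), (11,19), (0,33), (0,9), (8,24), (4,25),
    (5,45), (11,46), (2,4), (4,11), (30,49)]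
    [(2,1), (2,0), (4,0), (4,0), (6,0), (6,0), (8,0), (8,0), (9,8), (11,0), (11,0), (13,0),
    (13,0), (15,0), (14,0), (15,10), (18,0), (17,16), (20,0), (20,5), (22,0), (21,0), (23,0)]
    [16, 15, 8, 6, 0, 0, 4, 18, 0, 1] = true := by
  decide +kernel

theorem o5_c4 : o5chk 4
    [(11,11), (0,0), (10,10), (1,1), (9,9), (2,2), (8,8), (3,3), (7,7), (4,4), (2,0), (9,0),
    (4,3), (7,0), (4,2), (3,0), (1,0), (4,0), (7,1), (2,1), (7,3)]
    [(0,1), (0,1), (4,5), (0,5), (8,9), (0,9), (12,13), (0,13), (16,17), (0,17), (8,6), (0,5),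
    (0,4), (0,3), (24,15), (0,25), (29,0), (0,30), (30,0), (0,31), (31,0), (0,32), (36,27),
    (0,37), (37,0), (0,38), (41,27), (0,42), (41,0), (0,42), (46,31), (0,47), (45,0), (0,46),
    (48,0), (0,49), (38,0), (0,39), (57,41), (0,58), (58,0), (0,59), (59,0), (0,60), (48,0),
    (0,49), (63,47), (0,64), (68,0), (0,69), (28,34), (35,29), (2,6), (0,15), (0,57), (0,23),
    (0,26), (0,31), (32,28), (0,27), (0,63), (0,23), (0,16), (0,13), (13,50), (7,51), (8,87),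
    (16,88), (2,4), (4,17), (56,91)]
    [(1,0), (3,0), (2,0), (4,0), (6,0), (5,0), (8,0), (7,0), (9,0), (11,0), (10,0), (12,0),
    (14,0), (13,0), (15,0), (17,16), (16,0), (18,0), (20,0), (19,0), (21,0), (23,0), (22,0),
    (24,0), (26,0), (25,0), (27,0), (29,0), (30,8), (29,0), (31,0), (33,0), (32,0), (34,0),
    (36,0), (36,30), (38,0), (37,0), (39,19), (41,0), (41,0), (42,3), (44,1), (43,0), (45,0),
    (47,0), (47,0), (49,0), (49,13)]
    [34, 21, 14, 11, 8, 0, 0, 7, 9, 35, 1, 0] = true := by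
  decide +kernel

theorem o5_c5 : o5chk 5
    [(13,13), (0,0), (12,12), (1,1), (11,11), (2,2), (10,10), (3,3), (9,9), (4,4), (11,0),
    (1,4), (8,1), (5,0), (2,0), (8,4), (5,3), (4,3), (1,2), (10,1), (3,0), (8,0), (4,0), (10,2),
    (3,1), (0,2), (9,0), (4,1)]
    [(0,1), (0,1), (4,5), (0,5), (8,9), (0,9), (12,13), (0,13), (16,17), (0,17), (8,6), (0,5),
    (0,4), (0,3), (24,15), (0,25), (30,17), (0,31), (31,0), (0,32), (32,0), (0,33), (33,0),
    (0,34), (34,0), (0,35), (43,33), (0,44), (44,0), (0,45), (45,0), (0,46), (52,33), (0,53),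
    (53,0), (0,54), (54,0), (0,55), (44,0), (0,45), (61,6), (0,62), (64,24), (0,65), (68,47),
    (0,69), (69,0), (0,70), (75,2), (0,76), (76,0), (0,77), (77,0), (0,78), (56,0), (0,57),
    (24,63), (0,31), (0,42), (43,33), (0,67), (0,29), (6,14), (0,19), (0,22), (0,25), (26,24),
    (0,23), (0,20), (0,13), (11,56), (5,57), (6,100), (14,101), (2,4), (4,13), (62,104)]
    [(1,0), (3,0), (2,0), (4,0), (6,0), (5,0), (7,0), (9,0), (9,0), (11,0), (10,0), (12,0),
    (14,0), (13,0), (15,0), (17,4), (16,0), (18,0), (20,0), (20,0), (22,0), (22,0), (24,23),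
    (23,0), (26,0), (26,0), (28,0), (28,0), (30,0), (29,0), (32,0), (31,0), (33,0), (35,0),
    (35,10), (37,0), (37,0), (39,0), (39,0), (41,0), (41,0), (43,0), (43,0), (45,0), (44,0),
    (47,0), (47,0), (49,0), (49,0), (49,13), (52,0), (51,0), (53,0), (55,0), (54,0), (57,0),
    (57,54), (59,0), (58,0), (61,0), (60,0), (62,0), (64,0), (63,0), (65,0), (67,0), (66,0),
    (68,0), (70,0), (69,0), (71,0), (73,0), (73,0), (75,0), (75,0), (75,50), (78,0), (77,0),
    (79,0), (81,0), (80,0), (82,0), (84,0), (84,0), (86,0), (85,0), (88,0), (87,0), (90,0),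
    (91,86), (91,0), (93,0), (93,0), (95,0), (94,0), (97,0), (96,0), (98,0), (100,0), (99,0),
    (101,50), (103,0), (103,0), (105,0), (104,0), (106,0), (108,0), (109,2), (108,0), (110,0),
    (112,0), (112,0), (114,0), (113,0), (115,0), (116,8)]
    [101, 94, 102, 82, 67, 60, 0, 0, 41, 27, 16, 9, 1, 0] = true := by
  decide +kernel

/-- Block O5. -/
theorem tO5 [Finite K] (hφ : ∀ s, φ (φ s) = s) (ne : φ ≠ RingHom.id K) (h : (2 : K) = 0) {n : ℕ}
    (h2 : 2 ≤ n) (h5 : n ≤ 5) : IsLeast {k | Good (chev (CartanMatrix.D (n + 2))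
      (Equiv.swap (Fin.last n).castSucc (Fin.last (n + 1))) φ) k} 3 := by
  interval_cases n
  · exact o5_main h hφ ne h2 o5_c2
  · exact o5_main h hφ ne h2 o5_c3
  · exact o5_main h hφ ne h2 o5_c4
  · exact o5_main h hφ ne h2 o5_c5

end Pool.Agent.MP_c78e8e_al.H75

end
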