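import Pool.Agent.MP_c78e8e_al.Sg.G2
import Pool.Agent.MP_c78e8e_al.Mg.Sg_O2

attribute [-instance] NonUnitalRingHomClass.toMulHomClass MonTypeEquivalenceMon.monMonoid
  RKHS.instFunLike NeZero.charZero_one NonUnitalAlgSemiHomClass.toMulHomClass
  SemilinearMapClass.toAddHomClass DistribMulActionSemiHomClass.toAddMonoidHomClass littleWedderburn
  SubsemiringClass.toSubmonoidClass IdemSemiring.toSemiring instCoeOutOfCoeFun
  instCharZeroOfIsSemireal ContinuousMonoidHom.instCoeOutOfMonoidHomClassOfContinuousMapClass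
  invertibleTwo CommGrpTypeEquivalenceCommGrp.commGrpCommGroup MulZeroClass.toMul
  SemilatticeInf.toPartialOrder NormedRing.toRing instCoeTCOfCoe
  NonUnitalRing.toNonUnitalNonAssocRing NormedCommRing.toCommRing FloorSemiring.instCharZero
  CommMonTypeEquivalenceCommMon.commMonCommMonoid SeminormedRing.toRing BooleanRing.toRing
  LieAdmissibleRing.toNonUnitalNonAssocRing NormedField.toField NormMulClass.toNoZeroDivisors
  NonUnitalNormedRing.toNormedAddCommGroup NonUnitalRing.toNonUnitalSemiring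
  MonoidWithZero.toSemigroupWithZero MonoidWithZero.toMulZeroOneClass
  IsometryClass.instCoeOutIsometryEquiv LieRing.toAddCommGroup
  instCommGroupOfIsSimpleGroupOfIsNilpotent NonUnitalNormedCommRing.toNonUnitalCommRing
  NonAssocSemiring.toNonUnitalNonAssocSemiring CommRing.toRing GroupWithZero.toDivisionMonoid
  NumberField.to_charZero ContinuousAddMonoidHom.instCoeOutOfAddMonoidHomClassOfContinuousMapClass
  HomeomorphClass.instCoeOutHomeomorph ESeminormedAddCommMonoid.toAddCommMonoid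
  GroupConeClass.toSubmonoidClass instIsRightCancelAddOfAddRightReflectLE
  GroupWithZero.toDivInvMonoid SeminormedCommRing.toCommRing EuclideanDomain.toCommRing
  AddCommMonoidWithOne.toAddMonoidWithOne AddQuantale.instAddLeftMono
  NonUnitalSemiring.toNonUnitalNonAssocSemiring NonUnitalSeminormedCommRing.toNonUnitalCommRing
  BialgHomClass.toMonoidHomClass IsStrictOrderedRing.noZeroDivisors
  Std.instLawfulBEqOrdOfLawfulOrderOrdOfLawfulOrderBEq SeminormedCommGroup.toCommGroup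
  GrpTypeEquivalenceGrp.grpGroup IdemCommSemiring.toCommSemiring IsFormallyReal.instIsReduced
  RCLike.charZero_rclike Semiring.toNonUnitalSemiring

section

namespace Pool.Agent.MP_c78e8e_al.H75

open Subgroup Matrix
open scoped commutatorElement

theorem g2o_m1 {K : Type} [Field K] (l : Kˣ) : mz (l : K) * mx (l : K)⁻¹ * mz (l : K) = mdg l⁻¹ * mw := by
  ext i j
  fin_cases i <;> fin_cases j <;> simp [mdg, mw, mx, mz, Matrix.mul_apply, Fin.sum_univ_two]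

theorem g2o_m2 {K : Type} [Field K] : (mw * mw : SL2 K) = mdg (-1) := by
  ext i j
  fin_cases i <;> fin_cases j <;> simp only [mw, Fin.zero_eta, Fin.isValue, Matrix.SpecialLinearGroup.coe_mul, Matrix.mul_apply, of_apply, cons_val', cons_val_fin_one, cons_val_zero, Fin.sum_univ_two, mul_zero, cons_val_one, mul_neg, mul_one, zero_add, mdg, Units.val_neg, Units.val_one, inv_neg, inv_one, Fin.mk_one, add_zero, neg_zero]

theorem g2o_m3 {K : Type} [Field K] : (mx 1 * mw * (mx 1 * mw) * (mx 1 * mw) : SL2 K) = 1 := by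
  ext i j
  fin_cases i <;> fin_cases j <;> simp only [mx, mw, Fin.zero_eta, Fin.isValue, Matrix.SpecialLinearGroup.coe_mul, cons_mul, Nat.succ_eq_add_one, Nat.reduceAdd, vecMul_cons, head_cons, one_smul, tail_cons, empty_vecMul, add_zero, add_cons, zero_add, empty_add_empty, zero_smul, empty_mul, Equiv.symm_apply_apply, neg_smul, neg_cons, neg_neg, neg_empty, add_neg_cancel, Matrix.mul_apply, of_apply, cons_val', cons_val_fin_one, cons_val_zero, Fin.sum_univ_two, mul_neg, mul_one, neg_zero, cons_val_one, Matrix.SpecialLinearGroup.coe_one, one_apply_eq, Fin.mk_one, mul_zero, ne_eq, zero_ne_one, not_false_eq_true, one_apply_ne, neg_add_cancel, one_ne_zero]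

theorem g2o_m4 {K : Type} [Field K] : (mw * (mx (-1) * mw⁻¹) * mw⁻¹ : SL2 K) = (mx 1 * mw)⁻¹ := by
  rw [mul_inv_eq_iff_eq_mul, eq_inv_mul_iff_mul_eq, ← mul_assoc, ← mul_assoc, mul_inv_eq_iff_eq_mul]
  ext i j
  fin_cases i <;> fin_cases j <;> simp only [mx, mw, Fin.zero_eta, Fin.isValue, Matrix.SpecialLinearGroup.coe_mul, cons_mul, Nat.succ_eq_add_one, Nat.reduceAdd, vecMul_cons, head_cons, one_smul, tail_cons, empty_vecMul, add_zero, add_cons, zero_add, empty_add_empty, zero_smul, empty_mul, Equiv.symm_apply_apply, neg_smul, neg_cons, neg_zero, neg_empty, Matrix.mul_apply, of_apply, cons_val', cons_val_fin_one, cons_val_zero, Fin.sum_univ_two, mul_one, cons_val_one, mul_zero, mul_neg, Fin.mk_one, neg_neg, add_neg_cancel]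

theorem g2o_m5 {K : Type} [Field K] (h : (3 : K) = 0) :
    (mx 1 * mw * (mw * mx 1) * (mx 1 * mw * (mw * mx 1)) : SL2 K) = mx 1 := by
  ext i j
  fin_cases i <;> fin_cases j <;> simp only [mx, mw, Fin.zero_eta, Fin.isValue, Matrix.SpecialLinearGroup.coe_mul, cons_mul, Nat.succ_eq_add_one, Nat.reduceAdd, vecMul_cons, head_cons, one_smul, tail_cons, empty_vecMul, add_zero, add_cons, zero_add, empty_add_empty, zero_smul, empty_mul, Equiv.symm_apply_apply, neg_smul, neg_cons, neg_empty, neg_zero, Matrix.mul_apply, of_apply, cons_val', cons_val_fin_one, cons_val_zero, Fin.sum_univ_two, mul_neg, mul_one, neg_neg, cons_val_one, mul_zero, Fin.mk_one, neg_mul, one_mul, neg_add_rev, zero_mul]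
  linear_combination h

namespace St

variable {G K : Type} [Group G] [Field K] {S : St G (Fin 4 → ℤ) K} {φ : K →+* K} {θ : G →* G}

theorem g2o_main [Finite K] (hB : ∀ u v, S.B u v = g2bb u v) (hR : ∀ u, g2bb u u = 2 → S.R u)
    (D : S.G3 g2r φ θ) (h2 : (2 : K) ≠ 0) (h4 : 4 ≤ Nat.card K) (N : Subgroup G)
    (N1 : ∀ β, S.R β → S.B β (g2r β) = 0 → ∀ s, g3Tr θ (S.x β s) ∈ N)
    (N2 : ∀ β, S.R β → g2r β = β → ∀ s, φ s = s → S.x β s ∈ N)
    (N3 : ∀ H : Subgroup G, (∀ β, S.R β → S.B β (g2r β) = 0 → ∀ s, g3Tr θ (S.x β s) ∈ H) →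
      (∀ β, S.R β → g2r β = β → ∀ s, φ s = s → S.x β s ∈ H) → N ≤ H) (N4 : ∀ g ∈ N, θ g = g) :
    IsLeast {n | Good N n} 3 := by
  obtain ⟨a, ha⟩ : ∃ a : Fin 4 → ℤ, a = ![1, 0, 0, 0] := ⟨_, rfl⟩
  obtain ⟨b, hb⟩ : ∃ a : Fin 4 → ℤ, a = ![1, 1, 0, 0] := ⟨_, rfl⟩
  obtain ⟨c, hc⟩ : ∃ a : Fin 4 → ℤ, a = ![0, 1, 1, 1] := ⟨_, rfl⟩
  obtain ⟨p, hp⟩ : ∃ a : Fin 4 → ℤ, a = ![1, 1, 1, 1] := ⟨_, rfl⟩
  obtain ⟨q, hq⟩ : ∃ a : Fin 4 → ℤ, a = ![1, 2, 1, 1] := ⟨_, rfl⟩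
  obtain ⟨e, he⟩ : ∃ a : Fin 4 → ℤ, a = ![0, 1, 0, 0] := ⟨_, rfl⟩
  obtain ⟨X, hX⟩ : ∃ X : (Fin 4 → ℤ) → K → G, ∀ β s, g3Tr θ (S.x β s) = X β s := ⟨_, fun _ _ => rfl⟩
  simp only [hX] at N1 N3
  have rf : S.rf = g2rf := by
    ext β v i; simp [St.rf, g2rf, hB]
  have ra : S.R a ∧ S.B a (g2r a) = 0 := ⟨hR _ (by rw [ha]; decide), by rw [hB, ha]; decide⟩
  have rb : S.R b ∧ S.B b (g2r b) = 0 := ⟨hR _ (by rw [hb]; decide), by rw [hB, hb]; decide⟩
  have rc : S.R c ∧ S.B c (g2r c) = 0 := ⟨hR _ (by rw [hc]; decide), by rw [hB, hc]; decide⟩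
  have rp : S.R p ∧ g2r p = p := ⟨hR _ (by rw [hp]; decide), by rw [hp]; decide⟩
  have rq : S.R q ∧ g2r q = q := ⟨hR _ (by rw [hq]; decide), by rw [hq]; decide⟩
  have re : S.R e ∧ g2r e = e := ⟨hR _ (by rw [he]; decide), by rw [he]; decide⟩
  have ng : ∀ {β}, S.R β ∧ S.B β (g2r β) = 0 → S.R (-β) ∧ S.B (-β) (g2r (-β)) = 0 := fun h =>
    ⟨S.Rneg _ h.1, by simp only [map_neg, D.rn, AddMonoidHom.neg_apply, h.2, neg_zero]⟩
  have nl : ∀ {β}, S.R β ∧ g2r β = β → S.R (-β) ∧ g2r (-β) = -β := fun h =>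
    ⟨S.Rneg _ h.1, by rw [D.rn, h.2]⟩
  have cj : ∀ {H : Subgroup G} {m z : G}, m ∈ H → z ∈ H → m * z * m⁻¹ ∈ H := fun p q =>
    mul_mem (mul_mem p q) (inv_mem p)
  have nN : ∀ {β}, S.R β ∧ g2r β = β → S.n β ∈ N := fun h =>
    have h1 := N2 _ h.1 h.2 1 (map_one _)
    mul_mem (mul_mem h1 (N2 _ (nl h).1 (nl h).2 1 (map_one _))) h1
  have hN : ∀ {β}, S.R β ∧ g2r β = β → S.hh (S.B β) ∈ N := fun h =>
    S.nsq _ h.1 ▸ mul_mem (nN h) (nN h)
  have hT : ∀ f, S.hh f ∈ S.g2T := fun f => S.tt_hh f ▸ g2_tt_mem _ _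
  obtain ⟨ψa, ax, az, aw, ad, -⟩ := D.psi ra.1 ra.2
  obtain ⟨ψb, bx, bz, bw, bd, -⟩ := D.psi rb.1 rb.2
  obtain ⟨ψ, cx, cz, cw, cd, -⟩ := D.psi rc.1 rc.2
  simp only [hX] at ax az bx bz cx cz
  have aN : ∀ A, ψa A ∈ N := sl2_gen (fun s => ax s ▸ N1 _ ra.1 ra.2 s)
    fun s => az s ▸ N1 _ (ng ra).1 (ng ra).2 s
  have bN : ∀ A, ψb A ∈ N := sl2_gen (fun s => bx s ▸ N1 _ rb.1 rb.2 s)
    fun s => bz s ▸ N1 _ (ng rb).1 (ng rb).2 s
  have cN : ∀ A, ψ A ∈ N := sl2_gen (fun s => cx s ▸ N1 _ rc.1 rc.2 s)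
    fun s => cz s ▸ N1 _ (ng rc).1 (ng rc).2 s
  obtain ⟨nA, mA⟩ := D.W ra.1
  obtain ⟨nB, mB⟩ := D.W rb.1
  have mQ := g3_mw_n rq.1
  rw [← aw] at nA mA
  rw [← bw] at nB mB
  rw [rf] at mA mB mQ
  -- torus involutions
  have zi : ∀ {β γ}, S.R β ∧ g2r β = β → S.R γ → Odd (g2bb β γ) → ∀ s,
      S.hh (S.B β) * S.x γ s * (S.hh (S.B β))⁻¹ = S.x γ (-s) ∧
      S.hh (S.B β) * X γ s * (S.hh (S.B β))⁻¹ = X γ (-s) := fun {β γ} h r o s => by
    have := S.hh_x (S.B β) γ r s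
    rw [hB, o.neg_one_zpow, neg_one_mul] at this
    exact ⟨this, by rw [← hX, g3Tr_conj (N4 _ (hN h)), this, hX]⟩
  have sp : ∀ {ψ' : SL2 K →* G} {z : G}, (∀ s, z * ψ' (mx s) * z⁻¹ = ψ' (mx (-s))) →
      (∀ s, z * ψ' (mz s) * z⁻¹ = ψ' (mz (-s))) → ∀ j : Kˣ, z * ψ' (mdg j * mw) * z⁻¹ =
      (ψ' (mdg j * mw))⁻¹ ∧ ψ' (mx j) * ψ' (mz (2 * j : K)⁻¹) * z * (ψ' (mx j) * ψ' (mz (2 * j : K)⁻¹))⁻¹ =
      ψ' (mdg j * mw) * z := fun {ψ' z} p1 p2 j => by
    have e1 : ∀ s : K, mx (-s) = (mx s)⁻¹ := fun s => by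
      ext i j; fin_cases i <;> fin_cases j <;> simp [mx]
    have e2 : ∀ s : K, mz (-s) = (mz s)⁻¹ := fun s => by
      ext i j; fin_cases i <;> fin_cases j <;> simp [mz]
    have e3 : mz (2 * j : K)⁻¹ * mz (2 * j : K)⁻¹ = mz (j : K)⁻¹ := by
      ext i j; fin_cases i <;> fin_cases j <;> simp [mz, Matrix.mul_apply, Fin.sum_univ_two]
      field_simp; ring
    simp only [e1, e2, map_inv] at p1 p2
    rw [g2p_split (p1 _) (p2 _), ← map_mul, e3, mdg_eq, inv_mul_cancel_right, map_mul, map_mul]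
    refine ⟨?_, rfl⟩
    calc _ = (z * ψ' (mx j) * z⁻¹) * (z * ψ' (mz (j : K)⁻¹) * z⁻¹) * (z * ψ' (mx j) * z⁻¹) := by group
      _ = _ := by rw [p1, p2]; group
  have m1 : mdg (1 : Kˣ) * mw = mw := by
    ext i j; fin_cases i <;> fin_cases j <;> simp only [mdg, Units.val_one, inv_one, mw, Fin.zero_eta, Fin.isValue, Matrix.SpecialLinearGroup.coe_mul, Matrix.mul_apply, of_apply, cons_val', cons_val_fin_one, cons_val_zero, Fin.sum_univ_two, mul_zero, cons_val_one, mul_neg, mul_one, neg_zero, add_zero, Fin.mk_one, zero_add]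
  obtain ⟨z, hz⟩ : ∃ z, z = S.hh (S.B p) := ⟨_, rfl⟩
  have zN : z ∈ N := hz ▸ hN rp
  have zT : z ∈ S.g2T := hz ▸ hT _
  have zz : z * z = 1 := hz ▸ S.hh_sq _
  have zv : z⁻¹ = z := inv_eq_of_mul_eq_one_right zz
  have za := sp (ψ' := ψa) (z := z)
    (fun s => by rw [ax, ax, hz, (zi rp ra.1 (by rw [hp, ha]; decide) s).2])
    (fun s => by rw [az, az, hz, (zi rp (ng ra).1 (by rw [hp, ha]; decide) s).2])
  have zc1 : ∀ s, z * ψ (mx s) * z⁻¹ = ψ (mx (-s)) := fun s => by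
    rw [cx, cx, hz, (zi rp rc.1 (by rw [hp, hc]; decide) s).2]
  have zc2 : ∀ s, z * ψ (mz s) * z⁻¹ = ψ (mz (-s)) := fun s => by
    rw [cz, cz, hz, (zi rp (ng rc).1 (by rw [hp, hc]; decide) s).2]
  have zc := sp zc1 zc2 1
  obtain ⟨ψq, qx, qz⟩ := g3_psi0 rq.1
  have qw : ψq mw = S.n q := by rw [mw_eq, map_mul, map_mul, qx, qz, n]
  have zq1 : ∀ s, z * S.x q s * z⁻¹ = S.x q (-s) := fun s => by
    rw [hz, (zi rp rq.1 (by rw [hp, hq]; decide) s).1]
  have zq := sp (ψ' := ψq) (z := z) (fun s => by rw [qx, qx, zq1])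
    (fun s => by rw [qz, qz, hz, (zi rp (nl rq).1 (by rw [hp, hq]; decide) s).1]) 1
  rw [m1] at zc
  rw [m1, qw, qx, qz] at zq
  have qa : ∀ A B, Commute (ψq A) (ψa B) := fun A B => by
    refine sl2_comm (fun s => ?_) (fun s => ?_) B <;>
      refine (sl2_comm (fun t => ?_) (fun t => ?_) A).symm <;>
      simp only [ax, az, qx, qz, ← hX] <;>
      refine (D.cm (by first | exact rq.1 | exact (nl rq).1) (by first | exact ra.1 | exact (ng ra).1)
        (by simp only [hB]; rw [hq, ha]; decide) _ _).symm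
  have na : ∀ B, Commute (S.n q) (ψa B) := fun B => qw ▸ qa _ B
  have xa : ∀ s B, Commute (S.x q s) (ψa B) := fun s B => qx s ▸ qa _ B
  -- the first involution
  obtain ⟨d, hd⟩ : ∃ d : Kˣ → G, ∀ j, d j = S.n q * ψa (mdg j * mw) * z := ⟨_, fun _ => rfl⟩
  have dN : ∀ j, d j ∈ N := fun j => hd j ▸ mul_mem (mul_mem (nN rq) (aN _)) zN
  have dc : ∀ j, ∃ g ∈ N, g * z * g⁻¹ = d j := fun j => by
    refine ⟨ψa (mx j) * ψa (mz (2 * j : K)⁻¹) * (S.x q (1 : Kˣ) * S.x (-q) (2 * (1 : Kˣ) : K)⁻¹),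
      mul_mem (mul_mem (aN _) (aN _)) (mul_mem (N2 _ rq.1 rq.2 _ (by simp))
        (N2 _ (nl rq).1 (nl rq).2 _ (by simp [map_ofNat]))), ?_⟩
    have k : ∀ g h : G, g * h * z * (g * h)⁻¹ = g * (h * z * h⁻¹) * g⁻¹ := fun g h => by group
    rw [k, zq.2, hd, mul_assoc (S.n q), ← (za j).2, ← map_mul, ← mul_assoc, ← (na _).eq]
    group
  have dd : ∀ j, d j * d j = 1 := fun j => by
    obtain ⟨g, -, k⟩ := dc j
    rw [← k]
    calc _ = g * (z * z) * g⁻¹ := by group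
      _ = 1 := by rw [zz]; group
  have di : ∀ j, (d j)⁻¹ = d j := fun j => inv_eq_of_mul_eq_one_right (dd j)
  have dH : ∀ j, d j = S.g2H g2r φ a j * d 1 := fun j => by
    rw [hd, hd, m1, map_mul, ← ad, ← mul_assoc, (na _).eq]; group
  have nd : ∀ j, d j ∈ normalizer (S.g2T : Set G) := fun j => by
    rw [dH, hd, m1]
    exact mul_mem (le_normalizer (g2_H_mem _ _)) (mul_mem (mul_mem (g3_n_nor rq.1) nA) (le_normalizer zT))
  have mD : ∀ j, S.g3Mw (d j) fun γ => g2rf q (g2rf a (g2rf (g2r a) (g2rf (g2r (g2r a)) γ))) := fun j => by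
    rw [dH, hd, m1]
    exact (g3_mw_T (g2_H_mem _ _)).mul ((mQ.mul mA).mul (g3_mw_T zT))
  have HN : ∀ j, θ (S.g2H g2r φ a j) = S.g2H g2r φ a j := fun j => N4 _ (ad j ▸ aN _)
  have dz : ∀ j, d j * z * (d j)⁻¹ = z⁻¹ := fun j => by
    have e1 : ψa (mdg j * mw) * ψa (mdg j * mw) = ψa (mdg (-1)) := by
      rw [← map_mul]; congr 1; ext i j
      fin_cases i <;> fin_cases j <;> simp [mdg, mw, Matrix.mul_apply, Fin.sum_univ_two]
    have e2 : S.n q * S.n q * ψa (mdg (-1)) = 1 := by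
      have u : Units.map (φ : K →* K) (-1) = -1 := by ext; simp only [Units.map_neg, map_one, Units.val_neg, Units.val_one]
      rw [ad, g2H, u, u, S.tt_hh, S.tt_hh, S.tt_hh, n, S.nsq q rq.1, ← S.hh_add, ← S.hh_add, ← S.hh_add,
        ← S.hh_sq (S.B p), ← S.hh_add]
      congr 1
      simp only [← map_add]
      congr 1
      rw [ha, hp, hq]; decide
    calc _ = S.n q * ψa (mdg j * mw) * (z * ψa (mdg j * mw) * z⁻¹)⁻¹ * (z * S.n q * z⁻¹)⁻¹ * z := by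
          rw [hd]; group
      _ = S.n q * (ψa (mdg j * mw) * ψa (mdg j * mw)) * S.n q * z := by rw [(za j).1, zq.1]; group
      _ = _ := by rw [e1, mul_assoc (S.n q), ← (na _).eq, ← mul_assoc, e2, one_mul, zv]
  have da : ∀ j s, d j * X a s * (d j)⁻¹ = X (-a) (-s / j ^ 2) := fun j s => by
    have e1 : mdg j * mw * mx (-s) * (mdg j * mw)⁻¹ = mz (-s / j ^ 2) := by
      rw [mul_inv_eq_iff_eq_mul]; ext i j
      fin_cases i <;> fin_cases j <;> simp only [mdg, Units.val_inv_eq_inv_val, mw, mx, Fin.zero_eta, Fin.isValue, Matrix.SpecialLinearGroup.coe_mul, cons_mul, Nat.succ_eq_add_one, Nat.reduceAdd, vecMul_cons, head_cons, smul_cons, smul_eq_mul, mul_zero, mul_one, smul_empty, tail_cons, zero_smul, empty_vecMul, add_zero, mul_neg, zero_add, empty_mul, Equiv.symm_apply_apply, Matrix.mul_apply, of_apply, cons_val', cons_val_fin_one, cons_val_zero, Fin.sum_univ_two, cons_val_one, mz, zero_mul, neg_zero,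 Fin.mk_one, one_mul, neg_mul, neg_neg]
      field_simp
    calc _ = S.n q * (ψa (mdg j * mw) * (z * X a s * z⁻¹) * (ψa (mdg j * mw))⁻¹) * (S.n q)⁻¹ := by
          rw [hd]; group
      _ = _ := by
        rw [hz, (zi rp ra.1 (by rw [hp, ha]; decide) s).2, ← ax, ← map_mul, ← map_inv, ← map_mul, e1,
          (na _).mul_inv_cancel, az]
  obtain ⟨ε, ε0, d1, d2⟩ := G3.mwX (mD 1) (N4 _ (dN 1)) rc.1 (δ := -c) (by rw [ha, hc, hq]; decide)
  have v1 : g2bb a c = -1 ∧ g2bb (g2r a) c = 1 ∧ g2bb (g2r (g2r a)) c = 1 := by rw [ha, hc]; decide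
  have Hc : ∀ j s, S.g2H g2r φ a j * X c s * (S.g2H g2r φ a j)⁻¹ = X c (φ j * φ (φ j) / j * s) ∧
      S.g2H g2r φ a j * X (-c) s * (S.g2H g2r φ a j)⁻¹ = X (-c) (s / (φ j * φ (φ j) / j)) := fun j s => by
    rw [← hX c s, ← hX (-c) s, g3Tr_conj (HN j), g3Tr_conj (HN j), G3.H_x _ _ rc.1,
      G3.H_x _ _ (ng rc).1, hX, hX]
    simp only [map_neg]
    simp only [hB, v1, neg_neg, _root_.zpow_neg, zpow_one]
    constructor <;> congr 1 <;> field_simp
  simp only [hX, neg_neg] at d1 d2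
  have dx : ∀ j s, d j * X c s * (d j)⁻¹ = X (-c) (ε / (φ j * φ (φ j) / j) * s) ∧
      d j * X (-c) s * (d j)⁻¹ = X c (s / (ε / (φ j * φ (φ j) / j))) := fun j s => by
    rw [dH, _root_.mul_inv_rev, ← mul_assoc, ← mul_assoc, mul_assoc _ (d 1), mul_assoc _ (d 1),
      mul_assoc _ (d 1 * _), mul_assoc _ (d 1 * _), d1, d2, (Hc j _).1, (Hc j _).2]
    constructor <;> congr 1 <;> field_simp
  obtain ⟨x, x0, x1, so, sn⟩ := g2p_sol h2 h4
  suffices ∃ (j : Kˣ) (k τ : G) (w : K), w ≠ 0 ∧ -(ε / (φ j * φ (φ j) / j))⁻¹ = x * w ^ 2 ∧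
      (∃ g ∈ N, g * z * g⁻¹ = k) ∧ τ ∈ S.g2T ∧ Act ψ τ !![x, 0; 0, 1] ∧
      ∀ H : Subgroup G, d j ∈ H → k ∈ H → τ ∈ H ∧ ((∀ A, ψ A ∈ H) →
        (∀ A, ψa A ∈ H) ∧ (∀ A, ψb A ∈ H) ∧ ∀ s, φ s = s → S.x p s ∈ H) by
    obtain ⟨j, k, τ, w, w0, hw, ⟨g', g'N, hk⟩, tT, aτ, gen⟩ := this
    obtain ⟨u, y, l, i, i', u0, y0, h, hl, xi, cs⟩ := so w w0
    have aD : Act ψ (d j) !![0, x * w ^ 2; 1, 0] := hw ▸ act_anti (by simp [ε0])
      (fun s => by rw [cx, cz, (dx j s).1]) fun s => by rw [cx, cz, (dx j s).2]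
    have ab : Act ψ z !![-1, 0; 0, 1] := act_diag (by simp) (by simpa only [neg_mul, one_mul] using zc1)
      (by simpa only [div_neg, div_one] using zc2)
    have e1 : (-1 : K) * -1 = 1 := by simp
    obtain ⟨A, hA⟩ := ab.conj (M := mw) (M' := mM u y (x * w ^ 2) (-1) e1 h)
      (by simp [mw, trace_fin_two]) (by simp [mM, trace_fin_two]) (by simp [mw]) (by simpa [mM] using y0)
    obtain ⟨g, gN, hg⟩ := dc j
    have e0 : g⁻¹ * d j * g = z := by rw [← hg]; group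
    refine g2a_three N (sl2_not_solvable h4 (fun e => ?_) cN) (dN j) (dd j)
      ⟨ψ A * z * (ψ (mx (1 : Kˣ)) * ψ (mz (2 * (1 : Kˣ) : K)⁻¹)) * g⁻¹, mul_mem (mul_mem (mul_mem (cN _) zN)
        (mul_mem (cN _) (cN _))) (inv_mem gN), ?_⟩ (c := k) ⟨g' * g⁻¹, mul_mem g'N (inv_mem gN), by
          rw [← hk, ← e0]; group⟩
      (r1_comm e1 h aD ab (by
        calc _ = z * ψ mw * z⁻¹ * ψ mw := by rw [zv]; group
          _ = 1 := by rw [zc.1, inv_mul_cancel]) (dz j)) fun H p1 p2 p3 => ?_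
    · obtain ⟨t, t', k1, k2⟩ := D.rng rc.1 1
      rw [cx, ← hX, g3Tr, k2, k1, mul_assoc, mul_eq_one_iff_eq_inv] at e
      refine one_ne_zero (g2_uniq rc.1 ra.1 (by rw [hB, ha, hc]; decide) (Commute.inv_left ?_) e)
      exact (S.x_comm _ _ (D.rR _ rc.1) ra.1 (by rw [hB, ha, hc]; decide) _ _).mul_left
        (S.x_comm _ _ (D.rR _ (D.rR _ rc.1)) ra.1 (by rw [hB, ha, hc]; decide) _ _)
    · calc _ = ψ A * (z * (ψ (mx (1 : Kˣ)) * ψ (mz (2 * (1 : Kˣ) : K)⁻¹) * (g⁻¹ * d j * g) *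
            (ψ (mx (1 : Kˣ)) * ψ (mz (2 * (1 : Kˣ) : K)⁻¹))⁻¹) * z⁻¹) * (ψ A)⁻¹ := by group
        _ = _ := by rw [e0, zc.2, ← hA]; group
    obtain ⟨p4, gen⟩ := gen H p1 p3
    have hψ := r1 e1 h u0 y0 hl xi cs sn (fun a ha a' ha' _ _ => by
        rw [commutatorElement_eq_one_iff_commute.2 (g2_T_comm ha ha')]; exact Commute.one_left _)
      (cw ▸ (D.W rc.1).1) (fun j => cd j ▸ le_normalizer (g2_H_mem _ _)) tT aτ (nd j) aD
      (le_normalizer zT) ab p4 p1 p2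
    obtain ⟨s1, s2, l1⟩ := gen hψ
    refine N3 H (fun β r o => ?_) fun β r o => ?_
    · rcases g2b_roots ((hB β β).symm.trans (S.R2 β r)) with ⟨f, -⟩ | ⟨-, ⟨γ, f, f'⟩, -⟩
      · rw [f, S.R2 β r] at o; omega
      have : (S.R γ ∧ S.B γ (g2r γ) = 0) ∧ ∀ s, X γ s ∈ H := by
        rw [← ha, ← hb, ← hc] at f
        simp only [List.mem_cons, List.not_mem_nil, or_false] at f
        rcases f with rfl | rfl | rfl | rfl | rfl | rfl
        exacts [⟨ra, fun s => ax s ▸ s1 _⟩, ⟨ng ra, fun s => az s ▸ s1 _⟩, ⟨rb, fun s => bx s ▸ s2 _⟩,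
          ⟨ng rb, fun s => bz s ▸ s2 _⟩, ⟨rc, fun s => cx s ▸ hψ _⟩, ⟨ng rc, fun s => cz s ▸ hψ _⟩]
      obtain ⟨⟨r', o'⟩, t⟩ := this
      have ro : ∀ γ, S.R γ → S.B γ (g2r γ) = 0 → (∀ s, X γ s ∈ H) → ∀ s, X (g2r γ) s ∈ H :=
        fun γ r o t s => by obtain ⟨u, e⟩ := D.rot r o s; rw [← hX, e, hX]; exact t u
      rcases f' with rfl | rfl | rfl
      exacts [t, ro _ r' o' t, ro _ r' o' t |> ro _ (D.rR _ r') (by rw [D.rB, o'])]
    · have l2 := D.mwL mA (N4 _ (aN _)) (s1 _) rp.1 (δ := e) (by rw [ha, hp, he]; decide) l1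
      have l3 := D.mwL mB (N4 _ (bN _)) (s2 _) re.1 (δ := -q) (by rw [hb, hq, he]; decide) l2
      rcases g2b_roots ((hB β β).symm.trans (S.R2 β r)) with ⟨-, γ, f, f'⟩ | ⟨f, -⟩
      · rw [← hp, ← hq, ← he] at f
        simp only [List.mem_cons, List.not_mem_nil, or_false] at f
        rcases f with rfl | rfl | rfl <;> rcases f' with rfl | rfl
        exacts [l1, D.mwL (mD j) (N4 _ (dN j)) p1 rp.1 (by rw [ha, hp, hq]; decide) l1, l2,
          D.mwL (mD j) (N4 _ (dN j)) p1 re.1 (by rw [ha, he, hq]; decide) l2, l3,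
          D.mwL (mD j) (N4 _ (dN j)) p1 (nl rq).1 (by rw [ha, hq]; decide) l3]
      · rw [o, ← hB, S.R2 β r] at f; omega
  have mv : ∀ {H : Subgroup G} {m w γ δ}, S.g3Mw m w → m ∈ N → m ∈ H → S.R γ →
      w γ = δ → ((∀ s, X γ s ∈ H) ∧ ∀ s, X (-γ) s ∈ H) → (∀ s, X δ s ∈ H) ∧ ∀ s, X (-δ) s ∈ H :=
    fun h m1 m2 r e ⟨p1, p2⟩ => by
      obtain ⟨k, k0, q1, q2⟩ := G3.mwX h (N4 _ m1) r e
      simp only [hX] at q1 q2
      exact ⟨fun s => by rw [← mul_div_cancel₀ s k0, ← q1]; exact cj m2 (p1 _),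
        fun s => by rw [← mul_div_cancel_right₀ s k0, ← q2]; exact cj m2 (p2 _)⟩
  by_cases h3 : (3 : K) ≠ 0 ∨ ∃ a, φ a ≠ a
  · obtain ⟨z', hz'⟩ : ∃ z', z' = S.hh (S.B q) := ⟨_, rfl⟩
    have z'T : z' ∈ S.g2T := hz' ▸ hT _
    have zb := sp (ψ' := ψb) (z := z')
      (fun s => by rw [bx, bx, hz', (zi rq rb.1 (by rw [hq, hb]; decide) s).2])
      (fun s => by rw [bz, bz, hz', (zi rq (ng rb).1 (by rw [hq, hb]; decide) s).2]) 1
    rw [m1] at zb
    have ez : S.n e * z * (S.n e)⁻¹ = z' := by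
      rw [hz, hz', ← S.tt_hh, ← S.tt_hh, n, S.tt_n _ _ _ re.1, mul_inv_cancel_right,
        show q = p + e by rw [hp, hq, he]; decide, map_add, hB,
        show g2bb p e = -1 by rw [hp, he]; decide, neg_one_zsmul, sub_neg_eq_add]
    obtain ⟨k, hk⟩ : ∃ k, k = ψb mw * z' := ⟨_, rfl⟩
    have kN : k ∈ N := hk ▸ mul_mem (bN _) (hz' ▸ hN rq)
    have ki : k⁻¹ = k := inv_eq_of_mul_eq_one_right (by
      calc _ = ψb mw * (z' * ψb mw * z'⁻¹) * (z' * z') := by rw [hk]; group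
        _ = 1 := by rw [zb.1, hz', S.hh_sq]; group)
    have mK : S.g3Mw k fun γ => g2rf b (g2rf (g2r b) (g2rf (g2r (g2r b)) γ)) :=
      hk ▸ mB.mul (g3_mw_T z'T)
    obtain ⟨κ, κ0, k1, k2⟩ := G3.mwX mK (N4 _ kN) rc.1 (δ := a) (by rw [ha, hb, hc]; decide)
    simp only [hX] at k1 k2
    have iv : ∀ {m y y' : G}, m⁻¹ = m → m * y * m⁻¹ = y' → m * y' * m⁻¹ = y := fun h1 h2 => by
      rw [← h2, ← h1, inv_inv, h1, ← mul_assoc, ← mul_assoc, mul_assoc _ _ (_ : G)]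
      nth_rw 1 [← h1]; nth_rw 3 [← h1]; group
    have k3 : ∀ s, k * X a s * k⁻¹ = X c (s / κ) := fun s =>
      iv ki (by rw [k1, mul_div_cancel₀ s κ0])
    have k4 : ∀ s, k * X (-a) s * k⁻¹ = X (-c) (s * κ) := fun s =>
      iv ki (by rw [k2, mul_div_cancel_right₀ s κ0])
    obtain ⟨j, hj⟩ := g2p_root D.φ3 (x := -(ε * x / κ ^ 2)) (by simp only [ne_eq, neg_eq_zero, div_eq_zero_iff, mul_eq_zero, ε0, x0, or_self, OfNat.ofNat_ne_zero, not_false_eq_true, pow_eq_zero_iff, κ0])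
    have j0 := j.ne_zero
    have d3 : ∀ s, d j * X (-a) s * (d j)⁻¹ = X a (-(s * j ^ 2)) := fun s =>
      iv (di j) (by rw [da, neg_neg, mul_div_cancel_right₀ s (pow_ne_zero 2 j0)])
    have c4 : ∀ y : G, d j * k * d j * k * y * (d j * k * d j * k)⁻¹ =
        d j * (k * (d j * (k * y * k⁻¹) * (d j)⁻¹) * k⁻¹) * (d j)⁻¹ := fun y => by group
    refine ⟨j, k, d j * k * d j * k, j / κ, div_ne_zero j0 κ0, by rw [← hj]; field_simp,
      ⟨ψb (mx (1 : Kˣ)) * ψb (mz (2 * (1 : Kˣ) : K)⁻¹) * S.n e, mul_mem (mul_mem (bN _) (bN _)) (nN re), by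
        rw [hk, ← zb.2, ← ez]; group⟩, ?_, act_diag x0 (fun s => ?_) fun s => ?_,
      fun H p1 p3 => ⟨mul_mem (mul_mem (mul_mem p1 p3) p1) p3, fun hψ => ?_⟩⟩
    · obtain ⟨l, l0, q1, q2⟩ := G3.mwX (mD j) (N4 _ (dN j)) rb.1 (δ := -b) (by rw [ha, hb, hq]; decide)
      simp only [hX, neg_neg] at q1 q2
      have e1 : d j * ψb mw * (d j)⁻¹ = ψb (mdg (Units.mk0 l l0)⁻¹) * ψb mw := by
        rw [← map_mul, ← g2o_m1, mw_eq]
        simp only [map_mul, bx, bz, Units.val_mk0]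
        rw [← mul_one l, ← q1, mul_one, ← one_div l, ← q2]; group
      have := mul_mem (mul_mem (mul_mem (bd _ ▸ g2_H_mem b (Units.mk0 l l0)⁻¹)
        ((mem_normalizer_iff.1 nB _).1 ((mem_normalizer_iff.1 (nd j) _).1 z'T)))
        (bd _ ▸ g2_H_mem b (-1))) z'T
      convert this using 1
      rw [← g2o_m2, map_mul, eq_mul_inv_of_mul_eq e1.symm, hk]
      nth_rw 2 [← di j]
      group
    · rw [cx, cx, c4, k1, da, k4, (dx j _).2, ← hj]
      congr 1; field_simp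
    · rw [cz, cz, c4, k2, d3, k3, (dx j _).1, ← hj]
      congr 1; field_simp
    have sc : (∀ s, X c s ∈ H) ∧ ∀ s, X (-c) s ∈ H := ⟨fun s => cx s ▸ hψ _, fun s => cz s ▸ hψ _⟩
    have sa := mv mK kN p3 rc.1 (δ := a) (by rw [ha, hb, hc]; decide) sc
    have s1 : ∀ A, ψa A ∈ H := sl2_gen (fun s => ax s ▸ sa.1 s) fun s => az s ▸ sa.2 s
    have sb := mv mA (aN _) (s1 _) rc.1 (δ := b) (by rw [ha, hb, hc]; decide) sc
    refine ⟨s1, sl2_gen (fun s => bx s ▸ sb.1 s) fun s => bz s ▸ sb.2 s, fun s hs => ?_⟩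
    obtain ⟨t, rfl⟩ := g2p_tr D.φ3 h3 hs
    obtain ⟨η, pη, f0, -⟩ := S.x_rel a c ra.1 rc.1 (by rw [hB, v1.1])
    replace f0 := f0 (η * t) 1
    rw [show a + c = p by rw [ha, hc, hp]; decide, mul_one, ← mul_assoc, pη.sq, one_mul,
      commutatorElement_def, mul_inv_eq_iff_eq_mul, mul_inv_eq_iff_eq_mul, mul_assoc (S.x p t)] at f0
    have f1 := congrArg θ f0
    simp only [map_mul, D.θl p rp.1 rp.2] at f1
    have f2 := congrArg θ f1
    simp only [map_mul, D.θl p rp.1 rp.2] at f2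
    have := mul_mem (sa.1 (η * t)) (sc.1 1)
    obtain ⟨t1, t2, y1, y2⟩ := D.rng ra.1 (η * t)
    obtain ⟨u1, u2, w1, w2⟩ := D.rng rc.1 1
    rw [y2, w2] at f2
    rw [y1, w1] at f1
    have cm : ∀ {β γ}, g2bb β β = 2 ∧ g2bb γ γ = 2 ∧ 0 ≤ g2bb β γ → ∀ {s t},
        S.x β s * S.x γ t = S.x γ t * S.x β s := fun h =>
      S.x_comm _ _ (hR _ h.1) (hR _ h.2.1) (by rw [hB]; exact h.2.2) _ _
    have F : X a (η * t) * X c 1 = S.x p t * S.x p (φ t) * S.x p (φ (φ t)) * X c 1 * X a (η * t) := by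
      rw [← hX, ← hX, g3Tr, g3Tr, y2, w2, y1, w1]
      refine g2p_fuse f0 f1 f2 ?_ ?_ ?_ ?_ ?_ ?_ ?_ ?_ ?_ ?_ ?_ ?_ <;>
        exact cm (by simp only [ha, hc, hp]; decide)
    rwa [F, mul_mem_cancel_right (sa.1 _), mul_mem_cancel_right (sc.1 _), ← S.x_add _ rp.1,
      ← S.x_add _ rp.1] at this
  push Not at h3
  obtain ⟨h3, fi⟩ := h3
  have cb : ∀ s : K, s ≠ 0 → ∃ m : Kˣ, (m : K) ^ 3 = s := fun s s0 => by
    obtain ⟨m, rfl⟩ := Finite.surjective_of_injective (f := fun m : K => m ^ 3) (fun a b e =>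
      sub_eq_zero.1 (pow_eq_zero_iff three_ne_zero |>.1 (by
        linear_combination e - a * b * (a - b) * h3))) s
    exact ⟨Units.mk0 m fun k => s0 (by simp [k]), rfl⟩
  obtain ⟨μ, hμ⟩ := cb x x0
  obtain ⟨j, hj⟩ : ∃ j : Kˣ, (j : K) = -(ε * x) := ⟨Units.mk0 _ (by simp [ε0, x0]), rfl⟩
  obtain ⟨u, hu⟩ : ∃ u, u = ψq (mx 1 * mw) := ⟨_, rfl⟩
  have uN : u ∈ N := by
    rw [hu, map_mul, qx, qw]; exact mul_mem (N2 _ rq.1 rq.2 _ (fi _)) (nN rq)
  have u3 : u * u * u = 1 := by rw [hu, ← map_mul, ← map_mul, g2o_m3, map_one]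
  have zu : ∀ {y : G}, y * S.x q 1 * y⁻¹ = S.x q (-1) → y * S.n q * y⁻¹ = (S.n q)⁻¹ →
      y * u * y⁻¹ = ψq (mx (-1) * mw⁻¹) := fun h1 h2 => by
    rw [hu, map_mul, map_mul, map_inv, qx, qx, qw, ← h1, ← h2]; group
  have du : ∀ j, d j * u * (d j)⁻¹ = u⁻¹ := fun j => by
    calc _ = S.n q * (ψa (mdg j * mw) * (z * u * z⁻¹) * (ψa (mdg j * mw))⁻¹) * (S.n q)⁻¹ := by
          rw [hd]; group
      _ = _ := by
        rw [zu (zq1 1) zq.1, (qa _ _).symm.mul_inv_cancel, ← qw, ← map_inv, ← map_mul, ← map_mul,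
          g2o_m4, hu, map_inv]
  have cu : ∀ m, Commute (S.g2H g2r φ a m) u := fun m => by rw [← ad, hu]; exact (qa _ _).symm
  have dk : d j * (u * d (μ⁻¹ * j) * u⁻¹) = S.g2H g2r φ a μ * u := by
    have : d j = S.g2H g2r φ a μ * d (μ⁻¹ * j) := by
      rw [dH (μ⁻¹ * j), ← mul_assoc, ← g2_H_mul, mul_inv_cancel_left, ← dH]
    calc _ = S.g2H g2r φ a μ * (d (μ⁻¹ * j) * u * (d (μ⁻¹ * j))⁻¹) * u⁻¹ * (u * u * u) := by
          rw [this, di, u3]; group
      _ = _ := by rw [du]; group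
  obtain ⟨g, gN, hg⟩ := dc (μ⁻¹ * j)
  refine ⟨j, u * d (μ⁻¹ * j) * u⁻¹, S.g2H g2r φ a (μ * μ * μ), 1, one_ne_zero, by
    simp only [fi, hj]; field_simp, ⟨u * g, mul_mem uN gN, by rw [← hg]; group⟩, g2_H_mem _ _,
    act_diag x0 (fun s => ?_) fun s => ?_, fun H p1 p3 => ?_⟩
  · rw [cx, cx, (Hc _ s).1, ← hμ]; simp only [fi, Units.val_mul]; congr 2; field_simp
  · rw [cz, cz, (Hc _ s).2, ← hμ]; simp only [fi, Units.val_mul]; congr 2; field_simp
  have p4 := dk ▸ mul_mem p1 p3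
  refine ⟨?_, fun hψ => ?_⟩
  · have := mul_mem (mul_mem p4 p4) p4
    rwa [(cu μ).symm.mul_mul_mul_comm, ((cu μ).symm.mul_left (cu μ).symm).mul_mul_mul_comm, u3, mul_one,
      ← g2_H_mul, ← g2_H_mul] at this
  have v2 : g2bb c q = 1 ∧ g2bb (g2r c) q = 1 ∧ g2bb (g2r (g2r c)) q = 1 := by rw [hq, hc]; decide
  have yq : ∀ m s, ψ (mdg m) * S.x q s * (ψ (mdg m))⁻¹ = S.x q (m ^ 3 * s) ∧
      ψ (mdg m) * S.x (-q) s * (ψ (mdg m))⁻¹ = S.x (-q) (s / m ^ 3) := fun m s => by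
    rw [cd, G3.H_x _ _ rq.1, G3.H_x _ _ (nl rq).1]
    simp only [map_neg]
    simp only [hB, v2, fi, _root_.zpow_neg, zpow_one]
    constructor <;> congr 1 <;> field_simp
  have y1 : ∀ s, ψ (mdg (-1)) * S.x q s * (ψ (mdg (-1)))⁻¹ = S.x q (-s) := fun s => by
    rw [(yq _ s).1]; congr 1; simp only [Units.val_neg, Units.val_one]; ring
  have y2 := (sp (ψ' := ψq) (z := ψ (mdg (-1))) (fun s => by rw [qx, qx, y1])
    (fun s => by rw [qz, qz, (yq _ s).2]; congr 1; simp; ring) 1).1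
  rw [m1, qw] at y2
  have xq : S.x q 1 ∈ H := by
    have k : ψq (mx 1 * mw * (mw * mx 1)) ∈ H := by
      have := mul_mem p4 (inv_mem (cj (hψ (mdg (-1))) p4))
      rw [show ψ (mdg (-1)) * (S.g2H g2r φ a μ * u) * (ψ (mdg (-1)))⁻¹ = S.g2H g2r φ a μ *
        (ψ (mdg (-1)) * u * (ψ (mdg (-1)))⁻¹) by
          rw [← mul_assoc, cd, (g2_T_comm (g2_H_mem _ _) (g2_H_mem _ _)).eq]; group, zu (y1 1) y2, hu,
        _root_.mul_inv_rev, ← mul_assoc, mul_assoc _ (ψq _), ← map_inv, ← map_mul, ← ad,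
        (qa _ _).symm.mul_inv_cancel, _root_.mul_inv_rev, inv_inv, ← sl2c_neg, neg_neg] at this
      exact this
    simpa only [← map_mul, g2o_m5 h3, qx] using mul_mem k k
  have l1 : ∀ s, φ s = s → S.x q s ∈ H := fun s _ => by
    by_cases s0 : s = 0
    · rw [s0, S.x_zero rq.1]; exact one_mem _
    obtain ⟨m, rfl⟩ := cb s s0
    simpa only [(yq m 1).1, mul_one] using cj (hψ (mdg m)) xq
  have l2 := D.mwL (mD j) (N4 _ (dN j)) p1 rq.1 (δ := -q) (by rw [ha, hq]; decide) l1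
  have sc : (∀ s, X c s ∈ H) ∧ ∀ s, X (-c) s ∈ H := ⟨fun s => cx s ▸ hψ _, fun s => cz s ▸ hψ _⟩
  have sb := mv mQ (nN rq) (mul_mem (mul_mem xq (l2 1 (fi _))) xq) rc.1 (δ := -b)
    (by rw [hq, hb, hc]; decide) sc
  rw [neg_neg] at sb
  have s2 : ∀ A, ψb A ∈ H := sl2_gen (fun s => bx s ▸ sb.2 s) fun s => bz s ▸ sb.1 s
  have sa := mv mB (bN _) (s2 _) rc.1 (δ := a) (by rw [ha, hb, hc]; decide) sc
  have s1 : ∀ A, ψa A ∈ H := sl2_gen (fun s => ax s ▸ sa.1 s) fun s => az s ▸ sa.2 s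
  exact ⟨s1, s2, D.mwL (mD j) (N4 _ (dN j)) p1 (nl rp).1 (by rw [ha, hp, hq]; decide)
    (D.mwL mA (N4 _ (aN _)) (s1 _) (nl re).1 (by rw [ha, hp, he]; decide)
      (D.mwL mB (N4 _ (bN _)) (s2 _) rq.1 (by rw [hb, hq, he]; decide) l1))⟩

end St

/-- The groups `G₂ (q)` and `³D₄ (q)` in odd characteristic, over fields with more than three
elements. -/
theorem tG2o {K : Type} [Field K] [Finite K] {φ : K →+* K} (hφ : ∀ s, φ (φ (φ s)) = s)
    (h2 : (2 : K) ≠ 0) (h : Nat.card K ≠ 3) : IsLeast {n | Good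
      (chev (CartanMatrix.D 4) (Equiv.swap 0 3 * Equiv.swap 0 2) φ) n} 3 := by
  obtain ⟨S, θ, hB, hR, -, -, D, k⟩ := g2l_link hφ
  obtain ⟨N1, N2, N3, N4⟩ := k _ rfl
  refine St.g2o_main hB (fun u => (hR u).2) D h2 ?_ _ N1 N2 N3 N4
  have := Fintype.ofFinite K
  have h1 : 1 < Nat.card K := Finite.one_lt_card
  have : Nat.card K ≠ 2 := fun e => h2 (by
    have := FiniteField.cast_card_eq_zero K
    rwa [← Nat.card_eq_fintype_card, e] at this)
  omega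

end Pool.Agent.MP_c78e8e_al.H75

end

section

namespace Pool.Agent.MP_c78e8e_al.H75

open Subgroup Matrix
open scoped commutatorElement

variable {K : Type} [Field K]

/-- Digits of a packed row. -/
def g23e (r j : ℕ) : ℕ := r / 64 ^ j % 64

/-- A packed row, reduced modulo three. -/
def g23p (f : ℕ → ℕ) : ℕ := ∑ j ∈ Finset.range 8, f j % 3 * 64 ^ j

/-- Reduction of a packed row, which is evaluated first. -/
def g23f (S : ℕ) : ℕ := Nat.rec (g23p (g23e 0)) (fun k _ => g23p (g23e k.succ)) S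

/-- Product of packed matrices over the field with three elements. -/
def g23m (A B : List ℕ) : List ℕ := A.map fun r =>
  g23f (∑ k ∈ Finset.range 8, g23e r k * B.getD k 0)

/-- The packed identity. -/
def g23o : List ℕ := (List.range 8).map fun k => g23p fun l => if k = l then 1 else 0

/-- The packed root elements of the orthogonal group. -/
def g23b (i j s : ℕ) : List ℕ := (List.range 8).map fun k => g23p fun l =>
  (if k = l then 1 else 0) + (if i = k ∧ j = l then s else 0) +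
    if 7 - j = k ∧ 7 - i = l then 2 * s else 0

/-- Straight line programs. -/
def g23r (s : List (ℕ × ℕ)) : List (List ℕ) → (List (List ℕ) → Bool) → Bool :=
  s.rec (fun R f => f R) fun p _ ih R f =>
    o2fl (g23m (R.getD p.1 g23o) (R.getD p.2 g23o)) fun C => ih (C :: R) f

/-- Index pairs of the roots. -/
def g23l : List (Fin 8 × Fin 8) := [(0, 1), (0, 2), (0, 3), (0, 4), (0, 5), (0, 6), (1, 0), (1, 2),
  (1, 3), (1, 4), (1, 5), (2, 0), (2, 1), (2, 3), (2, 4), (3, 0), (3, 1), (3, 2), (4, 0), (4, 1),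
  (4, 2), (5, 0), (5, 1), (6, 0)]

/-- The root of an index pair. -/
def g23t (p : Fin 8 × Fin 8) : Fin 4 → ℤ := rtD (n := 2) p.1 p.2

/-- The index pair of a root. -/
def g23i (β : Fin 4 → ℤ) : Fin 8 × Fin 8 := (g23l.find? fun p => g23t p = β).getD 0

/-- The exponent of the sign in the natural representation. -/
def g23z (a b : Fin 8) : ℤ :=
  coc (CartanMatrix.D 4) (orta1_W (n := 2) a) (orta1_W (n := 2) b) + (if (a : ℕ) < 5 then 0 else 1) +
    (if (b.rev : ℕ) < 5 then 0 else 1) +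
    coc (CartanMatrix.D 4) (orta1_W (n := 2) b.rev) (orta1_W (n := 2) b)

/-- The matrix of a root element of the model. -/
def g23x (β : Fin 4 → ℤ) (z : ℤ) : List ℕ :=
  g23b (g23i β).1 (g23i β).2 (if Even (g23z (g23i β).1 (g23i β).2.rev + z) then 1 else 2)

/-- The matrix of a root element of the twisted group. -/
def g23y (β : Fin 4 → ℤ) (z : ℤ) : List ℕ :=
  if g2r β = β then g23x β z else
    g23m (g23m (g23x β z) (g23x (g2r β) (β 1 * (β 0 + β 3) + z)))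
      (g23x (g2r (g2r β)) (g2r β 1 * (g2r β 0 + g2r β 3) + (β 1 * (β 0 + β 3) + z)))

/-- The check. -/
def g23c (L : List ((Fin 8 × Fin 8) × ℤ)) (s₁ s₂ : List (ℕ × ℕ)) : Bool :=
  (L.all fun p => g23l.elem p.1) && g23r s₁ (L.map fun p => g23y (g23t p.1) p.2) fun R =>
    match R with
    | A :: B :: C :: G :: G' :: U :: V :: _ =>
      g23m A A == g23o && g23m G A == g23m B G && g23m G' A == g23m C G' &&
      g23m A B == g23m B A && g23m A (g23m V U) == g23m U V &&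
      g23r s₂ [A, B, C] fun R => g23l.all fun p => [0, 1].all fun z =>
        o2fl (g23y (g23t p) z) R.elem
    | _ => false

theorem g23_ok : g23c
    [((0,6),0), ((0,6),1), ((2,0),0), ((2,0),1), ((1,0),1), ((1,0),0), ((0,1),1), ((0,1),0),
    ((1,2),0), ((1,2),1), ((2,1),1), ((2,1),0)]
    [(11,9), (0,12), (0,11), (14,10), (0,9), (0,12), (12,10), (0,13), (0,18), (12,14), (0,11),
    (11,15), (0,14), (10,4), (8,0), (12,2), (5,0), (28,16), (0,28), (0,999), (19,999), (10,999),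
    (16,999), (6,999), (9,999), (22,999)]
    [(0,2), (3,1), (1,3), (4,1), (1,6), (7,1), (1,7), (8,1), (4,9), (0,11), (0,11), (0,13), (0,0),
    (0,0), (14,0), (0,15), (9,0), (0,9), (11,0), (0,11), (0,0), (14,7), (0,14), (20,0), (0,20),
    (24,0), (0,24), (0,0), (29,14), (0,30), (28,0), (0,30), (28,0), (0,30), (30,0), (0,32), (32,0),
    (0,34), (0,0), (41,25), (0,42), (33,0), (0,35), (0,0), (39,30), (0,39), (41,0), (0,41), (43,0),
    (0,43), (45,0), (0,45), (47,0), (0,47), (0,0), (49,11), (0,51), (53,0), (0,55), (0,0), (60,61),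
    (0,63), (0,63), (0,65), (0,0), (63,0), (0,65), (63,0), (0,65), (63,0), (0,65), (63,0), (0,65),
    (75,0), (0,76), (0,0), (70,11), (0,72), (71,0), (0,71), (82,0), (0,83), (76,0), (0,78), (77,0),
    (0,77), (0,0), (83,9), (0,85), (83,0), (0,85), (84,0), (0,84), (0,0), (96,29), (0,97), (88,0),
    (0,90), (96,0), (0,98), (96,0), (0,98), (0,0), (102,38), (0,102), (100,0), (0,100), (106,0),
    (0,106), (0,0), (106,39), (0,108), (104,0), (0,106), (110,0), (0,112), (0,0)] = true := by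
  decide +kernel

theorem g23_dig {n : ℕ} {f : ℕ → ℕ} (h : ∀ j, f j < 64) {k : ℕ} (hk : k < n) :
    g23e (∑ j ∈ Finset.range n, f j * 64 ^ j) k = f k := by
  induction n generalizing f k with
  | zero => omega
  | succ n ih =>
    have e : ∑ j ∈ Finset.range (n + 1), f j * 64 ^ j =
        f 0 + 64 * ∑ j ∈ Finset.range n, f (j + 1) * 64 ^ j := by
      rw [Finset.sum_range_succ', Finset.mul_sum, add_comm, pow_zero, mul_one]
      congr 1
      exact Finset.sum_congr rfl fun j _ => by ring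
    have := h 0
    rw [e]
    cases k with
    | zero => rw [g23e, pow_zero, Nat.div_one]; omega
    | succ k =>
      rw [← ih (fun j => h (j + 1)) (Nat.lt_of_succ_lt_succ hk), g23e, g23e, pow_succ',
        ← Nat.div_div_eq_div_mul]
      congr 2
      omega

theorem g23_ep (f : ℕ → ℕ) {k : ℕ} (hk : k < 8) : g23e (g23p f) k = f k % 3 :=
  g23_dig (f := fun j => f j % 3) (fun j => by omega) hk

theorem g23_rec (S : ℕ) : g23f S = g23p (g23e S) := by cases S <;> rfl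

theorem g23_cg {f g : ℕ → ℕ} (h : ∀ j < 8, f j = g j) : g23p f = g23p g :=
  Finset.sum_congr rfl fun j hj => by rw [h j (Finset.mem_range.1 hj)]

/-- The packed matrix `A` induces `σ`. -/
def G23R (σ : Equiv.Perm (Lie (CartanMatrix.D 4) K)) (A : List ℕ) : Prop :=
  ∃ F : ℕ → ℕ → ℕ, A = (List.range 8).map (fun i => g23p (F i)) ∧
    orta1_R (n := 2) (of fun i j : Fin 8 => (F i j : K)) σ

theorem g23_cast (h3 : (3 : K) = 0) (x : ℕ) : ((x % 3 : ℕ) : K) = x := by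
  conv_rhs => rw [← Nat.mod_add_div x 3]
  simp only [Nat.cast_add, Nat.cast_mul, Nat.cast_ofNat, h3, zero_mul, add_zero]

theorem G23R.eq (h3 : (3 : K) = 0) {σ τ : Equiv.Perm (Lie (CartanMatrix.D 4) K)} {A B : List ℕ}
    (p : G23R σ A) (q : G23R τ B) (e : A = B) : σ = τ := by
  obtain ⟨F, rfl, p⟩ := p
  obtain ⟨F', rfl, q⟩ := q
  refine orta1_R_eq one_le_two p ?_
  convert q using 1
  ext i j
  have := congrArg (g23e · j) (List.map_inj_left.1 e i (List.mem_range.2 i.2))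
  simp only [g23_ep _ j.2] at this
  rw [of_apply, of_apply, ← g23_cast h3, this, g23_cast h3]

theorem G23R.mul (h3 : (3 : K) = 0) {σ τ : Equiv.Perm (Lie (CartanMatrix.D 4) K)} {A B : List ℕ}
    (p : G23R σ A) (q : G23R τ B) : G23R (σ * τ) (g23m A B) := by
  obtain ⟨F, rfl, p⟩ := p
  obtain ⟨F', rfl, q⟩ := q
  refine ⟨fun i j => ∑ k ∈ Finset.range 8, F i k % 3 * (F' k j % 3), ?_, ?_⟩
  · rw [g23m, List.map_map]
    refine List.map_congr_left fun i _ => ?_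
    rw [Function.comp_apply, g23_rec]
    refine g23_cg fun j hj => ?_
    have b : ∀ x, x % 3 ≤ 2 := fun x => by omega
    have k : ∑ k ∈ Finset.range 8, g23e (g23p (F i)) k *
        ((List.range 8).map fun i => g23p (F' i)).getD k 0 =
        ∑ j ∈ Finset.range 8, (∑ k ∈ Finset.range 8, F i k % 3 * (F' k j % 3)) * 64 ^ j := by
      simp only [Finset.sum_mul]
      rw [Finset.sum_comm]
      refine Finset.sum_congr rfl fun k hk => ?_
      rw [g23_ep _ (Finset.mem_range.1 hk), o2_getD (N := 7) _ ⟨k, Finset.mem_range.1 hk⟩,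
        show g23p (F' k) = ∑ j ∈ Finset.range 8, F' k j % 3 * 64 ^ j from rfl, Finset.mul_sum]
      simp only [mul_assoc]
    rw [k, g23_dig (fun j => (Finset.sum_le_card_nsmul _ _ (2 * 2) fun k _ =>
        Nat.mul_le_mul (b _) (b _)).trans_lt (by simp)) hj]
  · convert orta1_R_mul p q using 1
    ext i j
    simp only [of_apply, mul_apply, Finset.sum_range, Nat.cast_sum, Nat.cast_mul, g23_cast h3]

theorem g23_one : G23R (K := K) 1 g23o :=
  ⟨_, rfl, by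
    convert orta1_R_one using 1
    ext i j
    simp only [Nat.reduceMul, Nat.reduceAdd, Nat.cast_ite, Nat.cast_one, Nat.cast_zero, of_apply, one_apply, Fin.ext_iff]⟩

theorem g23r_ok {P : List ℕ → Prop} (h1 : P g23o) (hm : ∀ A B, P A → P B → P (g23m A B))
    (s : List (ℕ × ℕ)) {R : List (List ℕ)} {f : List (List ℕ) → Bool} (hR : ∀ A ∈ R, P A)
    (h : g23r s R f = true) : ∃ R', (∀ A ∈ R', P A) ∧ f R' = true := by
  induction s generalizing R with
  | nil => exact ⟨R, hR, h⟩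
  | cons p s ih =>
    have g : ∀ i, P (R.getD i g23o) := fun i => by
      rw [List.getD_eq_getElem?_getD]
      cases e : R[i]? with
      | none => exact h1
      | some A => exact hR A (List.mem_of_getElem? e)
    exact ih (List.forall_mem_cons.2 ⟨hm _ _ (g _) (g _), hR⟩) ((o2fl_eq _ _).symm.trans h)

theorem g23_rt {β : Fin 4 → ℤ} (h : g2bb β β = 2) : g23i β ∈ g23l ∧ g23t (g23i β) = β ∧
    (g23i β).1 ≠ (g23i β).2 ∧ (g23i β).2 ≠ (g23i β).1.rev := by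
  obtain ⟨i, j, h1, h2, e⟩ := rtD_surj (n := 2) one_le_two ⟨β, (g2b_fm β β).trans h⟩
  obtain rfl : β = rtD i j := e
  clear h
  revert i j
  decide +kernel

theorem g23_x (h3 : (3 : K) = 0) {β : Fin 4 → ℤ} (h : g2bb β β = 2) (z : ℤ) :
    G23R ((goodD (r := 4) (by omega)).xx β ((-1 : K) ^ z)) (g23x β z) := by
  obtain ⟨-, e, h1, h2⟩ := g23_rt h
  rw [g23x]
  generalize g23i β = p at e h1 h2
  obtain ⟨i, j⟩ := p
  have sg : orta1_sg (n := 2) K i j.rev = (-1) ^ g23z i j.rev := by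
    simp only [orta1_sg, orta1_E, orta1_mu, g23z, sg_add, ep, apply_ite ((-1 : K) ^ · : ℤ → K),
      zpow_zero, zpow_one]
    rfl
  have := orta1_R_eo (n := 2) one_le_two h1 h2 ((-1 : K) ^ (g23z i j.rev + z))
  rw [sg, sg_add, ← mul_assoc, (pm_zpow _).sq, one_mul, ← sg_add] at this
  refine ⟨_, rfl, ?_⟩
  convert this using 1
  swap
  · rw [← e]; rfl
  have s : ((if Even (g23z i j.rev + z) then 1 else 2 : ℕ) : K) = (-1) ^ (g23z i j.rev + z) := by
    split_ifs with q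
    · rw [q.neg_one_zpow, Nat.cast_one]
    · rw [(Int.not_even_iff_odd.1 q).neg_one_zpow, Nat.cast_two]; linear_combination h3
  rw [← s]
  generalize (if Even (g23z i j.rev + z) then 1 else 2 : ℕ) = t
  ext k l
  have m : (2 : K) * t = -t := by linear_combination t * h3
  rw [eo, Units.val_mul, el_val h1, el_val (Fin.rev_injective.ne h1.symm), mul_add, add_mul,
    add_mul, Matrix.mul_one, Matrix.mul_one, Matrix.one_mul,
    single_mul_single_of_ne _ _ _ _ (o2_ne (n := 2) j), add_zero]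
  have r : ∀ a : Fin 8, 7 - (a : ℕ) = a.rev := fun a => by rw [Fin.val_rev]; omega
  simp only [of_apply, Matrix.add_apply, one_apply, single_apply, r, Fin.val_inj, Nat.cast_add,
    Nat.cast_ite, Nat.cast_one, Nat.cast_zero, Nat.cast_mul, Nat.cast_ofNat, m]

theorem g23_tri (h : Nat.card K = 3) : (3 : K) = 0 ∧
    ∀ s : K, s = 0 ∨ ∃ z ∈ [(0 : ℤ), 1], s = (-1) ^ z := by
  have := Nat.finite_of_card_ne_zero (h ▸ three_ne_zero)
  have := Fintype.ofFinite K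
  rw [Nat.card_eq_fintype_card] at h
  refine ⟨by simpa only [h, Nat.cast_ofNat] using FiniteField.cast_card_eq_zero K, fun s => ?_⟩
  have := FiniteField.pow_card s
  rw [h] at this
  have : s * ((s - 1) * (s + 1)) = 0 := by linear_combination this
  simpa only [List.mem_cons, List.not_mem_nil, or_false, exists_eq_or_imp, zpow_ofNat, pow_zero, ↓ existsAndEq, pow_one, true_and, mul_eq_zero, sub_eq_zero, add_eq_zero_iff_eq_neg] using this

theorem g23_main (h : Nat.card K = 3) {L s₁ s₂} (k : g23c L s₁ s₂ = true)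
    {S : St (Equiv.Perm (Lie (CartanMatrix.D 4) K)) (Fin 4 → ℤ) K}
    {θ : Equiv.Perm (Lie (CartanMatrix.D 4) K) →* Equiv.Perm (Lie (CartanMatrix.D 4) K)}
    (hB : ∀ u v, S.B u v = g2bb u v) (hR : ∀ u, S.R u ↔ g2bb u u = 2)
    (hx : ∀ β s, S.x β s = (goodD (r := 4) (by omega)).xx β s)
    (hθ : ∀ β, S.R β → ∀ s, θ (S.x β s) = S.x (g2r β) ((-1) ^ (β 1 * (β 0 + β 3)) * s))
    {N : Subgroup (Equiv.Perm (Lie (CartanMatrix.D 4) K))}
    (N1 : ∀ β, S.R β → S.B β (g2r β) = 0 → ∀ s, g3Tr θ (S.x β s) ∈ N)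
    (N2 : ∀ β, S.R β → g2r β = β → ∀ s, S.x β s ∈ N)
    (N3 : ∀ H : Subgroup _, (∀ β, S.R β → S.B β (g2r β) = 0 → ∀ s, g3Tr θ (S.x β s) ∈ H) →
      (∀ β, S.R β → g2r β = β → ∀ s, S.x β s ∈ H) → N ≤ H) : IsLeast {n | Good N n} 3 := by
  have h3 := (g23_tri h).1
  have rR : ∀ β, g2bb β β = 2 → g2bb (g2r β) (g2r β) = 2 := fun β p => by
    rw [← p]; simp only [g2bb, g2r, Fin.isValue, cons_val_zero, cons_val_one, cons_val]; ring
  have hy : ∀ β, S.R β → ∀ z : ℤ, G23R (if g2r β = β then S.x β ((-1) ^ z) else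
      g3Tr θ (S.x β ((-1) ^ z))) (g23y β z) := fun β p z => by
    have p1 := (hR _).1 p
    rw [g23y]
    split_ifs
    · rw [hx]; exact g23_x h3 p1 z
    · rw [g3Tr, hθ β p, hθ _ ((hR _).2 (rR _ p1)), ← sg_add, ← sg_add, hx, hx, hx]
      exact ((g23_x h3 p1 z).mul h3 (g23_x h3 (rR _ p1) _)).mul h3 (g23_x h3 (rR _ (rR _ p1)) _)
  have cl : ∀ H : Subgroup (Equiv.Perm (Lie (CartanMatrix.D 4) K)), ∀ A B, (∃ g ∈ H, G23R g A) →
      (∃ g ∈ H, G23R g B) → ∃ g ∈ H, G23R g (g23m A B) :=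
    fun H A B ⟨a, p, q⟩ ⟨b, p', q'⟩ => ⟨_, mul_mem p p', q.mul h3 q'⟩
  rw [g23c, Bool.and_eq_true] at k
  obtain ⟨R, hR', k⟩ := g23r_ok (P := fun A => ∃ g ∈ N, G23R g A) ⟨1, one_mem _, g23_one⟩ (cl _) _
    (fun A hA => by
      obtain ⟨p, hp, rfl⟩ := List.mem_map.1 hA
      have : ∀ p ∈ g23l, g2bb (g23t p) (g23t p) = 2 := by decide +kernel
      have q := this _ (List.mem_of_elem_eq_true (List.all_eq_true.1 k.1 p hp))
      refine ⟨_, ?_, hy _ ((hR _).2 q) p.2⟩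
      split_ifs with e
      · exact N2 _ ((hR _).2 q) e _
      · exact N1 _ ((hR _).2 q) (hB _ _ ▸ ((g2b_roots q).resolve_left fun c => e c.1).1) _) k.2
  obtain _ | ⟨A, _ | ⟨B, _ | ⟨C, _ | ⟨G, _ | ⟨G', _ | ⟨U, _ | ⟨V, R⟩⟩⟩⟩⟩⟩⟩ := R <;>
    try exact (Bool.false_ne_true k).elim
  simp only [List.forall_mem_cons] at hR'
  obtain ⟨⟨a, ma, pa⟩, ⟨b, mb, pb⟩, ⟨c, mc, pc⟩, ⟨g, mg, pg⟩, ⟨g', mg', pg'⟩, ⟨u, mu, pu⟩,
    ⟨v, mv, pv⟩, -⟩ := hR'
  simp only [Bool.and_eq_true, beq_iff_eq] at k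
  obtain ⟨⟨⟨⟨⟨e1, e2⟩, e3⟩, e4⟩, e5⟩, e6⟩ := k
  have eb := mul_inv_eq_iff_eq_mul.2 ((pg.mul h3 pa).eq h3 (pb.mul h3 pg) e2)
  have ec := mul_inv_eq_iff_eq_mul.2 ((pg'.mul h3 pa).eq h3 (pc.mul h3 pg') e3)
  have gen : ∀ H : Subgroup _, a ∈ H → b ∈ H → c ∈ H → N ≤ H := fun H ha hb hc => by
    obtain ⟨R, hR', k⟩ := g23r_ok (P := fun A => ∃ g ∈ H, G23R g A) ⟨1, one_mem _, g23_one⟩ (cl _) _
      (by simp only [List.forall_mem_cons]; exact ⟨⟨a, ha, pa⟩, ⟨b, hb, pb⟩, ⟨c, hc, pc⟩, by simp only [List.not_mem_nil, IsEmpty.forall_iff, implies_true]⟩) e6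
    have key : ∀ β, S.R β → ∀ s, (if g2r β = β then S.x β s else g3Tr θ (S.x β s)) ∈ H := by
      intro β p s
      rcases (g23_tri h).2 s with rfl | ⟨z, hz, rfl⟩
      · simp [S.x_zero p, g3Tr]
      obtain ⟨q1, q2, -⟩ := g23_rt ((hR _).1 p)
      have := List.all_eq_true.1 (List.all_eq_true.1 k _ q1) z hz
      rw [o2fl_eq, q2] at this
      obtain ⟨y, my, py⟩ := hR' _ (List.mem_of_elem_eq_true this)
      exact py.eq h3 (hy β p z) rfl ▸ my
    refine N3 H (fun β p o s => ?_) fun β p e s => by simpa only [e, if_true] using key β p s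
    have := key β p s
    rwa [if_neg fun e => by rw [e, S.R2 β p] at o; omega] at this
  refine g2a_three N (fun hs => ?_) ma ((pa.mul h3 pa).eq h3 g23_one e1) ⟨g, mg, eb⟩ ⟨g', mg', ec⟩
    ((pa.mul h3 pb).eq h3 (pb.mul h3 pa) e4) gen
  have ca : a ∈ ⁅N, N⁆ := by
    have : a = ⁅u, v⁆ := by
      rw [commutatorElement_def, ← (pa.mul h3 (pv.mul h3 pu)).eq h3 (pu.mul h3 pv) e5]; group
    exact this ▸ commutator_mem_commutator mu mv
  have cj : ∀ g ∈ N, g * a * g⁻¹ ∈ ⁅N, N⁆ := fun g mg => by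
    convert mul_mem (commutator_mem_commutator mg ma) ca using 1
    rw [commutatorElement_def]; group
  have r1 : S.R ![0, 1, 0, 0] := (hR _).2 (by decide)
  have ne : (⊤ : Subgroup N) ≠ ⊥ := fun e => by
    have := mem_top (⟨_, N2 _ r1 (by decide) 1⟩ : N)
    rw [e, mem_bot, Subtype.ext_iff] at this
    exact one_ne_zero (S.x_eq_one r1 this)
  refine (Group.IsSolvable.commutator_lt_of_ne_bot ne).not_ge ?_
  rw [← map_le_map_iff_of_injective N.subtype_injective, map_commutator, ← MonoidHom.range_eq_map,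
    range_subtype]
  exact gen _ ca (eb ▸ cj g mg) (ec ▸ cj g' mg')

/-- The group `G₂ (3)`. -/
theorem tG23 {φ : K →+* K} (hφ : ∀ s, φ (φ (φ s)) = s) (h : Nat.card K = 3) : IsLeast {n | Good
    (chev (CartanMatrix.D 4) (Equiv.swap 0 3 * Equiv.swap 0 2) φ) n} 3 := by
  obtain ⟨S, θ, hB, hR, hx, hθ, -, k⟩ := g2l_link hφ
  obtain ⟨N1, N2, N3, -⟩ := k _ rfl
  have f : ∀ s, φ s = s := fun s => by
    rcases (g23_tri h).2 s with rfl | ⟨z, -, rfl⟩ <;> simp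
  exact g23_main h g23_ok hB hR hx (by simpa only [f] using hθ) N1 (fun β p e s => N2 β p e s (f s))
    fun H p q => N3 H p fun β r e s _ => q β r e s

end Pool.Agent.MP_c78e8e_al.H75

end
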