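import Pool.Agent.MP_c78e8e_al.Sg.Clas
import Pool.Agent.MP_c78e8e_al.Sg.CA
import Pool.Agent.MP_c78e8e_al.Sg.CB
import Pool.Agent.MP_c78e8e_al.Sg.CC
import Pool.Agent.MP_c78e8e_al.Sg.CD
import Pool.Agent.MP_c78e8e_al.Sg.CX
import Pool.Agent.MP_c78e8e_al.Sg.CY
import Pool.Agent.MP_c78e8e_al.Mg.Sg_Mon
import Pool.Agent.MP_c78e8e_al.Mg.Sg_Ort
import Pool.Agent.MP_c78e8e_al.Sg.Sl2
import Pool.Agent.MP_c78e8e_al.Mg.Sg_O2

attribute [-instance] IsMulCommutative.is_comm instNoNatZeroDivisorsOfIsAddTorsionFree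
  Units.instPreorder UniformSpace.toTopologicalSpace instCharZeroOfIsSemireal littleWedderburn
  AddCommGroup.toGrindIntModule MonTypeEquivalenceMon.monMonoid Preorder.toLE Pi.addCommMonoid
  CommRing.toGrindCommRing FloorSemiring.instCharZero IdemSemiring.toSemiring
  FiniteField.instGrindPowIdentity NonUnitalNonAssocSemiring.toAddCommMonoid Preorder.toLT
  Ring.toSemiring BooleanRing.instIdempotentOpHMul SubsemiringClass.toSubmonoidClass RKHS.instFunLike
  Ring.toGrindRing RCLike.charZero_rclike CommMonTypeEquivalenceCommMon.commMonCommMonoid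
  instIsRightCancelAddOfAddRightReflectLE instCommGroupOfIsSimpleGroupOfIsNilpotent
  CommSemiring.toGrindCommSemiring CommGrpTypeEquivalenceCommGrp.commGrpCommGroup
  NumberField.to_charZero NormedCommRing.toCommRing MonoidWithZero.toSemigroupWithZero
  MonoidWithZero.toMulZeroOneClass NonUnitalRing.toNonUnitalSemiring NormedField.toField
  SeminormedCommRing.toCommRing instCoeOTCOfCoeTC EuclideanDomain.toCommRing
  GrpTypeEquivalenceGrp.grpGroup SemilinearMapClass.toAddHomClass Std.PreorderPackage.toLE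
  Semiring.toGrindSemiring NonUnitalNormedCommRing.toNonUnitalCommRing
  DistribMulActionSemiHomClass.toAddMonoidHomClass CompletePartialOrder.toPartialOrder
  AddCommGroup.toAddCommMonoid IsStrictOrderedRing.toCharZero Fintype.decidableForallFintype
  SeminormedCommGroup.toCommGroup ContinuousMonoidHom.instCoeOutOfMonoidHomClassOfContinuousMapClass
  ESeminormedAddCommMonoid.toAddCommMonoid BooleanRing.toRing NonUnitalRingHomClass.toMulHomClass
  Std.PreorderPackage.toLT FunLike.toDecidableEq NeZero.of_gt' IdemCommSemiring.toCommSemiring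
  GroupConeClass.toSubmonoidClass NormedRing.toRing GroupWithZero.toDivisionMonoid
  LinearOrder.toDecidableEq Semiring.toNonUnitalSemiring AddCommMonoidWithOne.toAddCommMonoid
  OmegaCompletePartialOrder.toPartialOrder BooleanRing.toCommRing
  AddCommGroupWithOne.toAddGroupWithOne Unique.instSubsingleton MonoidWithZero.toMonoid
  CommSemiring.toNonUnitalCommSemiring LieAdmissibleRing.toNonUnitalNonAssocRing
  NonUnitalSeminormedCommRing.toNonUnitalCommRing NonAssocCommSemiring.toNonAssocSemiring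
  LieRing.toAddCommGroup CommMonoidWithZero.toCommMonoid Std.LinearPreorderPackage.toIsLinearPreorder
  NormedAlgebra.toAlgebra instOrderedRingOfIsStrictOrderedRing
  LinearOrderedCommGroupWithZero.toCommGroupWithZero
  CategoryTheory.Limits.Concrete.instUniqueToTypeTerminal
  LinearOrderedAddCommMonoidWithTop.toAddCommMonoid NonUnitalRing.toNonUnitalNonAssocRing
  instCoeOutOfCoeFun Invertible.toNeZero decidableEq_of_subsingleton NormMulClass.toNoZeroDivisors
  SeminormedRing.toRing NonAssocRing.toNonAssocSemiring ESeminormedCommMonoid.toCommMonoid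
  SubringClass.toSubsemiringClass NeZero.charZero_one RingConeClass.toSubsemiringClass
  NormedCommGroup.toCommGroup DivisionRing.toDivisionSemiring GradedMonoid.GradeZero.commMonoid
  CommSemiring.toCommMonoid IsometryClass.instCoeOutIsometryEquiv AddCancelCommMonoid.toAddCommMonoid
  GroupWithZero.toDivInvMonoid NormedDivisionRing.toDivisionRing CommRing.toRing
  SubtractionCommMonoid.toAddCommMonoid
  ContinuousAddMonoidHom.instCoeOutOfAddMonoidHomClassOfContinuousMapClass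

-- part MP_c78e8e_al.Sg.High
section

namespace Pool.Agent.MP_c78e8e_al.H75

variable {K : Type} [Field K] {φ : K →+* K}

theorem mdO (h : (2 : K) ≠ 0) (x y : Bool) : Md φ false x false y :=
  ⟨by simp, fun _ => ⟨2⁻¹, by rw [map_inv₀, map_ofNat]; field_simp; norm_num⟩, by simp, fun _ => h⟩

theorem m2 (h : (2 : K) = 0) : (-1 : K) = 1 := by linear_combination -h

theorem mdE (h : (2 : K) = 0) (x : Bool) : Md φ x false false false :=
  ⟨fun _ => m2 h, by simp, by simp, by simp⟩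

theorem mdI (h : (2 : K) = 0) (e : φ = RingHom.id K) (x y : Bool) : Md φ x false y false :=
  ⟨fun _ => m2 h, by simp, fun _ => by simp [e], by simp⟩

theorem mdT (hφ : ∀ s, φ (φ s) = s) (h : (2 : K) = 0) (e : φ ≠ RingHom.id K) (x y : Bool) :
    Md φ x y false false := by
  refine ⟨fun _ => m2 h, fun _ => ?_, by simp, by simp⟩
  obtain ⟨s, hs⟩ : ∃ s, s + φ s ≠ 0 := by
    by_contra hn
    push Not at hn
    exact e (RingHom.ext fun s => by linear_combination hn s - s * h)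
  refine ⟨s / (s + φ s), ?_⟩
  rw [map_div₀, map_add, hφ, add_comm (φ s), ← add_div, div_self hs]

theorem mdP (h : (2 : K) ≠ 0) (e : φ = RingHom.id K) : Md φ false true true true :=
  { mdO h true true with mid := fun _ => by simp [e] }

theorem nid (e : φ ≠ RingHom.id K) : true → ¬ ∀ s, φ s = s := fun _ h => e (RingHom.ext h)

variable [Finite K] (hφ : ∀ s, φ (φ s) = s)
include hφ

theorem mainI {r : ℕ} (h : r = 6 ∨ 8 ≤ r) : IsLeast {n | Good (chev (CartanMatrix.A r) 1 φ) n} 3 := by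
  obtain ⟨S, e, -, ⟨R⟩⟩ := frameI (r := r) hφ (by omega)
  rw [← e]
  by_cases p : (2 : K) = 0
  · exact famIe R (mdE p) (by omega)
  · exact famIo R (mdO p) (by omega)

theorem mainD0 {r : ℕ} (h : 7 ≤ r) : IsLeast {n | Good (chev (CartanMatrix.D r) 1 φ) n} 3 := by
  obtain ⟨S, e, -, ⟨R⟩⟩ := frameD0 (r := r) hφ (by omega)
  rw [← e]
  by_cases p : (2 : K) = 0
  · exact famDe R (mdE p) h
  · exact famDo R (mdO p) h

theorem mainD {n : ℕ} (h : 6 ≤ n) : IsLeast {k | Good (chev (CartanMatrix.D (n + 2))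
    (Equiv.swap (Fin.last n).castSucc (Fin.last (n + 1))) φ) k} 3 := by
  obtain ⟨S, e, -, ⟨R⟩⟩ := frameD (n := n) hφ (by omega)
  rw [← e]
  by_cases p : (2 : K) = 0
  · exact famBe R (mdE p) (by omega)
  · exact famBo R (mdO p) (by omega)

theorem mainC {r n : ℕ} (h : n = 5 ∨ 7 ≤ n) (hr : r + 1 = 2 * n) :
    IsLeast {k | Good (chev (CartanMatrix.A r) Fin.revPerm φ) k} 3 := by
  obtain ⟨S, e, e', ⟨R⟩⟩ := frameC hφ (by omega) hr
  rw [← e]
  by_cases p : (2 : K) = 0
  · by_cases q : φ = RingHom.id K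
    · exact famCi R (mdI p (e'.trans q)) h
    · exact famCt R (mdT (e' ▸ hφ) p (e' ▸ q)) h
  · exact famCo R (mdO p) h

theorem mainX {n : ℕ} (h : 9 ≤ n) (q : φ ≠ RingHom.id K) :
    IsLeast {k | Good (chev (CartanMatrix.A (2 * n)) Fin.revPerm φ) k} 3 := by
  obtain ⟨S, e, e', ⟨R⟩⟩ := frameX (n := n) hφ (by omega) q
  rw [← e]
  by_cases p : (2 : K) = 0
  · exact famXe R (mdT (e' ▸ hφ) p (e' ▸ q)) (by omega)
  · exact famXo R (mdO p) h

theorem mainA' {r : ℕ} (h : r = 9 ∨ r = 13 ∨ r = 15 ∨ 17 ≤ r)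
    (q : (∃ i, CartanMatrix.A r i (Fin.revPerm i) = -1) → φ ≠ RingHom.id K) :
    IsLeast {k | Good (chev (CartanMatrix.A r) Fin.revPerm φ) k} 3 := by
  obtain ⟨n, rfl | e⟩ := Nat.even_or_odd' r
  · refine mainX hφ (by omega) (q ⟨⟨n - 1, by omega⟩, ?_⟩)
    simp only [CartanMatrix.A, Matrix.of_apply, Fin.ext_iff, Fin.revPerm_apply, Fin.val_rev]
    split_ifs <;> first | omega | rfl
  · exact mainC hφ (n := n + 1) (by omega) (by omega)

theorem mainE6 : IsLeast {k | Good (chev CartanMatrix.E₆ 1 φ) k} 3 :=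
  exc hφ good6 (fun _ => rfl) (fun _ _ => rfl) (by simp) (by omega) B6 (fun _ => rfl)
    ⟨by simp, by simp, by simp, by simp⟩ cE6u

theorem mainE7 : IsLeast {k | Good (chev CartanMatrix.E₇ 1 φ) k} 3 := by
  by_cases p : (2 : K) = 0
  · exact exc hφ good7 (fun _ => rfl) (fun _ _ => rfl) (by simp) (by omega) B7 (fun _ => rfl)
      (mdE p _) cE7e
  · exact exc hφ good7 (fun _ => rfl) (fun _ _ => rfl) (by simp) (by omega) B7 (fun _ => rfl)
      (mdO p _ _) cE7o

theorem mainE8 : IsLeast {k | Good (chev CartanMatrix.E₈ 1 φ) k} 3 :=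
  exc hφ good8 (fun _ => rfl) (fun _ _ => rfl) (by simp) (by omega) B8 (fun _ => rfl)
    ⟨by simp, by simp, by simp, by simp⟩ cE8u

theorem mainF : IsLeast {k | Good (chev CartanMatrix.E₆ (Equiv.swap 0 5 * Equiv.swap 2 4) φ) k} 3 := by
  by_cases p : (2 : K) = 0
  · exact exc hφ good6 (by decide) (by decide) (by decide) (by omega) B6 rho6 (mdE p _) cFe
  · exact exc hφ good6 (by decide) (by decide) (by decide) (by omega) B6 rho6 (mdO p _ _) cFo

end Pool.Agent.MP_c78e8e_al.H75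

end

-- part MP_c78e8e_al.Sg.L
section

section

namespace Pool.Agent.MP_c78e8e_al.H75

open Subgroup Matrix
open scoped commutatorElement

variable {N : ℕ} {K : Type} [Field K] {H : Subgroup (GL (Fin (N + 1)) K)}

/-- Division by an integer prime to the characteristic. -/
theorem l1_div [Finite K] {G : Type} [Group G] {H : Subgroup G} (X : K → G)
    (hX : ∀ s t, X (s + t) = X s * X t) {k : ℕ} (k0 : (k : K) ≠ 0) {s : K} (h : X (k * s) ∈ H) :
    X s ∈ H := by
  have z : X 0 = 1 := by simpa using hX 0 0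
  have p : ∀ n : ℕ, X (n * (k * s)) ∈ H := fun n => by
    induction n with
    | zero => simp only [Nat.cast_zero, zero_mul, z, one_mem]
    | succ n ih => rw [Nat.cast_succ, add_mul, one_mul, hX]; exact mul_mem ih h
  have := Fintype.ofFinite K
  have e := FiniteField.pow_card_sub_one_eq_one _ k0
  obtain ⟨n, hn⟩ : ∃ n, Fintype.card K - 1 = n + 1 :=
    ⟨Fintype.card K - 2, by have := Fintype.one_lt_card (α := K); omega⟩
  have := p (k ^ n)
  rwa [Nat.cast_pow, ← mul_assoc, ← pow_succ, ← hn, e, one_mul] at this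

theorem l1_neg {i j : Fin (N + 1)} {s : K} (h : el i j s ∈ H) : el i j (-s) ∈ H := by
  rw [el_neg]; exact inv_mem h

theorem l1_rel {i j k : Fin (N + 1)} {s t : K} (p : el i j s ∈ H) (q : el j k t ∈ H) (h : i ≠ j)
    (h' : j ≠ k) (h'' : i ≠ k) : el i k (s * t) ∈ H := by
  rw [← el_rel h h' h'', commutatorElement_def]
  exact mul_mem (mul_mem (mul_mem p q) (inv_mem p)) (inv_mem q)

theorem l1_r {i j k : Fin (N + 1)} {t : K} (p : Pe H i j) (q : el j k t ∈ H) (t0 : t ≠ 0)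
    (h : i ≠ j) (h' : j ≠ k) (h'' : i ≠ k) : Pe H i k := fun s => by
  simpa [t0] using l1_rel (p (s / t)) q h h' h''

theorem l1_l {i j k : Fin (N + 1)} {t : K} (p : el i j t ∈ H) (q : Pe H j k) (t0 : t ≠ 0)
    (h : i ≠ j) (h' : j ≠ k) (h'' : i ≠ k) : Pe H i k := fun s => by
  simpa [mul_div_cancel₀ _ t0] using l1_rel p (q (s / t)) h h' h''

theorem l1_mon {i j : Fin (N + 1)} {s : K} {π : Equiv.Perm (Fin (N + 1))} {d : Fin (N + 1) → Kˣ}
    (m : mon π d ∈ H) (p : el i j s ∈ H) : el (π i) (π j) (d i * s / d j) ∈ H :=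
  mon_el π d i j s ▸ mul_mem (mul_mem m p) (inv_mem m)

/-- The field is generated by going back and forth along an edge. -/
theorem l1_loop [Finite K] {i j k : Fin (N + 1)} {a s t : K} (sp : Spn (s * t)) (a0 : a ≠ 0)
    (p : el i j a ∈ H) (q : el j k s ∈ H) (q' : el k j t ∈ H) (h : i ≠ j) (h' : j ≠ k)
    (h'' : i ≠ k) : Pe H i j :=
  sp.ind (P := fun s => el i j s ∈ H) (fun x y u v => el_add i j x y ▸ mul_mem u v) a0 p fun u hu => by
    rw [mul_comm, ← mul_assoc]
    exact l1_rel (l1_rel hu q h h' h'') q' h'' h'.symm h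

/-- Separation of two commuting root elements by a sign matrix. -/
theorem l1_sep [Finite K] (h2 : (2 : K) ≠ 0) {i j k l : Fin (N + 1)} {s t : K}
    {d : Fin (N + 1) → Kˣ} (m : mon 1 d ∈ H) (p : el i j s * el k l t ∈ H) (h : j ≠ k) (h' : l ≠ i)
    (e : d i = -d j) (e' : d k = d l) : el i j s ∈ H ∧ el k l t ∈ H := by
  have q := mul_mem p (mul_mem (mul_mem m p) (inv_mem m))
  rw [← conj_mul, mon_el, mon_el, e, e'] at q
  simp only [Equiv.Perm.coe_one, id, Units.val_neg, neg_mul, neg_div, ne_eq, Units.ne_zero,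
    not_false_eq_true, mul_div_cancel_left₀] at q
  rw [(el_comm h h' s t).eq, mul_assoc, ← mul_assoc (el i j s), ← el_add, add_neg_cancel, el_zero,
    one_mul, ← el_add, ← two_mul] at q
  have := l1_div (el k l) (el_add k l) (k := 2) (by simpa using h2) (by simpa using q)
  exact ⟨(mul_mem_cancel_right this).1 p, this⟩

/-- The matrix diagonalising a transposition. -/
def l1P (i j : Fin (N + 1)) : GL (Fin (N + 1)) K := el j i 1 * el i j (-2⁻¹)

theorem l1P_mem (i j : Fin (N + 1)) : l1P i j ∈ slg N K := mul_mem (el_slg _ _ _) (el_slg _ _ _)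

theorem l1_swap (h2 : (2 : K) ≠ 0) {i j : Fin (N + 1)} (h : i ≠ j) {π : Equiv.Perm (Fin (N + 1))}
    {d : Fin (N + 1) → Kˣ} (p : π i = i) (p' : π j = j) (e : d i = 1) (e' : d j = -1) :
    l1P i j * mon π d * (l1P i j)⁻¹ = mon (Equiv.swap j i * π) (Function.update d j 1) := by
  have a : ∀ s, mon π d * el i j s = el i j (-s) * mon π d := fun s => by
    rw [mon_mul_el, p, p', e, e']; simp [div_neg]
  have b : ∀ s, mon π d * el j i s = el j i (-s) * mon π d := fun s => by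
    rw [mon_mul_el, p, p', e, e']; simp
  have c := mon_swap (K := K) h.symm 1
  have f : (-2⁻¹ + -2⁻¹ : K) = -1⁻¹ := by field_simp; ring
  rw [Units.val_one] at c
  rw [l1P, _root_.mul_inv_rev, ← el_neg, ← el_neg, ← mul_assoc, mul_assoc _ (mon π d), a, ← mul_assoc,
    mul_assoc _ (mon π d), b, neg_neg, neg_neg, mul_assoc (el j i 1), ← el_add, f, ← mul_assoc,
    c, mon_mul]
  refine mon_congr (fun _ => rfl) fun k => ?_
  by_cases k1 : k = j
  · simp [k1, p', e', h.symm]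
  by_cases k2 : k = i
  · simp [k2, p, e, h]
  rw [if_neg fun u => k2 (π.injective (u.trans p.symm)),
    if_neg fun u => k1 (π.injective (u.trans p'.symm)), one_mul, Function.update_of_ne k1]

theorem l1_pow {G : Type} [Group G] {b m U : G} (h1 : b * U * b⁻¹ = U⁻¹) (h2 : m * U * m⁻¹ = U⁻¹)
    (h3 : (b * m) ^ 4 = 1) : (b * (U * m)) ^ 4 = U⁻¹ ^ 4 := by
  have c : Commute U⁻¹ (b * m) := by
    refine Commute.inv_left ?_
    have : b * m * U * (b * m)⁻¹ = U := by
      calc _ = b * (m * U * m⁻¹) * b⁻¹ := by group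
        _ = (b * U * b⁻¹)⁻¹ := by rw [h2]; group
        _ = U := by rw [h1, inv_inv]
    exact (mul_inv_eq_iff_eq_mul.1 this).symm
  have e : b * (U * m) = U⁻¹ * (b * m) := by rw [← h1]; group
  rw [e, c.mul_pow, h3, mul_one]

theorem l1_gen [Finite K] : ∃ y : K, y ≠ 0 ∧ Spn y ∧ Spn (y * y) := by
  obtain ⟨t, t0, ht⟩ := sl2f_gen (K := K)
  refine ⟨t, t0, spn_sq fun s s0 => ?_, spn_sq fun s s0 => ?_⟩
  · obtain ⟨n, e⟩ := ht _ (pow_ne_zero 2 s0)
    exact ⟨n, e.symm⟩
  · obtain ⟨n, rfl⟩ := ht _ s0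
    exact ⟨n, by ring⟩

theorem l1_four (h2 : (2 : K) ≠ 0) : ((4 : ℕ) : K) ≠ 0 := by
  rw [show ((4 : ℕ) : K) = 2 * 2 by norm_num]; exact mul_ne_zero h2 h2

theorem l1_cl {i j k : Fin (N + 1)} (h : i ≠ j) (h' : j ≠ k) (h'' : i ≠ k) (s t : K) :
    el i j s * el j k t * (el i j s)⁻¹ = el i k (s * t) * el j k t := by
  rw [← el_rel h h' h'', commutatorElement_def, inv_mul_cancel_right]

theorem l1_cr {i j k : Fin (N + 1)} (h : i ≠ j) (h' : j ≠ k) (h'' : i ≠ k) (s t : K) :
    el j k t * el i j s * (el j k t)⁻¹ = el i k (-(s * t)) * el i j s := by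
  rw [← el_rel' h h' h'', commutatorElement_def, inv_mul_cancel_right]

theorem l1_cj {G : Type} [Group G] {H : Subgroup G} {a b : G} (p : a ∈ H) (q : b ∈ H) :
    a * b * a⁻¹ ∈ H := mul_mem (mul_mem p q) (inv_mem p)

theorem l1_half (h2 : (2 : K) ≠ 0) {G : Type} [Group G] {X : K → G}
    (hX : ∀ s t, X (s + t) = X s * X t) {m : G} {y : K} (h : ∀ s, m * X s * m⁻¹ = (X s)⁻¹) :
    X (y / 2) * m * (X (y / 2))⁻¹ = X y * m := by
  have : m * (X (y / 2))⁻¹ * m⁻¹ = X (y / 2) := by rw [← conj_inv, h, inv_inv]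
  rw [mul_assoc, ← mul_inv_eq_iff_eq_mul, mul_assoc, this, ← hX, ← two_mul, mul_div_cancel₀ _ h2]

theorem tL4 [Finite K] (h : (2 : K) ≠ 0) :
    IsLeast {n | Good (chev (CartanMatrix.A 3) 1 (RingHom.id K)) n} 3 := by
  obtain ⟨y, y0, -, sp⟩ := l1_gen (K := K)
  set b : GL (Fin 4) K := mon 1 ![1, 1, -1, -1] with hb
  set m : GL (Fin 4) K := mon (Equiv.swap 2 1) ![1, 1, 1, -1] with hm
  set n : GL (Fin 4) K := mon (Equiv.swap 1 0) ![1, 1, 1, -1] with hn
  have bs : b ∈ slg 3 K := mon_slg (by simp [Fin.prod_univ_four])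
  have ms : m ∈ slg 3 K := mon_slg (by simp only [Nat.reduceAdd, Fin.isValue, Equiv.Perm.sign_swap', Fin.reduceEq, ↓ reduceIte, Units.val_neg, Units.val_one, Int.reduceNeg, Int.cast_neg, Int.cast_one, Fin.prod_univ_four, cons_val_zero, cons_val_one, mul_one, cons_val, mul_neg, neg_neg])
  have mb : m * b * m⁻¹ = mon 1 ![1, -1, 1, -1] := by
    rw [mon_conj]
    exact mon_congr (by simp) fun i => by fin_cases i <;> simp only [Nat.reduceAdd, Fin.isValue, Equiv.swap_inv, Fin.zero_eta, Equiv.swap_apply_def, Fin.reduceEq, ↓ reduceIte, zero_ne_one, Equiv.Perm.coe_one, id_eq, cons_val_zero, mul_one, inv_one, Nat.succ_eq_add_one, Fin.mk_one, Equiv.swap_apply_right, cons_val, mul_neg, cons_val_one, Fin.reduceFinMk, Equiv.swap_apply_left, neg_neg, inv_neg]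
  have e1 : l1P 1 2 * b * (l1P 1 2)⁻¹ = m := by
    rw [l1_swap h (by decide) rfl rfl rfl rfl]
    exact mon_congr (by simp) fun i => by fin_cases i <;> simp
  have e2 : l1P 0 1 * (m * b * m⁻¹) * (l1P 0 1)⁻¹ = n := by
    rw [mb, l1_swap h (by decide) rfl rfl rfl rfl]
    exact mon_congr (by simp) fun i => by fin_cases i <;> simp
  have m30 : ∀ s, m * el 3 0 s * m⁻¹ = (el 3 0 s)⁻¹ := fun s => by
    rw [mon_el, ← el_neg]; simp [Equiv.swap_apply_def]
  have n23 : ∀ s, n * el 2 3 s * n⁻¹ = (el 2 3 s)⁻¹ := fun s => by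
    rw [mon_el, ← el_neg]; simp [Equiv.swap_apply_def, div_neg]
  have b23 : Commute b (el 2 3 1) := mul_inv_eq_iff_eq_mul.1 (by rw [mon_el]; simp)
  have bn : Commute b n := by
    rw [Commute, SemiconjBy, mon_mul, mon_mul]
    exact mon_congr (by simp) fun i => by fin_cases i <;> simp [Equiv.swap_apply_def]
  have ea : el 2 3 1 * n = el 2 3 (1 / 2) * l1P 0 1 * m * b * (el 2 3 (1 / 2) * l1P 0 1 * m)⁻¹ := by
    rw [← l1_half h (el_add 2 3) n23, ← e2]; group
  have ec : el 3 0 y * m = el 3 0 (y / 2) * l1P 1 2 * b * (el 3 0 (y / 2) * l1P 1 2)⁻¹ := by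
    rw [← l1_half h (el_add 3 0) m30, ← e1]; group
  have g1 := mul_mem (mul_mem (el_slg 2 3 (1 / 2 : K)) (l1P_mem 0 1)) ms
  have g2 := mul_mem (el_slg (N := 3) 3 0 (y / 2 : K)) (l1P_mem 1 2)
  refine goodSL (by norm_num) bs (ea ▸ l1_cj g1 bs) (mul_mem (el_slg 3 0 y) ms) g1 g2 ?_
    (sc_of_eq ea) (sc_of_eq ec) (sc_of_eq (b23.mul_right bn).eq) fun H _ pb pa pc => ?_
  · rw [mon_mul, sc_mon]
    exact ⟨by simp, fun i => by fin_cases i <;> simp⟩
  have t : el 3 0 y ∈ H := by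
    have := pow_mem (mul_mem pb pc) 4
    rw [l1_pow (by rw [mon_el, ← el_neg]; simp) (m30 y) (by
      rw [mon_mul, mon_pow]
      exact mon_eq_one (by decide) fun i => by
        fin_cases i <;> simp only [Nat.reduceAdd, Fin.isValue, one_mul, Fin.zero_eta, Equiv.swap_apply_def, Finset.prod_range_succ, Finset.range_one, Finset.prod_singleton, pow_zero, Equiv.Perm.coe_one, id_eq, Fin.reduceEq, ↓ reduceIte, zero_ne_one, cons_val_zero, mul_one, pow_succ, Equiv.swap_mul_self, Fin.mk_one, cons_val, cons_val_one, Equiv.swap_apply_right, mul_neg, neg_neg, Fin.reduceFinMk, Equiv.swap_apply_left]),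
      inv_pow, inv_mem_iff] at this
    refine l1_div (el 3 0) (el_add 3 0) (l1_four h) ?_
    convert this using 1
    rw [show ((4 : ℕ) : K) * y = y + y + y + y by push_cast; ring]
    simp [el_add, pow_succ]
  have pm := (mul_mem_cancel_left t).1 pc
  have pd := mb ▸ l1_cj pm pb
  have cj : ∀ i j s, el i j s ∈ H → el 2 3 1 * (n * el i j s * n⁻¹) * (el 2 3 1)⁻¹ ∈ H :=
    fun i j s q => by convert l1_cj pa q using 1; group
  have s1 := cj _ _ _ t
  rw [mon_el] at s1
  simp only [Nat.reduceAdd, Fin.isValue, Equiv.swap_apply_def, Fin.reduceEq, ↓ reduceIte, Equiv.swap_apply_right, cons_val, Units.val_neg, Units.val_one, neg_mul, one_mul, cons_val_zero, div_one] at s1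
  rw [l1_cl (by decide) (by decide) (by decide)] at s1
  obtain ⟨p21, p31⟩ := l1_sep h pd s1 (by decide) (by decide) (by simp) (by simp)
  have p12 := l1_mon pm p21
  simp [Equiv.swap_apply_def] at p12 p21
  have y1 : -y ≠ 0 := neg_ne_zero.2 y0
  have q31 : Pe H 3 1 := l1_loop (by simpa using sp) y1 p31 p12 p21 (by decide) (by decide) (by decide)
  have s2 : ∀ s, el 3 0 s ∈ H ∧ el 2 0 s ∈ H := fun s => by
    have s1 := cj _ _ _ (q31 (-s))
    rw [mon_el] at s1
    simp only [Nat.reduceAdd, Fin.isValue, Equiv.swap_apply_def, Fin.reduceEq, ↓ reduceIte, Equiv.swap_apply_left, cons_val, Units.val_neg, Units.val_one, mul_neg, neg_mul, one_mul, neg_neg, cons_val_one, cons_val_zero, div_one] at s1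
    rw [l1_cl (by decide) (by decide) (by decide), (el_comm (by decide) (by decide) _ _).eq] at s1
    simpa using l1_sep h pd s1 (by decide) (by decide) (by simp) (by simp)
  have q20 : Pe H 2 0 := fun s => (s2 s).2
  have q10 : Pe H 1 0 := q20.mon pm
  have s3 := cj _ _ _ p12
  rw [mon_el] at s3
  simp only [Nat.reduceAdd, Fin.isValue, Equiv.swap_apply_left, Equiv.swap_apply_def, Fin.reduceEq, ↓ reduceIte, cons_val_one, cons_val_zero, Units.val_one, mul_neg, one_mul, cons_val, div_one] at s3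
  rw [l1_cr (by decide) (by decide) (by decide)] at s3
  obtain ⟨p03, p02⟩ := l1_sep h pd s3 (by decide) (by decide) (by simp) (by simp)
  have q12 : Pe H 1 2 := l1_r q10 p02 y1 (by decide) (by decide) (by decide)
  have q21 : Pe H 2 1 := q12.mon pm
  intro i s
  fin_cases i
  · exact ⟨l1_l p02 q21 y1 (by decide) (by decide) (by decide) s, q10 s⟩
  · exact ⟨q12 s, q21 s⟩
  · exact ⟨l1_r q20 p03 (by simpa using y0) (by decide) (by decide) (by decide) s,
      q31.rel q12 (by decide) (by decide) (by decide) s⟩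

theorem l1_odd [Finite K] (h : (2 : K) ≠ 0) :
    IsLeast {n | Good (chev (CartanMatrix.A 4) 1 (RingHom.id K)) n} 3 := by
  obtain ⟨y, y0, -, sp⟩ := l1_gen (K := K)
  set b : GL (Fin 5) K := mon 1 ![1, -1, 1, 1, -1] with hb
  set a : GL (Fin 5) K := mon (Equiv.swap 3 2 * Equiv.swap 1 4) 1 with ha
  set m : GL (Fin 5) K := mon (Equiv.swap 2 0 * Equiv.swap 4 3) 1 with hm
  set X : K → GL (Fin 5) K := fun s => el 0 1 s * el 2 1 (-s) with hX
  have cm : ∀ s t : K, Commute (el (0 : Fin 5) 1 s) (el 2 1 t) := el_comm (by decide) (by decide)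
  have Xa : ∀ s t, X (s + t) = X s * X t := fun s t => by
    simp only [hX, neg_add, el_add]
    exact (cm t (-s)).mul_mul_mul_comm _ _
  have Xn : ∀ s, X (-s) = (X s)⁻¹ := fun s =>
    eq_inv_of_mul_eq_one_left (by rw [← Xa]; simp [hX, el_zero])
  have bs : b ∈ slg 4 K := mon_slg (by simp [Fin.prod_univ_five])
  have ms : m ∈ slg 4 K := mon_slg (by simp)
  have as : a ∈ slg 4 K := mon_slg (by simp)
  have mb : m * b * m⁻¹ = mon 1 ![1, -1, 1, -1, 1] := by
    rw [mon_conj]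
    exact mon_congr (by simp) fun i => by fin_cases i <;> simp [Equiv.swap_apply_def]
  have ab : a * (m * b * m⁻¹) * a⁻¹ = mon 1 ![1, 1, -1, 1, -1] := by
    rw [mb, mon_conj]
    exact mon_congr (by simp) fun i => by fin_cases i <;> simp [Equiv.swap_apply_def]
  have e1 : l1P 2 3 * (l1P 4 1 * (m * b * m⁻¹) * (l1P 4 1)⁻¹) * (l1P 2 3)⁻¹ = a := by
    rw [mb, l1_swap h (by decide) rfl rfl rfl rfl, l1_swap h (by decide) rfl rfl rfl rfl]
    exact mon_congr (by simp) fun i => by fin_cases i <;> simp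
  have e2 : l1P 0 2 * (l1P 3 4 * (a * (m * b * m⁻¹) * a⁻¹) * (l1P 3 4)⁻¹) * (l1P 0 2)⁻¹ = m := by
    rw [ab, l1_swap h (by decide) rfl rfl rfl rfl, l1_swap h (by decide) rfl rfl rfl rfl]
    exact mon_congr (by simp) fun i => by fin_cases i <;> simp
  have mX : ∀ s, m * X s * m⁻¹ = (X s)⁻¹ := fun s => by
    rw [← Xn, hX, ← conj_mul, mon_el, mon_el]
    simp only [Nat.reduceAdd, Fin.isValue, Equiv.Perm.coe_mul, Function.comp_apply, Equiv.swap_apply_def, Fin.reduceEq, ↓ reduceIte, Equiv.swap_apply_right, one_ne_zero, Pi.one_apply, Units.val_one, one_mul, div_one, Equiv.swap_apply_left, mul_neg, neg_neg, (cm _ _).eq]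
  have bX : ∀ s, b * X s * b⁻¹ = (X s)⁻¹ := fun s => by
    rw [← Xn, hX, ← conj_mul, mon_el, mon_el]
    simp only [Nat.reduceAdd, Fin.isValue, Equiv.Perm.coe_one, id_eq, cons_val_zero, Units.val_one, one_mul, cons_val_one, Units.val_neg, div_neg, div_one, cons_val, mul_neg, neg_neg]
  have ba : Commute b a := by
    rw [Commute, SemiconjBy, mon_mul, mon_mul]
    exact mon_congr (by simp) fun i => by fin_cases i <;> simp only [Nat.reduceAdd, Fin.isValue, Fin.zero_eta, Equiv.Perm.coe_mul, Function.comp_apply, Equiv.swap_apply_def, zero_ne_one, ↓ reduceIte, Fin.reduceEq, cons_val_zero, Pi.one_apply, mul_one, Fin.mk_one, Equiv.swap_apply_left, cons_val, cons_val_one, mul_neg, Fin.reduceFinMk, Equiv.swap_apply_right]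
  have ea : a = l1P 2 3 * l1P 4 1 * m * b * (l1P 2 3 * l1P 4 1 * m)⁻¹ := by
    rw [← e1]; group
  have ec : X y * m = X (y / 2) * l1P 0 2 * l1P 3 4 * a * m * b *
      (X (y / 2) * l1P 0 2 * l1P 3 4 * a * m)⁻¹ := by
    rw [← l1_half h Xa mX]
    conv_lhs => rw [← e2]
    group
  have Xs : ∀ s, X s ∈ slg 4 K := fun s => mul_mem (el_slg _ _ _) (el_slg _ _ _)
  refine goodSL (by norm_num) bs as (mul_mem (Xs y) ms)
    (mul_mem (mul_mem (l1P_mem 2 3) (l1P_mem 4 1)) ms)
    (mul_mem (mul_mem (mul_mem (mul_mem (Xs _) (l1P_mem 0 2)) (l1P_mem 3 4)) as) ms) ?_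
    (sc_of_eq ea) (sc_of_eq ec) (sc_of_eq ba.eq) fun H _ pb pa pc => ?_
  · rw [mon_mul, sc_mon]
    exact ⟨by simp, fun i => by fin_cases i <;> simp⟩
  have t : X y ∈ H := by
    have := pow_mem (mul_mem pb pc) 4
    rw [l1_pow (bX y) (mX y) (by
      rw [mon_mul, mon_pow]
      exact mon_eq_one (by decide) fun i => by
        fin_cases i <;> simp only [Nat.reduceAdd, Fin.isValue, one_mul, Fin.zero_eta, Equiv.Perm.coe_mul, Function.comp_apply, Equiv.swap_apply_def, Pi.one_apply, mul_one, Finset.prod_range_succ, Finset.range_one, Finset.prod_singleton, pow_zero, Equiv.Perm.coe_one, id_eq, Fin.reduceEq, ↓ reduceIte, cons_val, pow_succ, Equiv.swap_apply_right, cons_val_zero, Equiv.swap_apply_left, Fin.mk_one, one_ne_zero, cons_val_one, mul_neg, neg_neg, Fin.reduceFinMk]),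
      inv_pow, inv_mem_iff] at this
    refine l1_div X Xa (l1_four h) ?_
    convert this using 1
    rw [show ((4 : ℕ) : K) * y = y + y + y + y by push_cast; ring]
    simp only [Xa, pow_succ, pow_zero, one_mul]
  have pm := (mul_mem_cancel_left t).1 pc
  have pd := ab ▸ l1_cj pa (l1_cj pm pb)
  have t' : el 2 1 (-y) * el 0 1 y ∈ H := (cm y (-y)).eq ▸ t
  obtain ⟨p21, p01⟩ := l1_sep h pd t' (by decide) (by decide) (by simp) (by simp)
  have p12 := l1_mon pm (l1_mon pa (l1_mon pm (l1_mon pa (l1_mon pm (l1_mon pa p01)))))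
  simp only [Nat.reduceAdd, Fin.isValue, Equiv.Perm.coe_mul, Function.comp_apply, Equiv.swap_apply_def, zero_ne_one, ↓ reduceIte, Fin.reduceEq, Equiv.swap_apply_right, one_ne_zero, Equiv.swap_apply_left, Pi.one_apply, Units.val_one, one_mul, div_one] at p12
  have q01 : Pe H 0 1 := l1_loop sp y0 p01 p12 (by simpa using l1_neg p21) (by decide) (by decide)
    (by decide)
  have q23 : Pe H 2 3 := (q01.mon pa).mon pm
  have q32 : Pe H 3 2 := q23.mon pa
  have q10 : Pe H 1 0 := (q32.mon pm).mon pa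
  have q12 : Pe H 1 2 := q10.mon pm
  have q43 : Pe H 4 3 := q12.mon pa
  intro i s
  fin_cases i
  exacts [⟨q01 s, q10 s⟩, ⟨q12 s, q01.mon pm s⟩, ⟨q23 s, q32 s⟩, ⟨q43.mon pm s, q43 s⟩]

theorem l1_even [Finite K] (h : (2 : K) = 0) :
    IsLeast {n | Good (chev (CartanMatrix.A 4) 1 (RingHom.id K)) n} 3 := by
  obtain ⟨y, y0, sp, -⟩ := l1_gen (K := K)
  have ng : ∀ s : K, -s = s := fun s => by linear_combination (-s) * h
  set b : GL (Fin 5) K := el 0 1 1 * el 2 3 1 with hb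
  set c : GL (Fin 5) K := el 1 2 1 * el 3 4 1 with hc
  set a : GL (Fin 5) K := el 4 1 y * (el 2 0 y⁻¹ * el 3 1 y⁻¹) with ha
  set u : Kˣ := Units.mk0 y y0 with hu
  set m : GL (Fin 5) K := mon (finRotate 5) 1 with hm
  set n : GL (Fin 5) K := mon (Equiv.swap 0 1 * Equiv.swap 0 3 * Equiv.swap 0 2)
    ![1, u, 1, u, u⁻¹ ^ 2] with hn
  have bs : b ∈ slg 4 K := mul_mem (el_slg _ _ _) (el_slg _ _ _)
  have ms : m ∈ slg 4 K := mon_slg (by simp only [Nat.reduceAdd, sign_finRotate, Nat.add_one_sub_one, Units.val_pow_eq_pow_val, Units.val_neg, Units.val_one, Int.reduceNeg, Int.reducePow, Int.cast_one, Pi.one_apply, Finset.prod_const_one, mul_one])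
  have ns : n ∈ slg 4 K := mon_slg (by simp only [Nat.reduceAdd, Fin.isValue, Equiv.Perm.sign_mul, Equiv.Perm.sign_swap', zero_ne_one, ↓ reduceIte, Fin.reduceEq, mul_neg, mul_one, neg_neg, Units.val_neg, Units.val_one, Int.reduceNeg, Int.cast_neg, Int.cast_one, ng, hu, inv_pow, Fin.prod_univ_five, cons_val_zero, cons_val_one, Units.val_mk0, one_mul, cons_val, Units.val_inv_eq_inv_val, Units.val_pow_eq_pow_val]; field_simp)
  have ec : c = m * b * m⁻¹ := by
    rw [hb, ← conj_mul, mon_el, mon_el]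
    simp [hc]
  have ea : a = el 4 3 (y * y) * n * b * (el 4 3 (y * y) * n)⁻¹ := by
    have : n * b * n⁻¹ = el 2 0 y⁻¹ * el 3 1 y⁻¹ := by
      rw [hb, ← conj_mul, mon_el, mon_el]
      simp only [Nat.reduceAdd, Fin.isValue, Equiv.Perm.coe_mul, Function.comp_apply, Equiv.swap_apply_left, Equiv.swap_apply_def, Fin.reduceEq, ↓ reduceIte, one_ne_zero, Equiv.swap_apply_right, hu, inv_pow, cons_val_zero, Units.val_one, mul_one, cons_val_one, Units.val_mk0, one_div, cons_val]
    calc a = el 4 3 (y * y) * (n * b * n⁻¹) * (el 4 3 (y * y))⁻¹ := by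
          rw [this, ← conj_mul, l1_cl (by decide) (by decide) (by decide),
            (el_comm (by decide) (by decide) _ _).eq, mul_inv_cancel_right, ← mul_assoc,
            (el_comm (by decide) (by decide) _ _).eq, ha, mul_assoc, mul_inv_cancel_right₀ y0]
      _ = _ := by group
  obtain ⟨E, sg⟩ : ∃ E : Fin 5 → Fin 5 → Matrix (Fin 5) (Fin 5) K, ∀ i j s, single i j s = s • E i j :=
    ⟨fun i j => single i j 1, fun i j s => by simp⟩
  have bb : b * b = 1 := Units.ext (by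
    simp only [hb, Nat.reduceAdd, Fin.isValue, Units.val_mul, ne_eq, zero_ne_one, not_false_eq_true, el_val, Fin.reduceEq, mul_add, mul_one, add_mul, one_mul, single_mul_single_of_ne, add_zero, one_ne_zero, Units.val_one]
    simp only [sg]
    match_scalars <;> first | ring1 | linear_combination h)
  have i1 : b * a = a * b := Units.ext (by
    simp [ha, hb, el_val, mul_add, add_mul, single_mul_single_of_ne]
    abel)
  have i2 : (b * c) ^ 2 = el 0 3 1 * el 1 4 1 * (el 0 2 1 * el 1 3 1 * el 2 4 1) := Units.ext (by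
    simp [hc, hb, el_val, mul_add, add_mul, single_mul_single_of_ne, pow_two]
    simp only [sg]
    match_scalars <;> first | ring1 | linear_combination h)
  have i3 : ((b * c) ^ 2) ^ 2 = el 0 4 1 := Units.ext (by
    rw [i2]
    simp [el_val, mul_add, add_mul, single_mul_single_of_ne, pow_two]
    simp only [sg]
    match_scalars <;> first | ring1 | linear_combination h)
  have i4 : ∀ r, a * el 0 4 r * a = el 0 1 (y * r) * (el 0 4 r * (el 2 1 r * el 2 4 (r / y))) :=
    fun r => Units.ext (by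
    simp [ha, el_val, mul_add, add_mul, single_mul_single_of_ne]
    simp only [sg]
    match_scalars <;> first | ring1 | linear_combination h | grind)
  have i5 : (a * el 0 4 1 * a * c) ^ 3 = el 3 4 1 := Units.ext (by
    rw [i4]
    simp [hc, el_val, mul_add, add_mul, single_mul_single_of_ne, pow_succ]
    simp only [sg]
    match_scalars <;> first | ring1 | linear_combination h | grind)
  have i6 : ∀ r, a * el 2 4 r * a = el 2 1 (y * r) * el 2 4 r := fun r => Units.ext (by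
    simp only [Nat.reduceAdd, ha, Fin.isValue, Units.val_mul, ne_eq, Fin.reduceEq, not_false_eq_true, el_val, mul_add, mul_one, add_mul, one_mul, single_mul_single_of_ne, add_zero, single_mul_single_same]
    simp only [sg]
    match_scalars <;> first | ring1 | linear_combination h | grind)
  have i7 : b * el 3 4 1 * b = el 2 4 1 * el 3 4 1 := Units.ext (by
    simp [hb, el_val, mul_add, add_mul, single_mul_single_of_ne]
    simp only [sg]
    match_scalars <;> first | ring1 | linear_combination h)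
  have i8 : ∀ r, b * el 1 4 r * b = el 0 4 r * el 1 4 r := fun r => Units.ext (by
    simp [hb, el_val, mul_add, add_mul, single_mul_single_of_ne]
    simp only [sg]
    match_scalars <;> first | ring1 | linear_combination h)
  have i9 : ∀ r, el 0 2 y * a * el 0 2 (r * y * y) * a * el 0 2 y = el 2 0 r := fun r => Units.ext (by
    simp [ha, el_val, mul_add, add_mul, single_mul_single_of_ne]
    simp only [sg]
    match_scalars <;> first | ring1 | linear_combination h | grind)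
  have i10 : el 3 4 1 * (a * el 2 0 y⁻¹) * el 3 4 1 * (a * el 2 0 y⁻¹) = el 3 1 y := Units.ext (by
    simp [ha, el_val, mul_add, add_mul, single_mul_single_of_ne]
    simp only [sg]
    match_scalars <;> first | ring1 | linear_combination h | grind)
  refine goodSL (by norm_num) bs (mul_mem (el_slg _ _ _) (mul_mem (el_slg _ _ _) (el_slg _ _ _)))
    (mul_mem (el_slg _ _ _) (el_slg _ _ _)) (mul_mem (el_slg _ _ _) ns) ms (bb ▸ sc_one)
    (sc_of_eq ea) (sc_of_eq ec) (sc_of_eq i1) fun H _ pb pa pc => ?_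
  have p04 : el 0 4 1 ∈ H := i3 ▸ pow_mem (pow_mem (mul_mem pb pc) 2) 2
  have p34 : el 3 4 1 ∈ H := i5 ▸ pow_mem (mul_mem (mul_mem (mul_mem pa p04) pa) pc) 3
  have p12 := (mul_mem_cancel_right p34).1 pc
  have p24 := (mul_mem_cancel_right p34).1 (i7 ▸ mul_mem (mul_mem pb p34) pb)
  have p14 := l1_rel p12 p24 (by decide) (by decide) (by decide)
  have s21 : ∀ r, el 2 4 r ∈ H → el 2 1 (y * r) ∈ H := fun r q =>
    (mul_mem_cancel_right q).1 (i6 r ▸ mul_mem (mul_mem pa q) pa)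
  have q24 : Pe H 2 4 := sp.ind (P := fun s => el 2 4 s ∈ H)
    (fun x z u v => el_add (2 : Fin 5) 4 x z ▸ mul_mem u v) one_ne_zero p24 fun r q => by
      simpa using l1_rel (s21 r q) p14 (by decide) (by decide) (by decide)
  have q21 : Pe H 2 1 := fun r => by simpa [mul_div_cancel₀ _ y0] using s21 _ (q24 (r / y))
  have q14 : Pe H 1 4 := l1_l p12 q24 one_ne_zero (by decide) (by decide) (by decide)
  have q04 : Pe H 0 4 := fun r =>
    (mul_mem_cancel_right (q14 r)).1 (i8 r ▸ mul_mem (mul_mem pb (q14 r)) pb)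
  have q01 : Pe H 0 1 := fun r => by
    have := mul_mem (mul_mem pa (q04 (r / y))) pa
    rwa [i4, mul_mem_cancel_right (mul_mem (q04 _) (mul_mem (q21 _) (q24 _))),
      mul_div_cancel₀ _ y0] at this
  have p23 := (mul_mem_cancel_left (q01 1)).1 pb
  have q12 : Pe H 1 2 := q21.mon
    (mon_swap (K := K) (i := (1 : Fin 5)) (j := 2) (by decide) 1 ▸ mul_mem (mul_mem p12 (q21 _)) p12)
  have q02 := q01.rel q12 (by decide) (by decide) (by decide)
  have q20 : Pe H 2 0 := fun r =>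
    i9 r ▸ mul_mem (mul_mem (mul_mem (mul_mem (q02 _) pa) (q02 _)) pa) (q02 _)
  have p31 : el 3 1 y ∈ H :=
    i10 ▸ mul_mem (mul_mem (mul_mem p34 (mul_mem pa (q20 _))) p34) (mul_mem pa (q20 _))
  have q32 : Pe H 3 2 := l1_l p31 q12 y0 (by decide) (by decide) (by decide)
  have q13 : Pe H 1 3 := l1_r q12 p23 one_ne_zero (by decide) (by decide) (by decide)
  have p41 := (mul_mem_cancel_right (mul_mem (q20 _)
    (q32.rel q21 (by decide) (by decide) (by decide) _))).1 pa
  intro i s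
  fin_cases i
  exacts [⟨q01 s, q12.rel q20 (by decide) (by decide) (by decide) s⟩, ⟨q12 s, q21 s⟩,
    ⟨q21.rel q13 (by decide) (by decide) (by decide) s, q32 s⟩,
    ⟨l1_l p31 q14 y0 (by decide) (by decide) (by decide) s,
      l1_l p41 q13 y0 (by decide) (by decide) (by decide) s⟩]

theorem tL5 [Finite K] : IsLeast {n | Good (chev (CartanMatrix.A 4) 1 (RingHom.id K)) n} 3 :=
  (eq_or_ne (2 : K) 0).elim l1_even l1_odd

end Pool.Agent.MP_c78e8e_al.H75

end

section

namespace Pool.Agent.MP_c78e8e_al.H75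

open Subgroup Matrix

variable {N : ℕ} {K : Type} [Field K]

/-- The packed elementary matrix. -/
def l2eb (M i j : ℕ) : List ℕ :=
  (List.range M).map fun k => Nat.xor (2 ^ k) (if k = i then 2 ^ j else 0)

/-- The packed matrix exchanges the two halves of the basis. -/
def l2sw (M m : ℕ) (A : List ℕ) : Bool := (List.range M).all fun k => (List.range M).all fun l =>
  !(A.getD k 0).testBit l || decide (k < m ↔ ¬ l < m)

/-- Two packed matrices are inverse to each other. -/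
def l2inv (M : ℕ) (A B : List ℕ) : Bool := A.length == M && B.length == M && o2bm A B == o2one M

/-- The check. Mode `0`: only the field with two elements, mode `1`: all fields, mode `2`: all
larger fields. -/
def l2chk (N m md : ℕ) (A B C G G' F F' : List ℕ) (s₁ s₂ : List (ℕ × ℕ)) : Bool :=
  l2inv (N + 1) A A && l2inv (N + 1) B B && l2inv (N + 1) C C && l2inv (N + 1) G G' &&
  l2inv (N + 1) F F' && o2bm G A == o2bm B G && o2bm F A == o2bm C F && o2bm A B == o2bm B A &&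
  (md == 0 || l2sw (N + 1) m A && l2sw (N + 1) m C &&
    l2inv (N + 1) (o2bm (o2bm A C) (o2bm A C)) (o2bm (o2bm A C) (o2bm A C))) &&
  (o2run (N + 1) s₁ [A, B, C] fun R => R.elem
    (if md = 2 then o2bm (l2eb (N + 1) 0 1) (l2eb (N + 1) 0 N) else l2eb (N + 1) 0 N)) &&
  o2run (N + 1) s₂ [A, B, C, l2eb (N + 1) 0 N] fun R => (List.range (N + 1)).all fun j =>
    j == 0 || R.elem (l2eb (N + 1) 0 j) && R.elem (l2eb (N + 1) j 0)

theorem l2_el (h2 : (2 : K) = 0) {i j : Fin (N + 1)} (h : i ≠ j) :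
    O2Rp (el i j (1 : K)) (l2eb (N + 1) i j) := by
  refine ⟨by simp [l2eb], fun k l => ?_⟩
  have z : o2bit K 0 l = 0 := by simp [o2bit]
  rw [l2eb, o2_getD, o2bit_xor h2, el_val h]
  simp only [Matrix.add_apply, one_apply, single_apply, apply_ite (o2bit K · l), o2bit_pow, z,
    Fin.val_inj, ite_and, eq_comm (a := k)]

theorem l2_ex (h2 : (2 : K) = 0) {A B : List ℕ} (h : l2inv (N + 1) A B = true) :
    ∃ g ∈ slg N K, O2Rp g A := by
  simp only [l2inv, Bool.and_eq_true, beq_iff_eq] at h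
  let M : List ℕ → Matrix (Fin (N + 1)) (Fin (N + 1)) K := fun A =>
    of fun i j => o2bit K (A.getD i 0) j
  have e : M A * M B = 1 := by
    ext i j
    have l : (i : ℕ) < A.length := i.2.trans_eq h.1.1.symm
    have := (o2rp_one (K := K) (N := N)).2 i j
    rw [← h.2, o2bm, List.getD_eq_getElem _ _ (by simpa using l), List.getElem_map, o2bit_rm h2,
      h.1.2, Finset.sum_range, ← List.getD_eq_getElem _ 0 l] at this
    exact this.symm
  have : CharP K 2 := CharTwo.of_one_ne_zero_of_two_eq_zero one_ne_zero h2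
  have d := (frobenius K 2).map_det (M A)
  have d0 : (M A).det ≠ 0 := (isUnit_det_of_right_inverse e).ne_zero
  rw [show (frobenius K 2).mapMatrix (M A) = M A from Matrix.ext fun i j => by
    simp only [M, o2bit, List.getD_eq_getElem?_getD, RingHom.mapMatrix_apply, map_apply, of_apply, apply_ite (frobenius K 2), map_one, map_zero], frobenius_def, sq, mul_eq_right₀ d0] at d
  exact ⟨⟨M A, M B, e, mul_eq_one_comm.1 e⟩, mem_slg d, h.1.1, fun _ _ => rfl⟩

/-- The torus with two eigenspaces. -/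
def l2t (m : ℕ) : Kˣ →* GL (Fin (N + 1)) K :=
  MonoidHom.mk' (fun x => mon 1 fun i => if (i : ℕ) < m then x else x⁻¹) fun x y => by
    rw [← mon_one_mul]
    exact mon_congr (fun _ => rfl) fun i => by
      rw [Pi.mul_apply]; split_ifs <;> simp [mul_comm]

theorem l2t_def (m : ℕ) (x : Kˣ) : (l2t m x : GL (Fin (N + 1)) K) =
    mon 1 fun i => if (i : ℕ) < m then x else x⁻¹ := rfl

theorem l2_sw {g : GL (Fin (N + 1)) K} {A : List ℕ} (p : O2Rp g A) {m : ℕ}
    (h : l2sw (N + 1) m A = true) (x : Kˣ) : g * l2t m x * g⁻¹ = (l2t m x)⁻¹ := by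
  rw [mul_inv_eq_iff_eq_mul, ← map_inv]
  ext k l
  have := mona_mul 1 (fun i => if (i : ℕ) < m then x⁻¹ else x⁻¹⁻¹) g.1 k l
  rw [Equiv.Perm.one_apply] at this
  rw [Units.val_mul, Units.val_mul, l2t_def, l2t_def, mona_mul', this, Equiv.Perm.one_apply, p.2]
  simp only [l2sw, List.all_eq_true, List.mem_range, Bool.or_eq_true, Bool.not_eq_true',
    decide_eq_true_eq] at h
  rcases h k k.2 l l.2 with q | q
  · rw [o2bit, q]; simp
  · simp only [q, ite_not, inv_inv, mul_comm]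

theorem l2_tor (h2 : (2 : K) = 0) [Finite K] {G : Type} [Group G] {T : Kˣ →* G} {a c : G}
    (k1 : ∀ x, a * T x * a⁻¹ = (T x)⁻¹) (k2 : ∀ x, c * T x * c⁻¹ = (T x)⁻¹) (o : (a * c) ^ 4 = 1)
    {u : Kˣ} (hu : ∀ x, x ∈ zpowers u) {H : Subgroup G} (ha : a ∈ H)
    (hc : T u * c * (T u)⁻¹ ∈ H) (x : Kˣ) : T x ∈ H := by
  have cm : ∀ y, Commute (T y) (a * c) := fun y => by
    have : a * c * T y * (a * c)⁻¹ = T y := by
      calc _ = a * (c * T y * c⁻¹) * a⁻¹ := by group
        _ = _ := by rw [k2, ← map_inv, k1, map_inv, inv_inv]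
    exact (mul_inv_eq_iff_eq_mul.1 this).symm
  have e2 : a * (T u * c * (T u)⁻¹) = T (u ^ 2)⁻¹ * (a * c) := by
    calc _ = a * T u * a⁻¹ * (a * c * (T u)⁻¹) := by group
      _ = _ := by rw [k1, ← (cm _).inv_left.eq, ← mul_assoc, ← map_inv, ← map_mul, ← mul_inv, sq]
  have m := pow_mem (mul_mem ha hc) 4
  rw [e2, (cm _).mul_pow, o, mul_one, ← map_pow, inv_pow, map_inv, inv_mem_iff, ← pow_mul] at m
  have : CharP K 2 := CharTwo.of_one_ne_zero_of_two_eq_zero one_ne_zero h2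
  obtain ⟨y, hy⟩ := Finite.surjective_of_injective (f := fun y : Kˣ => y ^ (2 * 4))
    (fun y z q => Units.ext ((iterateFrobenius K 2 3).injective (by
      simpa only [iterateFrobenius_def, Nat.reducePow, Nat.reduceMul, Units.val_pow_eq_pow_val] using congrArg Units.val q))) x
  obtain ⟨k, rfl⟩ := mem_zpowers_iff.1 (hu y)
  have := zpow_mem m k
  rw [← map_zpow, ← zpow_natCast, zpow_comm, zpow_natCast] at this
  exact hy ▸ this

theorem l2_main (h2 : (2 : K) = 0) [Finite K] {m md : ℕ} (hm : 1 < m) (hN : m ≤ N)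
    (hT : ∀ x : Kˣ, l2t m x ∈ slg N K) {A B C G G' F F' : List ℕ} {s₁ s₂ : List (ℕ × ℕ)}
    (h : l2chk N m md A B C G G' F F' s₁ s₂ = true) (h0 : md = 0 → ∀ x : Kˣ, x = 1)
    (h1 : md = 2 → ∃ x : Kˣ, x ≠ 1) :
    IsLeast {k | Good (chev (CartanMatrix.A N) 1 (RingHom.id K)) k} 3 := by
  have cl : ∀ H : Subgroup (GL (Fin (N + 1)) K), ∀ A B, (∃ g ∈ H, O2Rp g A) →
      (∃ g ∈ H, O2Rp g B) → ∃ g ∈ H, O2Rp g (o2bm A B) :=
    fun H A B ⟨a, p, q⟩ ⟨b, p', q'⟩ => ⟨_, mul_mem p p', q.mul h2 q'⟩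
  simp only [l2chk, Bool.and_eq_true, Bool.or_eq_true, beq_iff_eq] at h
  obtain ⟨⟨⟨⟨⟨⟨⟨⟨⟨⟨i1, i2⟩, i3⟩, i4⟩, i5⟩, e2⟩, e3⟩, e4⟩, e5⟩, e6⟩, e7⟩ := h
  obtain ⟨a, ma, pa⟩ := l2_ex h2 i1
  obtain ⟨b, mb, pb⟩ := l2_ex h2 i2
  obtain ⟨c, mc, pc⟩ := l2_ex h2 i3
  obtain ⟨g, mg, pg⟩ := l2_ex h2 i4
  obtain ⟨g', mg', pg'⟩ := l2_ex h2 i5
  simp only [l2inv, Bool.and_eq_true, beq_iff_eq] at i1 e5
  obtain ⟨u, hu⟩ := IsCyclic.exists_generator (α := Kˣ)
  have mt := hT u
  refine goodSL (by omega) ma mb (l1_cj mt mc) mg (mul_mem mt mg')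
    (by rw [(pa.mul h2 pa).eq o2rp_one i1.2]; exact sc_one)
    (sc_of_eq (by rw [(pg.mul h2 pa).eq (pb.mul h2 pg) e2, mul_inv_cancel_right]))
    (sc_of_eq (by rw [mul_assoc _ g', (pg'.mul h2 pa).eq (pc.mul h2 pg') e3]; group))
    (sc_of_eq ((pa.mul h2 pb).eq (pb.mul h2 pa) e4)) fun H _ ha hb hc => ?_
  have t0 : ∀ x, l2t m x ∈ H := fun x => by
    rcases e5 with e | e
    · rw [h0 e x, map_one]; exact one_mem _
    · have p1 := pa.mul h2 pc
      have p2 := p1.mul h2 p1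
      refine l2_tor h2 (l2_sw pa e.1.1) (l2_sw pc e.1.2) ?_ hu ha hc x
      rw [← (p2.mul h2 p2).eq o2rp_one e.2.2]
      simp only [pow_succ, pow_zero, one_mul, mul_assoc]
  have hc' : c ∈ H := (mul_mem_cancel_left (t0 _)).1 ((mul_mem_cancel_right (inv_mem (t0 _))).1 hc)
  let j : Fin (N + 1) := ⟨1, by omega⟩
  have d1 : (0 : Fin (N + 1)) ≠ j := by simp [j, Fin.ext_iff]
  have d2 : (0 : Fin (N + 1)) ≠ Fin.last N := by simp [Fin.ext_iff]; omega
  have d3 : j ≠ Fin.last N := by simp [j, Fin.ext_iff]; omega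
  have px := l2_el h2 d2
  have k1 : ∀ x : Kˣ, ∀ s : K,
      l2t m x * el 0 (Fin.last N) s * (l2t m x)⁻¹ = el 0 (Fin.last N) (x * x * s) := fun x s => by
    rw [l2t_def, mon_el]
    simp [hN.not_gt, hm.le.trans_lt' one_pos, mul_comm, mul_left_comm]
  have k2 : ∀ x : Kˣ, l2t m x * el 0 j 1 * (l2t m x)⁻¹ = el 0 j 1 := fun x => by
    rw [l2t_def, mon_el]
    simp [j, hm, hm.le.trans_lt' one_pos]
  have ini : ∀ A' ∈ [A, B, C], ∃ g ∈ H, O2Rp g A' := by
    simp only [List.forall_mem_cons]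
    exact ⟨⟨a, ha, pa⟩, ⟨b, hb, pb⟩, ⟨c, hc', pc⟩, by simp⟩
  obtain ⟨R, hR, h⟩ := o2run_ok ⟨1, one_mem _, o2rp_one⟩ (cl H) s₁ ini e6
  obtain ⟨z, mz, pz⟩ := hR _ (List.mem_of_elem_eq_true h)
  obtain ⟨r, r0, hr⟩ : ∃ r : K, r ≠ 0 ∧ el 0 (Fin.last N) r ∈ H := by
    split_ifs at pz with e
    · obtain ⟨x, hx⟩ := h1 e
      rw [pz.eq ((l2_el h2 d1).mul h2 px) rfl] at mz
      have := mul_mem (inv_mem mz) (l1_cj (t0 x) mz)
      rw [← conj_mul, k1, k2, _root_.mul_inv_rev, mul_assoc, inv_mul_cancel_left, ← el_neg,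
        ← el_add] at this
      refine ⟨_, fun z => hx (Units.ext ?_), this⟩
      have : ((x : K) - 1) ^ 2 = 0 := by linear_combination z + (1 - x) * h2
      exact sub_eq_zero.1 (pow_eq_zero_iff two_ne_zero |>.1 this)
    · exact ⟨1, one_ne_zero, pz.eq px rfl ▸ mz⟩
  have q0 : Pe H 0 (Fin.last N) := fun s => by
    have : CharP K 2 := CharTwo.of_one_ne_zero_of_two_eq_zero one_ne_zero h2
    obtain ⟨x, hx⟩ := FiniteField.isSquare_of_char_two (ringChar.eq K 2) (s / r)
    by_cases x0 : x = 0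
    · simp [show s = 0 by simpa [x0, r0] using hx]
    have := l1_cj (t0 (Units.mk0 x x0)) hr
    rwa [k1, Units.val_mk0, ← hx, div_mul_cancel₀ _ r0] at this
  obtain ⟨R, hR, h⟩ := o2run_ok (R := [A, B, C, l2eb (N + 1) 0 N]) ⟨1, one_mem _, o2rp_one⟩ (cl H) s₂
    (fun A' hA => (List.mem_append.1 (show A' ∈ [A, B, C] ++ [_] from hA)).elim (ini A')
      fun e => List.mem_singleton.1 e ▸ ⟨_, q0 1, px⟩) e7
  simp only [List.all_eq_true, List.mem_range, Bool.and_eq_true, Bool.or_eq_true, beq_iff_eq,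
    List.elem_eq_mem, decide_eq_true_eq] at h
  have p : ∀ i : Fin (N + 1), 0 ≠ i → el 0 i 1 ∈ H ∧ el i 0 1 ∈ H := fun i i0 => by
    obtain ⟨q1, q2⟩ := (h i i.2).resolve_left fun e => i0 (Fin.ext e.symm)
    obtain ⟨y, my, py⟩ := hR _ q1
    obtain ⟨z, mz, pz⟩ := hR _ q2
    exact ⟨py.eq (l2_el h2 i0) rfl ▸ my, pz.eq (l2_el h2 i0.symm) rfl ▸ mz⟩
  have q1 : ∀ i : Fin (N + 1), 0 ≠ i → i ≠ Fin.last N → Pe H 0 i ∧ Pe H i 0 := fun i i0 il =>
    ⟨l1_r q0 (l1_rel (p _ d2).2 (p i i0).1 d2.symm i0 il.symm) (by simp) d2 il.symm i0,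
      l1_r (l1_l (p i i0).2 q0 one_ne_zero i0.symm d2 il) (p _ d2).2 one_ne_zero il d2.symm i0.symm⟩
  have q2 : ∀ i : Fin (N + 1), 0 ≠ i → Pe H 0 i ∧ Pe H i 0 := fun i i0 => by
    by_cases il : i = Fin.last N
    · exact il ▸ ⟨q0, l1_l (l1_rel (p _ d2).2 (p j d1).1 d2.symm d1 d3.symm) (q1 j d1 d3).2 (by simp)
        d3.symm d1.symm d2.symm⟩
    · exact q1 i i0 il
  have q3 : ∀ i k : Fin (N + 1), i ≠ k → Pe H i k := fun i k ik => by
    by_cases i0 : 0 = i
    · exact i0 ▸ (q2 k (i0 ▸ ik)).1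
    by_cases k0 : 0 = k
    · exact k0 ▸ (q2 i i0).2
    exact (q2 i i0).2.rel (q2 k k0).1 (Ne.symm i0) k0 ik
  exact fun i s => ⟨q3 _ _ i.castSucc_lt_succ.ne s, q3 _ _ i.castSucc_lt_succ.ne' s⟩

theorem l2_c60 : l2chk 5 3 0
    [43, 36, 34, 46, 48, 32] [48, 63, 57, 53, 43, 42] [51, 2, 20, 56, 16, 32] [15, 56, 24, 18, 14, 13]
    [17, 33, 28, 45, 41, 6] [25, 10, 26, 2, 32, 6] [13, 8, 40, 10, 6, 16]
    [(0,2), (0,0), (0,0)]
    [(1,3), (0,2), (4,0), (0,5), (5,0), (0,6), (9,0), (0,10), (9,0), (0,10), (10,0), (0,11),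
    (14,0), (0,15), (0,2), (7,1), (0,8), (0,3), (14,0), (0,15), (0,12), (11,0), (0,12), (25,6),
    (0,26), (7,0), (0,8), (0,30), (28,1), (0,29), (28,3), (0,29), (17,5), (12,0), (0,13),
    (37,0), (0,38), (0,14), (1,17)] = true := by
  decide +kernel

theorem l2_c62 : l2chk 5 3 2
    [24, 48, 56, 6, 7, 5] [1, 38, 33, 16, 8, 5] [8, 48, 24, 1, 5, 7] [25, 6, 9, 5, 32, 7] [34, 40, 42, 38, 5, 16]
    [1, 11, 17, 24, 7, 41] [1, 14, 31, 13, 5, 44]
    [(2,1), (0,1), (0,0), (0,0), (0,2), (5,0), (0,6), (9,0), (0,10), (10,0), (0,11), (13,0),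
    (0,14)]
    [(0,3), (0,1), (4,0), (0,5), (5,0), (0,6), (8,0), (0,9), (9,0), (0,10), (4,13), (0,5),
    (0,15), (13,3), (0,14), (17,0), (0,18), (7,4), (0,8), (21,0), (0,22), (22,0), (0,23), (8,0),
    (0,9), (0,4), (0,18), (29,17), (0,30), (29,0), (0,30), (0,14), (17,19), (0,18)] = true := by
  decide +kernel

theorem l2_c81 : l2chk 7 4 1
    [80, 144, 208, 176, 7, 10, 6, 5] [186, 132, 143, 56, 88, 104, 112, 141] [80, 64, 160, 48, 3, 11, 2, 15]
    [149, 27, 104, 69, 87, 148, 3, 31] [33, 97, 130, 59, 121, 148, 171, 219] [13, 122, 149, 68, 27, 205, 43, 79]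
    [181, 238, 103, 211, 152, 200, 111, 78]
    [(0,2), (0,2), (0,0), (0,1), (0,0), (0,0), (8,0), (0,9), (9,0), (0,10), (12,0), (0,13),
    (12,0), (0,13), (15,0), (0,16), (18,0), (0,19), (12,0), (0,13), (21,0), (0,22)]
    [(2,3), (0,3), (2,0), (0,3), (6,0), (0,7), (7,9), (0,8), (8,0), (0,9), (13,0), (0,14),
    (10,0), (0,11), (15,0), (0,16), (10,0), (0,11), (10,0), (0,11), (12,6), (0,13), (12,0),
    (0,13), (0,16), (0,1), (27,0), (0,28), (28,2), (0,29), (18,0), (0,19), (4,30), (0,5),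
    (36,0), (0,37), (14,22), (7,0), (0,8), (0,3), (24,20), (39,0), (0,40), (0,25), (26,3),
    (45,0), (0,46), (0,15), (20,4), (0,21), (50,0), (0,51), (34,5), (0,35), (54,0), (0,55),
    (38,42), (0,39), (59,0), (0,60), (0,15), (43,45), (42,10), (0,43), (0,12)] = true := by
  decide +kernel

theorem l2_e6 [Finite K] (h : (2 : K) = 0) :
    IsLeast {n | Good (chev (CartanMatrix.A 5) 1 (RingHom.id K)) n} 3 := by
  have t : ∀ x : Kˣ, l2t 3 x ∈ slg 5 K := fun x => mon_slg (by simp only [Nat.reduceAdd, Equiv.Perm.sign_one, Units.val_one, Int.cast_one, Fin.prod_univ_succ, Fin.isValue, Fin.coe_ofNat_eq_mod, Nat.zero_mod, Nat.ofNat_pos, ↓ reduceIte, Fin.val_succ, zero_add, Nat.one_lt_ofNat, Nat.lt_add_one, lt_self_iff_false, Units.val_inv_eq_inv_val, Nat.reduceLT, Finset.univ_unique, Fin.default_eq_zero, Fin.val_eq_zero, Finset.prod_inv_distrib, Finset.prod_const, Finset.card_singleton, pow_one, ne_eq, Units.ne_zero, not_false_eq_true, mul_inv_cancel_left₀,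 mul_inv_cancel₀, mul_one])
  by_cases e : ∀ x : Kˣ, x = 1
  · exact l2_main h (by norm_num) (by norm_num) t l2_c60 (fun _ => e) (by simp)
  · exact l2_main h (by norm_num) (by norm_num) t l2_c62 (by simp) fun _ => not_forall.1 e

theorem l2_e8 [Finite K] (h : (2 : K) = 0) :
    IsLeast {n | Good (chev (CartanMatrix.A 7) 1 (RingHom.id K)) n} 3 :=
  l2_main h (by norm_num) (by norm_num) (fun x => mon_slg (by simp only [Nat.reduceAdd, Equiv.Perm.sign_one, Units.val_one, Int.cast_one, Fin.prod_univ_succ, Fin.isValue, Fin.coe_ofNat_eq_mod, Nat.zero_mod, Nat.ofNat_pos, ↓ reduceIte, Fin.val_succ, zero_add, Nat.one_lt_ofNat, Nat.reduceLT, Nat.lt_add_one, lt_self_iff_false, Units.val_inv_eq_inv_val, Finset.univ_unique, Fin.default_eq_zero, Fin.val_eq_zero, Finset.prod_inv_distrib, Finset.prod_const, Finset.card_singleton, pow_one, ne_eq, Units.ne_zero, not_false_eq_true, mul_inv_cancel_left₀, mul_inv_cancel₀, mul_one])) l2_c81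
    (by simp) (by simp)

theorem l2_pow [Finite K] (h : (2 : K) ≠ 0) {G : Type} [Group G] {H : Subgroup G} {X : K → G}
    (Xa : ∀ s t, X (s + t) = X s * X t) {b m : G} {y : K} (bX : b * X y * b⁻¹ = (X y)⁻¹)
    (mX : m * X y * m⁻¹ = (X y)⁻¹) (o : (b * m) ^ 4 = 1) (pb : b ∈ H) (pc : X y * m ∈ H) :
    X y ∈ H := by
  have := pow_mem (mul_mem pb pc) 4
  rw [l1_pow bX mX o, inv_pow, inv_mem_iff] at this
  refine l1_div X Xa (l1_four h) ?_
  convert this using 1
  rw [show ((4 : ℕ) : K) * y = y + y + y + y by push_cast; ring]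
  simp only [Xa, pow_succ, pow_zero, one_mul]

theorem l2_o8 [Finite K] (h : (2 : K) ≠ 0) :
    IsLeast {n | Good (chev (CartanMatrix.A 7) 1 (RingHom.id K)) n} 3 := by
  obtain ⟨y, y0, -, sp⟩ := l1_gen (K := K)
  set b : GL (Fin 8) K := mon 1 ![1, -1, 1, -1, -1, 1, -1, 1] with hb
  set a : GL (Fin 8) K :=
    mon (Equiv.swap 0 7 * (Equiv.swap 6 1 * (Equiv.swap 5 2 * Equiv.swap 3 4))) 1 with ha
  set m : GL (Fin 8) K := mon (Equiv.swap 2 0 * (Equiv.swap 7 3 * Equiv.swap 4 6))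
    ![1, 1, 1, 1, 1, -1, 1, 1] with hm
  set r : GL (Fin 8) K := mon (finRotate 8) ![-1, 1, 1, 1, 1, 1, 1, 1] with hr
  set X : K → GL (Fin 8) K := fun s => el 0 1 s * el 2 1 (-s) with hX
  have cm : ∀ s t : K, Commute (el (0 : Fin 8) 1 s) (el 2 1 t) := el_comm (by decide) (by decide)
  have Xa : ∀ s t, X (s + t) = X s * X t := fun s t => by
    simp only [hX, neg_add, el_add]
    exact (cm t (-s)).mul_mul_mul_comm _ _
  have Xn : ∀ s, X (-s) = (X s)⁻¹ := fun s =>
    eq_inv_of_mul_eq_one_left (by rw [← Xa]; simp [hX, el_zero])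
  have bs : b ∈ slg 7 K := mon_slg (by simp only [Nat.reduceAdd, Equiv.Perm.sign_one, Units.val_one, Int.cast_one, Fin.prod_univ_eight, Fin.isValue, cons_val_zero, cons_val_one, Units.val_neg, mul_neg, mul_one, cons_val, neg_neg])
  have ms : m ∈ slg 7 K := mon_slg (by simp only [Nat.reduceAdd, Fin.isValue, Equiv.Perm.sign_mul, Equiv.Perm.sign_swap', Fin.reduceEq, ↓ reduceIte, mul_neg, mul_one, neg_neg, Units.val_neg, Units.val_one, Int.reduceNeg, Int.cast_neg, Int.cast_one, Fin.prod_univ_eight, cons_val_zero, cons_val_one, cons_val])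
  have as : a ∈ slg 7 K := mon_slg (by simp)
  have rs : r ∈ slg 7 K := mon_slg (by simp only [Nat.reduceAdd, sign_finRotate, Nat.add_one_sub_one, Units.val_pow_eq_pow_val, Units.val_neg, Units.val_one, Int.reduceNeg, Int.reducePow, Int.cast_neg, Int.cast_one, Fin.prod_univ_eight, Fin.isValue, cons_val_zero, cons_val_one, mul_one, cons_val, mul_neg, neg_neg])
  have r1 : r * b * r⁻¹ = mon 1 ![1, 1, -1, 1, -1, -1, 1, -1] := by
    rw [mul_inv_eq_iff_eq_mul, mon_mul, mon_mul]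
    exact mon_congr (by simp) fun i => by fin_cases i <;> simp
  have r2 : r * (r * b * r⁻¹) * r⁻¹ = mon 1 ![-1, 1, 1, -1, 1, -1, -1, 1] := by
    rw [r1, mul_inv_eq_iff_eq_mul, mon_mul, mon_mul]
    exact mon_congr (by simp) fun i => by fin_cases i <;> simp
  have ab : a * (m * b * m⁻¹) * a⁻¹ = mon 1 ![-1, -1, 1, -1, 1, 1, -1, 1] := by
    rw [mon_conj, mon_conj]
    exact mon_congr (by simp) fun i => by fin_cases i <;> simp [Equiv.swap_apply_def]
  have e1 : l1P 7 0 * (l1P 1 6 * (l1P 2 5 * (l1P 4 3 * (r * (r * b * r⁻¹) * r⁻¹) * (l1P 4 3)⁻¹) *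
      (l1P 2 5)⁻¹) * (l1P 1 6)⁻¹) * (l1P 7 0)⁻¹ = a := by
    rw [r2, l1_swap h (by decide) rfl rfl rfl rfl, l1_swap h (by decide) rfl rfl rfl rfl,
      l1_swap h (by decide) rfl rfl rfl rfl, l1_swap h (by decide) rfl rfl rfl rfl]
    exact mon_congr (by simp only [Nat.reduceAdd, Fin.isValue, mul_one, Equiv.Perm.coe_mul, Function.comp_apply, implies_true]) fun i => by fin_cases i <;> simp
  have e2 : l1P 0 2 * (l1P 3 7 * (l1P 6 4 * (r * b * r⁻¹) * (l1P 6 4)⁻¹) * (l1P 3 7)⁻¹) *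
      (l1P 0 2)⁻¹ = m := by
    rw [r1, l1_swap h (by decide) rfl rfl rfl rfl, l1_swap h (by decide) rfl rfl rfl rfl,
      l1_swap h (by decide) rfl rfl rfl rfl]
    exact mon_congr (by simp) fun i => by fin_cases i <;> simp
  have mX : ∀ s, m * X s * m⁻¹ = (X s)⁻¹ := fun s => by
    rw [← Xn, hX, ← conj_mul, mon_el, mon_el]
    simp only [Nat.reduceAdd, Fin.isValue, Equiv.Perm.coe_mul, Function.comp_apply, Equiv.swap_apply_def, Fin.reduceEq, ↓ reduceIte, Equiv.swap_apply_right, one_ne_zero, cons_val_zero, Units.val_one, one_mul, cons_val_one, div_one, Equiv.swap_apply_left, cons_val, mul_neg, neg_neg, (cm _ _).eq]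
  have bX : ∀ s, b * X s * b⁻¹ = (X s)⁻¹ := fun s => by
    rw [← Xn, hX, ← conj_mul, mon_el, mon_el]
    simp only [Nat.reduceAdd, Fin.isValue, Equiv.Perm.coe_one, id_eq, cons_val_zero, Units.val_one, one_mul, cons_val_one, Units.val_neg, div_neg, div_one, cons_val, mul_neg, neg_neg]
  have ba : Commute b a := by
    rw [Commute, SemiconjBy, mon_mul, mon_mul]
    exact mon_congr (by simp only [Nat.reduceAdd, Fin.isValue, one_mul, Equiv.Perm.coe_mul, Function.comp_apply, mul_one, implies_true]) fun i => by fin_cases i <;> simp only [Nat.reduceAdd, Fin.isValue, Fin.zero_eta, Equiv.Perm.coe_mul, Function.comp_apply, Equiv.swap_apply_def, Fin.reduceEq, ↓ reduceIte, zero_ne_one, Equiv.swap_apply_left, cons_val, Pi.one_apply, mul_one, cons_val_zero, Fin.mk_one, Equiv.swap_apply_right, cons_val_one, mul_neg, Fin.reduceFinMk, one_ne_zero]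
  have ea : a = l1P 7 0 * l1P 1 6 * l1P 2 5 * l1P 4 3 * r * r * b *
      (l1P 7 0 * l1P 1 6 * l1P 2 5 * l1P 4 3 * r * r)⁻¹ := by
    rw [← e1]; group
  have ec : X y * m = X (y / 2) * l1P 0 2 * l1P 3 7 * l1P 6 4 * r * b *
      (X (y / 2) * l1P 0 2 * l1P 3 7 * l1P 6 4 * r)⁻¹ := by
    rw [← l1_half h Xa mX]
    conv_lhs => rw [← e2]
    group
  have Xs : ∀ s, X s ∈ slg 7 K := fun s => mul_mem (el_slg _ _ _) (el_slg _ _ _)
  refine goodSL (by norm_num) bs as (mul_mem (Xs y) ms)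
    (mul_mem (mul_mem (mul_mem (mul_mem (mul_mem (l1P_mem 7 0) (l1P_mem 1 6)) (l1P_mem 2 5))
      (l1P_mem 4 3)) rs) rs)
    (mul_mem (mul_mem (mul_mem (mul_mem (Xs _) (l1P_mem 0 2)) (l1P_mem 3 7)) (l1P_mem 6 4)) rs) ?_
    (sc_of_eq ea) (sc_of_eq ec) (sc_of_eq ba.eq) fun H _ pb pa pc => ?_
  · rw [mon_mul, sc_mon]
    exact ⟨by simp, fun i => by fin_cases i <;> simp⟩
  have t : X y ∈ H := l2_pow h Xa (bX y) (mX y) (by
    rw [mon_mul, mon_pow]
    exact mon_eq_one (by decide) fun i => by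
      fin_cases i <;> simp only [Nat.reduceAdd, Fin.isValue, one_mul, Fin.zero_eta, Equiv.Perm.coe_mul, Function.comp_apply, Equiv.swap_apply_def, Finset.prod_range_succ, Finset.range_one, Finset.prod_singleton, pow_zero, Equiv.Perm.coe_one, id_eq, Fin.reduceEq, ↓ reduceIte, cons_val, cons_val_zero, mul_one, pow_succ, Equiv.swap_apply_right, Equiv.swap_apply_left, Fin.mk_one, one_ne_zero, cons_val_one, mul_neg, neg_neg, Fin.reduceFinMk]) pb pc
  have pm := (mul_mem_cancel_left t).1 pc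
  have pd := ab ▸ l1_cj pa (l1_cj pm pb)
  have t' : el 2 1 (-y) * el 0 1 y ∈ H := (cm y (-y)).eq ▸ t
  obtain ⟨p21, p01⟩ := l1_sep h pd t' (by decide) (by decide) (by simp) (by simp)
  have ro : ∀ {i j s}, el i j s ∈ H → _ := fun q => l1_mon pm (l1_mon pa q)
  have p12 := ro (ro (ro p01))
  simp only [Nat.reduceAdd, Fin.isValue, Equiv.Perm.coe_mul, Function.comp_apply, Equiv.swap_apply_def, Fin.reduceEq, ↓ reduceIte, zero_ne_one, Equiv.swap_apply_left, one_ne_zero, Equiv.swap_apply_right, cons_val_one, cons_val_zero, Units.val_one, Pi.one_apply, cons_val, one_mul, div_one] at p12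
  have q01 : Pe H 0 1 := l1_loop sp y0 p01 (by simpa using p12) (by simpa using l1_neg p21)
    (by decide) (by decide) (by decide)
  have q34 : Pe H 3 4 := (q01.mon pa).mon pm
  have q67 : Pe H 6 7 := (q34.mon pa).mon pm
  have q12 : Pe H 1 2 := (q67.mon pa).mon pm
  have q45 : Pe H 4 5 := (q12.mon pa).mon pm
  have q23 : Pe H 2 3 := (((q45.mon pa).mon pm).mon pa).mon pm
  have q56 : Pe H 5 6 := (q23.mon pa).mon pm
  intro i s
  fin_cases i
  exacts [⟨q01 s, q67.mon pa s⟩, ⟨q12 s, q56.mon pa s⟩, ⟨q23 s, q45.mon pa s⟩,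
    ⟨q34 s, q34.mon pa s⟩, ⟨q45 s, q23.mon pa s⟩, ⟨q56 s, q12.mon pa s⟩, ⟨q67 s, q01.mon pa s⟩]

theorem tL8 [Finite K] : IsLeast {n | Good (chev (CartanMatrix.A 7) 1 (RingHom.id K)) n} 3 :=
  (eq_or_ne (2 : K) 0).elim l2_e8 l2_o8

theorem l2_sep [Finite K] (h2 : (2 : K) ≠ 0) {H : Subgroup (GL (Fin (N + 1)) K)}
    {i j : Fin (N + 1)} {s : K} {D Z : GL (Fin (N + 1)) K} (m : D ∈ H) (p : el i j s * Z ∈ H)
    (e : D * el i j s * D⁻¹ = (el i j s)⁻¹) (e' : D * Z * D⁻¹ = Z) : el i j s ∈ H := by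
  have q := mul_mem p (inv_mem (l1_cj m p))
  rw [← conj_mul, e, e', _root_.mul_inv_rev, inv_inv, mul_assoc, mul_inv_cancel_left, ← el_add,
    ← two_mul] at q
  exact l1_div (el i j) (el_add i j) (k := 2) (by simpa only [Nat.cast_ofNat, ne_eq] using h2) (by simpa using q)

theorem l2_o6 [Finite K] (h : (2 : K) ≠ 0) :
    IsLeast {n | Good (chev (CartanMatrix.A 5) 1 (RingHom.id K)) n} 3 := by
  obtain ⟨y, y0, -, sp⟩ := l1_gen (K := K)
  set a : GL (Fin 6) K := mon (Equiv.swap 0 1 * (Equiv.swap 2 3 * Equiv.swap 4 5))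
    ![1, -1, 1, -1, 1, -1] with ha
  set b : GL (Fin 6) K := mon (Equiv.swap 0 1 * (Equiv.swap 2 3 * Equiv.swap 4 5))
    ![1, -1, -1, 1, -1, 1] with hb
  set m : GL (Fin 6) K := mon (Equiv.swap 1 2 * (Equiv.swap 3 4 * Equiv.swap 5 0))
    ![-1, -1, 1, 1, -1, 1] with hm
  set d : GL (Fin 6) K := mon 1 ![-1, -1, 1, 1, 1, 1] with hd
  set e : GL (Fin 6) K := mon 1 ![1, 1, 1, -1, 1, -1] with he
  set r : GL (Fin 6) K := mon (finRotate 6) ![-1, 1, 1, 1, 1, 1] with hr
  set U : GL (Fin 6) K := el 3 2 1 with hU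
  set X : K → GL (Fin 6) K := fun s => el 0 2 s * el 5 1 s with hX
  have cm : ∀ s t : K, Commute (el (0 : Fin 6) 2 s) (el 5 1 t) := el_comm (by decide) (by decide)
  have Xa : ∀ s t, X (s + t) = X s * X t := fun s t => by
    simp only [hX, el_add]
    exact (cm t s).mul_mul_mul_comm _ _
  have Xn : ∀ s, X (-s) = (X s)⁻¹ := fun s =>
    eq_inv_of_mul_eq_one_left (by rw [← Xa]; simp [hX, el_zero])
  have as : a ∈ slg 5 K := mon_slg (by simp only [Nat.reduceAdd, Fin.isValue, Equiv.Perm.sign_mul, Equiv.Perm.sign_swap', zero_ne_one, ↓ reduceIte, Fin.reduceEq, mul_neg, mul_one, neg_neg, Units.val_neg, Units.val_one, Int.reduceNeg, Int.cast_neg, Int.cast_one, Fin.prod_univ_six, cons_val_zero, cons_val_one, cons_val])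
  have es : e ∈ slg 5 K := mon_slg (by simp only [Nat.reduceAdd, Equiv.Perm.sign_one, Units.val_one, Int.cast_one, Fin.prod_univ_six, Fin.isValue, cons_val_zero, cons_val_one, mul_one, cons_val, Units.val_neg, mul_neg, neg_neg])
  have rs : r ∈ slg 5 K := mon_slg (by simp only [Nat.reduceAdd, sign_finRotate, Nat.add_one_sub_one, Units.val_pow_eq_pow_val, Units.val_neg, Units.val_one, Int.reduceNeg, Int.reducePow, Int.cast_neg, Int.cast_one, Fin.prod_univ_six, Fin.isValue, cons_val_zero, cons_val_one, mul_one, cons_val, mul_neg, neg_neg])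
  have Us : U ∈ slg 5 K := el_slg _ _ _
  have Xs : ∀ s, X s ∈ slg 5 K := fun s => mul_mem (el_slg _ _ _) (el_slg _ _ _)
  have e1 : e * a * e⁻¹ = b := by
    rw [mul_inv_eq_iff_eq_mul, mon_mul, mon_mul]
    exact mon_congr (by simp) fun i => by fin_cases i <;> simp only [Nat.reduceAdd, Fin.isValue, Fin.zero_eta, Equiv.Perm.coe_mul, Function.comp_apply, Equiv.swap_apply_def, Fin.reduceEq, ↓ reduceIte, Equiv.swap_apply_left, cons_val_one, cons_val_zero, mul_one, Equiv.Perm.coe_one, id_eq, Fin.mk_one, Equiv.swap_apply_right, mul_neg, Fin.reduceFinMk, cons_val]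
  have e2 : r * a * r⁻¹ = m := by
    rw [mul_inv_eq_iff_eq_mul, mon_mul, mon_mul]
    exact mon_congr (by decide) fun i => by fin_cases i <;> simp only [Nat.reduceAdd, Fin.isValue, Fin.zero_eta, Equiv.Perm.coe_mul, Function.comp_apply, Equiv.swap_apply_def, Fin.reduceEq, ↓ reduceIte, Equiv.swap_apply_left, cons_val_one, cons_val_zero, mul_one, finRotate_apply, zero_add, mul_neg, neg_neg, Fin.mk_one, Equiv.swap_apply_right, Fin.reduceAdd, cons_val, Fin.reduceFinMk]
  have ab : a * b = d := by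
    rw [mon_mul]
    exact mon_congr (by decide) fun i => by fin_cases i <;> simp [Equiv.swap_apply_def]
  have ba : b * a = d := by
    rw [mon_mul]
    exact mon_congr (by decide) fun i => by fin_cases i <;> simp [Equiv.swap_apply_def]
  have dU : U * d * U⁻¹ = d := by
    rw [mul_inv_eq_iff_eq_mul, mon_mul_el]; simp [hU, hd]
  have md : m * d * m⁻¹ = mon 1 ![1, 1, -1, 1, 1, -1] := by
    rw [mul_inv_eq_iff_eq_mul, mon_mul, mon_mul]
    exact mon_congr (by simp) fun i => by fin_cases i <;> simp only [Nat.reduceAdd, Fin.zero_eta, Fin.isValue, Equiv.Perm.coe_one, id_eq, cons_val_zero, mul_neg, mul_one, neg_neg, Nat.succ_eq_add_one, Equiv.Perm.coe_mul, Function.comp_apply, Equiv.swap_apply_right, Equiv.swap_apply_def, Fin.reduceEq, ↓ reduceIte, cons_val, Fin.mk_one, cons_val_one, one_ne_zero, Equiv.swap_apply_left, Fin.reduceFinMk, zero_ne_one]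
  have mX : ∀ s, m * X s * m⁻¹ = (X s)⁻¹ := fun s => by
    rw [← Xn, hX, ← conj_mul, mon_el, mon_el]
    simp only [Nat.reduceAdd, Fin.isValue, Equiv.Perm.coe_mul, Function.comp_apply, Equiv.swap_apply_right, Equiv.swap_apply_def, Fin.reduceEq, ↓ reduceIte, cons_val_zero, Units.val_neg, Units.val_one, neg_mul, one_mul, cons_val, div_one, Equiv.swap_apply_left, zero_ne_one, one_ne_zero, cons_val_one, div_neg, (cm _ _).eq]
  have dX : ∀ s, d * X s * d⁻¹ = (X s)⁻¹ := fun s => by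
    rw [← Xn, hX, ← conj_mul, mon_el, mon_el]
    simp only [Nat.reduceAdd, Fin.isValue, Equiv.Perm.coe_one, id_eq, cons_val_zero, Units.val_neg, Units.val_one, neg_mul, one_mul, cons_val, div_one, cons_val_one, div_neg]
  have eb : U * b * U⁻¹ = U * e * U⁻¹ * (U * a * U⁻¹) * (U * e * U⁻¹)⁻¹ := by rw [← e1]; group
  have ec : X y * m = X (y / 2) * r * U⁻¹ * (U * a * U⁻¹) * (X (y / 2) * r * U⁻¹)⁻¹ := by
    rw [← l1_half h Xa mX]
    conv_lhs => rw [← e2]
    group
  refine goodSL (by norm_num) (l1_cj Us as) (l1_cj Us (e1 ▸ l1_cj es as))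
    (mul_mem (Xs y) (e2 ▸ l1_cj rs as)) (l1_cj Us es) (mul_mem (mul_mem (Xs _) rs) (inv_mem Us)) ?_
    (sc_of_eq eb) (sc_of_eq ec) (sc_of_eq (by rw [conj_mul, conj_mul, ab, ba]))
    fun H _ pa pb pc => ?_
  · rw [conj_mul]
    refine Sc.conj ?_ _
    rw [mon_mul, sc_mon]
    exact ⟨by decide, fun i => by fin_cases i <;> simp only [Nat.reduceAdd, Fin.isValue, Fin.zero_eta, Equiv.Perm.coe_mul, Function.comp_apply, Equiv.swap_apply_def, Fin.reduceEq, ↓ reduceIte, Equiv.swap_apply_left, cons_val_one, cons_val_zero, mul_one, Fin.mk_one, Equiv.swap_apply_right, mul_neg, Fin.reduceFinMk, cons_val]⟩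
  have pd := mul_mem pa pb
  rw [conj_mul, ab, dU] at pd
  have t : X y ∈ H := l2_pow h Xa (dX y) (mX y) (by
    rw [mon_mul, mon_pow]
    exact mon_eq_one (by decide) fun i => by
      fin_cases i <;> simp only [Nat.reduceAdd, Fin.isValue, one_mul, Fin.zero_eta, Equiv.Perm.coe_mul, Function.comp_apply, Equiv.swap_apply_def, Finset.prod_range_succ, Finset.range_one, Finset.prod_singleton, pow_zero, Equiv.Perm.coe_one, id_eq, Fin.reduceEq, ↓ reduceIte, cons_val, cons_val_zero, mul_neg, mul_one, pow_succ, Equiv.swap_apply_right, zero_ne_one, neg_neg, Equiv.swap_apply_left, Fin.mk_one, one_ne_zero, cons_val_one, Fin.reduceFinMk]) pd pc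
  have pm := (mul_mem_cancel_left t).1 pc
  have pe := md ▸ l1_cj pm pd
  have cj : ∀ {Z}, Commute U Z → Z ∈ H → U * (a * Z * a⁻¹) * U⁻¹ ∈ H := fun {Z} k q => by
    have := l1_cj pa q
    rwa [show U * a * U⁻¹ * Z * (U * a * U⁻¹)⁻¹ = U * (a * (U⁻¹ * (Z * U)) * a⁻¹) * U⁻¹ by group,
      ← k.eq, inv_mul_cancel_left] at this
  have c1 : ∀ s, U * (a * el 0 2 s * a⁻¹) * U⁻¹ = el 1 2 (-s) * el 1 3 s := fun s => by
    rw [mon_el]
    simp only [hU, Fin.isValue, Nat.reduceAdd, Equiv.Perm.coe_mul, Function.comp_apply, Equiv.swap_apply_def, Fin.reduceEq, ↓ reduceIte, Equiv.swap_apply_left, cons_val_zero, Units.val_one, one_mul, cons_val, div_one, ne_eq, not_false_eq_true, l1_cr, mul_one]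
  have c2 : ∀ s, U * (a * el 5 1 s * a⁻¹) * U⁻¹ = el 4 0 s := fun s => by
    rw [mon_el, (el_comm (by decide) (by decide) _ _).eq]
    simp only [Nat.reduceAdd, Fin.isValue, Equiv.Perm.coe_mul, Function.comp_apply, Equiv.swap_apply_right, Equiv.swap_apply_def, Fin.reduceEq, ↓ reduceIte, cons_val, Units.val_neg, Units.val_one, neg_mul, one_mul, cons_val_one, cons_val_zero, neg_div_neg_eq, div_one, hU, mul_inv_cancel_right]
  have c3 : ∀ s, U * (a * el 0 1 (-s) * a⁻¹) * U⁻¹ = el 1 0 s := fun s => by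
    rw [mon_el, (el_comm (by decide) (by decide) _ _).eq]
    simp only [Nat.reduceAdd, Fin.isValue, Equiv.Perm.coe_mul, Function.comp_apply, Equiv.swap_apply_def, Fin.reduceEq, ↓ reduceIte, Equiv.swap_apply_left, Equiv.swap_apply_right, cons_val_zero, Units.val_one, mul_neg, one_mul, cons_val_one, Units.val_neg, neg_div_neg_eq, div_one, hU, mul_inv_cancel_right]
  have u1 : ∀ s, Commute U (el 0 2 s) := el_comm (by decide) (by decide) _
  have u2 : ∀ s, Commute U (el 5 1 s) := el_comm (by decide) (by decide) _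
  have s1 := cj ((u1 y).mul_right (u2 y)) t
  rw [← conj_mul (b := a), ← conj_mul (b := U), c1, c2, mul_assoc] at s1
  have p12 := l2_sep h pe s1 (by rw [mon_el, ← el_neg]; simp only [Nat.reduceAdd, Nat.succ_eq_add_one, Fin.isValue, Equiv.Perm.coe_one, id_eq, cons_val_one, cons_val_zero, Units.val_one, mul_neg, one_mul, cons_val, Units.val_neg, div_neg, div_one, neg_neg])
    (by rw [← conj_mul, mon_el, mon_el]; simp)
  have p21 := l1_mon pm p12
  simp [Equiv.swap_apply_def] at p21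
  have s2 := l1_cj t p21
  rw [show X y * el 2 1 y * (X y)⁻¹ = el 0 2 y * (el 5 1 y * el 2 1 y * (el 5 1 y)⁻¹) *
    (el 0 2 y)⁻¹ by rw [hX]; group, (el_comm (by decide) (by decide) _ _).eq, mul_inv_cancel_right,
    l1_cl (by decide) (by decide) (by decide), mul_mem_cancel_right p21] at s2
  replace p12 : el 1 2 y ∈ H := by simpa using l1_neg p12
  have q01 : Pe H 0 1 := l1_loop sp (mul_ne_zero y0 y0) s2 p12 p21 (by decide) (by decide)
    (by decide)
  have q02 : Pe H 0 2 := l1_r q01 p12 y0 (by decide) (by decide) (by decide)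
  have s3 : ∀ s, el 1 2 (-s) ∈ H ∧ el 1 3 s ∈ H := fun s => by
    have q := c1 s ▸ cj (u1 s) (q02 s)
    have := l2_sep h pe q (by rw [mon_el, ← el_neg]; simp only [Nat.reduceAdd, Nat.succ_eq_add_one, Fin.isValue, Equiv.Perm.coe_one, id_eq, cons_val_one, cons_val_zero, Units.val_one, mul_neg, one_mul, cons_val, Units.val_neg, div_neg, div_one, neg_neg]) (by rw [mon_el]; simp)
    exact ⟨this, (mul_mem_cancel_left this).1 q⟩
  have q12 : Pe H 1 2 := fun s => neg_neg s ▸ (s3 (-s)).1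
  have q13 : Pe H 1 3 := fun s => (s3 s).2
  have q10 : Pe H 1 0 := fun s => c3 s ▸ cj (el_comm (by decide) (by decide) _ _) (q01 _)
  have q40 : Pe H 4 0 := fun s => c2 s ▸ cj (u2 s) (q02.mon pm s)
  have q21 : Pe H 2 1 := q12.mon pm
  have q24 : Pe H 2 4 := q13.mon pm
  have q52 : Pe H 5 2 := q01.mon pm
  have q32 := (q40.mon pm).rel q52 (by decide) (by decide) (by decide)
  intro i s
  fin_cases i
  exacts [⟨q01 s, q10 s⟩, ⟨q12 s, q21 s⟩, ⟨q21.rel q13 (by decide) (by decide) (by decide) s, q32 s⟩,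
    ⟨q32.rel q24 (by decide) (by decide) (by decide) s,
      (q40.rel q01 (by decide) (by decide) (by decide)).rel q13 (by decide) (by decide) (by decide) s⟩,
    ⟨(q40.rel q02 (by decide) (by decide) (by decide)).rel (q10.mon pm) (by decide) (by decide)
      (by decide) s, q52.rel q24 (by decide) (by decide) (by decide) s⟩]

theorem tL6 [Finite K] : IsLeast {n | Good (chev (CartanMatrix.A 5) 1 (RingHom.id K)) n} 3 :=
  (eq_or_ne (2 : K) 0).elim l2_e6 l2_o6

end Pool.Agent.MP_c78e8e_al.H75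

end

end
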