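import Pool.Agent.MP_c78e8e_al.Mg.Sg_Mon
import Pool.Agent.MP_c78e8e_al.Sg.Sl2
import Pool.Agent.MP_c78e8e_al.Mg.Sg_Ort

attribute [-instance] instCharZeroOfIsSemireal DistribMulActionSemiHomClass.toAddMonoidHomClass
  FloorSemiring.instCharZero MonTypeEquivalenceMon.monMonoid RCLike.charZero_rclike
  instNoNatZeroDivisorsOfIsAddTorsionFree SemigroupWithZero.toSemigroup NormedAlgebra.toAlgebra
  IdemSemiring.toSemiring CommGroup.toDivisionCommMonoid RingConeClass.toSubsemiringClass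
  Fintype.decidableForallFintype RKHS.instFunLike SemilinearMapClass.toAddHomClass
  LieRing.toAddCommGroup NeZero.charZero_one NormMulClass.toNoZeroDivisors
  NonUnitalSubsemiringClass.toAddSubmonoidClass AddSubmonoidWithOneClass.toAddSubmonoidClass
  instCoeOTCOfCoeTC BooleanRing.toRing instIsRightCancelAddOfAddRightReflectLE
  NumberField.to_charZero littleWedderburn Bialgebra.toAlgebra BialgHomClass.toMonoidHomClass
  instSMulZeroClass IsStrictOrderedRing.toCharZero LieAdmissibleRing.toNonUnitalNonAssocRing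
  SemilatticeInf.toPartialOrder NeZero.of_gt' Unique.instInhabited
  NonUnitalSubringClass.toNegMemClass
  ContinuousMonoidHom.instCoeOutOfMonoidHomClassOfContinuousMapClass
  NonUnitalAlgSemiHomClass.toMulHomClass Group.IsPerfect.subsingleton_of_isMulCommutative
  LinearOrderedAddCommGroupWithTop.toAddCommMonoid AddGroupConeClass.toAddSubmonoidClass
  Finset.decidableDforallFinset ValuationClass.toMonoidWithZeroHomClass
  CompletePartialOrder.toPartialOrder FiniteField.instGrindPowIdentity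
  Multiset.decidableDforallMultiset TestFunctionClass.toDFunLike Invertible.toNeZero
  GroupConeClass.toSubmonoidClass ContDiffMapSupportedInClass.toDFunLike instCoeHTCTOfCoeTailOfCoeHTC
  Vector.instDecidableForallForallMemOfDecidablePred instCoeHTCOfCoeHeadOfCoeOTC
  MulCharClass.toMonoidHomClass Array.instDecidableForallForallMemOfDecidablePred
  Option.decidableForallMem NonUnitalAlgHomClass.toNonUnitalRingHomClass Unique.instSubsingleton
  RingSeminormClass.toAddGroupSeminormClass MulDistribMulActionSemiHomClass.toMonoidHomClass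
  Int.decidableLTLE AddQuantale.instAddLeftMono SetLike.GradeZero.instSemiring
  RightPreLieRing.toNonUnitalNonAssocRing GrpTypeEquivalenceGrp.grpGroup
  LeftPreLieRing.toNonUnitalNonAssocRing EquivLike.toFunLike instNonemptyOfMonad
  LinearOrderedAddCommMonoidWithTop.toAddCommMonoid IsFormallyReal.instIsReduced Int.decidableLELE
  instCoeTOfCoeDep LinearOrderedAddCommGroupWithTop.toSubNegMonoid Int.decidableLTLT
  instInhabitedOfMonad Int.decidableLELT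

section

namespace Pool.Agent.MP_c78e8e_al.H75

open Subgroup Matrix
open scoped commutatorElement

/-- The natural module. -/
abbrev OV (n : ℕ) (K : Type) : Type := Fin (2 * n + 3 + 1) → K

variable {n : ℕ} {K : Type} [Field K] {F : Subfield K} {S : AddSubgroup (OV n K)}
  {P : Fin (2 * n + 3 + 1) → Prop}

/-- The product of the reflections in the vectors of a list. -/
noncomputable def ocR (l : List (OV n K)) : GL (Fin (2 * n + 3 + 1)) K := (l.map rfx).prod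

/-- Orthogonal frames of rational nonsingular vectors. -/
def OcF (S : AddSubgroup (OV n K)) (l : List (OV n K)) : Prop :=
  l.Pairwise (fun u v => bo u v = 0) ∧ ∀ u ∈ l, u ∈ S ∧ qo u ≠ 0

/-- The discriminant of a frame. -/
def ocD (l : List (OV n K)) : K := (l.map qo).prod

/-- Orthogonality to all vectors of a list. -/
def OcP (z : OV n K) (l : List (OV n K)) : Prop := ∀ u ∈ l, bo z u = 0

theorem ocR_nil : ocR ([] : List (OV n K)) = 1 := rfl

theorem ocR_cons (u : OV n K) (l : List (OV n K)) : ocR (u :: l) = rfx u * ocR l := by simp [ocR]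

theorem ocR_append (l l' : List (OV n K)) : ocR (l ++ l') = ocR l * ocR l' := by simp [ocR]

theorem ocD_cons (u : OV n K) (l : List (OV n K)) : ocD (u :: l) = qo u * ocD l := by simp [ocD]

theorem ocP_cons {z u : OV n K} {l : List (OV n K)} : OcP z (u :: l) ↔ bo z u = 0 ∧ OcP z l :=
  List.forall_mem_cons

theorem ocF_cons {u : OV n K} {l : List (OV n K)} :
    OcF S (u :: l) ↔ (u ∈ S ∧ qo u ≠ 0) ∧ OcP u l ∧ OcF S l := by
  simp only [OcF, OcP, List.pairwise_cons, List.forall_mem_cons]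
  tauto

theorem ocF_nil : OcF S [] := ⟨List.Pairwise.nil, by simp⟩

theorem ocR_iso (l : List (OV n K)) (v : OV n K) : qo ((ocR l).1 *ᵥ v) = qo v := by
  induction l with
  | nil => simp [ocR_nil]
  | cons u l ih => rw [ocR_cons, monc_mul, rfx_iso, ih]

theorem rfx_fix {u z : OV n K} (h : bo z u = 0) : (rfx u).1 *ᵥ z = z := by simp [rfx_app, h]

theorem rfx_self {u : OV n K} (h : qo u ≠ 0) : (rfx u).1 *ᵥ u = -u := by
  rw [rfx_app, bo_self, mul_div_assoc, div_self h]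
  module

theorem rfx_neg (u : OV n K) : rfx (-u) = rfx u := by
  rw [← neg_one_smul K u, rfx_smul (by simp)]

theorem ocR_fix {l : List (OV n K)} {z : OV n K} (h : OcP z l) : (ocR l).1 *ᵥ z = z := by
  induction l with
  | nil => simp [ocR_nil]
  | cons u l ih => rw [ocR_cons, monc_mul, ih (ocP_cons.1 h).2, rfx_fix (ocP_cons.1 h).1]

/-- An isometry commutes with the reflection in an eigenvector. -/
theorem oc_comm {g : GL (Fin (2 * n + 3 + 1)) K} (iso : ∀ v, qo (g.1 *ᵥ v) = qo v) {u : OV n K}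
    (h : g.1 *ᵥ u = u ∨ g.1 *ᵥ u = -u) : Commute g (rfx u) := by
  have := rfx_conj iso u
  rcases h with h | h
  · rw [h] at this
    exact mul_inv_eq_iff_eq_mul.1 this
  · rw [h, rfx_neg] at this
    exact mul_inv_eq_iff_eq_mul.1 this

theorem ocR_comm {l : List (OV n K)} {z : OV n K} (h : OcP z l) : Commute (ocR l) (rfx z) :=
  oc_comm (ocR_iso l) (Or.inl (ocR_fix h))

theorem rfx_comm {u z : OV n K} (h : bo z u = 0) : Commute (rfx u) (rfx z) :=
  oc_comm (rfx_iso u) (Or.inl (rfx_fix h))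

theorem ocR_comm' {l l' : List (OV n K)} (h : ∀ z ∈ l', OcP z l) : Commute (ocR l) (ocR l') := by
  induction l' with
  | nil => simp [ocR_nil]
  | cons u l' ih =>
    rw [ocR_cons]
    exact (ocR_comm (h u (by simp))).mul_right (ih fun z hz => h z (by simp [hz]))

theorem ocR_sq {l : List (OV n K)} (h : OcF S l) : ocR l * ocR l = 1 := by
  induction l with
  | nil => simp [ocR_nil]
  | cons u l ih =>
    obtain ⟨-, p, h'⟩ := ocF_cons.1 h
    rw [ocR_cons, mul_assoc, ← mul_assoc (ocR l), (ocR_comm p).eq, mul_assoc, ih h', mul_one, rfx_sq]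

theorem ocR_conj {g : GL (Fin (2 * n + 3 + 1)) K} (iso : ∀ v, qo (g.1 *ᵥ v) = qo v)
    (l : List (OV n K)) : g * ocR l * g⁻¹ = ocR (l.map (g.1 *ᵥ ·)) := by
  induction l with
  | nil => simp [ocR_nil]
  | cons u l ih =>
    rw [List.map_cons, ocR_cons, ocR_cons, ← ih, ← rfx_conj iso]
    group

theorem ocR_app {l : List (OV n K)} (h : OcF S l) (z : OV n K) :
    (ocR l).1 *ᵥ z = z - (l.map fun u => (bo z u / qo u) • u).sum := by
  induction l generalizing z with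
  | nil => simp [ocR_nil]
  | cons u l ih =>
    obtain ⟨-, p, h'⟩ := ocF_cons.1 h
    rw [ocR_cons, ← (ocR_comm p).eq, monc_mul, rfx_app, mulVec_sub, mulVec_smul, ocR_fix p, ih h',
      List.map_cons, List.sum_cons]
    abel

theorem ocR_rat (f : MoncFr F S P) {l : List (OV n K)} (h : ∀ u ∈ l, u ∈ S) {z : OV n K}
    (hz : z ∈ S) : (ocR l).1 *ᵥ z ∈ S := by
  induction l with
  | nil => simpa [ocR_nil]
  | cons u l ih =>
    rw [ocR_cons, monc_mul]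
    exact f.rfx (h u (by simp)) _ (ih fun z hz => h z (by simp [hz]))

theorem ocD_mem (f : MoncFr F S P) {l : List (OV n K)} (h : OcF S l) : ocD l ∈ F ∧ ocD l ≠ 0 := by
  induction l with
  | nil => exact ⟨F.one_mem, one_ne_zero⟩
  | cons u l ih =>
    obtain ⟨⟨a, b⟩, -, h'⟩ := ocF_cons.1 h
    rw [ocD_cons]
    exact ⟨F.mul_mem (f.q _ a) (ih h').1, mul_ne_zero b (ih h').2⟩

variable [Finite K]

/-- A plane has an orthogonal basis whose first vector has a prescribed norm. -/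
theorem oc_plane (f : MoncFr F S P) {u v : OV n K} (hu : u ∈ S) (hv : v ∈ S) (qu : qo u ≠ 0)
    (qv : qo v ≠ 0) (o : bo u v = 0) {t : K} (ht : t ∈ F) (t0 : t ≠ 0) :
    ∃ x y : OV n K, x ∈ S ∧ y ∈ S ∧ bo x y = 0 ∧ qo x = t ∧ qo y = t * qo u * qo v ∧
      rfx x * rfx y = rfx u * rfx v ∧
      ∀ z, bo z x = 0 ∧ bo z y = 0 ↔ bo z u = 0 ∧ bo z v = 0 := by
  obtain ⟨a, b, e⟩ := sl2b_quad (F := F) (D := ⟨qo v / qo u, F.div_mem (f.q _ hv) (f.q _ hu)⟩)
    (fun k => div_ne_zero qv qu (congrArg Subtype.val k)) ⟨t / qo u, F.div_mem ht (f.q _ hu)⟩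
  have e' : (a : K) ^ 2 + qo v / qo u * (b : K) ^ 2 = t / qo u := congrArg Subtype.val e
  have e2 : (a : K) ^ 2 * qo u + (b : K) ^ 2 * qo v = t := by
    field_simp at e'
    linear_combination e'
  have o' : bo v u = 0 := by rw [bo_comm, o]
  have qx : qo ((a : K) • u + (b : K) • v) = t := by
    simp only [qo_add, qo_smul, bo_smul, bo_smul', o]
    linear_combination e2
  have qy : qo ((-(b : K) * qo v) • u + ((a : K) * qo u) • v) = t * qo u * qo v := by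
    simp only [qo_add, qo_smul, bo_smul, bo_smul', o]
    linear_combination qo u * qo v * e2
  have oxy : bo ((a : K) • u + (b : K) • v) ((-(b : K) * qo v) • u + ((a : K) * qo u) • v) = 0 := by
    simp only [bo_add, bo_add', bo_smul, bo_smul', o, o', bo_self]
    ring
  refine ⟨_, _, S.add_mem (f.smul _ a.2 _ hu) (f.smul _ b.2 _ hv),
    S.add_mem (f.smul _ (F.mul_mem (F.neg_mem b.2) (f.q _ hv)) _ hu)
      (f.smul _ (F.mul_mem a.2 (f.q _ hu)) _ hv), oxy, qx, qy, monc_ext fun z => ?_, fun z => ?_⟩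
  · rw [monc_mul, monc_mul, rfx_app _ z, rfx_app v z, mulVec_sub, mulVec_sub, mulVec_smul,
      mulVec_smul, rfx_fix o', rfx_fix ((bo_comm _ _).trans oxy), rfx_app, rfx_app, qx, qy]
    simp only [bo_add', bo_smul']
    have k1 : (a * bo z u + b * bo z v) / t * a +
        (-b * qo v * bo z u + a * qo u * bo z v) / (t * qo u * qo v) * (-b * qo v) =
        bo z u / qo u := by
      field_simp
      linear_combination bo z u * e2
    have k2 : (a * bo z u + b * bo z v) / t * b +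
        (-b * qo v * bo z u + a * qo u * bo z v) / (t * qo u * qo v) * (a * qo u) =
        bo z v / qo v := by
      field_simp
      linear_combination bo z v * e2
    rw [← k1, ← k2]
    module
  · simp only [bo_add', bo_smul']
    constructor
    · rintro ⟨p, q⟩
      constructor
      · refine mul_left_cancel₀ t0 ?_
        linear_combination a * qo u * p - b * q - bo z u * e2
      · refine mul_left_cancel₀ t0 ?_
        linear_combination b * qo v * p + a * q - bo z v * e2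
    · rintro ⟨p, q⟩
      simp [p, q]

/-- Frames can be changed to frames with prescribed norms. -/
theorem oc_norm (f : MoncFr F S P) (ts : List K) {l : List (OV n K)} (h : OcF S l)
    (len : ts.length = l.length) (ht : ∀ t ∈ ts, t ∈ F ∧ t ≠ 0) {k : K} (hk : k ∈ F) (k0 : k ≠ 0)
    (e : ts.prod = k ^ 2 * ocD l) : ∃ l', OcF S l' ∧ l'.map qo = ts ∧ ocR l' = ocR l ∧
      ∀ z, OcP z l' ↔ OcP z l := by
  induction ts generalizing l k with
  | nil =>
    obtain rfl := List.length_eq_zero_iff.1 len.symm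
    exact ⟨[], h, rfl, rfl, fun z => Iff.rfl⟩
  | cons t ts ih =>
    obtain ⟨tF, t0⟩ := ht t (by simp)
    match l, len, h, e with
    | [u], len, h, e =>
      obtain rfl : ts = [] := List.length_eq_zero_iff.1 (by simpa using len)
      obtain ⟨⟨a, b⟩, -, -⟩ := ocF_cons.1 h
      have q : qo (k • u) = t := by simpa [qo_smul, ocD] using e.symm
      refine ⟨[k • u], ocF_cons.2 ⟨⟨f.smul _ hk _ a, q ▸ t0⟩, by simp [OcP], ocF_nil⟩, by simp [q],
        by simp [ocR, rfx_smul k0], fun z => by simp [OcP, bo_smul', k0]⟩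
    | u :: v :: r, len, h, e =>
      obtain ⟨⟨a, b⟩, p, h'⟩ := ocF_cons.1 h
      obtain ⟨⟨a', b'⟩, p', h''⟩ := ocF_cons.1 h'
      obtain ⟨o, p2⟩ := ocP_cons.1 p
      obtain ⟨x, y, hx, hy, oxy, qx, qy, er, ez⟩ := oc_plane f a a' b b' o tF t0
      have px : ∀ z ∈ r, bo z x = 0 ∧ bo z y = 0 := fun z hz =>
        (ez z).2 ⟨by rw [bo_comm, p2 z hz], by rw [bo_comm, p' z hz]⟩
      obtain ⟨l', h1, h2, h3, h4⟩ := ih (l := y :: r) (ocF_cons.2 ⟨⟨hy, by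
          rw [qy]; exact mul_ne_zero (mul_ne_zero t0 b) b'⟩, fun z hz => by
          rw [bo_comm, (px z hz).2], h''⟩) (by simpa using len) (fun s hs => ht s (by simp [hs]))
        (F.div_mem hk tF) (div_ne_zero k0 t0) (by
          rw [List.prod_cons, ocD_cons, ocD_cons] at e
          rw [ocD_cons, qy]
          field_simp
          linear_combination e)
      refine ⟨x :: l', ocF_cons.2 ⟨⟨hx, qx ▸ t0⟩, (h4 x).2 (ocP_cons.2 ⟨oxy, fun z hz => by
        rw [bo_comm, (px z hz).1]⟩), h1⟩, by simp [qx, h2], ?_, fun z => ?_⟩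
      · rw [ocR_cons, h3, ocR_cons, ocR_cons, ocR_cons, ← mul_assoc, er, mul_assoc]
      · rw [ocP_cons, h4, ocP_cons, ocP_cons, ocP_cons, ← and_assoc, ez, and_assoc]

/-- The group generated by the rational reflections. -/
def ocG (S : AddSubgroup (OV n K)) : Subgroup (GL (Fin (2 * n + 3 + 1)) K) :=
  Subgroup.closure {g | ∃ u ∈ S, qo u ≠ 0 ∧ g = rfx u}

omit [Finite K] in
theorem ocG_ind (f : MoncFr F S P) {g : GL (Fin (2 * n + 3 + 1)) K} (hg : g ∈ ocG S) :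
    (∀ v, qo (g.1 *ᵥ v) = qo v) ∧ ∀ v ∈ S, g.1 *ᵥ v ∈ S := by
  refine Subgroup.closure_induction'' ?_ ?_ ?_ ?_ hg
  · rintro _ ⟨u, hu, -, rfl⟩
    exact ⟨rfx_iso u, f.rfx hu⟩
  · rintro _ ⟨u, hu, -, rfl⟩
    rw [rfx_inv]
    exact ⟨rfx_iso u, f.rfx hu⟩
  · simp
  · intro x y _ _ p q
    exact ⟨fun v => by rw [monc_mul, p.1, q.1], fun v hv => by rw [monc_mul]; exact p.2 _ (q.2 v hv)⟩

omit [Finite K] in
theorem oc_witt1 (h2 : (2 : K) ≠ 0) {u v : OV n K} (hu : u ∈ S) (hv : v ∈ S) (qv : qo v ≠ 0)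
    (e : qo u = qo v) : ∃ g ∈ ocG S, (g.1 *ᵥ u = v ∨ g.1 *ᵥ u = -v) ∧
      ∀ z, bo z u = 0 → bo z v = 0 → g.1 *ᵥ z = z := by
  have key : ∀ w : OV n K, w ∈ S → qo w = qo u → qo (u - w) ≠ 0 → (∀ z, bo z v = 0 → bo z w = 0) →
      ∃ g ∈ ocG S, g.1 *ᵥ u = w ∧ ∀ z, bo z u = 0 → bo z v = 0 → g.1 *ᵥ z = z := by
    intro w hw e q o
    refine ⟨rfx (u - w), subset_closure ⟨_, S.sub_mem hu hw, q, rfl⟩, ?_, fun z p p' =>
      rfx_fix (by rw [bo_sub', p, o z p', sub_zero])⟩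
    have : bo u (u - w) = qo (u - w) := by rw [bo_sub', qo_sub, bo_self, e]; ring
    rw [rfx_app, this, div_self q]
    module
  by_cases c : qo (u - v) = 0
  · obtain ⟨g, a, b, d⟩ := key (-v) (S.neg_mem hv) (by rw [qo_neg, e]) (fun k => by
      rw [sub_neg_eq_add, qo_add, e] at k
      rw [qo_sub, e] at c
      exact mul_ne_zero h2 (mul_ne_zero h2 qv) (by linear_combination k + c))
      (fun z p => by rw [bo_neg', p, neg_zero])
    exact ⟨g, a, Or.inr b, d⟩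
  · obtain ⟨g, a, b, d⟩ := key v hv e.symm c fun z p => p
    exact ⟨g, a, Or.inl b, d⟩

omit [Finite K] in
theorem oc_witt (f : MoncFr F S P) (h2 : (2 : K) ≠ 0) {l l' : List (OV n K)} (h : OcF S l)
    (h' : OcF S l') (e : l.map qo = l'.map qo) : ∃ g ∈ ocG S, g * ocR l * g⁻¹ = ocR l' ∧
      ∀ z, OcP z l → OcP z l' → g.1 *ᵥ z = z := by
  induction l' generalizing l with
  | nil =>
    obtain rfl : l = [] := by simpa using e
    exact ⟨1, one_mem _, by simp, fun z _ _ => by simp⟩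
  | cons v r' ih =>
    match l, h, e with
    | u :: r, h, e =>
      obtain ⟨⟨a, b⟩, p, h1⟩ := ocF_cons.1 h
      obtain ⟨⟨a', b'⟩, p', h1'⟩ := ocF_cons.1 h'
      simp only [List.map_cons, List.cons.injEq] at e
      obtain ⟨g, hg, gu, gz⟩ := oc_witt1 h2 a a' b' e.1
      obtain ⟨iso, rat⟩ := ocG_ind f hg
      have pv : OcP v (r.map (g.1 *ᵥ ·)) := by
        intro x hx
        obtain ⟨y, hy, rfl⟩ := List.mem_map.1 hx
        have := iso_bo iso u y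
        rw [p y hy] at this
        rcases gu with k | k <;> rw [k] at this
        · exact this
        · rwa [bo_neg, neg_eq_zero] at this
      obtain ⟨g', hg', c, cz⟩ := ih (l := r.map (g.1 *ᵥ ·)) ⟨by
          rw [List.pairwise_map]
          exact h1.1.imp fun k => by rw [iso_bo iso, k], fun x hx => by
          obtain ⟨y, hy, rfl⟩ := List.mem_map.1 hx
          exact ⟨rat _ (h1.2 y hy).1, by rw [iso]; exact (h1.2 y hy).2⟩⟩ h1' (by
          rw [← e.2, List.map_map]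
          exact List.map_congr_left fun x _ => iso x)
      refine ⟨g' * g, mul_mem hg' hg, ?_, fun z pz pz' => ?_⟩
      · have k1 : g * rfx u * g⁻¹ = rfx v := by
          rw [rfx_conj iso]
          rcases gu with k | k <;> rw [k]
          exact rfx_neg v
        have k2 := (oc_comm (ocG_ind f hg').1 (Or.inl (cz v pv p'))).eq
        rw [ocR_cons, ocR_cons, ← c, ← ocR_conj iso, ← k1, ← mul_assoc, ← mul_assoc, k1, ← mul_assoc,
          ← mul_assoc, ← k2, ← k1]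
        group
      · have k := gz z (ocP_cons.1 pz).1 (ocP_cons.1 pz').1
        rw [monc_mul, k]
        refine cz z (fun x hx => ?_) (ocP_cons.1 pz').2
        obtain ⟨y, hy, rfl⟩ := List.mem_map.1 hx
        rw [← k, iso_bo iso, (ocP_cons.1 pz).2 y hy]

theorem oc_nsq (h2 : (2 : K) ≠ 0) (F : Subfield K) : ∃ ν ∈ F, ν ≠ 0 ∧ (∀ k ∈ F, ν ≠ k ^ 2) ∧
    ∀ t ∈ F, t ≠ 0 → ∃ k ∈ F, k ≠ 0 ∧ (t = k ^ 2 ∨ t = k ^ 2 * ν) := by
  have c : ringChar F ≠ 2 := fun k => by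
    have : CharP F 2 := ringChar.of_eq k
    have e := congrArg F.subtype (CharTwo.two_eq_zero (R := F))
    rw [map_ofNat, map_zero] at e
    exact h2 e
  obtain ⟨ν, hν⟩ := FiniteField.exists_nonsquare c
  have ν0 : ν ≠ 0 := fun k => hν (k ▸ IsSquare.zero)
  refine ⟨ν, ν.2, fun k => ν0 (Subtype.ext k), fun k hk e =>
    hν ⟨⟨k, hk⟩, Subtype.ext (by simpa [sq] using e)⟩, fun t ht t0 => ?_⟩
  have t0' : (⟨t, ht⟩ : F) ≠ 0 := fun k => t0 (congrArg Subtype.val k)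
  by_cases s : sl2e_Sq (⟨t, ht⟩ : F)
  · obtain ⟨a, a0, e⟩ := s
    exact ⟨a, a.2, fun k => a0 (Subtype.ext k), Or.inl (congrArg Subtype.val e)⟩
  · obtain ⟨a, a0, e⟩ := sl2e_nn t0' ν0 s fun ⟨a, _, e⟩ => hν ⟨a, by rw [e, sq]⟩
    have e' : t * ν = (a : K) ^ 2 := congrArg Subtype.val e
    have ν0' : (ν : K) ≠ 0 := fun k => ν0 (Subtype.ext k)
    refine ⟨a / ν, F.div_mem a.2 ν.2, div_ne_zero (fun k => a0 (Subtype.ext k)) ν0', Or.inr ?_⟩
    field_simp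
    exact e'

section
variable (f : MoncFr F S P) {i j : Fin (2 * n + 3 + 1)} (hi : P i) (hj : P j) (a1 : j ≠ i)
  (a2 : j ≠ i.rev)
include f hi hj a1 a2

/-- Frames of even length and square discriminant give elements of the group. -/
theorem oc_mem {l : List (OV n K)} (h : OcF S l) {m : ℕ} (len : l.length = 2 * m) {k : K}
    (hk : k ∈ F) (k0 : k ≠ 0) (e : 1 = k ^ 2 * ocD l) : ocR l ∈ moncG S P := by
  obtain ⟨l', h1, h2, h3, -⟩ := oc_norm f (List.replicate (2 * m) 1) h (by simp [len])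
    (fun t ht => by rw [List.eq_of_mem_replicate ht]; exact ⟨F.one_mem, one_ne_zero⟩) hk k0
    (by simpa using e)
  rw [← h3]
  clear h3 len e h
  induction m generalizing l' with
  | zero =>
    obtain rfl : l' = [] := by simpa using h2
    exact one_mem _
  | succ m ih =>
    match l', h1, h2 with
    | u :: v :: r, h1, h2 =>
      rw [Nat.mul_succ, List.replicate_succ, List.replicate_succ] at h2
      simp only [List.map_cons, List.cons.injEq] at h2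
      obtain ⟨⟨a, b⟩, -, h'⟩ := ocF_cons.1 h1
      obtain ⟨⟨a', -⟩, -, h''⟩ := ocF_cons.1 h'
      rw [ocR_cons, ocR_cons, ← mul_assoc]
      exact mul_mem (f.mem hi hj a1 a2 a a' b one_ne_zero F.one_mem (by simp [h2.1, h2.2.1]))
        (ih r h'' h2.2.2)
    | [], _, h2 => simp at h2
    | [u], _, h2 => simp [Nat.mul_succ, List.replicate_succ] at h2

/-- Frames of the same length and discriminant give conjugate involutions. -/
theorem oc_conj (h2 : (2 : K) ≠ 0) {l l' : List (OV n K)} (h : OcF S l) (h' : OcF S l')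
    (len : l'.length = l.length) (two : 2 ≤ l.length) {k : K} (hk : k ∈ F) (k0 : k ≠ 0)
    (e : ocD l' = k ^ 2 * ocD l) : ∃ s ∈ moncG S P, s * ocR l * s⁻¹ = ocR l' := by
  obtain ⟨l1, h1, q1, e1, -⟩ := oc_norm f (l'.map qo) h (by simp [len])
    (fun t ht => by
      obtain ⟨u, hu, rfl⟩ := List.mem_map.1 ht
      exact ⟨f.q _ (h'.2 u hu).1, (h'.2 u hu).2⟩) hk k0 e
  obtain ⟨g, hg, c, -⟩ := oc_witt f h2 h1 h' q1
  rw [e1] at c
  obtain ⟨ν, νF, ν0, -, cls⟩ := oc_nsq h2 F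
  have ex : ∀ t ∈ F, t ≠ 0 → ∃ w ∈ S, qo w = t ∧ Commute (rfx w) (ocR l) := by
    intro t ht t0
    match l, h, two with
    | u :: v :: r, h, _ =>
      obtain ⟨⟨a, b⟩, p, h'⟩ := ocF_cons.1 h
      obtain ⟨⟨a', b'⟩, p', h''⟩ := ocF_cons.1 h'
      obtain ⟨o, p2⟩ := ocP_cons.1 p
      obtain ⟨x, y, hx, -, oxy, qx, -, er, ez⟩ := oc_plane f a a' b b' o ht t0
      refine ⟨x, hx, qx, ?_⟩
      rw [ocR_cons, ocR_cons, ← mul_assoc, ← er]
      refine ((Commute.refl _).mul_right (rfx_comm oxy).symm).mul_right (ocR_comm fun z hz => ?_).symm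
      rw [bo_comm, ((ez z).2 ⟨by rw [bo_comm, p2 z hz], by rw [bo_comm, p' z hz]⟩).1]
  obtain ⟨w1, s1, n1, c1⟩ := ex 1 F.one_mem one_ne_zero
  obtain ⟨w2, s2, n2, c2⟩ := ex ν νF ν0
  let G' : Subgroup (GL (Fin (2 * n + 3 + 1)) K) := Subgroup.closure
    {g | ∃ u ∈ S, ∃ v ∈ S, ∃ k ∈ F, qo u ≠ 0 ∧ k ≠ 0 ∧ qo v = k ^ 2 * qo u ∧ g = rfx u * rfx v}
  have le : G' ≤ moncG S P := (closure_le _).2 (by
    rintro _ ⟨u, hu, v, hv, k, hk, q, k0, e, rfl⟩
    exact f.mem hi hj a1 a2 hu hv q k0 hk e)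
  have nm : ∀ ρ ∈ ocG S, ∀ s ∈ G', ρ * s * ρ⁻¹ ∈ G' := fun ρ hρ s hs => by
    obtain ⟨iso, rat⟩ := ocG_ind f hρ
    refine Subgroup.closure_induction (p := fun s _ => ρ * s * ρ⁻¹ ∈ G') ?_ (by simp) ?_ ?_ hs
    · rintro _ ⟨u, hu, v, hv, k, hk, q, k0, e, rfl⟩
      refine subset_closure ⟨_, rat u hu, _, rat v hv, k, hk, by rwa [iso], k0, by rwa [iso, iso], ?_⟩
      rw [← rfx_conj iso, ← rfx_conj iso]
      group
    · intro x y _ _ p q
      convert mul_mem p q using 1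
      group
    · intro x _ p
      convert inv_mem p using 1
      group
  have one : ∀ u ∈ S, qo u ≠ 0 → ∃ s ∈ G', ∃ ρ ∈ ocG S, Commute ρ (ocR l) ∧ rfx u = s * ρ := by
    intro u hu q
    obtain ⟨k, hk, k0, e | e⟩ := cls _ (f.q _ hu) q
    · refine ⟨(rfx w1 * rfx u)⁻¹, inv_mem (subset_closure ⟨_, s1, _, hu, k, hk, by simp [n1], k0,
        by simp [n1, e], rfl⟩), rfx w1, subset_closure ⟨_, s1, by simp [n1], rfl⟩, c1, ?_⟩
      rw [_root_.mul_inv_rev, inv_mul_cancel_right, rfx_inv]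
    · refine ⟨(rfx w2 * rfx u)⁻¹, inv_mem (subset_closure ⟨_, s2, _, hu, k, hk, by simp [n2, ν0], k0,
        by simp [n2, e], rfl⟩), rfx w2, subset_closure ⟨_, s2, by simp [n2, ν0], rfl⟩, c2, ?_⟩
      rw [_root_.mul_inv_rev, inv_mul_cancel_right, rfx_inv]
  have key : ∃ s ∈ G', ∃ ρ ∈ ocG S, Commute ρ (ocR l) ∧ g = s * ρ := by
    refine Subgroup.closure_induction'' (p := fun g _ => ∃ s ∈ G', ∃ ρ ∈ ocG S,
      Commute ρ (ocR l) ∧ g = s * ρ) ?_ ?_ ⟨1, one_mem _, 1, one_mem _, Commute.one_left _, by simp⟩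
      ?_ hg
    · rintro _ ⟨u, hu, q, rfl⟩
      exact one u hu q
    · rintro _ ⟨u, hu, q, rfl⟩
      rw [rfx_inv]
      exact one u hu q
    · rintro _ _ - - ⟨s, hs, ρ, hρ, c, rfl⟩ ⟨s', hs', ρ', hρ', c', rfl⟩
      exact ⟨s * (ρ * s' * ρ⁻¹), mul_mem hs (nm ρ hρ s' hs'), ρ * ρ', mul_mem hρ hρ', c.mul_left c',
        by group⟩
  obtain ⟨s, hs, ρ, -, cm, rfl⟩ := key
  refine ⟨s, le hs, ?_⟩
  rw [← c, mul_assoc s ρ, cm.eq]
  group

end

omit [Finite K] in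
theorem oc_uni1 {y p : OV n K} (q : qo y ≠ 0) (s : qo p = 0) (o : bo y p = 0) (m : ℕ) (z : OV n K) :
    ((rfx y * rfx (y + p)) ^ m).1 *ᵥ z = z + (m * (bo z p / qo y)) • y -
      (m * (bo z y / qo y) + m ^ 2 * (bo z p / qo y)) • p := by
  have o' : bo p y = 0 := by rw [bo_comm, o]
  have pp : bo p p = 0 := by rw [bo_self, s, mul_zero]
  have q' : qo (y + p) = qo y := by rw [qo_add, s, o, add_zero, add_zero]
  induction m with
  | zero => simp
  | succ m ih =>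
    rw [pow_succ', monc_mul, ih, monc_mul, rfx_app, rfx_app, q']
    simp only [bo_add, bo_add', bo_sub, bo_smul, o, o', pp, bo_self y]
    push_cast
    generalize bo z p = a
    generalize bo z y = b
    ext i
    simp only [Pi.add_apply, Pi.sub_apply, Pi.smul_apply, smul_eq_mul]
    field_simp
    ring

omit [Finite K] in
/-- Moving the vectors of a frame by mutually orthogonal singular vectors changes the involution
by an element whose order divides the characteristic. -/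
theorem oc_uni {l : List (OV n K × OV n K)} (h : OcF S (l.map Prod.fst))
    (hp : ∀ a ∈ l, qo a.2 = 0 ∧ ∀ b ∈ l, bo a.1 b.2 = 0 ∧ bo a.2 b.2 = 0) {m : ℕ} (hm : (m : K) = 0) :
    (ocR (l.map Prod.fst) * ocR (l.map fun a => a.1 + a.2)) ^ m = 1 := by
  induction l with
  | nil => simp [ocR_nil]
  | cons a l ih =>
    rw [List.map_cons] at h
    obtain ⟨⟨-, q⟩, p, h'⟩ := ocF_cons.1 h
    have ih' := ih h' fun b hb => ⟨(hp b (by simp [hb])).1, fun c hc =>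
      (hp b (by simp [hb])).2 c (by simp [hc])⟩
    have o : ∀ b ∈ l, bo a.1 b.1 = 0 ∧ bo a.2 b.1 = 0 ∧ bo a.1 b.2 = 0 ∧ bo a.2 b.2 = 0 :=
      fun b hb => ⟨p _ (List.mem_map_of_mem hb), by
        rw [bo_comm, ((hp b (by simp [hb])).2 a (by simp)).1],
        (hp a (by simp)).2 b (by simp [hb])⟩
    have c1 : Commute (ocR (l.map Prod.fst)) (rfx (a.1 + a.2)) := ocR_comm fun u hu => by
      obtain ⟨b, hb, rfl⟩ := List.mem_map.1 hu
      rw [bo_add, (o b hb).1, (o b hb).2.1, add_zero]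
    have c2 : Commute (ocR (l.map fun a => a.1 + a.2)) (rfx a.1) := ocR_comm fun u hu => by
      obtain ⟨b, hb, rfl⟩ := List.mem_map.1 hu
      rw [bo_add', (o b hb).1, (o b hb).2.2.1, add_zero]
    have c3 : Commute (ocR (l.map fun a => a.1 + a.2)) (rfx (a.1 + a.2)) := ocR_comm fun u hu => by
      obtain ⟨b, hb, rfl⟩ := List.mem_map.1 hu
      simp [bo_add', bo_add, o b hb]
    have c4 := ocR_comm p
    have e : ocR ((a :: l).map Prod.fst) * ocR ((a :: l).map fun a => a.1 + a.2) =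
        (rfx a.1 * rfx (a.1 + a.2)) * (ocR (l.map Prod.fst) * ocR (l.map fun a => a.1 + a.2)) := by
      rw [List.map_cons, List.map_cons, ocR_cons, ocR_cons, mul_assoc, mul_assoc,
        ← mul_assoc (ocR _), c1.eq, mul_assoc]
    rw [e, Commute.mul_pow ((c4.mul_left c2).mul_right (c1.mul_left c3)).symm, ih', mul_one]
    refine monc_ext fun z => ?_
    rw [oc_uni1 q (hp a (by simp)).1 ((hp a (by simp)).2 a (by simp)).1, hm]
    simp

/-- Vectors orthogonal to the hyperbolic plane of the index `i`. -/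
def OcH (i : Fin (2 * n + 3 + 1)) (w : OV n K) : Prop := w i = 0 ∧ w i.rev = 0

/-- Invariance of an additive group of vectors. -/
def OcI (g : GL (Fin (2 * n + 3 + 1)) K) (A : AddSubgroup (OV n K)) : Prop := ∀ w ∈ A, g.1 *ᵥ w ∈ A

/-- The vectors whose Eichler transformation lies in `H`. -/
def ocW (S : AddSubgroup (OV n K)) (H : Subgroup (GL (Fin (2 * n + 3 + 1)) K))
    (i : Fin (2 * n + 3 + 1)) : AddSubgroup (OV n K) where
  carrier := {w | w ∈ S ∧ w i = 0 ∧ w i.rev = 0 ∧ eic i w ∈ H}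
  add_mem' := fun ⟨a, b, c, d⟩ ⟨a', b', c', d'⟩ => ⟨S.add_mem a a', by simp [b, b'], by simp [c, c'],
    by rw [eic_add b c b' c']; exact mul_mem d d'⟩
  zero_mem' := ⟨S.zero_mem, rfl, rfl, by rw [eic_zero]; exact one_mem _⟩
  neg_mem' := fun ⟨a, b, c, d⟩ => ⟨S.neg_mem a, by simp [b], by simp [c],
    by rw [eic_neg b c]; exact inv_mem d⟩

/-- The nonsingular vectors of the hyperbolic plane. -/
def ocg (i : Fin (2 * n + 3 + 1)) (c : K) : OV n K := Pi.single i 1 + Pi.single i.rev c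

section
omit [Finite K]
variable {i : Fin (2 * n + 3 + 1)} {H : Subgroup (GL (Fin (2 * n + 3 + 1)) K)}

theorem ocg_q (c : K) : qo (ocg i c) = c := by
  simp [ocg, qo_add, qo_single, bo_single]

theorem ocg_b {w : OV n K} (h : OcH i w) (c : K) : bo w (ocg i c) = 0 := by
  simp [ocg, bo_add', bo_single', h.1, h.2]

theorem ocg_P {l : List (OV n K)} (h : ∀ u ∈ l, OcH i u) (c : K) : OcP (ocg i c) l :=
  fun u hu => by rw [bo_comm, ocg_b (h u hu)]

theorem ocH_fix {l : List (OV n K)} (h : ∀ u ∈ l, OcH i u) (a : K) :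
    (ocR l).1 *ᵥ Pi.single i a = Pi.single i a ∧
      (ocR l).1 *ᵥ Pi.single i.rev a = Pi.single i.rev a :=
  ⟨ocR_fix fun u hu => by simp [bo_single, (h u hu).2],
    ocR_fix fun u hu => by simp [bo_single, (h u hu).1]⟩

theorem ocg_e {c : K} (c0 : c ≠ 0) : (rfx (ocg i c)).1 *ᵥ Pi.single i 1 = Pi.single i.rev (-c) ∧
    (rfx (ocg i c)).1 *ᵥ Pi.single i.rev 1 = Pi.single i (-c)⁻¹ := by
  have e := monc_ne i
  rw [rfx_app, rfx_app, ocg_q, bo_single, bo_single, monc_one i.rev (-c), monc_one i (-c)⁻¹]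
  simp only [ocg, Pi.add_apply, Fin.rev_rev, Pi.single_eq_same, Pi.single_eq_of_ne e,
    Pi.single_eq_of_ne e.symm]
  rw [monc_one i.rev c]
  constructor <;> match_scalars <;> field_simp <;> ring

theorem oc_fixW (f : MoncFr F S P) {g : GL (Fin (2 * n + 3 + 1)) K} (hg : g ∈ ocG S) (m : g ∈ H)
    (h1 : g.1 *ᵥ Pi.single i 1 = Pi.single i 1) (h2 : g.1 *ᵥ Pi.single i.rev 1 = Pi.single i.rev 1) :
    OcI g (ocW S H i) := fun w ⟨a, b, c, d⟩ => by
  obtain ⟨iso, rat⟩ := ocG_ind f hg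
  have k := eic_conj iso one_ne_zero h1 (by rwa [inv_one]) b c
  have k' := eic_perp0 iso one_ne_zero h1 (by rwa [inv_one]) b c
  rw [one_smul] at k k'
  exact ⟨rat w a, k'.1, k'.2, k ▸ mul_mem (mul_mem m d) (inv_mem m)⟩

theorem ocR_G {l : List (OV n K)} (h : OcF S l) : ocR l ∈ ocG S :=
  Subgroup.list_prod_mem _ fun x hx => by
    obtain ⟨u, hu, rfl⟩ := List.mem_map.1 hx
    exact subset_closure ⟨u, (h.2 u hu).1, (h.2 u hu).2, rfl⟩

/-- Elements that swap the two singular lines of the plane. -/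
theorem oc_swW (f : MoncFr F S P) {l : List (OV n K)} (h : OcF S l) (hl : ∀ u ∈ l, OcH i u) {c : K}
    (cF : c ∈ F) (c0 : c ≠ 0) (m : rfx (ocg i c) * ocR l ∈ H) :
    (∀ w ∈ ocW S H i, (-c) • (ocR l).1 *ᵥ w ∈ ocW S H i.rev) ∧
      ∀ w ∈ ocW S H i.rev, (-c)⁻¹ • (ocR l).1 *ᵥ w ∈ ocW S H i := by
  have iso : ∀ v, qo ((rfx (ocg i c) * ocR l).1 *ᵥ v) = qo v := fun v => by
    rw [monc_mul, rfx_iso, ocR_iso]
  have e1 : (rfx (ocg i c) * ocR l).1 *ᵥ Pi.single i 1 = Pi.single i.rev (-c) := by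
    rw [monc_mul, (ocH_fix hl 1).1, (ocg_e c0).1]
  have e2 : (rfx (ocg i c) * ocR l).1 *ᵥ Pi.single i.rev 1 = Pi.single i (-c)⁻¹ := by
    rw [monc_mul, (ocH_fix hl 1).2, (ocg_e c0).2]
  have c1 : -c ≠ 0 := neg_ne_zero.2 c0
  have e3 : ∀ w, OcH i w → (rfx (ocg i c) * ocR l).1 *ᵥ w = (ocR l).1 *ᵥ w := fun w hw => by
    have := eic_perp0 (ocR_iso l) one_ne_zero (ocH_fix hl 1).1 (by rw [inv_one, (ocH_fix hl 1).2])
      hw.1 hw.2
    rw [one_smul] at this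
    rw [monc_mul, rfx_fix (ocg_b this c)]
  have r := fun w hw => ocR_rat f (fun u hu => (h.2 u hu).1) (z := w) hw
  constructor
  · rintro w ⟨a, b, b', d⟩
    have k := eic_conj iso c1 e1 (by rw [e2, Fin.rev_rev]) b b'
    have k' := eic_perp0 iso c1 e1 (by rw [e2, Fin.rev_rev]) b b'
    rw [e3 w ⟨b, b'⟩] at k k'
    exact ⟨f.smul _ (F.neg_mem cF) _ (r w a), k'.1, k'.2, k ▸ mul_mem (mul_mem m d) (inv_mem m)⟩
  · rintro w ⟨a, b, b', d⟩
    have k := eic_conj iso (inv_ne_zero c1) e2 (by rw [Fin.rev_rev, e1, inv_inv]) b b'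
    have k' := eic_perp0 iso (inv_ne_zero c1) e2 (by rw [Fin.rev_rev, e1, inv_inv]) b b'
    rw [e3 w ⟨by simpa using b', b⟩] at k k'
    exact ⟨f.smul _ (F.inv_mem (F.neg_mem cF)) _ (r w a), k'.1, k'.2,
      k ▸ mul_mem (mul_mem m d) (inv_mem m)⟩

theorem oc_n {v : OV n K} (h : OcH i v) (q : qo v ≠ 0) {t : K} (t0 : t ≠ 0) :
    eic i (t • v) * eic i.rev ((t * qo v)⁻¹ • v) * eic i (t • v) =
      rfx (ocg i (t ^ 2 * qo v)⁻¹) * ocR [v] := by
  refine monc_ext fun z => ?_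
  have e := monc_ne i
  have a : ∀ s : K, (s • v) i = 0 := fun s => by simp [h.1]
  have b : ∀ s : K, (s • v) i.rev = 0 := fun s => by simp [h.2]
  rw [monc_mul, monc_mul, monc_mul, ocR_cons, ocR_nil, mul_one, rfx_app v, rfx_app, ocg_q,
    eic_apply (a _) (b _) z, eic_apply (b _) (by rw [Fin.rev_rev]; exact a _), eic_apply (a _) (b _)]
  simp only [ocg, bo_add, bo_add', bo_sub, bo_smul, bo_smul', bo_single, bo_single', qo_smul,
    bo_self v, Pi.add_apply, Pi.sub_apply, Pi.smul_apply, Fin.rev_rev, Pi.single_eq_same,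
    Pi.single_eq_of_ne e.symm, h.1, h.2, smul_eq_mul]
  rw [monc_one i.rev (t ^ 2 * qo v)⁻¹]
  match_scalars <;> field_simp <;> ring

theorem oc_span (f : MoncFr F S P) (h2 : (2 : K) ≠ 0) {A : AddSubgroup (OV n K)}
    (cl : ∀ k ∈ F, ∀ w ∈ A, k • w ∈ A) {l : List (OV n K)} (h : OcF S l) (hA : ∀ u ∈ l, u ∈ A)
    {w : OV n K} (hw : w ∈ S) : ∃ s ∈ A, OcP (w - s) l ∧ ∀ z, OcP z l → bo z s = 0 := by
  induction l generalizing w with
  | nil => exact ⟨0, A.zero_mem, by simp [OcP], fun z _ => by simp [bo]⟩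
  | cons u l ih =>
    obtain ⟨⟨a, b⟩, p, h'⟩ := ocF_cons.1 h
    have kF : bo w u / bo u u ∈ F := F.div_mem (f.b hw a) (f.b a a)
    obtain ⟨s, hs, p1, p2⟩ := ih h' (fun x hx => hA x (by simp [hx]))
      (S.sub_mem hw (f.smul _ kF _ a))
    refine ⟨(bo w u / bo u u) • u + s, A.add_mem (cl _ kF _ (hA u (by simp))) hs,
      ocP_cons.2 ⟨?_, by rwa [← sub_sub]⟩, fun z hz => ?_⟩
    · rw [bo_sub, bo_add, bo_smul, bo_comm s, p2 u p, div_mul_cancel₀ _
        (by rw [bo_self]; exact mul_ne_zero h2 b)]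
      ring
    · rw [bo_add', bo_smul', (ocP_cons.1 hz).1, p2 z (ocP_cons.1 hz).2]
      ring

theorem OcI.rfx (f : MoncFr F S P) {A : AddSubgroup (OV n K)} (le : A ≤ S)
    (cl : ∀ k ∈ F, ∀ w ∈ A, k • w ∈ A) {u : OV n K} (hu : u ∈ A) : OcI (rfx u) A := fun w hw => by
  rw [rfx_app]
  exact A.sub_mem hw (cl _ (F.div_mem (f.b (le hw) (le hu)) (f.q _ (le hu))) _ hu)

theorem OcI.mul {A : AddSubgroup (OV n K)} {g g' : GL (Fin (2 * n + 3 + 1)) K} (h : OcI g A)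
    (h' : OcI g' A) : OcI (g * g') A := fun w hw => by
  rw [monc_mul]
  exact h _ (h' w hw)

end

/-- The parabolic design. -/
theorem oc_par (f : MoncFr F S P) {i j : Fin (2 * n + 3 + 1)} (hi : P i) (hj : P j) (a1 : j ≠ i)
    (a2 : j ≠ i.rev) (h2 : (2 : K) ≠ 0) {ld lc lb : List (OV n K)} (Fd : OcF S ld) (Fc : OcF S lc)
    (Fb : OcF S lb) (Hd : ∀ u ∈ ld, OcH i u) (Hc : ∀ u ∈ lc, OcH i u) (Hb : ∀ u ∈ lb, OcH i u)
    {m : ℕ} (nd : ld.length = 2 * (m + 1)) (nc : lc.length = ld.length)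
    (nb : lb.length + 1 = ld.length) {k k' : K} (kF : k ∈ F) (k0 : k ≠ 0) (kF' : k' ∈ F)
    (k0' : k' ≠ 0) (ed : 1 = k ^ 2 * ocD ld) (ec : ocD lc = k' ^ 2 * ocD ld)
    (cm : Commute (ocR ld) (ocR lb)) {w v : OV n K} (wS : w ∈ S) (wH : OcH i w)
    (wd : (ocR ld).1 *ᵥ w = -w) (wc : (ocR lc).1 *ᵥ w = -w) {N : ℕ}
    (hN : (ocR ld * ocR lc) ^ N = 1) (hN' : (N : K) = -1) (qv : qo v ≠ 0)
    (bv : (ocR lb).1 *ᵥ v = v ∨ (ocR lb).1 *ᵥ v = -v)
    (s1 : ∀ A : AddSubgroup (OV n K), A ≤ S → w ∈ A → OcI (ocR ld) A → OcI (ocR lc) A →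
      OcI (ocR lb * ocR lc * ocR lb) A → ∀ k ∈ F, k • v ∈ A)
    (s2 : ∀ A : AddSubgroup (OV n K), A ≤ S → (∀ k ∈ F, ∀ w ∈ A, k • w ∈ A) → w ∈ A →
      OcI (ocR ld) A → OcI (ocR lc) A → OcI (ocR lb) A → ∀ x ∈ S, OcH i x → x ∈ A) :
    ∃ a g g' : GL (Fin (2 * n + 3 + 1)) K, a ∈ moncG S P ∧ g ∈ moncG S P ∧ g' ∈ moncG S P ∧
      a * a = 1 ∧ Commute a (g * a * g⁻¹) ∧ ∀ H : Subgroup (GL (Fin (2 * n + 3 + 1)) K),
        a ∈ H → g * a * g⁻¹ ∈ H → g' * a * g'⁻¹ ∈ H → moncG S P ≤ H := by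
  obtain ⟨dF, d0⟩ := ocD_mem f Fd
  obtain ⟨bF, b0⟩ := ocD_mem f Fb
  have βF := F.mul_mem bF dF
  have β0 := mul_ne_zero b0 d0
  have gS : ∀ c ∈ F, ocg i c ∈ S := fun c hc => S.add_mem (f.one i hi) (f.sg (f.rev i hi) hc)
  have Fb' : OcF S (ocg i (ocD lb * ocD ld) :: lb) :=
    ocF_cons.2 ⟨⟨gS _ βF, by rwa [ocg_q]⟩, ocg_P Hb _, Fb⟩
  obtain ⟨g, hg, eg⟩ := oc_conj f hi hj a1 a2 h2 Fd Fb' (by simpa using nb) (by omega) bF b0
    (by rw [ocD_cons, ocg_q]; ring)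
  obtain ⟨g', hg', eg'⟩ := oc_conj f hi hj a1 a2 h2 Fd Fc nc (by omega) kF' k0' ec
  have cj : ∀ {l : List (OV n K)}, (∀ u ∈ l, OcH i u) → (ocR l).1 *ᵥ w = -w → ∀ s : K,
      ocR l * eic i (s • w) * (ocR l)⁻¹ = eic i (-(s • w)) := fun {l} hl e s => by
    rw [eic_conj (ocR_iso l) one_ne_zero (ocH_fix hl 1).1 (by rw [inv_one, (ocH_fix hl 1).2])
      (by simp [wH.1]) (by simp [wH.2]), one_smul, mulVec_smul, e, smul_neg]
  have p1 : ∀ s : K, (s • w) i = 0 := fun s => by simp [wH.1]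
  have p2 : ∀ s : K, (s • w) i.rev = 0 := fun s => by simp [wH.2]
  have h2F : (2 : K)⁻¹ ∈ F := F.inv_mem (ofNat_mem F 2)
  have hG : eic i ((2 : K)⁻¹ • w) ∈ moncG S P := moncG_eic hi (f.smul _ h2F _ wS) (p1 _) (p2 _)
  have ec' : (eic i ((2 : K)⁻¹ • w))⁻¹ * g' * ocR ld * ((eic i ((2 : K)⁻¹ • w))⁻¹ * g')⁻¹ =
      ocR lc * eic i ((1 : K) • w) := by
    have e1 := cj Hc wc 2⁻¹
    rw [eic_neg (p1 _) (p2 _)] at e1
    have e2 : (1 : K) • w = (2 : K)⁻¹ • w + (2 : K)⁻¹ • w := by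
      match_scalars
      field_simp
      ring
    rw [e2, eic_add (p1 _) (p2 _) (p1 _) (p2 _), ← eg', ← mul_assoc]
    rw [← eg'] at e1
    nth_rw 1 [← e1]
    group
  refine ⟨ocR ld, g, _ * g', oc_mem f hi hj a1 a2 Fd nd kF k0 ed, hg, mul_mem (inv_mem hG) hg',
    ocR_sq Fd, ?_, fun H md mb mc => ?_⟩
  · rw [eg, ocR_cons]
    exact (ocR_comm (ocg_P Hd _)).mul_right cm
  rw [eg, ocR_cons] at mb
  rw [ec'] at mc
  have ct : Commute (ocR ld * ocR lc) (eic i ((1 : K) • w)) := by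
    have e1 := cj Hc wc 1
    have e2 := cj Hd wd (-1)
    rw [neg_smul, neg_neg, ← e1] at e2
    rw [Commute, SemiconjBy, ← mul_inv_eq_iff_eq_mul]
    refine Eq.trans ?_ e2
    group
  have pw : ∀ M : ℕ, eic i ((1 : K) • w) ^ M = eic i ((M : K) • w) := fun M => by
    induction M with
    | zero => simp [eic_zero]
    | succ M ih => rw [pow_succ, ih, ← eic_add (p1 _) (p2 _) (p1 _) (p2 _), Nat.cast_succ, add_smul]
  have mu : eic i ((1 : K) • w) ∈ H := by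
    have := pow_mem (mul_mem md mc) N
    rw [← mul_assoc, ct.mul_pow, hN, one_mul, pw, hN', neg_smul, eic_neg (p1 _) (p2 _)] at this
    exact inv_mem_iff.1 this
  replace mc := (mul_mem_cancel_right mu).1 mc
  have wA : w ∈ ocW S H i := ⟨wS, wH.1, wH.2, by simpa using mu⟩
  have le : ocW S H i ≤ S := fun _ h => h.1
  have id := oc_fixW f (ocR_G Fd) md (ocH_fix Hd 1).1 (ocH_fix Hd 1).2
  have ic := oc_fixW f (ocR_G Fc) mc (ocH_fix Hc 1).1 (ocH_fix Hc 1).2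
  have ib : OcI (ocR lb * ocR lc * ocR lb) (ocW S H i) := by
    refine oc_fixW f (mul_mem (mul_mem (ocR_G Fb) (ocR_G Fc)) (ocR_G Fb)) ?_
      (by simp only [monc_mul, (ocH_fix Hb 1).1, (ocH_fix Hc 1).1])
      (by simp only [monc_mul, (ocH_fix Hb 1).2, (ocH_fix Hc 1).2])
    convert mul_mem (mul_mem mb mc) mb using 1
    rw [← (ocR_comm (ocg_P Hb _)).eq, mul_assoc (ocR lb) (rfx _), ← (ocR_comm (ocg_P Hc _)).eq,
      (ocR_comm (ocg_P Hb _)).eq]
    simp only [mul_assoc]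
    rw [← mul_assoc (rfx _), rfx_sq, one_mul]
  have vA := s1 _ le wA id ic ib
  obtain ⟨vS, v1, v2, -⟩ := one_smul K v ▸ vA 1 F.one_mem
  have qF := f.q _ vS
  obtain ⟨sb, -⟩ := oc_swW f Fb Hb βF β0 mb
  have vB : ∀ k ∈ F, k • v ∈ ocW S H i.rev := fun k hk => by
    have := sb _ (vA _ (F.div_mem hk βF))
    rw [mulVec_smul, smul_smul, neg_mul, mul_div_cancel₀ _ β0] at this
    rcases bv with e | e <;> rw [e] at this
    · exact neg_mem_iff.1 (by rwa [neg_smul] at this)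
    · rwa [smul_neg, neg_smul, neg_neg] at this
  have Fv : OcF S [v] := ocF_cons.2 ⟨⟨vS, qv⟩, by simp [OcP], ocF_nil⟩
  have sw := fun (t : K) (tF : t ∈ F) (t0 : t ≠ 0) => oc_swW (H := H) (i := i) f Fv
    (by simpa using ⟨v1, v2⟩) (F.inv_mem (F.mul_mem (F.pow_mem tF 2) qF))
    (inv_ne_zero (mul_ne_zero (pow_ne_zero 2 t0) qv)) (by
      rw [← oc_n ⟨v1, v2⟩ qv t0]
      exact mul_mem (mul_mem (vA t tF).2.2.2 (vB _ (F.inv_mem (F.mul_mem tF qF))).2.2.2)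
        (vA t tF).2.2.2)
  have rr : ∀ x : OV n K, (ocR [v]).1 *ᵥ ((ocR [v]).1 *ᵥ x) = x := fun x => by
    rw [← monc_mul, ocR_sq Fv, Units.val_one, one_mulVec]
  have sq : ∀ t ∈ F, ∀ x ∈ ocW S H i, t ^ 2 • x ∈ ocW S H i := fun t tF x hx => by
    rcases eq_or_ne t 0 with rfl | t0
    · simp
    have := (sw t tF t0).2 _ ((sw 1 F.one_mem one_ne_zero).1 x hx)
    rw [mulVec_smul, rr, smul_smul] at this
    convert this using 2
    field_simp
  have cl : ∀ k ∈ F, ∀ x ∈ ocW S H i, k • x ∈ ocW S H i := fun k hk x hx => by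
    convert sub_mem (sq _ (F.mul_mem h2F (F.add_mem hk F.one_mem)) x hx)
      (sq _ (F.mul_mem h2F (F.sub_mem hk F.one_mem)) x hx) using 1
    match_scalars
    field_simp
    ring
  have iv : OcI (ocR [v]) (ocW S H i) := by
    rw [ocR_cons, ocR_nil, mul_one]
    exact OcI.rfx f le cl (one_smul K v ▸ vA 1 F.one_mem)
  have all := s2 _ le cl wA id ic (fun x hx => by
    have := iv _ ((sw 1 F.one_mem one_ne_zero).2 _ (sb x hx))
    rw [mulVec_smul, rr, smul_smul] at this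
    convert cl _ (F.inv_mem (F.mul_mem qF βF)) _ this using 1
    match_scalars
    field_simp)
  refine f.gen hi fun x xS x1 x2 => ⟨(all x xS ⟨x1, x2⟩).2.2.2, ?_⟩
  have := (sw 1 F.one_mem one_ne_zero).1 _ (iv _ (cl _ (F.neg_mem qF) _ (all x xS ⟨x1, x2⟩)))
  rw [rr, smul_smul] at this
  convert this.2.2.2 using 2
  match_scalars
  field_simp

end Pool.Agent.MP_c78e8e_al.H75

end

section

namespace Pool.Agent.MP_c78e8e_al.H75

open Subgroup Matrix

variable {n : ℕ} {K : Type} [Field K]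

/-- The basis vectors. -/
def o1E (k : ℕ) : OV n K := fun i => if (i : ℕ) = k then 1 else 0

theorem o1E_single (i : Fin (2 * n + 3 + 1)) : (Pi.single i 1 : OV n K) = o1E i := by
  funext j
  simp [o1E, Pi.single_apply, Fin.ext_iff]

theorem o1E_big {k : ℕ} (h : 2 * n + 3 < k) : (o1E k : OV n K) = 0 :=
  funext fun i => if_neg (by omega)

theorem o1_bo (k l : ℕ) : bo (o1E k : OV n K) (o1E l) = if k + l = 2 * n + 3 then 1 else 0 := by
  by_cases h : 2 * n + 3 < k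
  · rw [o1E_big h, if_neg (by omega)]
    simp [bo]
  · rw [← o1E_single (⟨k, by omega⟩ : Fin (2 * n + 3 + 1)), bo_single, one_mul, o1E, Fin.val_rev]
    exact if_congr (by simp only; omega) rfl rfl

theorem o1_qo (k : ℕ) : qo (o1E k : OV n K) = 0 := by
  by_cases h : 2 * n + 3 < k
  · rw [o1E_big h, qo_zero]
  · rw [← o1E_single (⟨k, by omega⟩ : Fin (2 * n + 3 + 1)), qo_single]

theorem o1_sum (v : OV n K) : v = ∑ i, v i • o1E i := by
  simp only [← o1E_single, ← monc_one, Finset.univ_sum_single]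

theorem o1_ext {g : GL (Fin (2 * n + 3 + 1)) K} (h : ∀ k ≤ 2 * n + 3, g.1 *ᵥ o1E k = o1E k) :
    g = 1 := monc_ext fun v => by
  rw [Units.val_one, one_mulVec, o1_sum v, mulVec_sum]
  exact Finset.sum_congr rfl fun i _ => by rw [mulVec_smul, h i (by omega)]

theorem o1_app {l l' : List (OV n K)} :
    OcF ⊤ (l ++ l') ↔ OcF ⊤ l ∧ OcF ⊤ l' ∧ ∀ z ∈ l', OcP z l := by
  simp only [OcF, OcP, List.pairwise_append, List.forall_mem_append]
  constructor
  · rintro ⟨⟨a, b, c⟩, d, e⟩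
    exact ⟨⟨a, d⟩, ⟨b, e⟩, fun z p u q => (bo_comm _ _).trans (c u q z p)⟩
  · rintro ⟨⟨a, d⟩, ⟨b, e⟩, c⟩
    exact ⟨⟨a, b, fun z p u q => (bo_comm _ _).trans (c u q z p)⟩, d, e⟩

theorem o1_half [Finite K] (h : (2 : K) ≠ 0) {A : AddSubgroup (OV n K)} {v : OV n K}
    (hv : v + v ∈ A) : v ∈ A := by
  have h0 := ringChar.Nat.cast_ringChar (R := K)
  obtain ⟨k, hk⟩ := (CharP.char_is_prime K (ringChar K)).odd_of_ne_two fun c => h (by
    rw [c] at h0; exact_mod_cast h0)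
  rw [hk] at h0
  push_cast at h0
  have := A.nsmul_mem hv (k + 1)
  rwa [← Nat.cast_smul_eq_nsmul K, ← two_smul K, smul_smul, show ((k + 1 : ℕ) : K) * 2 = 1 by
    push_cast; linear_combination h0, one_smul] at this

/-- The parameters of the Eichler transformations in `H`. -/
def o1A (H : Subgroup (GL (Fin (2 * n + 3 + 1)) K)) (i : Fin (2 * n + 3 + 1)) (m : K) :
    AddSubgroup (OV n K) where
  carrier := {v | (v i = 0 ∧ v i.rev = 0) ∧ eic i (m • v) ∈ H}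
  add_mem' := fun {a b} h k => ⟨⟨by simp [h.1.1, k.1.1], by simp [h.1.2, k.1.2]⟩, by
    rw [smul_add, eic_add (by simp [h.1.1]) (by simp [h.1.2]) (by simp [k.1.1]) (by simp [k.1.2])]
    exact mul_mem h.2 k.2⟩
  zero_mem' := ⟨⟨rfl, rfl⟩, by rw [smul_zero, eic_zero]; exact one_mem _⟩
  neg_mem' := fun {a} h => ⟨⟨by simp [h.1.1], by simp [h.1.2]⟩, by
    rw [smul_neg, eic_neg (by simp [h.1.1]) (by simp [h.1.2])]; exact inv_mem h.2⟩

theorem o1_tr {H : Subgroup (GL (Fin (2 * n + 3 + 1)) K)} {g : GL (Fin (2 * n + 3 + 1)) K}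
    (hg : g ∈ H) (iso : ∀ v, qo (g.1 *ᵥ v) = qo v) {i j : Fin (2 * n + 3 + 1)} {l m m' : K}
    (l0 : l ≠ 0) (e : l * m = m') (h1 : g.1 *ᵥ o1E i = l • o1E j)
    (h2 : g.1 *ᵥ o1E i.rev = l⁻¹ • o1E j.rev) {v : OV n K} (hv : v ∈ o1A H i m) :
    g.1 *ᵥ v ∈ o1A H j m' := by
  obtain ⟨⟨a, b⟩, p⟩ := hv
  rw [← o1E_single, ← o1E_single, ← monc_one] at h1 h2
  obtain ⟨k, k'⟩ := eic_perp0 iso l0 h1 h2 a b
  refine ⟨⟨by simpa [l0] using k, by simpa [l0] using k'⟩, ?_⟩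
  have := mul_mem (mul_mem hg p) (inv_mem hg)
  rwa [eic_conj iso l0 h1 h2 (by simp [a]) (by simp [b]), mulVec_smul, smul_smul, e] at this

theorem o1_spin [Finite K] (h : (2 : K) ≠ 0) {g c d : GL (Fin (2 * n + 3 + 1)) K}
    {e1 f1 e2 f2 e3 f3 z : OV n K} {κ : K} (κ0 : κ ≠ 0) (sp : Spn κ⁻¹) (cc : c * c = 1)
    (d1 : d.1 *ᵥ e1 = f1 + e2) (d2 : d.1 *ᵥ f1 = f2) (d3 : d.1 *ᵥ e2 = e1 + -f2)
    (d4 : d.1 *ᵥ f3 = -κ⁻¹ • (e3 + z)) (c1 : c.1 *ᵥ e2 = e3) (c2 : c.1 *ᵥ f2 = f3)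
    (c3 : c.1 *ᵥ e3 = e2) (g1 : g.1 *ᵥ (c.1 *ᵥ e1) = -(c.1 *ᵥ e1))
    (g2 : g.1 *ᵥ (c.1 *ᵥ f1) = -(c.1 *ᵥ f1)) (g3 : g.1 *ᵥ e2 = -e2) (g4 : g.1 *ᵥ e3 = e3)
    (g5 : g.1 *ᵥ f3 = f3) (g6 : g.1 *ᵥ (c.1 *ᵥ z) = c.1 *ᵥ z) {T : OV n K → Prop}
    (fin : ∀ U : Submodule K (OV n K), (∀ v ∈ U, c.1 *ᵥ v ∈ U) → (∀ v ∈ U, d.1 *ᵥ v ∈ U) →
      e1 ∈ U → f1 ∈ U → e2 ∈ U → f2 ∈ U → e3 ∈ U → f3 ∈ U → z ∈ U → ∀ v, T v → v ∈ U)
    {B : Bool → AddSubgroup (OV n K)} (hw : e1 - f1 ∈ B true)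
    (hg : ∀ σ, ∀ v ∈ B σ, g.1 *ᵥ v ∈ B σ) (hc : ∀ σ, ∀ v ∈ B σ, c.1 *ᵥ v ∈ B σ)
    (hd : ∀ σ, ∀ v ∈ B σ, d.1 *ᵥ v ∈ B (!σ)) (σ : Bool) (v : OV n K) (hv : T v) : v ∈ B σ := by
  have C : ∀ {σ} {s : K} {v w}, c.1 *ᵥ v = w → s • v ∈ B σ → s • w ∈ B σ := fun e p => by
    rw [← e, ← mulVec_smul]; exact hc _ _ p
  have D : ∀ {σ} {s : K} {v w}, d.1 *ᵥ v = w → s • v ∈ B σ → s • w ∈ B (!σ) := fun e p => by
    rw [← e, ← mulVec_smul]; exact hd _ _ p
  have pr : ∀ {σ} {s : K} {p q}, g.1 *ᵥ (c.1 *ᵥ p) = -(c.1 *ᵥ p) → g.1 *ᵥ (c.1 *ᵥ q) = c.1 *ᵥ q →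
      s • (p + q) ∈ B σ → s • p ∈ B σ := fun {σ s p q} a b m => by
    have k := hc _ _ (sub_mem (hc _ _ m) (hg _ _ (hc _ _ m)))
    simp only [mulVec_smul, mulVec_add, a, b, mulVec_sub, mulVec_neg, ← monc_mul c c, cc,
      Units.val_one, one_mulVec] at k
    refine o1_half h ?_
    convert k using 1
    module
  have k3 : g.1 *ᵥ (c.1 *ᵥ e3) = -(c.1 *ᵥ e3) := by rw [c3, g3]
  have k4 : g.1 *ᵥ (c.1 *ᵥ e2) = c.1 *ᵥ e2 := by rw [c1, g4]
  have k5 : g.1 *ᵥ (c.1 *ᵥ (-f2)) = c.1 *ᵥ (-f2) := by rw [mulVec_neg, c2, mulVec_neg, g5]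
  have a1 : ∀ {σ} {s : K}, s • f1 ∈ B σ → (κ⁻¹ * s) • (e3 + z) ∈ B σ := fun {σ s} p => by
    have := neg_mem (D d4 (C c2 (D d2 p)))
    rwa [Bool.not_not, smul_smul, ← neg_smul, mul_neg, neg_neg, mul_comm s] at this
  have a2 : ∀ {σ} {s : K}, s • f1 ∈ B σ → (κ⁻¹ * s) • e1 ∈ B (!σ) := fun p =>
    pr g1 k5 (D d3 (C c3 (pr k3 g6 (a1 p))))
  have a3 : ∀ σ, f1 ∈ B σ → ∀ s : K, s • f1 ∈ B σ := fun σ p s =>
    sp.ind (P := fun s => s • f1 ∈ B σ) (fun s t p q => by rw [add_smul]; exact add_mem p q)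
      one_ne_zero (by rwa [one_smul]) (fun s p => by simpa using pr g2 k4 (D d1 (a2 p))) s
  have a4 := a3 false (by
    have := D (s := 1) (v := e1 - f1) (w := f1 + (e2 + -f2)) (by rw [mulVec_sub, d1, d2]; abel)
      (by rwa [one_smul])
    simpa using pr g2 (by rw [mulVec_add, mulVec_add, k4, k5]) this)
  have a5 := a3 true (by
    have := sub_mem (a2 (a4 κ)) hw
    rwa [inv_mul_cancel₀ κ0, one_smul, sub_sub_cancel] at this)
  let U : Submodule K (OV n K) :=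
    { carrier := {v | ∀ σ, ∀ s : K, s • v ∈ B σ}
      add_mem' := fun p q σ s => by rw [smul_add]; exact add_mem (p σ s) (q σ s)
      zero_mem' := fun σ s => by rw [smul_zero]; exact zero_mem _
      smul_mem' := fun t v p σ s => by rw [smul_smul]; exact p _ _ }
  have uc : ∀ v ∈ U, c.1 *ᵥ v ∈ U := fun v p σ s => C rfl (p σ s)
  have ud : ∀ v ∈ U, d.1 *ᵥ v ∈ U := fun v p σ s => by simpa using D rfl (p (!σ) s)
  have u1 : f1 ∈ U := fun σ => by cases σ; exacts [a4, a5]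
  have u2 : f2 ∈ U := d2 ▸ ud _ u1
  have u4 : e3 + z ∈ U := fun σ s => by simpa [κ0] using a1 (u1 σ (κ * s))
  have u5 : e3 ∈ U := fun σ s => pr k3 g6 (u4 σ s)
  have u6 : e2 ∈ U := c3 ▸ uc _ u5
  simpa using fin U uc ud (by simpa [d3] using add_mem (ud _ u6) u2) u1 u6 u2 u5 (c2 ▸ uc _ u2)
    (by simpa using sub_mem u4 u5) v hv σ 1

theorem o1_main [Finite K] (h : (2 : K) ≠ 0) (hn : 1 ≤ n) {l0 l1 l2 lc : List (OV n K)}
    {g c d : GL (Fin (2 * n + 3 + 1)) K} {e1 f1 : OV n K} {κ μ : K} {m : ℕ} (κ0 : κ ≠ 0) (μ0 : μ ≠ 0)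
    (fr : OcF ⊤ (l1 ++ (l2 ++ l0))) (fc : OcF ⊤ lc) (hg : g = ocR (l1 ++ l2)) (hc : c = ocR lc)
    (hd : d = ocR (l1 ++ l0)) (n1 : (l1 ++ l0).length = 2 * (m + 1))
    (n2 : (l2 ++ l0).length = 2 * (m + 1)) (n3 : lc.length = 2 * (m + 1))
    (q1 : ocD (l1 ++ l0) = κ ^ 2) (q2 : ocD (l2 ++ l0) = κ ^ 2) (q3 : ocD lc = 2 ^ 2)
    (ge : g.1 *ᵥ o1E 0 = o1E 0) (gf : g.1 *ᵥ o1E (2 * n + 3) = o1E (2 * n + 3))
    (ce : c.1 *ᵥ o1E 0 = o1E 0) (cf : c.1 *ᵥ o1E (2 * n + 3) = o1E (2 * n + 3))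
    (de : d.1 *ᵥ o1E 0 = μ • o1E (2 * n + 3)) (df : d.1 *ᵥ o1E (2 * n + 3) = μ⁻¹ • o1E 0)
    (w1 : (e1 - f1) 0 = 0) (w2 : (e1 - f1) (Fin.rev 0) = 0) (gw : g.1 *ᵥ (e1 - f1) = -(e1 - f1))
    (cw : c.1 *ᵥ (e1 - f1) = -(e1 - f1))
    (t4 : ∀ k ≤ 2 * n + 3, (g * c * (g * c) * (g * c * (g * c))).1 *ᵥ o1E k = o1E k)
    (spin : ∀ B : Bool → AddSubgroup (OV n K), e1 - f1 ∈ B true →
      (∀ σ, ∀ v ∈ B σ, g.1 *ᵥ v ∈ B σ) → (∀ σ, ∀ v ∈ B σ, c.1 *ᵥ v ∈ B σ) →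
      (∀ σ, ∀ v ∈ B σ, d.1 *ᵥ v ∈ B (!σ)) → ∀ σ v, v 0 = 0 ∧ v (Fin.rev 0) = 0 → v ∈ B σ) :
    IsLeast {k | Good (chev (CartanMatrix.D (n + 2)) 1 (RingHom.id K)) k} 3 := by
  generalize e1 - f1 = w at *
  obtain ⟨p1, fb, p2⟩ := o1_app.1 fr
  obtain ⟨p3, p4, p5⟩ := o1_app.1 fb
  have fa := o1_app.2 ⟨p1, p4, fun z hz => p2 z (by simp [hz])⟩
  have m1 : Commute (ocR l1) (ocR l2) := ocR_comm' fun z hz => p2 z (by simp [hz])
  have m2 : Commute (ocR l1) (ocR l0) := ocR_comm' fun z hz => p2 z (by simp [hz])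
  have m3 : Commute (ocR l2) (ocR l0) := ocR_comm' p5
  have ab : d * ocR (l2 ++ l0) = g := by
    rw [hd, hg, ocR_append, ocR_append, ocR_append, m3.eq, mul_assoc, ← mul_assoc (ocR l0), ocR_sq p4,
      one_mul]
  have ba : Commute d (ocR (l2 ++ l0)) := by
    rw [hd, ocR_append, ocR_append]
    exact (m1.mul_right m2).mul_left (m3.symm.mul_right (Commute.refl _))
  have a1 : (⟨1, by omega⟩ : Fin (2 * n + 3 + 1)) ≠ 0 := by simp
  have a2 : (⟨1, by omega⟩ : Fin (2 * n + 3 + 1)) ≠ Fin.rev 0 := by simp [Fin.ext_iff]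
  have ma : d ∈ sog (2 * n + 3) K := by
    rw [hd, monc_sog]
    exact oc_mem monc_fr trivial trivial a1 a2 fa n1 (k := κ⁻¹) trivial (inv_ne_zero κ0)
      (by rw [q1]; field_simp)
  have cj : ∀ {l : List (OV n K)} {t : K}, OcF ⊤ l → l.length = 2 * (m + 1) → t ≠ 0 → ocD l = t ^ 2 →
      ∃ s ∈ sog (2 * n + 3) K, s * d * s⁻¹ = ocR l := fun {l t} p q t0 e => by
    rw [hd, monc_sog]
    exact oc_conj monc_fr trivial trivial a1 a2 h fa p (by omega) (by omega) (k := t / κ) trivial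
      (div_ne_zero t0 κ0) (by rw [q1, e]; field_simp)
  obtain ⟨s, ms, es⟩ := cj fb n2 κ0 q2
  obtain ⟨s', ms', es'⟩ := cj fc n3 h q3
  have ig : ∀ v, qo (g.1 *ᵥ v) = qo v := hg ▸ ocR_iso _
  have ic : ∀ v, qo (c.1 *ᵥ v) = qo v := hc ▸ ocR_iso _
  have id : ∀ v, qo (d.1 *ᵥ v) = qo v := hd ▸ ocR_iso _
  have v0 : ((0 : Fin (2 * n + 3 + 1)) : ℕ) = 0 := rfl
  have v1 : ((Fin.rev 0 : Fin (2 * n + 3 + 1)) : ℕ) = 2 * n + 3 := by simp
  have fx : ∀ {x : GL (Fin (2 * n + 3 + 1)) K}, (∀ v, qo (x.1 *ᵥ v) = qo v) → x.1 *ᵥ o1E 0 = o1E 0 →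
      x.1 *ᵥ o1E (2 * n + 3) = o1E (2 * n + 3) → ∀ v : OV n K, v 0 = 0 → v (Fin.rev 0) = 0 →
      x * eic 0 v * x⁻¹ = eic 0 (x.1 *ᵥ v) := fun i p q v a b => by
    simpa only [one_smul] using eic_conj i one_ne_zero (j := 0) (by rwa [o1E_single])
      (by rwa [inv_one, o1E_single, v1]) a b
  have mk := mul_mem (eic_mem w1 w2) ms'
  have mc := mul_mem (mul_mem mk ma) (inv_mem mk)
  have ec : eic 0 w * s' * d * (eic 0 w * s')⁻¹ = c * (eic 0 (w + w))⁻¹ := by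
    have := fx ic ce cf w w1 w2
    rw [cw, eic_neg w1 w2, mul_inv_eq_iff_eq_mul, eq_inv_mul_iff_mul_eq] at this
    rw [eic_add w1 w2 w1 w2]
    calc _ = eic 0 w * (s' * d * s'⁻¹) * eic 0 w * (eic 0 w * eic 0 w)⁻¹ := by group
      _ = _ := by rw [es', ← hc, mul_assoc _ c, this]
  refine goodO hn ma (es ▸ mul_mem (mul_mem ms ma) (inv_mem ms)) mc ms mk
    (by rw [hd, ocR_sq fa]; exact sc_one) (sc_of_eq es.symm) (sc_of_eq rfl) (sc_of_eq ba.eq)
    fun H _ ha hb hc' i j t hij => ?_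
  have mg : g ∈ H := ab ▸ mul_mem ha hb
  rw [ec] at hc'
  have u1 : (w + w) 0 = 0 := by simp [w1]
  have u2 : (w + w) (Fin.rev 0) = 0 := by simp only [Pi.add_apply, w2, add_zero]
  have wA : w ∈ o1A H 0 1 := by
    have cm : Commute (g * c) (eic 0 (w + w)) := by
      have := fx (x := g * c) (fun v => by rw [monc_mul, ig, ic]) (by rw [monc_mul, ce, ge])
        (by rw [monc_mul, cf, gf]) _ u1 u2
      rwa [monc_mul, mulVec_add, cw, ← neg_add, mulVec_neg, mulVec_add, gw, ← neg_add, neg_neg,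
        mul_inv_eq_iff_eq_mul] at this
    have := pow_mem (mul_mem mg hc') 4
    rw [← mul_assoc, cm.inv_right.mul_pow, show (g * c) ^ 4 = 1 by
      rw [← o1_ext t4]; simp only [pow_succ, pow_zero, one_mul, mul_assoc], one_mul, inv_pow,
      inv_mem_iff] at this
    generalize hx : w + w = x at *
    refine o1_half h (hx ▸ o1_half h (o1_half h ⟨⟨by simp [u1], by
      simp only [Pi.add_apply, u2, add_zero]⟩, ?_⟩))
    rw [one_smul, eic_add (by simp [u1]) (by simp only [Pi.add_apply, u2, add_zero]) (by simp [u1])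
      (by simp only [Pi.add_apply, u2, add_zero]), eic_add u1 u2 u1 u2]
    convert this using 1
    simp only [pow_succ, pow_zero, one_mul, mul_assoc]
  have mc : c ∈ H := (mul_mem_cancel_right (inv_mem (by simpa using (add_mem wA wA).2))).1 hc'
  have tr : ∀ {x : GL (Fin (2 * n + 3 + 1)) K}, x ∈ H → (∀ v, qo (x.1 *ᵥ v) = qo v) →
      x.1 *ᵥ o1E 0 = o1E 0 → x.1 *ᵥ o1E (2 * n + 3) = o1E (2 * n + 3) → ∀ σ,
      ∀ v ∈ cond σ (o1A H 0 1) (o1A H (Fin.rev 0) μ),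
        x.1 *ᵥ v ∈ cond σ (o1A H 0 1) (o1A H (Fin.rev 0) μ) := by
    rintro x p q a b (_ | _) v hv
    · exact o1_tr p q one_ne_zero (one_mul _) (by rwa [v1, one_smul]) (by simpa using a) hv
    · exact o1_tr p q one_ne_zero (one_mul _) (by rwa [one_smul]) (by rwa [v1, inv_one, one_smul]) hv
  have key := spin (cond · (o1A H 0 1) (o1A H (Fin.rev 0) μ)) wA (tr mg ig ge gf) (tr mc ic ce cf) (by
    rintro (_ | _) v hv
    · exact o1_tr ha id (inv_ne_zero μ0) (inv_mul_cancel₀ μ0) (by rwa [v1]) (by simpa using de) hv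
    · exact o1_tr ha id μ0 (mul_one _) (by rwa [v1]) (by simpa using df) hv)
  have le := gen_eic hn (H := H) (i := 0) fun v a b => ⟨by simpa using (key true v ⟨a, b⟩).2, by
    simpa [μ0] using (key false (μ⁻¹ • v) ⟨by simp [a], by rw [Pi.smul_apply, b, smul_zero]⟩).2⟩
  exact ⟨le (subset_closure ⟨i, j, t, by rw [Ne, Fin.ext_iff, Fin.val_rev]; omega, rfl⟩),
    le (subset_closure ⟨j, i, t, by rw [Ne, Fin.ext_iff, Fin.val_rev]; omega, rfl⟩)⟩

theorem o1_fin {U : Submodule K (OV n K)} (h : ∀ k, 0 < k → k < 2 * n + 3 → o1E k ∈ U) (v : OV n K)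
    (hv : v 0 = 0 ∧ v (Fin.rev 0) = 0) : v ∈ U := by
  rw [o1_sum v]
  refine U.sum_mem fun i _ => ?_
  by_cases a : i = 0
  · rw [a, hv.1, zero_smul]; exact zero_mem _
  by_cases b : i = Fin.rev 0
  · rw [b, hv.2, zero_smul]; exact zero_mem _
  rw [Fin.ext_iff] at a b
  exact U.smul_mem _ (h _ (Nat.pos_of_ne_zero a) (by simp at b; omega))

theorem o1_sub {l0 l1 l2 : List (OV n K)} (h : OcF ⊤ (l1 ++ (l2 ++ l0))) :
    OcF ⊤ (l1 ++ l2) ∧ OcF ⊤ (l1 ++ l0) := by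
  obtain ⟨p1, fb, p2⟩ := o1_app.1 h
  obtain ⟨p3, p4, -⟩ := o1_app.1 fb
  exact ⟨o1_app.2 ⟨p1, p3, fun z hz => p2 z (by simp [hz])⟩,
    o1_app.2 ⟨p1, p4, fun z hz => p2 z (by simp [hz])⟩⟩

theorem o1_gen {l : List (OV n K)} (h : OcF ⊤ l) : ∃ g : GL (Fin (2 * n + 3 + 1)) K, g = ocR l ∧
    ∀ z, g.1 *ᵥ z = z - (l.map fun u => (bo z u / qo u) • u).sum :=
  ⟨_, rfl, ocR_app h⟩

theorem o1_d4 [Finite K] (h : (2 : K) ≠ 0) {κ : K} (κ0 : κ ≠ 0) (sp : Spn κ⁻¹) :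
    IsLeast {k | Good (chev (CartanMatrix.D (2 + 2)) 1 (RingHom.id K)) k} 3 := by
  have fr : OcF ⊤ ([o1E 1 - o1E 6 - o1E 2, o1E 1 - o1E 2 - o1E 5] ++ ([o1E 1 + o1E 6 + o1E 2,
      o1E 1 + o1E 2 - o1E 5] ++ [o1E 0 - κ • o1E 7, (o1E 3 + κ • o1E 4 : OV 2 K)])) := by
    simp only [OcF, Nat.reduceMul, Nat.reduceAdd, List.cons_append, List.nil_append, List.pairwise_cons, List.mem_cons, List.not_mem_nil, or_false, bo_sub, forall_eq_or_imp, bo_sub', o1_bo, Nat.reduceEqDiff, ↓ reduceIte, sub_self, Nat.succ_ne_self, sub_zero, zero_sub, bo_add', zero_add, add_zero, OfNat.one_ne_ofNat, bo_smul', mul_zero, forall_eq, and_self, sub_neg_eq_add, bo_add, add_neg_cancel, bo_smul, IsEmpty.forall_iff, implies_true, List.Pairwise.nil, AddSubgroup.mem_top, ne_eq, true_and, qo_sub, o1_qo, neg_eq_zero, one_ne_zero, not_false_eq_true, qo_add, qo_smul, mul_one, κ0]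
  have fc : OcF ⊤ [o1E 1 - o1E 6, o1E 2 - o1E 3 + (o1E 5 - o1E 4), o1E 2 - o1E 3 - (o1E 5 - o1E 4),
      (o1E 1 + o1E 6 : OV 2 K)] := by
    norm_num only [OcF, List.pairwise_cons, List.mem_cons, List.not_mem_nil, or_false, bo_sub, forall_eq_or_imp, bo_add', bo_sub', o1_bo, ite_false, sub_self, add_zero, forall_eq, ite_true, zero_add, and_self, bo_add, sub_zero, zero_sub, sub_neg_eq_add, neg_add_cancel, IsEmpty.forall_iff, implies_true, List.Pairwise.nil, AddSubgroup.mem_top, ne_eq, true_and, qo_sub, o1_qo, neg_eq_zero, one_ne_zero, not_false_eq_true, qo_add, h]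
  obtain ⟨g, hg, ag⟩ := o1_gen (o1_sub fr).1
  obtain ⟨c, hc, ac⟩ := o1_gen fc
  obtain ⟨d, hd, ad⟩ := o1_gen (o1_sub fr).2
  obtain ⟨tg, tc, de, df, d1, d2, d3, d4⟩ : (g.1 *ᵥ o1E 0 = o1E 0 ∧ g.1 *ᵥ o1E 1 = -o1E 1 ∧
      g.1 *ᵥ o1E 2 = -o1E 2 ∧ g.1 *ᵥ o1E 3 = o1E 3 ∧ g.1 *ᵥ o1E 4 = o1E 4 ∧ g.1 *ᵥ o1E 5 = -o1E 5 ∧
      g.1 *ᵥ o1E 6 = -o1E 6 ∧ g.1 *ᵥ o1E 7 = o1E 7) ∧ (c.1 *ᵥ o1E 0 = o1E 0 ∧ c.1 *ᵥ o1E 1 = -o1E 1
      ∧ c.1 *ᵥ o1E 2 = o1E 3 ∧ c.1 *ᵥ o1E 3 = o1E 2 ∧ c.1 *ᵥ o1E 4 = o1E 5 ∧ c.1 *ᵥ o1E 5 = o1E 4 ∧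
      c.1 *ᵥ o1E 6 = -o1E 6 ∧ c.1 *ᵥ o1E 7 = o1E 7) ∧ d.1 *ᵥ o1E 0 = κ • o1E 7 ∧
      d.1 *ᵥ o1E 7 = κ⁻¹ • o1E 0 ∧ d.1 *ᵥ o1E 1 = o1E 6 + o1E 2 ∧ d.1 *ᵥ o1E 6 = o1E 5 ∧
      d.1 *ᵥ o1E 2 = o1E 1 + -o1E 5 ∧ d.1 *ᵥ o1E 4 = -κ⁻¹ • (o1E 3 + 0) := by
    simp only [ag, ac, ad, List.cons_append, List.nil_append, List.map_cons, List.map_nil,
      List.sum_cons, List.sum_nil, bo_add, bo_add', bo_sub, bo_sub', bo_smul, bo_smul', qo_add,
      qo_sub, qo_smul, o1_bo, o1_qo, Nat.reduceAdd, Nat.reduceMul, Nat.reduceEqDiff, reduceIte,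
      mul_zero, mul_one, zero_add, add_zero, sub_zero, sub_self, neg_zero, zero_div, zero_smul,
      zero_sub]
    norm_num only
    and_intros <;> first | trivial | match_scalars <;> field_simp <;> ring
  refine o1_main (m := 1) (e1 := o1E 1) (f1 := o1E 6) h (by simp) κ0 κ0 fr fc hg hc hd rfl rfl rfl
    ?_ ?_ ?_ tg.1 (by simp [tg]) tc.1 (by simp [tc]) de df (by simp [o1E]) (by simp [o1E])
    (by simp [mulVec_sub, tg]; abel) (by simp [mulVec_sub, tc]; abel) (fun k hk => ?_) fun B =>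
    o1_spin h κ0 sp (hc ▸ ocR_sq fc) d1 d2 d3 d4 (by simp [tc]) (by simp [tc]) (by simp [tc])
    (by simp [tg, tc, mulVec_neg]) (by simp [tg, tc, mulVec_neg]) (by simp [tg]) (by simp [tg])
    (by simp [tg]) (by simp [tg, tc, mulVec_neg]) fun U uc ud u1 u2 u3 u4 u5 u6 u7 => o1_fin fun k a
    b => ?_
  iterate 3
    simp only [ocD, Nat.reduceMul, Nat.reduceAdd, List.cons_append, List.nil_append, List.map_cons, qo_sub, o1_qo, add_zero, o1_bo, ↓ reduceIte, zero_sub, bo_sub, Nat.reduceEqDiff, Nat.succ_ne_self, sub_self, sub_zero, sub_neg_eq_add, zero_add, qo_smul, mul_zero, bo_smul', mul_one, qo_add, List.map_nil, List.prod_cons, List.prod_nil, neg_mul, mul_neg, one_mul, neg_neg, bo_add, bo_sub', neg_add_rev]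
    ring
  · interval_cases k <;> simp only [monc_mul, tg, tc, mulVec_neg, neg_neg]
  · interval_cases k <;> assumption

theorem o1_d5 [Finite K] (h : (2 : K) ≠ 0) {κ : K} (κ0 : κ ≠ 0) (sp : Spn κ⁻¹) :
    IsLeast {k | Good (chev (CartanMatrix.D (3 + 2)) 1 (RingHom.id K)) k} 3 := by
  have fr : OcF ⊤ ([o1E 1 - o1E 8 - o1E 2, o1E 1 - o1E 2 - o1E 7] ++ ([o1E 1 + o1E 8 + o1E 2,
      o1E 1 + o1E 2 - o1E 7] ++ [o1E 0 - κ • o1E 9, (o1E 3 + κ • o1E 6 + o1E 4 : OV 3 K)])) := by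
    simp only [OcF, Nat.reduceMul, Nat.reduceAdd, List.cons_append, List.nil_append, List.pairwise_cons, List.mem_cons, List.not_mem_nil, or_false, bo_sub, forall_eq_or_imp, bo_sub', o1_bo, Nat.reduceEqDiff, ↓ reduceIte, sub_self, Nat.succ_ne_self, sub_zero, zero_sub, bo_add', zero_add, add_zero, OfNat.one_ne_ofNat, bo_smul', mul_zero, forall_eq, and_self, sub_neg_eq_add, bo_add, add_neg_cancel, bo_smul, IsEmpty.forall_iff, implies_true, List.Pairwise.nil, AddSubgroup.mem_top, ne_eq, true_and, qo_sub, o1_qo, neg_eq_zero, one_ne_zero, not_false_eq_true, qo_add, qo_smul, mul_one, κ0]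
  have fc : OcF ⊤ [o1E 1 - o1E 8, o1E 2 - o1E 3 + (o1E 7 - o1E 6), o1E 2 - o1E 3 - (o1E 7 - o1E 6),
      (o1E 4 + o1E 5 : OV 3 K)] := by
    norm_num only [OcF, List.pairwise_cons, List.mem_cons, List.not_mem_nil, or_false, bo_sub, forall_eq_or_imp, bo_add', bo_sub', o1_bo, ite_false, sub_self, add_zero, forall_eq, and_self, bo_add, ite_true, sub_zero, zero_sub, sub_neg_eq_add, neg_add_cancel, IsEmpty.forall_iff, implies_true, List.Pairwise.nil, AddSubgroup.mem_top, ne_eq, true_and, qo_sub, o1_qo, neg_eq_zero, one_ne_zero, not_false_eq_true, qo_add, zero_add, h]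
  obtain ⟨g, hg, ag⟩ := o1_gen (o1_sub fr).1
  obtain ⟨c, hc, ac⟩ := o1_gen fc
  obtain ⟨d, hd, ad⟩ := o1_gen (o1_sub fr).2
  obtain ⟨tg, tc, de, df, d1, d2, d3, d4⟩ : (g.1 *ᵥ o1E 0 = o1E 0 ∧ g.1 *ᵥ o1E 1 = -o1E 1 ∧
      g.1 *ᵥ o1E 2 = -o1E 2 ∧ g.1 *ᵥ o1E 3 = o1E 3 ∧ g.1 *ᵥ o1E 4 = o1E 4 ∧ g.1 *ᵥ o1E 5 = o1E 5 ∧
      g.1 *ᵥ o1E 6 = o1E 6 ∧ g.1 *ᵥ o1E 7 = -o1E 7 ∧ g.1 *ᵥ o1E 8 = -o1E 8 ∧ g.1 *ᵥ o1E 9 = o1E 9) ∧
      (c.1 *ᵥ o1E 0 = o1E 0 ∧ c.1 *ᵥ o1E 1 = o1E 8 ∧ c.1 *ᵥ o1E 2 = o1E 3 ∧ c.1 *ᵥ o1E 3 = o1E 2 ∧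
      c.1 *ᵥ o1E 4 = -o1E 5 ∧ c.1 *ᵥ o1E 5 = -o1E 4 ∧ c.1 *ᵥ o1E 6 = o1E 7 ∧ c.1 *ᵥ o1E 7 = o1E 6 ∧
      c.1 *ᵥ o1E 8 = o1E 1 ∧ c.1 *ᵥ o1E 9 = o1E 9) ∧ d.1 *ᵥ o1E 0 = κ • o1E 9 ∧
      d.1 *ᵥ o1E 9 = κ⁻¹ • o1E 0 ∧ d.1 *ᵥ o1E 1 = o1E 8 + o1E 2 ∧ d.1 *ᵥ o1E 8 = o1E 7 ∧
      d.1 *ᵥ o1E 2 = o1E 1 + -o1E 7 ∧ d.1 *ᵥ o1E 6 = -κ⁻¹ • (o1E 3 + o1E 4) := by
    simp only [ag, ac, ad, List.cons_append, List.nil_append, List.map_cons, List.map_nil,
      List.sum_cons, List.sum_nil, bo_add, bo_add', bo_sub, bo_sub', bo_smul, bo_smul', qo_add,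
      qo_sub, qo_smul, o1_bo, o1_qo, Nat.reduceAdd, Nat.reduceMul, Nat.reduceEqDiff, reduceIte,
      mul_zero, mul_one, zero_add, add_zero, sub_zero, sub_self, neg_zero, zero_div, zero_smul,
      zero_sub]
    norm_num only
    and_intros <;> first | trivial | match_scalars <;> field_simp <;> ring
  refine o1_main (m := 1) (e1 := o1E 1) (f1 := o1E 8) h (by simp) κ0 κ0 fr fc hg hc hd rfl rfl rfl
    ?_ ?_ ?_ tg.1 (by simp [tg]) tc.1 (by simp [tc]) de df (by simp [o1E]) (by simp [o1E])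
    (by simp [mulVec_sub, tg]; abel) (by simp [mulVec_sub, tc]) (fun k hk => ?_) fun B => o1_spin h
    κ0 sp (hc ▸ ocR_sq fc) d1 d2 d3 d4 (by simp [tc]) (by simp [tc]) (by simp [tc])
    (by simp [tg, tc, mulVec_neg]) (by simp [tg, tc, mulVec_neg]) (by simp [tg]) (by simp [tg])
    (by simp [tg]) (by simp [tg, tc, mulVec_neg]) fun U uc ud u1 u2 u3 u4 u5 u6 u7 => o1_fin fun k a
    b => ?_
  iterate 3
    simp only [ocD, Nat.reduceMul, Nat.reduceAdd, List.cons_append, List.nil_append, List.map_cons, qo_sub, o1_qo, add_zero, o1_bo, ↓ reduceIte, zero_sub, bo_sub, Nat.reduceEqDiff, Nat.succ_ne_self, sub_self, sub_zero, sub_neg_eq_add, zero_add, qo_smul, mul_zero, bo_smul', mul_one, qo_add, bo_add, bo_smul, List.map_nil, List.prod_cons, List.prod_nil, neg_mul, mul_neg, one_mul, neg_neg, bo_sub', neg_add_rev]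
    ring
  · interval_cases k <;> simp only [monc_mul, tg, tc, mulVec_neg, neg_neg]
  · have u8 : o1E 5 ∈ U := by simpa [tc] using uc _ u7
    interval_cases k <;> assumption

theorem o1_d6 [Finite K] (h : (2 : K) ≠ 0) {κ : K} (κ0 : κ ≠ 0) (sp : Spn κ⁻¹) :
    IsLeast {k | Good (chev (CartanMatrix.D (4 + 2)) 1 (RingHom.id K)) k} 3 := by
  have fr : OcF ⊤ ([o1E 1 - o1E 10 - o1E 2, o1E 1 - o1E 2 - o1E 9] ++ ([o1E 1 + o1E 10 + o1E 2,
      o1E 1 + o1E 2 - o1E 9] ++ [o1E 0 + κ • o1E 11, o1E 3 + κ • o1E 8 + o1E 4,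
      o1E 5 + (o1E 6 - o1E 4), (o1E 5 - (o1E 6 - o1E 4) : OV 4 K)])) := by
    simp only [OcF, Nat.reduceMul, Nat.reduceAdd, List.cons_append, List.nil_append, List.pairwise_cons, List.mem_cons, List.not_mem_nil, or_false, bo_sub, forall_eq_or_imp, bo_sub', o1_bo, Nat.reduceEqDiff, ↓ reduceIte, sub_self, Nat.succ_ne_self, sub_zero, zero_sub, bo_add', zero_add, add_zero, OfNat.one_ne_ofNat, bo_smul', mul_zero, forall_eq, and_self, sub_neg_eq_add, bo_add, add_neg_cancel, bo_smul, neg_add_cancel, IsEmpty.forall_iff, implies_true, List.Pairwise.nil, AddSubgroup.mem_top, ne_eq, true_and, qo_sub, o1_qo, neg_eq_zero, one_ne_zero, not_false_eq_true, qo_add, qo_smul, mul_one, κ0]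
  have fc : OcF ⊤ [o1E 1 - o1E 10, o1E 2 - o1E 3 + (o1E 9 - o1E 8), o1E 2 - o1E 3 - (o1E 9 - o1E 8),
      o1E 1 + o1E 10, o1E 4 + o1E 7, (o1E 5 + o1E 6 : OV 4 K)] := by
    norm_num only [OcF, List.pairwise_cons, List.mem_cons, List.not_mem_nil, or_false, bo_sub, forall_eq_or_imp, bo_add', bo_sub', o1_bo, ite_false, sub_self, add_zero, ite_true, zero_add, forall_eq, and_self, bo_add, sub_zero, zero_sub, sub_neg_eq_add, neg_add_cancel, IsEmpty.forall_iff, implies_true, List.Pairwise.nil, AddSubgroup.mem_top, ne_eq, true_and, qo_sub, o1_qo, neg_eq_zero, one_ne_zero, not_false_eq_true, qo_add, h]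
  obtain ⟨g, hg, ag⟩ := o1_gen (o1_sub fr).1
  obtain ⟨c, hc, ac⟩ := o1_gen fc
  obtain ⟨d, hd, ad⟩ := o1_gen (o1_sub fr).2
  obtain ⟨tg, tc, de, df, d1, d2, d3, d4, d5⟩ : (g.1 *ᵥ o1E 0 = o1E 0 ∧ g.1 *ᵥ o1E 1 = -o1E 1 ∧
      g.1 *ᵥ o1E 2 = -o1E 2 ∧ g.1 *ᵥ o1E 3 = o1E 3 ∧ g.1 *ᵥ o1E 4 = o1E 4 ∧ g.1 *ᵥ o1E 5 = o1E 5 ∧
      g.1 *ᵥ o1E 6 = o1E 6 ∧ g.1 *ᵥ o1E 7 = o1E 7 ∧ g.1 *ᵥ o1E 8 = o1E 8 ∧ g.1 *ᵥ o1E 9 = -o1E 9 ∧
      g.1 *ᵥ o1E 10 = -o1E 10 ∧ g.1 *ᵥ o1E 11 = o1E 11) ∧ (c.1 *ᵥ o1E 0 = o1E 0 ∧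
      c.1 *ᵥ o1E 1 = -o1E 1 ∧ c.1 *ᵥ o1E 2 = o1E 3 ∧ c.1 *ᵥ o1E 3 = o1E 2 ∧ c.1 *ᵥ o1E 4 = -o1E 7 ∧
      c.1 *ᵥ o1E 5 = -o1E 6 ∧ c.1 *ᵥ o1E 6 = -o1E 5 ∧ c.1 *ᵥ o1E 7 = -o1E 4 ∧ c.1 *ᵥ o1E 8 = o1E 9 ∧
      c.1 *ᵥ o1E 9 = o1E 8 ∧ c.1 *ᵥ o1E 10 = -o1E 10 ∧ c.1 *ᵥ o1E 11 = o1E 11) ∧
      d.1 *ᵥ o1E 0 = -κ • o1E 11 ∧ d.1 *ᵥ o1E 11 = (-κ)⁻¹ • o1E 0 ∧ d.1 *ᵥ o1E 1 = o1E 10 + o1E 2 ∧
      d.1 *ᵥ o1E 10 = o1E 9 ∧ d.1 *ᵥ o1E 2 = o1E 1 + -o1E 9 ∧ d.1 *ᵥ o1E 8 = -κ⁻¹ • (o1E 3 + o1E 4)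
      ∧ (2 : K)⁻¹ • (d.1 *ᵥ o1E 7 - o1E 7 + κ⁻¹ • (o1E 3 + o1E 4) + o1E 8) = o1E 5 := by
    simp only [ag, ac, ad, List.cons_append, List.nil_append, List.map_cons, List.map_nil,
      List.sum_cons, List.sum_nil, bo_add, bo_add', bo_sub, bo_sub', bo_smul, bo_smul', qo_add,
      qo_sub, qo_smul, o1_bo, o1_qo, Nat.reduceAdd, Nat.reduceMul, Nat.reduceEqDiff, reduceIte,
      mul_zero, mul_one, zero_add, add_zero, sub_zero, sub_self, neg_zero, zero_div, zero_smul,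
      zero_sub]
    norm_num only
    and_intros <;> first | trivial | match_scalars <;> field_simp <;> ring
  refine o1_main (m := 2) (e1 := o1E 1) (f1 := o1E 10) h (by simp) κ0 (neg_ne_zero.2 κ0) fr fc hg hc
    hd rfl rfl rfl ?_ ?_ ?_ tg.1 (by simp [tg]) tc.1 (by simp [tc]) de df (by simp [o1E])
    (by simp [o1E]) (by simp [mulVec_sub, tg]; abel) (by simp [mulVec_sub, tc]; abel) (fun k hk =>
    ?_) fun B => o1_spin h κ0 sp (hc ▸ ocR_sq fc) d1 d2 d3 d4 (by simp [tc]) (by simp [tc])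
    (by simp [tc]) (by simp [tg, tc, mulVec_neg]) (by simp [tg, tc, mulVec_neg]) (by simp [tg])
    (by simp [tg]) (by simp [tg]) (by simp [tg, tc, mulVec_neg]) fun U uc ud u1 u2 u3 u4 u5 u6 u7 =>
    o1_fin fun k a b => ?_
  iterate 3
    simp [ocD, bo_add, bo_add', bo_sub, bo_sub', bo_smul, bo_smul', qo_add, qo_sub, qo_smul, o1_bo,
      o1_qo]
    ring
  · interval_cases k <;> simp only [monc_mul, tg, tc, mulVec_neg, neg_neg]
  · have u8 : o1E 7 ∈ U := by simpa [tc] using uc _ u7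
    have u9 : o1E 5 ∈ U := d5 ▸ U.smul_mem _ (add_mem (add_mem (sub_mem (ud _ u8) u8)
      (U.smul_mem _ (add_mem u5 u7))) u6)
    have u10 : o1E 6 ∈ U := by simpa [tc] using uc _ u9
    interval_cases k <;> assumption

/-- Block O1. -/
theorem tO1 [Finite K] (h : (2 : K) ≠ 0) {r : ℕ} (hr : r = 4 ∨ r = 5 ∨ r = 6) :
    IsLeast {n | Good (chev (CartanMatrix.D r) 1 (RingHom.id K)) n} 3 := by
  obtain ⟨x, x0, hx⟩ := sl2f_gen (K := K)
  have sp : Spn x⁻¹⁻¹ := by simpa using spn_pow hx one_pos (by simp only [tsub_self, ne_eq, OfNat.ofNat_ne_zero, not_false_eq_true, zero_pow, Nat.card_pos])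
  rcases hr with rfl | rfl | rfl
  exacts [o1_d4 h (inv_ne_zero x0) sp, o1_d5 h (inv_ne_zero x0) sp, o1_d6 h (inv_ne_zero x0) sp]

end Pool.Agent.MP_c78e8e_al.H75

end

section

namespace Pool.Agent.MP_c78e8e_al.H75

open Subgroup Matrix

variable {n : ℕ} {K : Type} [Field K] {φ : K →+* K}

/-- From the conclusion of the parabolic design to the statement on the abstract group. -/
theorem o4_good [Finite K] (hn : 2 ≤ n) (hφ : ∀ s, φ (φ s) = s)
    (h : ∃ a g g' : GL (Fin (2 * n + 3 + 1)) K, a ∈ sog2 _ φ ∧ g ∈ sog2 _ φ ∧ g' ∈ sog2 _ φ ∧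
      a * a = 1 ∧ Commute a (g * a * g⁻¹) ∧ ∀ H : Subgroup (GL (Fin (2 * n + 3 + 1)) K),
        a ∈ H → g * a * g⁻¹ ∈ H → g' * a * g'⁻¹ ∈ H → sog2 _ φ ≤ H) :
    IsLeast {k | Good (chev (CartanMatrix.D (n + 2))
      (Equiv.swap (Fin.last n).castSucc (Fin.last (n + 1))) φ) k} 3 := by
  obtain ⟨a, g, g', ha, hg, hg', aa, cm, gen⟩ := h
  refine goodO2 hn hφ ha (mul_mem (mul_mem hg ha) (inv_mem hg))
    (mul_mem (mul_mem hg' ha) (inv_mem hg')) hg hg' (aa ▸ sc_one) (sc_of_eq rfl) (sc_of_eq rfl)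
    (sc_of_eq cm.eq) fun H _ m1 m2 m3 => ?_
  have le := gen H m1 m2 m3
  refine ⟨fun i j s hi hj hs => ⟨le (subset_closure (Or.inl ⟨i, j, s, ?_, ?_, ?_, hs, rfl⟩)),
    le (subset_closure (Or.inl ⟨j, i, s, ?_, ?_, ?_, hs, rfl⟩))⟩, fun i m s hi hm =>
    ⟨le (subset_closure (Or.inr ⟨i, m, s, ?_, ?_, rfl⟩)),
      le (subset_closure (Or.inr ⟨i.rev, m.rev, -s, ?_, ?_, ?_⟩))⟩⟩
  all_goals first
    | (simp only [ne_eq, mid_iff, Fin.ext_iff, Fin.val_rev]; omega)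
    | skip
  rw [eo_rev (monc_ne m) (monc_ne i), eo_rev (monc_ne m.rev) (monc_ne i), neg_neg, map_neg, neg_neg]

/-- The first middle index. -/
def o4m (n : ℕ) : Fin (2 * n + 3 + 1) := ⟨n + 1, by omega⟩

theorem o4m_mid : Mid (o4m n) := mid_iff.2 (Or.inl rfl)

/-- The anisotropic plane. -/
def o4A (φ : K →+* K) (s : K) : OV n K := Pi.single (o4m n).rev s + Pi.single (o4m n) (φ s)

theorem o4A_b (z : OV n K) (s : K) : bo z (o4A φ s) = s * z (o4m n) + φ s * z (o4m n).rev := by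
  simp only [o4A, bo_add', bo_single', Fin.rev_rev]

theorem o4A_m (s : K) : (o4A φ s : OV n K) (o4m n) = φ s ∧ (o4A φ s : OV n K) (o4m n).rev = s := by
  simp [o4A, Pi.single_eq_of_ne (monc_ne (o4m n)), Pi.single_eq_of_ne (monc_ne (o4m n)).symm]

theorem o4A_q (s : K) : qo (o4A φ s : OV n K) = s * φ s := by
  simp [o4A, qo_add, qo_single, bo_single]

theorem o4A_H (s : K) : OcH 0 (o4A φ s : OV n K) := by
  constructor <;> rw [o4A, Pi.add_apply, Pi.single_eq_of_ne, Pi.single_eq_of_ne, add_zero] <;>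
    simp only [ne_eq, Fin.ext_iff, Fin.val_rev, o4m, Fin.val_zero] <;> omega

theorem o4A_P {z : OV n K} (h : OcH (o4m n) z) (s : K) : bo z (o4A φ s) = 0 := by
  rw [o4A_b, h.1, h.2, mul_zero, mul_zero, add_zero]

theorem o4A_add (s t : K) : (o4A φ (s + t) : OV n K) = o4A φ s + o4A φ t := by
  simp only [o4A, map_add, Pi.single_add]
  abel

theorem o4A_smul {k : K} (h : φ k = k) (s : K) : (o4A φ (k * s) : OV n K) = k • o4A φ s := by
  simp only [o4A, map_mul, h, smul_add, ← Pi.single_smul, smul_eq_mul]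

theorem o4_rot {s : K} (s0 : s ≠ 0) (N : ℕ) (x : OV n K) :
    ((rfx (o4A φ 1) * rfx (o4A φ s)) ^ N).1 *ᵥ x =
      x + (((φ s / s) ^ N - 1) * x (o4m n).rev) • Pi.single (o4m n).rev 1 +
        (((s / φ s) ^ N - 1) * x (o4m n)) • Pi.single (o4m n) 1 := by
  have e := monc_ne (o4m n)
  have p0 : φ s ≠ 0 := (_root_.map_ne_zero φ).2 s0
  induction N with
  | zero => simp
  | succ N ih =>
    rw [pow_succ', monc_mul, ih, monc_mul, rfx_app, rfx_app, o4A_q, o4A_q, o4A_b, o4A_b]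
    simp only [o4A, Pi.add_apply, Pi.sub_apply, Pi.smul_apply, Pi.single_eq_same,
      Pi.single_eq_of_ne e, Pi.single_eq_of_ne e.symm, smul_eq_mul, map_one, pow_succ]
    rw [monc_one (o4m n).rev s, monc_one (o4m n) (φ s)]
    generalize (φ s / s) ^ N = a
    generalize (s / φ s) ^ N = b
    match_scalars <;> field_simp <;> ring

theorem o4_swap (h2 : (2 : K) ≠ 0) {u v : OV n K} (qu : qo u = 1) (qv : qo v = 1) (o : bo u v = 0) :
    qo (u - v) = 2 ∧ (rfx (u - v)).1 *ᵥ u = v ∧ (rfx (u - v)).1 *ᵥ v = u := by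
  have q : qo (u - v) = 2 := by rw [qo_sub, qu, qv, o]; ring
  rw [rfx_app, rfx_app, q, bo_sub', bo_sub', bo_self, bo_self, bo_comm v, o, qu, qv]
  refine ⟨rfl, ?_, ?_⟩ <;> match_scalars <;> field_simp <;> ring

theorem ocR_neg {S : AddSubgroup (OV n K)} {l : List (OV n K)} (h : OcF S l) {u : OV n K}
    (hu : u ∈ l) : (ocR l).1 *ᵥ u = -u := by
  induction l with
  | nil => simp at hu
  | cons x l ih =>
    obtain ⟨⟨-, q⟩, p, h'⟩ := ocF_cons.1 h
    rw [ocR_cons, monc_mul]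
    rcases List.mem_cons.1 hu with rfl | hu
    · rw [ocR_fix p, rfx_self q]
    · rw [ih h' hu, mulVec_neg, rfx_fix (by rw [bo_comm, p u hu])]

theorem ocR_eig {l l' : List (OV n K)} (h : ∀ x ∈ l', (ocR l).1 *ᵥ x = x ∨ (ocR l).1 *ᵥ x = -x) :
    Commute (ocR l) (ocR l') := by
  induction l' with
  | nil => simp [ocR_nil]
  | cons u l' ih =>
    rw [ocR_cons]
    exact (oc_comm (ocR_iso l) (h u (by simp))).mul_right (ih fun z hz => h z (by simp [hz]))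

/-- Obvious eigenvectors. -/
def O4E (x : OV n K) (l : List (OV n K)) : Prop :=
  (∀ u ∈ l, bo x u = 0) ∨ x ∈ l ∨ ∃ u ∈ l, ∃ u' ∈ l, x = u - u'

theorem O4E.eig {S : AddSubgroup (OV n K)} {l : List (OV n K)} {x : OV n K} (e : O4E x l)
    (h : OcF S l) : (ocR l).1 *ᵥ x = x ∨ (ocR l).1 *ᵥ x = -x := by
  rcases e with e | e | ⟨u, hu, u', hu', rfl⟩
  · exact Or.inl (ocR_fix e)
  · exact Or.inr (ocR_neg h e)
  · right
    rw [mulVec_sub, ocR_neg h hu, ocR_neg h hu']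
    abel

variable [Finite K]

theorem o4_par (hφ : ∀ s, φ (φ s) = s) (ne : φ ≠ RingHom.id K) (h2 : (2 : K) ≠ 0) :
    ∃ s k : K, s ≠ 0 ∧ φ k = k ∧ k ≠ 0 ∧ s * φ s = 2 * k ^ 2 ∧ Spn (φ s / s) := by
  obtain ⟨z, z1, -, gen, sp, sp2, -⟩ := norm_gen hφ ne
  obtain ⟨s, s0, e⟩ := hilbert90 hφ ne z1
  have p0 : φ s ≠ 0 := (_root_.map_ne_zero φ).2 s0
  have ez : φ (φ s) / φ s = z := by rw [hφ, div_eq_iff p0, e]
  obtain ⟨ν, -, ν0, -, cls⟩ := oc_nsq h2 (Fix φ)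
  have tF : φ s * s ∈ Fix φ := by
    show φ _ = _
    rw [map_mul, hφ, RingHom.id_apply, mul_comm]
  obtain ⟨k, hk, k0, c⟩ := cls 2 (ofNat_mem _ 2) h2
  have hk' : φ k = k := hk
  rcases c with c | c
  · refine ⟨φ s ^ 2, φ s * s / k, pow_ne_zero 2 p0, (Fix φ).div_mem tF hk,
      div_ne_zero (mul_ne_zero p0 s0) k0, by rw [map_pow, hφ, c]; field_simp, ?_⟩
    rw [map_pow, ← div_pow, ez]
    refine sp2 fun c9 => ?_
    obtain ⟨cd, fr⟩ := card_fix hφ ne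
    have c3 : Nat.card (Fix φ) = 3 := Nat.pow_left_injective two_ne_zero (by simpa only [RingHom.mem_eqLocusField, RingHom.id_apply, Nat.reducePow, c9] using cd.symm)
    have := fr k
    rw [c3, hk'] at this
    exact k0 (by linear_combination k * c - this)
  · obtain ⟨k', hk1, k1, c' | c'⟩ := cls _ tF (mul_ne_zero p0 s0)
    · have hk1' : φ k' = k' := hk1
      obtain ⟨a, ea⟩ := gen (φ s / k') (by rw [map_div₀, hφ, hk1']; field_simp; exact c')
      obtain ⟨b, eb⟩ := gen (-1) (by simp)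
      have e1 : z ^ (2 * a + 1) = 1 := by
        rw [pow_succ, mul_comm 2, pow_mul, ← ea]
        field_simp
        linear_combination φ s * e + c'
      have e2 : (-1 : K) ^ (2 * a + 1) = 1 := by rw [eb, ← pow_mul, mul_comm, pow_mul, e1, one_pow]
      rw [pow_succ, pow_mul, neg_one_sq, one_pow] at e2
      exact absurd (by linear_combination -e2) h2
    · refine ⟨φ s, k' / k, p0, (Fix φ).div_mem hk1 hk, div_ne_zero k1 k0, ?_, ez ▸ sp⟩
      rw [hφ, c', c]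
      field_simp

/-- Orthogonal bases with prescribed norms of the sum of the inner hyperbolic planes. -/
theorem o4_frame (h2 : (2 : K) ≠ 0) (ts : List K) (len : ts.length = 2 * n)
    (ht : ∀ t ∈ ts, t = 1 ∨ t = -1) (e : ts.prod = (-1) ^ n) :
    ∃ l : List (OV n K), OcF (moncS φ) l ∧ l.map qo = ts ∧ (∀ u ∈ l, OcH 0 u ∧ OcH (o4m n) u) ∧
      ∀ z, OcH 0 z → OcH (o4m n) z → OcP z l → z = 0 := by
  have key : ∀ t ≤ n, ∃ l : List (OV n K), OcF (moncS φ) l ∧ l.length = 2 * t ∧ ocD l = (-1) ^ t ∧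
      ∀ z, OcP z l ↔ ∀ j : Fin (2 * n + 3 + 1), 1 ≤ (j : ℕ) → (j : ℕ) ≤ t → OcH j z := by
    intro t ht
    induction t with
    | zero => exact ⟨[], ocF_nil, rfl, by simp [ocD], fun z => ⟨fun _ j a b => by omega,
        fun _ => by simp [OcP]⟩⟩
    | succ t ih =>
      obtain ⟨l, h1, h3, h4, h5⟩ := ih (by omega)
      obtain ⟨i, hi⟩ : ∃ i : Fin (2 * n + 3 + 1), (i : ℕ) = t + 1 := ⟨⟨t + 1, by omega⟩, rfl⟩
      have nm : ¬ Mid i := by rw [mid_iff]; omega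
      have gS : ∀ c : K, φ c = c → ocg i c ∈ moncS φ := fun c hc =>
        (moncS φ).add_mem (rat_single nm (map_one φ)) (rat_single (mt mid_rev.1 nm) hc)
      have gP : ∀ c : K, OcP (ocg i c) l := fun c => (h5 _).2 fun j a b => by
        constructor <;> rw [ocg, Pi.add_apply, Pi.single_eq_of_ne, Pi.single_eq_of_ne, add_zero] <;>
          simp only [ne_eq, Fin.ext_iff, Fin.val_rev] <;> omega
      have gb : ∀ (z : OV n K) (c : K), bo z (ocg i c) = z i.rev + c * z i := fun z c => by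
        simp [ocg, bo_add', bo_single']
      refine ⟨ocg i 1 :: ocg i (-1) :: l, ocF_cons.2 ⟨⟨gS _ (map_one φ), by simp [ocg_q]⟩,
        ocP_cons.2 ⟨?_, gP _⟩, ocF_cons.2 ⟨⟨gS _ (by simp), by simp [ocg_q]⟩, gP _, h1⟩⟩,
        by simp [h3]; ring, by simp only [ocD_cons, ocg_q, h4, neg_mul, one_mul, mul_neg, pow_succ, mul_one], fun z => ?_⟩
      · rw [gb]
        simp [ocg, Pi.single_eq_of_ne (monc_ne i), Pi.single_eq_of_ne (monc_ne i).symm]
      · rw [ocP_cons, ocP_cons, h5, gb, gb]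
        constructor
        · rintro ⟨p, q, r⟩ j a b
          rcases Nat.lt_or_ge t j with c | c
          · obtain rfl : j = i := Fin.ext (by omega)
            exact ⟨mul_left_cancel₀ h2 (by linear_combination p - q),
              mul_left_cancel₀ h2 (by linear_combination p + q)⟩
          · exact r j a c
        · intro r
          have := r i (by omega) (by omega)
          exact ⟨by simp [this.1, this.2], by simp [this.1, this.2], fun j a b => r j a (by omega)⟩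
  obtain ⟨l, h1, h3, h4, h5⟩ := key n le_rfl
  obtain ⟨l', k1, k2, -, k4⟩ := oc_norm monc_fr2 ts h1 (by rw [len, h3]) (fun t h => by
    rcases ht t h with rfl | rfl
    · exact ⟨one_mem _, one_ne_zero⟩
    · exact ⟨neg_mem (one_mem _), by simp⟩) (one_mem _) one_ne_zero (by rw [e, h4]; simp only [one_pow, one_mul])
  refine ⟨l', k1, k2, fun u hu => ?_, fun z a b c => ?_⟩
  · have : ∀ i : Fin (2 * n + 3 + 1), (i : ℕ) = 0 ∨ (i : ℕ) = n + 1 ∨ (i : ℕ) = n + 2 ∨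
        (i : ℕ) = 2 * n + 3 → u i = 0 := fun i hi => by
      have := (k4 (Pi.single i.rev 1)).2 ((h5 _).2 fun j a b => by
        constructor <;> rw [Pi.single_eq_of_ne] <;>
          simp only [ne_eq, Fin.ext_iff, Fin.val_rev] <;> omega) u hu
      simpa [bo_single] using this
    refine ⟨⟨this _ ?_, this _ ?_⟩, this _ ?_, this _ ?_⟩ <;>
      simp only [Fin.val_rev, o4m, Fin.val_zero, true_or, or_true] <;> omega
  · have k := (h5 z).1 ((k4 z).1 c)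
    have : ∀ j : Fin (2 * n + 3 + 1), (j : ℕ) ≤ n + 1 → OcH j z := fun j hj => by
      rcases Nat.eq_zero_or_pos j with c | c
      · rwa [show j = 0 from Fin.ext c]
      · rcases Nat.lt_or_ge n j with c' | c'
        · rwa [show j = o4m n from Fin.ext (by simp only [o4m]; omega)]
        · exact k j c c'
    funext j
    rcases Nat.lt_or_ge (n + 1) j with c | c
    · simpa using (this j.rev (by rw [Fin.val_rev]; omega)).2
    · exact (this j c).1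

/-- The part of the design that is common to all ranks. -/
theorem o4_core (hn : 2 ≤ n) (hφ : ∀ s, φ (φ s) = s) (ne : φ ≠ RingHom.id K) (h2 : (2 : K) ≠ 0)
    {θ : K} {v1 v2 y : OV n K} {r ld lc lb : List (OV n K)} (hL : OcF (moncS φ) (v1 :: v2 :: y :: r))
    (q1 : qo v1 = 1) (q2 : qo v2 = 1) (qy : qo y = 1)
    (hU : ∀ u ∈ v1 :: v2 :: y :: r, OcH 0 u ∧ OcH (o4m n) u)
    (full : ∀ z, OcH 0 z → OcH (o4m n) z → OcP z (v1 :: v2 :: y :: r) → z = 0)
    (Fd : OcF (moncS φ) (y :: ld)) (Fc : OcF (moncS φ) (y :: lc)) (Fb : OcF (moncS φ) lb)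
    (Hd : ∀ x ∈ ld, (OcH 0 x ∧ OcH (o4m n) x) ∧ bo v1 x = 0 ∧ bo v2 x = 0)
    (Hc : ∀ x ∈ lc, (OcH 0 x ∧ OcH (o4m n) x) ∧ bo v1 x = 0 ∧ bo v2 x = 0)
    (Hb : ∀ x ∈ lb, (OcH 0 x ∧ bo x (o4A φ 1) = 0) ∧ bo v1 x = 0 ∧ bo v2 x = 0)
    {m : ℕ} (nd : ld.length = 2 * m) (nc : lc.length = 2 * m + 1) (nb : lb.length = 2 * m + 2)
    (ed : ocD ld = 1) {κ : K} (hκ : φ κ = κ) (κ0 : κ ≠ 0) (ec : ocD lc = κ ^ 2)
    (Ec : ∀ x ∈ lc, O4E x (y :: ld)) (Eb : ∀ x ∈ lb, O4E x (y :: ld))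
    (spread : ∀ A : AddSubgroup (OV n K), A ≤ moncS φ → (∀ k, φ k = k → ∀ w ∈ A, k • w ∈ A) →
      o4A φ θ ∈ A → y ∈ A → OcI (ocR lc) A → OcI (ocR lb) A → ∀ u ∈ r, u ∈ A) :
    IsLeast {k | Good (chev (CartanMatrix.D (n + 2))
      (Equiv.swap (Fin.last n).castSucc (Fin.last (n + 1))) φ) k} 3 := by
  obtain ⟨s, k, s0, hk, k0, ns, sp⟩ := o4_par hφ ne h2
  have p0 : φ s ≠ 0 := (_root_.map_ne_zero φ).2 s0
  have f := monc_fr2 (n := n) (φ := φ)
  have AS : ∀ t, (o4A φ t : OV n K) ∈ moncS φ := rat_mid hφ o4m_mid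
  obtain ⟨⟨S1, -⟩, p1, hL2⟩ := ocF_cons.1 hL
  obtain ⟨⟨S2, -⟩, p2, hL3⟩ := ocF_cons.1 hL2
  obtain ⟨o12, p1⟩ := ocP_cons.1 p1
  have o1y := (ocP_cons.1 p1).1
  have o2y := (ocP_cons.1 p2).1
  have U1 := hU v1 (by simp)
  have U2 := hU v2 (by simp)
  have Uy := hU y (by simp)
  have Sy := (ocF_cons.1 Fd).1.1
  have qa : qo (o4A φ 1 : OV n K) = 1 := by simp [o4A_q]
  have Ab : ∀ {x : OV n K}, OcH (o4m n) x → ∀ t, bo (o4A φ t) x = 0 := fun h t => by
    rw [bo_comm, o4A_P h]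
  obtain ⟨qc, c1, c2⟩ := o4_swap h2 q1 q2 o12
  obtain ⟨qb, b1, -⟩ := o4_swap h2 qa q1 (Ab U1.2 1)
  have sub : ∀ {i} {x x' : OV n K}, OcH i x → OcH i x' → OcH i (x - x') := fun a b =>
    ⟨by simp [a.1, b.1], by simp [a.2, b.2]⟩
  have Fd' : OcF (moncS φ) (v1 :: v2 :: y :: ld) :=
    ocF_cons.2 ⟨⟨S1, by simp [q1]⟩, ocP_cons.2 ⟨o12, ocP_cons.2 ⟨o1y, fun x hx => (Hd x hx).2.1⟩⟩,
      ocF_cons.2 ⟨⟨S2, by simp [q2]⟩, ocP_cons.2 ⟨o2y, fun x hx => (Hd x hx).2.2⟩, Fd⟩⟩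
  have Fc' : OcF (moncS φ) ((v1 - v2) :: y :: lc) :=
    ocF_cons.2 ⟨⟨sub_mem S1 S2, by rwa [qc]⟩, ocP_cons.2 ⟨by rw [bo_sub, o1y, o2y, sub_zero],
      fun x hx => by rw [bo_sub, (Hc x hx).2.1, (Hc x hx).2.2, sub_zero]⟩, Fc⟩
  have Ud : ∀ x ∈ v1 :: v2 :: y :: ld, OcH 0 x ∧ OcH (o4m n) x := by
    simp only [List.forall_mem_cons]
    exact ⟨U1, U2, Uy, fun x hx => (Hd x hx).1⟩
  have Uc : ∀ x ∈ (v1 - v2) :: y :: lc, OcH 0 x ∧ OcH (o4m n) x := by
    simp only [List.forall_mem_cons]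
    exact ⟨⟨sub U1.1 U2.1, sub U1.2 U2.2⟩, Uy, fun x hx => (Hc x hx).1⟩
  have Pd : ∀ t, OcP (o4A φ t) (v1 :: v2 :: y :: ld) := fun t x hx => Ab (Ud x hx).2 t
  have Pc : ∀ t, OcP (o4A φ t) ((v1 - v2) :: y :: lc) := fun t x hx => Ab (Uc x hx).2 t
  have FD : OcF (moncS φ) (o4A φ 1 :: v1 :: v2 :: y :: ld) :=
    ocF_cons.2 ⟨⟨AS _, by simp [qa]⟩, Pd 1, Fd'⟩
  have FC : OcF (moncS φ) (o4A φ s :: (v1 - v2) :: y :: lc) :=
    ocF_cons.2 ⟨⟨AS _, by rw [o4A_q]; exact mul_ne_zero s0 p0⟩, Pc s, Fc'⟩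
  have FB : OcF (moncS φ) ((o4A φ 1 - v1) :: lb) :=
    ocF_cons.2 ⟨⟨sub_mem (AS _) S1, by rwa [qb]⟩, fun x hx => by
      rw [bo_sub, bo_comm, (Hb x hx).1.2, (Hb x hx).2.1, sub_zero], Fb⟩
  have E2 : ∀ x, bo v1 x = 0 → bo v2 x = 0 → O4E x (y :: ld) →
      (ocR (v1 :: v2 :: y :: ld)).1 *ᵥ x = x ∨ (ocR (v1 :: v2 :: y :: ld)).1 *ᵥ x = -x :=
    fun x a b c => by
      rw [ocR_cons v1, ocR_cons v2, monc_mul, monc_mul]
      rw [bo_comm] at a b
      rcases c.eig Fd with c | c <;> simp [c, mulVec_neg, rfx_fix a, rfx_fix b]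
  have cdc : Commute (ocR (v1 :: v2 :: y :: ld)) (ocR ((v1 - v2) :: y :: lc)) := ocR_eig (by
    simp only [List.forall_mem_cons]
    refine ⟨Or.inr ?_, Or.inr (ocR_neg Fd' (by simp)), fun x hx =>
      E2 x (Hc x hx).2.1 (Hc x hx).2.2 (Ec x hx)⟩
    rw [mulVec_sub, ocR_neg Fd' (by simp), ocR_neg Fd' (by simp)]
    abel)
  have cdb : Commute (ocR (o4A φ 1 :: v1 :: v2 :: y :: ld)) (ocR ((o4A φ 1 - v1) :: lb)) :=
    ocR_eig (by
      simp only [List.forall_mem_cons]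
      refine ⟨Or.inr ?_, fun x hx => ?_⟩
      · rw [mulVec_sub, ocR_neg FD (by simp), ocR_neg FD (by simp)]
        abel
      · rw [ocR_cons, monc_mul]
        rcases E2 x (Hb x hx).2.1 (Hb x hx).2.2 (Eb x hx) with c | c <;>
          simp [c, mulVec_neg, rfx_fix (Hb x hx).1.2])
  obtain ⟨D, eD⟩ : ∃ D, D = ocR (o4A φ 1 :: v1 :: v2 :: y :: ld) := ⟨_, rfl⟩
  obtain ⟨C, eC⟩ : ∃ C, C = ocR (o4A φ s :: (v1 - v2) :: y :: lc) := ⟨_, rfl⟩
  obtain ⟨B, eB⟩ : ∃ B, B = ocR ((o4A φ 1 - v1) :: lb) := ⟨_, rfl⟩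
  obtain ⟨T, eT⟩ : ∃ T, T = ocR (v1 :: v2 :: y :: ld) * ocR ((v1 - v2) :: y :: lc) := ⟨_, rfl⟩
  have TA : ∀ t, T.1 *ᵥ o4A φ t = o4A φ t := fun t => by
    rw [eT, monc_mul, ocR_fix (Pc t), ocR_fix (Pd t)]
  have cT : ∀ t, Commute T (rfx (o4A φ t)) := fun t =>
    eT ▸ (ocR_comm (Pd t)).mul_left (ocR_comm (Pc t))
  have TT : T ^ 2 = 1 := by rw [eT, cdc.mul_pow, sq, sq, ocR_sq Fd', ocR_sq Fc', mul_one]
  have DC : D * C = rfx (o4A φ 1) * rfx (o4A φ s) * T := by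
    rw [eD, eC, eT, ocR_cons (o4A φ 1), ocR_cons (o4A φ s), mul_assoc, mul_assoc,
      ← mul_assoc (ocR _), (ocR_comm (Pd s)).eq, mul_assoc]
  have pw : ∀ N, (D * C) ^ (2 * N) = (rfx (o4A φ 1) * rfx (o4A φ s)) ^ (2 * N) := fun N => by
    rw [DC, ((cT 1).mul_right (cT s)).symm.mul_pow, pow_mul T, TT, one_pow, mul_one]
  have Ba : B.1 *ᵥ o4A φ 1 = v1 := by
    rw [eB, ocR_cons, monc_mul, ocR_fix fun x hx => by rw [bo_comm, (Hb x hx).1.2], b1]
  have Bv : B.1 *ᵥ v2 = v2 := by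
    rw [eB]
    exact ocR_fix (ocP_cons.2 ⟨by rw [bo_sub', bo_comm, Ab U2.2, bo_comm, o12, sub_zero],
      fun x hx => (Hb x hx).2.2⟩)
  have Cv : C.1 *ᵥ v1 = v2 ∧ C.1 *ᵥ v2 = v1 := by
    rw [eC, ocR_cons, ocR_cons, monc_mul, monc_mul, monc_mul, monc_mul,
      ocR_fix (ocP_cons.2 ⟨o1y, fun x hx => (Hc x hx).2.1⟩),
      ocR_fix (ocP_cons.2 ⟨o2y, fun x hx => (Hc x hx).2.2⟩), c1, c2, rfx_fix (o4A_P U1.2 s),
      rfx_fix (o4A_P U2.2 s)]
    exact ⟨rfl, rfl⟩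
  have Ga : (B * C * B).1 *ᵥ o4A φ 1 = v2 := by rw [monc_mul, monc_mul, Ba, Cv.1, Bv]
  have st : ∀ A : AddSubgroup (OV n K), A ≤ moncS φ → y + (v1 - v2) ∈ A → OcI D A → OcI C A →
      OcI (B * C * B) A → (∀ t, o4A φ t ∈ A) ∧ ∀ k ∈ Fix φ, k • v2 ∈ A := by
    intro A le wA id ic ib
    have xA := ib _ wA
    have iso : ∀ v, qo ((B * C * B).1 *ᵥ v) = qo v := fun v => by
      rw [monc_mul, monc_mul, eB, eC, ocR_iso, ocR_iso, ocR_iso]
    have Gv : (B * C * B).1 *ᵥ v2 = o4A φ 1 := by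
      rw [monc_mul, monc_mul, Bv, Cv.2, ← Ba, ← monc_mul, eB, ocR_sq FB, Units.val_one, one_mulVec]
    have bx := iso_bo iso (y + (v1 - v2)) v2
    rw [Gv, bo_add, bo_sub, bo_comm y, o2y, o12, bo_self, q2, o4A_b] at bx
    generalize (B * C * B).1 *ᵥ (y + (v1 - v2)) = x at xA bx
    have xr : φ (x (o4m n).rev) = x (o4m n) := by
      have := le xA (o4m n).rev
      rwa [swm_mid (mid_rev.2 o4m_mid), Fin.rev_rev] at this
    have x0 : x (o4m n).rev ≠ 0 := fun e => h2 (by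
      rw [← xr, e, map_zero] at bx
      linear_combination bx)
    have it := id.mul ic
    have z2 : (φ s / s) ^ 2 - 1 ≠ 0 := fun e => by
      have hz : φ (φ s / s) = φ s / s := by
        rcases sq_eq_one_iff.1 (sub_eq_zero.1 e) with c | c <;> simp only [c, map_one, map_neg]
      exact ne (RingHom.ext (sp.ind (P := fun t => φ t = t) (fun a b p q => by rw [map_add, p, q])
        one_ne_zero (map_one φ) fun t p => by rw [map_mul, hz, p]))
    have all : ∀ t, o4A φ t ∈ A := sp.ind (P := fun t => o4A φ t ∈ A)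
      (fun a b p q => by rw [o4A_add]; exact add_mem p q) (mul_ne_zero z2 x0) (by
        have := sub_mem (it _ (it _ xA)) xA
        rw [← monc_mul, ← sq, show (D * C) ^ 2 = _ from pw 1, o4_rot s0, mul_one] at this
        convert this using 1
        rw [o4A, monc_one (o4m n).rev, monc_one (o4m n), map_mul, map_sub, map_pow, map_div₀, hφ,
          map_one, xr]
        module) fun t p => by
        have := it _ p
        rw [DC, monc_mul, TA, ← pow_one (rfx _ * rfx _), o4_rot s0, (o4A_m t).1, (o4A_m t).2] at this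
        convert this using 1
        rw [o4A, o4A, monc_one (o4m n).rev, monc_one (o4m n), monc_one (o4m n).rev t,
          monc_one (o4m n) (φ t), map_mul, map_div₀, hφ]
        module
    refine ⟨all, fun k hk => ?_⟩
    have := ib _ (all (k * 1))
    rwa [o4A_smul hk, mulVec_smul, Ga] at this
  have := Fintype.ofFinite K
  have cN : ((Fintype.card K - 1 : ℕ) : K) = -1 := by
    rw [Nat.cast_sub Fintype.card_pos, FiniteField.cast_card_eq_zero, Nat.cast_one, zero_sub]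
  have pN := fun (t : K) (t0 : t ≠ 0) => FiniteField.pow_card_sub_one_eq_one t t0
  obtain ⟨N, eN⟩ : Even (Fintype.card K - 1) := by
    refine (Nat.even_or_odd _).resolve_right fun c => h2 ?_
    have := pN (-1) (by simp)
    rw [c.neg_one_pow] at this
    linear_combination -this
  refine o4_good hn hφ ?_
  rw [monc_sog2 hφ]
  refine oc_par f (i := 0) (j := ⟨1, by omega⟩) (by rw [mid_iff]; simp)
    (by rw [mid_iff]; simp; omega) (by simp) (by simp [Fin.ext_iff]) h2 FD FC FB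
    (List.forall_mem_cons.2 ⟨o4A_H _, fun x hx => (Ud x hx).1⟩)
    (List.forall_mem_cons.2 ⟨o4A_H _, fun x hx => (Uc x hx).1⟩)
    (List.forall_mem_cons.2 ⟨sub (o4A_H _) U1.1, fun x hx => (Hb x hx).1.1⟩) (m := m + 1)
    (by simp [nd]; ring) (by simp [nd, nc]) (by simp [nd, nb]) (one_mem _) one_ne_zero
    (k' := 2 * k * κ) (mul_mem (mul_mem (ofNat_mem _ 2) hk) hκ) (mul_ne_zero (mul_ne_zero h2 k0) κ0)
    (by simp [ocD_cons, qa, q1, q2, qy, ed])
    (by simp only [ocD_cons, qa, q1, q2, qy, ed, ec, qc, o4A_q, ns]; ring) cdb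
    (w := y + (v1 - v2)) (v := v2) (add_mem Sy (sub_mem S1 S2))
    ⟨by simp [Uy.1.1, U1.1.1, U2.1.1], by
      rw [Pi.add_apply, Pi.sub_apply, Uy.1.2, U1.1.2, U2.1.2, sub_zero, add_zero]⟩ ?_ ?_ (N := Fintype.card K - 1) ?_ cN (by simp [q2]) (Or.inl (eB ▸ Bv)) ?_ ?_
  · rw [mulVec_add, mulVec_sub, ocR_neg FD (by simp), ocR_neg FD (by simp), ocR_neg FD (by simp)]
    abel
  · rw [mulVec_add, ocR_neg FC (by simp), ocR_neg FC (by simp)]
    abel
  · refine monc_ext fun x => ?_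
    rw [← eD, ← eC, eN, ← two_mul, pw, o4_rot s0, two_mul N, ← eN, pN _ (div_ne_zero p0 s0),
      pN _ (div_ne_zero s0 p0)]
    simp
  · rw [← eD, ← eC, ← eB]
    exact fun A le wA id ic ib => (st A le wA id ic ib).2
  · rw [← eD, ← eC, ← eB]
    intro A le cl wA id ic ib x xS xH
    obtain ⟨all, mv⟩ := st A le wA id ic ((ib.mul ic).mul ib)
    have m2 : v2 ∈ A := one_smul K v2 ▸ mv 1 (one_mem _)
    have m1 : v1 ∈ A := Cv.2 ▸ ic _ m2
    have my : y ∈ A := by simpa using sub_mem wA (sub_mem m1 m2)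
    have rf := fun u hu => OcI.rfx f le cl (u := u) hu
    have rr : ∀ (u : OV n K) g, rfx u * (rfx u * g) = g := fun u g => by
      rw [← mul_assoc, rfx_sq, one_mul]
    have mr := spread A le cl (all θ) my (by
        convert (rf _ my).mul ((rf _ (sub_mem m1 m2)).mul ((rf _ (all s)).mul ic)) using 1
        simp only [eC, ocR_cons, rr])
      (by
        convert (rf _ (sub_mem (all 1) m1)).mul ib using 1
        rw [eB, ocR_cons, rr])
    have xr : φ (x (o4m n).rev) = x (o4m n) := by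
      have := xS (o4m n).rev
      rwa [swm_mid (mid_rev.2 o4m_mid), Fin.rev_rev] at this
    obtain ⟨t, tA, t1, t2⟩ := oc_span f h2 cl hL (by
      simp only [List.forall_mem_cons]
      exact ⟨m1, m2, my, mr⟩) (sub_mem xS (AS (x (o4m n).rev)))
    have tH : ∀ i, (∀ u ∈ v1 :: v2 :: y :: r, OcH i u) → OcH i t := fun i h =>
      ⟨by simpa [bo_single] using t2 (Pi.single i.rev 1) fun u hu => by simp [bo_single, (h u hu).1],
        by simpa [bo_single] using t2 (Pi.single i 1) fun u hu => by simp [bo_single, (h u hu).2]⟩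
    have := full _ (sub (sub xH (o4A_H _)) (tH _ fun u hu => (hU u hu).1))
      (sub ⟨by rw [Pi.sub_apply, (o4A_m _).1, xr, sub_self], by
        rw [Pi.sub_apply, (o4A_m _).2, sub_self]⟩ (tH _ fun u hu => (hU u hu).2)) t1
    rw [sub_eq_zero, sub_eq_iff_eq_add] at this
    rw [this]
    exact add_mem tA (all _)

omit [Finite K] in
theorem o4_mv (h2 : (2 : K) ≠ 0) {A : AddSubgroup (OV n K)} (le : A ≤ moncS φ)
    (cl : ∀ k, φ k = k → ∀ w ∈ A, k • w ∈ A) {l : List (OV n K)} (h : OcF (moncS φ) l)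
    (inv : OcI (ocR l) A) {w : OV n K} (hw : w ∈ A) (u : OV n K) (hu : u ∈ l) (b : bo w u ≠ 0)
    (o : ∀ x ∈ l, x = u ∨ bo w x = 0) : u ∈ A := by
  have q := (h.2 u hu).2
  have uu : bo u u ≠ 0 := by rw [bo_self]; exact mul_ne_zero h2 q
  have e : (ocR l).1 *ᵥ w = (rfx u).1 *ᵥ w := by
    clear inv
    induction l with
    | nil => simp at hu
    | cons x l ih =>
      obtain ⟨-, p, h'⟩ := ocF_cons.1 h
      rw [ocR_cons, monc_mul]
      rcases List.mem_cons.1 hu with rfl | hu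
      · rw [ocR_fix fun y hy => (o y (by simp [hy])).resolve_left fun e => uu (e ▸ p y hy)]
      · rw [ih h' hu fun y hy => o y (by simp [hy])]
        refine rfx_fix ?_
        rw [rfx_app, bo_sub, bo_smul, bo_comm u, p u hu, mul_zero, sub_zero]
        exact (o x (by simp)).resolve_left fun e => uu (e ▸ p u hu)
  have f := monc_fr2 (n := n) (φ := φ)
  have := cl _ (Subfield.div_mem _ (f.q _ (h.2 u hu).1) (f.b (le hw) (h.2 u hu).1)) _
    (sub_mem hw (inv _ hw))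
  rw [e, rfx_app] at this
  convert this using 1
  match_scalars
  · field_simp
  · ring

omit [Finite K] in
theorem OcH.add {i : Fin (2 * n + 3 + 1)} {x y : OV n K} (a : OcH i x) (b : OcH i y) :
    OcH i (x + y) := ⟨by rw [Pi.add_apply, a.1, b.1, add_zero], by rw [Pi.add_apply, a.2, b.2, add_zero]⟩

omit [Finite K] in
theorem OcH.sub {i : Fin (2 * n + 3 + 1)} {x y : OV n K} (a : OcH i x) (b : OcH i y) :
    OcH i (x - y) := ⟨by rw [Pi.sub_apply, a.1, b.1, sub_zero], by rw [Pi.sub_apply, a.2, b.2, sub_zero]⟩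

omit [Finite K] in
theorem OcH.smul {i : Fin (2 * n + 3 + 1)} {x : OV n K} (a : OcH i x) (c : K) :
    OcH i (c • x) := ⟨by rw [Pi.smul_apply, a.1, smul_zero], by rw [Pi.smul_apply, a.2, smul_zero]⟩

theorem o4_prep (hφ : ∀ s, φ (φ s) = s) (ne : φ ≠ RingHom.id K) (h2 : (2 : K) ≠ 0)
    {l : List (OV n K)} (h : OcF (moncS φ) l) (hU : ∀ u ∈ l, OcH 0 u ∧ OcH (o4m n) u) :
    ∃ (θ ν : K) (a : OV n K), a = o4A φ θ ∧ φ ν = ν ∧ ν ≠ 0 ∧ -ν + 1 ≠ 0 ∧ -ν + ν ^ 2 ≠ 0 ∧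
      qo a = -ν ∧ (a :: l).Pairwise (fun u v => bo u v = 0 ∧ bo v u = 0) ∧
      (∀ u ∈ a :: l, u ∈ moncS φ ∧ ν • u ∈ moncS φ ∧ OcH 0 u ∧ OcH 0 (ν • u) ∧
        bo u (o4A φ 1) = 0) := by
  obtain ⟨θ, θ0, e⟩ := skew_ex hφ ne
  have e2 : φ (θ ^ 2) = θ ^ 2 := by rw [map_pow, e, neg_sq]
  have n1 : -θ ^ 2 + 1 ≠ 0 := fun c => by
    rcases sq_eq_one_iff.1 (by linear_combination -c : θ ^ 2 = 1) with c | c <;>
      simp only [c, map_one, map_neg] at e <;> exact h2 (by grind)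
  have f := monc_fr2 (n := n) (φ := φ)
  refine ⟨θ, θ ^ 2, _, rfl, e2, pow_ne_zero 2 θ0, n1, fun c => mul_ne_zero (pow_ne_zero 2 θ0) n1
    (by linear_combination -c), by rw [o4A_q, e]; ring, List.pairwise_cons.2 ⟨fun u hu =>
      ⟨by rw [bo_comm, o4A_P (hU u hu).2], o4A_P (hU u hu).2 _⟩,
      h.1.imp fun k => ⟨k, (bo_comm _ _).trans k⟩⟩, List.forall_mem_cons.2 ⟨⟨rat_mid hφ o4m_mid _,
      f.smul _ e2 _ (rat_mid hφ o4m_mid _), o4A_H _, (o4A_H _).smul _, ?_⟩, fun u hu =>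
      ⟨(h.2 u hu).1, f.smul _ e2 _ (h.2 u hu).1, (hU u hu).1, (hU u hu).1.smul _,
        o4A_P (hU u hu).2 _⟩⟩⟩
  rw [o4A_b, (o4A_m θ).1, (o4A_m θ).2, e]
  simp

theorem o4_two (hφ : ∀ s, φ (φ s) = s) (ne : φ ≠ RingHom.id K) (h2 : (2 : K) ≠ 0) :
    IsLeast {k | Good (chev (CartanMatrix.D (2 + 2))
      (Equiv.swap (Fin.last 2).castSucc (Fin.last (2 + 1))) φ) k} 3 := by
  obtain ⟨l, hL, hq, hU, full⟩ := o4_frame (n := 2) (φ := φ) h2 [1, 1, 1, 1] rfl (by simp) (by simp only [List.prod_cons, List.prod_nil, mul_one, even_two, Even.neg_pow, one_pow])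
  obtain ⟨θ, ν, a, ea, hν, ν0, ν1, ν2, qa, o, m⟩ := o4_prep hφ ne h2 hL hU
  rcases l with _ | ⟨v1, _ | ⟨v2, _ | ⟨y, _ | ⟨x, _ | _⟩⟩⟩⟩ <;> simp at hq
  have U := hU
  simp only [List.pairwise_cons, List.forall_mem_cons] at o m U
  have Fd : OcF (moncS φ) [y] := by simp [OcF, m, hq]
  have Fc : OcF (moncS φ) [y, x] := by simp [OcF, m, hq, o]
  have Fb : OcF (moncS φ) [a + x, y] := by
    simp only [OcF, Nat.reduceMul, Nat.reduceAdd, List.pairwise_cons, List.mem_cons, List.not_mem_nil, or_false, bo_add, forall_eq, o, add_zero, IsEmpty.forall_iff, implies_true, List.Pairwise.nil, and_self, ne_eq, forall_eq_or_imp, m, add_mem, qo_add, qa, hq, ν1, not_false_eq_true, one_ne_zero]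
  refine o4_core le_rfl hφ ne h2 (θ := θ) hL hq.1 hq.2.1 hq.2.2.1 hU full Fd Fc Fb (by simp)
    (by simp [U, o]) (by simp [m, o, bo_add, bo_add', OcH.add]) (m := 0) rfl rfl rfl rfl (map_one φ)
    one_ne_zero (by simp [ocD, hq]) (by simp only [List.mem_cons, List.not_mem_nil, or_false, O4E, forall_eq, exists_eq_left, sub_self, o, true_or]) (by simp only [List.mem_cons, List.not_mem_nil, or_false, O4E, forall_eq, exists_eq_left, sub_self, forall_eq_or_imp, bo_add, o, add_zero, true_or, or_true, and_self])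
    fun A le cl ma my ic ib => ?_
  rw [← ea] at ma
  have := o4_mv h2 le cl Fb ib ma (a + x) (by simp) (by simp [bo_add', bo_self, o, qa, h2, ν0])
    (by simp [o])
  simpa using sub_mem this ma

omit [Finite K] in
theorem o4_tw (h2 : (2 : K) ≠ 0) {A : AddSubgroup (OV n K)}
    (cl : ∀ k, φ k = k → ∀ w ∈ A, k • w ∈ A) {ν : K} (hν : φ ν = ν) (ν0 : ν ≠ 0) (ν1 : -ν + 1 ≠ 0)
    {a x p : OV n K} (ma : a ∈ A) (h : a - ((-(2 * ν) / (-ν + 1)) • (a + x) +
      (-(2 * ν) / (-ν + ν ^ 2)) • (a + ν • x + p)) ∈ A) : p ∈ A := by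
  have n2 : -ν + ν ^ 2 = -ν * (-ν + 1) := by ring
  convert sub_mem (cl ((ν - 1) / 2) (by simp [hν, map_ofNat]) _ (sub_mem h ma))
    (cl (1 - ν) (by simp only [map_sub, map_one, hν]) _ ma) using 1
  rw [n2]
  match_scalars <;> field_simp <;> ring

theorem o4_three (hφ : ∀ s, φ (φ s) = s) (ne : φ ≠ RingHom.id K) (h2 : (2 : K) ≠ 0) :
    IsLeast {k | Good (chev (CartanMatrix.D (3 + 2))
      (Equiv.swap (Fin.last 3).castSucc (Fin.last (3 + 1))) φ) k} 3 := by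
  obtain ⟨l, hL, hq, hU, full⟩ := o4_frame (n := 3) (φ := φ) h2 [1, 1, 1, 1, 1, -1] rfl (by simp)
    (by norm_num)
  obtain ⟨θ, ν, a, ea, hν, ν0, ν1, ν2, qa, o, m⟩ := o4_prep hφ ne h2 hL hU
  rcases l with _ | ⟨v1, _ | ⟨v2, _ | ⟨y, _ | ⟨x1, _ | ⟨x2, _ | ⟨x3, _ | _⟩⟩⟩⟩⟩⟩ <;> simp at hq
  have U := hU
  simp only [List.pairwise_cons, List.forall_mem_cons] at o m U
  have Fd : OcF (moncS φ) [y] := by simp [OcF, m, hq]
  have Fc : OcF (moncS φ) [y, x1] := by simp [OcF, m, hq, o]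
  have Fb : OcF (moncS φ) [a + x2, a + ν • x2 + (x1 + x3)] := by
    simp only [OcF, Nat.reduceMul, Nat.reduceAdd, List.pairwise_cons, List.mem_cons, List.not_mem_nil, or_false, bo_add, forall_eq, bo_add', bo_self, qa, mul_comm, neg_mul, bo_smul', o, mul_zero, add_zero, hq, one_mul, zero_add, neg_add_cancel, bo_smul, IsEmpty.forall_iff, implies_true, List.Pairwise.nil, and_self, ne_eq, forall_eq_or_imp, m, add_mem, qo_add, ν1, not_false_eq_true, qo_smul, add_neg_cancel, ν2]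
  refine o4_core (by omega) hφ ne h2 (θ := θ) hL hq.1 hq.2.1 hq.2.2.1 hU full Fd Fc Fb (by simp)
    (by simp [U, o]) (by simp [m, o, bo_add, bo_add', bo_smul, bo_smul', OcH.add])
    (m := 0) rfl rfl rfl rfl (map_one φ) one_ne_zero (by simp [ocD, hq]) (by simp only [List.mem_cons, List.not_mem_nil, or_false, O4E, forall_eq, exists_eq_left, sub_self, o, true_or])
    (by simp only [List.mem_cons, List.not_mem_nil, or_false, O4E, forall_eq, exists_eq_left, sub_self, forall_eq_or_imp, bo_add, o, add_zero, true_or, bo_smul, mul_zero, and_self]) fun A le cl ma my ic ib => ?_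
  rw [← ea] at ma
  have Fc' := (ocF_cons.1 Fc).2.2
  have k0 := ib _ ma
  rw [ocR_app Fb] at k0
  have k1 : x1 + x3 ∈ A := o4_tw h2 cl hν ν0 ν1 ma (x := x2) (by
    simpa [hq, o, qa, bo_add, bo_add', bo_smul, bo_smul', bo_self, qo_add, qo_smul] using k0)
  have k2 := o4_mv h2 le cl Fc' ic k1 x1 (by simp) (by simp [bo_add, bo_self, o, hq, h2]) (by simp)
  have k3 := o4_mv h2 le cl Fb ib k2 (a + ν • x2 + (x1 + x3)) (by simp only [List.mem_cons, List.not_mem_nil, or_false, or_true])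
    (by simp [bo_add', bo_smul', bo_self, o, hq, h2]) (by simp only [List.mem_cons, List.not_mem_nil, or_false, forall_eq_or_imp, bo_add', o, add_zero, or_true, forall_eq, zero_add, true_or, and_self])
  have k4 := cl ν⁻¹ (by simp [hν]) _ (sub_mem (sub_mem k3 k1) ma)
  simp only [List.forall_mem_cons]
  exact ⟨k2, by simpa [ν0] using k4, by simpa using sub_mem k1 k2, by simp⟩

theorem o4_four (hφ : ∀ s, φ (φ s) = s) (ne : φ ≠ RingHom.id K) (h2 : (2 : K) ≠ 0) :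
    IsLeast {k | Good (chev (CartanMatrix.D (4 + 2))
      (Equiv.swap (Fin.last 4).castSucc (Fin.last (4 + 1))) φ) k} 3 := by
  obtain ⟨l, hL, hq, hU, full⟩ := o4_frame (n := 4) (φ := φ) h2 [1, 1, 1, 1, 1, 1, 1, 1] rfl
    (by simp) (by norm_num)
  obtain ⟨θ, ν, a, ea, hν, ν0, ν1, ν2, qa, o, m⟩ := o4_prep hφ ne h2 hL hU
  rcases l with _ | ⟨v1, _ | ⟨v2, _ | ⟨y, _ | ⟨y2, _ | ⟨y3, _ | ⟨x1, _ | ⟨x2, _ | ⟨x3,
    _ | _⟩⟩⟩⟩⟩⟩⟩⟩ <;> simp at hq
  have U := hU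
  have h11 : (1 : K) + 1 = 2 := one_add_one_eq_two
  simp only [List.pairwise_cons, List.forall_mem_cons] at o m U
  have Fd : OcF (moncS φ) [y, y2, y3] := by simp only [OcF, Nat.reduceMul, Nat.reduceAdd, List.pairwise_cons, List.mem_cons, List.not_mem_nil, or_false, forall_eq_or_imp, o, forall_eq, and_self, IsEmpty.forall_iff, implies_true, List.Pairwise.nil, ne_eq, m, hq, one_ne_zero, not_false_eq_true]
  have Fc : OcF (moncS φ) [y, y2 - y3, x1 - x2, x3] := by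
    simp only [OcF, Nat.reduceMul, Nat.reduceAdd, List.pairwise_cons, List.mem_cons, List.not_mem_nil, or_false, forall_eq_or_imp, bo_sub', o, sub_self, forall_eq, and_self, bo_sub, IsEmpty.forall_iff, implies_true, List.Pairwise.nil, ne_eq, m, hq, one_ne_zero, not_false_eq_true, sub_mem, qo_sub, h11, sub_zero, h2]
  have Fb : OcF (moncS φ) [y - y2, y3, a + x1, x2 - x3] := by
    simp only [OcF, Nat.reduceMul, Nat.reduceAdd, List.pairwise_cons, List.mem_cons, List.not_mem_nil, or_false, bo_sub, forall_eq_or_imp, o, sub_self, bo_add', add_zero, forall_eq, bo_sub', and_self, bo_add, IsEmpty.forall_iff, implies_true, List.Pairwise.nil, ne_eq, m, sub_mem, qo_sub, hq, h11, sub_zero, h2, not_false_eq_true, one_ne_zero, add_mem, qo_add, qa, ν1]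
  refine o4_core (by omega) hφ ne h2 (θ := θ) hL hq.1 hq.2.1 hq.2.2.1 hU full Fd Fc Fb
    (by simp [U, o]) (by simp [U, o, OcH.sub, bo_sub'])
    (by simp [m, o, bo_add, bo_add', bo_sub, bo_sub', OcH.add, OcH.sub])
    (m := 1) rfl rfl rfl (by simp [ocD, hq]) (map_ofNat φ 2) h2
    (by simp [ocD, hq, qo_sub, o, h11, sq]) (by simp only [List.mem_cons, List.not_mem_nil, or_false, O4E, forall_eq_or_imp, forall_eq, exists_eq_or_imp, ↓ existsAndEq, true_and, sub_self, bo_sub, o, sub_zero, zero_sub, neg_eq_zero, sub_eq_self, sub_left_inj, sub_right_inj, or_true, true_or, and_self])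
    (by simp only [List.mem_cons, List.not_mem_nil, or_false, O4E, forall_eq_or_imp, forall_eq, exists_eq_or_imp, ↓ existsAndEq, true_and, sub_self, bo_sub, o, sub_zero, zero_sub, neg_eq_zero, and_true, sub_eq_self, sub_right_inj, true_or, or_true, sub_left_inj, bo_add, add_zero, and_self]) fun A le cl ma my ic ib => ?_
  rw [← ea] at ma
  have Fc' := (ocF_cons.1 Fc).2.2
  have k1 : y2 ∈ A := by
    simpa only [sub_sub_cancel] using sub_mem my (o4_mv h2 le cl Fb ib my (y - y2) (by simp)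
      (by simp [bo_sub', bo_self, o, hq, h2]) (by simp only [List.mem_cons, List.not_mem_nil, or_false, forall_eq_or_imp, bo_sub', o, sub_zero, true_or, or_true, bo_add', add_zero, forall_eq, sub_self, and_self]))
  have k2 : y3 ∈ A := by
    simpa only [sub_sub_cancel] using sub_mem k1 (o4_mv h2 le cl Fc' ic k1 (y2 - y3) (by simp)
      (by simp [bo_sub', bo_self, o, hq, h2]) (by simp only [List.mem_cons, List.not_mem_nil, or_false, forall_eq_or_imp, bo_sub', o, sub_zero, true_or, sub_self, or_true, forall_eq, and_self]))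
  have k3 : x1 ∈ A := by
    simpa only [add_sub_cancel_left] using sub_mem (o4_mv h2 le cl Fb ib ma (a + x1) (by simp only [List.mem_cons, List.not_mem_nil, or_false, true_or, or_true])
      (by simp [bo_add', bo_self, o, qa, h2, ν0]) (by simp only [List.mem_cons, List.not_mem_nil, or_false, forall_eq_or_imp, bo_sub', o, sub_self, or_true, true_or, forall_eq, and_self])) ma
  have k4 : x2 ∈ A := by
    simpa only [sub_sub_cancel] using sub_mem k3 (o4_mv h2 le cl Fc' ic k3 (x1 - x2) (by simp)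
      (by simp [bo_sub', bo_self, o, hq, h2]) (by simp only [List.mem_cons, List.not_mem_nil, or_false, forall_eq_or_imp, bo_sub', o, sub_self, or_true, sub_zero, true_or, forall_eq, and_self]))
  have k5 : x3 ∈ A := by
    simpa only [sub_sub_cancel] using sub_mem k4 (o4_mv h2 le cl Fb ib k4 (x2 - x3) (by simp)
      (by simp [bo_sub', bo_self, o, hq, h2]) (by simp only [List.mem_cons, List.not_mem_nil, or_false, forall_eq_or_imp, bo_sub', o, sub_self, or_true, bo_add', add_zero, forall_eq, sub_zero, true_or, and_self]))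
  simp only [List.mem_cons, List.not_mem_nil, or_false, forall_eq_or_imp, k1, k2, k3, k4, forall_eq, k5, and_self]

theorem o4_five (hφ : ∀ s, φ (φ s) = s) (ne : φ ≠ RingHom.id K) (h2 : (2 : K) ≠ 0) :
    IsLeast {k | Good (chev (CartanMatrix.D (5 + 2))
      (Equiv.swap (Fin.last 5).castSucc (Fin.last (5 + 1))) φ) k} 3 := by
  obtain ⟨l, hL, hq, hU, full⟩ := o4_frame (n := 5) (φ := φ) h2 [1, 1, 1, 1, 1, 1, 1, -1, 1, 1] rfl
    (by simp) (by norm_num)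
  obtain ⟨θ, ν, a, ea, hν, ν0, ν1, ν2, qa, o, m⟩ := o4_prep hφ ne h2 hL hU
  rcases l with _ | ⟨v1, _ | ⟨v2, _ | ⟨y, _ | ⟨y2, _ | ⟨y3, _ | ⟨x1, _ | ⟨x2, _ | ⟨x3, _ | ⟨x4,
    _ | ⟨x5, _ | _⟩⟩⟩⟩⟩⟩⟩⟩⟩⟩ <;> simp at hq
  have U := hU
  have h11 : (1 : K) + 1 = 2 := one_add_one_eq_two
  simp only [List.pairwise_cons, List.forall_mem_cons] at o m U
  have Fd : OcF (moncS φ) [y, y2, y3] := by simp [OcF, m, hq, o]
  have Fc : OcF (moncS φ) [y, y2 - y3, x1, x2 - x4] := by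
    simp [OcF, m, hq, o, bo_sub, bo_sub', qo_sub, sub_mem, h11, h2]
  have Fb : OcF (moncS φ) [y - y2, a + x2, a + ν • x2 + (x1 + x3), x4 - x5] := by
    simp [OcF, m, hq, o, qa, ν1, ν2, bo_add, bo_add', bo_sub, bo_sub', bo_smul, bo_smul', bo_self,
      qo_add, qo_sub, qo_smul, add_mem, sub_mem, h11, h2, mul_comm]
  refine o4_core (by omega) hφ ne h2 (θ := θ) hL hq.1 hq.2.1 hq.2.2.1 hU full Fd Fc Fb
    (by simp [U, o]) (by simp [U, o, OcH.sub, bo_sub'])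
    (by simp [m, o, bo_add, bo_add', bo_sub, bo_sub', bo_smul, bo_smul', OcH.add, OcH.sub])
    (m := 1) rfl rfl rfl (by simp [ocD, hq]) (map_ofNat φ 2) h2
    (by simp [ocD, hq, qo_sub, o, h11, sq]) (by simp only [List.mem_cons, List.not_mem_nil, or_false, O4E, forall_eq_or_imp, forall_eq, exists_eq_or_imp, ↓ existsAndEq, true_and, sub_self, bo_sub, o, sub_zero, zero_sub, neg_eq_zero, sub_eq_self, sub_left_inj, sub_right_inj, or_true, true_or, and_self])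
    (by simp only [List.mem_cons, List.not_mem_nil, or_false, O4E, forall_eq_or_imp, forall_eq, exists_eq_or_imp, ↓ existsAndEq, true_and, sub_self, bo_sub, o, sub_zero, zero_sub, neg_eq_zero, and_true, sub_eq_self, sub_right_inj, true_or, or_true, sub_left_inj, bo_add, add_zero, and_self, bo_smul, mul_zero]) fun A le cl ma my ic ib => ?_
  rw [← ea] at ma
  have Fc' := (ocF_cons.1 Fc).2.2
  have j1 : y2 ∈ A := by
    simpa only [sub_sub_cancel] using sub_mem my (o4_mv h2 le cl Fb ib my (y - y2) (by simp)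
      (by simp [bo_sub', bo_self, o, hq, h2]) (by simp only [List.mem_cons, List.not_mem_nil, or_false, forall_eq_or_imp, bo_sub', o, sub_zero, true_or, bo_add', add_zero, or_true, bo_smul', mul_zero, forall_eq, sub_self, and_self]))
  have j2 : y3 ∈ A := by
    simpa only [sub_sub_cancel] using sub_mem j1 (o4_mv h2 le cl Fc' ic j1 (y2 - y3) (by simp)
      (by simp [bo_sub', bo_self, o, hq, h2]) (by simp only [List.mem_cons, List.not_mem_nil, or_false, forall_eq_or_imp, bo_sub', o, sub_zero, true_or, or_true, forall_eq, sub_self, and_self]))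
  have k0 := ib _ ma
  rw [ocR_app Fb] at k0
  have k1 : x1 + x3 ∈ A := o4_tw h2 cl hν ν0 ν1 ma (x := x2) (by
    simpa [hq, o, qa, bo_add, bo_add', bo_sub', bo_smul, bo_smul', bo_self, qo_add, qo_smul] using k0)
  have k2 := o4_mv h2 le cl Fc' ic k1 x1 (by simp) (by simp [bo_add, bo_self, o, hq, h2])
    (by simp only [List.mem_cons, List.not_mem_nil, or_false, bo_add, forall_eq_or_imp, bo_sub', o, sub_self, add_zero, or_true, true_or, forall_eq, and_self])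
  have k3 := o4_mv h2 le cl Fb ib k2 (a + ν • x2 + (x1 + x3)) (by simp only [List.mem_cons, List.not_mem_nil, or_false, true_or, or_true])
    (by simp [bo_add', bo_smul', bo_self, o, hq, h2]) (by simp only [List.mem_cons, List.not_mem_nil, or_false, forall_eq_or_imp, bo_sub', o, sub_self, or_true, bo_add', add_zero, zero_add, true_or, forall_eq, and_self])
  have k4 : x2 ∈ A := by simpa [ν0] using cl ν⁻¹ (by simp [hν]) _ (sub_mem (sub_mem k3 k1) ma)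
  have k5 : x4 ∈ A := by
    simpa only [sub_sub_cancel] using sub_mem k4 (o4_mv h2 le cl Fc' ic k4 (x2 - x4) (by simp)
      (by simp [bo_sub', bo_self, o, hq, h2]) (by simp only [List.mem_cons, List.not_mem_nil, or_false, forall_eq_or_imp, bo_sub', o, sub_self, or_true, forall_eq, sub_zero, true_or, and_self]))
  have k6 : x5 ∈ A := by
    simpa only [sub_sub_cancel] using sub_mem k5 (o4_mv h2 le cl Fb ib k5 (x4 - x5) (by simp)
      (by simp [bo_sub', bo_self, o, hq, h2]) (by simp only [List.mem_cons, List.not_mem_nil, or_false, forall_eq_or_imp, bo_sub', o, sub_self, or_true, bo_add', add_zero, bo_smul', mul_zero, forall_eq, sub_zero, true_or, and_self]))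
  have k7 : x3 ∈ A := by simpa using sub_mem k1 k2
  simp only [List.mem_cons, List.not_mem_nil, or_false, forall_eq_or_imp, j1, j2, k2, k4, k7, k5, forall_eq, k6, and_self]

theorem tO4 (hφ : ∀ s, φ (φ s) = s) (ne : φ ≠ RingHom.id K) (h : (2 : K) ≠ 0) {n : ℕ} (h2 : 2 ≤ n)
    (h5 : n ≤ 5) : IsLeast {k | Good (chev (CartanMatrix.D (n + 2))
      (Equiv.swap (Fin.last n).castSucc (Fin.last (n + 1))) φ) k} 3 := by
  obtain rfl | rfl | rfl | rfl : n = 2 ∨ n = 3 ∨ n = 4 ∨ n = 5 := by omega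
  exacts [o4_two hφ ne h, o4_three hφ ne h, o4_four hφ ne h, o4_five hφ ne h]

end Pool.Agent.MP_c78e8e_al.H75

end
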