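import Pool.Agent.MP_c78e8e_al.Mg.Sg_Ort
import Pool.Agent.MP_c78e8e_al.Mg.Sg_O1

attribute [-instance] NeZero.charZero_one instCharZeroOfIsSemireal MonTypeEquivalenceMon.monMonoid
  IdemSemiring.toSemiring FloorSemiring.instCharZero NormedAlgebra.toAlgebra
  SemigroupWithZero.toSemigroup CommGroup.toDivisionCommMonoid Fintype.decidableForallFintype
  RingConeClass.toSubsemiringClass RKHS.instFunLike SemilinearMapClass.toAddHomClass
  LieRing.toAddCommGroup BooleanRing.toRing NormMulClass.toNoZeroDivisors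
  SubringClass.toSubsemiringClass RCLike.charZero_rclike
  DistribMulActionSemiHomClass.toAddMonoidHomClass Bialgebra.toAlgebra NumberField.to_charZero
  SemilatticeInf.toPartialOrder instCoeOTCOfCoeTC LieAdmissibleRing.toNonUnitalNonAssocRing
  CompleteSemilatticeSup.toPartialOrder NeZero.of_gt' TestFunctionClass.toDFunLike
  IsStrictOrderedRing.toCharZero CommRing.toRing littleWedderburn GrpTypeEquivalenceGrp.grpGroup
  CompletePartialOrder.toPartialOrder ContDiffMapSupportedInClass.toDFunLike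
  LinearOrderedAddCommGroupWithTop.toSubNegMonoid NormedRing.toRing NormedField.toField
  Option.decidableForallMem NonUnitalSubsemiringClass.toAddSubmonoidClass
  Finset.decidableDforallFinset Invertible.toNeZero LinearOrderedAddCommMonoidWithTop.toAddCommMonoid
  EquivLike.toFunLike

section

namespace Pool.Agent.MP_c78e8e_al.H75

open Subgroup Matrix

variable {n : ℕ} {K : Type} [Field K]

/-- The rational vectors as a subspace. -/
def o3R (n : ℕ) (K : Type) [Field K] : Submodule K (Fin (2 * n + 3 + 1) → K) where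
  carrier := {v | Rat (RingHom.id K) v}
  add_mem' := fun {a b} h k i => by rw [Pi.add_apply, map_add, h i, k i, Pi.add_apply]
  zero_mem' := fun i => by simp
  smul_mem' := fun c v h i => by
    have := h i
    simp only [RingHom.id_apply] at this
    simp only [RingHom.id_apply, Pi.smul_apply, this]

/-- Isometries that preserve the rational vectors. -/
def o3N (g : GL (Fin (2 * n + 3 + 1)) K) : Prop :=
  (∀ v, qo (g.1 *ᵥ v) = qo v) ∧ ∀ v ∈ o3R n K, g.1 *ᵥ v ∈ o3R n K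

theorem o3N.mul {g h : GL (Fin (2 * n + 3 + 1)) K} (a : o3N g) (b : o3N h) : o3N (g * h) :=
  ⟨fun v => by rw [monc_mul, a.1, b.1], fun v hv => by rw [monc_mul]; exact a.2 _ (b.2 _ hv)⟩

theorem o3N_rfx {u : Fin (2 * n + 3 + 1) → K} (h : u ∈ o3R n K) : o3N (rfx u) :=
  ⟨rfx_iso u, fun _ hv => rfx_rat h hv⟩

theorem o3_eig {g : GL (Fin (2 * n + 3 + 1)) K} (iso : ∀ v, qo (g.1 *ᵥ v) = qo v)
    {u : Fin (2 * n + 3 + 1) → K} {c : K} (c0 : c ≠ 0) (h : g.1 *ᵥ u = c • u) :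
    Commute g (rfx u) := by
  have := rfx_conj iso u
  rwa [h, rfx_smul c0, mul_inv_eq_iff_eq_mul] at this

theorem o3_half [Finite K] (h : (2 : K) ≠ 0) {A : AddSubgroup (Fin (2 * n + 3 + 1) → K)}
    {v : Fin (2 * n + 3 + 1) → K} (hv : (4 : K) • v ∈ A) : v ∈ A := by
  have h0 := ringChar.Nat.cast_ringChar (R := K)
  obtain ⟨k, hk⟩ := (CharP.char_is_prime K (ringChar K)).odd_of_ne_two fun c => h (by
    rw [c] at h0; exact_mod_cast h0)
  rw [hk] at h0
  push_cast at h0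
  have := A.nsmul_mem hv (k ^ 2)
  rwa [← Nat.cast_smul_eq_nsmul K, smul_smul, show ((k ^ 2 : ℕ) : K) * 4 = 1 by
    push_cast; linear_combination (2 * (k : K) - 1) * h0, one_smul] at this

/-- The parameters of the Eichler transformations in `H`. -/
def o3A (H : Subgroup (GL (Fin (2 * n + 3 + 1)) K)) (i : Fin (2 * n + 3 + 1)) :
    AddSubgroup (Fin (2 * n + 3 + 1) → K) where
  carrier := {v | (v i = 0 ∧ v i.rev = 0 ∧ v ∈ o3R n K) ∧ eic i v ∈ H}
  add_mem' := fun {a b} h k => ⟨⟨by simp [h.1.1, k.1.1], by simp [h.1.2.1, k.1.2.1],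
    add_mem h.1.2.2 k.1.2.2⟩, by
      rw [eic_add h.1.1 h.1.2.1 k.1.1 k.1.2.1]; exact mul_mem h.2 k.2⟩
  zero_mem' := ⟨⟨rfl, rfl, zero_mem _⟩, by rw [eic_zero]; exact one_mem _⟩
  neg_mem' := fun {a} h => ⟨⟨by simp [h.1.1], by simp [h.1.2.1], neg_mem h.1.2.2⟩, by
    rw [eic_neg h.1.1 h.1.2.1]; exact inv_mem h.2⟩

/-- Isometries that act as a sign on the rational vectors. -/
def o3Z (z : GL (Fin (2 * n + 3 + 1)) K) : Prop :=
  (∀ v, qo (z.1 *ᵥ v) = qo v) ∧ ∃ ε : K, ε * ε = 1 ∧ ∀ v ∈ o3R n K, z.1 *ᵥ v = ε • v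

theorem o3Z.rfx {z : GL (Fin (2 * n + 3 + 1)) K} (h : o3Z z) {u : Fin (2 * n + 3 + 1) → K}
    (r : u ∈ o3R n K) : Commute z (rfx u) := by
  obtain ⟨iso, ε, e, h⟩ := h
  exact o3_eig iso (left_ne_zero_of_mul_eq_one e) (h u r)

theorem o3Z.eic {z : GL (Fin (2 * n + 3 + 1)) K} (h : o3Z z) {i : Fin (2 * n + 3 + 1)}
    (hi : ¬ Mid i) {w : Fin (2 * n + 3 + 1) → K} (a : w i = 0) (b : w i.rev = 0)
    (r : w ∈ o3R n K) : Commute z (eic i w) := by
  obtain ⟨iso, ε, e, h⟩ := h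
  have := eic_conj iso (left_ne_zero_of_mul_eq_one e) (j := i)
    ((h _ (rat_single hi rfl)).trans (monc_one _ _).symm)
    ((h _ (rat_single (mt mid_rev.1 hi) rfl)).trans (by
      rw [← eq_inv_of_mul_eq_one_left e, monc_one _ ε])) a b
  rwa [h w r, smul_smul, e, one_smul, mul_inv_eq_iff_eq_mul] at this

theorem o3Z.sog {z g : GL (Fin (2 * n + 3 + 1)) K} (h : o3Z z)
    (hg : g ∈ sog2 _ (RingHom.id K)) : Commute z g :=
  moncG_ind (p := fun g => Commute z g) (Commute.one_right z) (fun _ _ => Commute.mul_right)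
    (fun _ _ a b c d => h.eic a c d b) (monc_sog2 (n := n) (φ := RingHom.id K) (fun _ => rfl) ▸ hg)

theorem o3_tr {H : Subgroup (GL (Fin (2 * n + 3 + 1)) K)} {z g : GL (Fin (2 * n + 3 + 1)) K}
    (hz : o3Z z) (hg : z * g ∈ H) (ng : o3N g) {i j : Fin (2 * n + 3 + 1)} (hj : ¬ Mid j) {l : K}
    (l0 : l ≠ 0) (h1 : g.1 *ᵥ Pi.single i 1 = l • Pi.single j 1)
    (h2 : g.1 *ᵥ Pi.single i.rev 1 = l⁻¹ • Pi.single j.rev 1) {v : Fin (2 * n + 3 + 1) → K}
    (hv : v ∈ o3A H i) : l • g.1 *ᵥ v ∈ o3A H j := by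
  obtain ⟨⟨a, b, r⟩, m⟩ := hv
  rw [← monc_one] at h1 h2
  obtain ⟨k, k'⟩ := eic_perp0 ng.1 l0 h1 h2 a b
  have r' := (o3R n K).smul_mem l (ng.2 _ r)
  refine ⟨⟨k, k', r'⟩, ?_⟩
  have := mul_mem (mul_mem hg m) (inv_mem hg)
  rwa [show z * g * eic i v * (z * g)⁻¹ = z * (g * eic i v * g⁻¹) * z⁻¹ by group,
    eic_conj ng.1 l0 h1 h2 a b, (hz.eic hj k k' r').mul_inv_cancel] at this

theorem o3_core [Finite K] (h : (2 : K) ≠ 0) (hn : 1 ≤ n) {z b c d : GL (Fin (2 * n + 3 + 1)) K}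
    {w : Fin (2 * n + 3 + 1) → K} {μ η : K} {i : Fin (2 * n + 3 + 1)} (hi : ¬ Mid i) (hz : o3Z z)
    (zz : z * z = 1) (zb : Commute z b) (nb : o3N b) (nc : o3N c) (nd : o3N d)
    (be : b.1 *ᵥ Pi.single i 1 = Pi.single i 1) (bf : b.1 *ᵥ Pi.single i.rev 1 = Pi.single i.rev 1)
    (ce : c.1 *ᵥ Pi.single i 1 = Pi.single i 1) (cf : c.1 *ᵥ Pi.single i.rev 1 = Pi.single i.rev 1)
    (μ0 : μ ≠ 0) (de : d.1 *ᵥ Pi.single i 1 = μ • Pi.single i.rev 1)
    (df : d.1 *ᵥ Pi.single i.rev 1 = μ⁻¹ • Pi.single i 1) (w1 : w i = 0) (w2 : w i.rev = 0)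
    (w3 : w ∈ o3R n K) (tw : b.1 *ᵥ (c.1 *ᵥ w) = w) (t4 : (b * c) ^ 4 = 1) (η0 : η ≠ 0)
    (sp : Spn (η ^ 2))
    (hη : c.1 *ᵥ (c.1 *ᵥ (d.1 *ᵥ w) - b.1 *ᵥ (c.1 *ᵥ (d.1 *ᵥ w))) -
      (c.1 *ᵥ (d.1 *ᵥ w) - b.1 *ᵥ (c.1 *ᵥ (d.1 *ᵥ w))) = (4 * η) • w)
    (spin : ∀ U : Submodule K (Fin (2 * n + 3 + 1) → K), w ∈ U → (∀ v ∈ U, b.1 *ᵥ v ∈ U) →
      (∀ v ∈ U, c.1 *ᵥ v ∈ U) → (∀ v ∈ U, d.1 *ᵥ v ∈ U) →
      ∀ v, v i = 0 → v i.rev = 0 → v ∈ o3R n K → v ∈ U)
    {H : Subgroup (GL (Fin (2 * n + 3 + 1)) K)} (hb : z * b ∈ H) (hc : z * c * eic i w ∈ H)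
    (hd : z * d ∈ H) : sog2 _ (RingHom.id K) ≤ H := by
  have hi' : ¬ Mid i.rev := mt mid_rev.1 hi
  have wA : w ∈ o3A H i := by
    have cm : Commute (b * c) (eic i w) := by
      have := eic_conj (nb.mul nc).1 one_ne_zero (by rw [monc_mul, ce, be])
        (by rw [monc_mul, cf, bf, inv_one]) w1 w2
      rwa [monc_mul, tw, one_smul, mul_inv_eq_iff_eq_mul] at this
    have := pow_mem (mul_mem hb hc) 4
    rw [show z * b * (z * c * eic i w) = z * (b * z) * c * eic i w by group, ← zb.eq,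
      ← mul_assoc, zz, one_mul, cm.mul_pow, t4, one_mul] at this
    refine o3_half h ⟨⟨by simp [w1], by simp [w2], Submodule.smul_mem _ _ w3⟩, ?_⟩
    rw [show (4 : K) • w = w + w + (w + w) by module, eic_add (by simp [w1]) (by simp [w2])
      (by simp [w1]) (by simp [w2]), eic_add w1 w2 w1 w2]
    convert this using 1
    simp only [pow_succ, pow_zero, one_mul, mul_assoc]
  have hc' : z * c ∈ H := by simpa only [mul_inv_cancel_right] using mul_mem hc (inv_mem wA.2)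
  have fx : ∀ g : GL (Fin (2 * n + 3 + 1)) K, z * g ∈ H → o3N g →
      g.1 *ᵥ Pi.single i 1 = Pi.single i 1 → g.1 *ᵥ Pi.single i.rev 1 = Pi.single i.rev 1 →
      ∀ j, j = i ∨ j = i.rev → ∀ v ∈ o3A H j, g.1 *ᵥ v ∈ o3A H j := by
    rintro g a1 a2 a3 a4 j (rfl | rfl) v hv
    · simpa only [one_smul] using o3_tr hz a1 a2 hi one_ne_zero (by simpa using a3) (by simpa using a4) hv
    · simpa only [one_smul] using o3_tr hz a1 a2 hi' one_ne_zero (by simpa using a4) (by simpa using a3) hv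
  have d1 : ∀ s : K, ∀ v, s • v ∈ o3A H i → (μ * s) • d.1 *ᵥ v ∈ o3A H i.rev := fun s v hv => by
    have := o3_tr hz hd nd hi' μ0 de (by rwa [Fin.rev_rev]) hv
    rwa [mulVec_smul, smul_smul] at this
  have d2 : ∀ s : K, ∀ v, s • v ∈ o3A H i.rev → (μ⁻¹ * s) • d.1 *ᵥ v ∈ o3A H i := fun s v hv => by
    have := o3_tr hz hd nd hi (inv_ne_zero μ0) df (by rwa [Fin.rev_rev, inv_inv]) hv
    rwa [mulVec_smul, smul_smul] at this
  have pr : ∀ j, j = i ∨ j = i.rev → ∀ s : K, s • d.1 *ᵥ w ∈ o3A H j → (η * s) • w ∈ o3A H j :=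
    fun j hj s hs => by
      have B := fx b hb nb be bf j hj
      have C := fx c hc' nc ce cf j hj
      have a := sub_mem (C _ hs) (B _ (C _ hs))
      have := sub_mem (C _ a) a
      simp only [mulVec_smul, ← smul_sub] at this
      rw [hη, smul_smul] at this
      refine o3_half h ?_
      rwa [smul_smul, show 4 * (η * s) = s * (4 * η) by ring]
  have s1 : ∀ s : K, s • w ∈ o3A H i := fun s =>
    sp.ind (P := fun s => s • w ∈ o3A H i) (fun s t p q => by rw [add_smul]; exact add_mem p q)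
      one_ne_zero (by rwa [one_smul]) (fun s p => by
        have := pr _ (Or.inl rfl) _ (d2 _ _ (pr _ (Or.inr rfl) _ (d1 _ _ p)))
        rwa [show η * (μ⁻¹ * (η * (μ * s))) = η ^ 2 * s by field_simp] at this) s
  let U : Submodule K (Fin (2 * n + 3 + 1) → K) :=
    { carrier := {v | ∀ s : K, s • v ∈ o3A H i ∧ s • v ∈ o3A H i.rev}
      add_mem' := fun p q s => by
        rw [smul_add]; exact ⟨add_mem (p s).1 (q s).1, add_mem (p s).2 (q s).2⟩
      zero_mem' := fun s => by rw [smul_zero]; exact ⟨zero_mem _, zero_mem _⟩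
      smul_mem' := fun t v p s => by rw [smul_smul]; exact p _ }
  have key := spin U (fun s => ⟨s1 s, by
      have := pr _ (Or.inr rfl) _ (d1 _ _ (s1 (s / (η * μ))))
      rwa [show η * (μ * (s / (η * μ))) = s by field_simp] at this⟩)
    (fun v p s => by
      rw [← mulVec_smul]
      exact ⟨fx b hb nb be bf _ (Or.inl rfl) _ (p s).1, fx b hb nb be bf _ (Or.inr rfl) _ (p s).2⟩)
    (fun v p s => by
      rw [← mulVec_smul]
      exact ⟨fx c hc' nc ce cf _ (Or.inl rfl) _ (p s).1, fx c hc' nc ce cf _ (Or.inr rfl) _ (p s).2⟩)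
    (fun v p s => ⟨by simpa [μ0] using d2 _ _ (p (μ * s)).2,
      by simpa [μ0] using d1 _ _ (p (μ⁻¹ * s)).1⟩)
  refine gen_eic2 hn (fun _ => rfl) hi fun v a1 a2 a3 => ?_
  have := key v a1 a2 a3 1
  rw [one_smul] at this
  exact ⟨this.1.2, this.2.2⟩

theorem o3Z.fr {z : GL (Fin (2 * n + 3 + 1)) K} (h : o3Z z) {l : List (OV n K)}
    (f : OcF (moncS (RingHom.id K)) l) : Commute z (ocR l) :=
  Commute.list_prod_right _ _ fun x hx => by
    obtain ⟨u, hu, rfl⟩ := List.mem_map.1 hx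
    exact h.rfx (f.2 u hu).1

theorem o3N_fr {l : List (OV n K)} (f : OcF (moncS (RingHom.id K)) l) : o3N (ocR l) :=
  ⟨ocR_iso l, fun _ hv => ocR_rat monc_fr2 (fun u hu => (f.2 u hu).1) hv⟩

theorem o3_cm {g : GL (Fin (2 * n + 3 + 1)) K} (iso : ∀ v, qo (g.1 *ᵥ v) = qo v)
    {l : List (OV n K)} (h : ∀ u ∈ l, g.1 *ᵥ u - u = 0 ∨ g.1 *ᵥ u + u = 0) : Commute g (ocR l) :=
  Commute.list_prod_right _ _ fun x hx => by
    obtain ⟨u, hu, rfl⟩ := List.mem_map.1 hx
    exact oc_comm iso ((h u hu).imp sub_eq_zero.1 add_eq_zero_iff_eq_neg.1)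

/-- The indices of the first half. -/
def o3i (i : Fin (n + 1)) : Fin (2 * n + 3 + 1) := ⟨i, by omega⟩

/-- The first middle index. -/
def o3m (n : ℕ) : Fin (2 * n + 3 + 1) := ⟨n + 1, by omega⟩

variable (K) in
/-- Singular basis vectors. -/
def o3E (i : Fin (n + 1)) : OV n K := Pi.single (o3i i) 1

variable (K) in
/-- The dual singular basis vectors. -/
def o3F (i : Fin (n + 1)) : OV n K := Pi.single (o3i i).rev 1

variable (n K) in
/-- The nonsingular basis vector. -/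
def o3Y : OV n K := Pi.single (o3m n).rev 1 + Pi.single (o3m n) 1

theorem o3i_mid (i : Fin (n + 1)) : ¬ Mid (o3i i) := by
  rw [mid_iff]
  have := i.2
  simp only [o3i]
  omega

theorem o3m_mid : Mid (o3m n) := mid_iff.2 (Or.inl rfl)

theorem o3E_rat (i : Fin (n + 1)) : o3E K i ∈ o3R n K := rat_single (o3i_mid i) rfl

theorem o3F_rat (i : Fin (n + 1)) : o3F K i ∈ o3R n K := rat_single (mt mid_rev.1 (o3i_mid i)) rfl

theorem o3Y_rat : o3Y n K ∈ o3R n K := rat_mid (φ := RingHom.id K) (fun _ => rfl) o3m_mid 1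

theorem o3_ne (i j : Fin (n + 1)) : (o3i i).rev ≠ o3i j := by
  have := i.2
  have := j.2
  simp only [ne_eq, Fin.ext_iff, Fin.val_rev, o3i]
  omega

theorem o3_ne' (i : Fin (n + 1)) : o3i i ≠ o3m n ∧ o3i i ≠ (o3m n).rev ∧ (o3i i).rev ≠ o3m n ∧
    (o3i i).rev ≠ (o3m n).rev := by
  have := i.2
  simp only [ne_eq, Fin.ext_iff, Fin.val_rev, o3i, o3m]
  omega

theorem o3_inj {i j : Fin (n + 1)} : o3i i = o3i j ↔ i = j := by simp [o3i, Fin.ext_iff]

theorem o3EE (i j : Fin (n + 1)) : bo (o3E K i) (o3E K j) = 0 := by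
  simp [o3E, bo_single, o3_ne]

theorem o3FF (i j : Fin (n + 1)) : bo (o3F K i) (o3F K j) = 0 := by
  simp [o3F, bo_single, (o3_ne _ _).symm]

theorem o3EF (i j : Fin (n + 1)) : bo (o3E K i) (o3F K j) = if i = j then 1 else 0 := by
  simp [o3E, o3F, bo_single, Pi.single_apply, o3_inj]

theorem o3FE (i j : Fin (n + 1)) : bo (o3F K i) (o3E K j) = if i = j then 1 else 0 := by
  simp [o3E, o3F, bo_single, Pi.single_apply, o3_inj]

theorem o3EY (i : Fin (n + 1)) : bo (o3E K i) (o3Y n K) = 0 := by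
  simp [o3E, o3Y, bo_single, o3_ne' i]

theorem o3FY (i : Fin (n + 1)) : bo (o3F K i) (o3Y n K) = 0 := by
  simp [o3F, o3Y, bo_single, o3_ne' i]

theorem o3YE (i : Fin (n + 1)) : bo (o3Y n K) (o3E K i) = 0 := by rw [bo_comm, o3EY]

theorem o3YF (i : Fin (n + 1)) : bo (o3Y n K) (o3F K i) = 0 := by rw [bo_comm, o3FY]

theorem o3qE (i : Fin (n + 1)) : qo (o3E K i) = 0 := qo_single _ _

theorem o3qF (i : Fin (n + 1)) : qo (o3F K i) = 0 := qo_single _ _

theorem o3qY : qo (o3Y n K) = 1 := by simp [o3Y, qo_add, qo_single, bo_single]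

theorem o3YY : bo (o3Y n K) (o3Y n K) = 2 := by rw [bo_self, o3qY, mul_one]

theorem o3_span {U : Submodule K (OV n K)} (hY : o3Y n K ∈ U) {v : OV n K} (r : v ∈ o3R n K)
    (h : ∀ i, (v (o3i i) = 0 ∨ o3E K i ∈ U) ∧ (v (o3i i).rev = 0 ∨ o3F K i ∈ U)) : v ∈ U := by
  classical
  have e : v = v (o3m n) • o3Y n K + ∑ j, (if Mid j then 0 else v j) • Pi.single j 1 := by
    funext k
    simp only [Pi.add_apply, Finset.sum_apply, Pi.smul_apply, Pi.single_apply, o3Y, smul_eq_mul,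
      mul_ite, mul_one, mul_zero, Finset.sum_ite_eq, Finset.mem_univ, if_true]
    by_cases c1 : k = o3m n
    · simp [c1, monc_ne, o3m_mid]
    by_cases c2 : k = (o3m n).rev
    · have := r (o3m n)
      rw [swm_mid o3m_mid, RingHom.id_apply] at this
      simp [c2, (monc_ne _).symm, mid_rev.2 o3m_mid, this]
    have : ¬ Mid k := fun x => by
      have := mid_iff.1 x
      simp only [Fin.ext_iff, Fin.val_rev, o3m] at c1 c2
      omega
    simp [c1, c2, this]
  rw [e]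
  refine add_mem (U.smul_mem _ hY) (sum_mem fun j _ => ?_)
  split_ifs with c
  · simp
  have := j.2
  rw [mid_iff] at c
  by_cases a : (j : ℕ) < n + 1
  · rcases (h ⟨j, a⟩).1 with k | k
    · rw [show v j = 0 from k]; simp
    · exact U.smul_mem _ k
  · have b : j = (o3i ⟨2 * n + 3 - j, by omega⟩).rev := by
      simp only [Fin.ext_iff, Fin.val_rev, o3i]
      omega
    rcases (h ⟨2 * n + 3 - j, by omega⟩).2 with k | k
    · rw [← b] at k; simp [k]
    · rw [o3F, ← b] at k; exact U.smul_mem _ k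

theorem o3_z {z : GL (Fin (2 * n + 3 + 1)) K} (iso : ∀ v, qo (z.1 *ᵥ v) = qo v)
    (hY : z.1 *ᵥ o3Y n K = -o3Y n K)
    (h : ∀ i, z.1 *ᵥ o3E K i = -o3E K i ∧ z.1 *ᵥ o3F K i = -o3F K i) : o3Z z := by
  refine ⟨iso, -1, by simp, fun v hv => ?_⟩
  let U : Submodule K (OV n K) := LinearMap.eqLocus z.1.mulVecLin (-LinearMap.id)
  have : v ∈ U := o3_span hY hv fun i => ⟨Or.inr (h i).1, Or.inr (h i).2⟩
  rw [neg_one_smul]
  exact this

theorem o3_z1 : o3Z (1 : GL (Fin (2 * n + 3 + 1)) K) := ⟨by simp, 1, by simp, by simp⟩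

theorem o3_sp {U : Submodule K (OV n K)} (hY : o3Y n K ∈ U)
    (h : ∀ i, i ≠ 0 → o3E K i ∈ U ∧ o3F K i ∈ U) (v : OV n K) (a : v (o3i 0) = 0)
    (b : v (o3i 0).rev = 0) (r : v ∈ o3R n K) : v ∈ U :=
  o3_span hY r fun i => by
    by_cases c : i = 0
    · subst c; exact ⟨Or.inl a, Or.inl b⟩
    · exact ⟨Or.inr (h i c).1, Or.inr (h i c).2⟩

theorem o3rYE (i : Fin (n + 1)) : (rfx (o3Y n K)).1 *ᵥ o3E K i = o3E K i := rfx_fix (o3EY i)

theorem o3rYF (i : Fin (n + 1)) : (rfx (o3Y n K)).1 *ᵥ o3F K i = o3F K i := rfx_fix (o3FY i)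

theorem o3rYY : (rfx (o3Y n K)).1 *ᵥ o3Y n K = -o3Y n K := rfx_self (by simp [o3qY])

theorem o3rpE (i j : Fin (n + 1)) :
    (rfx (o3E K i + o3F K i)).1 *ᵥ o3E K j = if j = i then -o3F K j else o3E K j := by
  simp only [rfx_app, bo_add', qo_add, o3EE, o3EF, o3qE, o3qF]
  split_ifs with c <;> simp [c]

theorem o3rpF (i j : Fin (n + 1)) :
    (rfx (o3E K i + o3F K i)).1 *ᵥ o3F K j = if j = i then -o3E K j else o3F K j := by
  simp only [rfx_app, bo_add', qo_add, o3FF, o3EF, o3FE, o3qE, o3qF]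
  split_ifs with c <;> simp [c]

theorem o3rpY (i : Fin (n + 1)) : (rfx (o3E K i + o3F K i)).1 *ᵥ o3Y n K = o3Y n K :=
  rfx_fix (by simp [bo_add', o3YE, o3YF])

theorem o3rmE (i j : Fin (n + 1)) :
    (rfx (o3E K i - o3F K i)).1 *ᵥ o3E K j = if j = i then o3F K j else o3E K j := by
  simp only [rfx_app, bo_sub', qo_sub, o3EE, o3EF, o3qE, o3qF]
  split_ifs with c <;> simp [c]

theorem o3rmF (i j : Fin (n + 1)) :
    (rfx (o3E K i - o3F K i)).1 *ᵥ o3F K j = if j = i then o3E K j else o3F K j := by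
  simp only [rfx_app, bo_sub', qo_sub, o3FF, o3EF, o3FE, o3qE, o3qF]
  split_ifs with c <;> simp [c]

theorem o3rmY (i : Fin (n + 1)) : (rfx (o3E K i - o3F K i)).1 *ᵥ o3Y n K = o3Y n K :=
  rfx_fix (by simp [bo_sub', o3YE, o3YF])

variable (K) in
/-- The swap of two hyperbolic planes. -/
def o3s (i j : Fin (n + 1)) : GL (Fin (2 * n + 3 + 1)) K :=
  rfx (o3E K i + o3F K i - (o3E K j + o3F K j)) * rfx (o3E K i - o3F K i - (o3E K j - o3F K j))

theorem o3sq {i j : Fin (n + 1)} (ij : i ≠ j) :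
    qo (o3E K i + o3F K i - (o3E K j + o3F K j)) = 2 ∧
      qo (o3E K i - o3F K i - (o3E K j - o3F K j)) = -2 := by
  simp only [bo_sub', bo_add', bo_sub, bo_add, qo_sub, qo_add,
    o3EE, o3FF, o3EF, o3FE, o3qE, o3qF, ij, if_true, if_false]
  constructor <;> ring

theorem o3sE (h : (2 : K) ≠ 0) {i j : Fin (n + 1)} (ij : i ≠ j) (k : Fin (n + 1)) :
    (o3s K i j).1 *ᵥ o3E K k = if k = i then o3E K j else if k = j then o3E K i else o3E K k := by
  simp only [o3s, monc_mul, rfx_app, o3sq ij, div_neg, bo_sub', bo_add', bo_sub, bo_smul,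
    o3EE, o3FF, o3EF, o3FE, ij, ij.symm, if_true, if_false]
  split_ifs with c c' c'
  · exact absurd (c.symm.trans c') ij
  all_goals try subst k
  all_goals match_scalars <;> field_simp <;> ring

theorem o3sF (h : (2 : K) ≠ 0) {i j : Fin (n + 1)} (ij : i ≠ j) (k : Fin (n + 1)) :
    (o3s K i j).1 *ᵥ o3F K k = if k = i then o3F K j else if k = j then o3F K i else o3F K k := by
  simp only [o3s, monc_mul, rfx_app, o3sq ij, div_neg, bo_sub', bo_add', bo_sub, bo_smul,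
    o3EE, o3FF, o3EF, o3FE, ij, ij.symm, if_true, if_false]
  split_ifs with c c' c'
  · exact absurd (c.symm.trans c') ij
  all_goals try subst k
  all_goals match_scalars <;> field_simp <;> ring

theorem o3sY (i j : Fin (n + 1)) : (o3s K i j).1 *ᵥ o3Y n K = o3Y n K := by
  rw [o3s, monc_mul, rfx_fix (z := o3Y n K), rfx_fix] <;> simp only [bo_sub', bo_add', o3YE, o3YF, add_zero, sub_self]

/-- The Gram table and bilinearity. -/
theorem o3T : (∀ u u' v : OV n K, bo (u + u') v = bo u v + bo u' v) ∧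
    (∀ u u' v : OV n K, bo (u - u') v = bo u v - bo u' v) ∧
    (∀ (c : K) (u v : OV n K), bo (c • u) v = c * bo u v) ∧
    (∀ v u u' : OV n K, bo v (u + u') = bo v u + bo v u') ∧
    (∀ v u u' : OV n K, bo v (u - u') = bo v u - bo v u') ∧
    (∀ (c : K) (v u : OV n K), bo v (c • u) = c * bo v u) ∧
    (∀ i j : Fin (n + 1), bo (o3E K i) (o3E K j) = 0) ∧
    (∀ i j : Fin (n + 1), bo (o3F K i) (o3F K j) = 0) ∧
    (∀ i j : Fin (n + 1), bo (o3E K i) (o3F K j) = if i = j then 1 else 0) ∧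
    (∀ i j : Fin (n + 1), bo (o3F K i) (o3E K j) = if i = j then 1 else 0) ∧
    (∀ i : Fin (n + 1), bo (o3E K i) (o3Y n K) = 0) ∧
    (∀ i : Fin (n + 1), bo (o3F K i) (o3Y n K) = 0) ∧
    (∀ i : Fin (n + 1), bo (o3Y n K) (o3E K i) = 0) ∧
    (∀ i : Fin (n + 1), bo (o3Y n K) (o3F K i) = 0) ∧ bo (o3Y n K) (o3Y n K) = 2 :=
  ⟨bo_add, bo_sub, bo_smul, bo_add', bo_sub', bo_smul', o3EE, o3FF, o3EF, o3FE, o3EY, o3FY, o3YE,
    o3YF, o3YY⟩

/-- The quadratic form on combinations of basis vectors. -/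
theorem o3Q : (∀ u v : OV n K, qo (u + v) = qo u + qo v + bo u v) ∧
    (∀ u v : OV n K, qo (u - v) = qo u + qo v - bo u v) ∧
    (∀ (c : K) (v : OV n K), qo (c • v) = c ^ 2 * qo v) ∧ (∀ i : Fin (n + 1), qo (o3E K i) = 0) ∧
    (∀ i : Fin (n + 1), qo (o3F K i) = 0) ∧ qo (o3Y n K) = 1 :=
  ⟨qo_add, qo_sub, qo_smul, o3qE, o3qF, o3qY⟩

/-- The action of the monomial reflections and linearity. -/
theorem o3M (h : (2 : K) ≠ 0) :
    (∀ (g k : GL (Fin (2 * n + 3 + 1)) K) v, (g * k).1 *ᵥ v = g.1 *ᵥ (k.1 *ᵥ v)) ∧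
    (∀ (g : GL (Fin (2 * n + 3 + 1)) K) u v, g.1 *ᵥ (u + v) = g.1 *ᵥ u + g.1 *ᵥ v) ∧
    (∀ (g : GL (Fin (2 * n + 3 + 1)) K) u v, g.1 *ᵥ (u - v) = g.1 *ᵥ u - g.1 *ᵥ v) ∧
    (∀ (g : GL (Fin (2 * n + 3 + 1)) K) u, g.1 *ᵥ (-u) = -(g.1 *ᵥ u)) ∧
    (∀ (g : GL (Fin (2 * n + 3 + 1)) K) (c : K) u, g.1 *ᵥ (c • u) = c • g.1 *ᵥ u) ∧
    (∀ i : Fin (n + 1), (rfx (o3Y n K)).1 *ᵥ o3E K i = o3E K i) ∧
    (∀ i : Fin (n + 1), (rfx (o3Y n K)).1 *ᵥ o3F K i = o3F K i) ∧
    (rfx (o3Y n K)).1 *ᵥ o3Y n K = -o3Y n K ∧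
    (∀ i j : Fin (n + 1),
      (rfx (o3E K i + o3F K i)).1 *ᵥ o3E K j = if j = i then -o3F K j else o3E K j) ∧
    (∀ i j : Fin (n + 1),
      (rfx (o3E K i + o3F K i)).1 *ᵥ o3F K j = if j = i then -o3E K j else o3F K j) ∧
    (∀ i : Fin (n + 1), (rfx (o3E K i + o3F K i)).1 *ᵥ o3Y n K = o3Y n K) ∧
    (∀ i j : Fin (n + 1),
      (rfx (o3E K i - o3F K i)).1 *ᵥ o3E K j = if j = i then o3F K j else o3E K j) ∧
    (∀ i j : Fin (n + 1),
      (rfx (o3E K i - o3F K i)).1 *ᵥ o3F K j = if j = i then o3E K j else o3F K j) ∧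
    (∀ i : Fin (n + 1), (rfx (o3E K i - o3F K i)).1 *ᵥ o3Y n K = o3Y n K) ∧
    (∀ i j k : Fin (n + 1), i ≠ j → (o3s K i j).1 *ᵥ o3E K k =
      if k = i then o3E K j else if k = j then o3E K i else o3E K k) ∧
    (∀ i j k : Fin (n + 1), i ≠ j → (o3s K i j).1 *ᵥ o3F K k =
      if k = i then o3F K j else if k = j then o3F K i else o3F K k) ∧
    (∀ i j : Fin (n + 1), (o3s K i j).1 *ᵥ o3Y n K = o3Y n K) ∧
    (∀ g : GL (Fin (2 * n + 3 + 1)) K, g.1 *ᵥ (0 : OV n K) = 0) ∧ ∀ v : OV n K, - -v = v :=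
  ⟨monc_mul, fun _ => mulVec_add _, fun _ => mulVec_sub _, fun _ _ => mulVec_neg _ _,
    fun _ _ _ => mulVec_smul _ _ _, o3rYE, o3rYF, o3rYY, o3rpE, o3rpF, o3rpY, o3rmE, o3rmF, o3rmY,
    fun _ _ k ij => o3sE h ij k, fun _ _ k ij => o3sF h ij k, o3sY, fun _ => mulVec_zero _,
    neg_neg⟩

theorem o3_fr {l : List (OV n K)} (r : ∀ u ∈ l, u ∈ o3R n K) (p : l.Pairwise (bo · · = 0))
    (q : ocD l ≠ 0) : OcF (moncS (RingHom.id K)) l :=
  ⟨p, fun u hu => ⟨r u hu, fun c => q (List.prod_eq_zero (List.mem_map.2 ⟨u, hu, c⟩))⟩⟩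

theorem o3_rt : (∀ u v : OV n K, v ∈ o3R n K → (u + v ∈ o3R n K ↔ u ∈ o3R n K)) ∧
    (∀ u v : OV n K, v ∈ o3R n K → (u - v ∈ o3R n K ↔ u ∈ o3R n K)) ∧
    (∀ (c : K) (i : Fin (n + 1)), c • o3E K i ∈ o3R n K) ∧
    (∀ (c : K) (i : Fin (n + 1)), c • o3F K i ∈ o3R n K) ∧
    (∀ i : Fin (n + 1), o3E K i ∈ o3R n K) ∧ (∀ i : Fin (n + 1), o3F K i ∈ o3R n K) ∧
    o3Y n K ∈ o3R n K :=
  ⟨fun _ _ h => Submodule.add_mem_iff_left _ h, fun _ _ h => Submodule.sub_mem_iff_left _ h,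
    fun _ _ => Submodule.smul_mem _ _ (o3E_rat _), fun _ _ => Submodule.smul_mem _ _ (o3F_rat _),
    o3E_rat, o3F_rat, o3Y_rat⟩

theorem o3_co (v : OV n K) (i : Fin (n + 1)) :
    v (o3i i) = bo (o3F K i) v ∧ v (o3i i).rev = bo (o3E K i) v := by
  simp [o3E, o3F, bo_single]

theorem o3_good [Finite K] (h : (2 : K) ≠ 0) (hn : 2 ≤ n) {z b c d : GL (Fin (2 * n + 3 + 1)) K}
    {lb lc ld lz : List (OV n K)} (eb : b = ocR lb) (ec : c = ocR lc) (ed : d = ocR ld)
    {w : OV n K} {μ η k k' : K} (hz : o3Z z)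
    (fb : OcF (moncS (RingHom.id K)) lb) (fc : OcF (moncS (RingHom.id K)) lc)
    (fd : OcF (moncS (RingHom.id K)) ld) (l1 : lb.length = ld.length) (l2 : lc.length = ld.length)
    (two : 2 ≤ ld.length) (k0 : k ≠ 0) (k0' : k' ≠ 0) (q1 : ocD lb = k ^ 2 * ocD ld)
    (q2 : ocD lc = k' ^ 2 * ocD ld) (ez : z * b = ocR lz)
    (fz : OcF (moncS (RingHom.id K)) lz) {m : ℕ} (l3 : lz.length = 2 * m) (q3 : ocD lz = 1)
    (bd : ∀ u ∈ ld, b.1 *ᵥ u - u = 0 ∨ b.1 *ᵥ u + u = 0)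
    (bc : ∀ u ∈ lb, c.1 *ᵥ (b.1 *ᵥ (c.1 *ᵥ u)) - u = 0 ∨ c.1 *ᵥ (b.1 *ᵥ (c.1 *ᵥ u)) + u = 0)
    (be : b.1 *ᵥ o3E K 0 = o3E K 0) (bf : b.1 *ᵥ o3F K 0 = o3F K 0)
    (ce : c.1 *ᵥ o3E K 0 = o3E K 0) (cf : c.1 *ᵥ o3F K 0 = o3F K 0)
    (μ0 : μ ≠ 0) (de : d.1 *ᵥ o3E K 0 = μ • o3F K 0) (df : d.1 *ᵥ o3F K 0 = μ⁻¹ • o3E K 0)
    (w1 : bo (o3F K 0) w = 0) (w2 : bo (o3E K 0) w = 0)
    (w3 : w ∈ o3R n K) (bw : b.1 *ᵥ w = -w) (cw : c.1 *ᵥ w = -w) (η0 : η ≠ 0) (sp : Spn (η ^ 2))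
    (hη : c.1 *ᵥ (c.1 *ᵥ (d.1 *ᵥ w) - b.1 *ᵥ (c.1 *ᵥ (d.1 *ᵥ w))) -
      (c.1 *ᵥ (d.1 *ᵥ w) - b.1 *ᵥ (c.1 *ᵥ (d.1 *ᵥ w))) = (4 * η) • w)
    (spin : ∀ U : Submodule K (OV n K), w ∈ U → (∀ v ∈ U, b.1 *ᵥ v ∈ U) →
      (∀ v ∈ U, c.1 *ᵥ v ∈ U) → (∀ v ∈ U, d.1 *ᵥ v ∈ U) →
      o3Y n K ∈ U ∧ ∀ i, i ≠ 0 → o3E K i ∈ U ∧ o3F K i ∈ U) :
    IsLeast {k | Good (chev (CartanMatrix.D (n + 2))
      (Equiv.swap (Fin.last n).castSucc (Fin.last (n + 1))) (RingHom.id K)) k} 3 := by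
  have hφ : ∀ s, RingHom.id K (RingHom.id K s) = s := fun _ => rfl
  have hi := o3i_mid (n := n) 0
  rw [← (o3_co w 0).1] at w1
  rw [← (o3_co w 0).2] at w2
  have sn := fun U a1 a2 a3 a4 => o3_sp (spin U a1 a2 a3 a4).1 (spin U a1 a2 a3 a4).2
  simp only [o3E, o3F] at be bf ce cf de df
  generalize o3i (n := n) 0 = i at *
  have bb : z * b * (z * b) = 1 := ez ▸ ocR_sq fz
  have hb : z * b ∈ sog2 _ (RingHom.id K) := by
    rw [ez, monc_sog2 hφ]
    exact oc_mem monc_fr2 (i := ⟨0, by omega⟩) (j := ⟨1, by omega⟩)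
      (by simp [mid_iff]) (by simp only [mid_iff]; omega) (by simp) (Fin.val_ne_iff.1 (by simp))
      fz l3 (k := 1) rfl one_ne_zero (by simp [q3])
  have cj : ∀ {l : List (OV n K)}, OcF (moncS (RingHom.id K)) l → l.length = ld.length →
      ∀ {k : K}, k ≠ 0 → ocD l = k ^ 2 * ocD ld →
      ∃ s ∈ sog2 _ (RingHom.id K), s * (z * d) * s⁻¹ = z * ocR l := fun f l k k0 e => by
    obtain ⟨s, hs, e⟩ := oc_conj monc_fr2 (i := ⟨0, by omega⟩) (j := ⟨1, by omega⟩)
      (by simp [mid_iff]) (by simp only [mid_iff]; omega) (by simp) (Fin.val_ne_iff.1 (by simp))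
      h fd f l two (k := k) rfl k0 e
    rw [← monc_sog2 hφ] at hs
    exact ⟨s, hs, by rw [← mul_assoc, ← (hz.sog hs).eq, ← e, ed]; group⟩
  obtain ⟨g, hg, e1⟩ := cj fb l1 k0 q1
  obtain ⟨s, hs, e2⟩ := cj fc l2 k0' q2
  rw [← eb] at e1
  rw [← ec] at e2
  have nb : o3N b := eb ▸ o3N_fr fb
  have nc : o3N c := ec ▸ o3N_fr fc
  have nd : o3N d := ed ▸ o3N_fr fd
  have zb : Commute z b := eb ▸ hz.fr fb
  have zd : Commute z d := ed ▸ hz.fr fd
  have b2 : b * b = 1 := eb ▸ ocR_sq fb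
  have c2 : c * c = 1 := ec ▸ ocR_sq fc
  have d2 : d * d = 1 := ed ▸ ocR_sq fd
  have zz : z * z = 1 := by rwa [zb.symm.mul_mul_mul_comm, b2, mul_one] at bb
  have ha : z * d ∈ sog2 _ (RingHom.id K) := by
    have := mul_mem (mul_mem (inv_mem hg) hb) hg
    rw [← e1] at this
    simpa only [mul_assoc, inv_mul_cancel_left, inv_mul_cancel, mul_one] using this
  have v1 : ((2 : K)⁻¹ • w) i = 0 := by simp [w1]
  have v2 : ((2 : K)⁻¹ • w) i.rev = 0 := by simp [w2]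
  have v3 := (o3R n K).smul_mem (2 : K)⁻¹ w3
  have hv := eic_mem2 hφ hi v1 v2 v3
  have e3 : ((eic i ((2 : K)⁻¹ • w))⁻¹ * s) * (z * d) * ((eic i ((2 : K)⁻¹ • w))⁻¹ * s)⁻¹ =
      z * c * eic i w := by
    have a1 := eic_conj nc.1 one_ne_zero ce (by rw [cf, inv_one]) v1 v2
    rw [one_smul, mulVec_smul, cw, smul_neg, eic_neg v1 v2] at a1
    have a2 := eic_add v1 v2 v1 v2
    rw [← add_smul, show (2 : K)⁻¹ + 2⁻¹ = 1 by field_simp; ring, one_smul] at a2
    have a3 := (hz.sog hv).eq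
    generalize eic i ((2 : K)⁻¹ • w) = E at *
    calc _ = E⁻¹ * (s * (z * d) * s⁻¹) * E := by group
      _ = E⁻¹ * (z * E) * E⁻¹ * c * E := by rw [e2]; group
      _ = z * (c * E * c⁻¹) * c * E := by rw [a3, a1]; group
      _ = _ := by rw [a2]; group
  have t4 : (b * c) ^ 4 = 1 := by
    have a : Commute (c * (b * c)) (ocR lb) :=
      o3_cm (nc.mul (nb.mul nc)).1 (by simpa only [monc_mul] using bc)
    rw [← eb] at a
    calc _ = b * (c * (b * c) * b) * c * (b * c) := by simp only [pow_succ, pow_zero]; group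
      _ = (b * b) * c * b * (c * c) * b * c := by rw [a.eq]; group
      _ = 1 := by rw [b2, c2, one_mul, mul_one, mul_assoc c, b2, mul_one, c2]
  have db : Commute b d := ed ▸ o3_cm nb.1 bd
  have hg' := mul_mem (inv_mem hv) hs
  refine goodO2 hn hφ ha hb (e3 ▸ mul_mem (mul_mem hg' ha) (inv_mem hg')) hg hg' ?_
    (sc_of_eq e1.symm) (sc_of_eq e3.symm) (sc_of_eq ?_) fun H _ p1 p2 p3 => ?_
  · rw [zd.symm.mul_mul_mul_comm, zz, d2, mul_one]
    exact sc_one
  · exact (((Commute.refl z).mul_right zb).mul_left (zd.symm.mul_right db.symm)).eq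
  · have le := o3_core h (by omega) hi hz zz zb nb nc nd be bf ce cf μ0 de df w1 w2 w3
      (by rw [cw, mulVec_neg, bw, neg_neg]) t4 η0 sp hη sn p2 p3 p1
    refine ⟨fun i j s p q r => ?_, fun i m s p q => ?_⟩
    · have a : ¬ Mid i := by rw [mid_iff]; omega
      have a' : ¬ Mid j := by rw [mid_iff]; omega
      exact ⟨le (subset_closure (Or.inl ⟨i, j, s, Fin.val_ne_iff.1 (by rw [Fin.val_rev]; omega),
        a, a', r, rfl⟩)), le (subset_closure (Or.inl ⟨j, i, s,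
          Fin.val_ne_iff.1 (by rw [Fin.val_rev]; omega), a', a, r, rfl⟩))⟩
    · have a : ¬ Mid i := by rw [mid_iff]; omega
      have a' : Mid m := mid_iff.2 (Or.inl q)
      refine ⟨le (subset_closure (Or.inr ⟨i, m, s, a, a', rfl⟩)), ?_⟩
      have := le (subset_closure (Or.inr ⟨i.rev, m.rev, -s, mt mid_rev.1 a, mid_rev.2 a', rfl⟩))
      rwa [eo_rev (monc_ne _) (monc_ne _), eo_rev (monc_ne _) (monc_ne _), RingHom.id_apply,
        neg_neg] at this

end Pool.Agent.MP_c78e8e_al.H75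

end

section

namespace Pool.Agent.MP_c78e8e_al.H75

open Subgroup Matrix

variable {K : Type} [Field K] [Finite K]

theorem o3_two (h : (2 : K) ≠ 0) {κ : K} (k0 : κ ≠ 0) (k2 : κ - 2 ≠ 0)
    (sp : Spn ((1 - 2 / κ) ^ 2)) : IsLeast {k | Good (chev (CartanMatrix.D (2 + 2))
      (Equiv.swap (Fin.last 2).castSucc (Fin.last (2 + 1))) (RingHom.id K)) k} 3 := by
  have q1 : qo (o3E (n := 2) K 0 - κ • o3F K 0) = -κ := by simp [o3Q, o3T]
  have q2 : qo (o3Y 2 K + o3E K 1 + (κ - 1) • o3F K 1) = κ := by simp [o3Q, o3T]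
  have q3 : qo (o3E (n := 2) K 2 + o3F K 2) = 1 := by simp [o3Q, o3T]
  have fd : OcF (moncS (RingHom.id K)) [o3E (n := 2) K 0 - κ • o3F K 0,
      o3Y 2 K + o3E K 1 + (κ - 1) • o3F K 1, o3E K 2 + o3F K 2] :=
    o3_fr (by simp only [Fin.isValue, List.mem_cons, List.not_mem_nil, or_false, Nat.reduceMul, Nat.reduceAdd, forall_eq_or_imp, o3_rt, forall_eq, and_self]) (by simp only [Nat.reduceMul, Nat.reduceAdd, Fin.isValue, List.pairwise_cons, List.mem_cons, List.not_mem_nil, or_false, o3T, forall_eq_or_imp, add_zero, zero_ne_one, ↓ reduceIte, mul_zero, sub_self, forall_eq, Fin.reduceEq, and_self, IsEmpty.forall_iff, implies_true, List.Pairwise.nil]) (by simp [ocD, q1, q2, q3, k0])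
  have dv := ocR_app fd
  simp only [List.map_cons, List.map_nil, List.sum_cons, List.sum_nil, q1, q2, q3, div_neg] at dv
  have fb : OcF (moncS (RingHom.id K)) [o3Y 2 K, o3E K 1 + o3F K 1, o3E K 1 - o3F K 1] :=
    o3_fr (by simp only [Fin.isValue, List.mem_cons, List.not_mem_nil, or_false, Nat.reduceMul, Nat.reduceAdd, forall_eq_or_imp, o3_rt, forall_eq, and_self]) (by simp only [Nat.reduceMul, Nat.reduceAdd, Fin.isValue, List.pairwise_cons, List.mem_cons, List.not_mem_nil, or_false, forall_eq_or_imp, o3T, add_zero, forall_eq, sub_self, and_self, ↓ reduceIte, zero_sub, sub_zero, neg_add_cancel, IsEmpty.forall_iff, implies_true, List.Pairwise.nil]) (by simp [ocD, o3Q, o3T])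
  refine o3_good h le_rfl (w := o3Y 2 K) (μ := κ) (η := 1 - 2 / κ) (k := κ⁻¹)
    (k' := 2 / κ) (m := 2)
    (b := rfx (o3Y 2 K) * (rfx (o3E K 1 + o3F K 1) * rfx (o3E K 1 - o3F K 1)))
    (c := rfx (o3Y 2 K) * o3s K 1 2)
    (z := (rfx (o3E K 0 + o3F K 0) * (rfx (o3E K 0 - o3F K 0) *
      (rfx (o3E K 2 + o3F K 2) * rfx (o3E K 2 - o3F K 2)))) *
      (rfx (o3Y 2 K) * (rfx (o3E K 1 + o3F K 1) * rfx (o3E K 1 - o3F K 1))))
    (lc := [o3Y 2 K, o3E K 1 + o3F K 1 - (o3E K 2 + o3F K 2),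
      o3E K 1 - o3F K 1 - (o3E K 2 - o3F K 2)])
    (lz := [o3E K 0 + o3F K 0, o3E K 0 - o3F K 0, o3E K 2 + o3F K 2, o3E K 2 - o3F K 2])
    (by simp [ocR]) (by simp only [Nat.reduceMul, Nat.reduceAdd, o3s, Fin.isValue, ocR, List.map_cons, List.map_nil, List.prod_cons, List.prod_nil, mul_one]) rfl
    (o3_z (fun v => by simp only [monc_mul, rfx_iso]) (by simp only [o3M h]) fun i => ?_) fb
    (o3_fr (by simp only [Fin.isValue, List.mem_cons, List.not_mem_nil, or_false, Nat.reduceMul, Nat.reduceAdd, forall_eq_or_imp, o3_rt, forall_eq, and_self]) (by simp only [Nat.reduceMul, Nat.reduceAdd, Fin.isValue, List.pairwise_cons, List.mem_cons, List.not_mem_nil, or_false, forall_eq_or_imp, o3T, add_zero, sub_self, forall_eq, and_self, ↓ reduceIte, zero_sub, Fin.reduceEq, sub_zero, neg_add_cancel, sub_neg_eq_add, zero_add, add_neg_cancel, IsEmpty.forall_iff, implies_true, List.Pairwise.nil]) (by simp only [ocD, Nat.reduceMul,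 Nat.reduceAdd, Fin.isValue, List.map_cons, o3qY, ne_eq, Fin.reduceEq, not_false_eq_true, o3sq, List.map_nil, List.prod_cons, List.prod_nil, mul_one, mul_neg, one_mul, neg_eq_zero, mul_eq_zero, h, or_self])) fd rfl rfl (by simp)
    (inv_ne_zero k0) (div_ne_zero h k0) ?_ ?_ ?_
    (o3_fr (by simp only [Fin.isValue, List.mem_cons, List.not_mem_nil, or_false, Nat.reduceMul, Nat.reduceAdd, forall_eq_or_imp, o3_rt, forall_eq, and_self]) (by simp only [Nat.reduceMul, Nat.reduceAdd, Fin.isValue, List.pairwise_cons, List.mem_cons, List.not_mem_nil, or_false, o3T, forall_eq_or_imp, ↓ reduceIte, zero_sub, sub_zero, neg_add_cancel, Fin.reduceEq, add_zero, forall_eq, sub_self, and_self, IsEmpty.forall_iff, implies_true, List.Pairwise.nil]) (by simp [ocD, o3Q, o3T])) rfl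
    (by simp [ocD, o3Q, o3T]) ?_ ?_ (by simp only [o3M h, Fin.reduceEq, Fin.reduceNe, reduceIte])
    (by simp only [o3M h, Fin.reduceEq, Fin.reduceNe, reduceIte]) (by simp only [o3M h, Fin.reduceEq, Fin.reduceNe, reduceIte])
    (by simp only [o3M h, Fin.reduceEq, Fin.reduceNe, reduceIte]) k0 ?_ ?_ (o3FY 0) (o3EY 0) o3Y_rat (by simp only [o3M h])
    (by simp only [o3M h]) ?_ sp ?_ fun U w B C D => ?_
  · simp only [monc_mul]
    fin_cases i <;> simp [o3M h, -mulVec_mulVec]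
  · simp [ocD, q1, q2, q3, o3Q, o3T]
    field_simp
  · simp only [ocD, Nat.reduceMul, Nat.reduceAdd, Fin.isValue, List.map_cons, o3qY, ne_eq, Fin.reduceEq, not_false_eq_true, o3sq, List.map_nil, List.prod_cons, List.prod_nil, mul_one, mul_neg, one_mul, q1, q2, q3, neg_mul, neg_inj]
    field_simp
  · have := ocR_sq fb
    simp only [ocR, List.map_cons, List.map_nil, List.prod_cons, List.prod_nil, mul_one] at this ⊢
    rw [mul_assoc, this, mul_one]
  · simp only [List.forall_mem_cons, o3M h, Fin.reduceEq, reduceIte]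
    refine ⟨Or.inl ?_, Or.inr ?_, Or.inl ?_, by simp only [List.not_mem_nil, Nat.reduceMul, Nat.reduceAdd, Fin.isValue, mulVec_mulVec, IsEmpty.forall_iff, implies_true]⟩ <;> module
  · simp only [List.forall_mem_cons, o3M h, Fin.reduceEq, Fin.reduceNe, reduceIte]
    refine ⟨Or.inr ?_, Or.inl ?_, Or.inl ?_, by simp only [List.not_mem_nil, Nat.reduceMul, Nat.reduceAdd, Fin.isValue, mulVec_mulVec, IsEmpty.forall_iff, implies_true]⟩ <;> module
  · simp only [dv, o3T, Fin.reduceEq, reduceIte]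
    match_scalars <;> field_simp <;> ring
  · simp only [dv, o3T, Fin.reduceEq, reduceIte]
    match_scalars <;> field_simp <;> ring
  · rw [show 1 - 2 / κ = (κ - 2) / κ by field_simp]
    exact div_ne_zero k2 k0
  · simp only [dv, o3T, o3M h, Fin.reduceEq, Fin.reduceNe, reduceIte]
    match_scalars <;> field_simp <;> ring
  · have a1 : o3E K 2 + (κ - 1) • o3F K 2 ∈ U := by
      convert U.sub_mem (U.smul_mem ((2 - κ) / 2) w) (U.smul_mem (κ / 2) (C _ (D _ w))) using 1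
      simp only [dv, o3T, o3M h, Fin.reduceEq, Fin.reduceNe, reduceIte]
      match_scalars <;> field_simp <;> ring
    have a2 : o3E K 2 + o3F K 2 ∈ U := by
      convert U.smul_mem κ⁻¹ (U.sub_mem a1 (D _ a1)) using 1
      simp only [dv, o3T, Fin.reduceEq, reduceIte]
      match_scalars <;> field_simp <;> ring
    have a3 : o3F K 2 ∈ U := by
      convert U.smul_mem (κ - 2)⁻¹ (U.sub_mem a1 a2) using 1
      match_scalars <;> field_simp <;> ring
    have a4 : o3E K 2 ∈ U := by simpa using U.sub_mem a2 a3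
    have a5 := C _ a3
    have a6 := C _ a4
    simp only [o3M h, Fin.reduceEq, Fin.reduceNe, reduceIte] at a5 a6
    refine ⟨w, fun i hi => ?_⟩
    fin_cases i
    exacts [absurd rfl hi, ⟨a6, a5⟩, ⟨a4, a3⟩]

theorem o3_three (h : (2 : K) ≠ 0) {κ : K} (k0 : κ ≠ 0) (k2 : κ - 2 ≠ 0)
    (sp : Spn ((1 - 2 / κ) ^ 2)) : IsLeast {k | Good (chev (CartanMatrix.D (3 + 2))
      (Equiv.swap (Fin.last 3).castSucc (Fin.last (3 + 1))) (RingHom.id K)) k} 3 := by
  have q1 : qo (o3E (n := 3) K 0 + κ • o3F K 0) = κ := by simp [o3Q, o3T]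
  have q2 : qo ((2 : K) • o3E (n := 3) K 3 + o3E K 1 - κ • o3F K 1) = -κ := by simp only [Nat.reduceMul, Nat.reduceAdd, Fin.isValue, o3Q, mul_zero, add_zero, o3T, Fin.reduceEq, ↓ reduceIte, zero_add, mul_one, zero_sub]
  have q3 : qo (o3Y 3 K + (2 : K) • o3E K 2) = 1 := by simp [o3Q, o3T]
  have q4 : qo (o3F K 2 - (o3Y 3 K + (2 : K) • o3E K 2)) = -1 := by
    simp only [o3Q, o3T, Fin.reduceEq, reduceIte]
    ring
  have q5 : qo (o3E (n := 3) K 3 - o3F K 3) = -1 := by simp [o3Q, o3T]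
  have fd : OcF (moncS (RingHom.id K)) [o3E (n := 3) K 0 + κ • o3F K 0,
      (2 : K) • o3E K 3 + o3E K 1 - κ • o3F K 1, o3Y 3 K + (2 : K) • o3E K 2,
      o3F K 2 - (o3Y 3 K + (2 : K) • o3E K 2)] :=
    o3_fr (by simp only [Fin.isValue, List.mem_cons, List.not_mem_nil, or_false, Nat.reduceMul, Nat.reduceAdd, forall_eq_or_imp, o3_rt, forall_eq, and_self]) (by simp only [Nat.reduceMul, Nat.reduceAdd, Fin.isValue, List.pairwise_cons, List.mem_cons, List.not_mem_nil, or_false, o3T, forall_eq_or_imp, mul_zero, add_zero, zero_ne_one, ↓ reduceIte, sub_self, Fin.reduceEq, forall_eq, and_self, zero_sub, sub_zero, mul_one, neg_add_cancel, IsEmpty.forall_iff, implies_true, List.Pairwise.nil]) (by simp only [ocD, Nat.reduceMul, Nat.reduceAdd, Fin.isValue, List.map_cons, q1, q2, q3, q4, List.map_nil, List.prod_cons, List.prod_nil, mul_one, mul_neg, neg_neg, ne_eq, mul_eq_zero, k0, or_self, not_false_eq_true])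
  have dv := ocR_app fd
  simp only [List.map_cons, List.map_nil, List.sum_cons, List.sum_nil, q1, q2, q3, q4,
    div_neg] at dv
  have fb : OcF (moncS (RingHom.id K)) [o3E (n := 3) K 1 + o3F K 1, o3E K 1 - o3F K 1,
      o3E K 3 + o3F K 3, o3E K 3 - o3F K 3] :=
    o3_fr (by simp only [Fin.isValue, List.mem_cons, List.not_mem_nil, or_false, Nat.reduceMul, Nat.reduceAdd, forall_eq_or_imp, o3_rt, forall_eq, and_self]) (by simp only [Nat.reduceMul, Nat.reduceAdd, Fin.isValue, List.pairwise_cons, List.mem_cons, List.not_mem_nil, or_false, o3T, forall_eq_or_imp, ↓ reduceIte, zero_sub, sub_zero, neg_add_cancel, Fin.reduceEq, add_zero, forall_eq, sub_self, and_self, IsEmpty.forall_iff, implies_true, List.Pairwise.nil]) (by simp [ocD, o3Q, o3T])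
  refine o3_good h (by omega) (w := o3E K 3 - o3F K 3) (μ := -κ) (η := 1 - 2 / κ) (k := κ⁻¹)
    (k' := 2 / κ) (m := 2)
    (b := rfx (o3E K 1 + o3F K 1) * (rfx (o3E K 1 - o3F K 1) *
      (rfx (o3E K 3 + o3F K 3) * rfx (o3E K 3 - o3F K 3))))
    (c := rfx (o3E K 3 - o3F K 3) * (rfx (o3Y 3 K) * o3s K 1 2))
    (lc := [o3E K 3 - o3F K 3, o3Y 3 K, o3E K 1 + o3F K 1 - (o3E K 2 + o3F K 2),
      o3E K 1 - o3F K 1 - (o3E K 2 - o3F K 2)])
    (by simp [ocR]) (by simp only [Nat.reduceMul, Nat.reduceAdd, Fin.isValue, o3s, ocR, List.map_cons, List.map_nil, List.prod_cons, List.prod_nil, mul_one]) rfl o3_z1 fb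
    (o3_fr (by simp only [Fin.isValue, List.mem_cons, List.not_mem_nil, or_false, Nat.reduceMul, Nat.reduceAdd, forall_eq_or_imp, o3_rt, forall_eq, and_self]) (by simp only [Nat.reduceMul, Nat.reduceAdd, Fin.isValue, List.pairwise_cons, List.mem_cons, List.not_mem_nil, or_false, o3T, forall_eq_or_imp, sub_self, Fin.reduceEq, ↓ reduceIte, add_zero, forall_eq, and_self, zero_sub, sub_zero, neg_add_cancel, sub_neg_eq_add, zero_add, add_neg_cancel, IsEmpty.forall_iff, implies_true, List.Pairwise.nil]) (by simp only [ocD, Nat.reduceMul, Nat.reduceAdd, Fin.isValue, List.map_cons, q5, o3qY, ne_eq, Fin.reduceEq, not_false_eq_true, o3sq, List.map_nil, List.prod_cons, List.prod_nil, mul_one, mul_neg, one_mul, neg_mul, neg_neg, mul_eq_zero, h, or_self])) fd rfl rfl (by simp only [Fin.isValue, List.length_cons, List.length_nil, zero_add, Nat.reduceAdd, Nat.reduceLeDiff])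
    (inv_ne_zero k0) (div_ne_zero h k0) ?_ ?_ (by simp [ocR]) fb rfl
    (by simp [ocD, o3Q, o3T]) ?_ ?_ (by simp only [o3M h, Fin.reduceEq, Fin.reduceNe, reduceIte])
    (by simp only [o3M h, Fin.reduceEq, Fin.reduceNe, reduceIte])
    (by simp only [o3M h, Fin.reduceEq, Fin.reduceNe, reduceIte])
    (by simp only [o3M h, Fin.reduceEq, Fin.reduceNe, reduceIte]) (neg_ne_zero.2 k0) ?_ ?_
    (by simp [o3T]) (by simp [o3T]) (by simp [o3_rt])
    (by simp only [o3M h, Fin.reduceEq, Fin.reduceNe, reduceIte]; abel)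
    (by simp only [o3M h, Fin.reduceEq, Fin.reduceNe, reduceIte]; abel) ?_ sp ?_ fun U w B C D => ?_
  · simp only [ocD, Nat.reduceMul, Nat.reduceAdd, Fin.isValue, List.map_cons, o3Q, add_zero, o3T, ↓ reduceIte, zero_add, zero_sub, List.map_nil, List.prod_cons, List.prod_nil, mul_one, mul_neg, neg_neg, inv_pow, q1, q2, q3, q4]
    field_simp
  · simp only [ocD, Nat.reduceMul, Nat.reduceAdd, Fin.isValue, List.map_cons, q5, o3qY, ne_eq, Fin.reduceEq, not_false_eq_true, o3sq, List.map_nil, List.prod_cons, List.prod_nil, mul_one, mul_neg, one_mul, neg_mul, neg_neg, q1, q2, q3, q4]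
    field_simp
  · simp only [List.forall_mem_cons, o3M h, Fin.reduceEq, Fin.reduceNe, reduceIte]
    refine ⟨Or.inl ?_, Or.inr ?_, Or.inl ?_, Or.inl ?_, by simp only [List.not_mem_nil, Nat.reduceMul, Nat.reduceAdd, Fin.isValue, mulVec_mulVec, IsEmpty.forall_iff, implies_true]⟩ <;> module
  · simp only [List.forall_mem_cons, o3M h, Fin.reduceEq, Fin.reduceNe, reduceIte]
    refine ⟨Or.inl ?_, Or.inl ?_, Or.inr ?_, Or.inr ?_, by simp only [List.not_mem_nil, Nat.reduceMul, Nat.reduceAdd, Fin.isValue, mulVec_mulVec, IsEmpty.forall_iff, implies_true]⟩ <;> module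
  · simp only [dv, o3T, Fin.reduceEq, reduceIte]
    match_scalars <;> field_simp <;> ring
  · simp only [dv, o3T, Fin.reduceEq, reduceIte]
    match_scalars <;> field_simp <;> ring
  · rw [show 1 - 2 / κ = (κ - 2) / κ by field_simp]
    exact div_ne_zero k2 k0
  · simp only [dv, o3T, o3M h, Fin.reduceEq, Fin.reduceNe, reduceIte]
    match_scalars <;> field_simp <;> ring
  · have a1 : (2 : K) • o3F K 3 + o3E K 2 - κ • o3F K 2 ∈ U := by
      convert U.smul_mem (κ / 2) (C _ (U.sub_mem w (D _ w))) using 1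
      simp only [dv, o3T, o3M h, Fin.reduceEq, Fin.reduceNe, reduceIte]
      match_scalars <;> field_simp <;> ring
    have a2 : o3F K 3 ∈ U := by
      convert U.smul_mem (2⁻¹ * 2⁻¹) (U.sub_mem a1 (B _ a1)) using 1
      simp only [o3M h, Fin.reduceEq, Fin.reduceNe, reduceIte]
      match_scalars <;> field_simp <;> ring
    have a3 : o3E K 3 ∈ U := by simpa using U.add_mem w a2
    have a4 : o3E K 2 - κ • o3F K 2 ∈ U := by
      convert U.sub_mem a1 (U.smul_mem 2 a2) using 1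
      module
    have a5 : -o3Y 3 K - o3E K 2 + (1 + κ) • o3F K 2 ∈ U := by
      convert D _ a4 using 1
      simp only [dv, o3T, o3M h, Fin.reduceEq, Fin.reduceNe, reduceIte]
      match_scalars <;> field_simp <;> ring
    have a6 : o3Y 3 K ∈ U := by
      convert U.smul_mem 2⁻¹ (U.add_mem (C _ a5) (B _ (C _ a5))) using 1
      simp only [o3M h, Fin.reduceEq, Fin.reduceNe, reduceIte]
      match_scalars <;> field_simp <;> ring
    have a7 : o3F K 2 ∈ U := by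
      convert U.add_mem a4 (U.add_mem a5 a6) using 1
      module
    have a8 : o3E K 2 ∈ U := by simpa using U.add_mem a4 (U.smul_mem κ a7)
    have a9 := C _ a7
    have a0 := C _ a8
    simp only [o3M h, Fin.reduceEq, Fin.reduceNe, reduceIte] at a9 a0
    refine ⟨a6, fun i hi => ?_⟩
    fin_cases i
    exacts [absurd rfl hi, ⟨a0, a9⟩, ⟨a8, a7⟩, ⟨a3, a2⟩]

theorem o3_four (h : (2 : K) ≠ 0) {κ : K} (k0 : κ ≠ 0) (k2 : κ - 2 ≠ 0)
    (sp : Spn ((1 - 2 / κ) ^ 2)) : IsLeast {k | Good (chev (CartanMatrix.D (4 + 2))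
      (Equiv.swap (Fin.last 4).castSucc (Fin.last (4 + 1))) (RingHom.id K)) k} 3 := by
  have q1 : qo (o3E (n := 4) K 0 + κ • o3F K 0) = κ := by simp [o3Q, o3T]
  have q2 : qo ((2 : K) • o3E (n := 4) K 3 + o3E K 1 - κ • o3F K 1) = -κ := by simp only [Nat.reduceMul, Nat.reduceAdd, Fin.isValue, o3Q, mul_zero, add_zero, o3T, Fin.reduceEq, ↓ reduceIte, zero_add, mul_one, zero_sub]
  have q3 : qo (o3Y 4 K + o3E K 2 - o3E K 4) = 1 := by simp only [Nat.reduceMul, Nat.reduceAdd, Fin.isValue, o3Q, add_zero, o3T, sub_zero]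
  have q4 : qo (o3F K 2 - o3F K 4 - (o3Y 4 K + o3E K 2 - o3E K 4)) = -1 := by
    simp only [o3Q, o3T, Fin.reduceEq, reduceIte]
    ring
  have q5 : qo (o3E (n := 4) K 3 - o3F K 3) = -1 := by simp [o3Q, o3T]
  have fd : OcF (moncS (RingHom.id K)) [o3E (n := 4) K 0 + κ • o3F K 0,
      (2 : K) • o3E K 3 + o3E K 1 - κ • o3F K 1, o3Y 4 K + o3E K 2 - o3E K 4,
      o3F K 2 - o3F K 4 - (o3Y 4 K + o3E K 2 - o3E K 4)] :=
    o3_fr (by simp only [Fin.isValue, List.mem_cons, List.not_mem_nil, or_false, Nat.reduceMul, Nat.reduceAdd, forall_eq_or_imp, o3_rt, forall_eq, and_self]) (by simp only [Nat.reduceMul, Nat.reduceAdd, Fin.isValue, List.pairwise_cons, List.mem_cons, List.not_mem_nil, or_false, o3T, forall_eq_or_imp, mul_zero, add_zero, zero_ne_one, ↓ reduceIte, sub_self, Fin.reduceEq, forall_eq, and_self, sub_zero, zero_sub, sub_neg_eq_add, IsEmpty.forall_iff, implies_true, List.Pairwise.nil, and_true, true_and]; norm_num)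 (by simp only [ocD, Nat.reduceMul, Nat.reduceAdd, Fin.isValue, List.map_cons, q1, q2, q3, q4, List.map_nil, List.prod_cons, List.prod_nil, mul_one, mul_neg, neg_neg, ne_eq, mul_eq_zero, k0, or_self, not_false_eq_true])
  have dv := ocR_app fd
  simp only [List.map_cons, List.map_nil, List.sum_cons, List.sum_nil, q1, q2, q3, q4,
    div_neg] at dv
  have fb : OcF (moncS (RingHom.id K)) [o3E (n := 4) K 1 + o3F K 1, o3E K 1 - o3F K 1,
      o3E K 3 + o3F K 3, o3E K 3 - o3F K 3] :=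
    o3_fr (by simp only [Fin.isValue, List.mem_cons, List.not_mem_nil, or_false, Nat.reduceMul, Nat.reduceAdd, forall_eq_or_imp, o3_rt, forall_eq, and_self]) (by simp only [Nat.reduceMul, Nat.reduceAdd, Fin.isValue, List.pairwise_cons, List.mem_cons, List.not_mem_nil, or_false, o3T, forall_eq_or_imp, ↓ reduceIte, zero_sub, sub_zero, neg_add_cancel, Fin.reduceEq, add_zero, forall_eq, sub_self, and_self, IsEmpty.forall_iff, implies_true, List.Pairwise.nil]) (by simp [ocD, o3Q, o3T])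
  refine o3_good h (by omega) (w := o3E K 3 - o3F K 3) (μ := -κ) (η := 1 - 2 / κ) (k := κ⁻¹)
    (k' := 2 / κ) (m := 2)
    (b := rfx (o3E K 1 + o3F K 1) * (rfx (o3E K 1 - o3F K 1) *
      (rfx (o3E K 3 + o3F K 3) * rfx (o3E K 3 - o3F K 3))))
    (c := rfx (o3E K 3 - o3F K 3) * (rfx (o3Y 4 K) * o3s K 1 2))
    (lc := [o3E K 3 - o3F K 3, o3Y 4 K, o3E K 1 + o3F K 1 - (o3E K 2 + o3F K 2),
      o3E K 1 - o3F K 1 - (o3E K 2 - o3F K 2)])
    (by simp [ocR]) (by simp only [Nat.reduceMul, Nat.reduceAdd, Fin.isValue, o3s, ocR, List.map_cons, List.map_nil, List.prod_cons, List.prod_nil, mul_one]) rfl o3_z1 fb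
    (o3_fr (by simp only [Fin.isValue, List.mem_cons, List.not_mem_nil, or_false, Nat.reduceMul, Nat.reduceAdd, forall_eq_or_imp, o3_rt, forall_eq, and_self]) (by simp only [Nat.reduceMul, Nat.reduceAdd, Fin.isValue, List.pairwise_cons, List.mem_cons, List.not_mem_nil, or_false, o3T, forall_eq_or_imp, sub_self, Fin.reduceEq, ↓ reduceIte, add_zero, forall_eq, and_self, zero_sub, sub_zero, neg_add_cancel, sub_neg_eq_add, zero_add, add_neg_cancel, IsEmpty.forall_iff, implies_true, List.Pairwise.nil]) (by simp only [ocD, Nat.reduceMul, Nat.reduceAdd, Fin.isValue, List.map_cons, q5, o3qY, ne_eq, Fin.reduceEq, not_false_eq_true, o3sq, List.map_nil, List.prod_cons, List.prod_nil, mul_one, mul_neg, one_mul, neg_mul, neg_neg, mul_eq_zero, h, or_self])) fd rfl rfl (by simp only [Fin.isValue, List.length_cons, List.length_nil, zero_add, Nat.reduceAdd, Nat.reduceLeDiff])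
    (inv_ne_zero k0) (div_ne_zero h k0) ?_ ?_ (by simp [ocR]) fb rfl
    (by simp [ocD, o3Q, o3T]) ?_ ?_ (by simp only [o3M h, Fin.reduceEq, Fin.reduceNe, reduceIte])
    (by simp only [o3M h, Fin.reduceEq, Fin.reduceNe, reduceIte])
    (by simp only [o3M h, Fin.reduceEq, Fin.reduceNe, reduceIte])
    (by simp only [o3M h, Fin.reduceEq, Fin.reduceNe, reduceIte]) (neg_ne_zero.2 k0) ?_ ?_
    (by simp [o3T]) (by simp [o3T]) (by simp [o3_rt])
    (by simp only [o3M h, Fin.reduceEq, Fin.reduceNe, reduceIte]; abel)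
    (by simp only [o3M h, Fin.reduceEq, Fin.reduceNe, reduceIte]; abel) ?_ sp ?_ fun U w B C D => ?_
  · simp only [ocD, Nat.reduceMul, Nat.reduceAdd, Fin.isValue, List.map_cons, o3Q, add_zero, o3T, ↓ reduceIte, zero_add, zero_sub, List.map_nil, List.prod_cons, List.prod_nil, mul_one, mul_neg, neg_neg, inv_pow, q1, q2, q3, q4]
    field_simp
  · simp only [ocD, Nat.reduceMul, Nat.reduceAdd, Fin.isValue, List.map_cons, q5, o3qY, ne_eq, Fin.reduceEq, not_false_eq_true, o3sq, List.map_nil, List.prod_cons, List.prod_nil, mul_one, mul_neg, one_mul, neg_mul, neg_neg, q1, q2, q3, q4]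
    field_simp
  · simp only [List.forall_mem_cons, o3M h, Fin.reduceEq, Fin.reduceNe, reduceIte]
    refine ⟨Or.inl ?_, Or.inr ?_, Or.inl ?_, Or.inl ?_, by simp only [List.not_mem_nil, Nat.reduceMul, Nat.reduceAdd, Fin.isValue, mulVec_mulVec, IsEmpty.forall_iff, implies_true]⟩ <;> module
  · simp only [List.forall_mem_cons, o3M h, Fin.reduceEq, Fin.reduceNe, reduceIte]
    refine ⟨Or.inl ?_, Or.inl ?_, Or.inr ?_, Or.inr ?_, by simp only [List.not_mem_nil, Nat.reduceMul, Nat.reduceAdd, Fin.isValue, mulVec_mulVec, IsEmpty.forall_iff, implies_true]⟩ <;> module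
  · simp only [dv, o3T, Fin.reduceEq, reduceIte]
    match_scalars <;> field_simp <;> ring
  · simp only [dv, o3T, Fin.reduceEq, reduceIte]
    match_scalars <;> field_simp <;> ring
  · rw [show 1 - 2 / κ = (κ - 2) / κ by field_simp]
    exact div_ne_zero k2 k0
  · simp only [dv, o3T, o3M h, Fin.reduceEq, Fin.reduceNe, reduceIte]
    match_scalars <;> field_simp <;> ring
  · have a1 : (2 : K) • o3F K 3 + o3E K 2 - κ • o3F K 2 ∈ U := by
      convert U.smul_mem (κ / 2) (C _ (U.sub_mem w (D _ w))) using 1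
      simp only [dv, o3T, o3M h, Fin.reduceEq, Fin.reduceNe, reduceIte]
      match_scalars <;> field_simp <;> ring
    have a2 : o3F K 3 ∈ U := by
      convert U.smul_mem (2⁻¹ * 2⁻¹) (U.sub_mem a1 (B _ a1)) using 1
      simp only [o3M h, Fin.reduceEq, Fin.reduceNe, reduceIte]
      match_scalars <;> field_simp <;> ring
    have a3 : o3E K 3 ∈ U := by simpa using U.add_mem w a2
    have a4 : o3E K 2 - κ • o3F K 2 ∈ U := by
      convert U.sub_mem a1 (U.smul_mem 2 a2) using 1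
      module
    have a5 : o3F K 2 - o3Y 4 K + o3E K 4 - (1 + κ) • o3F K 4 ∈ U := by
      convert D _ a4 using 1
      simp only [dv, o3T, o3M h, Fin.reduceEq, Fin.reduceNe, reduceIte]
      match_scalars <;> field_simp <;> ring
    have a6 : o3F K 1 ∈ U := by
      convert U.smul_mem 2⁻¹ (U.sub_mem (C _ a5) (B _ (C _ a5))) using 1
      simp only [o3M h, Fin.reduceEq, Fin.reduceNe, reduceIte]
      match_scalars <;> field_simp <;> ring
    have a7 := C _ a6
    simp only [o3M h, Fin.reduceEq, Fin.reduceNe, reduceIte] at a7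
    have a8 : o3E K 2 ∈ U := by simpa using U.add_mem a4 (U.smul_mem κ a7)
    have a9 := C _ a8
    simp only [o3M h, Fin.reduceEq, Fin.reduceNe, reduceIte] at a9
    have b1 : o3Y 4 K ∈ U := by
      convert U.smul_mem 2⁻¹ (U.sub_mem (C _ (U.sub_mem a5 a7)) (U.sub_mem a5 a7)) using 1
      simp only [o3M h, Fin.reduceEq, Fin.reduceNe, reduceIte]
      match_scalars <;> field_simp <;> ring
    have b2 : o3F K 4 ∈ U := by
      convert D _ a7 using 1
      simp only [dv, o3T, o3M h, Fin.reduceEq, Fin.reduceNe, reduceIte]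
      match_scalars <;> field_simp <;> ring
    have b3 : o3E K 4 ∈ U := by
      convert U.add_mem (U.sub_mem a5 a7) (U.add_mem b1 (U.smul_mem (1 + κ) b2)) using 1
      module
    refine ⟨b1, fun i hi => ?_⟩
    fin_cases i
    exacts [absurd rfl hi, ⟨a9, a6⟩, ⟨a8, a7⟩, ⟨a3, a2⟩, ⟨b3, b2⟩]

theorem o3_five (h : (2 : K) ≠ 0) {κ : K} (k0 : κ ≠ 0) (k2 : κ - 2 ≠ 0)
    (sp : Spn ((1 - 2 / κ) ^ 2)) : IsLeast {k | Good (chev (CartanMatrix.D (5 + 2))
      (Equiv.swap (Fin.last 5).castSucc (Fin.last (5 + 1))) (RingHom.id K)) k} 3 := by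
  have q1 : qo (o3E (n := 5) K 0 - κ • o3F K 0) = -κ := by simp [o3Q, o3T]
  have q2 : qo (o3Y 5 K + o3E K 1 + (κ - 1) • o3F K 1) = κ := by simp [o3Q, o3T]
  have q3 : qo (o3E (n := 5) K 1 - (κ - 1) • o3F K 1 + o3E K 3 + κ • o3F K 3) = 1 := by
    simp [o3Q, o3T]
  have q4 : qo (o3E (n := 5) K 4 - o3E K 5 + (o3F K 4 - o3F K 5 - o3F K 2)) = 2 := by
    simp only [o3Q, o3T, Fin.reduceEq, reduceIte]
    ring
  have q5 : qo (o3E (n := 5) K 4 - o3E K 5 - (o3F K 4 - o3F K 5 - o3F K 2)) = -2 := by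
    simp only [o3Q, o3T, Fin.reduceEq, reduceIte]
    ring
  have fd : OcF (moncS (RingHom.id K)) [o3E (n := 5) K 0 - κ • o3F K 0,
      o3Y 5 K + o3E K 1 + (κ - 1) • o3F K 1, o3E K 1 - (κ - 1) • o3F K 1 + o3E K 3 + κ • o3F K 3,
      o3E K 4 - o3E K 5 + (o3F K 4 - o3F K 5 - o3F K 2),
      o3E K 4 - o3E K 5 - (o3F K 4 - o3F K 5 - o3F K 2)] :=
    o3_fr (by simp only [Fin.isValue, List.mem_cons, List.not_mem_nil, or_false, Nat.reduceMul, Nat.reduceAdd, forall_eq_or_imp, o3_rt, forall_eq, and_self]) (by simp only [Nat.reduceMul, Nat.reduceAdd, Fin.isValue, List.pairwise_cons, List.mem_cons, List.not_mem_nil, or_false, o3T, forall_eq_or_imp, add_zero, zero_ne_one, ↓ reduceIte, mul_zero, sub_self, Fin.reduceEq, forall_eq, and_self, mul_one, zero_sub, neg_sub, zero_add, sub_zero, sub_add_sub_cancel, sub_neg_eq_add, sub_add_add_cancel, neg_add_cancel, IsEmpty.forall_iff, implies_true, List.Pairwise.nil]) (by simp only [ocD,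 Nat.reduceMul, Nat.reduceAdd, Fin.isValue, List.map_cons, q1, q2, q3, q4, q5, List.map_nil, List.prod_cons, List.prod_nil, mul_one, mul_neg, one_mul, neg_mul, neg_neg, ne_eq, mul_eq_zero, k0, h, or_self, not_false_eq_true])
  have dv := ocR_app fd
  simp only [List.map_cons, List.map_nil, List.sum_cons, List.sum_nil, q1, q2, q3, q4, q5,
    div_neg] at dv
  have fb : OcF (moncS (RingHom.id K)) [o3Y 5 K, o3E K 1 + o3F K 1, o3E K 1 - o3F K 1,
      o3E K 3 + o3F K 3, o3E K 3 - o3F K 3] :=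
    o3_fr (by simp only [Fin.isValue, List.mem_cons, List.not_mem_nil, or_false, Nat.reduceMul, Nat.reduceAdd, forall_eq_or_imp, o3_rt, forall_eq, and_self]) (by simp only [Nat.reduceMul, Nat.reduceAdd, Fin.isValue, List.pairwise_cons, List.mem_cons, List.not_mem_nil, or_false, forall_eq_or_imp, o3T, add_zero, sub_self, forall_eq, and_self, ↓ reduceIte, zero_sub, sub_zero, neg_add_cancel, Fin.reduceEq, IsEmpty.forall_iff, implies_true, List.Pairwise.nil]) (by simp [ocD, o3Q, o3T])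
  refine o3_good h (by omega) (w := o3Y 5 K) (μ := κ) (η := 1 - 2 / κ) (k := (2 * κ)⁻¹)
    (k' := 2 / κ) (m := 4)
    (b := rfx (o3Y 5 K) * (rfx (o3E K 1 + o3F K 1) * (rfx (o3E K 1 - o3F K 1) *
      (rfx (o3E K 3 + o3F K 3) * rfx (o3E K 3 - o3F K 3)))))
    (c := rfx (o3Y 5 K) * (o3s K 1 2 * o3s K 3 4))
    (z := (rfx (o3E K 0 + o3F K 0) * (rfx (o3E K 0 - o3F K 0) *
      (rfx (o3E K 2 + o3F K 2) * (rfx (o3E K 2 - o3F K 2) *
      (rfx (o3E K 4 + o3F K 4) * (rfx (o3E K 4 - o3F K 4) *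
      (rfx (o3E K 5 + o3F K 5) * rfx (o3E K 5 - o3F K 5)))))))) *
      (rfx (o3Y 5 K) * (rfx (o3E K 1 + o3F K 1) * (rfx (o3E K 1 - o3F K 1) *
      (rfx (o3E K 3 + o3F K 3) * rfx (o3E K 3 - o3F K 3))))))
    (lc := [o3Y 5 K, o3E K 1 + o3F K 1 - (o3E K 2 + o3F K 2),
      o3E K 1 - o3F K 1 - (o3E K 2 - o3F K 2), o3E K 3 + o3F K 3 - (o3E K 4 + o3F K 4),
      o3E K 3 - o3F K 3 - (o3E K 4 - o3F K 4)])
    (lz := [o3E K 0 + o3F K 0, o3E K 0 - o3F K 0, o3E K 2 + o3F K 2, o3E K 2 - o3F K 2,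
      o3E K 4 + o3F K 4, o3E K 4 - o3F K 4, o3E K 5 + o3F K 5, o3E K 5 - o3F K 5])
    (by simp [ocR]) (by simp only [Nat.reduceMul, Nat.reduceAdd, o3s, Fin.isValue, mul_assoc, ocR, List.map_cons, List.map_nil, List.prod_cons, List.prod_nil, mul_one]) rfl
    (o3_z (fun v => by simp only [monc_mul, rfx_iso]) (by simp only [o3M h]) fun i => ?_) fb
    (o3_fr (by simp only [Fin.isValue, List.mem_cons, List.not_mem_nil, or_false, Nat.reduceMul, Nat.reduceAdd, forall_eq_or_imp, o3_rt, forall_eq, and_self]) (by simp only [Nat.reduceMul, Nat.reduceAdd, Fin.isValue, List.pairwise_cons, List.mem_cons, List.not_mem_nil, or_false, forall_eq_or_imp, o3T, add_zero, sub_self, forall_eq, and_self, ↓ reduceIte, zero_sub, Fin.reduceEq, sub_zero, neg_add_cancel, sub_neg_eq_add, zero_add, add_neg_cancel, IsEmpty.forall_iff, implies_true, List.Pairwise.nil]) (by simp only [ocD, Nat.reduceMul, Nat.reduceAdd, Fin.isValue, List.map_cons,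 o3qY, ne_eq, Fin.reduceEq, not_false_eq_true, o3sq, List.map_nil, List.prod_cons, List.prod_nil, mul_one, mul_neg, neg_mul, neg_neg, one_mul, mul_eq_zero, h, or_self])) fd rfl rfl (by simp)
    (inv_ne_zero (mul_ne_zero h k0)) (div_ne_zero h k0) ?_ ?_ ?_
    (o3_fr (by simp only [Fin.isValue, List.mem_cons, List.not_mem_nil, or_false, Nat.reduceMul, Nat.reduceAdd, forall_eq_or_imp, o3_rt, forall_eq, and_self]) (by simp only [Nat.reduceMul, Nat.reduceAdd, Fin.isValue, List.pairwise_cons, List.mem_cons, List.not_mem_nil, or_false, o3T, forall_eq_or_imp, ↓ reduceIte, zero_sub, sub_zero, neg_add_cancel, Fin.reduceEq, add_zero, sub_self, forall_eq, and_self, IsEmpty.forall_iff, implies_true, List.Pairwise.nil]) (by simp [ocD, o3Q, o3T])) rfl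
    (by simp [ocD, o3Q, o3T]) ?_ ?_ (by simp only [o3M h, Fin.reduceEq, Fin.reduceNe, reduceIte])
    (by simp only [o3M h, Fin.reduceEq, Fin.reduceNe, reduceIte])
    (by simp only [o3M h, Fin.reduceEq, Fin.reduceNe, reduceIte])
    (by simp only [o3M h, Fin.reduceEq, Fin.reduceNe, reduceIte]) k0 ?_ ?_ (o3FY 0) (o3EY 0) o3Y_rat
    (by simp only [o3M h]) (by simp only [o3M h]) ?_ sp ?_ fun U w B C D => ?_
  · simp only [monc_mul]
    fin_cases i <;> simp [o3M h, -mulVec_mulVec]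
  · simp [ocD, q1, q2, q3, q4, q5, o3Q, o3T]
    field_simp
  · simp only [ocD, Nat.reduceMul, Nat.reduceAdd, Fin.isValue, List.map_cons, o3qY, ne_eq, Fin.reduceEq, not_false_eq_true, o3sq, List.map_nil, List.prod_cons, List.prod_nil, mul_one, mul_neg, neg_mul, neg_neg, one_mul, q1, q2, q3, q4, q5]
    field_simp
  · have := ocR_sq fb
    simp only [ocR, List.map_cons, List.map_nil, List.prod_cons, List.prod_nil, mul_one] at this ⊢
    rw [mul_assoc, this, mul_one]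
  · simp only [List.forall_mem_cons, o3M h, Fin.reduceEq, Fin.reduceNe, reduceIte]
    refine ⟨Or.inl ?_, Or.inr ?_, Or.inr ?_, Or.inl ?_, Or.inl ?_, by simp only [List.not_mem_nil, Nat.reduceMul, Nat.reduceAdd, Fin.isValue, mulVec_mulVec, IsEmpty.forall_iff, implies_true]⟩ <;> module
  · simp only [List.forall_mem_cons, o3M h, Fin.reduceEq, Fin.reduceNe, reduceIte]
    refine ⟨Or.inr ?_, Or.inl ?_, Or.inl ?_, Or.inl ?_, Or.inl ?_, by simp only [List.not_mem_nil, Nat.reduceMul, Nat.reduceAdd, Fin.isValue, mulVec_mulVec, IsEmpty.forall_iff, implies_true]⟩ <;> module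
  · simp only [dv, o3T, Fin.reduceEq, reduceIte]
    match_scalars <;> field_simp <;> ring
  · simp only [dv, o3T, Fin.reduceEq, reduceIte]
    match_scalars <;> field_simp <;> ring
  · rw [show 1 - 2 / κ = (κ - 2) / κ by field_simp]
    exact div_ne_zero k2 k0
  · simp only [dv, o3T, o3M h, Fin.reduceEq, Fin.reduceNe, reduceIte]
    match_scalars <;> field_simp <;> ring
  · have a1 : o3E K 2 + (κ - 1) • o3F K 2 ∈ U := by
      convert U.sub_mem (U.smul_mem ((2 - κ) / 2) w) (U.smul_mem (κ / 2) (C _ (D _ w))) using 1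
      simp only [dv, o3T, o3M h, Fin.reduceEq, Fin.reduceNe, reduceIte]
      match_scalars <;> field_simp <;> ring
    have a2 : o3E K 4 - o3E K 5 ∈ U := by
      convert U.sub_mem (D _ a1) a1 using 1
      simp only [dv, o3T, o3M h, Fin.reduceEq, Fin.reduceNe, reduceIte]
      match_scalars <;> field_simp <;> ring
    have a3 : o3E K 3 ∈ U := by
      convert U.smul_mem 2⁻¹ (U.sub_mem (C _ a2) (B _ (C _ a2))) using 1
      simp only [o3M h, Fin.reduceEq, Fin.reduceNe, reduceIte]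
      match_scalars <;> field_simp <;> ring
    have a4 := C _ a3
    simp only [o3M h, Fin.reduceEq, Fin.reduceNe, reduceIte] at a4
    have a5 : o3E K 5 ∈ U := by simpa using U.sub_mem a4 a2
    have a6 : o3E K 2 - (κ - 1) • o3F K 2 + κ • o3F K 4 ∈ U := by
      convert U.sub_mem (U.smul_mem κ⁻¹ (C _ (U.sub_mem a3 (D _ a3)))) a4 using 1
      simp only [dv, o3T, o3M h, Fin.reduceEq, Fin.reduceNe, reduceIte]
      match_scalars <;> field_simp <;> ring
    have a7 : o3F K 4 - o3F K 5 - o3F K 2 ∈ U := by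
      convert U.smul_mem κ⁻¹ (U.sub_mem (U.add_mem a6 a2) (D _ a6)) using 1
      simp only [dv, o3T, o3M h, Fin.reduceEq, Fin.reduceNe, reduceIte]
      match_scalars <;> field_simp <;> ring
    have a8 : o3F K 5 ∈ U := by
      convert U.smul_mem (-2⁻¹) (U.add_mem (C _ a7) (B _ (C _ a7))) using 1
      simp only [o3M h, Fin.reduceEq, Fin.reduceNe, reduceIte]
      match_scalars <;> field_simp <;> ring
    have a9 : o3F K 2 ∈ U := by
      convert U.smul_mem (κ - 2)⁻¹ (U.sub_mem (U.smul_mem κ (U.add_mem a7 a8)) (U.sub_mem a6 a1)) using 1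
      match_scalars <;> field_simp <;> ring
    have b1 : o3F K 4 ∈ U := by simpa using U.add_mem (U.add_mem a7 a9) a8
    have b2 : o3E K 2 ∈ U := by simpa using U.sub_mem a1 (U.smul_mem (κ - 1) a9)
    have b3 := C _ a9
    have b4 := C _ b1
    have b5 := C _ b2
    simp only [o3M h, Fin.reduceEq, Fin.reduceNe, reduceIte] at b3 b4 b5
    refine ⟨w, fun i hi => ?_⟩
    fin_cases i
    exacts [absurd rfl hi, ⟨b5, b3⟩, ⟨b2, a9⟩, ⟨a3, b4⟩, ⟨a4, b1⟩, ⟨a5, a8⟩]

theorem tO3 (h : (2 : K) ≠ 0) {n : ℕ} (h2 : 2 ≤ n) (h5 : n ≤ 5) :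
    IsLeast {k | Good (chev (CartanMatrix.D (n + 2))
      (Equiv.swap (Fin.last n).castSucc (Fin.last (n + 1))) (RingHom.id K)) k} 3 := by
  obtain ⟨g, hg⟩ := IsCyclic.exists_monoid_generator (α := Kˣ)
  have hx : ∀ s : K, s ≠ 0 → ∃ m : ℕ, s = (g : K) ^ m := fun s hs => by
    obtain ⟨m, hm⟩ := hg (Units.mk0 s hs)
    exact ⟨m, by simpa using (congrArg Units.val hm).symm⟩
  have x1 : 1 - (g : K) ≠ 0 := fun c => by
    obtain ⟨m, hm⟩ := hx (-1) (by simp)
    rw [← sub_eq_zero.1 c, one_pow] at hm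
    exact h (by linear_combination -hm)
  have k0 := div_ne_zero h x1
  have k2 : 2 / (1 - (g : K)) - 2 ≠ 0 := by
    rw [show 2 / (1 - (g : K)) - 2 = 2 * g / (1 - g) by field_simp; ring]
    exact div_ne_zero (mul_ne_zero h g.ne_zero) x1
  have sp : Spn ((1 - 2 / (2 / (1 - (g : K)))) ^ 2) := by
    rw [show 1 - 2 / (2 / (1 - (g : K))) = g by field_simp; ring]
    exact spn_pow hx two_pos (by simpa only [Nat.add_one_sub_one, one_pow] using Finite.one_lt_card)
  interval_cases n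
  exacts [o3_two h k0 k2 sp, o3_three h k0 k2 sp, o3_four h k0 k2 sp, o3_five h k0 k2 sp]

end Pool.Agent.MP_c78e8e_al.H75

end
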