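import Pool.Agent.MP_c78e8e_al.Mg.Sg_Ort
import Pool.Agent.MP_c78e8e_al.Sg.Sl2
import Pool.Agent.MP_c78e8e_al.Mg.Sg_Mon

attribute [-instance] instCharZeroOfIsSemireal instNoNatZeroDivisorsOfIsAddTorsionFree
  MonTypeEquivalenceMon.monMonoid FloorSemiring.instCharZero RCLike.charZero_rclike
  SemilatticeInf.toPartialOrder RKHS.instFunLike NonUnitalRingHomClass.toMulHomClass
  IdemSemiring.toSemiring littleWedderburn NumberField.to_charZero CommRing.toGrindCommRing
  IsStrictOrderedRing.toCharZero instCoeTCOfCoe SemigroupWithZero.toSemigroup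
  NonUnitalAlgSemiHomClass.toMulHomClass RingConeClass.toSubsemiringClass NeZero.of_gt'
  BooleanRing.toRing UniformSpace.toTopologicalSpace CommMonTypeEquivalenceCommMon.commMonCommMonoid
  TestFunctionClass.toDFunLike ContDiffMapSupportedInClass.toDFunLike SemilatticeSup.toPartialOrder
  LieRing.toAddCommGroup instCommGroupOfIsSimpleGroupOfIsNilpotent AddSubmonoidClass.toZeroMemClass
  Invertible.toNeZero Order.Coframe.toCompleteLattice NormMulClass.toNoZeroDivisors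
  OmegaCompletePartialOrder.toPartialOrder Std.PreorderPackage.toLE
  CompletelyDistribLattice.toCompleteLattice SubringClass.toSubsemiringClass
  ContinuousMonoidHom.instCoeOutOfMonoidHomClassOfContinuousMapClass
  AddCommMonoidWithOne.toAddMonoidWithOne MonoidWithZero.toMulZeroOneClass NormedField.toField
  ConditionallyCompleteLinearOrderBot.toConditionallyCompleteLinearOrder
  NonUnitalNormedRing.toNormedAddCommGroup instCoeOutOfCoeFun
  LieAdmissibleRing.toNonUnitalNonAssocRing ChainCompletePartialOrder.toPartialOrder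
  NormedRing.toRing Order.Frame.toCompleteLattice CategoryTheory.CommGrpObj.toGrpObj
  IdemCommSemiring.toCommSemiring CompleteSemilatticeSup.toPartialOrder
  LinearOrderedAddCommMonoidWithTop.toAddCommMonoid CompleteSemilatticeInf.toPartialOrder
  ConditionallyCompletePartialOrderInf.toPartialOrder NormedCommRing.toCommRing
  instCoeHTCTOfCoeTailOfCoeHTC CharP.ofCharZero instCoeTOfCoeDep AddQuantale.instAddLeftMono
  InvOneClass.toOne Fintype.decidableForallFintype IsStrictOrderedRing.noZeroDivisors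
  AddCommGroupWithOne.toAddGroupWithOne EuclideanDomain.toCommRing CommMonoidWithZero.toCommMonoid
  SeminormedRing.toRing SeminormedCommRing.toCommRing IsometryClass.instCoeOutIsometryEquiv
  GroupConeClass.toSubmonoidClass CompleteLinearOrder.toCompleteLattice
  LinearOrderedAddCommGroupWithTop.toAddCommMonoid CategoryTheory.FinCategory.fintypeObj
  ContinuousAddMonoidHom.instCoeOutOfAddMonoidHomClassOfContinuousMapClass
  CommSemiring.toGrindCommSemiring CategoryTheory.Preadditive.instGrpObj instCoeHTCT instCoeTC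
  instCoeHTC CategoryTheory.Limits.Concrete.instUniqueToTypeTerminal
  Std.instLawfulBEqOrdOfLawfulOrderOrdOfLawfulOrderBEq HomeomorphClass.instCoeOutHomeomorph
  SubsemiringClass.toSubmonoidClass instConditionallyCompletePartialOrderSup
  LinearOrderedCommGroupWithZero.toCommGroupWithZero CompleteLattice.toPartialOrder'
  NeZero.charZero_one NonUnitalRing.toNonUnitalNonAssocRing IsFormallyReal.instIsReduced
  Nat.AtLeastTwo.toNeZero instNonemptyOfMonad MulSemiringAction.toDistribMulAction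
  LinearOrderedAddCommGroupWithTop.toSubNegMonoid Group.IsPerfect.subsingleton_of_isMulCommutative
  RightPreLieRing.toNonUnitalNonAssocRing LeftPreLieRing.toNonUnitalNonAssocRing instSMulZeroClass
  BooleanRing.toCommRing CommSemiring.toCommMonoid LieAdmissibleAlgebra.toModule
  MulEquivClass.instMonoidHomClass StarRingEquivClass.instCoeHead GroupWithZero.toDivisionMonoid
  LieAlgebra.toModule

section

set_option linter.unusedSimpArgs false
set_option linter.unusedTactic false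
set_option linter.unreachableTactic false

namespace Pool.Agent.MP_c78e8e_al.H75

open Subgroup Matrix

variable {K : Type} [Field K] {H : Subgroup (GL (Fin 4) K)} {A B g : Matrix (Fin 4) (Fin 4) K}

/-- The matrix `A` is the value of an element of `H`. -/
def s1In (H : Subgroup (GL (Fin 4) K)) (A : Matrix (Fin 4) (Fin 4) K) : Prop := ∃ g ∈ H, g.1 = A

theorem s1In.mul (h : s1In H A) (h' : s1In H B) : s1In H (A * B) := by
  obtain ⟨a, ha, rfl⟩ := h
  obtain ⟨b, hb, rfl⟩ := h'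
  exact ⟨a * b, mul_mem ha hb, rfl⟩

theorem s1In.eq (h : s1In H A) (e : A = B) : s1In H B := e ▸ h

theorem s1In.pow (h : s1In H A) (n : ℕ) : s1In H (A ^ n) := by
  obtain ⟨a, ha, rfl⟩ := h
  exact ⟨a ^ n, pow_mem ha n, rfl⟩

theorem s1In.can (h : s1In H A) (h' : s1In H (A * B)) : s1In H B := by
  obtain ⟨a, ha, rfl⟩ := h
  obtain ⟨b, hb, e⟩ := h'
  exact ⟨a⁻¹ * b, mul_mem (inv_mem ha) hb, by rw [Units.val_mul, e, Units.inv_mul_cancel_left]⟩

theorem s1In.can' (h : s1In H A) (h' : s1In H (B * A)) : s1In H B := by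
  obtain ⟨a, ha, rfl⟩ := h
  obtain ⟨b, hb, e⟩ := h'
  exact ⟨b * a⁻¹, mul_mem hb (inv_mem ha), by rw [Units.val_mul, e, Units.mul_inv_cancel_right]⟩

theorem s1In.cj (h : s1In H g) (h' : s1In H A) (e : g * A = B * g) : s1In H B :=
  h.can' (e ▸ h.mul h')

theorem s1In.cj' (h : s1In H g) (h' : s1In H B) (e : g * A = B * g) : s1In H A :=
  h.can (e ▸ h'.mul h)

theorem s1In.mem {u : GL (Fin 4) K} (h : s1In H u.1) : u ∈ H := by
  obtain ⟨a, ha, e⟩ := h
  exact Units.ext e ▸ ha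

theorem s1In.sep (h : s1In H (A * B)) (c : A * B = B * A) {n : ℕ} (e : A ^ n = A) (e' : B ^ n = 1) :
    s1In H A ∧ s1In H B := by
  have k := (h.pow n).eq (by rw [Commute.mul_pow c, e, e', mul_one])
  exact ⟨k, k.can h⟩

theorem s1_mul (a b c d e f g h i j k l m n o p a' b' c' d' e' f' g' h' i' j' k' l' m' n' o' p' : K) :
    !![a, b, c, d; e, f, g, h; i, j, k, l; m, n, o, p] *
      !![a', b', c', d'; e', f', g', h'; i', j', k', l'; m', n', o', p'] =
    !![a * a' + b * e' + c * i' + d * m', a * b' + b * f' + c * j' + d * n',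
        a * c' + b * g' + c * k' + d * o', a * d' + b * h' + c * l' + d * p';
      e * a' + f * e' + g * i' + h * m', e * b' + f * f' + g * j' + h * n',
        e * c' + f * g' + g * k' + h * o', e * d' + f * h' + g * l' + h * p';
      i * a' + j * e' + k * i' + l * m', i * b' + j * f' + k * j' + l * n',
        i * c' + j * g' + k * k' + l * o', i * d' + j * h' + k * l' + l * p';
      m * a' + n * e' + o * i' + p * m', m * b' + n * f' + o * j' + p * n',
        m * c' + n * g' + o * k' + p * o', m * d' + n * h' + o * l' + p * p'] := by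
  ext x y
  fin_cases x <;> fin_cases y <;> simp only [Fin.zero_eta, Fin.isValue, Matrix.mul_apply, of_apply, cons_val', cons_val_fin_one, cons_val_zero, Fin.sum_univ_four, cons_val_one, cons_val, Fin.mk_one, Fin.reduceFinMk]

omit [Field K] in
theorem s1_ext {a b c d e f g h i j k l m n o p a' b' c' d' e' f' g' h' i' j' k' l' m' n' o' p' : K}
    (ha : a = a') (hb : b = b') (hc : c = c') (hd : d = d') (he : e = e') (hf : f = f') (hg : g = g')
    (hh : h = h') (hi : i = i') (hj : j = j') (hk : k = k') (hl : l = l') (hm : m = m') (hn : n = n')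
    (ho : o = o') (hp : p = p') : !![a, b, c, d; e, f, g, h; i, j, k, l; m, n, o, p] =
      !![a', b', c', d'; e', f', g', h'; i', j', k', l'; m', n', o', p'] := by
  rw [ha, hb, hc, hd, he, hf, hg, hh, hi, hj, hk, hl, hm, hn, ho, hp]

theorem s1_sc (z : K) : z • (1 : Matrix (Fin 4) (Fin 4) K) =
    !![z, 0, 0, 0; 0, z, 0, 0; 0, 0, z, 0; 0, 0, 0, z] := by
  ext x y
  fin_cases x <;> fin_cases y <;> simp

/-- The unipotent radical of the Siegel parabolic subgroup. -/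
def s1x (a b c : K) : Matrix (Fin 4) (Fin 4) K := !![1, 0, a, b; 0, 1, c, -a; 0, 0, 1, 0; 0, 0, 0, 1]

/-- The opposite radical. -/
def s1y (a b c : K) : Matrix (Fin 4) (Fin 4) K := !![1, 0, 0, 0; 0, 1, 0, 0; a, b, 1, 0; c, -a, 0, 1]

/-- The short root subgroup `SL₂`. -/
def s1p (a b c d : K) : Matrix (Fin 4) (Fin 4) K := !![a, b, 0, 0; c, d, 0, 0; 0, 0, a, b; 0, 0, c, d]

theorem s1x_add (a b c a' b' c' : K) : s1x a b c * s1x a' b' c' = s1x (a + a') (b + b') (c + c') := by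
  simp only [s1x, s1_mul, mul_zero, zero_mul, mul_one, one_mul, add_zero, zero_add, neg_zero]
  apply s1_ext <;> first | rfl | ring1

theorem s1y_add (a b c a' b' c' : K) : s1y a b c * s1y a' b' c' = s1y (a + a') (b + b') (c + c') := by
  simp only [s1y, s1_mul, mul_zero, zero_mul, mul_one, one_mul, add_zero, zero_add, neg_zero]
  apply s1_ext <;> first | rfl | ring1

theorem s1x_pow (a b c : K) (n : ℕ) : s1x a b c ^ n = s1x (n * a) (n * b) (n * c) := by
  induction n with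
  | zero => rw [pow_zero, ← one_smul K (1 : Matrix _ _ K), s1_sc]; simp [s1x]
  | succ n ih => rw [pow_succ, ih, s1x_add]; simp only [Nat.cast_add, Nat.cast_one, add_mul, one_mul]

theorem s1_el (s : K) : (el (r := 3) 0 3 s).1 = s1x 0 s 0 ∧ (el (r := 3) 1 2 s).1 = s1x 0 0 s ∧
    (el (r := 3) 3 0 s).1 = s1y 0 0 s ∧ (el (r := 3) 2 1 s).1 = s1y 0 s 0 ∧
    (el (r := 3) 0 2 s * el 1 3 (-s)).1 = s1x s 0 0 ∧ (el (r := 3) 2 0 s * el 3 1 (-s)).1 = s1y s 0 0 ∧
    (el (r := 3) 0 1 s * el 2 3 s).1 = s1p 1 s 0 1 ∧ (el (r := 3) 1 0 s * el 3 2 s).1 = s1p 1 0 s 1 := by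
  refine ⟨?_, ?_, ?_, ?_, ?_, ?_, ?_, ?_⟩ <;>
  · try simp only [Units.val_mul]
    repeat rw [el_val (by decide)]
    ext x y
    fin_cases x <;> fin_cases y <;>
      simp [s1x, s1y, s1p, Matrix.mul_apply, Fin.sum_univ_four, single_apply, one_apply]

theorem s1_long {i : Fin 4} (h : i ≠ i.rev) (u : GL (Fin 4) K) :
    u ∈ rt (r := 3) (RingHom.id K) i i.rev ↔ ∃ s, u = el (r := 3) i i.rev s := by
  rw [rt_long (fun _ => rfl) h]
  exact exists_congr fun s => and_iff_right (by norm_num)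

theorem s1_mem (s : K) : s1In (sug 3 (RingHom.id K)) (s1p 1 s 0 1) ∧
    s1In (sug 3 (RingHom.id K)) (s1p 1 0 s 1) ∧ ∀ a b c : K,
    s1In (sug 3 (RingHom.id K)) (s1x a b c) ∧ s1In (sug 3 (RingHom.id K)) (s1y a b c) := by
  have l : ∀ (i : Fin 4) (h : i ≠ i.rev) (s : K), s1In (sug 3 (RingHom.id K)) (el (r := 3) i i.rev s).1 :=
    fun i h s => ⟨_, rt_mem ((s1_long h _).2 ⟨s, rfl⟩), rfl⟩
  have t : ∀ (i j : Fin 4) (h : i ≠ j ∧ j ≠ i.rev ∧ i ≠ i.rev ∧ j ≠ j.rev) (s : K),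
      s1In (sug 3 (RingHom.id K)) (el (r := 3) i j s * el j.rev i.rev (-(-1) ^ ((i : ℕ) + j) * s)).1 :=
    fun i j h s => ⟨_, rt_mem ((rt_short (fun _ => rfl) h.1 h.2.1 h.2.2.1 h.2.2.2 _).2 ⟨s, rfl⟩), rfl⟩
  refine ⟨(t 0 1 (by decide) s).eq ?_, (t 1 0 (by decide) s).eq ?_, fun a b c =>
    ⟨((t 0 2 (by decide) a).mul ((l 0 (by decide) b).mul (l 1 (by decide) c))).eq ?_,
      ((t 2 0 (by decide) a).mul ((l 2 (by decide) b).mul (l 3 (by decide) c))).eq ?_⟩⟩
  · simpa only [Nat.reduceAdd, Fin.isValue, Fin.reduceRev, Fin.rev_zero, Fin.reduceLast, Fin.coe_ofNat_eq_mod, Nat.zero_mod, Nat.one_mod, zero_add, pow_one, neg_neg, one_mul, Units.val_mul] using (s1_el s).2.2.2.2.2.2.1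
  · simpa only [Nat.reduceAdd, Fin.isValue, Fin.rev_zero, Fin.reduceLast, Fin.reduceRev, Fin.coe_ofNat_eq_mod, Nat.one_mod, Nat.zero_mod, add_zero, pow_one, neg_neg, one_mul, Units.val_mul] using (s1_el s).2.2.2.2.2.2.2
  · have := s1x_add a 0 0 (0 + 0) (b + 0) (0 + c)
    rw [← s1x_add, ← (s1_el a).2.2.2.2.1, ← (s1_el b).1, ← (s1_el c).2.1] at this
    simpa only [Nat.reduceAdd, Fin.isValue, Fin.reduceRev, Fin.rev_zero, Fin.reduceLast, Fin.coe_ofNat_eq_mod, Nat.zero_mod, Nat.reduceMod, zero_add, even_two, Even.neg_pow, one_pow, neg_mul, one_mul, Units.val_mul, add_zero] using this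
  · have := s1y_add a 0 0 (0 + 0) (b + 0) (0 + c)
    rw [← s1y_add, ← (s1_el a).2.2.2.2.2.1, ← (s1_el b).2.2.2.1, ← (s1_el c).2.2.1] at this
    simpa only [Nat.reduceAdd, Fin.isValue, Fin.rev_zero, Fin.reduceLast, Fin.reduceRev, Fin.coe_ofNat_eq_mod, Nat.reduceMod, Nat.zero_mod, add_zero, even_two, Even.neg_pow, one_pow, neg_mul, one_mul, Units.val_mul, zero_add] using this

/-- The transfer theorem for explicit matrices. -/
theorem s1_good [Finite K] (h : 3 < Nat.card K) {d b c g g' : Matrix (Fin 4) (Fin 4) K} {z : K}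
    (hd : s1In (sug 3 (RingHom.id K)) d) (hg : s1In (sug 3 (RingHom.id K)) g)
    (hg' : s1In (sug 3 (RingHom.id K)) g') (eb : g * d = b * g) (ec : g' * d = c * g')
    (dd : d * d = z • 1) (db : b * d = d * b * z • 1)
    (gen : ∀ H, s1In H d → s1In H b → s1In H c → ∀ s, s1In H (s1x 0 0 s) ∧ s1In H (s1y 0 s 0) ∧
      s1In H (s1p 1 s 0 1) ∧ s1In H (s1p 1 0 s 1)) :
    IsLeast {n | Good (chev (CartanMatrix.A 3) Fin.revPerm (RingHom.id K)) n} 3 := by
  obtain ⟨b, hb, rfl⟩ := hg.cj hd eb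
  obtain ⟨c, hc, rfl⟩ := hg'.cj hd ec
  obtain ⟨d, hd, rfl⟩ := hd
  obtain ⟨g, hg, rfl⟩ := hg
  obtain ⟨g', hg', rfl⟩ := hg'
  have one : ∀ {g b : GL (Fin 4) K}, g.1 * d.1 = b.1 * g.1 → Sc (r := 3) (b⁻¹ * (g * d * g⁻¹)) :=
    fun {g b} e => ⟨1, by rw [show g * d = b * g from Units.ext e]; simp only [Nat.reduceAdd, mul_inv_cancel_right, inv_mul_cancel, Units.val_one, one_smul]⟩
  refine goodSU (r := 3) (by norm_num) (fun _ => rfl) (fun h => absurd h (by decide))
    (sug_ns le_rfl (fun _ => rfl) (Or.inr h)) hd hb hc hg hg' ⟨z, dd⟩ (one eb) (one ec)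
    ⟨z, ?_⟩ fun H _ ha hb hc i => ?_
  · rw [Units.val_mul, Units.val_mul b, db, ← Units.val_mul, Units.inv_mul_cancel_left]
  have k := gen H ⟨_, ha, rfl⟩ ⟨_, hb, rfl⟩ ⟨_, hc, rfl⟩
  have k1 : rt (r := 3) (RingHom.id K) 0 1 ⊆ H := fun u hu => by
    obtain ⟨s, rfl⟩ := (rt_short (fun _ => rfl) (by decide) (by decide) (by decide) (by decide) _).1 hu
    exact s1In.mem ((k s).2.2.1.eq (by simpa using (s1_el s).2.2.2.2.2.2.1.symm))
  have k2 : rt (r := 3) (RingHom.id K) 1 0 ⊆ H := fun u hu => by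
    obtain ⟨s, rfl⟩ := (rt_short (fun _ => rfl) (by decide) (by decide) (by decide) (by decide) _).1 hu
    exact s1In.mem ((k s).2.2.2.eq (by simpa using (s1_el s).2.2.2.2.2.2.2.symm))
  fin_cases i
  · exact ⟨k1, k2⟩
  · refine ⟨fun u hu => ?_, fun u hu => ?_⟩
    · obtain ⟨s, rfl⟩ := (s1_long (i := 1) (by decide) _).1 hu
      exact s1In.mem ((k s).1.eq (s1_el s).2.1.symm)
    · obtain ⟨s, rfl⟩ := (s1_long (i := 2) (by decide) _).1 hu
      exact s1In.mem ((k s).2.1.eq (s1_el s).2.2.2.1.symm)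
  · exact ⟨(rt_rev (r := 3) 0 1).le.trans k1, (rt_rev (r := 3) 1 0).le.trans k2⟩

/-- Frobenius periodicity of a semisimple element with a quadratic equation. -/
theorem s1_per [Finite K] {σ : K} (h : σ ^ 2 ≠ 4) (e : A * A = (-1 : K) • 1 + σ • A) :
    ∃ n : ℕ, (n : K) = 0 ∧ A ^ n = A := by
  obtain ⟨p, hp⟩ := CharP.exists K
  have : Fact p.Prime := ⟨CharP.char_is_prime K p⟩
  have : Finite (QuadraticAlgebra K (-1) σ) := Finite.of_equiv _ (QuadraticAlgebra.equivProd _ _).symm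
  have : CharP (QuadraticAlgebra K (-1) σ) p := charP_of_injective_algebraMap
    (algebraMap K _).injective p
  have : IsReduced (QuadraticAlgebra K (-1) σ) := by
    rw [isReduced_iff_pow_one_lt 2 one_lt_two]
    rintro ⟨a, b⟩ hz
    rw [sq, QuadraticAlgebra.ext_iff] at hz
    simp only [QuadraticAlgebra.re_mul, QuadraticAlgebra.im_mul, QuadraticAlgebra.re_zero,
      QuadraticAlgebra.im_zero] at hz
    have hb : b = 0 := pow_eq_zero_iff (three_ne_zero) |>.1 (mul_left_cancel₀ (sub_ne_zero.2 h) (by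
      linear_combination (σ * b - 2 * a) * hz.2 + 4 * b * hz.1))
    subst hb
    have ha : a = 0 := by simpa using hz.1
    subst ha
    rfl
  obtain ⟨n, n0, hn⟩ := Function.mem_periodicPts.1
    ((frobenius_inj (QuadraticAlgebra K (-1) σ) p).mem_periodicPts QuadraticAlgebra.omega)
  refine ⟨p ^ n, by simp [n0.ne'], ?_⟩
  have k := congrArg (QuadraticAlgebra.lift ⟨A, e⟩) hn
  rw [iterate_frobenius, map_pow] at k
  simpa using k

/-- The long root elements give the long torus. -/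
theorem s1_tor {k k' : K} (hk : k * k' = 1) : s1In (sug 3 (RingHom.id K))
    !![1, 0, 0, 0; 0, k, 0, 0; 0, 0, k', 0; 0, 0, 0, 1] ∧ s1In (sug 3 (RingHom.id K))
    !![k, 0, 0, 0; 0, 1, 0, 0; 0, 0, 1, 0; 0, 0, 0, k'] := by
  have m := (s1_mem (0 : K)).2.2
  refine ⟨(((m 0 0 k).1.mul ((m 0 (-k') 0).2.mul (m 0 0 k).1)).mul
    ((m 0 0 (-1)).1.mul ((m 0 1 0).2.mul (m 0 0 (-1)).1))).eq ?_,
    (((m 0 k 0).1.mul ((m 0 0 (-k')).2.mul (m 0 k 0).1)).mul
    ((m 0 (-1) 0).1.mul ((m 0 0 1).2.mul (m 0 (-1) 0).1))).eq ?_⟩ <;>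
  · simp only [s1x, s1y, s1_mul, mul_zero, zero_mul, mul_one, one_mul, add_zero, zero_add, neg_zero]
    apply s1_ext <;> first | rfl | ring1 | grobner

/-- Odd characteristic. -/
theorem s1_odd [Finite K] (h : 3 < Nat.card K) {k k' m n e i : K} (hi : 2 * i = 1) (hk : k * k' = 1)
    (hn : k * n = m ^ 2 + 1) (he : 2 * ((k - n) ^ 2 + 4 * m ^ 2) * e = 1) (s0 : k + n ≠ 0)
    (sp : Spn ((k + n) ^ 2)) :
    IsLeast {n | Good (chev (CartanMatrix.A 3) Fin.revPerm (RingHom.id K)) n} 3 := by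
  have mem := s1_mem (K := K)
  obtain ⟨p, hp⟩ : ∃ p, p = k - n := ⟨_, rfl⟩
  obtain ⟨r, hr⟩ : ∃ r, r = -2 * m := ⟨_, rfl⟩
  obtain ⟨σ, hσ⟩ : ∃ σ, σ = k + n := ⟨_, rfl⟩
  have he' : 2 * (p ^ 2 + r ^ 2) * e = 1 := by rw [hp, hr]; linear_combination he
  have hD : p ^ 2 + r ^ 2 = σ ^ 2 - 4 := by rw [hp, hr, hσ]; linear_combination (-4) * hn
  rw [← hσ] at s0 sp
  have e0 : e ≠ 0 := right_ne_zero_of_mul_eq_one he'
  have D0 : p ^ 2 + r ^ 2 ≠ 0 := right_ne_zero_of_mul (left_ne_zero_of_mul_eq_one he')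
  refine s1_good h (d := s1p 0 1 (-1) 0) (z := -1)
    (b := !![0, 0, p - r, p + r; 0, 0, p + r, r - p; -e * (p - r), -e * (p + r), 0, 0;
      -e * (p + r), -e * (r - p), 0, 0])
    (c := s1p 0 1 (-1) 0 * (s1p k (-m) (-m) n * s1x p r r))
    (((mem 1).1.mul ((mem (-1)).2.1.mul (mem 1).1)).eq ?_)
    (((mem 0).2.2 (p + r) (r - p) (r - p)).1.mul
      ((mem 0).2.2 (-e * i * (p + r)) (-e * i * (r - p)) (-e * i * (r - p))).2)
    (((mem 0).2.2 (-i * p) (-i * r) (-i * r)).1.mul ((mem (m * k')).1.mul (s1_tor hk).1))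
    ?_ ?_ ?_ ?_ fun H hd hb hc => ?_
  · simp only [s1p, s1_mul, mul_zero, zero_mul, mul_one, one_mul, add_zero, zero_add, neg_zero]
    apply s1_ext <;> first | rfl | ring1
  · clear hp hr hD hn he hσ hk
    simp only [s1p, s1x, s1y, s1_mul, mul_zero, zero_mul, mul_one, one_mul, add_zero, zero_add, neg_zero]
    apply s1_ext <;> first | rfl | ring1 | grobner
  · clear he he' hD
    subst hp hr
    simp only [s1p, s1x, s1_mul, mul_zero, zero_mul, mul_one, one_mul, add_zero, zero_add, neg_zero]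
    apply s1_ext <;> first | rfl | ring1 | grobner
  · simp only [s1p, s1_sc, s1_mul, mul_zero, zero_mul, mul_one, one_mul, add_zero, zero_add, neg_zero]
  · simp only [s1p, s1_sc, s1_mul, mul_zero, zero_mul, mul_one, one_mul, add_zero, zero_add, neg_zero]
    apply s1_ext <;> first | rfl | ring1
  obtain ⟨N, N0, hN⟩ := s1_per (A := s1p k (-m) (-m) n) (σ := σ) (fun h => D0 (by rw [hD, h, sub_self]))
    (by rw [s1_sc]; ext x y; fin_cases x <;> fin_cases y <;>
      simp only [s1p, Fin.zero_eta, Fin.isValue, Matrix.mul_apply, of_apply, cons_val', cons_val_fin_one, cons_val_zero, Fin.sum_univ_four, cons_val_one, mul_neg, neg_mul, neg_neg, cons_val, mul_zero, add_zero, smul_of, smul_cons, smul_eq_mul, smul_empty, Matrix.add_apply, Fin.mk_one, zero_add, Fin.reduceFinMk, zero_mul, neg_zero] <;> first | ring1 | grobner)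
  obtain ⟨ht, hu⟩ := (hd.can hc).sep (by
    simp only [s1p, s1x, s1_mul, mul_zero, zero_mul, mul_one, one_mul, add_zero, zero_add, neg_zero]
    apply s1_ext <;> first | rfl | ring1 | grobner) hN (by
      rw [s1x_pow, N0, ← one_smul K (1 : Matrix _ _ K), s1_sc]; simp [s1x])
  set X : K → K → K → Matrix (Fin 4) (Fin 4) K := fun a b c =>
    s1x (a * p - b * r) (a * r + b * p + c) (a * r + b * p - c) with hX
  set Y : K → K → K → Matrix (Fin 4) (Fin 4) K := fun a b c =>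
    s1y (a * p - b * r) (a * r + b * p + c) (a * r + b * p - c) with hY
  have Xa : ∀ {a b c a' b' c'}, s1In H (X a b c) → s1In H (X a' b' c') →
      s1In H (X (a + a') (b + b') (c + c')) := fun h h' => (h.mul h').eq (by
    simp only [hX, s1x_add]; congr 1 <;> ring)
  have Ya : ∀ {a b c a' b' c'}, s1In H (Y a b c) → s1In H (Y a' b' c') →
      s1In H (Y (a + a') (b + b') (c + c')) := fun h h' => (h.mul h').eq (by
    simp only [hY, s1y_add]; congr 1 <;> ring)
  have bX : ∀ a b c, s1In H (X a b c) ↔ s1In H (Y (-e * b) (-e * a) (e * c)) := fun a b c => by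
    refine (fun k => ⟨fun h => hb.cj h k, fun h => hb.cj' h k⟩) ?_
    clear hp hr hD hn he hσ hk
    simp only [hX, hY, s1x, s1y, s1_mul, mul_zero, zero_mul, mul_one, one_mul, add_zero, zero_add, neg_zero]
    apply s1_ext <;> first | rfl | ring1 | grobner
  have tX : ∀ c, s1In H (X 0 0 (2 * c)) → s1In H (X 0 (σ * c) ((σ ^ 2 - 2) * c)) := fun c h => by
    refine ht.cj h ?_
    clear he he' hD
    subst hp hr hσ
    simp only [hX, s1x, s1p, s1_mul, mul_zero, zero_mul, mul_one, one_mul, add_zero, zero_add, neg_zero]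
    apply s1_ext <;> first | rfl | ring1 | grobner
  have tY : ∀ b c, s1In H (Y 0 (2 * b) (2 * c)) ↔
      s1In H (Y 0 ((σ ^ 2 - 2) * b + σ * c) (σ * (σ ^ 2 - 4) * b + (σ ^ 2 - 2) * c)) := fun b c => by
    refine (fun k => ⟨fun h => ht.cj h k, fun h => ht.cj' h k⟩) ?_
    clear he he' hD
    subst hp hr hσ
    simp only [hY, s1y, s1p, s1_mul, mul_zero, zero_mul, mul_one, one_mul, add_zero, zero_add, neg_zero]
    apply s1_ext <;> first | rfl | ring1 | grobner
  have y1 : ∀ s, s1In H (Y 0 s 0) := sp.ind (P := fun s => s1In H (Y 0 s 0))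
    (fun s t h h' => by simpa using Ya h h') (neg_ne_zero.2 e0)
    (by simpa only [mul_zero, mul_one] using (bX 1 0 0).1 (by simpa only [hX, one_mul, zero_mul, sub_zero, add_zero] using hu)) fun s h => by
      have h1 := (tY (i * s) 0).1 (by convert h using 2 <;> first | ring1 | grobner)
      have h2 := (tY (i * i * (σ ^ 2 - 2) * s) (-i * i * σ * (σ ^ 2 - 4) * s)).2
        (by convert h using 2 <;> first | ring1 | grobner)
      convert Ya (Ya h1 h2) (Ya h h) using 2 <;> first | ring1 | grobner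
  have y2 : ∀ s, s1In H (Y 0 0 s) := fun s => by
    obtain ⟨t, rfl⟩ : ∃ t, s = σ * (σ ^ 2 - 4) * t := ⟨s / (σ * (σ ^ 2 - 4)), by
      rw [mul_div_cancel₀ _ (mul_ne_zero s0 (hD ▸ D0))]⟩
    have h1 := (tY t 0).1 (by simpa using y1 (2 * t))
    convert Ya h1 (y1 (-((σ ^ 2 - 2) * t))) using 2 <;> ring
  have x0 : ∀ s, s1In H (X s 0 0) := fun s => (bX s 0 0).2 (by simpa using y1 (-e * s))
  have x2 : ∀ s, s1In H (X 0 0 s) := fun s => (bX 0 0 s).2 (by simpa using y2 (e * s))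
  have x1 : ∀ s, s1In H (X 0 s 0) := fun s => by
    obtain ⟨t, rfl⟩ : ∃ t, s = σ * t := ⟨s / σ, by rw [mul_div_cancel₀ _ s0]⟩
    convert Xa (tX t (x2 _)) (x2 (-((σ ^ 2 - 2) * t))) using 2 <;> ring
  have xx : ∀ a b c, s1In H (X a b c) := fun a b c => by simpa using Xa (Xa (x0 a) (x1 b)) (x2 c)
  have xs : ∀ a b c, s1In H (s1x a b c) := fun a b c => by
    have := xx (e * (2 * a * p + (b + c) * r)) (e * ((b + c) * p - 2 * a * r)) (i * (b - c))
    simp only [hX] at this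
    clear hp hr hD hn he hσ hk
    convert this using 2 <;> first | ring1 | grobner
  have ys : ∀ s, s1In H (s1y 0 s 0) := fun s => by
    have := (bX (-(p * s)) (-(r * s)) ((p ^ 2 + r ^ 2) * s)).1 (xx _ _ _)
    simp only [hY] at this
    clear hp hr hD hn he hσ hk
    convert this using 2 <;> first | ring1 | grobner
  have ps : ∀ s, s1In H (s1p 1 s 0 1) := fun s =>
    ((ys 1).mul ((xs (-s) 0 0).mul ((ys (-1)).mul (xs s (s ^ 2) 0)))).eq (by
      simp only [s1x, s1y, s1p, s1_mul, mul_zero, zero_mul, mul_one, one_mul, add_zero, zero_add, neg_zero]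
      apply s1_ext <;> first | rfl | ring1)
  refine fun s => ⟨xs _ _ _, ys s, ps s, hd.cj (ps (-s)) ?_⟩
  simp only [s1p, s1_mul, mul_zero, zero_mul, mul_one, one_mul, add_zero, zero_add, neg_zero]
  apply s1_ext <;> first | rfl | ring1

/-- Characteristic two. -/
theorem s1_even [Finite K] (h : 3 < Nat.card K) (h2 : (2 : K) = 0) {z z' k : K} (hz : z * z' = 1)
    (hk : k * (1 + z ^ 2) = 1) (sp : Spn (z ^ 4)) :
    IsLeast {n | Good (chev (CartanMatrix.A 3) Fin.revPerm (RingHom.id K)) n} 3 := by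
  have mem := s1_mem (K := K)
  have := Fintype.ofFinite K
  obtain ⟨x, hx⟩ : ∃ x, x = z ^ 2 := ⟨_, rfl⟩
  obtain ⟨x', hx'⟩ : ∃ x', x' = z' ^ 2 := ⟨_, rfl⟩
  have xx : x * x' = 1 := by rw [hx, hx', ← mul_pow, hz, one_pow]
  have x1 : 1 + x ≠ 0 := hx ▸ right_ne_zero_of_mul_eq_one hk
  refine s1_good h (d := !![0, 0, 0, 1; 0, 1, 1, 0; 0, 0, 1, 0; 1, 0, 0, 0]) (z := 1)
    (b := !![1, 1, 1, 1; 0, 0, 1, 1; 1, 0, 0, 1; 1, 1, 0, 1])
    (c := !![0, 0, 0, 1; 0, 1, 1, 0; 0, 0, 1, 0; 1, 0, 0, 0] *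
      (!![x, 0, 0, 0; 0, 1, 0, 0; 0, 0, 1, 0; 0, 0, 0, x'] * s1x 0 0 (1 + k ^ 2)))
    ((((mem 0).2.2 0 1 0).1.mul (((mem 0).2.2 0 0 1).2.mul ((mem 0).2.2 0 1 1).1)).eq ?_)
    (((mem 0).2.2 0 1 0).1.mul (((mem 0).2.2 0 1 0).2.mul (mem 1).1))
    ((s1_tor hk).1.mul (s1_tor (mul_comm z z' ▸ hz)).2)
    ?_ ?_ ?_ ?_ fun H hd hb hc => ?_
  iterate 5
    simp only [s1p, s1x, s1y, s1_sc, s1_mul, mul_zero, zero_mul, mul_one, one_mul, add_zero, zero_add, neg_zero]
    apply s1_ext <;> first | rfl | ring1 | grobner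
  rw [← hx] at hk
  rw [show z ^ 4 = x ^ 2 by rw [hx]; ring] at sp
  clear hx hx' hz mem
  obtain ⟨ht, hu⟩ := (hd.can hc).sep (n := Fintype.card K) (by
    simp only [s1x, s1_mul, mul_zero, zero_mul, mul_one, one_mul, add_zero, zero_add, neg_zero]) (by
      have : ∀ n : ℕ, !![x, 0, 0, 0; 0, 1, 0, 0; 0, 0, 1, 0; 0, 0, 0, x'] ^ n =
          !![x ^ n, 0, 0, 0; 0, 1, 0, 0; 0, 0, 1, 0; 0, 0, 0, x' ^ n] := fun n => by
        induction n with
        | zero => rw [pow_zero, ← one_smul K (1 : Matrix _ _ K), s1_sc]; simp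
        | succ n ih => rw [pow_succ, ih, s1_mul]; apply s1_ext <;> first | rfl | ring1
      rw [this, FiniteField.pow_card, FiniteField.pow_card]) (by
      rw [s1x_pow, FiniteField.cast_card_eq_zero, ← one_smul K (1 : Matrix _ _ K), s1_sc]; simp [s1x])
  have bT : ∀ s, s1In H (s1x 0 0 s) ↔
      s1In H !![1 + s, 0, 0, s; 0, 1, 0, 0; 0, 0, 1, 0; s, 0, 0, 1 + s] := fun s => by
    refine (fun k => ⟨fun h => hb.cj h k, fun h => hb.cj' h k⟩) ?_
    simp only [s1x, s1_mul, mul_zero, zero_mul, mul_one, one_mul, add_zero, zero_add, neg_zero]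
    apply s1_ext <;> first | rfl | ring1 | grobner
  have hB := (bT _).1 hu
  have l1 : ∀ s, s1In H (s1x 0 s 0) := sp.ind (P := fun s => s1In H (s1x 0 s 0))
    (fun s t h h' => by simpa [s1x_add] using h.mul h') (pow_ne_zero 2 x1)
    ((ht.mul hB).can ((hB.mul (ht.mul hB)).eq (by
      simp only [s1x, s1_mul, mul_zero, zero_mul, mul_one, one_mul, add_zero, zero_add, neg_zero]
      apply s1_ext <;> first | rfl | ring1 | grobner))) fun s h => ht.cj h (by
      simp only [s1x, s1_mul, mul_zero, zero_mul, mul_one, one_mul, add_zero, zero_add, neg_zero]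
      apply s1_ext <;> first | rfl | ring1 | grobner)
  have l2 : ∀ s, s1In H (s1y 0 0 s) := fun s => hd.cj (l1 s) (by
    simp only [s1x, s1y, s1_mul, mul_zero, zero_mul, mul_one, one_mul, add_zero, zero_add, neg_zero])
  have l3 : ∀ s, s1In H (s1x 0 0 s) := fun s => (bT s).2 ((l2 1).cj (l1 s) (by
    simp only [s1x, s1y, s1_mul, mul_zero, zero_mul, mul_one, one_mul, add_zero, zero_add, neg_zero]
    apply s1_ext <;> first | rfl | ring1 | grobner))
  have t1 : ∀ s, s1In H !![1, s, 0, s; 0, 1, 0, 0; 0, s, 1, s; 0, 0, 0, 1] := fun s =>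
    ((l2 1).mul hb).cj (l1 s) (by
      simp only [s1x, s1y, s1_mul, mul_zero, zero_mul, mul_one, one_mul, add_zero, zero_add, neg_zero]
      apply s1_ext <;> first | rfl | ring1 | grobner)
  have t2 : ∀ s, s1In H !![1, x * s, 0, x ^ 2 * s; 0, 1, 0, 0; 0, s, 1, x * s; 0, 0, 0, 1] := fun s =>
    ht.cj (t1 s) (by
      simp only [s1_mul, mul_zero, zero_mul, mul_one, one_mul, add_zero, zero_add, neg_zero]
      apply s1_ext <;> first | rfl | ring1 | grobner)
  have ps : ∀ s, s1In H (s1p 1 s 0 1) := fun s => by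
    obtain ⟨t, rfl⟩ : ∃ t, s = (1 + x) * t := ⟨s / (1 + x), by rw [mul_div_cancel₀ _ x1]⟩
    refine ((t1 t).mul ((t2 t).mul (l1 ((1 + x ^ 2) * t)))).eq ?_
    simp only [s1x, s1p, s1_mul, mul_zero, zero_mul, mul_one, one_mul, add_zero, zero_add, neg_zero]
    apply s1_ext <;> first | rfl | ring1 | grobner
  have l4 : ∀ s, s1In H (s1y 0 s 0) := fun s => ((t1 s).mul ((ps s).mul (l1 s))).eq (by
    simp only [s1x, s1y, s1p, s1_mul, mul_zero, zero_mul, mul_one, one_mul, add_zero, zero_add, neg_zero]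
    apply s1_ext <;> first | rfl | ring1 | grobner)
  refine fun s => ⟨l3 s, l4 s, ps s, (hd.mul ((l4 1).mul (l3 1))).cj (ps s) ?_⟩
  simp only [s1x, s1y, s1p, s1_mul, mul_zero, zero_mul, mul_one, one_mul, add_zero, zero_add, neg_zero]
  apply s1_ext <;> first | rfl | ring1 | grobner

theorem tS4 [Finite K] (h : 3 < Nat.card K) :
    IsLeast {n | Good (chev (CartanMatrix.A 3) Fin.revPerm (RingHom.id K)) n} 3 := by
  obtain ⟨g, hg⟩ := IsCyclic.exists_monoid_generator (α := Kˣ)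
  have gen : ∀ s : K, s ≠ 0 → ∃ n : ℕ, (g : K) ^ n = s := fun s s0 => by
    obtain ⟨n, hn⟩ := hg (Units.mk0 s s0)
    exact ⟨n, by simpa using congrArg Units.val hn⟩
  have g2 : (g : K) ^ 2 ≠ 1 := fun e => by
    have h1 : orderOf g ≤ 2 := orderOf_le_of_pow_eq_one two_pos (Units.ext (by simpa only [Units.val_pow_eq_pow_val, Units.val_one, sq_eq_one_iff, Units.val_eq_one, Units.val_eq_neg_one] using e))
    rw [orderOf_eq_card_of_forall_mem_powers hg, Nat.card_units] at h1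
    omega
  have sp : Spn ((g : K) ^ 2) := spn_sq fun s s0 => by
    obtain ⟨n, rfl⟩ := gen s s0
    exact ⟨n, by ring⟩
  by_cases h2 : (2 : K) = 0
  · have : CharP K 2 := CharTwo.of_one_ne_zero_of_two_eq_zero one_ne_zero h2
    refine s1_even h h2 g.mul_inv (inv_mul_cancel₀ fun e => g2 ?_) ?_
    · linear_combination e - h2
    · convert sp.frob 1 using 1
      rw [ringChar.eq K 2]
      ring
  obtain ⟨σ, s0, s4, sp⟩ : ∃ σ : K, σ ≠ 0 ∧ σ ^ 2 ≠ 4 ∧ Spn (σ ^ 2) := by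
    by_cases e : (g : K) ^ 2 = 4
    · refine ⟨1, one_ne_zero, fun k => g2 (by rw [e, ← k, one_pow]), eq_top_iff.2 fun s _ => ?_⟩
      refine sp.ind (P := fun s => s ∈ AddSubgroup.closure (Set.range fun n : ℕ => ((1 : K) ^ 2) ^ n))
        (fun _ _ => add_mem) one_ne_zero (AddSubgroup.subset_closure ⟨0, pow_zero _⟩) (fun s hs => ?_) s
      convert nsmul_mem hs 4 using 1
      rw [e, nsmul_eq_mul]
      norm_num
    · exact ⟨g, g.ne_zero, e, sp⟩
  have h4 : (4 : K) ≠ 0 := fun e => mul_ne_zero h2 h2 (by linear_combination e)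
  obtain ⟨a, m, ham⟩ := sl2b_quad h4 (σ ^ 2 - 4)
  have key : ∀ a : K, a ^ 2 + 4 * m ^ 2 = σ ^ 2 - 4 → σ + a ≠ 0 →
      IsLeast {n | Good (chev (CartanMatrix.A 3) Fin.revPerm (RingHom.id K)) n} 3 := fun a ha a0 => by
    have e1 : (σ + a) / 2 + (σ - a) / 2 = σ := by field_simp; ring
    have e2 : (σ + a) / 2 - (σ - a) / 2 = a := by field_simp; ring
    refine s1_odd h (mul_inv_cancel₀ h2) (mul_inv_cancel₀ (div_ne_zero a0 h2)) (n := (σ - a) / 2)
      (m := m) ?_ (mul_inv_cancel₀ ?_) (e1.symm ▸ s0) (e1.symm ▸ sp)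
    · field_simp
      linear_combination -ha
    · rw [e2, ha]
      exact mul_ne_zero h2 (sub_ne_zero.2 s4)
  by_cases a0 : σ + a = 0
  · exact key (-a) (by rw [neg_sq, ham]) fun e => mul_ne_zero h2 s0 (by linear_combination a0 + e)
  · exact key a ham a0

end Pool.Agent.MP_c78e8e_al.H75

end

section

namespace Pool.Agent.MP_c78e8e_al.H75

open Subgroup Matrix

variable {r : ℕ} {K : Type} [Field K]

/-- Conjugacy in the symplectic group. -/
def s2Cj (x y : GL (Fin (r + 1)) K) : Prop := ∃ k ∈ sug r (RingHom.id K), k * x * k⁻¹ = y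

theorem s2Cj.trans {x y z : GL (Fin (r + 1)) K} (h : s2Cj x y) (h' : s2Cj y z) : s2Cj x z := by
  obtain ⟨k, m, rfl⟩ := h
  obtain ⟨k', m', rfl⟩ := h'
  exact ⟨k' * k, mul_mem m' m, by group⟩

theorem s2Cj.mem {x y : GL (Fin (r + 1)) K} (h : s2Cj x y) (m : x ∈ sug r (RingHom.id K)) :
    y ∈ sug r (RingHom.id K) := by
  obtain ⟨k, m', rfl⟩ := h
  exact mul_mem (mul_mem m' m) (inv_mem m')

theorem s2_sg (ho : Odd r) (i : Fin (r + 1)) : (-1 : K) ^ (i.rev : ℕ) = -(-1) ^ (i : ℕ) := by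
  have h : (i.rev : ℕ) + i = r := by rw [Fin.val_rev]; omega
  have e : (-1 : K) ^ (i.rev : ℕ) * (-1) ^ (i : ℕ) = -1 := by rw [← pow_add, h, ho.neg_one_pow]
  linear_combination (-1) ^ (i : ℕ) * e - (-1) ^ (i.rev : ℕ) * natb1_sq (K := K) i

theorem s2_ne (ho : Odd r) (i : Fin (r + 1)) : i ≠ i.rev := fun e => by
  have := congrArg Fin.val e
  rw [Fin.val_rev] at this
  obtain ⟨n, hn⟩ := ho
  omega

theorem s2_long (ho : Odd r) (i : Fin (r + 1)) (s : K) : el i i.rev s ∈ sug r (RingHom.id K) :=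
  rt_mem ((rt_long (fun _ => rfl) (s2_ne ho i) _).2 ⟨s, by simp [ho.add_one.neg_one_pow], rfl⟩)

/-- The long root `SL₂`. -/
def s2L (ψ : SL2 K →* GL (Fin (r + 1)) K) (i : Fin (r + 1)) : Prop :=
  (∀ s, ψ (mx s) = el i i.rev s) ∧ (∀ v, ψ (mz v) = el i.rev i (-v)) ∧
    ψ mw = mon (Equiv.swap i i.rev) (fun k => if k = i then -1 else 1) ∧
    ∀ a, ψ (mdg a) = mon 1 (Pi.mulSingle i a * Pi.mulSingle i.rev a⁻¹)

theorem s2L.mem {ψ : SL2 K →* GL (Fin (r + 1)) K} {i : Fin (r + 1)} (h : s2L ψ i) (ho : Odd r)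
    (A : SL2 K) : ψ A ∈ sug r (RingHom.id K) :=
  sl2_gen (fun s => h.1 s ▸ s2_long ho i s) (fun s => by
    have := s2_long ho i.rev (-s)
    rwa [Fin.rev_rev, ← h.2.1] at this) A

theorem s2_act1 {G : Type} [Group G] {ψ : SL2 K →* G} {m : G} (h : ∀ A, Commute m (ψ A)) :
    Act ψ m 1 :=
  ⟨by simp, fun A B e => by
    rw [Matrix.one_mul, Matrix.mul_one] at e
    rw [← Subtype.ext e, (h A).mul_inv_cancel]⟩

/-- The coefficient of a flipped pair can be changed. -/
theorem s2_flip [Finite K] (ho : Odd r) {π : Equiv.Perm (Fin (r + 1))} {d d' : Fin (r + 1) → Kˣ}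
    {i : Fin (r + 1)} (h1 : π i = i.rev) (h2 : π i.rev = i) (e : d i * d i.rev = -1)
    (e' : d' i * d' i.rev = -1) (o : ∀ k, k ≠ i → k ≠ i.rev → d k = d' k) :
    s2Cj (mon π d) (mon π d') := by
  have hi := s2_ne ho i
  obtain ⟨ψ, hψ⟩ : ∃ ψ, s2L (K := K) ψ i := psi_el hi
  let m := mon (π * Equiv.swap i i.rev) fun k => if k = i ∨ k = i.rev then 1 else d k
  have key : ∀ z : Fin (r + 1) → Kˣ, z i * z i.rev = -1 → (∀ k, k ≠ i → k ≠ i.rev → d k = z k) →
      mon π z = m * ψ (mw * mdg (-z i)) := fun z e o => by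
    rw [map_mul, hψ.2.2.1, hψ.2.2.2, mon_mul, mon_mul]
    refine mon_congr (by simp) fun k => ?_
    by_cases p : k = i
    · simp [p, hi, hi.symm]
    by_cases q : k = i.rev
    · simp only [q, mul_one, Equiv.Perm.coe_one, id, Equiv.swap_apply_right, true_or, if_true,
        if_neg hi.symm, Pi.mul_apply, Pi.mulSingle_eq_of_ne hi.symm, Pi.mulSingle_eq_same, one_mul]
      exact eq_inv_of_mul_eq_one_right (by rw [neg_mul, e, neg_neg])
    · simp [p, q, Equiv.swap_apply_of_ne_of_ne p q, o k p q]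
  have a : Act ψ m 1 := s2_act1 (sl2_comm (fun s => by
    rw [hψ.1, Commute, SemiconjBy, mon_mul_el]; simp [h1, h2, m]) fun s => by
    rw [hψ.2.1, Commute, SemiconjBy, mon_mul_el]; simp [h1, h2, m])
  obtain ⟨S, hS⟩ := a.conj (M := mw * mdg (-d i)) (M' := mw * mdg (-d' i))
    (by simp [mw, mdg, trace_fin_two]) (by simp only [mw, mdg, Units.val_neg, inv_neg, Units.val_inv_eq_inv_val, Matrix.SpecialLinearGroup.coe_mul, cons_mul, Nat.succ_eq_add_one, Nat.reduceAdd, vecMul_cons, head_cons, zero_smul, tail_cons, one_smul, empty_vecMul, add_zero, zero_add, neg_smul, neg_cons, neg_neg, neg_zero, neg_empty, empty_mul, Equiv.symm_apply_apply, one_mul, trace_fin_two, Fin.isValue, of_apply, cons_val', cons_val_zero, cons_val_fin_one, cons_val_one])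
    (by simp [mw, mdg]) (by simp [mw, mdg])
  exact ⟨ψ S, hψ.mem ho S, by rw [key d e fun _ _ _ => rfl, key d' e' o, hS]⟩

theorem s2_flips [Finite K] (ho : Odd r) {π : Equiv.Perm (Fin (r + 1))}
    (h : ∀ k, π k.rev = (π k).rev) {d d' : Fin (r + 1) → Kˣ}
    (e : ∀ k, π k = k.rev → d k * d k.rev = -1) (e' : ∀ k, π k = k.rev → d' k * d' k.rev = -1)
    (o : ∀ k, π k ≠ k.rev → d k = d' k) : s2Cj (mon π d) (mon π d') := by
  classical
  induction' hn : (Finset.univ.filter fun k => d k ≠ d' k).card using Nat.strong_induction_on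
    with n ih generalizing d
  by_cases c : ∀ k, d k = d' k
  · exact ⟨1, one_mem _, by rw [funext c]; simp⟩
  obtain ⟨i, hi⟩ := not_forall.1 c
  have h1 : π i = i.rev := not_not.1 fun p => hi (o i p)
  have h2 : π i.rev = i := by rw [h, h1, Fin.rev_rev]
  let z : Fin (r + 1) → Kˣ := fun k => if k = i ∨ k = i.rev then d' k else d k
  refine (s2_flip ho h1 h2 (e i h1) (d' := z) (by simpa only [z, true_or, ↓ reduceIte, or_true] using e' i h1)
    fun k p q => by simp [z, p, q]).trans (ih _ ?_ (d := z) (fun k p => ?_) (fun k p => ?_) rfl)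
  · rw [← hn]
    refine Finset.card_lt_card ⟨fun k => ?_, fun s => ?_⟩
    · simp only [z, Finset.mem_filter, Finset.mem_univ, true_and]
      split_ifs <;> simp
    · simpa [z] using s (Finset.mem_filter.2 ⟨Finset.mem_univ i, hi⟩)
  · by_cases q : k = i ∨ k = i.rev
    · have q' : k.rev = i ∨ k.rev = i.rev := by rcases q with rfl | rfl <;> simp
      simp only [z, if_pos q, if_pos q', e' k p]
    · have q' : ¬ (k.rev = i ∨ k.rev = i.rev) := fun t => q (by
        rcases t with rfl | t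
        · simp
        · exact Or.inl (Fin.rev_injective t))
      simp only [z, if_neg q, if_neg q', e k p]
  · simp only [z]
    split_ifs
    exacts [rfl, o k p]

/-- The short root `SL₂`. -/
structure s2S (ψ : SL2 K →* GL (Fin (r + 1)) K) (i j : Fin (r + 1)) : Prop where
  ho : Odd r
  ne : i ≠ j
  ne' : j ≠ i.rev
  par : Odd ((i : ℕ) + j)
  x : ∀ s, ψ (mx s) = el i j s * el j.rev i.rev s
  z : ∀ v, ψ (mz v) = el j i (-v) * el i.rev j.rev (-v)
  w : ψ mw = mon (Equiv.swap i j * Equiv.swap j.rev i.rev)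
    fun k => if k = i ∨ k = j.rev then -1 else 1
  dg : ∀ a, ψ (mdg a) ∈ dgl

theorem s2S_ex (ho : Odd r) {i j : Fin (r + 1)} (h : i ≠ j) (h' : j ≠ i.rev)
    (p : Odd ((i : ℕ) + j)) : ∃ ψ, s2S (K := K) ψ i j := by
  have hi := s2_ne ho i
  have hj := s2_ne ho j
  have h'' : i ≠ j.rev := fun e => h' (by rw [e, Fin.rev_rev])
  have n : j.rev ≠ i.rev := fun e => h (Fin.rev_injective e).symm
  obtain ⟨α, a1, a2, a3, a4⟩ := psi_el (K := K) h
  obtain ⟨β, b1, b2, b3, b4⟩ := psi_el (K := K) n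
  have c : ∀ A B, Commute (α A) (β B) := fun A B => sl2_comm
    (fun s => (sl2_comm (fun t => by rw [a1, b1]; exact el_comm hi.symm hj _ _)
      (fun t => by rw [a2, b1]; exact el_comm h'.symm h'' _ _) A).symm)
    (fun s => (sl2_comm (fun t => by rw [a1, b2]; exact el_comm h''.symm h' _ _)
      (fun t => by rw [a2, b2]; exact el_comm hj.symm hi _ _) A).symm) B
  refine ⟨MonoidHom.mk' (fun A => α A * β A) fun A B => ?_, ho, h, h', p, fun s => ?_, fun s => ?_,
    ?_, fun a => ?_⟩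
  · rw [map_mul, map_mul, (c B A).mul_mul_mul_comm]
  · simp [a1, b1]
  · simp [a2, b2]
  · simp only [MonoidHom.mk'_apply, a3, b3, mon_mul]
    refine mon_congr (fun _ => rfl) fun k => ?_
    by_cases p : k = j.rev
    · simp [p, hi.symm]
    by_cases q : k = i.rev
    · simp [q, n.symm, hi.symm, h''.symm]
    · simp [p, Equiv.swap_apply_of_ne_of_ne p q]
  · simp only [MonoidHom.mk'_apply, a4, b4]
    exact mul_mem (mon_dgl (fun _ => rfl) _) (mon_dgl (fun _ => rfl) _)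

section
variable {ψ : SL2 K →* GL (Fin (r + 1)) K} {i j : Fin (r + 1)}

theorem s2S.mem (h : s2S ψ i j) (A : SL2 K) : ψ A ∈ sug r (RingHom.id K) :=
  sl2_gen (fun s => rt_mem ((rt_short (fun _ => rfl) h.ne h.ne' (s2_ne h.ho i) (s2_ne h.ho j) _).2
    ⟨s, by simp [h.x, h.par.neg_one_pow]⟩)) (fun s => rt_mem ((rt_short (fun _ => rfl) h.ne.symm
      (fun e => h.ne' (by rw [e, Fin.rev_rev])) (s2_ne h.ho j) (s2_ne h.ho i) _).2
    ⟨-s, by simp only [h.z, add_comm (j : ℕ), h.par.neg_one_pow, neg_neg, RingHom.id_apply, mul_neg, one_mul]⟩)) A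

theorem s2S.diag (h : s2S ψ i j) {π : Equiv.Perm (Fin (r + 1))} {d : Fin (r + 1) → Kˣ} {l : Kˣ}
    (h1 : π i = i) (h2 : π j = j) (h3 : π i.rev = i.rev) (h4 : π j.rev = j.rev) (e : d i = l * d j)
    (e' : d j.rev = l * d i.rev) : Act ψ (mon π d) !![(l : K), 0; 0, 1] := by
  refine act_diag l.ne_zero (fun s => ?_) fun s => ?_
  · rw [h.x, h.x, ← conj_mul, mon_el, mon_el, h1, h2, h3, h4, e, e']
    congr 2 <;> simp only [Units.val_mul] <;> field_simp
  · rw [h.z, h.z, ← conj_mul, mon_el, mon_el, h1, h2, h3, h4, e, e']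
    congr 2 <;> simp <;> field_simp

theorem s2S.anti (h : s2S ψ i j) {π : Equiv.Perm (Fin (r + 1))} {d : Fin (r + 1) → Kˣ} {l : Kˣ}
    (h1 : π i = i.rev) (h2 : π j = j.rev) (h3 : π i.rev = i) (h4 : π j.rev = j) (e : d j = l * d i)
    (e' : d i.rev = l * d j.rev) : Act ψ (mon π d) !![0, (l : K); 1, 0] := by
  have := act_anti (ψ := ψ) (g := mon π d) (l := -(l : K)⁻¹) (by simp) (fun s => by
    rw [h.x, h.z, ← conj_mul, mon_el, mon_el, h1, h2, h3, h4, e, e',
      (el_comm (s2_ne h.ho j).symm (s2_ne h.ho i) _ _).eq]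
    congr 2 <;> simp only [Units.val_mul, neg_mul, neg_neg] <;> field_simp) fun s => by
    rw [h.x, h.z, ← conj_mul, mon_el, mon_el, h1, h2, h3, h4, e, e',
      (el_comm (s2_ne h.ho i).symm (s2_ne h.ho j) _ _).eq]
    congr 2 <;> simp <;> field_simp
  simpa using this

end

/-- The line of `w` lies in the radical of `i` modulo its centre. -/
def s2Q (H : Subgroup (GL (Fin (r + 1)) K)) (i : Fin (r + 1)) (w : Fin (r + 1) → K) : Prop :=
  Off i w ∧ ∀ s : K, ∃ a, hei (RingHom.id K) i (s • w) a ∈ H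

section
variable {H : Subgroup (GL (Fin (r + 1)) K)} {i j : Fin (r + 1)} {w w' : Fin (r + 1) → K}

theorem s2_off (h : Off i w) (s : K) : Off i (s • w) := ⟨h.1, by simp [h.2.1], by simp [h.2.2]⟩

theorem s2Q.smul (h : s2Q H i w) (t : K) : s2Q H i (t • w) :=
  ⟨s2_off h.1 t, fun s => by rw [smul_smul]; exact h.2 _⟩

theorem s2Q.add (h : s2Q H i w) (h' : s2Q H i w') : s2Q H i (w + w') :=
  ⟨⟨h.1.1, by simp [h.1.2.1, h'.1.2.1], by simp [h.1.2.2, h'.1.2.2]⟩, fun s => by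
    obtain ⟨a, p⟩ := h.2 s
    obtain ⟨a', p'⟩ := h'.2 s
    exact ⟨_, by rw [smul_add, ← hei_mul (s2_off h.1 s) (s2_off h'.1 s)]; exact mul_mem p p'⟩⟩

theorem s2Q.conj (h : s2Q H i w) {g : GL (Fin (r + 1)) K} (m : g ∈ H) (f : Fx (RingHom.id K) g)
    {l l' : K} (l0 : l' ≠ 0) (h1 : g.1 *ᵥ Pi.single i 1 = Pi.single j l)
    (h2 : g.1 *ᵥ Pi.single i.rev 1 = Pi.single j.rev l') : s2Q H j (g.1 *ᵥ w) := by
  refine ⟨?_, fun s => ?_⟩
  · simpa [l0] using s2_off (hei_conj (fun _ => rfl) f h1 h2 h.1 0).1 l'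
  · obtain ⟨a, p⟩ := h.2 (l' * s)
    have := mul_mem (mul_mem m p) (inv_mem m)
    rw [(hei_conj (fun _ => rfl) f h1 h2 (s2_off h.1 _) a).2, mulVec_smul, smul_smul,
      inv_mul_cancel_left₀ l0] at this
    exact ⟨_, this⟩

theorem s2_monv (π : Equiv.Perm (Fin (r + 1))) (d : Fin (r + 1) → Kˣ) (k : Fin (r + 1)) :
    (mon π d).1 *ᵥ Pi.single k 1 = Pi.single (π k) (d k : K) := by
  ext l
  simp [mon_val, Pi.single_apply]

theorem s2Q.mon {k : Fin (r + 1)} (h : s2Q H i (Pi.single k 1)) {π : Equiv.Perm (Fin (r + 1))}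
    {d : Fin (r + 1) → Kˣ} (m : mon π d ∈ H) (f : Fx (RingHom.id K) (mon π d))
    (p : π i.rev = (π i).rev) : s2Q H (π i) (Pi.single (π k) 1) := by
  have := (h.conj m f (d i.rev).ne_zero (s2_monv _ _ _) (by rw [s2_monv, p])).smul ((d k)⁻¹ : Kˣ)
  rwa [s2_monv, ← Pi.single_smul', smul_eq_mul, Units.inv_mul] at this

theorem s2Q_all (ho : Odd r) (h : ∀ k, k ≠ i → k ≠ i.rev → s2Q H i (Pi.single k 1)) (o : Off i w) :
    ∃ a, Trc (RingHom.id K) i w a ∧ hei (RingHom.id K) i w a ∈ H := by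
  have z : s2Q H i 0 := ⟨⟨o.1, rfl, rfl⟩, fun s => ⟨0, by rw [smul_zero, hei_zero]; exact one_mem _⟩⟩
  have : s2Q H i (∑ k, Pi.single k (w k)) := Finset.sum_induction _ _ (fun _ _ => s2Q.add) z
    fun k _ => by
      by_cases p : k = i
      · simpa [p, o.2.1] using z
      by_cases q : k = i.rev
      · simpa [q, o.2.2] using z
      · simpa [← Pi.single_smul'] using (h k p q).smul (w k)
  rw [Finset.univ_sum_single] at this
  obtain ⟨a, p⟩ := this.2 1
  obtain ⟨a', p'⟩ := trc_ex (φ := RingHom.id K) (fun _ => rfl)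
    (fun e => absurd e (Nat.not_even_iff_odd.2 ho)) i w
  refine ⟨a, ?_, by simpa using p⟩
  simp only [Trc, s2_sg ho, RingHom.id_apply] at p' ⊢
  linear_combination p'

end

theorem s2_main [Finite K] (hr : 5 ≤ r) (h2 : (2 : K) ≠ 0) {x δ : K} (so : Sol x δ 1) (sp : Spn x)
    {ψ : SL2 K →* GL (Fin (r + 1)) K} {i j : Fin (r + 1)} (hψ : s2S ψ i j)
    {T : Subgroup (GL (Fin (r + 1)) K)} (le : T ≤ dgl) {τ b c : GL (Fin (r + 1)) K}
    {π : Equiv.Perm (Fin (r + 1))} {z : Fin (r + 1) → Kˣ} (hπ : ∀ k, π k.rev = (π k).rev)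
    (πi : π i = i.rev) (n1 : ψ mw ∈ normalizer (T : Set _))
    (n2 : ∀ a, ψ (mdg a) ∈ normalizer (T : Set _)) (tT : τ ∈ T) (aτ : Act ψ τ !![x, 0; 0, 1])
    (nd : mon π z ∈ normalizer (T : Set _)) (ad : Act ψ (mon π z) !![0, δ; 1, 0])
    (nb : b ∈ normalizer (T : Set _)) (ab : Act ψ b !![1, 0; 0, 1])
    (md : mon π z ∈ sug r (RingHom.id K)) (dd : Sc (mon π z * mon π z))
    (db : b * mon π z * b = mon π z) (cb : s2Cj (mon π z) (b * ψ mw)) (cc : s2Cj (mon π z) c)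
    (hτ : ∀ H : Subgroup _, mon π z ∈ H → c ∈ H → τ ∈ H)
    (spin : ∀ H : Subgroup _, mon π z ∈ H → c ∈ H → b ∈ H → s2Q H i (Pi.single j.rev 1) →
      ∀ k, k ≠ i → k ≠ i.rev → s2Q H i (Pi.single k 1)) :
    IsLeast {n | Good (chev (CartanMatrix.A r) Fin.revPerm (RingHom.id K)) n} 3 := by
  have ho := hψ.ho
  have hev : Even r → RingHom.id K ≠ RingHom.id K := fun e => absurd e (Nat.not_even_iff_odd.2 ho)
  obtain ⟨k, mk, ek⟩ := id cb
  obtain ⟨k', mk', ek'⟩ := id cc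
  obtain ⟨S, hS⟩ := r1m ψ (mul_one 1) so sp
    (fun a h a' h' a'' h'' => dgl_nil a (le h) a' (le h') a'' (le h'')) n1 n2 tT aτ nd ad nb ab
    (by rw [← ek, conj_mul]; exact dd.conj k) (by
      have : mon π z * b * (mon π z)⁻¹ * b = 1 := by
        calc _ = mon π z * b * (b * mon π z * b)⁻¹ * b := by rw [db]
          _ = mon π z * (mon π z)⁻¹ := by group
          _ = 1 := by group
      rw [this]; exact sc_one)
  obtain ⟨cm, gn⟩ := hS _ rfl
  refine goodSU (by omega) (fun _ => rfl) hev (natb1_ns5 hr fun _ => rfl) md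
    (mul_mem (mul_mem (hψ.mem S) (cb.mem md)) (inv_mem (hψ.mem S))) (cc.mem md)
    (mul_mem (hψ.mem S) mk) mk' dd (sc_of_eq (by rw [← ek]; group)) (sc_of_eq ek'.symm) cm
    fun H _ m1 m2 m3 => ?_
  obtain ⟨g1, g2⟩ := gn H (hτ H m1 m3) m1 m2
  have hi := s2_ne ho i
  have n : j.rev ≠ i := fun e => hψ.ne' (by rw [← e, Fin.rev_rev])
  have n' : j.rev ≠ i.rev := fun e => hψ.ne (Fin.rev_injective e).symm
  have q := spin H m1 m3 g2 ⟨⟨hi, by simp [n.symm], by simp [n'.symm]⟩, fun s => ⟨0, by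
    have := g1 (mx s)
    rw [hψ.x, (el_comm (s2_ne ho j) hi.symm _ _).eq] at this
    rw [← Pi.single_smul', hei_single hi n n']
    simpa [hψ.par.neg_one_pow] using this⟩⟩
  have all := gen_hei (by omega) (fun _ => rfl) hev (Or.inr h2) hi (fun w o => s2Q_all ho q o)
    (fun w o => s2Q_all ho (fun k p p' => by
      have := (q (π⁻¹ k) (fun e => p (by rw [← πi, ← e]; simp)) (fun e => p' (by
        rw [← πi, ← hπ, ← e]; simp))).mon m1 (sug_fx md) (hπ i)
      simpa [πi] using this) ⟨by simpa using hi.symm, o.2.2, by simpa using o.2.1⟩) (H := H)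
  exact fun _ => ⟨all _ _, all _ _⟩

/-- Data for monomial matrices with entries `± g ^ n`. -/
abbrev s2D (r : ℕ) : Type := Equiv.Perm (Fin (r + 1)) × (Fin (r + 1) → ℤˣ × Multiplicative ℤ)

def s2f (g : Kˣ) : ℤˣ × Multiplicative ℤ →* Kˣ :=
  (Units.map (Int.castRingHom K).toMonoidHom).coprod (zpowersHom Kˣ g)

theorem s2f_neg (g : Kˣ) : s2f g (-1, 1) = -1 := by
  ext; simp only [s2f, RingHom.toMonoidHom_eq_coe, MonoidHom.coprod_apply, Units.map_neg, map_one, zpowersHom_apply, toAdd_one, zpow_ofNat, pow_zero, mul_one, Units.val_neg, Units.val_one]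

theorem s2f_g (g : Kˣ) : s2f g (1, Multiplicative.ofAdd 1) = g := by
  simp only [s2f, RingHom.toMonoidHom_eq_coe, MonoidHom.coprod_apply, map_one, zpowersHom_apply, toAdd_ofAdd, zpow_ofNat, pow_one, one_mul]

theorem s2f_mul (g : Kˣ) {a b : ℤˣ × Multiplicative ℤ} (h : a = (1, Multiplicative.ofAdd 1) * b) :
    s2f g a = g * s2f g b := by
  rw [h, map_mul, s2f_g]

theorem s2f_sg (g : Kˣ) (u : ℤˣ) : (s2f g (u, 1) : K) = (u : ℤ) := by
  simp [s2f]

def s2M (g : Kˣ) (x : s2D r) : GL (Fin (r + 1)) K := mon x.1 fun i => s2f g (x.2 i)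

def s2D.mul (x y : s2D r) : s2D r := (x.1 * y.1, fun i => x.2 (y.1 i) * y.2 i)

def s2D.cj (k x : s2D r) : s2D r :=
  (k.1 * x.1 * k.1⁻¹, fun i => k.2 (x.1 (k.1⁻¹ i)) * x.2 (k.1⁻¹ i) * (k.2 (k.1⁻¹ i))⁻¹)

def s2D.pw (x : s2D r) : ℕ → s2D r
  | 0 => x
  | n + 1 => (x.pw n).mul x

abbrev s2D.eq (x y : s2D r) : Prop := (∀ i, x.1 i = y.1 i) ∧ ∀ i, x.2 i = y.2 i

abbrev s2D.fx (x : s2D r) : Prop := (∀ i, x.1 i.rev = (x.1 i).rev) ∧
  ∀ i, x.2 i * x.2 i.rev = ((-1) ^ ((i : ℕ) + x.1 i), 1)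

abbrev s2D.sp (x : s2D r) : Prop := x.fx ∧ (Equiv.Perm.sign x.1, 1) * ∏ i, x.2 i = 1

abbrev s2D.sim (x y : s2D r) : Prop := (∀ k, x.1 k = y.1 k) ∧ (∀ k, x.1 k.rev = (x.1 k).rev) ∧
  (∀ k, x.1 k = k.rev → x.2 k * x.2 k.rev = (-1, 1) ∧ y.2 k * y.2 k.rev = (-1, 1)) ∧
  ∀ k, x.1 k ≠ k.rev → x.2 k = y.2 k

/-- The Weyl element of a short root. -/
def s2D.w (i j : Fin (r + 1)) : s2D r :=
  (Equiv.swap i j * Equiv.swap j.rev i.rev, fun k => if k = i ∨ k = j.rev then (-1, 1) else 1)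

section
variable (g : Kˣ) {x y k : s2D r}

theorem s2M_mul (x y : s2D r) : s2M g (x.mul y) = s2M g x * s2M g y := by
  simp [s2M, mon_mul, s2D.mul]

theorem s2M_pw (x : s2D r) (n : ℕ) : s2M g (x.pw n) = s2M g x ^ (n + 1) := by
  induction n with
  | zero => simp [s2D.pw]
  | succ n ih => rw [s2D.pw, s2M_mul, ih, ← pow_succ]

theorem s2M_eq (h : x.eq y) : s2M g x = s2M g y := mon_congr h.1 fun i => by rw [h.2]

theorem s2M_fx (h : x.fx) : Fx (RingHom.id K) (s2M g x) := fx_mon h.1 fun i => by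
  have := congrArg (fun a => (s2f g a : K)) (h.2 i)
  simp only [map_mul, s2f_sg, Units.val_mul] at this
  push_cast at this
  rw [pow_add] at this
  rw [RingHom.id_apply]
  linear_combination (-1) ^ (i : ℕ) * this + (-1) ^ (x.1 i : ℕ) * natb1_sq (K := K) i

theorem s2M_w {ψ : SL2 K →* GL (Fin (r + 1)) K} {i j : Fin (r + 1)} (h : s2S ψ i j) :
    ψ mw = s2M g (s2D.w i j) := by
  rw [h.w]
  refine mon_congr (fun _ => rfl) fun k => ?_
  simp only [s2D.w]
  split_ifs <;> simp [s2f_neg]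

variable [Finite K]

theorem s2M_mem (hr : 3 ≤ r) (ho : Odd r) (h : x.sp) : s2M g x ∈ sug r (RingHom.id K) :=
  mem_sug hr (fun _ => rfl) (fun e => absurd e (Nat.not_even_iff_odd.2 ho)) (s2M_fx g h.1) (by
    have := congrArg (fun a => (s2f g a : K)) h.2
    simp only [map_mul, s2f_sg, Units.val_mul, map_prod, map_one, Units.val_one,
      Units.coe_prod] at this
    rw [s2M, mon_det, this])

theorem s2M_sim (ho : Odd r) (h : x.sim y) : s2Cj (s2M g x) (s2M g y) := by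
  rw [s2M, s2M, ← Equiv.ext h.1]
  exact s2_flips ho h.2.1 (fun k p => by rw [← map_mul, (h.2.2.1 k p).1, s2f_neg])
    (fun k p => by rw [← map_mul, (h.2.2.1 k p).2, s2f_neg]) fun k p => by rw [h.2.2.2 k p]

theorem s2M_cj (hr : 3 ≤ r) (ho : Odd r) (hk : k.sp) (h : (k.cj x).sim y) :
    s2Cj (s2M g x) (s2M g y) :=
  s2Cj.trans ⟨_, s2M_mem g hr ho hk, by simp only [s2M, mon_conj, Equiv.Perm.coe_inv, s2D.cj, map_mul, map_inv]⟩ (s2M_sim g ho h)

end

/-- The conditions on a monomial design. -/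
abbrev s2Ok (i j : Fin (r + 1)) (d b c kb kc : s2D r) (o : ℕ) : Prop :=
  (5 ≤ r ∧ Odd r ∧ i ≠ j ∧ j ≠ i.rev ∧ Odd ((i : ℕ) + j)) ∧
  (d.sp ∧ kb.sp ∧ kc.sp ∧ b.fx ∧ (d.mul c).fx) ∧
  (d.mul d).eq (1, fun _ => (-1, 1)) ∧ ((b.mul d).mul b).eq d ∧
  (kb.cj d).sim (b.mul (s2D.w i j)) ∧ (kc.cj d).sim c ∧
  (d.1 i = i.rev ∧ d.1 j = j.rev ∧ d.1 i.rev = i ∧ d.1 j.rev = j ∧
    d.2 j = (1, Multiplicative.ofAdd 1) * d.2 i ∧
    d.2 i.rev = (1, Multiplicative.ofAdd 1) * d.2 j.rev) ∧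
  (b.1 i = i ∧ b.1 j = j ∧ b.1 i.rev = i.rev ∧ b.1 j.rev = j.rev ∧ b.2 i = b.2 j ∧
    b.2 j.rev = b.2 i.rev) ∧
  ((∀ k, ((d.mul c).pw o).1 k = k) ∧
    ((d.mul c).pw o).2 i = (1, Multiplicative.ofAdd 1) * ((d.mul c).pw o).2 j ∧
    ((d.mul c).pw o).2 j.rev = (1, Multiplicative.ofAdd 1) * ((d.mul c).pw o).2 i.rev) ∧
  (d.mul c).1 i = i ∧ ∀ k, k ≠ i → k ≠ i.rev → ∃ m ≤ o, ∃ n ≤ o,
    k = (d.mul c).1^[m] j.rev ∨ k = (d.mul c).1^[m] (b.1 ((d.mul c).1^[n] j.rev))

theorem s2_mon [Finite K] (h2 : (2 : K) ≠ 0) {g : Kˣ} (so : Sol (g : K) g 1) (sp : Spn (g : K))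
    {i j : Fin (r + 1)} {d b c kb kc : s2D r} {o : ℕ} (h : s2Ok i j d b c kb kc o) :
    IsLeast {n | Good (chev (CartanMatrix.A r) Fin.revPerm (RingHom.id K)) n} 3 := by
  obtain ⟨⟨hr, ho, n1, n2, n3⟩, ⟨s1, s2, s3, s4, s5⟩, dd, db, cb, cc, ⟨d1, d2, d3, d4, d5, d6⟩,
    ⟨b1, b2, b3, b4, b5, b6⟩, ⟨t1, t2, t3⟩, y1, sn⟩ := h
  obtain ⟨ψ, hψ⟩ := s2S_ex (K := K) ho n1 n2 n3
  have mm : ∀ H : Subgroup _, s2M g d ∈ H → s2M g c ∈ H → s2M g (d.mul c) ∈ H := fun H p q => by
    rw [s2M_mul]; exact mul_mem p q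
  refine s2_main hr h2 so sp hψ le_rfl (τ := s2M g ((d.mul c).pw o)) (b := s2M g b) (c := s2M g c)
    (π := d.1) (z := fun i => s2f g (d.2 i)) s1.1.1 d1 (hψ.w ▸ mon_norm _ _)
    (fun a => le_normalizer (hψ.dg a)) (mon_dgl t1 _)
    (hψ.diag (t1 _) (t1 _) (t1 _) (t1 _) (s2f_mul g t2) (s2f_mul g t3))
    (mon_norm _ _) (hψ.anti d1 d2 d3 d4 (s2f_mul g d5) (s2f_mul g d6))
    (mon_norm _ _) (hψ.diag (l := 1) b1 b2 b3 b4 (by rw [b5, one_mul]) (by rw [b6, one_mul]))
    (s2M_mem g (by omega) ho s1) ?_ ?_ ?_ (s2M_cj g (by omega) ho s3 cc) (fun H p q => ?_)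
    fun H p q m Q k k1 k2 => ?_
  · have := s2M_eq g dd
    rw [s2M_mul] at this
    exact this ▸ sc_mon.2 ⟨fun _ => rfl, fun _ => rfl⟩
  · have := s2M_eq g db
    rwa [s2M_mul, s2M_mul] at this
  · rw [s2M_w g hψ, ← s2M_mul]
    exact s2M_cj g (by omega) ho s2 cb
  · rw [s2M_pw]
    exact pow_mem (mm H p q) _
  · have Y : ∀ n k, s2Q H i (Pi.single k 1) → s2Q H i (Pi.single ((d.mul c).1^[n] k) 1) :=
      fun n k h => by
        induction n with
        | zero => exact h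
        | succ n ih =>
          have := ih.mon (mm H p q) (s2M_fx g s5) (s5.1 i)
          rwa [y1, ← Function.iterate_succ_apply' (d.mul c).1] at this
    obtain ⟨n, -, n', -, rfl | rfl⟩ := sn k k1 k2
    · exact Y _ _ Q
    · have := (Y n' _ Q).mon m (s2M_fx g s4) (s4.1 i)
      rw [b1] at this
      exact Y _ _ this

/-- Data from a list of transpositions, the list of negative entries and the list of the
entries with a factor `g`. -/
def s2d (l : List (Fin (r + 1) × Fin (r + 1))) (n e : List (Fin (r + 1))) : s2D r :=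
  ((l.map fun x => Equiv.swap x.1 x.2).prod, fun k => (if k ∈ n then -1 else 1,
    Multiplicative.ofAdd (if k ∈ e then 1 else if k.rev ∈ e then -1 else 0)))

theorem s2_ok8 : s2Ok (r := 7) 0 1 (s2d [(0, 7), (1, 6), (2, 3), (4, 5)] [3, 5, 6, 7] [1])
    (s2d [(2, 5), (3, 4)] [4, 5] []) (s2d [(0, 7), (1, 2), (3, 4), (5, 6)] [2, 4, 6, 7] [])
    (s2d [(0, 2), (1, 3), (4, 6), (5, 7)] [3, 4] []) (s2d [(1, 3), (2, 3), (4, 5), (5, 6)] [4, 5] [])
    2 := by
  refine ⟨?_, ⟨?_, ?_, ?_, ?_, ?_⟩, ?_, ?_, ?_, ?_, ?_, ?_, ?_, ?_⟩ <;> decide +kernel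

theorem s2_ok12 : s2Ok (r := 11) 0 1
    (s2d [(0, 11), (1, 10), (2, 3), (4, 5), (6, 7), (8, 9)] [3, 5, 7, 9, 10, 11] [1])
    (s2d [(2, 9), (3, 8), (4, 6), (5, 7)] [5, 6, 8, 9] [])
    (s2d [(0, 11), (1, 2), (3, 4), (5, 6), (7, 8), (9, 10)] [2, 4, 6, 8, 10, 11] [])
    (s2d [(0, 2), (1, 3), (5, 6), (8, 10), (9, 11)] [3, 6, 8] [])
    (s2d [(1, 5), (2, 5), (3, 5), (4, 5), (6, 7), (7, 8), (8, 9), (9, 10)] [6, 7, 8, 9] []) 4 := by
  refine ⟨?_, ⟨?_, ?_, ?_, ?_, ?_⟩, ?_, ?_, ?_, ?_, ?_, ?_, ?_, ?_⟩ <;> decide +kernel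

theorem s2_nor {G : Type} [Group G] {D : Subgroup G} {m n : G} (h : m ∈ normalizer (D : Set G))
    (e : m * n * m⁻¹ = n ∨ m * n * m⁻¹ = n⁻¹) :
    m ∈ normalizer ((D ⊓ centralizer {n} : Subgroup G) : Set G) := by
  refine mem_normalizer_iff.2 fun g => ?_
  rw [mem_inf, mem_inf, ← mem_normalizer_iff.1 h, mem_centralizer_singleton_iff,
    mem_centralizer_singleton_iff]
  refine and_congr_right fun _ => ?_
  have : Commute g n ↔ Commute (m * g * m⁻¹) (m * n * m⁻¹) := (Commute.conj_iff m).symm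
  rcases e with e | e <;> rw [e] at this
  exacts [this, this.trans Commute.inv_right_iff]

theorem s2_nor' {G : Type} [Group G] {D : Subgroup G} (n : G) :
    n ∈ normalizer ((D ⊓ centralizer {n} : Subgroup G) : Set G) := by
  refine mem_normalizer_iff.2 fun g => ⟨fun h => ?_, fun h => ?_⟩
  · rwa [← mem_centralizer_singleton_iff.1 h.2, mul_inv_cancel_right]
  · have e := mem_centralizer_singleton_iff.1 h.2
    rw [inv_mul_cancel_right, mul_right_inj] at e
    rwa [← e] at h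

theorem s2_tr {G : Type} [Group G] {ψ : SL2 K →* G} {m : G} (h2 : (2 : K) ≠ 0)
    (h : Act ψ m !![0, 1; 1, 0]) : ∃ S, ψ S * m * (ψ S)⁻¹ = m * ψ mw := by
  let S : SL2 K := ⟨!![1, -1; 2⁻¹, 2⁻¹], by simp only [det_fin_two, Fin.isValue, of_apply, cons_val', cons_val_zero, cons_val_fin_one, cons_val_one, one_mul, neg_mul, sub_neg_eq_add]; field_simp; norm_num⟩
  have := h.2 (mw * S) S (by simp [S, mw])
  rw [map_mul] at this
  exact ⟨S, by nth_rw 1 [← this]; group⟩

def s2A (s : K) : SL2 K := ⟨!![1 - s, s; -s, 1 + s], by simp only [det_fin_two, Fin.isValue, of_apply, cons_val', cons_val_zero, cons_val_fin_one, cons_val_one, mul_neg, sub_neg_eq_add]; ring⟩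

theorem s2A_add (s t : K) : s2A (s + t) = s2A s * s2A t := by
  ext i j
  fin_cases i <;> fin_cases j <;> simp only [s2A, neg_add_rev, Fin.zero_eta, Fin.isValue, of_apply, cons_val', cons_val_zero, cons_val_fin_one, Matrix.SpecialLinearGroup.coe_mul, Matrix.mul_apply, Fin.sum_univ_two, cons_val_one, mul_neg, Fin.mk_one, neg_mul] <;> ring

theorem s2A_zero : s2A (0 : K) = 1 := by
  ext i j
  fin_cases i <;> fin_cases j <;> simp only [s2A, sub_zero, neg_zero, add_zero, Fin.zero_eta, Fin.isValue, of_apply, cons_val', cons_val_zero, cons_val_fin_one, Matrix.SpecialLinearGroup.coe_one, one_apply_eq, Fin.mk_one, cons_val_one, Nat.reduceAdd, ne_eq, zero_ne_one, not_false_eq_true, one_apply_ne, one_ne_zero]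

theorem s2A_pow (s : K) (n : ℕ) : s2A s ^ n = s2A (n * s) := by
  induction n with
  | zero => simp [s2A_zero]
  | succ n ih => rw [pow_succ, ih, ← s2A_add]; congr 1; push_cast; ring

theorem s2A_eq (s : K) : s2A s = mz (-1) * mx s * mz 1 := by
  ext i j
  fin_cases i <;> fin_cases j <;> simp only [s2A, Fin.zero_eta, Fin.isValue, of_apply, cons_val', cons_val_zero, cons_val_fin_one, mz, neg_neg, mx, Matrix.SpecialLinearGroup.coe_mul, cons_mul, Nat.succ_eq_add_one, Nat.reduceAdd, vecMul_cons, head_cons, one_smul, tail_cons, zero_smul, empty_vecMul, add_zero, add_cons, empty_add_empty, empty_mul, Equiv.symm_apply_apply, Matrix.mul_apply, Fin.sum_univ_two, mul_one, cons_val_one, mul_neg, Fin.mk_one, mul_zero, zero_add, neg_add_rev, add_neg_cancel_left] <;> ring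

theorem s2_elv {i j : Fin (r + 1)} (h : i ≠ j) (s : K) (v : Fin (r + 1) → K) :
    (el i j s).1 *ᵥ v = v + Pi.single i (s * v j) := by
  rw [el_val h, add_mulVec, one_mulVec, single_mulVec_eq, ← Pi.single_smul', smul_eq_mul, mul_one]

theorem s2_six [Finite K] (h2 : (2 : K) ≠ 0) {g : Kˣ} (so : Sol (g : K) g 1) (sp : Spn (g : K)) :
    IsLeast {n | Good (chev (CartanMatrix.A 5) Fin.revPerm (RingHom.id K)) n} 3 := by
  have ho : Odd 5 := by decide
  have := Fintype.ofFinite K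
  obtain ⟨p, s, s0, ps⟩ : ∃ p s : K, s ≠ 0 ∧ p ^ 2 + s ^ 2 = -1 := by
    obtain ⟨a, b, k⟩ := sl2b_quad (one_ne_zero (α := K)) (-1)
    by_cases c : b = 0
    · exact ⟨b, a, fun e => by simp [c, e] at k, by linear_combination k⟩
    · exact ⟨a, b, c, by linear_combination k⟩
  obtain ⟨ψ, hψ⟩ := s2S_ex (K := K) (i := 0) (j := 1) ho (by decide) (by decide) (by decide)
  obtain ⟨χ, hχ⟩ := s2S_ex (K := K) (i := 1) (j := 2) ho (by decide) (by decide) (by decide)
  obtain ⟨ω, hω⟩ : ∃ ω, s2L (K := K) ω (2 : Fin 6) := psi_el (by decide)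
  have g0 := g.ne_zero
  let M : SL2 K := ⟨!![p, s / g; g * s, -p], by
    simp [det_fin_two]; field_simp; linear_combination -ps⟩
  let d : s2D 5 := s2d [(0, 5), (1, 4), (2, 3)] [3, 4, 5] [1, 2]
  let d1 : s2D 5 := s2d [(0, 5), (1, 4), (2, 3)] [3, 4, 5] []
  let t : s2D 5 := s2d [] [] [0]
  have cm : ∀ A B, Commute (ω A) (ψ B) := fun A B => sl2_comm
    (fun s => (sl2_comm (fun t => by
      rw [hω.1, hψ.x]
      exact (el_comm (by decide) (by decide) _ _).mul_left (el_comm (by decide) (by decide) _ _))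
      (fun t => by
      rw [hω.2.1, hψ.x]
      exact (el_comm (by decide) (by decide) _ _).mul_left (el_comm (by decide) (by decide) _ _))
      A).symm)
    (fun s => (sl2_comm (fun t => by
      rw [hω.1, hψ.z]
      exact (el_comm (by decide) (by decide) _ _).mul_left (el_comm (by decide) (by decide) _ _))
      (fun t => by
      rw [hω.2.1, hψ.z]
      exact (el_comm (by decide) (by decide) _ _).mul_left (el_comm (by decide) (by decide) _ _))
      A).symm) B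
  have t2 : t.2 2 = 1 ∧ t.2 3 = 1 ∧ ∀ k, t.1 k = k := by decide +kernel
  have tω : Commute (s2M g t) (ω M) := sl2_comm (fun s => by
    rw [hω.1, Commute, SemiconjBy, s2M, mon_mul_el]; simp only [Nat.reduceAdd, Fin.isValue, t2, Fin.reduceRev, map_one, Units.val_one, one_mul, div_one]) (fun s => by
    rw [hω.2.1, Commute, SemiconjBy, s2M, mon_mul_el]; simp only [Nat.reduceAdd, Fin.isValue, Fin.reduceRev, t2, map_one, Units.val_one, mul_neg, one_mul, div_one]) M
  have tχ : ∀ A, Commute (s2M g t) (χ A) := fun A => by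
    have := (hχ.diag (d := fun i => s2f g (t.2 i)) (l := 1) (t2.2.2 _) (t2.2.2 _) (t2.2.2 _)
      (t2.2.2 _) (by rw [one_mul]; congr 1) (by rw [one_mul]; congr 1)).2 A A (by
        simp [← one_fin_two])
    exact mul_inv_eq_iff_eq_mul.1 this
  have d2 : d.1 2 = Fin.rev 2 ∧ d.1 (Fin.rev 2) = 2 ∧ d.2 2 = (1, Multiplicative.ofAdd 1) ∧
      d.2 (Fin.rev 2) = (-1, 1) * (1, Multiplicative.ofAdd 1)⁻¹ := by decide +kernel
  have dω : s2M g d * ω M * (s2M g d)⁻¹ = (ω M)⁻¹ := by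
    rw [← map_inv]
    refine (act_anti (ψ := ω) (l := (g : K) ^ 2) (by simp) (fun s => ?_) fun s => ?_).2 _ _ ?_
    · rw [hω.1, hω.2.1, s2M, mon_el]
      simp only [d2, map_mul, map_inv, s2f_neg, s2f_g]
      congr 1; simp only [neg_mul, one_mul, Units.val_neg, Units.val_inv_eq_inv_val]; field_simp
    · rw [hω.1, hω.2.1, s2M, mon_el]
      simp only [d2, map_mul, map_inv, s2f_neg, s2f_g]
      congr 1; simp only [neg_mul, one_mul, Units.val_neg, Units.val_inv_eq_inv_val, mul_neg, neg_neg]; field_simp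
    · ext i j
      fin_cases i <;> fin_cases j <;>
        simp only [Fin.zero_eta, Fin.isValue, Matrix.mul_apply, of_apply, cons_val', cons_val_fin_one, cons_val_zero, Fin.sum_univ_two, zero_mul, cons_val_one, neg_mul, zero_add, M, Matrix.SpecialLinearGroup.coe_inv, adjugate_fin_two, mul_zero, mul_one, neg_inj, Fin.mk_one, mul_neg, neg_neg, add_zero, one_mul, neg_zero] <;> field_simp
  have dχ : s2M g d * χ (s2A (-1)) * (s2M g d)⁻¹ = χ (s2A 1) :=
    (hχ.anti (π := d.1) (d := fun i => s2f g (d.2 i)) (l := 1) (by decide +kernel)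
      (by decide +kernel) (by decide +kernel) (by decide +kernel) (by rw [one_mul]; congr 1)
      (by rw [one_mul]; congr 1)).2 _ _ (by simp [s2A])
  have uu : χ (s2A 1) * (s2M g t * s2M g d) * (χ (s2A 1))⁻¹ * (s2M g d)⁻¹ =
      s2M g t * χ (s2A 2) := by
    have e : (χ (s2A 1))⁻¹ = χ (s2A (-1)) := by
      rw [inv_eq_iff_mul_eq_one, ← map_mul, ← s2A_add, add_neg_cancel, s2A_zero, map_one]
    rw [e, ← one_add_one_eq_two (R := K), s2A_add, map_mul, ← mul_assoc (s2M g t), (tχ _).eq]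
    nth_rw 3 [← dχ]
    group
  have hτ : ∀ H : Subgroup _, s2M g d ∈ H →
      χ (s2A 1) * (s2M g t * s2M g d) * (χ (s2A 1))⁻¹ ∈ H → s2M g t ∈ H ∧ χ (s2A 2) ∈ H := by
    intro H p q
    have m := mul_mem q (inv_mem p)
    rw [uu] at m
    have m' := pow_mem m (Fintype.card K)
    have e : s2M g t ^ Fintype.card K = s2M g t := by
      rw [s2M, show t.1 = 1 from Equiv.ext t2.2.2, mon_one_pow]
      exact mon_congr (fun _ => rfl) fun i => Units.ext (by simp [FiniteField.pow_card])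
    rw [(tχ _).mul_pow, ← map_pow, s2A_pow, FiniteField.cast_card_eq_zero, zero_mul, s2A_zero,
      map_one, mul_one, e] at m'
    exact ⟨m', (mul_mem_cancel_left m').1 m⟩
  refine s2_main le_rfl h2 so sp hψ (T := dgl ⊓ centralizer {ω M}) inf_le_left (τ := s2M g t)
    (b := ω M) (c := χ (s2A 1) * (s2M g t * s2M g d) * (χ (s2A 1))⁻¹) (π := d.1)
    (z := fun i => s2f g (d.2 i)) (by decide +kernel) (by decide +kernel)
    (s2_nor (hψ.w ▸ mon_norm _ _) (Or.inl (cm _ _).symm.mul_inv_cancel))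
    (fun a => s2_nor (le_normalizer (hψ.dg a)) (Or.inl (cm _ _).symm.mul_inv_cancel))
    ⟨mon_dgl t2.2.2 _, mem_centralizer_singleton_iff.2 tω.eq⟩
    (hψ.diag (t2.2.2 _) (t2.2.2 _) (t2.2.2 _) (t2.2.2 _)
      (s2f_mul g (by decide +kernel)) (s2f_mul g (by decide +kernel)))
    (s2_nor (mon_norm _ _) (Or.inr dω))
    (hψ.anti (by decide +kernel) (by decide +kernel) (by decide +kernel) (by decide +kernel)
      (s2f_mul g (by decide +kernel)) (s2f_mul g (by decide +kernel)))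
    (s2_nor' _) (by simpa [← one_fin_two] using s2_act1 (cm M))
    (s2M_mem g (by decide) ho (x := d) (by decide +kernel)) ?_ ?_ ?_ ?_ (fun H p q => (hτ H p q).1)
    fun H m1 q m Q k k1 k2 => ?_
  · have := s2M_eq g (x := d.mul d) (y := (1, fun _ => (-1, 1))) (by decide +kernel)
    rw [s2M_mul] at this
    exact this ▸ sc_mon.2 ⟨fun _ => rfl, fun _ => rfl⟩
  · calc _ = ω M * (s2M g d * ω M * (s2M g d)⁻¹) * s2M g d := by rw [s2M]; group
      _ = _ := by rw [dω, mul_inv_cancel, one_mul, s2M]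
  · obtain ⟨S, hS⟩ := s2_tr h2 (hψ.anti (π := d1.1) (d := fun i => s2f g (d1.2 i)) (l := 1)
      (by decide +kernel) (by decide +kernel) (by decide +kernel) (by decide +kernel)
      (by rw [one_mul]; congr 1) (by rw [one_mul]; congr 1))
    obtain ⟨S', hS'⟩ := (s2_act1 fun A => (cm A mw).symm).conj (M := mw) (M' := M)
      (by simp [mw, trace_fin_two]) (by simp [M, trace_fin_two]) (by simp [mw]) (by simp [M, s0])
    have e : ω mw = s2M g (s2d [(2, 3)] [2] []) := by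
      rw [hω.2.2.1]
      refine mon_congr (by decide +kernel) fun k => ?_
      fin_cases k <;> simp only [Nat.reduceAdd, Fin.zero_eta, Fin.isValue, Fin.reduceEq, ↓ reduceIte, s2d, List.map_cons, List.map_nil, List.prod_cons, List.prod_nil, mul_one, List.mem_cons, List.not_mem_nil, or_false, ofAdd_zero, Fin.mk_one, Fin.reduceFinMk, s2f_neg] <;> exact (map_one _).symm
    have c := s2M_cj g (by decide) ho (k := s2d [(1, 4)] [1] []) (x := d1.mul (s2D.w 0 1))
      (y := (s2D.w 0 1).mul (s2d [(2, 3)] [2] [])) (by decide +kernel) (by decide +kernel)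
    rw [s2M_mul, s2M_mul, ← s2M_w g hψ, ← e] at c
    exact (((s2M_sim g ho (x := d) (y := d1) (by decide +kernel)).trans ⟨_, hψ.mem S, hS⟩).trans
      c).trans ⟨_, hω.mem ho S', hS'.trans (cm _ _).eq.symm⟩
  · have c := s2M_sim g ho (x := d) (y := t.mul d) (by decide +kernel)
    rw [s2M_mul] at c
    exact c.trans ⟨_, hχ.mem _, rfl⟩
  have uv : ∀ v : Fin 6 → K, (χ (s2A 2)).1 *ᵥ v = ![v 0, 2 * v 2 - v 1, 3 * v 2 - 2 * v 1,
      2 * v 4 - v 3, 3 * v 4 - 2 * v 3, v 5] := fun v => by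
    simp only [s2A_eq, map_mul, hχ.x, hχ.z, Units.val_mul, ← mulVec_mulVec]
    repeat rw [s2_elv (by decide)]
    ext k
    fin_cases k <;> simp only [Nat.reduceAdd, Fin.isValue, Fin.reduceRev, neg_mul, one_mul, Pi.add_apply, ne_eq, Fin.reduceEq, not_false_eq_true, Pi.single_eq_of_ne, add_zero, Pi.single_eq_same, neg_neg, Fin.zero_eta, zero_ne_one, Nat.succ_eq_add_one, cons_val_zero, Fin.mk_one, cons_val_one, Fin.reduceFinMk, add_neg_add_add_cancel, cons_val] <;> ring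
  have nv : ∀ v : Fin 6 → K, (ω M).1 *ᵥ v = ![v 0, v 1, p * v 2 + s / g * v 3,
      g * s * v 2 - p * v 3, v 4, v 5] := fun v => by
    have e : M = mx ((p - 1) / (g * s)) * mz (-(g * s)) * mx ((-p - 1) / (g * s)) := by
      ext i j
      fin_cases i <;> fin_cases j <;> simp only [Fin.zero_eta, Fin.isValue, of_apply, cons_val', cons_val_zero, cons_val_fin_one, mx, mz, neg_neg, Matrix.SpecialLinearGroup.coe_mul, cons_mul, Nat.succ_eq_add_one, Nat.reduceAdd, vecMul_cons, head_cons, one_smul, tail_cons, smul_cons, smul_eq_mul, mul_one, smul_empty, empty_vecMul, add_zero, add_cons, zero_add, empty_add_empty, zero_smul, empty_mul, Equiv.symm_apply_apply, Matrix.mul_apply, Fin.sum_univ_two, cons_val_one, mul_zero, M, Fin.mk_one] <;>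
        field_simp
      · ring
      · linear_combination ps
      · ring
    simp only [e, map_mul, hω.1, hω.2.1, Units.val_mul, ← mulVec_mulVec]
    repeat rw [s2_elv (by decide)]
    ext k
    fin_cases k <;> simp only [Nat.reduceAdd, Fin.isValue, Fin.reduceRev, neg_neg, Pi.add_apply, Pi.single_eq_same, ne_eq, Fin.reduceEq, not_false_eq_true, Pi.single_eq_of_ne, add_zero, Fin.zero_eta, Nat.succ_eq_add_one, cons_val_zero, Fin.mk_one, cons_val_one, Fin.reduceFinMk, cons_val] <;> field_simp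
    · linear_combination (-v 3) * ps
    · ring
  have U : ∀ w, s2Q H 0 w → s2Q H 0 ((χ (s2A 2)).1 *ᵥ w) := fun w h =>
    h.conj (hτ H m1 q).2 (sug_fx (hχ.mem _)) (l := 1) one_ne_zero
      (by rw [uv]; ext k; fin_cases k <;> simp) (by rw [uv]; ext k; fin_cases k <;> simp)
  have Q3 : s2Q H 0 (Pi.single 3 1) := by
    convert ((U _ Q).add (Q.smul (-3))).smul 2⁻¹ using 1
    rw [uv]; ext k; simp only [Pi.smul_apply, Pi.add_apply]; fin_cases k <;> simp [h2]
  have Q2 : s2Q H 0 (Pi.single 2 1) := by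
    convert ((Q3.conj m (sug_fx (hω.mem ho _)) (l := 1) (j := 0) one_ne_zero
      (by rw [nv]; ext k; fin_cases k <;> simp) (by rw [nv]; ext k; fin_cases k <;> simp)).add
      (Q3.smul p)).smul (g / s) using 1
    rw [nv]; ext k; simp only [Pi.smul_apply, Pi.add_apply]; fin_cases k <;> simp [s0]
  have Q1 : s2Q H 0 (Pi.single 1 1) := by
    convert ((U _ Q2).add (Q2.smul (-3))).smul 2⁻¹ using 1
    rw [uv]; ext k; simp only [Pi.smul_apply, Pi.add_apply]; fin_cases k <;> simp [h2]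
  fin_cases k
  exacts [absurd rfl k1, Q1, Q2, Q3, Q, absurd rfl k2]

theorem s2_sol [Finite K] (h2 : (2 : K) ≠ 0) (h3 : Nat.card K ≠ 3) :
    ∃ g : Kˣ, Sol (g : K) g 1 ∧ Spn (g : K) := by
  have := Fintype.ofFinite K
  obtain ⟨g, hg⟩ := IsCyclic.exists_monoid_generator (α := Kˣ)
  have hx : ∀ s : K, s ≠ 0 → ∃ n : ℕ, (g : K) ^ n = s := fun s s0 => by
    obtain ⟨n, e⟩ := hg (Units.mk0 s s0)
    exact ⟨n, by simpa using congrArg Units.val e⟩
  have hc : ringChar K ≠ 2 := fun e => h2 (by exact_mod_cast (ringChar.spec K 2).2 (by rw [e]))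
  refine ⟨g, ?_, spn_sq fun s s0 => hx _ (pow_ne_zero 2 s0)⟩
  by_cases c : 7 ≤ Nat.card K
  · exact sol_gen h2 c hx g.ne_zero (Or.inl rfl)
  have o := mt FiniteField.even_card_iff_char_two.2 hc
  have l : 1 < Fintype.card K := Fintype.one_lt_card
  rw [Nat.card_eq_fintype_card] at c h3
  refine sol_gen5 hx (FiniteField.isSquare_neg_one_iff.2 (by omega)) (fun q => ?_) (Or.inl rfl)
  obtain ⟨s, hs⟩ := FiniteField.exists_nonsquare hc
  obtain ⟨n, rfl⟩ := hx s fun e => hs (e ▸ IsSquare.zero)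
  exact hs (q.pow n)

/-- The groups `PSp₆ (q)`, `PSp₈ (q)`, `PSp₁₂ (q)` for odd `q > 3`. -/
theorem tSo5 [Finite K] (h : (2 : K) ≠ 0) (h3 : Nat.card K ≠ 3) {r : ℕ}
    (hr : r = 5 ∨ r = 7 ∨ r = 11) :
    IsLeast {n | Good (chev (CartanMatrix.A r) Fin.revPerm (RingHom.id K)) n} 3 := by
  obtain ⟨g, so, sp⟩ := s2_sol h h3
  rcases hr with rfl | rfl | rfl
  exacts [s2_six h so sp, s2_mon h so sp s2_ok8, s2_mon h so sp s2_ok12]

/-- Sum of two vectors over the field with three elements, given by two bit masks. -/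
def s2ad (a b : ℕ × ℕ) : ℕ × ℕ :=
  let p := Nat.xor a.1 (Nat.land a.1 a.2)
  let m := Nat.xor a.2 (Nat.land a.1 a.2)
  let p' := Nat.xor b.1 (Nat.land b.1 b.2)
  let m' := Nat.xor b.2 (Nat.land b.1 b.2)
  let t := Nat.xor (Nat.lor p m') (Nat.lor m p')
  (Nat.xor (Nat.lor m m') t, Nat.xor (Nat.lor p p') t)

/-- A matrix, given by its columns, times a vector. -/
def s2mv (A : List (ℕ × ℕ)) : ℕ → ℕ → ℕ × ℕ :=
  A.rec (fun _ _ => (0, 0)) fun c _ ih p m =>
    s2ad (Nat.lor (p % 2 * c.1) (m % 2 * c.2), Nat.lor (p % 2 * c.2) (m % 2 * c.1))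
      (ih (p / 2) (m / 2))

def s2mm (A B : List (ℕ × ℕ)) : List (ℕ × ℕ) := B.map fun v => s2mv A v.1 v.2

/-- Elementary matrices with entry `± 1`. -/
def s2eb (r i j : ℕ) (n : Bool) : List (ℕ × ℕ) := (List.range (r + 1)).map fun k =>
  s2ad (2 ^ k, 0) (if k = j then if n then (0, 2 ^ i) else (2 ^ i, 0) else (0, 0))

def s2one (r : ℕ) : List (ℕ × ℕ) := s2eb r 0 (r + 1) false

def s2xd (r i j : ℕ) : List (ℕ × ℕ) :=
  if i + j = r then s2eb r i j false
  else s2mm (s2eb r i j false) (s2eb r (r - j) (r - i) ((i + j) % 2 == 0))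

def s2fn (n : ℕ) (f : ℕ → Bool) : Bool := n.rec (f 0) fun k _ => f k.succ

/-- Evaluate a list before it is passed on. -/
def s2fl (l : List (ℕ × ℕ)) : (List (ℕ × ℕ) → Bool) → Bool :=
  l.rec (fun f => f []) fun x _ ih f => s2fn x.1 fun a => s2fn x.2 fun b => ih fun l => f ((a, b) :: l)

/-- Straight line programs. -/
def s2run (r : ℕ) (s : List (ℕ × ℕ)) :
    List (List (ℕ × ℕ)) → (List (List (ℕ × ℕ)) → Bool) → Bool :=
  s.rec (fun R f => f R) fun p _ ih R f =>
    s2fl (s2mm (R.getD p.1 (s2one r)) (R.getD p.2 (s2one r))) fun C => ih (C :: R) f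

def s2chk (r : ℕ) (L s₁ s₂ : List (ℕ × ℕ)) : Bool :=
  (L.all fun p => decide (p.1 ≤ r ∧ p.2 ≤ r ∧ p.1 ≠ p.2)) &&
  s2run r s₁ (L.map fun p => s2xd r p.1 p.2) fun R =>
    match R with
    | A :: B :: C :: G :: G' :: _ =>
      s2mm A A == (s2one r).map Prod.swap && s2mm G A == s2mm B G && s2mm G' A == s2mm C G' &&
      s2mm A B == s2mm (s2mm A A) (s2mm B A) &&
      s2run r s₂ [A, B, C] fun R => (List.range r).all fun i =>
        (R.elem (s2xd r i (i + 1)) || R.elem (s2xd r (r - (i + 1)) (r - i))) &&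
        (R.elem (s2xd r (i + 1) i) || R.elem (s2xd r (r - i) (r - (i + 1))))
    | _ => false

theorem s2fl_eq (l : List (ℕ × ℕ)) (f : List (ℕ × ℕ) → Bool) : s2fl l f = f l := by
  induction l generalizing f with
  | nil => rfl
  | cons x l ih => obtain ⟨a, b⟩ := x; cases a <;> cases b <;> exact ih _

theorem s2run_ok {P : List (ℕ × ℕ) → Prop} (h1 : P (s2one r))
    (hm : ∀ A B, P A → P B → P (s2mm A B)) (s : List (ℕ × ℕ)) {R : List (List (ℕ × ℕ))}
    {f : List (List (ℕ × ℕ)) → Bool} (hR : ∀ A ∈ R, P A) (h : s2run r s R f = true) :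
    ∃ R', (∀ A ∈ R', P A) ∧ f R' = true := by
  induction s generalizing R with
  | nil => exact ⟨R, hR, h⟩
  | cons p s ih =>
    have g : ∀ i, P (R.getD i (s2one r)) := fun i => by
      rw [List.getD_eq_getElem?_getD]
      cases e : R[i]? with
      | none => exact h1
      | some A => exact hR A (List.mem_of_getElem? e)
    exact ih (List.forall_mem_cons.2 ⟨hm _ _ (g _) (g _), hR⟩) ((s2fl_eq _ _).symm.trans h)

variable (K) in
/-- A coordinate of a packed vector. -/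
def s2v (a : ℕ × ℕ) (j : ℕ) : K :=
  (if a.1.testBit j then 1 else 0) - if a.2.testBit j then 1 else 0

theorem s2v_ad (h3 : (3 : K) = 0) (a b : ℕ × ℕ) (j : ℕ) :
    s2v K (s2ad a b) j = s2v K a j + s2v K b j := by
  have e1 : ∀ x y, Nat.xor x y = x ^^^ y := fun _ _ => rfl
  have e2 : ∀ x y, Nat.lor x y = x ||| y := fun _ _ => rfl
  have e3 : ∀ x y, Nat.land x y = x &&& y := fun _ _ => rfl
  simp only [s2v, s2ad, e1, e2, e3, Nat.testBit_xor, Nat.testBit_or, Nat.testBit_and]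
  cases a.1.testBit j <;> cases a.2.testBit j <;> cases b.1.testBit j <;> cases b.2.testBit j <;>
    simp <;> first | linear_combination h3 | linear_combination -h3

theorem s2v_mv (h3 : (3 : K) = 0) (A : List (ℕ × ℕ)) (p m j : ℕ) : s2v K (s2mv A p m) j =
    ∑ k ∈ Finset.range A.length, s2v K (A.getD k 0) j * s2v K (p, m) k := by
  induction A generalizing p m with
  | nil => simp [s2mv, s2v]
  | cons c A ih =>
    have : s2mv (c :: A) p m = s2ad (p % 2 * c.1 ||| m % 2 * c.2, p % 2 * c.2 ||| m % 2 * c.1)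
      (s2mv A (p / 2) (m / 2)) := rfl
    rw [this, s2v_ad h3, ih, List.length_cons, Finset.sum_range_succ', add_comm]
    congr 1
    · exact Finset.sum_congr rfl fun k _ => by simp only [s2v, List.getD_eq_getElem?_getD, List.getElem?_cons_succ, Nat.testBit_succ]
    · rcases Nat.mod_two_eq_zero_or_one p with e | e <;>
        rcases Nat.mod_two_eq_zero_or_one m with e' | e' <;> simp [s2v, e, e', or_comm]

/-- The group element `g` has the packed matrix `A`. -/
def S2Rp (g : GL (Fin (r + 1)) K) (A : List (ℕ × ℕ)) : Prop :=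
  A.length = r + 1 ∧ ∀ i j : Fin (r + 1), g.1 i j = s2v K (A.getD j 0) i

theorem S2Rp.eq {g h : GL (Fin (r + 1)) K} {A B : List (ℕ × ℕ)} (p : S2Rp g A) (q : S2Rp h B)
    (e : A = B) : g = h := by
  ext i j
  rw [p.2, q.2, e]

theorem S2Rp.mul (h3 : (3 : K) = 0) {g h : GL (Fin (r + 1)) K} {A B : List (ℕ × ℕ)} (p : S2Rp g A)
    (q : S2Rp h B) : S2Rp (g * h) (s2mm A B) := by
  refine ⟨by rw [s2mm, List.length_map, q.1], fun i j => ?_⟩
  have l : (j : ℕ) < B.length := j.2.trans_eq q.1.symm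
  rw [Units.val_mul, mul_apply, s2mm, List.getD_eq_getElem _ _ (by simpa using l),
    List.getElem_map, s2v_mv h3, p.1, Finset.sum_range]
  exact Finset.sum_congr rfl fun k _ => by rw [p.2, q.2, List.getD_eq_getElem _ _ l]

theorem s2v_eb (h3 : (3 : K) = 0) (i j : ℕ) (n : Bool) (k l : Fin (r + 1)) :
    s2v K ((s2eb r i j n).getD l 0) k = (if k = l then 1 else 0) +
      if i = k ∧ j = l then if n then -1 else 1 else 0 := by
  rw [s2eb, List.getD_eq_getElem _ _ (by simpa using l.2), List.getElem_map, List.getElem_range,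
    s2v_ad h3]
  by_cases e : j = l <;> cases n <;>
    simp [s2v, Nat.testBit_two_pow, e, Fin.ext_iff, eq_comm, neg_ite]

theorem s2rp_one (h3 : (3 : K) = 0) : S2Rp (1 : GL (Fin (r + 1)) K) (s2one r) :=
  ⟨by simp [s2one, s2eb], fun i j => by rw [s2one, s2v_eb h3]; simp [one_apply, j.2.ne']⟩

theorem s2rp_el (h3 : (3 : K) = 0) {i j : Fin (r + 1)} (h : i ≠ j) (n : Bool) :
    S2Rp (el i j (if n then -1 else 1 : K)) (s2eb r i j n) :=
  ⟨by simp [s2eb], fun k l => by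
    rw [s2v_eb h3]; simp [el_val h, one_apply, single_apply, Fin.ext_iff]⟩

/-- Root elements. -/
def s2x (i j : Fin (r + 1)) (s : K) : GL (Fin (r + 1)) K :=
  if j = i.rev then el i j s else el i j s * el j.rev i.rev (-(-1) ^ ((i : ℕ) + j) * s)

theorem s2x_rt (ho : Odd r) {i j : Fin (r + 1)} (h : i ≠ j) (g : GL (Fin (r + 1)) K) :
    g ∈ rt (RingHom.id K) i j ↔ ∃ s, g = s2x i j s := by
  unfold s2x
  split_ifs with e
  · subst e
    simp [rt_long (φ := RingHom.id K) (fun _ => rfl) h, ho.add_one.neg_one_pow]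
  · exact rt_short (fun _ => rfl) h e (s2_ne ho i) (s2_ne ho j) g

theorem s2rp_x (h3 : (3 : K) = 0) {i j : Fin (r + 1)} (h : i ≠ j) :
    S2Rp (s2x i j (1 : K)) (s2xd r i j) := by
  have e : j = i.rev ↔ (i : ℕ) + j = r := by rw [Fin.ext_iff, Fin.val_rev]; omega
  have p := s2rp_el h3 h false
  have q := s2rp_el h3 (i := j.rev) (j := i.rev) (fun e => h (Fin.rev_injective e).symm)
    (((i : ℕ) + j) % 2 == 0)
  simp only [s2x, s2xd, e]
  split_ifs
  · exact p
  · convert p.mul h3 q using 3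
    · simp
    · rcases Nat.even_or_odd ((i : ℕ) + j) with t | t
      · simp [t.neg_one_pow, Nat.even_iff.1 t]
      · simp [t.neg_one_pow, Nat.odd_iff.1 t]
    · simp only [Fin.val_rev, Nat.reduceSubDiff]
    · simp only [Fin.val_rev, Nat.reduceSubDiff]

theorem s2_rt3 [Finite K] (h : Nat.card K = 3) (ho : Odd r) {H : Subgroup (GL (Fin (r + 1)) K)}
    {i j : Fin (r + 1)} (n : i ≠ j) (m : s2x i j 1 ∈ H) : rt (RingHom.id K) i j ⊆ H := by
  intro g hg
  obtain ⟨s, rfl⟩ := (s2x_rt ho n g).1 hg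
  have := Fintype.ofFinite K
  have e := FiniteField.pow_card s
  rw [← Nat.card_eq_fintype_card, h] at e
  have : s * (s - 1) * (s + 1) = 0 := by linear_combination e
  rcases mul_eq_zero.1 this with t | t
  · rcases mul_eq_zero.1 t with rfl | t
    · simp only [s2x, el_zero, mul_zero, mul_one, ite_self, SetLike.mem_coe, one_mem]
    · rwa [sub_eq_zero.1 t]
  · suffices s2x i j (-1 : K) = (s2x i j 1)⁻¹ by
      rw [eq_neg_of_add_eq_zero_left t, this]; exact inv_mem m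
    unfold s2x
    split_ifs
    · exact el_neg _ _ _
    · rw [mul_neg, el_neg, el_neg, _root_.mul_inv_rev,
        (el_comm (s2_ne ho j) (s2_ne ho i).symm _ _).inv_inv.eq]

theorem s2_three [Finite K] (h : Nat.card K = 3) (hr : 5 ≤ r) (ho : Odd r)
    {L s₁ s₂ : List (ℕ × ℕ)} (c : s2chk r L s₁ s₂ = true) :
    IsLeast {n | Good (chev (CartanMatrix.A r) Fin.revPerm (RingHom.id K)) n} 3 := by
  have h3 : (3 : K) = 0 := by
    have := Fintype.ofFinite K
    have e := FiniteField.cast_card_eq_zero K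
    rw [← Nat.card_eq_fintype_card, h] at e
    exact_mod_cast e
  have cl : ∀ H : Subgroup (GL (Fin (r + 1)) K), ∀ A B, (∃ g ∈ H, S2Rp g A) →
      (∃ g ∈ H, S2Rp g B) → ∃ g ∈ H, S2Rp g (s2mm A B) :=
    fun H A B ⟨g, m, p⟩ ⟨g', m', p'⟩ => ⟨_, mul_mem m m', p.mul h3 p'⟩
  rw [s2chk, Bool.and_eq_true, List.all_eq_true] at c
  obtain ⟨c0, c⟩ := c
  obtain ⟨R, hR, c⟩ := s2run_ok (P := fun A => ∃ g ∈ sug r (RingHom.id K), S2Rp g A)
    ⟨1, one_mem _, s2rp_one h3⟩ (cl _) s₁ (fun A m => by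
      obtain ⟨p, m', rfl⟩ := List.mem_map.1 m
      obtain ⟨p1, p2, p3⟩ := of_decide_eq_true (c0 p m')
      have n : (⟨p.1, by omega⟩ : Fin (r + 1)) ≠ ⟨p.2, by omega⟩ := by simpa using p3
      exact ⟨_, rt_mem ((s2x_rt ho n _).2 ⟨1, rfl⟩), s2rp_x h3 n⟩) c
  split at c
  swap
  · exact absurd c (by simp)
  simp only [List.forall_mem_cons] at hR
  obtain ⟨⟨a, ma, pa⟩, ⟨b, mb, pb⟩, ⟨d, md, pd⟩, ⟨g, mg, pg⟩, ⟨g', mg', pg'⟩, -⟩ := hR
  simp only [Bool.and_eq_true, beq_iff_eq] at c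
  obtain ⟨⟨⟨⟨c1, c2⟩, c3⟩, c4⟩, c5⟩ := c
  have aa : Sc (a * a) := ⟨-1, by
    ext i j
    have := (s2rp_one (r := r) h3).2 i j
    have l : (j : ℕ) < (s2one r).length := by simpa [s2one, s2eb] using j.2
    rw [List.getD_eq_getElem _ _ l, Units.val_one] at this
    rw [(pa.mul h3 pa).2, c1, List.getD_eq_getElem _ _ (by simpa using l), List.getElem_map,
      Matrix.smul_apply, this]
    simp [s2v]⟩
  refine goodSU (by omega) (fun _ => rfl) (fun e => absurd e (Nat.not_even_iff_odd.2 ho))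
    (natb1_ns5 hr fun _ => rfl) ma mb md mg mg' aa
    (sc_of_eq (by rw [(pg.mul h3 pa).eq (pb.mul h3 pg) c2, mul_inv_cancel_right]))
    (sc_of_eq (by rw [(pg'.mul h3 pa).eq (pd.mul h3 pg') c3, mul_inv_cancel_right])) ?_
    fun H _ m1 m2 m3 i => ?_
  · rw [(pa.mul h3 pb).eq ((pa.mul h3 pa).mul h3 (pb.mul h3 pa)) c4]
    simpa [mul_assoc] using aa.inv.conj (b * a)⁻¹
  obtain ⟨R, hR, c⟩ := s2run_ok (P := fun A => ∃ g ∈ H, S2Rp g A) ⟨1, one_mem _, s2rp_one h3⟩
    (cl _) s₂ (by simpa only [List.mem_cons, List.not_mem_nil, or_false, forall_eq_or_imp, forall_eq] using ⟨⟨a, m1, pa⟩, ⟨b, m2, pb⟩, d, m3, pd⟩) c5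
  have k : ∀ i j : Fin (r + 1), i ≠ j → (R.elem (s2xd r i j) || R.elem (s2xd r (r - j) (r - i))) →
      rt (RingHom.id K) i j ⊆ H := fun i j n e => by
    have k : ∀ i j : Fin (r + 1), i ≠ j → s2xd r i j ∈ R → rt (RingHom.id K) i j ⊆ H :=
      fun i j n e => by
        obtain ⟨g, m, p⟩ := hR _ e
        exact s2_rt3 h ho n (p.eq (s2rp_x h3 n) rfl ▸ m)
    simp only [Bool.or_eq_true, List.elem_iff] at e
    rcases e with e | e
    · exact k i j n e
    · rw [← rt_rev]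
      exact k _ _ (fun t => n (Fin.rev_injective t).symm) (by simpa only [Fin.val_rev, Nat.reduceSubDiff] using e)
  have c' := List.all_eq_true.1 c i (List.mem_range.2 i.2)
  rw [Bool.and_eq_true] at c'
  exact ⟨k _ _ (Fin.castSucc_lt_succ).ne c'.1, k _ _ (Fin.castSucc_lt_succ).ne' c'.2⟩

theorem s2_c5 : s2chk 5
    [(0,5), (1,4), (2,3), (3,2), (4,1), (5,0), (0,1), (1,2), (1,0), (2,1)]
    [(0,0), (0,6), (0,1), (7,7), (5,0), (0,6), (3,0), (6,8), (11,11), (11,0), (0,12), (4,0),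
    (4,14), (0,0), (1,2), (0,1), (21,21), (23,23), (25,25), (26,24), (0,26), (0,26), (5,4),
    (0,6), (0,5), (3,13), (0,1), (5,999), (15,999), (2,999), (14,999), (19,999)]
    [(0,0), (0,1), (1,3), (2,5), (4,5), (0,7), (7,8), (7,9), (2,1), (0,1), (0,0), (0,0), (2,0),
    (0,0), (14,1), (0,13), (0,0), (18,4), (0,15), (5,0), (0,7), (23,0), (0,18), (23,0), (0,22),
    (0,0), (10,5), (0,10), (29,0), (0,26), (30,0), (0,29), (0,0), (35,1), (0,30), (35,0),
    (0,34), (0,0), (24,10), (0,26), (42,0), (0,37), (42,0), (0,41), (0,0), (19,10), (0,16),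
    (24,14), (0,10), (32,17), (0,8), (37,7), (0,22)] = true := by
  decide +kernel

theorem s2_c7 : s2chk 7
    [(0,7), (1,6), (2,5), (3,4), (4,3), (5,2), (6,1), (7,0), (0,1), (1,2), (2,3), (1,0), (2,1),
    (3,2)]
    [(7,7), (1,0), (0,2), (9,9), (5,0), (0,6), (3,0), (7,8), (13,13), (11,0), (0,12), (4,0),
    (4,14), (17,17), (17,0), (0,18), (4,0), (4,20), (0,0), (1,2), (0,1), (24,24), (30,30),
    (33,33), (33,33), (34,35), (0,31), (0,35), (0,31), (7,6), (0,21), (0,7), (0,7), (4,16),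
    (0,1), (6,999), (18,999), (2,999), (17,999), (22,999)]
    [(0,0), (0,1), (1,3), (2,5), (4,5), (0,7), (7,8), (7,9), (2,1), (0,1), (0,0), (0,0), (0,0),
    (0,0), (2,0), (12,13), (1,1), (12,2), (0,2), (21,0), (0,16), (4,0), (0,7), (0,0), (24,1),
    (0,23), (0,0), (29,1), (0,24), (6,0), (0,6), (0,0), (32,1), (0,31), (0,0), (0,14), (0,2),
    (22,0), (0,21), (39,0), (0,38), (26,2), (0,25), (45,0), (0,40), (13,0), (0,15), (0,0),
    (48,1), (0,47), (0,0), (4,14), (0,4), (36,0), (0,39), (55,0), (0,54), (59,0), (0,54),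
    (59,0), (0,58), (0,0), (0,9), (0,2), (49,0), (0,48), (0,0), (67,1), (0,66), (0,0), (3,9),
    (0,16), (2,15), (0,14), (23,17), (0,34), (28,37), (0,22), (43,39), (0,56), (48,54), (0,40)] = true := by
  decide +kernel

theorem s2_c11 : s2chk 11
    [(0,11), (1,10), (2,9), (3,8), (4,7), (5,6), (6,5), (7,4), (8,3), (9,2), (10,1), (11,0),
    (0,1), (1,2), (2,3), (3,4), (4,5), (1,0), (2,1), (3,2), (4,3), (5,4)]
    [(11,11), (1,0), (0,2), (13,13), (5,0), (0,6), (3,0), (7,8), (10,10), (0,18), (0,1), (4,0),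
    (4,3), (16,16), (0,22), (0,1), (4,0), (4,3), (25,25), (23,0), (0,24), (4,0), (4,26),
    (29,29), (29,0), (0,30), (4,0), (4,32), (0,0), (1,2), (0,1), (32,32), (44,44), (52,52),
    (54,54), (51,51), (54,54), (49,39), (0,56), (0,41), (0,56), (0,61), (0,61), (0,55), (0,45),
    (13,12), (0,12), (0,12), (0,12), (0,40), (0,13), (0,42), (0,19), (8,26), (0,1), (10,999),
    (28,999), (2,999), (27,999), (32,999)]
    [(0,0), (0,1), (1,3), (2,5), (4,5), (0,7), (7,8), (7,9), (2,1), (0,2), (0,2), (0,3), (0,0),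
    (0,0), (0,0), (0,0), (0,0), (2,0), (0,0), (21,1), (0,16), (2,0), (0,4), (24,0), (0,21),
    (27,0), (0,22), (8,0), (0,10), (30,0), (0,27), (33,0), (0,28), (34,0), (0,31), (0,0),
    (36,1), (0,35), (3,7), (0,3), (42,0), (0,37), (0,0), (43,1), (0,42), (0,0), (1,15), (0,1),
    (0,0), (49,1), (0,48), (0,0), (54,14), (0,49), (5,0), (0,7), (57,0), (0,54), (0,0), (59,1),
    (0,58), (10,7), (0,10), (64,0), (0,61), (0,0), (66,1), (0,65), (0,0), (71,4), (0,66), (0,0),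
    (72,1), (0,71), (0,0), (57,4), (0,57), (11,0), (0,13), (61,0), (0,61), (0,0), (82,1),
    (0,81), (36,16), (0,36), (88,0), (0,83), (6,0), (0,8), (16,0), (0,16), (0,0), (93,1),
    (0,92), (0,0), (97,6), (0,94), (5,0), (0,7), (0,0), (101,1), (0,100), (0,0), (106,6),
    (0,101), (6,0), (0,6), (5,0), (0,5), (110,0), (0,109), (0,0), (0,7), (0,2), (116,0),
    (0,113), (0,0), (118,1), (0,117), (0,0), (9,3), (0,18), (13,22), (0,3), (29,25), (0,52),
    (35,55), (0,24), (48,57), (0,64), (47,62), (0,57), (81,65), (0,73), (87,76), (0,70),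
    (94,79), (0,103), (93,101), (0,79)] = true := by
  decide +kernel

/-- Block S2. -/
theorem tSo [Finite K] (h : (2 : K) ≠ 0) {r : ℕ} (hr : r = 5 ∨ r = 7 ∨ r = 11) :
    IsLeast {n | Good (chev (CartanMatrix.A r) Fin.revPerm (RingHom.id K)) n} 3 := by
  by_cases h3 : Nat.card K = 3
  · rcases hr with rfl | rfl | rfl
    exacts [s2_three h3 le_rfl (by decide) s2_c5, s2_three h3 (by decide) (by decide) s2_c7,
      s2_three h3 (by decide) (by decide) s2_c11]
  · exact tSo5 h h3 hr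

end Pool.Agent.MP_c78e8e_al.H75

end
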