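import Pool.Agent.MP_c78e8e_al.Mg.Sg_Mon
import Pool.Agent.MP_c78e8e_al.Sg.Sl2
import Pool.Agent.MP_c78e8e_al.Mg.Sg_Ort
import Pool.Agent.MP_c78e8e_al.Mg.Sg_L

attribute [-instance] MonTypeEquivalenceMon.monMonoid UniformSpace.toTopologicalSpace
  instCharZeroOfIsSemireal NonUnitalRingHomClass.toMulHomClass FloorSemiring.instCharZero
  Fintype.decidableForallFintype IdemSemiring.toSemiring littleWedderburn RKHS.instFunLike
  CommMonTypeEquivalenceCommMon.commMonCommMonoid SubsemiringClass.toCommSemiring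
  SetLike.GradeZero.instSemiring RingConeClass.toSubsemiringClass
  NonUnitalAlgSemiHomClass.toMulHomClass instCoeTCOfCoe RCLike.charZero_rclike
  SemilatticeInf.toPartialOrder NormedRing.toRing CommGrpTypeEquivalenceCommGrp.commGrpCommGroup
  SetLike.GradeZero.instRing SetLike.GradeZero.instMonoid SetLike.GradeZero.instCommSemiring
  MonoidWithZero.toMulZeroOneClass ContinuousMonoidHom.instCoeOutOfMonoidHomClassOfContinuousMapClass
  SubringClass.toSubsemiringClass instCommGroupOfIsSimpleGroupOfIsNilpotent NumberField.to_charZero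
  NonAssocSemiring.toMulZeroOneClass instCoeOutOfCoeFun MonoidWithZero.toSemigroupWithZero
  Semiring.toNonUnitalSemiring NormMulClass.toNoZeroDivisors NonUnitalRing.toNonUnitalSemiring
  NormedCommRing.toCommRing NonUnitalNormedRing.toNormedAddCommGroup Units.instPartialOrderUnits
  IsStrictOrderedRing.toCharZero Finset.decidableDforallFinset BooleanRing.toRing
  SeminormedRing.toRing Multiset.decidableDforallMultiset AddCommMonoidWithOne.toAddMonoidWithOne
  NormedField.toField Vector.instDecidableForallForallMemOfDecidablePred EuclideanDomain.toCommRing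
  Group.IsPerfect.subsingleton_of_isMulCommutative NonUnitalRing.toNonUnitalNonAssocRing
  IsStrictOrderedRing.noZeroDivisors SeminormedCommRing.toCommRing
  Array.instDecidableForallForallMemOfDecidablePred Option.decidableForallMem
  NonUnitalNormedCommRing.toNonUnitalCommRing GroupConeClass.toSubmonoidClass Int.decidableLTLE
  CompletePartialOrder.toPartialOrder LieAdmissibleRing.toNonUnitalNonAssocRing
  CommMonoidWithZero.toCommMonoid GroupWithZero.toDivisionMonoid ESeminormedCommMonoid.toCommMonoid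
  instCoeTOfCoeDep NonUnitalSeminormedCommRing.toNonUnitalCommRing Int.decidableLELE
  IdemCommSemiring.toCommSemiring NeZero.charZero_one SubsemiringClass.toSubmonoidClass
  IsometryClass.instCoeOutIsometryEquiv Int.decidableLTLT AddQuantale.instAddLeftMono
  Int.decidableLELT

section

namespace Pool.Agent.MP_c78e8e_al.H75

open Subgroup Matrix

/-- The number whose binary digits below `n` are given by `f`. -/
def s3bits : ℕ → (ℕ → Bool) → ℕ
  | 0, _ => 0
  | n + 1, f => Nat.bit (f 0) (s3bits n fun j => f (j + 1))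

theorem s3bits_test : ∀ (n : ℕ) (f : ℕ → Bool) (j : ℕ), j < n → (s3bits n f).testBit j = f j
  | n + 1, f, 0, _ => by simp [s3bits]
  | n + 1, f, j + 1, h => by
    rw [s3bits, Nat.testBit_bit_succ, s3bits_test n _ j (by omega)]

/-- Matrices over the field with two elements are lists of rows. -/
def s3of (n : ℕ) (f : ℕ → ℕ → Bool) : List ℕ := (List.range n).map fun i => s3bits n (f i)

/-- An entry. -/
def s3at (A : List ℕ) (i j : ℕ) : Bool := (A.getD i 0).testBit j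

/-- Row times matrix. -/
def s3row : ℕ → ℕ → List ℕ → ℕ
  | 0, _, _ => 0
  | n + 1, a, B => (bif a.testBit 0 then B.headD 0 else 0) ^^^ s3row n (a / 2) B.tail

/-- Product. -/
def s3mul (n : ℕ) (A B : List ℕ) : List ℕ := A.map fun a => s3row n a B

/-- Identity. -/
def s3one (n : ℕ) : List ℕ := s3of n fun i j => i == j

/-- A straight line program; the operands are counted from the most recent entry. -/
def s3run (n : ℕ) : List (ℕ × ℕ) → List (List ℕ) → List (List ℕ)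
  | [], L => L
  | p :: P, L => s3run n P (s3mul n (L.getD p.1 (s3one n)) (L.getD p.2 (s3one n)) :: L)

/-- The nilpotent part of a root element. -/
def s3M (n i j : ℕ) : List ℕ :=
  s3of n fun a b => a == i && b == j || a + j + 1 == n && b + i + 1 == n

/-- One plus a matrix with zero diagonal. -/
def s3u (n : ℕ) (A : List ℕ) : List ℕ := s3of n fun a b => a == b || s3at A a b

/-- The Gram matrix. -/
def s3J (n : ℕ) : List ℕ := s3of n fun a b => a + b + 1 == n

/-- The matrix preserves the form. -/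
def s3sp (n : ℕ) (A : List ℕ) : Prop :=
  s3mul n (s3mul n A (s3J n)) (s3of n fun i j => s3at A j i) = s3J n

/-- The relation `g * A = B * g`. -/
def s3c (n : ℕ) (g A B : List ℕ) : Prop := s3mul n g A = s3mul n B g

/-- The weights of the torus. -/
def s3w (n i : ℕ) : ℤ := if i = 0 then 1 else if i + 1 = n then -1 else 0

/-- The matrix centralises or inverts the torus. -/
def s3h (n : ℕ) (e : ℤ) (A : List ℕ) : Prop :=
  ∀ i < n, ∀ j < n, s3at A i j = true → s3w n j = e * s3w n i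

/-- The source root for a simple root. -/
def s3src (n i : ℕ) : List ℕ := s3M n 0 (if 2 * i + 2 = n then n - 1 else 1)

/-- The output of the program contains two root elements and conjugating elements. -/
def s3end (n : ℕ) (L : List (List ℕ)) (xs xl : ℕ) (up dn : List ℕ) : Prop :=
  L.getD xs (s3one n) = s3u n (s3M n 0 1) ∧ L.getD xl (s3one n) = s3u n (s3M n 0 (n - 1)) ∧
  ∀ i < n - 1, s3c n (L.getD (up.getD i 0) (s3one n)) (s3src n i) (s3M n i (i + 1)) ∧
    s3c n (L.getD (dn.getD i 0) (s3one n)) (s3src n i) (s3M n (i + 1) i)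

variable {r : ℕ} {K : Type} [Field K]

variable (r K) in
/-- Decoding. -/
def s3d (A : List ℕ) : Matrix (Fin (r + 1)) (Fin (r + 1)) K :=
  of fun i j => if s3at A i j then 1 else 0

theorem s3at_of {n : ℕ} (f : ℕ → ℕ → Bool) {i j : ℕ} (hi : i < n) (hj : j < n) :
    s3at (s3of n f) i j = f i j := by
  simp [s3at, s3of, List.getD_eq_getElem?_getD, hi, s3bits_test n _ j hj]

theorem s3d_of (f : ℕ → ℕ → Bool) (i j : Fin (r + 1)) :
    s3d r K (s3of (r + 1) f) i j = if f i j then 1 else 0 := by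
  rw [s3d, of_apply, s3at_of f i.2 j.2]

theorem s3d_one : s3d r K (s3one (r + 1)) = 1 := by
  ext i j
  simp [s3one, s3d_of, one_apply, Fin.ext_iff]

theorem s3row_test (h : (2 : K) = 0) (j : ℕ) : ∀ (n a : ℕ) (B : List ℕ),
    (if (s3row n a B).testBit j then 1 else 0 : K) = ∑ k ∈ Finset.range n,
      (if a.testBit k then 1 else 0 : K) * if s3at B k j then 1 else 0
  | 0, a, B => by simp [s3row]
  | n + 1, a, B => by
    have e : ∀ k, s3at B.tail k j = s3at B (k + 1) j := fun k => by cases B <;> simp only [s3at, List.tail_nil, List.getD_eq_getElem?_getD, List.length_nil, not_lt_zero, not_false_eq_true, getElem?_neg, Option.getD_none, Nat.zero_testBit, List.tail_cons, List.getElem?_cons_succ]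
    have e0 : (B.headD 0).testBit j = s3at B 0 j := by cases B <;> simp [s3at]
    rw [Finset.sum_range_succ']
    simp only [← Nat.testBit_div_two, ← e]
    rw [← s3row_test h j n, s3row, Nat.testBit_xor]
    cases a.testBit 0
    · simp
    · rw [cond_true, e0]
      cases s3at B 0 j <;> cases (s3row n (a / 2) B.tail).testBit j <;> simp
      linear_combination -h

theorem s3d_mul (h : (2 : K) = 0) (A B : List ℕ) :
    s3d r K (s3mul (r + 1) A B) = s3d r K A * s3d r K B := by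
  have z : ∀ n B, s3row n 0 B = 0 := fun n => by
    induction n with
    | zero => exact fun _ => rfl
    | succ n ih => exact fun B => by simp [s3row, ih]
  ext i j
  have : (s3mul (r + 1) A B).getD i 0 = s3row (r + 1) (A.getD i 0) B := by
    rw [s3mul, ← List.getD_map _ _ fun a => s3row (r + 1) a B, z]
  rw [mul_apply, s3d, of_apply, s3at, this, s3row_test h, Finset.sum_range]
  rfl

/-- The decoded matrix lies in `H`. -/
def S3In (H : Subgroup (GL (Fin (r + 1)) K)) (A : List ℕ) : Prop := ∃ g ∈ H, g.1 = s3d r K A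

theorem s3_get {H : Subgroup (GL (Fin (r + 1)) K)} {L : List (List ℕ)} (hL : ∀ A ∈ L, S3In H A)
    (i : ℕ) : S3In H (L.getD i (s3one (r + 1))) := by
  rw [List.getD_eq_getElem?_getD]
  cases e : L[i]? with
  | none => exact ⟨1, one_mem _, s3d_one.symm⟩
  | some A => exact hL A (List.mem_of_getElem? e)

theorem s3_run (h : (2 : K) = 0) {H : Subgroup (GL (Fin (r + 1)) K)} :
    ∀ (P : List (ℕ × ℕ)) (L : List (List ℕ)), (∀ A ∈ L, S3In H A) →
      ∀ A ∈ s3run (r + 1) P L, S3In H A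
  | [], _, hL => hL
  | p :: P, L, hL => s3_run h P _ fun A hA => by
    rcases List.mem_cons.1 hA with rfl | hA
    · obtain ⟨g, m, e⟩ := s3_get hL p.1
      obtain ⟨g', m', e'⟩ := s3_get hL p.2
      exact ⟨g * g', mul_mem m m', by rw [s3d_mul h, ← e, ← e', Units.val_mul]⟩
    · exact hL A hA

theorem s3_neg (h : (2 : K) = 0) (s : K) : -s = s := by linear_combination -s * h

theorem s3_pw (h : (2 : K) = 0) (n : ℕ) : (-1 : K) ^ n = 1 := by rw [s3_neg h, one_pow]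

theorem s3_sp [Finite K] (h : (2 : K) = 0) (hr : 3 ≤ r) (od : ¬ Even r) {A : List ℕ}
    (c : s3sp (r + 1) A) : S3In (sug r (RingHom.id K)) A := by
  have hJ : s3d r K (s3J (r + 1)) = Jm r K := by
    ext i j
    have := i.2
    simp only [s3J, s3d_of, Jm, of_apply, s3_pw h, beq_iff_eq, Fin.ext_iff, Fin.val_rev]
    exact if_congr (by omega) rfl rfl
  have ht : s3d r K (s3of (r + 1) fun i j => s3at A j i) = (s3d r K A)ᵀ := by
    ext i j
    rw [s3d_of]
    rfl
  have e := congrArg (s3d r K) c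
  rw [s3d_mul h, s3d_mul h, hJ, ht] at e
  have JJ : Jm r K * Jm r K = 1 := by
    ext i j
    rw [mul_apply, Finset.sum_eq_single i.rev (fun k _ n => by simp only [Jm, of_apply, n, ↓ reduceIte, mul_ite, zero_mul, mul_zero, ite_self]) (by simp)]
    simp [Jm, s3_pw h, one_apply, eq_comm]
  have d := congrArg det e
  have dJ : (Jm r K).det ≠ 0 := left_ne_zero_of_mul_eq_one (by rw [← det_mul, JJ, det_one])
  rw [det_mul, det_mul, det_transpose, mul_right_comm, mul_eq_right₀ dJ, mul_self_eq_one_iff,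
    s3_neg h, or_self] at d
  exact ⟨GeneralLinearGroup.mkOfDetNeZero _ (d.trans_ne one_ne_zero), mem_sug hr (fun _ => rfl)
    (fun e => absurd e od) e d, rfl⟩

/-- All matrices `1 + s • M` lie in `H`. -/
def S3L (H : Subgroup (GL (Fin (r + 1)) K)) (M : List ℕ) : Prop :=
  ∀ (s : K) (g : GL (Fin (r + 1)) K), g.1 = 1 + s • s3d r K M → g ∈ H

theorem S3L.conj (h : (2 : K) = 0) {H : Subgroup (GL (Fin (r + 1)) K)} {g M M' : List ℕ}
    (p : S3L H M) (m : S3In H g) (c : s3c (r + 1) g M M') : S3L H M' := fun s y hy => by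
  obtain ⟨k, m, e⟩ := m
  have c := congrArg (s3d r K) c
  rw [s3d_mul h, s3d_mul h, ← e] at c
  have := p s (k⁻¹ * y * k) (by
    rw [Units.val_mul, Units.val_mul, hy, mul_assoc, add_mul, smul_mul_assoc, ← c, mul_add,
      mul_smul_comm, one_mul, Units.inv_mul, Units.inv_mul_cancel_left])
  rwa [mul_mem_cancel_right m, mul_mem_cancel_left (inv_mem m)] at this

theorem s3d_M (i j a b : Fin (r + 1)) : s3d r K (s3M (r + 1) i j) a b =
    if a = i ∧ b = j ∨ a = j.rev ∧ b = i.rev then 1 else 0 := by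
  have := i.2
  have := j.2
  simp only [s3M, s3d_of, Bool.or_eq_true, Bool.and_eq_true, beq_iff_eq, Fin.ext_iff, Fin.val_rev]
  exact if_congr (by omega) rfl rfl

theorem s3_el {i : Fin (r + 1)} (hi : i ≠ i.rev) (s : K) :
    (el i i.rev s).1 = 1 + s • s3d r K (s3M (r + 1) i i.rev) := by
  rw [el_val hi]
  ext a b
  rw [Matrix.add_apply, Matrix.add_apply, Matrix.smul_apply, s3d_M]
  simp [single_apply, eq_comm]

theorem s3_eo (h : (2 : K) = 0) {i j : Fin (r + 1)} (n : i ≠ j) (n' : j ≠ i.rev) (hj : j ≠ j.rev)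
    (s : K) : (eo i j s).1 = 1 + s • s3d r K (s3M (r + 1) i j) := by
  rw [eo, s3_neg h, Units.val_mul, el_val n, el_val (Fin.rev_injective.ne n.symm), mul_add,
    mul_one, add_mul, one_mul, single_mul_single_of_ne _ _ _ _ hj, add_zero, add_assoc]
  ext a b
  simp only [Matrix.add_apply, Matrix.smul_apply, s3d_M, single_apply, smul_eq_mul, eq_comm (a := a),
    eq_comm (a := b)]
  by_cases p : i = a ∧ j = b <;> by_cases q : j.rev = a ∧ i.rev = b
  · exact absurd (p.2.trans q.2.symm) n'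
  · rw [if_pos p, if_neg q, if_pos (Or.inl p), add_zero, mul_one]
  · rw [if_neg p, if_pos q, if_pos (Or.inr q), zero_add, mul_one]
  · rw [if_neg p, if_neg q, if_neg (not_or.2 ⟨p, q⟩), add_zero, mul_zero]

theorem s3_rt (h : (2 : K) = 0) (od : ¬ Even r) {H : Subgroup (GL (Fin (r + 1)) K)}
    {i j : Fin (r + 1)} (n : i ≠ j) (p : S3L H (s3M (r + 1) i j)) : rt (RingHom.id K) i j ⊆ H := by
  have hN : ∀ i : Fin (r + 1), i ≠ i.rev := fun i e => od ⟨i, by
    have := congrArg Fin.val e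
    have := i.2
    rw [Fin.val_rev] at *
    omega⟩
  intro g hg
  by_cases c : j = i.rev
  · subst c
    obtain ⟨s, -, rfl⟩ := (rt_long (fun _ => rfl) (hN i) g).1 hg
    exact p s _ (s3_el (hN i) s)
  · obtain ⟨s, rfl⟩ := (rt_short (fun _ => rfl) n c (hN i) (hN j) g).1 hg
    refine p s _ ?_
    rw [← s3_eo h n c (hN j), eo, s3_pw h, RingHom.id_apply, neg_one_mul]

theorem s3_end (h : (2 : K) = 0) (od : ¬ Even r) {H : Subgroup (GL (Fin (r + 1)) K)}
    {L : List (List ℕ)} (hL : ∀ A ∈ L, S3In H A) {xs xl : ℕ} {up dn : List ℕ}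
    (c : s3end (r + 1) L xs xl up dn) (p : ∀ j, j = 1 ∨ j = r →
      S3In H (s3u (r + 1) (s3M (r + 1) 0 j)) → S3L H (s3M (r + 1) 0 j)) (i : Fin r) :
    rt (RingHom.id K) i.castSucc i.succ ⊆ H ∧ rt (RingHom.id K) i.succ i.castSucc ⊆ H := by
  have q : S3L H (s3src (r + 1) i) := by
    rw [s3src]
    split_ifs
    · exact p _ (Or.inr rfl) (c.2.1 ▸ s3_get hL xl)
    · exact p _ (Or.inl rfl) (c.1 ▸ s3_get hL xs)
  exact ⟨s3_rt h od Fin.castSucc_lt_succ.ne (q.conj h (s3_get hL _) (c.2.2 i i.2).1),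
    s3_rt h od Fin.castSucc_lt_succ.ne' (q.conj h (s3_get hL _) (c.2.2 i i.2).2)⟩

theorem s3d_u {A : List ℕ} (z : ∀ i : Fin (r + 1), s3d r K A i i = 0) :
    s3d r K (s3u (r + 1) A) = 1 + s3d r K A := by
  ext i j
  rw [s3u, s3d_of, Matrix.add_apply, one_apply]
  by_cases e : i = j
  · simp [e, z]
  · simp [e, Fin.val_ne_of_ne e, s3d]

theorem s3_c (h : (2 : K) = 0) {g a b : GL (Fin (r + 1)) K} {G A B : List ℕ}
    (eg : g.1 = s3d r K G) (ea : a.1 = s3d r K A) (eb : b.1 = s3d r K B) (c : s3c (r + 1) G A B) :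
    g * a = b * g := by
  ext1
  rw [Units.val_mul, Units.val_mul, eg, ea, eb, ← s3d_mul h, ← s3d_mul h, c]

theorem s3_sq (h : (2 : K) = 0) {a : GL (Fin (r + 1)) K} {A : List ℕ} (ea : a.1 = s3d r K A)
    (c : s3mul (r + 1) A A = s3one (r + 1)) : a * a = 1 := by
  ext1
  rw [Units.val_mul, ea, ← s3d_mul h, c, s3d_one, Units.val_one]

/-- Certificate for the field with two elements. -/
def s3two (n : ℕ) (a b c g g' : List ℕ) (P : List (ℕ × ℕ)) (xs xl : ℕ) (up dn : List ℕ) : Prop :=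
  s3sp n a ∧ s3sp n b ∧ s3sp n c ∧ s3sp n g ∧ s3sp n g' ∧ s3mul n a a = s3one n ∧ s3c n g a b ∧
    s3c n g' a c ∧ s3c n a b b ∧ s3end n (s3run n P [c, b, a]) xs xl up dn

theorem s3_diag {j : ℕ} (hr : 5 ≤ r) (hj : j = 1 ∨ j = r) (i : Fin (r + 1)) :
    s3d r K (s3M (r + 1) 0 j) i i = 0 := by
  rw [s3M, s3d_of, if_neg]
  simp only [Bool.or_eq_true, Bool.and_eq_true, beq_iff_eq]
  omega

theorem s3_two [Finite K] (h : (2 : K) = 0) (hr : 5 ≤ r) (od : ¬ Even r) (k : ∀ s : K, s = 0 ∨ s = 1)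
    {A B C G G' : List ℕ} {P : List (ℕ × ℕ)} {xs xl : ℕ} {up dn : List ℕ}
    (c : s3two (r + 1) A B C G G' P xs xl up dn) :
    IsLeast {n | Good (chev (CartanMatrix.A r) Fin.revPerm (RingHom.id K)) n} 3 := by
  obtain ⟨c1, c2, c3, c4, c5, c6, c7, c8, c9, c0⟩ := c
  obtain ⟨a, ma, ea⟩ := s3_sp h (by omega) od c1
  obtain ⟨b, mb, eb⟩ := s3_sp h (by omega) od c2
  obtain ⟨c, mc, ec⟩ := s3_sp h (by omega) od c3
  obtain ⟨g, mg, eg⟩ := s3_sp h (by omega) od c4
  obtain ⟨g', mg', eg'⟩ := s3_sp h (by omega) od c5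
  refine goodSU (by omega) (fun _ => rfl) (fun e => absurd e od) (natb1_ns5 hr fun _ => rfl) ma mb mc
    mg mg' (s3_sq h ea c6 ▸ sc_one) (sc_of_eq (eq_mul_inv_of_mul_eq (s3_c h eg ea eb c7).symm))
    (sc_of_eq (eq_mul_inv_of_mul_eq (s3_c h eg' ea ec c8).symm)) (sc_of_eq (s3_c h ea eb eb c9))
    fun H _ ha hb hc => s3_end h od (s3_run h P _ ?_) c0 fun j hj ⟨x, m, e⟩ s y hy => ?_
  · simp only [List.mem_cons, List.not_mem_nil, or_false, forall_eq_or_imp, forall_eq]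
    exact ⟨⟨c, hc, ec⟩, ⟨b, hb, eb⟩, a, ha, ea⟩
  · rcases k s with rfl | rfl
    · rw [show y = 1 from Units.ext (by simpa using hy)]
      exact one_mem _
    · rwa [show y = x from Units.ext (by rw [hy, e, s3d_u (s3_diag hr hj), one_smul])]

/-- The torus. -/
def s3t : Kˣ →* GL (Fin (r + 1)) K :=
  MonoidHom.mk' (fun a => mon 1 fun i => a ^ s3w (r + 1) i) fun a b => by
    rw [← mon_one_mul]
    exact mon_congr (fun _ => rfl) fun i => mul_zpow _ _ _

theorem s3t_h {g : GL (Fin (r + 1)) K} {G : List ℕ} (eg : g.1 = s3d r K G) {e : ℤ}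
    (c : s3h (r + 1) e G) (a : Kˣ) : g * s3t a = s3t (a ^ e) * g := by
  ext i j
  have := mona_mul 1 (fun i => (a ^ e) ^ s3w (r + 1) i) g.1 i j
  rw [Units.val_mul, Units.val_mul]
  refine (mona_mul' ..).trans (Eq.trans ?_ this.symm)
  rw [eg, s3d, of_apply, of_apply, Equiv.Perm.one_apply]
  split_ifs with p
  · rw [c i i.2 j j.2 p, _root_.zpow_mul, mul_comm]
  · simp

/-- The rank one argument for a torus inverted by `d` and `c`. -/
theorem s3_core [Finite K] (h : (2 : K) = 0) {x : Kˣ} (x1 : (x : K) ≠ 1) (sp : Spn (x : K))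
    (τ : Kˣ →* GL (Fin (r + 1)) K) (X : K → GL (Fin (r + 1)) K)
    (hX : ∀ s t, X (s + t) = X s * X t) (tX : ∀ a s, τ a * X s * (τ a)⁻¹ = X (a * s))
    {d b c n : GL (Fin (r + 1)) K} (dd : d * d = 1) (bb : b * b = 1) (db : Commute b d)
    (td : ∀ a, d * τ a = τ a⁻¹ * d) (tc : ∀ a, c * τ a = τ a⁻¹ * c) (tb : ∀ a, Commute b (τ a))
    (bX : ∀ s, Commute b (X s)) (hn : n = X 1 * (d * X 1 * d⁻¹) * X 1)
    (tn : ∀ a, n * τ a = τ a⁻¹ * n) (nX : ∀ s, Commute (d * n) (X s)) {k : ℕ}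
    (dc : (d * c) ^ 2 ^ k = 1) :
    ∃ (S : GL (Fin (r + 1)) K) (l : Kˣ), (∀ N : Subgroup _, d ∈ N → (∀ s, X s ∈ N) → S ∈ N ∧ τ l ∈ N) ∧
      Sc ((d * (S * (b * n) * S⁻¹))⁻¹ * (S * (b * n) * S⁻¹ * d)) ∧
      ∀ H : Subgroup _, d ∈ H → S * (b * n) * S⁻¹ ∈ H → τ l * c * (τ l)⁻¹ ∈ H →
        X 1 ∈ H ∧ b ∈ H ∧ c ∈ H ∧ ∀ a, τ a ∈ H := by
  have di : d⁻¹ = d := inv_eq_of_mul_eq_one_right dd
  have tZ : ∀ a s, τ a * (d * X s * d⁻¹) * (τ a)⁻¹ = d * X ((a : K)⁻¹ * s) * d⁻¹ := fun a s => by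
    have := td a⁻¹
    rw [inv_inv] at this
    rw [← Units.val_inv_eq_inv_val, ← tX, eq_mul_inv_of_mul_eq this.symm]
    group
  have nt : ∀ t : Kˣ, X t * (d * X (t : K)⁻¹ * d⁻¹) * X t = τ (t ^ 2) * n := fun t => by
    have := tn t⁻¹
    rw [inv_inv, map_inv] at this
    rw [sq, map_mul, mul_assoc (τ t), ← this, hn, ← mul_one (t : K)⁻¹, ← tZ]
    conv_lhs => rw [← mul_one (t : K), ← tX]
    group
  have nZ : ∀ u, n * X u * n⁻¹ = d * X u * d⁻¹ := fun u => by
    conv_rhs => rw [← (nX u).mul_inv_cancel, ← mul_assoc, ← mul_assoc, ← mul_assoc, dd]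
    rw [_root_.mul_inv_rev, one_mul, mul_assoc _ _ d⁻¹, mul_assoc n⁻¹, di, dd, mul_one]
  obtain ⟨ψ, p, q⟩ := psi_ex X (fun s => d * X s * d⁻¹) hX (fun s t => by rw [hX]; group)
    (fun t u t0 => by
      lift t to Kˣ using t0.isUnit
      rw [nt, div_eq_inv_mul, ← Units.val_pow_eq_pow_val, ← tZ, ← nZ]
      group)
    (fun t u t0 u0 => by
      lift t to Kˣ using t0.isUnit
      lift u to Kˣ using u0.isUnit
      rw [← Units.val_mul, nt, nt, nt, ← hn, mul_pow, map_mul]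
      group)
  have pw : ψ mw = n := by rw [mw_eq, map_mul, map_mul, p, q, hn]
  have pd : ∀ a, ψ (mdg a) = τ (a ^ 2) := fun a => by
    rw [mdg_eq, map_mul, map_mul, map_mul, map_inv, p, q, nt, pw, mul_inv_cancel_right]
  have sq : ∀ a : Kˣ, ∃ b : Kˣ, b ^ 2 = a := fun a => by
    have : CharP K 2 := CharTwo.of_one_ne_zero_of_two_eq_zero one_ne_zero h
    obtain ⟨s, e⟩ := FiniteField.isSquare_of_char_two (ringChar.eq K 2) (a : K)
    exact ⟨Units.mk0 s fun z => a.ne_zero (by rw [e, z, mul_zero]), Units.ext (by simp [e, sq])⟩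
  have rt : ∀ m, ∃ l : Kˣ, l ^ 2 ^ m = x⁻¹ := fun m => by
    induction m with
    | zero => exact ⟨x⁻¹, pow_one _⟩
    | succ m ih =>
      obtain ⟨l, e⟩ := ih
      obtain ⟨l, rfl⟩ := sq l
      exact ⟨l, by rw [pow_succ', pow_mul, e]⟩
  obtain ⟨l, hl⟩ := rt (k + 1)
  have nm : ∀ (g : GL (Fin (r + 1)) K) (f : Kˣ → Kˣ), (∀ a, f (f a) = a) →
      (∀ a, g * τ a = τ (f a) * g) → g ∈ normalizer (τ.range : Set _) := fun g f ff e => by
    refine mem_normalizer_iff.2 fun y => ⟨?_, ?_⟩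
    · rintro ⟨a, rfl⟩
      exact ⟨f a, eq_mul_inv_of_mul_eq (e a).symm⟩
    · rintro ⟨a, e'⟩
      refine ⟨f a, mul_left_cancel (a := g) ?_⟩
      rw [e, ff, e', inv_mul_cancel_right]
  have tt : ∀ a b, Commute (τ a) (τ b) := fun a b => (Commute.all a b).map τ
  have bZ : ∀ s, Commute b (d * X s * d⁻¹) := fun s => (db.mul_right (bX s)).mul_right db.inv_right
  have bn : Commute b n := hn ▸ ((bX 1).mul_right (bZ 1)).mul_right (bX 1)
  have nn : n * n = 1 := by
    rw [← pw, ← map_mul, ← map_one ψ]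
    congr 1
    ext i j
    fin_cases i <;> fin_cases j <;> simp [mw, s3_neg h]
  have ad := act_anti (ψ := ψ) (g := d) one_ne_zero (fun s => by rw [p, q, one_mul]) fun s => by
    rw [p, q, div_one, ← mul_assoc, ← mul_assoc, dd, mul_assoc, di, dd, one_mul, mul_one]
  obtain ⟨S, hS⟩ := r1m ψ (T := τ.range) (τ := τ x) (d := d) (b := b) (mul_one 1)
    (sol_two h x.ne_zero x1 (neg_ne_zero.2 (inv_ne_zero one_ne_zero))) sp
    (by
      rintro _ ⟨a, rfl⟩ _ ⟨a', rfl⟩ _ -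
      rw [commutatorElement_eq_one_iff_commute.2 (tt a a')]
      exact Commute.one_left _)
    (pw ▸ nm n _ inv_inv tn) (fun a => le_normalizer ⟨_, (pd a).symm⟩) ⟨x, rfl⟩
    (act_diag x.ne_zero (fun s => by rw [p, p, tX]) fun s => by rw [q, q, tZ, div_eq_inv_mul])
    (nm d _ inv_inv td) ad (nm b id (fun _ => rfl) tb)
    (act_diag one_ne_zero (fun s => by rw [p, p, one_mul, (bX s).mul_inv_cancel]) fun s => by
      rw [q, q, div_one, (bZ s).mul_inv_cancel])
    (by rw [pw, bn.symm.mul_mul_mul_comm, bb, nn, one_mul]; exact sc_one)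
    (by rw [db.symm.mul_inv_cancel, bb]; exact sc_one)
  obtain ⟨h1, h2⟩ := hS _ rfl
  rw [pw] at h1 h2
  have all : ∀ N : Subgroup _, (∀ A, ψ A ∈ N) → ∀ a, τ a ∈ N := fun N m a => by
    obtain ⟨a, rfl⟩ := sq a
    exact pd a ▸ m _
  refine ⟨ψ S, l, fun N m1 m2 => ?_, h1, fun H m1 m2 m3 => ?_⟩
  · have := sl2_gen (ψ := ψ) (fun s => p s ▸ m2 s)
      fun s => q s ▸ mul_mem (mul_mem m1 (m2 s)) (inv_mem m1)
    exact ⟨this S, all N this l⟩
  · have e : d * (τ l * c * (τ l)⁻¹) = τ (l ^ 2)⁻¹ * (d * c) := by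
      rw [← map_inv, mul_assoc, tc, inv_inv, ← mul_assoc (τ l), ← map_mul, ← mul_assoc, td, _root_.sq,
        mul_assoc]
    have cm : Commute (τ (l ^ 2)⁻¹) (d * c) := by
      rw [Commute, SemiconjBy, mul_assoc d, tc, ← mul_assoc d, td, inv_inv, mul_assoc]
    have := pow_mem (mul_mem m1 m3) (2 ^ k)
    rw [e, cm.mul_pow, dc, mul_one, ← map_pow, inv_pow, ← pow_mul, ← pow_succ', hl, inv_inv] at this
    obtain ⟨k1, k2⟩ := h2 H this m1 m2
    have k3 := all H k1
    exact ⟨p 1 ▸ k1 _, k2, by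
      rwa [mul_mem_cancel_right (inv_mem (k3 l)), mul_mem_cancel_left (k3 l)] at m3, k3⟩

/-- Repeated squaring. -/
def s3sq (n : ℕ) : ℕ → List ℕ → List ℕ
  | 0, A => A
  | k + 1, A => s3sq n k (s3mul n A A)

theorem s3d_sq (h : (2 : K) = 0) : ∀ (k : ℕ) (A : List ℕ),
    s3d r K (s3sq (r + 1) k A) = s3d r K A ^ 2 ^ k
  | 0, A => (pow_one _).symm
  | k + 1, A => by rw [s3sq, s3d_sq h k, s3d_mul h, pow_succ', pow_mul, sq]

/-- The element `X 1`. -/
def s3x (n : ℕ) : List ℕ := s3mul n (s3u n (s3M n 0 (n - 2))) (s3u n (s3M n 0 (n - 1)))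

/-- The Weyl element. -/
def s3n (n : ℕ) (d : List ℕ) : List ℕ :=
  s3mul n (s3mul n (s3x n) (s3mul n (s3mul n d (s3x n)) d)) (s3x n)

/-- The matrix centralises all `X s`. -/
def s3z (n : ℕ) (g : List ℕ) : Prop :=
  s3c n g (s3M n 0 (n - 2)) (s3M n 0 (n - 2)) ∧ s3c n g (s3M n 0 (n - 1)) (s3M n 0 (n - 1))

/-- Certificate for the fields with more than two elements. -/
def s3big (n : ℕ) (d b c g g' : List ℕ) (P : List (ℕ × ℕ)) (xs xl : ℕ) (up dn : List ℕ) : Prop :=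
  s3sp n d ∧ s3sp n b ∧ s3sp n c ∧ s3sp n g ∧ s3sp n g' ∧ s3mul n d d = s3one n ∧
    s3mul n b b = s3one n ∧ s3c n b d d ∧ s3h n (-1) d ∧ s3h n (-1) c ∧ s3h n 1 b ∧
    s3h n (-1) (s3n n d) ∧ s3z n b ∧ s3z n (s3mul n d (s3n n d)) ∧
    s3sq n 4 (s3mul n d c) = s3one n ∧ s3c n g d (s3mul n b (s3n n d)) ∧ s3c n g' d c ∧
    s3end n (s3run n P [c, b, d, s3x n]) xs xl up dn

theorem s3_big [Finite K] (h : (2 : K) = 0) (hr : 5 ≤ r) (od : ¬ Even r) {x : Kˣ} (x1 : (x : K) ≠ 1)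
    (sp : Spn (x : K)) {D B C G G' : List ℕ} {P : List (ℕ × ℕ)} {xs xl : ℕ} {up dn : List ℕ}
    (c : s3big (r + 1) D B C G G' P xs xl up dn) :
    IsLeast {n | Good (chev (CartanMatrix.A r) Fin.revPerm (RingHom.id K)) n} 3 := by
  obtain ⟨c1, c2, c3, c4, c5, c6, c7, c8, c9, c10, c11, c12, c13, c14, c15, c16, c17, c0⟩ := c
  obtain ⟨d, md, ed⟩ := s3_sp h (by omega) od c1
  obtain ⟨b, mb, eb⟩ := s3_sp h (by omega) od c2
  obtain ⟨c, mc, ec⟩ := s3_sp h (by omega) od c3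
  obtain ⟨g, mg, eg⟩ := s3_sp h (by omega) od c4
  obtain ⟨g', mg', eg'⟩ := s3_sp h (by omega) od c5
  have ne : ∀ {i j : Fin (r + 1)}, (i : ℕ) ≠ j → i ≠ j := fun p e => p (congrArg _ e)
  have z : (0 : Fin (r + 1)) ≠ (0 : Fin (r + 1)).rev := ne (by simp; omega)
  have wl : s3w (r + 1) (0 : Fin (r + 1)).rev = -1 := by
    rw [s3w, if_neg (by simp; omega), if_pos (by simp)]
  have tl : ∀ (a : Kˣ) (s : K), s3t a * el 0 (0 : Fin (r + 1)).rev s * (s3t a)⁻¹ =
      el 0 (0 : Fin (r + 1)).rev (a ^ 2 * s) := fun a s => by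
    refine (mon_el ..).trans ?_
    rw [wl]
    simp [s3w, sq, mul_right_comm]
  have vl : ∀ s : K, (el 0 (0 : Fin (r + 1)).rev s).1 = 1 + s • s3d r K (s3M (r + 1) 0 r) :=
    fun s => by simpa using s3_el z s
  have key : ∀ j : Fin (r + 1), (j : ℕ) = 1 ∨ (j : ℕ) = r - 1 → (0 ≠ j ∧ j ≠ (0 : Fin (r + 1)).rev ∧
      j ≠ j.rev) ∧ ∀ (a : Kˣ) (s : K), s3t a * eo 0 j s * (s3t a)⁻¹ = eo 0 j (a * s) := fun j hj => by
    have w1 : s3w (r + 1) j = 0 := by rw [s3w, if_neg (by omega), if_neg (by omega)]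
    have w2 : s3w (r + 1) j.rev = 0 := by
      rw [s3w, Fin.val_rev, if_neg (by omega), if_neg (by omega)]
    refine ⟨⟨ne (by simp; omega), ne (by simp; omega), ne (by rw [Fin.val_rev]; omega)⟩,
      fun a s => (mon_eo rfl rfl ?_ _).trans ?_⟩
    · rw [w1, w2, wl]
      simp [s3w]
    · rw [w1]
      simp [s3w]
  obtain ⟨j, hj⟩ : ∃ j : Fin (r + 1), (j : ℕ) = r - 1 := ⟨⟨r - 1, by omega⟩, rfl⟩
  obtain ⟨⟨j0, j1, j2⟩, te⟩ := key j (Or.inr hj)
  have vo : ∀ s : K, (eo 0 j s).1 = 1 + s • s3d r K (s3M (r + 1) 0 (r - 1)) := fun s => by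
    rw [s3_eo h j0 j1 j2, hj, Fin.val_zero]
  have zz : ∀ {g : GL (Fin (r + 1)) K} {G}, g.1 = s3d r K G → s3z (r + 1) G → ∀ s,
      Commute g (eo 0 j s * el 0 (0 : Fin (r + 1)).rev (s ^ 2)) := fun {g G} e c s => by
    have c1 := congrArg (s3d r K) c.1
    have c2 := congrArg (s3d r K) c.2
    rw [s3d_mul h, s3d_mul h, ← e] at c1 c2
    refine Commute.mul_right (Units.ext ?_) (Units.ext ?_)
    · rw [Units.val_mul, Units.val_mul, vo]
      exact (Commute.one_right _).add_right (Commute.smul_right c1 s)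
    · rw [Units.val_mul, Units.val_mul, vl]
      exact (Commute.one_right _).add_right (Commute.smul_right c2 _)
  have ex : (eo 0 j (1 : K) * el 0 (0 : Fin (r + 1)).rev (1 ^ 2)).1 = s3d r K (s3x (r + 1)) := by
    rw [s3x, s3d_mul h, s3d_u, Nat.add_sub_cancel, s3d_u (s3_diag hr (Or.inr rfl)), Units.val_mul, vo, vl, one_pow,
      one_smul, one_smul]
    · rfl
    · intro i
      rw [s3M, s3d_of, if_neg]
      simp only [Bool.or_eq_true, Bool.and_eq_true, beq_iff_eq]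
      omega
  have dd := s3_sq h ed c6
  obtain ⟨n, hn⟩ : ∃ n, n = eo 0 j (1 : K) * el 0 (0 : Fin (r + 1)).rev (1 ^ 2) *
    (d * (eo 0 j 1 * el 0 (0 : Fin (r + 1)).rev (1 ^ 2)) * d⁻¹) *
    (eo 0 j 1 * el 0 (0 : Fin (r + 1)).rev (1 ^ 2)) := ⟨_, rfl⟩
  have en : n.1 = s3d r K (s3n (r + 1) D) := by
    simp only [s3n, s3d_mul h, ← ed, ← ex, hn, inv_eq_of_mul_eq_one_right dd, Units.val_mul]
  have mX : ∀ s : K, eo 0 j s * el 0 (0 : Fin (r + 1)).rev (s ^ 2) ∈ sug r (RingHom.id K) :=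
    fun s => mul_mem (rt_mem ((rt_short (fun _ => rfl) j0 j1 z j2 _).2 ⟨s, by
      rw [eo, s3_pw h, RingHom.id_apply, neg_one_mul]⟩))
      (rt_mem ((rt_long (fun _ => rfl) z _).2 ⟨_, by rw [s3_pw h, one_mul, RingHom.id_apply], rfl⟩))
  obtain ⟨S, l, h0, h1, h2⟩ := s3_core h x1 sp s3t
    (fun s => eo 0 j s * el 0 (0 : Fin (r + 1)).rev (s ^ 2)) (fun s t => by
      rw [eo_add j1 z j2, show (s + t) ^ 2 = s ^ 2 + t ^ 2 by linear_combination s * t * h, el_add]
      exact ((el_comm j0.symm z.symm _ _).mul_left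
        (el_comm z.symm (Fin.rev_injective.ne j0) _ _)).mul_mul_mul_comm _ _)
    (fun a s => by
      rw [← te, mul_pow, ← tl]
      group)
    dd (s3_sq h eb c7) (s3_c h eb ed ed c8) (fun a => by simpa using s3t_h ed c9 a)
    (fun a => by simpa using s3t_h ec c10 a) (fun a => by simpa only [commute_iff_eq, zpow_ofNat, pow_one] using s3t_h eb c11 a) (zz eb c13) hn
    (fun a => by simpa using s3t_h en c12 a)
    (zz (by rw [s3d_mul h, ← ed, ← en, Units.val_mul]) c14) (k := 4) (Units.ext (by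
      rw [Units.val_pow_eq_pow_val, Units.val_mul, ed, ec, ← s3d_mul h, ← s3d_sq h, c15, s3d_one,
        Units.val_one]))
  obtain ⟨mS, ml⟩ := h0 _ md mX
  have e1 := s3_c h eg ed (b := b * n) (by rw [s3d_mul h, ← eb, ← en, Units.val_mul]) c16
  have e2 := s3_c h eg' ed ec c17
  refine goodSU (by omega) (fun _ => rfl) (fun e => absurd e od) (natb1_ns5 hr fun _ => rfl) md
    (mul_mem (mul_mem mS (mul_mem mb (hn ▸ mul_mem (mul_mem (mX 1) (mul_mem (mul_mem md (mX 1))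
      (inv_mem md))) (mX 1)))) (inv_mem mS)) (mul_mem (mul_mem ml mc) (inv_mem ml)) (mul_mem mS mg)
    (mul_mem ml mg') (dd ▸ sc_one) (sc_of_eq (by rw [eq_mul_inv_of_mul_eq e1.symm]; group))
    (sc_of_eq (by rw [eq_mul_inv_of_mul_eq e2.symm]; group)) h1 fun H _ ha hb hc => ?_
  obtain ⟨k1, k2, k3, k4⟩ := h2 H ha hb hc
  refine s3_end h od (s3_run h P _ ?_) c0 fun i hi ⟨y, m, e⟩ s w hw => ?_
  · simp only [List.mem_cons, List.not_mem_nil, or_false, forall_eq_or_imp, forall_eq]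
    exact ⟨⟨c, k3, ec⟩, ⟨b, k2, eb⟩, ⟨d, ha, ed⟩, _, k1, ex⟩
  · rw [s3d_u (s3_diag hr hi)] at e
    by_cases s0 : s = 0
    · rw [show w = 1 from Units.ext (by simpa [s0] using hw)]
      exact one_mem _
    rcases hi with rfl | rfl
    · obtain ⟨⟨i0, i1, i2⟩, ti⟩ := key ⟨1, by omega⟩ (Or.inl rfl)
      have := mul_mem (mul_mem (k4 (Units.mk0 s s0)) m) (inv_mem (k4 (Units.mk0 s s0)))
      rwa [show y = eo 0 ⟨1, by omega⟩ 1 from Units.ext (by rw [e, s3_eo h i0 i1 i2, one_smul]; rfl),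
        ti, Units.val_mk0, mul_one, ← show w = eo 0 ⟨1, by omega⟩ s from
          Units.ext (by rw [hw, s3_eo h i0 i1 i2]; rfl)] at this
    · have : CharP K 2 := CharTwo.of_one_ne_zero_of_two_eq_zero one_ne_zero h
      obtain ⟨t, rfl⟩ := FiniteField.isSquare_of_char_two (ringChar.eq K 2) s
      have t0 := left_ne_zero_of_mul s0
      have := mul_mem (mul_mem (k4 (Units.mk0 t t0)) m) (inv_mem (k4 (Units.mk0 t t0)))
      rwa [show y = el 0 (Fin.rev 0) 1 from Units.ext (by rw [e, vl, one_smul]),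
        tl, Units.val_mk0, mul_one, sq, ← show w = el 0 (Fin.rev 0) (t * t) from
          Units.ext (by rw [hw, vl])] at this

theorem s3_all [Finite K] (h : (2 : K) = 0) (hr : 5 ≤ r) (od : ¬ Even r)
    {A B C G G' D B' C' F F' : List ℕ} {P P' : List (ℕ × ℕ)} {xs xl xs' xl' : ℕ}
    {up dn up' dn' : List ℕ} (c : s3two (r + 1) A B C G G' P xs xl up dn)
    (c' : s3big (r + 1) D B' C' F F' P' xs' xl' up' dn') :
    IsLeast {n | Good (chev (CartanMatrix.A r) Fin.revPerm (RingHom.id K)) n} 3 := by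
  obtain ⟨x, hx⟩ := IsCyclic.exists_monoid_generator (α := Kˣ)
  have gen : ∀ s : K, s ≠ 0 → ∃ n : ℕ, (x : K) ^ n = s := fun s s0 => by
    obtain ⟨n, e⟩ := hx (Units.mk0 s s0)
    exact ⟨n, by simpa using congrArg Units.val e⟩
  by_cases x1 : (x : K) = 1
  · refine s3_two h hr od (fun s => or_iff_not_imp_left.2 fun s0 => ?_) c
    obtain ⟨n, e⟩ := gen s s0
    rw [← e, x1, one_pow]
  · exact s3_big h hr od x1 (spn_sq fun s s0 => gen _ (pow_ne_zero _ s0)) c'

instance (n : ℕ) (A : List ℕ) : Decidable (s3sp n A) := by unfold s3sp; infer_instance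

instance (n : ℕ) (g A B : List ℕ) : Decidable (s3c n g A B) := by unfold s3c; infer_instance

instance (n : ℕ) (e : ℤ) (A : List ℕ) : Decidable (s3h n e A) := by unfold s3h; infer_instance

instance (n : ℕ) (g : List ℕ) : Decidable (s3z n g) := by unfold s3z; infer_instance

instance (n : ℕ) (L : List (List ℕ)) (xs xl : ℕ) (up dn : List ℕ) :
    Decidable (s3end n L xs xl up dn) := by unfold s3end; infer_instance

theorem s3_two3 : s3two 6
    [33, 18, 12, 8, 16, 32] [17, 34, 12, 8, 16, 32] [43, 28, 48, 17, 35, 39] [30, 51, 7, 56, 24,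
    48] [28, 26, 38, 27, 55, 9] [(2, 1), (3, 1), (0, 4), (4, 3), (0, 5), (0, 5), (0, 1), (4, 0),
    (0, 5), (2, 10), (0, 3), (2, 0), (0, 3), (2, 12), (0, 3), (2, 0), (0, 3), (17, 0), (0, 18),
    (6, 18), (0, 7), (23, 0), (0, 24), (2, 22), (0, 3), (6, 2), (0, 1), (29, 29), (28, 19),
    (6, 0), (27, 1), (26, 2), (11, 0), (30, 33), (27, 0), (22, 32)] 9 17 [8, 5, 1, 5, 8] [6, 3, 0,
    3, 6] := by
  unfold s3two
  decide +kernel

theorem s3_big3 : s3big 6
    [32, 14, 20, 24, 16, 1] [1, 6, 4, 24, 16, 32] [32, 28, 22, 26, 14, 1] [58, 5, 45, 6, 28, 7]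
    [36, 15, 41, 20, 31, 21] [(3, 0), (0, 0), (0, 0), (0, 2), (3, 7), (4, 0), (1, 7), (0, 2),
    (1, 0), (0, 9), (0, 1), (9, 5), (1, 8), (0, 2), (17, 0), (0, 18), (5, 0), (0, 6), (20, 0),
    (0, 21), (12, 16), (0, 13), (25, 0), (0, 26), (4, 0), (0, 3), (29, 29), (29, 13), (17, 0),
    (21, 0), (8, 1), (17, 0), (12, 27), (22, 0), (20, 1), (24, 0)] 10 16 [9, 6, 2, 6, 9] [8, 4, 0,
    4, 8] := by
  unfold s3big
  decide +kernel

theorem s3_two4 : s3two 8
    [129, 66, 36, 24, 16, 32, 64, 128] [17, 68, 34, 136, 16, 64, 32, 128] [153, 4, 2, 138, 148,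
    73, 51, 134] [134, 8, 199, 69, 96, 47, 223, 160] [237, 229, 69, 143, 42, 41, 219, 21] [(1, 0),
    (0, 3), (0, 2), (0, 5), (0, 0), (0, 1), (0, 0), (0, 3), (10, 8), (0, 11), (10, 0), (0, 11),
    (11, 13), (13, 15), (0, 14), (5, 3), (0, 6), (4, 19), (0, 5), (9, 11), (0, 10), (6, 13),
    (0, 7), (10, 0), (0, 11), (26, 2), (0, 27), (17, 0), (0, 18), (8, 4), (0, 1), (33, 33),
    (34, 9), (4, 0), (35, 22), (35, 0), (23, 24), (24, 4), (26, 0), (26, 0), (30, 0), (20, 0),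
    (27, 0), (24, 43), (15, 0), (28, 0), (36, 46), (34, 0)] 17 27 [16, 12, 8, 2, 8, 12, 16] [14,
    11, 5, 0, 5, 11, 14] := by
  unfold s3two
  decide +kernel

theorem s3_big4 : s3big 8
    [128, 66, 8, 4, 32, 16, 64, 1] [1, 2, 16, 32, 4, 8, 64, 128] [128, 2, 6, 24, 16, 32, 96, 1]
    [109, 34, 119, 161, 186, 145, 112, 220] [42, 241, 111, 228, 189, 205, 55, 86] [(1, 2), (0, 1),
    (0, 3), (0, 3), (0, 7), (0, 5), (0, 8), (0, 7), (0, 0), (0, 1), (10, 11), (0, 11), (12, 15),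
    (0, 13), (0, 15), (0, 1), (4, 0), (0, 5), (2, 21), (0, 3), (0, 22), (0, 1), (24, 12), (0, 25),
    (2, 14), (0, 3), (28, 0), (0, 29), (10, 0), (0, 11), (33, 0), (0, 34), (8, 0), (0, 3),
    (37, 37), (3, 37), (8, 0), (23, 0), (16, 0), (40, 0), (8, 1), (43, 0), (12, 5), (29, 0),
    (22, 0), (45, 0), (48, 0), (47, 29), (22, 0), (50, 0), (52, 0)] 17 27 [16, 11, 4, 2, 4, 11,
    16] [15, 9, 5, 0, 5, 9, 15] := by
  unfold s3big
  decide +kernel

theorem s3_two6 : s3two 12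
    [2049, 1026, 516, 264, 144, 96, 64, 128, 256, 512, 1024, 2048] [617, 1220, 2818, 857, 1144,
    3569, 2240, 448, 2432, 1024, 512, 2368] [4007, 2424, 2560, 3511, 2445, 1026, 3360, 1306, 1178,
    2436, 2392, 2432] [3660, 239, 3895, 1906, 3568, 1193, 2983, 899, 1959, 2940, 2236, 3523]
    [3006, 29, 1908, 2598, 56, 1438, 2972, 2197, 2581, 32, 515, 1428] [(0, 1), (0, 1), (0, 4),
    (0, 3), (0, 6), (0, 6), (0, 6), (0, 8), (0, 0), (0, 1), (0, 0), (0, 0), (0, 0), (0, 5),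
    (0, 0), (0, 7), (17, 16), (0, 18), (20, 18), (0, 21), (3, 2), (1, 22), (0, 2), (3, 23),
    (0, 4), (2, 26), (0, 3), (28, 11), (0, 29), (4, 0), (0, 5), (33, 0), (0, 34), (15, 0),
    (0, 16), (8, 0), (0, 9), (2, 21), (0, 3), (16, 0), (0, 17), (42, 0), (0, 43), (45, 0),
    (0, 46), (47, 16), (0, 48), (12, 0), (0, 13), (28, 0), (0, 29), (14, 6), (0, 1), (55, 55),
    (7, 54), (10, 0), (56, 0), (14, 0), (11, 0), (41, 0), (11, 0), (43, 0), (37, 7), (12, 0),
    (15, 0), (34, 0), (19, 4), (30, 0), (69, 0), (46, 26), (21, 0), (51, 0), (29, 47), (38, 0),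
    (29, 0), (76, 0), (33, 49), (77, 0), (51, 0), (38, 1), (31, 0), (54, 0), (84, 0), (65, 20),
    (35, 0), (87, 0), (47, 0), (89, 60), (53, 0), (54, 12), (90, 0)] 38 54 [37, 29, 22, 15, 8, 2,
    8, 15, 22, 29, 37] [33, 25, 19, 12, 4, 0, 4, 12, 19, 25, 33] := by
  unfold s3two
  decide +kernel

theorem s3_big6 : s3big 12
    [2048, 2034, 1076, 1052, 1056, 1040, 1664, 1856, 256, 768, 1024, 1] [1, 754, 1504, 680, 1796,
    1588, 1876, 1124, 256, 240, 1024, 2048] [2048, 1472, 48, 1052, 1028, 1024, 522, 772, 300, 412,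
    32, 1] [102, 1913, 1536, 136, 2905, 1679, 3689, 3110, 3825, 2429, 3377, 342] [45, 1181, 40,
    63, 4094, 4082, 3761, 3718, 3964, 3283, 3, 3128] [(0, 1), (0, 1), (0, 4), (0, 3), (0, 7),
    (0, 0), (0, 1), (0, 0), (0, 3), (0, 0), (0, 5), (12, 11), (0, 13), (15, 0), (0, 16), (3, 2),
    (0, 1), (0, 1), (6, 2), (0, 21), (0, 1), (23, 10), (0, 24), (26, 0), (0, 27), (12, 0),
    (0, 13), (6, 0), (0, 7), (16, 0), (0, 17), (34, 0), (0, 35), (15, 0), (0, 16), (38, 0),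
    (0, 39), (26, 0), (0, 3), (42, 42), (17, 15), (6, 0), (11, 17), (20, 0), (17, 0), (8, 0),
    (33, 0), (49, 1), (35, 0), (12, 0), (51, 0), (36, 0), (55, 34), (35, 0), (25, 0), (34, 0),
    (56, 0), (28, 10), (58, 0), (28, 0), (42, 0), (46, 17), (33, 0), (64, 0), (33, 0), (65, 0),
    (35, 9), (38, 0), (33, 0), (46, 0), (43, 0), (46, 13), (51, 0), (75, 0), (74, 0), (60, 18),
    (55, 0), (77, 0), (57, 0), (82, 81), (43, 0), (62, 0), (53, 0), (68, 1), (53, 0)] 46 74 [45,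
    38, 28, 19, 10, 2, 10, 19, 28, 38, 45] [43, 33, 24, 14, 6, 0, 6, 14, 24, 33, 43] := by
  unfold s3big
  decide +kernel

/-- The symplectic groups of dimension six, eight and twelve in characteristic two. -/
theorem tSe [Finite K] (h : (2 : K) = 0) {r : ℕ} (hr : r = 5 ∨ r = 7 ∨ r = 11) :
    IsLeast {n | Good (chev (CartanMatrix.A r) Fin.revPerm (RingHom.id K)) n} 3 := by
  rcases hr with rfl | rfl | rfl
  · exact s3_all h le_rfl (by decide) s3_two3 s3_big3
  · exact s3_all h (by omega) (by decide) s3_two4 s3_big4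
  · exact s3_all h (by omega) (by decide) s3_two6 s3_big6

end Pool.Agent.MP_c78e8e_al.H75

end

section

namespace Pool.Agent.MP_c78e8e_al.H75

open Subgroup Matrix
open scoped commutatorElement

variable {r n : ℕ} {K : Type} [Field K] {φ : K →+* K}

/-- Lifting a generating triple along a central extension in which involutions lift. -/
theorem o6_lift {G G' : Type} [Group G] [Group G'] (π : G →* G') (sj : Function.Surjective π)
    (ce : ∀ z, π z = 1 → ∀ x, Commute z x) (sq : ∀ x, π (x * x) = 1 → x * x = 1) (h : Good G' 3) :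
    ∃ a g g' : G, a * a = 1 ∧ a * (g * a * g⁻¹) = g * a * g⁻¹ * a ∧ ∀ H : Subgroup G, a ∈ H →
      g * a * g⁻¹ ∈ H → g' * a * g'⁻¹ ∈ H → ∀ x y : G, ⁅x, y⁆ ∈ H := by
  obtain ⟨t, -, o, gen, cj, i, j, ne, cm⟩ := h
  obtain ⟨k, hk⟩ := (by decide : ∀ i j : Fin 3, i ≠ j → ∃ k, ∀ l, l = i ∨ l = j ∨ l = k) i j ne
  obtain ⟨a, ha⟩ := sj (t i)
  obtain ⟨u, hu⟩ := isConj_iff.1 (cj i j)
  obtain ⟨u', hu'⟩ := isConj_iff.1 (cj i k)
  obtain ⟨g, rfl⟩ := sj u
  obtain ⟨g', rfl⟩ := sj u'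
  have s2 : ∀ l, t l * t l = 1 := fun l => by rw [← pow_two, ← o l, pow_orderOf_eq_one]
  have aa : a * a = 1 := sq a (by rw [map_mul, ha, s2])
  have e : π (g * a * g⁻¹) = t j := by rw [← hu, ← ha]; simp only [map_mul, map_inv]
  have e' : π (g' * a * g'⁻¹) = t k := by rw [← hu', ← ha]; simp only [map_mul, map_inv]
  have bb : g * a * g⁻¹ * (g * a * g⁻¹) = 1 := by
    rw [show g * a * g⁻¹ * (g * a * g⁻¹) = g * (a * a) * g⁻¹ by group, aa]; group
  refine ⟨a, g, g', aa, ?_, fun H h1 h2 h3 x y => ?_⟩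
  · generalize g * a * g⁻¹ = b at *
    have ab := sq (a * b) (by
      simp only [map_mul, ha, e]
      rw [mul_assoc, ← mul_assoc (t j), ← cm, mul_assoc, s2, mul_one, s2])
    calc a * b = (a * b)⁻¹ := eq_inv_of_mul_eq_one_left ab
      _ = b * a := by
        rw [_root_.mul_inv_rev, ← eq_inv_of_mul_eq_one_left aa, ← eq_inv_of_mul_eq_one_left bb]
  · have top : ∀ x, ∃ y ∈ H, ∃ z, π z = 1 ∧ x = y * z := fun x => by
      have : π x ∈ H.map π := by
        refine (Subgroup.closure_le _).2 ?_ (gen.ge (mem_top _))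
        rintro _ ⟨l, rfl⟩
        rcases hk l with rfl | rfl | rfl
        exacts [⟨_, h1, ha⟩, ⟨_, h2, e⟩, ⟨_, h3, e'⟩]
      obtain ⟨y, hy, q⟩ := this
      exact ⟨y, hy, y⁻¹ * x, by simp only [map_mul, map_inv, q, inv_mul_cancel], by group⟩
    obtain ⟨p, hp, z, hz, rfl⟩ := top x
    obtain ⟨q, hq, w, hw, rfl⟩ := top y
    rw [mona_cc (ce z hz p).symm (ce w hw p).symm (ce z hz q).symm (ce w hw q).symm,
      commutatorElement_eq_one_iff_commute.2 (ce z hz w), mul_one]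
    exact mul_mem (mul_mem (mul_mem hp hq) (inv_mem hp)) (inv_mem hq)

/-- The image of the symplectic or special unitary group in the adjoint model. -/
theorem o6_map (hr : 2 ≤ r) (hφ : ∀ s, φ (φ s) = s) (hev : Even r → φ ≠ RingHom.id K) :
    ∃ Ψ : GL (Fin (r + 1)) K →* Equiv.Perm (Lie (CartanMatrix.A r) K), (∀ g, Ψ g = 1 ↔ Sc g) ∧
      (sug r φ).map Ψ = chev (CartanMatrix.A r) Fin.revPerm φ := by
  obtain ⟨Ψ, ker, rg, tw⟩ := nat_ex (K := K) hr
  have hρ : ∀ i : Fin r, Fin.revPerm (Fin.revPerm i) = i := by simp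
  have hρC : ∀ i j, CartanMatrix.A r (Fin.revPerm i) (Fin.revPerm j) = CartanMatrix.A r i j :=
    fun i j => by rw [← gramA, ← rA_tA, ← rA_tA, dp_rA, gramA]
  have cl : ∀ i j : Fin (r + 1), i ≠ j → Subgroup.closure (rootGroup (CartanMatrix.A r) K (rtA i j) ∪
      rootGroup (CartanMatrix.A r) K (rtA i j ∘ Fin.revPerm)) =
      (Subgroup.closure (Set.range (el i j) ∪ Set.range (el j.rev i.rev))).map Ψ := fun i j h => by
    rw [MonoidHom.map_closure, Set.image_union, ← Set.range_comp, ← Set.range_comp, rtA_rev,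
      rg i j h, rg _ _ fun e => h (Fin.rev_injective e).symm]
    rfl
  have mem : sug r φ ≤ (chev (CartanMatrix.A r) Fin.revPerm φ).comap Ψ := by
    rw [sug, Subgroup.closure_le]
    rintro w ⟨i, j, f, hw⟩
    by_cases h : i = j
    · subst h
      have : Subgroup.closure (Set.range (el (K := K) i i) ∪ Set.range (el i.rev i.rev)) ≤ ⊥ := by
        rw [Subgroup.closure_le]
        rintro _ (⟨s, rfl⟩ | ⟨s, rfl⟩) <;> simp [el]
      rw [Subgroup.mem_bot.1 (this hw)]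
      exact one_mem _
    · refine subset_closure ⟨tw φ w w f, ⟨_, rtA_root h⟩, closure_mono (natb_un _) ?_⟩
      rw [cl i j h]
      exact ⟨w, hw, rfl⟩
  refine ⟨Ψ, ker, le_antisymm (map_le_iff_le_comap.2 mem) ?_⟩
  have key : ∀ i j : Fin (r + 1), i ≠ j →
      ∀ u : Equiv.Perm (Lie (CartanMatrix.A r) K), (∀ v, u (sigma _ Fin.revPerm φ v) =
        sigma _ Fin.revPerm φ (u v)) → u ∈ Subgroup.closure (rootGroup _ K (rtA i j) ∪
        rootGroup _ K (rtA i j ∘ Fin.revPerm)) → u ∈ (sug r φ).map Ψ := by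
    intro i j h u cm hu
    rw [cl i j h] at hu
    obtain ⟨w, hw, rfl⟩ := hu
    obtain ⟨w', hw', e⟩ := natb_tw (φ := φ) h hw
    have e1 : Ψ w = Ψ w' := Equiv.ext fun v => by
      rw [← sigma_sigma hρ hρC hφ (goodA hr) v, tw φ w w' e, cm]
    obtain ⟨z, hz⟩ := (ker (w⁻¹ * w')).1 (by simp only [map_mul, map_inv, e1, inv_mul_cancel])
    obtain ⟨l, l1, l2⟩ : ∃ l : Fin (r + 1), j ≠ l ∧ i.rev ≠ l := by
      by_contra hn
      push Not at hn
      have p0 := hn ⟨0, by omega⟩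
      have p1 := hn ⟨1, by omega⟩
      have p2 := hn ⟨2, by omega⟩
      simp only [ne_eq, Fin.ext_iff] at p0 p1 p2
      omega
    have e2 := congrFun (congrFun (natb_fix h l1 l2 (mul_mem (inv_mem hw) hw')) l) l
    rw [hz] at e2
    have e3 : w⁻¹ * w' = 1 := Units.ext (by rw [hz, show z = 1 by simpa using e2]; simp)
    rw [inv_mul_eq_one] at e3
    subst e3
    exact ⟨w, rt_mem ⟨e, hw⟩, rfl⟩
  obtain ⟨j, m, χ, hj, hχ, hf⟩ := natb_model hr hφ hev
  have h7 : ∀ v, rA r (tau (tA r) v) = tau (tA r) (v ∘ Fin.revPerm) := fun v => by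
    simp only [tau_apply, map_sum, map_zsmul, rA_tA]
    rw [← Equiv.sum_comp Fin.revPerm]; simp only [Fin.revPerm_apply, Fin.rev_rev, zsmul_eq_mul, Function.comp_apply]
  refine natb_gen hρ hρC hφ (goodA hr) j m χ hj
    (fun β a b => hχ β (by rw [tau_iso gramA, a]) (by rw [h7, tau_iso gramA, b])) hf
    fun i β e => ?_
  have ne : i.castSucc ≠ i.succ := Fin.castSucc_lt_succ.ne
  rcases e with rfl | rfl
  · rw [← natb_up]; exact key _ _ ne
  · rw [← natb_down]; exact key _ _ ne.symm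

/-- The indices outside the middle. -/
def o6i (a : Fin (2 * n + 1 + 1)) : Fin (2 * n + 3 + 1) :=
  ⟨if (a : ℕ) ≤ n then a else a + 2, by split_ifs <;> omega⟩

variable (n) in
/-- The first middle index. -/
def o6m : Fin (2 * n + 3 + 1) := ⟨n + 1, by omega⟩

theorem o6i_inj : Function.Injective (o6i (n := n)) := fun a b e => by
  simp only [o6i, Fin.ext_iff] at e ⊢
  split_ifs at e <;> omega

theorem o6i_rev (a : Fin (2 * n + 1 + 1)) : o6i a.rev = (o6i a).rev := by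
  simp only [o6i, Fin.ext_iff, Fin.val_rev]
  split_ifs <;> omega

theorem o6_mid {k : Fin (2 * n + 3 + 1)} : Mid k ↔ k = o6m n ∨ k = (o6m n).rev := by
  simp only [Mid, o6m, Fin.ext_iff, Fin.val_rev]
  omega

theorem o6i_mid (a : Fin (2 * n + 1 + 1)) : ¬ Mid (o6i a) := by
  simp only [Mid, o6i, Fin.val_rev]
  split_ifs <;> omega

theorem o6_ex {k : Fin (2 * n + 3 + 1)} (h : ¬ Mid k) : ∃ a, k = o6i a := by
  simp only [Mid, Fin.val_rev] at h
  refine ⟨⟨if (k : ℕ) ≤ n then k else k - 2, by split_ifs <;> omega⟩, ?_⟩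
  simp only [o6i, Fin.ext_iff]
  split_ifs <;> omega

theorem o6_ne (k : Fin (2 * n + 3 + 1)) : k ≠ k.rev := by
  simp only [ne_eq, Fin.ext_iff, Fin.val_rev]
  omega

theorem o6_midr {k : Fin (2 * n + 3 + 1)} : Mid k.rev ↔ Mid k := by
  simp only [Mid, Fin.val_rev]
  omega

theorem o6_nm {i m : Fin (2 * n + 3 + 1)} (hi : ¬ Mid i) (hm : Mid m) : i ≠ m := fun e => hi (e ▸ hm)

theorem o6_sum (f : Fin (2 * n + 3 + 1) → K) :
    ∑ k, f k = f (o6m n) + f (o6m n).rev + ∑ a, f (o6i a) := by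
  rw [Fin.sum_univ_succAbove f (o6m n), Fin.sum_univ_succAbove _ (⟨n + 1, by omega⟩ : Fin (2 * n + 2 + 1)),
    add_assoc (f _)]
  congr 2
  · congr 1
    simp only [Fin.succAbove, Fin.castSucc_mk, o6m, lt_self_iff_false, ↓ reduceIte, Fin.succ_mk, Fin.ext_iff, Fin.val_rev, Nat.reduceSubDiff]
    omega
  · refine Finset.sum_congr rfl fun a _ => ?_
    congr 1
    simp only [Fin.succAbove, o6m, Fin.ext_iff, Fin.lt_def, o6i]
    split_ifs <;> (simp_all; try omega)

variable (n K) in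
/-- The fixed vector. -/
def o6v : Fin (2 * n + 3 + 1) → K := Pi.single (o6m n) 1 + Pi.single (o6m n).rev 1

theorem o6v_mid {k : Fin (2 * n + 3 + 1)} (h : Mid k) : o6v n K k = 1 := by
  rcases o6_mid.1 h with rfl | rfl <;> simp [o6v, o6_ne, (o6_ne _).symm]

theorem o6v_not {k : Fin (2 * n + 3 + 1)} (h : ¬ Mid k) : o6v n K k = 0 := by
  rw [o6_mid, not_or] at h
  simp [o6v, h.1, h.2]

theorem o6_bo1 (u : Fin (2 * n + 3 + 1) → K) (k : Fin (2 * n + 3 + 1)) (c : K) :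
    bo u (Pi.single k c) = u k.rev * c := by
  rw [bo, Finset.sum_eq_single k.rev] <;> simp +contextual [Fin.rev_eq_iff]

theorem o6_boa (u v w : Fin (2 * n + 3 + 1) → K) (c : K) : bo u (v + c • w) = bo u v + c * bo u w := by
  simp only [bo, Pi.add_apply, Pi.smul_apply, smul_eq_mul, Finset.mul_sum, ← Finset.sum_add_distrib]
  exact Finset.sum_congr rfl fun _ _ => by ring

theorem o6_bos (u v : Fin (2 * n + 3 + 1) → K) : bo u v = bo v u := by
  rw [bo, bo, ← Equiv.sum_comp Fin.revPerm]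
  simp [mul_comm]

theorem o6_bov (u : Fin (2 * n + 3 + 1) → K) : bo u (o6v n K) = u (o6m n) + u (o6m n).rev := by
  have := o6_boa u (Pi.single (o6m n) 1) (Pi.single (o6m n).rev 1) 1
  rw [one_smul, o6_bo1, o6_bo1, Fin.rev_rev] at this
  rw [o6v, this]; ring

theorem o6_qa (u v : Fin (2 * n + 3 + 1) → K) (c : K) :
    qo (u + c • v) = qo u + c * c * qo v + c * bo u v := by
  have e : ∑ i : Fin (2 * n + 3 + 1), (if (i : ℕ) < n + 2 then v i * u i.rev else 0) =
      ∑ i : Fin (2 * n + 3 + 1), if (i : ℕ) < n + 2 then 0 else u i * v i.rev := by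
    rw [← Equiv.sum_comp Fin.revPerm]
    refine Finset.sum_congr rfl fun i _ => ?_
    simp only [Fin.revPerm_apply, Fin.val_rev, Fin.rev_rev]
    split_ifs <;> first | omega | ring
  have e' : bo u v = ∑ i : Fin (2 * n + 3 + 1), (if (i : ℕ) < n + 2 then u i * v i.rev else 0) +
      ∑ i : Fin (2 * n + 3 + 1), (if (i : ℕ) < n + 2 then v i * u i.rev else 0) := by
    rw [e, bo, ← Finset.sum_add_distrib]
    exact Finset.sum_congr rfl fun i _ => by split_ifs <;> ring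
  simp only [e', qo, mul_add, Finset.mul_sum, ← Finset.sum_add_distrib, Pi.add_apply, Pi.smul_apply,
    smul_eq_mul]
  exact Finset.sum_congr rfl fun i _ => by split_ifs <;> ring

theorem o6_q1 (k : Fin (2 * n + 3 + 1)) : qo (Pi.single k (1 : K)) = 0 :=
  Finset.sum_eq_zero fun i _ => by
    by_cases h : i = k
    · subst h; simp [(o6_ne i).symm]
    · simp [h]

theorem o6_qv : qo (o6v n K) = 1 := by
  have := o6_qa (Pi.single (o6m n) (1 : K)) (Pi.single (o6m n).rev 1) 1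
  rw [one_smul, o6_q1, o6_q1, o6_bo1] at this
  rw [o6v, this]; simp

theorem o6_eo {i j : Fin (2 * n + 3 + 1)} (h : i ≠ j) (s : K) (v : Fin (2 * n + 3 + 1) → K) :
    (eo i j s).1 *ᵥ v = v + (s * v j) • Pi.single i 1 + (-s * v i.rev) • Pi.single j.rev 1 := by
  rw [eo, natb1_val h (o6_ne j), add_mulVec, add_mulVec, one_mulVec, single_mulVec_eq,
    single_mulVec_eq, add_assoc v]

theorem o6_eoq {i j : Fin (2 * n + 3 + 1)} (h : i ≠ j) (s : K)
    (v : Fin (2 * n + 3 + 1) → K) : qo ((eo i j s).1 *ᵥ v) = qo v := by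
  rw [o6_eo h, o6_qa, o6_qa, o6_q1, o6_q1, o6_bo1, o6_bo1]
  simp only [mul_zero, add_zero, mul_one, neg_mul, mul_neg, neg_neg, Fin.rev_rev, Pi.add_apply, Pi.smul_apply, ne_eq, h.symm, not_false_eq_true, Pi.single_eq_of_ne, smul_eq_mul]
  ring

variable (n K) in
/-- The stabiliser of the vector in the orthogonal group. -/
def o6S : Subgroup (GL (Fin (2 * n + 3 + 1)) K) where
  carrier := {g | (∀ v, qo (g.1 *ᵥ v) = qo v) ∧ g.1 *ᵥ o6v n K = o6v n K}
  one_mem' := by simp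
  mul_mem' := fun {a b} p q => ⟨fun v => by rw [Units.val_mul, ← mulVec_mulVec, p.1, q.1],
    by rw [Units.val_mul, ← mulVec_mulVec, q.2, p.2]⟩
  inv_mem' := fun {a} p => ⟨fun v => by rw [← p.1, mulVec_mulVec, Units.mul_inv, one_mulVec],
    by nth_rw 1 [← p.2]; rw [mulVec_mulVec, Units.inv_mul, one_mulVec]⟩

theorem o6_b (g : o6S n K) (u v : Fin (2 * n + 3 + 1) → K) : bo (g.1.1 *ᵥ u) (g.1.1 *ᵥ v) = bo u v := by
  have e := g.2.1 (u + (1 : K) • v)
  rw [mulVec_add, mulVec_smul, o6_qa, o6_qa, g.2.1, g.2.1] at e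
  linear_combination e

theorem o6_col (g : o6S n K) (k : Fin (2 * n + 3 + 1)) :
    g.1.1 k (o6m n) + g.1.1 k (o6m n).rev = o6v n K k := by
  have e := congrFun g.2.2 k
  rw [← e, o6v, mulVec_add, mulVec_single_one, mulVec_single_one]
  rfl

theorem o6_row (g : o6S n K) (k : Fin (2 * n + 3 + 1)) :
    g.1.1 (o6m n) k + g.1.1 (o6m n).rev k = o6v n K k := by
  have e := o6_b g (Pi.single k 1) (o6v n K)
  rw [g.2.2, o6_bov, o6_bov, mulVec_single_one] at e
  refine e.trans ?_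
  simp only [o6v, Pi.add_apply, Pi.single_apply, eq_comm (a := k)]

/-- Deleting the middle rows and columns. -/
noncomputable def o6p (h : (2 : K) = 0) : o6S n K →* GL (Fin (2 * n + 1 + 1)) K :=
  MonoidHom.toHomUnits
    { toFun := fun g => g.1.1.submatrix o6i o6i
      map_one' := submatrix_one _ o6i_inj
      map_mul' := fun a b => by
        ext i j
        have e := o6_col a (o6i i)
        have e' := o6_row b (o6i j)
        rw [o6v_not (o6i_mid _)] at e e'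
        simp only [coe_mul, Units.val_mul, submatrix_apply, mul_apply]
        rw [o6_sum]
        linear_combination b.1.1 (o6m n) (o6i j) * e + a.1.1 (o6i i) (o6m n).rev * e' -
          a.1.1 (o6i i) (o6m n).rev * b.1.1 (o6m n) (o6i j) * h }

theorem o6p_val (h : (2 : K) = 0) (g : o6S n K) : (o6p h g).1 = g.1.1.submatrix o6i o6i := rfl

theorem o6_ker (h : (2 : K) = 0) {g : o6S n K} (e : o6p h g = 1) :
    ∃ t : K, g.1.1 = 1 + t • vecMulVec (o6v n K) (o6v n K) := by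
  have e1 : ∀ a b, g.1.1 (o6i a) (o6i b) = if o6i a = o6i b then 1 else 0 := fun a b => by
    have : (o6p h g).1 a b = (1 : Matrix _ _ K) a b := by rw [e, Units.val_one]
    rw [o6p_val, submatrix_apply] at this
    simp [this, Matrix.one_apply, o6i_inj.eq_iff]
  have m1 : Mid (o6m n) := o6_mid.2 (Or.inl rfl)
  have m2 : Mid (o6m n).rev := o6_mid.2 (Or.inr rfl)
  have c1 : ∀ b, g.1.1 *ᵥ Pi.single (o6i b) 1 = Pi.single (o6i b) 1 := fun b => by
    have w : g.1.1 *ᵥ Pi.single (o6i b) 1 =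
        Pi.single (o6i b) 1 + g.1.1 (o6m n) (o6i b) • o6v n K := by
      ext k
      have r := o6_row g (o6i b)
      rw [o6v_not (o6i_mid _)] at r
      rw [mulVec_single_one, col_apply, Pi.add_apply, Pi.smul_apply, Pi.single_apply, smul_eq_mul]
      by_cases hk : Mid k
      · rw [o6v_mid hk, if_neg (o6_nm (o6i_mid b) hk).symm]
        rcases o6_mid.1 hk with rfl | rfl
        · ring
        · linear_combination r - g.1.1 (o6m n) (o6i b) * h
      · obtain ⟨a, rfl⟩ := o6_ex hk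
        rw [e1, o6v_not hk]; ring
    have q := g.2.1 (Pi.single (o6i b) 1)
    rw [w, o6_qa, o6_qv, o6_bos, o6_bo1, o6v_not (o6_midr.not.2 (o6i_mid b))] at q
    rw [w, show g.1.1 (o6m n) (o6i b) = 0 from mul_self_eq_zero.1 (by linear_combination q)]
    simp
  have c2 : ∀ k, g.1.1 k (o6m n) = (if k = o6m n then 1 else 0) +
      g.1.1 (o6m n).rev (o6m n) * o6v n K k := fun k => by
    by_cases hk : Mid k
    · have r := o6_row g (o6m n)
      rw [o6v_mid m1] at r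
      rw [o6v_mid hk]
      rcases o6_mid.1 hk with rfl | rfl
      · rw [if_pos rfl]; linear_combination r - g.1.1 (o6m n).rev (o6m n) * h
      · rw [if_neg (o6_ne _).symm]; ring
    · obtain ⟨a, rfl⟩ := o6_ex hk
      have q := o6_b g (Pi.single (o6m n) 1) (Pi.single (o6i a.rev) 1)
      rw [c1, o6_bo1, o6_bo1, o6i_rev, Fin.rev_rev, mulVec_single_one, col_apply,
        Pi.single_apply] at q
      rw [o6v_not hk]
      linear_combination q
  refine ⟨g.1.1 (o6m n).rev (o6m n), Matrix.ext fun k l => ?_⟩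
  rw [Matrix.add_apply, Matrix.smul_apply, vecMulVec_apply, Matrix.one_apply, smul_eq_mul]
  by_cases hl : Mid l
  · rw [o6v_mid hl, mul_one]
    rcases o6_mid.1 hl with rfl | rfl
    · exact c2 k
    · have c := o6_col g k
      have d : o6v n K k = (if k = o6m n then 1 else 0) + (if k = (o6m n).rev then 1 else 0) := by
        simp only [o6v, Pi.add_apply, Pi.single_apply]
      linear_combination c + d - c2 k - g.1.1 (o6m n).rev (o6m n) * o6v n K k * h
  · obtain ⟨b, rfl⟩ := o6_ex hl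
    have := congrFun (c1 b) k
    rw [mulVec_single_one, col_apply, Pi.single_apply] at this
    rw [this, o6v_not hl]; ring

theorem o6_ce (h : (2 : K) = 0) {z : o6S n K} (e : o6p h z = 1) (x : o6S n K) : Commute z x := by
  obtain ⟨t, ht⟩ := o6_ker h e
  have r : o6v n K ᵥ* x.1.1 = o6v n K := by
    ext k
    rw [← o6_row x k, o6v, add_vecMul, single_one_vecMul, single_one_vecMul]
    rfl
  refine Subtype.ext (Units.ext ?_)
  simp only [coe_mul, Units.val_mul, ht, mul_add, add_mul, mul_smul_comm, smul_mul_assoc,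
    mul_vecMulVec, vecMulVec_mul, r, x.2.2, Matrix.one_mul, Matrix.mul_one]

theorem o6_sq (h : (2 : K) = 0) {x : o6S n K} (e : o6p h (x * x) = 1) : x * x = 1 := by
  obtain ⟨t, ht⟩ := o6_ker h e
  have m1 : Mid (o6m n) := o6_mid.2 (Or.inl rfl)
  have q := o6_b x (Pi.single (o6m n) 1) (x.1.1 *ᵥ Pi.single (o6m n) 1)
  have q' := o6_b x (Pi.single (o6m n) 1) (o6v n K)
  have w : (x * x).1.1 *ᵥ Pi.single (o6m n) 1 = Pi.single (o6m n) 1 + t • o6v n K := by
    rw [ht, add_mulVec, one_mulVec, smul_mulVec, mulVec_single_one]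
    ext k
    simp [vecMulVec_apply, o6v_mid m1]
  rw [mulVec_mulVec, ← Units.val_mul, ← coe_mul, w, o6_boa, o6_bos] at q
  rw [x.2.2, o6_bos (Pi.single _ _), o6_bo1, o6v_mid (o6_midr.2 m1)] at q'
  refine Subtype.ext (Units.ext ?_)
  rw [ht, show t = 0 by linear_combination q - t * q']
  simp only [zero_smul, add_zero, OneMemClass.coe_one, Units.val_one]

theorem o6_sub (a b : Fin (2 * n + 1 + 1)) (s : K) :
    (single (o6i a) (o6i b) s).submatrix o6i o6i = single a b s := by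
  ext i j
  simp [single, o6i_inj.eq_iff]

theorem o6_sub0 {k l : Fin (2 * n + 3 + 1)} (h : Mid k ∨ Mid l) (s : K) :
    (single k l s).submatrix o6i o6i = 0 := by
  ext i j
  rcases h with h | h
  · simp [single, (o6_nm (o6i_mid i) h).symm]
  · simp [single, (o6_nm (o6i_mid j) h).symm]

theorem o6_ne' (a : Fin (2 * n + 1 + 1)) : a ≠ a.rev := fun e =>
  o6_ne (o6i a) (by rw [← o6i_rev, ← e])

theorem o6_g1 (h : (2 : K) = 0) {a b : Fin (2 * n + 1 + 1)} (ne : a ≠ b) (s : K) :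
    ∃ x : o6S n K, x.1 = eo (o6i a) (o6i b) s ∧ o6p h x = el a b s * el b.rev a.rev (-s) := by
  have p := o6i_inj.ne ne
  refine ⟨⟨_, o6_eoq p s, ?_⟩, rfl, Units.ext ?_⟩
  · rw [o6_eo p, o6v_not (o6i_mid _), o6v_not (o6_midr.not.2 (o6i_mid _))]; simp
  · rw [o6p_val, natb1_val ne (o6_ne' b)]
    dsimp only [eo]
    rw [natb1_val p (o6_ne _), ← o6i_rev, ← o6i_rev]
    simp only [submatrix_add, Pi.add_apply, o6_sub, submatrix_one _ o6i_inj]

theorem o6_g2 (h : (2 : K) = 0) (a : Fin (2 * n + 1 + 1)) {m : Fin (2 * n + 3 + 1)} (hm : Mid m)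
    (s : K) : ∃ x : o6S n K, x.1 = eo (o6i a) m s * eo (o6i a) m.rev s ∧
      o6p h x = el a a.rev (-(s * s)) := by
  have hi := o6i_mid a
  have hi' := o6_midr.not.2 hi
  have hm' := o6_midr.2 hm
  have p := o6_nm hi hm
  have p' := o6_nm hi hm'
  refine ⟨⟨_, fun v => ?_, ?_⟩, rfl, Units.ext ?_⟩
  · rw [Units.val_mul, ← mulVec_mulVec, o6_eoq p, o6_eoq p']
  · rw [Units.val_mul, ← mulVec_mulVec, o6_eo p', o6_eo p]
    simp only [Pi.add_apply, Pi.smul_apply, Pi.zero_apply, o6v_not hi', o6v_mid hm, o6v_mid hm',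
      Pi.single_eq_of_ne p.symm, Pi.single_eq_of_ne (o6_ne _).symm, mul_zero, zero_smul, add_zero,
      smul_zero, mul_one, add_assoc, ← add_smul, show s + s = 0 by linear_combination s * h]
  · rw [o6p_val, el_val (o6_ne' a), Units.val_mul, eo, eo, natb1_val p (o6_ne _),
      natb1_val p' (o6_ne _), Fin.rev_rev]
    simp only [mul_add, add_mul, Matrix.one_mul, Matrix.mul_one, natb1_sm, if_true, p.symm,
      (o6_ne _).symm, o6_nm hi' hm, if_false, add_zero]
    simp only [submatrix_add, Pi.add_apply, ← o6i_rev, o6_sub,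
      submatrix_one _ o6i_inj, o6_sub0 (Or.inl hm), o6_sub0 (Or.inl hm'), o6_sub0 (Or.inr hm),
      o6_sub0 (Or.inr hm'), add_zero, zero_add, mul_neg]

theorem o6_pm (h : (2 : K) = 0) (k : ℕ) (s : K) : -(-1) ^ k * RingHom.id K s = -s := by
  rw [show (-1 : K) = 1 by linear_combination -h]; simp

theorem o6_long (h : (2 : K) = 0) (a : Fin (2 * n + 1 + 1)) (g : GL (Fin (2 * n + 1 + 1)) K) :
    g ∈ rt (RingHom.id K) a a.rev ↔ ∃ s, g = el a a.rev s := by
  rw [rt_long (fun _ => rfl) (o6_ne' a), show (-1 : K) = 1 by linear_combination -h]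
  simp

theorem o6_le (h : (2 : K) = 0) : sog2 (2 * n + 3) (RingHom.id K) ≤
    ((sug (2 * n + 1) (RingHom.id K)).comap (o6p h)).map (o6S n K).subtype := by
  rw [sog2, Subgroup.closure_le]
  rintro _ (⟨i, j, s, ne, hi, hj, -, rfl⟩ | ⟨i, m, s, hi, hm, rfl⟩)
  · obtain ⟨a, rfl⟩ := o6_ex hi
    obtain ⟨b, rfl⟩ := o6_ex hj
    by_cases e : a = b
    · rw [e, eo_self]; exact one_mem _
    obtain ⟨x, e1, e2⟩ := o6_g1 h e s
    refine ⟨x, ?_, e1⟩
    exact rt_mem ((rt_short (fun _ => rfl) e (fun q => ne (by rw [q, o6i_rev])) (o6_ne' a) (o6_ne' b)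
      _).2 ⟨s, by rw [o6_pm h, e2]⟩)
  · obtain ⟨a, rfl⟩ := o6_ex hi
    obtain ⟨x, e1, e2⟩ := o6_g2 h a hm s
    exact ⟨x, rt_mem ((o6_long h a _).2 ⟨_, e2⟩), e1⟩

theorem o6_le' (h : (2 : K) = 0) : sog2 (2 * n + 3) (RingHom.id K) ≤ o6S n K :=
  (o6_le h).trans (map_subtype_le _)

theorem o6_ge [Finite K] (h : (2 : K) = 0) : sug (2 * n + 1) (RingHom.id K) ≤
    ((o6p h).comp (inclusion (o6_le' (n := n) h))).range := by
  rw [sug, Subgroup.closure_le]
  rintro g ⟨a, b, hg⟩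
  by_cases e : a = b
  · subst e
    have : Subgroup.closure (Set.range (el (K := K) a a) ∪ Set.range (el a.rev a.rev)) ≤ ⊥ := by
      rw [Subgroup.closure_le]
      rintro _ (⟨s, rfl⟩ | ⟨s, rfl⟩) <;> simp [el]
    rw [Subgroup.mem_bot.1 (this hg.2)]
    exact one_mem _
  by_cases e' : b = a.rev
  · subst e'
    obtain ⟨s, rfl⟩ := (o6_long h a g).1 hg
    obtain ⟨t, ht⟩ : IsSquare (-s) := FiniteField.isSquare_of_char_two (by
      have : CharP K 2 := CharTwo.of_one_ne_zero_of_two_eq_zero one_ne_zero h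
      exact ringChar.eq K 2) _
    have hm : Mid (o6m n) := o6_mid.2 (Or.inl rfl)
    obtain ⟨x, e1, e2⟩ := o6_g2 h a hm t
    refine ⟨⟨x.1, subset_closure (Or.inr ⟨_, _, t, o6i_mid a, hm, e1⟩)⟩, ?_⟩
    rw [← neg_neg s, ht, ← e2]
    rfl
  · obtain ⟨s, rfl⟩ := (rt_short (fun _ => rfl) e e' (o6_ne' a) (o6_ne' b) g).1 hg
    obtain ⟨x, e1, e2⟩ := o6_g1 h e s
    refine ⟨⟨x.1, subset_closure (Or.inl ⟨_, _, s, ?_, o6i_mid a, o6i_mid b, rfl, e1⟩)⟩, ?_⟩
    · rw [← o6i_rev]; exact o6i_inj.ne e'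
    · rw [o6_pm h, ← e2]
      rfl

theorem o6_sc (h : (2 : K) = 0) {g : GL (Fin (r + 1)) K} (hg : g ∈ sug r (RingHom.id K)) (s : Sc g) :
    g = 1 := by
  obtain ⟨z, hz⟩ := s
  have e := congrFun₂ (sug_fx hg) 0 (Fin.rev 0)
  have e' : z * z = 1 := by
    rw [hz] at e
    simpa only [Jm, Algebra.smul_mul_assoc, one_mul, smul_of, RingHom.coe_id, Matrix.map_id, transpose_smul, transpose_one, Fin.rev_zero, Algebra.mul_smul_comm, mul_one, Matrix.smul_apply, of_apply, Pi.smul_apply, Fin.coe_ofNat_eq_mod, Nat.zero_mod, pow_zero, ↓ reduceIte, smul_eq_mul] using e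
  have : z = 1 := sub_eq_zero.1 (mul_self_eq_zero.1 (by linear_combination e' + (1 - z) * h))
  exact Units.ext (by rw [hz, this]; simp)

theorem o6_gen (hn : 2 ≤ n) {H : Subgroup (GL (Fin (2 * n + 3 + 1)) K)}
    (c : ∀ x ∈ sog2 (2 * n + 3) (RingHom.id K), ∀ y ∈ sog2 (2 * n + 3) (RingHom.id K), ⁅x, y⁆ ∈ H) :
    (∀ i j s, ¬ Mid i → ¬ Mid j → i ≠ j → j ≠ i.rev → eo i j s ∈ H) ∧
      ∀ i m s, ¬ Mid i → Mid m → eo i m s * eo i m.rev s ∈ H := by
  have ex : ∀ i j : Fin (2 * n + 3 + 1), ∃ k, ¬ Mid k ∧ i ≠ k ∧ k ≠ j ∧ k ≠ i.rev ∧ j ≠ k.rev := by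
    intro i j
    by_contra hc
    push Not at hc
    have p0 := hc ⟨0, by omega⟩
    have p1 := hc ⟨1, by omega⟩
    have p2 := hc ⟨2, by omega⟩
    simp only [ne_eq, Mid, Fin.ext_iff, Fin.val_rev] at p0 p1 p2
    omega
  have g1 : ∀ i j (s : K), ¬ Mid i → ¬ Mid j → j ≠ i.rev → eo i j s ∈ sog2 (2 * n + 3) (RingHom.id K) :=
    fun i j s a b c => subset_closure (Or.inl ⟨i, j, s, c, a, b, rfl, rfl⟩)
  have L : ∀ i j s, ¬ Mid i → ¬ Mid j → i ≠ j → j ≠ i.rev → eo i j s ∈ H := fun i j s a b p q => by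
    obtain ⟨k, k0, k1, k2, k3, k4⟩ := ex i j
    rw [← mul_one s, ← eo_rel o6_ne k1 k2 p k3 k4 q]
    exact c _ (g1 _ _ _ a k0 k3) _ (g1 _ _ _ k0 b k4)
  refine ⟨L, fun i m s a b => ?_⟩
  obtain ⟨k, k0, k1, -, k3, k4⟩ := ex i i
  have b' := o6_midr.2 b
  have a' := o6_midr.not.2 a
  have k' := o6_midr.not.2 k0
  have q := c _ (g1 i k s a k0 k3) _ (subset_closure (Or.inr ⟨k, m, 1, k0, b, rfl⟩))
  have r1 := eo_rel o6_ne k1 (o6_nm k0 b) (o6_nm a b) k3 (o6_nm k' b).symm (o6_nm a' b).symm s 1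
  have r2 := eo_rel o6_ne k1 (o6_nm k0 b') (o6_nm a b') k3 (o6_nm k' b').symm (o6_nm a' b').symm s 1
  have r3 := eo_rel o6_ne (o6_nm k0 b) (o6_nm a' b).symm k3 (o6_nm k' b).symm (o6_nm a' b')
    (Fin.rev_injective.ne k1) (1 : K) (-s)
  have r4 := eo_rev (o6_ne m) (o6_ne i.rev) s
  have r5 := eo_comm (o6_nm k0 b).symm (o6_ne i).symm
    (by rw [Fin.rev_rev]; exact (o6_nm a b).symm : m ≠ i.rev.rev) k4.symm s (-s)
  have l := L k i.rev (-s) k0 a' k3 (Fin.rev_injective.ne k1)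
  rw [Fin.rev_rev] at r4
  rw [mul_one] at r1 r2
  rw [one_mul, ← r4] at r3
  have e : ∀ x y z : GL (Fin (2 * n + 3 + 1)) K, ⁅x, y * z⁆ = ⁅x, y⁆ * ⁅y, ⁅x, z⁆⁆ * ⁅x, z⁆ :=
    fun x y z => by simp only [commutatorElement_def]; group
  rw [RingHom.id_apply, e, r1, r2, r3, r5.eq, mul_assoc] at q
  exact (mul_mem_cancel_left l).1 q

/-- In characteristic two the odd dimensional orthogonal groups are symplectic groups. -/
theorem o6_transfer [Finite K] (h : (2 : K) = 0) (hn : 2 ≤ n)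
    (hG : Good (chev (CartanMatrix.A (2 * n + 1)) Fin.revPerm (RingHom.id K)) 3) :
    IsLeast {k | Good (chev (CartanMatrix.D (n + 2))
      (Equiv.swap (Fin.last n).castSucc (Fin.last (n + 1))) (RingHom.id K)) k} 3 := by
  obtain ⟨Ψ, ker, mp⟩ := o6_map (r := 2 * n + 1) (φ := RingHom.id K) (by omega) (fun _ => rfl)
    (fun e => absurd e (by simp only [Nat.not_even_bit1, not_false_eq_true]))
  set f := (o6p h).comp (inclusion (o6_le' (n := n) h))
  have mem : ∀ x, f x ∈ sug (2 * n + 1) (RingHom.id K) := fun x => by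
    obtain ⟨y, hy, e⟩ := o6_le h x.2
    rwa [show y = inclusion (o6_le' h) x from Subtype.ext e] at hy
  have k1 : ∀ x, Ψ (f x) = 1 → f x = 1 := fun x e => o6_sc h (mem x) ((ker _).1 e)
  obtain ⟨a, g, g', aa, ab, gen⟩ := o6_lift ((Ψ.comp f).codRestrict
      (chev (CartanMatrix.A (2 * n + 1)) Fin.revPerm (RingHom.id K)) fun x => mp.le ⟨_, mem x, rfl⟩)
    (fun y => by
      obtain ⟨u, hu, e⟩ := mp.ge y.2
      obtain ⟨x, rfl⟩ := o6_ge h hu
      exact ⟨x, Subtype.ext e⟩)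
    (fun z e x => Subtype.ext (congrArg (o6S n K).subtype
      (o6_ce h (k1 z (congrArg Subtype.val e)) (inclusion (o6_le' h) x))))
    (fun x e => Subtype.ext (congrArg (o6S n K).subtype
      (o6_sq h (x := inclusion (o6_le' h) x) (k1 _ (congrArg Subtype.val e))))) hG
  refine goodO2 hn (fun _ => rfl) a.2 (g * a * g⁻¹).2 (g' * a * g'⁻¹).2 g.2 g'.2
    (by rw [← coe_mul, aa]; exact sc_one) (sc_of_eq rfl) (sc_of_eq rfl)
    (sc_of_eq (congrArg Subtype.val ab)) fun H _ h1 h2 h3 => ?_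
  obtain ⟨L, X⟩ := o6_gen hn (H := H) fun x hx y hy =>
    gen (H.comap (sog2 _ _).subtype) h1 h2 h3 ⟨x, hx⟩ ⟨y, hy⟩
  refine ⟨fun i j s p q _ => ⟨L _ _ _ ?_ ?_ ?_ ?_, L _ _ _ ?_ ?_ ?_ ?_⟩, fun i m s p q => ?_⟩
  iterate 8 simp only [ne_eq, Mid, Fin.ext_iff, Fin.val_rev]; omega
  have hi : ¬ Mid i := by simp only [Mid, Fin.val_rev]; omega
  have hm : Mid m := by simp only [Mid, Fin.val_rev]; omega
  refine ⟨X i m s hi hm, ?_⟩
  have := X i.rev m.rev (-s) (o6_midr.not.2 hi) (o6_midr.2 hm)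
  rwa [eo_rev (o6_ne _) (o6_ne _), eo_rev (o6_ne _) (o6_ne _), neg_neg] at this

/-- Block O6 from the symplectic groups of rank three, four and six (`tSe h` is the hypothesis). -/
theorem o6_of [Finite K] (h : (2 : K) = 0) (tS : ∀ {r : ℕ}, r = 5 ∨ r = 7 ∨ r = 11 →
      IsLeast {n | Good (chev (CartanMatrix.A r) Fin.revPerm (RingHom.id K)) n} 3)
    {n : ℕ} (h2 : 2 ≤ n) (h5 : n ≤ 5) : IsLeast {k | Good (chev (CartanMatrix.D (n + 2))
      (Equiv.swap (Fin.last n).castSucc (Fin.last (n + 1))) (RingHom.id K)) k} 3 := by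
  refine o6_transfer h h2 ?_
  by_cases e : n = 4
  · exact (mainC (fun _ => rfl) (n := 5) (Or.inl rfl) (by omega)).1
  · exact (tS (by omega)).1

/-- Block O6. -/
theorem tO6 [Finite K] (h : (2 : K) = 0) {n : ℕ} (h2 : 2 ≤ n) (h5 : n ≤ 5) :
    IsLeast {k | Good (chev (CartanMatrix.D (n + 2))
      (Equiv.swap (Fin.last n).castSucc (Fin.last (n + 1))) (RingHom.id K)) k} 3 :=
  o6_of h (tSe h) h2 h5

end Pool.Agent.MP_c78e8e_al.H75

end
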