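import Pool.Agent.MP_c78e8e_al.Mg.Sg_Ort
import Pool.Agent.MP_c78e8e_al.Mg.Sg_Mon
import Pool.Agent.MP_c78e8e_al.Sg.Sl2
import Pool.Agent.MP_c78e8e_al.Mg.Sg_Ev

attribute [-instance] DistribMulActionSemiHomClass.toAddMonoidHomClass SetLike.GradeZero.instSemiring
  instCharZeroOfIsSemireal FloorSemiring.instCharZero MonTypeEquivalenceMon.monMonoid
  SemilinearMapClass.toAddHomClass AlgHom.instNonUnitalAlgHomClassOfAlgHomClass
  SetLike.GradeZero.instCommRing IdemSemiring.toSemiring RCLike.charZero_rclike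
  SetLike.GradeZero.instMonoid instNonUnitalAlgHomClassOfNonUnitalAlgEquivClass
  ESeminormedCommMonoid.toCommMonoid GrpTypeEquivalenceGrp.grpGroup RingConeClass.toSubsemiringClass
  RKHS.instFunLike SubsemiringClass.instCharZero AddMonoidHomClass.toZeroHomClass
  SemilatticeInf.toPartialOrder AddGroupSeminormClass.toZeroHomClass InvOneClass.toOne
  BialgHomClass.toMonoidHomClass NormMulClass.toNoZeroDivisors NumberField.to_charZero
  littleWedderburn SetLike.GradeZero.instCommSemiring MulEquivClass.toZeroHomClass NeZero.of_gt'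
  IsStrictOrderedRing.toCharZero Unique.instSubsingleton
  CommMonTypeEquivalenceCommMon.commMonCommMonoid ValuationClass.toMonoidWithZeroHomClass
  IsFormallyReal.instIsReduced LieRing.toAddCommGroup CommRing.toRing BooleanRing.toRing
  NormedRing.toRing NonUnitalNormedRing.toNormedAddCommGroup IsStrictOrderedRing.noZeroDivisors
  Invertible.toNeZero RingSeminormClass.toAddGroupSeminormClass NormedField.toField
  ContinuousMonoidHom.instCoeOutOfMonoidHomClassOfContinuousMapClass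
  AddCommGroupWithOne.toAddGroupWithOne AddGroupConeClass.toAddSubmonoidClass
  SemigroupWithZero.toSemigroup NonUnitalAlgSemiHomClass.toMulHomClass
  NonUnitalAlgHomClass.toNonUnitalRingHomClass MulDistribMulActionSemiHomClass.toMonoidHomClass
  instCoeTCOfCoe LieAdmissibleRing.toNonUnitalNonAssocRing SeminormedRing.toRing
  MulCharClass.toMonoidHomClass CentroidHomClass.toAddMonoidHomClass
  CommGrpTypeEquivalenceCommGrp.commGrpCommGroup NeZero.charZero_one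
  CommMonoidWithZero.toMonoidWithZero IdemCommSemiring.toCommSemiring GroupConeClass.toSubmonoidClass
  CommGroup.toGroup NormedCommRing.toCommRing SeminormClass.toAddGroupSeminormClass
  NonAssocCommSemiring.toNonAssocSemiring RingEquivClass.toNonUnitalRingHomClass
  GroupWithZero.toMonoidWithZero AlgHomClass.toRingHomClass instIsRightCancelAddOfAddRightReflectLE
  AddCommGroup.toAddGroup AddGroupNormClass.toAddGroupSeminormClass TestFunctionClass.toDFunLike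
  instCoeTOfCoeDep

section

set_option linter.unusedSimpArgs false

namespace Pool.Agent.MP_c78e8e_al.H75

open Subgroup Matrix

variable {K : Type} [Field K] {φ : K →+* K}

/-- Four by four matrices. -/
def u1m (a0 a1 a2 a3 a4 a5 a6 a7 a8 a9 aa ab ac ad ae af : K) :
    Matrix (Fin (3 + 1)) (Fin (3 + 1)) K :=
  !![a0, a1, a2, a3; a4, a5, a6, a7; a8, a9, aa, ab; ac, ad, ae, af]

theorem u1_mul (a0 a1 a2 a3 a4 a5 a6 a7 a8 a9 aa ab ac ad ae af
    b0 b1 b2 b3 b4 b5 b6 b7 b8 b9 ba bb bc bd be bf : K) :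
    (u1m a0 a1 a2 a3 a4 a5 a6 a7 a8 a9 aa ab ac ad ae af) *
      (u1m b0 b1 b2 b3 b4 b5 b6 b7 b8 b9 ba bb bc bd be bf) =
    (u1m (a0 * b0 + a1 * b4 + a2 * b8 + a3 * bc) (a0 * b1 + a1 * b5 + a2 * b9 + a3 * bd) (a0 * b2 + a1 * b6 + a2 * ba + a3 * be) (a0 * b3 + a1 * b7 + a2 * bb + a3 * bf)
      (a4 * b0 + a5 * b4 + a6 * b8 + a7 * bc) (a4 * b1 + a5 * b5 + a6 * b9 + a7 * bd) (a4 * b2 + a5 * b6 + a6 * ba + a7 * be) (a4 * b3 + a5 * b7 + a6 * bb + a7 * bf)
      (a8 * b0 + a9 * b4 + aa * b8 + ab * bc) (a8 * b1 + a9 * b5 + aa * b9 + ab * bd) (a8 * b2 + a9 * b6 + aa * ba + ab * be) (a8 * b3 + a9 * b7 + aa * bb + ab * bf)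
      (ac * b0 + ad * b4 + ae * b8 + af * bc) (ac * b1 + ad * b5 + ae * b9 + af * bd) (ac * b2 + ad * b6 + ae * ba + af * be) (ac * b3 + ad * b7 + ae * bb + af * bf)) := by
  ext i j
  fin_cases i <;> fin_cases j <;> simp only [Nat.reduceAdd, u1m, Fin.zero_eta, Fin.isValue, Matrix.mul_apply, of_apply, cons_val', cons_val_fin_one, cons_val_zero, Fin.sum_univ_four, cons_val_one, cons_val, Fin.mk_one, Fin.reduceFinMk]

omit [Field K] in
theorem u1_ext {a0 a1 a2 a3 a4 a5 a6 a7 a8 a9 aa ab ac ad ae af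
    b0 b1 b2 b3 b4 b5 b6 b7 b8 b9 ba bb bc bd be bf : K}
    (h : a0 = b0 ∧ a1 = b1 ∧ a2 = b2 ∧ a3 = b3 ∧ a4 = b4 ∧ a5 = b5 ∧ a6 = b6 ∧ a7 = b7 ∧ a8 = b8 ∧
      a9 = b9 ∧ aa = ba ∧ ab = bb ∧ ac = bc ∧ ad = bd ∧ ae = be ∧ af = bf) :
    (u1m a0 a1 a2 a3 a4 a5 a6 a7 a8 a9 aa ab ac ad ae af) =
      (u1m b0 b1 b2 b3 b4 b5 b6 b7 b8 b9 ba bb bc bd be bf) := by
  obtain ⟨rfl, rfl, rfl, rfl, rfl, rfl, rfl, rfl, rfl, rfl, rfl, rfl, rfl, rfl, rfl, rfl⟩ := h
  rfl

omit [Field K] in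
theorem u1_inj {a0 a1 a2 a3 a4 a5 a6 a7 a8 a9 aa ab ac ad ae af
    b0 b1 b2 b3 b4 b5 b6 b7 b8 b9 ba bb bc bd be bf : K} :
    (u1m a0 a1 a2 a3 a4 a5 a6 a7 a8 a9 aa ab ac ad ae af) =
      (u1m b0 b1 b2 b3 b4 b5 b6 b7 b8 b9 ba bb bc bd be bf) ↔
    (a0 = b0 ∧ a1 = b1 ∧ a2 = b2 ∧ a3 = b3 ∧ a4 = b4 ∧ a5 = b5 ∧ a6 = b6 ∧ a7 = b7 ∧ a8 = b8 ∧
      a9 = b9 ∧ aa = ba ∧ ab = bb ∧ ac = bc ∧ ad = bd ∧ ae = be ∧ af = bf) :=
  ⟨fun h => by
    have e := fun i j => congrFun (congrFun h i) j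
    exact ⟨e 0 0, e 0 1, e 0 2, e 0 3, e 1 0, e 1 1, e 1 2, e 1 3, e 2 0, e 2 1, e 2 2, e 2 3,
      e 3 0, e 3 1, e 3 2, e 3 3⟩, u1_ext⟩

theorem u1_one : (1 : Matrix (Fin (3 + 1)) (Fin (3 + 1)) K) =
    (u1m 1 0 0 0 0 1 0 0 0 0 1 0 0 0 0 1) := by
  ext i j
  fin_cases i <;> fin_cases j <;> rfl

/-- The short root subgroup on the pairs `0, 2` and `1, 3`. -/
def u1K (φ : K →+* K) : SL2 K →* GL (Fin (3 + 1)) K := MonoidHom.toHomUnits
  { toFun := fun A => (u1m (A.1 0 0) 0 (A.1 0 1) 0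
      0 (φ (A.1 0 0)) 0 (-φ (A.1 0 1))
      (A.1 1 0) 0 (A.1 1 1) 0
      0 (-φ (A.1 1 0)) 0 (φ (A.1 1 1)))
    map_one' := by rw [u1_one]; simp only [Nat.reduceAdd, Fin.isValue, Matrix.SpecialLinearGroup.coe_one, one_apply_eq, ne_eq, zero_ne_one, not_false_eq_true, one_apply_ne, map_one, map_zero, neg_zero, one_ne_zero]
    map_mul' := fun A B => by
      rw [u1_mul]
      refine u1_ext ?_
      simp only [Fin.isValue, Matrix.SpecialLinearGroup.coe_mul, Matrix.mul_apply, Fin.sum_univ_two, mul_zero, add_comm, zero_add, zero_mul, add_zero, mul_neg, neg_zero, map_add, map_mul, neg_mul, neg_neg, neg_add_rev, and_self] }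

/-- The short root subgroup on the pairs `0, 1` and `2, 3`. -/
def u1L (φ : K →+* K) : SL2 K →* GL (Fin (3 + 1)) K := MonoidHom.toHomUnits
  { toFun := fun A => (u1m (A.1 0 0) (A.1 0 1) 0 0
      (A.1 1 0) (A.1 1 1) 0 0
      0 0 (φ (A.1 0 0)) (φ (A.1 0 1))
      0 0 (φ (A.1 1 0)) (φ (A.1 1 1)))
    map_one' := by rw [u1_one]; simp only [Nat.reduceAdd, Fin.isValue, Matrix.SpecialLinearGroup.coe_one, one_apply_eq, ne_eq, zero_ne_one, not_false_eq_true, one_apply_ne, one_ne_zero, map_one, map_zero]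
    map_mul' := fun A B => by
      rw [u1_mul]
      refine u1_ext ?_
      simp only [Fin.isValue, Matrix.SpecialLinearGroup.coe_mul, Matrix.mul_apply, Fin.sum_univ_two, mul_zero, add_comm, zero_add, add_zero, zero_mul, map_add, map_mul, and_self] }

theorem u1K_val (A : SL2 K) : (u1K φ A).1 = (u1m (A.1 0 0) 0 (A.1 0 1) 0
      0 (φ (A.1 0 0)) 0 (-φ (A.1 0 1))
      (A.1 1 0) 0 (A.1 1 1) 0
      0 (-φ (A.1 1 0)) 0 (φ (A.1 1 1))) := rfl

theorem u1L_val (A : SL2 K) : (u1L φ A).1 = (u1m (A.1 0 0) (A.1 0 1) 0 0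
      (A.1 1 0) (A.1 1 1) 0 0
      0 0 (φ (A.1 0 0)) (φ (A.1 0 1))
      0 0 (φ (A.1 1 0)) (φ (A.1 1 1))) := rfl

theorem u1Kx (s : K) : (u1K φ (mx s)).1 = (u1m 1 0 s 0 0 1 0 (-φ s) 0 0 1 0 0 0 0 1) := by
  simp [u1K_val, mx]

theorem u1Kz (s : K) : (u1K φ (mz s)).1 = (u1m 1 0 0 0 0 1 0 0 (-s) 0 1 0 0 (φ s) 0 1) := by
  simp [u1K_val, mz]

theorem u1Lx (s : K) : (u1L φ (mx s)).1 = (u1m 1 s 0 0 0 1 0 0 0 0 1 (φ s) 0 0 0 1) := by
  simp [u1L_val, mx]

theorem u1Lz (s : K) : (u1L φ (mz s)).1 = (u1m 1 0 0 0 (-s) 1 0 0 0 0 1 0 0 0 (-φ s) 1) := by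
  simp [u1L_val, mz]

theorem u1e03 (s : K) : (el (0 : Fin (3 + 1)) 3 s).1 =
    (u1m 1 0 0 s 0 1 0 0 0 0 1 0 0 0 0 1) := by
  rw [el_val (by decide)]
  ext i j
  fin_cases i <;> fin_cases j <;> simp [u1m, Matrix.single]

theorem u1e12 (s : K) : (el (1 : Fin (3 + 1)) 2 s).1 =
    (u1m 1 0 0 0 0 1 s 0 0 0 1 0 0 0 0 1) := by
  rw [el_val (by decide)]
  ext i j
  fin_cases i <;> fin_cases j <;> simp [u1m, Matrix.single]

theorem u1e21 (s : K) : (el (2 : Fin (3 + 1)) 1 s).1 =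
    (u1m 1 0 0 0 0 1 0 0 0 s 1 0 0 0 0 1) := by
  rw [el_val (by decide)]
  ext i j
  fin_cases i <;> fin_cases j <;> simp [u1m, Matrix.single]

theorem u1_sh (hφ : ∀ s, φ (φ s) = s) {i j : Fin (3 + 1)} (h : i ≠ j) (h1 : j ≠ i.rev)
    (g : GL (Fin (3 + 1)) K) : g ∈ rt φ i j ↔
      ∃ s, g.1 = 1 + (single i j s + single j.rev i.rev (-(-1) ^ ((i : ℕ) + j) * φ s)) := by
  have h3 : ∀ k : Fin (3 + 1), k ≠ k.rev := by decide
  rw [rt_short hφ h h1 (h3 i) (h3 j)]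
  exact exists_congr fun s => by rw [← natb1_val h (h3 j), Units.ext_iff]

theorem u1_02 (hφ : ∀ s, φ (φ s) = s) (g : GL (Fin (3 + 1)) K) :
    g ∈ rt φ 0 2 ↔ ∃ s, g = u1K φ (mx s) := by
  rw [u1_sh hφ (by decide) (by decide)]
  refine exists_congr fun s => ?_
  rw [Units.ext_iff, u1Kx]
  refine Eq.congr_right ?_
  ext i j
  fin_cases i <;> fin_cases j <;> simp only [Nat.reduceAdd, single, Fin.isValue, Fin.rev, Fin.coe_ofNat_eq_mod, Nat.reduceMod, Nat.reduceSub, Fin.mk_one, Nat.zero_mod, zero_add, Nat.add_one_sub_one, Fin.reduceFinMk, even_two, Even.neg_pow, one_pow, neg_mul, one_mul, of_add_of, Fin.zero_eta, Matrix.add_apply, one_apply_eq, of_apply, Pi.add_apply, true_and, one_ne_zero, false_and, ↓ reduceIte, Fin.reduceEq, add_zero, u1m, cons_val', cons_val_zero, cons_val_fin_one, ne_eq, zero_ne_one, not_false_eq_true, one_apply_ne, cons_val_one, cons_val]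

theorem u1_20 (hφ : ∀ s, φ (φ s) = s) (g : GL (Fin (3 + 1)) K) :
    g ∈ rt φ 2 0 ↔ ∃ s, g = u1K φ (mz (-s)) := by
  rw [u1_sh hφ (by decide) (by decide)]
  refine exists_congr fun s => ?_
  rw [Units.ext_iff, u1Kz]
  refine Eq.congr_right ?_
  ext i j
  fin_cases i <;> fin_cases j <;> simp only [Nat.reduceAdd, single, Fin.isValue, Fin.rev, Fin.coe_ofNat_eq_mod, Nat.zero_mod, zero_add, Nat.add_one_sub_one, Fin.reduceFinMk, Nat.reduceMod, Nat.reduceSub, Fin.mk_one, add_zero, even_two, Even.neg_pow, one_pow, neg_mul, one_mul, of_add_of, Fin.zero_eta, Matrix.add_apply, one_apply_eq, of_apply, Pi.add_apply, Fin.reduceEq, false_and, ↓ reduceIte, u1m, neg_neg, map_neg, cons_val', cons_val_zero, cons_val_fin_one, ne_eq, zero_ne_one, not_false_eq_true, one_apply_ne, cons_val_one, cons_val, one_ne_zero, true_and]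

theorem u1_01 (hφ : ∀ s, φ (φ s) = s) (g : GL (Fin (3 + 1)) K) :
    g ∈ rt φ 0 1 ↔ ∃ s, g = u1L φ (mx s) := by
  rw [u1_sh hφ (by decide) (by decide)]
  refine exists_congr fun s => ?_
  rw [Units.ext_iff, u1Lx]
  refine Eq.congr_right ?_
  ext i j
  fin_cases i <;> fin_cases j <;> simp only [Nat.reduceAdd, single, Fin.isValue, Fin.rev, Fin.coe_ofNat_eq_mod, Nat.one_mod, Nat.reduceSub, Fin.reduceFinMk, Nat.zero_mod, zero_add, Nat.add_one_sub_one, pow_one, neg_neg, one_mul, of_add_of, Fin.zero_eta, Matrix.add_apply, one_apply_eq, of_apply, Pi.add_apply, true_and, Fin.reduceEq, false_and, ↓ reduceIte, one_ne_zero, add_zero, u1m, cons_val', cons_val_zero, cons_val_fin_one, Fin.mk_one, ne_eq, zero_ne_one, not_false_eq_true, one_apply_ne, cons_val_one, cons_val]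

theorem u1_10 (hφ : ∀ s, φ (φ s) = s) (g : GL (Fin (3 + 1)) K) :
    g ∈ rt φ 1 0 ↔ ∃ s, g = u1L φ (mz (-s)) := by
  rw [u1_sh hφ (by decide) (by decide)]
  refine exists_congr fun s => ?_
  rw [Units.ext_iff, u1Lz]
  refine Eq.congr_right ?_
  ext i j
  fin_cases i <;> fin_cases j <;> simp only [Nat.reduceAdd, single, Fin.isValue, Fin.rev, Fin.coe_ofNat_eq_mod, Nat.zero_mod, zero_add, Nat.add_one_sub_one, Fin.reduceFinMk, Nat.one_mod, Nat.reduceSub, add_zero, pow_one, neg_neg, one_mul, of_add_of, Fin.zero_eta, Matrix.add_apply, one_apply_eq, of_apply, Pi.add_apply, one_ne_zero, false_and, ↓ reduceIte, Fin.reduceEq, u1m, map_neg, cons_val', cons_val_zero, cons_val_fin_one, Fin.mk_one, ne_eq, zero_ne_one, not_false_eq_true, one_apply_ne, cons_val_one, cons_val, true_and]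

theorem u1K_mem (hφ : ∀ s, φ (φ s) = s) (A : SL2 K) : u1K φ A ∈ sug 3 φ :=
  sl2_gen (fun s => rt_mem ((u1_02 hφ _).2 ⟨s, rfl⟩))
    (fun s => rt_mem ((u1_20 hφ _).2 ⟨-s, by rw [neg_neg]⟩)) A

theorem u1L_mem (hφ : ∀ s, φ (φ s) = s) (A : SL2 K) : u1L φ A ∈ sug 3 φ :=
  sl2_gen (fun s => rt_mem ((u1_01 hφ _).2 ⟨s, rfl⟩))
    (fun s => rt_mem ((u1_10 hφ _).2 ⟨-s, by rw [neg_neg]⟩)) A

theorem u1_nor {g : GL (Fin (3 + 1)) K} (π : Equiv.Perm (Fin (3 + 1)))
    (h : ∀ i j, i ≠ π j → g.1 i j = 0) : ∃ d, g = mon π d := by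
  have h0 : ∀ j, g.1 (π j) j ≠ 0 := fun j e => by
    have := congrFun (congrFun g.inv_mul j) j
    rw [Matrix.mul_apply, Finset.sum_eq_zero, one_apply_eq] at this
    · exact zero_ne_one this
    · intro k _
      by_cases hk : k = π j
      · rw [hk, e, mul_zero]
      · rw [h k j hk, mul_zero]
  refine ⟨fun j => Units.mk0 _ (h0 j), Units.ext (Matrix.ext fun i j => ?_)⟩
  rw [mon_val]
  split_ifs with e
  · rw [e]; rfl
  · exact h i j e

theorem u1_sc {g : GL (Fin (3 + 1)) K} {z : K}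
    (h : g.1 = (u1m z 0 0 0 0 z 0 0 0 0 z 0 0 0 0 z)) : Sc g := by
  refine ⟨z, h.trans ?_⟩
  ext i j
  fin_cases i <;> fin_cases j <;> simp [u1m]

/-- The diagonal involution. -/
def u1b (K : Type) [Field K] : GL (Fin (3 + 1)) K :=
  el 1 2 1 * el 2 1 (-1) * el 1 2 1 * (el 1 2 1 * el 2 1 (-1) * el 1 2 1)

theorem u1b_val : (u1b K).1 = (u1m 1 0 0 0 0 (-1) 0 0 0 0 (-1) 0 0 0 0 1) := by
  simp only [u1b, Units.val_mul, u1e12, u1e21, u1_mul, mul_zero, zero_mul, add_zero, zero_add, mul_one, one_mul,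
      neg_zero, u1_inj, true_and, and_true]
  simp

theorem u1_12 (hφ : ∀ s, φ (φ s) = s) (g : GL (Fin (3 + 1)) K) :
    g ∈ rt φ 1 2 ↔ ∃ s, φ s = s ∧ g = el 1 2 s := by
  have := rt_long (r := 3) hφ (i := 1) (by decide) g
  rw [show ((-1 : K)) ^ (3 + 1) = 1 by norm_num] at this
  simp only [one_mul] at this
  exact this

theorem u1_21 (hφ : ∀ s, φ (φ s) = s) (g : GL (Fin (3 + 1)) K) :
    g ∈ rt φ 2 1 ↔ ∃ s, φ s = s ∧ g = el 2 1 s := by
  have := rt_long (r := 3) hφ (i := 2) (by decide) g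
  rw [show ((-1 : K)) ^ (3 + 1) = 1 by norm_num] at this
  simp only [one_mul] at this
  exact this

theorem u1b_mem (hφ : ∀ s, φ (φ s) = s) : u1b K ∈ sug 3 φ := by
  have h1 : el 1 2 1 ∈ sug 3 φ := rt_mem ((u1_12 hφ _).2 ⟨1, by simp, rfl⟩)
  have h2 : el 2 1 (-1) ∈ sug 3 φ := rt_mem ((u1_21 hφ _).2 ⟨-1, by simp only [map_neg, map_one], rfl⟩)
  exact mul_mem (mul_mem (mul_mem h1 h2) h1) (mul_mem (mul_mem h1 h2) h1)

/-- The unipotent elements of the Levi subgroup. -/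
def u1u (φ : K →+* K) (ρ m : K) : GL (Fin (3 + 1)) K := u1L φ (mz ρ * mx (m / ρ) * (mz ρ)⁻¹)

theorem u1u_add (ρ m n : K) : u1u φ ρ (m + n) = u1u φ ρ m * u1u φ ρ n := by
  rw [u1u, u1u, u1u, ← map_mul, add_div, sl2c_add]
  congr 1
  group

theorem u1u_zero (ρ : K) : u1u φ ρ 0 = 1 := by
  rw [u1u, zero_div, sl2c_zero, mul_one, mul_inv_cancel, map_one]

theorem u1u_pow (ρ : K) (n : ℕ) : u1u φ ρ 1 ^ n = u1u φ ρ n := by
  induction n with
  | zero => rw [pow_zero, Nat.cast_zero, u1u_zero]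
  | succ n ih => rw [pow_succ, ih, Nat.cast_succ, u1u_add]

theorem u1u_val {ρ σ m : K} (r0 : ρ ≠ 0) (s0 : σ ≠ 0) (hρ : φ ρ = σ) (hm : φ m = m) :
    (u1u φ ρ m).1 = (u1m (1 + m) (m / ρ) 0 0
      (-(m * ρ)) (1 - m) 0 0
      0 0 (1 + m) (m / σ)
      0 0 (-(m * σ)) (1 - m)) := by
  have e : (mz ρ : SL2 K)⁻¹ = mz (-ρ) :=
    inv_eq_of_mul_eq_one_right (sl2c_ext (by simp [mz, one_fin_two]))
  simp only [u1u, e, map_mul, Units.val_mul, u1Lx, u1Lz, u1_mul, mul_zero, zero_mul, add_zero, zero_add, mul_one, one_mul,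
      neg_zero, u1_inj, true_and, and_true, map_neg, map_div₀, hρ, hm]
  and_intros <;> first | ring1 | (field_simp; try ring1)

theorem u1_mdg (a : Kˣ) (n : ℕ) : mdg a ^ n = mdg (a ^ n) := by
  induction n with
  | zero => exact sl2c_ext (by simp [mdg, one_fin_two])
  | succ n ih => rw [pow_succ, ih]; exact sl2c_ext (by simp [mdg, pow_succ, mul_comm])

theorem u1_gen (hφ : ∀ s, φ (φ s) = s) (h2 : (2 : K) ≠ 0) {θ ρ σ : K} (t0 : θ ≠ 0) (r0 : ρ ≠ 0)
    (s0 : σ ≠ 0) (hθ : φ θ = -θ) (hρ : φ ρ = σ) (hσ : φ σ = ρ) (ne : ρ ^ 2 ≠ σ ^ 2)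
    {d : GL (Fin (3 + 1)) K}
    (hd : d.1 = (u1m 0 0 0 θ⁻¹ 0 0 (ρ * σ / θ) 0 0 (θ / (ρ * σ)) 0 0 θ 0 0 0))
    {H : Subgroup (GL (Fin (3 + 1)) K)} (md : d ∈ H) (mb : u1b K ∈ H) (mu : u1u φ ρ 1 ∈ H)
    (mp : ∀ r, φ r = r → u1K φ (mx r) ∈ H) (i : Fin 3) :
    rt φ i.castSucc i.succ ⊆ H ∧ rt φ i.succ i.castSucc ⊆ H := by
  have p0 : ρ + σ ≠ 0 := fun e => ne (by rw [eq_neg_of_add_eq_zero_left e, neg_sq])
  have h4 : (4 : K) ≠ 0 := by rw [show (4 : K) = 2 * 2 by norm_num]; exact mul_ne_zero h2 h2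
  have mu' : u1u φ ρ (-1) ∈ H := by
    rw [eq_inv_of_mul_eq_one_left (show u1u φ ρ (-1) * u1u φ ρ 1 = 1 by
      rw [← u1u_add, neg_add_cancel, u1u_zero])]
    exact inv_mem mu
  have v1 := u1u_val r0 s0 hρ (map_one φ)
  have v2 := u1u_val (m := -1) r0 s0 hρ (by simp only [map_neg, map_one])
  have i1 : ∀ r, φ r = r → u1u φ ρ 1 * u1K φ (mx r) * u1u φ ρ (-1) =
      u1K φ (mx (-(r * σ / ρ))) * el 0 3 (-(2 * (ρ + σ) / (ρ * σ) * r)) := fun r hr => by
    apply Units.ext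
    simp only [Units.val_mul, v1, v2, u1Kx, u1e03, u1_mul, mul_zero, zero_mul, add_zero, zero_add, mul_one, one_mul,
      neg_zero, u1_inj, true_and, and_true, map_neg, map_div₀, map_mul, hρ, hσ, hr]
    and_intros <;> first | ring1 | (field_simp; try ring1)
  have i2 : ∀ r, φ r = r → u1u φ ρ (-1) * u1K φ (mx r) * u1u φ ρ 1 =
      u1K φ (mx (-(r * σ / ρ))) * el 1 2 (2 * (ρ + σ) * r) := fun r hr => by
    apply Units.ext
    simp only [Units.val_mul, v1, v2, u1Kx, u1e12, u1_mul, mul_zero, zero_mul, add_zero, zero_add, mul_one, one_mul,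
      neg_zero, u1_inj, true_and, and_true, map_neg, map_div₀, map_mul, hρ, hσ, hr]
    and_intros <;> first | ring1 | (field_simp; try ring1)
  have e03 : ∀ a, φ a = a → el 0 3 a ∈ H := fun a ha => by
    have k := mul_mem (mul_mem mu (mp (-(a * (ρ * σ) / (4 * (ρ + σ)))) (by
      simp only [map_neg, map_div₀, map_mul, map_add, map_ofNat, hρ, hσ, ha]; ring))) mu'
    rw [i1 _ (by simp only [map_neg, map_div₀, map_mul, map_add, map_ofNat, hρ, hσ, ha]; ring)] at k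
    convert mul_mem k (mul_mem (mul_mem mb k) mb) using 1
    apply Units.ext
    simp only [Units.val_mul, u1b_val, u1Kx, u1e03, u1_mul, mul_zero, zero_mul, add_zero, zero_add, mul_one, one_mul,
      neg_zero, u1_inj, true_and, and_true]
    and_intros <;> first | ring1 | (field_simp; try ring1)
  have e12 : ∀ a, φ a = a → el 1 2 a ∈ H := fun a ha => by
    have k := mul_mem (mul_mem mu' (mp (a / (4 * (ρ + σ))) (by
      simp only [map_div₀, map_mul, map_add, map_ofNat, hρ, hσ, ha]; ring))) mu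
    rw [i2 _ (by simp only [map_div₀, map_mul, map_add, map_ofNat, hρ, hσ, ha]; ring)] at k
    convert mul_mem k (mul_mem (mul_mem mb k) mb) using 1
    apply Units.ext
    simp only [Units.val_mul, u1b_val, u1Kx, u1e12, u1_mul, mul_zero, zero_mul, add_zero, zero_add, mul_one, one_mul,
      neg_zero, u1_inj, true_and, and_true]
    and_intros <;> first | ring1 | (field_simp; try ring1)
  have kx : ∀ s, u1K φ (mx s) ∈ H := fun s => by
    have w0 : ρ ^ 2 - σ ^ 2 ≠ 0 := sub_ne_zero.2 ne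
    have w1 : σ ^ 2 - ρ ^ 2 ≠ 0 := sub_ne_zero.2 ne.symm
    obtain ⟨β, hβ⟩ : ∃ β, β = (s - φ s) * (ρ * σ) / (ρ ^ 2 - σ ^ 2) := ⟨_, rfl⟩
    have fβ : φ β = β := by
      rw [hβ]
      simp only [map_div₀, map_mul, map_sub, map_pow, hρ, hσ, hφ]
      field_simp
      ring
    have k := mul_mem (mul_mem mu' (mp β fβ)) mu
    rw [i2 _ fβ] at k
    have k2 := (mul_mem_cancel_right (e12 _ (by
      simp only [map_mul, map_add, map_ofNat, hρ, hσ, fβ]; ring))).1 k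
    have k3 := mul_mem (mp (s + β * σ / ρ) (by
      simp only [map_div₀, map_mul, map_add, hρ, hσ, fβ]
      rw [hβ]
      field_simp
      ring)) k2
    rwa [← map_mul, ← sl2c_add, add_neg_cancel_right] at k3
  have e21 : ∀ a, φ a = a → el 2 1 a ∈ H := fun a ha => by
    convert mul_mem (mul_mem md (e12 (a * (ρ * σ / θ) ^ 2) (by
      simp only [map_div₀, map_mul, map_pow, hρ, hσ, hθ, ha]; ring))) md using 1
    apply Units.ext
    simp only [Units.val_mul, hd, u1e21, u1e12, u1_mul, mul_zero, zero_mul, add_zero, zero_add, mul_one, one_mul,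
      neg_zero, u1_inj, true_and, and_true]
    and_intros <;> first | ring1 | (field_simp; try ring1)
  have lx : ∀ s, u1L φ (mx s) ∈ H := fun s => by
    convert mul_mem (mul_mem (mul_mem (mul_mem (e21 1 (map_one φ)) (kx (-s))) (e21 (-1) (by simp only [map_neg, map_one])))
      (kx s)) (e03 (s * φ s) (by rw [map_mul, hφ, mul_comm])) using 1
    apply Units.ext
    simp only [Units.val_mul, u1Lx, u1Kx, u1e21, u1e03, u1_mul, mul_zero, zero_mul, add_zero, zero_add, mul_one, one_mul,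
      neg_zero, u1_inj, true_and, and_true, map_neg]
    and_intros <;> ring1
  have lz : ∀ s, u1L φ (mz (-s)) ∈ H := fun s => by
    convert mul_mem (mul_mem md (lx (φ s / (ρ * σ)))) md using 1
    apply Units.ext
    simp only [Units.val_mul, hd, u1Lx, u1Lz, u1_mul, mul_zero, zero_mul, add_zero, zero_add, mul_one, one_mul,
      neg_zero, u1_inj, true_and, and_true, map_neg, map_div₀, map_mul, hρ, hσ, hφ]
    and_intros <;> first | ring1 | (field_simp; try ring1)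
  have a01 : rt φ 0 1 ⊆ H := fun g hg => by
    obtain ⟨s, rfl⟩ := (u1_01 hφ g).1 hg
    exact lx s
  have a10 : rt φ 1 0 ⊆ H := fun g hg => by
    obtain ⟨s, rfl⟩ := (u1_10 hφ g).1 hg
    exact lz s
  fin_cases i
  · exact ⟨a01, a10⟩
  · refine ⟨fun g hg => ?_, fun g hg => ?_⟩
    · obtain ⟨s, hs, rfl⟩ := (u1_12 hφ g).1 hg
      exact e12 s hs
    · obtain ⟨s, hs, rfl⟩ := (u1_21 hφ g).1 hg
      exact e21 s hs
  · exact ⟨(rt_rev (φ := φ) (0 : Fin (3 + 1)) 1).subset.trans a01,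
      (rt_rev (φ := φ) (1 : Fin (3 + 1)) 0).subset.trans a10⟩

end Pool.Agent.MP_c78e8e_al.H75

end

section

set_option linter.unusedSimpArgs false

namespace Pool.Agent.MP_c78e8e_al.H75

open Subgroup Matrix

variable {K : Type} [Field K] {φ : K →+* K}

theorem u1_par [Finite K] (hφ : ∀ s, φ (φ s) = s) (ne : φ ≠ RingHom.id K) (h2 : (2 : K) ≠ 0)
    (h9 : Nat.card K ≠ 9) (h25 : Nat.card K ≠ 25) : ∃ (θ ρ : K) (y κ : Fix φ), φ θ = -θ ∧ θ * θ = y ∧
      ρ * φ ρ = κ ∧ y ≠ 0 ∧ κ ≠ 0 ∧ ρ ^ 2 ≠ φ ρ ^ 2 ∧ Spn (y ^ 2) ∧ Sol (y ^ 2) (-(y / κ)⁻¹) (-1) := by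
  obtain ⟨y, y0, hy⟩ := sl2f_gen (K := Fix φ)
  obtain ⟨t, t0, ht⟩ := skew_ex hφ ne
  have h2' : (2 : Fix φ) ≠ 0 := fun e => h2 (by
    have := congrArg (Fix φ).subtype e; rwa [map_ofNat, map_zero] at this)
  have fx : ∀ s : Fix φ, φ s = s := fun s => s.2
  have hc := (card_fix hφ ne).1
  have nf : ∀ s : K, s ≠ 0 → φ s = -s → φ s ≠ s := fun s s0 e e' =>
    mul_ne_zero h2 s0 (by linear_combination e - e')
  obtain ⟨θ, hθ, hθy⟩ : ∃ θ : K, φ θ = -θ ∧ θ * θ = y := by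
    obtain ⟨m, hm⟩ := hy ⟨t * t, by simp [ht]⟩ (fun e => mul_ne_zero t0 t0 (congrArg Subtype.val e))
    have hm' : t * t = (y : K) ^ m := by simpa using congrArg Subtype.val hm
    have y0' : (y : K) ≠ 0 := fun e => y0 (Subtype.ext e)
    rcases Nat.even_or_odd' m with ⟨k, rfl | rfl⟩
    · exfalso
      rw [pow_mul', sq, mul_self_eq_mul_self_iff] at hm'
      refine nf t t0 ht ?_
      rcases hm' with e | e <;> rw [e] <;> simp only [map_pow, fx, map_neg]
    · refine ⟨t / y ^ k, by simp [ht, fx, neg_div], ?_⟩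
      rw [div_mul_div_comm, hm']
      field_simp
      ring
  have q7 : 7 ≤ Nat.card (Fix φ) := by
    have := Fintype.ofFinite (Fix φ)
    have o := FiniteField.odd_card_of_char_ne_two (F := Fix φ) fun e =>
      h2' (by simpa only [e, Nat.cast_ofNat] using ringChar.Nat.cast_ringChar (R := Fix φ))
    have o2 := Fintype.one_lt_card (α := Fix φ)
    rw [← Nat.card_eq_fintype_card] at o o2
    by_contra hq
    have : Nat.card (Fix φ) = 3 ∨ Nat.card (Fix φ) = 5 := by omega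
    rcases this with e | e <;> rw [e] at hc
    · exact h9 hc
    · exact h25 hc
  have y4 : y ^ 4 ≠ 1 := fun e => by
    have h1 : ∀ u : (Fix φ)ˣ, u ^ 4 = 1 := fun u => by
      obtain ⟨n, hn⟩ := hy u u.ne_zero
      apply Units.ext
      rw [Units.val_pow_eq_pow_val, hn, ← pow_mul, mul_comm, pow_mul, e, one_pow, Units.val_one]
    have h3 := Nat.le_of_dvd (by norm_num) (Monoid.exponent_dvd_of_forall_pow_eq_one h1)
    rw [IsCyclic.exponent_eq_card, Nat.card_units] at h3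
    omega
  obtain ⟨κ, k0, so⟩ := sol_free h2' (pow_ne_zero 2 y0) (x := y ^ 2)
    (fun e => y4 (by rw [show y ^ 4 = (y ^ 2) ^ 2 by ring, e, one_pow]))
    (fun e => y4 (by rw [show y ^ 4 = (y ^ 2) ^ 2 by ring, e, neg_one_sq]))
    (neg_ne_zero.2 (inv_ne_zero y0))
  obtain ⟨ρ, hρ, hn⟩ : ∃ ρ : K, ρ * φ ρ = κ ∧ ρ ^ 2 ≠ φ ρ ^ 2 := by
    obtain ⟨ρ, hρ⟩ := norm_surj hφ ne (fx κ)
    by_cases e : ρ ^ 2 = φ ρ ^ 2
    · obtain ⟨z, z1, z2, -⟩ := norm_gen hφ ne
      have r0 : ρ ≠ 0 := fun e => k0 (Subtype.ext (by rw [← hρ, e, zero_mul]; rfl))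
      refine ⟨ρ * z, by rw [map_mul, mul_mul_mul_comm, hρ, z1, mul_one], fun e' => ?_⟩
      rw [map_mul, mul_pow, mul_pow, ← e, mul_right_inj' (pow_ne_zero 2 r0)] at e'
      have : z ^ 4 = 1 := by linear_combination z ^ 2 * e' + (z * φ z + 1) * z1
      have := Nat.le_of_dvd (by norm_num) (orderOf_dvd_of_pow_eq_one this)
      omega
    · exact ⟨ρ, hρ, e⟩
  refine ⟨θ, ρ, y, κ, hθ, hθy, hρ, y0, k0, hn, spn_sq fun s s0 => ?_, ?_⟩
  · obtain ⟨n, rfl⟩ := hy s s0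
    exact ⟨n, by ring⟩
  · convert so using 1
    field_simp

theorem u1_main [Finite K] (hφ : ∀ s, φ (φ s) = s) (ne : φ ≠ RingHom.id K) (h2 : (2 : K) ≠ 0)
    (h9 : Nat.card K ≠ 9) (h25 : Nat.card K ≠ 25) :
    IsLeast {n | Good (chev (CartanMatrix.A 3) Fin.revPerm φ) n} 3 := by
  obtain ⟨θ, ρ, y, κ, hθ, hy, hκ, y0, k0, hn, sp, so⟩ := u1_par hφ ne h2 h9 h25
  obtain ⟨σ, hρ⟩ : ∃ σ, φ ρ = σ := ⟨_, rfl⟩
  have hσ : φ σ = ρ := by rw [← hρ, hφ]
  rw [hρ] at hκ hn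
  have fx : ∀ s : Fix φ, φ s = s := fun s => s.2
  have t0 : θ ≠ 0 := fun e => y0 (Subtype.ext (by rw [← hy, e, zero_mul]; rfl))
  have r0 : ρ ≠ 0 := fun e => k0 (Subtype.ext (by rw [← hκ, e, zero_mul]; rfl))
  have s0 : σ ≠ 0 := fun e => k0 (Subtype.ext (by rw [← hκ, e, mul_zero]; rfl))
  have h2' : φ 2 = 2 := map_ofNat φ 2
  obtain ⟨ψ, hψ⟩ : ∃ ψ : SL2 (Fix φ) →* GL (Fin (3 + 1)) K,
      ψ = (u1K φ).comp (SpecialLinearGroup.map (Fix φ).subtype) := ⟨_, rfl⟩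
  have px : ∀ s, ψ (mx s) = u1K φ (mx s) := fun s => by
    rw [hψ]
    exact congrArg (u1K φ) (sl2c_ext (by ext i j; fin_cases i <;> fin_cases j <;> simp only [mx, Fin.zero_eta, Fin.isValue, SpecialLinearGroup.map_apply_coe, RingHom.mapMatrix_apply, Subfield.coe_subtype, map_apply, of_apply, cons_val', cons_val_zero, cons_val_fin_one, OneMemClass.coe_one, Fin.mk_one, cons_val_one, ZeroMemClass.coe_zero]))
  have pz : ∀ s, ψ (mz s) = u1K φ (mz s) := fun s => by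
    rw [hψ]
    exact congrArg (u1K φ) (sl2c_ext (by ext i j; fin_cases i <;> fin_cases j <;> simp only [mz, Fin.zero_eta, Fin.isValue, SpecialLinearGroup.map_apply_coe, RingHom.mapMatrix_apply, Subfield.coe_subtype, map_apply, of_apply, cons_val', cons_val_zero, cons_val_fin_one, OneMemClass.coe_one, Fin.mk_one, cons_val_one, ZeroMemClass.coe_zero, NegMemClass.coe_neg]))
  have pm : ∀ A, ψ A ∈ sug 3 φ := fun A => by rw [hψ]; exact u1K_mem hφ _
  have pw : (ψ mw).1 = (u1m 0 0 1 0 0 0 0 (-1) (-1) 0 0 0 0 1 0 0) := by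
    rw [hψ]
    simp only [Nat.reduceAdd, mw, MonoidHom.coe_comp, Function.comp_apply, u1K_val, Fin.isValue, SpecialLinearGroup.map_apply_coe, RingHom.mapMatrix_apply, Subfield.coe_subtype, map_apply, of_apply, cons_val', cons_val_zero, cons_val_fin_one, ZeroMemClass.coe_zero, cons_val_one, OneMemClass.coe_one, map_zero, map_one, NegMemClass.coe_neg, map_neg, neg_neg]
  obtain ⟨g, hg⟩ : ∃ g, g = u1K φ (mx (-(ρ / θ))) * u1K φ (mz (-(θ / (2 * ρ)))) *
    u1L φ (mz (-σ)) * u1L φ (mx (-(2 * σ)⁻¹)) := ⟨_, rfl⟩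
  have mg : g ∈ sug 3 φ := hg ▸ mul_mem (mul_mem (mul_mem (u1K_mem hφ _) (u1K_mem hφ _))
    (u1L_mem hφ _)) (u1L_mem hφ _)
  have dd : (u1m 0 0 0 θ⁻¹ 0 0 (ρ * σ / θ) 0 0 (θ / (ρ * σ)) 0 0 θ 0 0 0) *
      (u1m 0 0 0 θ⁻¹ 0 0 (ρ * σ / θ) 0 0 (θ / (ρ * σ)) 0 0 θ 0 0 0) = 1 := by
    simp only [u1_one, u1_mul, mul_zero, zero_mul,
      add_zero, zero_add, mul_one, one_mul, neg_zero, u1_inj, true_and, and_true]
    and_intros <;> first | ring1 | (field_simp; try ring1)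
  obtain ⟨d, hd⟩ : ∃ d : GL (Fin (3 + 1)) K,
      d.1 = (u1m 0 0 0 θ⁻¹ 0 0 (ρ * σ / θ) 0 0 (θ / (ρ * σ)) 0 0 θ 0 0 0) :=
    ⟨⟨_, _, dd, dd⟩, rfl⟩
  have d2 : d * d = 1 := Units.ext (by rw [Units.val_mul, hd, dd, Units.val_one])
  have gd : g * u1b K * g⁻¹ = d := by
    refine mul_inv_eq_iff_eq_mul.2 (Units.ext ?_)
    simp only [hg, Units.val_mul, hd, u1b_val, u1Kx, u1Kz, u1Lx, u1Lz, map_neg, map_div₀, map_mul,
      map_inv₀, hθ, hρ, hσ, h2', u1_mul, mul_zero, zero_mul,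
        add_zero, zero_add, mul_one, one_mul, neg_zero, u1_inj, true_and, and_true]
    and_intros <;> first | ring1 | (field_simp; try ring1)
  have md : d ∈ sug 3 φ := gd ▸ mul_mem (mul_mem mg (u1b_mem hφ)) (inv_mem mg)
  obtain ⟨τ, hτ⟩ : ∃ τ, τ = u1K φ (mdg (Units.mk0 (θ * θ) (mul_ne_zero t0 t0))) := ⟨_, rfl⟩
  have vτ : τ.1 = (u1m (θ * θ) 0 0 0 0 (θ * θ) 0 0 0 0 ((θ * θ)⁻¹) 0 0 0 0 ((θ * θ)⁻¹)) := by
    rw [hτ]
    simp [u1K_val, mdg, hθ]
  obtain ⟨s, hs⟩ : ∃ s, s = u1b K * u1K φ (mdg (Units.mk0 θ t0)) * u1u φ ρ 2⁻¹ := ⟨_, rfl⟩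
  have ms : s ∈ sug 3 φ := hs ▸ mul_mem (mul_mem (u1b_mem hφ) (u1K_mem hφ _)) (u1L_mem hφ _)
  have vs : s.1 = (u1m (3 * θ / 2) (θ / (2 * ρ)) 0 0
      (-(θ * ρ / 2)) (θ / 2) 0 0
      0 0 (-(3 / (2 * θ))) (-(2 * θ * σ)⁻¹)
      0 0 (σ / (2 * θ)) (-(2 * θ)⁻¹)) := by
    have e : (u1K φ (mdg (Units.mk0 θ t0))).1 =
        (u1m θ 0 0 0 0 (-θ) 0 0 0 0 θ⁻¹ 0 0 0 0 (-θ⁻¹)) := by
      simp [u1K_val, mdg, hθ]
    simp only [hs, Units.val_mul, e, u1b_val, u1u_val r0 s0 hρ (show φ 2⁻¹ = 2⁻¹ by simp [h2']), u1_mul, mul_zero, zero_mul,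
      add_zero, zero_add, mul_one, one_mul, neg_zero, u1_inj, true_and, and_true]
    and_intros <;> first | ring1 | (field_simp; try ring1)
  have v1 := u1u_val r0 s0 hρ (map_one φ)
  have ss : s * s = τ * u1u φ ρ 1 := by
    apply Units.ext
    simp only [Units.val_mul, vs, vτ, v1, u1_mul, mul_zero, zero_mul,
      add_zero, zero_add, mul_one, one_mul, neg_zero, u1_inj, true_and, and_true]
    and_intros <;> first | ring1 | (field_simp; try ring1)
  have cτ : Commute τ (u1u φ ρ 1) := by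
    apply Units.ext
    simp only [Units.val_mul, vτ, v1, u1_mul, mul_zero, zero_mul,
      add_zero, zero_add, mul_one, one_mul, neg_zero, u1_inj, true_and, and_true]
    and_intros <;> first | ring1 | (field_simp; try ring1)
  have hz : Sc (s * d * s * d) := by
    refine u1_sc (z := -1) ?_
    simp only [Units.val_mul, vs, hd, u1_mul, mul_zero, zero_mul,
      add_zero, zero_add, mul_one, one_mul, neg_zero, u1_inj, true_and, and_true]
    and_intros <;> first | ring1 | (field_simp; try ring1)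
  have nr : ∀ (g : GL (Fin (3 + 1)) K) (π : Equiv.Perm (Fin (3 + 1))),
      (∀ i j, i ≠ π j → g.1 i j = 0) → g ∈ normalizer ((dgl : Subgroup (GL (Fin (3 + 1)) K)) : Set _) :=
    fun g π h => by
      obtain ⟨e, rfl⟩ := u1_nor π h
      exact mon_norm _ _
  have b2 : u1b K * u1b K = 1 := by
    apply Units.ext
    simp only [Units.val_mul, u1b_val, Units.val_one, u1_one, u1_mul, mul_zero, zero_mul,
      add_zero, zero_add, mul_one, one_mul, neg_zero, u1_inj, true_and, and_true]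
    and_intros <;> first | ring1 | (field_simp; try ring1)
  obtain ⟨S, hS⟩ := r1m ψ (T := dgl) (τ := τ) (d := d) (b := u1b K) (by simp only [mul_neg, mul_one, neg_neg]) so sp dgl_nil
    (nr _ (Equiv.swap 0 2 * Equiv.swap 1 3) fun i j h => by
      rw [pw]; revert h; fin_cases i <;> fin_cases j <;> simp [u1m, Equiv.swap_apply_def])
    (fun a => nr _ 1 fun i j h => by
      rw [hψ]; revert h; fin_cases i <;> fin_cases j <;> simp only [Nat.reduceAdd, Fin.zero_eta, Fin.isValue, Equiv.Perm.coe_one, id_eq, ne_eq, not_true_eq_false, mdg, Units.val_inv_eq_inv_val, MonoidHom.coe_comp, Function.comp_apply, u1K_val, u1m, SpecialLinearGroup.map_apply_coe, RingHom.mapMatrix_apply, Subfield.coe_subtype, map_apply, of_apply, cons_val', cons_val_zero, cons_val_fin_one, cons_val_one, ZeroMemClass.coe_zero, map_zero, neg_zero, Subfield.coe_inv, map_inv₀, ZeroMemClass.coe_eq_zero, Units.ne_zero, imp_self, Fin.mk_one, zero_ne_one,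 not_false_eq_true, Fin.reduceFinMk, Fin.reduceEq, cons_val, one_ne_zero, map_eq_zero, inv_eq_zero])
    (by
      obtain ⟨e, he⟩ := u1_nor (g := τ) 1 fun i j h => by
        rw [vτ]; revert h; fin_cases i <;> fin_cases j <;> simp [u1m]
      exact mem_dgl.2 ⟨e, he⟩)
    (act_diag (pow_ne_zero 2 y0) (fun r => by
        refine mul_inv_eq_iff_eq_mul.2 (Units.ext ?_)
        simp only [px, Units.val_mul, vτ, u1Kx, fx, u1_mul, mul_zero, zero_mul,
          add_zero, zero_add, mul_one, one_mul, neg_zero, u1_inj, true_and, and_true]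
        push_cast
        rw [← hy]
        and_intros <;> first | ring1 | (field_simp; try ring1)) fun r => by
        refine mul_inv_eq_iff_eq_mul.2 (Units.ext ?_)
        simp only [pz, Units.val_mul, vτ, u1Kz, fx, u1_mul, mul_zero, zero_mul,
          add_zero, zero_add, mul_one, one_mul, neg_zero, u1_inj, true_and, and_true]
        push_cast
        rw [← hy]
        and_intros <;> first | ring1 | (field_simp; try ring1))
    (nr _ Fin.revPerm fun i j h => by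
      rw [hd]; revert h; fin_cases i <;> fin_cases j <;> simp only [Nat.reduceAdd, Fin.zero_eta, Fin.isValue, Fin.revPerm_apply, Fin.rev, Fin.coe_ofNat_eq_mod, Nat.zero_mod, zero_add, Nat.add_one_sub_one, Fin.reduceFinMk, ne_eq, Fin.reduceEq, not_false_eq_true, u1m, of_apply, cons_val', cons_val_zero, cons_val_fin_one, imp_self, Fin.mk_one, Nat.one_mod, Nat.reduceSub, cons_val_one, Nat.reduceMod, zero_ne_one, cons_val, Nat.mod_succ, tsub_self, not_true_eq_false, inv_eq_zero, IsEmpty.forall_iff, div_eq_zero_iff, mul_eq_zero, one_ne_zero])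
    (act_anti (div_ne_zero y0 k0) (fun r => by
        refine mul_inv_eq_iff_eq_mul.2 (Units.ext ?_)
        simp only [px, pz, Units.val_mul, hd, u1Kx, u1Kz, fx, u1_mul, mul_zero, zero_mul,
          add_zero, zero_add, mul_one, one_mul, neg_zero, u1_inj, true_and, and_true]
        push_cast
        rw [← hy, ← hκ]
        and_intros <;> first | ring1 | (field_simp; try ring1)) fun r => by
        refine mul_inv_eq_iff_eq_mul.2 (Units.ext ?_)
        simp only [px, pz, Units.val_mul, hd, u1Kx, u1Kz, fx, u1_mul, mul_zero, zero_mul,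
          add_zero, zero_add, mul_one, one_mul, neg_zero, u1_inj, true_and, and_true]
        push_cast
        rw [← hy, ← hκ]
        and_intros <;> first | ring1 | (field_simp; try ring1))
    (nr _ 1 fun i j h => by
      rw [u1b_val]; revert h; fin_cases i <;> fin_cases j <;> simp [u1m])
    (act_diag (neg_ne_zero.2 one_ne_zero) (fun r => by
        refine mul_inv_eq_iff_eq_mul.2 (Units.ext ?_)
        simp only [px, Units.val_mul, u1b_val, u1Kx, fx, u1_mul, mul_zero, zero_mul,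
          add_zero, zero_add, mul_one, one_mul, neg_zero, u1_inj, true_and, and_true]
        push_cast
        and_intros <;> first | ring1 | (field_simp; try ring1)) fun r => by
        refine mul_inv_eq_iff_eq_mul.2 (Units.ext ?_)
        simp only [pz, Units.val_mul, u1b_val, u1Kz, fx, u1_mul, mul_zero, zero_mul,
          add_zero, zero_add, mul_one, one_mul, neg_zero, u1_inj, true_and, and_true]
        push_cast
        and_intros <;> first | ring1 | (field_simp; try ring1))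
    (u1_sc (z := 1) (by
      simp only [Units.val_mul, u1b_val, pw, u1_mul, mul_zero, zero_mul,
        add_zero, zero_add, mul_one, one_mul, neg_zero, u1_inj, true_and, and_true]
      and_intros <;> first | ring1 | (field_simp; try ring1)))
    (u1_sc (z := 1) (by
      rw [inv_eq_of_mul_eq_one_right d2]
      simp only [Units.val_mul, u1b_val, hd, u1_mul, mul_zero, zero_mul,
        add_zero, zero_add, mul_one, one_mul, neg_zero, u1_inj, true_and, and_true]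
      and_intros <;> first | ring1 | (field_simp; try ring1)))
  obtain ⟨k1, k2⟩ := hS _ rfl
  have gb : u1K φ (mz (-1) * mx (-2⁻¹)) * u1b K * (u1K φ (mz (-1) * mx (-2⁻¹)))⁻¹ = u1b K * ψ mw := by
    refine mul_inv_eq_iff_eq_mul.2 (Units.ext ?_)
    simp only [map_mul, Units.val_mul, pw, u1b_val, u1Kx, u1Kz, map_neg, map_one, map_inv₀, h2', u1_mul, mul_zero, zero_mul,
      add_zero, zero_add, mul_one, one_mul, neg_zero, u1_inj, true_and, and_true]
    and_intros <;> first | ring1 | (field_simp; try ring1)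
  have c4 : 4 ≤ Nat.card K := by
    have := (card_fix hφ ne).1
    have h1 := Finite.one_lt_card (α := Fix φ)
    nlinarith only [this, h1]
  refine goodSU (by norm_num) hφ (fun _ => ne) (sug_ns le_rfl hφ (Or.inr c4))
    (a := d) (c := s⁻¹ * d * s) (g := ψ S * u1K φ (mz (-1) * mx (-2⁻¹)) * g⁻¹) (g' := s⁻¹) md
    (mul_mem (mul_mem (pm S) (mul_mem (u1b_mem hφ) (pm mw))) (inv_mem (pm S)))
    (mul_mem (mul_mem (inv_mem ms) md) ms)
    (mul_mem (mul_mem (pm S) (u1K_mem hφ _)) (inv_mem mg)) (inv_mem ms) (d2 ▸ sc_one)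
    (sc_of_eq (by rw [← gb, ← gd]; group)) (sc_of_eq (by group)) k1 fun H hc ha hb hc' => ?_
  have m1 : s * s ∈ H := by
    have e : s * s = d⁻¹ * (s⁻¹ * d * s) * (s * d * s * d) := by
      rw [mul_assoc d⁻¹, mul_assoc s⁻¹, mul_assoc s⁻¹, (hz.comm (d * s)).eq]
      calc s * s = d⁻¹ * (d * s * (d * d) * s * 1) * 1 * s⁻¹ * s := by rw [d2]; group
        _ = _ := by group
    rw [e]
    exact mul_mem (mul_mem (inv_mem ha) hc') (hc _ hz)
  have m2 : τ ∈ H := by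
    have := Fintype.ofFinite K
    have e : (s * s) ^ Fintype.card K = τ := by
      rw [ss, cτ.mul_pow, u1u_pow, FiniteField.cast_card_eq_zero, u1u_zero, mul_one, hτ, ← map_pow,
        u1_mdg]
      congr 2
      exact Units.ext (by simp [FiniteField.pow_card])
    exact e ▸ pow_mem m1 _
  obtain ⟨k3, k4⟩ := k2 H m2 ha hb
  exact u1_gen hφ h2 t0 r0 s0 hθ hρ hσ hn hd ha k4 ((mul_mem_cancel_left m2).1 (ss ▸ m1))
    fun r hr => px ⟨r, hr⟩ ▸ k3 _

theorem tU4 [Finite K] (hφ : ∀ s, φ (φ s) = s) (ne : φ ≠ RingHom.id K) (h : (2 : K) ≠ 0)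
    (h9 : Nat.card K ≠ 9) : IsLeast {n | Good (chev (CartanMatrix.A 3) Fin.revPerm φ) n} 3 := by
  by_cases h25 : Nat.card K = 25
  · exact evU4_25 hφ ne h25
  · exact u1_main hφ ne h h9 h25

end Pool.Agent.MP_c78e8e_al.H75

end
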