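import Pool.Agent.MP_c78e8e_al.Mg.Sg_Mon
import Pool.Agent.MP_c78e8e_al.Sg.Sl2
import Pool.Agent.MP_c78e8e_al.Mg.Sg_Ev

attribute [-instance] instNoNatZeroDivisorsOfIsAddTorsionFree
  DistribMulActionSemiHomClass.toAddMonoidHomClass NeZero.charZero_one SetLike.GradeZero.instSemiring
  SemilinearMapClass.toAddHomClass FiniteField.instGrindPowIdentity MonTypeEquivalenceMon.monMonoid
  Module.toMulActionWithZero SemilatticeInf.toPartialOrder IdemSemiring.toSemiring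
  UniformSpace.toTopologicalSpace SetLike.GradeZero.instMonoid SetLike.GradeZero.instCommRing
  RKHS.instFunLike instCharZeroOfIsSemireal CompletePartialOrder.toPartialOrder
  IsMulCommutative.is_comm littleWedderburn RingConeClass.toSubsemiringClass
  NonUnitalAlgSemiHomClass.toMulHomClass BialgHomClass.toMonoidHomClass Pi.hasLe
  Subfield.instMulActionSubtypeMem NonUnitalAlgHomClass.toNonUnitalRingHomClass
  ContinuousMonoidHom.instCoeOutOfMonoidHomClassOfContinuousMapClass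
  CommMonTypeEquivalenceCommMon.commMonCommMonoid GrpTypeEquivalenceGrp.grpGroup instCoeOutOfCoeFun
  FloorSemiring.instCharZero instCoeTCOfCoe AddCommGroup.toGrindIntModule Pi.preorder
  MulCharClass.toMonoidHomClass NormedRing.toRing ValuationClass.toMonoidWithZeroHomClass
  BooleanRing.toRing Subfield.instSMulWithZeroSubtypeMem NormedCommRing.toCommRing
  MonoidWithZero.toMulZeroOneClass RCLike.charZero_rclike IsStrictOrderedRing.toCharZero
  NormMulClass.toNoZeroDivisors LieRing.toAddCommGroup CommGrpTypeEquivalenceCommGrp.commGrpCommGroup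
  NumberField.to_charZero NormedField.toField SeminormedRing.toRing
  LieAdmissibleRing.toNonUnitalNonAssocRing SeminormedCommRing.toCommRing
  MonoidWithZero.toSemigroupWithZero MulDistribMulActionSemiHomClass.toMonoidHomClass
  instCommGroupOfIsSimpleGroupOfIsNilpotent NonUnitalRing.toNonUnitalSemiring
  EuclideanDomain.toCommRing AddSubmonoidWithOneClass.toAddSubmonoidClass NormedAlgebra.toAlgebra
  MulEquivClass.instMonoidHomClass AddGroupConeClass.toAddSubmonoidClass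
  NonUnitalNormedRing.toNormedAddCommGroup NonUnitalRing.toNonUnitalNonAssocRing
  instIsRightCancelAddOfAddRightReflectLE IsometryClass.instCoeOutIsometryEquiv
  SetLike.GradeZero.instCommMonoid Units.instPreorder GradedMonoid.GradeZero.commMonoid
  BooleanRing.instIdempotentOpHMul HomeomorphClass.instCoeOutHomeomorph
  ContinuousAddMonoidHom.instCoeOutOfAddMonoidHomClassOfContinuousMapClass
  NonUnitalNormedCommRing.toNonUnitalCommRing IsFormallyReal.instIsReduced Unique.instSubsingleton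
  GroupConeClass.toSubmonoidClass NonAssocCommSemiring.toNonAssocSemiring
  CommSemiring.toNonUnitalCommSemiring AddCommGroupWithOne.toAddGroupWithOne
  LinearOrderedCommGroupWithZero.toCommGroupWithZero IsStrictOrderedRing.noZeroDivisors
  TestFunctionClass.toDFunLike SemilatticeSup.toPartialOrder BooleanRing.toCommRing
  AddQuantale.instAddLeftMono instCoeTOfCoeDep instIsLeftCancelAddOfAddLeftReflectLE
  CommGroup.toGroup NonUnitalSeminormedCommRing.toNonUnitalCommRing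
  CentroidHomClass.toAddMonoidHomClass OmegaCompletePartialOrder.toPartialOrder
  ContDiffMapSupportedInClass.toDFunLike IdemCommSemiring.toCommSemiring instSMulZeroClass
  instCoeTCOfCoe_1 GroupWithZero.toDivisionMonoid LinearOrderedAddCommMonoidWithTop.toAddCommMonoid
  AddQuantale.instAddRightMono CategoryTheory.Limits.Concrete.instUniqueToTypeTerminal
  AlgHomClass.toRingHomClass NonUnitalSubringClass.toNonUnitalSubsemiringClass instCoeHTCT
  RightPreLieRing.toNonUnitalNonAssocRing instCoeHTC Std.PreorderPackage.toLT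
  LeftPreLieRing.toNonUnitalNonAssocRing RingEquivClass.toNonUnitalRingHomClass
  Std.PreorderPackage.toLE NeZero.of_gt' instCoeTC SetLike.GradeZero.instCommSemiring
  ChainCompletePartialOrder.toPartialOrder MulSemiringAction.toDistribMulAction
  instCoeHTCTOfCoeTailOfCoeHTC CommMonoidWithZero.toCommMonoid
  Std.LinearPreorderPackage.toIsLinearPreorder AddCommGroup.toAddCommMonoid
  CommSemiring.toGrindCommSemiring instOrderedRingOfIsStrictOrderedRing
  ConditionallyCompleteLinearOrderBot.toConditionallyCompleteLinearOrder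
  IsCancelMul.toIsLeftCancelMul Bialgebra.toAlgebra ESeminormedAddCommMonoid.toAddCommMonoid
  SeminormedGroup.toGroup ESeminormedCommMonoid.toCommMonoid
  LinearOrderedAddCommGroupWithTop.toAddCommMonoid Ring.toGrindRing

section

namespace Pool.Agent.MP_c78e8e_al.H75

open Subgroup Matrix

variable {r : ℕ} {K : Type} [Field K] {φ : K →+* K} {H : Subgroup (GL (Fin (r + 1)) K)}
  {i j : Fin (r + 1)} {v w w' : Fin (r + 1) → K} {g : GL (Fin (r + 1)) K}

/-- Some Heisenberg element over `w` lies in `H`. -/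
def x1P (φ : K →+* K) (H : Subgroup (GL (Fin (r + 1)) K)) (i : Fin (r + 1)) (w : Fin (r + 1) → K) :
    Prop := Off i w ∧ ∃ a, Trc φ i w a ∧ hei φ i w a ∈ H

theorem x1P.add (hφ : ∀ s, φ (φ s) = s) (p : x1P φ H i w) (q : x1P φ H i w') :
    x1P φ H i (w + w') := by
  obtain ⟨o, a, c, m⟩ := p
  obtain ⟨o', a', c', m'⟩ := q
  exact ⟨o.add o', _, monb_trc_mul hφ o o' c c', hei_mul (φ := φ) o o' a a' ▸ mul_mem m m'⟩

theorem x1P.neg (hφ : ∀ s, φ (φ s) = s) (p : x1P φ H i w) : x1P φ H i (-w) := by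
  obtain ⟨o, a, c, m⟩ := p
  exact ⟨o.neg, _, trc_of_fx hφ o.neg (hei_inv (φ := φ) o a ▸ (hei_fx hφ o c).inv),
    hei_inv (φ := φ) o a ▸ inv_mem m⟩

theorem x1P.sub (hφ : ∀ s, φ (φ s) = s) (p : x1P φ H i w) (q : x1P φ H i w') :
    x1P φ H i (w - w') := by
  rw [sub_eq_add_neg]; exact p.add hφ (q.neg hφ)

theorem x1P.conj (hφ : ∀ s, φ (φ s) = s) (p : x1P φ H i w) (m : g ∈ H) (f : Fx φ g) {l l' : K}
    (h1 : g.1 *ᵥ Pi.single i 1 = Pi.single j l) (h2 : g.1 *ᵥ Pi.single i.rev 1 = Pi.single j.rev l') :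
    x1P φ H j (l'⁻¹ • g.1 *ᵥ w) := by
  obtain ⟨o, a, c, k⟩ := p
  obtain ⟨o', e⟩ := hei_conj hφ f h1 h2 o a
  exact ⟨o', _, trc_of_fx hφ o' (e ▸ (f.mul (hei_fx hφ o c)).mul f.inv),
    e ▸ mul_mem (mul_mem m k) (inv_mem m)⟩

theorem x1_back (hφ : ∀ s, φ (φ s) = s) (m : g ∈ H) (f : Fx φ g) {l l' : K}
    (h1 : g.1 *ᵥ Pi.single j 1 = Pi.single i l) (h2 : g.1 *ᵥ Pi.single j.rev 1 = Pi.single i.rev l')
    (o : Off j w) {a : K} (c : Trc φ j w a) (h : ∀ b, Off i (l'⁻¹ • g.1 *ᵥ w) →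
      Trc φ i (l'⁻¹ • g.1 *ᵥ w) b → hei φ i (l'⁻¹ • g.1 *ᵥ w) b ∈ H) : hei φ j w a ∈ H := by
  obtain ⟨o', e⟩ := hei_conj hφ f h1 h2 o a
  have := h _ o' (trc_of_fx hφ o' (e ▸ (f.mul (hei_fx hφ o c)).mul f.inv))
  rwa [← e, mul_mem_cancel_right (inv_mem m), mul_mem_cancel_left m] at this

theorem x1P.hei (hφ : ∀ s, φ (φ s) = s) (p : x1P φ H i w) (q : Off j v) (o : Off i v) {a : K}
    (c : Trc φ j v a) (m : hei φ j v a ∈ H) (h : j ≠ i) (h' : j ≠ i.rev) :
    x1P φ H i (w j.rev • v + (a * w j.rev - (-1) ^ (j : ℕ) * bu φ w v) • Pi.single j 1) := by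
  have n1 : j.rev ≠ i := fun e => h' (by rw [← e, Fin.rev_rev])
  have n2 : j.rev ≠ i.rev := Fin.rev_injective.ne h
  have := (p.conj hφ (j := i) (l := 1) (l' := 1) m (hei_fx hφ q c)
    (by simp only [hei_apply q, ne_eq, n1, not_false_eq_true, Pi.single_eq_of_ne, zero_smul, add_zero, mul_zero, bu_single_left, mul_one, o.2.2, map_zero, sub_self])
    (by simp only [hei_apply q, ne_eq, n2, not_false_eq_true, Pi.single_eq_of_ne, zero_smul, add_zero, mul_zero, bu_single_left, Fin.val_rev, Nat.reduceSubDiff, mul_one, Fin.rev_rev, o.2.1, map_zero, sub_self])).sub hφ p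
  rw [hei_apply q] at this
  convert this using 1
  simp only [inv_one, one_smul]
  abel

theorem x1_spread (hφ : ∀ s, φ (φ s) = s) (ne : φ ≠ RingHom.id K) [Finite K] (ev : Even r)
    (hi : i ≠ i.rev) (hj : j ≠ j.rev) (ij : j ≠ i) (ij' : j ≠ i.rev)
    {W d : GL (Fin (r + 1)) K} (mW : W ∈ H) (fW : Fx φ W) (md : d ∈ H) (fd : Fx φ d)
    {l1 l2 l3 l4 n1 n2 n3 n4 : K} (W1 : W.1 *ᵥ Pi.single i 1 = Pi.single j l1)
    (W2 : W.1 *ᵥ Pi.single i.rev 1 = Pi.single j.rev l2) (l0 : l2 ≠ 0)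
    (W3 : W.1 *ᵥ Pi.single j 1 = Pi.single i l3)
    (W4 : W.1 *ᵥ Pi.single j.rev 1 = Pi.single i.rev l4)
    (W5 : ∀ v, Off i v → Off j v → W.1 *ᵥ v = v)
    (d1 : d.1 *ᵥ Pi.single i 1 = Pi.single i.rev n1) (d2 : d.1 *ᵥ Pi.single i.rev 1 = Pi.single i n2)
    (d3 : d.1 *ᵥ Pi.single j 1 = Pi.single j.rev n3) (d4 : d.1 *ᵥ Pi.single j.rev 1 = Pi.single j n4)
    (hX : ∀ s, φ s = s → x1P φ H i (Pi.single j.rev s)) (hw : x1P φ H i w)
    (c1 : φ (w j) - w j ≠ 0) (c2 : w j + φ (w j) ≠ 0)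
    (span : ∀ S : Submodule K (Fin (r + 1) → K), Pi.single j 1 ∈ S → Pi.single j.rev 1 ∈ S →
      (∀ g ∈ H, Fx φ g → ∀ l l', l' ≠ 0 → g.1 *ᵥ Pi.single i 1 = Pi.single i l →
        g.1 *ᵥ Pi.single i.rev 1 = Pi.single i.rev l' → ∀ v ∈ S, g.1 *ᵥ v ∈ S) →
      ∀ v, Off i v → v ∈ S) (k l : Fin (r + 1)) : rt φ k l ⊆ H := by
  have sg : ∀ k : Fin (r + 1), (-1 : K) ^ (k.rev : ℕ) = (-1) ^ (k : ℕ) := fun k => by
    rw [natb1_sg, ev.neg_one_pow, one_mul]
  have tz : ∀ (k : Fin (r + 1)) (b : K), Trc φ k 0 b ↔ φ b = -b := fun k b => by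
    have q := natb1_sq (K := K) k
    simp only [Trc, sg, bu_zero_left, add_zero]
    exact ⟨fun e => by linear_combination (-1) ^ (k : ℕ) * e - (b + φ b) * q, fun e => by
      rw [e]; ring⟩
  have ji : j.rev ≠ i := fun e => ij' (by rw [← e, Fin.rev_rev])
  have ji' : j.rev ≠ i.rev := Fin.rev_injective.ne ij
  have Zi : ∀ b, Trc φ i 0 b → hei φ i 0 b ∈ H := fun b hb => by
    rw [tz] at hb
    obtain ⟨o, a, -, m⟩ := hX ((-1) ^ (i : ℕ) * (-1) ^ (j : ℕ) * b / (φ (w j) - w j)) (by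
      rw [map_div₀, map_sub, hφ, ← neg_sub, div_neg]; simp only [map_mul, map_pow, map_neg, map_one, hb, mul_neg, neg_div, neg_neg])
    obtain ⟨o', a', -, m'⟩ := hw
    have e := mul_mem (mul_mem m m') (inv_mem (mul_mem m' m))
    rw [hei_mul o o', hei_mul o' o, add_comm w, monb_shift (o.add o') _ _, mul_inv_cancel_right,
      bu_single_left, bu_single_right, Fin.rev_rev, sg] at e
    convert e using 2
    rw [map_div₀, map_sub, hφ, ← neg_sub (φ (w j)), div_neg]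
    simp only [map_mul, map_pow, map_neg, map_one, hb]
    field_simp
    linear_combination (-b * (φ (w j) - w j) * ((-1) ^ (j : ℕ)) ^ 2) * natb1_sq (K := K) i -
      b * (φ (w j) - w j) * natb1_sq (K := K) j
  have Zj : ∀ b, Trc φ j 0 b → hei φ j 0 b ∈ H := fun b hb =>
    x1_back hφ mW fW W3 W4 (.zero hj) hb fun b _ => by simpa using Zi b
  have Zj' : ∀ b, Trc φ j.rev 0 b → hei φ j.rev 0 b ∈ H := fun b hb =>
    x1_back hφ md fd d4 (l' := n3) (by rwa [Fin.rev_rev]) (Off.zero hj).rev hb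
      fun b _ => by simpa using Zj b
  have sm : ∀ (k : Fin (r + 1)) (s : K), s • (Pi.single k 1 : Fin (r + 1) → K) = Pi.single k s :=
    fun k s => by rw [← Pi.single_smul, smul_eq_mul, mul_one]
  have Pf : ∀ s, x1P φ H i (Pi.single j.rev s) := fun s => by
    have hb : φ ((s - φ s) / (w j + φ (w j))) = -((s - φ s) / (w j + φ (w j))) := by
      rw [map_div₀, map_sub, map_add, hφ, hφ, ← neg_div, neg_sub, add_comm]
    have := (hX (s - (s - φ s) / (w j + φ (w j)) * w j) (by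
      rw [map_sub, map_mul, hb]; field_simp; ring)).add hφ
      (hw.hei hφ (Off.zero hj).rev (.zero hi) ((tz _ _).2 hb) (Zj' _ ((tz _ _).2 hb)) ji ji')
    simpa only [Fin.rev_rev, smul_zero, Fin.val_rev, Nat.reduceSubDiff, bu_zero_right, mul_zero, sub_zero, sm, zero_add, ← Pi.single_add, sub_add_cancel] using this
  have Pe : ∀ s, x1P φ H i (Pi.single j s) := fun s => by
    obtain ⟨b, b0, hb⟩ := skew_ex hφ ne
    have := (Pf (s / b)).hei hφ (.zero hj) (.zero hi) ((tz _ _).2 hb) (Zj _ ((tz _ _).2 hb)) ij ij'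
    simpa only [Pi.single_eq_same, smul_zero, mul_div_cancel₀ _ b0, bu_zero_right, mul_zero, sub_zero, sm, zero_add] using this
  have Ps : ∀ (s : K) v, x1P φ H i v → x1P φ H i (s • v) := fun s v p => by
    have p0 := (p.sub hφ (Pe (v j))).sub hφ (Pf (v j.rev))
    have o : Off j (v - Pi.single j (v j) - Pi.single j.rev (v j.rev)) :=
      ⟨hj, by simp [hj], by simp [hj.symm]⟩
    obtain ⟨o', a, c, m⟩ := p0.conj hφ mW fW W1 W2
    rw [W5 _ p0.1 o] at o' c m
    have q := (Pf (s * l2)).hei hφ o' (p0.1.smul _) c m ij ij'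
    have key : ∀ u (t : K), x1P φ H i (u + t • Pi.single j 1) → x1P φ H i u := fun u t q => by
      simpa [sm] using q.sub hφ (Pe t)
    have := ((key _ _ q).add hφ (Pe (s * v j))).add hφ (Pf (s * v j.rev))
    convert this using 1
    rw [Pi.single_eq_same, smul_smul, mul_inv_cancel_right₀ l0, ← sm j (s * _),
      ← sm j.rev (s * _), ← sm j (v j), ← sm j.rev (v _)]
    module
  let S : Submodule K (Fin (r + 1) → K) :=
    { carrier := {v | x1P φ H i v}
      add_mem' := fun p q => p.add hφ q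
      zero_mem' := by simpa using Pe 0
      smul_mem' := Ps }
  have all : ∀ v a, Off i v → Trc φ i v a → hei φ i v a ∈ H := fun v a o c => by
    obtain ⟨-, b, c', m⟩ := span S (Pe 1) (Pf 1) (fun g m f l l' l0 g1 g2 v p => by
      have := Ps l' _ (x1P.conj hφ p m f g1 g2)
      rwa [smul_smul, mul_inv_cancel₀ l0, one_smul] at this) v o
    rw [monb_shift o a b]
    exact mul_mem (Zi _ (monb_trc_sub c c')) m
  exact gen_hei_all hφ hi all (fun v a o c => x1_back hφ md fd d2 (l' := n1) (by rwa [Fin.rev_rev])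
    o.rev c fun b => all _ b) k l

/-- The Weyl element of the diagonal `SL₂`. -/
def x1W (K : Type) [Field K] (i j : Fin (r + 1)) : GL (Fin (r + 1)) K :=
  mon (Equiv.swap i j) (fun k => if k = i then -1 else 1) *
    mon (Equiv.swap j.rev i.rev) fun k => if k = j.rev then -1 else 1

/-- A one-dimensional torus. -/
def x1T (i j : Fin (r + 1)) (a : Kˣ) : GL (Fin (r + 1)) K :=
  mon 1 (Pi.mulSingle i a * Pi.mulSingle j a⁻¹)

/-- Units of the fixed field. -/
def x1u (φ : K →+* K) : (Fix φ)ˣ →* Kˣ := Units.map (Fix φ).subtype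

@[simp] theorem x1u_val (a : (Fix φ)ˣ) : (x1u φ a : K) = a.1.1 := rfl

theorem x1u_fix (a : (Fix φ)ˣ) : φ (x1u φ a) = x1u φ a := a.1.2

theorem x1_psi (hφ : ∀ s, φ (φ s) = s) (hi : i ≠ i.rev) (hj : j ≠ j.rev) (ij : j ≠ i)
    (ij' : j ≠ i.rev) (par : (-1 : K) ^ ((i : ℕ) + j) = -1) :
    ∃ ψ : SL2 (Fix φ) →* GL (Fin (r + 1)) K,
      (∀ s, ψ (mx s) = el i j s.1 * el j.rev i.rev s.1) ∧
      (∀ s, ψ (mz s) = el j i (-s.1) * el i.rev j.rev (-s.1)) ∧ ψ mw = x1W K i j ∧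
      (∀ a, ψ (mdg a) = x1T i j (x1u φ a) * x1T j.rev i.rev (x1u φ a)) ∧ ∀ A, ψ A ∈ sug r φ := by
  have ji : j.rev ≠ i := fun e => ij' (by rw [← e, Fin.rev_rev])
  obtain ⟨a, a1, a2, a3, a4⟩ := psi_el (K := K) ij.symm
  obtain ⟨b, b1, b2, b3, b4⟩ := psi_el (K := K) (Fin.rev_injective.ne ij)
  have cm : ∀ A B, Commute (a A) (b B) := fun A B => sl2_comm
    (fun s => (sl2_comm (fun t => by rw [a1, b1]; exact el_comm hi.symm hj _ _)
      (fun t => by rw [a2, b1]; exact el_comm ij'.symm ji.symm _ _) A).symm)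
    (fun s => (sl2_comm (fun t => by rw [a1, b2]; exact el_comm ji ij' _ _)
      (fun t => by rw [a2, b2]; exact el_comm hj.symm hi _ _) A).symm) B
  let f : SL2 (Fix φ) →* SL2 K := SpecialLinearGroup.map (Fix φ).subtype
  have f1 : ∀ s, f (mx s) = mx s.1 := fun s => by
    ext k l; fin_cases k <;> fin_cases l <;> simp only [f, mx, Fin.zero_eta, Fin.isValue, SpecialLinearGroup.map_apply_coe, RingHom.mapMatrix_apply, Subfield.coe_subtype, map_apply, of_apply, cons_val', cons_val_zero, cons_val_fin_one, OneMemClass.coe_one, Fin.mk_one, cons_val_one, ZeroMemClass.coe_zero]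
  have f2 : ∀ s, f (mz s) = mz s.1 := fun s => by
    ext k l; fin_cases k <;> fin_cases l <;> simp only [f, mz, Fin.zero_eta, Fin.isValue, SpecialLinearGroup.map_apply_coe, RingHom.mapMatrix_apply, Subfield.coe_subtype, map_apply, of_apply, cons_val', cons_val_zero, cons_val_fin_one, OneMemClass.coe_one, Fin.mk_one, cons_val_one, ZeroMemClass.coe_zero, NegMemClass.coe_neg]
  have f3 : f mw = mw := by
    ext k l; fin_cases k <;> fin_cases l <;> simp only [f, mw, Fin.zero_eta, Fin.isValue, SpecialLinearGroup.map_apply_coe, RingHom.mapMatrix_apply, Subfield.coe_subtype, map_apply, of_apply, cons_val', cons_val_zero, cons_val_fin_one, ZeroMemClass.coe_zero, Fin.mk_one, cons_val_one, OneMemClass.coe_one, NegMemClass.coe_neg]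
  have f4 : ∀ s, f (mdg s) = mdg (x1u φ s) := fun s => by
    ext k l; fin_cases k <;> fin_cases l <;> simp only [f, mdg, Units.val_inv_eq_inv_val, Fin.zero_eta, Fin.isValue, SpecialLinearGroup.map_apply_coe, RingHom.mapMatrix_apply, Subfield.coe_subtype, map_apply, of_apply, cons_val', cons_val_zero, cons_val_fin_one, x1u_val, Fin.mk_one, cons_val_one, ZeroMemClass.coe_zero, Subfield.coe_inv]
  have p1 : ∀ s, (a.noncommCoprod b cm).comp (f.prod f) (mx s) = el i j s.1 * el j.rev i.rev s.1 :=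
    fun s => by simp [f1, a1, b1]
  have p2 : ∀ s, (a.noncommCoprod b cm).comp (f.prod f) (mz s) =
      el j i (-s.1) * el i.rev j.rev (-s.1) := fun s => by simp [f2, a2, b2]
  refine ⟨_, p1, p2, by simp [f3, a3, b3, x1W], fun s => by simp [f4, a4, b4, x1T],
    sl2_gen (fun s => ?_) fun s => ?_⟩
  · have k : φ s.1 = s.1 := s.2
    exact rt_mem ((rt_short hφ ij.symm ij' hi hj _).2 ⟨s, by rw [p1, par, k, neg_neg, one_mul]⟩)
  · have k : φ s.1 = s.1 := s.2
    exact rt_mem ((rt_short hφ ij ji.symm hj hi _).2 ⟨-s, by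
      rw [p2, add_comm (j : ℕ), par, map_neg, k, neg_neg, one_mul]⟩)

theorem x1_vec (π : Equiv.Perm (Fin (r + 1))) (δ : Fin (r + 1) → Kˣ) (v : Fin (r + 1) → K)
    (k : Fin (r + 1)) : ((mon π δ).1 *ᵥ v) (π k) = δ k * v k := by
  rw [mulVec, dotProduct, Finset.sum_eq_single k (fun l _ h => by
    rw [mon_val, if_neg (fun e => h (π.injective e).symm), zero_mul]) (by simp), mon_val, if_pos rfl]

theorem x1_vec' {π : Equiv.Perm (Fin (r + 1))} {δ : Fin (r + 1) → Kˣ}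
    (h : ∀ k, w (π k) = δ k * v k) : (mon π δ).1 *ᵥ v = w := by
  ext k
  obtain ⟨k, rfl⟩ := π.surjective k
  rw [x1_vec, h]

theorem x1_one (π : Equiv.Perm (Fin (r + 1))) (δ : Fin (r + 1) → Kˣ) (k : Fin (r + 1)) (s : K) :
    (mon π δ).1 *ᵥ Pi.single k s = Pi.single (π k) (δ k * s) := x1_vec' fun l => by
  by_cases h : l = k <;> simp [h]

theorem x1_T (π : Equiv.Perm (Fin (r + 1))) (δ : Fin (r + 1) → Kˣ) (i j : Fin (r + 1)) (a : Kˣ) :
    mon π δ * x1T i j a = x1T (π i) (π j) a * mon π δ := by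
  rw [x1T, x1T, mon_mul, mon_mul]
  exact mon_congr (by simp) fun k => by simp only [Equiv.Perm.coe_one, id_eq, Pi.mul_apply, Pi.mulSingle_apply, mul_ite, mul_comm, mul_inv_cancel, mul_one, EmbeddingLike.apply_eq_iff_eq]

theorem x1_Tmul (a b : Kˣ) : x1T i j a * x1T i j b = x1T i j (a * b) := by
  rw [x1T, x1T, x1T, ← mon_one_mul, mul_inv, Pi.mulSingle_mul, Pi.mulSingle_mul, mul_mul_mul_comm]

theorem x1_Tinv (a : Kˣ) : x1T j i a * x1T i j a = 1 := by
  rw [x1T, x1T, ← mon_one_mul]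
  exact mon_eq_one (fun _ => rfl) fun k => by simp only [Pi.mulSingle_inv, Pi.mul_apply, Pi.inv_apply, mul_assoc, inv_mul_cancel_left, mul_inv_cancel]

theorem x1_Tfix (o : Off i v) (a : Kˣ) : (x1T i i.rev a).1 *ᵥ v = v := x1_vec' fun k => by
  by_cases h : k = i
  · simp [h, o.2.1]
  by_cases h' : k = i.rev <;> simp [h, h', o.2.2]

theorem x1_Tsug [Finite K] (hr : 3 ≤ r) (hφ : ∀ s, φ (φ s) = s) (ne : φ ≠ RingHom.id K)
    (hi : i ≠ i.rev) {a : Kˣ} (ha : φ a = a) : x1T i i.rev a ∈ sug r φ := by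
  refine mem_sug hr hφ (fun _ => ne) (fx_mon (by simp) fun k => ?_) ?_
  · by_cases h : k = i
    · simp only [h, Pi.mul_apply, Pi.mulSingle_eq_same, ne_eq, hi, not_false_eq_true, Pi.mulSingle_eq_of_ne, mul_one, hi.symm, one_mul, Units.val_inv_eq_inv_val, map_inv₀, ha, mul_right_comm, Units.ne_zero, mul_inv_cancel₀, Equiv.Perm.coe_one, id_eq]
    by_cases h' : k = i.rev
    · simp only [h', Pi.mul_apply, ne_eq, hi.symm, not_false_eq_true, Pi.mulSingle_eq_of_ne, Pi.mulSingle_eq_same, one_mul, Units.val_inv_eq_inv_val, Fin.val_rev, Nat.reduceSubDiff, Fin.rev_rev, hi, mul_one, ha, mul_right_comm, Units.ne_zero, inv_mul_cancel₀, Equiv.Perm.coe_one, id_eq]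
    · have : k.rev ≠ i := fun e => h' (by rw [← e, Fin.rev_rev])
      simp only [Pi.mul_apply, ne_eq, h, not_false_eq_true, Pi.mulSingle_eq_of_ne, h', mul_one, Units.val_one, one_mul, this, Fin.rev_inj, map_one, Equiv.Perm.coe_one, id_eq]
  · rw [x1T, ← mon_hh hi]; simp [el_det]

theorem x1_sie (hφ : ∀ s, φ (φ s) = s) [Finite K] (hr : 3 ≤ r) (ne : φ ≠ RingHom.id K) (ev : Even r)
    {y : Fin (r + 1) → K} (yy : bu φ y y = 0) (wy : bu φ w y = 0) {a : K} (ha : φ a = a)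
    (aw : 2 * a = bu φ w w) : ∃ U : K → GL (Fin (r + 1)) K,
      (∀ s t, φ s = s → U s * U t = U (s + t)) ∧ U 0 = 1 ∧ U 1 ^ Nat.card K = 1 ∧
      (∀ s, φ s = s → U s ∈ sug r φ) ∧
      (∀ g, Fx φ g → g.1 *ᵥ y = y → g.1 *ᵥ w = w → ∀ s, g * U s * g⁻¹ = U s) ∧
      (∀ g, Fx φ g → g.1 *ᵥ y = y → g.1 *ᵥ w = -w → ∀ s, g * U s * g⁻¹ = U (-s)) ∧
      ∀ v, (U 1).1 *ᵥ v = v + bu φ v y • w - (bu φ v w + a * bu φ v y) • y := by
  have yw : bu φ y w = 0 := by rw [bu_symm hφ, wy]; simp only [map_zero, mul_zero]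
  have ap : ∀ s b v, (sie φ y (s • w) b).1 *ᵥ v =
      v + bu φ v y • s • w - (φ s * bu φ v w + b * bu φ v y) • y := fun s b v => by
    rw [sie_apply yy (by rw [bu_smul_left, wy, mul_zero]) (by rw [bu_smul_right, yw, mul_zero]),
      ev.neg_one_pow, one_mul, bu_smul_right]
  have mu : ∀ s t, φ s = s → sie φ y (s • w) (s ^ 2 * a) * sie φ y (t • w) (t ^ 2 * a) =
      sie φ y ((s + t) • w) ((s + t) ^ 2 * a) := fun s t hs => monb_ext fun v => by
    simp only [monb_mul, ap, bu_add_left, bu_sub_left, bu_smul_left, yy, wy, yw, ← aw, hs, map_add]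
    module
  have z : sie φ y ((0 : K) • w) (0 ^ 2 * a) = 1 := monb_ext fun v => by rw [ap]; simp
  have pw : ∀ s, φ s = s → ∀ n : ℕ, sie φ y (s • w) (s ^ 2 * a) ^ n =
      sie φ y ((n * s) • w) ((n * s) ^ 2 * a) := fun s hs n => by
    induction n with
    | zero => rw [pow_zero, Nat.cast_zero, zero_mul, z]
    | succ n ih => rw [pow_succ', ih, mu _ _ hs]; congr 1 <;> (push_cast; ring_nf)
  have := Fintype.ofFinite K
  have cd : ∀ s, φ s = s → sie φ y (s • w) (s ^ 2 * a) ^ Nat.card K = 1 := fun s hs => by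
    rw [pw s hs, Nat.card_eq_fintype_card, FiniteField.cast_card_eq_zero, zero_mul, z]
  refine ⟨fun s => sie φ y (s • w) (s ^ 2 * a), mu, z, cd 1 (map_one φ), fun s hs =>
    mem_sug hr hφ (fun _ => ne) (sie_fx hφ yy (by rw [bu_smul_left, wy, mul_zero]) ?_) ?_,
    fun g f g1 g2 s => by rw [sie_conj hφ f, mulVec_smul, g1, g2], fun g f g1 g2 s => by
      simp only [sie_conj hφ f, mulVec_smul, g1, g2, smul_neg, neg_smul, neg_sq], fun v => by
      rw [ap]; simp only [one_smul, map_one, one_mul, one_pow]⟩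
  · rw [bu_smul_left, bu_smul_right, ← aw, ev.neg_one_pow, map_mul, map_pow, hs, ha]; ring
  · have := congrArg (fun g : GL (Fin (r + 1)) K => g.1.det) (cd s hs)
    simpa [FiniteField.pow_card] using this

theorem x1_el (π : Equiv.Perm (Fin (r + 1))) (δ : Fin (r + 1) → Kˣ) (a b c e : Fin (r + 1))
    (s t : K) : mon π δ * (el a b s * el c e t) * (mon π δ)⁻¹ =
      el (π a) (π b) (δ a * s / δ b) * el (π c) (π e) (δ c * t / δ e) := by
  rw [← conj_mul, mon_el, mon_el]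

theorem x1_W (hi : i ≠ i.rev) (hj : j ≠ j.rev) (ij : j ≠ i) (ij' : j ≠ i.rev) :
    ∃ σ ω, x1W K i j = mon σ ω ∧ σ i = j ∧ σ j = i ∧ σ j.rev = i.rev ∧ σ i.rev = j.rev ∧
      ω i = -1 ∧ ω j = 1 ∧ ω j.rev = -1 ∧ ω i.rev = 1 ∧
      ∀ v, Off i v → Off j v → (mon σ ω).1 *ᵥ v = v := by
  have ji : j.rev ≠ i := fun e => ij' (by rw [← e, Fin.rev_rev])
  have ji' : j.rev ≠ i.rev := Fin.rev_injective.ne ij
  have := hi.symm
  have := hj.symm
  have := ij.symm
  have := ij'.symm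
  have := ji.symm
  have := ji'.symm
  refine ⟨_, _, mon_mul _ _ _ _, ?_, ?_, ?_, ?_, ?_, ?_, ?_, ?_, fun v o o' => x1_vec' fun k => ?_⟩
  iterate 8 simp [Equiv.swap_apply_def, *]
  by_cases h1 : k = i
  · simp [Equiv.swap_apply_def, o.2.1, o'.2.1, *]
  by_cases h2 : k = j
  · simp [Equiv.swap_apply_def, o.2.1, o'.2.1, *]
  by_cases h3 : k = i.rev
  · simp [Equiv.swap_apply_def, o.2.2, o'.2.2, *]
  by_cases h4 : k = j.rev
  · simp [Equiv.swap_apply_def, o.2.2, o'.2.2, *]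
  · simp [Equiv.swap_apply_def, h1, h2, h3, h4]

theorem x1_x [Finite K] (hφ : ∀ s, φ (φ s) = s) (ne : φ ≠ RingHom.id K) (h2 : (2 : K) ≠ 0)
    (h9 : Nat.card K ≠ 9) : ∃ x κ : (Fix φ)ˣ, Sol x.1 κ.1 (-1) ∧ Spn x.1 := by
  classical
  obtain ⟨x, x0, hx⟩ := sl2f_gen (K := Fix φ)
  have h2' : (2 : Fix φ) ≠ 0 := fun e => h2 (congrArg Subtype.val e)
  have key : x * x ≠ 1 := fun e => h9 (by
    have := Fintype.ofFinite (Fix φ)
    have u : (Finset.univ : Finset (Fix φ)) = {0, 1, -1} := by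
      refine (Finset.eq_univ_of_forall fun s => ?_).symm
      by_cases s0 : s = 0
      · simp only [s0, Finset.mem_insert, zero_ne_one, Finset.mem_singleton, zero_eq_neg, one_ne_zero, or_self, or_false]
      obtain ⟨n, rfl⟩ := hx s s0
      have : x ^ n * x ^ n = 1 := by rw [← mul_pow, e, one_pow]
      simp only [Finset.mem_insert, pow_eq_zero_iff', ne_eq, Finset.mem_singleton, mul_self_eq_one_iff.1 this, or_true]
    have n : (1 : Fix φ) ≠ -1 := fun e => h2' (by linear_combination e)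
    rw [(card_fix hφ ne).1, Nat.card_eq_fintype_card, ← Finset.card_univ, u,
      Finset.card_insert_of_notMem (by simp), Finset.card_pair n]; rfl)
  obtain ⟨κ, κ0, so⟩ := sol_free h2' x0 (fun e => key (by simp [e])) (fun e => key (by simp [e]))
    one_ne_zero
  rw [one_mul] at so
  exact ⟨Units.mk0 x x0, Units.mk0 κ κ0, so, spn_sq fun s s0 =>
    (hx _ (pow_ne_zero 2 s0)).imp fun _ e => e.symm⟩

theorem x1_k3 {F : Type} [Field F] (h2 : (2 : F) ≠ 0) (n : Fˣ) :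
    mz n.1 * mx (1 / (2 * n.1)) = mdg n⁻¹ * mw * (mz (-n.1) * mx (-(1 / (2 * n.1)))) := by
  ext k l
  fin_cases k <;> fin_cases l <;> simp [mx, mz, mw, mdg, Matrix.mul_apply, Fin.sum_univ_two]
  all_goals field_simp; norm_num

theorem x1_core [Finite K] (hφ : ∀ s, φ (φ s) = s) (ne : φ ≠ RingHom.id K) (h2 : (2 : K) ≠ 0)
    (h9 : Nat.card K ≠ 9) (hr : 3 ≤ r) (ev : Even r) (hi : i ≠ i.rev) (hj : j ≠ j.rev) (ij : j ≠ i)
    (ij' : j ≠ i.rev) (pi : (-1 : K) ^ (i : ℕ) = 1) (pj : (-1 : K) ^ (j : ℕ) = -1)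
    {π π' : Equiv.Perm (Fin (r + 1))} {δ δ' : Fin (r + 1) → Kˣ} {ν : Kˣ} (hν : φ ν = ν)
    (sE : mon π δ ∈ sug r φ) (EE : mon π δ * mon π δ = 1)
    (π1 : π i = i.rev) (π2 : π i.rev = i) (π3 : π j = j.rev) (π4 : π j.rev = j)
    (δ1 : δ i = 1) (δ2 : δ i.rev = 1) (δ3 : δ j = ν) (δ4 : δ j.rev = ν⁻¹)
    (bb : mon π' δ' * mon π' δ' = 1) (Eb : mon π δ * mon π' δ' = mon π' δ' * mon π δ)
    (ρ1 : π' i = i) (ρ2 : π' i.rev = i.rev) (ρ3 : π' j = j) (ρ4 : π' j.rev = j.rev)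
    (ε1 : δ' i = -1) (ε2 : δ' i.rev = -1) (ε3 : δ' j = 1) (ε4 : δ' j.rev = 1)
    (cj : ∀ μ : Kˣ, φ μ = μ → ∃ g ∈ sug r φ, g * (mon π δ * x1T i i.rev μ) * g⁻¹ =
      x1T i j.rev ν⁻¹ * x1T j i.rev ν⁻¹ * x1W K i j.rev * (mon π' δ' * x1W K i j))
    {y p p' : Fin (r + 1) → K} (oy : Off i y) (op : Off i p) (y1 : y j = 1) (y2 : y j.rev = ν)
    (p1 : p j = 1) (p2 : p j.rev = -ν) (yy : bu φ y y = 0) (pp : bu φ p p ≠ 0)
    (Ey : ∀ k, y (π k) = δ k * y k) (Ep : ∀ k, (-p) (π k) = δ k * p k)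
    (bp : ∀ k, p' (π' k) = δ' k * p k)
    (span : ∀ S : Submodule K (Fin (r + 1) → K), Pi.single j 1 ∈ S → Pi.single j.rev 1 ∈ S →
      y ∈ S → p ∈ S → p' ∈ S → ∀ v, Off i v → v ∈ S) :
    IsLeast {n | Good (chev (CartanMatrix.A r) Fin.revPerm φ) n} 3 := by
  have ji : j.rev ≠ i := fun e => ij' (by rw [← e, Fin.rev_rev])
  have ji' : j.rev ≠ i.rev := Fin.rev_injective.ne ij
  have pj' : (-1 : K) ^ (j.rev : ℕ) = -1 := by rw [natb1_sg, ev.neg_one_pow, one_mul, pj]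
  have h2' : (2 : Fix φ) ≠ 0 := fun e => h2 (congrArg Subtype.val e)
  obtain ⟨x, κ, so, sp⟩ := x1_x hφ ne h2 h9
  obtain ⟨ψ, a1, a2, a3, a4, a5⟩ := x1_psi hφ hi hj ij ij' (by rw [pow_add, pi, pj, one_mul])
  obtain ⟨χ, b1, b2, b3, b4, b5⟩ := x1_psi hφ hi (j := j.rev) (by rw [Fin.rev_rev]; exact hj.symm)
    ji ji' (by rw [pow_add, pi, pj', one_mul])
  rw [Fin.rev_rev] at b1 b2 b4
  obtain ⟨σ, ω, eW, σ1, σ2, σ3, σ4, ω1, ω2, ω3, ω4, W5⟩ := x1_W (K := K) hi hj ij ij'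
  obtain ⟨n, rfl⟩ : ∃ n : (Fix φ)ˣ, ν = x1u φ n :=
    ⟨Units.mk0 ⟨ν, hν⟩ fun e => ν.ne_zero (congrArg Subtype.val e), Units.ext rfl⟩
  obtain ⟨D, hD⟩ : ∃ D : (Fix φ)ˣ → GL (Fin (r + 1)) K,
    ∀ a, D a = mon π δ * x1T i i.rev (x1u φ a) := ⟨_, fun _ => rfl⟩
  have sD : ∀ a, D a ∈ sug r φ := fun a => hD a ▸ mul_mem sE (x1_Tsug hr hφ ne hi (x1u_fix a))
  have DD : ∀ a, D a * D a = 1 := fun a => by
    rw [hD]
    nth_rw 1 [x1_T]
    rw [π1, π2, mul_assoc, ← mul_assoc (mon π δ), EE, one_mul, x1_Tinv]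
  have cb : ∀ a, ∃ g ∈ sug r φ, mon π' δ' * ψ mw = g * D a * g⁻¹ := fun a => by
    obtain ⟨g, m, e⟩ := cj _ (x1u_fix a)
    have k1 : ∀ s, mon π' δ' * ψ mw * χ (mx s) * (mon π' δ' * ψ mw)⁻¹ = χ (mx (-s)) := fun s => by
      rw [a3, eW, mon_mul, b1, b1, x1_el, (el_comm hj.symm hi.symm _ _).eq]
      simp only [Equiv.Perm.coe_mul, Function.comp_apply, σ1, ρ3, σ3, ρ2, ε3, ω1, mul_neg, mul_one, Units.val_neg, Units.val_one, neg_mul, one_mul, ε2, ω3, neg_neg, div_one, σ2, ρ1, σ4, ρ4, ε1, ω2, ε4, ω4, NegMemClass.coe_neg]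
    have k2 : ∀ s, mon π' δ' * ψ mw * χ (mz s) * (mon π' δ' * ψ mw)⁻¹ = χ (mz (-s)) := fun s => by
      rw [a3, eW, mon_mul, b2, b2, x1_el, (el_comm hi hj _ _).eq]
      simp only [Equiv.Perm.coe_mul, Function.comp_apply, σ3, ρ2, σ1, ρ3, ε2, ω3, mul_neg, mul_one, neg_neg, Units.val_one, one_mul, ε3, ω1, Units.val_neg, div_neg, div_one, σ4, ρ4, σ2, ρ1, ε4, ω4, ε1, ω2, NegMemClass.coe_neg]
    rw [← map_inv, ← b4, ← b3, ← map_mul, ← a3, ← hD] at e
    refine ⟨(χ (mz n.1 * mx (1 / (2 * n.1))))⁻¹ * g, mul_mem (inv_mem (b5 _)) m, ?_⟩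
    have k4 := congrArg χ (x1_k3 h2' n)
    rw [map_mul _ _ (_ * _), map_mul _ (mz (-_)), ← k1, ← k2, conj_mul, ← map_mul] at k4
    rw [_root_.mul_inv_rev, inv_inv, mul_assoc _ g, mul_assoc, ← mul_assoc (g * _), e,
      eq_inv_mul_iff_mul_eq]
    nth_rw 1 [k4]
    group
  have aT : ∀ a : (Fix φ)ˣ, Act ψ (x1T i i.rev (x1u φ a)) !![a.1, 0; 0, 1] := fun a =>
    act_diag a.ne_zero (fun s => by
      rw [a1, a1, x1T, x1_el]; simp only [Equiv.Perm.coe_one, id_eq, Pi.mul_apply, Pi.mulSingle_eq_same, ne_eq, hi, not_false_eq_true, Pi.mulSingle_eq_of_ne, mul_comm, one_mul, x1u_val, ij, ij', mul_one, Units.val_one, div_one, ji, ji', hi.symm, Units.val_inv_eq_inv_val, div_inv_eq_mul, Subfield.coe_mul]) fun s => by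
      rw [a2, a2, x1T, x1_el]; simp only [Equiv.Perm.coe_one, id_eq, Pi.mul_apply, ne_eq, ij, not_false_eq_true, Pi.mulSingle_eq_of_ne, ij', mul_one, Units.val_one, mul_comm, Pi.mulSingle_eq_same, hi, one_mul, x1u_val, div_eq_mul_inv, mul_neg, hi.symm, Units.val_inv_eq_inv_val, ji, ji', inv_one, Subfield.coe_mul, Subfield.coe_inv]
  have aE : Act ψ (mon π δ) !![0, n.1; 1, 0] := by
    have := act_anti (ψ := ψ) (g := mon π δ) (l := -n.1⁻¹) (by simp) (fun s => by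
      rw [a1, a2, x1_el, (el_comm hi hj.symm _ _).eq]; simp only [π1, π3, δ1, Units.val_one, mul_comm, mul_one, δ3, x1u_val, div_eq_mul_inv, π4, π2, δ4, Units.val_inv_eq_inv_val, δ2, inv_one, mul_neg, NegMemClass.coe_neg, Subfield.coe_mul, Subfield.coe_inv, neg_neg])
      fun s => by
        rw [a1, a2, x1_el, (el_comm hj hi.symm _ _).eq]; simp only [π3, π1, δ3, x1u_val, mul_neg, mul_comm, δ1, Units.val_one, div_eq_mul_inv, inv_one, mul_one, π2, π4, δ2, δ4, Units.val_inv_eq_inv_val, inv_inv, inv_neg, NegMemClass.coe_neg, Subfield.coe_mul]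
    simpa using this
  have aD : Act ψ (D (n / κ)) !![0, κ.1; 1, 0] := by
    have := (aE.mul (aT (n / κ))).smul (κ / n).ne_zero
    rw [← hD] at this
    convert this using 1
    ext k l; fin_cases k <;> fin_cases l <;> simp
  have ab : Act ψ (mon π' δ') !![-1, 0; 0, 1] := act_diag (by simp)
    (fun s => by rw [a1, a1, x1_el]; simp only [ρ1, ρ3, ε1, Units.val_neg, Units.val_one, neg_mul, one_mul, ε3, div_one, ρ4, ρ2, ε4, ε2, div_neg, NegMemClass.coe_neg])
    fun s => by rw [a2, a2, x1_el]; simp only [ρ3, ρ1, ε3, Units.val_one, mul_neg, one_mul, ε1, Units.val_neg, div_neg, div_one, neg_neg, ρ2, ρ4, ε2, neg_mul, ε4, NegMemClass.coe_neg]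
  obtain ⟨g, mg, eg⟩ := cb (n / κ)
  obtain ⟨g', mg', eg'⟩ := cb (n / κ * x)
  obtain ⟨S, hS⟩ := r1m ψ (T := dgl) (by simp only [mul_neg, mul_one, neg_neg]) so sp dgl_nil
    (a3 ▸ mul_mem (mon_norm _ _) (mon_norm _ _))
    (fun a => a4 a ▸ mul_mem (mon_norm _ _) (mon_norm _ _)) (mon_dgl (by simp) _) (aT x)
    (hD _ ▸ mul_mem (mon_norm _ _) (mon_norm _ _)) aD (mon_norm _ _) ab
    (by rw [eg, conj_mul, DD]; simpa using sc_one) (by
      have : D (n / κ) * mon π' δ' = mon π' δ' * D (n / κ) := by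
        rw [hD, ← mul_assoc, ← Eb, mul_assoc, mul_assoc, x1_T, ρ1, ρ2]
      rw [this, mul_inv_cancel_right, bb]; exact sc_one)
  obtain ⟨cm, gen⟩ := hS _ rfl
  obtain ⟨b, b0, hb⟩ := skew_ex hφ ne
  have Ey' := x1_vec' Ey
  have Ep' : (mon π δ).1 *ᵥ (b • p) = -(b • p) := by rw [mulVec_smul, x1_vec' Ep, smul_neg]
  have py : bu φ (b • p) y = 0 := by
    have := (fx_iff hφ).1 (sug_fx sE) (b • p) y
    rw [Ey', Ep', bu_neg_left] at this
    exact mul_left_cancel₀ h2 (by linear_combination -this)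
  have hφ2 : φ 2 = 2 := map_ofNat φ 2
  have ha : φ (bu φ (b • p) (b • p) / 2) = bu φ (b • p) (b • p) / 2 := by
    have := bu_symm hφ (b • p) (b • p)
    rw [ev.neg_one_pow, one_mul] at this
    rw [map_div₀, hφ2, ← this]
  obtain ⟨U, U1, U2, U3, U4, U5, U6, U7⟩ := x1_sie hφ hr ne ev yy py ha (by field_simp)
  have hh : φ (1 / 2) = 1 / 2 := by rw [map_div₀, hφ2, map_one]
  have hh' : φ (-(1 / 2)) = -(1 / 2) := by rw [map_neg, hh]
  have ec : D (n / κ * x) * U 1 = U (-(1 / 2)) * D (n / κ * x) * (U (-(1 / 2)))⁻¹ := by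
    have := U6 _ (sug_fx (sD (n / κ * x))) (by rw [hD, monb_mul, x1_Tfix oy, Ey'])
      (by rw [hD, monb_mul, x1_Tfix (op.smul b), Ep']) (1 / 2)
    rw [eq_mul_inv_iff_mul_eq, mul_assoc, U1 _ _ (map_one φ), ← this, inv_mul_cancel_right]
    congr 2; field_simp; ring
  refine goodSU (by omega) hφ (fun _ => ne) (sug_ns hr hφ (.inr ?_)) (sD (n / κ))
    (b := ψ S * (mon π' δ' * ψ mw) * (ψ S)⁻¹) (c := D (n / κ * x) * U 1)
    (g := ψ S * g) (g' := U (-(1 / 2)) * g'⁻¹ * g) ?_ (mul_mem (sD _) (U4 _ (map_one φ)))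
    (mul_mem (a5 _) mg) (mul_mem (mul_mem (U4 _ hh') (inv_mem mg')) mg) (DD _ ▸ sc_one)
    (sc_of_eq (by rw [eg]; group)) (sc_of_eq ?_) cm fun H _ md mb mc k => ?_
  · rw [(card_fix hφ ne).1]
    have : 1 < Nat.card (Fix φ) := Finite.one_lt_card
    nlinarith only [this]
  · rw [eg]
    exact mul_mem (mul_mem (a5 _) (mul_mem (mul_mem mg (sD _)) (inv_mem mg))) (inv_mem (a5 _))
  · have : D (n / κ * x) = g'⁻¹ * (g * D (n / κ) * g⁻¹) * g' := by rw [← eg, eg']; group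
    rw [ec, this]; group
  have mt : x1T i i.rev (x1u φ x) * U 1 ∈ H := by
    have := mul_mem (inv_mem md) mc
    rwa [hD, hD, map_mul, ← x1_Tmul, ← mul_assoc (mon π δ), mul_assoc (_ * _), inv_mul_cancel_left]
      at this
  have mt' : x1T i i.rev (x1u φ x) ∈ H := by
    have := pow_mem mt (Nat.card K)
    have c : Commute (x1T i i.rev (x1u φ x)) (U 1) := mul_inv_eq_iff_eq_mul.1
      (U5 _ (sug_fx (x1_Tsug hr hφ ne hi (x1u_fix x))) (x1_Tfix oy _) (x1_Tfix (op.smul b) _) 1)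
    rw [c.mul_pow, U3, mul_one, x1T, mon_one_pow] at this
    have _ := Fintype.ofFinite K
    have e : ∀ f : Fin (r + 1) → Kˣ, f ^ Nat.card K = f := fun f => by
      ext k; simp [FiniteField.pow_card]
    rwa [e] at this
  have mu := (mul_mem_cancel_left mt').1 mt
  obtain ⟨mψ, mb'⟩ := gen H mt' md mb
  have fu := sug_fx (U4 1 (map_one φ))
  have u1 : (U 1).1 *ᵥ Pi.single i 1 = Pi.single i 1 := by
    simp only [U7, bu_single_left, mul_one, oy.2.2, map_zero, mul_zero, zero_smul, add_zero, Pi.smul_apply, op.2.2, smul_eq_mul, sub_zero]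
  have u2 : (U 1).1 *ᵥ Pi.single i.rev 1 = Pi.single i.rev 1 := by
    simp only [U7, bu_single_left, Fin.val_rev, Nat.reduceSubDiff, mul_one, Fin.rev_rev, oy.2.1, map_zero, mul_zero, zero_smul, add_zero, Pi.smul_apply, op.2.1, smul_eq_mul, sub_zero]
  have hX : ∀ s, φ s = s → x1P φ H i (Pi.single j.rev s) := fun s hs => by
    have e : hei φ i (Pi.single j.rev s) 0 = ψ (mx ⟨s, hs⟩) := by
      rw [hei_single hi ji ji', a1, Fin.rev_rev, pow_add, pi, pj, hs, (el_comm hi.symm hj _ _).eq]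
      simp
    exact ⟨.single hi ji ji' s, 0, trc_of_fx hφ (.single hi ji ji' s) (e ▸ sug_fx (a5 _)), e ▸ mψ _⟩
  have wj : ((U 1).1 *ᵥ Pi.single j.rev 1) j = bu φ (b • p) (b • p) / 2 - 2 * b := by
    simp only [U7, bu_single_left, pj', mul_one, Fin.rev_rev, y1, map_one, neg_smul, one_smul, Pi.smul_apply, p1, smul_eq_mul, hb, mul_neg, neg_mul, one_mul, neg_neg, Pi.sub_apply, Pi.add_apply, ne_eq, hj, not_false_eq_true, Pi.single_eq_of_ne, Pi.neg_apply, zero_add]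
    ring
  have key : ∀ k l : Fin (r + 1), rt φ k l ⊆ H := by
    have mW := mψ mw
    have fW := sug_fx (a5 mw)
    rw [a3, eW] at mW fW
    have eD := hD (n / κ)
    rw [x1T, mon_mul] at eD
    have fd := sug_fx (sD (n / κ))
    rw [eD] at md fd
    refine x1_spread hφ ne ev hi hj ij ij' mW fW md fd (by rw [x1_one, σ1]) (by rw [x1_one, σ4])
      (by simp) (by rw [x1_one, σ2]) (by rw [x1_one, σ3]) W5 (by rw [x1_one, mul_one, π1])
      (by rw [x1_one, mul_one, π2]) (by rw [x1_one, mul_one, π3]) (by rw [x1_one, mul_one, π4]) hX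
      ((hX 1 (map_one φ)).conj hφ mu fu u1 u2) ?_ ?_ fun S s1 s2 hs => ?_
    · rw [inv_one, one_smul, wj, map_sub, map_mul, hφ2, hb, ha]
      intro e
      exact mul_ne_zero h2 (mul_ne_zero h2 b0) (by linear_combination e)
    · rw [inv_one, one_smul, wj, map_sub, map_mul, hφ2, hb, ha, bu_smul_left, bu_smul_right, hb]
      intro e
      exact mul_ne_zero b0 (mul_ne_zero b0 pp) (by
        linear_combination div_mul_cancel₀ (b * (-b * bu φ p p)) h2 - e)
    have hu := hs _ mu fu 1 1 one_ne_zero u1 u2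
    have my : y ∈ S := by
      have m := sub_mem s1 (S.smul_mem (x1u φ n : K) s2)
      have := sub_mem (hu _ m) m
      rw [U7] at this
      simp only [bu_sub_left, bu_smul_left, bu_single_left, Fin.rev_rev, Pi.smul_apply, y1, y2, p1,
        p2, pj, pj', smul_eq_mul, map_mul, map_neg, map_one, hν, hb] at this
      rw [← S.smul_mem_iff (mul_ne_zero h2 (mul_ne_zero b0 (x1u φ n).ne_zero))]
      convert this using 1
      module
    have mp : p ∈ S := by
      have := add_mem (sub_mem (hu _ s2) s2) (S.smul_mem (bu φ (Pi.single j.rev 1) (b • p) +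
        bu φ (b • p) (b • p) / 2 * bu φ (Pi.single j.rev 1) y) my)
      rw [U7, bu_single_left _ _ y, Fin.rev_rev, y1, pj'] at this
      rw [← S.smul_mem_iff (neg_ne_zero.2 b0)]
      convert this using 1
      rw [map_one]; module
    refine span S s1 s2 my mp (x1_vec' bp ▸ hs _ mb' ?_ _ _ ?_ (by rw [x1_one, ρ1])
      (by rw [x1_one, ρ2]) _ mp)
    · have := mul_mem (eg ▸ mul_mem (mul_mem mg (sD _)) (inv_mem mg)) (inv_mem (a5 mw))
      exact sug_fx (by rwa [mul_inv_cancel_right] at this)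
    · simp
  exact ⟨key _ _, key _ _⟩

variable [Finite K]

theorem x1_norm (hφ : ∀ s, φ (φ s) = s) (ne : φ ≠ RingHom.id K) {t : Kˣ} (ht : φ t = t) :
    ∃ a b : Kˣ, φ a = b ∧ φ b = a ∧ a * b = t := by
  obtain ⟨s, e⟩ := norm_surj hφ ne ht
  have n := e ▸ t.ne_zero
  exact ⟨Units.mk0 s (left_ne_zero_of_mul n), Units.mk0 (φ s) (right_ne_zero_of_mul n), rfl, hφ s,
    Units.ext e⟩

theorem x1_five (hφ : ∀ s, φ (φ s) = s) (ne : φ ≠ RingHom.id K) (h2 : (2 : K) ≠ 0)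
    (h9 : Nat.card K ≠ 9) : IsLeast {n | Good (chev (CartanMatrix.A 4) Fin.revPerm φ) n} 3 := by
  have hφ2 : φ 2 = 2 := map_ofNat φ 2
  refine x1_core (r := 4) (i := 0) (j := 1) hφ ne h2 h9 (by omega) (by decide) (by decide)
    (by decide) (by decide) (by decide) (by simp) (by simp) (π := Fin.revPerm) (π' := 1)
    (δ := ![1, Units.mk0 2 h2, 1, (Units.mk0 2 h2)⁻¹, 1]) (δ' := ![-1, 1, 1, 1, -1])
    (ν := Units.mk0 2 h2) hφ2 (mem_sug (by omega) hφ (fun _ => ne) (fx_mon (by simp) fun k => ?_) ?_)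
    ?_ rfl rfl rfl rfl rfl rfl rfl rfl ?_ ?_ rfl rfl rfl rfl rfl rfl rfl rfl (fun μ hμ => ?_)
    (y := ![0, 1, 2, 2, 0]) (p := ![0, 1, 0, -2, 0]) (p' := ![0, 1, 0, -2, 0])
    ⟨by decide, rfl, rfl⟩ ⟨by decide, rfl, rfl⟩ rfl rfl rfl rfl ?_ ?_ (fun k => ?_) (fun k => ?_)
    (fun k => ?_) fun S s1 s2 s3 _ _ v o => ?_
  · fin_cases k <;> simp only [Nat.reduceAdd, Fin.zero_eta, Fin.isValue, cons_val_zero, Units.val_one, pow_zero, mul_one, Fin.rev, zero_add, Nat.add_one_sub_one, Fin.reduceFinMk, cons_val, map_one, Fin.revPerm_apply, Fin.coe_ofNat_eq_mod, Nat.zero_mod, Nat.mod_succ, Fin.mk_one, cons_val_one, Units.val_mk0, pow_one, mul_neg, Nat.reduceSub, Units.val_inv_eq_inv_val, map_inv₀, hφ2, neg_mul, ne_eq, h2, not_false_eq_true, mul_inv_cancel₀, Nat.one_mod, Nat.reduceMod, even_two, Even.neg_pow, one_pow, one_mul, tsub_self]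
    all_goals norm_num [h2]
  · rw [mon_det, show Equiv.Perm.sign (Fin.revPerm : Equiv.Perm (Fin 5)) = 1 by decide]
    simp [Fin.prod_univ_succ, h2]
  · rw [mon_mul]
    exact mon_eq_one (by simp) fun k => by fin_cases k <;> simp [Fin.rev]
  · rw [mon_mul]
    exact mon_eq_one (by simp) fun k => by fin_cases k <;> simp
  · rw [mon_mul, mon_mul]
    exact mon_congr (by simp) fun k => by fin_cases k <;> simp [Fin.rev]
  · obtain ⟨a, b, ab, ba, e⟩ := x1_norm hφ ne (t := μ / Units.mk0 2 h2) (by simp [hμ, hφ2])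
    refine ⟨mon 1 ![a, 1, b / a, 1, b⁻¹], mem_sug (by omega) hφ (fun _ => ne)
      (fx_mon (by simp) fun k => ?_) ?_, ?_⟩
    · fin_cases k <;> simp only [Nat.reduceAdd, Fin.zero_eta, Fin.isValue, cons_val_zero, pow_zero, mul_one, Fin.rev, zero_add, Nat.add_one_sub_one, Fin.reduceFinMk, cons_val, Units.val_inv_eq_inv_val, map_inv₀, ba, ne_eq, Units.ne_zero, not_false_eq_true, mul_inv_cancel₀, Equiv.Perm.coe_one, id_eq, Fin.coe_ofNat_eq_mod, Nat.zero_mod, Fin.mk_one, cons_val_one, Units.val_one, pow_one, mul_neg, Nat.reduceSub, map_one, Nat.one_mod, Units.val_div_eq_div_val, even_two, Even.neg_pow, one_pow, map_div₀, ab, div_mul_div_cancel₀', div_self, Nat.reduceMod, one_mul, tsub_self, Nat.mod_succ]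
      field_simp
    · simp only [Nat.reduceAdd, mon_det, Equiv.Perm.sign_one, Units.val_one, Int.cast_one, Fin.prod_univ_succ, Fin.isValue, cons_val_zero, cons_val_succ, Units.val_div_eq_div_val, Finset.univ_unique, Fin.default_eq_zero, cons_val_fin_one, Units.val_inv_eq_inv_val, Finset.prod_inv_distrib, Finset.prod_const, Finset.card_singleton, pow_one, one_mul]; field_simp
    · rw [eq_div_iff_mul_eq'] at e
      subst e
      simp only [x1T, x1W, mon_mul, mon_inv]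
      refine mon_congr (by decide) fun k => ?_
      fin_cases k <;> simp [Fin.rev, Equiv.swap_apply_def, Pi.mulSingle_apply]
      all_goals ext; simp only [Units.val_mul, Units.val_inv_eq_inv_val, Units.val_mk0]; field_simp
  · simp only [bu, Nat.reduceAdd, Fin.rev, Nat.reduceSubDiff, Fin.sum_univ_succ, Fin.isValue, Fin.coe_ofNat_eq_mod, Nat.zero_mod, pow_zero, cons_val_zero, mul_zero, tsub_zero, Fin.reduceFinMk, cons_val, map_zero, Fin.val_succ, cons_val_succ, zero_add, pow_one, mul_one, hφ2, neg_mul, one_mul, even_two, Even.neg_pow, one_pow, Fin.mk_one, cons_val_one, map_one, Finset.univ_unique, Fin.default_eq_zero, Fin.val_eq_zero, cons_val_fin_one, tsub_self, Fin.zero_eta, Finset.sum_const_zero, add_zero]; ring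
  · simp only [bu, Nat.reduceAdd, Fin.rev, Nat.reduceSubDiff, Fin.sum_univ_succ, Fin.isValue, Fin.coe_ofNat_eq_mod, Nat.zero_mod, pow_zero, cons_val_zero, mul_zero, tsub_zero, Fin.reduceFinMk, cons_val, map_zero, Fin.val_succ, cons_val_succ, zero_add, pow_one, mul_one, map_neg, hφ2, mul_neg, neg_mul, one_mul, neg_neg, even_two, Even.neg_pow, one_pow, Fin.mk_one, cons_val_one, map_one, Finset.univ_unique, Fin.default_eq_zero, Fin.val_eq_zero, cons_val_fin_one, tsub_self, Fin.zero_eta, Finset.sum_const_zero, add_zero, ne_eq]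
    exact fun e => mul_ne_zero h2 h2 (by linear_combination e)
  · fin_cases k <;> simp [Fin.rev, h2]
  · fin_cases k <;> simp [Fin.rev, h2]
  · fin_cases k <;> simp
  · have := add_mem (add_mem (S.smul_mem (v 1 - v 2 / 2) s1) (S.smul_mem (v 3 - v 2) s2))
      (S.smul_mem (v 2 / 2) s3)
    convert this using 1
    have o1 : v 0 = 0 := o.2.1
    have o2 : v 4 = 0 := o.2.2
    ext k
    fin_cases k <;> simp only [Nat.reduceAdd, Fin.zero_eta, Fin.isValue, o1, Fin.rev, Fin.coe_ofNat_eq_mod, Nat.one_mod, Nat.reduceSub, Fin.reduceFinMk, smul_cons, smul_eq_mul, mul_zero, mul_one, isUnit_iff_ne_zero, ne_eq, h2, not_false_eq_true, IsUnit.div_mul_cancel, smul_empty, Pi.add_apply, Pi.smul_apply, zero_ne_one, Pi.single_eq_of_ne, Fin.reduceEq, add_zero, cons_val_zero, Fin.mk_one, Pi.single_eq_same, cons_val_one, sub_add_cancel, cons_val, zero_add, o2]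

theorem x1_seven (hφ : ∀ s, φ (φ s) = s) (ne : φ ≠ RingHom.id K) (h2 : (2 : K) ≠ 0)
    (h9 : Nat.card K ≠ 9) : IsLeast {n | Good (chev (CartanMatrix.A 6) Fin.revPerm φ) n} 3 := by
  refine x1_core (r := 6) (i := 0) (j := 1) hφ ne h2 h9 (by omega) (by decide) (by decide)
    (by decide) (by decide) (by decide) (by simp) (by simp) (π := Fin.revPerm)
    (π' := Equiv.swap 2 4) (δ := ![1, 1, 1, -1, 1, 1, 1]) (δ' := ![-1, 1, -1, -1, -1, 1, -1])
    (ν := 1) (map_one φ) (mem_sug (by omega) hφ (fun _ => ne) (fx_mon (by simp) fun k => ?_) ?_)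
    ?_ rfl rfl rfl rfl rfl rfl rfl inv_one.symm ?_ ?_ rfl rfl rfl rfl rfl rfl rfl rfl (fun μ hμ => ?_)
    (y := ![0, 1, 1, 0, 1, 1, 0]) (p := ![0, 1, 1, 1, -1, -1, 0]) (p' := ![0, 1, 1, -1, -1, -1, 0])
    ⟨by decide, rfl, rfl⟩ ⟨by decide, rfl, rfl⟩ rfl rfl rfl rfl ?_ ?_ (fun k => ?_) (fun k => ?_)
    (fun k => ?_) fun S s1 s2 s3 s4 s5 v o => ?_
  · fin_cases k <;> simp only [Nat.reduceAdd, Fin.zero_eta, Fin.isValue, cons_val_zero, Units.val_one, pow_zero, mul_one, Fin.rev, zero_add, Nat.add_one_sub_one, Fin.reduceFinMk, cons_val, map_one, Fin.revPerm_apply, Fin.coe_ofNat_eq_mod, Nat.zero_mod, Nat.mod_succ, Fin.mk_one, cons_val_one, pow_one, mul_neg, Nat.reduceSub, Nat.one_mod, Nat.reduceMod, even_two, Even.neg_pow, one_pow, Units.val_neg, neg_mul, one_mul, map_neg, neg_neg, tsub_self] <;> norm_num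
  · rw [mon_det, show Equiv.Perm.sign (Fin.revPerm : Equiv.Perm (Fin 7)) = -1 by decide]
    simp only [Units.val_neg, Units.val_one, Int.reduceNeg, Int.cast_neg, Int.cast_one, Nat.reduceAdd, Fin.prod_univ_succ, Fin.isValue, cons_val_zero, cons_val_succ, Finset.univ_unique, Fin.default_eq_zero, cons_val_fin_one, Finset.prod_const_one, mul_one, mul_neg, neg_neg]
  · rw [mon_mul]
    exact mon_eq_one (by simp) fun k => by fin_cases k <;> simp [Fin.rev]
  · rw [mon_mul]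
    exact mon_eq_one (by simp) fun k => by fin_cases k <;> simp [Equiv.swap_apply_def]
  · rw [mon_mul, mon_mul]
    exact mon_congr (by decide) fun k => by fin_cases k <;> simp [Fin.rev, Equiv.swap_apply_def]
  · obtain ⟨a, b, ab, ba, rfl⟩ := x1_norm hφ ne hμ
    obtain ⟨c, d, cd, dc, e⟩ := x1_norm hφ ne (t := -1) (by simp only [Units.val_neg, Units.val_one, map_neg, map_one])
    refine ⟨mon 1 ![a, 1, c, b * d / (a * c), d⁻¹, 1, b⁻¹], mem_sug (by omega) hφ (fun _ => ne)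
      (fx_mon (by simp) fun k => ?_) ?_, ?_⟩
    · fin_cases k <;> simp only [Nat.reduceAdd, Fin.zero_eta, Fin.isValue, cons_val_zero, pow_zero, mul_one, Fin.rev, zero_add, Nat.add_one_sub_one, Fin.reduceFinMk, cons_val, Units.val_inv_eq_inv_val, map_inv₀, ba, ne_eq, Units.ne_zero, not_false_eq_true, mul_inv_cancel₀, Equiv.Perm.coe_one, id_eq, Fin.coe_ofNat_eq_mod, Nat.zero_mod, Fin.mk_one, cons_val_one, Units.val_one, pow_one, mul_neg, Nat.reduceSub, map_one, Nat.one_mod, even_two, Even.neg_pow, one_pow, dc, Nat.reduceMod, Units.val_div_eq_div_val, Units.val_mul, map_div₀, map_mul, ab, cd, one_mul, tsub_self, Nat.mod_succ]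
      all_goals first | norm_num only [mul_neg, mul_one, neg_mul, ne_eq, mul_eq_zero, Units.ne_zero, or_self, not_false_eq_true, div_mul_div_cancel₀', div_self, inv_mul_cancel₀] | (field_simp; norm_num)
    · simp only [Nat.reduceAdd, mon_det, Equiv.Perm.sign_one, Units.val_one, Int.cast_one, Fin.prod_univ_succ, Fin.isValue, cons_val_zero, cons_val_succ, Units.val_div_eq_div_val, Units.val_mul, Units.val_inv_eq_inv_val, Finset.univ_unique, Fin.default_eq_zero, cons_val_fin_one, Finset.prod_inv_distrib, Finset.prod_const, Finset.card_singleton, pow_one, one_mul]; field_simp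
    · obtain rfl : d = -c⁻¹ := by rw [← neg_one_mul, ← e]; simp [mul_comm]
      simp only [x1T, x1W, mon_mul, mon_inv]
      refine mon_congr (by decide) fun k => ?_
      fin_cases k <;> simp [Fin.rev, Equiv.swap_apply_def, Pi.mulSingle_apply]
  · simp only [bu, Nat.reduceAdd, Fin.rev, Nat.reduceSubDiff, Fin.sum_univ_succ, Fin.isValue, Fin.coe_ofNat_eq_mod, Nat.zero_mod, pow_zero, cons_val_zero, mul_zero, tsub_zero, Fin.reduceFinMk, cons_val, map_zero, Fin.val_succ, cons_val_succ, zero_add, pow_one, mul_one, map_one, even_two, Even.neg_pow, one_pow, Fin.mk_one, cons_val_one, Finset.univ_unique, Fin.default_eq_zero, Fin.val_eq_zero, cons_val_fin_one, tsub_self, Fin.zero_eta, Finset.sum_const_zero, add_zero, neg_add_cancel_left]; ring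
  · simp only [bu, Nat.reduceAdd, Fin.rev, Nat.reduceSubDiff, Fin.sum_univ_succ, Fin.isValue, Fin.coe_ofNat_eq_mod, Nat.zero_mod, pow_zero, cons_val_zero, mul_zero, tsub_zero, Fin.reduceFinMk, cons_val, map_zero, Fin.val_succ, cons_val_succ, zero_add, pow_one, mul_one, map_neg, map_one, mul_neg, neg_neg, even_two, Even.neg_pow, one_pow, Fin.mk_one, cons_val_one, Finset.univ_unique, Fin.default_eq_zero, Fin.val_eq_zero, cons_val_fin_one, tsub_self, Fin.zero_eta, Finset.sum_const_zero, add_zero, add_neg_cancel_left, ne_eq]; norm_num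
  · fin_cases k <;> simp [Fin.rev]
  · fin_cases k <;> simp [Fin.rev]
  · fin_cases k <;> simp [Equiv.swap_apply_def]
  · have := add_mem (add_mem (add_mem (add_mem (S.smul_mem (v 1 - v 2) s1)
      (S.smul_mem (v 5 - v 4) s2)) (S.smul_mem ((v 2 + v 4) / 2) s3))
      (S.smul_mem (((v 2 - v 4) / 2 + v 3) / 2) s4)) (S.smul_mem (((v 2 - v 4) / 2 - v 3) / 2) s5)
    convert this using 1
    have o1 : v 0 = 0 := o.2.1
    have o2 : v 6 = 0 := o.2.2
    ext k
    simp only [Pi.add_apply, Pi.smul_apply]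
    fin_cases k <;> simp only [Nat.reduceAdd, Fin.zero_eta, Fin.isValue, o1, ne_eq, zero_ne_one, not_false_eq_true, Pi.single_eq_of_ne, smul_eq_mul, mul_zero, Fin.rev, Fin.coe_ofNat_eq_mod, Nat.one_mod, Nat.reduceSub, Fin.reduceFinMk, Fin.reduceEq, add_zero, cons_val_zero, Fin.mk_one, Pi.single_eq_same, mul_one, cons_val_one, cons_val, zero_add, mul_neg, o2]
    all_goals field_simp; ring

theorem tX1 (hφ : ∀ s, φ (φ s) = s) (ne : φ ≠ RingHom.id K) (h : (2 : K) ≠ 0) {r : ℕ}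
    (hr : r = 4 ∨ r = 6) : IsLeast {n | Good (chev (CartanMatrix.A r) Fin.revPerm φ) n} 3 := by
  by_cases h9 : Nat.card K = 9 <;> rcases hr with rfl | rfl
  exacts [evU5_9 hφ ne h9, evU7_9 hφ ne h9, x1_five hφ ne h h9, x1_seven hφ ne h h9]

end Pool.Agent.MP_c78e8e_al.H75

end

section

namespace Pool.Agent.MP_c78e8e_al.H75

open Subgroup Matrix

variable {r : ℕ} {K : Type} [Field K] [CharP K 2] {φ : K →+* K}

omit [CharP K 2] in
theorem x2_ext {g g' : GL (Fin (r + 1)) K} (h : ∀ v, g.1 *ᵥ v = g'.1 *ᵥ v) : g = g' :=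
  Units.ext (Matrix.mulVec_injective (funext h))

omit [CharP K 2] in
theorem x2_mul (g g' : GL (Fin (r + 1)) K) (v : Fin (r + 1) → K) :
    (g * g').1 *ᵥ v = g.1 *ᵥ (g'.1 *ᵥ v) := by rw [Units.val_mul, mulVec_mulVec]

theorem x2_symm (hφ : ∀ s, φ (φ s) = s) (u v : Fin (r + 1) → K) : bu φ v u = φ (bu φ u v) := by
  rw [bu_symm hφ u v, CharTwo.neg_eq, one_pow, one_mul]

omit [CharP K 2] in
theorem x2_zl (v : Fin (r + 1) → K) : bu φ 0 v = 0 := by simp only [bu, Pi.zero_apply, mul_zero, zero_mul, Finset.sum_const_zero]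

omit [CharP K 2] in
theorem x2_zr (v : Fin (r + 1) → K) : bu φ v 0 = 0 := by simp only [bu, Pi.zero_apply, map_zero, mul_zero, Finset.sum_const_zero]

theorem x2_sl (i : Fin (r + 1)) (s : K) (v : Fin (r + 1) → K) :
    bu φ (Pi.single i s) v = s * φ (v i.rev) := by
  rw [bu_single_left, CharTwo.neg_eq, one_pow, one_mul]

theorem x2_sr (u : Fin (r + 1) → K) (i : Fin (r + 1)) (s : K) :
    bu φ u (Pi.single i s) = u i.rev * φ s := by
  rw [bu_single_right, CharTwo.neg_eq, one_pow, one_mul]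

theorem x2_sie (hφ : ∀ s, φ (φ s) = s) {e w : Fin (r + 1) → K} (h : bu φ e e = 0)
    (h' : bu φ w e = 0) (a : K) (v : Fin (r + 1) → K) :
    (sie φ e w a).1 *ᵥ v = v + bu φ v e • w + (bu φ v w + a * bu φ v e) • e := by
  rw [sie_apply h h' (by rw [x2_symm hφ, h', map_zero]), CharTwo.neg_eq, one_pow, one_mul,
    sub_eq_add_neg, ← neg_smul, CharTwo.neg_eq]

theorem x2_tv (hφ : ∀ s, φ (φ s) = s) {e : Fin (r + 1) → K} (h : bu φ e e = 0) (a : K)
    (v : Fin (r + 1) → K) : (sie φ e 0 a).1 *ᵥ v = v + (a * bu φ v e) • e := by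
  rw [x2_sie hφ h (x2_zl _), x2_zr, smul_zero, add_zero, zero_add]

theorem x2_sq (hφ : ∀ s, φ (φ s) = s) {e w : Fin (r + 1) → K} (h : bu φ e e = 0)
    (h' : bu φ w e = 0) (h'' : bu φ w w = 0) (a : K) : sie φ e w a * sie φ e w a = 1 := by
  have k : bu φ e w = 0 := by rw [x2_symm hφ, h', map_zero]
  refine x2_ext fun v => ?_
  simp only [x2_mul, x2_sie hφ h h', bu_add_left, bu_smul_left, h, h', h'', k, Units.val_one,
    one_mulVec, mul_zero, add_zero]
  ext l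
  simp only [Pi.add_apply, Pi.smul_apply, smul_eq_mul]
  linear_combination (bu φ v e * w l + (bu φ v w + a * bu φ v e) * e l) * CharTwo.two_eq_zero (R := K)

theorem x2_fx (hφ : ∀ s, φ (φ s) = s) {e w : Fin (r + 1) → K} (h : bu φ e e = 0)
    (h' : bu φ w e = 0) (h'' : bu φ w w = 0) {a : K} (ha : φ a = a) : Fx φ (sie φ e w a) :=
  sie_fx hφ h h' (by rw [ha, h'', CharTwo.neg_eq, one_pow, one_mul, CharTwo.add_self_eq_zero])

theorem x2_sug [Finite K] (hr : 3 ≤ r) (hφ : ∀ s, φ (φ s) = s) (ne : φ ≠ RingHom.id K)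
    {g : GL (Fin (r + 1)) K} (f : Fx φ g) (h : g * g = 1) : g ∈ sug r φ := by
  refine mem_sug hr hφ (fun _ => ne) f ?_
  have := congrArg (fun g : GL (Fin (r + 1)) K => g.1.det) h
  simp only [Units.val_mul, det_mul, Units.val_one, det_one] at this
  rcases mul_self_eq_one_iff.1 this with e | e
  · exact e
  · rw [e, CharTwo.neg_eq]

omit [CharP K 2] in
theorem x2_cen (hφ : ∀ s, φ (φ s) = s) {g : GL (Fin (r + 1)) K} (f : Fx φ g)
    {e w : Fin (r + 1) → K} (h : g.1 *ᵥ e = e) (h' : g.1 *ᵥ w = w) (a : K) :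
    Commute g (sie φ e w a) := by
  have := sie_conj hφ f e w a
  rw [h, h'] at this
  exact mul_inv_eq_iff_eq_mul.1 this

omit [CharP K 2] in
theorem x2_mon (π : Equiv.Perm (Fin (r + 1))) (d : Fin (r + 1) → Kˣ) (v : Fin (r + 1) → K)
    (k : Fin (r + 1)) : ((mon π d).1 *ᵥ v) (π k) = d k * v k := by
  rw [mulVec, dotProduct, Finset.sum_eq_single k (fun l _ h => by
    rw [mon_val, if_neg (fun e => h (π.injective e).symm), zero_mul]) (by simp), mon_val, if_pos rfl]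

omit [CharP K 2] in
theorem x2_mon1 (π : Equiv.Perm (Fin (r + 1))) (d : Fin (r + 1) → Kˣ) (k : Fin (r + 1)) :
    (mon π d).1 *ᵥ Pi.single k 1 = Pi.single (π k) (d k : K) := by
  ext l
  rw [mulVec_single_one, col_apply, mon_val, Pi.single_apply]

omit [CharP K 2] in
theorem x2_eig {g : GL (Fin (r + 1)) K} {p : Fin (r + 1) → K} {m : K} (h : g.1 *ᵥ p = m • p) (n : ℕ) :
    (g ^ n).1 *ᵥ p = m ^ n • p := by
  induction n with
  | zero => simp
  | succ n ih => rw [pow_succ, x2_mul, h, mulVec_smul, ih, smul_smul, pow_succ']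

/-- The product of two transvections of a hyperbolic plane with trace `z + z⁻¹`. -/
theorem x2_ord (hφ : ∀ s, φ (φ s) = s) {a b : Fin (r + 1) → K} (ha : bu φ a a = 0)
    (hb : bu φ b b = 0) (hab : bu φ a b = 1) {z : K} (hz : z * φ z = 1) (z1 : z + φ z ≠ 0) {n : ℕ}
    (hn : z ^ n = 1) : (sie φ a 0 1 * sie φ b 0 (z + φ z)) ^ n = 1 := by
  have h2 := CharTwo.two_eq_zero (R := K)
  have hba : bu φ b a = 1 := by rw [x2_symm hφ, hab, map_one]
  have hn' : φ z ^ n = 1 := by rw [← map_pow, hn, map_one]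
  have key : ∀ y y' : K, y * y' = 1 → y + y' = z + φ z →
      (sie φ a 0 1 * sie φ b 0 (z + φ z)).1 *ᵥ (a + (1 + y') • b) = y • (a + (1 + y') • b) := by
    intro y y' e e'
    simp only [x2_mul, x2_tv hφ ha, x2_tv hφ hb, bu_add_left, bu_smul_left, ha, hb, hab, hba, ← e']
    ext l
    simp only [Pi.add_apply, Pi.smul_apply, smul_eq_mul]
    linear_combination (-b l) * e + ((1 + y') * a l + y' * b l) * h2
  refine x2_ext fun v => ?_
  obtain ⟨s, hs⟩ : ∃ s, (z + φ z) * s = bu φ v a + bu φ v b + z * bu φ v b :=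
    ⟨_, mul_div_cancel₀ _ z1⟩
  obtain ⟨t, ht⟩ : ∃ t, (z + φ z) * t = bu φ v a + bu φ v b + φ z * bu φ v b :=
    ⟨_, mul_div_cancel₀ _ z1⟩
  obtain ⟨x, hx⟩ : ∃ x, v = x + s • (a + (1 + φ z) • b) + t • (a + (1 + z) • b) :=
    ⟨v - s • (a + (1 + φ z) • b) - t • (a + (1 + z) • b), by abel⟩
  have e1 := congrArg (bu φ · a) hx
  have e2 := congrArg (bu φ · b) hx
  simp only [bu_add_left, bu_smul_left, ha, hb, hab, hba] at e1 e2
  have f2 : bu φ x b = 0 := by
    refine mul_left_cancel₀ z1 ?_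
    linear_combination (exp := 1) -(z + φ z) * e2 - hs - ht - (bu φ v a + bu φ v b) * h2
  have f1 : bu φ x a = 0 := by
    refine mul_left_cancel₀ z1 ?_
    linear_combination (exp := 1) -(z + φ z) * e1 - (1 + φ z) * hs - (1 + z) * ht -
      (bu φ v a + bu φ v b + (z + φ z) * bu φ v b + z * φ z * bu φ v b) * h2
  have k : (sie φ a 0 1 * sie φ b 0 (z + φ z)).1 *ᵥ x = (1 : K) • x := by
    simp only [x2_mul, x2_tv hφ ha, x2_tv hφ hb, f1, f2, mul_zero, zero_smul, add_zero, one_smul]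
  rw [hx, mulVec_add, mulVec_add, mulVec_smul, mulVec_smul, x2_eig k, x2_eig (key z _ hz rfl),
    x2_eig (key (φ z) z (by rw [mul_comm, hz]) (add_comm _ _)), hn, hn']
  simp

theorem x2_odd {G : Type} [Group G] {a c : G} (ha : a * a = 1) (hc : c * c = 1) {k : ℕ}
    (h : (a * c) ^ (k + k) = a * c) : c = ((a * c) ^ k)⁻¹ * a * ((a * c) ^ k)⁻¹⁻¹ := by
  have s : SemiconjBy a (a * c) (a * c)⁻¹ := by
    rw [SemiconjBy, _root_.mul_inv_rev, inv_eq_of_mul_eq_one_right ha,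
      inv_eq_of_mul_eq_one_right hc, ← mul_assoc, ha, mul_assoc, ha, one_mul, mul_one]
  have e := (s.pow_right k).eq
  rw [inv_inv, ← inv_pow, ← e, mul_assoc, ← pow_add, h, ← mul_assoc, ha, one_mul]

omit [CharP K 2] in
theorem x2_el {k l : Fin (r + 1)} (h : k ≠ l) (s : K) (v : Fin (r + 1) → K) :
    (el k l s).1 *ᵥ v = v + (s * v l) • Pi.single k 1 := by
  rw [el_val h, add_mulVec, one_mulVec, single_mulVec]
  congr 1
  ext m
  by_cases e : m = k <;> simp [e]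

theorem x2_el2 (k l : Fin (r + 1)) (s : K) : el k l s * el k l s = 1 := by
  rw [← el_add, CharTwo.add_self_eq_zero, el_zero]

theorem x2_fxm {π : Equiv.Perm (Fin (r + 1))} {d : Fin (r + 1) → Kˣ}
    (h : ∀ i, π i.rev = (π i).rev) (h' : ∀ i : Fin (r + 1), (d i : K) * φ (d i.rev) = 1) :
    Fx φ (mon π d) := fx_mon h fun i => by
  rw [CharTwo.neg_eq, one_pow, one_pow, mul_one, h']

theorem x2_swr (i k : Fin (r + 1)) : Equiv.swap i i.rev k.rev = (Equiv.swap i i.rev k).rev := by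
  rw [← Fin.rev_injective.swap_apply, Fin.rev_rev, Equiv.swap_comm]

theorem x2_sw {k l : Fin (r + 1)} (h : k ≠ l) :
    el k l (1 : K) * el l k 1 * el k l 1 = mon (Equiv.swap k l) 1 := by
  have := mon_swap (K := K) h 1
  rw [Units.val_one, inv_one, CharTwo.neg_eq] at this
  rw [this]
  refine mon_congr (fun _ => rfl) fun m => Units.ext ?_
  split_ifs <;> simp [CharTwo.neg_eq]

theorem x2_long (hφ : ∀ s, φ (φ s) = s) {i : Fin (r + 1)} (h : i ≠ i.rev) {s : K} (hs : φ s = s) :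
    el i i.rev s ∈ sug r φ :=
  rt_mem ((rt_long hφ h _).2 ⟨s, by rw [CharTwo.neg_eq, one_pow, one_mul, hs], rfl⟩)

theorem x2_short (hφ : ∀ s, φ (φ s) = s) {i j : Fin (r + 1)} (h : i ≠ j) (h1 : j ≠ i.rev)
    (h2 : i ≠ i.rev) (h3 : j ≠ j.rev) (s : K) : el i j s * el j.rev i.rev (φ s) ∈ sug r φ :=
  rt_mem ((rt_short hφ h h1 h2 h3 _).2 ⟨s, by rw [CharTwo.neg_eq, CharTwo.neg_eq, one_pow, one_mul]⟩)

theorem x2_pc {G : Type} [Group G] {a b a' b' : G} (h1 : Commute a' b) (h2 : Commute a' a)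
    (h3 : Commute b' a) (ha : a * a = 1) (ha' : a' * a' = 1) :
    a * a' * (b * b') * (a * a')⁻¹ = a * b * a * (a' * b' * a') := by
  rw [_root_.mul_inv_rev, inv_eq_of_mul_eq_one_right ha, inv_eq_of_mul_eq_one_right ha', h2.eq,
    h1.mul_mul_mul_comm, mul_assoc (a * b), ← mul_assoc (a' * b'), (h2.mul_left h3).eq]
  group

section
variable {i j : Fin (r + 1)} (ij : i ≠ j) (ii : i ≠ i.rev) (jj : j ≠ j.rev) (ji : j ≠ i.rev)
include ij ii jj ji

theorem x2_psi : ∃ ψ : SL2 (Fix φ) →* GL (Fin (r + 1)) K,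
    (∀ s, ψ (mx s) = el i j (s : K) * el j.rev i.rev (s : K)) ∧
    (∀ s, ψ (mz s) = el j i (s : K) * el i.rev j.rev (s : K)) ∧
    ψ mw = mon (Equiv.swap i j * Equiv.swap j.rev i.rev) 1 ∧ ∀ a, ψ (mdg a) ∈ dgl := by
  have i2 : i ≠ j.rev := fun e => ji (by rw [e, Fin.rev_rev])
  have rr : j.rev ≠ i.rev := Fin.rev_injective.ne ij.symm
  obtain ⟨p, p1, p2, -, p4⟩ := psi_el (K := K) ij
  obtain ⟨q, q1, q2, -, q4⟩ := psi_el (K := K) rr
  have cm : ∀ A B, Commute (p A) (q B) := fun A B => by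
    refine sl2_comm (fun s => (sl2_comm (fun t => ?_) (fun t => ?_) A).symm)
      (fun s => (sl2_comm (fun t => ?_) (fun t => ?_) A).symm) B <;>
      simp only [p1, p2, q1, q2] <;> apply el_comm <;> first | assumption | (symm; assumption)
  let ι : SL2 (Fix φ) →* SL2 K := SpecialLinearGroup.map (Fix φ).subtype
  have e0 : ∀ A a b, (ι A).1 a b = (A.1 a b : K) := fun _ _ _ => rfl
  have e1 : ∀ s, ι (mx s) = mx (s : K) := fun s => by
    ext a b; rw [e0]; fin_cases a <;> fin_cases b <;> simp only [mx, Fin.zero_eta, Fin.isValue, of_apply, cons_val', cons_val_zero, cons_val_fin_one, OneMemClass.coe_one, Fin.mk_one, cons_val_one, ZeroMemClass.coe_zero]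
  have e2 : ∀ s, ι (mz s) = mz (s : K) := fun s => by
    ext a b; rw [e0]; fin_cases a <;> fin_cases b <;> simp only [mz, Fin.zero_eta, Fin.isValue, of_apply, cons_val', cons_val_zero, cons_val_fin_one, OneMemClass.coe_one, Fin.mk_one, cons_val_one, ZeroMemClass.coe_zero, NegMemClass.coe_neg]
  have e4 : ∀ a, ι (mdg a) = mdg (Units.map (Fix φ).subtype.toMonoidHom a) := fun s => by
    ext a b; rw [e0]; fin_cases a <;> fin_cases b <;> simp only [mdg, Units.val_inv_eq_inv_val, Fin.zero_eta, Fin.isValue, of_apply, cons_val', cons_val_zero, cons_val_fin_one, RingHom.toMonoidHom_eq_coe, Units.coe_map, MonoidHom.coe_coe, Subfield.subtype_apply, Fin.mk_one, cons_val_one, ZeroMemClass.coe_zero, Subfield.coe_inv]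
  have e3 : ∀ {k l : Fin (r + 1)} (f : SL2 K →* GL (Fin (r + 1)) K), k ≠ l →
      (∀ s, f (mx s) = el k l s) → (∀ v, f (mz v) = el l k (-v)) →
      f (ι mw) = mon (Equiv.swap k l) 1 := fun f h f1 f2 => by
    simp only [mw_eq, map_mul, e1, e2, f1, f2, CharTwo.neg_eq, OneMemClass.coe_one, x2_sw h]
  refine ⟨MonoidHom.mk' (fun A => p (ι A) * q (ι A)) fun A B => ?_, fun s => ?_, fun s => ?_, ?_,
    fun a => ?_⟩
  · simp only [map_mul]; exact (cm _ _).mul_mul_mul_comm _ _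
  · simp only [MonoidHom.mk'_apply, e1, p1, q1]
  · simp only [MonoidHom.mk'_apply, e2, p2, q2, CharTwo.neg_eq]
  · rw [MonoidHom.mk'_apply, e3 p ij p1 p2, e3 q rr q1 q2, mon_mul]
    exact mon_congr (fun _ => rfl) (by simp)
  · rw [MonoidHom.mk'_apply, e4, p4, q4]
    exact mul_mem (mon_dgl (fun _ => rfl) _) (mon_dgl (fun _ => rfl) _)

theorem x2_conj {ρ ρ' : K} (h : ρ + ρ' = 1) :
    el i.rev j ρ' * el j.rev i ρ * (el j i.rev 1 * el i j.rev 1) * (el i.rev i 1 * el j j.rev 1) =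
      el j i 1 * el i.rev j.rev 1 * (el i.rev j ρ' * el j.rev i ρ * (el j i.rev 1 * el i j.rev 1)) := by
  have i2 : i ≠ j.rev := fun e => ji (by rw [e, Fin.rev_rev])
  have rr : j.rev ≠ i.rev := Fin.rev_injective.ne ij.symm
  refine x2_ext fun v => ?_
  simp only [x2_mul, x2_el ji.symm, x2_el i2.symm, x2_el ji, x2_el i2, x2_el ii.symm, x2_el jj,
    x2_el ij.symm, x2_el rr.symm, Pi.add_apply, Pi.smul_apply, Pi.single_apply, ij, ii, jj, ji, i2,
    rr, ij.symm, ii.symm, jj.symm, ji.symm, i2.symm, if_true, if_false, smul_eq_mul, mul_zero,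
    add_zero, mul_one, one_mul]
  ext l
  simp only [Pi.add_apply, Pi.smul_apply, smul_eq_mul]
  linear_combination (v i + v j.rev - ρ * (v i + v j.rev) - v j.rev) *
    (Pi.single i.rev 1 : Fin (r + 1) → K) l * CharTwo.two_eq_zero (R := K) +
    (v i + v j.rev) * (Pi.single i.rev 1 : Fin (r + 1) → K) l * h

/-- The Weyl element of the short root `SL₂` is conjugate to the product of two long ones. -/
theorem x2_cj [Finite K] (hφ : ∀ s, φ (φ s) = s) (ne : φ ≠ RingHom.id K)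
    {π : Equiv.Perm (Fin (r + 1))} (pr : ∀ k, π k.rev = (π k).rev) (pi : π i = i) (pj : π j = j) :
    ∃ g ∈ sug r φ, g * mon (Equiv.swap i i.rev * (Equiv.swap j j.rev * π)) 1 * g⁻¹ =
      mon π 1 * mon (Equiv.swap i j * Equiv.swap j.rev i.rev) 1 := by
  have i2 : i ≠ j.rev := fun e => ji (by rw [e, Fin.rev_rev])
  have rr : j.rev ≠ i.rev := Fin.rev_injective.ne ij.symm
  obtain ⟨ρ, hρ⟩ := trace_surj hφ ne (map_one φ)
  have pi' : π i.rev = i.rev := by rw [pr, pi]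
  have pj' : π j.rev = j.rev := by rw [pr, pj]
  have cm : ∀ {k l m n} (s t : K), π k = k → π l = l → π m = m → π n = n →
      Commute (el k l s * el m n t) (mon π 1) := by
    have : ∀ {k l} (s : K), π k = k → π l = l → Commute (el k l s) (mon π 1) := fun s hk hl => by
      rw [Commute, SemiconjBy, mon_mul_el, hk, hl]
      simp
    exact fun {_ _ _ _} s t a b c d => (this s a b).mul_left (this t c d)
  have e1 := x2_pc (el_comm (K := K) ji i2 1 1) (el_comm (K := K) ij.symm rr.symm 1 1)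
    (el_comm (K := K) i2.symm ji.symm 1 1) (x2_el2 i i.rev 1) (x2_el2 j.rev j 1)
  have e2 := x2_pc (el_comm (K := K) ji.symm i2 1 1) (el_comm (K := K) ii.symm jj.symm.symm 1 1)
    (el_comm (K := K) i2.symm ji 1 1) (x2_el2 i j 1) (x2_el2 j.rev i.rev 1)
  rw [x2_sw ii, x2_sw jj.symm] at e1
  rw [x2_sw ij, x2_sw rr] at e2
  have e3 := x2_conj ij ii jj ji hρ
  have m1 := x2_short hφ ij ji ii jj 1
  have m2 := x2_short hφ (i := i.rev) (j := j) ji.symm (by simpa using ij.symm)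
    (by simpa using ii.symm) jj (φ ρ)
  have m3 := x2_short hφ (i := j) (j := i.rev) ji rr.symm jj (by simpa using ii.symm) 1
  have m4 := mul_mem (x2_long hφ ii (map_one φ))
    (x2_long hφ (i := j.rev) (by simpa using jj.symm) (map_one φ))
  simp only [Fin.rev_rev, map_one, hφ] at m1 m2 m3 m4
  have c1 := cm 1 1 pi pj pj' pi'
  have c2 := cm (φ ρ) ρ pi' pj pj' pi
  have c3 := cm 1 1 pj pi' pi pj'
  have c4 := cm 1 1 pi pi' pj' pj
  have c5 := cm 1 1 pj pi pi' pj'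
  have e4 : (mon (Equiv.swap i i.rev * (Equiv.swap j j.rev * π)) 1 : GL (Fin (r + 1)) K) =
      mon (Equiv.swap i i.rev) 1 * mon (Equiv.swap j.rev j) 1 * mon π 1 := by
    rw [mon_mul, mon_mul, Equiv.swap_comm j.rev]
    exact mon_congr (fun _ => rfl) (by simp)
  have e5 : (mon (Equiv.swap i j * Equiv.swap j.rev i.rev) 1 : GL (Fin (r + 1)) K) =
      mon (Equiv.swap i j) 1 * mon (Equiv.swap j.rev i.rev) 1 := by
    rw [mon_mul]
    exact mon_congr (fun _ => rfl) (by simp)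
  refine ⟨_, mul_mem (mul_mem m1 (mul_mem m2 m3)) (inv_mem m4), ?_⟩
  rw [e4, e5, ← e1, ← e2, ← mul_assoc, mul_assoc _ (mon π 1),
    ← ((c1.mul_left (c2.mul_left c3)).mul_left c4.inv_left).inv_left.eq,
    ← ((c1.mul_left c5).mul_left c1.inv_left).eq, ← mul_assoc, ← mul_inv_eq_iff_eq_mul.2 e3]
  group

/-- Spreading: from the real points of a short root `SL₂` to two opposite radicals. -/
theorem x2_spread (hr : 3 ≤ r) (hφ : ∀ s, φ (φ s) = s) (ne : φ ≠ RingHom.id K)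
    {π : Equiv.Perm (Fin (r + 1))} (pr : ∀ k, π k.rev = (π k).rev) (pi : π i = i) (pj : π j = j)
    (p2 : π * π = 1) {c : GL (Fin (r + 1)) K} (cf : Fx φ c)
    (c1 : c.1 *ᵥ Pi.single i 1 = Pi.single i 1) (c2 : c.1 *ᵥ Pi.single i.rev 1 = Pi.single i.rev 1)
    (nr : φ ((c.1 *ᵥ Pi.single j.rev 1) j.rev) ≠ (c.1 *ᵥ Pi.single j.rev 1) j.rev)
    (sp : ∀ S : AddSubgroup (Fin (r + 1) → K), (∀ s, φ s = s → s • Pi.single j.rev 1 ∈ S) →
      (∀ s, φ s = s → ∀ w ∈ S, (s * w j.rev) • Pi.single j 1 ∈ S) →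
      (∀ s, φ s = s → ∀ w ∈ S, (s * w j) • Pi.single j.rev 1 ∈ S) →
      (∀ w ∈ S, (mon π 1).1 *ᵥ w ∈ S) → (∀ w ∈ S, c.1 *ᵥ w ∈ S) → ∀ w, Off i w → w ∈ S)
    {H : Subgroup (GL (Fin (r + 1)) K)} {a : Kˣ} (ha : φ a = a)
    (hx : ∀ s, φ s = s → el i j s * el j.rev i.rev s ∈ H)
    (hw : mon (Equiv.swap i j * Equiv.swap j.rev i.rev) 1 ∈ H) (hb : mon π 1 ∈ H)
    (hd : mon (Equiv.swap i i.rev * (Equiv.swap j j.rev * π)) 1 ∈ H)
    (hc : el i i.rev (a : K) * el i.rev i (-(a : K)⁻¹) * el i i.rev (a : K) * c ∈ H)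
    (k l : Fin (r + 1)) : rt φ k l ⊆ H := by
  have i2 : i ≠ j.rev := fun e => ji (by rw [e, Fin.rev_rev])
  have rr : j.rev ≠ i.rev := Fin.rev_injective.ne ij.symm
  have pi' : π i.rev = i.rev := by rw [pr, pi]
  have pj' : π j.rev = j.rev := by rw [pr, pj]
  have tr : ∀ {k k' : Fin (r + 1)} {g w a w' a'}, Fx φ g → Off k w → Trc φ k w a → Off k' w' →
      g * hei φ k w a * g⁻¹ = hei φ k' w' a' → Trc φ k' w' a' := fun f o t o' e =>
    trc_of_fx hφ o' (e ▸ (f.mul (hei_fx hφ o t)).mul f.inv)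
  let S : AddSubgroup (Fin (r + 1) → K) :=
    { carrier := {w | Off i w ∧ ∃ a, Trc φ i w a ∧ hei φ i w a ∈ H}
      zero_mem' := ⟨⟨ii, rfl, rfl⟩, 0, by simp only [Trc, mul_zero, Fin.val_rev, Nat.reduceSubDiff, map_zero, add_zero, bu_zero_right], by rw [hei_zero]; exact one_mem _⟩
      add_mem' := fun {w w'} ⟨o, a, t, m⟩ ⟨o', a', t', m'⟩ => by
        have o2 : Off i (w + w') := ⟨ii, by simp [o.2, o'.2], by simp [o.2, o'.2]⟩
        have e := hei_mul (φ := φ) o o' a a'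
        exact ⟨o2, _, trc_of_fx hφ o2 (e ▸ (hei_fx hφ o t).mul (hei_fx hφ o' t')), e ▸ mul_mem m m'⟩
      neg_mem' := fun {w} h => by rwa [show -w = w from funext fun k => CharTwo.neg_eq _] }
  have cj : ∀ {g l l'}, g ∈ H → Fx φ g → g.1 *ᵥ Pi.single i 1 = Pi.single i l →
      g.1 *ᵥ Pi.single i.rev 1 = Pi.single i.rev l' → ∀ w ∈ S, l'⁻¹ • g.1 *ᵥ w ∈ S :=
    fun m f h1 h2 w ⟨o, a, t, m'⟩ => by
      obtain ⟨o', e⟩ := hei_conj hφ f h1 h2 o a
      exact ⟨o', _, tr f o t o' e, e ▸ mul_mem (mul_mem m m') (inv_mem m)⟩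
  have cj1 : ∀ {g}, g ∈ H → Fx φ g → g.1 *ᵥ Pi.single i 1 = Pi.single i 1 →
      g.1 *ᵥ Pi.single i.rev 1 = Pi.single i.rev 1 → ∀ w ∈ S, g.1 *ᵥ w ∈ S :=
    fun m f h1 h2 w hw => by simpa using cj m f h1 h2 w hw
  have s1 : ∀ s, φ s = s → s • Pi.single j.rev 1 ∈ S := fun s hs => by
    rw [← Pi.single_smul', smul_eq_mul, mul_one]
    refine ⟨⟨ii, by simp [i2], by simp [rr.symm]⟩, 0, by simp only [Trc, mul_zero, Fin.val_rev, Nat.reduceSubDiff, map_zero, add_zero, x2_sl, Fin.rev_rev, ne_eq, jj, not_false_eq_true, Pi.single_eq_of_ne], ?_⟩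
    rw [hei_single ii i2.symm rr, el_zero, mul_one, Fin.rev_rev, CharTwo.neg_eq, CharTwo.neg_eq,
      one_pow, one_mul, hs, ← (el_comm jj ii.symm s s).eq]
    exact hx s hs
  obtain ⟨σ, hσ⟩ : ∃ σ, σ = Equiv.swap i i.rev * (Equiv.swap j j.rev * π) := ⟨_, rfl⟩
  have σr : ∀ k, σ k.rev = (σ k).rev := fun k => by simp [hσ, pr, x2_swr]
  have σ1 : σ i = i.rev := by simp [hσ, pi, Equiv.swap_apply_of_ne_of_ne ij i2]
  have σ2 : σ i.rev = i := by rw [σr, σ1, Fin.rev_rev]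
  have σ3 : σ j.rev = j := by simp [hσ, pj', Equiv.swap_apply_of_ne_of_ne ij.symm ji]
  have σσ : σ * σ = 1 := by
    have a1 : Commute π (Equiv.swap j j.rev) := by
      rw [Commute, SemiconjBy, Equiv.mul_swap_eq_swap_mul, pj, pj']
    have a2 : Commute (Equiv.swap j j.rev * π) (Equiv.swap i i.rev) := by
      rw [Commute, SemiconjBy, Equiv.mul_swap_eq_swap_mul]
      simp [pi, pi', Equiv.swap_apply_of_ne_of_ne ij i2,
        Equiv.swap_apply_of_ne_of_ne ji.symm rr.symm]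
    rw [hσ, a2.mul_mul_mul_comm, a1.mul_mul_mul_comm, p2]
    simp
  rw [← hσ] at hd
  have fd : Fx φ (mon σ 1) := x2_fxm σr (by simp)
  have fl : ∀ {k : Fin (r + 1)} {s : K}, k ≠ k.rev → φ s = s → Fx φ (el k k.rev s) :=
    fun h hs => sug_fx (x2_long hφ h hs)
  have ha' : φ (-(a : K)⁻¹) = -(a : K)⁻¹ := by rw [map_neg, map_inv₀, ha]
  have fY : ∀ {s : K}, φ s = s → Fx φ (el i.rev i s) := fun hs => by
    simpa using fl (k := i.rev) (by simpa using ii.symm) hs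
  have fn := ((fl ii ha).mul (fY ha')).mul (fl ii ha)
  have hn := mon_swap ii a
  have z1 : ∀ s, φ s = s → el i i.rev s ∈ H := fun s hs => by
    obtain ⟨x, hx⟩ : ∃ x, x = (c.1 *ᵥ Pi.single j.rev 1) j.rev := ⟨_, rfl⟩
    rw [← hx] at nr
    have n0 : x + φ x ≠ 0 := fun e => nr (by linear_combination e - x * CharTwo.two_eq_zero (R := K))
    have h1 := cj (mul_mem hd hc) (fd.mul (fn.mul cf)) (l := (-a⁻¹ : Kˣ)) (l' := a)
      (by rw [x2_mul, x2_mul, c1, hn, x2_mon1, ← mul_one ((_ : Kˣ) : K), ← smul_eq_mul,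
        Pi.single_smul', mulVec_smul, x2_mon1, ← Pi.single_smul']; simp [σ2, ii])
      (by rw [x2_mul, x2_mul, c2, hn, x2_mon1, ← mul_one ((_ : Kˣ) : K), ← smul_eq_mul,
        Pi.single_smul', mulVec_smul, x2_mon1, ← Pi.single_smul']; simp [σ1]) _ (s1 1 (map_one φ))
    obtain ⟨w, hw⟩ : ∃ w, w = (a : K)⁻¹ • (mon σ 1 * (el i i.rev (a : K) * el i.rev i (-(a : K)⁻¹) *
      el i i.rev (a : K) * c)).1 *ᵥ ((1 : K) • Pi.single j.rev 1) := ⟨_, rfl⟩
    have wj : w j = (a : K)⁻¹ * x := by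
      have := x2_mon (Equiv.swap i i.rev) (fun k => if k = i.rev then a else if k = i then -a⁻¹ else 1)
        (c.1 *ᵥ Pi.single j.rev 1) j.rev
      rw [Equiv.swap_apply_of_ne_of_ne i2.symm rr] at this
      have h3 := fun v : Fin (r + 1) → K => x2_mon σ 1 v j.rev
      rw [σ3] at h3
      rw [hw, one_smul, x2_mul, x2_mul, hn, Pi.smul_apply, h3, this, hx]
      simp [rr, i2.symm]
    rw [← hw] at h1
    obtain ⟨o, b, -, m⟩ := h1
    have hs' : φ (s * a / (x + φ x)) = s * a / (x + φ x) := by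
      rw [map_div₀, map_mul, map_add, hφ, hs, ha, add_comm]
    obtain ⟨o', b', -, m'⟩ := s1 _ hs'
    have m1 := mul_mem m m'
    have m2 := mul_mem m' m
    rw [hei_mul o o'] at m1
    rw [hei_mul o' o, add_comm _ w] at m2
    have o2 : Off i (w + (s * a / (x + φ x)) • Pi.single j.rev 1) :=
      ⟨ii, by simp [o.2, i2], by simp [o.2, rr.symm]⟩
    have e := hei_mul (φ := φ) (w := 0) ⟨ii, rfl, rfl⟩ o2 s
      (b' + b - (-1) ^ (i : ℕ) * bu φ w ((s * a / (x + φ x)) • Pi.single j.rev 1))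
    rw [zero_add, hei_centre ii] at e
    rw [eq_mul_inv_of_mul_eq e]
    refine mul_mem ?_ (inv_mem m2)
    convert m1 using 2
    simp only [CharTwo.neg_eq, one_pow, one_mul, x2_zr, bu_smul_left, bu_smul_right, x2_sl, x2_sr,
      Fin.rev_rev, wj, hs', map_one, map_mul, map_inv₀, ha, CharTwo.sub_eq_add, mul_one, add_zero]
    field_simp
    grind
  have z2 : ∀ s, φ s = s → el i.rev i s ∈ H := fun s hs => by
    have := mul_mem (mul_mem hd (z1 s hs)) (inv_mem hd)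
    rw [mon_el, σ1, σ2] at this
    simpa using this
  have z3 : ∀ s, φ s = s → el j j.rev s ∈ H ∧ el j.rev j s ∈ H := fun s hs => by
    have h1 := mul_mem (mul_mem hw (z1 s hs)) (inv_mem hw)
    have h2 := mul_mem (mul_mem hw (z2 s hs)) (inv_mem hw)
    rw [mon_el] at h1 h2
    constructor
    · simpa [Equiv.swap_apply_of_ne_of_ne i2 ii, Equiv.swap_apply_of_ne_of_ne i2.symm jj.symm] using h1
    · simpa [Equiv.swap_apply_of_ne_of_ne i2 ii, Equiv.swap_apply_of_ne_of_ne i2.symm jj.symm] using h2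
  have all := sp S s1 (fun s hs w hw => by
      have := cj1 (z3 s hs).1 (fl jj hs) (by simp [x2_el jj, i2.symm]) (by simp [x2_el jj, rr]) w hw
      rwa [x2_el jj, add_mem_cancel_left hw] at this)
    (fun s hs w hw => by
      have := cj1 (z3 s hs).2 (by simpa using fl (k := j.rev) (by simpa using jj.symm) hs)
        (by simp [x2_el jj.symm, ij.symm]) (by simp [x2_el jj.symm, ji]) w hw
      rwa [x2_el jj.symm, add_mem_cancel_left hw] at this)
    (cj1 hb (x2_fxm pr (by simp)) (by rw [x2_mon1, pi]; rfl) (by rw [x2_mon1, pi']; rfl))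
    (cj1 ((mul_mem_cancel_left (mul_mem (mul_mem (z1 _ ha) (z2 _ ha')) (z1 _ ha))).1 hc) cf c1 c2)
  refine gen_hei hr hφ (fun _ => ne) (Or.inl ne) ii (fun w o => (all w o).2) (fun w o => ?_) k l
  have d1 : (mon σ 1).1 *ᵥ Pi.single i 1 = Pi.single i.rev (1 : K) := by rw [x2_mon1, σ1]; rfl
  have d2 : (mon σ 1).1 *ᵥ Pi.single i.rev 1 = Pi.single i (1 : K) := by rw [x2_mon1, σ2]; rfl
  have o1 := (hei_conj hφ fd (i := i.rev) (j := i) d2 (by rw [Fin.rev_rev, d1]) (w := w)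
    ⟨by simpa using ii.symm, o.2.2, by simpa using o.2.1⟩ 0).1
  obtain ⟨-, b, t, m⟩ := all _ o1
  obtain ⟨o', e⟩ := hei_conj hφ fd (j := i.rev) d1 (by rw [Fin.rev_rev, d2]) o1 b
  have t' := tr fd o1 t o' e
  have m' := mul_mem (mul_mem hd m) (inv_mem hd)
  rw [e] at m'
  rw [inv_one, one_smul, one_smul, ← x2_mul, mon_mul, σσ, mon_eq_one (by simp) (by simp),
    Units.val_one, one_mulVec] at t' m'
  exact ⟨_, t', m'⟩

theorem x2_main [Finite K] (hr : 3 ≤ r) (hφ : ∀ s, φ (φ s) = s) (ne : φ ≠ RingHom.id K)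
    (h4 : Nat.card K ≠ 4)
    {π : Equiv.Perm (Fin (r + 1))} (pr : ∀ k, π k.rev = (π k).rev) (pi : π i = i) (pj : π j = j)
    (p2 : π * π = 1) {c : GL (Fin (r + 1)) K} (cf : Fx φ c) (cc : c * c = 1)
    (c1 : c.1 *ᵥ Pi.single i 1 = Pi.single i 1) (c2 : c.1 *ᵥ Pi.single i.rev 1 = Pi.single i.rev 1)
    (cm : ∀ g, Fx φ g → (∀ v, Off i v → g.1 *ᵥ v = v) → Commute g c)
    (cu : (mon (Equiv.swap j j.rev * π) 1 * c) ^ (Nat.card (Fix φ) + 1) = 1)
    (nr : φ ((c.1 *ᵥ Pi.single j.rev 1) j.rev) ≠ (c.1 *ᵥ Pi.single j.rev 1) j.rev)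
    (sp : ∀ S : AddSubgroup (Fin (r + 1) → K), (∀ s, φ s = s → s • Pi.single j.rev 1 ∈ S) →
      (∀ s, φ s = s → ∀ w ∈ S, (s * w j.rev) • Pi.single j 1 ∈ S) →
      (∀ s, φ s = s → ∀ w ∈ S, (s * w j) • Pi.single j.rev 1 ∈ S) →
      (∀ w ∈ S, (mon π 1).1 *ᵥ w ∈ S) → (∀ w ∈ S, c.1 *ᵥ w ∈ S) → ∀ w, Off i w → w ∈ S) :
    IsLeast {n | Good (chev (CartanMatrix.A r) Fin.revPerm φ) n} 3 := by
  have i2 : i ≠ j.rev := fun e => ji (by rw [e, Fin.rev_rev])
  have rr : j.rev ≠ i.rev := Fin.rev_injective.ne ij.symm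
  have pi' : π i.rev = i.rev := by rw [pr, pi]
  have pj' : π j.rev = j.rev := by rw [pr, pj]
  obtain ⟨cd, fr⟩ := card_fix hφ ne
  have F2 : (2 : Fix φ) = 0 := Subtype.ext (CharTwo.two_eq_zero (R := K))
  obtain ⟨k, hk⟩ : ∃ k, Nat.card (Fix φ) = k + k := by
    have := Fintype.ofFinite (Fix φ)
    have h := FiniteField.even_card_of_char_two (F := Fix φ) (ringChar.eq _ 2)
    rw [Nat.card_eq_fintype_card]
    exact ⟨Fintype.card (Fix φ) / 2, by omega⟩
  have q1 : 1 < Nat.card (Fix φ) := Finite.one_lt_card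
  obtain ⟨x, x0, hx⟩ := sl2f_gen (K := Fix φ)
  have x1 : x ≠ 1 := fun e => h4 (by
    rw [cd, (Nat.card_eq_two_iff' (0 : Fix φ)).2 ⟨1, one_ne_zero, fun y hy => by
      obtain ⟨n, h⟩ := hx y hy; rw [h, e, one_pow]⟩]; rfl)
  have xK : (x : K) ≠ 0 := by simpa using x0
  have xr : φ x = x := x.2
  obtain ⟨a, ha⟩ : ∃ a : Kˣ, (a : K) = (x : K)⁻¹ := ⟨(Units.mk0 _ xK)⁻¹, by simp⟩
  have ar : φ a = a := by rw [ha, map_inv₀, xr]
  have ar' : φ (-(a : K)⁻¹) = -(a : K)⁻¹ := by rw [map_neg, map_inv₀, ar]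
  obtain ⟨ψ, p1, p3, pw, p4⟩ := x2_psi (φ := φ) ij ii jj ji
  obtain ⟨g, gm, ge⟩ := x2_cj ij ii jj ji hφ ne pr pi pj
  obtain ⟨τ, hτ⟩ : ∃ τ, τ = Equiv.swap j j.rev * π := ⟨_, rfl⟩
  have τ1 : τ i = i := by simp [hτ, pi, Equiv.swap_apply_of_ne_of_ne ij i2]
  have τr : ∀ k, τ k.rev = (τ k).rev := fun k => by simp [hτ, pr, x2_swr]
  have τ2 : τ i.rev = i.rev := by rw [τr, τ1]
  have τ3 : τ j = j.rev := by simp [hτ, pj]
  have τ4 : τ j.rev = j := by rw [τr, τ3, Fin.rev_rev]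
  have a1 : Commute π (Equiv.swap j j.rev) := by
    rw [Commute, SemiconjBy, Equiv.mul_swap_eq_swap_mul, pj, pj']
  have a2 : Commute π (Equiv.swap i i.rev) := by
    rw [Commute, SemiconjBy, Equiv.mul_swap_eq_swap_mul, pi, pi']
  have ττ : (mon τ 1 : GL (Fin (r + 1)) K) * mon τ 1 = 1 := by
    rw [mon_mul, hτ, a1.mul_mul_mul_comm, p2]
    exact mon_eq_one (by simp) (by simp)
  have mX : ∀ {s : K}, φ s = s → el i i.rev s ∈ sug r φ := x2_long hφ ii
  have mY : ∀ {s : K}, φ s = s → el i.rev i s ∈ sug r φ := fun hs => by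
    simpa using x2_long hφ (i := i.rev) (by simpa using ii.symm) hs
  have cn : ∀ {s t : K}, φ s = s → φ t = t →
      Commute (el i i.rev s * el i.rev i t * el i i.rev s) (mon τ 1) ∧
      Commute (el i i.rev s * el i.rev i t * el i i.rev s) c := fun {s t} hs ht => by
    have b1 : Commute (el i i.rev s) (mon τ 1) := by
      rw [Commute, SemiconjBy, mon_mul_el, τ1, τ2]; simp
    have b2 : Commute (el i.rev i t) (mon τ 1) := by
      rw [Commute, SemiconjBy, mon_mul_el, τ1, τ2]; simp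
    have b3 := cm _ (sug_fx (mX hs)) fun v o => by simp [x2_el ii, o.2]
    have b4 := cm _ (sug_fx (mY ht)) fun v o => by simp [x2_el ii.symm, o.2]
    exact ⟨(b1.mul_left b2).mul_left b1, (b3.mul_left b4).mul_left b3⟩
  have nn : ∀ s t : K, el i i.rev s * el i.rev i t * el i i.rev s *
      (el i i.rev s * el i.rev i t * el i i.rev s) = 1 := fun s t => by
    simp only [← mul_assoc]
    rw [mul_assoc _ (el i i.rev s) (el i i.rev s), x2_el2, mul_one,
      mul_assoc _ (el i.rev i t) (el i.rev i t), x2_el2, mul_one, x2_el2]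
  obtain ⟨c3, c4⟩ := cn (map_one φ) (map_one φ)
  obtain ⟨c5, c6⟩ := cn ar ar'
  have n1 := nn 1 1
  have m1 := mul_mem (mul_mem (mX (map_one φ)) (mY (map_one φ))) (mX (map_one φ))
  rw [x2_sw ii] at c3 c4 n1 m1
  obtain ⟨n, hn⟩ : ∃ n, n = el i i.rev (a : K) * el i.rev i (-(a : K)⁻¹) * el i i.rev (a : K) :=
    ⟨_, rfl⟩
  have m2 : n ∈ sug r φ := hn ▸ mul_mem (mul_mem (mX ar) (mY ar')) (mX ar)
  have n2 : n * n = 1 := hn ▸ nn _ _
  obtain ⟨δ, hδ⟩ : ∃ δ : Fin (r + 1) → Kˣ,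
    δ = fun k => if k = i.rev then a else if k = i then -a⁻¹ else 1 := ⟨_, rfl⟩
  have et : mon (Equiv.swap i i.rev) 1 * n = mon 1 δ := by
    rw [hn, mon_swap ii, mon_mul, hδ]
    exact mon_congr (by simp) (by simp)
  have tq : mon 1 δ ^ Nat.card (Fix φ) = mon 1 δ := by
    rw [mon_one_pow]
    refine mon_congr (fun _ => rfl) fun l => Units.ext ?_
    rw [Pi.pow_apply, Units.val_pow_eq_pow_val, ← fr, hδ]
    dsimp only
    split_ifs <;> simp [ar]
  rw [← hn] at c5 c6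
  rw [← hτ] at cu ge
  have ed : (mon (Equiv.swap i i.rev * τ) 1 : GL (Fin (r + 1)) K) =
      mon (Equiv.swap i i.rev) 1 * mon τ 1 := by
    rw [mon_mul]; exact mon_congr (fun _ => rfl) (by simp)
  have dd : (mon (Equiv.swap i i.rev * τ) 1 : GL (Fin (r + 1)) K) *
      mon (Equiv.swap i i.rev * τ) 1 = 1 := by
    rw [ed, c3.symm.mul_mul_mul_comm, n1, ττ, one_mul]
  have dm : mon (Equiv.swap i i.rev * τ) 1 ∈ sug r φ :=
    x2_sug hr hφ ne (x2_fxm (fun k => by simp [τr, x2_swr]) (by simp)) dd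
  have cc' : n * c * (n * c) = 1 := by rw [c6.symm.mul_mul_mul_comm, n2, cc, one_mul]
  have cm' := mul_mem m2 (x2_sug hr hφ ne cf cc)
  have dc : mon (Equiv.swap i i.rev * τ) 1 * (n * c) = mon 1 δ * (mon τ 1 * c) := by
    rw [ed, c5.symm.mul_mul_mul_comm, et]
  have tu : Commute (mon 1 δ) (mon τ 1 * c) := et ▸ (c3.mul_right c4).mul_left (c5.mul_right c6)
  have od : (mon (Equiv.swap i i.rev * τ) 1 * (n * c)) ^
      (k * Nat.card (Fix φ) + k * Nat.card (Fix φ)) = mon (Equiv.swap i i.rev * τ) 1 * (n * c) := by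
    obtain ⟨p, hp⟩ : ∃ p, Nat.card (Fix φ) = p + 1 := ⟨_, (Nat.succ_pred_eq_of_pos (by omega)).symm⟩
    rw [← add_mul, ← hk, dc, tu.mul_pow, pow_mul, tq, tq]
    rw [hp] at cu ⊢
    rw [show (p + 1) * (p + 1) = (p + 1 + 1) * p + 1 by ring, pow_succ, pow_mul, cu, one_pow, one_mul]
  have tp : (mon (Equiv.swap i i.rev * τ) 1 * (n * c)) ^ ((Nat.card (Fix φ) + 1) * k) = mon 1 δ := by
    rw [dc, pow_mul, tu.mul_pow, cu, mul_one, pow_succ, tq, (Commute.refl _).mul_pow, ← pow_add, ← hk,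
      tq]
  have cj : ∀ (g a b : GL (Fin (r + 1)) K), g * (a * b) * g⁻¹ = g * a * g⁻¹ * (g * b * g⁻¹) :=
    fun _ _ _ => by group
  obtain ⟨S, hS⟩ := r1m ψ (T := dgl) (τ := mon 1 δ) (d := mon (Equiv.swap i i.rev * τ) 1)
    (b := mon π 1) (mul_one 1) (sol_two F2 x0 x1 (δ := -1⁻¹) (by simp))
    (spn_sq fun s s0 => (hx _ (pow_ne_zero 2 s0)).imp fun _ h => h.symm) dgl_nil
    (pw ▸ mon_norm _ _) (fun a => le_normalizer (p4 a)) (mon_dgl (fun _ => rfl) _)
    (act_diag x0 (fun s => by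
      rw [p1, p1, cj, mon_el, mon_el]
      simp only [Equiv.Perm.coe_one, id_eq, hδ, ii, ↓ reduceIte, Units.val_neg, Units.val_inv_eq_inv_val, ha, inv_inv, CharTwo.neg_eq, ji, ij.symm, Units.val_one, div_one, rr, i2.symm, mul_comm, mul_one, div_inv_eq_mul, Subfield.coe_mul]) fun s => by
      rw [p3, p3, cj, mon_el, mon_el]
      simp only [Equiv.Perm.coe_one, id_eq, hδ, ji, ↓ reduceIte, ij.symm, Units.val_one, mul_comm, mul_one, ii, Units.val_neg, Units.val_inv_eq_inv_val, ha, inv_inv, CharTwo.neg_eq, div_eq_mul_inv, rr, i2.symm, inv_one, Subfield.coe_mul, Subfield.coe_inv])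
    (mon_norm _ _) (act_anti one_ne_zero (fun s => by
      rw [p1, p3, cj, mon_el, mon_el, (el_comm ii jj.symm _ _).eq]
      simp only [Equiv.Perm.coe_mul, Function.comp_apply, τ1, Equiv.swap_apply_left, τ3, Equiv.swap_apply_of_ne_of_ne i2.symm rr, Pi.one_apply, Units.val_one, one_mul, div_one, τ4, Equiv.swap_apply_of_ne_of_ne ij.symm ji, τ2, Equiv.swap_apply_right]) fun s => by
      rw [p1, p3, cj, mon_el, mon_el, (el_comm jj ii.symm _ _).eq]
      simp [τ1, τ2, τ3, τ4, Equiv.swap_apply_of_ne_of_ne ij.symm ji,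
        Equiv.swap_apply_of_ne_of_ne i2.symm rr])
    (mon_norm _ _) (act_diag one_ne_zero (fun s => by
      rw [p1, p1, cj, mon_el, mon_el]; simp [pi, pj, pi', pj']) fun s => by
      rw [p3, p3, cj, mon_el, mon_el]; simp [pi, pj, pi', pj'])
    (by rw [pw, ← ge, ← cj, dd, mul_one, mul_inv_cancel]; exact sc_one)
    (by
      rw [mon_conj, mon_mul, hτ, ((a2.mul_right (a1.mul_right (Commute.refl π))).symm).mul_inv_cancel,
        p2, mon_eq_one (by simp) (by simp)]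
      exact sc_one)
  obtain ⟨s1, s2⟩ := hS _ rfl
  have mS : ψ S ∈ sug r φ := sl2_gen (fun s => by
      have := x2_short hφ ij ji ii jj (s : K)
      rwa [show φ s = s from s.2, ← p1] at this) (fun s => by
      have := x2_short hφ ij.symm i2 jj ii (s : K)
      rwa [show φ s = s from s.2, ← p3] at this) S
  have eB : ψ S * (mon π 1 * ψ mw) * (ψ S)⁻¹ =
      ψ S * g * mon (Equiv.swap i i.rev * τ) 1 * (ψ S * g)⁻¹ := by rw [pw, ← ge]; group
  refine goodSU (by omega) hφ (fun _ => ne) (sug_ns hr hφ (Or.inr (by nlinarith only [cd, q1]))) dm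
    (eB ▸ mul_mem (mul_mem (mul_mem mS gm) dm) (inv_mem (mul_mem mS gm))) cm' (mul_mem mS gm)
    (inv_mem (pow_mem (mul_mem dm cm') _)) (dd ▸ sc_one) (sc_of_eq eB) (sc_of_eq (x2_odd dd cc' od))
    s1 fun H _ h1 h2 h3 l => ?_
  obtain ⟨h5, h6⟩ := s2 H (tp ▸ pow_mem (mul_mem h1 h3) _) h1 h2
  have := x2_spread ij ii jj ji hr hφ ne pr pi pj p2 cf c1 c2 nr sp ar
    (fun s hs => p1 ⟨s, hs⟩ ▸ h5 _) (pw ▸ h5 _) h6 (hτ ▸ h1) (hn ▸ h3)
  exact ⟨this _ _, this _ _⟩

end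

/-- Real multiples of `v` and of `ρ v` give all multiples. -/
theorem x2_all (hφ : ∀ s, φ (φ s) = s) {ρ : K} (hρ : ρ + φ ρ = 1) {S : AddSubgroup (Fin (r + 1) → K)}
    {v : Fin (r + 1) → K} (h1 : ∀ s, φ s = s → s • v ∈ S) (h2 : ∀ s, φ s = s → (s * ρ) • v ∈ S)
    (s : K) : s • v ∈ S := by
  have := add_mem (h1 (s + (s + φ s) * ρ) (by simp only [map_add, map_mul, hφ]; grind))
    (h2 (s + φ s) (by rw [map_add, hφ, add_comm]))
  rwa [← add_smul, add_assoc, CharTwo.add_self_eq_zero, add_zero] at this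

theorem x2_par [Finite K] (hφ : ∀ s, φ (φ s) = s) (ne : φ ≠ RingHom.id K) : ∃ ρ z : K, ρ + φ ρ = 1 ∧
    z * φ z = 1 ∧ z + φ z ≠ 0 ∧ z ^ (Nat.card (Fix φ) + 1) = 1 := by
  obtain ⟨ρ, h⟩ := trace_surj hφ ne (map_one φ)
  have h0 : φ ρ ≠ 0 := fun e => by
    rw [e, add_zero] at h; rw [h, map_one] at e; exact one_ne_zero e
  have h1 : ρ ≠ 0 := fun e => h0 (by rw [e, map_zero])
  have e : ρ / φ ρ * φ (ρ / φ ρ) = 1 := by rw [map_div₀, hφ]; field_simp
  refine ⟨ρ, ρ / φ ρ, h, e, ?_, by rw [pow_succ', ← (card_fix hφ ne).2, e]⟩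
  rw [map_div₀, hφ, div_add_div _ _ h0 h1]
  refine div_ne_zero (fun e => ?_) (mul_ne_zero h0 h1)
  grind

theorem x2_swT (hφ : ∀ s, φ (φ s) = s) {k : Fin (r + 1)} (h : k ≠ k.rev) {w : Fin (r + 1) → K}
    (hw : w = Pi.single k 1 + Pi.single k.rev 1) :
    bu φ w w = 0 ∧ mon (Equiv.swap k k.rev) 1 = sie φ w 0 1 := by
  have e : bu φ w w = 0 := by
    simp [hw, bu_add_left, x2_sl, h, h.symm, CharTwo.add_self_eq_zero]
  refine ⟨e, ?_⟩
  rw [← x2_sw h]
  refine x2_ext fun v => ?_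
  rw [x2_tv hφ e, hw]
  simp only [x2_mul, x2_el h, x2_el h.symm, bu_add_right, x2_sr, Fin.rev_rev, map_one, Pi.add_apply,
    Pi.smul_apply, Pi.single_apply, h.symm, if_true, if_false, smul_eq_mul, mul_zero, add_zero,
    mul_one, one_mul]
  ext l
  simp only [Pi.add_apply, Pi.smul_apply, smul_eq_mul]
  linear_combination (v k.rev * (Pi.single k 1 : Fin (r + 1) → K) l) * CharTwo.two_eq_zero (R := K)

theorem x2_orth (hφ : ∀ s, φ (φ s) = s) {a b : Fin (r + 1) → K} (ha : bu φ a a = 0)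
    (h : bu φ b a = 0) {s : K} (hs : φ s = s) (t : K) : Commute (sie φ a 0 s) (sie φ b 0 t) :=
  x2_cen hφ (x2_fx hφ ha (x2_zl _) (x2_zl _) hs) (by simp [x2_tv hφ ha, h]) (mulVec_zero _) t

theorem x2_five [Finite K] (hφ : ∀ s, φ (φ s) = s) (ne : φ ≠ RingHom.id K) (h4 : Nat.card K ≠ 4) :
    IsLeast {n | Good (chev (CartanMatrix.A 4) Fin.revPerm φ) n} 3 := by
  obtain ⟨ρ, z, hρ, hz, z0, zq⟩ := x2_par hφ ne
  have νr : φ (z + φ z) = z + φ z := by rw [map_add, hφ, add_comm]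
  have ρ0 : φ ρ ≠ 0 := fun e => by
    rw [e, add_zero] at hρ; rw [hρ, map_one] at e; exact one_ne_zero e
  have ρ1 : ρ ≠ 0 := fun e => ρ0 (by rw [e, map_zero])
  have r0 : (0 : Fin (4 + 1)).rev = 4 := rfl
  have r1 : (1 : Fin (4 + 1)).rev = 3 := rfl
  have r2 : (2 : Fin (4 + 1)).rev = 2 := rfl
  have r3 : (3 : Fin (4 + 1)).rev = 1 := rfl
  have r4 : (4 : Fin (4 + 1)).rev = 0 := rfl
  obtain ⟨e, he⟩ : ∃ e : Fin (4 + 1) → K,
    e = φ ρ • Pi.single 1 1 + ρ • Pi.single 3 1 + Pi.single 2 1 := ⟨_, rfl⟩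
  have b : ∀ k, bu φ (Pi.single k 1) e = φ (e k.rev) := fun k => by rw [x2_sl, one_mul]
  have b1 : bu φ (Pi.single 1 1) e = φ ρ := by rw [b, r1]; simp [he]
  have b3 : bu φ (Pi.single 3 1) e = ρ := by rw [b, r3]; simp [he, hφ]
  have b2 : bu φ (Pi.single 2 1) e = 1 := by rw [b, r2]; simp [he]
  have ee : bu φ e e = 0 := by
    conv_lhs => arg 2; rw [he]
    simp only [bu_add_left, bu_smul_left, b1, b2, b3]; grind
  obtain ⟨ww, hw⟩ := x2_swT hφ (k := (1 : Fin (4 + 1))) (by decide) rfl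
  refine x2_main (i := 0) (j := 1) (by decide) (by decide) (by decide) (by decide) (by decide) hφ ne
    h4 (π := 1) (fun _ => rfl) rfl rfl rfl (x2_fx hφ ee (x2_zl _) (x2_zl _) νr)
    (x2_sq hφ ee (x2_zl _) (x2_zl _) _) (by rw [x2_tv hφ ee, b, r0]; simp [he])
    (by rw [x2_tv hφ ee, b, r0, r4]; simp [he])
    (fun g f h => x2_cen hφ f (h e ⟨by decide, by simp [he], by simp [he, r0]⟩) (mulVec_zero _) _)
    (by rw [mul_one, hw]; exact x2_ord hφ ww ee (by rw [bu_add_left, r1, b1, b3, add_comm, hρ]) hz z0 zq)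
    (by
      rw [x2_tv hφ ee, r1, b3]
      simp only [he, Pi.add_apply, Pi.smul_apply, smul_eq_mul, map_add, map_mul, hφ]
      simp
      grind) fun S h1 h2 h3 _ h5 w o => ?_
  rw [r1] at h1 h2 h3
  have h6 : ∀ w ∈ S, ((z + φ z) * bu φ w e) • e ∈ S := fun w hw => by
    have := h5 w hw
    rwa [x2_tv hφ ee, add_mem_cancel_left hw] at this
  have dv : ∀ s, φ s = s → φ (s / (z + φ z)) = s / (z + φ z) := fun s hs => by rw [map_div₀, hs, νr]
  have h7 : ∀ s, φ s = s → (s * ρ) • e ∈ S := fun s hs => by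
    have := h6 _ (h1 _ (dv s hs))
    rwa [bu_smul_left, b3, ← mul_assoc, mul_div_cancel₀ _ z0] at this
  have h8 : ∀ s, s • e ∈ S := x2_all hφ hρ (fun s hs => by
    have := h6 _ (h2 _ (dv s hs) _ (h1 1 (map_one φ)))
    rw [bu_smul_left, b1, one_smul, Pi.single_eq_same, mul_one, ← mul_assoc,
      mul_div_cancel₀ _ z0] at this
    have := add_mem (h7 s hs) this
    rwa [← add_smul, ← mul_add, hρ, mul_one] at this) h7
  have g1 : ∀ s : K, s • Pi.single 1 1 ∈ S := fun s => by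
    simpa [he, ρ1] using h2 1 (map_one φ) _ (h8 (s / ρ))
  have g3 : ∀ s : K, s • Pi.single 3 1 ∈ S := fun s => by
    simpa [he, ρ0] using h3 1 (map_one φ) _ (h8 (s / φ ρ))
  have g2 : ∀ s : K, s • Pi.single 2 1 ∈ S := fun s => by
    have := h8 s
    rwa [he, smul_add, smul_add, smul_smul, smul_smul,
      add_mem_cancel_left (add_mem (g1 _) (g3 _))] at this
  have : w = w 1 • Pi.single 1 1 + w 2 • Pi.single 2 1 + w 3 • Pi.single 3 1 := by
    have o1 := o.2.1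
    have o2 : w 4 = 0 := o.2.2
    ext l; fin_cases l <;> simp [o1, o2]
  exact this ▸ add_mem (add_mem (g1 _) (g2 _)) (g3 _)

theorem x2_seven [Finite K] (hφ : ∀ s, φ (φ s) = s) (ne : φ ≠ RingHom.id K) (h4 : Nat.card K ≠ 4) :
    IsLeast {n | Good (chev (CartanMatrix.A 6) Fin.revPerm φ) n} 3 := by
  obtain ⟨ρ, z, hρ, hz, z0, zq⟩ := x2_par hφ ne
  have νr : φ (z + φ z) = z + φ z := by rw [map_add, hφ, add_comm]
  have r0 : (0 : Fin (6 + 1)).rev = 6 := rfl
  have r1 : (1 : Fin (6 + 1)).rev = 5 := rfl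
  have r2 : (2 : Fin (6 + 1)).rev = 4 := rfl
  have r3 : (3 : Fin (6 + 1)).rev = 3 := rfl
  have r4 : (4 : Fin (6 + 1)).rev = 2 := rfl
  have r5 : (5 : Fin (6 + 1)).rev = 1 := rfl
  have r6 : (6 : Fin (6 + 1)).rev = 0 := rfl
  obtain ⟨e, he⟩ : ∃ e : Fin (6 + 1) → K, e = φ ρ • Pi.single 1 1 + ρ • Pi.single 5 1 +
    Pi.single 2 1 + Pi.single 4 1 + Pi.single 3 1 := ⟨_, rfl⟩
  obtain ⟨f, hf⟩ : ∃ f : Fin (6 + 1) → K, f = Pi.single 1 1 + Pi.single 5 1 + Pi.single 2 1 :=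
    ⟨_, rfl⟩
  have b : ∀ k, bu φ (Pi.single k 1) e = φ (e k.rev) ∧ bu φ (Pi.single k 1) f = φ (f k.rev) :=
    fun k => by simp only [x2_sl, one_mul, and_self]
  have b0 := b 0
  have b1 := b 1
  have b2 := b 2
  have b3 := b 3
  have b4 := b 4
  have b5 := b 5
  have b6 := b 6
  have v : e 0 = 0 ∧ e 1 = φ ρ ∧ e 2 = 1 ∧ e 3 = 1 ∧ e 4 = 1 ∧ e 5 = ρ ∧ e 6 = 0 ∧ f 0 = 0 ∧ f 1 = 1 ∧
      f 2 = 1 ∧ f 3 = 0 ∧ f 4 = 0 ∧ f 5 = 1 ∧ f 6 = 0 := by simp [he, hf]
  simp only [r0, r1, r2, r3, r4, r5, r6, v, map_zero, map_one, hφ] at b0 b1 b2 b3 b4 b5 b6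
  have ee : bu φ e e = 0 := by
    conv_lhs => arg 2; rw [he]
    simp only [bu_add_left, bu_smul_left, b1, b2, b3, b4, b5]; grind
  have fe : bu φ f e = 0 := by
    conv_lhs => arg 2; rw [hf]
    simp only [bu_add_left, b1, b2, b5]; grind
  have ff : bu φ f f = 0 := by
    conv_lhs => arg 2; rw [hf]
    simp only [bu_add_left, b1, b2, b5]; grind
  obtain ⟨ww, hw⟩ := x2_swT hφ (k := (1 : Fin (6 + 1))) (by decide) rfl
  obtain ⟨uu, hu⟩ := x2_swT hφ (k := (2 : Fin (6 + 1))) (by decide) rfl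
  have cm := x2_orth hφ ee fe νr (z + φ z)
  have ac : ∀ x, (sie φ e 0 (z + φ z) * sie φ f 0 (z + φ z)).1 *ᵥ x =
      x + (((z + φ z) * bu φ x f) • f + ((z + φ z) * bu φ x e) • e) := fun x => by
    rw [x2_mul, x2_tv hφ ff, x2_tv hφ ee, bu_add_left, bu_smul_left, fe, mul_zero, add_zero, add_assoc]
  refine x2_main (i := 0) (j := 1) (by decide) (by decide) (by decide) (by decide) (by decide) hφ ne
    h4 (π := Equiv.swap 2 (Fin.rev 2)) (x2_swr _) rfl rfl (by simp)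
    ((x2_fx hφ ee (x2_zl _) (x2_zl _) νr).mul (x2_fx hφ ff (x2_zl _) (x2_zl _) νr))
    (by rw [cm.symm.mul_mul_mul_comm, x2_sq hφ ee (x2_zl _) (x2_zl _),
      x2_sq hφ ff (x2_zl _) (x2_zl _), one_mul])
    (by rw [ac, b0.1, b0.2]; simp) (by rw [ac, r0, b6.1, b6.2]; simp)
    (fun g fg h => (x2_cen hφ fg (h e ⟨by decide, v.1, by simp [v, r0]⟩) (mulVec_zero _) _).mul_right
      (x2_cen hφ fg (h f ⟨by decide, by simp [v], by simp [v, r0]⟩) (mulVec_zero _) _))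
    (by
      have o : ∀ {a b : Fin (6 + 1) → K}, bu φ a b = 0 → bu φ b a = 0 := fun h => by
        rw [x2_symm hφ, h, map_zero]
      have ue : bu φ (Pi.single 2 1 + Pi.single (Fin.rev 2) 1) e = 0 := by
        rw [bu_add_left, r2, b2.1, b4.1, CharTwo.add_self_eq_zero]
      have k1 := x2_orth hφ uu (o ue) (map_one φ) (z + φ z)
      have k2 := x2_orth hφ ww (b := f) (o (by
        rw [bu_add_left, r1, b1.2, b5.2, CharTwo.add_self_eq_zero])) (map_one φ) (z + φ z)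
      have k3 := x2_orth hφ ww (b := Pi.single 2 1 + Pi.single (Fin.rev 2) 1)
        (by simp [bu_add_left, x2_sl, r1, r2, r4]) (map_one φ) 1
      have k4 : ∀ π π' : Equiv.Perm (Fin (6 + 1)),
          (mon (π * π') 1 : GL (Fin (6 + 1)) K) = mon π 1 * mon π' 1 := fun π π' => by
        rw [mon_mul]; exact mon_congr (fun _ => rfl) (by simp)
      rw [k4, hw, hu, k1.mul_mul_mul_comm,
        ((k3.mul_right k2).mul_left (k1.symm.mul_right cm)).mul_pow,
        x2_ord hφ ww ee (by rw [bu_add_left, r1, b1.1, b5.1, add_comm, hρ]) hz z0 zq,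
        x2_ord hφ uu ff (by rw [bu_add_left, r2, b2.2, b4.2, zero_add]) hz z0 zq, one_mul])
    (by
      rw [ac, r1, b5.1, b5.2]
      simp only [v, Pi.add_apply, Pi.smul_apply, smul_eq_mul, map_add, map_mul, hφ, map_one,
        Pi.single_eq_same]
      grind) fun S h1 h2 h3 h4 h5 w o => ?_
  rw [r1] at h1 h2 h3
  have h6 : ∀ x ∈ S, ((z + φ z) * bu φ x f) • f + ((z + φ z) * bu φ x e) • e ∈ S := fun w hw => by
    have := h5 w hw
    rwa [ac, add_mem_cancel_left hw] at this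
  have h7 : ∀ s, (s / (z + φ z)) • Pi.single 1 1 ∈ S → (s / (z + φ z)) • Pi.single 5 1 ∈ S →
      s • e ∈ S ∧ s • f + (s * ρ) • e ∈ S := fun s k1 k5 => by
    have k1 := h6 _ k1
    have k5 := h6 _ k5
    simp only [bu_smul_left, b1, b5, ← mul_assoc, mul_div_cancel₀ _ z0, mul_one] at k1 k5
    refine ⟨?_, k5⟩
    convert add_mem k1 k5 using 1
    ext l
    simp only [Pi.add_apply, Pi.smul_apply, smul_eq_mul]
    grind
  have h8 : ∀ s, φ s = s → s • Pi.single 1 1 ∈ S := fun s hs => by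
    simpa using h2 s hs _ (h1 1 (map_one φ))
  have h9 := (h7 (z + φ z) (h8 _ (by simp [z0])) (h1 _ (by simp only [ne_eq, z0, not_false_eq_true, div_self, map_one]))).1
  have dv : ∀ s, φ s = s → φ (s / (z + φ z)) = s / (z + φ z) := fun s hs => by rw [map_div₀, hs, νr]
  have g1 : ∀ s : K, s • Pi.single 1 1 ∈ S := x2_all hφ hρ h8 fun s hs => by
    have := h2 _ (dv s hs) _ h9
    rwa [Pi.smul_apply, smul_eq_mul, ← mul_assoc, div_mul_cancel₀ _ z0, v.2.2.2.2.2.1] at this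
  have g5 : ∀ s : K, s • Pi.single 5 1 ∈ S :=
    x2_all hφ (ρ := φ ρ) (by rw [hφ, add_comm, hρ]) h1 fun s hs => by
      have := h3 _ (dv s hs) _ h9
      rwa [Pi.smul_apply, smul_eq_mul, ← mul_assoc, div_mul_cancel₀ _ z0, v.2.1] at this
  have ge : ∀ s : K, s • e ∈ S := fun s => (h7 s (g1 _) (g5 _)).1
  have g2 : ∀ s : K, s • Pi.single 2 1 ∈ S := fun s => by
    have := (add_mem_cancel_right (ge _)).1 (h7 s (g1 _) (g5 _)).2
    rwa [hf, smul_add, smul_add, add_mem_cancel_left (add_mem (g1 _) (g5 _))] at this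
  have g4 : ∀ s : K, s • Pi.single 4 1 ∈ S := fun s => by
    have := h4 _ (g2 s)
    rwa [mulVec_smul, x2_mon1, Equiv.swap_apply_left] at this
  have g3 : ∀ s : K, s • Pi.single 3 1 ∈ S := fun s => by
    have := ge s
    rwa [he, smul_add, smul_add, smul_add, smul_add, smul_smul, smul_smul, add_mem_cancel_left
      (add_mem (add_mem (add_mem (g1 _) (g5 _)) (g2 _)) (g4 _))] at this
  have : w = w 1 • Pi.single 1 1 + w 2 • Pi.single 2 1 + w 3 • Pi.single 3 1 + w 4 • Pi.single 4 1 +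
      w 5 • Pi.single 5 1 := by
    have o1 := o.2.1
    have o2 : w 6 = 0 := o.2.2
    ext l; fin_cases l <;> simp [o1, o2]
  exact this ▸ add_mem (add_mem (add_mem (add_mem (g1 _) (g2 _)) (g3 _)) (g4 _)) (g5 _)

omit [CharP K 2] in
/-- Block X2 up to the group over the field with four elements. -/
theorem tX2_of [Finite K] (hφ : ∀ s, φ (φ s) = s) (ne : φ ≠ RingHom.id K) (h : (2 : K) = 0) {r : ℕ}
    (hr : r = 4 ∧ Nat.card K ≠ 4 ∨ r = 6) (ex : Nat.card K = 4 →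
      IsLeast {n | Good (chev (CartanMatrix.A 6) Fin.revPerm φ) n} 3) :
    IsLeast {n | Good (chev (CartanMatrix.A r) Fin.revPerm φ) n} 3 := by
  have : CharP K 2 := CharTwo.of_one_ne_zero_of_two_eq_zero one_ne_zero h
  rcases hr with ⟨rfl, h4⟩ | rfl
  · exact x2_five hφ ne h4
  · exact (em (Nat.card K = 4)).elim ex (x2_seven hφ ne)

omit [CharP K 2] in
/-- Block X2. -/
theorem tX2 [Finite K] (hφ : ∀ s, φ (φ s) = s) (ne : φ ≠ RingHom.id K) (h : (2 : K) = 0) {r : ℕ}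
    (hr : r = 4 ∧ Nat.card K ≠ 4 ∨ r = 6) :
    IsLeast {n | Good (chev (CartanMatrix.A r) Fin.revPerm φ) n} 3 :=
  tX2_of hφ ne h hr (evU7_4 hφ ne)

end Pool.Agent.MP_c78e8e_al.H75

end
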