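import Pool.Agent.MP_c78e8e_al.Mg.Sg_Mon
import Pool.Agent.MP_c78e8e_al.Sg.Sl2

attribute [-instance] DistribMulActionSemiHomClass.toAddMonoidHomClass instCharZeroOfIsSemireal
  MonTypeEquivalenceMon.monMonoid FloorSemiring.instCharZero IdemSemiring.toSemiring RKHS.instFunLike
  NormedAlgebra.toAlgebra instCoeTCOfCoe AlgHom.instNonUnitalAlgHomClassOfAlgHomClass
  RCLike.charZero_rclike NormMulClass.toNoZeroDivisors SubsemiringClass.toSubmonoidClass
  ESeminormedCommMonoid.toCommMonoid littleWedderburn SemilatticeInf.toPartialOrder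
  BialgHomClass.toMonoidHomClass instNonUnitalAlgHomClassOfNonUnitalAlgEquivClass
  CommMonTypeEquivalenceCommMon.commMonCommMonoid NumberField.to_charZero Bialgebra.toAlgebra
  BooleanRing.toRing Semiring.toNonUnitalSemiring TestFunctionClass.toDFunLike
  ValuationClass.toMonoidWithZeroHomClass LieRing.toAddCommGroup SemilinearMapClass.toAddHomClass
  ContDiffMapSupportedInClass.toDFunLike IsStrictOrderedRing.noZeroDivisors
  IsStrictOrderedRing.toCharZero MonoidWithZero.toSemigroupWithZero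
  LieAdmissibleRing.toNonUnitalNonAssocRing RingSeminormClass.toAddGroupSeminormClass
  NonUnitalRing.toNonUnitalSemiring MulCharClass.toMonoidHomClass
  instIsRightCancelAddOfAddRightReflectLE MonoidWithZero.toMulZeroOneClass instCoeTOfCoeDep
  NeZero.of_gt' SeminormedCommRing.toCommRing IsCyclic.isMulCommutative NormedCommRing.toCommRing
  MulDistribMulActionSemiHomClass.toMonoidHomClass instSMulZeroClass instCoeOutOfCoeFun
  IsFormallyReal.instIsReduced ContinuousMonoidHom.instCoeOutOfMonoidHomClassOfContinuousMapClass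
  NeZero.charZero_one instCoeHTCT instCoeHTC SeminormClass.toAddGroupSeminormClass NormedRing.toRing
  GroupConeClass.toSubmonoidClass CommGrpTypeEquivalenceCommGrp.commGrpCommGroup
  NonUnitalNormedCommRing.toNonUnitalCommRing Invertible.toNeZero
  CommSemiring.toNonUnitalCommSemiring CompletePartialOrder.toPartialOrder EuclideanDomain.toCommRing
  AddGroupNormClass.toAddGroupSeminormClass instCoeTC CentroidHomClass.toAddMonoidHomClass
  NonUnitalAlgSemiHomClass.toMulHomClass LeftPreLieRing.toNonUnitalNonAssocRing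
  NonUnitalRing.toNonUnitalNonAssocRing instCommGroupOfIsSimpleGroupOfIsNilpotent
  NonUnitalSeminormedCommRing.toNonUnitalCommRing IsometryClass.instCoeOutIsometryEquiv
  RightPreLieRing.toNonUnitalNonAssocRing SeminormedRing.toRing NormedField.toField

section

namespace Pool.Agent.MP_c78e8e_al.H75

open Subgroup Matrix

variable {r : ℕ} {K : Type} [Field K] {φ : K →+* K} {H : Subgroup (GL (Fin (r + 1)) K)}
  {e w w' x y : Fin (r + 1) → K}

/-- Basis vectors. -/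
def x3e (i : Fin (r + 1)) : Fin (r + 1) → K := Pi.single i 1

theorem x3_b (i j : Fin (r + 1)) :
    bu φ (x3e i) (x3e j) = if j = i.rev then (-1) ^ (i : ℕ) else 0 := by
  rw [x3e, bu_single_left, x3e]
  by_cases h : j = i.rev
  · simp only [mul_one, h, Pi.single_eq_same, map_one, ↓ reduceIte]
  · simp only [mul_one, ne_eq, Ne.symm h, not_false_eq_true, Pi.single_eq_of_ne, map_zero, mul_zero, h, ↓ reduceIte]

theorem x3_b0 {i j : Fin (r + 1)} (h : j ≠ i.rev) : bu φ (x3e i) (x3e j) = 0 := by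
  rw [x3_b, if_neg h]

theorem x3_b1 (i : Fin (r + 1)) : bu φ (x3e i) (x3e i.rev) ≠ 0 := by
  rw [x3_b, if_pos rfl]; exact pow_ne_zero _ (by simp)

theorem x3_b2 (i : Fin (r + 1)) : bu φ (x3e i.rev) (x3e i) ≠ 0 := by
  have := x3_b1 (φ := φ) i.rev
  rwa [Fin.rev_rev] at this

/-- The standing assumptions. -/
structure X3h (φ : K →+* K) (H : Subgroup (GL (Fin (r + 1)) K)) : Prop where
  inv : ∀ s, φ (φ s) = s
  ev : Even r
  two : (2 : K) ≠ 0
  sk : ∃ s, s ≠ 0 ∧ φ s = -s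
  fx : ∀ g ∈ H, Fx φ g

theorem x3_sy (hφ : ∀ s, φ (φ s) = s) (ev : Even r) (u v : Fin (r + 1) → K) :
    bu φ v u = φ (bu φ u v) := by
  rw [bu_symm hφ, ev.neg_one_pow, one_mul]

theorem x3_sy0 (hφ : ∀ s, φ (φ s) = s) (h : bu φ x y = 0) : bu φ y x = 0 := by
  rw [bu_symm hφ, h, map_zero, mul_zero]

theorem x3_ap (hφ : ∀ s, φ (φ s) = s) (ev : Even r) (h : bu φ e e = 0) (h' : bu φ w e = 0) (a : K)
    (v : Fin (r + 1) → K) :
    (sie φ e w a).1 *ᵥ v = v + bu φ v e • w - (bu φ v w + a * bu φ v e) • e := by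
  rw [sie_apply h h' (x3_sy0 hφ h'), ev.neg_one_pow, one_mul]

theorem x3_mul (hφ : ∀ s, φ (φ s) = s) (ev : Even r) (h : bu φ e e = 0) (h1 : bu φ w e = 0)
    (h2 : bu φ w' e = 0) (a a' : K) :
    sie φ e w a * sie φ e w' a' = sie φ e (w + w') (a + a' + bu φ w' w) := by
  have h3 : bu φ (w + w') e = 0 := by rw [bu_add_left, h1, h2, add_zero]
  refine monb_ext fun v => ?_
  simp only [monb_mul, x3_ap hφ ev h h1, x3_ap hφ ev h h2, x3_ap hφ ev h h3, bu_add_left,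
    bu_sub_left, bu_smul_left, bu_add_right, h, h2, x3_sy0 hφ h1]
  module

theorem x3_one (hφ : ∀ s, φ (φ s) = s) (ev : Even r) (h : bu φ e e = 0) (s : K) :
    sie φ e (s • e) (s - φ s) = 1 := by
  have h3 : bu φ (s • e) e = 0 := by rw [bu_smul_left, h, mul_zero]
  refine monb_ext fun v => ?_
  simp only [x3_ap hφ ev h h3, bu_smul_right, Units.val_one, one_mulVec]
  module

theorem x3_zero (hφ : ∀ s, φ (φ s) = s) (ev : Even r) (h : bu φ e e = 0) : sie φ e 0 0 = 1 := by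
  simpa using x3_one hφ ev h 0

theorem x3_sc (hφ : ∀ s, φ (φ s) = s) (ev : Even r) (h : bu φ e e = 0) (h1 : bu φ w e = 0)
    (c a : K) : sie φ (c • e) w a = sie φ e (φ c • w) (c * φ c * a) := by
  have h2 : bu φ (c • e) (c • e) = 0 := by simp [bu_smul_left, bu_smul_right, h]
  have h3 : bu φ w (c • e) = 0 := by simp [bu_smul_right, h1]
  have h4 : bu φ (φ c • w) e = 0 := by simp [bu_smul_left, h1]
  refine monb_ext fun v => ?_
  simp only [x3_ap hφ ev h2 h3, x3_ap hφ ev h h4, bu_smul_right, hφ]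
  module

theorem x3_sw (hφ : ∀ s, φ (φ s) = s) (ev : Even r) (h : bu φ e e = 0) (h1 : bu φ w e = 0)
    (h2 : bu φ w w = 0) (s : K) : sie φ w (s • e) 0 = sie φ e ((-φ s) • w) 0 := by
  have h3 : bu φ (s • e) w = 0 := by simp [bu_smul_left, x3_sy0 hφ h1]
  have h4 : bu φ ((-φ s) • w) e = 0 := by rw [bu_smul_left, h1, mul_zero]
  refine monb_ext fun v => ?_
  simp only [x3_ap hφ ev h2 h3, x3_ap hφ ev h h4, bu_smul_right, hφ, map_neg]
  module

theorem x3_tr (hφ : ∀ s, φ (φ s) = s) (ev : Even r) (h : bu φ e e = 0) (h1 : bu φ w e = 0) {a : K}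
    (f : Fx φ (sie φ e w a)) (n : bu φ y e ≠ 0) : φ a + a = bu φ w w := by
  have := (fx_iff hφ).1 f y y
  simp only [x3_ap hφ ev h h1, bu_add_left, bu_sub_left, bu_smul_left, bu_add_right, bu_sub_right,
    bu_smul_right, h, h1, x3_sy0 hφ h1, x3_sy hφ ev y e, x3_sy hφ ev y w, map_add, map_mul] at this
  have n' : φ (bu φ y e) ≠ 0 := (map_ne_zero φ).2 n
  apply mul_left_cancel₀ (mul_ne_zero n n')
  linear_combination -this

/-- All multiples of `w` occur in Siegel transformations of `e` in `H`. -/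
def X3L (φ : K →+* K) (H : Subgroup (GL (Fin (r + 1)) K)) (e w : Fin (r + 1) → K) : Prop :=
  bu φ e e = 0 ∧ bu φ w e = 0 ∧ ∀ s : K, ∃ a, sie φ e (s • w) a ∈ H

/-- All transvections of `e` lie in `H`. -/
def X3C (φ : K →+* K) (H : Subgroup (GL (Fin (r + 1)) K)) (e : Fin (r + 1) → K) : Prop :=
  bu φ e e = 0 ∧ ∀ a, φ a + a = 0 → sie φ e 0 a ∈ H

theorem X3L.smul (h : X3L φ H e w) (c : K) : X3L φ H e (c • w) :=
  ⟨h.1, by rw [bu_smul_left, h.2.1, mul_zero], fun s => by rw [smul_smul]; exact h.2.2 _⟩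

theorem X3L.of_smul {c : K} (h : X3L φ H e (c • w)) (c0 : c ≠ 0) : X3L φ H e w := by
  have := h.smul c⁻¹
  rwa [smul_smul, inv_mul_cancel₀ c0, one_smul] at this

namespace X3h

variable (k : X3h φ H)
include k

theorem add (h : X3L φ H e w) (h' : X3L φ H e w') : X3L φ H e (w + w') := by
  refine ⟨h.1, by rw [bu_add_left, h.2.1, h'.2.1, add_zero], fun s => ?_⟩
  obtain ⟨a, m⟩ := h.2.2 s
  obtain ⟨a', m'⟩ := h'.2.2 s
  have := mul_mem m m'
  rw [x3_mul k.inv k.ev h.1 (h.smul s).2.1 (h'.smul s).2.1, ← smul_add] at this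
  exact ⟨_, this⟩

theorem lin (h : X3L φ H e w) (h' : X3L φ H e w') {c : K} (c0 : c ≠ 0) (s t : K)
    (q : c • x = s • w + t • w') : X3L φ H e x :=
  X3L.of_smul (q ▸ k.add (h.smul s) (h'.smul t)) c0

theorem self (h : bu φ e e = 0) : X3L φ H e e :=
  ⟨h, h, fun s => ⟨_, by rw [x3_one k.inv k.ev h]; exact one_mem _⟩⟩

theorem conj {g : GL (Fin (r + 1)) K} (m : g ∈ H) (h : X3L φ H e w) :
    X3L φ H (g.1 *ᵥ e) (g.1 *ᵥ w) := by
  have f := (fx_iff k.inv).1 (k.fx g m)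
  refine ⟨by rw [f, h.1], by rw [f, h.2.1], fun s => ?_⟩
  obtain ⟨a, p⟩ := h.2.2 s
  have := mul_mem (mul_mem m p) (inv_mem m)
  rw [sie_conj k.inv (k.fx g m), mulVec_smul] at this
  exact ⟨a, this⟩

theorem scale {c : K} (c0 : c ≠ 0) (h : X3L φ H (c • e) w) : X3L φ H e w := by
  have c1 : φ c ≠ 0 := (map_ne_zero φ).2 c0
  have h1 : bu φ e e = 0 := by simpa [bu_smul_left, bu_smul_right, c0, c1] using h.1
  have h2 : bu φ w e = 0 := by simpa [bu_smul_right, c1] using h.2.1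
  refine ⟨h1, h2, fun s => ?_⟩
  obtain ⟨a, p⟩ := h.2.2 (s / φ c)
  rw [x3_sc k.inv k.ev h1 (by rw [bu_smul_left, h2, mul_zero]), smul_smul,
    mul_div_cancel₀ _ c1] at p
  exact ⟨_, p⟩

theorem cen (h : X3L φ H e y) (n : bu φ y y ≠ 0) : X3C φ H e := by
  refine ⟨h.1, fun t ht => ?_⟩
  have re : φ (bu φ y y) = bu φ y y := (x3_sy k.inv k.ev y y).symm
  obtain ⟨s, hs⟩ : ∃ s, (φ s - s) * bu φ y y = t := by
    refine ⟨-t / (2 * bu φ y y), ?_⟩
    have := k.two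
    rw [map_div₀, map_mul, map_neg, re, map_ofNat, show φ t = -t by linear_combination ht]
    field_simp
    ring
  obtain ⟨a, p⟩ := h.2.2 s
  obtain ⟨b, q⟩ := h.2.2 1
  have o1 := (h.smul s).2.1
  have o2 := (h.smul 1).2.1
  have := mul_mem (mul_mem p q) (inv_mem (mul_mem q p))
  convert this using 1
  rw [eq_mul_inv_iff_mul_eq, x3_mul k.inv k.ev h.1 o1 o2, x3_mul k.inv k.ev h.1 o2 o1,
    x3_mul k.inv k.ev h.1 (bu_zero_left _) (by rw [bu_add_left, o1, o2, add_zero]), zero_add,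
    add_comm (s • y)]
  congr 1
  simp only [bu_smul_left, bu_smul_right, bu_zero_right, map_one]
  linear_combination -hs

theorem full (c : X3C φ H e) (h : X3L φ H e w) (n : bu φ y e ≠ 0) (s : K) {a : K}
    (t : φ a + a = bu φ (s • w) (s • w)) : sie φ e (s • w) a ∈ H := by
  obtain ⟨b, p⟩ := h.2.2 s
  have o := (h.smul s).2.1
  have t' := x3_tr k.inv k.ev h.1 o (k.fx _ p) n
  have := mul_mem (c.2 (a - b) (by rw [map_sub]; linear_combination t - t')) p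
  rw [x3_mul k.inv k.ev h.1 (bu_zero_left _) o, zero_add, bu_zero_right] at this
  simpa using this

theorem sym (c : X3C φ H e) (h : X3L φ H e w) (n : bu φ y e ≠ 0) (o : bu φ w w = 0) :
    X3L φ H w e := by
  refine ⟨o, x3_sy0 k.inv h.2.1, fun s => ⟨0, ?_⟩⟩
  rw [x3_sw k.inv k.ev h.1 h.2.1 o]
  exact k.full c h n _ (by rw [bu_smul_left, bu_smul_right, o]; simp)

theorem fix {g : GL (Fin (r + 1)) K} (m : g ∈ H) {c : K} (c0 : c ≠ 0) (f : g.1 *ᵥ e = c • x)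
    (h : X3L φ H e w) : X3L φ H x (g.1 *ᵥ w) :=
  k.scale c0 (f ▸ k.conj m h)

theorem tv (c : X3C φ H x) (o : bu φ e x = 0) (h : X3L φ H e y) (n : bu φ y x ≠ 0) :
    X3L φ H e x := by
  obtain ⟨t, t0, ht⟩ := k.sk
  have := k.fix (c.2 t (by rw [ht, neg_add_cancel])) one_ne_zero (x := e)
    (by simp [x3_ap k.inv k.ev c.1 (bu_zero_left _), o]) h
  rw [x3_ap k.inv k.ev c.1 (bu_zero_left _)] at this
  exact k.lin h this (mul_ne_zero t0 n) 1 (-1) (by simp)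

theorem trans (p : X3L φ H x w) (o : bu φ e x = 0) (o' : bu φ e w = 0) (h : X3L φ H e y)
    (h' : X3L φ H e x) (n : bu φ y x ≠ 0) : X3L φ H e w := by
  obtain ⟨a, m⟩ := p.2.2 1
  rw [one_smul] at m
  have := k.fix m one_ne_zero (x := e) (by simp [x3_ap k.inv k.ev p.1 p.2.1, o, o']) h
  rw [x3_ap k.inv k.ev p.1 p.2.1] at this
  exact k.lin (k.add this (h'.smul (bu φ y w + a * bu φ y x))) h n 1 (-1) (by module)

theorem cconj {g : GL (Fin (r + 1)) K} (m : g ∈ H) {c : K} (c0 : c ≠ 0) (f : g.1 *ᵥ e = c • x)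
    (h : X3C φ H e) : X3C φ H x := by
  have c1 : φ c ≠ 0 := (map_ne_zero φ).2 c0
  have h1 : bu φ x x = 0 := by
    have := (fx_iff k.inv).1 (k.fx g m) e e
    rw [f, h.1] at this
    simpa [bu_smul_left, bu_smul_right, c0, c1] using this
  refine ⟨h1, fun a ha => ?_⟩
  have := mul_mem (mul_mem m (h.2 (a / (c * φ c)) (by
    rw [map_div₀, map_mul, k.inv, mul_comm (φ c), ← add_div, ha, zero_div]))) (inv_mem m)
  rwa [sie_conj k.inv (k.fx g m), f, mulVec_zero, x3_sc k.inv k.ev h1 (bu_zero_left _), smul_zero,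
    mul_div_cancel₀ _ (mul_ne_zero c0 c1)] at this

end X3h

theorem x3_rv (i : Fin (r + 1)) : (i.rev : ℕ) + i = r := by
  have := i.2
  rw [Fin.val_rev]; omega

theorem x3_ne {i j : Fin (r + 1)} (h : (i : ℕ) + j ≠ r) : j ≠ i.rev := fun q => h (by
  rw [q, add_comm, x3_rv])

theorem x3_bz {i j : Fin (r + 1)} (h : (i : ℕ) + j ≠ r) : bu φ (x3e i) (x3e j) = 0 :=
  x3_b0 (x3_ne h)

/-- Short root elements for indices of the same parity. -/
def x3s (φ : K →+* K) (i j : Fin (r + 1)) (s : K) : GL (Fin (r + 1)) K :=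
  el i j s * el j.rev i.rev (-φ s)

theorem x3_s1 {i j : Fin (r + 1)} (h : (i : ℕ) ≠ j) (h1 : (i : ℕ) + j ≠ r) (h2 : (j : ℕ) + j ≠ r)
    (ev : Even r) (p : Even ((i : ℕ) + j)) (s : K) :
    x3s φ i j s = sie φ (x3e j.rev) (((-1) ^ (j : ℕ) * s) • x3e i) 0 := by
  have r1 := x3_rv i
  have r2 := x3_rv j
  have := hei_single (φ := φ) (i := j.rev) (j := i) (x3_ne (by omega)) (x3_ne (by omega))
    (x3_ne (by omega)) s 0
  rw [hei, Fin.rev_rev, el_zero, mul_one, mul_zero, Even.neg_one_pow (n := (j.rev : ℕ) + i.rev) (by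
    obtain ⟨a, ha⟩ := ev; obtain ⟨b, hb⟩ := p; exact ⟨a + a - b, by omega⟩), neg_mul, one_mul] at this
  rw [x3s, ← this, x3e, x3e]
  simp only [← Pi.single_smul, smul_eq_mul, mul_one]

/-- `g` permutes the basis lines by `π`. -/
def X3M (g : GL (Fin (r + 1)) K) (π : Equiv.Perm (Fin (r + 1))) : Prop :=
  ∀ i, ∃ c : K, c ≠ 0 ∧ g.1 *ᵥ x3e i = c • x3e (π i)

/-- The central indices. -/
def X3Cen (n j : Fin (r + 1)) : Prop := (j : ℕ) = n ∨ (j : ℕ) + n = r ∨ (j : ℕ) + j = r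

/-- The indices reached by the monomial generators. -/
def X3Cy (n j : Fin (r + 1)) : Prop := 2 ≤ (j : ℕ) ∧ (j : ℕ) + 2 ≤ r ∧ ¬ X3Cen n j

theorem x3_gen (k : X3h φ H) (ne : φ ≠ RingHom.id K) {i0 i1 i2 i3 n : Fin (r + 1)}
    (h0 : (i0 : ℕ) = 0) (h1 : (i1 : ℕ) = 1) (h2 : (i2 : ℕ) = 2) (h3 : (i3 : ℕ) = 3)
    (hn : 4 ≤ (n : ℕ) ∧ (n : ℕ) + n ≤ r) {d c b W : GL (Fin (r + 1)) K}
    {πd πc πb πW : Equiv.Perm (Fin (r + 1))} (md : X3M d πd) (mc : X3M c πc) (mb : X3M b πb)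
    (mW : X3M W πW) (hd : d ∈ H) (hc : c ∈ H) (hb : b ∈ H) (hW : W ∈ H) {η : Fin (r + 1) → K} {a : K}
    (hu : sie φ (x3e i0 - x3e i1 + η) w a ∈ H) (hZ : ∀ v, x3s φ i0 i2 v * x3s φ i3 i1 v ∈ H)
    (cen : ∀ j, ¬ X3Cen n j → bu φ (x3e j) η = 0 ∧ bu φ (x3e j) w = 0) (ηη : bu φ η η = 0)
    (wη : bu φ w η = 0) (ww : bu φ w w ≠ 0)
    (fin : X3L φ H (x3e i3) w → X3L φ H (x3e i3) η → X3L φ H (x3e i3) (b.1 *ᵥ η) →
      ∀ j, X3Cen n j → X3L φ H (x3e i3) (x3e j)) (rk : Fin (r + 1) → ℕ)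
    (orb : ∀ j, X3Cy n j → j = i2 ∨ ∃ i, rk i < rk j ∧ X3Cy n i ∧ (πd i = j ∨ πc i = j ∨ πb i = j))
    (cb : πd i0 = i1 ∧ πc i0 = i1 ∧ πb i0 = i0 ∧ πb i3 = i3 ∧ πd i3 = i2 ∧ πW i2 = i0 ∧ πW i3 = i1 ∧
      πW i2.rev = i0.rev ∧ πW i3.rev = i1.rev) (p q : Fin (r + 1)) : rt φ p q ⊆ H := by
  obtain ⟨b1, b2, b3, b4, b5, b6, b7, b8, b9⟩ := cb
  have r0 := x3_rv i0
  have r1 := x3_rv i1
  have r2 := x3_rv i2
  have r3 := x3_rv i3
  have ind : ∀ Q : Fin (r + 1) → Prop, Q i2 → (∀ i j, X3Cy n i → X3Cy n j → Q i →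
      πd i = j ∨ πc i = j ∨ πb i = j → Q j) → ∀ j, X3Cy n j → Q j := by
    intro Q q2 st j
    induction j using (measure rk).wf.induction with
    | _ j ih =>
      intro cy
      rcases orb j cy with rfl | ⟨i, lt, ci, o⟩
      · exact q2
      · exact st i j ci cy (ih i lt ci) o
  have nc : ∀ j : Fin (r + 1), (j : ℕ) < 4 ∨ r < j + 4 → ¬ X3Cen n j := fun j hj => by
    have := j.2
    unfold X3Cen; omega
  obtain ⟨ε, hε⟩ : ∃ ε, ε = x3e i0 - x3e i1 + η := ⟨_, rfl⟩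
  have eε : ∀ j, ¬ X3Cen n j → bu φ (x3e j) ε = bu φ (x3e j) (x3e i0) - bu φ (x3e j) (x3e i1) :=
    fun j hj => by rw [hε, bu_add_right, bu_sub_right, (cen j hj).1, add_zero]
  have e0 : ∀ j : Fin (r + 1), (j : ℕ) < 4 ∨ (r < j + 4 ∧ (j : ℕ) + 1 < r) →
      bu φ (x3e j) ε = 0 := fun j hj => by
    rw [eε j (nc j (by omega)), x3_bz (by omega), x3_bz (by omega), sub_zero]
  have wε : bu φ w ε = 0 := by
    rw [hε, bu_add_right, bu_sub_right, wη, x3_sy0 k.inv (cen i0 (nc _ (by omega))).2,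
      x3_sy0 k.inv (cen i1 (nc _ (by omega))).2]; simp
  have εε : bu φ ε ε = 0 := by
    nth_rewrite 1 [hε]
    rw [bu_add_left, bu_sub_left, e0 i0 (by omega), e0 i1 (by omega), hε, bu_add_right, bu_sub_right,
      ηη, x3_sy0 k.inv (cen i0 (nc _ (by omega))).1, x3_sy0 k.inv (cen i1 (nc _ (by omega))).1]
    simp
  rw [← hε] at hu
  have ua := x3_ap k.inv k.ev εε wε a
  have uf : ∀ j : Fin (r + 1), (j : ℕ) < 4 ∨ (r < j + 4 ∧ (j : ℕ) + 1 < r) →
      (sie φ ε w a).1 *ᵥ x3e j = x3e j := fun j hj => by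
    rw [ua, e0 j hj, (cen j (nc j (by omega))).2]; simp
  have e1 : bu φ (x3e i1.rev) ε ≠ 0 := by
    rw [eε _ (nc _ (by omega)), x3_bz (by omega), zero_sub]; exact neg_ne_zero.2 (x3_b2 _)
  have a0 : a ≠ 0 := fun z => ww (by rw [← x3_tr k.inv k.ev εε wε (k.fx _ hu) e1, z]; simp)
  have z1 := x3_s1 (φ := φ) (i := i0) (j := i2) (by omega) (by omega) (by omega) k.ev ⟨1, by omega⟩
  have o33 : bu φ (x3e i3) (x3e i3) = 0 := x3_bz (by omega)
  have o13 : bu φ (x3e i1.rev) (x3e i3) = 0 := x3_bz (by omega)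
  have z2 : ∀ t : K, x3s φ i3 i1 (φ t) = sie φ (x3e i3) (t • x3e i1.rev) 0 := fun t => by
    rw [x3_s1 (by omega) (by omega) (by omega) k.ev ⟨2, by omega⟩, x3_sw k.inv k.ev o33 o13
      (x3_bz (by omega)), h1]
    simp [k.inv]
  have y3 : bu φ (w - a • ε) (x3e i3) = 0 := by
    rw [bu_sub_left, bu_smul_left, x3_sy0 k.inv (e0 i3 (by omega)),
      x3_sy0 k.inv (cen i3 (nc _ (by omega))).2]; simp
  have L0 : X3L φ H (x3e i3) (w - a • ε) := by
    refine X3L.of_smul (c := bu φ (x3e i1.rev) ε) ⟨o33, by rw [bu_smul_left, y3, mul_zero],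
      fun t => ?_⟩ e1
    have m := mul_mem (inv_mem (hZ (φ t))) (mul_mem (mul_mem hu (hZ (φ t))) (inv_mem hu))
    have s1 : sie φ ε w a * x3s φ i0 i2 (φ t) * (sie φ ε w a)⁻¹ = x3s φ i0 i2 (φ t) := by
      rw [z1, sie_conj k.inv (k.fx _ hu), mulVec_smul, uf _ (by omega), uf _ (by omega)]
    have s2 : sie φ ε w a * x3s φ i3 i1 (φ t) * (sie φ ε w a)⁻¹ = x3s φ i3 i1 (φ t) *
        sie φ (x3e i3) (t • bu φ (x3e i1.rev) ε • (w - a • ε))
          (-bu φ (t • bu φ (x3e i1.rev) ε • (w - a • ε)) (t • x3e i1.rev)) := by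
      rw [z2, sie_conj k.inv (k.fx _ hu), mulVec_smul, uf _ (by omega), ua,
        x3_mul k.inv k.ev o33 (by rw [bu_smul_left, o13, mul_zero])
          (by rw [bu_smul_left, bu_smul_left, y3, mul_zero, mul_zero]),
        (cen _ (nc _ (by omega))).2]
      congr 1
      · module
      · ring
    rw [← conj_mul, s1, s2, ← mul_assoc (x3s φ i0 i2 _), inv_mul_cancel_left] at m
    exact ⟨_, m⟩
  have yε : bu φ (w - a • ε) ε = 0 := by rw [bu_sub_left, bu_smul_left, wε, εε]; simp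
  have yw : bu φ (w - a • ε) w = bu φ w w := by
    rw [bu_sub_left, bu_smul_left, x3_sy0 k.inv wε]; simp
  have C3 : X3C φ H (x3e i3) :=
    k.cen L0 (by rw [bu_sub_right, bu_smul_right, yε, yw]; simpa using ww)
  have cm : ∀ {g π}, g ∈ H → X3M g π → ∀ i, X3C φ H (x3e i) → X3C φ H (x3e (π i)) :=
    fun m M i h => (M i).elim fun _ t => k.cconj m t.1 t.2 h
  have lm : ∀ {g π}, g ∈ H → X3M g π → ∀ i j, X3L φ H (x3e i) (x3e j) →
      X3L φ H (x3e (π i)) (x3e (π j)) := fun m M i j h => by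
    obtain ⟨s, s0, p⟩ := M i
    obtain ⟨t, t0, q⟩ := M j
    exact (q ▸ k.fix m s0 p h).of_smul t0
  have CC : ∀ j, X3Cy n j → X3C φ H (x3e j) := ind _ (b5 ▸ cm hd md _ C3) (by
    rintro i j - - h (rfl | rfl | rfl)
    exacts [cm hd md _ h, cm hc mc _ h, cm hb mb _ h])
  have cy : ∀ j : Fin (r + 1), (2 ≤ (j : ℕ) ∧ (j : ℕ) < 4) ∨ (r < j + 4 ∧ (j : ℕ) + 2 ≤ r) →
      X3Cy n j := fun j hj => ⟨by omega, by omega, nc j (by omega)⟩
  have C0 := b6 ▸ cm hW mW _ (CC i2 (cy _ (by omega)))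
  have C1 := b7 ▸ cm hW mW _ C3
  have C0' := b8 ▸ cm hW mW _ (CC i2.rev (cy _ (by omega)))
  have C1' := b9 ▸ cm hW mW _ (CC i3.rev (cy _ (by omega)))
  have ye : ∀ j, ¬ X3Cen n j → bu φ (x3e j) ε ≠ 0 → bu φ (w - a • ε) (x3e j) ≠ 0 := fun j hj h => by
    rw [x3_sy k.inv k.ev, bu_sub_right, bu_smul_right, (cen j hj).2]
    simp [h, a0]
  have L0' := k.tv C0' (x3_bz (by omega)) L0 (ye _ (nc _ (by omega)) (by
    rw [eε _ (nc _ (by omega)), x3_bz (j := i1) (by omega), sub_zero]; exact x3_b2 _))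
  have L1' := k.tv C1' (x3_bz (by omega)) L0 (ye _ (nc _ (by omega)) e1)
  have L30 := k.tv C0 (x3_bz (by omega)) L0' (x3_b2 _)
  have L31 := k.tv C1 (x3_bz (by omega)) L1' (x3_b2 _)
  have Lε : X3L φ H (x3e i3) ε := by
    have := k.fix hu one_ne_zero (x := x3e i3) (by rw [uf _ (by omega), one_smul]) L0
    rw [ua, yε, yw] at this
    exact k.lin L0 this ww 1 (-1) (by module)
  have Lη : X3L φ H (x3e i3) η :=
    k.lin (k.add Lε L31) L30 one_ne_zero 1 (-1) (by rw [hε]; module)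
  have Lc := fin (k.lin L0 Lε one_ne_zero 1 a (by module)) Lη (by
    obtain ⟨s, s0, p⟩ := mb i3
    exact k.fix hb s0 (by rw [p, b4]) Lη)
  have L20 : X3L φ H (x3e i2.rev) (x3e i0) := ⟨x3_bz (by omega), x3_bz (by omega), fun s => ⟨0, by
    have := mul_mem (hZ (φ (φ s))) (inv_mem (z2 _ ▸ k.full C3 L1' (x3_b2 _) (φ s) (a := 0) (by
      rw [bu_smul_left, bu_smul_right, x3_bz (by omega)]; simp)))
    rw [mul_inv_cancel_right, z1, h2, k.inv] at this
    simpa only [even_two, Even.neg_pow, one_pow, one_mul] using this⟩⟩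
  have L02 := k.tv (CC i2 (cy _ (by omega))) (x3_bz (by omega))
    (k.sym (CC _ (cy _ (by omega))) L20 (x3_b1 _) (x3_bz (by omega))) (x3_b2 _)
  have L03 := k.sym C3 L30 (x3_b2 _) (x3_bz (by omega))
  have L03' := k.tv (CC i3.rev (cy _ (by omega))) (x3_bz (by omega)) L03 (x3_b1 _)
  have L01 := k.trans L31 (x3_bz (by omega)) (x3_bz (by omega)) L03' L03 (x3_b2 _)
  have L01' := k.tv C1' (x3_bz (by omega)) L01 (x3_b1 _)
  have PP : ∀ j, X3Cy n j → X3L φ H (x3e i0) (x3e j) := ind _ L02 (by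
    intro i j _ cj h o
    have t : X3L φ H (x3e i1) (x3e j) → X3L φ H (x3e i0) (x3e j) := fun p =>
      k.trans p (x3_bz (by omega)) (x3_bz (by have := cj.2.1; omega)) L01' L01 (x3_b2 _)
    rcases o with rfl | rfl | rfl
    exacts [t (b1 ▸ lm hd md _ _ h), t (b2 ▸ lm hc mc _ _ h), b3 ▸ lm hb mb _ _ h])
  have F3 : ∀ j : Fin (r + 1), j ≠ i3.rev → X3L φ H (x3e i3) (x3e j) := fun j hj => by
    by_cases c1 : X3Cen n j
    · exact Lc j c1
    by_cases c2 : 2 ≤ (j : ℕ) ∧ (j : ℕ) + 2 ≤ r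
    · exact k.trans (PP j ⟨c2.1, c2.2, c1⟩) (x3_bz (by omega)) (x3_b0 hj) L0' L30 (x3_b2 _)
    have := j.2
    have : j = i0 ∨ j = i1 ∨ j = i0.rev ∨ j = i1.rev := by simp only [Fin.ext_iff]; omega
    rcases this with rfl | rfl | rfl | rfl <;> assumption
  have G3 : ∀ x, bu φ x (x3e i3) = 0 → X3L φ H (x3e i3) x := fun x hx => by
    rw [pi_eq_sum_univ' x]
    refine Finset.sum_induction _ _ (fun _ _ => k.add) (by simpa using (k.self o33).smul 0)
      fun j _ => ?_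
    by_cases hj : j = i3.rev
    · have : x j = 0 := by simpa only [hj, x3e, bu_single_right, Fin.val_rev, Nat.reduceSubDiff, map_one, mul_one, mul_eq_zero, pow_eq_zero_iff', neg_eq_zero, one_ne_zero, ne_eq, false_and, false_or] using hx
      simpa [this] using (k.self o33).smul 0
    · exact (F3 j hj).smul _
  have gm : ∀ {g π}, g ∈ H → X3M g π → ∀ i, (∀ x, bu φ x (x3e i) = 0 → X3L φ H (x3e i) x) →
      ∀ x, bu φ x (x3e (π i)) = 0 → X3L φ H (x3e (π i)) x := fun {g π} m M i h x hx => by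
    obtain ⟨s, s0, p⟩ := M i
    have := k.fix m s0 p (h ((g⁻¹).1 *ᵥ x) (by
      rw [← (fx_iff k.inv).1 (k.fx g m), monb_inv', p, bu_smul_right, hx, mul_zero]))
    rwa [monb_inv'] at this
  have GG := ind (fun j => ∀ x, bu φ x (x3e j) = 0 → X3L φ H (x3e j) x) (b5 ▸ gm hd md _ G3) (by
    rintro i j - - h (rfl | rfl | rfl)
    exacts [gm hd md _ h, gm hc mc _ h, gm hb mb _ h])
  have last : ∀ j, X3Cy n j → ∀ x, Off j x → ∃ a, Trc φ j x a ∧ hei φ j x a ∈ H := fun j cj x o => by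
    obtain ⟨s, m⟩ := (GG j cj x (by simp only [x3e, bu_single_right, Fin.val_rev, Nat.reduceSubDiff, o.2.2, mul_zero, map_one, mul_one])).2.2 ((-1) ^ (j.rev : ℕ))
    have : hei φ j x (-(-1) ^ (j.rev : ℕ) * s) ∈ H := by
      rw [hei, ← mul_assoc, neg_mul_neg, natb1_sq, one_mul]; exact m
    exact ⟨_, trc_of_fx k.inv o (k.fx _ this), this⟩
  exact gen_hei (by omega) k.inv (fun _ => ne) (Or.inl ne) (i := i3) (x3_ne (by omega))
    (last _ (cy _ (by omega))) (fun x o => last _ (cy _ (by omega)) x o.rev) p q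

end Pool.Agent.MP_c78e8e_al.H75

end

section

namespace Pool.Agent.MP_c78e8e_al.H75

open Subgroup Matrix

variable {r : ℕ} {K : Type} [Field K] {φ : K →+* K}

theorem x3_prod {G : Type} [Group G] (ψ ψ' : SL2 K →* G) (h : ∀ A B, Commute (ψ A) (ψ' B)) :
    ∃ χ : SL2 K →* G, ∀ A, χ A = ψ A * ψ' A :=
  ⟨MonoidHom.mk' (fun A => ψ A * ψ' A) fun A B => by
    rw [map_mul, map_mul, (h B A).mul_mul_mul_comm], fun _ => rfl⟩

theorem x3_aut (φ : K →+* K) : ∃ t : SL2 K →* SL2 K, (∀ s, t (mx s) = mz (φ s)) ∧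
    (∀ s, t (mz s) = mx (φ s)) ∧ t mw = mw ∧ ∀ a, t (mdg a) = mdg (Units.map φ a)⁻¹ := by
  refine ⟨(MulAut.conj mw).toMonoidHom.comp (SpecialLinearGroup.map φ), fun s => ?_, fun s => ?_, ?_,
    fun a => ?_⟩
  all_goals
    change mw * _ * mw⁻¹ = _
    rw [mul_inv_eq_iff_eq_mul]
    refine Subtype.ext ?_
    change (mw : SL2 K).1 * Matrix.map _ φ = _ * (mw : SL2 K).1
    ext i j
    fin_cases i <;> fin_cases j <;> simp only [mw, mx, Fin.zero_eta, Fin.isValue, Matrix.mul_apply, of_apply, cons_val', cons_val_fin_one, cons_val_zero, map_apply, Fin.sum_univ_two, map_one, mul_one, cons_val_one, map_zero, mul_zero, add_zero, mz, mul_neg, neg_zero, Fin.mk_one, zero_mul, zero_add, neg_mul, one_mul, map_neg, mdg, Units.val_inv_eq_inv_val, Units.coe_map, MonoidHom.coe_coe, inv_inv, map_inv₀]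

theorem x3_cm {i j k l : Fin (r + 1)} {ψ ψ' : SL2 K →* GL (Fin (r + 1)) K}
    (p : ∀ s, ψ (mx s) = el i j s) (q : ∀ v, ψ (mz v) = el j i (-v))
    (p' : ∀ s, ψ' (mx s) = el k l s) (q' : ∀ v, ψ' (mz v) = el l k (-v))
    (h1 : i ≠ k) (h2 : i ≠ l) (h3 : j ≠ k) (h4 : j ≠ l) (A B : SL2 K) : Commute (ψ A) (ψ' B) := by
  refine sl2_comm (fun s => (sl2_comm (fun t => ?_) (fun t => ?_) A).symm)
    (fun s => (sl2_comm (fun t => ?_) (fun t => ?_) A).symm) B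
  · rw [p, p']; exact el_comm h2.symm h3 _ _
  · rw [q, p']; exact el_comm h4.symm h1 _ _
  · rw [p, q']; exact el_comm h1.symm h4 _ _
  · rw [q, q']; exact el_comm h3.symm h2 _ _

/-- The Weyl element of an elementary `SL₂`. -/
def x3w (K : Type) [Field K] (i j : Fin (r + 1)) : GL (Fin (r + 1)) K :=
  mon (Equiv.swap i j) fun k => if k = i then -1 else 1

theorem x3_psi (φ : K →+* K) {i0 i1 i2 i3 : Fin (r + 1)} (hr : 8 ≤ r) (h0 : (i0 : ℕ) = 0)
    (h1 : (i1 : ℕ) = 1) (h2 : (i2 : ℕ) = 2) (h3 : (i3 : ℕ) = 3) :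
    ∃ ψ : SL2 K →* GL (Fin (r + 1)) K, (∀ s, ψ (mx s) = x3s φ i2 i0 s * x3s φ i1 i3 s) ∧
      (∀ s, ψ (mz s) = x3s φ i0 i2 (-s) * x3s φ i3 i1 (-s)) ∧
      ψ mw = x3w K i2 i0 * x3w K i2.rev i0.rev * (x3w K i1 i3 * x3w K i1.rev i3.rev) ∧
      ∀ a, ψ (mdg a) ∈ normalizer ((dgl : Subgroup (GL (Fin (r + 1)) K)) : Set _) := by
  have r0 := x3_rv i0
  have r1 := x3_rv i1
  have r2 := x3_rv i2
  have r3 := x3_rv i3
  have N : ∀ {a b : Fin (r + 1)}, (a : ℕ) ≠ b → a ≠ b := Fin.ne_of_val_ne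
  obtain ⟨t, t1, t2, t3, t4⟩ := x3_aut φ
  obtain ⟨a, a1, a2, a3, a4⟩ := psi_el (K := K) (i := i2) (j := i0) (N (by omega))
  obtain ⟨b, b1, b2, b3, b4⟩ := psi_el (K := K) (i := i2.rev) (j := i0.rev) (N (by omega))
  obtain ⟨c, c1, c2, c3, c4⟩ := psi_el (K := K) (i := i1) (j := i3) (N (by omega))
  obtain ⟨d, d1, d2, d3, d4⟩ := psi_el (K := K) (i := i1.rev) (j := i3.rev) (N (by omega))
  obtain ⟨f, hf⟩ := x3_prod a (b.comp t) fun A B =>
    x3_cm a1 a2 b1 b2 (N (by omega)) (N (by omega)) (N (by omega)) (N (by omega)) _ _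
  obtain ⟨g, hg⟩ := x3_prod c (d.comp t) fun A B =>
    x3_cm c1 c2 d1 d2 (N (by omega)) (N (by omega)) (N (by omega)) (N (by omega)) _ _
  obtain ⟨ψ, hψ⟩ := x3_prod f g fun A B => by
    rw [hf, hg]
    exact ((x3_cm a1 a2 c1 c2 (N (by omega)) (N (by omega)) (N (by omega)) (N (by omega)) _ _).mul_right
      (x3_cm a1 a2 d1 d2 (N (by omega)) (N (by omega)) (N (by omega)) (N (by omega)) _ _)).mul_left
      ((x3_cm b1 b2 c1 c2 (N (by omega)) (N (by omega)) (N (by omega)) (N (by omega)) _ _).mul_right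
      (x3_cm b1 b2 d1 d2 (N (by omega)) (N (by omega)) (N (by omega)) (N (by omega)) _ _))
  refine ⟨ψ, fun s => ?_, fun s => ?_, ?_, fun u => ?_⟩ <;>
    simp only [hψ, hf, hg, MonoidHom.comp_apply, t1, t2, t3, t4, a1, a2, a3, a4, b1, b2, b3, b4, c1, c2,
      c3, c4, d1, d2, d3, d4, x3s, x3w, map_neg, neg_neg]
  exact mul_mem (mul_mem (mon_norm _ _) (mon_norm _ _)) (mul_mem (mon_norm _ _) (mon_norm _ _))

theorem x3_det {g : GL (Fin (r + 1)) K} (f : Fx φ g) : g.1.det * φ g.1.det = 1 := by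
  have J : Jm r K = (mon Fin.revPerm fun j : Fin (r + 1) => (-1 : Kˣ) ^ (j.rev : ℕ)).1 := by
    ext i j
    rw [mon_val, Jm, of_apply]
    by_cases h : j = i.rev
    · simp only [h, ↓ reduceIte, Fin.revPerm_apply, Fin.rev_rev, Units.val_pow_eq_pow_val, Units.val_neg, Units.val_one]
    · rw [if_neg h, if_neg (fun q => h (by rw [q]; simp))]
  have n : (Jm r K).det ≠ 0 := by
    rw [J]; exact ((isUnit_iff_isUnit_det _).1 (Units.isUnit _)).ne_zero
  have := congrArg det f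
  rw [det_mul, det_mul, det_transpose, ← RingHom.mapMatrix_apply, ← RingHom.map_det] at this
  apply mul_left_cancel₀ n
  linear_combination this

/-- The unitary group. -/
def x3U (φ : K →+* K) : Subgroup (GL (Fin (r + 1)) K) where
  carrier := {g | Fx φ g}
  one_mem' := natb1_one
  mul_mem' := Fx.mul
  inv_mem' := Fx.inv

theorem x3_wrap [Finite K] (hr : 5 ≤ r) (ev : Even r) (hφ : ∀ s, φ (φ s) = s)
    (ne : φ ≠ RingHom.id K) {d g g' : GL (Fin (r + 1)) K} (fd : Fx φ d) (dd : d * d = 1)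
    (fg : Fx φ g) (fg' : Fx φ g') {m : Fin (r + 1)} (hm : m.rev = m)
    (cm : ∀ z, Commute d (mon 1 (Pi.mulSingle m z)))
    (ab : Sc ((d * (g * d * g⁻¹))⁻¹ * (g * d * g⁻¹ * d)))
    (gen : ∀ H : Subgroup (GL (Fin (r + 1)) K), (∀ x ∈ H, Fx φ x) → d ∈ H → g * d * g⁻¹ ∈ H →
      g' * d * g'⁻¹ ∈ H → ∀ i j : Fin (r + 1), rt φ i j ⊆ H) :
    IsLeast {n | Good (chev (CartanMatrix.A r) Fin.revPerm φ) n} 3 := by
  have fix : ∀ s : GL (Fin (r + 1)) K, Fx φ s → ∃ t ∈ sug r φ, t * d * t⁻¹ = s * d * s⁻¹ := by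
    intro s fs
    have := x3_det fs
    obtain ⟨z, hz⟩ : ∃ z : Kˣ, (z : K) = φ s.1.det :=
      ⟨Units.mk0 _ (right_ne_zero_of_mul_eq_one this), rfl⟩
    refine ⟨s * mon 1 (Pi.mulSingle m z), mem_sug (by omega) hφ (fun _ => ne)
      (fs.mul (fx_mon (fun _ => rfl) fun i => ?_)) ?_, ?_⟩
    · by_cases h : i = m
      · rw [h, hm, Pi.mulSingle_eq_same, hz, hφ, Equiv.Perm.one_apply]
        linear_combination (-1) ^ (m : ℕ) * this
      · have h' : i.rev ≠ m := fun q => h (by rw [← Fin.rev_rev i, q, hm])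
        simp only [ne_eq, h, not_false_eq_true, Pi.mulSingle_eq_of_ne, Units.val_one, one_mul, h', map_one, mul_one, Equiv.Perm.coe_one, id_eq]
    · rw [Units.val_mul, det_mul, mon_det, ← Units.coe_prod, Finset.prod_pi_mulSingle']
      simpa only [Equiv.Perm.sign_one, Units.val_one, Int.cast_one, Finset.mem_univ, ↓ reduceIte, hz, one_mul] using this
    · rw [_root_.mul_inv_rev, mul_assoc s, mul_assoc s, ← mul_assoc _ _ s⁻¹, ← (cm z).eq,
        mul_inv_cancel_right, mul_assoc]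
  obtain ⟨t, ht, e⟩ := fix g fg
  obtain ⟨t', ht', e'⟩ := fix g' fg'
  have d2 : d.1.det * d.1.det = 1 := by rw [← det_mul, ← Units.val_mul, dd]; simp
  obtain ⟨z, hz⟩ : ∃ z : Kˣ, (z : K) = d.1.det :=
    ⟨Units.mk0 _ (right_ne_zero_of_mul_eq_one d2), rfl⟩
  have sc : Sc (mon 1 fun _ : Fin (r + 1) => z) := sc_mon.2 ⟨fun _ => rfl, fun _ => rfl⟩
  obtain ⟨y, hy⟩ : ∃ y, y = mon 1 fun _ : Fin (r + 1) => z := ⟨_, rfl⟩
  have ha : y * d ∈ sug r φ := by
    refine mem_sug (by omega) hφ (fun _ => ne) (Fx.mul (hy ▸ fx_mon (fun _ => rfl) fun i => ?_) fd) ?_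
    · have := x3_det fd
      rw [hz, Equiv.Perm.one_apply]
      linear_combination (-1) ^ (i : ℕ) * this
    · have : d.1.det ^ r = 1 := (mul_self_eq_one_iff.1 d2).elim (fun h => by rw [h, one_pow])
        fun h => by rw [h, ev.neg_one_pow]
      rw [Units.val_mul, det_mul, hy, mon_det, Finset.prod_const, hz, Finset.card_univ,
        Fintype.card_fin, pow_succ, this]
      simpa only [Equiv.Perm.sign_one, Units.val_one, Int.cast_one, one_mul] using d2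
  rw [← hy] at sc
  have cj : ∀ s : GL (Fin (r + 1)) K, s * (y * d) * s⁻¹ = y * (s * d * s⁻¹) := fun s => by
    rw [← mul_assoc, (sc.comm s).eq]; group
  refine goodSU (by omega) hφ (fun _ => ne) (sug_ns (by omega) hφ (Or.inl hr)) ha
    (mul_mem (mul_mem ht ha) (inv_mem ht)) (mul_mem (mul_mem ht' ha) (inv_mem ht')) ht ht' ?_
    (sc_of_eq rfl) (sc_of_eq rfl) ?_ fun H s h1 h2 h3 i => ?_
  · rw [mul_assoc, ← mul_assoc d, (sc.comm d).eq, mul_assoc, dd, mul_one]; exact sc.mul sc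
  · rw [cj, e, (sc.comm d).symm.symm.symm.symm.mul_mul_mul_comm, (sc.comm _).mul_mul_mul_comm]
    convert ab using 1
    group
  · have k : ∀ x, y * x ∈ H → x ∈ H := fun x h => (mul_mem_cancel_left (s y sc)).1 h
    rw [cj, e] at h2
    rw [cj, e'] at h3
    have := gen (H ⊓ x3U φ) (fun _ h => h.2) ⟨k _ h1, fd⟩ ⟨k _ h2, (fg.mul fd).mul fg.inv⟩
      ⟨k _ h3, (fg'.mul fd).mul fg'.inv⟩
    exact ⟨fun _ h => (this _ _ h).1, fun _ h => (this _ _ h).1⟩

theorem x3_crt {G : Type} [Group G] {g u : G} (c : Commute g u) {a b : ℕ} (co : a.Coprime b)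
    (hg : g ^ a = 1) (hu : u ^ b = 1) : ∃ n : ℕ, (g * u) ^ n = g := by
  obtain ⟨n, p, q⟩ := Nat.chineseRemainder co 1 0
  exact ⟨n, by rw [c.mul_pow, pow_eq_pow_of_modEq p hg, pow_eq_pow_of_modEq q hu]; simp⟩

/-- Exponent vectors. -/
abbrev X3G : Type := ℤ × ℤ × ℤ × ℤ × ℤ × ℤ

/-- Equality of exponent vectors; the first entry is the exponent of `-1`. -/
def x3Q (x y : X3G) : Prop := x.1 % 2 = y.1 % 2 ∧ x.2 = y.2

instance (x y : X3G) : Decidable (x3Q x y) := by unfold x3Q; infer_instance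

/-- The action of the field automorphism. -/
def x3f (x : X3G) : X3G := (x.1 + x.2.2.2.2.2, x.2.2.1, x.2.1, x.2.2.2.2.1, x.2.2.2.1, -x.2.2.2.2.2)

/-- Signs. -/
def x3p (n : ℕ) : X3G := (n, 0)

/-- Evaluation maps. -/
structure X3E (φ : K →+* K) (E : X3G → Kˣ) : Prop where
  add : ∀ x y, E (x + y) = E x * E y
  cg : ∀ {x y}, x3Q x y → E x = E y
  par : ∀ n, E (x3p n) = (-1) ^ n
  fr : ∀ x, φ (E x) = E (x3f x)

theorem x3_ev (hφ : ∀ s, φ (φ s) = s) (κ α β : Kˣ) (h : β * φ β = -1) : ∃ E, X3E φ E ∧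
    E (0, 1, 0) = κ ∧ (E (0, 0, 0, 1, -1, 0) : K) = α / φ α := by
  refine ⟨fun x => (-1) ^ x.1 * (κ ^ x.2.1 * Units.map φ κ ^ x.2.2.1 * α ^ x.2.2.2.1 *
    Units.map φ α ^ x.2.2.2.2.1 * β ^ x.2.2.2.2.2), ⟨fun x y => ?_, fun {x y} q => ?_, fun n => ?_,
    fun x => ?_⟩, by simp, by simp [div_eq_mul_inv]⟩
  · simp only [Prod.fst_add, Prod.snd_add, _root_.zpow_add]
    ac_rfl
  · rw [zpow_eq_zpow_emod x.1 (n := 2) (by simp only [zpow_ofNat, even_two, Even.neg_pow, one_pow]), zpow_eq_zpow_emod y.1 (n := 2) (by simp only [zpow_ofNat, even_two, Even.neg_pow, one_pow]), q.1, q.2]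
  · simp only [x3p, zpow_natCast, Prod.fst_zero, zpow_ofNat, pow_zero, Prod.snd_zero, mul_one]
  · have : φ β = -1 * (β : K)⁻¹ := by rw [← h]; field_simp
    simp only [x3f, Units.val_mul, map_mul, Units.val_zpow_eq_zpow_val, map_zpow₀, Units.coe_map,
      MonoidHom.coe_coe, hφ, this, mul_zpow, _root_.zpow_add, Units.val_neg, Units.val_one, map_neg, map_one,
      _root_.inv_zpow']
    ring

/-- Symbolic monomial matrices. -/
abbrev X3S (r : ℕ) : Type := Equiv.Perm (Fin (r + 1)) × (Fin (r + 1) → X3G)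

/-- Product. -/
def x3m (x y : X3S r) : X3S r := (x.1 * y.1, fun i => x.2 (y.1 i) + y.2 i)

/-- Inverse. -/
def x3i (x : X3S r) : X3S r := (x.1⁻¹, fun i => -x.2 (x.1⁻¹ i))

/-- The value at a basis vector. -/
def x3At (x : X3S r) (i j : Fin (r + 1)) (c : X3G) : Prop := x.1 i = j ∧ x3Q (x.2 i) c

instance (x : X3S r) (i j : Fin (r + 1)) (c : X3G) : Decidable (x3At x i j c) := by
  unfold x3At; infer_instance

/-- Equality. -/
def x3SE (x y : X3S r) : Prop := ∀ i, x3At x i (y.1 i) (y.2 i)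

instance (x y : X3S r) : Decidable (x3SE x y) := by unfold x3SE; infer_instance

/-- The form is preserved. -/
def x3F (x : X3S r) : Prop :=
  ∀ i : Fin (r + 1), x.1 i.rev = (x.1 i).rev ∧ x3Q (x.2 i + x3p i + x3f (x.2 i.rev)) (x3p (x.1 i))

instance (x : X3S r) : Decidable (x3F x) := by unfold x3F; infer_instance

/-- The action on short root elements. -/
def x3Cj (x : X3S r) (i j k l : Fin (r + 1)) (c : X3G) : Prop :=
  x.1 i = k ∧ x.1 j = l ∧ x.1 i.rev = k.rev ∧ x.1 j.rev = l.rev ∧ x3Q (x.2 i) (c + x.2 j) ∧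
    x3Q (x.2 j.rev) (x3f c + x.2 i.rev)

instance (x : X3S r) (i j k l : Fin (r + 1)) (c : X3G) : Decidable (x3Cj x i j k l c) := by
  unfold x3Cj; infer_instance

instance (n j : Fin (r + 1)) : Decidable (X3Cy n j) := by unfold X3Cy X3Cen; infer_instance

/-- The symbolic Weyl element. -/
def x3W (i j : Fin (r + 1)) : X3S r := (Equiv.swap i j, fun k => if k = i then x3p 1 else x3p 0)

/-- The matrix of a symbolic monomial matrix. -/
def x3k (E : X3G → Kˣ) (x : X3S r) : GL (Fin (r + 1)) K := mon x.1 fun i => E (x.2 i)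

theorem x3_kM (E : X3G → Kˣ) (x : X3S r) (i : Fin (r + 1)) :
    (x3k E x).1 *ᵥ x3e i = (E (x.2 i) : K) • x3e (x.1 i) := by
  ext j
  rw [x3e, mulVec_single_one]
  simp [x3k, mon_val, x3e, Pi.single_apply]

theorem x3_M (E : X3G → Kˣ) (x : X3S r) : X3M (x3k E x) x.1 := fun i =>
  ⟨_, Units.ne_zero _, x3_kM E x i⟩

namespace X3E

variable {E : X3G → Kˣ} (h : X3E φ E) {x y : X3S r}
include h

theorem zero : E 0 = 1 := (h.par 0).trans (pow_zero _)

theorem mul (x y : X3S r) : x3k E (x3m x y) = x3k E x * x3k E y := by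
  rw [x3k, x3k, x3k, mon_mul]; exact mon_congr (fun _ => rfl) fun _ => h.add _ _

theorem inv (x : X3S r) : x3k E (x3i x) = (x3k E x)⁻¹ := by
  rw [x3k, x3k, mon_inv]
  exact mon_congr (fun _ => rfl) fun _ => by
    rw [eq_inv_iff_mul_eq_one, ← h.add, x3i, neg_add_cancel, h.zero]

theorem se (q : x3SE x y) : x3k E x = x3k E y := mon_congr (fun i => (q i).1) fun i => h.cg (q i).2

theorem one (q : x3SE x (1, 0)) : x3k E x = 1 :=
  (h.se q).trans (mon_eq_one (fun _ => rfl) fun _ => h.zero)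

theorem fx (q : x3F x) : Fx φ (x3k E x) := fx_mon (fun i => (q i).1) fun i => by
  have := congrArg Units.val (h.cg (q i).2)
  rw [h.add, h.add, h.par, h.par] at this
  rw [h.fr]
  simpa only [Units.val_mul, Units.val_pow_eq_pow_val, Units.val_neg, Units.val_one] using this

theorem w (i j : Fin (r + 1)) : x3k E (x3W i j) = x3w K i j :=
  mon_congr (fun _ => rfl) fun k => by
    simp only [x3W]
    split_ifs <;> simp [h.par]

theorem a0 {i j : Fin (r + 1)} (q : x3At x i j 0) : (x3k E x).1 *ᵥ x3e i = x3e j := by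
  rw [x3_kM, h.cg q.2, h.zero, q.1]; simp

theorem a1 {i j : Fin (r + 1)} (q : x3At x i j (x3p 1)) : (x3k E x).1 *ᵥ x3e i = -x3e j := by
  rw [x3_kM, h.cg q.2, h.par, q.1]; simp

theorem cj {i j k l : Fin (r + 1)} {c : X3G} (q : x3Cj x i j k l c) (s : K) :
    x3k E x * x3s φ i j s * (x3k E x)⁻¹ = x3s φ k l (E c * s) ∧
      x3k E x * x3s φ j i s * (x3k E x)⁻¹ = x3s φ l k (s / E c) := by
  obtain ⟨q1, q2, q3, q4, q5, q6⟩ := q
  have n : φ (E c) ≠ 0 := (map_ne_zero φ).2 (Units.ne_zero _)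
  constructor <;> rw [x3s, x3s, ← conj_mul, x3k, mon_el, mon_el, q1, q2, q3, q4, h.cg q5, h.cg q6,
    h.add, h.add, Units.val_mul, Units.val_mul, ← h.fr] <;>
    simp only [map_mul, map_div₀] <;> congr 2 <;> field_simp

end X3E

theorem x3_sc2 {i j k l : Fin (r + 1)} (h1 : j ≠ k) (h2 : l ≠ i) (h3 : j ≠ l.rev) (h4 : k.rev ≠ i)
    (s t : K) : Commute (x3s φ i j s) (x3s φ k l t) :=
  ((el_comm h1 h2 _ _).mul_right (el_comm h3 h4 _ _)).mul_left
    ((el_comm (fun e => h4 (by rw [← e, Fin.rev_rev])) (fun e => h3 (by rw [e, Fin.rev_rev])) _ _).mul_right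
      (el_comm (fun e => h2 (Fin.rev_injective e).symm) (fun e => h1 (Fin.rev_injective e).symm) _ _))

end Pool.Agent.MP_c78e8e_al.H75

end

section

namespace Pool.Agent.MP_c78e8e_al.H75

open Subgroup Matrix

variable {r : ℕ} {K : Type} [Field K] [Finite K] {φ : K →+* K}

/-- The third monomial involution. -/
def x3c (d sc : X3S r) : X3S r := x3m (x3m sc d) (x3i sc)

/-- The torus element. -/
def x3t (g : X3S r) (o : Bool) : X3S r := if o then x3m g g else x3m (x3m g g) (x3m g g)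

/-- The Weyl element of the rank one subgroup. -/
def x3V (i0 i1 i2 i3 : Fin (r + 1)) : X3S r :=
  x3m (x3m (x3W i2 i0) (x3W i2.rev i0.rev)) (x3m (x3W i1 i3) (x3W i1.rev i3.rev))

/-- The finite conditions on the data, first part. -/
def X3O1 (i0 i1 i2 i3 n m : Fin (r + 1)) (d b sb sc V : X3S r) : Prop :=
  ((i0 : ℕ) = 0 ∧ (i1 : ℕ) = 1 ∧ (i2 : ℕ) = 2 ∧ (i3 : ℕ) = 3 ∧ 4 ≤ (n : ℕ) ∧ (n : ℕ) + n ≤ r ∧
    (m : ℕ) + m = r ∧ d.1 m = m) ∧ (x3F d ∧ x3F sb ∧ x3F sc) ∧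
  (x3SE (x3m d d) (1, 0) ∧ x3SE (x3m (x3m (x3m d b) (x3i d)) b) (1, 0) ∧ x3SE (x3m b V) (x3c d sb)) ∧
  (x3Cj d i2 i0 i3 i1 (0, 1, 0) ∧ x3Cj d i1 i3 i0 i2 (0, 1, 0) ∧ x3Cj b i2 i0 i2 i0 (x3p 1) ∧
    x3Cj b i1 i3 i1 i3 (x3p 1)) ∧
  V.1 i2 = i0 ∧ V.1 i3 = i1 ∧ V.1 i2.rev = i0.rev ∧ V.1 i3.rev = i1.rev

/-- The finite conditions on the data, second part. -/
def X3O2 (i0 i1 i2 i3 n m : Fin (r + 1)) (d b c g t : X3S r) (rk : Fin (r + 1) → ℕ) : Prop :=
  ((∀ i, t.1 i = i) ∧ x3Cj t i2 i0 i2 i0 (0, 0, 0, 1, -1, 0) ∧ x3Cj t i1 i3 i1 i3 (0, 0, 0, 1, -1, 0)) ∧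
  (x3At g i0 i0 0 ∧ x3At g i1 i1 0 ∧ x3At g n n 0 ∧ x3At g n.rev n.rev 0 ∧ x3At g m m 0) ∧
  (x3At d i0 i1 0 ∧ x3At d i1 i0 0 ∧ x3At d n n.rev 0 ∧ x3At d n.rev n 0) ∧
  (n = m ∨ x3At d m m (x3p 1) ∧ x3At b n n.rev (x3p 1) ∧ x3At b n.rev n (x3p 1) ∧ x3At b m m (x3p 1)) ∧
  (∀ j, X3Cy n j → j = i2 ∨ ∃ i, rk i < rk j ∧ X3Cy n i ∧ (d.1 i = j ∨ c.1 i = j ∨ b.1 i = j)) ∧
  c.1 i0 = i1

/-- The finite conditions on the data. -/
def X3Ok (i0 i1 i2 i3 n m : Fin (r + 1)) (d b sb sc : X3S r) (rk : Fin (r + 1) → ℕ) (o : Bool) :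
    Prop := X3O1 i0 i1 i2 i3 n m d b sb sc (x3V i0 i1 i2 i3) ∧
  X3O2 i0 i1 i2 i3 n m d b (x3c d sc) (x3m d (x3c d sc)) (x3t (x3m d (x3c d sc)) o) rk

instance (i0 i1 i2 i3 n m : Fin (r + 1)) (d b sb sc V : X3S r) :
    Decidable (X3O1 i0 i1 i2 i3 n m d b sb sc V) := by unfold X3O1; infer_instance

instance (i0 i1 i2 i3 n m : Fin (r + 1)) (d b c g t : X3S r) (rk : Fin (r + 1) → ℕ) :
    Decidable (X3O2 i0 i1 i2 i3 n m d b c g t rk) := by unfold X3O2; infer_instance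

instance (i0 i1 i2 i3 n m : Fin (r + 1)) (d b sb sc : X3S r) (rk : Fin (r + 1) → ℕ) (o : Bool) :
    Decidable (X3Ok i0 i1 i2 i3 n m d b sb sc rk o) := by unfold X3Ok; infer_instance

/-- Swapping two hyperbolic pairs. -/
def x3sw (i j : Fin (r + 1)) : Equiv.Perm (Fin (r + 1)) := Equiv.swap i j * Equiv.swap i.rev j.rev

/-- Extension of the coefficients from the first half of the basis. -/
def x3x (π : Equiv.Perm (Fin (r + 1))) (B : ℕ → X3G) : X3S r :=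
  (π, fun i => if (i : ℕ) + i ≤ r then B i else x3p (i + π i) - x3f (B i.rev))

/-- Coefficients of `d`. -/
def x3Bd (m : ℕ) (i : ℕ) : X3G :=
  if i = 2 then (0, 1, 0) else if i = 3 then (0, -1, 0) else if i = m then x3p m else 0

/-- Coefficients of `b`. -/
def x3Bb (m : ℕ) (i : ℕ) : X3G :=
  if i < 2 then x3p 1 else if 4 ≤ i ∧ m ≤ i + 1 then x3p m else 0

/-- Coefficients of the first conjugating element. -/
def x3Bs (m : ℕ) (i : ℕ) : X3G :=
  if i = 3 then (1, -1, 0) else if m % 2 = 1 ∧ i + 1 = m then (0, 0, 0, 0, 0, 1) else 0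

/-- Coefficients of the second conjugating element. -/
def x3Bc (j : ℕ) (i : ℕ) : X3G := if i = j then (0, 0, 0, 0, 1, 0) else 0

theorem x3_ok8 : X3Ok (r := 8) 0 1 2 3 4 4 (x3x (x3sw 0 1 * x3sw 2 3) (x3Bd 4)) (x3x 1 (x3Bb 4))
    (x3x (x3sw 1 2) (x3Bs 4)) (x3x (Equiv.swap 2 6) (x3Bc 2)) ![0, 0, 0, 1, 0, 3, 2, 0, 0] true := by
  decide +kernel

theorem x3_ok10 : X3Ok (r := 10) 0 1 2 3 4 5 (x3x (x3sw 0 1 * x3sw 2 3 * Equiv.swap 4 6) (x3Bd 5))
    (x3x (Equiv.swap 4 6) (x3Bb 5)) (x3x (x3sw 1 2) (x3Bs 5)) (x3x (Equiv.swap 2 8) (x3Bc 2))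
    ![0, 0, 0, 1, 0, 0, 0, 3, 2, 0, 0] true := by
  decide +kernel

theorem x3_ok12 : X3Ok (r := 12) 0 1 2 3 6 6 (x3x (x3sw 0 1 * x3sw 2 3 * x3sw 4 5) (x3Bd 6))
    (x3x (x3sw 4 5) (x3Bb 6)) (x3x (x3sw 1 2) (x3Bs 6)) (x3x (Equiv.swap 2 10 * x3sw 2 4) (x3Bc 4))
    ![0, 0, 0, 1, 2, 3, 0, 1, 2, 3, 4, 0, 0] false := by
  decide +kernel

theorem x3_ok14 : X3Ok (r := 14) 0 1 2 3 6 7
    (x3x (x3sw 0 1 * x3sw 2 3 * x3sw 4 5 * Equiv.swap 6 8) (x3Bd 7))
    (x3x (x3sw 4 5 * Equiv.swap 6 8) (x3Bb 7)) (x3x (x3sw 1 2) (x3Bs 7))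
    (x3x (Equiv.swap 2 12 * x3sw 2 4) (x3Bc 4)) ![0, 0, 0, 1, 2, 3, 0, 0, 0, 1, 2, 3, 4, 0, 0] false := by
  decide +kernel

theorem x3_ok16 : X3Ok (r := 16) 0 1 2 3 8 8
    (x3x (x3sw 0 1 * x3sw 2 3 * x3sw 4 5 * x3sw 6 7) (x3Bd 8))
    (x3x (x3sw 4 6 * x3sw 5 7) (x3Bb 8)) (x3x (x3sw 1 2 * x3sw 5 6) (x3Bs 8))
    (x3x (Equiv.swap 2 14 * x3sw 2 4) (x3Bc 4))
    ![0, 0, 0, 1, 2, 3, 4, 4, 0, 4, 4, 1, 2, 3, 4, 0, 0] false := by
  decide +kernel

theorem x3_core (hφ : ∀ s, φ (φ s) = s) (ne : φ ≠ RingHom.id K) (h2 : (2 : K) ≠ 0)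
    {i0 i1 i2 i3 n m : Fin (r + 1)} {d b sb sc : X3S r} {rk : Fin (r + 1) → ℕ} {o : Bool}
    (ok : X3Ok i0 i1 i2 i3 n m d b sb sc rk o) :
    IsLeast {n | Good (chev (CartanMatrix.A r) Fin.revPerm φ) n} 3 := by
  obtain ⟨⟨⟨p0, p1, p2, p3, n4, nr, mm, dm⟩, ⟨fd, fb, fc⟩, ⟨dd, db, bV⟩, ⟨d1, d2, b1, b2⟩, V1, V2, V3, V4⟩,
    ⟨t0, t1, t2⟩, ⟨g0, g1, g2, g3, g4⟩, ⟨a0, a1, a2, a3⟩, od, orb, c0⟩ := ok
  have ev : Even r := ⟨m, mm.symm⟩
  have r0 := x3_rv i0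
  have r1 := x3_rv i1
  have r2 := x3_rv i2
  have r3 := x3_rv i3
  have rn := x3_rv n
  have hm : m.rev = m := Fin.ext (by have := x3_rv m; omega)
  have N : ∀ {a b : Fin (r + 1)}, (a : ℕ) ≠ b → a ≠ b := Fin.ne_of_val_ne
  obtain ⟨z, zn, zo, -, sp, -⟩ := norm_gen hφ ne
  have z2 : z ^ 2 ≠ 1 := fun q => by
    have := Nat.le_of_dvd two_pos (orderOf_dvd_of_pow_eq_one q)
    have q1 : 1 < Nat.card (Fix φ) := Finite.one_lt_card
    omega
  have z0 := left_ne_zero_of_mul_eq_one zn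
  obtain ⟨κ, κ0, so⟩ := sol_free h2 z0 (fun q => z2 (by simp [q])) (fun q => z2 (by simp only [q, even_two, Even.neg_pow, one_pow]))
    one_ne_zero
  obtain ⟨α, α0, hα⟩ := hilbert90 hφ ne zn
  obtain ⟨β, hβ⟩ := norm_surj hφ ne (t := -1) (by simp only [map_neg, map_one])
  obtain ⟨E, hE, Eκ, Eα⟩ := x3_ev hφ (Units.mk0 κ κ0)⁻¹ (Units.mk0 α α0)
    (Units.mk0 β fun q => by simp [q] at hβ) hβ
  have Ez : (E (0, 0, 0, 1, -1, 0) : K) = z := by
    rw [Eα, div_eq_iff ((map_ne_zero φ).2 (Units.ne_zero _))]; exact hα.symm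
  have Ek : (E (0, 1, 0) : K) = κ⁻¹ := by simp [Eκ]
  have Em : (E (x3p 1) : K) = -1 := by simp [hE.par]
  obtain ⟨ψ, q1, q2, q3, q4⟩ := x3_psi φ (by omega) p0 p1 p2 p3
  have hV : ψ mw = x3k E (x3V i0 i1 i2 i3) := by simp only [q3, x3V, hE.mul, hE.w]
  have kc : ∀ s, x3k E (x3c d s) = x3k E s * x3k E d * (x3k E s)⁻¹ := fun s => by
    simp only [x3c, hE.mul, hE.inv]
  have DD : x3k E d * x3k E d = 1 := by rw [← hE.mul, hE.one dd]
  have B0 : x3k E b * ψ mw = x3k E sb * x3k E d * (x3k E sb)⁻¹ := by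
    rw [hV, ← hE.mul, hE.se bV, kc]
  have dg : ∀ {x : X3S r} {c : X3G}, x3Cj x i2 i0 i2 i0 c → x3Cj x i1 i3 i1 i3 c →
      Act ψ (x3k E x) !![(E c : K), 0; 0, 1] := fun u v => act_diag (Units.ne_zero _)
    (fun s => by rw [q1, q1, ← conj_mul, (hE.cj u _).1, (hE.cj v _).1])
    (fun s => by rw [q2, q2, ← conj_mul, (hE.cj u _).2, (hE.cj v _).2, neg_div])
  have ad : Act ψ (x3k E d) !![0, 1 * κ; 1, 0] := by
    have := act_anti (ψ := ψ) (g := x3k E d) (l := -κ⁻¹) (by simpa using κ0)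
      (fun s => by
        rw [q1, q2, ← conj_mul, (hE.cj d1 _).1, (hE.cj d2 _).1, Ek, neg_mul, neg_neg]
        exact x3_sc2 (N (by omega)) (N (by omega)) (N (by omega)) (N (by omega)) _ _)
      (fun s => by
        rw [q1, q2, ← conj_mul, (hE.cj d1 _).2, (hE.cj d2 _).2, Ek, div_neg, neg_div]
        exact x3_sc2 (N (by omega)) (N (by omega)) (N (by omega)) (N (by omega)) _ _)
    simpa using this
  obtain ⟨S, hS⟩ := r1m ψ (T := dgl) (τ := x3k E (x3t (x3m d (x3c d sc)) o)) (d := x3k E d)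
    (b := x3k E b) (by simp) so sp dgl_nil (hV ▸ mon_norm _ _) q4 (mon_dgl t0 _) (Ez ▸ dg t1 t2)
    (mon_norm _ _) ad (mon_norm _ _) (Em ▸ dg b1 b2)
    (by rw [B0, conj_mul, DD, mul_one, mul_inv_cancel]; exact sc_one)
    (by rw [← hE.inv, ← hE.mul, ← hE.mul, ← hE.mul, hE.one db]; exact sc_one)
  have fψ : ∀ A, Fx φ (ψ A) := by
    have : ∀ i j : Fin (r + 1), (i : ℕ) < 4 → (j : ℕ) < 4 → (i : ℕ) ≠ j → Even ((i : ℕ) + j) → ∀ s,
        x3s φ i j s ∈ x3U φ := fun i j hi hj ij e s =>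
      ((rt_short hφ (N ij) (x3_ne (by omega)) (x3_ne (by omega)) (x3_ne (by omega)) _).2
        ⟨s, by rw [e.neg_one_pow, x3s, neg_mul, one_mul]⟩).1
    refine sl2_gen (H := x3U φ) (fun s => ?_) fun s => ?_
    · rw [q1]
      exact mul_mem (this _ _ (by omega) (by omega) (by omega) ⟨1, by omega⟩ _)
        (this _ _ (by omega) (by omega) (by omega) ⟨2, by omega⟩ _)
    · rw [q2]
      exact mul_mem (this _ _ (by omega) (by omega) (by omega) ⟨1, by omega⟩ _)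
        (this _ _ (by omega) (by omega) (by omega) ⟨2, by omega⟩ _)
  obtain ⟨l, hl⟩ : ∃ l : K, if n = m then l = 0 else l * φ l = 2 * (-1) ^ ((n : ℕ) + m) := by
    split_ifs
    · exact ⟨0, rfl⟩
    · exact norm_surj hφ ne (by simp only [map_mul, map_ofNat, map_pow, map_neg, map_one])
  obtain ⟨w, hw⟩ : ∃ w : Fin (r + 1) → K, w = x3e n + x3e n.rev := ⟨_, rfl⟩
  obtain ⟨η, hη⟩ : ∃ η : Fin (r + 1) → K, η = x3e n - x3e n.rev + l • x3e m := ⟨_, rfl⟩
  have cen : ∀ j, ¬ X3Cen n j → bu φ (x3e j) η = 0 ∧ bu φ (x3e j) w = 0 := fun j hj => by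
    unfold X3Cen at hj
    rw [hη, hw, bu_add_right, bu_sub_right, bu_smul_right, bu_add_right, x3_bz (by omega),
      x3_bz (by omega), x3_bz (by omega)]
    simp
  have sn : (-1 : K) ^ (n.rev : ℕ) = (-1) ^ (n : ℕ) := by rw [natb1_sg, ev.neg_one_pow, one_mul]
  have key : bu φ η η = 0 ∧ bu φ w η = 0 ∧ bu φ w w ≠ 0 := by
    by_cases c : n = m
    · rw [if_pos c] at hl
      have := x3_b1 (φ := φ) m
      rw [hm] at this
      rw [hη, hw, hl, c, hm, ← two_smul K, sub_self, zero_smul, add_zero, bu_zero_right, bu_zero_right,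
        bu_smul_left, bu_smul_right, map_ofNat]
      exact ⟨rfl, rfl, mul_ne_zero h2 (mul_ne_zero h2 this)⟩
    · rw [if_neg c] at hl
      have c' : (n : ℕ) ≠ m := fun q => c (Fin.ext q)
      have u1 : bu φ (x3e n) (x3e n.rev) = (-1) ^ (n : ℕ) := by rw [x3_b, if_pos rfl]
      have u2 : bu φ (x3e n.rev) (x3e n) = (-1) ^ (n : ℕ) := by
        rw [x3_b, if_pos (Fin.rev_rev n).symm, sn]
      have u3 : bu φ (x3e m) (x3e m) = (-1) ^ (m : ℕ) := by rw [x3_b, if_pos hm.symm]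
      have := natb1_sq (K := K) m
      simp only [hη, hw, bu_add_left, bu_add_right, bu_sub_left, bu_sub_right, bu_smul_left,
        bu_smul_right, u1, u2, u3, x3_bz (φ := φ) (i := n) (j := n) (by omega),
        x3_bz (φ := φ) (i := n.rev) (j := n.rev) (by omega), x3_bz (φ := φ) (i := n) (j := m) (by omega),
        x3_bz (φ := φ) (i := m) (j := n) (by omega), x3_bz (φ := φ) (i := n.rev) (j := m) (by omega),
        x3_bz (φ := φ) (i := m) (j := n.rev) (by omega)]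
      refine ⟨?_, by ring, by simpa only [zero_add, add_zero, ← two_mul, ne_eq, mul_eq_zero, pow_eq_zero_iff', neg_eq_zero, one_ne_zero, Fin.val_eq_zero_iff, false_and, or_false] using h2⟩
      rw [pow_add] at hl
      linear_combination (-1) ^ (m : ℕ) * hl + 2 * (-1) ^ (n : ℕ) * this
  obtain ⟨ε, hε⟩ : ∃ ε, ε = x3e i0 - x3e i1 + η := ⟨_, rfl⟩
  have c0' := cen i0 (by unfold X3Cen; omega)
  have c1' := cen i1 (by unfold X3Cen; omega)
  have wε : bu φ w ε = 0 := by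
    rw [hε, bu_add_right, bu_sub_right, key.2.1, x3_sy0 hφ c0'.2, x3_sy0 hφ c1'.2]; simp
  have εε : bu φ ε ε = 0 := by
    simp only [hε, bu_add_left, bu_add_right, bu_sub_left, bu_sub_right, key.1, c0'.1, c1'.1,
      x3_sy0 hφ c0'.1, x3_sy0 hφ c1'.1]
    rw [x3_bz (by omega), x3_bz (by omega), x3_bz (by omega), x3_bz (by omega)]
    simp
  obtain ⟨U, hU⟩ : ∃ U : K → GL (Fin (r + 1)) K,
      ∀ s, U s = sie φ ε (s • w) (s ^ 2 * bu φ w w / 2) := ⟨_, fun _ => rfl⟩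
  have sw : ∀ s : K, bu φ (s • w) ε = 0 := fun s => by rw [bu_smul_left, wε, mul_zero]
  have Ua : ∀ s t, φ s = s → U s * U t = U (s + t) := fun s t hs => by
    rw [hU, hU, hU, x3_mul hφ ev εε (sw _) (sw _), add_smul, bu_smul_left, bu_smul_right, hs]
    congr 1
    field_simp
    ring
  have U0 : U 0 = 1 := by simpa [hU] using x3_zero hφ ev εε
  have Un : ∀ k : ℕ, U 1 ^ k = U k := fun k => by
    induction k with
    | zero => simp [U0]
    | succ k ih => rw [pow_succ', ih, Ua _ _ (map_one φ), Nat.cast_succ, add_comm (1 : K)]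
  have h1 : φ (2 : K)⁻¹ = 2⁻¹ := by rw [map_inv₀, map_ofNat]
  have fU : Fx φ (U 2⁻¹) := by
    rw [hU]
    refine sie_fx hφ εε (sw _) ?_
    rw [ev.neg_one_pow, bu_smul_left, bu_smul_right, map_div₀, map_mul, map_pow, h1, map_ofNat,
      ← x3_sy hφ ev]
    field_simp
    ring
  have Ui : (U 2⁻¹)⁻¹ = U (-2⁻¹) := by rw [inv_eq_iff_mul_eq_one, Ua _ _ h1, add_neg_cancel, U0]
  have FD := hE.fx fd
  have FC := hE.fx fc
  obtain ⟨G, hG⟩ : ∃ G, G = x3k E (x3m d (x3c d sc)) := ⟨_, rfl⟩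
  have FG : Fx φ G := by rw [hG, hE.mul, kc]; exact FD.mul ((FC.mul FD).mul FC.inv)
  have GU : ∀ s, Commute G (U s) := fun s => by
    rw [Commute, SemiconjBy, ← mul_inv_eq_iff_eq_mul, hU, sie_conj hφ FG, hε, hη, hw]
    simp only [hG, mulVec_add, mulVec_sub, mulVec_smul, hE.a0 g0, hE.a0 g1, hE.a0 g2, hE.a0 g3,
      hE.a0 g4]
  have DU : x3k E d * U (-2⁻¹) * (x3k E d)⁻¹ = U 2⁻¹ := by
    have : (x3k E d).1 *ᵥ ε = (-1 : K) • ε := by
      have : (x3k E d).1 *ᵥ (l • x3e m) = -(l • x3e m) := by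
        rcases od with c | c
        · rw [if_pos c] at hl
          simp [hl]
        · rw [mulVec_smul, hE.a1 c.1, smul_neg]
      simp only [hε, hη, mulVec_add, mulVec_sub, this, hE.a0 a0, hE.a0 a1, hE.a0 a2, hE.a0 a3]
      module
    have dw : (x3k E d).1 *ᵥ w = w := by
      rw [hw, mulVec_add, hE.a0 a2, hE.a0 a3, add_comm (x3e n)]
    rw [hU, hU, sie_conj hφ FD, this, mulVec_smul, dw, x3_sc hφ ev εε (sw _), smul_smul]
    simp only [map_neg, map_one, mul_neg, neg_mul, one_mul, neg_neg, mul_one, even_two, Even.neg_pow, inv_pow]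
  have dc : x3k E d * ((U 2⁻¹)⁻¹ * x3k E sc * x3k E d * ((U 2⁻¹)⁻¹ * x3k E sc)⁻¹) = G * U 1 := by
    have e1 : U 1 = U 2⁻¹ * U 2⁻¹ := by rw [Ua _ _ h1]; congr 1; field_simp; ring
    rw [e1, ← mul_assoc G, (GU _).eq]
    rw [show U 2⁻¹ * G = x3k E d * (U 2⁻¹)⁻¹ * (x3k E d)⁻¹ * G by rw [Ui, DU], hG, hE.mul, kc]
    group
  have GN : G ^ (4 * Nat.card Kˣ) = 1 := by
    have : x3k E (x3t (x3m d (x3c d sc)) o) ^ Nat.card Kˣ = 1 := by
      obtain ⟨t, ht⟩ := mem_dgl.1 (mon_dgl t0 fun i => E ((x3t (x3m d (x3c d sc)) o).2 i))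
      rw [x3k, ht, mon_one_pow]
      exact mon_eq_one (fun _ => rfl) fun _ => pow_card_eq_one'
    cases o <;> simp only [x3t, if_true, if_false, Bool.false_eq_true, hE.mul _ (x3m d _),
      hE.mul (x3m (x3m d _) _), ← hG] at this
    · rw [show 4 = 2 * 2 from rfl, pow_mul, pow_mul, sq, sq, this]
    · rw [show 4 = 2 * 2 from rfl, mul_right_comm, pow_mul, pow_mul, sq G, this, one_pow]
  obtain ⟨k, hk⟩ := x3_crt (GU 1) (a := 4 * Nat.card Kˣ) (b := ringChar K) (by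
    refine ((Nat.Prime.coprime_iff_not_dvd (CharP.char_is_prime K _)).2 fun q => ?_).symm
    have := Fintype.ofFinite K
    have := (ringChar.spec K _).2 q
    rw [Nat.card_units, Nat.cast_mul, Nat.cast_pred Nat.card_pos, Nat.card_eq_fintype_card,
      FiniteField.cast_card_eq_zero, show ((4 : ℕ) : K) = 2 * 2 by norm_num] at this
    exact h2 (by simpa only [zero_sub, mul_neg, mul_one, neg_eq_zero, mul_eq_zero, or_self] using this)) GN (by rw [Un, ringChar.Nat.cast_ringChar, U0])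
  have hB : ψ S * x3k E sb * x3k E d * (ψ S * x3k E sb)⁻¹ = ψ S * (x3k E b * ψ mw) * (ψ S)⁻¹ := by
    rw [B0]; group
  refine x3_wrap (by omega) ev hφ ne FD DD ((fψ S).mul (hE.fx fb)) (fU.inv.mul FC) hm (fun y => ?_)
    (hS _ hB).1 fun H hH m1 m2 m3 => ?_
  · rw [Commute, SemiconjBy, x3k, mon_mul, mon_mul]
    refine mon_congr (by simp) fun i => ?_
    have : d.1 i = m ↔ i = m := by rw [← d.1.injective.eq_iff (a := i), dm]
    simp [Pi.mulSingle_apply, this, mul_comm]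
  have m4 := dc ▸ mul_mem m1 m3
  have m5 : G ∈ H := hk ▸ pow_mem m4 k
  have m6 := (mul_mem_cancel_left m5).1 m4
  have m7 : x3k E (x3c d sc) ∈ H := (mul_mem_cancel_left m1).1 (by rwa [← hE.mul, ← hG])
  obtain ⟨m8, m9⟩ := (hS _ hB).2 H (by
    cases o <;> simp only [x3t, if_true, if_false, Bool.false_eq_true, hE.mul _ (x3m d _),
      hE.mul (x3m (x3m d _) _), ← hG]
    exacts [mul_mem (mul_mem m5 m5) (mul_mem m5 m5), mul_mem m5 m5]) m1 m2
  have kk : X3h φ H := ⟨hφ, ev, h2, skew_ex hφ ne, hH⟩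
  rw [hU, one_smul, hε] at m6
  refine x3_gen kk ne p0 p1 p2 p3 ⟨n4, nr⟩ (x3_M E d) (x3_M E _) (x3_M E b) (x3_M E _) m1 m7 m9
    (hV ▸ m8 _) m6 (fun v => by simpa [q2] using m8 (mz (-v))) cen key.1 key.2.1 key.2.2 ?_ rk orb
    ⟨a0.1, c0, b1.2.1, b2.2.1, d2.2.1, V1, V2, V3, V4⟩
  intro L1 L2 L3 j hj
  rcases od with c | ⟨-, c1, c2, c3⟩
  · have : j = m := Fin.ext (by have := congrArg Fin.val c; unfold X3Cen at hj; omega)
    refine X3L.of_smul ?_ h2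
    rwa [hw, c, hm, ← two_smul K, ← this] at L1
  have e3 : (x3k E b).1 *ᵥ η = x3e n - x3e n.rev - l • x3e m := by
    simp only [hη, mulVec_add, mulVec_sub, mulVec_smul, hE.a1 c1, hE.a1 c2, hE.a1 c3]
    module
  have h4 : (4 : K) ≠ 0 := by rw [show (4 : K) = 2 * 2 by norm_num]; exact mul_ne_zero h2 h2
  have : j = n ∨ j = n.rev ∨ j = m := by simp only [Fin.ext_iff]; unfold X3Cen at hj; omega
  rcases this with rfl | rfl | rfl
  · exact kk.lin L1 (kk.add L2 L3) h4 2 1 (by rw [e3, hη, hw]; module)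
  · exact kk.lin L1 (kk.add L2 L3) h4 2 (-1) (by rw [e3, hη, hw]; module)
  by_cases c : n = j
  · exact kk.lin L1 (kk.add L2 L3) h4 2 1 (by rw [e3, hη, hw, ← c]; module)
  rw [if_neg c] at hl
  exact kk.lin L2 L3 (mul_ne_zero h2 fun q : l = 0 => h2 (by simpa only [q, map_zero, mul_zero, mul_eq_zero, pow_eq_zero_iff', neg_eq_zero, one_ne_zero, ne_eq, Nat.add_eq_zero_iff, Fin.val_eq_zero_iff, not_and, false_and, or_false] using hl.symm)) 1 (-1)
    (by rw [e3, hη]; module)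

theorem tX3 (hφ : ∀ s, φ (φ s) = s) (ne : φ ≠ RingHom.id K) (h : (2 : K) ≠ 0) {r : ℕ}
    (hr : r = 8 ∨ r = 10 ∨ r = 12 ∨ r = 14 ∨ r = 16) :
    IsLeast {n | Good (chev (CartanMatrix.A r) Fin.revPerm φ) n} 3 := by
  rcases hr with rfl | rfl | rfl | rfl | rfl
  exacts [x3_core hφ ne h x3_ok8, x3_core hφ ne h x3_ok10, x3_core hφ ne h x3_ok12,
    x3_core hφ ne h x3_ok14, x3_core hφ ne h x3_ok16]

end Pool.Agent.MP_c78e8e_al.H75

end
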