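import Pool.Agent.MP_c78e8e_al.Mg.Sg_Mon
import Pool.Agent.MP_c78e8e_al.Sg.Sl2
import Pool.Agent.MP_c78e8e_al.Mg.Sg_X3
import Pool.Agent.MP_c78e8e_al.Mg.Sg_X1
import Pool.Agent.MP_c78e8e_al.Mg.Sg_Ev

attribute [-instance] Module.toMulActionWithZero NeZero.charZero_one
  DistribMulActionSemiHomClass.toAddMonoidHomClass SetLike.GradeZero.instSemiring
  Subfield.instModuleSubtypeMem SemilinearMapClass.toAddHomClass MonTypeEquivalenceMon.monMonoid
  Subfield.instMulActionSubtypeMem instCharZeroOfIsSemireal IdemSemiring.toSemiring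
  UniformSpace.toTopologicalSpace SetLike.GradeZero.instCommRing RKHS.instFunLike
  FloorSemiring.instCharZero NonUnitalAlgHomClass.toNonUnitalRingHomClass
  Subfield.instSMulWithZeroSubtypeMem Unique.instSubsingleton SubsemiringClass.toSubmonoidClass
  NonUnitalAlgSemiHomClass.toMulHomClass invertibleTwo
  CommMonTypeEquivalenceCommMon.commMonCommMonoid littleWedderburn
  instIsRightCancelAddOfAddRightReflectLE NormedAlgebra.toAlgebra GrpTypeEquivalenceGrp.grpGroup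
  RCLike.charZero_rclike BialgHomClass.toMonoidHomClass Semiring.toNonUnitalSemiring instCoeTCOfCoe
  NonUnitalRing.toNonUnitalSemiring SetLike.GradeZero.instCommSemiring SetLike.GradeZero.instMonoid
  NormMulClass.toNoZeroDivisors ContinuousMonoidHom.instCoeOutOfMonoidHomClassOfContinuousMapClass
  NumberField.to_charZero MonoidWithZero.toSemigroupWithZero BooleanRing.toRing
  instCommGroupOfIsSimpleGroupOfIsNilpotent CommGrpTypeEquivalenceCommGrp.commGrpCommGroup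
  RingConeClass.toSubsemiringClass instCoeOutOfCoeFun LieAdmissibleRing.toNonUnitalNonAssocRing
  Fintype.decidableForallFintype ValuationClass.toMonoidWithZeroHomClass LieRing.toAddCommGroup
  IsStrictOrderedRing.toCharZero instSMulZeroClass NormedCommRing.toCommRing
  SemilatticeInf.toPartialOrder MulEquivClass.instMonoidHomClass IsStrictOrderedRing.noZeroDivisors
  MulCharClass.toMonoidHomClass NeZero.of_gt' NormedField.toField
  NonUnitalNormedRing.toNormedAddCommGroup Bialgebra.toAlgebra CommSemiring.toNonUnitalCommSemiring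
  instCoeTOfCoeDep MonoidWithZero.toMulZeroOneClass SeminormedCommRing.toCommRing
  CommMonoidWithZero.toCommMonoid TestFunctionClass.toDFunLike
  NonUnitalNormedCommRing.toNonUnitalCommRing GroupConeClass.toSubmonoidClass
  MulDistribMulActionSemiHomClass.toMonoidHomClass EuclideanDomain.toCommRing
  ContDiffMapSupportedInClass.toDFunLike LieAdmissibleAlgebra.toModule
  Group.IsPerfect.subsingleton_of_isMulCommutative NormedRing.toRing AlgHomClass.toRingHomClass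
  SubsemiringClass.instCharZero MulSemiringAction.toDistribMulAction
  GradedMonoid.GradeZero.commMonoid Std.instLawfulBEqOrdOfLawfulOrderOrdOfLawfulOrderBEq
  GroupWithZero.toDivisionMonoid LieAlgebra.toModule ESeminormedCommMonoid.toCommMonoid
  IsFormallyReal.instIsReduced RightPreLieAlgebra.toModule LeftPreLieAlgebra.toModule
  AddQuantale.instAddLeftMono IsometryClass.instCoeOutIsometryEquiv
  AddGroupConeClass.toAddSubmonoidClass CommSemiring.toCommMonoid
  NonUnitalSeminormedCommRing.toNonUnitalCommRing LinearOrderedCommGroupWithZero.toCommGroupWithZero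
  instCoeHTCT Invertible.toNeZero
  ContinuousAddMonoidHom.instCoeOutOfAddMonoidHomClassOfContinuousMapClass instCoeHTC
  CategoryTheory.Limits.Concrete.instUniqueToTypeTerminal
  LinearOrderedAddCommMonoidWithTop.toAddCommMonoid HomeomorphClass.instCoeOutHomeomorph
  CentroidHomClass.toAddMonoidHomClass SeminormedRing.toRing BooleanRing.toCommRing InvOneClass.toOne
  RingEquivClass.toNonUnitalRingHomClass RightPreLieRing.toNonUnitalNonAssocRing
  SeminormedCommGroup.toCommGroup LeftPreLieRing.toNonUnitalNonAssocRing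
  AddCommGroupWithOne.toAddGroupWithOne Finset.decidableDforallFinset instCoeTC
  NonAssocCommSemiring.toNonAssocSemiring instIsRightCancelMulOfMulRightReflectLE
  NormedCommGroup.toCommGroup IdemCommSemiring.toCommSemiring MonoidWithZero.toMonoid
  Multiset.decidableDforallMultiset NonUnitalRing.toNonUnitalNonAssocRing

section

namespace Pool.Agent.MP_c78e8e_al.H75

open Subgroup Matrix

variable {r : ℕ} {K : Type} [Field K] {φ : K →+* K}

/-- The standard basis. -/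
abbrev u3e (K : Type) [Field K] (k : Fin (r + 1)) : Fin (r + 1) → K := Pi.single k 1

theorem u3_sg (h : (2 : K) = 0) (n : ℕ) : (-1 : K) ^ n = 1 := by
  rw [show (-1 : K) = 1 by linear_combination -h, one_pow]

theorem u3_symm (hφ : ∀ s, φ (φ s) = s) (h : (2 : K) = 0) (u v : Fin (r + 1) → K) :
    bu φ v u = φ (bu φ u v) := by rw [bu_symm hφ, u3_sg h, one_mul]

theorem u3_er (h : (2 : K) = 0) (u : Fin (r + 1) → K) (k : Fin (r + 1)) :
    bu φ u (u3e K k) = u k.rev := by rw [bu_single_right, u3_sg h, map_one, one_mul, mul_one]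

theorem u3_hei (h : (2 : K) = 0) (i : Fin (r + 1)) (w : Fin (r + 1) → K) (a : K) :
    hei φ i w a = sie φ (u3e K i) w a := by
  rw [hei, u3_sg h, one_smul, show -(1 : K) * a = a by linear_combination -a * h]

theorem u3_trc (h : (2 : K) = 0) {i : Fin (r + 1)} {w : Fin (r + 1) → K} {a : K} :
    Trc φ i w a ↔ φ a + a = bu φ w w := by
  rw [Trc, u3_sg h, u3_sg h]
  constructor <;> intro e
  · linear_combination e - bu φ w w * h
  · linear_combination e + bu φ w w * h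

section Sie

variable (hφ : ∀ s, φ (φ s) = s) (h2 : (2 : K) = 0) {e w w' : Fin (r + 1) → K}
  {H : Subgroup (GL (Fin (r + 1)) K)}
include hφ h2

theorem u3_sie (he : bu φ e e = 0) (h : bu φ w e = 0) (a : K) (v : Fin (r + 1) → K) :
    (sie φ e w a).1 *ᵥ v = v + bu φ v e • w + (bu φ v w + a * bu φ v e) • e := by
  rw [sie_apply he h (by rw [u3_symm hφ h2, h, map_zero]), u3_sg h2, one_mul, sub_eq_add_neg,
    ← neg_smul]
  congr 2
  linear_combination -(bu φ v w + a * bu φ v e) * h2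

theorem u3_mul (he : bu φ e e = 0) (h : bu φ w e = 0) (h' : bu φ w' e = 0) (a a' : K) :
    sie φ e w a * sie φ e w' a' = sie φ e (w + w') (a + a' + bu φ w' w) := by
  have k : bu φ e w = 0 := by rw [u3_symm hφ h2, h, map_zero]
  refine monb_ext fun v => ?_
  rw [monb_mul, u3_sie hφ h2 he h, u3_sie hφ h2 he h',
    u3_sie hφ h2 he (by rw [bu_add_left, h, h', add_zero])]
  simp only [bu_add_left, bu_add_right, bu_smul_left, he, h', k]
  module

theorem u3_scale (he : bu φ e e = 0) (h : bu φ w e = 0) (c a : K) :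
    sie φ (c • e) w a = sie φ e (φ c • w) (a * c * φ c) := by
  refine monb_ext fun v => ?_
  rw [u3_sie hφ h2 (by simp [bu_smul_left, bu_smul_right, he]) (by simp [bu_smul_right, h]),
    u3_sie hφ h2 he (by simp [bu_smul_left, h])]
  simp only [bu_smul_right, hφ]
  module

/-- The line of `w` lies in the radical of `e` modulo its centre. -/
def u3S (φ : K →+* K) (H : Subgroup (GL (Fin (r + 1)) K)) (e w : Fin (r + 1) → K) : Prop :=
  bu φ w e = 0 ∧ ∀ s : K, ∃ a, φ a + a = bu φ (s • w) (s • w) ∧ sie φ e (s • w) a ∈ H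

omit hφ h2 in
theorem u3S.smul (h : u3S φ H e w) (c : K) : u3S φ H e (c • w) :=
  ⟨by rw [bu_smul_left, h.1, mul_zero], fun s => by rw [smul_smul]; exact h.2 _⟩

theorem u3S.add (he : bu φ e e = 0) (h : u3S φ H e w) (h' : u3S φ H e w') : u3S φ H e (w + w') := by
  refine ⟨by rw [bu_add_left, h.1, h'.1, add_zero], fun s => ?_⟩
  obtain ⟨a, p, m⟩ := h.2 s
  obtain ⟨a', p', m'⟩ := h'.2 s
  have := mul_mem m m'
  rw [u3_mul hφ h2 he (h.smul s).1 (h'.smul s).1, ← smul_add] at this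
  refine ⟨_, ?_, this⟩
  rw [smul_add, bu_add_left, bu_add_right, bu_add_right, ← p, ← p', map_add, map_add,
    ← u3_symm hφ h2]
  ring

omit h2 in
theorem u3S.map (h : u3S φ H e w) {t : GL (Fin (r + 1)) K} (f : Fx φ t) (m : t ∈ H)
    (te : t.1 *ᵥ e = e) : u3S φ H e (t.1 *ᵥ w) := by
  have k := (fx_iff hφ).1 f
  refine ⟨by rw [← te, k, h.1], fun s => ?_⟩
  obtain ⟨a, p, m'⟩ := h.2 s
  have := mul_mem (mul_mem m m') (inv_mem m)
  rw [sie_conj hφ f, te, mulVec_smul] at this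
  exact ⟨a, by rw [← mulVec_smul, k, p], this⟩

theorem u3S_self (he : bu φ e e = 0) : u3S φ H e e := by
  refine ⟨he, fun s => ⟨s + φ s, ?_, ?_⟩⟩
  · rw [bu_smul_left, bu_smul_right, he, map_add, hφ]
    linear_combination (s + φ s) * h2
  · have : sie φ e (s • e) (s + φ s) = 1 := monb_ext fun v => by
      rw [u3_sie hφ h2 he (by rw [bu_smul_left, he, mul_zero]), bu_smul_right, smul_smul, add_assoc,
        ← add_smul, show bu φ v e * s + _ = 0 by linear_combination (s + φ s) * bu φ v e * h2]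
      simp
    exact this ▸ one_mem H

theorem u3S.all {α : K} (tr : α + φ α = 1) (he : bu φ e e = 0) {u u' : Fin (r + 1) → K}
    (h : u3S φ H e u) (h' : u3S φ H e u') (b : bu φ u u' = 1) (hw : u3S φ H e w) {a : K}
    (ha : φ a + a = bu φ w w) : sie φ e w a ∈ H := by
  obtain ⟨a0, p0, m0⟩ := hw.2 1
  rw [one_smul] at p0 m0
  have sh : ∀ {w} x y, bu φ w e = 0 → sie φ e w (x + y) = sie φ e 0 x * sie φ e w y := fun x y o => by
    rw [u3_mul hφ h2 he (bu_zero_left _) o, zero_add, bu_zero_right, add_zero]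
  rw [show a = (a + a0) + a0 by linear_combination -a0 * h2, sh _ _ hw.1]
  refine mul_mem ?_ m0
  have fx : φ (a + a0) = a + a0 := by
    rw [map_add]; linear_combination ha + p0 + (bu φ w w - a - a0) * h2
  generalize a + a0 = x at fx
  obtain ⟨a1, -, m1⟩ := h.2 (α * x)
  obtain ⟨a2, -, m2⟩ := h'.2 1
  have := mul_mem (mul_mem m1 m2) (inv_mem (mul_mem m2 m1))
  rw [u3_mul hφ h2 he (h.smul _).1 (h'.smul _).1, u3_mul hφ h2 he (h'.smul _).1 (h.smul _).1,
    add_comm ((1 : K) • u'), show a1 + a2 + _ = x + (a2 + a1 + bu φ ((α * x) • u) ((1 : K) • u')) by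
      rw [u3_symm hφ h2, one_smul, bu_smul_left, b, mul_one, map_mul, fx]
      linear_combination x * tr - (α * x) * h2,
    sh _ _ ((h.smul _).add hφ h2 he (h'.smul _)).1, mul_inv_cancel_right] at this
  exact this

/-- One radical and an element that moves its vector to an opposite one. -/
theorem u3_one {α : K} (tr : α + φ α = 1) {i j : Fin (r + 1)} (hi : i ≠ i.rev) (h1 : j ≠ i)
    (h3 : j ≠ i.rev) (h : ∀ k, k ≠ i → k ≠ i.rev → u3S φ H (u3e K i) (u3e K k))
    {g : GL (Fin (r + 1)) K} (f : Fx φ g) (m : g ∈ H) (n : (g.1 *ᵥ u3e K i) i.rev ≠ 0)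
    (k l : Fin (r + 1)) : rt φ k l ⊆ H := by
  let Ω : (Fin (r + 1) → K) → Prop := fun e =>
    bu φ e e = 0 ∧ ∀ w a, bu φ w e = 0 → φ a + a = bu φ w w → sie φ e w a ∈ H
  have he : bu φ (u3e K i) (u3e K i) = 0 := by rw [u3_er h2]; simp [hi.symm]
  have o1 : Ω (u3e K i) := ⟨he, fun w a o c => by
    refine u3S.all hφ h2 tr he (h j h1 h3) (h j.rev (fun e => h3 (by rw [← e, Fin.rev_rev]))
      (fun e => h1 (Fin.rev_injective e))) (by rw [u3_er h2]; simp) ?_ c
    rw [u3_er h2] at o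
    rw [← Finset.univ_sum_single w]
    refine Finset.sum_induction _ _ (fun _ _ => u3S.add hφ h2 he)
      (by simpa using (u3S_self hφ h2 he).smul 0) fun k _ => ?_
    rw [show Pi.single k (w k) = w k • u3e K k by rw [← Pi.single_smul, smul_eq_mul, mul_one]]
    by_cases p : k = i
    · rw [p]; exact (u3S_self hφ h2 he).smul _
    by_cases q : k = i.rev
    · simpa [q, o] using (u3S_self hφ h2 he).smul 0
    exact (h k p q).smul _⟩
  have mv : ∀ e g, Ω e → Fx φ g → g ∈ H → Ω (g.1 *ᵥ e) := fun e g o f m => by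
    have k := (fx_iff hφ).1 f
    refine ⟨(k _ _).trans o.1, fun w a p c => ?_⟩
    rw [← monb_inv' g w] at p c ⊢
    rw [← sie_conj hφ f]
    exact mul_mem (mul_mem m (o.2 _ _ (k _ _ ▸ p) (k _ _ ▸ c))) (inv_mem m)
  have sc : ∀ e (c : K), c ≠ 0 → Ω e → Ω (c • e) := fun e c c0 o => by
    refine ⟨by simp [bu_smul_left, bu_smul_right, o.1], fun w a p t => ?_⟩
    have p' : bu φ w e = 0 := by simpa [bu_smul_right, c0] using p
    rw [u3_scale hφ h2 o.1 p']
    refine o.2 _ _ (by rw [bu_smul_left, p', mul_zero]) ?_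
    simp only [bu_smul_left, bu_smul_right, map_mul, hφ, ← t]
    ring
  have q1 : ∀ w a, Off i w → Trc φ i w a → hei φ i w a ∈ H := fun w a o c => by
    rw [u3_hei h2]
    exact o1.2 _ _ (by rw [u3_er h2, o.2.2]) ((u3_trc h2).1 c)
  have o2 := sc _ _ (inv_ne_zero n) (mv _ _ o1 f m)
  obtain ⟨o, e⟩ := monb_move (φ := φ) hi (x := ((g.1 *ᵥ u3e K i) i.rev)⁻¹ • g.1 *ᵥ u3e K i)
    (by rw [Pi.smul_apply, smul_eq_mul, inv_mul_cancel₀ n])
  have t := monb_trc o (e ▸ o2.1)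
  have o3 := mv _ _ o2 (hei_fx hφ o t).inv (inv_mem (q1 _ _ o t))
  rw [monb_inv e] at o3
  refine gen_hei_all hφ hi q1 (fun w a o c => ?_) k l
  rw [u3_hei h2]
  exact o3.2 _ _ (by rw [u3_er h2, Fin.rev_rev, o.2.1]) ((u3_trc h2).1 c)

end Sie

/-- An orthonormal frame in characteristic two and an element of norm one. -/
structure U3 (φ : K →+* K) (α : K) (z : Kˣ) (P : GL (Fin (r + 1)) K) : Prop where
  inv : ∀ s, φ (φ s) = s
  two : (2 : K) = 0
  tr : α + φ α = 1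
  nm : (z : K) * φ z = 1
  hJ : P.1 * (P.1.map φ)ᵀ = Jm r K
  hy : ∀ k : Fin (r + 1), k < k.rev → P.1 *ᵥ u3e K k = u3e K k + α • u3e K k.rev ∧
    P.1 *ᵥ u3e K k.rev = u3e K k + φ α • u3e K k.rev

theorem u3_J (h : (2 : K) = 0) : Jm r K * Jm r K = 1 := by
  ext i j
  rw [mul_apply, Finset.sum_eq_single i.rev (fun k _ h => by simp only [Jm, of_apply, h, ↓ reduceIte, mul_ite, zero_mul, mul_zero, ite_self]) (by simp)]
  simp [Jm, u3_sg h, one_apply, eq_comm]

theorem u3_ex (hφ : ∀ s, φ (φ s) = s) (h : (2 : K) = 0) (ho : ∀ k : Fin (r + 1), k ≠ k.rev) {α : K}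
    (tr : α + φ α = 1) {z : Kˣ} (nm : (z : K) * φ z = 1) : ∃ P : GL (Fin (r + 1)) K, U3 φ α z P := by
  let A : Fin (r + 1) → K := fun k => if k < k.rev then 1 else φ α
  let B : Fin (r + 1) → K := fun k => if k < k.rev then 1 else α
  let Q : Matrix (Fin (r + 1)) (Fin (r + 1)) K :=
    of fun k l => if l = k then A k else if l = k.rev then B k else 0
  have hJ : Q * (Q.map φ)ᵀ = Jm r K := by
    ext k l
    rw [mul_apply, Finset.sum_eq_add k k.rev (ho k) (fun j _ p => by simp [Q, p.1, p.2]) (by simp)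
      (by simp)]
    simp only [Q, transpose_apply, map_apply, of_apply, if_true, if_neg (ho k).symm, Jm, u3_sg h,
      Fin.rev_inj]
    by_cases p : l = k
    · subst p
      simp only [if_true, if_neg (ho l), if_neg (ho l).symm, A, B]
      split_ifs
      · simp only [map_one]; linear_combination h
      · rw [hφ]; linear_combination α * φ α * h
    by_cases q : l = k.rev
    · subst q
      simp only [if_true, if_neg (ho k), Fin.rev_rev, A, B]
      rcases lt_or_gt_of_ne (ho k) with c | c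
      · simp only [if_pos c, if_neg c.not_gt, hφ]; linear_combination tr
      · simp only [if_pos c, if_neg c.not_gt, map_one]; linear_combination tr
    · have q' : k ≠ l.rev := fun e => q (by rw [e, Fin.rev_rev])
      simp [Ne.symm p, q, Ne.symm q, q']
  have e : Q * ((Q.map φ)ᵀ * Jm r K) = 1 := by rw [← Matrix.mul_assoc, hJ, u3_J h]
  refine ⟨⟨Q, _, e, mul_eq_one_comm.1 e⟩, hφ, h, tr, nm, hJ, fun k c => ⟨?_, ?_⟩⟩ <;> funext l <;>
    simp only [mulVec_single_one, col_apply, Q, of_apply, Pi.add_apply, Pi.smul_apply,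
      Pi.single_apply, smul_eq_mul, Fin.rev_inj, A, B]
  · by_cases p : l = k
    · simp [p, c, ho k]
    by_cases q : l = k.rev
    · simp [q, c.not_gt, ho k, (ho k).symm]
    · have q' : k ≠ l.rev := fun e => q (by rw [e, Fin.rev_rev])
      simp [p, Ne.symm p, q, q']
  · by_cases p : l = k
    · simp [p, c, ho k, (ho k).symm]
    by_cases q : l = k.rev
    · simp [q, c.not_gt, (ho k).symm]
    · simp [p, Ne.symm p, q, Ne.symm q]

/-- The frame. -/
def u3y (P : GL (Fin (r + 1)) K) (k : Fin (r + 1)) : Fin (r + 1) → K := P.1 *ᵥ u3e K k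

/-- Monomial matrices in the frame. -/
def u3M (z : Kˣ) (P : GL (Fin (r + 1)) K) (π : Equiv.Perm (Fin (r + 1))) (ν : Fin (r + 1) → ℤ) :
    GL (Fin (r + 1)) K := P * mon π (fun i => z ^ ν i) * P⁻¹

section Frame

variable {α : K} {z : Kˣ} {P : GL (Fin (r + 1)) K} {π π' : Equiv.Perm (Fin (r + 1))}
  {ν ν' : Fin (r + 1) → ℤ}

theorem u3M_mul : u3M z P π ν * u3M z P π' ν' = u3M z P (π * π') fun i => ν (π' i) + ν' i := by
  simp only [u3M, conj_mul, mon_mul, _root_.zpow_add]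

theorem u3M_congr (h : ∀ i, π i = π' i) (h' : ∀ i, ν i = ν' i) : u3M z P π ν = u3M z P π' ν' := by
  rw [Equiv.ext h, funext h']

theorem u3M_one (h : ∀ i, π i = i) (h' : ∀ i, ν i = 0) : u3M z P π ν = 1 := by
  rw [u3M, mon_eq_one h fun i => by rw [h', zpow_zero], mul_one, mul_inv_cancel]

theorem u3M_pow (n : ℕ) :
    u3M z P π ν ^ n = u3M z P (π ^ n) fun i => ∑ k ∈ Finset.range n, ν ((π ^ k) i) := by
  induction n with
  | zero => exact (u3M_one (by simp) (by simp)).symm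
  | succ n ih =>
    rw [pow_succ', ih, u3M_mul, ← pow_succ']
    exact u3M_congr (fun _ => rfl) fun i => by rw [Finset.sum_range_succ, add_comm]

theorem u3M_y (k : Fin (r + 1)) :
    (u3M z P π ν).1 *ᵥ u3y P k = ((z ^ ν k : Kˣ) : K) • u3y P (π k) := by
  rw [u3M, u3y, monb_mul, monb_mul, monb_inv rfl, u3y, ← mulVec_smul]
  congr 1
  funext l
  simp [mon_val, Pi.single_apply]

theorem u3_ext {g g' : GL (Fin (r + 1)) K} (h : ∀ k, g.1 *ᵥ u3y P k = g'.1 *ᵥ u3y P k) : g = g' := by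
  refine mul_right_cancel (b := P) (Units.ext (Matrix.ext_of_mulVec_single fun k => ?_))
  rw [monb_mul, monb_mul]
  exact h k

variable (u : U3 φ α z P)
include u

theorem U3.zz (n : ℤ) : φ (z ^ n : Kˣ) = (z ^ (-n) : Kˣ) := by
  rw [Units.val_zpow_eq_zpow_val, Units.val_zpow_eq_zpow_val, map_zpow₀,
    eq_inv_of_mul_eq_one_right u.nm, _root_.inv_zpow']

theorem U3.fx : Fx φ (u3M z P π ν) := by
  have e : (mon π fun i => z ^ ν i).1 * ((mon π fun i => z ^ ν i).1.map φ)ᵀ = 1 := by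
    ext k l
    obtain ⟨k, rfl⟩ := π.surjective k
    rw [mona_mul, transpose_apply, map_apply, mon_val, one_apply]
    by_cases p : l = π k
    · rw [if_pos p, if_pos p.symm, u.zz, ← Units.val_mul, ← _root_.zpow_add, add_neg_cancel]; simp
    · simp [p, Ne.symm p]
  have e' : (P.1.map φ)ᵀ * ((P⁻¹).1.map φ)ᵀ = 1 := by
    rw [← transpose_mul, ← Matrix.map_mul, Units.inv_mul]; simp
  rw [Fx, ← u.hJ, u3M]
  simp only [Units.val_mul, Matrix.map_mul, transpose_mul, Matrix.mul_assoc]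
  rw [Units.inv_mul_cancel_left, ← Matrix.mul_assoc (P.1.map φ)ᵀ, e', Matrix.one_mul,
    ← Matrix.mul_assoc (mon _ _).1, e, Matrix.one_mul]

theorem U3.mem [Finite K] (hr : 3 ≤ r) (ne : φ ≠ RingHom.id K) (h : ∑ i, ν i = 0) :
    u3M z P π ν ∈ sug r φ := by
  refine mem_sug hr u.inv (fun _ => ne) u.fx ?_
  have : ∀ s : Finset (Fin (r + 1)), ∏ i ∈ s, z ^ ν i = z ^ ∑ i ∈ s, ν i := fun s => by
    induction s using Finset.cons_induction <;> simp [*, _root_.zpow_add]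
  rw [u3M, Units.val_mul, Units.val_mul, det_units_conj, mon_det, ← Units.coe_prod, this, h]
  rcases Int.units_eq_one_or (Equiv.Perm.sign π) with e | e <;> simp [e]
  linear_combination -u.two

theorem U3.bu (j l : Fin (r + 1)) : bu φ (u3y P j) (u3y P l) = if j = l then 1 else 0 := by
  have e : P.1 * ((P.1.map φ)ᵀ * Jm r K) = 1 := by rw [← Matrix.mul_assoc, u.hJ, u3_J u.two]
  have := congrFun (congrFun (show _ * Jm r K * P.1 = 1 from mul_eq_one_comm.1 e) l) j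
  rw [Matrix.mul_assoc, mul_apply, one_apply, ← Equiv.sum_comp Fin.revPerm] at this
  rw [if_congr eq_comm rfl rfl, ← this]
  refine Finset.sum_congr rfl fun i _ => ?_
  simp [u3y, mul_apply, Jm, u3_sg u.two, mul_comm]

theorem U3.sw {j l : Fin (r + 1)} (h : j ≠ l) :
    u3M z P (Equiv.swap j l) 0 = sie φ (u3y P j + u3y P l) 0 1 := by
  refine u3_ext (P := P) fun k => ?_
  rw [u3M_y, u3_sie u.inv u.two (by simp [bu_add_left, bu_add_right, u.bu, h, h.symm, one_add_one_eq_two, u.two])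
    (bu_zero_left _), bu_add_right, u.bu, u.bu]
  have t : ∀ v : Fin (r + 1) → K, v + v = 0 := fun v => by rw [← two_smul K, u.two, zero_smul]
  by_cases p : k = j
  · simp [p, h, ← add_assoc, t]
  by_cases q : k = l
  · simp [q, h.symm, add_left_comm, t]
  · simp [p, q, Equiv.swap_apply_of_ne_of_ne p q]

theorem U3.e1 {k : Fin (r + 1)} (h : k < k.rev) : u3e K k.rev = u3y P k + u3y P k.rev := by
  rw [u3y, u3y, (u.hy k h).1, (u.hy k h).2]
  linear_combination (norm := module) (-u.two) • u3e K k - u.tr • u3e K k.rev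

theorem U3.e0 {k : Fin (r + 1)} (h : k < k.rev) : u3e K k = φ α • u3y P k + α • u3y P k.rev := by
  rw [u3y, u3y, (u.hy k h).1, (u.hy k h).2]
  linear_combination (norm := module) (-u.tr) • u3e K k - (α * φ α * u.two) • u3e K k.rev

theorem U3.pair {k l : Fin (r + 1)} (h : k < k.rev) (h' : l < l.rev) {g : GL (Fin (r + 1)) K} {c : K}
    (e : g.1 *ᵥ u3y P k = c • u3y P l) (e' : g.1 *ᵥ u3y P k.rev = c • u3y P l.rev) :
    g.1 *ᵥ u3e K k = c • u3e K l ∧ g.1 *ᵥ u3e K k.rev = c • u3e K l.rev := by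
  rw [u.e0 h, u.e1 h, u.e0 h', u.e1 h', mulVec_add, mulVec_add, mulVec_smul, mulVec_smul, e, e']
  constructor <;> module

theorem U3.flip {k : Fin (r + 1)} (h : k < k.rev) {g : GL (Fin (r + 1)) K}
    (e : g.1 *ᵥ u3y P k = u3y P k.rev) (e' : g.1 *ᵥ u3y P k.rev = u3y P k) :
    g.1 *ᵥ u3e K k = u3e K k + u3e K k.rev ∧ g.1 *ᵥ u3e K k.rev = u3e K k.rev := by
  rw [u.e0 h, u.e1 h, mulVec_add, mulVec_add, mulVec_smul, mulVec_smul, e, e']
  refine ⟨?_, add_comm _ _⟩
  linear_combination (norm := module) (u.tr - φ α * u.two) • u3y P k + (u.tr - α * u.two) • u3y P k.rev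

theorem U3.perm (h : ∀ k, π k.rev = (π k).rev) (h' : ∀ k, k < k.rev → π k < (π k).rev)
    (ho : ∀ k : Fin (r + 1), k ≠ k.rev) : u3M z P π 0 = mon π 1 := by
  have key : ∀ k, k < k.rev → (u3M z P π 0).1 *ᵥ u3e K k = (1 : K) • u3e K (π k) ∧
      (u3M z P π 0).1 *ᵥ u3e K k.rev = (1 : K) • u3e K (π k).rev := fun k c =>
    u.pair c (h' k c) (by simp [u3M_y]) (by simp [u3M_y, h])
  refine Units.ext (Matrix.ext_of_mulVec_single fun k => ?_)
  have : (u3M z P π 0).1 *ᵥ u3e K k = (1 : K) • u3e K (π k) := by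
    rcases lt_or_gt_of_ne (ho k) with c | c
    · exact (key k c).1
    · simpa only [Fin.rev_rev, h] using (key k.rev (by rwa [Fin.rev_rev])).2
  rw [this]
  funext l
  simp [mon_val, Pi.single_apply]

end Frame

theorem u3_psi (h2 : (2 : K) = 0) {p q : Fin (r + 1)} (hp : p ≠ p.rev) (hq : q ≠ q.rev)
    (pq : p ≠ q) (pq' : p ≠ q.rev) : ∃ ψ : SL2 K →* GL (Fin (r + 1)) K,
    (∀ s, ψ (mx s) = hei φ q.rev (Pi.single p s) 0) ∧ (∀ s, ψ (mz s) = hei φ p.rev (Pi.single q s) 0) ∧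
    ψ mw = mon (Equiv.swap p q * Equiv.swap q.rev p.rev) 1 := by
  have n : q.rev ≠ p.rev := fun e => pq (Fin.rev_injective e).symm
  have qp' : q ≠ p.rev := fun e => pq' (by rw [e, Fin.rev_rev])
  have ng : ∀ s : K, -s = s := fun s => by linear_combination -s * h2
  have n1 : (-1 : Kˣ) = 1 := Units.ext (ng 1)
  obtain ⟨α, a1, a2, a3, -⟩ := psi_el (K := K) pq
  obtain ⟨β, b1, b2, b3, -⟩ := psi_el (K := K) n
  have c : ∀ A B, Commute (α A) (β B) := fun A B => sl2_comm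
    (fun s => (sl2_comm (fun t => by rw [a1, b1]; exact el_comm hp.symm hq _ _)
      (fun t => by rw [a2, b1]; exact el_comm qp'.symm pq' _ _) A).symm)
    (fun s => (sl2_comm (fun t => by rw [a1, b2]; exact el_comm pq'.symm qp' _ _)
      (fun t => by rw [a2, b2]; exact el_comm hq.symm hp _ _) A).symm) B
  have m1 : ∀ s, SpecialLinearGroup.map φ (mx s) = mx (φ s) := fun s => by
    ext i j; fin_cases i <;> fin_cases j <;> simp only [mx, Fin.zero_eta, Fin.isValue, SpecialLinearGroup.map_apply_coe, RingHom.mapMatrix_apply, map_apply, of_apply, cons_val', cons_val_zero, cons_val_fin_one, map_one, Fin.mk_one, cons_val_one, map_zero]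
  have m2 : ∀ s, SpecialLinearGroup.map φ (mz s) = mz (φ s) := fun s => by
    ext i j; fin_cases i <;> fin_cases j <;> simp only [mz, Fin.zero_eta, Fin.isValue, SpecialLinearGroup.map_apply_coe, RingHom.mapMatrix_apply, map_apply, of_apply, cons_val', cons_val_zero, cons_val_fin_one, map_one, Fin.mk_one, cons_val_one, map_zero, map_neg]
  refine ⟨MonoidHom.mk' (fun A => α A * β (SpecialLinearGroup.map φ A)) fun A B => ?_, fun s => ?_,
    fun s => ?_, ?_⟩
  · rw [map_mul, map_mul, map_mul, (c B _).mul_mul_mul_comm]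
  · rw [hei_single (by simpa using hq.symm) pq' (by simpa using pq)]
    simp only [MonoidHom.mk'_apply, a1, m1, b1, Fin.rev_rev, ng, Fin.val_rev, Nat.reduceSubDiff, one_pow, one_mul, el_zero, mul_one]
  · rw [hei_single (by simpa using hp.symm) qp' (by simpa using pq.symm)]
    simp only [MonoidHom.mk'_apply, a2, ng, m2, b2, Fin.rev_rev, Fin.val_rev, Nat.reduceSubDiff, one_pow, one_mul, el_zero, mul_one]
  · rw [MonoidHom.mk'_apply, show SpecialLinearGroup.map φ mw = mw by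
      simp only [mw_eq, map_mul, m1, m2, map_one], a3, b3, mon_mul]
    exact mon_congr (fun _ => rfl) fun k => by simp [n1]

/-- Short root elements. -/
noncomputable def u3X (φ : K →+* K) (i j : Fin (r + 1)) (s : K) : GL (Fin (r + 1)) K :=
  sie φ (u3e K i) (s • u3e K j) 0

theorem u3X_hei (h2 : (2 : K) = 0) (i j : Fin (r + 1)) (s : K) :
    hei φ i (Pi.single j s) 0 = u3X φ i j s := by
  rw [u3_hei h2, u3X, ← Pi.single_smul, smul_eq_mul, mul_one]

theorem u3X_apply (hφ : ∀ s, φ (φ s) = s) (h2 : (2 : K) = 0) {i j : Fin (r + 1)} (h : i.rev ≠ i)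
    (h' : i.rev ≠ j) (s : K) (v : Fin (r + 1) → K) :
    (u3X φ i j s).1 *ᵥ v = v + (v i.rev * s) • u3e K j + (φ s * v j.rev) • u3e K i := by
  rw [u3X, u3_sie hφ h2 (by simp [u3_er h2, h]) (by simp [u3_er h2, h']), bu_smul_right, u3_er h2,
    u3_er h2, smul_smul, zero_mul, add_zero]

theorem u3X_conj (hφ : ∀ s, φ (φ s) = s) (h2 : (2 : K) = 0) {i j k l : Fin (r + 1)} (h : k.rev ≠ k)
    (h' : k.rev ≠ l) {g : GL (Fin (r + 1)) K} (f : Fx φ g) {a b : K}
    (e : g.1 *ᵥ u3e K i = a • u3e K k) (e' : g.1 *ᵥ u3e K j = b • u3e K l) (s : K) :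
    g * u3X φ i j s * g⁻¹ = u3X φ k l (φ a * b * s) := by
  rw [u3X, sie_conj hφ f, mulVec_smul, e, e', u3_scale hφ h2 (by simp [u3_er h2, h])
    (by simp [u3_er h2, h']), u3X, smul_smul, smul_smul, zero_mul, zero_mul, mul_right_comm]

/-- The combinatorial data. -/
structure U3D (p q : Fin (r + 1)) (σ d b g c e : Equiv.Perm (Fin (r + 1))) (ν μ : Fin (r + 1) → ℤ)
    (m : ℕ) : Prop where
  ho : ∀ k : Fin (r + 1), k ≠ k.rev
  hp : p < p.rev
  hq : q < q.rev
  pq : p ≠ q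
  pq' : p ≠ q.rev
  s0 : ∀ k, (Equiv.swap p q * Equiv.swap q.rev p.rev) k = σ k
  s1 : ∀ k, σ k.rev = (σ k).rev
  s2 : ∀ k, k < k.rev → σ k < (σ k).rev
  s3 : σ p = q ∧ σ q = p ∧ σ p.rev = q.rev ∧ σ q.rev = p.rev
  ss : ∀ k, σ (σ k) = k
  dd : ∀ k, d (d k) = k
  d1 : d p = q ∧ d q = p ∧ d p.rev = q.rev ∧ d q.rev = p.rev
  bb : ∀ k, b (b k) = k
  b1 : b p = p ∧ b q = q ∧ b p.rev = p.rev ∧ b q.rev = q.rev
  bs : ∀ k, b (σ (b (σ k))) = k
  db : ∀ k, d (b k) = b (d k)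
  eb : ∀ k, e (d k) = b (σ (e k))
  ec : ∀ k, c (d k) = d (g (c k)) ∧ μ (d k) = ν (c k) + μ k
  n0 : ∑ i, ν i = 0
  m0 : ∑ i, μ i = 0
  gm : ∀ k, (g ^ m) k = k
  t1 : ∀ k, k = p ∨ k = p.rev → ∑ i ∈ Finset.range m, ν ((g ^ i) k) = 2
  t2 : ∀ k, k = q ∨ k = q.rev → ∑ i ∈ Finset.range m, ν ((g ^ i) k) = -2
  g1 : g p = p.rev ∧ g q.rev = q ∧ g q ≠ q ∧ g q ≠ q.rev
  av : ∀ i < m, (g ^ i) p ≠ q ∧ (g ^ i) p ≠ q.rev
  cov : ∀ k, k ≠ q → k ≠ q.rev → ∃ i < m, k = (g ^ i) p ∨ k = d (σ ((g ^ i) p))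
  mix : (∀ k, k = p ∨ k = p.rev ∨ k = q ∨ k = q.rev →
      b (g (g k)) = g (g k.rev) ∧ ν (g k) + ν k = ν (g k.rev) + ν k.rev) ∨
    ∃ x y, (∀ k, b k = Equiv.swap x y k) ∧ x ≠ y ∧ d (g x) = q ∧ d (g y) = p.rev ∧ ν x = 0 ∧ ν y = 0

section Main

variable {α : K} {z : Kˣ} {P : GL (Fin (r + 1)) K} (u : U3 φ α z P) {p q : Fin (r + 1)}
  {σ d b g c e : Equiv.Perm (Fin (r + 1))} {ν μ : Fin (r + 1) → ℤ} {m : ℕ}
  (D : U3D p q σ d b g c e ν μ m) {H : Subgroup (GL (Fin (r + 1)) K)}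
include u D

theorem u3_mix (hX : ∀ s, u3X φ q.rev p s ∈ H) (hZ : ∀ s, u3X φ p.rev q s ∈ H)
    (hd : u3M z P d 0 ∈ H) (hb : u3M z P b 0 ∈ H) (hg : u3M z P g ν ∈ H) :
    ∃ h ∈ H, Fx φ h ∧ h.1 *ᵥ u3e K q.rev = u3e K q.rev ∧
      ∃ c : K, h.1 *ᵥ u3e K p = c • u3e K p + u3e K p.rev := by
  have h2 := u.two
  have := D.ho p; have := (D.ho p).symm; have := D.ho q; have := (D.ho q).symm
  have := D.pq; have := D.pq.symm; have := D.pq'; have := D.pq'.symm
  have : q ≠ p.rev := fun e => D.pq' (by rw [e, Fin.rev_rev])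
  have := this.symm
  rcases D.mix with k | ⟨x, y, k, n, k1, k2, k3, k4⟩
  · have fl : ∀ j, j = p ∨ j = p.rev ∨ j = q ∨ j = q.rev →
        ((u3M z P g ν * u3M z P g ν)⁻¹ * u3M z P b 0 * (u3M z P g ν * u3M z P g ν)).1 *ᵥ u3y P j =
          u3y P j.rev := fun j hj => by
      rw [monb_mul, monb_mul, u3M_mul]
      refine monb_inv ?_
      simp only [u3M_y, mulVec_smul, Equiv.Perm.mul_apply, (k j hj).1, (k j hj).2]
      simp
    refine ⟨_, mul_mem (mul_mem (inv_mem (mul_mem hg hg)) hb) (mul_mem hg hg),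
      ((u.fx.mul u.fx).inv.mul u.fx).mul (u.fx.mul u.fx),
      (u.flip D.hq (fl _ (by simp)) (by simpa using fl q.rev (by simp))).2, 1, ?_⟩
    rw [(u.flip D.hp (fl _ (by simp)) (by simpa using fl p.rev (by simp))).1, one_smul]
  · have fX : ∀ {i j : Fin (r + 1)} s, i.rev ≠ i → i.rev ≠ j → j.rev ≠ j → Fx φ (u3X φ i j s) :=
      fun s a b c => sie_fx u.inv (by simp [u3_er h2, a]) (by simp [u3_er h2, b])
        (by simp only [map_zero, mul_zero, add_zero, bu_smul_right, u3_er h2, Pi.smul_apply, ne_eq, c, not_false_eq_true, Pi.single_eq_of_ne, smul_eq_mul])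
    have m := mul_mem (mul_mem (mul_mem (hX (φ α)) (hZ 1)) hd) hg
    have f : Fx φ (u3X φ q.rev p (φ α) * u3X φ p.rev q 1 * u3M z P d 0 * u3M z P g ν) :=
      (((fX _ (by simpa) (by simpa) (by simpa)).mul (fX _ (by simpa) (by simpa) (by simpa))).mul
        u.fx).mul u.fx
    have m' := mul_mem (mul_mem m hb) (inv_mem m)
    have e1 : (u3X φ p.rev q 1).1 *ᵥ (u3y P q + u3y P p.rev) =
        u3e K p + u3e K p.rev + α • u3e K q.rev := by
      rw [u3X_apply u.inv h2 (by simpa) (by simpa), u3y, u3y, (u.hy q D.hq).1, (u.hy p D.hp).2]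
      simp [*]
      linear_combination (norm := module) h2 • u3e K q + u.tr • u3e K p.rev
    have e2 : (u3X φ q.rev p (φ α)).1 *ᵥ (u3e K p + u3e K p.rev + α • u3e K q.rev) =
        u3e K p + u3e K p.rev := by
      rw [u3X_apply u.inv h2 (by simpa) (by simpa)]
      simp [*, u.inv]
      linear_combination (norm := module) (α * h2) • u3e K q.rev
    rw [u3M_congr k fun _ => rfl, u.sw n, sie_conj u.inv f, mulVec_zero, monb_mul, monb_mul,
      monb_mul, mulVec_add, u3M_y, u3M_y, k3, k4, zpow_zero, Units.val_one, one_smul, one_smul,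
      mulVec_add, u3M_y, u3M_y, k1, k2, Pi.zero_apply, Pi.zero_apply, zpow_zero, Units.val_one,
      one_smul, one_smul, e1, e2] at m'
    have i0 : bu φ (u3e K p + u3e K p.rev) (u3e K p + u3e K p.rev) = 0 := by
      simp [bu_add_right, u3_er h2, *, one_add_one_eq_two]
    refine ⟨_, m', sie_fx u.inv i0 (bu_zero_left _) (by simp [u3_sg h2, one_add_one_eq_two, h2]), ?_,
      2, ?_⟩ <;> rw [u3_sie u.inv h2 i0 (bu_zero_left _)] <;> simp [bu_add_right, u3_er h2, *]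
    linear_combination (norm := module) h2 • u3e K p

theorem u3_gen {ψ : SL2 K →* GL (Fin (r + 1)) K} (hx : ∀ s, ψ (mx s) = u3X φ q.rev p s)
    (hz : ∀ s, ψ (mz s) = u3X φ p.rev q s) (hw : ψ mw = u3M z P σ 0) (hψ : ∀ A, ψ A ∈ H)
    (hd : u3M z P d 0 ∈ H) (hb : u3M z P b 0 ∈ H) (hg : u3M z P g ν ∈ H) (k l : Fin (r + 1)) :
    rt φ k l ⊆ H := by
  have h2 := u.two
  have hφ := u.inv
  have he : bu φ (u3e K q.rev) (u3e K q.rev) = 0 := by simp [u3_er h2, D.ho q]
  have s0 : u3S φ H (u3e K q.rev) (u3e K p) := ⟨by simp [u3_er h2, D.pq.symm], fun s =>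
    ⟨0, by simp [bu_smul_right, u3_er h2, (D.ho p).symm], (hx s ▸ hψ (mx s) : u3X φ q.rev p s ∈ H)⟩⟩
  have s1 : u3S φ H (u3e K q.rev) (u3e K p.rev) := by
    obtain ⟨h, m, f, e, c, e'⟩ := u3_mix u D (fun s => hx s ▸ hψ _) (fun s => hz s ▸ hψ _) hd hb hg
    have := (s0.map hφ f m e).add hφ h2 he (s0.smul (-c))
    rwa [e', show ∀ x y : Fin (r + 1) → K, c • x + y + -c • x = y from fun x y => by module] at this
  let Sw : Fin (r + 1) → Fin (r + 1) → Prop := fun j l =>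
    ∃ ν, u3M z P (Equiv.swap j l) ν ∈ H ∧ ∀ i, i ≠ j → i ≠ l → ν i = 0
  have w0 : Sw q q.rev := ⟨0, by
    rw [u.sw (D.ho q), ← u.e1 D.hq]
    exact u3S.all hφ h2 u.tr he s0 s1 (by simp [u3_er h2]) (by simpa using s0.smul 0)
      (by simp [one_add_one_eq_two, h2]), fun _ _ _ => rfl⟩
  have w1 : ∀ {j l π ν}, Sw j l → u3M z P π ν ∈ H → Sw (π j) (π l) := by
    rintro j l π ν ⟨μ, m, o⟩ m'
    refine ⟨fun i => ν (Equiv.swap j l (π⁻¹ i)) + μ (π⁻¹ i) - ν (π⁻¹ i),
      (mul_mem_cancel_right m').1 ?_, fun i a b => ?_⟩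
    · convert mul_mem m' m using 1
      rw [u3M_mul, u3M_mul, Equiv.mul_swap_eq_swap_mul]
      exact u3M_congr (fun _ => rfl) fun i => by simp
    · have a' : π⁻¹ i ≠ j := fun e => a (by simp [← e])
      have b' : π⁻¹ i ≠ l := fun e => b (by simp [← e])
      simp only [Equiv.swap_apply_of_ne_of_ne a' b', o _ a' b', add_zero, sub_self]
  have tr : ∀ {π ν j}, u3M z P π ν ∈ H → π q = q → π q.rev = q.rev → ν q = 0 → ν q.rev = 0 →
      u3S φ H (u3e K q.rev) (u3y P j) → u3S φ H (u3e K q.rev) (u3y P (π j)) := by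
    intro π ν j m a b c d h
    have := (h.map hφ u.fx m (by simp [u.e1 D.hq, mulVec_add, u3M_y, a, b, c, d])).smul
      ((z ^ ν j)⁻¹ : Kˣ)
    rwa [u3M_y, smul_smul, Units.inv_mul, one_smul] at this
  have w2 : ∀ i : ℕ, Sw ((g ^ i) p) ((g ^ (i + 1)) p) := fun i => by
    induction i with
    | zero => simpa [D.d1.2.1, D.d1.2.2.2, D.g1.1] using w1 w0 hd
    | succ i ih => simpa only [pow_succ', Equiv.Perm.mul_apply] using w1 ih hg
  have y1 : ∀ i < m, u3S φ H (u3e K q.rev) (u3y P ((g ^ i) p)) := fun i hi => by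
    induction i with
    | zero =>
      rw [pow_zero, Equiv.Perm.one_apply, u3y, (u.hy p D.hp).1]
      exact s0.add hφ h2 he (s1.smul _)
    | succ i ih =>
      obtain ⟨ν, m, o⟩ := w2 i
      have a := D.av i (by omega)
      have b := D.av _ hi
      simpa using tr m (Equiv.swap_apply_of_ne_of_ne a.1.symm b.1.symm)
        (Equiv.swap_apply_of_ne_of_ne a.2.symm b.2.symm) (o _ a.1.symm b.1.symm)
        (o _ a.2.symm b.2.symm) (ih (by omega))
  have y2 : ∀ k, k ≠ q → k ≠ q.rev → u3S φ H (u3e K q.rev) (u3y P k) := fun k a b => by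
    obtain ⟨i, hi, rfl | rfl⟩ := D.cov k a b
    · exact y1 i hi
    · have := mul_mem hd (hψ mw)
      rw [hw, u3M_mul] at this
      exact tr (π := d * σ) this (by simp [D.s3, D.d1]) (by simp [D.s3, D.d1]) rfl rfl (y1 i hi)
  refine u3_one hφ h2 u.tr (i := q.rev) (j := p) (by simpa using (D.ho q).symm) D.pq'
    (by simpa using D.pq) (fun k a b => ?_) u.fx hg ?_ k l
  · rw [Fin.rev_rev] at b
    have a1 := y2 k b a
    have a2 := y2 k.rev (fun e => a (by rw [← e, Fin.rev_rev])) fun e => b (Fin.rev_injective e)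
    rcases lt_or_gt_of_ne (D.ho k) with c | c
    · rw [u.e0 c]
      exact (a1.smul _).add hφ h2 he (a2.smul _)
    · have := u.e1 (k := k.rev) (by rwa [Fin.rev_rev])
      rw [Fin.rev_rev] at this
      rw [this]
      exact a2.add hφ h2 he a1
  · rw [← u3_er (φ := φ) h2 (_ *ᵥ _), u.e1 D.hq]
    simp [mulVec_add, u3M_y, bu_add_left, bu_add_right, bu_smul_left, u.bu, D.g1, D.ho q, zpow_ne_zero]

theorem u3_main [Finite K] (ne : φ ≠ RingHom.id K) (hr : 5 ≤ r) (sp : Spn ((z : K) ^ 4))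
    (z1 : (z : K) ^ 4 ≠ 1) : IsLeast {n | Good (chev (CartanMatrix.A r) Fin.revPerm φ) n} 3 := by
  have h2 := u.two
  have hφ := u.inv
  have r3 : 3 ≤ r := by omega
  have qp : q ≠ p.rev := fun e => D.pq' (by rw [e, Fin.rev_rev])
  obtain ⟨ψ, hx', hz', hw⟩ := u3_psi (φ := φ) h2 (D.ho p) (D.ho q) D.pq D.pq'
  have hx : ∀ s, ψ (mx s) = u3X φ q.rev p s := fun s => (hx' s).trans (u3X_hei h2 _ _ _)
  have hz : ∀ s, ψ (mz s) = u3X φ p.rev q s := fun s => (hz' s).trans (u3X_hei h2 _ _ _)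
  rw [Equiv.ext D.s0, ← u.perm D.s1 D.s2 D.ho] at hw
  have mψ : ∀ A, ψ A ∈ sug r φ := sl2_gen
    (fun s => hx' s ▸ hei_mem hφ (fun _ => ne) (Off.single (by simpa using (D.ho q).symm) D.pq'
      (by simpa using D.pq) s) (by simp only [Trc, Fin.val_rev, Nat.reduceSubDiff, mul_zero, Fin.rev_rev, map_zero, add_zero, bu_single_left, ne_eq, (D.ho p).symm, not_false_eq_true, Pi.single_eq_of_ne]))
    fun s => hz' s ▸ hei_mem hφ (fun _ => ne) (Off.single (by simpa using (D.ho p).symm) qp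
      (by simpa using D.pq.symm) s) (by simp only [Trc, Fin.val_rev, Nat.reduceSubDiff, mul_zero, Fin.rev_rev, map_zero, add_zero, bu_single_left, ne_eq, (D.ho q).symm, not_false_eq_true, Pi.single_eq_of_ne])
  have c1 : q.rev.rev ≠ q.rev := by simpa using D.ho q
  have c2 : q.rev.rev ≠ p := by simpa using D.pq.symm
  have c3 : p.rev.rev ≠ p.rev := by simpa using D.ho p
  have c4 : p.rev.rev ≠ q := by simpa using D.pq
  have act : ∀ {π ν}, π p = p ∧ π q = q ∧ π p.rev = p.rev ∧ π q.rev = q.rev → ν p = ν p.rev →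
      ν q = ν q.rev → Act ψ (u3M z P π ν) !![((z ^ (ν p - ν q) : Kˣ) : K), 0; 0, 1] := by
    rintro π ν ⟨a, b, c, d⟩ e f
    have k1 := u.pair D.hp D.hp (g := u3M z P π ν) (c := (z ^ ν p : Kˣ)) (by rw [u3M_y, a])
      (by rw [u3M_y, c, e])
    have k2 := u.pair D.hq D.hq (g := u3M z P π ν) (c := (z ^ ν q : Kˣ)) (by rw [u3M_y, b])
      (by rw [u3M_y, d, f])
    refine act_diag (Units.ne_zero _) (fun s => ?_) fun s => ?_
    · rw [hx, hx, u3X_conj hφ h2 c1 c2 u.fx k2.2 k1.1, u.zz, ← Units.val_mul, ← _root_.zpow_add,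
        neg_add_eq_sub]
    · rw [hz, hz, u3X_conj hφ h2 c3 c4 u.fx k1.2 k2.1, u.zz, ← Units.val_mul, ← _root_.zpow_add,
        div_eq_mul_inv, mul_comm s, ← Units.val_inv_eq_inv_val, ← _root_.zpow_neg, neg_sub,
        neg_add_eq_sub]
  have ad : Act ψ (u3M z P d 0) !![0, -1⁻¹; 1, 0] := by
    have k1 := u.pair D.hp D.hq (g := u3M z P d 0) (c := 1) (by simp [u3M_y, D.d1])
      (by simp [u3M_y, D.d1])
    have k2 := u.pair D.hq D.hp (g := u3M z P d 0) (c := 1) (by simp [u3M_y, D.d1])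
      (by simp [u3M_y, D.d1])
    refine act_anti one_ne_zero (fun s => ?_) fun s => ?_
    · rw [hx, hz, u3X_conj hφ h2 c3 c4 u.fx k2.2 k1.1]; simp
    · rw [hx, hz, u3X_conj hφ h2 c1 c2 u.fx k1.2 k2.1]; simp
  let T : Subgroup (GL (Fin (r + 1)) K) :=
    { carrier := {t | ∃ ν, ν p = ν p.rev ∧ ν q = ν q.rev ∧ t = u3M z P 1 ν}
      one_mem' := ⟨0, rfl, rfl, (u3M_one (fun _ => rfl) fun _ => rfl).symm⟩
      mul_mem' := by
        rintro _ _ ⟨ν, a, b, rfl⟩ ⟨ν', a', b', rfl⟩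
        exact ⟨ν + ν', by simp [a, a'], by simp [b, b'], u3M_mul⟩
      inv_mem' := by
        rintro _ ⟨ν, a, b, rfl⟩
        exact ⟨-ν, by simp [a], by simp [b], inv_eq_of_mul_eq_one_right
          (u3M_mul.trans (u3M_one (fun _ => rfl) fun _ => add_neg_cancel _))⟩ }
  have nT : ∀ {π : Equiv.Perm (Fin (r + 1))}, (∀ k, π (π k) = k) →
      (π p = p ∧ π q = q ∧ π p.rev = p.rev ∧ π q.rev = q.rev ∨
        π p = q ∧ π q = p ∧ π p.rev = q.rev ∧ π q.rev = p.rev) →
      u3M z P π 0 ∈ normalizer (T : Set _) := fun {π} i h => mem_normalizer_fintype (by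
    rintro _ ⟨ν, a, b, rfl⟩
    refine ⟨fun k => ν (π k), by rcases h with h | h <;> simp [h, a, b],
      by rcases h with h | h <;> simp [h, a, b], ?_⟩
    rw [mul_inv_eq_iff_eq_mul, u3M_mul, u3M_mul]
    exact u3M_congr (fun _ => rfl) fun k => by simp [i])
  have eτ : u3M z P g ν ^ m = u3M z P 1 fun i => ∑ k ∈ Finset.range m, ν ((g ^ k) i) :=
    (u3M_pow m).trans (u3M_congr D.gm fun _ => rfl)
  have t1 := (D.t1 _ (.inl rfl)).trans (D.t1 _ (.inr rfl)).symm
  have t2 := (D.t2 _ (.inl rfl)).trans (D.t2 _ (.inr rfl)).symm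
  have aτ := act (π := 1) (ν := fun i => ∑ k ∈ Finset.range m, ν ((g ^ k) i)) (by simp) t1 t2
  have ab := act (ν := 0) D.b1 rfl rfl
  simp only [D.t1 _ (.inl rfl), D.t2 _ (.inl rfl), Int.reduceNeg, Int.reduceSub, zpow_ofNat,
    Units.val_pow_eq_pow_val, Pi.zero_apply, sub_self, pow_zero, Units.val_one] at aτ ab
  have dd : u3M z P d 0 * u3M z P d 0 = 1 := u3M_mul.trans (u3M_one D.dd fun _ => rfl)
  obtain ⟨S, hS⟩ := r1m ψ (T := T) (mul_one 1)
    (sol_two h2 (pow_ne_zero _ z.ne_zero) z1 (by simp)) sp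
    (by
      rintro _ ⟨ν, -, -, rfl⟩ _ ⟨ν', -, -, rfl⟩ _ -
      rw [commutatorElement_eq_one_iff_mul_comm.2 (by
        rw [u3M_mul, u3M_mul]; exact u3M_congr (fun _ => rfl) fun _ => add_comm _ _)]
      exact Commute.one_left _)
    (hw ▸ nT D.ss (.inr D.s3))
    (fun a => mem_normalizer_fintype (by
      rintro _ ⟨ν, a1, a2, rfl⟩
      have := (act (π := 1) (by simp) a1 a2).2 (mdg a) (mdg a) (by simp [mdg, mul_comm])
      rw [mul_inv_eq_iff_eq_mul] at this
      rw [← this, mul_inv_cancel_right]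
      exact ⟨ν, a1, a2, rfl⟩))
    ⟨_, t1, t2, rfl⟩ aτ (nT D.dd (.inr D.d1)) ad (nT D.bb (.inl D.b1)) ab
    (by
      rw [hw, u3M_mul, u3M_mul, u3M_one (π := b * σ * (b * σ)) D.bs (by simp)]
      exact sc_one)
    (by
      rw [inv_eq_of_mul_eq_one_right dd, u3M_mul, u3M_mul, u3M_mul,
        u3M_one (by simp [D.db, D.dd, D.bb]) (by simp)]
      exact sc_one)
  obtain ⟨cm, gen⟩ := hS _ rfl
  have m0 : ∀ π, u3M z P π 0 ∈ sug r φ := fun π => u.mem r3 ne (by simp)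
  refine goodSU (by omega) hφ (fun _ => ne) (sug_ns r3 hφ (.inl hr)) (m0 d)
    (mul_mem (mul_mem (mψ S) (mul_mem (m0 b) (mψ mw))) (inv_mem (mψ S)))
    (mul_mem (m0 d) (u.mem (π := g) r3 ne D.n0)) (mul_mem (mψ S) (m0 e))
    (u.mem (π := c) r3 ne D.m0) (dd ▸ sc_one) (sc_of_eq ?_) (sc_of_eq ?_) cm
    fun H _ m1 m2 m3 i => ?_
  · have : u3M z P b 0 * ψ mw * u3M z P e 0 = u3M z P e 0 * u3M z P d 0 := by
      rw [hw, u3M_mul, u3M_mul, u3M_mul]
      exact u3M_congr (fun k => (D.eb k).symm) fun _ => rfl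
    rw [eq_mul_inv_of_mul_eq this]
    group
  · rw [eq_mul_inv_iff_mul_eq, u3M_mul, u3M_mul, u3M_mul]
    exact u3M_congr (fun k => (D.ec k).1.symm) fun k => by simp [(D.ec k).2]
  · have m4 := (mul_mem_cancel_left m1).1 m3
    obtain ⟨m5, m6⟩ := gen H (eτ ▸ pow_mem m4 m) m1 m2
    exact ⟨u3_gen u D hx hz hw m5 m1 m6 m4 _ _, u3_gen u D hx hz hw m5 m1 m6 m4 _ _⟩

end Main

theorem u3_d5 : U3D (r := 5) 0 1 (c[0, 1] * c[4, 5]) (c[0, 1] * c[4, 5] * c[2, 3]) c[2, 3]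
    (c[0, 5, 2] * c[1, 3, 4]) c[1, 4, 3] 1 ![2, 0, 0, 0, -2, 0] ![-1, 1, 0, 0, 0, 0] 3 := by
  constructor <;> decide +kernel

theorem u3_d7 : U3D (r := 7) 0 1 (c[0, 1] * c[6, 7]) (c[0, 1] * c[6, 7] * c[2, 3] * c[4, 5])
    (c[2, 5] * c[3, 4]) (c[0, 7, 2, 5] * c[1, 4, 3, 6]) c[1, 6, 3, 4] c[3, 5]
    ![0, -2, 0, 0, 0, 2, 0, 0] ![0, 0, 0, 0, 1, -1, 0, 0] 4 := by
  constructor <;> decide +kernel

theorem u3_d11 : U3D (r := 11) 0 1 (c[0, 1] * c[10, 11])
    (c[0, 1] * c[10, 11] * c[2, 3] * c[8, 9] * c[4, 5] * c[6, 7])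
    (c[2, 9] * c[3, 8] * c[4, 7] * c[5, 6]) (c[0, 11, 2, 9, 4, 7] * c[1, 6, 5, 8, 3, 10])
    c[1, 10, 3, 8, 5, 6] (c[3, 9] * c[5, 7]) ![0, -2, 0, 0, 0, 0, 0, 2, 0, 0, 0, 0]
    ![0, 0, 0, 0, 0, 0, 1, -1, 0, 0, 0, 0] 6 := by
  constructor <;> decide +kernel

theorem tUe [Finite K] (hφ : ∀ s, φ (φ s) = s) (ne : φ ≠ RingHom.id K) (h : (2 : K) = 0) {r : ℕ}
    (hr : r = 5 ∨ r = 7 ∨ r = 11) :
    IsLeast {n | Good (chev (CartanMatrix.A r) Fin.revPerm φ) n} 3 := by
  obtain ⟨α, tr⟩ := monb_tr hφ (.inl ne)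
  obtain ⟨z, nm, -, -, -, -, sp⟩ := norm_gen hφ ne
  have : CharP K 2 := CharTwo.of_one_ne_zero_of_two_eq_zero one_ne_zero h
  have := Fintype.ofFinite K
  have ev : Nat.card K % 2 = 0 :=
    Nat.card_eq_fintype_card (α := K) ▸ FiniteField.even_card_of_char_two (ringChar.eq K 2)
  replace sp := sp (by omega) (by omega)
  have z1 : z ^ 4 ≠ 1 := fun e => ne (RingHom.ext fun s => ?_)
  · have z0 : z ≠ 0 := fun e => by simp [e] at nm
    lift z to Kˣ using z0.isUnit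
    rcases hr with rfl | rfl | rfl
    · obtain ⟨P, u⟩ := u3_ex hφ h u3_d5.ho tr nm
      exact u3_main u u3_d5 ne le_rfl sp z1
    · obtain ⟨P, u⟩ := u3_ex hφ h u3_d7.ho tr nm
      exact u3_main u u3_d7 ne (by norm_num) sp z1
    · obtain ⟨P, u⟩ := u3_ex hφ h u3_d11.ho tr nm
      exact u3_main u u3_d11 ne (by norm_num) sp z1
  · exact sp.ind (P := fun s => φ s = s) (fun s t a b => by rw [map_add, a, b]) one_ne_zero
      (map_one φ) (fun s a => by rw [e, one_mul, a]) s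

end Pool.Agent.MP_c78e8e_al.H75

end

section

namespace Pool.Agent.MP_c78e8e_al.H75

open Subgroup Matrix
open scoped commutatorElement

variable {r : ℕ} {K : Type} [Field K] {φ : K →+* K} {H : Subgroup (GL (Fin (r + 1)) K)}
  {i j k l : Fin (r + 1)}

/-- Two indices in different hyperbolic pairs. -/
abbrev u2D (i j : Fin (r + 1)) : Prop := i ≠ j ∧ j ≠ i.rev

theorem u2_ne (ho : Odd r) (i : Fin (r + 1)) : i ≠ i.rev := fun e => by
  have := x3_rv i
  rw [← e] at this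
  obtain ⟨n, hn⟩ := ho
  omega

theorem u2D.a (h : u2D i j) : i ≠ j.rev := fun e => h.2 (by rw [e, Fin.rev_rev])

theorem u2D.b (h : u2D i j) : i.rev ≠ j.rev := fun e => h.1 (Fin.rev_injective e)

/-- Short root elements. -/
def u2y (φ : K →+* K) (i j : Fin (r + 1)) (s : K) : GL (Fin (r + 1)) K :=
  el i j s * el j.rev i.rev (-(-1) ^ ((i : ℕ) + j) * φ s)

theorem u2_ev (p : Even ((i : ℕ) + j)) (s : K) : x3s φ i j s = u2y φ i j s := by
  rw [u2y, x3s, p.neg_one_pow, neg_mul, one_mul]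

theorem u2_rt (hφ : ∀ s, φ (φ s) = s) (ho : Odd r) (h : u2D i j) :
    rt φ i j ⊆ H ↔ ∀ s, u2y φ i j s ∈ H :=
  ⟨fun p s => p ((rt_short hφ h.1 h.2 (u2_ne ho i) (u2_ne ho j) _).2 ⟨s, rfl⟩), fun p g hg => by
    obtain ⟨s, rfl⟩ := (rt_short hφ h.1 h.2 (u2_ne ho i) (u2_ne ho j) _).1 hg
    exact p s⟩

theorem u2_fx (hφ : ∀ s, φ (φ s) = s) (ho : Odd r) (h : u2D i j) (s : K) : Fx φ (u2y φ i j s) :=
  (u2_rt (H := x3U φ) hφ ho h).1 (fun _ p => p.1) s

theorem u2_cm (h1 : j ≠ k) (h2 : l ≠ i) (h3 : j ≠ l.rev) (h4 : k.rev ≠ i) (s s' t t' : K) :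
    Commute (el i j s * el j.rev i.rev s') (el k l t * el l.rev k.rev t') :=
  ((el_comm h1 h2 _ _).mul_right (el_comm h3 h4 _ _)).mul_left
    ((el_comm (fun e => h4 (by rw [← e, Fin.rev_rev])) (fun e => h3 (by rw [e, Fin.rev_rev])) _ _).mul_right
      (el_comm (fun e => h2 (Fin.rev_injective e).symm) (fun e => h1 (Fin.rev_injective e).symm) _ _))

theorem u2_rel (ho : Odd r) (a : u2D i j) (b : u2D j k) (c : u2D i k) (s t : K) :
    ⁅u2y φ i j s, u2y φ j k t⁆ = u2y φ i k (s * t) := by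
  rw [u2y, u2y, u2y, mona_cc (el_comm (u2_ne ho j) (u2_ne ho i).symm _ _)
    (el_comm b.a a.a.symm _ _) (el_comm b.2 a.2.symm _ _)
    (el_comm (u2_ne ho k) (u2_ne ho j).symm _ _), el_rel a.1 b.1 c.1,
    el_rel' b.b.symm a.b.symm c.b.symm, map_mul, pow_add, pow_add, pow_add]
  congr 2
  linear_combination (-(-1) ^ (i : ℕ) * (-1) ^ (k : ℕ) * φ s * φ t) * natb1_sq (K := K) j

theorem u2_cj {π : Equiv.Perm (Fin (r + 1))} {z : Fin (r + 1) → Kˣ} (f : Fx φ (mon π z))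
    (hπ : ∀ i, π i.rev = (π i).rev) (m : mon π z ∈ H) (h : rt φ (π i) (π j) ⊆ H) :
    rt φ i j ⊆ H := fun g hg => by
  have : mon π z * g * (mon π z)⁻¹ ∈ H := h ⟨(f.mul hg.1).mul f.inv, by
    refine closure_induction (p := fun g _ => mon π z * g * (mon π z)⁻¹ ∈ Subgroup.closure _)
      (fun x hx => subset_closure ?_) (by simp) (fun x y _ _ p q => ?_) (fun x _ p => ?_) hg.2
    · rcases hx with ⟨s, rfl⟩ | ⟨s, rfl⟩
      · exact Or.inl ⟨_, (mon_el _ _ _ _ _).symm⟩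
      · exact Or.inr ⟨_, by rw [mon_el, hπ, hπ]⟩
    · rw [← conj_mul]; exact mul_mem p q
    · rw [← conj_inv]; exact inv_mem p⟩
  exact (mul_mem_cancel_left m).1 ((mul_mem_cancel_right (inv_mem m)).1 this)

theorem u2_fin (hr : 3 ≤ r) (ho : Odd r) (hφ : ∀ s, φ (φ s) = s) (h2 : (2 : K) ≠ 0)
    (h : ∀ j, u2D i j → rt φ j i ⊆ H ∧ rt φ j i.rev ⊆ H) : rt φ k l ⊆ H := by
  have key : ∀ i : Fin (r + 1), (∀ j, u2D i j → rt φ j i.rev ⊆ H) →
      ∀ w, Off i w → ∃ a, Trc φ i w a ∧ hei φ i w a ∈ H := fun i h w o => by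
    refine monb_ind (P := fun w => ∃ a, Trc φ i w a ∧ hei φ i w a ∈ H) o
      ⟨0, by simp only [Trc, mul_zero, Fin.val_rev, Nat.reduceSubDiff, map_zero, add_zero, bu_zero_right], hei_zero (φ := φ) i ▸ one_mem _⟩ fun w j s o p q ⟨a, t, m⟩ => ?_
    have o' := Off.single o.1 p q s
    have t' : Trc φ i (Pi.single j s) 0 := by simp only [Trc, mul_zero, Fin.val_rev, Nat.reduceSubDiff, map_zero, add_zero, bu_single_left, ne_eq, (u2_ne ho j).symm, not_false_eq_true, Pi.single_eq_of_ne]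
    refine ⟨_, monb_trc_mul hφ o o' t t', ?_⟩
    rw [← hei_mul o o']
    refine mul_mem m (h j ⟨p.symm, q⟩ ⟨hei_fx hφ o' t', ?_⟩)
    rw [hei_single o.1 p q, el_zero, mul_one]
    exact mul_mem (subset_closure (Or.inl ⟨_, rfl⟩)) (subset_closure (Or.inr ⟨_, by rw [Fin.rev_rev]⟩))
  exact gen_hei hr hφ (fun e => absurd e (Nat.not_even_iff_odd.2 ho)) (Or.inr h2) (u2_ne ho i)
    (key i fun j p => (h j p).2) (fun w o => key i.rev (fun j p => by
      rw [Fin.rev_rev]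
      exact (h j ⟨fun e => p.2 (by rw [e, Fin.rev_rev]), p.1.symm⟩).1) w o.rev) k l

theorem u2_one (φ : K →+* K) (ho : Odd r) (h : u2D i j) :
    ∃ ψ : SL2 K →* GL (Fin (r + 1)) K, (∀ s, ψ (mx s) = x3s φ i j s) ∧
      (∀ s, ψ (mz s) = x3s φ j i (-s)) ∧ ψ mw = x3w K i j * x3w K i.rev j.rev ∧
      ∀ a, ψ (mdg a) = mon 1 (Pi.mulSingle i a * Pi.mulSingle j a⁻¹ *
        (Pi.mulSingle i.rev (Units.map φ a)⁻¹ * Pi.mulSingle j.rev (Units.map φ a))) := by
  obtain ⟨t, t1, t2, t3, t4⟩ := x3_aut φ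
  obtain ⟨a, a1, a2, a3, a4⟩ := psi_el (K := K) h.1
  obtain ⟨b, b1, b2, b3, b4⟩ := psi_el (K := K) h.b
  obtain ⟨f, hf⟩ := x3_prod a (b.comp t) fun A B =>
    x3_cm a1 a2 b1 b2 (u2_ne ho i) h.a h.2 (u2_ne ho j) _ _
  refine ⟨f, fun s => ?_, fun s => ?_, ?_, fun u => ?_⟩ <;>
    simp only [hf, MonoidHom.comp_apply, t1, t2, t3, t4, a1, a2, a3, a4, b1, b2, b3, b4, x3s, x3w,
      map_neg, neg_neg, mon_one_mul, inv_inv]

theorem u2_fix (hφ : ∀ s, φ (φ s) = s) (ho : Odd r) (h : u2D i j) (p : Even ((i : ℕ) + j))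
    (h2 : (2 : K) ≠ 0) {π : Equiv.Perm (Fin (r + 1))} {z : Fin (r + 1) → Kˣ} (p1 : π i = j)
    (p2 : π j = i) (p3 : π i.rev = j.rev) (p4 : π j.rev = i.rev) (z1 : z i = z j)
    (z2 : z i.rev = z j.rev) (δ : Kˣ) :
    ∃ ρ, Fx φ ρ ∧ ρ.1.det * φ δ = δ ∧ Commute (mon π z) ρ := by
  obtain ⟨ψ, q1, q2, -, q4⟩ := u2_one φ ho h
  have h' : u2D j i := ⟨h.1.symm, h.a⟩
  have n := u2_ne ho i
  have n' := u2_ne ho j
  have f0 : φ δ ≠ 0 := (map_ne_zero φ).2 δ.ne_zero
  let A : SL2 K := ⟨!![(δ + 1) / 2 / δ, (δ - 1) / 2 / δ; (δ - 1) / 2, (δ + 1) / 2], by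
    simp only [det_fin_two, Fin.isValue, of_apply, cons_val', cons_val_zero, cons_val_fin_one, cons_val_one]; field_simp; ring⟩
  let D : GL (Fin (r + 1)) K := mon 1 (Pi.mulSingle i δ * Pi.mulSingle i.rev (Units.map φ δ)⁻¹)
  refine ⟨D * ψ A, (fx_mon (fun _ => rfl) fun k => ?_).mul (sl2_gen (H := x3U φ) (fun s => ?_)
    (fun s => ?_) A), ?_, ?_⟩
  · by_cases c : k = i
    · simp only [c, Pi.mul_apply, Pi.mulSingle_eq_same, ne_eq, n, not_false_eq_true, Pi.mulSingle_eq_of_ne, mul_one, n.symm, one_mul, Units.val_inv_eq_inv_val, Units.coe_map, MonoidHom.coe_coe, map_inv₀, hφ, Equiv.Perm.coe_one, id_eq]; field_simp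
    by_cases c' : k = i.rev
    · simp only [c', Pi.mul_apply, ne_eq, n.symm, not_false_eq_true, Pi.mulSingle_eq_of_ne, Pi.mulSingle_eq_same, one_mul, Units.val_inv_eq_inv_val, Units.coe_map, MonoidHom.coe_coe, Fin.val_rev, Nat.reduceSubDiff, Fin.rev_rev, n, mul_one, Equiv.Perm.coe_one, id_eq]; field_simp
    · have : k.rev ≠ i := fun e => c' (by rw [← e, Fin.rev_rev])
      simp only [Pi.mul_apply, ne_eq, c, not_false_eq_true, Pi.mulSingle_eq_of_ne, c', mul_one, Units.val_one, one_mul, this, Fin.rev_inj, map_one, Equiv.Perm.coe_one, id_eq]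
  · rw [q1, u2_ev p]; exact u2_fx hφ ho h _
  · rw [q2, u2_ev (add_comm (i : ℕ) j ▸ p)]; exact u2_fx hφ ho h' _
  · rw [Units.val_mul, det_mul, slg_det (sl2_gen (fun s => q1 s ▸ mul_mem (el_slg _ _ _) (el_slg _ _ _))
      (fun s => q2 s ▸ mul_mem (el_slg _ _ _) (el_slg _ _ _)) A), mon_det, ← Units.coe_prod]
    simp only [Pi.mul_apply, Finset.prod_mul_distrib, Finset.prod_pi_mulSingle', Finset.mem_univ,
      if_true]
    simp [f0]
  · have ac := (act_anti (ψ := ψ) (g := mon π z) (l := -1) (by simp) (fun s => by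
      rw [q1, q2, x3s, x3s, ← conj_mul, mon_el, mon_el, p1, p2, p3, p4, z1, z2]
      congr 2 <;> simp only [ne_eq, Units.ne_zero, not_false_eq_true, mul_div_cancel_left₀, neg_mul, one_mul, neg_neg, mul_neg] <;> field_simp) fun s => by
      rw [q1, q2, x3s, x3s, ← conj_mul, mon_el, mon_el, p1, p2, p3, p4, z1, z2]
      congr 2 <;> simp only [mul_neg, div_neg, div_one, map_neg, neg_neg, ne_eq, Units.ne_zero, not_false_eq_true, mul_div_cancel_left₀] <;> field_simp).2 A (mdg δ * A) (by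
      ext a b
      fin_cases a <;> fin_cases b <;> simp only [inv_neg, inv_one, neg_neg, Fin.zero_eta, Fin.isValue, Matrix.mul_apply, of_apply, cons_val', cons_val_fin_one, cons_val_zero, Fin.sum_univ_two, zero_mul, cons_val_one, one_mul, zero_add, mdg, Units.val_inv_eq_inv_val, A, Matrix.SpecialLinearGroup.coe_mul, cons_mul, Nat.succ_eq_add_one, Nat.reduceAdd, vecMul_cons, head_cons, smul_cons, smul_eq_mul, smul_empty, tail_cons, zero_smul, empty_vecMul, add_zero, empty_mul, Equiv.symm_apply_apply, mul_zero, mul_one, Fin.mk_one] <;>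
        field_simp)
    have e : mon π z * D = D * (ψ (mdg δ))⁻¹ * mon π z := by
      rw [← map_inv, show (mdg δ)⁻¹ = mdg δ⁻¹ from by
        ext a b; fin_cases a <;> fin_cases b <;> simp only [mdg, Units.val_inv_eq_inv_val, Fin.zero_eta, Fin.isValue, Matrix.SpecialLinearGroup.coe_inv, adjugate_fin_two, of_apply, cons_val', cons_val_one, cons_val_fin_one, cons_val_zero, neg_zero, inv_inv, Fin.mk_one], q4, ← mon_one_mul,
        mon_mul, mon_mul]
      refine mon_congr (by simp) fun k => ?_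
      have e1 : π k = j ↔ k = i := p1 ▸ π.injective.eq_iff
      have e2 : π k = i ↔ k = j := p2 ▸ π.injective.eq_iff
      have e3 : π k = j.rev ↔ k = i.rev := p3 ▸ π.injective.eq_iff
      have e4 : π k = i.rev ↔ k = j.rev := p4 ▸ π.injective.eq_iff
      simp only [Pi.mul_apply, Pi.mulSingle_apply, e1, e2, e3, e4, Equiv.Perm.one_apply, map_inv]
      split_ifs <;> simp only [mul_left_comm, inv_inv, mul_comm, mul_inv_cancel, mul_one, one_mul, mul_inv_cancel_right, mul_inv_cancel_left]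
    rw [Commute, SemiconjBy, ← mul_assoc, e, mul_assoc _ _ (ψ A), mul_inv_eq_iff_eq_mul.1 ac, map_mul]
    group

theorem u2_wrap [Finite K] (hr : 5 ≤ r) (hφ : ∀ s, φ (φ s) = s) (ne : φ ≠ RingHom.id K)
    {d g g' : GL (Fin (r + 1)) K} (md : d ∈ sug r φ) (dd : d * d = 1) (fg : Fx φ g) (fg' : Fx φ g')
    (fix : ∀ δ : Kˣ, ∃ ρ, Fx φ ρ ∧ ρ.1.det * φ δ = δ ∧ Commute d ρ)
    (ab : Sc ((d * (g * d * g⁻¹))⁻¹ * (g * d * g⁻¹ * d)))
    (gen : ∀ H : Subgroup (GL (Fin (r + 1)) K), d ∈ H → g * d * g⁻¹ ∈ H →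
      g' * d * g'⁻¹ ∈ H → ∀ i j : Fin (r + 1), rt φ i j ⊆ H) :
    IsLeast {n | Good (chev (CartanMatrix.A r) Fin.revPerm φ) n} 3 := by
  have key : ∀ s : GL (Fin (r + 1)) K, Fx φ s → ∃ t ∈ sug r φ, t * d * t⁻¹ = s * d * s⁻¹ := by
    intro s fs
    have := x3_det fs
    obtain ⟨δ, δ0, e⟩ := hilbert90 hφ ne (t := φ s.1.det) (by rw [hφ, mul_comm, this])
    obtain ⟨ρ, f, p, c⟩ := fix (Units.mk0 δ δ0)
    refine ⟨s * ρ, mem_sug (by omega) hφ (fun _ => ne) (fs.mul f) ?_, ?_⟩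
    · rw [Units.val_mul, det_mul]
      rw [Units.val_mk0] at p
      apply mul_right_cancel₀ ((map_ne_zero φ).2 δ0)
      linear_combination s.1.det * p - s.1.det * e + φ δ * this
    · rw [_root_.mul_inv_rev, mul_assoc s, mul_assoc s, ← mul_assoc _ _ s⁻¹, ← c.eq,
        mul_inv_cancel_right, mul_assoc]
  obtain ⟨t, ht, e⟩ := key g fg
  obtain ⟨t', ht', e'⟩ := key g' fg'
  exact goodSU (by omega) hφ (fun _ => ne) (natb1_ns5 hr hφ) md
    (mul_mem (mul_mem ht md) (inv_mem ht)) (mul_mem (mul_mem ht' md) (inv_mem ht')) ht ht'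
    (dd ▸ sc_one) (sc_of_eq rfl) (sc_of_eq rfl) (e ▸ ab) fun H _ h1 h2 h3 i =>
      ⟨gen H h1 (e ▸ h2) (e' ▸ h3) _ _, gen H h1 (e ▸ h2) (e' ▸ h3) _ _⟩

theorem u2_det {E : X3G → Kˣ} (h : X3E φ E) {x : X3S r} (p : Equiv.Perm.sign x.1 = 1)
    (q : x3Q (∑ i, x.2 i) 0) : (x3k E x).1.det = 1 := by
  have : ∀ S : Finset (Fin (r + 1)), ∏ i ∈ S, E (x.2 i) = E (∑ i ∈ S, x.2 i) := fun S => by
    induction S using Finset.induction_on with
    | empty => simp [h.zero]
    | insert a S n ih => rw [Finset.prod_insert n, Finset.sum_insert n, h.add, ih]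
  rw [x3k, mon_det, ← Units.coe_prod, this, h.cg q, h.zero, p]
  simp

theorem u2_el {E : X3G → Kˣ} (h : X3E φ E) {x : X3S r} (p : x3At x i k 0) (q : x3At x j l 0)
    (s : K) : x3k E x * el i j s * (x3k E x)⁻¹ = el k l s := by
  rw [x3k, mon_el, p.1, q.1, h.cg p.2, h.cg q.2, h.zero]
  simp

/-- One step of the derivation of root groups. -/
def u2St (P : List (X3S r)) (a b c d : Fin (r + 1)) (L : List (Fin (r + 1) × Fin (r + 1)))
    (i k : Fin (r + 1)) : Bool :=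
  decide (∃ x ∈ P, (x.1 i, x.1 k) ∈ L) || decide ((k.rev, i.rev) ∈ L) ||
    decide (i = a ∧ u2D a k ∧ u2D b k ∧ k ≠ c ∧ d ≠ k.rev ∧ (k = c.rev ∨ (b, k) ∈ L)) ||
    decide (u2D i k ∧ ∃ j, (i, j) ∈ L ∧ (j, k) ∈ L ∧ u2D i j ∧ u2D j k)

/-- Derivations. -/
def u2Ch (P : List (X3S r)) (a b c d : Fin (r + 1)) : List (Fin (r + 1) × Fin (r + 1)) → Bool
  | [] => true
  | p :: L => u2St P a b c d L p.1 p.2 && u2Ch P a b c d L

theorem u2_ch (hφ : ∀ s, φ (φ s) = s) (ho : Odd r) {E : X3G → Kˣ} {P : List (X3S r)}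
    {a b c d : Fin (r + 1)} (hP : ∀ x ∈ P, Fx φ (x3k E x) ∧ (∀ i, x.1 i.rev = (x.1 i).rev) ∧
      x3k E x ∈ H) (ab : u2D a b) (bc : u2D b c) (bd : u2D b d)
    (X : ∀ s, u2y φ a b s * u2y φ c d s ∈ H) {t : K} (t0 : t ≠ 0) (U : u2y φ b c.rev t ∈ H)
    (L : List (Fin (r + 1) × Fin (r + 1))) (h : u2Ch P a b c d L = true) :
    ∀ i k, (i, k) ∈ L → rt φ i k ⊆ H := by
  have cm : ∀ {x y : GL (Fin (r + 1)) K}, x ∈ H → y ∈ H → ⁅x, y⁆ ∈ H := fun p q =>
    mul_mem (mul_mem (mul_mem p q) (inv_mem p)) (inv_mem q)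
  induction L with
  | nil => simp
  | cons p L ih =>
    simp only [u2Ch, u2St, Bool.and_eq_true, Bool.or_eq_true, decide_eq_true_iff] at h
    have ih := ih h.2
    intro i k m
    rcases List.mem_cons.1 m with rfl | m
    swap
    · exact ih i k m
    rcases h.1 with ((⟨x, m, q⟩ | q) | ⟨e, q1, q2, q3, q4, q⟩) | ⟨q1, j, q2, q3, q4, q5⟩
    · exact u2_cj (hP x m).1 (hP x m).2.1 (hP x m).2.2 (ih (x.1 i) (x.1 k) q)
    · exact rt_rev (φ := φ) i k ▸ ih _ _ q
    · obtain ⟨t, t0, U⟩ : ∃ t, t ≠ 0 ∧ u2y φ b k t ∈ H := by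
        rcases q with q | q
        exacts [⟨t, t0, (show k = c.rev from q) ▸ U⟩, ⟨1, one_ne_zero, (u2_rt hφ ho q2).1 (ih _ _ q) 1⟩]
      obtain rfl : i = a := e
      refine (u2_rt hφ ho q1).2 fun s => ?_
      have := cm (X (s / t)) U
      have c : Commute (u2y φ c d (s / t)) (u2y φ b k t) :=
        u2_cm bd.1.symm q3 q4 bc.2.symm _ _ _ _
      rwa [commutatorElement_def, mul_assoc (u2y φ i b _), c.eq, _root_.mul_inv_rev, ← mul_assoc,
        ← mul_assoc, mul_inv_cancel_right, ← commutatorElement_def, u2_rel ho ab q2 q1,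
        div_mul_cancel₀ _ t0] at this
    · refine (u2_rt hφ ho q1).2 fun s => ?_
      rw [← mul_one s, ← u2_rel ho q4 q5 q1]
      exact cm ((u2_rt hφ ho q4).1 (ih _ _ q2) _) ((u2_rt hφ ho q5).1 (ih _ _ q3) _)

/-- Conjugation. -/
def u2c (s d : X3S r) : X3S r := x3m (x3m s d) (x3i s)

/-- The torus element. -/
def u2t (g : X3S r) (o : Bool) : X3S r := if o then x3m g g else x3m (x3m g g) (x3m g g)

/-- The Weyl element of the rank one subgroup. -/
def u2V (a b c e : Fin (r + 1)) : X3S r :=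
  x3m (x3m (x3W a b) (x3W a.rev b.rev)) (x3m (x3W c e) (x3W c.rev e.rev))

/-- The finite conditions on the data. -/
abbrev u2Ok (a b c e i : Fin (r + 1)) (d w sb sc V g t : X3S r)
    (L : List (Fin (r + 1) × Fin (r + 1))) : Prop :=
  (5 ≤ r ∧ Odd r ∧ u2D a b ∧ u2D a c ∧ u2D a e ∧ u2D b c ∧ u2D b e ∧ u2D c e) ∧
  (Even ((a : ℕ) + b) ∧ Even ((c : ℕ) + e) ∧ Even ((b : ℕ) + c) ∧ Odd ((b : ℕ) + c.rev)) ∧
  (x3F d ∧ x3F sb ∧ x3F sc ∧ x3F w ∧ x3F V ∧ x3F (u2c sc d)) ∧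
  (Equiv.Perm.sign d.1 = 1 ∧ x3Q (∑ i, d.2 i) 0) ∧
  (x3SE (x3m d d) (1, 0) ∧ x3SE (x3m (x3m (x3m d w) (x3i d)) w) (1, 0) ∧ x3SE (x3m w V) (u2c sb d)) ∧
  (x3Cj d a b e c (0, 1, 0) ∧ x3Cj d c e b a (0, 1, 0) ∧ x3Cj w a b a b (x3p 1) ∧
    x3Cj w c e c e (x3p 1)) ∧
  ((∀ i, t.1 i = i) ∧ x3Cj t a b a b (1, 0, 0, 1, -1, 0) ∧ x3Cj t c e c e (1, 0, 0, 1, -1, 0)) ∧
  (x3At d b c 0 ∧ x3At d c b 0 ∧ x3At d b.rev c.rev 0 ∧ x3At d c.rev b.rev 0) ∧
  (x3At g b b 0 ∧ x3At g c c 0 ∧ x3At g b.rev b.rev 0 ∧ x3At g c.rev c.rev 0) ∧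
  u2Ch [d, u2c sc d, w, V] a b c e L = true ∧ ∀ j, u2D i j → (j, i) ∈ L ∧ (j, i.rev) ∈ L

theorem u2_core [Finite K] (hφ : ∀ s, φ (φ s) = s) (ne : φ ≠ RingHom.id K) (h2 : (2 : K) ≠ 0)
    {a b c e i : Fin (r + 1)} {d w sb sc : X3S r} {o : Bool} {L : List (Fin (r + 1) × Fin (r + 1))}
    (ok : u2Ok a b c e i d w sb sc (u2V a b c e) (x3m d (u2c sc d)) (u2t (x3m d (u2c sc d)) o) L) :
    IsLeast {n | Good (chev (CartanMatrix.A r) Fin.revPerm φ) n} 3 := by
  obtain ⟨⟨hr, ho, ab, ac, ae, bc, be, ce⟩, ⟨v1, v2, v3, v4⟩, ⟨fd, fb, fc, fw, fV, fc'⟩, ⟨sg, sm⟩,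
    ⟨dd, db, bV⟩, ⟨d1, d2, b1, b2⟩, ⟨t0, t1, t2⟩, ⟨a0, a1, a2, a3⟩, ⟨g0, g1, g2, g3⟩, ch, fin⟩ := ok
  obtain ⟨z, zn, zo, -, sp, -⟩ := norm_gen hφ ne
  have z2 : z ^ 2 ≠ 1 := fun q => by
    have := Nat.le_of_dvd two_pos (orderOf_dvd_of_pow_eq_one q)
    have q1 : 1 < Nat.card (Fix φ) := Finite.one_lt_card
    omega
  have z0 := left_ne_zero_of_mul_eq_one zn
  obtain ⟨κ, κ0, so⟩ := sol_free h2 z0 (fun q => z2 (by simp [q])) (fun q => z2 (by simp only [q, even_two, Even.neg_pow, one_pow]))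
    one_ne_zero
  obtain ⟨α, α0, hα⟩ := hilbert90 hφ ne (t := -z) (by simpa only [map_neg, mul_neg, neg_mul, neg_neg] using zn)
  obtain ⟨β, hβ⟩ := norm_surj hφ ne (t := -1) (by simp only [map_neg, map_one])
  obtain ⟨E, hE, Eκ, Eα⟩ := x3_ev hφ (Units.mk0 κ κ0)⁻¹ (Units.mk0 α α0)
    (Units.mk0 β fun q => by simp [q] at hβ) hβ
  have Em : (E (x3p 1) : K) = -1 := by simp [hE.par]
  have Ez : (E (1, 0, 0, 1, -1, 0) : K) = z := by
    rw [show ((1, 0, 0, 1, -1, 0) : X3G) = x3p 1 + (0, 0, 0, 1, -1, 0) from rfl, hE.add,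
      Units.val_mul, Em, Eα, neg_one_mul, neg_eq_iff_eq_neg,
      div_eq_iff ((map_ne_zero φ).2 (Units.ne_zero _))]
    exact hα.symm
  have Ek : (E (0, 1, 0) : K) = κ⁻¹ := by simp [Eκ]
  obtain ⟨ψ1, p1, p2, p3, p4⟩ := u2_one φ ho ab
  obtain ⟨ψ2, s1, s2, s3, s4⟩ := u2_one φ ho ce
  obtain ⟨ψ, hψ⟩ := x3_prod ψ1 ψ2 fun A B => sl2_comm
    (fun s => (sl2_comm (fun t => by rw [p1, s1]; exact x3_sc2 ae.1.symm bc.1 be.2 ac.2.symm _ _)
      (fun t => by rw [p2, s1]; exact x3_sc2 be.1.symm ac.1 ae.2 bc.2.symm _ _) A).symm)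
    (fun s => (sl2_comm (fun t => by rw [p1, s2]; exact x3_sc2 ac.1.symm be.1 bc.2 ae.2.symm _ _)
      (fun t => by rw [p2, s2]; exact x3_sc2 bc.1.symm ae.1 ac.2 be.2.symm _ _) A).symm) B
  have q1 : ∀ s, ψ (mx s) = x3s φ a b s * x3s φ c e s := fun s => by rw [hψ, p1, s1]
  have q2 : ∀ s, ψ (mz s) = x3s φ b a (-s) * x3s φ e c (-s) := fun s => by rw [hψ, p2, s2]
  have hV : ψ mw = x3k E (u2V a b c e) := by simp only [hψ, p3, s3, u2V, hE.mul, hE.w]
  have kc : ∀ s, x3k E (u2c s d) = x3k E s * x3k E d * (x3k E s)⁻¹ := fun s => by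
    simp only [u2c, hE.mul, hE.inv]
  have DD : x3k E d * x3k E d = 1 := by rw [← hE.mul, hE.one dd]
  have B0 : x3k E w * ψ mw = x3k E sb * x3k E d * (x3k E sb)⁻¹ := by
    rw [hV, ← hE.mul, hE.se bV, kc]
  have dg : ∀ {x : X3S r} {y : X3G}, x3Cj x a b a b y → x3Cj x c e c e y →
      Act ψ (x3k E x) !![(E y : K), 0; 0, 1] := fun u v => act_diag (Units.ne_zero _)
    (fun s => by rw [q1, q1, ← conj_mul, (hE.cj u _).1, (hE.cj v _).1])
    (fun s => by rw [q2, q2, ← conj_mul, (hE.cj u _).2, (hE.cj v _).2, neg_div])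
  have ad : Act ψ (x3k E d) !![0, 1 * κ; 1, 0] := by
    have := act_anti (ψ := ψ) (g := x3k E d) (l := -κ⁻¹) (by simpa using κ0)
      (fun s => by
        rw [q1, q2, ← conj_mul, (hE.cj d1 _).1, (hE.cj d2 _).1, Ek, neg_mul, neg_neg]
        exact x3_sc2 bc.1.symm ae.1 ac.2 be.2.symm _ _)
      (fun s => by
        rw [q1, q2, ← conj_mul, (hE.cj d1 _).2, (hE.cj d2 _).2, Ek, div_neg, neg_div]
        exact x3_sc2 ae.1.symm bc.1 be.2 ac.2.symm _ _)
    simpa using this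
  obtain ⟨S, hS⟩ := r1m ψ (T := dgl) (τ := x3k E (u2t (x3m d (u2c sc d)) o)) (d := x3k E d)
    (b := x3k E w) (by simp) so sp dgl_nil (hV ▸ mon_norm _ _)
    (fun u => by rw [hψ, p4, s4]; exact mul_mem (mon_norm _ _) (mon_norm _ _)) (mon_dgl t0 _)
    (Ez ▸ dg t1 t2) (mon_norm _ _) ad (mon_norm _ _) (Em ▸ dg b1 b2)
    (by rw [B0, conj_mul, DD, mul_one, mul_inv_cancel]; exact sc_one)
    (by rw [← hE.inv, ← hE.mul, ← hE.mul, ← hE.mul, hE.one db]; exact sc_one)
  have fψ : ∀ A, Fx φ (ψ A) := sl2_gen (H := x3U φ) (fun s => by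
      rw [q1, u2_ev v1, u2_ev v2]; exact (u2_fx hφ ho ab _).mul (u2_fx hφ ho ce _)) fun s => by
    rw [q2, u2_ev (add_comm (a : ℕ) b ▸ v1), u2_ev (add_comm (c : ℕ) e ▸ v2)]
    exact (u2_fx hφ ho ⟨ab.1.symm, ab.a⟩ _).mul (u2_fx hφ ho ⟨ce.1.symm, ce.a⟩ _)
  obtain ⟨t, t0', ht⟩ := skew_ex hφ ne
  obtain ⟨U, hU⟩ : ∃ U : K → GL (Fin (r + 1)) K, ∀ s, U s = el b c.rev s * el c b.rev (-s) :=
    ⟨_, fun _ => rfl⟩
  have cU : ∀ s s' : K, Commute (el b c.rev s) (el c b.rev s') := fun s s' =>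
    el_comm (u2_ne ho c).symm (u2_ne ho b).symm _ _
  have Ua : ∀ s s', U s * U s' = U (s + s') := fun s s' => by
    rw [hU, hU, hU, neg_add, el_add, el_add, (cU _ _).symm.mul_mul_mul_comm]
  have U0 : U 0 = 1 := by simp [hU]
  have Un : ∀ (s : K) (k : ℕ), U s ^ k = U (k * s) := fun s k => by
    induction k with
    | zero => simp [U0]
    | succ k ih => rw [pow_succ, ih, Ua, Nat.cast_succ, add_mul, one_mul]
  have Uy : ∀ s, φ s = -s → U s = u2y φ b c.rev s := fun s p => by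
    rw [hU, u2y, Fin.rev_rev, v4.neg_one_pow, p, neg_neg, one_mul]
  have fU : Fx φ (U t) := Uy t ht ▸ u2_fx hφ ho ⟨bc.a, bc.b.symm⟩ _
  have Ui : (U t)⁻¹ = U (-t) := by rw [inv_eq_iff_mul_eq_one, Ua, add_neg_cancel, U0]
  have FD := hE.fx fd
  obtain ⟨G, hG⟩ : ∃ G, G = x3k E (x3m d (u2c sc d)) := ⟨_, rfl⟩
  have GU : ∀ s, Commute G (U s) := fun s => by
    rw [Commute, SemiconjBy, ← mul_inv_eq_iff_eq_mul, hU, ← conj_mul, hG, u2_el hE g0 g3,
      u2_el hE g1 g2]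
  have DU : x3k E d * U (-t) * (x3k E d)⁻¹ = U t := by
    rw [hU, hU, ← conj_mul, u2_el hE a0 a3, u2_el hE a1 a2, neg_neg, (cU _ _).eq]
  have dc : x3k E d * ((U t)⁻¹ * x3k E sc * x3k E d * ((U t)⁻¹ * x3k E sc)⁻¹) = G * U (t + t) := by
    rw [← Ua, ← mul_assoc G, (GU _).eq]
    rw [show U t * G = x3k E d * (U t)⁻¹ * (x3k E d)⁻¹ * G by rw [Ui, DU], hG, hE.mul, kc]
    group
  have GN : G ^ (4 * Nat.card Kˣ) = 1 := by
    have : x3k E (u2t (x3m d (u2c sc d)) o) ^ Nat.card Kˣ = 1 := by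
      obtain ⟨t, ht⟩ := mem_dgl.1 (mon_dgl t0 fun i => E ((u2t (x3m d (u2c sc d)) o).2 i))
      rw [x3k, ht, mon_one_pow]
      exact mon_eq_one (fun _ => rfl) fun _ => pow_card_eq_one'
    cases o <;> simp only [u2t, if_true, if_false, Bool.false_eq_true, hE.mul _ (x3m d _),
      hE.mul (x3m (x3m d _) _), ← hG] at this
    · rw [show 4 = 2 * 2 from rfl, pow_mul, pow_mul, sq, sq, this]
    · rw [show 4 = 2 * 2 from rfl, mul_right_comm, pow_mul, pow_mul, sq G, this, one_pow]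
  obtain ⟨k, hk⟩ := x3_crt (GU (t + t)) (a := 4 * Nat.card Kˣ) (b := ringChar K) (by
    refine ((Nat.Prime.coprime_iff_not_dvd (CharP.char_is_prime K _)).2 fun q => ?_).symm
    have := Fintype.ofFinite K
    have := (ringChar.spec K _).2 q
    rw [Nat.card_units, Nat.cast_mul, Nat.cast_pred Nat.card_pos, Nat.card_eq_fintype_card,
      FiniteField.cast_card_eq_zero, show ((4 : ℕ) : K) = 2 * 2 by norm_num] at this
    exact h2 (by simpa only [zero_sub, mul_neg, mul_one, neg_eq_zero, mul_eq_zero, or_self] using this)) GN (by rw [Un, ringChar.Nat.cast_ringChar, zero_mul, U0])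
  have hB : ψ S * x3k E sb * x3k E d * (ψ S * x3k E sb)⁻¹ = ψ S * (x3k E w * ψ mw) * (ψ S)⁻¹ := by
    rw [B0]; group
  refine u2_wrap hr hφ ne (mem_sug (by omega) hφ (fun _ => ne) FD (u2_det hE sg sm)) DD
    ((fψ S).mul (hE.fx fb)) (fU.inv.mul (hE.fx fc))
    (u2_fix hφ ho bc v3 h2 a0.1 a1.1 a2.1 a3.1 (by rw [hE.cg a0.2, hE.cg a1.2])
      (by rw [hE.cg a2.2, hE.cg a3.2])) (hS _ hB).1 fun H m1 m2 m3 _ _ => ?_
  have m4 := dc ▸ mul_mem m1 m3
  have m5 : G ∈ H := hk ▸ pow_mem m4 k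
  have m6 := (mul_mem_cancel_left m5).1 m4
  have m7 : x3k E (u2c sc d) ∈ H := (mul_mem_cancel_left m1).1 (by rwa [← hE.mul, ← hG])
  obtain ⟨m8, m9⟩ := (hS _ hB).2 H (by
    cases o <;> simp only [u2t, if_true, if_false, Bool.false_eq_true, hE.mul _ (x3m d _),
      hE.mul (x3m (x3m d _) _), ← hG]
    exacts [mul_mem (mul_mem m5 m5) (mul_mem m5 m5), mul_mem m5 m5]) m1 m2
  rw [Uy _ (by rw [map_add, ht, neg_add])] at m6
  have all := u2_ch hφ ho (E := E) (P := [d, u2c sc d, w, u2V a b c e]) (by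
      simp only [List.forall_mem_cons, List.not_mem_nil, false_imp_iff, implies_true, and_true]
      exact ⟨⟨FD, fun i => (fd i).1, m1⟩, ⟨hE.fx fc', fun i => (fc' i).1, m7⟩,
        ⟨hE.fx fw, fun i => (fw i).1, m9⟩, hE.fx fV, fun i => (fV i).1, hV ▸ m8 _⟩) ab bc be
    (fun s => by rw [← u2_ev v1, ← u2_ev v2, ← q1]; exact m8 _)
    (by rw [← two_mul]; exact mul_ne_zero h2 t0') m6 L ch
  exact u2_fin (by omega) ho hφ h2 fun j p => ⟨all _ _ (fin j p).1, all _ _ (fin j p).2⟩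

/-- Swapping two hyperbolic pairs. -/
def u2s (i j : Fin (r + 1)) : Equiv.Perm (Fin (r + 1)) := Equiv.swap i j * Equiv.swap i.rev j.rev

/-- Extension of the coefficients from the even indices. -/
def u2x (π : Equiv.Perm (Fin (r + 1))) (B : ℕ → X3G) : X3S r :=
  (π, fun i => if (i : ℕ) % 2 = 0 then B i else x3p (i + π i) - x3f (B i.rev))

/-- Coefficients from a list. -/
def u2B (l : List (ℕ × X3G)) (i : ℕ) : X3G := (l.lookup i).getD 0

theorem u2_ok8 : let d : X3S 7 := u2x (u2s 0 6 * u2s 2 4) (u2B [(0, (0, 1, 0)), (6, (0, -1, 0))])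
    let sc : X3S 7 := u2x (Equiv.swap 6 1) (u2B [(6, (0, 0, 0, 1, 0))])
    u2Ok 0 2 4 6 0 d (u2x 1 (u2B [(2, x3p 1), (4, x3p 1)]))
      (u2x (u2s 2 6 * u2s 2 4) (u2B [(6, (0, -1, 0)), (4, x3p 1)])) sc (u2V 0 2 4 6)
      (x3m d (u2c sc d)) (u2t (x3m d (u2c sc d)) true)
      [(6, 7), (1, 0), (7, 6), (5, 7), (5, 0), (2, 7), (2, 0), (0, 1), (7, 4), (6, 0), (4, 6), (3, 0),
        (1, 7), (0, 2), (6, 2), (5, 6), (0, 6), (4, 0), (3, 7), (2, 6), (4, 7), (2, 1), (1, 5),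
        (0, 3)] := by
  refine ⟨?_, ?_, ?_, ?_, ?_, ?_, ?_, ?_, ?_, ?_, ?_⟩ <;> decide +kernel

theorem u2_ok12 : let d : X3S 11 := (u2x (u2s 0 6 * u2s 2 4 * u2s 8 10)
      (u2B [(0, (0, 1, 0)), (6, (0, -1, 0))]))
    let sc : X3S 11 := u2x (u2s 6 8 * Equiv.swap 10 1) (u2B [(10, (0, 0, 0, 0, 1, 0))])
    u2Ok 0 2 4 6 1 d (u2x (u2s 8 10) (u2B [(2, x3p 1), (4, x3p 1)]))
      (u2x (u2s 2 6 * u2s 2 4) (u2B [(6, (0, -1, 0)), (4, x3p 1)])) sc (u2V 0 2 4 6)
      (x3m d (u2c sc d)) (u2t (x3m d (u2c sc d)) false)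
      [(9, 1), (8, 1), (7, 1), (3, 1), (11, 10), (11, 1), (10, 3), (9, 10), (9, 3), (8, 10), (7, 10),
        (7, 3), (5, 1), (3, 10), (1, 3), (0, 10), (8, 5), (7, 11), (7, 5), (6, 11), (6, 8), (6, 1),
        (5, 10), (5, 3), (3, 5), (2, 10), (0, 1), (10, 11), (10, 5), (6, 10), (5, 9), (5, 7), (4, 9),
        (4, 8), (4, 1), (2, 1), (1, 5), (0, 3), (10, 9), (10, 7), (8, 11), (4, 10), (2, 3), (1, 7),
        (8, 9), (6, 9), (4, 11), (2, 5), (0, 7)] := by
  refine ⟨?_, ?_, ?_, ?_, ?_, ?_, ?_, ?_, ?_, ?_, ?_⟩ <;> decide +kernel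

/-- The unitary groups of dimension eight and twelve in odd characteristic. -/
theorem tU812 [Finite K] (hφ : ∀ s, φ (φ s) = s) (ne : φ ≠ RingHom.id K) (h : (2 : K) ≠ 0) {r : ℕ}
    (hr : r = 7 ∨ r = 11) : IsLeast {n | Good (chev (CartanMatrix.A r) Fin.revPerm φ) n} 3 := by
  rcases hr with rfl | rfl
  exacts [u2_core hφ ne h u2_ok8, u2_core hφ ne h u2_ok12]

end Pool.Agent.MP_c78e8e_al.H75

end

section

namespace Pool.Agent.MP_c78e8e_al.H75

open Subgroup Matrix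

variable {r : ℕ} {K : Type} [Field K] {φ : K →+* K} {H : Subgroup (GL (Fin (r + 1)) K)}
  {i j : Fin (r + 1)} {v w w' : Fin (r + 1) → K} {g : GL (Fin (r + 1)) K}

theorem u6_spread (hφ : ∀ s, φ (φ s) = s) (od : Odd r)
    (hi : i ≠ i.rev) (hj : j ≠ j.rev) (ij : j ≠ i) (ij' : j ≠ i.rev)
    {W d : GL (Fin (r + 1)) K} (mW : W ∈ H) (fW : Fx φ W) (md : d ∈ H) (fd : Fx φ d)
    {l1 l2 l3 l4 n1 n2 n3 n4 : K} (W1 : W.1 *ᵥ Pi.single i 1 = Pi.single j l1)
    (W2 : W.1 *ᵥ Pi.single i.rev 1 = Pi.single j.rev l2) (l0 : l2 ≠ 0)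
    (W3 : W.1 *ᵥ Pi.single j 1 = Pi.single i l3)
    (W4 : W.1 *ᵥ Pi.single j.rev 1 = Pi.single i.rev l4)
    (W5 : ∀ v, Off i v → Off j v → W.1 *ᵥ v = v)
    (d1 : d.1 *ᵥ Pi.single i 1 = Pi.single i.rev n1) (d2 : d.1 *ᵥ Pi.single i.rev 1 = Pi.single i n2)
    (d3 : d.1 *ᵥ Pi.single j 1 = Pi.single j.rev n3) (d4 : d.1 *ᵥ Pi.single j.rev 1 = Pi.single j n4)
    (hX : ∀ s, φ s = s → x1P φ H i (Pi.single j.rev s)) (hw : x1P φ H i w)
    (c1 : φ (w j) - w j ≠ 0) (c2 : w j + φ (w j) ≠ 0)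
    (span : ∀ S : Submodule K (Fin (r + 1) → K), Pi.single j 1 ∈ S → Pi.single j.rev 1 ∈ S →
      (∀ g ∈ H, Fx φ g → g.1 *ᵥ Pi.single i 1 = Pi.single i 1 →
        g.1 *ᵥ Pi.single i.rev 1 = Pi.single i.rev 1 → ∀ v ∈ S, g.1 *ᵥ v ∈ S) →
      ∀ v, Off i v → v ∈ S) (k l : Fin (r + 1)) : rt φ k l ⊆ H := by
  have sg : ∀ k : Fin (r + 1), (-1 : K) ^ (k.rev : ℕ) = -(-1) ^ (k : ℕ) := fun k => by
    rw [natb1_sg, od.neg_one_pow, neg_one_mul]
  have tz : ∀ (k : Fin (r + 1)) (b : K), Trc φ k 0 b ↔ φ b = b := fun k b => by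
    have q := natb1_sq (K := K) k
    simp only [Trc, sg, bu_zero_left, add_zero]
    exact ⟨fun e => by linear_combination -(-1) ^ (k : ℕ) * e + (b - φ b) * q, fun e => by
      rw [e]; ring⟩
  have ji : j.rev ≠ i := fun e => ij' (by rw [← e, Fin.rev_rev])
  have ji' : j.rev ≠ i.rev := Fin.rev_injective.ne ij
  have Zi : ∀ b, Trc φ i 0 b → hei φ i 0 b ∈ H := fun b hb => by
    rw [tz] at hb
    obtain ⟨o, a, -, m⟩ := hX ((-1) ^ (i : ℕ) * (-1) ^ (j : ℕ) * b / (w j + φ (w j))) (by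
      rw [map_div₀, map_add, hφ, add_comm (φ (w j))]; simp only [map_mul, map_pow, map_neg, map_one, hb])
    obtain ⟨o', a', -, m'⟩ := hw
    have e := mul_mem (mul_mem m' m) (inv_mem (mul_mem m m'))
    rw [hei_mul o o', hei_mul o' o, add_comm w, monb_shift (o.add o') _ _, mul_inv_cancel_right,
      bu_single_left, bu_single_right, Fin.rev_rev, sg] at e
    convert e using 2
    rw [map_div₀, map_add, hφ, add_comm (φ (w j))]
    simp only [map_mul, map_pow, map_neg, map_one, hb]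
    field_simp
    linear_combination (-b * (φ (w j) + w j) * ((-1) ^ (j : ℕ)) ^ 2) * natb1_sq (K := K) i -
      b * (φ (w j) + w j) * natb1_sq (K := K) j
  have Zj : ∀ b, Trc φ j 0 b → hei φ j 0 b ∈ H := fun b hb =>
    x1_back hφ mW fW W3 W4 (.zero hj) hb fun b _ => by simpa using Zi b
  have Zj' : ∀ b, Trc φ j.rev 0 b → hei φ j.rev 0 b ∈ H := fun b hb =>
    x1_back hφ md fd d4 (l' := n3) (by rwa [Fin.rev_rev]) (Off.zero hj).rev hb
      fun b _ => by simpa using Zj b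
  have sm : ∀ (k : Fin (r + 1)) (s : K), s • (Pi.single k 1 : Fin (r + 1) → K) = Pi.single k s :=
    fun k s => by rw [← Pi.single_smul, smul_eq_mul, mul_one]
  have Pf : ∀ s, x1P φ H i (Pi.single j.rev s) := fun s => by
    have hb : φ ((φ s - s) / (φ (w j) - w j)) = (φ s - s) / (φ (w j) - w j) := by
      rw [map_div₀, map_sub, map_sub, hφ, hφ, ← neg_div_neg_eq, neg_sub, neg_sub]
    have := (hX (s - (φ s - s) / (φ (w j) - w j) * w j) (by
      rw [map_sub, map_mul, hb]; field_simp; ring)).add hφ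
      (hw.hei hφ (Off.zero hj).rev (.zero hi) ((tz _ _).2 hb) (Zj' _ ((tz _ _).2 hb)) ji ji')
    simpa only [Fin.rev_rev, smul_zero, Fin.val_rev, Nat.reduceSubDiff, bu_zero_right, mul_zero, sub_zero, sm, zero_add, ← Pi.single_add, sub_add_cancel] using this
  have Pe : ∀ s, x1P φ H i (Pi.single j s) := fun s => by
    have := (Pf s).hei hφ (.zero hj) (.zero hi) ((tz _ _).2 (map_one φ))
      (Zj _ ((tz _ _).2 (map_one φ))) ij ij'
    simpa only [Pi.single_eq_same, smul_zero, one_mul, bu_zero_right, mul_zero, sub_zero, sm, zero_add] using this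
  have Ps : ∀ (s : K) v, x1P φ H i v → x1P φ H i (s • v) := fun s v p => by
    have p0 := (p.sub hφ (Pe (v j))).sub hφ (Pf (v j.rev))
    have o : Off j (v - Pi.single j (v j) - Pi.single j.rev (v j.rev)) :=
      ⟨hj, by simp [hj], by simp [hj.symm]⟩
    obtain ⟨o', a, c, m⟩ := p0.conj hφ mW fW W1 W2
    rw [W5 _ p0.1 o] at o' c m
    have q := (Pf (s * l2)).hei hφ o' (p0.1.smul _) c m ij ij'
    have key : ∀ u (t : K), x1P φ H i (u + t • Pi.single j 1) → x1P φ H i u := fun u t q => by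
      simpa [sm] using q.sub hφ (Pe t)
    have := ((key _ _ q).add hφ (Pe (s * v j))).add hφ (Pf (s * v j.rev))
    convert this using 1
    rw [Pi.single_eq_same, smul_smul, mul_inv_cancel_right₀ l0, ← sm j (s * _),
      ← sm j.rev (s * _), ← sm j (v j), ← sm j.rev (v _)]
    module
  let S : Submodule K (Fin (r + 1) → K) :=
    { carrier := {v | x1P φ H i v}
      add_mem' := fun p q => p.add hφ q
      zero_mem' := by simpa using Pe 0
      smul_mem' := Ps }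
  have all : ∀ v a, Off i v → Trc φ i v a → hei φ i v a ∈ H := fun v a o c => by
    obtain ⟨-, b, c', m⟩ := span S (Pe 1) (Pf 1) (fun g m f g1 g2 v p => by
      have := x1P.conj hφ p m f g1 g2
      rwa [inv_one, one_smul] at this) v o
    rw [monb_shift o a b]
    exact mul_mem (Zi _ (monb_trc_sub c c')) m
  exact gen_hei_all hφ hi all (fun v a o c => x1_back hφ md fd d2 (l' := n1) (by rwa [Fin.rev_rev])
    o.rev c fun b => all _ b) k l

theorem u6_lam [Finite K] (hφ : ∀ s, φ (φ s) = s) (od : Odd r) (hi : i ≠ i.rev) :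
    ∃ ψ : SL2 (Fix φ) →* GL (Fin (r + 1)) K,
      ψ mw = mon (Equiv.swap i i.rev) (fun k => if k = i then -1 else 1) ∧
      (∀ a, ψ (mdg a) = x1T i i.rev (x1u φ a)) ∧ (∀ A, ψ A ∈ sug r φ) ∧
      (∀ g, (∀ s, Commute g (el i i.rev s)) → (∀ s, Commute g (el i.rev i s)) →
        ∀ A, Commute g (ψ A)) ∧
      (∀ π δ, π i = i → π i.rev = i.rev → δ i = δ i.rev → ∀ A, Commute (mon π δ) (ψ A)) ∧
      ∀ A : SL2 (Fix φ), A.1.trace = 0 → A.1 1 0 ≠ 0 → ∃ g, ψ g * ψ mw * (ψ g)⁻¹ = ψ A := by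
  obtain ⟨a, a1, a2, a3, a4⟩ := psi_el (K := K) hi
  let f : SL2 (Fix φ) →* SL2 K := SpecialLinearGroup.map (Fix φ).subtype
  have f1 : ∀ s, f (mx s) = mx s.1 := fun s => by
    ext k l; fin_cases k <;> fin_cases l <;> simp only [f, mx, Fin.zero_eta, Fin.isValue, SpecialLinearGroup.map_apply_coe, RingHom.mapMatrix_apply, Subfield.coe_subtype, map_apply, of_apply, cons_val', cons_val_zero, cons_val_fin_one, OneMemClass.coe_one, Fin.mk_one, cons_val_one, ZeroMemClass.coe_zero]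
  have f2 : ∀ s, f (mz s) = mz s.1 := fun s => by
    ext k l; fin_cases k <;> fin_cases l <;> simp only [f, mz, Fin.zero_eta, Fin.isValue, SpecialLinearGroup.map_apply_coe, RingHom.mapMatrix_apply, Subfield.coe_subtype, map_apply, of_apply, cons_val', cons_val_zero, cons_val_fin_one, OneMemClass.coe_one, Fin.mk_one, cons_val_one, ZeroMemClass.coe_zero, NegMemClass.coe_neg]
  have f3 : f mw = mw := by
    ext k l; fin_cases k <;> fin_cases l <;> simp only [f, mw, Fin.zero_eta, Fin.isValue, SpecialLinearGroup.map_apply_coe, RingHom.mapMatrix_apply, Subfield.coe_subtype, map_apply, of_apply, cons_val', cons_val_zero, cons_val_fin_one, ZeroMemClass.coe_zero, Fin.mk_one, cons_val_one, OneMemClass.coe_one, NegMemClass.coe_neg]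
  have f4 : ∀ s, f (mdg s) = mdg (x1u φ s) := fun s => by
    ext k l; fin_cases k <;> fin_cases l <;> simp only [f, mdg, Units.val_inv_eq_inv_val, Fin.zero_eta, Fin.isValue, SpecialLinearGroup.map_apply_coe, RingHom.mapMatrix_apply, Subfield.coe_subtype, map_apply, of_apply, cons_val', cons_val_zero, cons_val_fin_one, x1u_val, Fin.mk_one, cons_val_one, ZeroMemClass.coe_zero, Subfield.coe_inv]
  have ev : (-1 : K) ^ (r + 1) = 1 := od.add_one.neg_one_pow
  have cm : ∀ g, (∀ s, Commute g (el i i.rev s)) → (∀ s, Commute g (el i.rev i s)) →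
      ∀ A, Commute g (a.comp f A) := fun g p q =>
    sl2_comm (fun s => by simp [f1, a1, p]) fun s => by simp [f2, a2, q]
  refine ⟨a.comp f, by simp [f3, a3], fun s => by simp [f4, a4, x1T], sl2_gen (fun s => ?_)
    fun s => ?_, cm, fun π δ p q e => cm _ (fun s => ?_) fun s => ?_, fun A t n => ?_⟩
  · have k : φ s.1 = s.1 := s.2
    exact rt_mem ((rt_long hφ hi _).2 ⟨s, by rw [ev, k, one_mul], by simp [f1, a1]⟩)
  · have k : φ s.1 = s.1 := s.2
    exact rt_mem ((rt_long hφ (i := i.rev) (by rw [Fin.rev_rev]; exact hi.symm) _).2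
      ⟨-s, by rw [ev, map_neg, k, one_mul], by simp [f2, a2]⟩)
  · exact mul_inv_eq_iff_eq_mul.1 (by rw [mon_el, p, q, e]; simp)
  · exact mul_inv_eq_iff_eq_mul.1 (by rw [mon_el, p, q, e]; simp)
  · have h : Act (a.comp f) 1 1 := ⟨by simp, fun A B e => by
      rw [Matrix.one_mul, Matrix.mul_one] at e; simp [Subtype.ext e]⟩
    simpa only [MonoidHom.coe_comp, Function.comp_apply, one_mul] using h.conj (M := mw) (M' := A) (by simp [mw, trace_fin_two]) (by simpa only [one_mul] using t)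
      (by simp [mw]) (by simpa only [Fin.isValue, one_mul, ne_eq] using n)

theorem u6_nrm {G : Type} [Group G] {D : Subgroup G} {J g : G} (h : g ∈ normalizer (D : Set G))
    (e : g * J * g⁻¹ = J ∨ g * J * g⁻¹ = J⁻¹) :
    g ∈ normalizer ((D ⊓ centralizer {J} : Subgroup G) : Set G) := by
  refine mem_normalizer_iff.2 fun a => and_congr (mem_normalizer_iff.1 h a) ?_
  have k : Commute (g * a * g⁻¹) (g * J * g⁻¹) ↔ Commute a J := Commute.conj_iff g
  change a ∈ centralizer {J} ↔ g * a * g⁻¹ ∈ centralizer {J}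
  rw [mem_centralizer_singleton_iff, mem_centralizer_singleton_iff]
  rcases e with e | e <;> rw [e] at k
  · exact k.symm
  · exact (Commute.inv_right_iff.symm.trans k).symm

theorem u6_unip [Finite K] (h4 : 4 ≤ Nat.card K) (h : (g.1 - 1) ^ 4 = 0) : g ^ Nat.card K = 1 := by
  have := Fintype.ofFinite K
  obtain ⟨p, hp⟩ := CharP.exists K
  obtain ⟨n, pp, e⟩ := FiniteField.card K p
  have : Fact p.Prime := ⟨pp⟩
  rw [Nat.card_eq_fintype_card, e] at h4 ⊢
  have k := add_pow_char_pow_of_commute p n (Commute.one_right (g.1 - 1))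
  rw [sub_add_cancel, pow_eq_zero_of_le h4 h, zero_add, one_pow] at k
  exact Units.ext (by rw [Units.val_pow_eq_pow_val, k, Units.val_one])

theorem u6_inv (hφ : ∀ s, φ (φ s) = s) {y : Fin (r + 1) → K} (f : Fx φ g) (yy : bu φ y y = 0)
    (wy : bu φ w y = 0) {l m a : K} (gy : g.1 *ᵥ y = l • y) (gw : g.1 *ᵥ w = m • w)
    (e : φ l * m = -1) (e' : l * φ l * a + a = (-1) ^ r * bu φ w w) :
    g * sie φ y w a * g⁻¹ = (sie φ y w a)⁻¹ := by
  have yw : bu φ y w = 0 := by rw [bu_symm hφ, wy]; simp only [map_zero, mul_zero]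
  have e2 : l * φ m = -1 := by simpa only [map_mul, hφ, map_neg, map_one] using congrArg φ e
  rw [sie_conj hφ f, gy, gw, eq_inv_iff_mul_eq_one]
  refine monb_ext fun v => ?_
  rw [monb_mul, sie_apply (by simp [bu_smul_left, bu_smul_right, yy])
    (by simp [bu_smul_left, bu_smul_right, wy]) (by simp [bu_smul_left, bu_smul_right, yw]),
    sie_apply yy wy yw]
  simp only [bu_add_left, bu_sub_left, bu_smul_left, bu_smul_right, yy, wy, yw, Units.val_one,
    one_mulVec]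
  match_scalars
  · ring
  · linear_combination bu φ v y * e
  · linear_combination -(-1) ^ r * (bu φ v w + bu φ v y * bu φ w w) * e2 - bu φ v y * e'

variable [Finite K]

theorem u6_x (hφ : ∀ s, φ (φ s) = s) (ne : φ ≠ RingHom.id K) (h2 : (2 : K) ≠ 0)
    (h9 : Nat.card K ≠ 9) (h25 : Nat.card K ≠ 25) :
    4 ≤ Nat.card K ∧ Odd (Nat.card K) ∧ (∃ i : K, i * i = -1) ∧
      (∃ x : (Fix φ)ˣ, Sol x.1 1 (-1) ∧ Spn x.1) ∧ ∃ a b : Fix φ, b ≠ 0 ∧ a ^ 2 + b ^ 2 = -1 := by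
  classical
  obtain ⟨x, x0, hx⟩ := sl2f_gen (K := Fix φ)
  have h2' : (2 : Fix φ) ≠ 0 := fun e => h2 (congrArg Subtype.val e)
  have := Fintype.ofFinite (Fix φ)
  have := Fintype.ofFinite K
  have o : Nat.card (Fix φ) % 2 = 1 := by
    rw [Nat.card_eq_fintype_card]
    exact FiniteField.odd_card_of_char_ne_two fun e => h2' (by
      simpa only [e, Nat.cast_ofNat] using ringChar.Nat.cast_ringChar (R := Fix φ))
  have c := (card_fix hφ ne).1
  have q1 : 1 < Nat.card (Fix φ) := Finite.one_lt_card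
  have q7 : 7 ≤ Nat.card (Fix φ) := by
    by_contra k
    have : Nat.card (Fix φ) = 3 ∨ Nat.card (Fix φ) = 5 := by omega
    rcases this with e | e <;> rw [e] at c <;> omega
  refine ⟨by nlinarith only [c, q7], c ▸ (Nat.odd_iff.2 o).pow, ?_, ⟨Units.mk0 x x0,
    sol_gen h2' q7 (fun s s0 => (hx s s0).imp fun _ e => e.symm) one_ne_zero (.inr rfl),
    spn_sq fun s s0 => (hx _ (pow_ne_zero 2 s0)).imp fun _ e => e.symm⟩, ?_⟩
  · have : IsSquare (-1 : K) := FiniteField.isSquare_neg_one_iff.2 (by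
      rw [← Nat.card_eq_fintype_card, c, Nat.pow_mod]
      have : Nat.card (Fix φ) % 4 = 1 ∨ Nat.card (Fix φ) % 4 = 3 := by omega
      rcases this with e | e <;> rw [e] <;> decide)
    exact this.imp fun _ e => e.symm
  · obtain ⟨a, b, e⟩ := sl2b_quad (F := Fix φ) one_ne_zero (-1)
    by_cases b0 : b = 0
    · exact ⟨b, a, fun a0 => by simp [a0, b0] at e, by linear_combination e⟩
    · exact ⟨a, b, b0, by linear_combination e⟩

/-- The first involution. -/
def u6E (K : Type) [Field K] : GL (Fin (5 + 1)) K := mon Fin.revPerm ![-1, -1, -1, 1, 1, 1]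

theorem u6_core (hφ : ∀ s, φ (φ s) = s) (ne : φ ≠ RingHom.id K) (h2 : (2 : K) ≠ 0)
    (h9 : Nat.card K ≠ 9) (h25 : Nat.card K ≠ 25) {u : GL (Fin (5 + 1)) K} (fu : Fx φ u)
    (u4 : (u.1 - 1) ^ 4 = 0) (uE : u6E K * u * (u6E K)⁻¹ = u⁻¹)
    (uT : ∀ g : GL (Fin (5 + 1)) K, Fx φ g → (∀ v, Off 0 v → g.1 *ᵥ v = v) → g * u * g⁻¹ = u)
    (u1 : u.1 *ᵥ Pi.single 0 1 = Pi.single 0 1) (u2 : u.1 *ᵥ Pi.single 5 1 = Pi.single 5 1)
    {A B : Fin (5 + 1) → K} (hA : u.1 *ᵥ Pi.single 4 1 = A) (hB : u.1 *ᵥ Pi.single 1 1 = B)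
    (oA : Off 0 A) (oB : Off 0 B) (c1 : φ (A 1) - A 1 ≠ 0) (c2 : A 1 + φ (A 1) ≠ 0)
    (dt : A 2 * B 3 - A 3 * B 2 ≠ 0) :
    IsLeast {n | Good (chev (CartanMatrix.A 5) Fin.revPerm φ) n} 3 := by
  obtain ⟨h4, ⟨N, hN⟩, -, ⟨x, so, sp⟩, a, b, b0, ab⟩ := u6_x hφ ne h2 h9 h25
  have od : Odd 5 := by decide
  obtain ⟨ψ, a1, a2, a3, a4, a5⟩ := x1_psi (r := 5) (i := 0) (j := 1) hφ (by decide) (by decide)
    (by decide) (by decide) (by simp)
  obtain ⟨σ, ω, eW, σ1, σ2, σ3, σ4, ω1, ω2, ω3, ω4, W5⟩ := x1_W (K := K) (r := 5) (i := 0) (j := 1)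
    (by decide) (by decide) (by decide) (by decide)
  obtain ⟨l, l1, l2, l3, -, l5, l6⟩ := u6_lam (r := 5) (i := 0) hφ od (by decide)
  obtain ⟨m, m1, -, m3, m4, m5, m6⟩ := u6_lam (r := 5) (i := 2) hφ od (by decide)
  let J : SL2 (Fix φ) := ⟨!![a, b; b, -a], by rw [det_fin_two_of]; linear_combination -ab⟩
  obtain ⟨M, hM⟩ : ∃ M : GL (Fin (5 + 1)) K,
    M = mon (Equiv.swap 0 5 * Equiv.swap 1 4) ![-1, -1, 1, 1, 1, 1] := ⟨_, rfl⟩
  obtain ⟨R, hR⟩ : ∃ R : GL (Fin (5 + 1)) K,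
    R = mon (Equiv.swap 1 4 * Equiv.swap 2 3) ![1, -1, -1, 1, 1, 1] := ⟨_, rfl⟩
  have e1 : u6E K = M * m mw := by
    rw [hM, m1, mon_mul]
    exact mon_congr (by decide) fun k => by fin_cases k <;> simp [Fin.rev, Equiv.swap_apply_def]
  have e2 : u6E K = R * l mw := by
    rw [hR, l1, mon_mul]
    exact mon_congr (by decide) fun k => by fin_cases k <;> simp only [Nat.reduceAdd, Fin.zero_eta, Fin.isValue, cons_val_zero, Nat.succ_eq_add_one, Fin.rev, Fin.coe_ofNat_eq_mod, Nat.zero_mod, zero_add, Nat.add_one_sub_one, Fin.reduceFinMk, Equiv.swap_apply_left, cons_val, ↓ reduceIte, mul_neg, mul_one, Fin.mk_one, cons_val_one, Equiv.swap_apply_def, one_ne_zero, Fin.reduceEq, Equiv.swap_apply_right]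
  have cM : ∀ A, Commute M (m A) := hM ▸ m5 _ _ (by decide) (by decide) rfl
  have cR : ∀ A, Commute R (l A) := hR ▸ l5 _ _ (by decide) (by decide) rfl
  have cψ : ∀ A A', Commute (ψ A) (m A') := fun A A' => (sl2_comm (fun s => by
      rw [a1]; exact (m4 _ (fun t => (el_comm (by decide) (by decide) _ _).mul_left
        (el_comm (by decide) (by decide) _ _)) (fun t => (el_comm (by decide) (by decide) _ _).mul_left
        (el_comm (by decide) (by decide) _ _)) _).symm) (fun s => by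
      rw [a2]; exact (m4 _ (fun t => (el_comm (by decide) (by decide) _ _).mul_left
        (el_comm (by decide) (by decide) _ _)) (fun t => (el_comm (by decide) (by decide) _ _).mul_left
        (el_comm (by decide) (by decide) _ _)) _).symm) A).symm
  have cT : ∀ a A, Commute (x1T (0 : Fin (5 + 1)) (Fin.rev 0) a) (m A) := fun a =>
    m5 _ _ rfl rfl (by simp [Fin.rev])
  have sE : u6E K ∈ sug 5 φ := by
    refine mem_sug (by omega) hφ (fun _ => ne) (fx_mon (by simp) fun k => ?_) ?_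
    · fin_cases k <;> simp only [Nat.reduceAdd, Fin.zero_eta, Fin.isValue, cons_val_zero, Units.val_neg, Units.val_one, pow_zero, mul_one, Fin.rev, zero_add, Nat.add_one_sub_one, Fin.reduceFinMk, cons_val, map_one, Fin.revPerm_apply, Fin.coe_ofNat_eq_mod, Nat.zero_mod, Nat.mod_succ, Fin.mk_one, cons_val_one, pow_one, mul_neg, neg_neg, Nat.reduceSub, Nat.one_mod, Nat.reduceMod, even_two, Even.neg_pow, one_pow, one_mul, map_neg, neg_inj, tsub_self] <;> norm_num
    · rw [u6E, mon_det, show Equiv.Perm.sign (Fin.revPerm : Equiv.Perm (Fin 6)) = -1 by decide]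
      simp only [Units.val_neg, Units.val_one, Int.reduceNeg, Int.cast_neg, Int.cast_one, Nat.reduceAdd, Fin.prod_univ_succ, Fin.isValue, cons_val_zero, cons_val_succ, Finset.univ_unique, Fin.default_eq_zero, cons_val_fin_one, Finset.prod_const_one, mul_one, mul_neg, neg_neg]
  have sT : ∀ a, x1T (0 : Fin (5 + 1)) (Fin.rev 0) (x1u φ a) ∈ sug 5 φ := fun a => l2 a ▸ l3 _
  have EE : Sc (u6E K * u6E K) := by
    rw [u6E, mon_mul]
    exact sc_mon.2 ⟨by simp, fun k => by fin_cases k <;> simp only [Nat.reduceAdd, Fin.zero_eta, Fin.isValue, Fin.revPerm_apply, Fin.rev, Fin.coe_ofNat_eq_mod, Nat.zero_mod, zero_add, Nat.add_one_sub_one, Fin.reduceFinMk, cons_val, cons_val_zero, mul_neg, mul_one, Fin.mk_one, Nat.one_mod, Nat.reduceSub, cons_val_one, Nat.reduceMod, Nat.mod_succ, tsub_self]⟩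
  have wJ : mw * J * mw⁻¹ = J⁻¹ := by
    rw [eq_inv_iff_mul_eq_one, mul_inv_eq_iff_eq_mul.2 (show mw * J = J⁻¹ * mw from ?_),
      inv_mul_cancel]
    rw [eq_inv_mul_iff_mul_eq]
    refine Subtype.ext (Matrix.ext fun k l => ?_)
    fin_cases k <;> fin_cases l <;> simp [J, mw, Matrix.mul_apply, Fin.sum_univ_two]
    all_goals first | ring1 | linear_combination ab | linear_combination -ab
  have EJ : u6E K * m J * (u6E K)⁻¹ = (m J)⁻¹ := by
    rw [e1, ← map_inv, ← wJ, map_mul, map_mul, map_inv, _root_.mul_inv_rev, mul_assoc M, mul_assoc M,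
      ← mul_assoc (_ * m J), ← map_inv, ← map_mul, ← map_mul, ← mul_assoc, (cM _).mul_inv_cancel]
  obtain ⟨g, eg⟩ := m6 J (by simp [J, trace_fin_two]) (by simpa [J] using b0)
  obtain ⟨g', eg'⟩ := l6 (mw * mdg x) (by simp only [mw, mdg, Units.val_inv_eq_inv_val, Matrix.SpecialLinearGroup.coe_mul, cons_mul, Nat.succ_eq_add_one, Nat.reduceAdd, vecMul_cons, head_cons, zero_smul, tail_cons, one_smul, empty_vecMul, add_zero, zero_add, neg_smul, neg_cons, neg_zero, neg_empty, empty_mul, Equiv.symm_apply_apply, trace_fin_two, Fin.isValue, of_apply, cons_val', cons_val_zero, cons_val_fin_one, cons_val_one]) (by simp [mw, mdg])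
  have eb : M * m J = m g * u6E K * (m g)⁻¹ := by
    rw [e1, ← eg, ← mul_assoc (m g), ← (cM g).eq]; group
  have aT : Act ψ (x1T 0 (Fin.rev 0) (x1u φ x)) !![x.1, 0; 0, 1] :=
    act_diag x.ne_zero (fun s => by rw [a1, a1, x1T, x1_el]; simp only [Nat.reduceAdd, Fin.isValue, Equiv.Perm.coe_one, id_eq, Fin.rev, Fin.coe_ofNat_eq_mod, Nat.zero_mod, zero_add, Nat.add_one_sub_one, Fin.reduceFinMk, Pi.mul_apply, Pi.mulSingle_eq_same, ne_eq, Fin.reduceEq, not_false_eq_true, Pi.mulSingle_eq_of_ne, mul_comm, one_mul, x1u_val, one_ne_zero, mul_one, Units.val_one, div_one, Nat.one_mod, Nat.reduceSub, Units.val_inv_eq_inv_val, div_inv_eq_mul, Subfield.coe_mul]) fun s => by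
      rw [a2, a2, x1T, x1_el]; simp only [Nat.reduceAdd, Fin.isValue, Equiv.Perm.coe_one, id_eq, Fin.rev, Fin.coe_ofNat_eq_mod, Nat.zero_mod, zero_add, Nat.add_one_sub_one, Fin.reduceFinMk, Pi.mul_apply, ne_eq, one_ne_zero, not_false_eq_true, Pi.mulSingle_eq_of_ne, Fin.reduceEq, mul_one, Units.val_one, mul_comm, Pi.mulSingle_eq_same, one_mul, x1u_val, div_eq_mul_inv, mul_neg, Nat.one_mod, Nat.reduceSub, Units.val_inv_eq_inv_val, inv_one, Subfield.coe_mul, Subfield.coe_inv]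
  have aE : Act ψ (u6E K) !![0, 1; 1, 0] := by
    have := act_anti (ψ := ψ) (g := u6E K) (l := -1) (by simp) (fun s => by
      rw [a1, a2, u6E, x1_el, (el_comm (by decide) (by decide) _ _).eq]; simp only [Nat.reduceAdd, Fin.rev, Fin.isValue, Fin.coe_ofNat_eq_mod, Nat.one_mod, Nat.reduceSub, Fin.reduceFinMk, Fin.revPerm_apply, Nat.reduceMod, Fin.mk_one, Nat.zero_mod, zero_add, Nat.add_one_sub_one, Nat.mod_succ, tsub_self, Fin.zero_eta, cons_val, Units.val_one, one_mul, div_one, cons_val_zero, Units.val_neg, neg_mul, cons_val_one, neg_div_neg_eq, NegMemClass.coe_neg, neg_neg])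
      fun s => by
        rw [a1, a2, u6E, x1_el, (el_comm (by decide) (by decide) _ _).eq]; simp only [Nat.reduceAdd, Fin.rev, Fin.isValue, Fin.coe_ofNat_eq_mod, Nat.zero_mod, zero_add, Nat.add_one_sub_one, Fin.reduceFinMk, Fin.revPerm_apply, Nat.mod_succ, tsub_self, Fin.zero_eta, Nat.one_mod, Nat.reduceSub, Nat.reduceMod, Fin.mk_one, cons_val, Units.val_one, mul_neg, one_mul, div_one, cons_val_one, cons_val_zero, Units.val_neg, neg_mul, neg_neg, div_neg, NegMemClass.coe_neg]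
    simpa only [Nat.reduceAdd, inv_neg, inv_one, neg_neg] using this
  have aJ : ∀ A, Act ψ (m A) 1 := fun A => ⟨by simp, fun B C e => by
    rw [Matrix.one_mul, Matrix.mul_one] at e
    rw [(cψ B A).symm.mul_inv_cancel, Subtype.ext e]⟩
  have aW : Act ψ (ψ mw)⁻¹ !![0, -1; 1, 0] := ⟨by simp, fun B C e => by
    have : mw⁻¹ * B = C * mw⁻¹ := Subtype.ext (by
      simpa only [mw, Matrix.SpecialLinearGroup.coe_mul, Matrix.SpecialLinearGroup.coe_inv, adjugate_fin_two, Fin.isValue, of_apply, cons_val', cons_val_one, cons_val_fin_one, cons_val_zero, neg_neg, cons_mul, Nat.succ_eq_add_one, Nat.reduceAdd, empty_mul, Equiv.symm_apply_apply] using e)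
    rw [← map_inv, ← map_inv, ← map_mul, ← map_mul, this, mul_inv_cancel_right]⟩
  have ab' : Act ψ (M * m J * (ψ mw)⁻¹) !![-1, 0; 0, 1] := by
    have := (((aE.mul (aJ mw⁻¹)).mul (aJ J)).mul aW).smul (c := -1) (by simp)
    rw [e1, map_inv, mul_inv_cancel_right] at this
    convert this using 1
    ext k l; fin_cases k <;> fin_cases l <;> simp only [Fin.zero_eta, Fin.isValue, of_apply, cons_val', cons_val_zero, cons_val_fin_one, NegMemClass.coe_neg, OneMemClass.coe_one, mul_one, cons_mul, Nat.succ_eq_add_one, Nat.reduceAdd, vecMul_cons, head_cons, zero_smul, tail_cons, one_smul, empty_vecMul, add_zero, zero_add, empty_mul, Equiv.symm_apply_apply, Matrix.smul_apply, smul_eq_mul, Fin.mk_one, cons_val_one, ZeroMemClass.coe_zero, mul_zero, mul_neg, neg_neg]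
  have nW : ψ mw ∈ normalizer ((dgl ⊓ centralizer {m J} : Subgroup _) : Set (GL (Fin (5 + 1)) K)) :=
    u6_nrm (a3 ▸ mul_mem (mon_norm _ _) (mon_norm _ _)) (.inl (cψ _ _).mul_inv_cancel)
  have nJ : m J ∈ normalizer ((dgl ⊓ centralizer {m J} : Subgroup _) : Set (GL (Fin (5 + 1)) K)) := by
    refine mem_normalizer_iff.2 fun h => ⟨fun p => ?_, fun p => ?_⟩
    · rwa [← mem_centralizer_singleton_iff.1 p.2, mul_inv_cancel_right]
    · have := mem_centralizer_singleton_iff.1 p.2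
      rw [inv_mul_cancel_right, ← mul_assoc, ← mul_assoc, eq_mul_inv_iff_mul_eq, mul_assoc,
        mul_assoc, mul_right_inj] at this
      rwa [← this, mul_inv_cancel_right] at p
  have db : Sc (u6E K * (M * m J * (ψ mw)⁻¹) * (u6E K)⁻¹ * (M * m J * (ψ mw)⁻¹)) := by
    have c : Commute (M * (ψ mw)⁻¹) (m J) := (cM _).mul_left (cψ _ _).inv_left
    have e : M * m J * (ψ mw)⁻¹ = M * (ψ mw)⁻¹ * m J := by
      rw [mul_assoc, mul_assoc, (cψ _ _).inv_left.eq]
    rw [e, ← conj_mul, EJ, mul_assoc, mul_assoc, c.eq, inv_mul_cancel_left, a3, hM]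
    simp only [u6E, x1W, mon_mul, mon_inv]
    exact sc_mon.2 ⟨by decide, fun k => by fin_cases k <;> simp [Fin.rev, Equiv.swap_apply_def]⟩
  obtain ⟨S, hS⟩ := r1m ψ (T := dgl ⊓ centralizer {m J}) (by simp only [mul_neg, mul_one, neg_neg]) so sp
    (fun a p b q c t => dgl_nil a p.1 b q.1 c t.1) nW
    (fun a => u6_nrm (a4 a ▸ mul_mem (mon_norm _ _) (mon_norm _ _)) (.inl (cψ _ _).mul_inv_cancel))
    ⟨mon_dgl (by simp) _, mem_centralizer_singleton_iff.2 (cT _ _).eq⟩ aT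
    (u6_nrm (mon_norm _ _) (.inr EJ)) aE (mul_mem (mul_mem
      (u6_nrm (hM ▸ mon_norm _ _) (.inl (cM _).mul_inv_cancel)) nJ) (inv_mem nW)) ab'
    (by rw [inv_mul_cancel_right, eb, conj_mul]; exact EE.conj _) db
  rw [inv_mul_cancel_right] at hS
  obtain ⟨cm, gen⟩ := hS _ rfl
  have uN := u6_unip h4 u4
  have su : u ∈ sug 5 φ := mem_sug (by omega) hφ (fun _ => ne) fu (by
    have := Fintype.ofFinite K
    simpa [FiniteField.pow_card] using congrArg (fun g : GL (Fin (5 + 1)) K => g.1.det) uN)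
  have cu := uT _ (sug_fx (sT x)) fun v o => x1_Tfix o _
  have ec : u6E K * x1T 0 (Fin.rev 0) (x1u φ x) * u =
      ((u ^ (N + 1))⁻¹ * l g') * u6E K * ((u ^ (N + 1))⁻¹ * l g')⁻¹ := by
    have k1 : u6E K * x1T 0 (Fin.rev 0) (x1u φ x) = l g' * u6E K * (l g')⁻¹ := by
      rw [e2, ← l2, mul_assoc, ← map_mul, ← eg', ← mul_assoc (l g'), ← (cR g').eq]; group
    have k2 : u6E K * x1T 0 (Fin.rev 0) (x1u φ x) * u ^ (N + 1) *
        (u6E K * x1T 0 (Fin.rev 0) (x1u φ x))⁻¹ = (u ^ (N + 1))⁻¹ := by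
      rw [← conj_pow, ← inv_pow, ← uE]
      nth_rw 2 [← cu]
      group
    have k3 : u = u ^ (N + 1) * u ^ (N + 1) := by
      rw [← pow_add, show N + 1 + (N + 1) = Nat.card K + 1 by omega, pow_succ, uN, one_mul]
    obtain ⟨D, hD⟩ : ∃ D, D = u6E K * x1T 0 (Fin.rev 0) (x1u φ x) := ⟨_, rfl⟩
    rw [← hD] at k1 k2 ⊢
    calc D * u = D * u ^ (N + 1) * D⁻¹ * D * u ^ (N + 1) := by nth_rw 1 [k3]; group
      _ = (u ^ (N + 1))⁻¹ * (l g' * u6E K * (l g')⁻¹) * u ^ (N + 1) := by rw [k2, ← k1]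
      _ = _ := by group
  refine goodSU (by omega) hφ (fun _ => ne) (sug_ns (by omega) hφ (.inl le_rfl)) sE
    (b := ψ S * (M * m J) * (ψ S)⁻¹) (c := u6E K * x1T 0 (Fin.rev 0) (x1u φ x) * u)
    (g := ψ S * m g) (g' := (u ^ (N + 1))⁻¹ * l g') ?_ (mul_mem (mul_mem sE (sT x)) su)
    (mul_mem (a5 _) (m3 _)) (mul_mem (inv_mem (pow_mem su _)) (l3 _)) EE
    (sc_of_eq (by rw [eb]; group)) (sc_of_eq ec) cm fun H _ md mb mc k => ?_
  · rw [eb]
    exact mul_mem (mul_mem (a5 _) (mul_mem (mul_mem (m3 _) sE) (inv_mem (m3 _)))) (inv_mem (a5 _))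
  have mt := mul_mem (inv_mem md) mc
  rw [mul_assoc, inv_mul_cancel_left] at mt
  have mt' : x1T 0 (Fin.rev 0) (x1u φ x) ∈ H := by
    have := pow_mem mt (Nat.card K)
    rw [(show Commute _ u from mul_inv_eq_iff_eq_mul.1 cu).mul_pow, uN, mul_one, x1T,
      mon_one_pow] at this
    have _ := Fintype.ofFinite K
    have e : ∀ f : Fin (5 + 1) → Kˣ, f ^ Nat.card K = f := fun f => by
      ext k; simp [FiniteField.pow_card]
    rwa [e] at this
  have mu := (mul_mem_cancel_left mt').1 mt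
  have mψ := (gen H mt' md mb).1
  have hX : ∀ s, φ s = s → x1P φ H 0 (Pi.single (Fin.rev 1) s) := fun s hs => by
    have e : hei φ (0 : Fin (5 + 1)) (Pi.single (Fin.rev 1) s) 0 = ψ (mx ⟨s, hs⟩) := by
      rw [hei_single (by decide) (by decide) (by decide), a1, Fin.rev_rev, hs,
        (el_comm (by decide) (by decide) _ _).eq]
      simp
    have o : Off (0 : Fin (5 + 1)) (Pi.single (Fin.rev 1) s) :=
      .single (by decide) (by decide) (by decide) s
    exact ⟨o, 0, trc_of_fx hφ o (e ▸ sug_fx (a5 _)), e ▸ mψ _⟩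
  have key : ∀ k l : Fin (5 + 1), rt φ k l ⊆ H := by
    have mW := mψ mw
    have fW := sug_fx (a5 mw)
    rw [a3, eW] at mW fW
    have hw := (hX 1 (map_one φ)).conj hφ mu fu u1 u2
    rw [inv_one, one_smul, show Fin.rev (1 : Fin (5 + 1)) = 4 from rfl, hA] at hw
    refine u6_spread hφ od (by decide) (by decide) (by decide) (by decide) mW fW md (sug_fx sE)
      (by rw [x1_one, σ1]) (by rw [x1_one, σ4]) (by simp) (by rw [x1_one, σ2])
      (by rw [x1_one, σ3]) W5 (x1_one _ _ _ _) (x1_one _ _ _ _) (x1_one _ _ _ _) (x1_one _ _ _ _)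
      hX hw c1 c2 fun S s1 s2 hs v o => ?_
    have mA := hA ▸ hs _ mu fu u1 u2 _ s2
    have mB := hB ▸ hs _ mu fu u1 u2 _ s1
    obtain ⟨t, ht⟩ : ∃ t, (A 2 * B 3 - A 3 * B 2) * t = 1 := ⟨_, mul_inv_cancel₀ dt⟩
    obtain ⟨p, hp⟩ : ∃ p, p = (v 2 * B 3 - v 3 * B 2) * t := ⟨_, rfl⟩
    obtain ⟨q, hq⟩ : ∃ q, q = (A 2 * v 3 - A 3 * v 2) * t := ⟨_, rfl⟩
    have := add_mem (add_mem (add_mem (S.smul_mem p mA) (S.smul_mem q mB))
      (S.smul_mem (v 1 - p * A 1 - q * B 1) s1)) (S.smul_mem (v 4 - p * A 4 - q * B 4) s2)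
    convert this using 1
    have o1 : v 0 = 0 := o.2.1
    have o2 : v 5 = 0 := o.2.2
    have o3 : A 0 = 0 := oA.2.1
    have o4 : A 5 = 0 := oA.2.2
    have o5 : B 0 = 0 := oB.2.1
    have o6 : B 5 = 0 := oB.2.2
    ext k
    simp only [Pi.add_apply, Pi.smul_apply]
    fin_cases k <;> simp only [Nat.reduceAdd, Fin.zero_eta, Fin.isValue, o1, o3, smul_eq_mul, mul_zero, o5, add_zero, ne_eq, zero_ne_one, not_false_eq_true, Pi.single_eq_of_ne, Fin.rev, Fin.coe_ofNat_eq_mod, Nat.one_mod, Nat.reduceSub, Fin.reduceFinMk, Fin.reduceEq, Fin.mk_one, Pi.single_eq_same, mul_one, add_add_sub_cancel, add_sub_cancel, o2, o4, o6]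
    · linear_combination -v 2 * ht - A 2 * hp - B 2 * hq
    · linear_combination -v 3 * ht - A 3 * hp - B 3 * hq
  exact ⟨key _ _, key _ _⟩

theorem u6_T {y w : Fin (5 + 1) → K} (hφ : ∀ s, φ (φ s) = s) (oy : Off 0 y) (ow : Off 0 w) (a : K)
    {g : GL (Fin (5 + 1)) K} (f : Fx φ g) (h : ∀ v, Off 0 v → g.1 *ᵥ v = v) :
    g * sie φ y w a * g⁻¹ = sie φ y w a := by rw [sie_conj hφ f, h _ oy, h _ ow]

theorem u6_fE : Fx φ (u6E K) := fx_mon (by simp) fun k => by
  fin_cases k <;> simp only [Nat.reduceAdd, Fin.zero_eta, Fin.isValue, cons_val_zero, Units.val_neg, Units.val_one, pow_zero, mul_one, Fin.rev, zero_add, Nat.add_one_sub_one, Fin.reduceFinMk, cons_val, map_one, Fin.revPerm_apply, Fin.coe_ofNat_eq_mod, Nat.zero_mod, Nat.mod_succ, Fin.mk_one, cons_val_one, pow_one, mul_neg, neg_neg, Nat.reduceSub, Nat.one_mod, Nat.reduceMod, even_two, Even.neg_pow, one_pow, one_mul, map_neg, neg_inj, tsub_self] <;> norm_num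

theorem u6_pow {u : GL (Fin (5 + 1)) K} {g1 g2 g3 : Fin (5 + 1) → K} {a b c : K}
    (h : ∀ v, ∃ x y z : K, u.1 *ᵥ v = v + (x • g1 + y • g2 + z • g3)) (h1 : u.1 *ᵥ g1 = g1)
    (h2 : u.1 *ᵥ g2 = g2 + a • g1) (h3 : u.1 *ᵥ g3 = g3 + (b • g1 + c • g2)) : (u.1 - 1) ^ 4 = 0 := by
  refine Matrix.ext_iff_mulVec.2 fun v => ?_
  obtain ⟨x, y, z, e⟩ := h v
  have e1 : (u.1 - 1) *ᵥ g1 = 0 := by rw [sub_mulVec, h1, one_mulVec, sub_self]
  have e2 : (u.1 - 1) *ᵥ g2 = a • g1 := by rw [sub_mulVec, h2, one_mulVec, add_sub_cancel_left]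
  have e3 : (u.1 - 1) *ᵥ g3 = b • g1 + c • g2 := by
    rw [sub_mulVec, h3, one_mulVec, add_sub_cancel_left]
  have e4 : (u.1 - 1) *ᵥ v = x • g1 + y • g2 + z • g3 := by
    rw [sub_mulVec, e, one_mulVec, add_sub_cancel_left]
  simp only [pow_succ, pow_zero, Matrix.one_mul, ← mulVec_mulVec, e4, mulVec_add, mulVec_smul, e1, e2,
    e3, smul_zero, mulVec_zero, add_zero, zero_mulVec]

theorem tU6o (hφ : ∀ s, φ (φ s) = s) (ne : φ ≠ RingHom.id K) (h : (2 : K) ≠ 0) :
    IsLeast {n | Good (chev (CartanMatrix.A 5) Fin.revPerm φ) n} 3 := by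
  by_cases h9 : Nat.card K = 9
  · exact evU6_9 hφ ne h9
  by_cases h25 : Nat.card K = 25
  · exact evU6_25 hφ ne h25
  obtain ⟨-, -, ⟨i, ii⟩, -⟩ := u6_x hφ ne h h9 h25
  have i0 : i ≠ 0 := fun e => by simp [e] at ii
  have hφ2 : φ 2 = 2 := map_ofNat φ 2
  obtain ⟨y, hy⟩ : ∃ y : Fin (5 + 1) → K, y = ![0, 1, 1, i, i, 0] := ⟨_, rfl⟩
  have oy : Off 0 y := hy ▸ ⟨by decide, rfl, rfl⟩
  have yy : bu φ y y = 0 := by simp only [bu, Nat.reduceAdd, hy, Nat.succ_eq_add_one, Fin.rev, Nat.reduceSubDiff, Fin.sum_univ_succ, Fin.isValue, Fin.coe_ofNat_eq_mod, Nat.zero_mod, pow_zero, cons_val_zero, mul_zero, tsub_zero, Fin.reduceFinMk, cons_val, map_zero, Fin.val_succ, cons_val_succ, zero_add, pow_one, mul_one, neg_mul, one_mul, even_two, Even.neg_pow, one_pow, map_one, Fin.mk_one, cons_val_one, Finset.univ_unique, Fin.default_eq_zero, Fin.val_eq_zero, cons_val_fin_one, tsub_self, Fin.zero_eta, Finset.sum_const_zero, add_zero, neg_add_cancel_left];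 ring
  have Ey : (u6E K).1 *ᵥ y = i • y := x1_vec' fun k => by fin_cases k <;> simp only [Nat.reduceAdd, hy, Nat.succ_eq_add_one, Fin.zero_eta, Fin.isValue, Fin.revPerm_apply, Fin.rev, Fin.coe_ofNat_eq_mod, Nat.zero_mod, zero_add, Nat.add_one_sub_one, Fin.reduceFinMk, Pi.smul_apply, cons_val, smul_eq_mul, mul_zero, cons_val_zero, Units.val_neg, Units.val_one, Fin.mk_one, Nat.one_mod, Nat.reduceSub, ii, cons_val_one, mul_one, Nat.reduceMod, one_mul, Nat.mod_succ, tsub_self]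
  have hi : φ i = i ∨ φ i = -i := mul_self_eq_mul_self_iff.1 (by rw [← map_mul, ii]; simp only [map_neg, map_one])
  rcases hi with hi | hi
  · obtain ⟨s, s0, hs⟩ := skew_ex hφ ne
    obtain ⟨z, hz⟩ : ∃ z : Fin (5 + 1) → K, z = ![0, 1, 1, -i, -i, 0] := ⟨_, rfl⟩
    obtain ⟨w, hw⟩ : ∃ w : Fin (5 + 1) → K, w = ![0, 0, s, s * i, 0, 0] := ⟨_, rfl⟩
    have oz : Off 0 z := hz ▸ ⟨by decide, rfl, rfl⟩
    have ow : Off 0 w := hw ▸ ⟨by decide, rfl, rfl⟩
    have Ez : (u6E K).1 *ᵥ z = (-i) • z := x1_vec' fun k => by fin_cases k <;> simp [hz, Fin.rev, ii]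
    have Ew : (u6E K).1 *ᵥ w = i • w := x1_vec' fun k => by
      fin_cases k <;> simp only [Nat.reduceAdd, hw, Nat.succ_eq_add_one, mul_comm, Fin.zero_eta, Fin.isValue, Fin.revPerm_apply, Fin.rev, Fin.coe_ofNat_eq_mod, Nat.zero_mod, zero_add, Nat.add_one_sub_one, Fin.reduceFinMk, Pi.smul_apply, cons_val, smul_eq_mul, mul_zero, cons_val_zero, Units.val_neg, Units.val_one, mul_neg, mul_one, neg_zero, Fin.mk_one, Nat.one_mod, Nat.reduceSub, cons_val_one, Nat.reduceMod, ← mul_assoc, ii, Nat.mod_succ, tsub_self]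
    have zz : bu φ z z = 0 := by simp only [bu, Nat.reduceAdd, hz, Nat.succ_eq_add_one, Fin.rev, Nat.reduceSubDiff, Fin.sum_univ_succ, Fin.isValue, Fin.coe_ofNat_eq_mod, Nat.zero_mod, pow_zero, cons_val_zero, mul_zero, tsub_zero, Fin.reduceFinMk, cons_val, map_zero, Fin.val_succ, cons_val_succ, zero_add, pow_one, mul_one, map_neg, mul_neg, neg_mul, one_mul, neg_neg, even_two, Even.neg_pow, one_pow, map_one, Fin.mk_one, cons_val_one, Finset.univ_unique, Fin.default_eq_zero, Fin.val_eq_zero, cons_val_fin_one, tsub_self, Fin.zero_eta, Finset.sum_const_zero, add_zero, add_neg_cancel_left]; ring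
    have ww : bu φ w w = 0 := by simp only [bu, Nat.reduceAdd, hw, Nat.succ_eq_add_one, Fin.rev, Nat.reduceSubDiff, Fin.sum_univ_succ, Fin.isValue, Fin.coe_ofNat_eq_mod, Nat.zero_mod, pow_zero, cons_val_zero, mul_zero, tsub_zero, Fin.reduceFinMk, cons_val, map_zero, Fin.val_succ, cons_val_succ, zero_add, pow_one, even_two, Even.neg_pow, one_pow, one_mul, map_mul, hi, Fin.mk_one, cons_val_one, Finset.univ_unique, Fin.default_eq_zero, Fin.val_eq_zero, cons_val_fin_one, tsub_self, Fin.zero_eta, Finset.sum_const_zero, add_zero]; ring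
    have wy : bu φ w y = 0 := by simp only [bu, Nat.reduceAdd, hw, Nat.succ_eq_add_one, hy, Fin.rev, Nat.reduceSubDiff, Fin.sum_univ_succ, Fin.isValue, Fin.coe_ofNat_eq_mod, Nat.zero_mod, pow_zero, cons_val_zero, mul_zero, tsub_zero, Fin.reduceFinMk, cons_val, map_zero, Fin.val_succ, cons_val_succ, zero_add, pow_one, hi, zero_mul, even_two, Even.neg_pow, one_pow, one_mul, map_one, mul_one, Fin.mk_one, cons_val_one, Finset.univ_unique, Fin.default_eq_zero, Fin.val_eq_zero, cons_val_fin_one, tsub_self, Fin.zero_eta, Finset.sum_const_zero, add_zero]; ring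
    have yw : bu φ y w = 0 := by simp only [bu, Nat.reduceAdd, hy, Nat.succ_eq_add_one, hw, Fin.rev, Nat.reduceSubDiff, Fin.sum_univ_succ, Fin.isValue, Fin.coe_ofNat_eq_mod, Nat.zero_mod, pow_zero, cons_val_zero, mul_zero, tsub_zero, Fin.reduceFinMk, cons_val, map_zero, Fin.val_succ, cons_val_succ, zero_add, pow_one, mul_one, even_two, Even.neg_pow, one_pow, map_mul, hi, one_mul, Fin.mk_one, cons_val_one, Finset.univ_unique, Fin.default_eq_zero, Fin.val_eq_zero, cons_val_fin_one, tsub_self, Fin.zero_eta, Finset.sum_const_zero, add_zero]; ring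
    have zy : bu φ z y = 0 := by simp only [bu, Nat.reduceAdd, hz, Nat.succ_eq_add_one, hy, Fin.rev, Nat.reduceSubDiff, Fin.sum_univ_succ, Fin.isValue, Fin.coe_ofNat_eq_mod, Nat.zero_mod, pow_zero, cons_val_zero, mul_zero, tsub_zero, Fin.reduceFinMk, cons_val, map_zero, Fin.val_succ, cons_val_succ, zero_add, pow_one, mul_one, hi, neg_mul, one_mul, even_two, Even.neg_pow, one_pow, mul_neg, map_one, Fin.mk_one, cons_val_one, Finset.univ_unique, Fin.default_eq_zero, Fin.val_eq_zero, cons_val_fin_one, tsub_self, Fin.zero_eta, Finset.sum_const_zero, add_zero, neg_add_cancel_left]; ring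
    have yz : bu φ y z = 0 := by simp only [bu, Nat.reduceAdd, hy, Nat.succ_eq_add_one, hz, Fin.rev, Nat.reduceSubDiff, Fin.sum_univ_succ, Fin.isValue, Fin.coe_ofNat_eq_mod, Nat.zero_mod, pow_zero, cons_val_zero, mul_zero, tsub_zero, Fin.reduceFinMk, cons_val, map_zero, Fin.val_succ, cons_val_succ, zero_add, pow_one, mul_one, map_neg, hi, mul_neg, neg_mul, one_mul, neg_neg, even_two, Even.neg_pow, one_pow, map_one, Fin.mk_one, cons_val_one, Finset.univ_unique, Fin.default_eq_zero, Fin.val_eq_zero, cons_val_fin_one, tsub_self, Fin.zero_eta, Finset.sum_const_zero, add_zero, add_neg_cancel_left]; ring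
    have zw : bu φ z w = -(2 * i * s) := by
      simp only [bu, Nat.reduceAdd, hz, Nat.succ_eq_add_one, hw, Fin.rev, Nat.reduceSubDiff, Fin.sum_univ_succ, Fin.isValue, Fin.coe_ofNat_eq_mod, Nat.zero_mod, pow_zero, cons_val_zero, mul_zero, tsub_zero, Fin.reduceFinMk, cons_val, map_zero, Fin.val_succ, cons_val_succ, zero_add, pow_one, mul_one, even_two, Even.neg_pow, one_pow, map_mul, hs, hi, neg_mul, mul_neg, one_mul, neg_neg, Fin.mk_one, cons_val_one, Finset.univ_unique, Fin.default_eq_zero, Fin.val_eq_zero, cons_val_fin_one, tsub_self, Fin.zero_eta, Finset.sum_const_zero, add_zero]; ring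
    have wz : bu φ w z = -(2 * i * s) := by
      simp only [bu, Nat.reduceAdd, hw, Nat.succ_eq_add_one, hz, Fin.rev, Nat.reduceSubDiff, Fin.sum_univ_succ, Fin.isValue, Fin.coe_ofNat_eq_mod, Nat.zero_mod, pow_zero, cons_val_zero, mul_zero, tsub_zero, Fin.reduceFinMk, cons_val, map_zero, Fin.val_succ, cons_val_succ, zero_add, pow_one, map_neg, hi, mul_neg, zero_mul, neg_zero, even_two, Even.neg_pow, one_pow, one_mul, map_one, mul_one, Fin.mk_one, cons_val_one, Finset.univ_unique, Fin.default_eq_zero, Fin.val_eq_zero, cons_val_fin_one, tsub_self, Fin.zero_eta, Finset.sum_const_zero, add_zero]; ring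
    have p1 := sie_apply yy wy yw 0
    have p2 := sie_apply zz (bu_zero_left z) (bu_zero_right z) 1
    have f1 : Fx φ (sie φ y w 0) := sie_fx hφ yy wy (by simp only [map_zero, mul_zero, add_zero, ww])
    have f2 : Fx φ (sie φ z 0 1) := sie_fx hφ zz (bu_zero_left z) (by simp only [map_one, mul_one, bu_zero_right]; ring)
    have ap : ∀ v, (sie φ y w 0 * sie φ z 0 1 * sie φ y w 0).1 *ᵥ v = v + ((2 * bu φ v w +
        2 * i * s * (bu φ v z - 2 * i * s * bu φ v y)) • y + (2 * bu φ v y) • w +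
        (-(bu φ v z - 2 * i * s * bu φ v y)) • z) := fun v => by
      simp only [monb_mul, p1, p2, bu_add_left, bu_sub_left, bu_smul_left, yy, wy, yw, ww, zy, yz,
        zw, wz, bu_zero_right, bu_zero_left]
      module
    have n1 : 1 - 2 * i * s ≠ 0 := fun e => h (by
      have := congrArg φ e
      simp only [map_sub, map_mul, map_one, hφ2, hi, hs, map_zero] at this
      linear_combination e + this)
    refine u6_core hφ ne h h9 h25 ((f1.mul f2).mul f1) (u6_pow (g1 := y) (g2 := z) (g3 := w)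
      (fun v => ⟨_, _, _, by rw [ap, add_right_comm]⟩) (by rw [ap]; simp [yy, yw, yz])
      (a := -(4 * i * s)) (by rw [ap, zz, zw, zy]; module) (b := -(2 * i * s) ^ 2)
      (c := 2 * i * s) (by rw [ap, ww, wy, wz]; module)) ?_ (fun g f e => ?_) ?_ ?_
      (A := Pi.single 4 1 + ((2 * i * s * (1 - 2 * i * s)) • y + (2 : K) • w + (-(1 - 2 * i * s)) • z))
      (B := Pi.single 1 1 + ((2 * i * s * (i + 2 * i * s * i)) • y + (-(2 * i)) • w +
        (-(i + 2 * i * s * i)) • z)) ?_ ?_ ?_ ?_ ?_ ?_ ?_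
    · rw [← conj_mul, ← conj_mul, u6_inv hφ u6_fE yy wy Ey Ew (by rw [hi, ii]) (by simp only [mul_zero, add_zero, ww]),
        u6_inv hφ u6_fE zz (bu_zero_left z) Ez (m := -i) (by simp) (by simp only [map_neg, hi, mul_neg, neg_mul, ii, neg_neg])
        (by simp only [map_neg, hi, mul_neg, neg_mul, ii, neg_neg, mul_one, neg_add_cancel, bu_zero_right, mul_zero])]
      group
    · rw [← conj_mul, ← conj_mul, u6_T hφ oy ow _ f e, u6_T hφ oz (.zero oy.1) _ f e]
    · rw [ap]; simp only [Nat.reduceAdd, Fin.isValue, hw, Nat.succ_eq_add_one, bu_single_left, Fin.coe_ofNat_eq_mod, Nat.zero_mod, pow_zero, mul_one, Fin.rev, zero_add, Nat.add_one_sub_one, Fin.reduceFinMk, cons_val, map_zero, mul_zero, hz, hy, sub_self, add_zero, zero_smul, neg_zero]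
    · rw [ap]; simp only [Nat.reduceAdd, Fin.isValue, hw, Nat.succ_eq_add_one, bu_single_left, Fin.coe_ofNat_eq_mod, Nat.mod_succ, mul_one, Fin.rev, tsub_self, Fin.zero_eta, cons_val_zero, map_zero, mul_zero, hz, hy, sub_self, add_zero, zero_smul, neg_zero]
    · rw [ap]; simp only [bu_single_left]; norm_num only [Fin.coe_ofNat_eq_mod, Even.neg_pow, mul_one, hw, Fin.rev, Fin.mk_one, cons_val_one, cons_val_zero, map_zero, mul_zero, hz, map_one, hy, zero_add, smul_cons, smul_eq_mul, smul_empty, add_cons, head_cons, add_zero, tail_cons, empty_add_empty, neg_sub, mul_neg]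
    · rw [ap]; simp only [bu_single_left]; simp only [Nat.reduceAdd, Fin.isValue, Fin.coe_ofNat_eq_mod, Nat.one_mod, pow_one, mul_one, hw, Nat.succ_eq_add_one, Fin.rev, Nat.reduceSub, Fin.reduceFinMk, cons_val, map_zero, mul_zero, hz, map_neg, hi, mul_neg, neg_mul, one_mul, neg_neg, hy, sub_neg_eq_add, zero_add, smul_cons, smul_eq_mul, smul_empty, neg_smul, neg_cons, neg_zero, neg_empty, add_cons, head_cons, add_zero, tail_cons, empty_add_empty, neg_add_rev]
    · exact (Off.single oy.1 (by decide) (by decide) _).add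
        (((oy.smul _).add (ow.smul _)).add (oz.smul _))
    · exact (Off.single oy.1 (by decide) (by decide) _).add
        (((oy.smul _).add (ow.smul _)).add (oz.smul _))
    · simp only [Pi.add_apply, Pi.smul_apply]
      simp only [Fin.isValue, Nat.reduceAdd, ne_eq, Fin.reduceEq, not_false_eq_true, Pi.single_eq_of_ne, hy, Nat.succ_eq_add_one, cons_val_one, cons_val_zero, smul_eq_mul, mul_one, hw, mul_zero, add_zero, neg_sub, hz, zero_add, map_add, map_mul, hφ2, hi, hs, mul_neg, map_sub, map_one, sub_neg_eq_add, neg_mul]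
      exact fun e => mul_ne_zero h (mul_ne_zero h (mul_ne_zero h (mul_ne_zero i0 s0)))
        (by linear_combination -e)
    · simp only [Pi.add_apply, Pi.smul_apply]
      simp only [Fin.isValue, Nat.reduceAdd, ne_eq, Fin.reduceEq, not_false_eq_true, Pi.single_eq_of_ne, hy, Nat.succ_eq_add_one, cons_val_one, cons_val_zero, smul_eq_mul, mul_one, hw, mul_zero, add_zero, neg_sub, hz, zero_add, map_add, map_mul, hφ2, hi, hs, mul_neg, map_sub, map_one, sub_neg_eq_add, neg_mul]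
      intro e
      have k : (1 - 2 * s) * (1 + 2 * s) = 0 := mul_left_cancel₀ h (by
        linear_combination -e - 8 * s ^ 2 * ii)
      rcases mul_eq_zero.1 k with k | k <;> refine h ?_ <;> have := congrArg φ k <;>
        simp only [map_sub, map_add, map_mul, map_one, hφ2, hs, map_zero] at this <;>
        linear_combination k + this
    · simp only [Pi.add_apply, Pi.smul_apply]
      simp only [Fin.isValue, Nat.reduceAdd, ne_eq, Fin.reduceEq, not_false_eq_true, Pi.single_eq_of_ne, hy, Nat.succ_eq_add_one, cons_val, smul_eq_mul, mul_one, hw, neg_sub, hz, zero_add, neg_mul, neg_add_rev, mul_neg]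
      exact fun e => mul_ne_zero h (mul_ne_zero h (mul_ne_zero h s0)) (by
        linear_combination -e + 8 * s * ii)
  · obtain ⟨w, hw⟩ : ∃ w : Fin (5 + 1) → K, w = ![0, 1, 1 + i, 1 - i, -i, 0] := ⟨_, rfl⟩
    have ow : Off 0 w := hw ▸ ⟨by decide, rfl, rfl⟩
    have Ew : (u6E K).1 *ᵥ w = (-i) • w := x1_vec' fun k => by
      fin_cases k <;> simp only [Nat.reduceAdd, hw, Nat.succ_eq_add_one, Fin.zero_eta, Fin.isValue, Fin.revPerm_apply, Fin.rev, Fin.coe_ofNat_eq_mod, Nat.zero_mod, zero_add, Nat.add_one_sub_one, Fin.reduceFinMk, Pi.smul_apply, cons_val, smul_eq_mul, mul_zero, cons_val_zero, Units.val_neg, Units.val_one, Fin.mk_one, Nat.one_mod, Nat.reduceSub, mul_neg, neg_mul, ii, neg_neg, cons_val_one, mul_one, Nat.reduceMod, one_mul, neg_add_rev, Nat.mod_succ, tsub_self]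
      all_goals first | linear_combination ii | linear_combination -ii
    have ww : bu φ w w = 2 * i := by simp only [bu, Nat.reduceAdd, hw, Nat.succ_eq_add_one, Fin.rev, Nat.reduceSubDiff, Fin.sum_univ_succ, Fin.isValue, Fin.coe_ofNat_eq_mod, Nat.zero_mod, pow_zero, cons_val_zero, mul_zero, tsub_zero, Fin.reduceFinMk, cons_val, map_zero, Fin.val_succ, cons_val_succ, zero_add, pow_one, mul_one, map_neg, hi, neg_neg, neg_mul, one_mul, even_two, Even.neg_pow, one_pow, map_sub, map_one, sub_neg_eq_add, map_add, mul_neg, Fin.mk_one, cons_val_one, Finset.univ_unique, Fin.default_eq_zero, Fin.val_eq_zero, cons_val_fin_one, tsub_self, Fin.zero_eta, Finset.sum_const_zero, add_zero]; ring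
    have wy : bu φ w y = 0 := by
      simp only [bu, Nat.reduceAdd, hw, Nat.succ_eq_add_one, hy, Fin.rev, Nat.reduceSubDiff, Fin.sum_univ_succ, Fin.isValue, Fin.coe_ofNat_eq_mod, Nat.zero_mod, pow_zero, cons_val_zero, mul_zero, tsub_zero, Fin.reduceFinMk, cons_val, map_zero, Fin.val_succ, cons_val_succ, zero_add, pow_one, mul_one, hi, mul_neg, neg_mul, one_mul, neg_neg, even_two, Even.neg_pow, one_pow, map_one, Fin.mk_one, cons_val_one, Finset.univ_unique, Fin.default_eq_zero, Fin.val_eq_zero, cons_val_fin_one, tsub_self, Fin.zero_eta, Finset.sum_const_zero, add_zero]; linear_combination -ii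
    have yw : bu φ y w = 0 := by
      simp only [bu, Nat.reduceAdd, hy, Nat.succ_eq_add_one, hw, Fin.rev, Nat.reduceSubDiff, Fin.sum_univ_succ, Fin.isValue, Fin.coe_ofNat_eq_mod, Nat.zero_mod, pow_zero, cons_val_zero, mul_zero, tsub_zero, Fin.reduceFinMk, cons_val, map_zero, Fin.val_succ, cons_val_succ, zero_add, pow_one, mul_one, map_neg, hi, neg_neg, neg_mul, one_mul, even_two, Even.neg_pow, one_pow, map_sub, map_one, sub_neg_eq_add, map_add, Fin.mk_one, cons_val_one, Finset.univ_unique, Fin.default_eq_zero, Fin.val_eq_zero, cons_val_fin_one, tsub_self, Fin.zero_eta, Finset.sum_const_zero, add_zero]; linear_combination ii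
    have ap : ∀ v, (sie φ y w (-i)).1 *ᵥ v =
        v + ((bu φ v w + i * bu φ v y) • y + bu φ v y • w + (0 : K) • w) := fun v => by
      rw [sie_apply yy wy yw]; module
    refine u6_core hφ ne h h9 h25 (sie_fx hφ yy wy (by rw [ww, map_neg, hi]; ring))
      (u6_pow (g1 := y) (g2 := w) (g3 := w) (fun v => ⟨_, _, _, ap v⟩) (by rw [ap]; simp [yy, yw])
      (a := 2 * i) (by rw [ap, ww, wy]; module) (b := 2 * i) (c := 0) (by rw [ap, ww, wy]; module))
      (u6_inv hφ u6_fE yy wy Ey Ew (by simp [hi, ii]) (by rw [ww, hi]; linear_combination i * ii))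
      (fun g f e => u6_T hφ oy ow _ f e) ?_ ?_ (A := ![0, 2 + i, 2 + 2 * i, 0, 0, 0])
      (B := ![0, 0, -2, 1 + 1, 2 - i, 0]) ?_ ?_ ⟨by decide, rfl, rfl⟩ ⟨by decide, rfl, rfl⟩ ?_ ?_ ?_
    · rw [ap]; simp [bu_single_left, hy, hw, Fin.rev]
    · rw [ap]; simp only [Nat.reduceAdd, Fin.isValue, hw, Nat.succ_eq_add_one, bu_single_left, Fin.coe_ofNat_eq_mod, Nat.mod_succ, mul_one, Fin.rev, tsub_self, Fin.zero_eta, cons_val_zero, map_zero, mul_zero, hy, add_zero, zero_smul]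
    · rw [ap]; simp only [bu_single_left]
      ext k
      simp only [Pi.add_apply, Pi.smul_apply]
      fin_cases k <;> simp only [Fin.isValue, Nat.reduceAdd, Fin.zero_eta, ne_eq, Fin.reduceEq, not_false_eq_true, Pi.single_eq_of_ne, Fin.coe_ofNat_eq_mod, Nat.reduceMod, mul_one, hw, Nat.succ_eq_add_one, Fin.rev, Nat.reduceSub, Fin.mk_one, cons_val_one, cons_val_zero, map_one, hy, smul_eq_mul, mul_zero, add_zero, zero_add, Fin.reduceFinMk, cons_val, zero_mul, Pi.single_eq_same, mul_neg, neg_zero]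
      all_goals first | ring1 | linear_combination ii
    · rw [ap]; simp only [bu_single_left]
      ext k
      simp only [Pi.add_apply, Pi.smul_apply]
      fin_cases k <;> simp only [Fin.isValue, Nat.reduceAdd, Fin.zero_eta, ne_eq, zero_ne_one, not_false_eq_true, Pi.single_eq_of_ne, Fin.coe_ofNat_eq_mod, Nat.one_mod, pow_one, mul_one, hw, Nat.succ_eq_add_one, Fin.rev, Nat.reduceSub, Fin.reduceFinMk, cons_val, map_neg, hi, neg_neg, neg_mul, one_mul, hy, mul_neg, cons_val_zero, smul_eq_mul, mul_zero, add_zero, Fin.mk_one, Pi.single_eq_same, cons_val_one, neg_add_cancel_comm, Fin.reduceEq, zero_mul, zero_add, neg_zero]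
      all_goals first | linear_combination ii | linear_combination 2 * ii |
        linear_combination (i - 2) * ii
    · simp only [Fin.isValue, cons_val_one, cons_val_zero, map_add, hφ2, hi, add_sub_add_left_eq_sub, ne_eq]
      exact fun e => mul_ne_zero h i0 (by linear_combination -e)
    · simp [hi, hφ2]
      exact fun e => mul_ne_zero h h (by linear_combination e)
    · simp only [Fin.isValue, cons_val, mul_neg, zero_mul, neg_zero, sub_zero, ne_eq, mul_eq_zero, not_or]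
      exact ⟨fun e => mul_ne_zero h h (by linear_combination (1 - i) * e + 2 * ii),
        fun e => h (by linear_combination e)⟩

end Pool.Agent.MP_c78e8e_al.H75

end
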