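import Pool.Agent.MP_c78e8e_al.Mg.Sg_Ort
import Pool.Agent.MP_c78e8e_al.Mg.Sg_Mon
import Pool.Agent.MP_c78e8e_al.Sg.Sl2

attribute [-instance] instCharZeroOfIsSemireal FloorSemiring.instCharZero
  AlgHom.instNonUnitalAlgHomClassOfAlgHomClass RKHS.instFunLike RCLike.charZero_rclike
  MonTypeEquivalenceMon.monMonoid ContinuousSemilinearMapClass.toSemilinearMapClass
  IdemSemiring.toSemiring SetLike.GradeZero.instSemiring CoalgHomClass.toSemilinearMapClass
  instNonUnitalAlgHomClassOfNonUnitalAlgEquivClass NeZero.charZero_one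
  RingConeClass.toSubsemiringClass SetLike.GradeZero.instCommRing
  NonUnitalAlgHomClass.instLinearMapClass
  NonUnitalAlgHomClass.instSemilinearMapClassOfNonUnitalAlgSemiHomClassToMonoidHomRingHom
  instIsRightCancelAddOfAddRightReflectLE SetLike.GradeZero.instMonoid NumberField.to_charZero
  littleWedderburn SemilinearIsometryClass.toSemilinearMapClass RingHomClass.toLinearMapClassRat
  SetLike.GradeZero.instCommSemiring GrpTypeEquivalenceGrp.grpGroup
  RingHomClass.toLinearMapClassNNRat UniformSpace.toTopologicalSpace BooleanRing.toRing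
  BialgHomClass.toMonoidHomClass NormMulClass.toNoZeroDivisors
  NonUnitalAlgSemiHomClass.toDistribMulActionSemiHomClass instCoeTCOfCoe
  SemilatticeInf.toPartialOrder AlgHomClass.linearMapClass NormedRing.toRing LieRing.toAddCommGroup
  ValuationClass.toMonoidWithZeroHomClass NormedCommRing.toCommRing
  MulSemiringActionSemiHomClass.toDistribMulActionSemiHomClass IsStrictOrderedRing.toCharZero
  MonoidWithZero.toMulZeroOneClass SemilinearEquivClass.instSemilinearMapClass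
  ContinuousMonoidHom.instCoeOutOfMonoidHomClassOfContinuousMapClass GroupConeClass.toSubmonoidClass
  LieAdmissibleRing.toNonUnitalNonAssocRing CommGrpTypeEquivalenceCommGrp.commGrpCommGroup
  LinearOrderedAddCommMonoidWithTop.toAddCommMonoid NonUnitalRing.toNonUnitalNonAssocRing
  IdemSemiring.toSemilatticeSup AddGroupConeClass.toAddSubmonoidClass NormedField.toField
  CommMonTypeEquivalenceCommMon.commMonCommMonoid SeminormedRing.toRing SubringClass.toCommRing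
  TestFunctionClass.toDFunLike IsStrictOrderedRing.noZeroDivisors
  instCommGroupOfIsSimpleGroupOfIsNilpotent ContDiffMapSupportedInClass.toDFunLike
  EuclideanDomain.toCommRing RingSeminormClass.toAddGroupSeminormClass SubsemiringClass.instCharZero
  SeminormedCommRing.toCommRing MulSemiringAction.toDistribMulAction
  NonUnitalAlgSemiHomClass.toMulHomClass CentroidHomClass.toAddMonoidHomClass instCoeTOfCoeDep
  NonAssocCommSemiring.toNonAssocSemiring MulCharClass.toMonoidHomClass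
  AddCommGroupWithOne.toAddGroupWithOne NonUnitalNormedRing.toNormedAddCommGroup
  MulDistribMulActionSemiHomClass.toMonoidHomClass IdemCommSemiring.toCommSemiring
  NumberField.instFiniteDimensional LinearOrderedAddCommGroupWithTop.toAddCommMonoid
  NonUnitalNormedCommRing.toNonUnitalCommRing instCoeHTC instCoeHTCT instCoeTCOfCoe_1
  Unique.instSubsingleton NonUnitalAlgHomClass.toNonUnitalRingHomClass
  RingEquivClass.toNonUnitalRingHomClass LinearOrderedCommGroupWithZero.toCommGroupWithZero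
  MulZeroClass.toMul CommGroup.toGroup instCoeTC NonUnitalRing.toNonUnitalSemiring
  BooleanRing.toCommRing SeminormClass.toAddGroupSeminormClass instCoeOutOfCoeFun
  NonUnitalSeminormedCommRing.toNonUnitalCommRing NormedAlgebra.toAlgebra
  IsometryClass.instCoeOutIsometryEquiv Algebra.Smooth.flat RightPreLieRing.toNonUnitalNonAssocRing
  AlgHomClass.toRingHomClass LeftPreLieRing.toNonUnitalNonAssocRing IsFormallyReal.instIsReduced
  NonUnitalNonAssocCommSemiring.toNonUnitalNonAssocSemiring IsDedekindDomainDvr.isDedekindDomain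
  AddGroupNormClass.toAddGroupSeminormClass MonoidWithZero.toSemigroupWithZero
  ContinuousAddMonoidHom.instCoeOutOfAddMonoidHomClassOfContinuousMapClass
  HomeomorphClass.instCoeOutHomeomorph Semiring.toNonUnitalSemiring SeminormedGroup.toGroup
  instZeroLEOneClass LinearOrder.toDecidableEq NonAssocRing.toNonUnitalNonAssocRing
  NormedDivisionRing.toDivisionRing MulRingSeminormClass.toAddGroupSeminormClass
  MulSemiringAction.toMulDistribMulAction FloorSemiring.instZeroLEOneClass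
  CommSemiring.toNonUnitalCommSemiring Submodule.IsLattice.free Submodule.IsLattice.finite
  LinearOrderedAddCommGroupWithTop.toSubNegMonoid IsStrictOrderedRing.toZeroLEOneClass
  IsOrderedRing.toZeroLEOneClass

section

namespace Pool.Agent.MP_c78e8e_al.H75

open Subgroup Matrix

variable {r : ℕ} {K : Type} [Field K] {φ : K →+* K}

theorem x4a_four {G : Type} [Group G] (no : ∀ a b c : G, a * a = 1 → IsConj a b → IsConj a c →
      a ≠ b → a * b = b * a → Subgroup.closure ({a, b, c} : Set G) ≠ ⊤) {a b c d : G} (aa : a * a = 1)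
    (hb : IsConj a b) (hc : IsConj a c) (hd : IsConj a d) (ne : a ≠ b) (ab : a * b = b * a)
    (gen : Subgroup.closure ({a, b, c, d} : Set G) = ⊤) : IsLeast {n | Good G n} 4 := by
  constructor
  · have n1 : a ≠ 1 := by
      rintro rfl
      exact ne (isConj_one_right.1 hb).symm
    have ho : ∀ x, IsConj a x → orderOf x = 2 := by
      intro x hx
      obtain ⟨g, rfl⟩ := isConj_iff.1 hx
      rw [show g * a * g⁻¹ = MulAut.conj g a from rfl, MulEquiv.orderOf_eq]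
      exact orderOf_eq_prime (by rw [pow_two, aa]) n1
    have hall : ∀ i : Fin 4, IsConj a (![a, b, c, d] i) := by
      intro i; fin_cases i
      exacts [IsConj.refl a, hb, hc, hd]
    have nc := no a b c aa hb hc ne ab
    have nd := no a b d aa hb hd ne ab
    have ac : a ≠ c := by rintro rfl; apply nd; rw [← gen]; congr 1; ext; simp; tauto
    have bc : b ≠ c := by rintro rfl; apply nd; rw [← gen]; congr 1; ext; simp
    have ad : a ≠ d := by rintro rfl; apply nc; rw [← gen]; congr 1; ext; simp; tauto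
    have bd : b ≠ d := by rintro rfl; apply nc; rw [← gen]; congr 1; ext; simp; tauto
    have cd : c ≠ d := by rintro rfl; apply nc; rw [← gen]; congr 1; ext; simp
    refine ⟨![a, b, c, d], ?_, fun i => ho _ (hall i), ?_, fun i j => (hall i).symm.trans (hall j),
      0, 1, by decide, ab⟩
    · exact List.nodup_ofFn.1 (by simp [ne, ac, ad, bc, bd, cd])
    · rw [← gen]; congr 1; ext x; simp; tauto
  · rintro n ⟨t, inj, ho, hc, cj, i, j, hij, cm⟩
    by_contra hn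
    obtain ⟨k, hk⟩ : ∃ k : Fin n, ∀ l, l = i ∨ l = j ∨ l = k := by
      by_contra h
      push Not at h
      obtain ⟨k, k1, k2, -⟩ := h i
      obtain ⟨l, l1, l2, l3⟩ := h k
      have := i.2; have := j.2; have := k.2; have := l.2
      simp only [ne_eq, Fin.ext_iff] at hij k1 k2 l1 l2 l3
      omega
    refine no (t i) (t j) (t k) (by rw [← pow_two, ← ho i, pow_orderOf_eq_one]) (cj _ _) (cj _ _)
      (fun e => hij (inj e)) cm (top_le_iff.1 (hc.ge.trans (Subgroup.closure_mono ?_)))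
    rintro _ ⟨l, rfl⟩
    rcases hk l with rfl | rfl | rfl <;> simp

/-- No three conjugate involutions modulo scalars, two of them commuting, generate `G`. -/
def No3 (G : Subgroup (GL (Fin (r + 1)) K)) : Prop :=
  ∀ a ∈ G, ∀ b ∈ G, ∀ c ∈ G, ∀ g ∈ G, ∀ g' ∈ G, Sc (a * a) → Sc (b⁻¹ * (g * a * g⁻¹)) →
    Sc (c⁻¹ * (g' * a * g'⁻¹)) → Sc ((a * b)⁻¹ * (b * a)) → ¬ Sc (a⁻¹ * b) →
    ∃ H : Subgroup (GL (Fin (r + 1)) K), (∀ z, Sc z → z ∈ H) ∧ a ∈ H ∧ b ∈ H ∧ c ∈ H ∧ ¬ G ≤ H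

theorem x4a_tr {G' : Type} [Group G'] (Ψ : GL (Fin (r + 1)) K →* G') (ker : ∀ g, Ψ g = 1 ↔ Sc g)
    {G : Subgroup (GL (Fin (r + 1)) K)} {N : Subgroup G'} (mem : G ≤ N.comap Ψ)
    (sur : N ≤ G.map Ψ) (no : No3 G) {a b c d g g' g'' : GL (Fin (r + 1)) K} (ha : a ∈ G) (hb : b ∈ G)
    (hc : c ∈ G) (hd : d ∈ G) (hg : g ∈ G) (hg' : g' ∈ G) (hg'' : g'' ∈ G) (aa : Sc (a * a))
    (eb : Sc (b⁻¹ * (g * a * g⁻¹))) (ec : Sc (c⁻¹ * (g' * a * g'⁻¹)))
    (ed : Sc (d⁻¹ * (g'' * a * g''⁻¹))) (ab : Sc ((a * b)⁻¹ * (b * a))) (ne : ¬ Sc (a⁻¹ * b))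
    (gen : ∀ H : Subgroup G', Ψ a ∈ H → Ψ b ∈ H → Ψ c ∈ H → Ψ d ∈ H → N ≤ H) :
    IsLeast {n | Good N n} 4 := by
  have k2 : ∀ x y, Sc (x⁻¹ * y) ↔ Ψ x = Ψ y := fun x y => by
    rw [← ker, map_mul, map_inv, inv_mul_eq_one]
  have cj : ∀ {x y : GL (Fin (r + 1)) K} (hx : x ∈ G), y ∈ G → Sc (x⁻¹ * (y * a * y⁻¹)) →
      IsConj (⟨_, mem ha⟩ : N) ⟨_, mem hx⟩ := fun hx hy e =>
    isConj_iff.2 ⟨⟨_, mem hy⟩, Subtype.ext (by simpa only [coe_mul, InvMemClass.coe_inv, map_mul, map_inv] using ((k2 _ _).1 e).symm)⟩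
  refine x4a_four ?_ (Subtype.ext (by simpa only [coe_mul, OneMemClass.coe_one, map_mul] using (ker _).2 aa)) (cj hb hg eb) (cj hc hg' ec)
    (cj hd hg'' ed) (fun e => ne ((k2 _ _).2 (congrArg Subtype.val e)))
    (Subtype.ext (by simpa only [coe_mul, map_mul] using (k2 _ _).1 ab)) ?_
  · rintro ⟨x, hx⟩ ⟨y, hy⟩ ⟨z, hz⟩ xx xy xz n cm e
    obtain ⟨⟨u, hu⟩, e1⟩ := isConj_iff.1 xy
    obtain ⟨⟨v, hv⟩, e2⟩ := isConj_iff.1 xz
    obtain ⟨x, mx, rfl⟩ := sur hx
    obtain ⟨y, my, rfl⟩ := sur hy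
    obtain ⟨z, mz, rfl⟩ := sur hz
    obtain ⟨u, mu, rfl⟩ := sur hu
    obtain ⟨v, mv, rfl⟩ := sur hv
    obtain ⟨H, sc, h1, h2, h3, nl⟩ := no x mx y my z mz u mu v mv
      ((ker _).1 (by simpa only [map_mul, MulMemClass.mk_mul_mk, OneMemClass.coe_one] using congrArg Subtype.val xx))
      ((k2 _ _).2 (by simpa only [map_mul, map_inv, MulMemClass.mk_mul_mk, coe_mul, InvMemClass.coe_inv] using (congrArg Subtype.val e1).symm))
      ((k2 _ _).2 (by simpa only [map_mul, map_inv, MulMemClass.mk_mul_mk, coe_mul, InvMemClass.coe_inv] using (congrArg Subtype.val e2).symm))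
      ((k2 _ _).2 (by simpa only [map_mul, MulMemClass.mk_mul_mk] using congrArg Subtype.val cm))
      fun h => n (Subtype.ext ((k2 _ _).1 h))
    refine nl fun w hw => ?_
    have : Subgroup.closure {⟨_, hx⟩, ⟨_, hy⟩, (⟨_, hz⟩ : N)} ≤ (H.map Ψ).comap N.subtype := by
      rw [Subgroup.closure_le]
      rintro _ (rfl | rfl | rfl)
      exacts [⟨_, h1, rfl⟩, ⟨_, h2, rfl⟩, ⟨_, h3, rfl⟩]
    obtain ⟨w', hw', e'⟩ := this (e ▸ mem_top (⟨_, mem hw⟩ : N))
    simpa using H.mul_mem hw' (sc _ ((k2 w' w).2 e'))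
  · apply Subgroup.map_injective N.subtype_injective
    rw [MonoidHom.map_closure, ← MonoidHom.range_eq_map, range_subtype]
    simp only [Set.image_insert_eq, Set.image_singleton, coe_subtype]
    refine le_antisymm ?_ (gen _ (subset_closure (by simp)) (subset_closure (by simp))
      (subset_closure (by simp)) (subset_closure (by simp)))
    rw [Subgroup.closure_le]
    rintro x (rfl | rfl | rfl | rfl)
    exacts [mem ha, mem hb, mem hc, mem hd]

theorem trSL (hr : 2 ≤ r) : ∃ Ψ : GL (Fin (r + 1)) K →* Equiv.Perm (Lie (CartanMatrix.A r) K),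
    (∀ g, Ψ g = 1 ↔ Sc g) ∧ slg r K ≤ (chev (CartanMatrix.A r) 1 (RingHom.id K)).comap Ψ ∧
    ∀ H : Subgroup (Equiv.Perm (Lie (CartanMatrix.A r) K)), (∀ (i : Fin r) s,
      el i.castSucc i.succ s ∈ H.comap Ψ ∧ el i.succ i.castSucc s ∈ H.comap Ψ) →
      chev (CartanMatrix.A r) 1 (RingHom.id K) ≤ H := by
  obtain ⟨Ψ, ker, rg, -⟩ := nat_ex (K := K) hr
  have mem : slg r K ≤ (chev (CartanMatrix.A r) 1 (RingHom.id K)).comap Ψ := by
    rw [slg, Subgroup.closure_le]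
    rintro _ ⟨i, j, s, rfl⟩
    by_cases h : i = j
    · simp [el, h]
    · refine subset_closure ⟨fun v => by rw [natb_one, natb_one], ⟨_, rtA_root h⟩,
        subset_closure (natb_un _ (Or.inl ?_))⟩
      rw [rg i j h]
      exact ⟨s, rfl⟩
  refine ⟨Ψ, ker, mem, fun H k => ?_⟩
  refine natb_gen (fun _ => rfl) (fun _ _ => rfl) (fun _ => rfl) (goodA hr) 1 0 0 (by simp)
    (by simp only [Equiv.Perm.coe_one, CompTriple.comp_eq, AddMonoidHom.zero_apply, implies_true]) (by simp only [Equiv.Perm.coe_one, id_eq, lt_self_iff_false, ↓ reduceIte, Finset.sum_const_zero, AddMonoidHom.zero_apply, mul_zero, add_zero, Even.zero, implies_true]) fun i β e u _ hu => (Subgroup.closure_le H).2 ?_ hu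
  have ne : i.castSucc ≠ i.succ := Fin.castSucc_lt_succ.ne
  change rootGroup _ K β ∪ rootGroup _ K β ⊆ _
  rw [Set.union_self]
  rcases e with rfl | rfl
  · rw [← natb_up, rg _ _ ne]
    rintro _ ⟨s, rfl⟩
    exact (k i s).1
  · rw [← natb_down, rg _ _ ne.symm]
    rintro _ ⟨s, rfl⟩
    exact (k i s).2

theorem trSU (hr : 2 ≤ r) (hφ : ∀ s, φ (φ s) = s) (hev : Even r → φ ≠ RingHom.id K) :
    ∃ Ψ : GL (Fin (r + 1)) K →* Equiv.Perm (Lie (CartanMatrix.A r) K),
    (∀ g, Ψ g = 1 ↔ Sc g) ∧ sug r φ ≤ (chev (CartanMatrix.A r) Fin.revPerm φ).comap Ψ ∧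
    ∀ H : Subgroup (Equiv.Perm (Lie (CartanMatrix.A r) K)), (∀ i : Fin r,
      rt φ i.castSucc i.succ ⊆ H.comap Ψ ∧ rt φ i.succ i.castSucc ⊆ H.comap Ψ) →
      chev (CartanMatrix.A r) Fin.revPerm φ ≤ H := by
  obtain ⟨Ψ, ker, rg, tw⟩ := nat_ex (K := K) hr
  have hρ : ∀ i : Fin r, Fin.revPerm (Fin.revPerm i) = i := by simp
  have hρC : ∀ i j, CartanMatrix.A r (Fin.revPerm i) (Fin.revPerm j) = CartanMatrix.A r i j :=
    fun i j => by rw [← gramA, ← rA_tA, ← rA_tA, dp_rA, gramA]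
  have cl : ∀ i j : Fin (r + 1), i ≠ j → Subgroup.closure (rootGroup (CartanMatrix.A r) K (rtA i j) ∪
      rootGroup (CartanMatrix.A r) K (rtA i j ∘ Fin.revPerm)) =
      (Subgroup.closure (Set.range (el i j) ∪ Set.range (el j.rev i.rev))).map Ψ := fun i j h => by
    rw [MonoidHom.map_closure, Set.image_union, ← Set.range_comp, ← Set.range_comp, rtA_rev,
      rg i j h, rg _ _ fun e => h (Fin.rev_injective e).symm]
    rfl
  have mem : sug r φ ≤ (chev (CartanMatrix.A r) Fin.revPerm φ).comap Ψ := by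
    rw [sug, Subgroup.closure_le]
    rintro w ⟨i, j, f, hw⟩
    by_cases h : i = j
    · subst h
      have : Subgroup.closure (Set.range (el (K := K) i i) ∪ Set.range (el i.rev i.rev)) ≤ ⊥ := by
        rw [Subgroup.closure_le]
        rintro _ (⟨s, rfl⟩ | ⟨s, rfl⟩) <;> simp [el]
      rw [Subgroup.mem_bot.1 (this hw)]
      exact one_mem _
    · refine subset_closure ⟨tw φ w w f, ⟨_, rtA_root h⟩, closure_mono (natb_un _) ?_⟩
      rw [cl i j h]
      exact ⟨w, hw, rfl⟩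
  refine ⟨Ψ, ker, mem, fun H k => ?_⟩
  have key : ∀ i j : Fin (r + 1), i ≠ j → rt φ i j ⊆ H.comap Ψ →
      ∀ u : Equiv.Perm (Lie (CartanMatrix.A r) K), (∀ v, u (sigma _ Fin.revPerm φ v) =
        sigma _ Fin.revPerm φ (u v)) → u ∈ Subgroup.closure (rootGroup _ K (rtA i j) ∪
        rootGroup _ K (rtA i j ∘ Fin.revPerm)) → u ∈ H := by
    intro i j h sub u cm hu
    rw [cl i j h] at hu
    obtain ⟨w, hw, rfl⟩ := hu
    obtain ⟨w', hw', e⟩ := natb_tw (φ := φ) h hw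
    have e1 : Ψ w = Ψ w' := Equiv.ext fun v => by
      rw [← sigma_sigma hρ hρC hφ (goodA hr) v, tw φ w w' e, cm]
    obtain ⟨z, hz⟩ := (ker (w⁻¹ * w')).1 (by simp only [map_mul, map_inv, e1, inv_mul_cancel])
    obtain ⟨l, l1, l2⟩ : ∃ l : Fin (r + 1), j ≠ l ∧ i.rev ≠ l := by
      by_contra hn
      push Not at hn
      have p0 := hn ⟨0, by omega⟩
      have p1 := hn ⟨1, by omega⟩
      have p2 := hn ⟨2, by omega⟩
      simp only [ne_eq, Fin.ext_iff] at p0 p1 p2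
      omega
    have e2 := congrFun (congrFun (natb_fix h l1 l2 (mul_mem (inv_mem hw) hw')) l) l
    rw [hz] at e2
    have e3 : w⁻¹ * w' = 1 := Units.ext (by rw [hz, show z = 1 by simpa using e2]; simp)
    rw [inv_mul_eq_one] at e3
    subst e3
    exact sub ⟨e, hw⟩
  obtain ⟨j, m, χ, hj, hχ, hf⟩ := natb_model hr hφ hev
  have h7 : ∀ v, rA r (tau (tA r) v) = tau (tA r) (v ∘ Fin.revPerm) := fun v => by
    simp only [tau_apply, map_sum, map_zsmul, rA_tA]
    rw [← Equiv.sum_comp Fin.revPerm]; simp only [Fin.revPerm_apply, Fin.rev_rev, zsmul_eq_mul, Function.comp_apply]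
  refine natb_gen hρ hρC hφ (goodA hr) j m χ hj
    (fun β a b => hχ β (by rw [tau_iso gramA, a]) (by rw [h7, tau_iso gramA, b])) hf
    fun i β e => ?_
  have ne : i.castSucc ≠ i.succ := Fin.castSucc_lt_succ.ne
  rcases e with rfl | rfl
  · rw [← natb_up]; exact key _ _ ne (k i).1
  · rw [← natb_down]; exact key _ _ ne.symm (k i).2

/-- Transfer for the special linear groups, four generators. -/
theorem fourSL (hr : 2 ≤ r) (no : No3 (slg r K)) {a b c d g g' g'' : GL (Fin (r + 1)) K}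
    (ha : a ∈ slg r K) (hb : b ∈ slg r K) (hc : c ∈ slg r K) (hd : d ∈ slg r K) (hg : g ∈ slg r K)
    (hg' : g' ∈ slg r K) (hg'' : g'' ∈ slg r K) (aa : Sc (a * a))
    (eb : Sc (b⁻¹ * (g * a * g⁻¹))) (ec : Sc (c⁻¹ * (g' * a * g'⁻¹)))
    (ed : Sc (d⁻¹ * (g'' * a * g''⁻¹))) (ab : Sc ((a * b)⁻¹ * (b * a))) (ne : ¬ Sc (a⁻¹ * b))
    (gen : ∀ H : Subgroup (GL (Fin (r + 1)) K), (∀ z, Sc z → z ∈ H) → a ∈ H → b ∈ H → c ∈ H →
      d ∈ H → ∀ (i : Fin r) s, el i.castSucc i.succ s ∈ H ∧ el i.succ i.castSucc s ∈ H) :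
    IsLeast {n | Good (chev (CartanMatrix.A r) 1 (RingHom.id K)) n} 4 := by
  obtain ⟨Ψ, ker, mem, k⟩ := trSL (K := K) hr
  exact x4a_tr Ψ ker mem (k _ fun i s => ⟨⟨_, subset_closure ⟨_, _, _, rfl⟩, rfl⟩,
    ⟨_, subset_closure ⟨_, _, _, rfl⟩, rfl⟩⟩) no ha hb hc hd hg hg' hg'' aa eb ec ed ab ne
    fun H h1 h2 h3 h4 => k H (gen _ (fun z hz => by simp [(ker z).2 hz]) h1 h2 h3 h4)

/-- Transfer for the symplectic and special unitary groups, four generators. -/
theorem fourSU (hr : 2 ≤ r) (hφ : ∀ s, φ (φ s) = s) (hev : Even r → φ ≠ RingHom.id K)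
    (no : No3 (sug r φ)) {a b c d g g' g'' : GL (Fin (r + 1)) K}
    (ha : a ∈ sug r φ) (hb : b ∈ sug r φ) (hc : c ∈ sug r φ) (hd : d ∈ sug r φ) (hg : g ∈ sug r φ)
    (hg' : g' ∈ sug r φ) (hg'' : g'' ∈ sug r φ) (aa : Sc (a * a))
    (eb : Sc (b⁻¹ * (g * a * g⁻¹))) (ec : Sc (c⁻¹ * (g' * a * g'⁻¹)))
    (ed : Sc (d⁻¹ * (g'' * a * g''⁻¹))) (ab : Sc ((a * b)⁻¹ * (b * a))) (ne : ¬ Sc (a⁻¹ * b))
    (gen : ∀ H : Subgroup (GL (Fin (r + 1)) K), (∀ z, Sc z → z ∈ H) → a ∈ H → b ∈ H → c ∈ H →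
      d ∈ H → ∀ i : Fin r, rt φ i.castSucc i.succ ⊆ H ∧ rt φ i.succ i.castSucc ⊆ H) :
    IsLeast {n | Good (chev (CartanMatrix.A r) Fin.revPerm φ) n} 4 := by
  obtain ⟨Ψ, ker, mem, k⟩ := trSU hr hφ hev
  exact x4a_tr Ψ ker mem (k _ fun i => ⟨fun _ h => ⟨_, rt_mem h, rfl⟩, fun _ h => ⟨_, rt_mem h, rfl⟩⟩)
    no ha hb hc hd hg hg' hg'' aa eb ec ed ab ne
    fun H h1 h2 h3 h4 => k H (gen _ (fun z hz => by simp [(ker z).2 hz]) h1 h2 h3 h4)

end Pool.Agent.MP_c78e8e_al.H75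

end

section

namespace Pool.Agent.MP_c78e8e_al.H75

open Subgroup Matrix

variable {K : Type} [Field K] {φ : K →+* K}

theorem x4b_rk {n : ℕ} {N : Matrix (Fin n) (Fin n) K} (h : N.rank ≤ 1) :
    ∃ u f : Fin n → K, N = vecMulVec u f := by
  obtain ⟨⟨u, hu⟩, hv⟩ := finrank_le_one_iff.1 h
  choose c hc using fun j => hv ⟨N *ᵥ Pi.single j 1, Pi.single j 1, rfl⟩
  refine ⟨u, c, ?_⟩
  ext i j
  have := congrFun (congrArg Subtype.val (hc j)) i
  simp only [Submodule.coe_smul, Pi.smul_apply, smul_eq_mul, mulVec_single_one, col_apply] at this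
  rw [vecMulVec_apply, ← this, mul_comm]

theorem x4b_form {A : Matrix (Fin 3) (Fin 3) K} (hA : A * A = 1) (hd : A.det = 1) (ne : A ≠ 1) :
    ∃ u f : Fin 3 → K, A = vecMulVec u f - 1 ∧ f ⬝ᵥ u = 2 ∧ u ≠ 0 ∧ f ≠ 0 := by
  have two : (2 : K) = 0 → A + 1 = A - 1 := fun h => by
    rw [← sub_eq_zero, show A + 1 - (A - 1) = (2 : K) • 1 by rw [two_smul]; abel, h, zero_smul]
  have n0 : A + 1 ≠ 0 := fun h => by
    have e : A = -1 := eq_neg_of_add_eq_zero_left h
    rw [e, det_neg] at hd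
    simp only [Fintype.card_fin, det_one, mul_one] at hd
    exact ne (sub_eq_zero.1 (two (by linear_combination -hd) ▸ h))
  have r1 : (A + 1).rank ≤ 1 := by
    have e : (A + 1) * (A - 1) = 0 := by rw [add_mul, mul_sub, hA]; simp
    have := rank_add_rank_le_card_of_mul_eq_zero e
    rw [Fintype.card_fin] at this
    by_contra hn
    obtain ⟨x, y, hx⟩ := x4b_rk (show (A - 1).rank ≤ 1 by omega)
    have e1 : A = 1 + vecMulVec x y := by rw [← hx]; abel
    have e2 : y ⬝ᵥ x = 0 := by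
      rw [e1, vecMulVec_eq Unit, det_one_add_replicateCol_mul_replicateRow] at hd
      linear_combination hd
    have e3 : (2 : K) • (A - 1) = 0 := by
      have : (A - 1) * (A - 1) = 0 := by rw [hx, vecMulVec_mul_vecMulVec, e2]; simp
      rw [sub_mul, mul_sub, hA] at this
      rw [← neg_eq_zero, ← this, two_smul]; simp only [Matrix.mul_one, Matrix.one_mul]; abel
    rcases smul_eq_zero.1 e3 with h | h
    · rw [two h] at hn this; omega
    · exact ne (sub_eq_zero.1 h)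
  obtain ⟨u, f, h⟩ := x4b_rk r1
  refine ⟨u, f, by rw [← h]; abel, ?_, ?_, ?_⟩
  · have e : (A + 1) * (A + 1) = (2 : K) • (A + 1) := by
      rw [add_mul, mul_add, hA, two_smul]; simp only [Matrix.mul_one, Matrix.one_mul]; abel
    rw [h, vecMulVec_mul_vecMulVec, vecMulVec_smul, ← h, ← sub_eq_zero, ← sub_smul] at e
    exact sub_eq_zero.1 ((smul_eq_zero.1 e).resolve_right n0)
  · rintro rfl; exact n0 (by rw [h]; simp)
  · rintro rfl; exact n0 (by rw [h]; simp)

theorem x4b_comm {u f v g : Fin 3 → K} (h1 : f ⬝ᵥ u = 2) (h2 : g ⬝ᵥ v = 2) (u0 : u ≠ 0)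
    (v0 : v ≠ 0) (g0 : g ≠ 0) (ne : vecMulVec u f ≠ vecMulVec v g)
    (cm : vecMulVec u f * vecMulVec v g = vecMulVec v g * vecMulVec u f) : f ⬝ᵥ v = 0 := by
  rw [vecMulVec_mul_vecMulVec, vecMulVec_mul_vecMulVec, vecMulVec_smul, vecMulVec_smul] at cm
  by_contra hn
  have e1 : (2 : K) • u = (g ⬝ᵥ u) • v := by
    have := congrArg (· *ᵥ v) cm
    simp only [smul_mulVec, vecMulVec_mulVec, op_smul_eq_smul, h2] at this
    rw [smul_comm (g ⬝ᵥ u)] at this
    exact smul_right_injective _ hn this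
  have e2 : (2 : K) • g = (g ⬝ᵥ u) • f := by
    have := congrArg (f ᵥ* ·) cm
    simp only [vecMul_smul, vecMul_vecMulVec, h1] at this
    rw [smul_comm (g ⬝ᵥ u)] at this
    exact smul_right_injective _ hn this
  by_cases h : (2 : K) = 0
  · rw [h, zero_smul] at e1
    rw [(smul_eq_zero.1 e1.symm).resolve_right v0, zero_smul] at cm
    exact vecMulVec_ne_zero u0 g0 ((smul_eq_zero.1 cm).resolve_left hn)
  · refine ne (smul_right_injective _ h ?_)
    simp only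
    rw [← smul_vecMulVec, e1, ← vecMulVec_smul, e2, smul_vecMulVec, vecMulVec_smul]

/-- A symmetric matrix given by its diagonal and its off-diagonal entries. -/
def x4bS (d e : Fin 3 → K) : Matrix (Fin 3) (Fin 3) K :=
  !![d 0, e 2, e 1; e 2, d 1, e 0; e 1, e 0, d 2]

theorem x4b_ex {u f v g w h : Fin 3 → K} (u0 : u ≠ 0) (v0 : v ≠ 0) (w0 : w ≠ 0) (g0 : g ≠ 0)
    (fv : f ⬝ᵥ v = 0) (gu : g ⬝ᵥ u = 0) : ∃ (F : Matrix (Fin 3) (Fin 3) K) (m : Fin 3 → K),
    F ≠ 0 ∧ Fᵀ = F ∧ F *ᵥ f = m 0 • u ∧ F *ᵥ g = m 1 • v ∧ F *ᵥ h = m 2 • w := by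
  have ad : ∀ d e d' e' : Fin 3 → K, x4bS (d + d') (e + e') = x4bS d e + x4bS d' e' := by
    intro d e d' e'; simp [x4bS]
  have sm : ∀ (c : K) (d e : Fin 3 → K), x4bS (c • d) (c • e) = c • x4bS d e := by
    intro c d e; simp [x4bS]
  have sy : ∀ d e : Fin 3 → K, (x4bS d e)ᵀ = x4bS d e := by
    intro d e; ext i j; fin_cases i <;> fin_cases j <;> rfl
  let T : ((Fin 3 → K) × (Fin 3 → K) × (Fin 3 → K)) →ₗ[K] (Fin 3 → K) × (Fin 3 → K) × (Fin 3 → K) :=
    { toFun := fun p => (x4bS p.1 p.2.1 *ᵥ f - p.2.2 0 • u, x4bS p.1 p.2.1 *ᵥ g - p.2.2 1 • v,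
        x4bS p.1 p.2.1 *ᵥ h - p.2.2 2 • w)
      map_add' := fun p q => by
        simp only [Prod.fst_add, Prod.snd_add, ad, add_mulVec, Pi.add_apply, add_smul, Prod.mk_add_mk,
          add_sub_add_comm]
      map_smul' := fun c p => by
        simp only [Prod.smul_fst, Prod.smul_snd, sm, smul_mulVec, Pi.smul_apply, smul_eq_mul,
          mul_smul, RingHom.id_apply, Prod.smul_mk, smul_sub] }
  have ns : ¬ Function.Surjective T := fun hs => by
    obtain ⟨i, hi⟩ := Function.ne_iff.1 g0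
    obtain ⟨p, hp⟩ := hs (Pi.single i 1, 0, 0)
    have a1 : x4bS p.1 p.2.1 *ᵥ f - p.2.2 0 • u = Pi.single i 1 := congrArg Prod.fst hp
    have a2 : x4bS p.1 p.2.1 *ᵥ g - p.2.2 1 • v = 0 := congrArg (fun x => x.2.1) hp
    have b1 := congrArg (g ⬝ᵥ ·) a1
    have b2 := congrArg (f ⬝ᵥ ·) a2
    simp only [dotProduct_sub, dotProduct_smul, gu, fv, smul_zero, sub_zero, dotProduct_zero,
      dotProduct_single, mul_one] at b1 b2
    rw [dotProduct_mulVec, ← mulVec_transpose, sy, dotProduct_comm, b2] at b1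
    exact hi b1.symm
  rw [← LinearMap.injective_iff_surjective, injective_iff_map_eq_zero] at ns
  push Not at ns
  obtain ⟨p, hp, p0⟩ := ns
  have a1 : x4bS p.1 p.2.1 *ᵥ f - p.2.2 0 • u = 0 := congrArg Prod.fst hp
  have a2 : x4bS p.1 p.2.1 *ᵥ g - p.2.2 1 • v = 0 := congrArg (fun x => x.2.1) hp
  have a3 : x4bS p.1 p.2.1 *ᵥ h - p.2.2 2 • w = 0 := congrArg (fun x => x.2.2) hp
  refine ⟨_, p.2.2, fun e => p0 ?_, sy _ _, sub_eq_zero.1 a1, sub_eq_zero.1 a2, sub_eq_zero.1 a3⟩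
  rw [e, zero_mulVec, zero_sub, neg_eq_zero, smul_eq_zero] at a1 a2 a3
  have c := fun i j => congrFun (congrFun e i) j
  refine Prod.ext (funext fun i => ?_) (Prod.ext (funext fun i => ?_) (funext fun i => ?_))
  · fin_cases i
    exacts [c 0 0, c 1 1, c 2 2]
  · fin_cases i
    exacts [c 1 2, c 0 2, c 0 1]
  · fin_cases i
    exacts [a1.resolve_right u0, a2.resolve_right v0, a3.resolve_right w0]

theorem x4b_inv {u f : Fin 3 → K} {F : Matrix (Fin 3) (Fin 3) K} {m : K} (sy : Fᵀ = F)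
    (h : F *ᵥ f = m • u) (h2 : f ⬝ᵥ u = 2) :
    (vecMulVec u f - 1) * F * (vecMulVec u f - 1)ᵀ = F := by
  have h' : f ᵥ* F = m • u := by rw [← mulVec_transpose, sy, h]
  rw [transpose_sub, transpose_vecMulVec, transpose_one, sub_mul, Matrix.one_mul, vecMulVec_mul, h',
    mul_sub, Matrix.mul_one, sub_mul, vecMulVec_mul_vecMulVec, mul_vecMulVec, h, smul_dotProduct,
    dotProduct_comm, h2]
  simp only [vecMulVec_smul, smul_vecMulVec]
  module

/-- The stabiliser of the line spanned by a nonzero matrix. -/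
def x4bH {F : Matrix (Fin 3) (Fin 3) K} (h : F ≠ 0) : Subgroup (GL (Fin (2 + 1)) K) where
  carrier := {g | ∃ l : K, g.1 * F * g.1ᵀ = l • F}
  one_mem' := ⟨1, by simp⟩
  mul_mem' := by
    rintro a b ⟨l, hl⟩ ⟨m, hm⟩
    refine ⟨m * l, ?_⟩
    rw [Units.val_mul, transpose_mul, show a.1 * b.1 * F * (b.1ᵀ * a.1ᵀ) =
      a.1 * (b.1 * F * b.1ᵀ) * a.1ᵀ by simp only [Matrix.mul_assoc], hm, Matrix.mul_smul,
      Matrix.smul_mul, hl, smul_smul]
  inv_mem' := by
    rintro a ⟨l, hl⟩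
    have e : F = l • ((a⁻¹).1 * F * (a⁻¹).1ᵀ) := by
      rw [← Matrix.smul_mul, ← Matrix.mul_smul, ← hl, show (a⁻¹).1 * (a.1 * F * a.1ᵀ) * (a⁻¹).1ᵀ =
        ((a⁻¹).1 * a.1) * F * ((a⁻¹).1 * a.1)ᵀ by simp only [transpose_mul, Matrix.mul_assoc],
        Units.inv_mul]
      simp
    have l0 : l ≠ 0 := by rintro rfl; exact h (by rw [e, zero_smul])
    exact ⟨l⁻¹, by rw [eq_inv_smul_iff₀ l0, ← e]⟩

theorem x4b_smul {F A : Matrix (Fin 3) (Fin 3) K} (h : F ≠ 0) {a : GL (Fin (2 + 1)) K} {z : K}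
    (e : a.1 = z • A) (k : A * F * Aᵀ = F) : a ∈ x4bH h :=
  ⟨z * z, by rw [e, transpose_smul, Matrix.mul_smul, Matrix.smul_mul, Matrix.smul_mul, k, smul_smul]⟩

theorem x4b_det {g : GL (Fin (2 + 1)) K} (h : g ∈ slg 2 K) : g.1.det = 1 := by
  induction h using Subgroup.closure_induction with
  | mem x hx =>
    obtain ⟨i, j, s, rfl⟩ := hx
    by_cases e : i = j
    · simp [el, e]
    · rw [el_val e]; exact det_transvection_of_ne i j e s
  | one => simp
  | mul x y _ _ hx hy => rw [Units.val_mul, det_mul, hx, hy, one_mul]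
  | inv x _ hx =>
    have := congrArg det x.inv_mul
    rwa [det_mul, hx, mul_one, det_one] at this

theorem x4b_le : sug 2 φ ≤ slg 2 K := by
  rw [sug, Subgroup.closure_le]
  rintro g ⟨i, j, -, hg⟩
  refine Subgroup.closure_mono ?_ hg
  rintro _ (⟨s, rfl⟩ | ⟨s, rfl⟩) <;> exact ⟨_, _, _, rfl⟩

theorem x4b_sc {x y : GL (Fin (2 + 1)) K} (h : Sc (x⁻¹ * y)) : ∃ w : K, w ≠ 0 ∧ y.1 = w • x.1 := by
  obtain ⟨w, hw⟩ := h
  refine ⟨w, ?_, ?_⟩
  · rintro rfl
    exact (x⁻¹ * y).ne_zero (by rw [hw, zero_smul])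
  · have := congrArg (x.1 * ·) hw
    simpa only [Units.val_mul, ← Matrix.mul_assoc, Units.mul_inv, Matrix.one_mul, Matrix.mul_smul,
      Matrix.mul_one] using this

theorem x4b_cj {a b g : GL (Fin (2 + 1)) K} {z : K} (h : Sc (b⁻¹ * (g * a * g⁻¹))) (z0 : z ≠ 0)
    (aa : (z • a.1) * (z • a.1) = 1) (d : (z • a.1).det = 1) (ne : z • a.1 ≠ 1) :
    ∃ (B : Matrix (Fin 3) (Fin 3) K) (w : K), w ≠ 0 ∧ B = w • b.1 ∧ B * B = 1 ∧ B.det = 1 ∧ B ≠ 1 := by
  obtain ⟨w, w0, e⟩ := x4b_sc h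
  have e' : (z * w) • b.1 = g.1 * (z • a.1) * (g⁻¹).1 := by
    rw [Matrix.mul_smul, Matrix.smul_mul, mul_smul, ← e, Units.val_mul, Units.val_mul]
  refine ⟨_, z * w, mul_ne_zero z0 w0, rfl, ?_, ?_, fun h => ne ?_⟩
  · rw [e', show g.1 * (z • a.1) * (g⁻¹).1 * (g.1 * (z • a.1) * (g⁻¹).1) =
      g.1 * ((z • a.1) * ((g⁻¹).1 * g.1) * (z • a.1)) * (g⁻¹).1 by simp only [Matrix.mul_assoc],
      Units.inv_mul, Matrix.mul_one, aa, Matrix.mul_one, Units.mul_inv]
  · rw [e', det_mul, det_mul, d, mul_one, ← det_mul, Units.mul_inv, det_one]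
  · rw [e'] at h
    have := congrArg (fun x => (g⁻¹).1 * x * g.1) h
    simp only [← Matrix.mul_assoc, Units.inv_mul, Matrix.one_mul, Matrix.mul_one] at this
    rwa [Matrix.mul_assoc, Units.inv_mul, Matrix.mul_one] at this

theorem x4b_main {G : Subgroup (GL (Fin (2 + 1)) K)} (le : G ≤ slg 2 K)
    (k : ∀ (F : Matrix (Fin 3) (Fin 3) K) (h : F ≠ 0), Fᵀ = F → ¬ G ≤ x4bH h) : No3 G := by
  intro a ha b hb c hc g _ g' _ ⟨z, hz⟩ eb ec ab ne
  have da := x4b_det (le ha)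
  rw [Units.val_mul] at hz
  have z3 : z ^ 3 = 1 := by
    have := congrArg det hz
    rw [det_mul, da, det_smul] at this
    simpa only [Nat.reduceAdd, Fintype.card_fin, det_one, mul_one] using this.symm
  have z0 : z ≠ 0 := by rintro rfl; simp at z3
  have aa : (z • a.1) * (z • a.1) = 1 := by
    rw [Matrix.smul_mul, Matrix.mul_smul, hz, smul_smul, smul_smul, ← pow_three', z3, one_smul]
  have dA : (z • a.1).det = 1 := by rw [det_smul, da]; simpa only [Nat.reduceAdd, Fintype.card_fin, mul_one] using z3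
  have sc : ∀ w : K, w ≠ 0 → z • a.1 ≠ w • b.1 := fun w w0 e => ne ⟨w⁻¹ * z, by
    rw [Units.val_mul, show b.1 = (w⁻¹ * z) • a.1 by rw [mul_smul, e, inv_smul_smul₀ w0],
      Matrix.mul_smul, Units.inv_mul]⟩
  have nA : z • a.1 ≠ 1 := fun e => by
    have e1 : g * a * g⁻¹ = a := Units.ext (by
      rw [Units.val_mul, Units.val_mul, show a.1 = z⁻¹ • 1 by rw [← e, inv_smul_smul₀ z0],
        Matrix.mul_smul, Matrix.smul_mul, Matrix.mul_one, Units.mul_inv])
    obtain ⟨w, w0, hw⟩ := x4b_sc (e1 ▸ eb)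
    exact sc (z * w) (mul_ne_zero z0 w0) (by rw [hw, smul_smul])
  obtain ⟨B, w, w0, hB, bb, dB, nB⟩ := x4b_cj eb z0 aa dA nA
  obtain ⟨C, w', w0', hC, cc, dC, nC⟩ := x4b_cj ec z0 aa dA nA
  have nAB : z • a.1 ≠ B := hB ▸ sc w w0
  obtain ⟨s, -, hs⟩ := x4b_sc ab
  have ba : B * (z • a.1) = s • ((z • a.1) * B) := by
    simp only [Units.val_mul] at hs
    simp only [hB, Matrix.smul_mul, Matrix.mul_smul, hs, smul_smul]
    congr 1; ring
  generalize hA : z • a.1 = A at *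
  have s1 : s = 1 := by
    have s3 : s ^ 3 = 1 := by
      have := congrArg det ba
      rw [det_smul, det_mul, det_mul, dA, dB] at this
      simpa only [Fintype.card_fin, mul_one] using this.symm
    have e1 : A * B * A = s • B := by
      rw [Matrix.mul_assoc, ba, Matrix.mul_smul, ← Matrix.mul_assoc, aa, Matrix.one_mul]
    have e2 : (A * B * A) * (A * B * A) = 1 := by
      rw [show A * B * A * (A * B * A) = A * (B * (A * A) * B) * A by simp only [Matrix.mul_assoc],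
        aa, Matrix.mul_one, bb, Matrix.mul_one, aa]
    rw [e1, Matrix.smul_mul, Matrix.mul_smul, bb, smul_smul] at e2
    have s2 : s * s = 1 := by simpa only [Fin.isValue, Matrix.smul_apply, one_apply_eq, smul_eq_mul, mul_one] using congrFun (congrFun e2 0) 0
    linear_combination s3 - s * s2
  rw [s1, one_smul] at ba
  obtain ⟨u, f, eA, fu, u0, f0⟩ := x4b_form aa dA nA
  obtain ⟨v, p, eB, pv, v0, p0⟩ := x4b_form bb dB nB
  obtain ⟨x, h, eC, hx, x0, -⟩ := x4b_form cc dC nC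
  have n' : vecMulVec u f ≠ vecMulVec v p := fun e => nAB (by rw [eA, eB, e])
  have cm : vecMulVec u f * vecMulVec v p = vecMulVec v p * vecMulVec u f := by
    rw [← sub_add_cancel (vecMulVec u f) 1, ← sub_add_cancel (vecMulVec v p) 1, ← eA, ← eB]
    simp only [add_mul, mul_add, ba, Matrix.mul_one, Matrix.one_mul]
    abel
  obtain ⟨F, m, F0, sy, m0, m1, m2⟩ := x4b_ex (h := h) u0 v0 x0 p0
    (x4b_comm fu pv u0 v0 p0 n' cm) (x4b_comm pv fu v0 u0 f0 n'.symm cm.symm)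
  refine ⟨x4bH F0, fun y ⟨t, ht⟩ => x4b_smul F0 ht (by simp), ?_, ?_, ?_, k F F0 sy⟩
  · exact x4b_smul F0 (z := z⁻¹) (by rw [← hA, inv_smul_smul₀ z0]) (eA ▸ x4b_inv sy m0 fu)
  · exact x4b_smul F0 (z := w⁻¹) (by rw [hB, inv_smul_smul₀ w0]) (eB ▸ x4b_inv sy m1 pv)
  · exact x4b_smul F0 (z := w'⁻¹) (by rw [hC, inv_smul_smul₀ w0']) (eC ▸ x4b_inv sy m2 hx)

theorem x4b_el {F : Matrix (Fin 3) (Fin 3) K} {h : F ≠ 0} {i j k : Fin 3} {s : K} (s0 : s ≠ 0)
    (ij : i ≠ j) (ki : k ≠ i) (e : el (r := 2) i j s ∈ x4bH h) : F j k = 0 := by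
  obtain ⟨l, hl⟩ := e
  rw [el_val ij, transpose_add, transpose_one, transpose_single, mul_add, Matrix.mul_one] at hl
  have e1 := congrFun (congrFun hl i) k
  have e2 := congrFun (congrFun hl j) k
  rw [Matrix.add_apply, mul_single_apply_of_ne _ _ _ _ _ ki, add_mul, Matrix.one_mul,
    Matrix.add_apply] at e1 e2
  rw [single_mul_apply_same] at e1
  rw [single_mul_apply_of_ne _ _ _ _ _ ij.symm] at e2
  simp only [Matrix.smul_apply, smul_eq_mul, add_zero] at e1 e2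
  by_cases l1 : l = 1
  · rw [l1] at e1
    exact (mul_eq_zero.1 (show s * F j k = 0 by linear_combination e1)).resolve_left s0
  · exact (mul_eq_zero.1 (show (l - 1) * F j k = 0 by linear_combination -e2)).resolve_left
      (sub_ne_zero.2 l1)

theorem no3_sl3 : No3 (slg 2 K) := by
  refine x4b_main le_rfl fun F h _ le => h ?_
  ext j k
  obtain ⟨i, ij, ki⟩ : ∃ i : Fin 3, i ≠ j ∧ k ≠ i := by revert j k; decide
  exact x4b_el one_ne_zero ij ki (le (subset_closure ⟨_, _, _, rfl⟩))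

theorem no3_su3 (hφ : ∀ s, φ (φ s) = s) (ne : φ ≠ RingHom.id K) : No3 (sug 2 φ) := by
  refine x4b_main x4b_le fun F h sy le => h ?_
  obtain ⟨t, ht⟩ : ∃ t, φ t ≠ t := by
    by_contra hn
    push Not at hn
    exact ne (RingHom.ext hn)
  have s0 : t - φ t ≠ 0 := sub_ne_zero.2 ht.symm
  have lg : ∀ i : Fin (2 + 1), i ≠ i.rev → el i i.rev (t - φ t) ∈ x4bH h := fun i hi =>
    le (rt_mem ((rt_long hφ hi _).2 ⟨_, by rw [map_sub, hφ]; ring, rfl⟩))
  have f21 : F 2 1 = 0 := x4b_el s0 (by decide) (by decide) (lg 0 (by decide))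
  have f22 : F 2 2 = 0 := x4b_el s0 (by decide) (by decide) (lg 0 (by decide))
  have f00 : F 0 0 = 0 := x4b_el s0 (by decide) (by decide) (lg 2 (by decide))
  have f01 : F 0 1 = 0 := x4b_el s0 (by decide) (by decide) (lg 2 (by decide))
  have f12 : F 1 2 = 0 := (congrFun (congrFun sy 2) 1).trans f21
  have f10 : F 1 0 = 0 := (congrFun (congrFun sy 0) 1).trans f01
  have f20 : F 2 0 = F 0 2 := congrFun (congrFun sy 0) 2
  obtain ⟨x, hx⟩ : ∃ x, x + φ x ≠ 0 := by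
    by_contra hn
    push Not at hn
    have h1 := hn 1
    rw [map_one] at h1
    exact ht (by linear_combination hn t - t * h1)
  have key : ∀ s, φ s * F 0 2 + s * F 1 1 = 0 := fun s => by
    have hu : s * φ s * x / (x + φ x) + φ (s * φ s * x / (x + φ x)) =
        -(-1) ^ (((0 : Fin (2 + 1)) : ℕ) + ((1 : Fin (2 + 1)) : ℕ)) * (s * φ s) := by
      rw [map_div₀, map_mul, map_mul, map_add, hφ, hφ, add_comm (φ x)]
      field_simp
      simp
    obtain ⟨l, hl⟩ := le (rt_mem ((rt_mid hφ (i := 0) (m := 1) (by decide) (by decide) _).2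
      ⟨s, _, hu, rfl⟩))
    rw [natb1_val3 (by decide) (by decide) (by decide)] at hl
    have := congrFun (congrFun hl 1) 0
    simp only [Nat.reduceAdd, single, Fin.isValue, Fin.rev_zero, Fin.reduceLast, Fin.coe_ofNat_eq_mod, Nat.zero_mod, Nat.one_mod, zero_add, pow_one, neg_neg, one_mul, of_add_of, transpose_add, transpose_one, mul_apply, Matrix.add_apply, one_apply, of_apply, Pi.add_apply, true_and, zero_ne_one, false_and, ↓ reduceIte, add_zero, Fin.sum_univ_three, one_ne_zero, Fin.reduceEq, zero_mul, transpose_apply, f10, f20, mul_one, f21, mul_zero, f12, f22, Matrix.smul_apply, smul_eq_mul] at this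
    linear_combination this
  have k1 := key 1
  have k2 := key t
  rw [map_one] at k1
  have f02 : F 0 2 = 0 :=
    (mul_eq_zero.1 (show (t - φ t) * F 0 2 = 0 by linear_combination t * k1 - k2)).resolve_left s0
  have f11 : F 1 1 = 0 := by linear_combination k1 - f02
  ext i j
  fin_cases i <;> fin_cases j
  exacts [f00, f01, f02, f10, f11, f12, f20.trans f02, f21, f22]

end Pool.Agent.MP_c78e8e_al.H75

end

section

namespace Pool.Agent.MP_c78e8e_al.H75

open Subgroup Matrix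

variable {K : Type} [Field K] {φ : K →+* K}

/-- The second compound matrix. -/
def x4c_c (g : Matrix (Fin 4) (Fin 4) K) : Matrix (Fin 6) (Fin 6) K := of fun a b =>
  g (![0, 0, 0, 1, 1, 2] a) (![0, 0, 0, 1, 1, 2] b) * g (![1, 2, 3, 2, 3, 3] a) (![1, 2, 3, 2, 3, 3] b) -
  g (![0, 0, 0, 1, 1, 2] a) (![1, 2, 3, 2, 3, 3] b) * g (![1, 2, 3, 2, 3, 3] a) (![0, 0, 0, 1, 1, 2] b)

theorem x4c_mul (g h : Matrix (Fin 4) (Fin 4) K) : x4c_c (g * h) = x4c_c g * x4c_c h := by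
  ext a b
  simp only [x4c_c, Nat.succ_eq_add_one, Nat.reduceAdd, Fin.isValue, mul_apply, Fin.sum_univ_four, of_apply, Fin.sum_univ_six, cons_val_zero, cons_val_one, cons_val]
  ring

/-- One coordinate of the action. -/
def x4c_r (g : Matrix (Fin 4) (Fin 4) K) (i j : Fin 4) (p : Fin 6 → K) : K :=
  (g i 0 * g j 1 - g i 1 * g j 0) * p 0 + (g i 0 * g j 2 - g i 2 * g j 0) * p 1 +
  (g i 0 * g j 3 - g i 3 * g j 0) * p 2 + (g i 1 * g j 2 - g i 2 * g j 1) * p 3 +
  (g i 1 * g j 3 - g i 3 * g j 1) * p 4 + (g i 2 * g j 3 - g i 3 * g j 2) * p 5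

theorem x4c_app (g : Matrix (Fin 4) (Fin 4) K) (p : Fin 6 → K) (a : Fin 6) :
    (x4c_c g *ᵥ p) a = x4c_r g (![0, 0, 0, 1, 1, 2] a) (![1, 2, 3, 2, 3, 3] a) p := by
  rw [mulVec, dotProduct, Fin.sum_univ_six]; rfl

theorem x4c_sm (z : K) : x4c_c (z • (1 : Matrix (Fin 4) (Fin 4) K)) = (z * z) • 1 := by
  ext a b
  simp only [x4c_c, of_apply, Matrix.smul_apply, Matrix.one_apply, smul_eq_mul]
  fin_cases a <;> fin_cases b <;> simp

theorem x4c_one : x4c_c (1 : Matrix (Fin 4) (Fin 4) K) = 1 := by simpa using x4c_sm (1 : K)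

/-- The polar form of the Pfaffian. -/
def x4c_b (p q : Fin 6 → K) : K :=
  p 0 * q 5 - p 1 * q 4 + p 2 * q 3 + p 3 * q 2 - p 4 * q 1 + p 5 * q 0

theorem x4c_inv (g : Matrix (Fin 4) (Fin 4) K) (p q : Fin 6 → K) :
    x4c_b (x4c_c g *ᵥ p) (x4c_c g *ᵥ q) = g.det * x4c_b p q := by
  rw [det_succ_row_zero]
  simp only [x4c_b, Fin.isValue, x4c_app, x4c_r, Nat.succ_eq_add_one, Nat.reduceAdd, cons_val_zero, cons_val, cons_val_one, det_fin_three, submatrix_apply, Fin.succ_zero_eq_one, Fin.succAbove, Fin.castSucc_zero, Fin.succ_one_eq_two, Fin.castSucc_one, Fin.reduceSucc, Fin.reduceCastSucc, Fin.sum_univ_four, Fin.coe_ofNat_eq_mod, Nat.zero_mod, pow_zero, one_mul, lt_self_iff_false, ↓ reduceIte, not_lt_zero, Nat.one_mod, pow_one, neg_mul, zero_lt_one, Fin.lt_one_iff, Fin.reduceEq, Nat.reduceMod, even_two, Even.neg_pow, one_pow, Fin.reduceLT, Nat.mod_succ]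
  ring

/-- The polar form as a bilinear form. -/
def x4c_B (K : Type) [Field K] : LinearMap.BilinForm K (Fin 6 → K) :=
  LinearMap.mk₂ K x4c_b (fun _ _ _ => by simp only [x4c_b, Fin.isValue, Pi.add_apply]; ring) (fun _ _ _ => by simp only [x4c_b, Fin.isValue, Pi.smul_apply, smul_eq_mul]; ring)
    (fun _ _ _ => by simp only [x4c_b, Fin.isValue, Pi.add_apply]; ring) fun _ _ _ => by simp only [x4c_b, Fin.isValue, Pi.smul_apply, smul_eq_mul]; ring

theorem x4c_nd : (x4c_B K).Nondegenerate := by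
  have k : ∀ p : Fin 6 → K, (∀ q, x4c_b p q = 0) → p = 0 := fun p h => funext fun i => by
    have := h (Pi.single i.rev 1)
    fin_cases i <;> simpa [x4c_b] using this
  exact ⟨k, fun p h => k p fun q => by rw [← h q]; simp only [x4c_b, Fin.isValue, x4c_B, LinearMap.mk₂_apply]; ring⟩

open Module in
theorem x4c_fix {W : Type} [AddCommGroup W] [Module K W] [Module.Finite K W]
    (h6 : finrank K W = 6) {β : LinearMap.BilinForm K W} (nd : β.Nondegenerate)
    {A B C : W →ₗ[K] W} (sA : ∀ p q, β (A p) q = β p (A q)) (sB : ∀ p q, β (B p) q = β p (B q))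
    (sC : ∀ p q, β (C p) q = β p (C q)) (AA : ∀ p, A (A p) = 0) (BB : ∀ p, B (B p) = 0)
    (AB : ∀ p, A (B p) = B (A p)) (rA : finrank K A.range ≤ 2) (rB : finrank K B.range ≤ 2)
    (rC : finrank K C.range ≤ 2) : ∃ p, p ≠ 0 ∧ A p = 0 ∧ B p = 0 ∧ C p = 0 := by
  have h3 : finrank K (A.range ⊔ B.range : Submodule K W) ≤ 3 := by
    have e := Submodule.finrank_sup_add_finrank_inf_eq A.range B.range
    by_cases z : A.range ⊓ B.range = ⊥
    · have ab : ∀ p, A (B p) = 0 := fun p =>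
        (Submodule.eq_bot_iff _).1 z _ ⟨⟨_, rfl⟩, ⟨_, (AB p).symm⟩⟩
      have le : A.range ⊔ B.range ≤ β.orthogonal (A.range ⊔ B.range) := fun v hv u hu => by
        obtain ⟨_, ⟨a, rfl⟩, _, ⟨b, rfl⟩, rfl⟩ := Submodule.mem_sup.1 hv
        obtain ⟨_, ⟨c, rfl⟩, _, ⟨d, rfl⟩, rfl⟩ := Submodule.mem_sup.1 hu
        simp only [map_add, LinearMap.add_apply, sA, AA, ab, add_zero, map_zero, sB, ← AB, BB]
      have := Submodule.finrank_mono le
      rw [LinearMap.BilinForm.finrank_orthogonal nd] at this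
      omega
    · have := Submodule.finrank_eq_zero.not.2 z
      omega
  have h5 := Submodule.finrank_add_le_finrank_add_finrank (A.range ⊔ B.range) C.range
  have h1 := LinearMap.BilinForm.finrank_orthogonal nd (A.range ⊔ B.range ⊔ C.range)
  obtain ⟨p, hp, p0⟩ := (Submodule.ne_bot_iff (β.orthogonal (A.range ⊔ B.range ⊔ C.range))).1
    (Submodule.finrank_eq_zero.not.1 (by omega))
  exact ⟨p, p0,
    nd.2 _ fun q => (sA q p).symm.trans (hp _ (Submodule.mem_sup_left (Submodule.mem_sup_left ⟨_, rfl⟩))),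
    nd.2 _ fun q => (sB q p).symm.trans (hp _ (Submodule.mem_sup_left (Submodule.mem_sup_right ⟨_, rfl⟩))),
    nd.2 _ fun q => (sC q p).symm.trans (hp _ (Submodule.mem_sup_right ⟨_, rfl⟩))⟩

open Module in
theorem x4c_mid {W : Type} [AddCommGroup W] [Module K W] [Module.Finite K W] {Z : Submodule K W}
    {k : ℕ} (hk : k ≤ finrank K Z) (n : ℕ) : ∀ I ≤ Z, finrank K I + n = k →
      ∃ U : Submodule K W, I ≤ U ∧ U ≤ Z ∧ finrank K U = k := by
  induction n with
  | zero => exact fun I h e => ⟨I, le_rfl, h, e⟩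
  | succ n ih =>
    intro I h e
    obtain ⟨v, hv, nv⟩ := SetLike.exists_of_lt (h.lt_of_ne (by rintro rfl; omega))
    obtain ⟨U, a, b⟩ := ih (I ⊔ Submodule.span K {v})
      (sup_le h ((Submodule.span_singleton_le_iff_mem _ _).2 hv))
      (by rw [Submodule.finrank_sup_span_singleton nv]; omega)
    exact ⟨U, le_sup_left.trans a, b⟩

theorem x4c_nf (x y z w : K) : x4c_c !![1, 0, 0, 0; 0, 1, 0, 0; x, y, 1, 0; z, w, 0, 1] - 1 =
    !![0, 0; 0, y; 0, w; 0, -x; 0, -z; 1, 0] *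
      !![x * w - y * z, -z, x, -w, y, 0; 1, 0, 0, 0, 0, 0] := by
  ext i j
  simp only [x4c_c, of_apply, Matrix.sub_apply, Matrix.one_apply, mul_apply, Fin.sum_univ_two]
  fin_cases i <;> fin_cases j <;> simp

theorem x4c_cj {a : Matrix (Fin 4) (Fin 4) K} {d c u v : Fin 4 → K} {x y z w : K}
    (h0 : a *ᵥ d = d + x • u + z • v) (h1 : a *ᵥ c = c + y • u + w • v) (h2 : a *ᵥ u = u)
    (h3 : a *ᵥ v = v) : a * (of ![d, c, u, v])ᵀ =
      (of ![d, c, u, v])ᵀ * !![1, 0, 0, 0; 0, 1, 0, 0; x, y, 1, 0; z, w, 0, 1] := by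
  ext i j
  have e : (a * (of ![d, c, u, v])ᵀ) i j = (a *ᵥ ![d, c, u, v] j) i := rfl
  rw [e, mul_apply, Fin.sum_univ_four]
  fin_cases j <;> simp [h0, h1, h2, h3, mul_comm]

open Module in
theorem x4c_rank {a : Matrix (Fin 4) (Fin 4) K} (h : (a - 1) * (a - 1) = 0) :
    (x4c_c a - 1).rank ≤ 2 := by
  set f := (a - 1).mulVecLin with hf
  have le : f.range ≤ f.ker := by
    rintro _ ⟨v, rfl⟩
    simp only [LinearMap.mem_ker, hf, mulVecLin_apply, mulVec_mulVec, h, zero_mulVec]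
  have e := f.finrank_range_add_finrank_ker
  have e' := Submodule.finrank_mono le
  rw [finrank_fin_fun] at e
  obtain ⟨U, U1, U2, U3⟩ := x4c_mid (k := 2) (by omega) (2 - finrank K f.range) _ le (by omega)
  let b := finBasisOfFinrankEq K U U3
  have li : LinearIndependent K fun i => (b i : Fin 4 → K) :=
    b.linearIndependent.map' U.subtype U.ker_subtype
  obtain ⟨c, lc⟩ := exists_linearIndependent_cons_of_lt_finrank li (by simp)
  obtain ⟨d, ld⟩ := exists_linearIndependent_cons_of_lt_finrank lc (by simp)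
  have sp : ∀ v, ∃ x z : K, a *ᵥ v = v + x • (b 0 : Fin 4 → K) + z • (b 1 : Fin 4 → K) := fun v => by
    have := congrArg Subtype.val (b.sum_repr ⟨f v, U1 ⟨v, rfl⟩⟩)
    simp only [Fin.sum_univ_two, Submodule.coe_add, Submodule.coe_smul, hf, mulVecLin_apply,
      sub_mulVec, one_mulVec] at this
    exact ⟨_, _, by rw [add_assoc, this]; abel⟩
  have fx : ∀ i, a *ᵥ (b i : Fin 4 → K) = b i := fun i => by
    simpa only [hf, map_sub, mulVecLin_one, LinearMap.mem_ker, LinearMap.sub_apply, mulVecBilin_apply, LinearMap.id_coe, id_eq, sub_eq_zero] using U2 (b i).2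
  obtain ⟨x, z, h0⟩ := sp d
  obtain ⟨y, w, h1⟩ := sp c
  let P : Matrix (Fin 4) (Fin 4) K := (of ![d, c, b 0, b 1])ᵀ
  have uP : IsUnit P := linearIndependent_cols_iff_isUnit.1 (by
    rwa [show P.col = Fin.cons d (Fin.cons c fun i => (b i : Fin 4 → K)) by
      ext1 i; fin_cases i <;> rfl])
  obtain ⟨Q, hQ⟩ := uP.exists_right_inv
  have cj : a * P = _ := x4c_cj h0 h1 (fx 0) (fx 1)
  have : x4c_c a - 1 = x4c_c P * (x4c_c !![1, 0, 0, 0; 0, 1, 0, 0; x, y, 1, 0; z, w, 0, 1] - 1) *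
      x4c_c Q := by
    rw [mul_sub, sub_mul, mul_one, ← x4c_mul, ← x4c_mul, ← x4c_mul, ← cj, mul_assoc, hQ, mul_one,
      x4c_one]
  rw [this, x4c_nf]
  exact (rank_mul_le_left _ _).trans ((rank_mul_le_right _ _).trans
    ((rank_mul_le_left _ _).trans (rank_le_width _)))

theorem x4c_sq (h2 : (2 : K) = 0) {n : Type} [Fintype n] [DecidableEq n] {a : Matrix n n K}
    (h : a * a = 1) : (a - 1) * (a - 1) = 0 := by
  rw [sub_mul, mul_sub, mul_sub, h, mul_one, one_mul, one_mul]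
  ext i j
  simp only [Matrix.sub_apply, Matrix.zero_apply]
  linear_combination ((1 : Matrix n n K) i j - a i j) * h2

theorem x4c_adj {a : Matrix (Fin 4) (Fin 4) K} (h : a * a = 1) (d : a.det = 1) (p q : Fin 6 → K) :
    x4c_B K ((x4c_c a - 1).mulVecLin p) q = x4c_B K p ((x4c_c a - 1).mulVecLin q) := by
  have := x4c_inv a p (x4c_c a *ᵥ q)
  rw [mulVec_mulVec, ← x4c_mul, h, x4c_one, one_mulVec, d, one_mul] at this
  simp only [mulVecLin_apply, sub_mulVec, one_mulVec, map_sub, LinearMap.sub_apply]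
  exact congrArg (· - _) this

/-- The stabiliser of a line of alternating forms. -/
def x4c_H (p : Fin 6 → K) (p0 : p ≠ 0) : Subgroup (GL (Fin 4) K) where
  carrier := {g | ∃ l : K, x4c_c g.1 *ᵥ p = l • p}
  one_mem' := ⟨1, by simp [x4c_one]⟩
  mul_mem' := by
    rintro g h ⟨l, hl⟩ ⟨m, hm⟩
    exact ⟨m * l, by rw [Units.val_mul, x4c_mul, ← mulVec_mulVec, hm, mulVec_smul, hl, smul_smul]⟩
  inv_mem' := by
    rintro g ⟨l, hl⟩
    have e : p = l • x4c_c g⁻¹.1 *ᵥ p := by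
      rw [← mulVec_smul, ← hl, mulVec_mulVec, ← x4c_mul, Units.inv_mul, x4c_one, one_mulVec]
    have l0 : l ≠ 0 := by rintro rfl; exact p0 (by simpa using e)
    exact ⟨l⁻¹, by rw [eq_inv_smul_iff₀ l0, ← e]⟩

theorem x4c_no (h2 : (2 : K) = 0) {G : Subgroup (GL (Fin 4) K)} (le : G ≤ slg 3 K)
    (irr : ∀ p : Fin 6 → K, (∀ g ∈ G, g * g = 1 → x4c_c g.1 *ᵥ p = p) → p = 0) : No3 G := by
  intro a ha b hb c hc g hg g' hg' aa eb ec ab _
  have sc : ∀ x ∈ G, Sc x → x = 1 := by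
    rintro x hx ⟨z, hz⟩
    have := slg_det (le hx)
    rw [hz, det_smul, det_one, mul_one, Fintype.card_fin] at this
    have e : (z - 1) ^ 4 = 0 := by linear_combination this + (-2 * z ^ 3 + 3 * z ^ 2 - 2 * z + 1) * h2
    exact Units.ext (by rw [hz, sub_eq_zero.1 (pow_eq_zero_iff (by norm_num) |>.1 e)]; simp)
  have aa := sc _ (mul_mem ha ha) aa
  have cj : ∀ x ∈ G, ∀ y ∈ G, Sc (x⁻¹ * (y * a * y⁻¹)) → x * x = 1 := fun x hx y hy e => by
    rw [inv_mul_eq_one.1 (sc _ (mul_mem (inv_mem hx) (mul_mem (mul_mem hy ha) (inv_mem hy))) e),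
      conj_mul, aa]; simp
  have ab := inv_mul_eq_one.1 (sc _ (mul_mem (inv_mem (mul_mem ha hb)) (mul_mem hb ha)) ab)
  have bb := cj b hb g hg eb
  have cc := cj c hc g' hg' ec
  have v : ∀ {x : GL (Fin 4) K}, x * x = 1 → x.1 * x.1 = 1 := fun h => congrArg Units.val h
  have sq : ∀ {x : GL (Fin 4) K}, x * x = 1 → ∀ p,
      (x4c_c x.1 - 1).mulVecLin ((x4c_c x.1 - 1).mulVecLin p) = 0 := fun h p => by
    rw [mulVecLin_apply, mulVecLin_apply, mulVec_mulVec,
      x4c_sq h2 (by rw [← x4c_mul, v h, x4c_one]), zero_mulVec]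
  obtain ⟨p, p0, h1, h3, h4⟩ := x4c_fix (Module.finrank_fin_fun K) x4c_nd
    (x4c_adj (v aa) (slg_det (le ha))) (x4c_adj (v bb) (slg_det (le hb)))
    (x4c_adj (v cc) (slg_det (le hc))) (sq aa) (sq bb) (fun p => by
      have : x4c_c a.1 * x4c_c b.1 = x4c_c b.1 * x4c_c a.1 := by
        rw [← x4c_mul, ← x4c_mul]; exact congrArg (x4c_c ·.1) ab
      simp only [mulVecLin_apply, mulVec_mulVec, sub_mul, mul_sub, this, mul_one, one_mul]
      congr 1; abel)
    (x4c_rank (x4c_sq h2 (v aa))) (x4c_rank (x4c_sq h2 (v bb))) (x4c_rank (x4c_sq h2 (v cc)))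
  have m : ∀ {x : GL (Fin 4) K}, (x4c_c x.1 - 1).mulVecLin p = 0 → x ∈ x4c_H p p0 := fun h =>
    ⟨1, by simpa [sub_mulVec, sub_eq_zero] using h⟩
  refine ⟨x4c_H p p0, ?_, m h1, m h3, m h4, fun hG => p0 (irr p fun x hx xx => ?_)⟩
  · rintro z ⟨l, hl⟩
    exact ⟨l * l, by rw [hl, x4c_sm, smul_mulVec, one_mulVec]⟩
  · obtain ⟨l, hl⟩ := hG hx
    have e : p = (l * l) • p := by
      rw [← smul_smul, ← hl, ← mulVec_smul, ← hl, mulVec_mulVec, ← x4c_mul, v xx, x4c_one,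
        one_mulVec]
    have e' : ((l - 1) * (l - 1)) • p = 0 := by
      rw [show (l - 1) * (l - 1) = l * l - 1 by linear_combination (1 - l) * h2, sub_smul, ← e,
        one_smul, sub_self]
    rw [hl, sub_eq_zero.1 (mul_self_eq_zero.1 ((smul_eq_zero_iff_left p0).1 e')), one_smul]

theorem x4c_el (h2 : (2 : K) = 0) (i j : Fin 4) (s : K) : el i j s * el i j s = 1 := by
  rw [← el_add, ← two_mul, h2, zero_mul, el_zero]

theorem no3_sl4 (h2 : (2 : K) = 0) : No3 (slg 3 K) := by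
  refine x4c_no h2 le_rfl fun p h => ?_
  have k : ∀ i j : Fin 4, i ≠ j → ∀ a, (x4c_c (1 + single i j 1) *ᵥ p) a = p a := fun i j n a => by
    rw [← el_val n, h _ (el_slg i j 1) (x4c_el h2 i j 1)]
  have a1 := k 0 1 (by decide) 1
  have a2 := k 0 1 (by decide) 2
  have a3 := k 1 0 (by decide) 3
  have a4 := k 1 0 (by decide) 4
  have a5 := k 2 0 (by decide) 3
  have a6 := k 0 2 (by decide) 2
  simp only [x4c_app, x4c_r, Matrix.add_apply, Matrix.one_apply] at a1 a2 a3 a4 a5 a6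
  simp at a1 a2 a3 a4 a5 a6
  ext i; fin_cases i <;> simpa

theorem no3_su4 (h2 : (2 : K) = 0) (hφ : ∀ s, φ (φ s) = s) (ne : φ ≠ RingHom.id K) :
    No3 (sug 3 φ) := by
  refine x4c_no h2 ((Subgroup.closure_le _).2 ?_) fun p h => ?_
  · rintro g ⟨i, j, -, hg⟩
    refine (Subgroup.closure_le _).2 ?_ hg
    rintro _ (⟨s, rfl⟩ | ⟨s, rfl⟩) <;> exact el_slg _ _ _
  have k : ∀ i : Fin 4, ∀ a, (x4c_c (1 + single i i.rev 1) *ᵥ p) a = p a := fun i a => by
    have n : i ≠ i.rev := by revert i; decide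
    rw [← el_val n, h _ (rt_mem ((rt_long hφ n _).2 ⟨1, by norm_num, rfl⟩)) (x4c_el h2 _ _ 1)]
  have k' : ∀ s, (x4c_c (1 + (single 0 1 s + single 2 3 (φ s))) *ᵥ p) 1 = p 1 := fun s => by
    have := h _ (rt_mem ((rt_short hφ (i := 0) (j := 1) (by decide) (by decide) (by decide)
      (by decide) _).2 ⟨s, rfl⟩)) (by
        rw [(el_comm (by decide) (by decide) _ _).symm.mul_mul_mul_comm, x4c_el h2, x4c_el h2,
          one_mul])
    rw [natb1_val (by decide) (by decide)] at this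
    simpa using congrFun this 1
  obtain ⟨s, hs⟩ : ∃ s, φ s ≠ s := not_forall.1 fun h => ne (RingHom.ext h)
  have a1 := k 0 0
  have a2 := k 0 1
  have a3 := k 3 4
  have a4 := k 3 5
  have a5 := k' 1
  have a6 := k' s
  simp only [x4c_app, x4c_r, Matrix.add_apply, Matrix.one_apply] at a1 a2 a3 a4 a5 a6
  simp only [Nat.succ_eq_add_one, Nat.reduceAdd, Fin.isValue, cons_val_zero, ↓ reduceIte, Fin.rev, Fin.coe_ofNat_eq_mod, Nat.zero_mod, zero_add, Nat.add_one_sub_one, Fin.reduceFinMk, Fin.reduceEq, and_false, not_false_eq_true, single_apply_of_ne, add_zero, zero_ne_one, and_self, mul_one, one_ne_zero, mul_zero, sub_zero, one_mul, sub_self, zero_mul, and_true, single_apply_same, zero_sub, neg_mul, add_eq_left, neg_eq_zero, cons_val_one, cons_val, Nat.mod_succ, tsub_self, Fin.zero_eta, add_eq_right, map_one] at a1 a2 a3 a4 a5 a6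
  have a7 : p 2 = 0 := (mul_eq_zero.1 (by linear_combination a6 - s * a5 + (s - s * φ s) * a1 :
    (φ s - s) * p 2 = 0)).resolve_left (sub_ne_zero.2 hs)
  have a8 : p 3 = 0 := by linear_combination a5 - a7 - a1
  ext i; fin_cases i <;> simpa

end Pool.Agent.MP_c78e8e_al.H75

end

section

namespace Pool.Agent.MP_c78e8e_al.H75

open Subgroup Matrix
open scoped commutatorElement

variable {K : Type} [Field K] {φ : K →+* K}

theorem x4d_mul {N : ℕ} {H : Subgroup (GL (Fin (N + 1)) K)} {i j k : Fin (N + 1)} {s t : K}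
    (p : el i j s ∈ H) (q : el j k t ∈ H) (h : i ≠ j ∧ j ≠ k ∧ i ≠ k) :
    el i k (s * t) ∈ H := by
  rw [← el_rel h.1 h.2.1 h.2.2, commutatorElement_def]
  exact mul_mem (mul_mem (mul_mem p q) (inv_mem p)) (inv_mem q)

theorem x4d_gen [Finite K] : ∃ t : Kˣ, ∀ P : K → Prop, P 0 → P 1 → (∀ s, P s → P (s * t)) →
    ∀ s, P s := by
  obtain ⟨t, ht⟩ := IsCyclic.exists_monoid_generator (α := Kˣ)
  refine ⟨t, fun P h0 h1 h s => ?_⟩
  by_cases e : s = 0
  · exact e ▸ h0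
  obtain ⟨n, hn⟩ := ht (Units.mk0 s e)
  have k : ∀ n : ℕ, P ((t : K) ^ n) := fun n => by
    induction n with
    | zero => simpa using h1
    | succ n ih => rw [pow_succ]; exact h _ ih
  have e' : (t : K) ^ n = s := by simpa using congrArg Units.val hn
  exact e' ▸ k n

theorem x4d_left {N : ℕ} {H : Subgroup (GL (Fin (N + 1)) K)} {i j k : Fin (N + 1)} {t : Kˣ}
    (p : el i j (t : K) ∈ H) (q : ∀ s, el j k s ∈ H) (s : K)
    (h : i ≠ j ∧ j ≠ k ∧ i ≠ k) : el i k s ∈ H := by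
  simpa using x4d_mul p (q (t⁻¹ * s : K)) h

theorem x4d_right {N : ℕ} {H : Subgroup (GL (Fin (N + 1)) K)} {i j k : Fin (N + 1)} {t : Kˣ}
    (p : ∀ s, el i j s ∈ H) (q : el j k (t : K) ∈ H) (s : K)
    (h : i ≠ j ∧ j ≠ k ∧ i ≠ k) : el i k s ∈ H := by
  simpa using x4d_mul (p (s * t⁻¹ : K)) q h

theorem x4d_g3 {t : Kˣ} (ht : ∀ P : K → Prop, P 0 → P 1 → (∀ s, P s → P (s * t)) → ∀ s, P s)
    {H : Subgroup (GL (Fin (2 + 1)) K)} (a : el 0 1 1 ∈ H) (b : el 0 2 1 ∈ H) (c : el 1 0 1 ∈ H)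
    (d : el 2 0 (t : K) ∈ H) (i : Fin 2) (s : K) :
    el i.castSucc i.succ s ∈ H ∧ el i.succ i.castSucc s ∈ H := by
  have p12 : el 1 2 ((1 : Kˣ) : K) ∈ H := by simpa using x4d_mul c b (by decide)
  have p21 : el 2 1 (t : K) ∈ H := by simpa using x4d_mul d a (by decide)
  have q01 := ht (fun s => el 0 1 s ∈ H) (by simp) a fun s h =>
    x4d_mul (by simpa using x4d_mul h p12 (by decide) : el 0 2 s ∈ H) p21 (by decide)
  have q12 := fun s => x4d_left (t := 1) c (fun s => x4d_right q01 p12 s (by decide)) s (by decide)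
  fin_cases i
  exacts [⟨q01 s, x4d_right q12 d s (by decide)⟩, ⟨q12 s, x4d_left d q01 s (by decide)⟩]

theorem x4d_g4 {t : Kˣ} (ht : ∀ P : K → Prop, P 0 → P 1 → (∀ s, P s → P (s * t)) → ∀ s, P s)
    {H : Subgroup (GL (Fin (3 + 1)) K)} (a : el 0 1 1 ∈ H) (b : el 2 3 1 ∈ H) (c : el 1 2 1 ∈ H)
    (d : el 3 0 (t : K) ∈ H) (i : Fin 3) (s : K) :
    el i.castSucc i.succ s ∈ H ∧ el i.succ i.castSucc s ∈ H := by
  have p20 : el 2 0 (t : K) ∈ H := by simpa using x4d_mul b d (by decide)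
  have p21 : el 2 1 (t : K) ∈ H := by simpa using x4d_mul p20 a (by decide)
  have p31 : el 3 1 (t : K) ∈ H := by simpa using x4d_mul d a (by decide)
  have p10 : el 1 0 (t : K) ∈ H := by simpa using x4d_mul c p20 (by decide)
  have q01 := ht (fun s => el 0 1 s ∈ H) (by simp) a fun s h =>
    x4d_mul (by simpa using x4d_mul h c (by decide) : el 0 2 s ∈ H) p21 (by decide)
  have q02 := fun s => x4d_right (t := 1) q01 c s (by decide)
  have q12 := fun s => x4d_left p10 q02 s (by decide)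
  fin_cases i
  exacts [⟨q01 s, x4d_right q12 p20 s (by decide)⟩, ⟨q12 s, x4d_left p20 q01 s (by decide)⟩,
    ⟨x4d_left p20 (fun s => x4d_right (t := 1) q02 b s (by decide)) s (by decide),
      x4d_left p31 q12 s (by decide)⟩]

theorem x4d_sc {N : ℕ} {g : GL (Fin (N + 1)) K} (h : g = 1) : Sc g := ⟨1, by simp [h]⟩

theorem x4d_conj (h2 : (2 : K) = 0) {N : ℕ} (π : Equiv.Perm (Fin (N + 1))) (m : Fin (N + 1))
    (c : Kˣ) {i j k l : Fin (N + 1)} (h : i ≠ j ∧ m ≠ i ∧ m ≠ j ∧ π i = k ∧ π j = l) :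
    ∃ g ∈ slg N K, Sc ((el k l (c : K))⁻¹ * (g * el i j 1 * g⁻¹)) := by
  obtain ⟨h1, h3, h4, rfl, rfl⟩ := h
  refine ⟨mon π (Pi.mulSingle i c * Pi.mulSingle m c⁻¹), mon_slg ?_, x4d_sc ?_⟩
  · have e : (-1 : K) = 1 := by linear_combination -h2
    rw [← Units.coe_prod]
    rcases Int.units_eq_one_or (Equiv.Perm.sign π) with k | k <;>
      simp only [k, Units.val_one, Int.cast_one, Pi.mul_apply, Finset.prod_mul_distrib, Finset.prod_pi_mulSingle', Finset.mem_univ, ↓ reduceIte, mul_inv_cancel, mul_one, Units.val_neg, Int.reduceNeg, Int.cast_neg, e]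
  · rw [mon_el]
    simp [h3.symm, h4.symm, h1.symm]

theorem x4d_two (h2 : (2 : K) = 0) {N : ℕ} (i j : Fin (N + 1)) :
    Sc (el i j (1 : K) * el i j 1) := x4d_sc (by rw [← el_add, one_add_one_eq_two, h2, el_zero])

theorem x4d_sep {G : Type} [Group G] {H : Subgroup G} {a b p q : G} (ha : a ∈ H) (hb : b ∈ H)
    (pq : Commute p q) (h1 : a * p * a⁻¹ = p⁻¹) (h2 : a * q * a⁻¹ = q⁻¹) (h3 : b * p * b⁻¹ = p⁻¹)
    (h4 : b * q * b⁻¹ = q) (hc : p * q * a * (p * q)⁻¹ ∈ H) :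
    p * p * (p * p) ∈ H ∧ q * q * (q * q) ∈ H := by
  have e1 : p * q * a * (p * q)⁻¹ * a⁻¹ = p * p * (q * q) := by
    calc _ = p * q * ((a * q * a⁻¹)⁻¹ * (a * p * a⁻¹)⁻¹) := by group
      _ = p * (q * q * p) := by rw [h1, h2]; group
      _ = _ := by rw [← (pq.mul_right pq).eq]; group
  have y : p * p * (q * q) ∈ H := e1 ▸ mul_mem hc (inv_mem ha)
  have e2 : b * (p * p * (q * q)) * b⁻¹ = (p * p)⁻¹ * (q * q) := by
    calc _ = b * p * b⁻¹ * (b * p * b⁻¹) * (b * q * b⁻¹ * (b * q * b⁻¹)) := by group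
      _ = _ := by rw [h3, h4]; group
  have z : (p * p)⁻¹ * (q * q) ∈ H := e2 ▸ mul_mem (mul_mem hb y) (inv_mem hb)
  have c2 : Commute (p * p) (q * q) := (pq.mul_right pq).mul_left (pq.mul_right pq)
  constructor
  · convert mul_mem y (inv_mem z) using 1
    rw [_root_.mul_inv_rev, inv_inv, mul_assoc (p * p), mul_inv_cancel_left]
  · convert mul_mem y z using 1; rw [c2.eq]; group

theorem tL3 [Finite K] : IsLeast {n | Good (chev (CartanMatrix.A 2) 1 (RingHom.id K)) n} 4 := by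
  obtain ⟨t, ht⟩ := x4d_gen (K := K)
  by_cases h2 : (2 : K) = 0
  · obtain ⟨g, hg, e⟩ := x4d_conj h2 (N := 2) (Equiv.swap 1 2) 2 1 (i := 0) (j := 1) (k := 0) (l := 2) (by decide)
    obtain ⟨g', hg', e'⟩ := x4d_conj h2 (N := 2) (Equiv.swap 0 1) 2 1 (i := 0) (j := 1) (k := 1) (l := 0) (by decide)
    obtain ⟨g'', hg'', e''⟩ := x4d_conj h2 (N := 2) (Equiv.swap 0 2 * Equiv.swap 1 2) 2 t (i := 0)
      (j := 1) (k := 2) (l := 0) (by decide)
    refine fourSL le_rfl no3_sl3 (el_slg _ _ _) (el_slg _ _ _) (el_slg _ _ _) (el_slg _ _ _) hg hg' hg''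
      (x4d_two h2 _ _) e e' e'' (x4d_sc ?_) ?_ fun H _ a b c d => x4d_g3 ht a b c d
    · rw [(el_comm (by decide) (by decide) _ _).eq, inv_mul_cancel]
    · rintro ⟨z, hz⟩
      have := congrFun (congrFun hz 0) 1
      rw [Units.val_mul, el_inv (by decide), el_val (by decide)] at this
      simp [mul_apply, one_apply] at this
  · have h4 : (4 : K) ≠ 0 := by
      rw [show (4 : K) = 2 * 2 by norm_num]; exact mul_ne_zero h2 h2
    have k : ∀ (i j : Fin (2 + 1)) (s : K), el i j (s / 4) * el i j (s / 4) *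
        (el i j (s / 4) * el i j (s / 4)) = el i j s := fun i j s => by
      rw [← el_add, ← el_add]; congr 1; field_simp; ring
    have ma : mon 1 ![1, -1, -1] ∈ slg 2 K := mon_slg (by simp [Fin.prod_univ_succ])
    have mb : mon 1 ![-1, 1, -1] ∈ slg 2 K := mon_slg (by simp only [Nat.reduceAdd, Equiv.Perm.sign_one, Units.val_one, Int.cast_one, Nat.succ_eq_add_one, Fin.prod_univ_succ, Fin.isValue, cons_val_zero, Units.val_neg, cons_val_succ, Finset.univ_unique, Fin.default_eq_zero, cons_val_fin_one, Finset.prod_const, Finset.card_singleton, pow_one, mul_neg, mul_one, neg_neg])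
    have mg : mon (Equiv.swap 0 1) ![1, -1, 1] ∈ slg 2 K := mon_slg (by simp [Fin.prod_univ_succ])
    have m1 : el 0 1 (1 / 4) * el 0 2 (1 / 4) ∈ slg 2 K := mul_mem (el_slg _ _ _) (el_slg _ _ _)
    have m2 : el 1 0 (1 / 4) * el 2 0 (t / 4 : K) ∈ slg 2 K := mul_mem (el_slg _ _ _) (el_slg _ _ _)
    refine fourSL le_rfl no3_sl3 ma mb (mul_mem (mul_mem m1 ma) (inv_mem m1))
      (mul_mem (mul_mem m2 ma) (inv_mem m2)) mg m1 m2 (x4d_sc ?_) (x4d_sc ?_)
      (x4d_sc (inv_mul_cancel _)) (x4d_sc (inv_mul_cancel _)) (x4d_sc ?_) ?_ fun H _ a b c d => ?_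
    · rw [mon_mul]; exact mon_eq_one (by simp) fun i => by fin_cases i <;> simp
    · rw [inv_mul_eq_one, mon_conj]
      exact mon_congr (by simp) fun i => by fin_cases i <;> simp [Equiv.swap_apply_def]
    · rw [inv_mul_eq_one, ← mon_one_mul, ← mon_one_mul, mul_comm]
    · rintro ⟨z, hz⟩
      rw [mon_inv, mon_mul] at hz
      have p := congrFun (congrFun hz 0) 0
      have q := congrFun (congrFun hz 2) 2
      simp only [Nat.reduceAdd, Nat.succ_eq_add_one, inv_one, mul_one, Equiv.Perm.coe_one, id_eq, Fin.isValue, mon_val, ↓ reduceIte, cons_val_zero, mul_neg, Units.val_neg, Units.val_one, Matrix.smul_apply, one_apply_eq, smul_eq_mul, cons_val, inv_neg, neg_neg] at p q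
      exact h2 (by linear_combination q - p)
    · obtain ⟨c1, c2⟩ := x4d_sep a b (el_comm (by decide) (by decide) _ _)
        (by rw [mon_el, ← el_neg]; simp only [Nat.reduceAdd, Nat.succ_eq_add_one, Fin.isValue, Equiv.Perm.coe_one, id_eq, cons_val_zero, Units.val_one, one_div, one_mul, cons_val_one, Units.val_neg, div_neg, div_one]) (by rw [mon_el, ← el_neg]; simp [div_neg])
        (by rw [mon_el, ← el_neg]; simp) (by rw [mon_el]; simp) c
      obtain ⟨d1, d2⟩ := x4d_sep a b (el_comm (by decide) (by decide) _ _)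
        (by rw [mon_el, ← el_neg]; simp) (by rw [mon_el, ← el_neg]; simp)
        (by rw [mon_el, ← el_neg]; simp [div_neg]) (by rw [mon_el]; simp) d
      rw [k] at c1 c2 d1 d2
      exact x4d_g3 ht c1 c2 d1 d2

theorem tL4e [Finite K] (h2 : (2 : K) = 0) :
    IsLeast {n | Good (chev (CartanMatrix.A 3) 1 (RingHom.id K)) n} 4 := by
  obtain ⟨t, ht⟩ := x4d_gen (K := K)
  obtain ⟨g, hg, e⟩ := x4d_conj h2 (N := 3) (Equiv.swap 0 2 * Equiv.swap 1 3) 2 1 (i := 0) (j := 1)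
    (k := 2) (l := 3) (by decide)
  obtain ⟨g', hg', e'⟩ := x4d_conj h2 (N := 3) (Equiv.swap 1 2 * Equiv.swap 0 2) 2 1 (i := 0) (j := 1)
    (k := 1) (l := 2) (by decide)
  obtain ⟨g'', hg'', e''⟩ := x4d_conj h2 (N := 3) (Equiv.swap 0 3 * Equiv.swap 1 3) 2 t (i := 0)
    (j := 1) (k := 3) (l := 0) (by decide)
  refine fourSL (by decide) (no3_sl4 h2) (el_slg _ _ _) (el_slg _ _ _) (el_slg _ _ _) (el_slg _ _ _)
    hg hg' hg'' (x4d_two h2 _ _) e e' e'' (x4d_sc ?_) ?_ fun H _ a b c d => x4d_g4 ht a b c d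
  · rw [(el_comm (by decide) (by decide) _ _).eq, inv_mul_cancel]
  · rintro ⟨z, hz⟩
    have := congrFun (congrFun hz 0) 1
    rw [Units.val_mul, el_inv (by decide), el_val (by decide)] at this
    simp [mul_apply, one_apply] at this

end Pool.Agent.MP_c78e8e_al.H75

end

section

namespace Pool.Agent.MP_c78e8e_al.H75

open Subgroup Matrix

variable {K : Type} [Field K] {φ : K →+* K}

theorem x4e_mul (a b c d e f g h i j k l m n o p a' b' c' d' e' f' g' h' i' j' k' l' m' n' o' p' : K) :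
    HMul.hMul (α := Matrix (Fin (3 + 1)) (Fin (3 + 1)) K) (β := Matrix (Fin (3 + 1)) (Fin (3 + 1)) K)
      (γ := Matrix (Fin (3 + 1)) (Fin (3 + 1)) K) !![a, b, c, d; e, f, g, h; i, j, k, l; m, n, o, p]
      !![a', b', c', d'; e', f', g', h'; i', j', k', l'; m', n', o', p'] =
    !![a * a' + b * e' + c * i' + d * m', a * b' + b * f' + c * j' + d * n',
        a * c' + b * g' + c * k' + d * o', a * d' + b * h' + c * l' + d * p';
      e * a' + f * e' + g * i' + h * m', e * b' + f * f' + g * j' + h * n',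
        e * c' + f * g' + g * k' + h * o', e * d' + f * h' + g * l' + h * p';
      i * a' + j * e' + k * i' + l * m', i * b' + j * f' + k * j' + l * n',
        i * c' + j * g' + k * k' + l * o', i * d' + j * h' + k * l' + l * p';
      m * a' + n * e' + o * i' + p * m', m * b' + n * f' + o * j' + p * n',
        m * c' + n * g' + o * k' + p * o', m * d' + n * h' + o * l' + p * p'] := by
  ext i j
  rw [Matrix.mul_apply, Fin.sum_univ_four]
  fin_cases i <;> fin_cases j <;> rfl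

omit [Field K] in
theorem x4e_eta (M : Matrix (Fin 4) (Fin 4) K) : M = !![M 0 0, M 0 1, M 0 2, M 0 3;
    M 1 0, M 1 1, M 1 2, M 1 3; M 2 0, M 2 1, M 2 2, M 2 3; M 3 0, M 3 1, M 3 2, M 3 3] := by
  ext i j
  fin_cases i <;> fin_cases j <;> rfl

theorem x4e_one : (1 : GL (Fin (3 + 1)) K).1 = !![1, 0, 0, 0; 0, 1, 0, 0; 0, 0, 1, 0; 0, 0, 0, 1] := by
  rw [Units.val_one, x4e_eta 1]
  simp

theorem x4e_rev : ∀ i : Fin (3 + 1), i ≠ i.rev := by decide

/-- Short root elements. -/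
def x4eX (φ : K →+* K) (i j : Fin (3 + 1)) (s : K) : GL (Fin (3 + 1)) K :=
  el i j s * el j.rev i.rev (φ s)

theorem x4e_val {i j : Fin (3 + 1)} (h : i ≠ j) (s : K) :
    (x4eX φ i j s).1 = 1 + (single i j s + single j.rev i.rev (φ s)) :=
  natb1_val h (x4e_rev j) _ _

theorem x4e_01 (s : K) :
    (x4eX φ 0 1 s).1 = !![1, s, 0, 0; 0, 1, 0, 0; 0, 0, 1, φ s; 0, 0, 0, 1] := by
  rw [x4e_val (by decide), x4e_eta (1 + _)]
  simp only [Nat.reduceAdd, Fin.isValue, show Fin.rev (1 : Fin (3 + 1)) = 2 from rfl, show Fin.rev (0 : Fin (3 + 1)) = 3 from rfl, Matrix.add_apply, one_apply_eq, one_ne_zero, and_false, not_false_eq_true, single_apply_of_ne, Fin.reduceEq, and_self, add_zero, ne_eq, zero_ne_one, one_apply_ne, single_apply_same, zero_add, and_true]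

theorem x4e_10 (s : K) :
    (x4eX φ 1 0 s).1 = !![1, 0, 0, 0; s, 1, 0, 0; 0, 0, 1, 0; 0, 0, φ s, 1] := by
  rw [x4e_val (by decide), x4e_eta (1 + _)]
  simp only [Nat.reduceAdd, Fin.isValue, show Fin.rev (0 : Fin (3 + 1)) = 3 from rfl, show Fin.rev (1 : Fin (3 + 1)) = 2 from rfl, Matrix.add_apply, one_apply_eq, one_ne_zero, and_true, not_false_eq_true, single_apply_of_ne, Fin.reduceEq, and_self, add_zero, ne_eq, zero_ne_one, one_apply_ne, single_apply_same, zero_add, and_false]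

theorem x4e_02 (s : K) :
    (x4eX φ 0 2 s).1 = !![1, 0, s, 0; 0, 1, 0, φ s; 0, 0, 1, 0; 0, 0, 0, 1] := by
  rw [x4e_val (by decide), x4e_eta (1 + _)]
  simp only [Nat.reduceAdd, Fin.isValue, show Fin.rev (2 : Fin (3 + 1)) = 1 from rfl, show Fin.rev (0 : Fin (3 + 1)) = 3 from rfl, Matrix.add_apply, one_apply_eq, Fin.reduceEq, and_false, not_false_eq_true, single_apply_of_ne, one_ne_zero, and_self, add_zero, ne_eq, zero_ne_one, one_apply_ne, single_apply_same, zero_add, and_true]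

theorem x4e_03 (s : K) :
    (el (0 : Fin (3 + 1)) 3 s).1 = !![1, 0, 0, s; 0, 1, 0, 0; 0, 0, 1, 0; 0, 0, 0, 1] := by
  rw [el_val (by decide), x4e_eta (1 + _)]
  simp only [Nat.reduceAdd, Fin.isValue, Matrix.add_apply, one_apply_eq, Fin.reduceEq, and_false, not_false_eq_true, single_apply_of_ne, add_zero, ne_eq, zero_ne_one, one_apply_ne, single_apply_same, zero_add, one_ne_zero, and_self, and_true]

theorem x4e_12 (s : K) :
    (el (1 : Fin (3 + 1)) 2 s).1 = !![1, 0, 0, 0; 0, 1, s, 0; 0, 0, 1, 0; 0, 0, 0, 1] := by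
  rw [el_val (by decide), x4e_eta (1 + _)]
  simp only [Nat.reduceAdd, Fin.isValue, Matrix.add_apply, one_apply_eq, one_ne_zero, Fin.reduceEq, and_self, not_false_eq_true, single_apply_of_ne, add_zero, ne_eq, zero_ne_one, one_apply_ne, and_true, and_false, single_apply_same, zero_add]

theorem x4e_21 (s : K) :
    (el (2 : Fin (3 + 1)) 1 s).1 = !![1, 0, 0, 0; 0, 1, 0, 0; 0, s, 1, 0; 0, 0, 0, 1] := by
  rw [el_val (by decide), x4e_eta (1 + _)]
  simp only [Nat.reduceAdd, Fin.isValue, Matrix.add_apply, one_apply_eq, Fin.reduceEq, one_ne_zero, and_self, not_false_eq_true, single_apply_of_ne, add_zero, ne_eq, zero_ne_one, one_apply_ne, and_true, and_false, single_apply_same, zero_add]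

theorem x4e_short [CharP K 2] (hφ : ∀ s, φ (φ s) = s) {i j : Fin (3 + 1)} (h : i ≠ j) (h1 : j ≠ i.rev)
    (g : GL (Fin (3 + 1)) K) : g ∈ rt φ i j ↔ ∃ s, g = x4eX φ i j s := by
  rw [rt_short hφ h h1 (x4e_rev i) (x4e_rev j)]
  simp only [Nat.reduceAdd, CharTwo.neg_eq, one_pow, one_mul, x4eX]

theorem x4e_long [CharP K 2] (hφ : ∀ s, φ (φ s) = s) (i : Fin (3 + 1))
    (g : GL (Fin (3 + 1)) K) : g ∈ rt φ i i.rev ↔ ∃ s, φ s = s ∧ g = el i i.rev s := by
  rw [rt_long hφ (x4e_rev i)]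
  simp [CharTwo.neg_eq]

/-- Monomial involutions. -/
def x4eN (φ : K →+* K) (s : K) : GL (Fin (3 + 1)) K := x4eX φ 1 0 s⁻¹ * x4eX φ 0 1 s * x4eX φ 1 0 s⁻¹

/-- The transposition of the two middle basis vectors. -/
def x4eW (K : Type) [Field K] : GL (Fin (3 + 1)) K := el 2 1 1 * el 1 2 1 * el 2 1 1

theorem x4e_N [CharP K 2] {s : K} (h : s ≠ 0) :
    (x4eN φ s).1 = !![0, s, 0, 0; s⁻¹, 0, 0, 0; 0, 0, 0, φ s; 0, 0, (φ s)⁻¹, 0] := by
  have : φ s ≠ 0 := (map_ne_zero φ).2 h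
  simp only [x4eN, Units.val_mul, x4e_01, x4e_10, x4e_mul]
  simp [h, this, CharTwo.add_self_eq_zero]

theorem x4e_W [CharP K 2] : (x4eW K).1 = !![1, 0, 0, 0; 0, 0, 1, 0; 0, 1, 0, 0; 0, 0, 0, 1] := by
  simp only [x4eW, Units.val_mul, x4e_12, x4e_21, x4e_mul]
  simp [CharTwo.add_self_eq_zero]

theorem x4e_cj {G : Type} [Group G] {H : Subgroup G} {g x y : G} (hg : g ∈ H) (hx : x ∈ H)
    (e : g * x = y * g) : y ∈ H := by
  rw [← mul_inv_eq_iff_eq_mul.2 e]
  exact mul_mem (mul_mem hg hx) (inv_mem hg)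

theorem tU4e [Finite K] (hφ : ∀ s, φ (φ s) = s) (ne : φ ≠ RingHom.id K) (h2 : (2 : K) = 0) :
    IsLeast {n | Good (chev (CartanMatrix.A 3) Fin.revPerm φ) n} 4 := by
  have : CharP K 2 := CharTwo.of_one_ne_zero_of_two_eq_zero one_ne_zero h2
  obtain ⟨z, zz, -, -, sp, -⟩ := norm_gen hφ ne
  have sp2 : Spn (z ^ 2) := by simpa [ringChar.eq K 2] using sp.frob 1
  obtain ⟨m, m0, hm⟩ := hilbert90 hφ ne zz
  have m1 : φ m ≠ 0 := (map_ne_zero φ).2 m0
  obtain rfl : z = m / φ m := eq_div_of_mul_eq m1 hm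
  obtain ⟨t, ht⟩ := trace_surj hφ ne (map_one φ)
  have sh : ∀ {i j : Fin (3 + 1)}, i ≠ j → j ≠ i.rev → ∀ s, x4eX φ i j s ∈ sug 3 φ :=
    fun h h1 s => rt_mem ((x4e_short hφ h h1 _).2 ⟨s, rfl⟩)
  have lg : ∀ i : Fin (3 + 1), el i i.rev 1 ∈ sug 3 φ :=
    fun i => rt_mem ((x4e_long hφ i _).2 ⟨1, map_one φ, rfl⟩)
  have s01 := sh (i := 0) (j := 1) (by decide) (by decide)
  have s10 := sh (i := 1) (j := 0) (by decide) (by decide)
  have sN : ∀ s, x4eN φ s ∈ sug 3 φ := fun s => mul_mem (mul_mem (s10 _) (s01 _)) (s10 _)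
  have sW : x4eW K ∈ sug 3 φ := mul_mem (mul_mem (lg 2) (lg 1)) (lg 2)
  have sc : ∀ {x g a : GL (Fin (3 + 1)) K}, x * g = g * a → Sc (x⁻¹ * (g * a * g⁻¹)) :=
    fun e => sc_of_eq (eq_mul_inv_of_mul_eq e)
  have vA := x4e_N (φ := φ) one_ne_zero
  have vN := x4e_N (φ := φ) m0
  simp only [map_one, inv_one] at vA
  refine fourSU (r := 3) (by norm_num) hφ (fun _ => ne) (no3_su4 h2 hφ ne) (a := x4eN φ 1)
    (b := x4eX φ 0 2 1) (c := x4eW K * el 0 3 1) (d := x4eN φ m * x4eN φ 1 * (x4eN φ m)⁻¹)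
    (g := x4eW K * x4eX φ 1 0 1)
    (g' := el 2 1 1 * x4eX φ 0 1 1 * x4eX φ 1 0 t * x4eW K * x4eX φ 1 0 1)
    (sN 1) (sh (by decide) (by decide) 1) (mul_mem sW (lg 0))
    (mul_mem (mul_mem (sN m) (sN 1)) (inv_mem (sN m))) (mul_mem sW (s10 1))
    (mul_mem (mul_mem (mul_mem (mul_mem (lg 2) (s01 1)) (s10 t)) sW) (s10 1)) (sN m)
    ⟨1, ?_⟩ (sc (Units.ext ?_)) (sc (Units.ext ?_)) (sc_of_eq rfl) (sc_of_eq (Units.ext ?_)) ?_ ?_
  · rw [one_smul]
    refine Eq.trans ?_ x4e_one.symm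
    simp only [Units.val_mul, vA, x4e_mul]
    simp
  · simp only [Units.val_mul, vA, x4e_W, x4e_02, x4e_10, x4e_mul]
    simp [CharTwo.add_self_eq_zero]
  · have e : φ t = 1 + t := by linear_combination ht - t * h2
    simp only [Units.val_mul, vA, x4e_W, x4e_03, x4e_21, x4e_01, x4e_10, x4e_mul, e]
    simp [CharTwo.add_self_eq_zero, ← add_assoc (1 : K) 1]
  · simp only [Units.val_mul, vA, x4e_02, x4e_mul]
    simp
  · rintro ⟨y, e⟩
    have e1 : (x4eX φ 0 2 1).1 = (x4eN φ 1).1 * y • 1 := by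
      rw [← e, ← Units.val_mul, mul_inv_cancel_left]
    have e2 := congrFun₂ e1 0 0
    rw [vA, x4e_02] at e2
    simp at e2
  · intro H _ ha hb hc hd
    have hh : x4eN φ m * x4eN φ 1 * (x4eN φ m * x4eN φ 1) ∈ H := by
      have e : (x4eN φ m)⁻¹ = x4eN φ m := inv_eq_of_mul_eq_one_right (Units.ext (by
        simp only [Units.val_mul, vN, x4e_mul, x4e_one]
        simp [m0, m1]))
      simpa only [e, mul_assoc] using mul_mem hd ha
    have p02 : ∀ s, x4eX φ 0 2 s ∈ H := by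
      refine sp2.ind (fun s t k k' => ?_) one_ne_zero hb fun s k => x4e_cj hh k (Units.ext ?_)
      · convert mul_mem k k' using 1
        refine Units.ext ?_
        simp only [Units.val_mul, x4e_02, x4e_mul]
        simp only [Nat.reduceAdd, map_add, mul_one, mul_zero, add_comm, zero_add, add_zero, one_mul, zero_mul]
      · simp only [Units.val_mul, vA, vN, x4e_02, x4e_mul]
        simp [hφ]
        constructor <;> field_simp
    have p01 : ∀ s, x4eX φ 0 1 s ∈ H := fun s => x4e_cj hc (p02 s) (Units.ext (by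
      simp only [Units.val_mul, x4e_W, x4e_03, x4e_02, x4e_01, x4e_mul]
      simp))
    have p10 : ∀ s, x4eX φ 1 0 s ∈ H := fun s => x4e_cj ha (p01 s) (Units.ext (by
      simp only [Units.val_mul, vA, x4e_10, x4e_01, x4e_mul]
      simp))
    have p03 : ∀ s, φ s = s → el 0 3 s ∈ H := fun s hs => by
      obtain ⟨u, rfl⟩ := trace_surj hφ ne hs
      convert mul_mem (mul_mem (p01 u) (p02 1)) (mul_mem (p01 u) (p02 1)) using 1
      refine Units.ext ?_
      simp only [Units.val_mul, x4e_03, x4e_02, x4e_01, x4e_mul]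
      simp [CharTwo.add_self_eq_zero, add_comm]
    have pW : x4eW K ∈ H := by simpa only [Nat.reduceAdd, Fin.isValue, mul_inv_cancel_right] using mul_mem hc (inv_mem (p03 1 (map_one φ)))
    have p12 : ∀ s, φ s = s → el 1 2 s ∈ H := fun s hs => x4e_cj ha (p03 s hs) (Units.ext (by
      simp only [Units.val_mul, vA, x4e_12, x4e_03, x4e_mul]
      simp))
    have p21 : ∀ s, φ s = s → el 2 1 s ∈ H := fun s hs => x4e_cj pW (p12 s hs) (Units.ext (by
      simp only [Units.val_mul, x4e_W, x4e_12, x4e_21, x4e_mul]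
      simp))
    have r01 : rt φ 0 1 ⊆ H := fun g hg => by
      obtain ⟨s, rfl⟩ := (x4e_short hφ (by decide) (by decide) g).1 hg
      exact p01 s
    have r10 : rt φ 1 0 ⊆ H := fun g hg => by
      obtain ⟨s, rfl⟩ := (x4e_short hφ (by decide) (by decide) g).1 hg
      exact p10 s
    intro i
    fin_cases i
    · exact ⟨r01, r10⟩
    · refine ⟨fun g hg => ?_, fun g hg => ?_⟩
      · obtain ⟨s, hs, rfl⟩ := (x4e_long hφ 1 g).1 hg
        exact p12 s hs
      · obtain ⟨s, hs, rfl⟩ := (x4e_long hφ 2 g).1 hg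
        exact p21 s hs
    · exact ⟨(rt_rev 0 1).le.trans r01, (rt_rev 1 0).le.trans r10⟩

end Pool.Agent.MP_c78e8e_al.H75

end

section

namespace Pool.Agent.MP_c78e8e_al.H75

open Subgroup Matrix

variable {K : Type} [Field K] {φ : K →+* K} {H : Subgroup (GL (Fin 3) K)}
  {A B G : Matrix (Fin 3) (Fin 3) K} {s t u v l m : K}

/-- The matrix lies in the subgroup. -/
def x4fIn (H : Subgroup (GL (Fin 3) K)) (A : Matrix (Fin 3) (Fin 3) K) : Prop := ∃ g ∈ H, g.1 = A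

theorem x4fIn.mul (h : x4fIn H A) (h' : x4fIn H B) : x4fIn H (A * B) := by
  obtain ⟨g, hg, rfl⟩ := h
  obtain ⟨g', hg', rfl⟩ := h'
  exact ⟨g * g', mul_mem hg hg', rfl⟩

theorem x4fIn.left (h : x4fIn H A) (h' : x4fIn H (A * B)) : x4fIn H B := by
  obtain ⟨g, hg, rfl⟩ := h
  obtain ⟨g', hg', e⟩ := h'
  exact ⟨g⁻¹ * g', mul_mem (inv_mem hg) hg', by simp only [Units.val_mul, coe_units_inv, e, inv_mul_cancel_left_of_invertible]⟩

theorem x4fIn.right (h : x4fIn H B) (h' : x4fIn H (A * B)) : x4fIn H A := by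
  obtain ⟨g, hg, rfl⟩ := h
  obtain ⟨g', hg', e⟩ := h'
  exact ⟨g' * g⁻¹, mul_mem hg' (inv_mem hg), by simp only [Units.val_mul, e, coe_units_inv, mul_inv_cancel_right_of_invertible]⟩

theorem x4fIn.cj (h : x4fIn H G) (h' : x4fIn H A) (e : G * A = B * G) : x4fIn H B :=
  h.right (e ▸ h.mul h')

variable (φ) in
/-- Upper unitriangular elements. -/
def x4fX (s u : K) : Matrix (Fin 3) (Fin 3) K := !![1, s, u; 0, 1, φ s; 0, 0, 1]

variable (φ) in
/-- Lower unitriangular elements. -/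
def x4fY (s u : K) : Matrix (Fin 3) (Fin 3) K := !![1, 0, 0; φ s, 1, 0; u, s, 1]

variable (φ) in
/-- Antidiagonal elements. -/
def x4fN (m : K) : Matrix (Fin 3) (Fin 3) K := !![0, 0, m; 0, -(φ m / m), 0; (φ m)⁻¹, 0, 0]

variable (φ) in
/-- Diagonal elements. -/
def x4fD (l : K) : Matrix (Fin 3) (Fin 3) K := !![l, 0, 0; 0, φ l / l, 0; 0, 0, (φ l)⁻¹]

omit [Field K] in
theorem x4f_ext {a b c d e f g h i a' b' c' d' e' f' g' h' i' : K} (h1 : a = a') (h2 : b = b')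
    (h3 : c = c') (h4 : d = d') (h5 : e = e') (h6 : f = f') (h7 : g = g') (h8 : h = h') (h9 : i = i') :
    !![a, b, c; d, e, f; g, h, i] = !![a', b', c'; d', e', f'; g', h', i'] := by
  subst_vars; rfl

theorem x4f_xx : x4fX φ s u * x4fX φ t v = x4fX φ (s + t) (u + v + s * φ t) := by
  simp only [x4fX, mul_fin_three, map_add]
  apply x4f_ext <;> ring

theorem x4f_dx (hφ : ∀ s, φ (φ s) = s) (l0 : l ≠ 0) :
    x4fD φ l * x4fX φ s u = x4fX φ (l * l / φ l * s) (l * φ l * u) * x4fD φ l := by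
  have := (map_ne_zero φ).2 l0
  simp only [x4fX, x4fD, mul_fin_three, map_mul, map_div₀, hφ]
  apply x4f_ext <;> field_simp <;> ring

theorem x4f_nx (hφ : ∀ s, φ (φ s) = s) (m0 : m ≠ 0) : x4fN φ m * x4fX φ s u =
    x4fY φ (-(m / (φ m * φ m) * s)) (u / (m * φ m)) * x4fN φ m := by
  have := (map_ne_zero φ).2 m0
  simp only [x4fX, x4fY, x4fN, mul_fin_three, map_mul, map_div₀, map_neg, hφ]
  apply x4f_ext <;> field_simp <;> ring

theorem x4f_nn (l0 : l ≠ 0) (m0 : m ≠ 0) :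
    x4fN φ (l * m) = x4fD φ l * x4fN φ m := by
  have := (map_ne_zero φ).2 m0
  have := (map_ne_zero φ).2 l0
  simp only [x4fD, x4fN, mul_fin_three, map_mul]
  apply x4f_ext <;> field_simp <;> ring

theorem x4f_dd (l0 : l ≠ 0) (m0 : m ≠ 0) : x4fD φ (l * m) = x4fD φ l * x4fD φ m := by
  have := (map_ne_zero φ).2 m0
  have := (map_ne_zero φ).2 l0
  simp only [x4fD, mul_fin_three, map_mul]
  apply x4f_ext <;> field_simp <;> ring

theorem x4f_br (hφ : ∀ s, φ (φ s) = s) (u0 : u ≠ 0) (h : u + φ u = s * φ s) : x4fY φ s u =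
    x4fX φ (s / φ u) u⁻¹ * x4fN φ (φ u)⁻¹ * x4fX φ (s / u) u⁻¹ := by
  have := (map_ne_zero φ).2 u0
  simp only [x4fX, x4fY, x4fN, mul_fin_three, map_div₀, map_inv₀, hφ]
  apply x4f_ext <;> field_simp
  all_goals first | ring1 | linear_combination h | linear_combination -h | linear_combination φ u * h

theorem x4f_x0 : x4fX φ 0 0 = 1 := by
  simp [x4fX, one_fin_three]

theorem x4f_rtX (hφ : ∀ s, φ (φ s) = s) (g : GL (Fin 3) K) : g ∈ rt (r := 2) φ 0 1 ↔
    ∃ s u, u + φ u = s * φ s ∧ g.1 = x4fX φ s u := by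
  rw [rt_mid hφ (by decide) (by decide)]
  refine exists_congr fun s => exists_congr fun u => and_congr (by simp) ?_
  rw [Units.ext_iff, natb1_val3 (by decide) (by decide) (by decide)]
  refine Eq.congr_right ?_
  ext i j
  fin_cases i <;> fin_cases j <;> simp only [Nat.reduceAdd, Fin.isValue, Fin.rev, Fin.coe_ofNat_eq_mod, Nat.zero_mod, zero_add, Nat.add_one_sub_one, Fin.reduceFinMk, Nat.one_mod, pow_one, neg_neg, one_mul, Fin.zero_eta, Matrix.add_apply, one_apply_eq, one_ne_zero, Fin.reduceEq, and_self, not_false_eq_true, single_apply_of_ne, and_false, add_zero, x4fX, of_apply, cons_val', cons_val_zero, cons_val_fin_one, Fin.mk_one, ne_eq, zero_ne_one, one_apply_ne, single_apply_same, cons_val_one, and_true, cons_val]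

theorem x4f_rtY (hφ : ∀ s, φ (φ s) = s) (g : GL (Fin 3) K) : g ∈ rt (r := 2) φ 2 1 ↔
    ∃ s u, u + φ u = s * φ s ∧ g.1 = x4fY φ s u := by
  rw [rt_mid hφ (by decide) (by decide)]
  refine exists_congr fun s => exists_congr fun u => and_congr (by norm_num) ?_
  rw [Units.ext_iff, natb1_val3 (by decide) (by decide) (by decide)]
  refine Eq.congr_right ?_
  ext i j
  fin_cases i <;> fin_cases j <;> simp only [Nat.reduceAdd, Fin.isValue, Fin.rev, Fin.coe_ofNat_eq_mod, Nat.mod_succ, tsub_self, Fin.zero_eta, Nat.one_mod, neg_mul, Matrix.add_apply, one_apply_eq, one_ne_zero, and_true, not_false_eq_true, single_apply_of_ne, Fin.reduceEq, and_self, add_zero, x4fY, of_apply, cons_val', cons_val_zero, cons_val_fin_one, Fin.mk_one, ne_eq, zero_ne_one, one_apply_ne, cons_val_one, Fin.reduceFinMk, cons_val, single_apply_same, zero_add, and_false]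
  norm_num

theorem x4f_sX (hφ : ∀ s, φ (φ s) = s) (h : u + φ u = s * φ s) : x4fIn (sug 2 φ) (x4fX φ s u) :=
  ⟨GeneralLinearGroup.mkOfDetNeZero _ (by simp [det_fin_three]),
    rt_mem ((x4f_rtX hφ _).2 ⟨s, u, h, rfl⟩), rfl⟩

theorem x4f_sY (hφ : ∀ s, φ (φ s) = s) (h : u + φ u = s * φ s) : x4fIn (sug 2 φ) (x4fY φ s u) :=
  ⟨GeneralLinearGroup.mkOfDetNeZero _ (by simp [det_fin_three]),
    rt_mem ((x4f_rtY hφ _).2 ⟨s, u, h, rfl⟩), rfl⟩

theorem x4f_sN [Finite K] (hφ : ∀ s, φ (φ s) = s) (ne : φ ≠ RingHom.id K) (m0 : m ≠ 0) :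
    x4fIn (sug 2 φ) (x4fN φ m) := by
  have n := (map_ne_zero φ).2 m0
  obtain ⟨s, h⟩ := norm_surj hφ ne (t := (φ m)⁻¹ + φ (φ m)⁻¹) (by rw [map_add, hφ, add_comm])
  have k := x4f_sY hφ h.symm
  rw [x4f_br hφ (inv_ne_zero n) h.symm] at k
  simp only [inv_inv, map_inv₀, hφ] at k h
  refine (x4f_sX hφ ?_).left ((x4f_sX hφ ?_).right k) <;> simp only [map_div₀, map_inv₀, hφ] <;>
    field_simp at h ⊢ <;> linear_combination -h

theorem x4f_sD [Finite K] (hφ : ∀ s, φ (φ s) = s) (ne : φ ≠ RingHom.id K) (l0 : l ≠ 0) :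
    x4fIn (sug 2 φ) (x4fD φ l) :=
  (x4f_sN hφ ne one_ne_zero).right (x4f_nn l0 one_ne_zero ▸ x4f_sN hφ ne (by simpa using l0))

section
variable [Finite K] (hφ : ∀ s, φ (φ s) = s) (ne : φ ≠ RingHom.id K) {x : Fix φ} (x0 : x ≠ 0)
  (hx : ∀ f : Fix φ, f ≠ 0 → ∃ n : ℕ, f = x ^ n) (hD : x4fIn H (x4fD φ x))
include hφ x0 hx hD

/-- One long root element gives all of them. -/
theorem x4f_Z (u0 : u ≠ 0) (hu : φ u = -u) (h : x4fIn H (x4fX φ 0 u)) (hv : φ v = -v) :
    x4fIn H (x4fX φ 0 v) := by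
  have sp : Spn (x ^ 2) := spn_sq fun f f0 => by
    obtain ⟨n, rfl⟩ := hx f f0
    exact ⟨n, by ring⟩
  have := sp.ind (P := fun f => x4fIn H (x4fX φ 0 (f * u))) (fun a b p q => by
      simpa only [Subfield.coe_add, add_mul, x4f_xx, add_zero, map_zero, mul_zero] using p.mul q) one_ne_zero (by simpa only [OneMemClass.coe_one, one_mul] using h) (fun a p => by
      simpa only [pow_two, mul_assoc, Subfield.coe_mul, show φ x = x from x.2, mul_self_div_self, mul_zero] using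
        hD.cj p (x4f_dx hφ (by simpa using x0)))
    ⟨v / u, by change φ _ = _; simp [hu, hv]⟩
  simpa [u0] using this

/-- One short root element gives a line of them. -/
theorem x4f_P (Z : ∀ v, φ v = -v → x4fIn H (x4fX φ 0 v)) {a : Fix φ} (a0 : a ≠ 0)
    (hu : u + φ u = a * s * φ (a * s)) (h : x4fIn H (x4fX φ (a * s) u)) (f : Fix φ)
    (hv : v + φ v = f * s * φ (f * s)) : x4fIn H (x4fX φ (f * s) v) := by
  have sp : Spn x := spn_sq fun f f0 => by
    obtain ⟨n, rfl⟩ := hx f f0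
    exact ⟨n * 2, by ring⟩
  have n : (x : K) ≠ 0 := by simpa using x0
  obtain ⟨w, hw, k⟩ := sp.ind (P := fun f => ∃ w, w + φ w = f * s * φ (f * s) ∧
      x4fIn H (x4fX φ (f * s) w)) (fun a b ⟨w, p, p'⟩ ⟨w', q, q'⟩ =>
      ⟨w + w' + a * s * φ (b * s), by
        simp only [map_add, map_mul, hφ, Subfield.coe_add] at p q ⊢
        linear_combination p + q, by simpa only [Subfield.coe_add, add_mul, map_mul, x4f_xx] using p'.mul q'⟩) a0 ⟨u, hu, h⟩
      (fun a ⟨w, p, p'⟩ => ⟨x * x * w, by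
        simp only [map_mul, show φ x = x from x.2, Subfield.coe_mul] at p ⊢
        linear_combination x * x * p, by
        simpa only [Subfield.coe_mul, mul_assoc, show φ x = x from x.2, isUnit_iff_ne_zero, ne_eq, n, not_false_eq_true, IsUnit.mul_div_cancel_right] using hD.cj p' (x4f_dx hφ n)⟩) f
  simpa [x4f_xx] using k.mul (Z (v - w) (by rw [map_sub]; linear_combination hv - hw))

/-- An element of the big cell gives a short root element. -/
theorem x4f_A (x1 : x ≠ 1) (Z : ∀ v, φ v = -v → x4fIn H (x4fX φ 0 v)) {k : K} (k0 : k ≠ 0)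
    (hk : φ k = -k) (m0 : m ≠ 0) (hu : u + φ u = s * φ s)
    (h : x4fIn H (x4fX φ s u * x4fN φ m * x4fX φ t v)) (f : Fix φ) {w : K}
    (hw : w + φ w = f * s * φ (f * s)) : x4fIn H (x4fX φ (f * s) w) := by
  have n : (x : K) ≠ 0 := by simpa using x0
  have n' := (map_ne_zero φ).2 m0
  have e : φ x = x := x.2
  have i1 : x4fX φ s u * x4fX φ (-s) (φ u) = 1 := by
    rw [x4f_xx, ← x4f_x0 (φ := φ), map_neg]; congr 1 <;> [ring; linear_combination hu]
  have i2 : x4fX φ (-s) (φ u) * x4fX φ s u = 1 := mul_eq_one_comm.1 i1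
  have c : ∀ s u k, x4fX φ s u * x4fX φ 0 k = x4fX φ 0 k * x4fX φ s u := fun s u k => by
    simp [x4f_xx, add_comm]
  have key : ∀ k, k ≠ 0 → φ k = -k →
      x4fIn H (x4fX φ s u * x4fN φ (φ k)⁻¹ * x4fX φ (-s) (φ u)) := fun k k0 hk => by
    have z := Z k⁻¹ (by rw [map_inv₀, hk, inv_neg])
    have := h.cj (Z (k * (m * φ m)) (by simp only [map_mul, hφ, hk]; ring))
      (B := x4fX φ 0 k⁻¹ * (x4fX φ s u * x4fN φ (φ k)⁻¹ * x4fX φ (-s) (φ u)) * x4fX φ 0 k⁻¹) (by
      rw [mul_assoc, c, ← mul_assoc, mul_assoc _ (x4fN φ m), x4f_nx hφ m0, mul_zero, neg_zero,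
        mul_div_cancel_right₀ _ (mul_ne_zero m0 n'), x4f_br hφ k0 (by simp [hk]), zero_div, zero_div]
      simp only [← mul_assoc]
      rw [c s, mul_assoc _ (x4fX φ (-s) _), c, ← mul_assoc, mul_assoc _ (x4fX φ (-s) _), i2, mul_one])
    exact z.left (z.right this)
  have k1 := key (k / x) (div_ne_zero k0 n) (by rw [map_div₀, e, hk, neg_div])
  rw [map_div₀, e, inv_div, div_eq_mul_inv, x4f_nn n (inv_ne_zero ((map_ne_zero φ).2 k0))] at k1
  have k2 : x4fIn H (x4fX φ s u * x4fD φ x * x4fX φ (-s) (φ u)) :=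
    (key k k0 hk).right (by
      simp only [mul_assoc] at k1 ⊢
      rwa [← mul_assoc (x4fX φ (-s) _), i2, one_mul])
  rw [mul_assoc, x4f_dx hφ n, ← mul_assoc, x4f_xx] at k2
  refine x4f_P hφ x0 hx hD Z (a := 1 - x) (sub_ne_zero.2 x1.symm) ?_
    (by convert hD.right k2 using 2; simp only [AddSubgroupClass.coe_sub, OneMemClass.coe_one, e, isUnit_iff_ne_zero, ne_eq, n, not_false_eq_true, IsUnit.mul_div_cancel_right, mul_neg]; ring) f hw
  simp only [map_add, map_mul, map_div₀, map_neg, map_sub, map_one, hφ, e, Subfield.coe_sub, Subfield.coe_one]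
  field_simp
  linear_combination (1 + x * x) * hu

include ne in
/-- The end game. -/
theorem x4f_end (x1 : x ≠ 1) (Z : ∀ v, φ v = -v → x4fIn H (x4fX φ 0 v)) (N : x4fIn H (x4fN φ 1))
    (P : ∀ (f : Fix φ) w, w + φ w = f * 1 * φ (f * 1) → x4fIn H (x4fX φ (f * 1) w)) (i : Fin 2) :
    rt φ i.castSucc i.succ ⊆ H ∧ rt φ i.succ i.castSucc ⊆ H := by
  obtain ⟨k, k0, hk⟩ := skew_ex hφ ne
  obtain ⟨u, hu, nu⟩ : ∃ u, u + φ u = 1 ∧ u - φ u ≠ 0 := by
    obtain ⟨u, hu⟩ := trace_surj hφ ne (map_one φ)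
    by_cases h : u - φ u = 0
    · refine ⟨u + k, by rw [map_add]; linear_combination hu + hk, fun e => k0 ?_⟩
      rw [map_add] at e
      linear_combination u * e - u * h - k * h - k * hu + u * hk
    · exact ⟨u, hu, h⟩
  have u0 : u ≠ 0 := by rintro rfl; simp at hu
  have n := (map_ne_zero φ).2 u0
  have Y := N.cj (P (-1) u (by simpa only [NegMemClass.coe_neg, OneMemClass.coe_one, mul_one, map_neg, map_one, mul_neg, neg_neg] using hu)) (x4f_nx hφ one_ne_zero)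
  have hu' : u + φ u = 1 * φ 1 := by simpa only [map_one, mul_one] using hu
  simp only [map_one, mul_one, div_one, Subfield.coe_neg, Subfield.coe_one, mul_neg, neg_neg] at Y
  rw [x4f_br hφ u0 hu'] at Y
  have Q := fun f w => x4f_A hφ x0 hx hD x1 Z k0 hk (inv_ne_zero n) (by
    simp only [map_div₀, map_inv₀, hφ, map_one]; field_simp; linear_combination hu) Y f (w := w)
  have X : ∀ s w, w + φ w = s * φ s → x4fIn H (x4fX φ s w) := fun s w hw => by
    have n2 : φ u - u ≠ 0 := fun e => nu (by linear_combination -e)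
    let b : Fix φ := ⟨(s - φ s) * (u * φ u) / (u - φ u), by
      change φ _ = _
      simp only [map_div₀, map_mul, map_sub, hφ, RingHom.id_apply]; field_simp; ring⟩
    let a : Fix φ := ⟨s - b * (1 / φ u), by
      change φ _ = _
      simp only [b, map_div₀, map_mul, map_sub, map_one, hφ, RingHom.id_apply]; field_simp; ring⟩
    obtain ⟨w1, h1⟩ := trace_surj hφ ne (t := a * 1 * φ (a * 1)) (by rw [map_mul, hφ, mul_comm])
    have e : s = a * 1 + b * (1 / φ u) := by simp [a]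
    have := (P a w1 h1).mul (Q b (w - w1 - a * 1 * φ (b * (1 / φ u))) (by
      rw [e] at hw
      simp only [map_add, map_sub, map_mul, hφ] at h1 hw ⊢
      linear_combination hw - h1))
    rw [x4f_xx, ← e] at this
    convert this using 2
    ring
  have h1 : rt (r := 2) φ 0 1 ⊆ H := fun g hg => by
    obtain ⟨s, w, hw, e⟩ := (x4f_rtX hφ g).1 hg
    obtain ⟨g', h', e'⟩ := X s w hw
    exact Units.ext (e'.trans e.symm) ▸ h'
  have h2 : rt (r := 2) φ 2 1 ⊆ H := fun g hg => by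
    obtain ⟨s, w, hw, e⟩ := (x4f_rtY hφ g).1 hg
    obtain ⟨g', h', e'⟩ := N.cj (X (-s) w (by simpa only [map_neg, mul_neg, neg_mul, neg_neg] using hw)) (x4f_nx hφ one_ne_zero)
    exact (Units.ext (by simpa [e] using e') : g' = g) ▸ h'
  fin_cases i
  · exact ⟨h1, rt_rev (φ := φ) (2 : Fin 3) 1 ▸ h2⟩
  · exact ⟨rt_rev (φ := φ) (0 : Fin 3) 1 ▸ h1, h2⟩

end

theorem x4f_four (hφ : ∀ s, φ (φ s) = s) (ne : φ ≠ RingHom.id K)
    {T A B C D G1 G2 G3 G4 : Matrix (Fin 3) (Fin 3) K} (hT : x4fIn (sug 2 φ) T) (tt : T * T = 1)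
    (h1 : x4fIn (sug 2 φ) G1) (h2 : x4fIn (sug 2 φ) G2) (h3 : x4fIn (sug 2 φ) G3)
    (h4 : x4fIn (sug 2 φ) G4) (e1 : G1 * T = A * G1) (e2 : G2 * T = B * G2) (e3 : G3 * T = C * G3)
    (e4 : G4 * T = D * G4) (ab : A * B = B * A) (n : ∀ z : K, B ≠ z • A)
    (gen : ∀ H, x4fIn H A → x4fIn H B → x4fIn H C → x4fIn H D →
      ∀ i : Fin 2, rt φ i.castSucc i.succ ⊆ H ∧ rt φ i.succ i.castSucc ⊆ H) :
    IsLeast {n | Good (chev (CartanMatrix.A 2) Fin.revPerm φ) n} 4 := by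
  obtain ⟨t, ht, rfl⟩ := hT
  obtain ⟨g1, h1, rfl⟩ := h1
  obtain ⟨g2, h2, rfl⟩ := h2
  obtain ⟨g3, h3, rfl⟩ := h3
  obtain ⟨g4, h4, rfl⟩ := h4
  have v : ∀ {g : GL (Fin 3) K} {X}, g.1 * t.1 = X * g.1 → (g * t * g⁻¹).1 = X := fun e => by
    simp only [Units.val_mul, e, coe_units_inv, mul_inv_cancel_right_of_invertible]
  have m : ∀ {g}, g ∈ sug 2 φ → g * t * g⁻¹ ∈ sug 2 φ := fun h => mul_mem (mul_mem h ht) (inv_mem h)
  have s1 : ∀ {g : GL (Fin 3) K}, g = 1 → Sc g := fun e => ⟨1, by simp [e]⟩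
  have tt' : t * t = 1 := Units.ext tt
  refine fourSU le_rfl hφ (fun _ => ne) (no3_su3 hφ ne) (m h1) (m h2) (m h3) (m h4)
    (mul_mem h2 (inv_mem h1)) (mul_mem h3 (inv_mem h1)) (mul_mem h4 (inv_mem h1))
    (s1 (by rw [conj_mul, tt']; simp)) (s1 (by group)) (s1 (by group)) (s1 (by group))
    (s1 (inv_mul_eq_one.2 (Units.ext (by
      rw [Units.val_mul _ (g2 * t * g2⁻¹), Units.val_mul (g2 * t * g2⁻¹), v e1, v e2, ab]))))
    (fun ⟨z, e⟩ => n z ?_) fun H _ a b c d => gen H ⟨_, a, v e1⟩ ⟨_, b, v e2⟩ ⟨_, c, v e3⟩ ⟨_, d, v e4⟩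
  rw [← v e1, ← v e2, ← mul_inv_cancel_left (g1 * t * g1⁻¹) (g2 * t * g2⁻¹), Units.val_mul, e]
  simp only [Units.val_mul, coe_units_inv, Nat.reduceAdd, Algebra.mul_smul_comm, mul_one]

/-- Conjugating the diagonal involution to an antidiagonal one. -/
theorem x4f_w [Finite K] (hφ : ∀ s, φ (φ s) = s) (ne : φ ≠ RingHom.id K) (h2 : (2 : K) ≠ 0)
    (m0 : m ≠ 0) (hm : φ m = m) : ∃ W, x4fIn (sug 2 φ) W ∧ W * x4fD φ (-1) = x4fN φ m * W := by
  obtain ⟨s, hs⟩ := norm_surj hφ ne (t := -2 * m) (by simp [hm, map_ofNat])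
  have s0 : s ≠ 0 := by rintro rfl; simp [h2, m0] at hs
  have n := (map_ne_zero φ).2 s0
  obtain rfl : m = -(s * φ s) / 2 := by rw [hs]; field_simp
  refine ⟨x4fX φ s (s * φ s / 2) * x4fY φ (-1 / φ s) (1 / (s * φ s * 2)),
    (x4f_sX hφ ?_).mul (x4f_sY hφ ?_), ?_⟩
  iterate 2 simp only [map_div₀, map_mul, map_neg, map_one, map_ofNat, hφ]; field_simp; ring
  simp only [x4fX, x4fY, x4fN, x4fD, mul_fin_three, map_div₀, map_mul, map_neg, map_one, map_ofNat, hφ]
  apply x4f_ext <;> field_simp <;> ring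

theorem x4f_dn (hφ : ∀ s, φ (φ s) = s) (l0 : l ≠ 0) :
    x4fD φ l * x4fN φ 1 = x4fN φ (l * φ l) * x4fD φ l := by
  have := (map_ne_zero φ).2 l0
  simp only [x4fD, x4fN, mul_fin_three, map_mul, map_one, hφ]
  apply x4f_ext <;> field_simp <;> ring

theorem x4f_r1 {F G : Type} [Field F] [Finite F] [Group G] (ψ : SL2 F →* G) (h2 : (2 : F) = 0) {x : F}
    (x0 : x ≠ 0) (hx : ∀ f, f ≠ 0 → ∃ n : ℕ, f = x ^ n) (x1 : x ≠ 1) : ∃ u y h, u ≠ 0 ∧ y ≠ 0 ∧
    ∀ H : Subgroup G, ψ (mdg (Units.mk0 x x0)) ∈ H → ψ mw ∈ H →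
      ψ (mM u y (-1) 1 (one_mul 1) h) ∈ H → ∀ A, ψ A ∈ H := by
  obtain ⟨u, y, l, i, j, u0, y0, h, hl, xj, c⟩ := sol_two (x := x ^ 2) (δ := -1) h2 (pow_ne_zero 2 x0)
    (fun e => x1 (by
      have : (x - 1) ^ 2 = 0 := by linear_combination e + (1 - x) * h2
      exact sub_eq_zero.1 (pow_eq_zero_iff two_ne_zero |>.1 this))) (by simp)
  have nz : ∀ g : SL2 F, g * mdg (Units.mk0 x x0) = mdg (Units.mk0 x x0) * g ∨
      g * mdg (Units.mk0 x x0) = (mdg (Units.mk0 x x0))⁻¹ * g → ψ g ∈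
      normalizer (zpowers (ψ (mdg (Units.mk0 x x0))) : Set _) := fun g h => by
    rw [mem_normalizer_iff_map_conj_eq, MonoidHom.map_zpowers, MonoidHom.coe_coe, MulAut.conj_apply,
      ← map_mul]
    rcases h with h | h <;> simp [h]
  have n1 := nz mw (Or.inr (by
    rw [eq_inv_mul_iff_mul_eq]; exact Subtype.ext (by simp [mw, mdg, x0])))
  exact ⟨u, y, h, u0, y0, fun H m1 m2 m3 => r1 (b := 1) (one_mul 1) h u0 y0 hl xj c
    (spn_sq fun f f0 => by
      obtain ⟨n, rfl⟩ := hx f f0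
      exact ⟨n, by ring⟩)
    (by
      rintro _ ⟨a, rfl⟩ _ ⟨b, rfl⟩ _ _
      rw [(Commute.zpow_zpow_self _ a b).commutator_eq]
      exact Commute.one_left _)
    n1 (fun a => nz _ (Or.inl (Subtype.ext (by simp only [mdg, Units.val_inv_eq_inv_val, Units.val_mk0, Matrix.SpecialLinearGroup.coe_mul, cons_mul, Nat.succ_eq_add_one, Nat.reduceAdd, vecMul_cons, head_cons, smul_cons, smul_eq_mul, mul_comm, mul_zero, smul_empty, tail_cons, zero_smul, empty_vecMul, add_zero, zero_add, empty_mul, Equiv.symm_apply_apply])))) (mem_zpowers _)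
    (by simpa [mdg, x0, pow_two] using (act_self (ψ := ψ) (mdg (Units.mk0 x x0))).smul x0) n1
    (by simpa only [mw, neg_smul, one_smul, neg_of, neg_cons, neg_zero, neg_empty, neg_neg] using (act_self (ψ := ψ) mw).smul (c := -1) (by simp)) (one_mem _)
    (by simpa [one_fin_two] using sl2c_one (ψ := ψ)) m1 m2 (by simpa using m3)⟩

variable (φ) in
/-- The long root subgroup in characteristic two. -/
def x4fψ : SL2 (Fix φ) →* GL (Fin 3) K := MonoidHom.toHomUnits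
  { toFun := fun A => !![(A.1 0 0 : K), 0, A.1 0 1; 0, 1, 0; A.1 1 0, 0, A.1 1 1]
    map_one' := by simp only [Fin.isValue, Matrix.SpecialLinearGroup.coe_one, one_apply_eq, OneMemClass.coe_one, ne_eq, zero_ne_one, not_false_eq_true, one_apply_ne, ZeroMemClass.coe_zero, one_ne_zero, one_fin_three]
    map_mul' := fun A B => by simp only [Fin.isValue, Matrix.SpecialLinearGroup.coe_mul, mul_apply, Fin.sum_univ_two, Subfield.coe_add, Subfield.coe_mul, cons_mul, Nat.succ_eq_add_one, Nat.reduceAdd, vecMul_cons, head_cons, smul_cons, smul_eq_mul, mul_zero, smul_empty, tail_cons, zero_smul, empty_vecMul, add_zero, zero_add, add_cons, empty_add_empty, one_smul, empty_mul, Equiv.symm_apply_apply] }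

theorem x4f_even [Finite K] (hφ : ∀ s, φ (φ s) = s) (ne : φ ≠ RingHom.id K) (h2 : (2 : K) = 0)
    {x : Fix φ} (x0 : x ≠ 0) (hx : ∀ f : Fix φ, f ≠ 0 → ∃ n : ℕ, f = x ^ n) (x1 : x ≠ 1) :
    IsLeast {n | Good (chev (CartanMatrix.A 2) Fin.revPerm φ) n} 4 := by
  have : CharP K 2 := CharTwo.of_one_ne_zero_of_two_eq_zero one_ne_zero h2
  have h2' : (2 : Fix φ) = 0 := Subtype.ext h2
  have n : (x : K) ≠ 0 := by simpa using x0
  have e : φ x = x := x.2
  obtain ⟨u, y, h, u0, y0, L⟩ := x4f_r1 (x4fψ φ) h2' x0 hx x1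
  have y0' : (y : K) ≠ 0 := by simpa using y0
  have h' : -1 * (y : K) ^ 2 - u ^ 2 = 1 := congrArg Subtype.val h
  obtain ⟨a, ha⟩ := norm_surj hφ ne (t := (y : K)⁻¹) (by rw [map_inv₀, show φ y = y from y.2])
  obtain ⟨b, hb⟩ := norm_surj hφ ne e
  obtain ⟨w, hw⟩ := trace_surj hφ ne (map_one φ)
  have a0 : a ≠ 0 := by rintro rfl; simp [y0'.symm] at ha
  have b0 : b ≠ 0 := by rintro rfl; simp [n.symm] at hb
  have hw' : w + φ w = 1 * φ 1 := by simpa only [map_one, mul_one] using hw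
  refine x4f_four hφ ne (T := x4fN φ 1) (A := x4fN φ 1) (G1 := 1)
    (B := (x4fψ φ (mM u y (-1) 1 (one_mul 1) h)).1) (C := x4fN φ x)
    (D := x4fX φ 1 w * x4fN φ 1 * x4fX φ (-1) (φ w)) (x4f_sN hφ ne one_ne_zero) ?_ ⟨1, one_mem _, rfl⟩
    ((x4f_sX (s := 0) (u := (u : K) / y) hφ ?_).mul (x4f_sD hφ ne a0)) (x4f_sD hφ ne b0) (x4f_sX hφ hw')
    (by simp) ?_ (hb ▸ x4f_dn hφ b0) ?_ ?_ (fun z e => ?_) fun H m1 m2 m3 m4 => ?_
  · simp [x4fN, one_fin_three]
  · rw [map_div₀, show φ y = y from y.2, show φ u = u from u.2, CharTwo.add_self_eq_zero, zero_mul]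
  · rw [mul_assoc, x4f_dn hφ a0, ha, ← mul_assoc, ← mul_assoc]
    congr 1
    simp [x4fX, x4fN, x4fψ, mM, show φ y = y from y.2, CharTwo.neg_eq, y0']
    field_simp
    exact ⟨by linear_combination h' + h2, by linear_combination -u * h2⟩
  · rw [mul_assoc, x4f_xx]
    simp [CharTwo.neg_eq, add_comm (φ w), hw, CharTwo.add_self_eq_zero, x4f_x0]
  · simp [x4fN, x4fψ, mM, CharTwo.neg_eq]
  · simpa [x4fN, x4fψ, mM, u0] using congrFun (congrFun e 0) 0
  have hD : x4fIn H (x4fD φ x) := m1.right (x4f_nn n one_ne_zero ▸ (by simpa using m3))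
  have mem : ∀ {g : GL (Fin 3) K} {A}, x4fIn H A → A = g.1 → g ∈ H := fun ⟨g, m, e⟩ e' =>
    Units.ext (e.trans e') ▸ m
  have L := L H (mem hD (by simp only [x4fD, e, ne_eq, n, not_false_eq_true, div_self, x4fψ, Fin.isValue, mdg, Units.val_mk0, Units.val_inv_eq_inv_val, MonoidHom.coe_toHomUnits, MonoidHom.coe_mk, OneHom.coe_mk, of_apply, cons_val', cons_val_zero, cons_val_fin_one, cons_val_one, ZeroMemClass.coe_zero, Subfield.coe_inv]))
    (mem m1 (by simp only [x4fN, map_one, ne_eq, one_ne_zero, not_false_eq_true, div_self, CharTwo.neg_eq, inv_one, x4fψ, Fin.isValue, mw, MonoidHom.coe_toHomUnits, MonoidHom.coe_mk, OneHom.coe_mk, of_apply, cons_val', cons_val_zero, cons_val_fin_one, ZeroMemClass.coe_zero, cons_val_one, OneMemClass.coe_one])) (mem m2 rfl)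
  have Z : ∀ v, φ v = -v → x4fIn H (x4fX φ 0 v) := fun v hv =>
    ⟨_, L (mx ⟨v, by simpa [CharTwo.neg_eq] using hv⟩), by simp only [x4fψ, Fin.isValue, mx, MonoidHom.coe_toHomUnits, MonoidHom.coe_mk, OneHom.coe_mk, of_apply, cons_val', cons_val_zero, cons_val_fin_one, OneMemClass.coe_one, cons_val_one, ZeroMemClass.coe_zero, x4fX, map_zero]⟩
  exact x4f_end hφ ne x0 hx hD x1 Z m1 fun f _ =>
    x4f_A hφ x0 hx hD x1 Z one_ne_zero (by simp [CharTwo.neg_eq]) one_ne_zero hw' m4 f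

/-- A conjugate of an antidiagonal involution by a long root element. -/
def x4fR (m k : K) : Matrix (Fin 3) (Fin 3) K := !![k / m, 0, m - k * k / m; 0, -1, 0; m⁻¹, 0, -(k / m)]

theorem x4f_id (h2 : (2 : K) ≠ 0) {x : K} (n : x ≠ 0) (e : φ x = x) (k : K) :
    x4fX φ 1 (1 / 2 + k) * x4fN φ (2 * x) =
      x4fX φ 1 2⁻¹ * x4fR (2 * x) k * x4fX φ (-1) 2⁻¹ * x4fX φ 1 (1 / 2 + k) ∧
    x4fX φ (2 * 1) (2 * (1 * φ 1)) * x4fD φ (-1) * (x4fX φ 1 2⁻¹ * x4fR (2 * x) k * x4fX φ (-1) 2⁻¹) =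
      x4fX φ 1 2⁻¹ * x4fR (2 * x) k * x4fX φ (-1) 2⁻¹ * (x4fX φ (2 * 1) (2 * (1 * φ 1)) * x4fD φ (-1)) ∧
    (∀ z : K, x4fX φ 1 2⁻¹ * x4fR (2 * x) k * x4fX φ (-1) 2⁻¹ ≠
      z • (x4fX φ (2 * 1) (2 * (1 * φ 1)) * x4fD φ (-1))) ∧
    x4fR (2 * x) k * x4fX φ (-(2 * x)) (-(2 * x) * -(2 * x) / 2) = x4fX φ (2 * 1) (2 * (1 * φ 1)) *
      x4fR 2 k * x4fX φ (2 * 1) (2 * (1 * φ 1)) * x4fR (2 * x) k ∧
    x4fR (2 * x) k = x4fX φ 0 (k * (1 - x * x)) * x4fD φ x * x4fR 2 k := by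
  simp only [x4fX, x4fN, x4fD, x4fR, mul_fin_three, map_mul, map_neg, map_one, map_zero, map_ofNat, e,
    mul_zero, zero_mul, add_zero, zero_add, mul_one, one_mul, mul_neg, neg_neg, neg_zero, inv_neg,
    inv_one, div_neg, div_one, neg_div]
  refine ⟨?_, ?_, fun z e => by simpa [n, h2] using congrFun (congrFun e 2) 0, ?_, ?_⟩ <;>
    apply x4f_ext <;> field_simp <;> ring

theorem x4f_odd [Finite K] (hφ : ∀ s, φ (φ s) = s) (ne : φ ≠ RingHom.id K) (h2 : (2 : K) ≠ 0)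
    {x : Fix φ} (x0 : x ≠ 0) (hx : ∀ f : Fix φ, f ≠ 0 → ∃ n : ℕ, f = x ^ n) :
    IsLeast {n | Good (chev (CartanMatrix.A 2) Fin.revPerm φ) n} 4 := by
  have n : (x : K) ≠ 0 := by simpa using x0
  have e : φ x = x := x.2
  have p2 : φ 2 = 2 := map_ofNat φ 2
  obtain ⟨j, hj⟩ := hx (-1) (by simp)
  have x1 : x ≠ 1 := by
    rintro rfl
    exact h2 (by simpa only [NegMemClass.coe_neg, OneMemClass.coe_one, one_pow, neg_eq_iff_add_eq_zero, one_add_one_eq_two] using congrArg Subtype.val hj)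
  obtain ⟨k, k0, hk⟩ := skew_ex hφ ne
  obtain ⟨W, w1, w2⟩ := x4f_w hφ ne h2 one_ne_zero (map_one φ)
  have t1 := x4f_sD hφ ne (l := -1) (by simp)
  have t2 : x4fD φ (-1) * x4fD φ (-1) = 1 := by simp [x4fD, one_fin_three]
  have cj : ∀ s u : K, u + φ u = s * φ s → x4fX φ s u * x4fD φ (-1) =
      x4fX φ (2 * s) (2 * (s * φ s)) * x4fD φ (-1) * x4fX φ s u := fun s u h => by
    simp only [x4fX, x4fD, mul_fin_three, map_mul, map_neg, map_one, p2]
    apply x4f_ext <;> field_simp <;> ring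
  have v1 : (1 / 2 : K) + φ (1 / 2) = 1 * φ 1 := by simp only [map_div₀, map_one, p2]; field_simp; ring
  have fin : ∀ H, x4fIn H (x4fD φ x) → x4fIn H (x4fN φ 1) → x4fIn H (x4fX φ (2 * 1) (2 * (1 * φ 1))) →
      ∀ u, u ≠ 0 → φ u = -u → x4fIn H (x4fX φ 0 u) →
      ∀ i : Fin 2, rt φ i.castSucc i.succ ⊆ H ∧ rt φ i.succ i.castSucc ⊆ H :=
    fun H hD N X u u0 hu z => x4f_end hφ ne x0 hx hD x1 (fun _ => x4f_Z hφ x0 hx hD u0 hu z) N
      fun f _ => x4f_P hφ x0 hx hD (fun _ => x4f_Z hφ x0 hx hD u0 hu z) (a := 2)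
        (fun e => h2 (congrArg Subtype.val e)) (by
          change _ = 2 * 1 * φ (2 * 1)
          simp only [map_mul, map_one, p2]; ring) X f
  by_cases xx : (x : K) * x = 1
  · have xm : (x : K) = -1 := (mul_self_eq_one_iff.1 xx).resolve_left fun e => x1 (Subtype.ext e)
    have vk : k * φ k / 2 + φ (k * φ k / 2) = k * φ k := by
      simp only [map_div₀, map_mul, p2, hφ]; field_simp; ring
    refine x4f_four hφ ne (A := x4fD φ (-1)) (G1 := 1) t1 t2 ⟨1, one_mem _, rfl⟩ w1 (x4f_sX hφ v1)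
      (x4f_sX hφ vk) (by simp) w2 (cj _ _ v1) (cj _ _ vk) (by simp [x4fD, x4fN])
      (fun z e => by simpa [x4fD, x4fN] using congrFun (congrFun e 0) 2) fun H m1 m2 m3 m4 => ?_
    refine fin H (xm ▸ m1) m2 (m1.right m3) (-(2 * 2 * 2 * k)) (by simp [h2, k0])
      (by simp only [map_neg, map_mul, p2, hk]; ring)
      (((m1.right m4).mul (m1.right m3)).right ?_)
    convert (m1.right m3).mul (m1.right m4) using 1
    simp only [x4f_xx, map_add, map_mul, p2, map_one, hk]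
    congr 1 <;> ring
  · obtain ⟨W', w3, w4⟩ := x4f_w hφ ne h2 n e
    obtain ⟨W'', w5, w6⟩ := x4f_w hφ ne h2 (mul_ne_zero h2 n) (by rw [map_mul, p2, e])
    have vk : 1 / 2 + k + φ (1 / 2 + k) = 1 * φ 1 := by rw [map_add]; linear_combination v1 + hk
    obtain ⟨i1, i2, i3, i4, i5⟩ := x4f_id h2 n e k
    refine x4f_four hφ ne t1 t2 (x4f_sX hφ v1) ((x4f_sX hφ vk).mul w5) w1 w3 (cj _ _ v1)
      (by rw [mul_assoc, w6, ← mul_assoc, ← mul_assoc, i1]) w2 w4 i2 i3 fun H m1 m2 m3 m4 => ?_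
    have hD : x4fIn H (x4fD φ x) := m3.right (x4f_nn n one_ne_zero ▸ (by simpa using m4))
    have t : ∀ j : ℕ, x4fIn H (x4fD φ (x ^ j)) := fun j => by
      induction j with
      | zero => exact ⟨1, one_mem _, by simp [x4fD, one_fin_three]⟩
      | succ j ih => rw [pow_succ, x4f_dd (pow_ne_zero _ n) n]; exact ih.mul hD
    have X := x4fIn.right ((by simpa only [NegMemClass.coe_neg, OneMemClass.coe_one, SubmonoidClass.coe_pow] using congrArg Subtype.val hj : (-1 : K) = x ^ j) ▸ t j) m1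
    have P := (spn_sq (x := x) fun f f0 => by
      obtain ⟨n, rfl⟩ := hx f f0
      exact ⟨n * 2, by ring⟩).ind (P := fun f => x4fIn H (x4fX φ f (f * f / 2))) (fun a b p q => by
        convert p.mul q using 1
        rw [x4f_xx, show φ b = b from b.2]
        congr 1
        push_cast; field_simp; ring) (a := 2) (fun e => h2 (congrArg Subtype.val e))
      (by change x4fIn H (x4fX φ 2 (2 * 2 / 2)); simpa only [isUnit_iff_ne_zero, ne_eq, h2, not_false_eq_true, IsUnit.mul_div_cancel_right, mul_one, map_one] using X) fun a p => by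
        convert hD.cj p (x4f_dx hφ n) using 2 <;> simp only [e, Subfield.coe_mul] <;> field_simp
    have r := (P 1).left (x4fIn.right (P (-1)) (by simpa only [OneMemClass.coe_one, mul_one, one_div, NegMemClass.coe_neg, mul_neg, neg_neg] using m2))
    exact fin H hD m3 X (k * (1 - x * x)) (mul_ne_zero k0 (sub_ne_zero.2 (Ne.symm xx)))
      (by simp only [map_mul, map_sub, map_one, hk, e]; ring)
      (hD.right ((X.left (X.right (r.cj (P (-(2 * x))) i4))).right (i5 ▸ r)))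

theorem tU3 [Finite K] (hφ : ∀ s, φ (φ s) = s) (ne : φ ≠ RingHom.id K) (h4 : Nat.card K ≠ 4) :
    IsLeast {n | Good (chev (CartanMatrix.A 2) Fin.revPerm φ) n} 4 := by
  obtain ⟨x, x0, hx⟩ := sl2f_gen (K := Fix φ)
  by_cases h2 : (2 : K) = 0
  · refine x4f_even hφ ne h2 x0 hx fun e => h4 ?_
    rw [(card_fix hφ ne).1, (Nat.card_eq_two_iff' 0).2 ⟨1, one_ne_zero, fun y h => by
      simpa [e] using hx y h⟩]
    rfl
  · exact x4f_odd hφ ne h2 x0 hx

end Pool.Agent.MP_c78e8e_al.H75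

end
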