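import Pool.Agent.MP_c78e8e_al.Mg.Sg_Mon
import Pool.Agent.MP_c78e8e_al.Sg.Sl2

attribute [-instance] instNoNatZeroDivisorsOfIsAddTorsionFree RKHS.instFunLike
  instCharZeroOfIsSemireal MonTypeEquivalenceMon.monMonoid decidableEq_of_subsingleton
  SemilinearMapClass.toAddHomClass SemilatticeInf.toPartialOrder IdemSemiring.toSemiring
  FunLike.toDecidableEq DistribMulActionSemiHomClass.toAddMonoidHomClass
  UniformSpace.toTopologicalSpace FloorSemiring.instCharZero LinearOrder.toDecidableEq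
  FiniteField.instGrindPowIdentity IsMulCommutative.is_comm
  Std.instLawfulBEqOrdOfLawfulOrderOrdOfLawfulOrderBEq RingConeClass.toSubsemiringClass
  RCLike.charZero_rclike CompletePartialOrder.toPartialOrder SemigroupWithZero.toSemigroup
  ContinuousMonoidHom.instCoeOutOfMonoidHomClassOfContinuousMapClass instCoeTCOfCoe
  instCoeOutOfCoeFun NumberField.to_charZero BialgHomClass.toMonoidHomClass littleWedderburn
  AlgHom.instNonUnitalAlgHomClassOfAlgHomClass instIsRightCancelAddOfAddRightReflectLE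
  FirstOrder.Language.instDecidableEqFunctions FirstOrder.Language.instDecidableEqRelations
  GrpTypeEquivalenceGrp.grpGroup NeZero.of_gt' Units.instPreorder BooleanRing.toRing
  CommMonTypeEquivalenceCommMon.commMonCommMonoid IsStrictOrderedRing.toCharZero
  Std.LawfulBEqOrd.opposite Std.instLawfulBEqOrd AddCommGroup.toGrindIntModule
  NormMulClass.toNoZeroDivisors SubsemiringClass.toSubmonoidClass RCLike.toDecidableEq
  NonUnitalNonAssocSemiring.toAddCommMonoid Pi.hasLe instSMulZeroClass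
  ValuationClass.toMonoidWithZeroHomClass instNonUnitalAlgHomClassOfNonUnitalAlgEquivClass
  Invertible.toNeZero ContDiffMapSupportedInClass.toDFunLike FinEnum.decEq NormedAlgebra.toAlgebra
  Std.PreorderPackage.toBEq NormedCommRing.toCommRing IsometryClass.instCoeOutIsometryEquiv
  LieAdmissibleRing.toNonUnitalNonAssocRing TestFunctionClass.toDFunLike NormedRing.toRing
  GroupConeClass.toSubmonoidClass NonUnitalNormedRing.toNormedAddCommGroup
  ContinuousAddMonoidHom.instCoeOutOfAddMonoidHomClassOfContinuousMapClass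
  HomeomorphClass.instCoeOutHomeomorph CommGroup.toGroup BooleanRing.instIdempotentOpHMul
  NormedField.toField instCoeTOfCoeDep MulCharClass.toMonoidHomClass instCoeHTCT
  MulDistribMulActionSemiHomClass.toMonoidHomClass IsStrictOrderedRing.noZeroDivisors
  CategoryTheory.Limits.Concrete.instUniqueToTypeTerminal SeminormedCommRing.toCommRing
  instCommGroupOfIsSimpleGroupOfIsNilpotent Pi.preorder IdemCommSemiring.toCommSemiring

section

namespace Pool.Agent.MP_c78e8e_al.H75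

open Subgroup Matrix

variable {r : ℕ} {K : Type} [Field K] [CharP K 2] {φ : K →+* K}

theorem x5_sg (n : ℕ) : (-1 : K) ^ n = 1 := by rw [CharTwo.neg_eq, one_pow]

theorem x5_two : (2 : K) = 0 := CharTwo.two_eq_zero

theorem x5_vv (w : Fin (r + 1) → K) : w + w = 0 := funext fun _ => CharTwo.add_self_eq_zero _

omit [CharP K 2] in
theorem x5_symm (hφ : ∀ s, φ (φ s) = s) {u v : Fin (r + 1) → K} (h : bu φ u v = 0) :
    bu φ v u = 0 := by rw [bu_symm hφ, h, map_zero, mul_zero]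

theorem x5_app (hφ : ∀ s, φ (φ s) = s) {e w : Fin (r + 1) → K} (h : bu φ e e = 0)
    (h' : bu φ w e = 0) (a : K) (v : Fin (r + 1) → K) : (sie φ e w a).1 *ᵥ v =
      v + bu φ v e • w + (bu φ v w + a * bu φ v e) • e := by
  rw [sie_apply h h' (x5_symm hφ h'), x5_sg, one_mul, sub_eq_add_neg, ← neg_smul, CharTwo.neg_eq]

theorem x5_mul (hφ : ∀ s, φ (φ s) = s) {e w w' : Fin (r + 1) → K} (h : bu φ e e = 0)
    (h1 : bu φ w e = 0) (h2 : bu φ w' e = 0) (a a' : K) :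
    sie φ e w a * sie φ e w' a' = sie φ e (w + w') (a + a' + bu φ w' w) := by
  have h3 : bu φ (w + w') e = 0 := by rw [bu_add_left, h1, h2, add_zero]
  refine monb_ext fun v => ?_
  simp only [monb_mul, x5_app hφ h h1, x5_app hφ h h2, x5_app hφ h h3, bu_add_left, bu_add_right,
    bu_smul_left, h, h2, x5_symm hφ h1]
  module

theorem x5_one (hφ : ∀ s, φ (φ s) = s) {e : Fin (r + 1) → K} (h : bu φ e e = 0) :
    sie φ e 0 0 = 1 := monb_ext fun v => by simp [x5_app hφ h (bu_zero_left e)]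

theorem x5_sq (hφ : ∀ s, φ (φ s) = s) {e w : Fin (r + 1) → K} (h : bu φ e e = 0)
    (h1 : bu φ w e = 0) (a : K) : sie φ e w a * sie φ e w a = sie φ e 0 (bu φ w w) := by
  rw [x5_mul hφ h h1 h1, x5_vv, CharTwo.add_self_eq_zero, zero_add]

theorem x5_inv (hφ : ∀ s, φ (φ s) = s) {e w : Fin (r + 1) → K} (h : bu φ e e = 0)
    (h1 : bu φ w e = 0) (h2 : bu φ w w = 0) (a : K) : (sie φ e w a)⁻¹ = sie φ e w a := by
  rw [inv_eq_iff_mul_eq_one, x5_sq hφ h h1, h2, x5_one hφ h]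

theorem x5_sc (hφ : ∀ s, φ (φ s) = s) {e w : Fin (r + 1) → K} (h : bu φ e e = 0)
    (h1 : bu φ w e = 0) (k a : K) : sie φ (k • e) w a = sie φ e (φ k • w) (k * φ k * a) := by
  refine monb_ext fun v => ?_
  rw [x5_app hφ (by rw [bu_smul_left, bu_smul_right, h]; simp) (by rw [bu_smul_right, h1]; simp),
    x5_app hφ h (by rw [bu_smul_left, h1]; simp)]
  simp only [bu_smul_right, hφ]
  module

theorem x5_add (hφ : ∀ s, φ (φ s) = s) {e w : Fin (r + 1) → K} (h : bu φ e e = 0)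
    (h1 : bu φ w e = 0) (h2 : bu φ w w = 0) : sie φ (e + w) 0 1 = sie φ e w 1 * sie φ w 0 1 := by
  have h3 := x5_symm hφ h1
  refine monb_ext fun v => ?_
  rw [monb_mul, x5_app hφ h h1, x5_app hφ h2 (bu_zero_left _),
    x5_app hφ (by simp [bu_add_left, bu_add_right, h, h1, h2, h3]) (bu_zero_left _)]
  simp only [bu_add_left, bu_add_right, bu_smul_left, h1, h2, bu_zero_left, bu_zero_right]
  module

theorem x5_fx (hφ : ∀ s, φ (φ s) = s) {e w : Fin (r + 1) → K} (h : bu φ e e = 0)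
    (h' : bu φ w e = 0) {a : K} (c : φ a + a = bu φ w w) : Fx φ (sie φ e w a) :=
  sie_fx hφ h h' (by rw [x5_sg, one_mul, c])

omit [CharP K 2] in
theorem x5_comm (hφ : ∀ s, φ (φ s) = s) {g : GL (Fin (r + 1)) K} (f : Fx φ g)
    {e w : Fin (r + 1) → K} (h : g.1 *ᵥ e = e) (h' : g.1 *ᵥ w = w) (a : K) :
    Commute g (sie φ e w a) := by
  have := sie_conj hφ f e w a
  rw [h, h', mul_inv_eq_iff_eq_mul] at this
  exact this

omit [CharP K 2] in
theorem x5_cj (hφ : ∀ s, φ (φ s) = s) {H : Subgroup (GL (Fin (r + 1)) K)} {g : GL (Fin (r + 1)) K}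
    (f : Fx φ g) (m : g ∈ H) {e w : Fin (r + 1) → K} {a : K} (h : sie φ e w a ∈ H) :
    sie φ (g.1 *ᵥ e) (g.1 *ᵥ w) a ∈ H := by
  rw [← sie_conj hφ f]
  exact mul_mem (mul_mem m h) (inv_mem m)

theorem x5_det {g : GL (Fin (r + 1)) K} (h : g * g = 1) : g.1.det = 1 := by
  have := congrArg (fun x : GL (Fin (r + 1)) K => x.1.det) h
  simp only [Units.val_mul, det_mul, Units.val_one, det_one] at this
  exact CharTwo.sq_inj.1 (by rw [sq, this, one_pow])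

/-- The columns of `P` are orthonormal. -/
def x5On (φ : K →+* K) (P : GL (Fin (r + 1)) K) : Prop :=
  ∀ x y, bu φ (P.1 *ᵥ x) (P.1 *ᵥ y) = ∑ i, x i * φ (y i)

/-- The orthonormal basis. -/
def x5V (P : GL (Fin (r + 1)) K) (i : Fin (r + 1)) : Fin (r + 1) → K := P.1 *ᵥ Pi.single i 1

/-- Monomial matrices for the orthonormal basis. -/
def x5M (P : GL (Fin (r + 1)) K) (π : Equiv.Perm (Fin (r + 1))) (d : Fin (r + 1) → Kˣ) :
    GL (Fin (r + 1)) K := P * mon π d * P⁻¹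

/-- Diagonal matrices with two entries. -/
def x5D (P : GL (Fin (r + 1)) K) (i j : Fin (r + 1)) (η : Kˣ) : GL (Fin (r + 1)) K :=
  x5M P 1 (Pi.mulSingle i η * Pi.mulSingle j η⁻¹)

variable {P : GL (Fin (r + 1)) K}

omit [CharP K 2]

theorem x5_bv (on : x5On φ P) (i j : Fin (r + 1)) :
    bu φ (x5V P i) (x5V P j) = if i = j then 1 else 0 := by
  rw [x5V, x5V, on, Finset.sum_eq_single i (fun k _ h => by simp [h]) (by simp)]
  by_cases h : i = j <;> simp [h]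

theorem x5_mon (π : Equiv.Perm (Fin (r + 1))) (d : Fin (r + 1) → Kˣ) (x : Fin (r + 1) → K)
    (i : Fin (r + 1)) : ((mon π d).1 *ᵥ x) (π i) = d i * x i := by
  rw [mulVec, dotProduct, Finset.sum_eq_single i (fun k _ h => by
    rw [mon_val, if_neg (fun e => h (π.injective e).symm), zero_mul]) (by simp), mon_val, if_pos rfl]

theorem x5_MP (π : Equiv.Perm (Fin (r + 1))) (d : Fin (r + 1) → Kˣ) (x : Fin (r + 1) → K) :
    (x5M P π d).1 *ᵥ P.1 *ᵥ x = P.1 *ᵥ (mon π d).1 *ᵥ x := by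
  rw [← monb_mul, x5M, inv_mul_cancel_right, monb_mul]

theorem x5_MV (π : Equiv.Perm (Fin (r + 1))) (d : Fin (r + 1) → Kˣ) (i : Fin (r + 1)) :
    (x5M P π d).1 *ᵥ x5V P i = (d i : K) • x5V P (π i) := by
  rw [x5V, x5V, x5_MP, ← mulVec_smul]
  congr 1
  ext k
  obtain ⟨k, rfl⟩ := π.surjective k
  rw [x5_mon]
  by_cases h : k = i <;> simp [h]

theorem x5_MV1 (π : Equiv.Perm (Fin (r + 1))) (i : Fin (r + 1)) :
    (x5M P π 1).1 *ᵥ x5V P i = x5V P (π i) := by rw [x5_MV]; simp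

theorem x5_Mmul (π π' : Equiv.Perm (Fin (r + 1))) (d d' : Fin (r + 1) → Kˣ) :
    x5M P π d * x5M P π' d' = x5M P (π * π') fun i => d (π' i) * d' i := by
  rw [x5M, x5M, x5M, ← mon_mul]; group

theorem x5_Mmul1 (π π' : Equiv.Perm (Fin (r + 1))) :
    x5M P π 1 * x5M P π' 1 = x5M P (π * π') 1 := by
  rw [x5_Mmul]; congr 1; ext; simp

theorem x5_Mone : x5M P 1 1 = 1 := by simp [x5M]

theorem x5_Mfx (hφ : ∀ s, φ (φ s) = s) (on : x5On φ P) (π : Equiv.Perm (Fin (r + 1)))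
    {d : Fin (r + 1) → Kˣ} (h : ∀ i, (d i : K) * φ (d i) = 1) : Fx φ (x5M P π d) := by
  refine (fx_iff hφ).2 fun u v => ?_
  rw [← monb_inv' P u, ← monb_inv' P v, x5_MP, x5_MP, on, on, ← Equiv.sum_comp π]
  refine Finset.sum_congr rfl fun i _ => ?_
  rw [x5_mon, x5_mon, map_mul]
  linear_combination ((P⁻¹).1 *ᵥ u) i * φ (((P⁻¹).1 *ᵥ v) i) * h i

theorem x5_Mfx1 (hφ : ∀ s, φ (φ s) = s) (on : x5On φ P) (π : Equiv.Perm (Fin (r + 1))) :
    Fx φ (x5M P π 1) := x5_Mfx hφ on π (by simp)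

theorem x5_Dfx (hφ : ∀ s, φ (φ s) = s) (on : x5On φ P) (i j : Fin (r + 1)) {η : Kˣ}
    (h : (η : K) * φ η = 1) : Fx φ (x5D P i j η) := by
  refine x5_Mfx hφ on 1 fun k => ?_
  have h' : (η : K)⁻¹ * (φ η)⁻¹ = 1 := by rw [← mul_inv, h, inv_one]
  simp only [Pi.mul_apply, Pi.mulSingle_apply]
  split_ifs <;> simp [h, h']

theorem x5_Mdet (π : Equiv.Perm (Fin (r + 1))) (d : Fin (r + 1) → Kˣ) :
    (x5M P π d).1.det = (mon π d).1.det := by
  rw [x5M, Units.val_mul, Units.val_mul, det_units_conj]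

theorem x5_Ddet (i j : Fin (r + 1)) (η : Kˣ) : (x5D P i j η).1.det = 1 := by
  rw [x5D, x5_Mdet, mon_det, ← Units.coe_prod]
  simp [Finset.prod_mul_distrib]

theorem x5_Mdet1 [CharP K 2] (π : Equiv.Perm (Fin (r + 1))) : (x5M P π 1).1.det = 1 := by
  rw [x5_Mdet, mon_det]
  rcases Int.units_eq_one_or (Equiv.Perm.sign π) with h | h <;> simp [h, CharTwo.neg_eq]

theorem x5_ext {g g' : GL (Fin (r + 1)) K} (h : ∀ i, g.1 *ᵥ x5V P i = g'.1 *ᵥ x5V P i) : g = g' := by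
  refine mul_right_cancel (b := P) (Units.ext (Matrix.ext fun k i => ?_))
  have := congrFun (h i) k
  rwa [x5V, ← monb_mul, ← monb_mul, mulVec_single_one, mulVec_single_one] at this

theorem x5_DV (i j k : Fin (r + 1)) (η : Kˣ) : (x5D P i j η).1 *ᵥ x5V P k =
    ((if k = i then η else 1 : K) * if k = j then (η : K)⁻¹ else 1) • x5V P k := by
  rw [x5D, x5_MV]
  simp only [Pi.mul_apply, Pi.mulSingle_apply]
  split_ifs <;> simp

theorem x5_Dmul (i j k : Fin (r + 1)) (η : Kˣ) : x5D P i j η * x5D P j k η = x5D P i k η :=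
  x5_ext (P := P) fun l => by
    simp only [monb_mul, x5_DV, mulVec_smul, smul_smul]
    congr 1
    split_ifs <;> simp

theorem x5_Dself (i : Fin (r + 1)) (η : Kˣ) : x5D P i i η = 1 :=
  x5_ext (P := P) fun l => by
    rw [x5_DV]
    split_ifs <;> simp

theorem x5_Dinv (i j : Fin (r + 1)) (η : Kˣ) : (x5D P i j η)⁻¹ = x5D P j i η := by
  rw [inv_eq_iff_mul_eq_one, x5_Dmul, x5_Dself]

theorem x5_Dmul' (i j : Fin (r + 1)) (η η' : Kˣ) : x5D P i j η * x5D P i j η' = x5D P i j (η * η') :=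
  x5_ext (P := P) fun l => by
    simp only [monb_mul, x5_DV, mulVec_smul, smul_smul]
    congr 1
    simp only [Units.val_mul]
    split_ifs <;> field_simp

theorem x5_Dpow (i j : Fin (r + 1)) (η : Kˣ) (n : ℕ) : x5D P i j η ^ n = x5D P i j (η ^ n) := by
  induction n with
  | zero => exact x5_ext (P := P) fun l => by simp [x5_DV]
  | succ n ih => rw [pow_succ, ih, x5_Dmul', pow_succ]

theorem x5_MD (π : Equiv.Perm (Fin (r + 1))) (i j : Fin (r + 1)) (η : Kˣ) :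
    x5M P π 1 * x5D P i j η = x5D P (π i) (π j) η * x5M P π 1 :=
  x5_ext (P := P) fun l => by
    simp only [monb_mul, x5_DV, mulVec_smul, x5_MV1, π.injective.eq_iff]

theorem x5_exp (on : x5On φ P) (w : Fin (r + 1) → K) : w = ∑ l, bu φ w (x5V P l) • x5V P l := by
  have : ∀ l, bu φ w (x5V P l) = ((P⁻¹).1 *ᵥ w) l := fun l => by
    conv_lhs => rw [← monb_inv' P w]
    rw [x5V, on, Finset.sum_eq_single l (fun k _ h => by simp [h]) (by simp)]
    simp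
  simp only [this]
  simp only [x5V, ← mulVec_smul]
  rw [← mulVec_sum]
  conv_lhs => rw [← monb_inv' P w]
  congr 1
  ext k
  simp [Finset.sum_apply, Pi.single_apply]

theorem x5_swap [CharP K 2] (hφ : ∀ s, φ (φ s) = s) (on : x5On φ P) {i j : Fin (r + 1)} (h : i ≠ j) :
    sie φ (x5V P i + x5V P j) 0 1 = x5M P (Equiv.swap i j) 1 :=
  x5_ext (P := P) fun l => by
    rw [x5_app hφ (by simp [bu_add_left, bu_add_right, x5_bv on, h, h.symm, CharTwo.add_self_eq_zero])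
      (bu_zero_left _), x5_MV1, bu_add_right, x5_bv on, x5_bv on]
    by_cases p : l = i
    · subst p
      simp [h, ← add_assoc, x5_vv]
    · by_cases q : l = j
      · subst q
        simp [p, add_comm (x5V P i), ← add_assoc, x5_vv]
      · simp [p, q, Equiv.swap_apply_of_ne_of_ne]

/-- An orthonormal basis exists. -/
theorem x5_ex [CharP K 2] (hφ : ∀ s, φ (φ s) = s) {β : K} (hβ : β + φ β = 1) :
    ∃ P : GL (Fin (r + 1)) K, x5On φ P ∧ ∀ i, i < i.rev →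
      x5V P i = Pi.single i 1 + Pi.single i.rev β ∧
      x5V P i.rev = Pi.single i 1 + Pi.single i.rev (φ β) := by
  let c : Fin (r + 1) → Fin (r + 1) → K := fun j =>
    if j < j.rev then Pi.single j 1 + Pi.single j.rev β
    else if j.rev < j then Pi.single j.rev 1 + Pi.single j (φ β) else Pi.single j 1
  have t := x5_two (K := K)
  have o : ∀ i j, bu φ (c i) (c j) = if i = j then 1 else 0 := by
    intro i j
    simp only [c]
    split_ifs <;>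
      simp only [bu_add_left, bu_single_left, x5_sg, Fin.rev_rev, Pi.add_apply, Pi.single_apply,
        map_add, apply_ite φ, map_one, map_zero, hφ, Fin.ext_iff, Fin.lt_def, Fin.val_rev] at * <;>
      split_ifs <;> first | omega | linear_combination hβ | linear_combination β * t | linear_combination φ β * t | ring
  let A : Matrix (Fin (r + 1)) (Fin (r + 1)) K := of fun i j => c j i
  have inv : Aᵀ * (Jm r K * A.map φ) = 1 := by
    ext i j
    rw [one_apply, ← o, monb_bu]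
    rfl
  have inv' : (Jm r K * A.map φ)ᵀ * A = 1 := by
    simpa using congrArg transpose inv
  have v : ∀ i, A *ᵥ Pi.single i 1 = c i := fun i => by rw [mulVec_single_one]; rfl
  refine ⟨⟨A, _, mul_eq_one_comm.1 inv', inv'⟩, fun x y => ?_, fun i h => ⟨?_, ?_⟩⟩
  · have : φ ∘ (A *ᵥ y) = A.map φ *ᵥ (φ ∘ y) := funext fun i => RingHom.map_mulVec φ A y i
    change bu φ (A *ᵥ x) (A *ᵥ y) = _
    rw [monb_bu, this, mulVec_mulVec, ← vecMul_transpose, ← dotProduct_mulVec, mulVec_mulVec, inv,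
      one_mulVec]
    rfl
  · exact (v i).trans (if_pos h)
  · refine (v _).trans ?_
    simp only [c, Fin.rev_rev, if_neg h.not_gt, if_pos h]

end Pool.Agent.MP_c78e8e_al.H75

end

section

namespace Pool.Agent.MP_c78e8e_al.H75

open Subgroup Matrix

variable {r : ℕ} {K : Type} [Field K] [CharP K 2] {φ : K →+* K} {P : GL (Fin (r + 1)) K}

/-- One step of a closure certificate for an invariant equivalence relation. -/
def x5step (α β γ : Fin (r + 1) → Fin (r + 1)) (ok : Fin (r + 1) → Fin (r + 1) → Bool)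
    (L : List (Fin (r + 1) × Fin (r + 1))) (c : ℕ × ℕ × ℕ) : Fin (r + 1) × Fin (r + 1) :=
  if c.1 = 0 then (α (L.getD c.2.1 0).1, α (L.getD c.2.1 0).2)
  else if c.1 = 1 then (β (L.getD c.2.1 0).1, β (L.getD c.2.1 0).2)
  else if c.1 = 2 then
    (if ok (L.getD c.2.1 0).1 (L.getD c.2.1 0).2 then (γ (L.getD c.2.1 0).1, γ (L.getD c.2.1 0).2) else 0)
  else if c.1 = 3 then ((L.getD c.2.1 0).2, (L.getD c.2.1 0).1)
  else if (L.getD c.2.1 0).2 = (L.getD c.2.2 0).1 then ((L.getD c.2.1 0).1, (L.getD c.2.2 0).2) else 0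

/-- Running a closure certificate. -/
def x5run (α β γ : Fin (r + 1) → Fin (r + 1)) (ok : Fin (r + 1) → Fin (r + 1) → Bool) :
    List (ℕ × ℕ × ℕ) → List (Fin (r + 1) × Fin (r + 1)) → List (Fin (r + 1) × Fin (r + 1))
  | [], L => L
  | c :: C, L => x5run α β γ ok C (x5step α β γ ok L c :: L)

theorem x5_run {α β γ : Fin (r + 1) → Fin (r + 1)} {ok : Fin (r + 1) → Fin (r + 1) → Bool}
    {R : Fin (r + 1) → Fin (r + 1) → Prop} (rf : ∀ i, R i i) (sy : ∀ i j, R i j → R j i)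
    (tr : ∀ i j k, R i j → R j k → R i k) (ha : ∀ i j, R i j → R (α i) (α j))
    (hb : ∀ i j, R i j → R (β i) (β j)) (hc : ∀ i j, ok i j → R i j → R (γ i) (γ j))
    (C : List (ℕ × ℕ × ℕ)) : ∀ L : List (Fin (r + 1) × Fin (r + 1)), (∀ p ∈ L, R p.1 p.2) →
      ∀ p ∈ x5run α β γ ok C L, R p.1 p.2 := by
  induction C with
  | nil => exact fun _ h => h
  | cons c C ih =>
    intro L h
    refine ih _ fun p hp => ?_
    rcases List.mem_cons.1 hp with rfl | hp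
    · have g : ∀ n, R (L.getD n 0).1 (L.getD n 0).2 := fun n => by
        rw [List.getD_eq_getElem?_getD]
        cases e : L[n]? with
        | none => exact rf _
        | some q => exact h q (List.mem_of_getElem? e)
      unfold x5step
      split_ifs with h1 h2 h3 h4 h5 h6
      · exact ha _ _ (g _)
      · exact hb _ _ (g _)
      · exact hc _ _ h4 (g _)
      · exact rf _
      · exact sy _ _ (g _)
      · exact tr _ _ _ (g _) (h6 ▸ g _)
      · exact rf _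
    · exact h p hp

/-- The action on vectors over the prime field, coded by bits. -/
def x5st (α γ : Fin (r + 1) → Fin (r + 1)) (s0 s1 s2 s3 : Fin (r + 1)) (m : ℕ) : ℕ :=
  Nat.ofBits fun i : Fin (r + 1) => xor (m.testBit (γ (α i)))
    ((xor (xor (m.testBit (γ s0)) (m.testBit (γ s1))) (xor (m.testBit (γ s2)) (m.testBit (γ s3)))) &&
      xor (xor (decide (α i = s0)) (decide (α i = s1))) (xor (decide (α i = s2)) (decide (α i = s3))))

theorem x5_xor (a b : Bool) : (if xor a b then 1 else 0 : K) = (if a then 1 else 0) + if b then 1 else 0 := by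
  cases a <;> cases b <;> simp [CharTwo.add_self_eq_zero]

omit [CharP K 2] in
theorem x5_and (a b : Bool) : (if a && b then 1 else 0 : K) = (if a then 1 else 0) * if b then 1 else 0 := by
  cases a <;> cases b <;> simp

theorem x5_uu (on : x5On φ P) {i j k l : Fin (r + 1)} (n : [i, j, k, l].Nodup) :
    bu φ (x5V P i + x5V P j) (x5V P i + x5V P j) = 0 ∧ bu φ (x5V P k + x5V P l) (x5V P i + x5V P j) = 0 ∧
    bu φ (x5V P k + x5V P l) (x5V P k + x5V P l) = 0 ∧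
    bu φ (x5V P i + x5V P j + (x5V P k + x5V P l)) (x5V P i + x5V P j + (x5V P k + x5V P l)) = 0 := by
  simp only [List.nodup_cons, List.mem_cons, not_or, List.not_mem_nil, ← ne_eq] at n
  obtain ⟨⟨a, b, c, -⟩, ⟨d, e, -⟩, ⟨f, -⟩, -⟩ := n
  simp [bu_add_left, bu_add_right, x5_bv on, a, b, c, d, e, f, a.symm, b.symm, c.symm, d.symm,
    e.symm, f.symm, CharTwo.add_self_eq_zero]

theorem x5_pow (hφ : ∀ s, φ (φ s) = s) (on : x5On φ P) {α γ : Equiv.Perm (Fin (r + 1))}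
    (hα : ∀ i, α (α i) = i) (hγ : ∀ i, γ (γ i) = i) {s0 s1 s2 s3 : Fin (r + 1)}
    (n : [s0, s1, s2, s3].Nodup) {N : ℕ}
    (h : ∀ i : Fin (r + 1), (x5st α γ s0 s1 s2 s3)^[N] (2 ^ (i : ℕ)) = 2 ^ (i : ℕ)) :
    (x5M P α 1 * (sie φ (x5V P s0 + x5V P s1 + (x5V P s2 + x5V P s3)) 0 1 * x5M P γ 1)) ^ N = 1 := by
  set M := x5M P α 1 * (sie φ (x5V P s0 + x5V P s1 + (x5V P s2 + x5V P s3)) 0 1 * x5M P γ 1) with hM
  let bv : ℕ → Fin (r + 1) → K := fun m i => if m.testBit i then 1 else 0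
  have mv : ∀ π : Equiv.Perm (Fin (r + 1)), (∀ i, π (π i) = i) → ∀ x : Fin (r + 1) → K,
      (mon π 1).1 *ᵥ x = x ∘ π := fun π hπ x => funext fun i => by
    conv_lhs => rw [← hπ i, x5_mon]
    simp
  have b1 : ∀ x i, bu φ (P.1 *ᵥ x) (x5V P i) = x i := fun x i => by
    rw [x5V, on, Finset.sum_eq_single i (fun k _ h => by simp [h]) (by simp)]
    simp
  have st : ∀ m, M.1 *ᵥ P.1 *ᵥ bv m = P.1 *ᵥ bv (x5st α γ s0 s1 s2 s3 m) := fun m => by
    rw [hM, monb_mul, monb_mul, x5_MP, mv γ hγ, x5_app hφ (x5_uu on n).2.2.2 (bu_zero_left _)]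
    simp only [bu_add_right, b1, smul_zero, add_zero, bu_zero_right, zero_add, one_mul]
    simp only [x5V, ← mulVec_add, ← mulVec_smul]
    rw [x5_MP, mv α hα]
    congr 1
    ext i
    simp only [bv, x5st, Nat.testBit_ofBits_lt _ _ i.2, x5_xor, x5_and, Function.comp_apply,
      Pi.add_apply, Pi.smul_apply, Pi.single_apply, smul_eq_mul, decide_eq_true_eq]
  have it : ∀ n m, (M ^ n).1 *ᵥ P.1 *ᵥ bv m = P.1 *ᵥ bv ((x5st α γ s0 s1 s2 s3)^[n] m) := by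
    intro n
    induction n with
    | zero => simp
    | succ n ih => intro m; rw [pow_succ, monb_mul, st, ih, Function.iterate_succ_apply]
  refine x5_ext (P := P) fun i => ?_
  have : bv (2 ^ (i : ℕ)) = Pi.single i 1 := funext fun j => by
    simp only [bv, Nat.testBit_two_pow, Pi.single_apply, Fin.ext_iff, decide_eq_true_eq,
      eq_comm (a := (i : ℕ))]
  rw [x5V, ← this, it, h, Units.val_one, one_mulVec]

/-- `w` occurs in the radical of the stabiliser of `e` inside `H`. -/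
def x5G (φ : K →+* K) (H : Subgroup (GL (Fin (r + 1)) K)) (e w : Fin (r + 1) → K) : Prop :=
  bu φ w e = 0 ∧ ∃ a, φ a + a = bu φ w w ∧ sie φ e w a ∈ H

theorem x5G.add (hφ : ∀ s, φ (φ s) = s) {H : Subgroup (GL (Fin (r + 1)) K)}
    {e w w' : Fin (r + 1) → K} (he : bu φ e e = 0) (h : x5G φ H e w) (h' : x5G φ H e w') :
    x5G φ H e (w + w') := by
  obtain ⟨p, a, q, m⟩ := h
  obtain ⟨p', a', q', m'⟩ := h'
  refine ⟨by rw [bu_add_left, p, p', add_zero], _, ?_, x5_mul hφ he p p' a a' ▸ mul_mem m m'⟩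
  simp only [bu_add_left, bu_add_right, map_add, bu_symm hφ w' w, x5_sg, ← q, ← q']
  ring

omit [CharP K 2] in
theorem x5G.cj (hφ : ∀ s, φ (φ s) = s) {H : Subgroup (GL (Fin (r + 1)) K)}
    {e w : Fin (r + 1) → K} (h : x5G φ H e w) {g : GL (Fin (r + 1)) K} (f : Fx φ g) (m : g ∈ H) :
    x5G φ H (g.1 *ᵥ e) (g.1 *ᵥ w) := by
  obtain ⟨p, a, q, m'⟩ := h
  have k := (fx_iff hφ).1 f
  exact ⟨(k _ _).trans p, a, q.trans (k _ _).symm, x5_cj hφ f m m'⟩

theorem x5G.sc (hφ : ∀ s, φ (φ s) = s) {H : Subgroup (GL (Fin (r + 1)) K)}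
    {e w : Fin (r + 1) → K} (he : bu φ e e = 0) {k : K} (k0 : k ≠ 0) (h : x5G φ H e (φ k • w)) :
    x5G φ H (k • e) w := by
  obtain ⟨p, a, q, m⟩ := h
  have k1 : φ k ≠ 0 := (map_ne_zero φ).2 k0
  rw [bu_smul_left, mul_eq_zero_iff_left k1] at p
  rw [bu_smul_left, bu_smul_right, hφ] at q
  refine ⟨by rw [bu_smul_right, p, mul_zero], a / (k * φ k), ?_, ?_⟩
  · rw [map_div₀, map_mul, hφ]
    field_simp
    linear_combination q
  · rw [x5_sc hφ he p, mul_div_cancel₀ _ (mul_ne_zero k0 k1)]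
    exact m

/-- All permutation matrices, the diagonal matrices and one family of Siegel transformations
generate. -/
theorem x5_fin (hr : 3 ≤ r) (hφ : ∀ s, φ (φ s) = s) (ne : φ ≠ RingHom.id K) (on : x5On φ P) {β : K}
    (hβ : β + φ β = 1) (v0 : x5V P 0 = Pi.single 0 1 + Pi.single (Fin.rev 0) β)
    (v1 : x5V P (Fin.rev 0) = Pi.single 0 1 + Pi.single (Fin.rev 0) (φ β))
    {H : Subgroup (GL (Fin (r + 1)) K)} (hp : ∀ π, x5M P π 1 ∈ H) {x y : Fin (r + 1)} (xy : x ≠ y)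
    (hd : ∀ η : Kˣ, (η : K) * φ η = 1 → x5D P x y η ∈ H) {i j l : Fin (r + 1)} (n : [i, j, l].Nodup)
    (h : ∀ s : K, x5G φ H (x5V P i + x5V P j) (s • x5V P l)) (k k' : Fin (r + 1)) :
    rt φ k k' ⊆ H := by
  have t := x5_two (K := K)
  have z : (0 : Fin (r + 1)) ≠ Fin.rev 0 := fun e => by
    have := congrArg Fin.val e
    simp at this
    omega
  have β0 : β ≠ 0 := by rintro rfl; simp at hβ
  have β1 : φ β ≠ 0 := (map_ne_zero φ).2 β0
  have inj : ∀ {a b c : Fin (r + 1)}, [a, b, c].Nodup → Function.Injective ![a, b, c] :=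
    fun h => List.nodup_ofFn.1 h
  have A : ∀ m, m ≠ 0 → m ≠ Fin.rev 0 → ∀ s : K,
      x5G φ H (x5V P 0 + x5V P (Fin.rev 0)) (s • x5V P m) := fun m m0 m1 s => by
    obtain ⟨π, hπ⟩ := Equiv.Perm.exists_extending_pair _ _ (inj n)
      (inj (a := 0) (b := Fin.rev 0) (c := m) (by simp [-Fin.rev_zero, z, m0.symm, m1.symm]))
    have := (h s).cj hφ (x5_Mfx1 hφ on π) (hp π)
    rwa [mulVec_add, mulVec_smul, x5_MV1, x5_MV1, x5_MV1, show π i = 0 from hπ 0,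
      show π j = Fin.rev 0 from hπ 1, show π l = m from hπ 2] at this
  have e1 : x5V P 0 + x5V P (Fin.rev 0) = Pi.single (Fin.rev 0) 1 := by
    rw [v0, v1, add_add_add_comm, x5_vv, zero_add, ← Pi.single_add, hβ]
  have B : ∀ m, m ≠ 0 → m ≠ Fin.rev 0 → ∀ s : K,
      x5G φ H (Pi.single 0 1) (s • x5V P m) := fun m m0 m1 s => by
    obtain ⟨π, hπ⟩ := Equiv.Perm.exists_extending_pair ![x, y] ![Fin.rev 0, m]
      (List.nodup_ofFn.1 (by simpa using xy)) (List.nodup_ofFn.1 (by simpa using m1.symm))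
    let η : Kˣ := Units.mk0 (β / φ β) (div_ne_zero β0 β1)
    have nη : (η : K) * φ η = 1 := by
      simp only [η, Units.val_mk0, map_div₀, hφ]
      field_simp
    have mD : x5D P (Fin.rev 0) m η ∈ H := by
      have := mul_mem (mul_mem (hp π) (hd η nη)) (inv_mem (hp π))
      rwa [x5_MD, mul_inv_cancel_right, show π x = Fin.rev 0 from hπ 0, show π y = m from hπ 1] at this
    have := (A m m0 m1 (β * s * η)).cj hφ (x5_Dfx hφ on _ _ nη) mD
    rw [mulVec_add, mulVec_smul, x5_DV, x5_DV, x5_DV] at this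
    simp only [if_neg z, if_neg m0.symm, if_neg m1, if_neg m1.symm, if_true, one_mul, mul_one,
      one_smul, smul_smul, mul_inv_cancel_right₀ η.ne_zero] at this
    have e0 : φ β • (x5V P 0 + (η : K) • x5V P (Fin.rev 0)) = Pi.single 0 1 := by
      rw [smul_add, smul_smul, show φ β * (η : K) = β from mul_div_cancel₀ _ β1, v0, v1]
      ext q
      simp only [Pi.add_apply, Pi.smul_apply, Pi.single_apply, smul_eq_mul]
      split_ifs with p p'
      · exact absurd (p.symm.trans p') z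
      · linear_combination hβ
      · linear_combination β * φ β * t
      · ring
    rw [← e0]
    refine x5G.sc hφ ?_ β1 (by rwa [hφ, smul_smul])
    simp only [bu_add_left, bu_add_right, bu_smul_left, bu_smul_right, x5_bv on, if_neg z,
      if_neg z.symm, if_true]
    linear_combination nη + t
  have C : ∀ q : Fin (r + 1), q ≠ q.rev →
      (∀ m, m ≠ 0 → m ≠ Fin.rev 0 → ∀ s : K, x5G φ H (Pi.single q 1) (s • x5V P m)) →
      ∀ w, Off 0 w → bu φ w (Pi.single q 1) = 0 → ∃ a, Trc φ q w a ∧ hei φ q w a ∈ H := by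
    intro q q0 g w o w0
    have ee : bu φ (Pi.single q 1) (Pi.single q 1 : Fin (r + 1) → K) = 0 :=
      (monb_off (Off.zero q0)).1
    have z0 : x5G φ H (Pi.single q 1) 0 := ⟨by simp, 0, by simp, x5_one hφ ee ▸ one_mem _⟩
    have : x5G φ H (Pi.single q 1) w := by
      rw [x5_exp on w]
      refine Finset.sum_induction _ _ (fun _ _ => x5G.add hφ ee) z0 fun m _ => ?_
      by_cases m0 : m = 0
      · rwa [m0, v0, bu_add_right, bu_single_right, bu_single_right, Fin.rev_rev, o.2.1, o.2.2,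
          mul_zero, mul_zero, zero_mul, zero_mul, add_zero, zero_smul]
      by_cases m1 : m = Fin.rev 0
      · rwa [m1, v1, bu_add_right, bu_single_right, bu_single_right, Fin.rev_rev, o.2.1, o.2.2,
          mul_zero, mul_zero, zero_mul, zero_mul, add_zero, zero_smul]
      exact g m m0 m1 _
    obtain ⟨-, a, c, m⟩ := this
    refine ⟨a, ?_, by rwa [hei, x5_sg, one_smul, CharTwo.neg_eq, one_mul]⟩
    rw [Trc, x5_sg, x5_sg, ← c]
    linear_combination (a + φ a) * t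
  refine gen_hei hr hφ (fun _ => ne) (Or.inl ne) z (fun w o => C 0 z B w o ?_)
    (fun w o => C _ (by rw [Fin.rev_rev]; exact z.symm) (e1 ▸ A) w o ?_) k k'
  · rw [bu_single_right, o.2.2, mul_zero, zero_mul]
  · rw [bu_single_right, Fin.rev_rev, o.2.1, mul_zero, zero_mul]

end Pool.Agent.MP_c78e8e_al.H75

end

section

namespace Pool.Agent.MP_c78e8e_al.H75

open Subgroup Matrix

variable {r : ℕ} {K : Type} [Field K] [CharP K 2] {φ : K →+* K} {P : GL (Fin (r + 1)) K}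

/-- The combinatorial conditions on the permutations. -/
def x5Ck (α β γ σ τ : Equiv.Perm (Fin (r + 1))) (s0 s1 s2 s3 x y : Fin (r + 1)) (k : ℕ)
    (C C' C'' : List (ℕ × ℕ × ℕ)) : Prop :=
  (∀ i, α (α i) = i) ∧ (∀ i, γ (γ i) = i) ∧ (∀ i, α (β i) = β (α i)) ∧ (∀ i, σ (α i) = β (σ i)) ∧
  (∀ i, τ (α i) = γ (Equiv.swap s2 s3 (τ i))) ∧ [s0, s1, s2, s3, x, y].Nodup ∧
  (γ s0 = s1 ∧ γ s2 = s2 ∧ γ s3 = s3 ∧ γ x = y ∧ α x = y) ∧
  (∀ i : Fin (r + 1), (x5st α γ s0 s1 s2 s3)^[2 ^ k] (2 ^ (i : ℕ)) = 2 ^ (i : ℕ)) ∧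
  (∀ p ∈ [(s2, x), (s3, x)], p ∈ x5run α β γ
    (fun i j => decide (i ∉ [s0, s1, s2, s3] ∧ j ∉ [s0, s1, s2, s3])) C [(x, y)]) ∧
  (s2, s3) ∈ x5run α β γ
    (fun i j => decide (i ∈ [s0, s1, s2, s3] ↔ j ∈ [s0, s1, s2, s3])) C' [(s0, s1)] ∧
  ∀ i, (s0, i) ∈ (s0, s0) :: x5run α β γ (fun _ _ => true) C'' [(s0, s1)]

omit [CharP K 2] in
theorem x5_DV0 {i j k : Fin (r + 1)} (h : k ≠ i) (h' : k ≠ j) (η : Kˣ) :
    (x5D P i j η).1 *ᵥ x5V P k = x5V P k := by simp [x5_DV, h, h']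

omit [CharP K 2] in
theorem x5_DV1 {i j : Fin (r + 1)} (h : i ≠ j) (η : Kˣ) :
    (x5D P i j η).1 *ᵥ x5V P i = (η : K) • x5V P i := by simp [x5_DV, h]

theorem x5_gen [Finite K] (hr : 3 ≤ r) (hφ : ∀ s, φ (φ s) = s) (ne : φ ≠ RingHom.id K)
    (on : x5On φ P) {b : K}
    (hb : b + φ b = 1) (v0 : x5V P 0 = Pi.single 0 1 + Pi.single (Fin.rev 0) b)
    (v1 : x5V P (Fin.rev 0) = Pi.single 0 1 + Pi.single (Fin.rev 0) (φ b))
    {α β γ σ τ : Equiv.Perm (Fin (r + 1))} {s0 s1 s2 s3 x y : Fin (r + 1)} {k : ℕ}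
    {C C' C'' : List (ℕ × ℕ × ℕ)} (ck : x5Ck α β γ σ τ s0 s1 s2 s3 x y k C C' C'') {ζ z : Kˣ}
    (nζ : (ζ : K) * φ ζ = 1) (e : ζ ^ 2 ^ k = z) (z1 : (z : K) ≠ 1) (sp : Spn (z : K))
    (al : ∀ s : K, s * φ s = 1 → ∃ n : ℕ, s = z ^ n) {H : Subgroup (GL (Fin (r + 1)) K)}
    (ha : x5M P α 1 ∈ H) (hβ : x5M P β 1 ∈ H)
    (hc : sie φ (x5V P s0 + x5V P s1 + (x5V P s2 + x5V P s3)) 0 1 * x5M P γ 1 * x5D P x y ζ ∈ H)
    (l l' : Fin (r + 1)) : rt φ l l' ⊆ H := by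
  obtain ⟨αα, γγ, -, -, -, nd, ⟨g0, g2, g3, gx, ax⟩, pw, c1, c2, c3⟩ := ck
  have n4 : [s0, s1, s2, s3].Nodup := nd.sublist (by simp)
  obtain ⟨pp, rp, rr, uu⟩ := x5_uu on n4
  simp only [List.nodup_cons, List.mem_cons, not_or, List.not_mem_nil, ← ne_eq] at nd
  obtain ⟨⟨n01, n02, n03, n0x, n0y, -⟩, ⟨n12, n13, n1x, n1y, -⟩, ⟨n23, n2x, n2y, -⟩,
    ⟨n3x, n3y, -⟩, ⟨nxy, -⟩, -⟩ := nd
  have gy : γ y = x := by rw [← gx, γγ]
  have ay : α y = x := by rw [← ax, αα]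
  have nz : (z : K) * φ z = 1 := by
    rw [← e, Units.val_pow_eq_pow_val, map_pow, ← mul_pow, nζ, one_pow]
  have z2 : (1 : K) + z ≠ 0 := fun h => z1 (CharTwo.add_eq_zero.1 h).symm
  have pw' := x5_pow hφ on αα γγ n4 pw
  obtain ⟨p, hp⟩ : ∃ p, p = x5V P s0 + x5V P s1 := ⟨_, rfl⟩
  obtain ⟨q, hq⟩ : ∃ q, q = x5V P s2 + x5V P s3 := ⟨_, rfl⟩
  rw [← hq] at rp rr uu pw' hc
  rw [← hp] at pp rp uu pw' hc
  obtain ⟨T, hT⟩ : ∃ T, T = sie φ (p + q) 0 1 := ⟨_, rfl⟩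
  rw [← hT] at pw' hc
  have TT : T⁻¹ = T := by rw [hT]; exact x5_inv hφ uu (bu_zero_left _) (bu_zero_left _) 1
  have cD : ∀ {i j} {η : Kˣ}, (η : K) * φ η = 1 → i ∉ [s0, s1, s2, s3] → j ∉ [s0, s1, s2, s3] →
      Commute (x5D P i j η) T := fun {i j η} n hi hj => by
    simp only [List.mem_cons, not_or, List.not_mem_nil, ← ne_eq] at hi hj
    rw [hT]
    refine x5_comm hφ (x5_Dfx hφ on _ _ n) ?_ (mulVec_zero _) _
    simp only [hp, hq, mulVec_add]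
    rw [x5_DV0 hi.1.symm hj.1.symm, x5_DV0 hi.2.1.symm hj.2.1.symm,
      x5_DV0 hi.2.2.1.symm hj.2.2.1.symm, x5_DV0 hi.2.2.2.1.symm hj.2.2.2.1.symm]
  have xS : x ∉ [s0, s1, s2, s3] := by simp [n0x.symm, n1x.symm, n2x.symm, n3x.symm]
  have yS : y ∉ [s0, s1, s2, s3] := by simp [n0y.symm, n1y.symm, n2y.symm, n3y.symm]
  have mxy : x5D P x y z ∈ H := by
    have cm : Commute (x5M P α 1 * (T * x5M P γ 1)) (x5D P x y ζ) := by
      rw [Commute, SemiconjBy, mul_assoc, mul_assoc, x5_MD, gx, gy, ← mul_assoc T,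
        ← (cD nζ yS xS).eq, mul_assoc, ← mul_assoc (x5M P α 1), x5_MD, ax, ay, mul_assoc]
    have := pow_mem (mul_mem ha hc) (2 ^ k)
    rwa [← mul_assoc, cm.mul_pow, pw', one_mul, x5_Dpow, e] at this
  have hd : ∀ η : Kˣ, (η : K) * φ η = 1 → x5D P x y η ∈ H := fun η n => by
    obtain ⟨m, hm⟩ := al η n
    rw [show η = z ^ m from Units.ext (by simpa using hm), ← x5_Dpow]
    exact pow_mem mxy m
  have m0 : T * x5M P γ 1 ∈ H := (mul_mem_cancel_right (hd ζ nζ)).1 hc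
  have cj : ∀ {g w : GL (Fin (r + 1)) K}, g ∈ H → w ∈ H → g * w * g⁻¹ ∈ H := fun a b =>
    mul_mem (mul_mem a b) (inv_mem a)
  have dM : ∀ (π : Equiv.Perm (Fin (r + 1))) i j,
      x5M P π 1 * x5D P i j z * (x5M P π 1)⁻¹ = x5D P (π i) (π j) z := fun π i j => by
    rw [x5_MD, mul_inv_cancel_right]
  have cc : ∀ w : GL (Fin (r + 1)) K, T * x5M P γ 1 * w * (T * x5M P γ 1)⁻¹ =
      T * (x5M P γ 1 * w * (x5M P γ 1)⁻¹) * T⁻¹ := fun w => by group
  have cT : Commute (x5M P γ 1) T := by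
    rw [hT]
    refine x5_comm hφ (x5_Mfx1 hφ on γ) ?_ (mulVec_zero _) _
    simp only [hp, hq, mulVec_add, x5_MV1, g0, g2, g3]
    rw [← g0, γγ, g0, add_comm (x5V P s1)]
  have cc' : ∀ w : GL (Fin (r + 1)) K, Commute w T → T * x5M P γ 1 * w * (T * x5M P γ 1)⁻¹ =
      x5M P γ 1 * w * (x5M P γ 1)⁻¹ := fun w h => by
    rw [← cT.eq, mul_assoc _ T, ← h.eq]; group
  have R1 := x5_run (R := fun i j => x5D P i j z ∈ H) (α := α) (β := β) (γ := γ)
    (ok := fun i j => decide (i ∉ [s0, s1, s2, s3] ∧ j ∉ [s0, s1, s2, s3]))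
    (fun i => by rw [x5_Dself]; exact one_mem _) (fun i j h => by rw [← x5_Dinv]; exact inv_mem h)
    (fun i j k h h' => by rw [← x5_Dmul i j k]; exact mul_mem h h')
    (fun i j h => dM α i j ▸ cj ha h) (fun i j h => dM β i j ▸ cj hβ h)
    (fun i j o h => by
      have o' := of_decide_eq_true o
      have := cj m0 h
      rwa [cc' _ (cD nz o'.1 o'.2), dM] at this) C [(x, y)] (by simpa using mxy)
  have d2x : x5D P s2 x z ∈ H := R1 (s2, x) (c1 _ (by simp))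
  have d3x : x5D P s3 x z ∈ H := R1 (s3, x) (c1 _ (by simp))
  have d2y : x5D P s2 y z ∈ H := x5_Dmul (P := P) s2 x y z ▸ mul_mem d2x mxy
  have d3y : x5D P s3 y z ∈ H := x5_Dmul (P := P) s3 x y z ▸ mul_mem d3x mxy
  have fd : Fx φ (x5D P s2 y z * x5D P s3 x z) := (x5_Dfx hφ on _ _ nz).mul (x5_Dfx hφ on _ _ nz)
  have dp : (x5D P s2 y z * x5D P s3 x z).1 *ᵥ p = p := by
    rw [monb_mul, hp, mulVec_add, x5_DV0 n03 n0x, x5_DV0 n13 n1x, mulVec_add, x5_DV0 n02 n0y,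
      x5_DV0 n12 n1y]
  have dq : (x5D P s2 y z * x5D P s3 x z).1 *ᵥ q = (z : K) • q := by
    rw [monb_mul, hq, mulVec_add, x5_DV0 n23 n2x, x5_DV1 n3x, mulVec_add, mulVec_smul, x5_DV1 n2y,
      x5_DV0 n23.symm n3y, smul_add]
  have sp0 : ∀ s : K, bu φ (s • q) p = 0 := fun s => by rw [bu_smul_left, rp, mul_zero]
  have sq0 : ∀ s t : K, bu φ (s • q) (t • q) = 0 := fun s t => by
    rw [bu_smul_left, bu_smul_right, rr, mul_zero, mul_zero]
  have X1 : sie φ p (((1 : K) + z) • q) 0 ∈ H := by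
    have a1 := cj m0 (mul_mem d2x d3y)
    have a2 : x5M P γ 1 * (x5D P s2 x z * x5D P s3 y z) * (x5M P γ 1)⁻¹ =
        x5D P s2 y z * x5D P s3 x z := by
      rw [← mul_assoc, x5_MD, mul_assoc (x5D P _ _ z), mul_assoc (x5D P _ _ z), dM, g2, g3, gx, gy]
    rw [cc, a2, TT] at a1
    have a3 := mul_mem a1 (inv_mem (mul_mem d2y d3x))
    rw [mul_assoc, mul_assoc, ← mul_assoc _ T, hT, sie_conj hφ fd, mulVec_add, dp, dq, mulVec_zero,
      x5_add hφ pp rp rr, x5_add hφ pp (sp0 _) (sq0 _ _), x5_sc hφ rr (bu_zero_left _), nz,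
      smul_zero, one_mul] at a3
    have fq : Fx φ (sie φ q 0 1) := x5_fx hφ rr (bu_zero_left _) (by simp [CharTwo.add_self_eq_zero])
    have a4 := x5_comm hφ fq (e := p) (w := (z : K) • q)
      (by simp [x5_app hφ rr (bu_zero_left q), x5_symm hφ rp])
      (by simp [x5_app hφ rr (bu_zero_left q), bu_smul_left, rr]) 1
    rw [mul_assoc, ← mul_assoc (sie φ q 0 1), a4.eq, mul_assoc, x5_sq hφ rr (bu_zero_left _),
      bu_zero_left, x5_one hφ rr, mul_one, x5_mul hφ pp rp (sp0 _), bu_smul_left, rr, mul_zero,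
      add_zero, CharTwo.add_self_eq_zero] at a3
    rwa [add_smul, one_smul]
  have X : ∀ s : K, sie φ p (s • q) 0 ∈ H := fun s =>
    sp.ind (P := fun s => sie φ p (s • q) 0 ∈ H) (fun s t h h' => by
      have := mul_mem h h'
      rwa [x5_mul hφ pp (sp0 _) (sp0 _), sq0, add_zero, add_zero, ← add_smul] at this) z2 X1
      (fun s h => by
        have := x5_cj hφ fd (mul_mem d2y d3x) h
        rwa [dp, mulVec_smul, dq, smul_smul, mul_comm] at this) s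
  have ep : (x5D P s3 x z).1 *ᵥ p = p := by rw [hp, mulVec_add, x5_DV0 n03 n0x, x5_DV0 n13 n1x]
  have eq : (x5D P s3 x z).1 *ᵥ q = x5V P s2 + (z : K) • x5V P s3 := by
    rw [hq, mulVec_add, x5_DV0 n23 n2x, x5_DV1 n3x]
  have G : ∀ s : K, x5G φ H p (s • q) := fun s => ⟨sp0 s, 0, by simp [sq0], X s⟩
  have G' : ∀ s : K, x5G φ H p (s • (x5V P s2 + (z : K) • x5V P s3)) := fun s => by
    have := (G s).cj hφ (x5_Dfx hφ on _ _ nz) d3x
    rwa [ep, mulVec_smul, eq] at this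
  have G3 : ∀ s : K, x5G φ H p (s • x5V P s3) := fun s => by
    have := x5G.add hφ pp (G (s / (1 + z))) (G' (s / (1 + z)))
    rwa [← smul_add, hq, add_add_add_comm, x5_vv, zero_add,
      show x5V P s3 + (z : K) • x5V P s3 = ((1 : K) + z) • x5V P s3 by rw [add_smul, one_smul],
      smul_smul, div_mul_cancel₀ _ z2] at this
  have sw : x5M P (Equiv.swap s0 s1) 1 ∈ H := by
    obtain ⟨w0, a, -, m⟩ := G3 1
    have := mul_mem m m
    rwa [x5_sq hφ pp w0, one_smul, x5_bv on, if_pos rfl, hp, x5_swap hφ on n01] at this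
  have sM : ∀ (π : Equiv.Perm (Fin (r + 1))) i j, x5M P π 1 * x5M P (Equiv.swap i j) 1 *
      (x5M P π 1)⁻¹ = x5M P (Equiv.swap (π i) (π j)) 1 := fun π i j => by
    rw [mul_inv_eq_iff_eq_mul, x5_Mmul1, x5_Mmul1, Equiv.mul_swap_eq_swap_mul]
  have tr : ∀ i j k, x5M P (Equiv.swap i j) 1 ∈ H → x5M P (Equiv.swap j k) 1 ∈ H →
      x5M P (Equiv.swap i k) 1 ∈ H := fun i j k h h' => by
    by_cases a : i = j
    · rwa [a]
    by_cases a' : i = k
    · rw [a', Equiv.swap_self]; exact x5_Mone (P := P) ▸ one_mem _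
    have := cj h' h
    rwa [sM, Equiv.swap_apply_left, Equiv.swap_apply_of_ne_of_ne a a'] at this
  have rf : ∀ i, x5M P (Equiv.swap i i) 1 ∈ H := fun i => by
    rw [Equiv.swap_self]; exact x5_Mone (P := P) ▸ one_mem _
  have R2 := x5_run (R := fun i j => x5M P (Equiv.swap i j) 1 ∈ H) (α := α) (β := β) (γ := γ)
    (ok := fun i j => decide (i ∈ [s0, s1, s2, s3] ↔ j ∈ [s0, s1, s2, s3])) rf
    (fun i j h => by rwa [Equiv.swap_comm]) tr
    (fun i j h => sM α i j ▸ cj ha h) (fun i j h => sM β i j ▸ cj hβ h)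
    (fun i j o h => by
      have o' := of_decide_eq_true o
      have := cj m0 h
      rwa [cc' _ ?_, sM] at this
      by_cases a : i = j
      · rw [a, Equiv.swap_self]; exact x5_Mone (P := P) ▸ Commute.one_left _
      have ww : bu φ (x5V P i + x5V P j) (x5V P i + x5V P j) = 0 := by
        simp [bu_add_left, bu_add_right, x5_bv on, a, Ne.symm a, CharTwo.add_self_eq_zero]
      rw [hT]
      refine x5_comm hφ (x5_Mfx1 hφ on _) ?_ (mulVec_zero _) _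
      have : ∀ m, bu φ (p + q) (x5V P m) = if m ∈ [s0, s1, s2, s3] then 1 else 0 := fun m => by
        simp only [hp, hq, bu_add_left, x5_bv on, List.mem_cons, List.not_mem_nil, or_false]
        grind
      rw [← x5_swap hφ on a, x5_app hφ ww (bu_zero_left _), bu_add_right, this, this,
        if_congr o' rfl rfl, CharTwo.add_self_eq_zero]
      simp) C' [(s0, s1)] (by simpa using sw)
  have mγ : x5M P γ 1 ∈ H := by
    have a1 : sie φ q 0 1 ∈ H := by rw [hq, x5_swap hφ on n23]; exact R2 (s2, s3) c2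
    have a2 := mul_mem (X 1) (show sie φ p 0 1 ∈ H by rw [hp, x5_swap hφ on n01]; exact sw)
    rw [one_smul, x5_mul hφ pp rp (bu_zero_left _), add_zero, bu_zero_left, add_zero, zero_add] at a2
    refine (mul_mem_cancel_left ?_).1 m0
    rw [hT, x5_add hφ pp rp rr]
    exact mul_mem a2 a1
  have R3 := x5_run (R := fun i j => x5M P (Equiv.swap i j) 1 ∈ H) (α := α) (β := β) (γ := γ)
    (ok := fun _ _ => true) rf (fun i j h => by rwa [Equiv.swap_comm]) tr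
    (fun i j h => sM α i j ▸ cj ha h) (fun i j h => sM β i j ▸ cj hβ h)
    (fun i j _ h => sM γ i j ▸ cj mγ h) C'' [(s0, s1)] (by simpa using sw)
  have s0i : ∀ i, x5M P (Equiv.swap s0 i) 1 ∈ H := fun i => by
    rcases List.mem_cons.1 (c3 i) with h | h
    · rw [show i = s0 from (Prod.ext_iff.1 h).2]; exact rf _
    · exact R3 (s0, i) h
  have hπ : ∀ π, x5M P π 1 ∈ H := fun π => by
    induction π using Equiv.Perm.swap_induction_on with
    | one => exact x5_Mone (P := P) ▸ one_mem _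
    | swap_mul f i j _ ih =>
      rw [← x5_Mmul1]
      exact mul_mem (tr i s0 j (by rw [Equiv.swap_comm]; exact s0i i) (s0i j)) ih
  exact x5_fin hr hφ ne on hb v0 v1 hπ nxy hd (i := s0) (j := s1) (l := s3)
    (by simp [n01, n03, n13]) (fun s => by rw [← hp]; exact G3 s) l l'

theorem x5_root [Finite K] {z : K} (nz : z * φ z = 1) (k : ℕ) :
    ∃ η : K, η * φ η = 1 ∧ η ^ 2 ^ k = z := by
  induction k with
  | zero => exact ⟨z, nz, by simp⟩
  | succ k ih =>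
    obtain ⟨η, n, e⟩ := ih
    obtain ⟨t, rfl⟩ := FiniteField.isSquare_of_char_two (ringChar.eq K 2) η
    refine ⟨t, CharTwo.sq_inj.1 ?_, by rw [pow_succ', pow_mul, sq, e]⟩
    rw [map_mul] at n
    linear_combination n

theorem x5_main [Finite K] (hr : 5 ≤ r) (hφ : ∀ s, φ (φ s) = s) (ne : φ ≠ RingHom.id K)
    {α β γ σ τ : Equiv.Perm (Fin (r + 1))} {s0 s1 s2 s3 x y : Fin (r + 1)} {k : ℕ}
    {C C' C'' : List (ℕ × ℕ × ℕ)} (ck : x5Ck α β γ σ τ s0 s1 s2 s3 x y k C C' C'') :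
    IsLeast {n | Good (chev (CartanMatrix.A r) Fin.revPerm φ) n} 3 := by
  obtain ⟨b, hb⟩ := trace_surj hφ ne (map_one φ)
  obtain ⟨P, on, hv⟩ := x5_ex (r := r) hφ hb
  obtain ⟨v0, v1⟩ := hv 0 (by simp [Fin.lt_def]; omega)
  obtain ⟨z, nz, oz, al, sp, -⟩ := norm_gen hφ ne
  obtain ⟨η, nη, eη⟩ := x5_root nz (k + 1)
  have η0 : η ≠ 0 := left_ne_zero_of_mul_eq_one nη
  have z1 : z ≠ 1 := by
    rintro rfl
    have : 0 < Nat.card (Fix φ) := Nat.card_pos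
    rw [orderOf_one] at oz
    omega
  obtain ⟨η', rfl⟩ : ∃ u : Kˣ, (u : K) = η := ⟨Units.mk0 η η0, rfl⟩
  obtain ⟨z', rfl⟩ : ∃ u : Kˣ, (u : K) = z := ⟨η' ^ 2 ^ (k + 1), by simpa using eη⟩
  have gen := @x5_gen r K _ _ φ P _ (by omega) hφ ne on b hb v0 v1 α β γ σ τ s0 s1 s2 s3 x y k C C' C'' ck
    (η' * η') z' (by rw [Units.val_mul, map_mul]; linear_combination (η' * φ η' + 1) * nη)
    (Units.ext (by rw [← eη, pow_succ', pow_mul, sq]; simp)) z1 sp al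
  obtain ⟨αα, γγ, αβ, hσ, hτ, nd, ⟨g0, g2, g3, gx, ax⟩, -⟩ := ck
  have n4 : [s0, s1, s2, s3].Nodup := nd.sublist (by simp)
  obtain ⟨pp, rp, rr, uu⟩ := x5_uu on n4
  simp only [List.nodup_cons, List.mem_cons, not_or, List.not_mem_nil, ← ne_eq] at nd
  obtain ⟨⟨n01, n02, n03, n0x, n0y, -⟩, ⟨n12, n13, n1x, n1y, -⟩, ⟨n23, n2x, n2y, -⟩,
    ⟨n3x, n3y, -⟩, ⟨nxy, -⟩, -⟩ := nd
  have g1 : γ s1 = s0 := by rw [← g0, γγ]
  have gy : γ y = x := by rw [← gx, γγ]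
  have ms : ∀ {g : GL (Fin (r + 1)) K}, Fx φ g → g.1.det = 1 → g ∈ sug r φ := fun f d =>
    mem_sug (by omega) hφ (fun _ => ne) f d
  have mM : ∀ π, x5M P π 1 ∈ sug r φ := fun π => ms (x5_Mfx1 hφ on π) (x5_Mdet1 π)
  have sw := x5_swap hφ on n23
  obtain ⟨w, hw⟩ : ∃ w, w = b • x5V P s2 + φ b • x5V P s3 := ⟨_, rfl⟩
  have Gw : (x5M P (γ * Equiv.swap s2 s3) 1).1 *ᵥ w = w + (x5V P s2 + x5V P s3) := by
    have t := x5_two (K := K)
    simp only [hw, mulVec_add, mulVec_smul, x5_MV1, Equiv.Perm.mul_apply, Equiv.swap_apply_left,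
      Equiv.swap_apply_right, g2, g3]
    match_scalars
    · linear_combination -hb + (b - 1) * t
    · linear_combination -hb + (φ b - 1) * t
  have Gp : (x5M P (γ * Equiv.swap s2 s3) 1).1 *ᵥ (x5V P s0 + x5V P s1) = x5V P s0 + x5V P s1 := by
    simp only [mulVec_add, x5_MV1, Equiv.Perm.mul_apply, Equiv.swap_apply_of_ne_of_ne n02 n03,
      Equiv.swap_apply_of_ne_of_ne n12 n13, g0, g1, add_comm]
  have wp : bu φ w (x5V P s0 + x5V P s1) = 0 := by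
    simp [hw, bu_add_left, bu_add_right, bu_smul_left, x5_bv on, n02.symm, n03.symm, n12.symm,
      n13.symm]
  have ww : bu φ w w = 0 := by
    simp [hw, bu_add_left, bu_add_right, bu_smul_left, bu_smul_right, x5_bv on, n23, n23.symm, hφ,
      mul_comm, CharTwo.add_self_eq_zero]
  have qw : bu φ (x5V P s2 + x5V P s3) w = 1 := by
    simp [hw, bu_add_left, bu_add_right, bu_smul_right, x5_bv on, n23, n23.symm, hφ, add_comm, hb]
  have Du : (x5D P y x η').1 *ᵥ (x5V P s0 + x5V P s1 + (x5V P s2 + x5V P s3)) =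
      x5V P s0 + x5V P s1 + (x5V P s2 + x5V P s3) := by
    simp only [mulVec_add]
    rw [x5_DV0 n0y n0x, x5_DV0 n1y n1x, x5_DV0 n2y n2x, x5_DV0 n3y n3x]
  obtain ⟨p, hp⟩ : ∃ p, p = x5V P s0 + x5V P s1 := ⟨_, rfl⟩
  obtain ⟨q, hq⟩ : ∃ q, q = x5V P s2 + x5V P s3 := ⟨_, rfl⟩
  rw [← hq] at rp rr uu gen Gw qw Du sw
  rw [← hp] at pp rp uu gen Gp wp Du
  have hh := x5_inv hφ pp wp ww 0
  have mh : sie φ p w 0 ∈ sug r φ := ms (x5_fx hφ pp wp (by simp [ww]))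
    (x5_det (by rw [← mul_inv_cancel (sie φ p w 0), hh]))
  have mg := mul_mem (mul_mem (ms (x5_Dfx hφ on y x nη) (x5_Ddet y x η')) mh) (mM τ)
  have e1 : x5M P τ 1 * x5M P α 1 * (x5M P τ 1)⁻¹ = x5M P (γ * Equiv.swap s2 s3) 1 := by
    rw [mul_inv_eq_iff_eq_mul, x5_Mmul1, x5_Mmul1]
    congr 1
    exact Equiv.ext hτ
  have e2 : sie φ p w 0 * x5M P (γ * Equiv.swap s2 s3) 1 * (sie φ p w 0)⁻¹ =
      sie φ (p + q) 0 1 * x5M P γ 1 := by
    have k1 := sie_conj hφ (x5_Mfx1 hφ on (γ * Equiv.swap s2 s3)) p w 0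
    rw [Gp, Gw, mul_inv_eq_iff_eq_mul] at k1
    rw [hh, mul_assoc, k1, ← mul_assoc, x5_mul hφ pp wp (by rw [bu_add_left, wp, rp, add_zero]),
      ← add_assoc, x5_vv, zero_add, bu_add_left, ww, qw, x5_add hφ pp rp rr, sw, mul_assoc, x5_Mmul1,
      Equiv.mul_swap_eq_swap_mul, g2, g3]
    simp
  have e3 : x5D P y x η' * sie φ p w 0 * x5M P τ 1 * x5M P α 1 *
      (x5D P y x η' * sie φ p w 0 * x5M P τ 1)⁻¹ =
      sie φ (p + q) 0 1 * x5M P γ 1 * x5D P x y (η' * η') := by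
    have : x5D P y x η' * sie φ p w 0 * x5M P τ 1 * x5M P α 1 *
        (x5D P y x η' * sie φ p w 0 * x5M P τ 1)⁻¹ = x5D P y x η' * (sie φ p w 0 *
        (x5M P τ 1 * x5M P α 1 * (x5M P τ 1)⁻¹) * (sie φ p w 0)⁻¹) * (x5D P y x η')⁻¹ := by group
    rw [this, e1, e2, ← mul_assoc, (x5_comm hφ (x5_Dfx hφ on y x nη) Du (mulVec_zero _) 1).eq,
      x5_Dinv, ← x5_Dmul', ← mul_assoc, mul_assoc (sie φ (p + q) 0 1) (x5M P γ 1) (x5D P x y η'),
      x5_MD, gx, gy, mul_assoc (sie φ (p + q) 0 1) (x5D P y x η')]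
  refine goodSU (by omega) hφ (fun _ => ne) (sug_ns (by omega) hφ (Or.inl hr)) (mM α) (mM β)
    (mul_mem (mul_mem mg (mM α)) (inv_mem mg)) (mM σ) mg ?_ (sc_of_eq ?_) (sc_of_eq rfl)
    (sc_of_eq ?_) fun H _ ha hβ hc i => ⟨gen ha hβ (e3 ▸ hc) _ _, gen ha hβ (e3 ▸ hc) _ _⟩
  · rw [x5_Mmul1, show α * α = 1 from Equiv.ext αα, x5_Mone]
    exact sc_one
  · rw [eq_mul_inv_iff_mul_eq, x5_Mmul1, x5_Mmul1]
    congr 1
    exact Equiv.ext fun i => (hσ i).symm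
  · rw [x5_Mmul1, x5_Mmul1]
    congr 1
    exact Equiv.ext αβ

end Pool.Agent.MP_c78e8e_al.H75

end

section

namespace Pool.Agent.MP_c78e8e_al.H75

/-- A permutation given by the lists of its values and of the values of its inverse. -/
def x5pm {r : ℕ} (l l' : List ℕ)
    (h : ∀ i : Fin (r + 1), Fin.ofNat (r + 1) (l'.getD (Fin.ofNat (r + 1) (l.getD i 0)) 0) = i)
    (h' : ∀ i : Fin (r + 1), Fin.ofNat (r + 1) (l.getD (Fin.ofNat (r + 1) (l'.getD i 0)) 0) = i) :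
    Equiv.Perm (Fin (r + 1)) :=
  ⟨fun i => Fin.ofNat (r + 1) (l.getD i 0), fun i => Fin.ofNat (r + 1) (l'.getD i 0), h, h'⟩

theorem x5_ck9 : x5Ck (r := 8)
    (x5pm [0, 2, 1, 4, 3, 6, 5, 8, 7] [0, 2, 1, 4, 3, 6, 5, 8, 7] (by decide) (by decide))
    (x5pm [0, 8, 7, 5, 6, 3, 4, 2, 1] [0, 8, 7, 5, 6, 3, 4, 2, 1] (by decide) (by decide))
    (x5pm [4, 1, 3, 2, 0, 5, 6, 8, 7] [4, 1, 3, 2, 0, 5, 6, 8, 7] (by decide) (by decide))
    (x5pm [0, 1, 8, 2, 7, 3, 5, 4, 6] [0, 1, 3, 5, 7, 6, 8, 4, 2] (by decide) (by decide))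
    (x5pm [1, 0, 4, 2, 3, 5, 6, 7, 8] [1, 0, 3, 4, 2, 5, 6, 7, 8] (by decide) (by decide))
    0 4 6 5 7 8 3
    [(1, 0, 0), (2, 0, 0), (0, 0, 0), (1, 0, 0), (0, 4, 0), (1, 0, 0), (4, 4, 0), (1, 0, 0)]
    [(3, 0, 0), (0, 1, 0), (4, 1, 0), (1, 0, 0)]
    [(3, 0, 0), (0, 1, 0), (4, 1, 0), (2, 0, 0), (0, 0, 0), (1, 3, 0), (1, 6, 0), (1, 3, 0), (1, 3, 0)] := by
  refine ⟨?_, ?_, ?_, ?_, ?_, ?_, ?_, ?_, ?_, ?_, ?_⟩ <;> decide +kernel

theorem x5_ck11 : x5Ck (r := 10)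
    (x5pm [0, 2, 1, 4, 3, 6, 5, 8, 7, 10, 9] [0, 2, 1, 4, 3, 6, 5, 8, 7, 10, 9] (by decide) (by decide))
    (x5pm [0, 9, 10, 6, 5, 4, 3, 8, 7, 1, 2] [0, 9, 10, 6, 5, 4, 3, 8, 7, 1, 2] (by decide) (by decide))
    (x5pm [5, 6, 2, 8, 4, 0, 1, 7, 3, 10, 9] [5, 6, 2, 8, 4, 0, 1, 7, 3, 10, 9] (by decide) (by decide))
    (x5pm [0, 1, 9, 2, 10, 3, 6, 4, 5, 7, 8] [0, 1, 3, 5, 7, 8, 6, 9, 10, 2, 4] (by decide) (by decide))
    (x5pm [2, 0, 5, 1, 6, 3, 8, 4, 7, 9, 10] [1, 3, 0, 5, 7, 2, 4, 8, 6, 9, 10] (by decide) (by decide))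
    0 5 7 4 9 10 3
    [(1, 0, 0), (2, 0, 0), (0, 2, 0), (1, 0, 0), (4, 2, 0), (1, 0, 0), (2, 0, 0), (0, 0, 0), (0, 6, 0), (1, 0, 0)]
    [(3, 0, 0), (1, 1, 0), (4, 1, 0), (0, 0, 0), (1, 0, 0), (2, 0, 0), (1, 0, 0), (2, 3, 0), (0, 0, 0), (1, 0, 0), (2, 0, 0), (0, 11, 0), (4, 11, 0), (0, 0, 0), (1, 0, 0), (4, 4, 0), (4, 9, 0)]
    [(3, 0, 0), (0, 1, 0), (4, 1, 0), (2, 0, 0), (0, 0, 0), (1, 3, 0), (1, 6, 0), (4, 6, 1), (2, 0, 0), (0, 0, 0), (1, 6, 0), (1, 6, 0)] := by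
  refine ⟨?_, ?_, ?_, ?_, ?_, ?_, ?_, ?_, ?_, ?_, ?_⟩ <;> decide +kernel

theorem x5_ck13 : x5Ck (r := 12)
    (x5pm [0, 2, 1, 4, 3, 6, 5, 8, 7, 10, 9, 12, 11] [0, 2, 1, 4, 3, 6, 5, 8, 7, 10, 9, 12, 11] (by decide) (by decide))
    (x5pm [0, 12, 11, 5, 6, 3, 4, 10, 9, 8, 7, 2, 1] [0, 12, 11, 5, 6, 3, 4, 10, 9, 8, 7, 2, 1] (by decide) (by decide))
    (x5pm [6, 1, 4, 7, 2, 8, 0, 3, 5, 9, 10, 12, 11] [6, 1, 4, 7, 2, 8, 0, 3, 5, 9, 10, 12, 11] (by decide) (by decide))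
    (x5pm [0, 1, 12, 2, 11, 3, 5, 4, 6, 7, 10, 8, 9] [0, 1, 3, 5, 7, 6, 8, 9, 11, 12, 10, 4, 2] (by decide) (by decide))
    (x5pm [1, 0, 6, 2, 4, 3, 7, 5, 8, 9, 10, 11, 12] [1, 0, 3, 5, 4, 7, 2, 6, 8, 9, 10, 11, 12] (by decide) (by decide))
    0 6 9 10 11 12 4
    [(1, 0, 0), (2, 0, 0), (0, 2, 0), (1, 0, 0), (4, 2, 0), (0, 0, 0), (2, 0, 0), (0, 0, 0), (1, 0, 0), (0, 7, 0), (3, 5, 0), (4, 1, 0), (2, 0, 0), (1, 0, 0)]
    [(3, 0, 0), (1, 1, 0), (4, 1, 0), (0, 0, 0), (2, 0, 0), (1, 0, 0)]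
    [(3, 0, 0), (1, 1, 0), (4, 1, 0), (2, 0, 0), (0, 0, 0), (0, 5, 0), (1, 0, 0), (4, 6, 1), (2, 0, 0), (0, 0, 0), (1, 1, 0), (1, 1, 0), (1, 8, 0), (1, 8, 0)] := by
  refine ⟨?_, ?_, ?_, ?_, ?_, ?_, ?_, ?_, ?_, ?_, ?_⟩ <;> decide +kernel

theorem x5_ck15 : x5Ck (r := 14)
    (x5pm [0, 2, 1, 4, 3, 6, 5, 8, 7, 10, 9, 12, 11, 14, 13] [0, 2, 1, 4, 3, 6, 5, 8, 7, 10, 9, 12, 11, 14, 13] (by decide) (by decide))
    (x5pm [0, 12, 11, 13, 14, 7, 8, 5, 6, 10, 9, 2, 1, 3, 4] [0, 12, 11, 13, 14, 7, 8, 5, 6, 10, 9, 2, 1, 3, 4] (by decide) (by decide))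
    (x5pm [1, 0, 2, 10, 11, 5, 6, 9, 12, 7, 3, 4, 8, 14, 13] [1, 0, 2, 10, 11, 5, 6, 9, 12, 7, 3, 4, 8, 14, 13] (by decide) (by decide))
    (x5pm [0, 1, 12, 2, 11, 3, 13, 4, 14, 5, 7, 6, 8, 9, 10] [0, 1, 3, 5, 7, 9, 11, 10, 12, 13, 14, 4, 2, 6, 8] (by decide) (by decide))
    (x5pm [2, 0, 1, 3, 10, 4, 11, 5, 6, 7, 9, 8, 12, 13, 14] [1, 2, 0, 3, 5, 7, 8, 9, 11, 10, 4, 6, 12, 13, 14] (by decide) (by decide))
    0 1 6 5 13 14 2
    [(0, 0, 0), (1, 0, 0), (2, 0, 0), (0, 0, 0), (1, 4, 0), (2, 0, 0), (1, 0, 0), (4, 3, 0), (2, 0, 0), (1, 6, 0), (0, 4, 0), (4, 1, 0), (2, 0, 0), (2, 6, 0), (4, 0, 4), (0, 0, 0), (4, 3, 0), (2, 0, 0), (4, 9, 0), (1, 0, 0), (4, 6, 2), (1, 0, 0)]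
    [(1, 0, 0), (3, 0, 0), (0, 2, 0), (4, 1, 0), (2, 0, 0), (3, 5, 0), (4, 0, 3), (3, 4, 0), (4, 0, 7), (2, 0, 0), (4, 3, 0), (0, 0, 0), (4, 7, 0), (1, 0, 0)]
    [(0, 0, 0), (3, 1, 0), (1, 1, 0), (4, 1, 0), (2, 0, 0), (0, 0, 0), (1, 6, 0), (4, 5, 0), (2, 0, 0), (0, 0, 0), (1, 0, 0), (1, 2, 0), (3, 11, 0), (4, 0, 4), (0, 0, 0), (2, 0, 0), (0, 8, 0), (2, 0, 0), (0, 0, 0), (2, 0, 0), (1, 14, 0), (1, 16, 0)] := by
  refine ⟨?_, ?_, ?_, ?_, ?_, ?_, ?_, ?_, ?_, ?_, ?_⟩ <;> decide +kernel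

theorem x5_ck17 : x5Ck (r := 16)
    (x5pm [0, 2, 1, 4, 3, 6, 5, 8, 7, 10, 9, 12, 11, 14, 13, 16, 15] [0, 2, 1, 4, 3, 6, 5, 8, 7, 10, 9, 12, 11, 14, 13, 16, 15] (by decide) (by decide))
    (x5pm [0, 12, 11, 10, 9, 8, 7, 6, 5, 4, 3, 2, 1, 16, 15, 14, 13] [0, 12, 11, 10, 9, 8, 7, 6, 5, 4, 3, 2, 1, 16, 15, 14, 13] (by decide) (by decide))
    (x5pm [12, 13, 6, 5, 14, 3, 2, 7, 8, 10, 9, 11, 0, 1, 4, 16, 15] [12, 13, 6, 5, 14, 3, 2, 7, 8, 10, 9, 11, 0, 1, 4, 16, 15] (by decide) (by decide))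
    (x5pm [0, 1, 12, 2, 11, 3, 10, 4, 9, 5, 8, 6, 7, 13, 16, 14, 15] [0, 1, 3, 5, 7, 9, 11, 12, 10, 8, 6, 4, 2, 13, 15, 16, 14] (by decide) (by decide))
    (x5pm [11, 0, 12, 1, 13, 2, 6, 3, 5, 4, 14, 7, 8, 9, 10, 15, 16] [1, 3, 5, 7, 9, 8, 6, 11, 12, 13, 14, 0, 2, 4, 10, 15, 16] (by decide) (by decide))
    0 12 8 7 15 16 2
    [(1, 0, 0), (2, 0, 0), (0, 0, 0), (1, 0, 0), (2, 0, 0), (0, 5, 0), (1, 0, 0), (2, 0, 0), (0, 0, 0), (1, 0, 0), (4, 5, 0), (0, 0, 0), (1, 0, 0), (2, 0, 0), (1, 0, 0), (2, 5, 0), (1, 0, 0), (2, 0, 0), (1, 0, 0)]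
    [(3, 0, 0), (1, 1, 0), (4, 1, 0), (0, 0, 0), (1, 0, 0), (2, 0, 0), (0, 6, 0), (4, 6, 0), (2, 4, 0), (4, 1, 0), (0, 0, 0), (4, 5, 0), (0, 0, 0), (1, 0, 0)]
    [(1, 0, 0), (0, 1, 0), (1, 0, 0), (3, 3, 0), (4, 0, 3), (0, 0, 0), (2, 0, 0), (0, 0, 0), (2, 0, 0), (3, 7, 0), (2, 5, 0), (4, 1, 0), (0, 0, 0), (2, 0, 0), (4, 10, 11), (2, 0, 0), (0, 0, 0), (1, 1, 0), (1, 1, 0), (1, 5, 0), (1, 11, 0), (0, 10, 0), (1, 0, 0), (1, 12, 0)] := by
  refine ⟨?_, ?_, ?_, ?_, ?_, ?_, ?_, ?_, ?_, ?_, ?_⟩ <;> decide +kernel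


variable {K : Type} [Field K] [Finite K] {φ : K →+* K}

theorem tX5 (hφ : ∀ s, φ (φ s) = s) (ne : φ ≠ RingHom.id K) (h : (2 : K) = 0) {r : ℕ}
    (hr : r = 8 ∨ r = 10 ∨ r = 12 ∨ r = 14 ∨ r = 16) :
    IsLeast {n | Good (chev (CartanMatrix.A r) Fin.revPerm φ) n} 3 := by
  have := CharTwo.of_one_ne_zero_of_two_eq_zero one_ne_zero h
  rcases hr with rfl | rfl | rfl | rfl | rfl
  · exact x5_main (by omega) hφ ne x5_ck9
  · exact x5_main (by omega) hφ ne x5_ck11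
  · exact x5_main (by omega) hφ ne x5_ck13
  · exact x5_main (by omega) hφ ne x5_ck15
  · exact x5_main (by omega) hφ ne x5_ck17

end Pool.Agent.MP_c78e8e_al.H75

end
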