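import Pool.Agent.MP_c78e8e_al.Mg.Sg_X4
import Pool.Agent.MP_c78e8e_al.Mg.Sg_Mon

attribute [-instance] AlgHom.instNonUnitalAlgHomClassOfAlgHomClass
  ContinuousSemilinearMapClass.toSemilinearMapClass instCharZeroOfIsSemireal
  SemilinearMapClass.toAddHomClass IdemSemiring.toSemiring MonTypeEquivalenceMon.monMonoid
  instNoNatZeroDivisorsOfIsAddTorsionFree FloorSemiring.instCharZero CommGroup.toDivisionCommMonoid
  NonUnitalAlgHomClass.instLinearMapClass RCLike.charZero_rclike CoalgHomClass.toSemilinearMapClass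
  NonUnitalAlgHomClass.instSemilinearMapClassOfNonUnitalAlgSemiHomClassToMonoidHomRingHom
  NonUnitalNormedRing.toNormedAddCommGroup RingHomClass.toLinearMapClassNNRat
  RingHomClass.toLinearMapClassRat SemilinearIsometryClass.toSemilinearMapClass
  SemilatticeInf.toPartialOrder Finset.decidableDforallFinset littleWedderburn
  instNonUnitalAlgHomClassOfNonUnitalAlgEquivClass QuadraticAlgebra.instDistribMulAction
  Multiset.decidableDforallMultiset AlgHomClass.linearMapClass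
  Vector.instDecidableForallForallMemOfDecidablePred
  Array.instDecidableForallForallMemOfDecidablePred Int.instLawfulBEq BooleanRing.toRing
  NormedSpace.toModule Option.decidableForallMem instIsRightCancelAddOfAddRightReflectLE
  NumberField.to_charZero NormMulClass.toNoZeroDivisors AlgEquivClass.toRingEquivClass invertibleTwo
  MulSemiringAction.toDistribMulAction GrpTypeEquivalenceGrp.grpGroup NormedAlgebra.toAlgebra
  LinearOrderedAddCommMonoidWithTop.toAddCommMonoid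
  NonUnitalAlgSemiHomClass.toDistribMulActionSemiHomClass BialgHomClass.toMonoidHomClass
  LieRing.toAddCommGroup CommSemigroup.toCommMagma Std.PreorderPackage.toBEq
  SubsemiringClass.toSubmonoidClass Std.instLawfulBEqOfLawfulOrderBEqOfIsPartialOrder
  RKHS.instFunLike MulSemiringActionSemiHomClass.toDistribMulActionSemiHomClass
  LieAdmissibleRing.toNonUnitalNonAssocRing IsStrictOrderedRing.toCharZero Int.decidableLELE
  SemilinearEquivClass.instSemilinearMapClass Int.decidableLTLE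
  ValuationClass.toMonoidWithZeroHomClass IsStrictOrderedRing.noZeroDivisors
  LinearOrderedAddCommGroupWithTop.toAddCommMonoid Fintype.decidablePiFintype Int.decidableLTLT
  NonUnitalAlgHomClass.toNonUnitalRingHomClass Int.decidableLELT AddEquivClass.instAddMonoidHomClass
  OrzechProperty.instOfFinite IsStarProjection.instTrivialStarOfStarOrderedRing NeZero.of_gt'
  NormedField.toField RingSeminormClass.toAddGroupSeminormClass CentroidHomClass.toAddMonoidHomClass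
  instCoeTCOfCoe CommGroup.toGroup QuadraticAlgebra.instCharZero FiniteField.instGrindPowIdentity
  MulCharClass.toMonoidHomClass TestFunctionClass.toDFunLike ContDiffMapSupportedInClass.toDFunLike
  CategoryTheory.Limits.Concrete.instUniqueToTypeTerminal RingEquivClass.toNonUnitalRingHomClass
  MulDistribMulActionSemiHomClass.toMonoidHomClass NormedCommRing.toCommRing
  IdemCommSemiring.toCommSemiring Bialgebra.toAlgebra instIsLeftCancelAddOfAddLeftReflectLE
  AddEquivClass.instAddHomClass NormedRing.toRing Algebra.Smooth.flat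
  NumberField.instFiniteDimensional RightPreLieRing.toNonUnitalNonAssocRing
  LeftPreLieRing.toNonUnitalNonAssocRing Invertible.toNeZero NonUnitalAlgSemiHomClass.toMulHomClass
  IsFormallyReal.instIsReduced IsMulCommutative.is_comm NeZero.charZero_one
  IsDedekindDomainDvr.isDedekindDomain QuadraticAlgebra.instField
  SeminormClass.toAddGroupSeminormClass

section

namespace Pool.Agent.MP_c78e8e_al.H75

open Subgroup Matrix

variable {K : Type} [Field K] {φ : K →+* K}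

/-- A model of the field with nine elements. -/
abbrev x6R := QuadraticAlgebra (ZMod 3) (-1) 0

def x6l4 : List x6R := [1, -1, ⟨0, 1⟩, ⟨0, -1⟩]
def x6l9 : List x6R := [0, 1, -1, ⟨0, 1⟩, ⟨1, 1⟩, ⟨-1, 1⟩, ⟨0, -1⟩, ⟨1, -1⟩, ⟨-1, -1⟩]

theorem x6_l9 (z : x6R) : z ∈ x6l9 := by
  obtain ⟨a, b⟩ := z
  revert a b
  decide +kernel

theorem x6_all {p : x6R → Prop} (h : ∀ z ∈ x6l9, p z) (z : x6R) : p z := h z (x6_l9 z)

theorem x6_w (z : x6R) : z = (z.re.val : x6R) + (z.im.val : x6R) * ⟨0, 1⟩ ∧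
    (z ≠ 0 → ∃ w ∈ x6l9, z * w = 1) := by
  revert z; exact x6_all (by decide +kernel)

theorem x6_i : (⟨0, 1⟩ * ⟨0, 1⟩ : x6R) = -1 ∧ (-⟨0, 1⟩ : x6R) = star ⟨0, 1⟩ := by decide +kernel

theorem x6_iso [Finite K] (ne : φ ≠ RingHom.id K) (h : Nat.card K = 9) :
    ∃ e : x6R →+* K, Function.Bijective e ∧ ∀ z, φ (e z) = e (star z) := by
  have := Fintype.ofFinite K
  have c9 : Fintype.card K = 9 := by rw [← h, Nat.card_eq_fintype_card]
  have h3 : ((3 : ℕ) : K) = 0 := by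
    have := FiniteField.cast_card_eq_zero K
    rw [c9, show (9 : ℕ) = 3 ^ 2 from rfl, Nat.cast_pow] at this
    exact pow_eq_zero_iff two_ne_zero |>.1 this
  have : Fact (Nat.Prime 3) := ⟨Nat.prime_three⟩
  have : CharP K 3 := (CharP.charP_iff_prime_eq_zero Nat.prime_three).2 h3
  let _ := ZMod.algebra K 3
  obtain ⟨ι, hι⟩ : IsSquare (-1 : K) := FiniteField.isSquare_neg_one_iff.2 (by rw [c9]; decide)
  let e : x6R →+* K := (QuadraticAlgebra.lift (R := ZMod 3) (a := -1) (b := 0)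
    ⟨ι, by rw [← hι]; simp⟩).toRingHom
  have ext : ∀ f g : x6R →+* K, f ⟨0, 1⟩ = g ⟨0, 1⟩ → ∀ z, f z = g z := fun f g h z => by
    rw [(x6_w z).1, map_add, map_add, map_mul, map_mul, h]
    simp only [map_natCast]
  have inj : Function.Injective e := (injective_iff_map_eq_zero e).2 fun z hz => by
    by_contra n
    obtain ⟨w, -, hw⟩ := (x6_w z).2 n
    simpa [hz] using congrArg e hw
  have bij : Function.Bijective e := (Nat.bijective_iff_injective_and_card e).2 ⟨inj, by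
    rw [h, Nat.card_congr (QuadraticAlgebra.equivProd _ _)]; simp⟩
  have sq : e ⟨0, 1⟩ * e ⟨0, 1⟩ = -1 := by
    rw [← map_mul, x6_i.1]; simp only [map_neg, map_one]
  have : φ (e ⟨0, 1⟩) * φ (e ⟨0, 1⟩) = e ⟨0, 1⟩ * e ⟨0, 1⟩ := by rw [← map_mul, sq]; simp only [map_neg, map_one]
  rcases mul_self_eq_mul_self_iff.1 this with p | p
  · refine absurd (RingHom.ext fun s => ?_) ne
    obtain ⟨z, rfl⟩ := bij.2 s
    exact ext (φ.comp e) e p z
  · refine ⟨e, bij, ext (φ.comp e) (e.comp (starRingEnd x6R)) ?_⟩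
    simp only [RingHom.comp_apply, p, ← map_neg, starRingEnd_apply, x6_i.2]

section forms

variable {A : Type} [CommRing A]

/-- The form `F` is invariant up to a scalar. -/
def x6S (F a : Matrix (Fin 4) (Fin 4) A) : Prop := ∃ l : A, a * F * aᵀ = l • F

/-- Three matrices with a common invariant form. -/
def x6I (a b c : Matrix (Fin 4) (Fin 4) A) : Prop := ∃ F ≠ 0, x6S F a ∧ x6S F b ∧ x6S F c

theorem x6S.smul {F a : Matrix (Fin 4) (Fin 4) A} (h : x6S F a) (z : A) : x6S F (z • a) := by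
  obtain ⟨l, h⟩ := h
  exact ⟨z * z * l, by simp [transpose_smul, h, smul_smul, mul_assoc]⟩

theorem x6_cj {U U' : Matrix (Fin 4) (Fin 4) A} (u : U * U' = 1) (a b : Matrix (Fin 4) (Fin 4) A) :
    U * a * U' * (U * b * U') = U * (a * b) * U' := by
  calc _ = U * a * (U' * U) * b * U' := by simp only [Matrix.mul_assoc]
    _ = _ := by rw [mul_eq_one_comm.1 u]; simp only [Matrix.mul_assoc, Matrix.one_mul]

theorem x6I.tr {a b c U U' : Matrix (Fin 4) (Fin 4) A} (u : U * U' = 1)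
    (h : x6I (U * a * U') (U * b * U') (U * c * U')) : x6I a b c := by
  obtain ⟨F, n, h⟩ := h
  have u' : U' * U = 1 := mul_eq_one_comm.1 u
  have t : U'ᵀ * Uᵀ = 1 := by rw [← transpose_mul, u, transpose_one]
  have t' : Uᵀ * U'ᵀ = 1 := by rw [← transpose_mul, u', transpose_one]
  have k : ∀ x, x6S F (U * x * U') → x6S (U' * F * U'ᵀ) x := fun x ⟨l, e⟩ => ⟨l, by
    have := congrArg (fun y => U' * y * U'ᵀ) e
    simp only [transpose_mul, Matrix.mul_smul, Matrix.smul_mul] at this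
    rw [← this]
    simp only [← Matrix.mul_assoc, u', Matrix.one_mul]
    simp only [Matrix.mul_assoc, t', Matrix.mul_one]⟩
  refine ⟨_, fun e => n ?_, k _ h.1, k _ h.2.1, k _ h.2.2⟩
  have := congrArg (fun y => U * y * Uᵀ) e
  simp only [← Matrix.mul_assoc, u, Matrix.one_mul] at this
  simpa [Matrix.mul_assoc, t] using this

theorem x6I.map {B : Type} [CommRing B] (e : A →+* B) (inj : Function.Injective e)
    {a b c : Matrix (Fin 4) (Fin 4) A} (h : x6I a b c) : x6I (a.map e) (b.map e) (c.map e) := by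
  obtain ⟨F, n, h⟩ := h
  have k : ∀ x, x6S F x → x6S (F.map e) (x.map e) := fun x ⟨l, h⟩ => ⟨e l, by
    rw [← transpose_map, ← Matrix.map_mul, ← Matrix.map_mul, h]; ext; simp⟩
  refine ⟨F.map e, fun h => n ?_, k _ h.1, k _ h.2.1, k _ h.2.2⟩
  ext i j
  exact inj (by simpa only [Matrix.zero_apply, map_zero, map_apply] using congrFun (congrFun h i) j)

variable (A) in
def x6D : Matrix (Fin 4) (Fin 4) A := diagonal ![1, 1, -1, -1]
variable (A) in
def x6E : Matrix (Fin 4) (Fin 4) A := diagonal ![1, -1, 1, -1]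

end forms

def x6m (a b : ℕ) : ℕ := 
  (Nat.shiftRight 12992295474418726299168584010125499800446975643965808714274855111902658395364003326119775607717888
    ((Nat.mul 36 a).add (Nat.mul 4 b))).mod 16
def x6a (a b : ℕ) : ℕ := 
  (Nat.shiftRight 8986690708024339884259668388453865091868182506470258411551265922896781674643265104972283578167824
    ((Nat.mul 36 a).add (Nat.mul 4 b))).mod 16
def x6s (a : ℕ) : ℕ := (Nat.shiftRight 22607782416 (Nat.mul 4 a)).mod 16
def x6d (a b c d e f g h r : ℕ) (k : Bool) : Bool :=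
  bif (x6a (x6a (x6a (x6m a b) (x6m c d)) (x6m e f)) (x6m g h)).beq r then k else true
def x6v {α : Type} (a b c d : α) (i : Fin 4) : α :=
  bif i.1.beq 0 then a else bif i.1.beq 1 then b else bif i.1.beq 2 then c else d
def x6cand : List ((Fin 4 → Fin 4) × (Fin 4 → ℕ)) :=
  ([1, 2, 3, 6].flatMap fun u => [1, 2, 3, 6].flatMap fun v => [1, 2, 3, 6].map fun w =>
    (id, x6v 1 u v w)) ++
  (((0, 1) :: (List.range 9).map fun v => (1, v)).flatMap fun p : ℕ × ℕ =>
    [(x6v 1 0 3 2, x6v p.1 (x6m 2 p.1) p.2 (x6m 2 p.2)),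
      (x6v 2 3 0 1, x6v p.1 p.2 (x6m 2 p.1) (x6m 2 p.2)),
      (x6v 3 2 1 0, x6v p.1 p.2 (x6m 2 p.2) (x6m 2 p.1))])
def x6ok (c : Fin 4 → Fin 4 → ℕ) : Bool := x6cand.any fun t =>
  ([(0, 1), (0, 2), (0, 3), (1, 2), (1, 3), (2, 3)] : List (Fin 4 × Fin 4)).all fun p =>
    (x6m (c p.1 (t.1 p.2)) (t.2 (t.1 p.2))).beq (x6m (c p.2 (t.1 p.1)) (t.2 (t.1 p.1)))
def x6n9 : List ℕ := [0, 1, 2, 3, 4, 5, 6, 7, 8]
def x6chk : Bool :=
  [0, 1, 2].all fun d0 => [0, 1, 4].all fun x1 => [0, 1, 4].all fun x2 => [0, 1, 4].all fun x3 =>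
  x6d d0 d0 x1 (x6s x1) x2 (x6s x2) x3 (x6s x3) 1 <|
  [0, 1, 2].all fun d1 => x6n9.all fun y2 => x6n9.all fun y3 =>
    x6d (x6s x1) x1 d1 d1 y2 (x6s y2) y3 (x6s y3) 1 <| x6d d0 x1 x1 d1 x2 (x6s y2) x3 (x6s y3) 0 <|
    [0, 1, 2].all fun d2 => x6n9.all fun z =>
      x6d (x6s x2) x2 (x6s y2) y2 d2 d2 z (x6s z) 1 <| x6d d0 x2 x1 y2 x2 d2 x3 (x6s z) 0 <|
      x6d (x6s x1) x2 d1 y2 y2 d2 y3 (x6s z) 0 <|
      [0, 1, 2].all fun d3 => x6d d0 1 d1 1 d2 1 d3 1 0 <|
        x6d (x6s x3) x3 (x6s y3) y3 (x6s z) z d3 d3 1 <| x6d d0 x3 x1 y3 x2 z x3 d3 0 <|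
        x6d (x6s x1) x3 d1 y3 y2 z y3 d3 0 <| x6d (x6s x2) x3 (x6s y2) y3 d2 z z d3 0 <|
        x6ok (x6v (x6v d0 x1 x2 x3) (x6v (x6s x1) d1 y2 y3) (x6v (x6s x2) (x6s y2) d2 z)
          (x6v (x6s x3) (x6s y3) (x6s z) d3))

theorem x6_chk : x6chk = true := by decide +kernel

/-- Codes of the elements. -/
def x6e (z : x6R) : ℕ := z.re.val + 3 * z.im.val
def x6u (k : ℕ) : x6R := ⟨(k % 3 : ℕ), (k / 3 : ℕ)⟩

theorem x6_e2 (z w : x6R) : x6m (x6e z) (x6e w) = x6e (z * w) ∧ x6a (x6e z) (x6e w) = x6e (z + w) :=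
  (by decide +kernel : ∀ z ∈ x6l9, ∀ w ∈ x6l9,
    x6m (x6e z) (x6e w) = x6e (z * w) ∧ x6a (x6e z) (x6e w) = x6e (z + w)) z (x6_l9 z) w (x6_l9 w)

theorem x6_e1 (z : x6R) : x6s (x6e z) = x6e (star z) ∧ x6u (x6e z) = z ∧ x6e z ∈ x6n9 ∧
    (z = star z → x6e z ∈ [0, 1, 2]) ∧
    ∃ t ∈ x6l4, t * star t = 1 ∧ x6e (z * star t) ∈ [0, 1, 4] := by
  revert z; exact x6_all (by decide +kernel)

theorem x6_d {a b c d e f g h r : x6R} {k : Bool} (p : x6d (x6e a) (x6e b) (x6e c) (x6e d) (x6e e)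
    (x6e f) (x6e g) (x6e h) (x6e r) k = true) (q : a * b + c * d + e * f + g * h = r) :
    k = true := by
  simpa [x6d, (x6_e2 _ _).1, (x6_e2 _ _).2, q] using p

theorem x6_cand : ∀ t ∈ x6cand, (∃ k, x6u (t.2 k) ≠ 0) ∧ (∀ k, t.1 (t.1 k) = k) ∧
    (∀ k, x6e (x6u (t.2 k)) = t.2 k) ∧
    (∃ ε ∈ x6l4, ε * ε = 1 ∧ ∀ k, x6u (t.2 (t.1 k)) = ε * x6u (t.2 k)) ∧
    (∃ l ∈ x6l4, ∀ k, (![1, 1, -1, -1] : Fin 4 → x6R) k * ![1, 1, -1, -1] (t.1 k) = l) ∧
    ∃ l ∈ x6l4, ∀ k, (![1, -1, 1, -1] : Fin 4 → x6R) k * ![1, -1, 1, -1] (t.1 k) = l := by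
  decide +kernel

theorem x6_ok {c : Matrix (Fin 4) (Fin 4) x6R} (cc : c * c = 1)
    (h : x6ok (fun i j => x6e (c i j)) = true) : x6I (x6D x6R) (x6E x6R) c := by
  simp only [x6ok, List.any_eq_true, List.all_eq_true, Nat.beq_eq] at h
  obtain ⟨t, ht, h⟩ := h
  obtain ⟨⟨k, n⟩, s, u, ⟨ε, -, e, f⟩, ⟨l, -, d1⟩, l', -, d2⟩ := x6_cand t ht
  obtain ⟨σ, w⟩ := t
  simp only at *
  set v : Fin 4 → x6R := fun k => x6u (w k) with hv
  have h1 : ∀ i j, i < j → c i (σ j) * v (σ j) = c j (σ i) * v (σ i) := fun i j p => by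
    have := h (i, j) (by revert i j; decide)
    rw [← u (σ j), ← u (σ i), (x6_e2 _ _).1, (x6_e2 _ _).1] at this
    simpa only [(x6_e1 _).2.1] using congrArg x6u this
  have h2 : ∀ i j, c i (σ j) * v (σ j) = c j (σ i) * v (σ i) := fun i j => by
    rcases lt_trichotomy i j with p | rfl | p
    exacts [h1 i j p, rfl, (h1 j i p).symm]
  set F : Matrix (Fin 4) (Fin 4) x6R := of fun i j => if i = σ j then v i else 0 with hF
  have dg : ∀ (d : Fin 4 → x6R) l, (∀ k, d k * d (σ k) = l) → x6S F (diagonal d) := fun d l h =>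
    ⟨l, Matrix.ext fun i j => by
      simp only [diagonal_transpose, mul_diagonal, diagonal_mul, hF, of_apply, Matrix.smul_apply,
        smul_eq_mul]
      split_ifs with p
      · rw [← h j, p]; ring
      · simp⟩
  have cF : ∀ i j, (c * F) i j = c i (σ j) * v (σ j) := fun i j => by simp [hF, mul_apply]
  have Ft : Fᵀ = ε • F := Matrix.ext fun i j => by
    simp only [hF, transpose_apply, of_apply, Matrix.smul_apply, smul_eq_mul]
    by_cases p : i = σ j
    · rw [if_pos p, if_pos (by rw [p, s]), p, hv]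
      simp only [f, ← mul_assoc, e, one_mul]
    · rw [if_neg p, if_neg fun q => p (by rw [q, s]), mul_zero]
  have sy : c * F = ε • (F * cᵀ) := by
    rw [← Matrix.smul_mul, ← Ft, ← transpose_mul]
    exact Matrix.ext fun i j => by rw [transpose_apply, cF, cF, h2]
  refine ⟨F, fun z => n ?_, dg _ l d1, dg _ l' d2, ε, ?_⟩
  · simpa [hF, s] using congrFun (congrFun z k) (σ k)
  · have : F * cᵀ = ε • (c * F) := by rw [sy, smul_smul, e, one_smul]
    rw [Matrix.mul_assoc, this, Matrix.mul_smul, ← Matrix.mul_assoc, cc, Matrix.one_mul]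

theorem x6_key0 {c : Matrix (Fin 4) (Fin 4) x6R} (cc : c * c = 1) (he : ∀ i j, star (c i j) = c j i)
    (tr : c.trace = 0) (n : ∀ j, j ≠ 0 → x6e (c 0 j) ∈ [0, 1, 4]) :
    x6I (x6D x6R) (x6E x6R) c := by
  have re : ∀ i, x6e (c i i) ∈ [0, 1, 2] := fun i => (x6_e1 _).2.2.2.1 (he i i).symm
  have al : ∀ i j, x6e (c i j) ∈ x6n9 := fun i j => (x6_e1 _).2.2.1
  have q : ∀ i j, c i 0 * c 0 j + c i 1 * c 1 j + c i 2 * c 2 j + c i 3 * c 3 j =
      (1 : Matrix (Fin 4) (Fin 4) x6R) i j := fun i j => by rw [← cc, mul_apply, Fin.sum_univ_four]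
  have k := x6_chk
  simp only [x6chk, List.all_eq_true] at k
  replace k := k _ (re 0) _ (n 1 (by decide)) _ (n 2 (by decide)) _ (n 3 (by decide))
  simp only [(x6_e1 _).1, he] at k
  replace k := x6_d k (q 0 0)
  simp only [List.all_eq_true] at k
  replace k := k _ (re 1) _ (al 1 2) _ (al 1 3)
  simp only [(x6_e1 _).1, he] at k
  replace k := x6_d (x6_d k (q 1 1)) (q 0 1)
  simp only [List.all_eq_true] at k
  replace k := k _ (re 2) _ (al 2 3)
  simp only [(x6_e1 _).1, he] at k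
  replace k := x6_d (x6_d (x6_d k (q 2 2)) (q 0 2)) (q 1 2)
  replace k := List.all_eq_true.1 k _ (re 3)
  replace k := x6_d (b := 1) (d := 1) (f := 1) (h := 1) (r := 0) k
    (by simpa only [Fin.isValue, mul_one, trace, diag_apply, Fin.sum_univ_four] using tr)
  replace k := x6_d (x6_d (x6_d (x6_d k (q 3 3)) (q 0 3)) (q 1 3)) (q 2 3)
  refine x6_ok cc (Eq.trans (congrArg _ ?_) k)
  funext i j
  fin_cases i <;> fin_cases j <;> rfl

theorem x6_key1 {c : Matrix (Fin 4) (Fin 4) x6R} (cc : c * c = 1) (he : ∀ i j, star (c i j) = c j i)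
    (tr : c.trace = 0) : x6I (x6D x6R) (x6E x6R) c := by
  have : ∀ j, ∃ t : x6R, t * star t = 1 ∧ (j = 0 → t = 1) ∧
      (j ≠ 0 → x6e (c 0 j * star t) ∈ [0, 1, 4]) := fun j => by
    by_cases h : j = 0
    · exact ⟨1, by simp, fun _ => rfl, fun e => absurd h e⟩
    · obtain ⟨t, -, a, b⟩ := (x6_e1 (c 0 j)).2.2.2.2
      exact ⟨t, a, fun e => absurd e h, fun _ => b⟩
  choose t t1 t0 tn using this
  have u : diagonal t * diagonal (star t) = 1 := by simp only [diagonal_mul_diagonal, Pi.star_apply, t1, diagonal_one]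
  have dg : ∀ d, diagonal t * diagonal d * diagonal (star t) = diagonal d := fun d => by
    simp only [diagonal_mul_diagonal, Pi.star_apply]
    exact congrArg diagonal (funext fun i => by linear_combination d i * t1 i)
  refine x6I.tr u ?_
  rw [x6D, x6E, dg, dg]
  refine x6_key0 ?_ (fun i j => ?_) ?_ fun j h => ?_
  · rw [x6_cj u, cc, Matrix.mul_one, u]
  · simp only [mul_diagonal, diagonal_mul, star_mul', he, Pi.star_apply, star_star]; ring
  · rw [trace_mul_cycle, mul_eq_one_comm.1 u, Matrix.one_mul, tr]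
  · simpa only [mul_diagonal, diagonal_mul, t0 0 rfl, one_mul, Pi.star_apply] using tn j h

variable {e : x6R →+* K}

theorem x6_ch {x : Matrix (Fin 4) (Fin 4) K} (h : x * x = 1) : ∃ s : K, s = x.det * s ∧
    (1 + s + x.det) • (1 : Matrix (Fin 4) (Fin 4) K) = (x.trace + x.det * x.trace) • x ∧
    ∀ l : K, l * l ≠ 1 → l ^ 4 - x.trace * l ^ 3 + s * l ^ 2 - x.det * x.trace * l + x.det ≠ 0 := by
  have dd : x.det * x.det = 1 := by rw [← det_mul, h, det_one]
  have nd : x.charpoly.natDegree = 4 := by simp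
  have c := charpoly_inv x (IsUnit.of_mul_eq_one _ h)
  rw [inv_eq_left_inv h, ← reverse_charpoly, Ring.inverse_eq_inv, inv_eq_of_mul_eq_one_left dd] at c
  have ck : ∀ k ≤ 4, x.charpoly.coeff k = x.det * x.charpoly.coeff (4 - k) := fun k hk => by
    conv_lhs => rw [c]
    simp only [Fintype.card_fin, show Even 4 by decide, Even.neg_pow, one_pow, one_mul, Polynomial.coeff_C_mul, Polynomial.coeff_reverse, charpoly_natDegree_eq_dim, Polynomial.revAt_le hk]
  have c4 : x.charpoly.coeff 4 = 1 := by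
    have := x.charpoly_monic.coeff_natDegree
    rwa [nd] at this
  have c3 : x.charpoly.coeff 3 = -x.trace := by simp [trace_eq_neg_charpoly_coeff]
  have c1 := ck 1 (by omega)
  have c0 := ck 0 (by omega)
  simp only [c3, c4] at c1 c0
  refine ⟨x.charpoly.coeff 2, ck 2 (by omega), ?_, fun l n z => ?_⟩
  · have := aeval_self_charpoly x
    rw [Polynomial.aeval_eq_sum_range, nd] at this
    simp only [Finset.sum_range_succ, Finset.range_zero, Finset.sum_empty, pow_succ, pow_zero,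
      one_mul, h, c0, c1, c3, c4] at this
    linear_combination (norm := module) this
  · have h0 : (scalar _ l - x).det = 0 := by
      rw [← eval_charpoly, Polynomial.eval_eq_sum_range, nd]
      simp only [Finset.sum_range_succ, Finset.range_zero, Finset.sum_empty, c0, c1, c3, c4]
      linear_combination z
    have m : (scalar _ l - x) * (scalar _ l + x) = (l * l - 1) • (1 : Matrix (Fin 4) (Fin 4) K) := by
      simp only [scalar_apply, ← smul_one_eq_diagonal, sub_mul, mul_add, Matrix.smul_mul,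
        Matrix.mul_smul, Matrix.one_mul, Matrix.mul_one, h]
      module
    have := congrArg det m
    rw [det_mul, h0, zero_mul, det_smul, det_one, mul_one] at this
    exact n (sub_eq_zero.1 (pow_eq_zero_iff (by simp) |>.1 this.symm))

theorem x6_3 (e : x6R →+* K) : (3 : K) = 0 ∧ (2 : K) ≠ 0 := by
  have : (3 : K) = 0 := by
    have := congrArg e (show (3 : x6R) = 0 by decide +kernel)
    rwa [map_ofNat, map_zero] at this
  exact ⟨this, fun h => one_ne_zero (by linear_combination this - h : (1 : K) = 0)⟩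

theorem x6_tr (h2 : (2 : K) ≠ 0) {x : Matrix (Fin 4) (Fin 4) K} (h : x * x = 1) (d : x.det = 1)
    (n : ∀ z : K, x ≠ z • 1) : x.trace = 0 := by
  obtain ⟨s, -, p, -⟩ := x6_ch h
  by_contra t
  refine n ((1 + s + x.det) / (2 * x.trace)) ?_
  rw [div_eq_inv_mul, ← smul_smul, p, smul_smul, d, one_mul, ← two_mul,
    inv_mul_cancel₀ (mul_ne_zero h2 t), one_smul]

theorem x6_J : Jm 3 K = !![0, 0, 0, 1; 0, 0, -1, 0; 0, 1, 0, 0; -1, 0, 0, 0] := by
  ext i j
  fin_cases i <;> fin_cases j <;> simp only [Jm, Nat.reduceAdd, Fin.rev, Nat.reduceSubDiff, Fin.zero_eta, Fin.isValue, of_apply, Fin.coe_ofNat_eq_mod, Nat.zero_mod, tsub_zero, Fin.reduceFinMk, Fin.reduceEq, ↓ reduceIte, cons_val', cons_val_zero, cons_val_fin_one, Fin.mk_one, cons_val_one, cons_val, pow_zero, Nat.one_mod, Nat.add_one_sub_one, pow_one, Nat.reduceMod, Nat.reduceSub, zero_ne_one, even_two, Even.neg_pow, one_pow, Nat.mod_succ, tsub_self, one_ne_zero]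
  norm_num

theorem x6_JJ : Jm 3 K * Jm 3 K = -1 := by
  rw [x6_J]
  ext i j
  fin_cases i <;> fin_cases j <;> simp

theorem x6_no (bij : Function.Bijective e) (he : ∀ z, φ (e z) = e (star z))
    {x : Matrix (Fin 4) (Fin 4) K} (h : x * x = 1) (d : x.det = -1)
    (u : x * Jm 3 K * (x.map φ)ᵀ = -Jm 3 K) : False := by
  obtain ⟨s, s0, -, p⟩ := x6_ch h
  have y : (x.map φ)ᵀ = Jm 3 K * x * Jm 3 K := by
    calc _ = -(Jm 3 K * (x * x) * Jm 3 K) * (x.map φ)ᵀ := by rw [h, Matrix.mul_one, x6_JJ]; simp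
      _ = -(Jm 3 K * x * (x * Jm 3 K * (x.map φ)ᵀ)) := by simp only [Matrix.mul_assoc, neg_mul]
      _ = _ := by rw [u]; simp
  have t : φ x.trace = -x.trace := by
    have := congrArg trace y
    rw [trace_mul_cycle, x6_JJ, trace_transpose] at this
    simpa [trace] using this
  obtain ⟨τ, ht⟩ := bij.2 x.trace
  obtain ⟨l, -, a, b⟩ := x6_all (p := fun τ => star τ = -τ → ∃ l ∈ x6l9, l * l ≠ 1 ∧
    l * l * l * l - τ * (l * l * l) + τ * l - 1 = 0) (by decide +kernel) τ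
    (bij.1 (by rw [← he, map_neg, ht, t]))
  have s1 : s = 0 := (mul_eq_zero.1 (by linear_combination s0 + s * d : 2 * s = 0)).resolve_left
    (x6_3 e).2
  refine p (e l) (fun q => a (bij.1 (by simpa only [map_mul, map_one] using q))) ?_
  have := congrArg e b
  simp only [map_sub, map_add, map_mul, map_one, map_zero, ht] at this
  rw [s1, d]
  linear_combination this

/-- The skew hermitian norm of a row. -/
def x6h (φ : K →+* K) (v : Fin 4 → K) : K :=
  v 0 * φ (v 3) - v 1 * φ (v 2) + v 2 * φ (v 1) - v 3 * φ (v 0)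

theorem x6_ev (bij : Function.Bijective e) (he : ∀ z, φ (e z) = e (star z))
    {a b : Matrix (Fin 4) (Fin 4) K} (aa : a * a = 1) (bb : b * b = 1) (ab : a * b = b * a)
    (ta : a.trace = 0) (tb : b.trace = 0) (tab : (a * b).trace = 0) {ε δ : K} (hε : ε * ε = 1)
    (hδ : δ * δ = 1) : ∃ v : Fin 4 → K, v ≠ 0 ∧ v ᵥ* a = ε • v ∧ v ᵥ* b = δ • v ∧
      (x6h φ v = 0 ∨ x6h φ v = e ⟨0, 1⟩) := by
  set E : Matrix (Fin 4) (Fin 4) K := 1 + ε • a + δ • b + (ε * δ) • (a * b) with hE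
  have Ea : E * a = ε • E := by
    have : a * b * a = b := by rw [ab, Matrix.mul_assoc, aa, Matrix.mul_one]
    simp only [hE, add_mul, Matrix.smul_mul, aa, this, ← ab, smul_add, smul_smul,
      ← mul_assoc, hε, one_smul, one_mul]
    match_scalars <;> ring1
  have Eb : E * b = δ • E := by
    have : a * b * b = a := by rw [Matrix.mul_assoc, bb, Matrix.mul_one]
    simp only [hE, add_mul, Matrix.smul_mul, Matrix.one_mul, bb, this, smul_add, smul_smul]
    match_scalars <;> first | ring1 | linear_combination (-1) * hδ | linear_combination (-ε) * hδ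
  obtain ⟨i, n⟩ : ∃ i, E i ≠ 0 := by
    by_contra n
    push Not at n
    have : E.trace = 0 := by simp [trace, n]
    simp only [hE, trace_add, trace_smul, ta, tb, tab, trace_one] at this
    exact one_ne_zero (by simp only [Fintype.card_fin, Nat.cast_ofNat, smul_eq_mul, mul_zero, add_zero] at this; linear_combination this - (x6_3 e).1 : (1 : K) = 0)
  have va : E i ᵥ* a = ε • E i := congrFun Ea i
  have vb : E i ᵥ* b = δ • E i := congrFun Eb i
  have pp : ∀ s, φ (φ s) = s := fun s => by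
    obtain ⟨z, rfl⟩ := bij.2 s
    rw [he, he, star_star]
  obtain ⟨η, h⟩ := bij.2 (x6h φ (E i))
  rcases x6_all (p := fun η => star η = -η → η = 0 ∨ η = ⟨0, 1⟩ ∨
      ⟨1, 1⟩ * star ⟨1, 1⟩ * η = ⟨0, 1⟩) (by decide +kernel) η (bij.1 (by
      rw [← he, map_neg, h]; simp only [x6h, map_add, map_sub, map_mul, pp]; ring)) with p | p | p
  · exact ⟨_, n, va, vb, Or.inl (by rw [← h, p, map_zero])⟩
  · exact ⟨_, n, va, vb, Or.inr (by rw [← h, p])⟩
  · refine ⟨e ⟨1, 1⟩ • E i, smul_ne_zero (fun q => ?_) n, by rw [smul_vecMul, va, smul_comm],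
      by rw [smul_vecMul, vb, smul_comm], Or.inr ?_⟩
    · exact absurd (bij.1 (q.trans (map_zero e).symm)) (by decide +kernel)
    · rw [← p, map_mul, map_mul, ← he, h]
      simp only [x6h, Pi.smul_apply, smul_eq_mul, map_mul]
      ring

theorem x6_comm (bij : Function.Bijective e) (he : ∀ z, φ (e z) = e (star z))
    {a b c : Matrix (Fin 4) (Fin 4) K} (aa : a * a = 1) (bb : b * b = 1) (cc : c * c = 1)
    (ab : a * b = b * a) (ta : a.trace = 0) (tb : b.trace = 0) (tab : (a * b).trace = 0)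
    (tc : c.trace = 0) (ua : a * Jm 3 K * (a.map φ)ᵀ = Jm 3 K)
    (ub : b * Jm 3 K * (b.map φ)ᵀ = Jm 3 K) (uc : c * Jm 3 K * (c.map φ)ᵀ = Jm 3 K) :
    x6I a b c := by
  obtain ⟨h3, h2⟩ := x6_3 e
  have ev : ∀ i : Fin 4, _ := fun i => x6_ev bij he aa bb ab ta tb tab
    (ε := ![1, 1, -1, -1] i) (δ := ![1, -1, 1, -1] i) (by fin_cases i <;> simp)
    (by fin_cases i <;> simp)
  choose v v0 va vb vh using ev
  set U : Matrix (Fin 4) (Fin 4) K := of v with hU
  have Ua : U * a = x6D K * U := Matrix.ext fun i j => by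
    rw [x6D, diagonal_mul]; exact congrFun (va i) j
  have Ub : U * b = x6E K * U := Matrix.ext fun i j => by
    rw [x6E, diagonal_mul]; exact congrFun (vb i) j
  have un : IsUnit U := by
    rw [← vecMul_injective_iff_isUnit]
    refine (injective_iff_map_eq_zero U.vecMulLinear).2 fun y (p0 : y ᵥ* U = 0) => ?_
    have p1 : (y ᵥ* x6D K) ᵥ* U = 0 := by rw [vecMul_vecMul, ← Ua, ← vecMul_vecMul, p0, zero_vecMul]
    have p2 : (y ᵥ* x6E K) ᵥ* U = 0 := by rw [vecMul_vecMul, ← Ub, ← vecMul_vecMul, p0, zero_vecMul]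
    have p3 : ((y ᵥ* x6D K) ᵥ* x6E K) ᵥ* U = 0 := by
      rw [vecMul_vecMul, ← Ub, ← vecMul_vecMul, p1, zero_vecMul]
    funext i
    obtain ⟨k, n⟩ := Function.ne_iff.1 (v0 i)
    refine (mul_eq_zero.1 (?_ : y i * v i k = 0)).resolve_right n
    have q0 := congrFun p0 k
    have q1 := congrFun p1 k
    have q2 := congrFun p2 k
    have q3 := congrFun p3 k
    simp only [vecMul, dotProduct, hU, of_apply, Fin.sum_univ_four, Fin.isValue, Pi.zero_apply, x6D, diagonal, mul_ite, mul_zero, Finset.sum_ite_eq', Finset.mem_univ, ↓ reduceIte, cons_val_zero, mul_one, cons_val_one, cons_val, mul_neg, neg_mul, x6E, neg_neg] at q0 q1 q2 q3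
    fin_cases i
    exacts [(by linear_combination q0 + q1 + q2 + q3 - y 0 * v 0 k * h3 : y 0 * v 0 k = 0),
      (by linear_combination q0 + q1 - q2 - q3 - y 1 * v 1 k * h3 : y 1 * v 1 k = 0),
      (by linear_combination q0 - q1 + q2 - q3 - y 2 * v 2 k * h3 : y 2 * v 2 k = 0),
      (by linear_combination q0 - q1 - q2 + q3 - y 3 * v 3 k * h3 : y 3 * v 3 k = 0)]
  obtain ⟨U', u⟩ := un.exists_right_inv
  have u' : U' * U = 1 := mul_eq_one_comm.1 u
  set Δ := U * Jm 3 K * (U.map φ)ᵀ with hΔ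
  have inv : ∀ x y, x * Jm 3 K * (x.map φ)ᵀ = Jm 3 K → U * x = y * U → y * Δ * (y.map φ)ᵀ = Δ :=
    fun x y p q => by
      calc _ = y * U * Jm 3 K * ((y * U).map φ)ᵀ := by
            simp only [hΔ, Matrix.map_mul, transpose_mul, Matrix.mul_assoc]
        _ = U * (x * Jm 3 K * (x.map φ)ᵀ) * (U.map φ)ᵀ := by
            simp only [← q, Matrix.map_mul, transpose_mul, Matrix.mul_assoc]
        _ = Δ := by rw [p]
  have off : ∀ i j, i ≠ j → Δ i j = 0 := fun i j n => by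
    have p := congrFun (congrFun (inv _ _ ua Ua) i) j
    have q := congrFun (congrFun (inv _ _ ub Ub) i) j
    simp only [x6D, x6E, diagonal_map (map_zero φ), diagonal_transpose, mul_diagonal,
      diagonal_mul] at p q
    generalize Δ i j = w at p q
    have z : -w = w → w = 0 := fun r => by linear_combination r + w * h3
    fin_cases i <;> fin_cases j <;> simp only [Fin.zero_eta, Fin.isValue, ne_eq, not_true_eq_false, Fin.mk_one, zero_ne_one, not_false_eq_true, cons_val_zero, one_mul, cons_val_one, map_one, mul_one, map_neg, mul_neg, Fin.reduceFinMk, Fin.reduceEq, cons_val, one_ne_zero, neg_mul, neg_neg] at n p q <;> first | exact z p | exact z q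
  have dg : Δ = e ⟨0, 1⟩ • 1 := Matrix.ext fun i j => by
    by_cases n : i = j
    · subst n
      have p : Δ i i = x6h φ (v i) := by
        simp only [hΔ, Nat.reduceAdd, hU, x6_J, mul_apply, of_apply, cons_val', cons_val_fin_one, Fin.sum_univ_four, Fin.isValue, cons_val_zero, cons_val_one, cons_val, transpose_apply, map_apply, mul_zero, add_zero, mul_neg, mul_one, zero_add, neg_mul, x6h]; ring
      rcases vh i with q | q
      · exfalso
        have r : Δ * ((U'.map φ)ᵀ * (-Jm 3 K) * U') = 1 := by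
          calc _ = U * Jm 3 K * ((U' * U).map φ)ᵀ * (-Jm 3 K) * U' := by
                simp only [hΔ, Matrix.map_mul, transpose_mul, Matrix.mul_assoc]
            _ = 1 := by
                rw [u', Matrix.map_one _ (map_zero φ) (map_one φ), transpose_one, Matrix.mul_one,
                  Matrix.mul_assoc U, Matrix.mul_neg, x6_JJ, neg_neg, Matrix.mul_one, u]
        have := congrFun (congrFun r i) i
        rw [mul_apply, Finset.sum_eq_zero fun k _ => by
          by_cases n : i = k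
          · rw [← n, p, q, zero_mul]
          · rw [off i k n, zero_mul]] at this
        simp at this
      · simp [p, q]
    · simp [off i j n, n]
  refine x6I.tr u ?_
  rw [Ua, Ub, Matrix.mul_assoc, Matrix.mul_assoc (x6E K), u, Matrix.mul_one, Matrix.mul_one]
  have c2 : U * c * U' * (U * c * U') = 1 := by rw [x6_cj u, cc, Matrix.mul_one, u]
  have c1 := inv c (U * c * U') uc (by rw [Matrix.mul_assoc _ U', u', Matrix.mul_one])
  have c3 : (U * c * U').trace = 0 := by rw [trace_mul_cycle, u', Matrix.one_mul, tc]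
  generalize U * c * U' = d at c1 c2 c3
  have i0 : e ⟨0, 1⟩ ≠ 0 := fun q =>
    absurd (bij.1 (q.trans (map_zero e).symm)) (by decide +kernel)
  have c4 : (d.map φ)ᵀ = d := by
    rw [dg, Matrix.mul_smul, Matrix.smul_mul, Matrix.mul_one] at c1
    have := congrArg (d * ·) (smul_right_injective _ i0 c1)
    simpa only [← Matrix.mul_assoc, c2, Matrix.one_mul, Matrix.mul_one] using this
  choose f hf using bij.2
  have m : (d.map f).map e = d := Matrix.ext fun i j => hf _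
  have mi : Function.Injective fun x : Matrix (Fin 4) (Fin 4) x6R => x.map e :=
    Matrix.map_injective bij.1
  have := (x6_key1 (c := d.map f) (mi (by simp only [Matrix.map_mul, m, c2, map_zero, map_one, Matrix.map_one])) (fun i j => bij.1 (by
    rw [← he]; simpa [hf] using congrFun (congrFun c4 j) i)) (bij.1 (by
    simpa only [trace, diag_apply, map_apply, map_sum, hf, map_zero] using c3))).map e bij.1
  rw [m] at this
  convert this using 1 <;> simp only [x6D, x6E, diagonal_map (map_zero e)] <;> congr 1 <;>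
    funext i <;> fin_cases i <;> simp only [Nat.succ_eq_add_one, Nat.reduceAdd, Fin.zero_eta, Fin.isValue, cons_val_zero, map_one, Fin.mk_one, cons_val_one, Fin.reduceFinMk, cons_val, map_neg]

theorem x6_anti0 (h2 : (2 : K) ≠ 0) {k k' : Matrix (Fin 4) (Fin 4) K} (u : k' * k = 1) :
    x6I (x6D K) !![0, 0, 1, 0; 0, 0, 0, 1; 1, 0, 0, 0; 0, 1, 0, 0] (k' * x6D K * k) := by
  obtain ⟨s, n, hs⟩ := (exists_mulVec_eq_zero_iff (M := !![k 0 0 * k 1 2 - k 0 2 * k 1 0,
    k 0 0 * k 1 3 + k 0 1 * k 1 2 - k 0 2 * k 1 1 - k 0 3 * k 1 0, k 0 1 * k 1 3 - k 0 3 * k 1 1;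
    k 2 0 * k 3 2 - k 2 2 * k 3 0, k 2 0 * k 3 3 + k 2 1 * k 3 2 - k 2 2 * k 3 1 - k 2 3 * k 3 0,
    k 2 1 * k 3 3 - k 2 3 * k 3 1; 0, 0, 0])).2 (det_eq_zero_of_row_eq_zero 2 (by
      intro j; fin_cases j <;> rfl))
  have p := congrFun hs 0
  have q := congrFun hs 1
  simp only [mulVec, dotProduct, Fin.isValue, of_apply, cons_val', cons_val_fin_one, cons_val_zero, Fin.sum_univ_three, cons_val_one, cons_val, Pi.zero_apply] at p q
  set F : Matrix (Fin 4) (Fin 4) K :=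
    !![0, 0, s 0, s 1; 0, 0, s 1, s 2; -s 0, -s 1, 0, 0; -s 1, -s 2, 0, 0] with hF
  have G : x6D K * (k * F * kᵀ) * x6D K = -(k * F * kᵀ) := by
    have a : ∀ i j, (k * F * kᵀ) i j = s 0 * (k i 0 * k j 2 - k i 2 * k j 0) + s 1 * (k i 0 * k j 3 +
        k i 1 * k j 2 - k i 2 * k j 1 - k i 3 * k j 0) + s 2 * (k i 1 * k j 3 - k i 3 * k j 1) :=
      fun i j => by simp only [hF, Fin.isValue, mul_apply, of_apply, cons_val', cons_val_fin_one, Fin.sum_univ_four, cons_val_zero, cons_val_one, cons_val, transpose_apply, mul_zero, add_zero, mul_neg, zero_add]; ring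
    have a1 : ∀ i j, (k * F * kᵀ) j i = -(k * F * kᵀ) i j := fun i j => by rw [a, a]; ring
    have a0 : ∀ i, (k * F * kᵀ) i i = 0 := fun i => by rw [a]; ring
    have b1 : (k * F * kᵀ) 0 1 = 0 := by rw [a]; linear_combination p
    have b2 : (k * F * kᵀ) 2 3 = 0 := by rw [a]; linear_combination q
    have b3 := a1 0 1
    have b4 := a1 2 3
    generalize k * F * kᵀ = G at *
    ext i j
    fin_cases i <;> fin_cases j <;> simp [x6D, a0, b1, b2, b3, b4]
  refine ⟨F, fun z => n ?_, ⟨-1, ?_⟩, ⟨-1, ?_⟩, -1, ?_⟩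
  · funext i
    fin_cases i
    exacts [congrFun (congrFun z 0) 2, congrFun (congrFun z 0) 3, congrFun (congrFun z 1) 3]
  · ext i j
    fin_cases i <;> fin_cases j <;> simp [x6D, hF]
  · ext i j
    fin_cases i <;> fin_cases j <;> simp [hF, mul_apply, Fin.sum_univ_four]
  · have t : kᵀ * k'ᵀ = 1 := by rw [← transpose_mul, u, transpose_one]
    calc _ = k' * (x6D K * (k * F * kᵀ) * x6D K) * k'ᵀ := by
          simp only [transpose_mul, x6D, diagonal_transpose, Matrix.mul_assoc]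
      _ = -(k' * k * F * (kᵀ * k'ᵀ)) := by rw [G]; simp only [Matrix.mul_assoc, mul_neg, neg_mul]
      _ = _ := by simp [u, t]

theorem x6_anti (h2 : (2 : K) ≠ 0) {a b g g' : Matrix (Fin 4) (Fin 4) K} (aa : a * a = 1)
    (bb : b * b = 1) (ab : b * a = -(a * b)) (u : g * g' = 1) : x6I a b (g * a * g') := by
  have nn : (a - 1) * b * ((a - 1) * b) = 0 := by
    have : b * (a * b) = -a := by
      rw [← Matrix.mul_assoc, ab, neg_mul, Matrix.mul_assoc, bb, Matrix.mul_one]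
    simp only [sub_mul, mul_sub, Matrix.mul_assoc, Matrix.one_mul, this, bb, mul_neg, aa,
      Matrix.mul_one]
    abel
  set f := ((a - 1) * b).vecMulLinear with hf
  have r := f.finrank_range_add_finrank_ker
  have le : LinearMap.range f ≤ LinearMap.ker f := by
    rintro _ ⟨y, rfl⟩
    simp only [hf, LinearMap.flip_apply, vecMulBilin_apply, LinearMap.mem_ker, vecMul_vecMul, nn, vecMul_zero]
  obtain ⟨w, li⟩ := exists_linearIndependent_of_le_finrank (R := K) (M := LinearMap.ker f) (n := 2)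
    (by have := Submodule.finrank_mono le; simp at r; omega)
  have wa : ∀ i, (w i).1 ᵥ* a = (w i).1 := fun i => by
    have := congrArg (· ᵥ* b) (show (w i).1 ᵥ* ((a - 1) * b) = 0 from (w i).2)
    simp only [vecMul_vecMul, Matrix.mul_assoc, bb, Matrix.mul_one, zero_vecMul, vecMul_sub,
      vecMul_one] at this
    exact sub_eq_zero.1 this
  have wb : ∀ i, ((w i).1 ᵥ* b) ᵥ* a = -((w i).1 ᵥ* b) := fun i => by
    rw [vecMul_vecMul, ab, vecMul_neg, ← vecMul_vecMul, wa]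
  have wc : ∀ i, ((w i).1 ᵥ* b) ᵥ* b = (w i).1 := fun i => by rw [vecMul_vecMul, bb, vecMul_one]
  have pr : ∀ s t : K, s • (w 0).1 + t • (w 1).1 = 0 → s = 0 ∧ t = 0 := fun s t h => by
    have := Fintype.linearIndependent_iff.1 li ![s, t] (Subtype.ext (by simpa only [Fin.sum_univ_two, Fin.isValue, cons_val_zero, cons_val_one, cons_val_fin_one, Submodule.coe_add, SetLike.val_smul, ZeroMemClass.coe_zero] using h))
    exact ⟨this 0, this 1⟩
  set U : Matrix (Fin 4) (Fin 4) K := of ![(w 0).1, (w 1).1, (w 0).1 ᵥ* b, (w 1).1 ᵥ* b] with hU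
  have Ua : U * a = x6D K * U := Matrix.ext fun i j => by
    rw [x6D, diagonal_mul]
    fin_cases i
    exacts [by simpa [hU] using congrFun (wa 0) j, by simpa [hU] using congrFun (wa 1) j,
      by simpa [hU] using congrFun (wb 0) j, by simpa only [hU, Fin.isValue, Fin.reduceFinMk, cons_mul, Nat.succ_eq_add_one, Nat.reduceAdd, vecMul_vecMul, empty_mul, Equiv.symm_apply_apply, of_apply, cons_val', cons_val_fin_one, cons_val, cons_val_one, neg_mul, one_mul, Pi.neg_apply] using congrFun (wb 1) j]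
  have Ub : U * b = !![0, 0, 1, 0; 0, 0, 0, 1; 1, 0, 0, 0; 0, 1, 0, 0] * U :=
    Matrix.ext fun i j => by
      rw [mul_apply (M := !![0, 0, 1, 0; 0, 0, 0, 1; 1, 0, 0, 0; 0, 1, 0, 0])]
      fin_cases i
      exacts [by simp [hU, Fin.sum_univ_four], by simp [hU, Fin.sum_univ_four],
        by simpa only [hU, Fin.isValue, Fin.reduceFinMk, cons_mul, Nat.succ_eq_add_one, Nat.reduceAdd, vecMul_vecMul, empty_mul, Equiv.symm_apply_apply, of_apply, cons_val', cons_val_fin_one, cons_val, cons_val_one, cons_val_zero, Fin.sum_univ_four, one_mul, zero_mul, add_zero] using congrFun (wc 0) j,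
        by simpa only [hU, Fin.isValue, Fin.reduceFinMk, cons_mul, Nat.succ_eq_add_one, Nat.reduceAdd, vecMul_vecMul, empty_mul, Equiv.symm_apply_apply, of_apply, cons_val', cons_val_fin_one, cons_val, cons_val_one, Fin.sum_univ_four, cons_val_zero, zero_mul, one_mul, zero_add, add_zero] using congrFun (wc 1) j]
  have un : IsUnit U := by
    rw [← vecMul_injective_iff_isUnit]
    refine (injective_iff_map_eq_zero U.vecMulLinear).2 fun y (p0 : y ᵥ* U = 0) => ?_
    have ex : y ᵥ* U = y 0 • (w 0).1 + y 1 • (w 1).1 + (y 2 • (w 0).1 + y 3 • (w 1).1) ᵥ* b := by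
      rw [add_vecMul, smul_vecMul, smul_vecMul]
      funext k
      simp only [vecMul, dotProduct, hU, Fin.isValue, of_apply, cons_val', Fin.sum_univ_four, cons_val_fin_one, cons_val_zero, cons_val_one, cons_val, Pi.add_apply, Pi.smul_apply, smul_eq_mul]; ring
    have p1 := congrArg (· ᵥ* a) p0
    simp only [ex, add_vecMul, smul_vecMul, wa, wb, zero_vecMul] at p1
    rw [ex] at p0
    have p2 : y 0 • (w 0).1 + y 1 • (w 1).1 = 0 := by
      refine smul_right_injective _ h2 ?_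
      simp only [add_vecMul, smul_vecMul] at p0
      linear_combination (norm := module) p0 + p1
    have p3 := congrArg (· ᵥ* b) p0
    simp only [p2, zero_add, vecMul_vecMul, bb, vecMul_one, zero_vecMul] at p3
    funext i
    fin_cases i
    exacts [(pr _ _ p2).1, (pr _ _ p2).2, (pr _ _ p3).1, (pr _ _ p3).2]
  obtain ⟨U', v⟩ := un.exists_right_inv
  have v' : U' * U = 1 := mul_eq_one_comm.1 v
  refine x6I.tr v ?_
  have Da : U * a * U' = x6D K := by rw [Ua, Matrix.mul_assoc, v, Matrix.mul_one]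
  rw [← x6_cj v, ← x6_cj v, Da, Ub, Matrix.mul_assoc _ U U', v, Matrix.mul_one]
  exact x6_anti0 h2 (by rw [x6_cj v, u, Matrix.mul_one, v])

theorem x6_uni (h3 : (3 : K) = 0) {F g : Matrix (Fin 4) (Fin 4) K} (n : F ≠ 0) (h : x6S F g)
    (c : g * g * g = 1) : g * F * gᵀ = F := by
  obtain ⟨l, h⟩ := h
  have : F = (l * l * l) • F := by
    calc F = g * g * g * F * (g * g * g)ᵀ := by simp [c]
      _ = g * (g * (g * F * gᵀ) * gᵀ) * gᵀ := by simp only [transpose_mul, Matrix.mul_assoc]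
      _ = _ := by simp only [h, Matrix.mul_smul, Matrix.smul_mul, smul_smul]
  have l3 : l * l * l = 1 := smul_left_injective K n (by simpa using this.symm)
  have : l - 1 = 0 := pow_eq_zero_iff (n := 3) (by decide) |>.1
    (by linear_combination l3 + (l - l * l) * h3)
  rw [h, sub_eq_zero.1 this, one_smul]

theorem x6_noF (bij : Function.Bijective e) (he : ∀ z, φ (e z) = e (star z))
    (hφ : ∀ s, φ (φ s) = s) {F : Matrix (Fin 4) (Fin 4) K} (n : F ≠ 0)
    (h : ∀ g ∈ sug 3 φ, x6S F g.1) : False := by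
  obtain ⟨h3, h2⟩ := x6_3 e
  have e3 : ∀ (i j : Fin 4) (s : K), el i j s ^ 3 = 1 := fun i j s => by
    rw [pow_three, ← el_add, ← el_add, show s + (s + s) = 0 by linear_combination s * h3, el_zero]
  have un : ∀ g ∈ sug 3 φ, g ^ 3 = 1 → g.1 * F * g.1ᵀ = F := fun g m c =>
    x6_uni h3 n (h g m) (by simpa only [Nat.reduceAdd, Matrix.mul_assoc, pow_three, Units.val_mul, Units.val_one] using congrArg Units.val c)
  have lg : ∀ i : Fin 4, (∀ l, l ≠ i → F i.rev l = 0) ∧ F i.rev i + F i i.rev + F i.rev i.rev = 0 := by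
    intro i
    have ne : i ≠ i.rev := by revert i; decide
    have := un _ (rt_mem ((rt_long hφ ne _).2 ⟨1, by norm_num, rfl⟩)) (e3 _ _ _)
    simp only [el_val ne, transpose_add, transpose_one, transpose_single, add_mul, mul_add,
      Matrix.one_mul, Matrix.mul_one] at this
    refine ⟨fun l p => ?_, ?_⟩
    · simpa [p, p.symm] using congrFun (congrFun this i) l
    · have := congrFun (congrFun this i) i
      simp at this
      linear_combination this
  have sh : ∀ s, s * F 1 2 + φ s * F 0 3 = 0 := fun s => by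
    have := un _ (rt_mem ((rt_short (i := 0) (j := 1) hφ (by decide) (by decide) (by decide)
      (by decide) _).2 ⟨s, rfl⟩)) (by
        rw [(el_comm (by decide) (by decide) _ _).mul_pow, e3, e3, one_mul])
    have := congrFun (congrFun this 0) 2
    rw [Units.val_mul, el_val (by decide), el_val (by decide)] at this
    simp only [Nat.reduceAdd, single, Fin.isValue, Fin.rev, Fin.coe_ofNat_eq_mod, Nat.one_mod, Nat.reduceSub, Fin.reduceFinMk, Nat.zero_mod, zero_add, Nat.add_one_sub_one, pow_one, neg_neg, one_mul, transpose_mul, transpose_add, transpose_one, mul_apply, Matrix.add_apply, one_apply, of_apply, true_and, Fin.sum_univ_four, ↓ reduceIte, one_ne_zero, add_zero, Fin.reduceEq, false_and, mul_ite, mul_one, mul_zero, zero_ne_one, zero_mul, ite_self, transpose_apply, Finset.sum_ite_eq', Finset.mem_univ] at this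
    have z : F 1 3 = 0 := (lg 2).1 3 (by decide)
    linear_combination this - s * φ s * z
  have s1 := sh 1
  have s2 := sh (e ⟨0, 1⟩)
  rw [map_one] at s1
  rw [he, ← x6_i.2, map_neg] at s2
  have i0 : e ⟨0, 1⟩ ≠ 0 := fun q =>
    absurd (bij.1 (q.trans (map_zero e).symm)) (by decide +kernel)
  have f1 : F 1 2 = 0 := (mul_eq_zero.1 (by linear_combination s2 + e ⟨0, 1⟩ * s1 :
    2 * e ⟨0, 1⟩ * F 1 2 = 0)).resolve_left (mul_ne_zero h2 i0)
  have f2 : F 0 3 = 0 := by linear_combination s1 - f1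
  have f3 : F 2 1 + F 1 2 + F 2 2 = 0 := (lg 1).2
  have f4 : F 3 0 + F 0 3 + F 3 3 = 0 := (lg 0).2
  have z : ∀ i l, l ≠ i.rev → F i l = 0 := fun i l p => by simpa using (lg i.rev).1 l p
  rw [f1, z 2 2 (by decide)] at f3
  rw [f2, z 3 3 (by decide)] at f4
  refine n (Matrix.ext fun i j => ?_)
  by_cases p : j = i.rev
  · subst p
    fin_cases i
    exacts [f2, f1, by simpa using f3, by simpa using f4]
  · exact z i j p

theorem x6_det {g : GL (Fin 4) K} (h : g ∈ sug 3 φ) : g.1.det = 1 := by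
  refine slg_det ((Subgroup.closure_le _).2 ?_ h)
  rintro x ⟨i, j, -, hx⟩
  refine (Subgroup.closure_le _).2 ?_ hx
  rintro _ (⟨s, rfl⟩ | ⟨s, rfl⟩) <;> exact el_slg _ _ _

theorem x6_no3 (bij : Function.Bijective e) (he : ∀ z, φ (e z) = e (star z))
    (hφ : ∀ s, φ (φ s) = s) : No3 (sug 3 φ) := by
  intro a ha b hb c hc g hg g' hg' ⟨z, aa⟩ ⟨y, eb⟩ ⟨x, ec⟩ ⟨ζ, ab⟩ ne
  obtain ⟨h3, h2⟩ := x6_3 e
  have J0 : Jm 3 K ≠ 0 := fun q => by simpa [x6_J] using congrFun (congrFun q 0) 3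
  have fs : ∀ (w : K) (u : GL (Fin 4) K), u ∈ sug 3 φ →
      (w • u.1) * Jm 3 K * ((w • u.1).map φ)ᵀ = (w * φ w) • Jm 3 K := fun w u hu => by
    have : (w • u.1).map φ = φ w • u.1.map φ := by ext; simp
    rw [this, transpose_smul, Matrix.mul_smul, Matrix.smul_mul, Matrix.smul_mul, sug_fx hu,
      smul_smul, mul_comm]
  obtain ⟨w, w1, w2, w3⟩ : ∃ w : K, w * w * z = 1 ∧ w * φ w = 1 ∧ w ^ 4 = 1 := by
    have p := sug_fx (mul_mem ha ha)
    have q := fs z 1 (one_mem _)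
    rw [Fx, aa] at p
    rw [Units.val_one, p] at q
    obtain ⟨η, rfl⟩ := bij.2 z
    obtain ⟨v, -, v1, v2⟩ := x6_all (p := fun η => η * star η = 1 → ∃ v ∈ x6l9, v * v * η = 1 ∧
      (v * star v = 1 ∧ v * v * v * v = 1 ∨ v * star v = -1 ∧ v * v * v * v = -1))
      (by decide +kernel) η (bij.1 (by
        rw [map_mul, ← he, map_one]; exact smul_left_injective K J0 (by simpa using q.symm)))
    have u1 : e v * e v * e η = 1 := by simpa only [map_mul, map_one] using congrArg e v1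
    rcases v2 with ⟨v2, v3⟩ | ⟨v2, v3⟩
    · exact ⟨e v, u1, by simpa only [he, map_mul, map_one] using congrArg e v2, by simpa only [pow_succ, pow_zero, one_mul, map_mul, map_one] using congrArg e v3⟩
    · refine (x6_no bij he (x := e v • a.1) ?_ ?_ ?_).elim
      · rw [Matrix.smul_mul, Matrix.mul_smul, ← Units.val_mul, aa, smul_smul, smul_smul, u1, one_smul]
      · rw [det_smul, x6_det ha]; simpa only [Fintype.card_fin, pow_succ, pow_zero, one_mul, mul_one, map_mul, map_neg, map_one] using congrArg e v3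
      · rw [fs _ _ ha, he, ← map_mul, v2]; simp
  have A2 : ∀ u : GL (Fin 4) K, (w • (u * a * u⁻¹).1) * (w • (u * a * u⁻¹).1) = 1 := fun u => by
    rw [Matrix.smul_mul, Matrix.mul_smul, ← Units.val_mul,
      show u * a * u⁻¹ * (u * a * u⁻¹) = u * (a * a) * u⁻¹ by group, Units.val_mul, Units.val_mul,
      aa]
    simp only [Nat.reduceAdd, Algebra.mul_smul_comm, mul_one, coe_units_inv, Algebra.smul_mul_assoc, mul_inv_of_invertible, smul_smul, ← mul_assoc, w1, one_smul]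
  have Ad : ∀ u ∈ sug 3 φ, (w • u.1).det = 1 := fun u hu => by
    rw [det_smul, x6_det hu]; simpa only [Nat.reduceAdd, Fintype.card_fin, mul_one] using w3
  have At : ∀ u : GL (Fin 4) K, (w • (u * a * u⁻¹).1).trace = (w • a.1).trace := fun u => by
    rw [trace_smul, trace_smul, Units.val_mul, Units.val_mul, trace_mul_cycle]; simp only [coe_units_inv, inv_mul_of_invertible, one_mul, smul_eq_mul, Nat.reduceAdd]
  have Au : ∀ u ∈ sug 3 φ, (w • u.1) * Jm 3 K * ((w • u.1).map φ)ᵀ = Jm 3 K := fun u hu => by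
    rw [fs w u hu, w2, one_smul]
  have sc : ∀ {p q : GL (Fin 4) K} {t : K}, (p⁻¹ * q).1 = t • 1 → q.1 = t • p.1 := fun {p q t} h => by
    rw [show q = p * (p⁻¹ * q) by group, Units.val_mul, h]; simp
  have w0 : w ≠ 0 := fun q => by simp [q] at w2
  have nz : ∀ {q : GL (Fin 4) K} {t : K} {m : Matrix (Fin 4) (Fin 4) K}, q.1 = t • m → t ≠ 0 :=
    fun {q t m} h p => q.ne_zero (by simp [h, p])
  have mb : g * a * g⁻¹ ∈ sug 3 φ := mul_mem (mul_mem hg ha) (inv_mem hg)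
  have mc : g' * a * g'⁻¹ ∈ sug 3 φ := mul_mem (mul_mem hg' ha) (inv_mem hg')
  have A1 := A2 1
  simp only [one_mul, inv_one, mul_one] at A1
  have nab : ∀ t : K, (w • a.1) * (w • (g * a * g⁻¹).1) ≠ t • 1 := fun t q => by
    have y0 := nz (sc eb)
    have z0 := nz aa
    refine ne ⟨t * (w * w * y * z)⁻¹, ?_⟩
    rw [sc eb] at q
    simp only [Matrix.smul_mul, Matrix.mul_smul, smul_smul] at q
    have r : (a * b).1 = z • (a⁻¹ * b).1 := by
      rw [show a * b = a * a * (a⁻¹ * b) by group, Units.val_mul, aa]; simp only [Nat.reduceAdd, Units.val_mul, coe_units_inv, Algebra.smul_mul_assoc, one_mul]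
    rw [← Units.val_mul, r, smul_smul] at q
    refine smul_right_injective _ (mul_ne_zero (mul_ne_zero (mul_ne_zero w0 w0) y0) z0) ?_
    simp only [smul_smul]
    rw [mul_comm t, mul_inv_cancel_left₀ (by simp [w0, y0, z0]), ← q]
    congr 1; ring
  have ta : (w • a.1).trace = 0 := x6_tr h2 A1 (Ad a ha) fun t q => nab (t * t) (by
    have : w • (g * a * g⁻¹).1 = t • 1 := by
      rw [Units.val_mul, Units.val_mul, ← Matrix.smul_mul, ← Matrix.mul_smul, q]; simp only [Nat.reduceAdd, Algebra.mul_smul_comm, mul_one, coe_units_inv, Algebra.smul_mul_assoc, mul_inv_of_invertible]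
    rw [this, q]; simp only [Nat.reduceAdd, Algebra.mul_smul_comm, mul_one, smul_smul])
  have cm : (w • (g * a * g⁻¹).1) * (w • a.1) = ζ • ((w • a.1) * (w • (g * a * g⁻¹).1)) := by
    have := sc ab
    simp only [Units.val_mul] at this
    simp only [sc eb, Matrix.smul_mul, Matrix.mul_smul, this, smul_smul]
    congr 1; ring
  have key : x6I (w • a.1) (w • (g * a * g⁻¹).1) (w • (g' * a * g'⁻¹).1) := by
    have B2 := A2 g
    have C : w • (g' * a * g'⁻¹).1 = g'.1 * (w • a.1) * g'⁻¹.1 := by simp only [Nat.reduceAdd, Units.val_mul, coe_units_inv, Algebra.mul_smul_comm, Algebra.smul_mul_assoc]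
    have tb := (At g).trans ta
    have tc := (At g').trans ta
    have ua := Au a ha
    have ub := Au _ mb
    have dab : ((w • a.1) * (w • (g * a * g⁻¹).1)).det = 1 := by rw [det_mul, Ad a ha, Ad _ mb, one_mul]
    generalize w • a.1 = A at *
    generalize w • (g * a * g⁻¹).1 = B at *
    have z2 : ζ * ζ = 1 := by
      have p : A * B * A = ζ • B := by
        rw [Matrix.mul_assoc, cm, Matrix.mul_smul, ← Matrix.mul_assoc, A1, Matrix.one_mul]
      have q : A * B * A * (A * B * A) = 1 := by rw [x6_cj A1, B2, Matrix.mul_one, A1]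
      rw [p, Matrix.smul_mul, Matrix.mul_smul, B2, smul_smul] at q
      simpa only [Nat.reduceAdd, Fin.isValue, Matrix.smul_apply, one_apply_eq, smul_eq_mul, mul_one] using congrFun (congrFun q 0) 0
    rcases mul_self_eq_one_iff.1 z2 with rfl | rfl
    · rw [one_smul] at cm
      refine x6_comm bij he A1 B2 (A2 g') cm.symm ta tb (x6_tr h2 ?_ dab nab) tc ua ub (Au _ mc)
      rw [Matrix.mul_assoc, ← Matrix.mul_assoc B, cm, Matrix.mul_assoc A, B2, Matrix.mul_one, A1]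
    · rw [C]
      exact x6_anti h2 A1 B2 (by simpa only [Nat.reduceAdd, neg_smul, one_smul] using cm) (by simp only [Nat.reduceAdd, coe_units_inv, mul_inv_of_invertible])
  obtain ⟨F, n, Fa, Fb, Fc⟩ := key
  let H : Subgroup (GL (Fin 4) K) :=
    { carrier := {u | x6S F u.1}
      one_mem' := ⟨1, by simp⟩
      mul_mem' := fun {p q} ⟨l, hp⟩ ⟨m, hq⟩ => ⟨l * m, by
        calc _ = p.1 * (q.1 * F * q.1ᵀ) * p.1ᵀ := by simp [Matrix.mul_assoc]
          _ = _ := by rw [hq, Matrix.mul_smul, Matrix.smul_mul, hp, smul_smul, mul_comm]⟩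
      inv_mem' := fun {p} ⟨l, hp⟩ => ⟨l⁻¹, by
        have q : F = l • (p⁻¹.1 * F * p⁻¹.1ᵀ) := by
          rw [← Matrix.smul_mul, ← Matrix.mul_smul, ← hp]
          simp only [← Matrix.mul_assoc, Units.inv_mul, Matrix.one_mul]
          rw [Matrix.mul_assoc, ← transpose_mul, Units.inv_mul, transpose_one, Matrix.mul_one]
        have l0 : l ≠ 0 := fun r => n (by simpa only [r, coe_units_inv, zero_smul] using q)
        conv_rhs => rw [q, smul_smul, inv_mul_cancel₀ l0, one_smul]⟩ }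
  have bk : ∀ {u : GL (Fin 4) K} {t : K}, t ≠ 0 → x6S F (t • u.1) → u ∈ H := fun {u t} p q => by
    have := q.smul t⁻¹
    rwa [smul_smul, inv_mul_cancel₀ p, one_smul] at this
  refine ⟨H, fun u ⟨t, q⟩ => ⟨t * t, by simp only [q, Nat.reduceAdd, Algebra.smul_mul_assoc, one_mul, transpose_smul, transpose_one, Algebra.mul_smul_comm, mul_one, smul_smul]⟩, bk w0 Fa,
    bk (mul_ne_zero w0 (nz (sc eb))) (by rwa [sc eb, smul_smul] at Fb),
    bk (mul_ne_zero w0 (nz (sc ec))) (by rwa [sc ec, smul_smul] at Fc),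
    fun le => x6_noF bij he hφ n le⟩

/-- Matrices given by their digits in base nine. -/
def x6g (n i j : ℕ) : ℕ := (n.div (Nat.pow 9 ((Nat.mul 4 i).add j))).mod 9
def x6x (n : ℕ) : Matrix (Fin 4) (Fin 4) x6R := of fun i j => x6u (x6g n i j)
def x6c (M : Matrix (Fin 4) (Fin 4) x6R) : ℕ :=
  ((List.finRange 4).map fun i => ((List.finRange 4).map fun j =>
    x6e (M i j) * 9 ^ (4 * i.1 + j.1)).sum).sum
def x6p (a b c : ℕ) : Bool := [0, 1, 2, 3].all fun i => [0, 1, 2, 3].all fun j =>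
  (x6a (x6a (x6a (x6m (x6g a i 0) (x6g b 0 j)) (x6m (x6g a i 1) (x6g b 1 j)))
    (x6m (x6g a i 2) (x6g b 2 j))) (x6m (x6g a i 3) (x6g b 3 j))).beq (x6g c i j)

theorem x6_p {a b c : ℕ} (h : x6p a b c = true) : x6x a * x6x b = x6x c := Matrix.ext fun i j => by
  have u : ∀ n i j, x6g n i j = x6e (x6u (x6g n i j)) := fun n i j =>
    (by decide +kernel : ∀ k < 9, k = x6e (x6u k)) _ (Nat.mod_lt _ (by decide))
  simp only [x6p, List.all_eq_true, Nat.beq_eq] at h
  have := h i (by revert i; decide) j (by revert j; decide)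
  rw [u a i 0, u a i 1, u a i 2, u a i 3, u b 0 j, u b 1 j, u b 2 j, u b 3 j] at this
  simp only [(x6_e2 _ _).1, (x6_e2 _ _).2] at this
  rw [mul_apply, Fin.sum_univ_four]
  exact (x6_e1 _).2.1.symm.trans (congrArg x6u this)

def x6run : List ℕ → List (ℕ × ℕ × ℕ) → List ℕ
  | st, [] => st
  | st, (i, j, n) :: r =>
    if i ∈ st ∧ j ∈ st ∧ x6p i j n = true then x6run (n :: st) r else []

theorem x6_run {H : Subgroup (GL (Fin 4) K)} : ∀ (r : List (ℕ × ℕ × ℕ)) (st : List ℕ),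
    (∀ k ∈ st, ∃ g ∈ H, g.1 = (x6x k).map e) → ∀ k ∈ x6run st r, ∃ g ∈ H, g.1 = (x6x k).map e
  | [], _, h => h
  | (i, j, n) :: r, st, h => by
    rw [x6run]
    split_ifs with p
    · refine x6_run r _ (List.forall_mem_cons.2 ⟨?_, h⟩)
      obtain ⟨g, a, b⟩ := h i p.1
      obtain ⟨g', a', b'⟩ := h j p.2.1
      exact ⟨_, mul_mem a a', by rw [Units.val_mul, b, b', ← Matrix.map_mul, x6_p p.2.2]⟩
    · simp

def x6L (i : Fin 4) (z : x6R) : Matrix (Fin 4) (Fin 4) x6R := 1 + single i i.rev z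
def x6T (i j : Fin 4) (z : x6R) : Matrix (Fin 4) (Fin 4) x6R :=
  1 + single i j z + single j.rev i.rev (-(-1) ^ (i.1 + j.1) * star z)

theorem x6_el {i j : Fin 4} (h : i ≠ j) (z : x6R) : (el i j (e z)).1 = (1 + single i j z).map e := by
  rw [el_val h]
  ext k l
  simp [one_apply, single, apply_ite e]

theorem x6_T (he : ∀ z, φ (e z) = e (star z)) {i j : Fin 4} (h : i ≠ j) (h' : j ≠ j.rev) (z : x6R) :
    (el i j (e z) * el j.rev i.rev (-(-1) ^ ((i : ℕ) + j) * φ (e z))).1 = (x6T i j z).map e := by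
  rw [natb1_val h h', he]
  ext k l
  simp [x6T, one_apply, single, apply_ite e, add_assoc]

def x6s0 : List ℕ := [
    205894619469541, 205895393779078, 210978393641479, 274524996342349, 205894628504119,
    206082905295781, 205925999997718, 205894642853269]

def x6s1 : List ℕ := x6run x6s0 [
    (205894619469541, 205895393779078, 205895394251470),
    (205895394251470, 205894619469541, 205891907467069),
    (205891907467069, 205891907467069, 205898105781550),
    (210978393641479, 274524996342349, 280456059655171),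
    (280456059655171, 205894628504119, 554981068653769),
    (554981068653769, 206082905295781, 346643371451566)]

def x6s2 : List ℕ := x6run [205898105781550, 848454063930, 205960867900777, 205898139262657] [
    (205898105781550, 205960867900777, 205925999997718),
    (205925999997718, 205925999997718, 205957381057336),
    (848454063930, 205925999997718, 8474080246731),
    (8474080246731, 848454063930, 228771411399622),
    (228771411399622, 228771411399622, 251648203861144),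
    (205898105781550, 205898139262657, 205894642853269),
    (205894642853269, 205894642853269, 205894652419531),
    (205925999997718, 205894642853269, 205926023916532),
    (205926023916532, 205957381057336, 205894642853998),
    (205894642853998, 205894652419531, 205894618938829),
    (205925999997718, 251648203861144, 251676098136360),
    (251676098136360, 205925999997718, 45784965982662),
    (205957381057336, 228771411399622, 228830686734456),
    (228830686734456, 205957381057336, 22939554580758),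
    (45784965982662, 205894618938829, 45784975548600),
    (45784975548600, 22939554580758, 205894620000982),
    (205894620000982, 205894620000982, 205894619469541),
    (848454063930, 205894620000982, 869374770336), (869374770336, 848454063930, 205895006358589),
    (205895006358589, 205895006358589, 205895393779078),
    (205894619469541, 205895393779078, 205895394251470),
    (205895394251470, 205894619469541, 205891907467069),
    (205894620000982, 205895006358589, 205895007362422),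
    (205895007362422, 205894620000982, 205891520578021),
    (205891907467069, 205894642853269, 206111574884656),
    (206111574884656, 205891520578021, 206114286355399),
    (206114286355399, 206114286355399, 206051524236217),
    (206114286355399, 205925999997718, 206145667415017),
    (206114286355399, 205957381057336, 206082905295781),
    (206051524236217, 205925999997718, 205988762116981),
    (206051524236217, 205957381057336, 206020143176599),
    (848454063930, 206082905295781, 5932195286526),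
    (5932195286526, 848454063930, 274524996342349),
    (848454063930, 205988762116981, 3390324675228),
    (3390324675228, 848454063930, 343155373687549),
    (848454063930, 206114286355399, 13557821469327),
    (13557821469327, 848454063930, 297401788803871),
    (848454063930, 206020143176599, 11015950858029),
    (11015950858029, 848454063930, 366032166149071),
    (848454063930, 205957381057336, 16099663382811),
    (848454063930, 206145667415017, 21183404605407),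
    (21183404605407, 848454063930, 320278581265393),
    (848454063930, 206051524236217, 18641533994109),
    (18641533994109, 848454063930, 388908958610593),
    (205898105781550, 205898105781550, 205894618938100)]

/-- The matrix occurs in the list. -/
def x6in (l : List ℕ) (M : Matrix (Fin 4) (Fin 4) x6R) : Prop := x6c M ∈ l ∧ x6x (x6c M) = M

instance (l : List ℕ) (M : Matrix (Fin 4) (Fin 4) x6R) : Decidable (x6in l M) :=
  inferInstanceAs (Decidable (_ ∧ _))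

theorem x6_f : (∀ k ∈ x6s0, x6x k ∈ [x6L 1 1, x6L 2 (-1)] ∨ x6x k ∈ ([(2, 0, 1), (1, 0, ⟨0, -1⟩),
      (0, 2, 1), (0, 1, ⟨0, 1⟩), (0, 1, 1), (0, 2, ⟨1, 1⟩)].filter
        fun t => t.1 ≠ t.2.1 ∧ t.2.1 ≠ t.1.rev).map fun t => x6T t.1 t.2.1 t.2.2) ∧
    (∀ k ∈ [205898105781550, 346643371451566, 205925999997718, 205894642853269], k ∈ x6s1) ∧
    (∀ z ∈ x6l9, x6in x6s2 (x6T 0 1 z) ∧ x6in x6s2 (x6T 1 0 z) ∧
      (star z = z → x6in x6s2 (x6L 1 z) ∧ x6in x6s2 (x6L 2 z))) ∧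
    (∀ t ∈ [(205898105781550, 205898105781550, 205894618938100),
      (346643371451566, 205898105781550, 280552533738814), (848454063930, 346643371451566, 280552533738814),
      (205925999997718, 205898105781550, 205929486841177), (205960867900777, 205925999997718, 205929486841177),
      (205894642853269, 205898105781550, 205898129697043), (205898139262657, 205894642853269, 205898129697043),
      (205898105781550, 848454063930, 849614731074), (848454063930, 205898105781550, 849614731074)],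
      x6p t.1 t.2.1 t.2.2 = true) ∧ x6x 205894618938100 = 1 ∧ x6x 849614731074 0 3 ≠ 0 := by
  refine ⟨?_, ?_, ?_, ?_⟩ <;> decide +kernel

theorem tU43 [Finite K] (hφ : ∀ s, φ (φ s) = s) (ne : φ ≠ RingHom.id K) (h : Nat.card K = 9) :
    IsLeast {n | Good (chev (CartanMatrix.A 3) Fin.revPerm φ) n} 4 := by
  obtain ⟨e, bij, he⟩ := x6_iso ne h
  obtain ⟨f1, f2, f3, f0, fa, fb⟩ := x6_f
  simp only [List.forall_mem_cons] at f0
  obtain ⟨t1, t2, t3, t4, t5, t6, t7, t8, t9, -⟩ := f0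
  have f4 := (x6_p t1).trans fa
  have f5 := (x6_p t2).trans (x6_p t3).symm
  have f6 := (x6_p t4).trans (x6_p t5).symm
  have f7 := (x6_p t6).trans (x6_p t7).symm
  have f8 := (x6_p t8).trans (x6_p t9).symm
  have f9 := x6_p t8 ▸ fb
  have rv : ∀ i : Fin 4, i ≠ i.rev := by decide
  have k1 := fun k hk => x6_run (e := e) (H := sug 3 φ) _ _ (fun k hk => by
    have L : ∀ i z, star z = z → ∃ g ∈ sug 3 φ, g.1 = (x6L i z).map e := fun i z p =>
      ⟨_, rt_mem ((rt_long hφ (rv i) _).2 ⟨e z, by rw [he, p]; norm_num, rfl⟩), x6_el (rv i) z⟩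
    rcases f1 k hk with q | q
    · simp only [List.mem_cons, List.not_mem_nil, or_false] at q
      rcases q with q | q <;> rw [q] <;> exact L _ _ (by simp)
    · obtain ⟨⟨i, j, z⟩, p, q⟩ := List.mem_map.1 q
      have p := of_decide_eq_true (List.mem_filter.1 p).2
      exact ⟨_, rt_mem ((rt_short hφ p.1 p.2 (rv i) (rv j) _).2 ⟨e z, rfl⟩),
        by rw [← q, x6_T he p.1 (rv j)]⟩)
    k (f2 k hk)
  obtain ⟨a, ha, ea⟩ := k1 205898105781550 (by simp)
  obtain ⟨g, hg, eg⟩ := k1 346643371451566 (by simp)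
  obtain ⟨g1, h1, e1⟩ := k1 205925999997718 (by simp)
  obtain ⟨g2, h2, e2⟩ := k1 205894642853269 (by simp)
  have cj : ∀ {u : GL (Fin 4) K} {U B}, u.1 = U.map e → U * x6x 205898105781550 = B * U →
      (u * a * u⁻¹).1 = B.map e := fun {u U B} p q => by
    rw [Units.val_mul, Units.val_mul, ea, p, ← Matrix.map_mul, q, Matrix.map_mul, ← p]; simp only [coe_units_inv, mul_inv_cancel_right_of_invertible]
  have aa : a * a = 1 := Units.ext (by rw [Units.val_mul, ea, ← Matrix.map_mul, f4]; simp)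
  have m : ∀ u ∈ sug 3 φ, u * a * u⁻¹ ∈ sug 3 φ := fun u p => mul_mem (mul_mem p ha) (inv_mem p)
  refine fourSU (by decide) hφ (fun _ => ne) (x6_no3 bij he hφ) ha (m _ hg) (m _ h1) (m _ h2) hg h1
    h2 (aa ▸ sc_one) (sc_of_eq rfl) (sc_of_eq rfl) (sc_of_eq rfl) (sc_of_eq (Units.ext ?_))
    (fun ⟨z, p⟩ => f9 (bij.1 ?_)) fun H _ p1 p2 p3 p4 => ?_
  · rw [Units.val_mul, Units.val_mul _ a, cj eg f5, ea, ← Matrix.map_mul, ← Matrix.map_mul, f8]
  · rw [inv_eq_of_mul_eq_one_left aa, Units.val_mul, cj eg f5, ea, ← Matrix.map_mul] at p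
    simpa only [Fin.isValue, map_zero, map_apply, Nat.reduceAdd, Matrix.smul_apply, ne_eq, Fin.reduceEq, not_false_eq_true, one_apply_ne, smul_eq_mul, mul_zero] using congrFun (congrFun p 0) 3
  have k2 : ∀ k ∈ x6s2, ∃ g ∈ H, g.1 = (x6x k).map e := x6_run _ [205898105781550, 848454063930, 205960867900777, 205898139262657] (by
    simp only [List.forall_mem_cons]
    exact ⟨⟨_, p1, ea⟩, ⟨_, p2, cj eg f5⟩, ⟨_, p3, cj e1 f6⟩, ⟨_, p4, cj e2 f7⟩, by simp⟩)
  have fin : ∀ {u : GL (Fin 4) K} {M}, x6in x6s2 M → u.1 = M.map e → u ∈ H :=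
    fun {u M} ⟨hk, p⟩ q => by
      obtain ⟨v, a, b⟩ := k2 _ hk
      rwa [show u = v from Units.ext (by rw [b, p, q])]
  have sh : ∀ i j : Fin 4, i ≠ j → j ≠ i.rev → (∀ z, x6in x6s2 (x6T i j z)) →
      rt φ i j ⊆ H := fun i j p p' q u hu => by
    obtain ⟨s, rfl⟩ := (rt_short hφ p p' (rv i) (rv j) _).1 hu
    obtain ⟨z, rfl⟩ := bij.2 s
    exact fin (q z) (x6_T he p (rv j) z)
  have lg : ∀ i : Fin 4, (∀ z, star z = z → x6in x6s2 (x6L i z)) → rt φ i i.rev ⊆ H :=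
    fun i q u hu => by
      obtain ⟨s, p, rfl⟩ := (rt_long hφ (rv i) _).1 hu
      obtain ⟨z, rfl⟩ := bij.2 s
      exact fin (q z (bij.1 (by rw [← he, p]; norm_num))) (x6_el (rv i) z)
  have s1 := sh 0 1 (by decide) (by decide) fun z => (f3 z (x6_l9 z)).1
  have s2 := sh 1 0 (by decide) (by decide) fun z => (f3 z (x6_l9 z)).2.1
  intro i
  fin_cases i
  · exact ⟨s1, s2⟩
  · exact ⟨lg 1 fun z p => ((f3 z (x6_l9 z)).2.2 p).1, lg 2 fun z p => ((f3 z (x6_l9 z)).2.2 p).2⟩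
  · exact ⟨(rt_rev (φ := φ) (0 : Fin 4) 1).trans_subset s1,
      (rt_rev (φ := φ) (1 : Fin 4) 0).trans_subset s2⟩

end Pool.Agent.MP_c78e8e_al.H75

end

section

namespace Pool.Agent.MP_c78e8e_al.H75

open Subgroup Matrix

/-- Four by four matrices of natural numbers, for kernel computations. -/
structure X8M where
  (a0 a1 a2 a3 a4 a5 a6 a7 a8 a9 a10 a11 a12 a13 a14 a15 : ℕ)

def x8d (a b c d e f g h : ℕ) : ℕ :=
  Nat.add (Nat.add (Nat.mul a b) (Nat.mul c d)) (Nat.add (Nat.mul e f) (Nat.mul g h))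

def x8mul : X8M → X8M → X8M
  | ⟨a0, a1, a2, a3, a4, a5, a6, a7, a8, a9, a10, a11, a12, a13, a14, a15⟩,
    ⟨b0, b1, b2, b3, b4, b5, b6, b7, b8, b9, b10, b11, b12, b13, b14, b15⟩ =>
    ⟨x8d a0 b0 a1 b4 a2 b8 a3 b12, x8d a0 b1 a1 b5 a2 b9 a3 b13,
      x8d a0 b2 a1 b6 a2 b10 a3 b14, x8d a0 b3 a1 b7 a2 b11 a3 b15,
      x8d a4 b0 a5 b4 a6 b8 a7 b12, x8d a4 b1 a5 b5 a6 b9 a7 b13,
      x8d a4 b2 a5 b6 a6 b10 a7 b14, x8d a4 b3 a5 b7 a6 b11 a7 b15,
      x8d a8 b0 a9 b4 a10 b8 a11 b12, x8d a8 b1 a9 b5 a10 b9 a11 b13,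
      x8d a8 b2 a9 b6 a10 b10 a11 b14, x8d a8 b3 a9 b7 a10 b11 a11 b15,
      x8d a12 b0 a13 b4 a14 b8 a15 b12, x8d a12 b1 a13 b5 a14 b9 a15 b13,
      x8d a12 b2 a13 b6 a14 b10 a15 b14, x8d a12 b3 a13 b7 a14 b11 a15 b15⟩

def x8e (s a b : ℕ) : Bool := Nat.beq (Nat.mod (Nat.add a (Nat.mul s b)) 3) 0

def x8z (s : ℕ) : X8M → X8M → Bool
  | ⟨a0, a1, a2, a3, a4, a5, a6, a7, a8, a9, a10, a11, a12, a13, a14, a15⟩,
    ⟨b0, b1, b2, b3, b4, b5, b6, b7, b8, b9, b10, b11, b12, b13, b14, b15⟩ =>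
    x8e s a0 b0 && x8e s a1 b1 && x8e s a2 b2 && x8e s a3 b3 &&
    x8e s a4 b4 && x8e s a5 b5 && x8e s a6 b6 && x8e s a7 b7 &&
    x8e s a8 b8 && x8e s a9 b9 && x8e s a10 b10 && x8e s a11 b11 &&
    x8e s a12 b12 && x8e s a13 b13 && x8e s a14 b14 && x8e s a15 b15

def x8pm (A B : X8M) : Bool := x8z 2 A B || x8z 1 A B

def x8st : X8M → X8M
  | ⟨a0, a1, a2, a3, a4, a5, a6, a7, a8, a9, a10, a11, a12, a13, a14, a15⟩ =>
    ⟨a15, Nat.mul 2 a11, a7, Nat.mul 2 a3,
      Nat.mul 2 a14, a10, Nat.mul 2 a6, a2,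
      a13, Nat.mul 2 a9, a5, Nat.mul 2 a1,
      Nat.mul 2 a12, a8, Nat.mul 2 a4, a0⟩

def x8I : X8M := ⟨1, 0, 0, 0, 0, 1, 0, 0, 0, 0, 1, 0, 0, 0, 0, 1⟩

def x8sp (p q r s t u v w x y : ℕ) : X8M :=
  ⟨p, q, r, s, t, u, v, Nat.mul 2 r, w, x, Nat.mul 2 u, q, y, Nat.mul 2 w, t, Nat.mul 2 p⟩

def x8J : X8M := x8sp 0 0 0 1 0 0 2 0 1 2

def x8v (a b c d e : ℕ) : X8M :=
  ⟨a, b, c, 0, d, Nat.mul 2 a, 0, c, e, 0, Nat.mul 2 a, Nat.mul 2 b, 0, e, Nat.mul 2 d, a⟩

def x8f (n : ℕ) (k : ℕ → ℕ) : ℕ :=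
  Nat.casesOn (Nat.mod n 3) (k 0) fun m => Nat.casesOn m (k 1) fun _ => k 2

def x8c (a b c d e : ℕ) : ℕ := Nat.add (Nat.mod a 3) (Nat.mul 3 (Nat.add (Nat.mod b 3) (Nat.mul 3
  (Nat.add (Nat.mod c 3) (Nat.mul 3 (Nat.add (Nat.mod d 3) (Nat.mul 3 (Nat.mod e 3))))))))

def x8g (p q r t u v w x y f0 f1 f2 f3 g0 g1 g2 g3 : ℕ) : ℕ :=
  x8c (Nat.mul 2 (x8d f0 p f1 t f2 w f3 y)) (Nat.mul 2 (x8d f0 q f1 u f2 x f3 (Nat.mul 2 w)))
    (Nat.mul 2 (x8d f0 r f1 v f2 (Nat.mul 2 u) f3 t)) (x8d g0 r g1 v g2 (Nat.mul 2 u) g3 t)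
    (Nat.mul 2 (x8d g0 q g1 u g2 x g3 (Nat.mul 2 w)))

def x8img (p q r s t u v w x y n : ℕ) : ℕ :=
  x8f n fun a => x8f (Nat.div n 3) fun b => x8f (Nat.div n 9) fun c => x8f (Nat.div n 27) fun d =>
  x8f (Nat.div n 81) fun e => x8g p q r t u v w x y
    (x8d p a q d r e s 0) (x8d p b q (Nat.mul 2 a) r 0 s e)
    (x8d p c q 0 r (Nat.mul 2 a) s (Nat.mul 2 d)) (x8d p 0 q c r (Nat.mul 2 b) s a)
    (x8d y a (Nat.mul 2 w) d t e (Nat.mul 2 p) 0) (x8d y b (Nat.mul 2 w) (Nat.mul 2 a) t 0 (Nat.mul 2 p) e)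
    (x8d y c (Nat.mul 2 w) 0 t (Nat.mul 2 a) (Nat.mul 2 p) (Nat.mul 2 d)) (x8d y 0 (Nat.mul 2 w) c t (Nat.mul 2 b) (Nat.mul 2 p) a)

def x8neg (n : ℕ) : ℕ := x8c (2 * n) (2 * (n / 3)) (2 * (n / 9)) (2 * (n / 27)) (2 * (n / 81))

def x8fix (f : ℕ → ℕ) (O : List ℕ) : Bool :=
  O.all fun n => O.any fun m => Nat.beq (f n) m || Nat.beq (f n) (x8neg m)

def x8Ms : List (List (List ℕ)) :=
  [[[171], [57], [120], [210],
    [90, 30, 228, 156, 1], [117, 192, 93, 48, 1], [144, 111, 39, 183, 1]],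
   [[171], [57], [91], [181],
    [90, 30, 228, 156, 1], [30, 82, 10, 148, 124], [30, 163, 19, 238, 214]],
   [[171], [57], [31], [61],
    [90, 30, 228, 156, 1], [90, 28, 4, 202, 130], [90, 55, 7, 232, 160]],
   [[120], [210], [90, 30, 228, 156, 1], [90, 28, 4, 202, 130],
    [90, 55, 7, 232, 160], [30, 82, 10, 148, 124], [30, 163, 19, 238, 214]],
   [[91], [181], [90, 30, 228, 156, 1], [90, 28, 4, 202, 130],
    [90, 55, 7, 232, 160], [117, 192, 93, 48, 1], [144, 111, 39, 183, 1]],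
   [[31], [61], [90, 30, 228, 156, 1], [117, 192, 93, 48, 1],
    [144, 111, 39, 183, 1], [30, 82, 10, 148, 124], [30, 163, 19, 238, 214]]]

def x8P (v0 v1 v2 v3 w0 w1 w2 w3 : ℕ) : X8M → X8M
  | ⟨a0, a1, a2, a3, a4, a5, a6, a7, a8, a9, a10, a11, a12, a13, a14, a15⟩ =>
    ⟨v0, w0, x8d a0 w0 a1 w1 a2 w2 a3 w3, Nat.mul 2 (x8d a0 v0 a1 v1 a2 v2 a3 v3),
      v1, w1, x8d a4 w0 a5 w1 a6 w2 a7 w3, Nat.mul 2 (x8d a4 v0 a5 v1 a6 v2 a7 v3),
      v2, w2, x8d a8 w0 a9 w1 a10 w2 a11 w3, Nat.mul 2 (x8d a8 v0 a9 v1 a10 v2 a11 v3),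
      v3, w3, x8d a12 w0 a13 w1 a14 w2 a15 w3, Nat.mul 2 (x8d a12 v0 a13 v1 a14 v2 a15 v3)⟩

def x8r : List ℕ := [0, 1, 2]

def x8ok (a P : X8M) : Bool := x8z 2 (x8mul (x8st P) P) x8I && x8z 2 (x8mul a P) (x8mul P x8J)

def x8w (a b c d e f g h : ℕ) : ℕ := x8d a h (Nat.mul 2 b) g c f (Nat.mul 2 d) e

def x8N (a : X8M) : Bool :=
  x8r.any fun v0 => x8r.any fun v1 => x8r.any fun v2 => x8r.any fun v3 =>
    (fun Q : X8M => x8e 2 (x8w v0 v1 v2 v3 Q.a3 Q.a7 Q.a11 Q.a15) 1 &&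
    x8r.any fun w0 => x8r.any fun w1 => x8r.any fun w2 => x8r.any fun w3 =>
      x8e 0 (x8w v0 v1 v2 v3 w0 w1 w2 w3) 0 && x8e 0 (x8w Q.a3 Q.a7 Q.a11 Q.a15 w0 w1 w2 w3) 0 &&
      (fun P : X8M => x8e 1 (x8w w0 w1 w2 w3 P.a2 P.a6 P.a10 P.a14) 1 && x8ok a P)
        (x8P v0 v1 v2 v3 w0 w1 w2 w3 a)) (x8P v0 v1 v2 v3 0 0 0 0 a)

def x8B (b : X8M) (f : ℕ → ℕ) : Bool :=
  !x8pm (x8mul x8J b) (x8mul b x8J) || x8pm b x8J || x8Ms.any fun m => m.all (x8fix f)

def x8C (f : ℕ → ℕ) : Bool := x8Ms.all fun m => m.any (x8fix f)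

def x8all : Bool :=
  x8r.all fun p => x8r.all fun q => x8r.all fun t => x8r.all fun r => x8r.all fun w =>
  x8r.all fun s => x8r.all fun y => !x8e 1 (x8d p p q t r w s y) 1 ||
    x8r.all fun u => x8r.all fun x => !x8e 0 (x8d p q q u r x s (Nat.mul 2 w)) 0 ||
    (!x8e 0 (x8d w p x t (Nat.mul 2 u) w q y) 0 || x8r.all fun v =>
    !x8z 1 (x8mul (x8sp p q r s t u v w x y) (x8sp p q r s t u v w x y)) x8I ||
      (x8N (x8sp p q r s t u v w x y) && x8C (x8img p q r s t u v w x y) &&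
        x8B (x8sp p q r s t u v w x y) (x8img p q r s t u v w x y)))

theorem x8all_true : x8all = true := by decide +kernel

def x8u (n : ℕ) : X8M := x8v n (n / 3) (n / 9) (n / 27) (n / 81)

theorem x8ob : (x8Ms.all fun m => m.all fun O => x8fix (x8img 0 0 0 1 0 0 2 0 1 2) O &&
    (O.any fun n => !x8z 0 (x8u n) x8I) && O.all fun n => O.all fun k =>
      x8pm (x8mul (x8u n) (x8u k)) (x8mul (x8u k) (x8u n))) = true := by decide +kernel

def x8ev (T : Fin 4 → X8M) (w : List (Fin 4)) : X8M := w.foldr (fun i B => x8mul (T i) B) x8I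

def x8X : Fin 4 → X8M :=
  ![⟨1, 1, 0, 0, 0, 1, 0, 0, 0, 0, 1, 1, 0, 0, 0, 1⟩, ⟨1, 0, 0, 0, 0, 1, 1, 0, 0, 0, 1, 0, 0, 0, 0, 1⟩,
    ⟨1, 0, 0, 0, 1, 1, 0, 0, 0, 0, 1, 0, 0, 0, 1, 1⟩, ⟨1, 0, 0, 0, 0, 1, 0, 0, 0, 1, 1, 0, 0, 0, 0, 1⟩]

def x8cj (A X : X8M) : X8M := x8mul (x8mul A X) (x8st A)

theorem x8E : (x8r.all fun a => x8r.all fun b => x8r.all fun c => x8r.all fun d => x8r.all fun e =>
    x8z 0 (x8v a b c d e) x8I || [[0, 1], [0, 1, 1, 3], [2, 3, 2, 3], [1, 0, 1]].any fun w =>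
      !x8pm (x8mul (x8v a b c d e) (x8cj (x8ev x8X w) (x8v a b c d e)))
        (x8mul (x8cj (x8ev x8X w) (x8v a b c d e)) (x8v a b c d e))) = true := by decide +kernel

def x8G : Fin 4 → List (Fin 4) := ![[], [0], [3, 3, 1, 2], [0, 0, 2, 3]]

def x8T : Fin 4 → X8M :=
  ![⟨1, 1, 0, 0, 1, 2, 0, 0, 0, 0, 1, 1, 0, 0, 1, 2⟩, ⟨2, 1, 0, 0, 1, 1, 0, 0, 0, 0, 2, 1, 0, 0, 1, 1⟩,
    ⟨0, 0, 2, 0, 2, 0, 0, 1, 1, 0, 0, 0, 0, 2, 2, 0⟩, ⟨1, 2, 0, 0, 2, 2, 0, 0, 2, 0, 1, 2, 1, 1, 2, 2⟩]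

def x8W : Fin 4 → List (Fin 4) :=
  ![[0, 0, 2, 0, 2, 1, 2], [2, 0, 3, 2, 3, 1, 3, 2, 1, 2], [0, 2, 1, 2, 0, 2], [0, 2, 3, 1, 3, 2, 3, 1]]

theorem x8up : (∀ i, x8z 2 (x8mul (x8T i) (x8ev x8X (x8G i)))
      (x8mul (x8ev x8X (x8G i)) (x8ev x8X [2, 0])) = true ∧ x8z 2 (x8ev x8T (x8W i)) (x8X i) = true) ∧
    x8pm (x8mul (x8T 0) (x8T 0)) x8I = true ∧
    x8pm (x8mul (x8T 1) (x8T 0)) (x8mul (x8T 0) (x8T 1)) = true ∧
    x8pm (x8T 1) (x8T 0) = false := by decide +kernel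

variable {K : Type} [Field K]

def x8k (a0 a1 a2 a3 a4 a5 a6 a7 a8 a9 a10 a11 a12 a13 a14 a15 : K) : Matrix (Fin 4) (Fin 4) K :=
  !![a0, a1, a2, a3; a4, a5, a6, a7; a8, a9, a10, a11; a12, a13, a14, a15]

section
variable {a0 a1 a2 a3 a4 a5 a6 a7 a8 a9 a10 a11 a12 a13 a14 a15 : K}
  {b0 b1 b2 b3 b4 b5 b6 b7 b8 b9 b10 b11 b12 b13 b14 b15 : K}

omit [Field K] in
theorem x8k_ex (X : Matrix (Fin 4) (Fin 4) K) : ∃ a0 a1 a2 a3 a4 a5 a6 a7 a8 a9 a10 a11 a12 a13 a14 a15,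
    X = x8k a0 a1 a2 a3 a4 a5 a6 a7 a8 a9 a10 a11 a12 a13 a14 a15 :=
  ⟨X 0 0, X 0 1, X 0 2, X 0 3, X 1 0, X 1 1, X 1 2, X 1 3, X 2 0, X 2 1, X 2 2, X 2 3, X 3 0,
    X 3 1, X 3 2, X 3 3, by
    ext i j; fin_cases i <;> fin_cases j <;> rfl⟩

omit [Field K] in
theorem x8k_inj : x8k a0 a1 a2 a3 a4 a5 a6 a7 a8 a9 a10 a11 a12 a13 a14 a15 =
    x8k b0 b1 b2 b3 b4 b5 b6 b7 b8 b9 b10 b11 b12 b13 b14 b15 ↔
      a0 = b0 ∧ a1 = b1 ∧ a2 = b2 ∧ a3 = b3 ∧ a4 = b4 ∧ a5 = b5 ∧ a6 = b6 ∧ a7 = b7 ∧ a8 = b8 ∧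
      a9 = b9 ∧ a10 = b10 ∧ a11 = b11 ∧ a12 = b12 ∧ a13 = b13 ∧ a14 = b14 ∧ a15 = b15 := by
  simp [x8k, and_assoc]

theorem x8k_mul : x8k a0 a1 a2 a3 a4 a5 a6 a7 a8 a9 a10 a11 a12 a13 a14 a15 *
    x8k b0 b1 b2 b3 b4 b5 b6 b7 b8 b9 b10 b11 b12 b13 b14 b15 = x8k
      (a0 * b0 + a1 * b4 + a2 * b8 + a3 * b12) (a0 * b1 + a1 * b5 + a2 * b9 + a3 * b13)
      (a0 * b2 + a1 * b6 + a2 * b10 + a3 * b14) (a0 * b3 + a1 * b7 + a2 * b11 + a3 * b15)
      (a4 * b0 + a5 * b4 + a6 * b8 + a7 * b12) (a4 * b1 + a5 * b5 + a6 * b9 + a7 * b13)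
      (a4 * b2 + a5 * b6 + a6 * b10 + a7 * b14) (a4 * b3 + a5 * b7 + a6 * b11 + a7 * b15)
      (a8 * b0 + a9 * b4 + a10 * b8 + a11 * b12) (a8 * b1 + a9 * b5 + a10 * b9 + a11 * b13)
      (a8 * b2 + a9 * b6 + a10 * b10 + a11 * b14) (a8 * b3 + a9 * b7 + a10 * b11 + a11 * b15)
      (a12 * b0 + a13 * b4 + a14 * b8 + a15 * b12) (a12 * b1 + a13 * b5 + a14 * b9 + a15 * b13)
      (a12 * b2 + a13 * b6 + a14 * b10 + a15 * b14) (a12 * b3 + a13 * b7 + a14 * b11 + a15 * b15) := by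
  ext i j
  rw [Matrix.mul_apply, Fin.sum_univ_four]
  fin_cases i <;> fin_cases j <;> rfl

theorem x8k_add : x8k a0 a1 a2 a3 a4 a5 a6 a7 a8 a9 a10 a11 a12 a13 a14 a15 +
    x8k b0 b1 b2 b3 b4 b5 b6 b7 b8 b9 b10 b11 b12 b13 b14 b15 = x8k
      (a0 + b0) (a1 + b1) (a2 + b2) (a3 + b3) (a4 + b4) (a5 + b5) (a6 + b6) (a7 + b7) (a8 + b8)
      (a9 + b9) (a10 + b10) (a11 + b11) (a12 + b12) (a13 + b13) (a14 + b14) (a15 + b15) := by
  ext i j; fin_cases i <;> fin_cases j <;> rfl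

theorem x8k_smul : b0 • x8k a0 a1 a2 a3 a4 a5 a6 a7 a8 a9 a10 a11 a12 a13 a14 a15 = x8k
      (b0 * a0) (b0 * a1) (b0 * a2) (b0 * a3) (b0 * a4) (b0 * a5) (b0 * a6) (b0 * a7) (b0 * a8)
      (b0 * a9) (b0 * a10) (b0 * a11) (b0 * a12) (b0 * a13) (b0 * a14) (b0 * a15) := by
  ext i j; fin_cases i <;> fin_cases j <;> rfl

theorem x8k_neg : -x8k a0 a1 a2 a3 a4 a5 a6 a7 a8 a9 a10 a11 a12 a13 a14 a15 = x8k
      (-a0) (-a1) (-a2) (-a3) (-a4) (-a5) (-a6) (-a7) (-a8) (-a9) (-a10) (-a11) (-a12) (-a13)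
      (-a14) (-a15) := by
  ext i j; fin_cases i <;> fin_cases j <;> rfl

omit [Field K] in
theorem x8k_t : (x8k a0 a1 a2 a3 a4 a5 a6 a7 a8 a9 a10 a11 a12 a13 a14 a15)ᵀ =
    x8k a0 a4 a8 a12 a1 a5 a9 a13 a2 a6 a10 a14 a3 a7 a11 a15 := by
  ext i j; fin_cases i <;> fin_cases j <;> simp [x8k]

theorem x8k_tr : trace (x8k a0 a1 a2 a3 a4 a5 a6 a7 a8 a9 a10 a11 a12 a13 a14 a15) = a0 + a5 + a10 + a15 := by
  rw [trace, Fin.sum_univ_four]; rfl

theorem x8k_one : (1 : Matrix (Fin 4) (Fin 4) K) = x8k 1 0 0 0 0 1 0 0 0 0 1 0 0 0 0 1 := by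
  ext i j; fin_cases i <;> fin_cases j <;> rfl

theorem x8k_zero : (0 : Matrix (Fin 4) (Fin 4) K) = x8k 0 0 0 0 0 0 0 0 0 0 0 0 0 0 0 0 := by
  ext i j; fin_cases i <;> fin_cases j <;> rfl

variable (K) in
def x8j : Matrix (Fin 4) (Fin 4) K := x8k 0 0 0 1 0 0 (-1) 0 0 1 0 0 (-1) 0 0 0

def x8s (X : Matrix (Fin 4) (Fin 4) K) : Matrix (Fin 4) (Fin 4) K := -(x8j K * Xᵀ * x8j K)

theorem x8s_eq : x8s (x8k a0 a1 a2 a3 a4 a5 a6 a7 a8 a9 a10 a11 a12 a13 a14 a15) = x8k
      a15 (-a11) a7 (-a3) (-a14) a10 (-a6) a2 a13 (-a9) a5 (-a1) (-a12) a8 (-a4) a0 := by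
  simp [x8s, x8j, x8k_t, x8k_mul, x8k_neg]

end

variable (K) in
def x8m (A : X8M) : Matrix (Fin 4) (Fin 4) K :=
  x8k A.a0 A.a1 A.a2 A.a3 A.a4 A.a5 A.a6 A.a7 A.a8 A.a9 A.a10 A.a11 A.a12 A.a13 A.a14 A.a15

theorem x8m_mul (A B : X8M) : x8m K (x8mul A B) = x8m K A * x8m K B := by
  cases A; cases B
  simp only [x8m, x8mul, x8d, x8k_mul, Nat.add_eq, Nat.mul_eq, Nat.cast_add, Nat.cast_mul, add_assoc]

theorem x8m_I : x8m K x8I = 1 := by simp only [x8m, x8I, Nat.cast_one, Nat.cast_zero, x8k_one]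

theorem x8J_eq : Jm 3 K = x8j K := by
  ext i j
  fin_cases i <;> fin_cases j <;> first | rfl | simp only [Jm, Nat.reduceAdd, Fin.zero_eta, Fin.isValue, Fin.reduceFinMk, of_apply, Fin.rev_zero, Fin.reduceLast, ↓ reduceIte, Fin.coe_ofNat_eq_mod, Nat.zero_mod, pow_zero, x8j, x8k, cons_val', cons_val, cons_val_fin_one, cons_val_zero, Fin.mk_one, Fin.reduceRev, Nat.one_mod, pow_one, cons_val_one, Nat.reduceMod, even_two, Even.neg_pow, one_pow, Nat.mod_succ]
  norm_num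

theorem x8JJ : x8j K * x8j K = -1 := by simp [x8j, x8k_mul, x8k_one, x8k_neg]

theorem x8s_mul (X Y : Matrix (Fin 4) (Fin 4) K) : x8s (X * Y) = x8s Y * x8s X := by
  have : x8j K * Yᵀ * x8j K * (x8j K * Xᵀ * x8j K) =
      x8j K * Yᵀ * (x8j K * x8j K) * Xᵀ * x8j K := by simp only [Matrix.mul_assoc]
  rw [x8s, x8s, x8s, neg_mul_neg, this, x8JJ]
  simp [Matrix.mul_assoc]

theorem x8s_s (X : Matrix (Fin 4) (Fin 4) K) : x8s (x8s X) = X := by
  obtain ⟨_, _, _, _, _, _, _, _, _, _, _, _, _, _, _, _, rfl⟩ := x8k_ex X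
  simp only [x8s_eq, neg_neg]

theorem x8s_neg (X : Matrix (Fin 4) (Fin 4) K) : x8s (-X) = -x8s X := by simp [x8s]

theorem x8s_fx {g : GL (Fin 4) K} (h : Fx (r := 3) (RingHom.id K) g) : g.1 * x8s g.1 = 1 := by
  have e : g.1 * x8j K * g.1ᵀ = x8j K := x8J_eq (K := K) ▸ h
  have : g.1 * (x8j K * g.1ᵀ * x8j K) = g.1 * x8j K * g.1ᵀ * x8j K := by
    simp only [Matrix.mul_assoc]
  rw [x8s, Matrix.mul_neg, this, e, x8JJ, neg_neg]

def x8V (a b c d e : K) : Matrix (Fin 4) (Fin 4) K :=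
  x8k a b c 0 d (-a) 0 c e 0 (-a) (-b) 0 e (-d) a

def X8pm (X Y : Matrix (Fin 4) (Fin 4) K) : Prop := X = Y ∨ X = -Y

def X8inv (O : Set (Matrix (Fin 4) (Fin 4) K)) (g : Matrix (Fin 4) (Fin 4) K) : Prop :=
  ∀ X ∈ O, ∃ Y ∈ O, X8pm (g * X) (Y * g)

def X8ob (O : Set (Matrix (Fin 4) (Fin 4) K)) : Prop :=
  (∃ X ∈ O, x8s X = X ∧ trace X = 0 ∧ X ≠ 0) ∧ ∀ X ∈ O, ∀ Y ∈ O, X8pm (X * Y) (Y * X)

theorem x8V_s (a b c d e : K) : x8s (x8V a b c d e) = x8V a b c d e := by
  simp only [x8s_eq, x8V, neg_neg, neg_zero]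

theorem x8V_tr (a b c d e : K) : trace (x8V a b c d e) = 0 := by
  simp [x8k_tr, x8V]

variable [CharP K 3]

theorem x8two : (2 : K) = -1 := by
  have : ((3 : ℕ) : K) = 0 := CharP.cast_eq_zero K 3
  push_cast at this
  linear_combination this

theorem x8e_iff (s a b : ℕ) : x8e s a b = true ↔ (a : K) + s * b = 0 := by
  rw [← Nat.cast_mul, ← Nat.cast_add, CharP.cast_eq_zero_iff K 3, Nat.dvd_iff_mod_eq_zero, x8e,
    Nat.beq_eq]
  rfl

theorem x8z_iff (s : ℕ) (A B : X8M) : x8z s A B = true ↔ x8m K A + (s : K) • x8m K B = 0 := by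
  cases A; cases B
  simp only [x8z, Bool.and_eq_true, x8e_iff (K := K), x8m, x8k_smul, x8k_add, x8k_zero, x8k_inj,
    and_assoc]

theorem x8z2 (A B : X8M) : x8z 2 A B = true ↔ x8m K A = x8m K B := by
  rw [x8z_iff (K := K), Nat.cast_ofNat, x8two, neg_one_smul, add_neg_eq_zero]

theorem x8z1 (A B : X8M) : x8z 1 A B = true ↔ x8m K A = -x8m K B := by
  rw [x8z_iff (K := K), Nat.cast_one, one_smul, add_eq_zero_iff_eq_neg]

theorem x8z0 (A B : X8M) : x8z 0 A B = true ↔ x8m K A = 0 := by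
  rw [x8z_iff (K := K), Nat.cast_zero, zero_smul, add_zero]

theorem x8pm_iff (A B : X8M) : x8pm A B = true ↔ X8pm (x8m K A) (x8m K B) := by
  rw [x8pm, Bool.or_eq_true, x8z2 (K := K), x8z1 (K := K), X8pm]

theorem x8m_st (A : X8M) : x8m K (x8st A) = x8s (x8m K A) := by
  cases A
  simp only [x8m, x8st, Nat.mul_eq, Nat.cast_mul, Nat.cast_ofNat, x8two, neg_mul, one_mul, x8s_eq]

theorem x8m_v (a b c d e : ℕ) : x8m K (x8v a b c d e) = x8V (a : K) b c d e := by
  simp [x8m, x8v, x8V, x8two]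

theorem x8m_sp (p q r s t u v w x y : ℕ) : x8m K (x8sp p q r s t u v w x y) =
    x8k (p : K) q r s t u v (-r) w x (-u) q y (-w) t (-p) := by
  simp [x8m, x8sp, x8two]

theorem x8V_k {a0 a1 a2 a3 a4 a5 a6 a7 a8 a9 a10 a11 a12 a13 a14 a15 : K} {X : Matrix (Fin 4) (Fin 4) K}
    (e : X = x8k a0 a1 a2 a3 a4 a5 a6 a7 a8 a9 a10 a11 a12 a13 a14 a15) (h : x8s X = X)
    (t : trace X = 0) : X = x8V a0 a1 a2 (-a14) a13 := by
  have w := x8two (K := K)
  subst e
  rw [x8s_eq, x8k_inj] at h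
  rw [x8k_tr] at t
  rw [x8V, x8k_inj]
  grind

theorem x8V_ex {X : Matrix (Fin 4) (Fin 4) K} (h : x8s X = X) (t : trace X = 0) :
    ∃ a b c d e, X = x8V a b c d e := by
  obtain ⟨_, _, _, _, _, _, _, _, _, _, _, _, _, _, _, _, e⟩ := x8k_ex X
  exact ⟨_, _, _, _, _, x8V_k e h t⟩

theorem x8u_c (a b c d e : ℕ) : x8m K (x8u (x8c a b c d e)) = x8V (a : K) b c d e := by
  have k : ∀ m n : ℕ, m % 3 = n % 3 → (m : K) = n := fun m n h => by
    rw [CharP.cast_eq_mod K 3 m, h, ← CharP.cast_eq_mod]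
  have z : x8c a b c d e = a % 3 + 3 * (b % 3 + 3 * (c % 3 + 3 * (d % 3 + 3 * (e % 3)))) := rfl
  rw [x8u, x8m_v, z]
  congr 1 <;> apply k <;> omega

omit [Field K] [CharP K 3] in
theorem x8f_eq (n : ℕ) (k : ℕ → ℕ) : x8f n k = k (n % 3) := by
  have : n % 3 = 0 ∨ n % 3 = 1 ∨ n % 3 = 2 := by omega
  have e : Nat.mod n 3 = n % 3 := rfl
  rcases this with h | h | h <;> rw [x8f, e, h] <;> rfl

theorem x8img_eq (p q r s t u v w x y n : ℕ) {c : Matrix (Fin 4) (Fin 4) K}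
    (hc : c = x8m K (x8sp p q r s t u v w x y)) (cc : c * c = -1) :
    x8m K (x8u (x8img p q r s t u v w x y n)) = -(c * x8m K (x8u n) * c) := by
  have sc : x8s c = -c := by
    rw [hc, x8m_sp]; simp only [x8s_eq, x8k_neg, neg_neg]
  have e : ∀ m k : ℕ, Nat.div m k = m / k := fun _ _ => rfl
  rw [x8V_k (X := -(c * x8m K (x8u n) * c))
    (by rw [hc, x8m_sp, x8u, x8m_v, x8V, x8k_mul, x8k_mul, x8k_neg]), x8img]
  · simp only [x8f_eq, x8g, x8u_c, e, x8d, Nat.add_eq, Nat.mul_eq, Nat.cast_add, Nat.cast_mul,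
      Nat.cast_ofNat, x8two, ← CharP.cast_eq_mod K 3, Nat.cast_zero]
    congr 1 <;> ring
  · rw [x8u, x8m_v, x8s_neg, x8s_mul, x8s_mul, x8V_s, sc]; simp only [mul_neg, neg_mul, neg_neg, Matrix.mul_assoc]
  · rw [trace_neg, trace_mul_cycle, cc, x8u, x8m_v]; simp only [neg_mul, one_mul, trace_neg, x8V_tr, neg_zero]

variable (K) in
def x8O (L : List ℕ) : Set (Matrix (Fin 4) (Fin 4) K) := {X | ∃ n ∈ L, X = x8m K (x8u n)}

theorem x8fix_inv {p q r s t u v w x y : ℕ} {c : Matrix (Fin 4) (Fin 4) K}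
    (hc : c = x8m K (x8sp p q r s t u v w x y)) (cc : c * c = -1) {L : List ℕ}
    (h : x8fix (x8img p q r s t u v w x y) L = true) : X8inv (x8O K L) c := by
  rintro _ ⟨n, hn, rfl⟩
  simp only [x8fix, List.all_eq_true, List.any_eq_true, Bool.or_eq_true, Nat.beq_eq] at h
  obtain ⟨m, hm, e⟩ := h n hn
  have k := congrArg (· * c) (x8img_eq p q r s t u v w x y n hc cc)
  simp only [Matrix.neg_mul, Matrix.mul_assoc, cc, Matrix.mul_neg, Matrix.mul_one, neg_neg] at k
  refine ⟨_, ⟨m, hm, rfl⟩, e.imp (fun e => by rw [← k, e]) fun e => ?_⟩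
  rw [← k, e, ← Matrix.neg_mul, x8neg, x8u_c, x8u, x8m_v]
  congr 1
  simp only [x8V, Nat.cast_mul, Nat.cast_ofNat, x8two, neg_mul, one_mul, neg_neg, x8k_neg, neg_zero]

theorem x8chk (hK : ∀ x : K, ∃ n ∈ x8r, x = n) {a : Matrix (Fin 4) (Fin 4) K} (sa : x8s a = -a)
    (aa : a * a = -1) : (∃ P, x8s P * P = 1 ∧ a * P = P * x8j K) ∧
      (∀ m ∈ x8Ms, ∃ L ∈ m, X8inv (x8O K L) a) ∧ (X8pm (x8j K * a) (a * x8j K) → ¬ X8pm a (x8j K) →
        ∃ m ∈ x8Ms, ∀ L ∈ m, X8inv (x8O K L) a) := by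
  have w2 := x8two (K := K)
  obtain ⟨a0, a1, a2, a3, a4, a5, a6, a7, a8, a9, a10, a11, a12, a13, a14, a15, rfl⟩ := x8k_ex a
  obtain ⟨p, hp, rfl⟩ := hK a0
  obtain ⟨q, hq, rfl⟩ := hK a1
  obtain ⟨r, hr, rfl⟩ := hK a2
  obtain ⟨s, hs, rfl⟩ := hK a3
  obtain ⟨t, ht, rfl⟩ := hK a4
  obtain ⟨u, hu, rfl⟩ := hK a5
  obtain ⟨v, hv, rfl⟩ := hK a6
  obtain ⟨w, hw, rfl⟩ := hK a8
  obtain ⟨x, hx, rfl⟩ := hK a9
  obtain ⟨y, hy, rfl⟩ := hK a12
  rw [x8s_eq, x8k_neg, x8k_inj] at sa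
  generalize hc : x8k (p : K) q r s t u v a7 w x a10 a11 y a13 a14 a15 = a at *
  replace hc : a = x8m K (x8sp p q r s t u v w x y) := by
    rw [← hc, x8m_sp, x8k_inj]
    grind
  have J : x8m K x8J = x8j K := by rw [x8J, x8m_sp]; simp [x8j, x8two]
  have k := aa
  rw [hc, x8m_sp, x8k_mul, x8k_one, x8k_neg, x8k_inj] at k
  obtain ⟨k0, k1, -, -, -, -, -, -, k2, -⟩ := k
  have h := x8all_true
  simp only [x8all, List.all_eq_true, Bool.or_eq_true, Bool.not_eq_true', Bool.and_eq_true,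
    ← Bool.not_eq_true, ← imp_iff_not_or, x8e_iff (K := K), x8z1 (K := K)] at h
  obtain ⟨⟨hN, hC⟩, hB⟩ := h p hp q hq t ht r hr w hw s hs y hy
    (by simp only [x8d, Nat.mul_eq, Nat.add_eq, Nat.cast_add, Nat.cast_mul, Nat.cast_one, mul_one]; linear_combination k0) u hu x hx (by simp only [x8d, Nat.mul_eq, Nat.add_eq, Nat.cast_add, Nat.cast_mul, Nat.cast_ofNat, x8two, neg_mul, one_mul, mul_neg, Nat.cast_zero, mul_zero, add_zero]; linear_combination k1)
    (by simp only [x8d, Nat.mul_eq, Nat.add_eq, Nat.cast_add, Nat.cast_mul, Nat.cast_ofNat, x8two, neg_mul, one_mul, Nat.cast_zero, mul_zero, add_zero]; linear_combination k2) v hv (by rw [x8m_mul, ← hc, aa, x8m_I])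
  refine ⟨?_, fun m hm => ?_, fun c n => ?_⟩
  · simp only [x8N, List.any_eq_true, Bool.and_eq_true, x8ok, x8z2 (K := K), x8m_mul, x8m_st, x8m_I,
      J, ← hc] at hN
    obtain ⟨_, -, _, -, _, -, _, -, -, _, -, _, -, _, -, _, -, -, -, e⟩ := hN
    exact ⟨_, e⟩
  · simp only [x8C, List.any_eq_true, List.all_eq_true] at hC
    exact (hC m hm).imp fun L h => ⟨h.1, x8fix_inv hc aa h.2⟩
  · simp only [x8B, List.any_eq_true, List.all_eq_true, Bool.or_eq_true, Bool.not_eq_true',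
      ← Bool.not_eq_true, x8pm_iff (K := K), x8m_mul, J, ← hc, c, n, not_true, false_or] at hB
    exact hB.imp fun m h => ⟨h.1, fun L hL => x8fix_inv hc aa (h.2 L hL)⟩

theorem x8neg_case (hK : ∀ x : K, ∃ n ∈ x8r, x = n) {a b c : Matrix (Fin 4) (Fin 4) K}
    (sa : x8s a = -a) (aa : a * a = -1) (sb : x8s b = -b) (bb : b * b = -1) (sc : x8s c = -c)
    (cc : c * c = -1) (ab : X8pm (a * b) (b * a)) (ne : ¬ X8pm b a) :
    ∃ O, X8ob O ∧ X8inv O a ∧ X8inv O b ∧ X8inv O c := by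
  obtain ⟨P, p1, pa⟩ := (x8chk hK sa aa).1
  have p2 := mul_eq_one_comm.1 p1
  have q1 : ∀ X : Matrix (Fin 4) (Fin 4) K, x8s P * (P * X) = X := fun X => by
    rw [← Matrix.mul_assoc, p1, Matrix.one_mul]
  have q2 : ∀ X : Matrix (Fin 4) (Fin 4) K, P * (x8s P * X) = X := fun X => by
    rw [← Matrix.mul_assoc, p2, Matrix.one_mul]
  have ea : x8j K = x8s P * a * P := by rw [Matrix.mul_assoc, pa, q1]
  have s1 : ∀ {b : Matrix (Fin 4) (Fin 4) K}, x8s b = -b → x8s (x8s P * b * P) = -(x8s P * b * P) :=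
    fun h => by simp [x8s_mul, x8s_s, h, Matrix.mul_assoc]
  have s2 : ∀ {b : Matrix (Fin 4) (Fin 4) K}, b * b = -1 → x8s P * b * P * (x8s P * b * P) = -1 :=
    fun {b} h => by
      simp only [Matrix.mul_assoc, q2]
      simp [← Matrix.mul_assoc b, h, p1]
  have cj : ∀ {X Y : Matrix (Fin 4) (Fin 4) K} (A B : Matrix (Fin 4) (Fin 4) K), X8pm X Y →
      X8pm (A * X * B) (A * Y * B) := fun A B h => h.imp (fun e => by rw [e]) fun e => by simp [e]
  obtain ⟨m, hm, hb⟩ := (x8chk hK (s1 sb) (s2 bb)).2.2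
    (by simpa [ea, Matrix.mul_assoc, q2] using cj (x8s P) P ab)
    fun e => ne (by simpa [ea, Matrix.mul_assoc, q2, p2] using cj P (x8s P) e)
  obtain ⟨L, hL, hc⟩ := (x8chk hK (s1 sc) (s2 cc)).2.1 m hm
  have h := x8ob
  simp only [List.all_eq_true, List.any_eq_true, Bool.and_eq_true, Bool.not_eq_true',
    ← Bool.not_eq_true, x8z0 (K := K), x8pm_iff (K := K), x8m_mul] at h
  obtain ⟨⟨ha, n, hn, n0⟩, pm⟩ := h m hm L hL
  have tr : ∀ {b : Matrix (Fin 4) (Fin 4) K}, X8inv (x8O K L) (x8s P * b * P) →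
      X8inv ((fun X => P * X * x8s P) '' x8O K L) b := by
    rintro b h _ ⟨X, hX, rfl⟩
    obtain ⟨Y, hY, e⟩ := h X hX
    exact ⟨_, ⟨Y, hY, rfl⟩, by simpa [Matrix.mul_assoc, q1, q2, p2] using cj P (x8s P) e⟩
  refine ⟨(fun X => P * X * x8s P) '' x8O K L, ⟨⟨_, ⟨_, ⟨n, hn, rfl⟩, rfl⟩, ?_, ?_, fun e => n0 ?_⟩, ?_⟩,
    tr ?_, tr (hb L hL), tr hc⟩
  · simp only [x8u, x8m_v, Matrix.mul_assoc, x8s_mul, x8s_s, x8V_s]
  · rw [trace_mul_cycle, p1, Matrix.one_mul, x8u, x8m_v, x8V_tr]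
  · simpa [Matrix.mul_assoc, q1, p1] using congrArg (x8s P * · * P) e
  · rintro _ ⟨_, ⟨n, hn, rfl⟩, rfl⟩ _ ⟨_, ⟨k, hk, rfl⟩, rfl⟩
    simpa [Matrix.mul_assoc, q1] using cj P (x8s P) (pm n hn k hk)
  · rw [← ea]
    exact x8fix_inv (by rw [x8m_sp]; simp [x8j, x8two]) x8JJ ha

theorem x8lin {a : Matrix (Fin 4) (Fin 4) K} (sa : x8s a = a) (aa : a * a = 1) :
    ∃ l : Fin 5 → K, ∀ x : Fin 5 → K, l ⬝ᵥ x = 0 →
      X8pm (a * x8V (x 0) (x 1) (x 2) (x 3) (x 4)) (x8V (x 0) (x 1) (x 2) (x 3) (x 4) * a) := by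
  by_cases t : trace a = 0
  · obtain ⟨a0, a1, a2, a3, a4, rfl⟩ := x8V_ex sa t
    refine ⟨![2 * a0, a3, a4, a1, a2], fun x h => Or.inr ?_⟩
    simp only [dotProduct, Fin.sum_univ_five, Fin.isValue, cons_val_zero, cons_val_one, cons_val] at h
    simp only [x8V, x8k_mul, x8k_neg, x8k_inj]
    refine ⟨?_, ?_, ?_, ?_, ?_, ?_, ?_, ?_, ?_, ?_, ?_, ?_, ?_, ?_, ?_, ?_⟩ <;>
      first | ring1 | linear_combination h
  · have w := x8two (K := K)
    obtain ⟨a0, a1, a2, a3, a4, a5, a6, a7, a8, a9, a10, a11, a12, a13, a14, a15, rfl⟩ := x8k_ex a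
    rw [x8s_eq, x8k_inj] at sa
    rw [x8k_mul, x8k_one, x8k_inj] at aa
    rw [x8k_tr] at t
    obtain ⟨rfl, rfl, rfl, h3, rfl, rfl, h6, -, rfl, h9, -, -, h12, -⟩ := sa
    obtain rfl : a3 = 0 := by linear_combination h3 + a3 * w
    obtain rfl : a6 = 0 := by linear_combination h6 + a6 * w
    obtain rfl : a9 = 0 := by linear_combination h9 + a9 * w
    obtain rfl : a12 = 0 := by linear_combination h12 + a12 * w
    obtain ⟨k0, k1, k2, -, k4, k5, -, -, k8, -⟩ := aa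
    have e : a15 + a10 ≠ 0 := fun e => t (by linear_combination 2 * e)
    obtain rfl : a11 = 0 := mul_left_cancel₀ e (by linear_combination -k1)
    obtain rfl : a7 = 0 := mul_left_cancel₀ e (by linear_combination k2)
    obtain rfl : a14 = 0 := mul_left_cancel₀ e (by linear_combination -k4)
    obtain rfl : a13 = 0 := mul_left_cancel₀ e (by linear_combination k8)
    obtain rfl : a10 = a15 := mul_left_cancel₀ e (by linear_combination k5 - k0)
    refine ⟨0, fun x _ => Or.inl ?_⟩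
    simp [x8V, x8k_mul, mul_comm]

theorem x8pos_case {a b c : Matrix (Fin 4) (Fin 4) K} (sa : x8s a = a) (aa : a * a = 1)
    (sb : x8s b = b) (bb : b * b = 1) (sc : x8s c = c) (cc : c * c = 1) :
    ∃ O, X8ob O ∧ X8inv O a ∧ X8inv O b ∧ X8inv O c := by
  obtain ⟨l1, h1⟩ := x8lin sa aa
  obtain ⟨l2, h2⟩ := x8lin sb bb
  obtain ⟨l3, h3⟩ := x8lin sc cc
  obtain ⟨x, hx, x0⟩ := Submodule.exists_mem_ne_zero_of_ne_bot (LinearMap.ker_ne_bot_of_finrank_lt
    (f := (Matrix.of ![l1, l2, l3]).mulVecLin) (by simp))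
  have k := congrFun (LinearMap.mem_ker.1 hx)
  refine ⟨{x8V (x 0) (x 1) (x 2) (x 3) (x 4)}, ⟨⟨_, rfl, x8V_s .., x8V_tr .., fun e => x0 ?_⟩, ?_⟩,
    ?_, ?_, ?_⟩
  · simp [x8V, x8k_zero, x8k_inj] at e
    ext i
    fin_cases i <;> simp [e]
  · rintro _ rfl _ rfl; exact Or.inl rfl
  · rintro _ rfl; exact ⟨_, rfl, h1 x (k 0)⟩
  · rintro _ rfl; exact ⟨_, rfl, h2 x (k 1)⟩
  · rintro _ rfl; exact ⟨_, rfl, h3 x (k 2)⟩

omit [CharP K 3] in
theorem x8ev_val {t : Fin 4 → GL (Fin 4) K} {T : Fin 4 → X8M} (h : ∀ i, (t i).1 = x8m K (T i))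
    (w : List (Fin 4)) : (w.map t).prod.1 = x8m K (x8ev T w) := by
  induction w with
  | nil => exact x8m_I.symm
  | cons i w ih => rw [List.map_cons, List.prod_cons, Units.val_mul, ih, h, ← x8m_mul]; rfl

variable (K) in
def x8x : Fin 4 → GL (Fin 4) K :=
  ![el 0 1 1 * el 2 3 1, el 1 2 1, el 1 0 1 * el 3 2 1, el 2 1 1]

omit [CharP K 3] in
theorem x8x_val (i : Fin 4) : (x8x K i).1 = x8m K (x8X i) := by
  have s : ∀ i j : Fin 4, i ≠ j → (el (r := 3) i j (1 : K)).1 =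
      x8k 1 0 0 0 0 1 0 0 0 0 1 0 0 0 0 1 + of fun k l => if i = k ∧ j = l then 1 else 0 :=
    fun _ _ h => by rw [← x8k_one]; exact el_val h 1
  have e : ∀ f : Fin 4 → Fin 4 → K, of f = x8k (f 0 0) (f 0 1) (f 0 2) (f 0 3) (f 1 0) (f 1 1) (f 1 2)
      (f 1 3) (f 2 0) (f 2 1) (f 2 2) (f 2 3) (f 3 0) (f 3 1) (f 3 2) (f 3 3) := fun f => by
    ext i j; fin_cases i <;> fin_cases j <;> rfl
  fin_cases i <;> simp only [x8x, Nat.reduceAdd, Fin.isValue, Fin.zero_eta, cons_val_zero, Units.val_mul, ne_eq, zero_ne_one, not_false_eq_true, s, e, one_ne_zero, and_false, ↓ reduceIte, and_self, Fin.reduceEq, and_true, x8k_add, add_zero, zero_add, x8k_mul, mul_one, mul_zero, x8m, x8X, Nat.cast_one, Nat.cast_zero, Fin.mk_one, cons_val_one, Fin.reduceFinMk, cons_val]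

omit [CharP K 3] in
theorem x8x_mem (w : List (Fin 4)) : (w.map (x8x K)).prod ∈ sug 3 (RingHom.id K) := by
  refine list_prod_mem fun g hg => ?_
  obtain ⟨i, -, rfl⟩ := List.mem_map.1 hg
  fin_cases i
  · exact rt_mem ((rt_short (i := 0) (j := 1) (fun _ => rfl) (by decide) (by decide) (by decide)
      (by decide) _).2 ⟨1, by simp [x8x]⟩)
  · exact rt_mem ((rt_long (i := 1) (fun _ => rfl) (by decide) _).2 ⟨1, by norm_num, rfl⟩)
  · exact rt_mem ((rt_short (i := 1) (j := 0) (fun _ => rfl) (by decide) (by decide) (by decide)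
      (by decide) _).2 ⟨1, by simp [x8x]⟩)
  · exact rt_mem ((rt_long (i := 2) (fun _ => rfl) (by decide) _).2 ⟨1, by norm_num, rfl⟩)

theorem x8sc (hK : ∀ x : K, ∃ n ∈ x8r, x = n) {u v : GL (Fin 4) K} :
    Sc (r := 3) (u⁻¹ * v) ↔ X8pm v.1 u.1 := by
  constructor
  · rintro ⟨z, e⟩
    have e' : v.1 = z • u.1 := by
      rw [← Matrix.mul_one u.1, ← Matrix.mul_smul, ← e, ← Units.val_mul, mul_inv_cancel_left]
    obtain ⟨n, hn, rfl⟩ := hK z
    simp only [x8r, List.mem_cons, List.not_mem_nil, or_false] at hn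
    rcases hn with rfl | rfl | rfl
    · simp at e'
    · exact Or.inl (by simpa using e')
    · exact Or.inr (by simpa [x8two] using e')
  · rintro (e | e)
    · exact ⟨1, by rw [Units.val_mul, e]; simp only [Nat.reduceAdd, coe_units_inv, inv_mul_of_invertible, one_smul]⟩
    · exact ⟨-1, by rw [Units.val_mul, e]; simp only [Nat.reduceAdd, coe_units_inv, mul_neg, inv_mul_of_invertible, neg_smul, one_smul]⟩

omit [CharP K 3] in
theorem X8pm.mul {A B X Y : Matrix (Fin 4) (Fin 4) K} (h : X8pm A B) (k : X8pm X Y) :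
    X8pm (A * X) (B * Y) := by
  rcases h with rfl | rfl <;> rcases k with rfl | rfl <;> simp only [X8pm, true_or, mul_neg, or_true, neg_mul, neg_neg]

omit [CharP K 3] in
theorem X8pm.trans {A B C : Matrix (Fin 4) (Fin 4) K} (h : X8pm A B) (k : X8pm B C) : X8pm A C := by
  rcases h with rfl | rfl <;> rcases k with rfl | rfl <;> simp [X8pm]

omit [CharP K 3] in
theorem X8pm.symm {A B : Matrix (Fin 4) (Fin 4) K} (h : X8pm A B) : X8pm B A := by
  rcases h with rfl | rfl <;> simp [X8pm]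

/-- The stabiliser of a set of matrices up to sign. -/
def x8H (O : Set (Matrix (Fin 4) (Fin 4) K)) : Subgroup (GL (Fin 4) K) where
  carrier := {g | X8inv O g.1 ∧ X8inv O g⁻¹.1}
  one_mem' := ⟨fun X h => ⟨X, h, Or.inl (by simp)⟩, fun X h => ⟨X, h, Or.inl (by simp)⟩⟩
  inv_mem' h := ⟨h.2, h.1⟩
  mul_mem' := by
    have k : ∀ {g h : GL (Fin 4) K}, X8inv O g.1 → X8inv O h.1 → X8inv O (g * h).1 := by
      intro g h p q X hX
      obtain ⟨Y, hY, e⟩ := q X hX
      obtain ⟨Z, hZ, f⟩ := p Y hY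
      refine ⟨Z, hZ, ?_⟩
      have e1 := X8pm.mul (Or.inl (rfl : g.1 = g.1)) e
      have f1 := f.mul (Or.inl (rfl : h.1 = h.1))
      simp only [Units.val_mul, Matrix.mul_assoc] at *
      exact e1.trans f1
    exact fun {_ _} p q => ⟨k p.1 q.1, by rw [_root_.mul_inv_rev]; exact k q.2 p.2⟩

theorem x8no (hK : ∀ x : K, ∃ n ∈ x8r, x = n) : No3 (sug 3 (RingHom.id K)) := by
  intro a ha b hb c hc g _ g' _ aa eb ec ab ne
  rw [x8sc hK] at eb ec ab ne
  have aa := (x8sc hK (u := 1)).1 (by simpa using aa)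
  have sq : ∀ {b g : GL (Fin 4) K}, X8pm (g * a * g⁻¹).1 b.1 → b.1 * b.1 = a.1 * a.1 := fun {b g} e => by
    have : b.1 * b.1 = (g * (a * a) * g⁻¹).1 := by
      rw [← conj_mul, Units.val_mul (g * a * g⁻¹)]
      rcases e with e | e <;> simp only [e, neg_mul_neg]
    rw [this, Units.val_mul, Units.val_mul g, ← Units.val_mul a]
    rcases aa with e | e <;> simp only [Nat.reduceAdd, e, Units.val_one, mul_one, coe_units_inv, mul_inv_of_invertible, mul_neg, neg_mul]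
  have st : ∀ {b : GL (Fin 4) K}, b ∈ sug 3 (RingHom.id K) → ∀ X, b.1 * X = 1 → x8s b.1 = X :=
    fun {b} h X e => (Units.mul_right_inj b).1 ((x8s_fx (sug_fx h)).trans e.symm)
  obtain ⟨O, ⟨⟨X, hX, sX, tX, X0⟩, pm⟩, ia, ib, ic⟩ : ∃ O, X8ob O ∧ X8inv O a.1 ∧ X8inv O b.1 ∧
      X8inv O c.1 := by
    rcases aa with e | e
    · have e : a.1 * a.1 = 1 := e
      have e1 := (sq eb).trans e
      have e2 := (sq ec).trans e
      exact x8pos_case (st ha _ e) e (st hb _ e1) e1 (st hc _ e2) e2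
    · have e : a.1 * a.1 = -1 := e
      have e1 := (sq eb).trans e
      have e2 := (sq ec).trans e
      exact x8neg_case hK (st ha _ (by simp [e])) e (st hb _ (by simp [e1])) e1
        (st hc _ (by simp [e2])) e2 ab.symm ne
  have mem : ∀ {b : GL (Fin 4) K}, b.1 * b.1 = a.1 * a.1 → X8inv O b.1 → b ∈ x8H O := fun {b} e i => by
    refine ⟨i, fun X h => (i X h).imp fun Y k => ⟨k.1, ?_⟩⟩
    have : X8pm b⁻¹.1 b.1 := by
      simpa only [coe_units_inv, mul_one, ← Matrix.mul_assoc, inv_mul_of_invertible, one_mul] using (X8pm.mul (Or.inl (rfl : b⁻¹.1 = b⁻¹.1))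
        (show X8pm (b.1 * b.1) 1 from e ▸ aa)).symm
    exact (this.mul (Or.inl rfl)).trans (k.2.trans (X8pm.mul (Or.inl rfl) this.symm))
  refine ⟨x8H O, fun z hz => ?_, mem rfl ia, mem (sq eb) ib, mem (sq ec) ic, fun le => X0 ?_⟩
  · obtain ⟨y, e⟩ := hz
    have k : ∀ X, Commute z.1 X := fun X => by simp [e, Commute, SemiconjBy]
    exact ⟨fun X h => ⟨X, h, Or.inl (k X)⟩, fun X h => ⟨X, h, Or.inl (k X).units_inv_left⟩⟩
  · obtain ⟨y0, y1, y2, y3, y4, e⟩ := x8V_ex sX tX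
    obtain ⟨x0, h0, rfl⟩ := hK y0
    obtain ⟨x1, h1, rfl⟩ := hK y1
    obtain ⟨x2, h2, rfl⟩ := hK y2
    obtain ⟨x3, h3, rfl⟩ := hK y3
    obtain ⟨x4, h4, rfl⟩ := hK y4
    rw [← x8m_v] at e
    have h := x8E
    simp only [List.all_eq_true, List.any_eq_true, Bool.or_eq_true, Bool.not_eq_true',
      ← Bool.not_eq_true, x8z0 (K := K), x8pm_iff (K := K), x8m_mul, x8cj, x8m_st,
      ← x8ev_val x8x_val] at h
    refine e.trans ((h x0 h0 x1 h1 x2 h2 x3 h3 x4 h4).resolve_right ?_)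
    rintro ⟨w, -, n⟩
    obtain ⟨Y, hY, f⟩ := (le (x8x_mem w)).1 X hX
    have f := f.mul (Or.inl (rfl : x8s (w.map (x8x K)).prod.1 = _))
    rw [Matrix.mul_assoc Y, x8s_fx (sug_fx (x8x_mem w)), Matrix.mul_one] at f
    rw [← e] at n
    exact n ((X8pm.mul (Or.inl rfl) f).trans ((pm X hX Y hY).trans (f.symm.mul (Or.inl rfl))))

omit [CharP K 3] in
theorem tS43 [Finite K] (h : Nat.card K = 3) :
    IsLeast {n | Good (chev (CartanMatrix.A 3) Fin.revPerm (RingHom.id K)) n} 4 := by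
  have := Fintype.ofFinite K
  rw [Nat.card_eq_fintype_card] at h
  have : CharP K 3 := (CharP.charP_iff_prime_eq_zero Nat.prime_three).2 (h ▸ Nat.cast_card_eq_zero K)
  have hK : ∀ x : K, ∃ n ∈ x8r, x = n := fun x => by
    have e := FiniteField.pow_card x
    have : x * ((x - 1) * (x - 2)) = 0 := by
      rw [x8two, h] at *
      linear_combination e
    simpa only [x8r, List.mem_cons, List.not_mem_nil, or_false, exists_eq_or_imp, Nat.cast_zero, Nat.cast_one, ↓ existsAndEq, Nat.cast_ofNat, true_and, mul_eq_zero, sub_eq_zero] using this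
  obtain ⟨u1, u2, u3, u4⟩ := x8up
  set g := fun i => ((x8G i).map (x8x K)).prod with hg
  set a := ([2, 0].map (x8x K)).prod with ha
  have tv : ∀ i, (g i * a * (g i)⁻¹).1 = x8m K (x8T i) := fun i => by
    have e := (x8z2 (K := K) _ _).1 (u1 i).1
    rw [x8m_mul, x8m_mul, ← x8ev_val x8x_val, ← x8ev_val x8x_val] at e
    rw [Units.val_mul, Units.mul_inv_eq_iff_eq_mul, e, Units.val_mul]
  have tm : ∀ i, g i * a * (g i)⁻¹ ∈ sug 3 (RingHom.id K) := fun i =>
    mul_mem (mul_mem (x8x_mem _) (x8x_mem _)) (inv_mem (x8x_mem _))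
  have t0 : g 0 * a * (g 0)⁻¹ = a := by simp [hg, x8G]
  have cj : ∀ u : GL (Fin 4) K, Sc (r := 3) (u⁻¹ * u) := fun u => (x8sc hK).2 (Or.inl rfl)
  rw [x8pm_iff (K := K), x8m_mul] at u2 u3
  rw [← Bool.not_eq_true, x8pm_iff (K := K)] at u4
  rw [x8m_mul] at u3
  simp only [← tv, t0, x8m_I] at u2 u3 u4
  refine fourSU (by norm_num) (fun _ => rfl) (fun h => absurd h (by decide)) (x8no hK)
    (show a ∈ _ from x8x_mem [2, 0]) (tm 1) (tm 2)
    (tm 3) (x8x_mem _) (x8x_mem _) (x8x_mem _) (by simpa using (x8sc hK (u := 1) (v := a * a)).2 u2)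
    (cj _) (cj _) (cj _) ((x8sc hK).2 u3) (mt (x8sc hK).1 u4) fun H _ h0 h1 h2 h3 => ?_
  have xm : ∀ i, x8x K i ∈ H := fun i => by
    have e := (x8z2 (K := K) _ _).1 (u1 i).2
    rw [← x8ev_val tv, ← x8x_val] at e
    rw [← Units.ext e]
    refine list_prod_mem fun g hg => ?_
    obtain ⟨j, -, rfl⟩ := List.mem_map.1 hg
    fin_cases j
    exacts [t0.symm ▸ h0, h1, h2, h3]
  have pw : ∀ (i j : Fin 4) (n : ℕ), el (r := 3) i j (n : K) = el i j 1 ^ n := fun i j n => by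
    induction n with
    | zero => simp
    | succ n ih => rw [Nat.cast_succ, el_add, ih, pow_succ]
  have sh : ∀ i j : Fin 4, i ≠ j → j ≠ i.rev → i ≠ i.rev → j ≠ j.rev → Odd (i.1 + j.1) →
      el (r := 3) i j (1 : K) * el j.rev i.rev 1 ∈ H → rt (r := 3) (RingHom.id K) i j ⊆ H := by
    intro i j p1 p2 p3 p4 p5 m u hu
    obtain ⟨s, rfl⟩ := (rt_short (fun _ => rfl) p1 p2 p3 p4 u).1 hu
    obtain ⟨n, -, rfl⟩ := hK s
    rw [p5.neg_one_pow, neg_neg, one_mul, RingHom.id_apply, pw, pw,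
      ← (el_comm p4 p3.symm _ _).mul_pow]
    exact pow_mem m n
  have lg : ∀ i : Fin 4, i ≠ i.rev → el (r := 3) i i.rev (1 : K) ∈ H →
      rt (r := 3) (RingHom.id K) i i.rev ⊆ H := by
    intro i p m u hu
    obtain ⟨s, -, rfl⟩ := (rt_long (fun _ => rfl) p u).1 hu
    obtain ⟨n, -, rfl⟩ := hK s
    rw [pw]
    exact pow_mem m n
  have s0 := sh 0 1 (by decide) (by decide) (by decide) (by decide) (by decide) (xm 0)
  have s1 := sh 1 0 (by decide) (by decide) (by decide) (by decide) (by decide) (xm 2)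
  intro i
  fin_cases i
  exacts [⟨s0, s1⟩, ⟨lg 1 (by decide) (xm 1), lg 2 (by decide) (xm 3)⟩,
    ⟨(rt_rev 0 1).le.trans s0, (rt_rev 1 0).le.trans s1⟩]

end Pool.Agent.MP_c78e8e_al.H75

end
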