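import Pool.Agent.MP_c78e8e_al.Mg.Sg_X4
import Pool.Agent.MP_c78e8e_al.Mg.Sg_Mon
import Pool.Agent.MP_c78e8e_al.Sg.Sl2

attribute [-instance] instNoNatZeroDivisorsOfIsAddTorsionFree instCharZeroOfIsSemireal
  SemilatticeInf.toPartialOrder MonTypeEquivalenceMon.monMonoid IdemSemiring.toSemiring
  DistribMulActionSemiHomClass.toAddMonoidHomClass RKHS.instFunLike RCLike.charZero_rclike
  littleWedderburn FloorSemiring.instCharZero AlgHom.instNonUnitalAlgHomClassOfAlgHomClass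
  ContinuousSemilinearMapClass.toSemilinearMapClass NumberField.to_charZero
  UniformSpace.toTopologicalSpace Order.Coframe.toCompleteLattice NormedCommRing.toCommRing
  CoalgHomClass.toSemilinearMapClass SemilatticeSup.toPartialOrder BooleanRing.toRing
  instNonUnitalAlgHomClassOfNonUnitalAlgEquivClass CompletelyDistribLattice.toCompleteLattice
  NormedRing.toRing GrpTypeEquivalenceGrp.grpGroup OmegaCompletePartialOrder.toPartialOrder
  NormedField.toField IsStrictOrderedRing.toCharZero SeminormedCommRing.toCommRing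
  LieRing.toAddCommGroup IsMulCommutative.is_comm Std.PreorderPackage.toLE
  Order.Frame.toCompleteLattice MonoidWithZero.toMulZeroOneClass
  ChainCompletePartialOrder.toPartialOrder NonUnitalRing.toNonUnitalNonAssocRing
  ConditionallyCompleteLinearOrderBot.toConditionallyCompleteLinearOrder EuclideanDomain.toCommRing
  BialgHomClass.toMonoidHomClass AlgHomClass.toRingHomClass SeminormedRing.toRing
  LieAdmissibleRing.toNonUnitalNonAssocRing DivisionRing.toRatAlgebra
  SemilinearEquivClass.instSemilinearMapClass CompleteSemilatticeInf.toPartialOrder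
  AddCommGroupWithOne.toAddGroupWithOne Algebra.IsFiniteSplit.instFree
  SubsemiringClass.toSubmonoidClass CompleteSemilatticeSup.toPartialOrder
  ConditionallyCompletePartialOrderInf.toPartialOrder NonAssocCommSemiring.toNonAssocSemiring
  TestFunctionClass.toDFunLike SemilinearIsometryClass.toSemilinearMapClass
  ContDiffMapSupportedInClass.toDFunLike IsStrictOrderedRing.noZeroDivisors
  CommGrpTypeEquivalenceCommGrp.commGrpCommGroup CommMonTypeEquivalenceCommMon.commMonCommMonoid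
  LinearOrderedAddCommMonoidWithTop.toAddCommMonoid CompleteLinearOrder.toCompleteLattice
  NonUnitalAlgHomClass.instLinearMapClass Std.PreorderPackage.toLT AddQuantale.instAddRightMono
  Std.LinearPreorderPackage.toIsLinearPreorder BooleanRing.toCommRing
  RingHomClass.toLinearMapClassNNRat Group.IsPerfect.subsingleton_of_isMulCommutative
  IdemCommSemiring.toCommSemiring ValuationClass.toMonoidWithZeroHomClass
  instCommGroupOfIsSimpleGroupOfIsNilpotent NonUnitalSemiring.toNonUnitalNonAssocSemiring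
  NonUnitalNormedCommRing.toNonUnitalCommRing
  NonUnitalAlgHomClass.instSemilinearMapClassOfNonUnitalAlgSemiHomClassToMonoidHomRingHom
  NormedAddTorsor.toAddTorsor NonUnitalNormedRing.toNormedAddCommGroup
  RingHomClass.toLinearMapClassRat NonAssocRing.toNonAssocSemiring CompleteLattice.toPartialOrder'
  CategoryTheory.Limits.Concrete.instUniqueToTypeTerminal
  NonUnitalSeminormedCommRing.toNonUnitalCommRing NumberField.instFiniteDimensional
  NormedDivisionRing.toDivisionRing NormedAlgebra.toAlgebra AlgHomClass.linearMapClass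
  LinearOrder.toPartialOrder instConditionallyCompletePartialOrderSup
  LinearOrderedAddCommGroupWithTop.toAddCommMonoid MulCharClass.toMonoidHomClass CharP.ofCharZero
  instCoeTOfCoeDep MulDistribMulActionSemiHomClass.toMonoidHomClass
  NonUnitalNonAssocCommSemiring.toNonUnitalNonAssocSemiring
  LinearOrderedCommGroupWithZero.toCommGroupWithZero RightPreLieRing.toNonUnitalNonAssocRing
  BooleanRing.instIdempotentOpHMul IsFormallyReal.instIsReduced
  LeftPreLieRing.toNonUnitalNonAssocRing CategoryTheory.FinCategory.fintypeObj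
  AddCommMonoidWithOne.toAddCommMonoid NonAssocRing.toNonUnitalNonAssocRing NeZero.of_gt'
  ContinuousMonoidHom.instCoeOutOfMonoidHomClassOfContinuousMapClass
  LinearOrderedAddCommGroupWithTop.toSubNegMonoid RingConeClass.toSubsemiringClass
  IsDomain.toNontrivial GroupWithZero.toDivisionMonoid LinearOrder.toDecidableEq
  CommRing.toGrindCommRing NonUnitalAlgSemiHomClass.toMulHomClass instCoeTCOfCoe
  SeminormedCommGroup.toCommGroup Unique.instSubsingleton Infinite.instNontrivial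
  AddSubgroupClass.toAddSubmonoidClass GroupConeClass.toSubmonoidClass
  NonAssocCommRing.toNonUnitalNonAssocCommRing
  ContinuousAddMonoidHom.instCoeOutOfAddMonoidHomClassOfContinuousMapClass
  NonUnitalAlgHomClass.toNonUnitalRingHomClass instNontrivialOfCharZero
  MulSemiringActionSemiHomClass.toRingHomClass FunLike.toDecidableEq

section

namespace Pool.Agent.MP_c78e8e_al.H75

open Matrix Finset

/-- A bimultiplicative sign on an elementary abelian two-group, with nondegenerate commutator. -/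
structure X7c {V : Type} [AddCommGroup V] (χ : V → V → ℚ) : Prop where
  l : ∀ u u' v, χ (u + u') v = χ u v * χ u' v
  r : ∀ u v v', χ u (v + v') = χ u v * χ u v'
  sq : ∀ u v, χ u v * χ u v = 1
  two : ∀ v : V, v + v = 0
  nd : ∀ w, w ≠ 0 → ∃ x, χ x w * χ w x = -1

/-- Self-adjoint additive maps of square zero. -/
structure X7a {V : Type} [AddCommGroup V] (χ : V → V → ℚ) (α : V →+ V) : Prop where
  sq : ∀ x, α (α x) = 0
  sa : ∀ x y, χ (α x) y = χ x (α y)

variable {V : Type} [AddCommGroup V] [Fintype V] [DecidableEq V] {χ : V → V → ℚ} {α β γ : V →+ V}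

/-- Left multiplications of the twisted group algebra. -/
def x7E (χ : V → V → ℚ) (v : V) : Matrix V V ℚ := of fun z x => if z = v + x then χ v x else 0

/-- The operator of the involution `1 + α`. -/
def x7W (χ : V → V → ℚ) (α : V →+ V) : Matrix V V ℚ := ∑ x, χ (α x) x • x7E χ (α x)

namespace X7c

omit [Fintype V] [DecidableEq V] in
theorem zl (c : X7c χ) (v : V) : χ 0 v = 1 := by rw [← c.sq 0 v, ← c.l, add_zero]

omit [Fintype V] [DecidableEq V] in
theorem zr (c : X7c χ) (v : V) : χ v 0 = 1 := by rw [← c.sq v 0, ← c.r, add_zero]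

omit [Fintype V] [DecidableEq V] in
theorem can (c : X7c χ) (x y : V) : x + y + y = x := by rw [add_assoc, c.two, add_zero]

omit [Fintype V] [DecidableEq V] in
theorem eqz (c : X7c χ) {x y : V} : x + y = 0 ↔ x = y :=
  ⟨fun h => by rw [← c.can x y, h, zero_add], fun h => h ▸ c.two x⟩

omit [DecidableEq V] in
theorem shift (f : V → ℚ) (y : V) : ∑ x, f (x + y) = ∑ x, f x := Equiv.sum_comp (Equiv.addRight y) f

theorem csum (c : X7c χ) (w : V) :
    ∑ x, χ x w * χ w x = if w = 0 then (Fintype.card V : ℚ) else 0 := by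
  split_ifs with h
  · simp only [h, c.zr, c.zl, mul_one, sum_const, card_univ, nsmul_eq_mul]
  · obtain ⟨y, hy⟩ := c.nd w h
    have := shift (fun x => χ x w * χ w x) y
    simp only [c.l, c.r] at this
    have e : ∑ x, χ x w * χ y w * (χ w x * χ w y) = -∑ x, χ x w * χ w x := by
      rw [← sum_neg_distrib]
      exact sum_congr rfl fun x _ => by linear_combination (χ x w * χ w x) * hy
    linarith

theorem iso (c : X7c χ) (S : Finset V) (h : ∀ s ∈ S, ∀ t ∈ S, χ s t = 1) :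
    (S.card : ℚ) ^ 3 ≤ S.card * Fintype.card V := by
  have e : ∑ x, (∑ s ∈ S, χ x s * χ s x) ^ 2 = S.card * Fintype.card V := by
    simp only [pow_two, sum_mul_sum]
    rw [sum_comm]
    rw [sum_congr rfl fun s hs => (show ∑ x, ∑ t ∈ S, χ x s * χ s x * (χ x t * χ t x) =
      (Fintype.card V : ℚ) by
        rw [sum_comm, sum_congr rfl fun t _ => (show ∑ x, χ x s * χ s x * (χ x t * χ t x) =
          if s = t then (Fintype.card V : ℚ) else 0 by
            rw [← if_congr c.eqz rfl rfl, ← c.csum]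
            exact sum_congr rfl fun x _ => by rw [c.l, c.r]; ring)]
        simp [hs])]
    simp
  rw [← e]
  refine le_trans (le_of_eq ?_) (sum_le_sum_of_subset_of_nonneg (subset_univ S)
    fun _ _ _ => sq_nonneg _)
  rw [sum_congr rfl fun x hx => (show (∑ s ∈ S, χ x s * χ s x) ^ 2 = (S.card : ℚ) ^ 2 by
    rw [sum_congr rfl fun s hs => (show χ x s * χ s x = 1 by rw [h x hx s hs, h s hs x hx, one_mul])]
    simp)]
  simp [pow_succ']

theorem mul (c : X7c χ) (u v : V) : x7E χ u * x7E χ v = χ u v • x7E χ (u + v) := by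
  ext z x
  rw [mul_apply, sum_eq_single (v + x) (fun y _ h => by simp [x7E, h]) (by simp)]
  simp only [x7E, of_apply, if_true, Matrix.smul_apply, smul_eq_mul, add_assoc, c.l, c.r]
  split_ifs <;> ring

omit [Fintype V] in
theorem zero (c : X7c χ) : x7E χ 0 = 1 := by
  ext z x; simp [x7E, one_apply, c.zl]

theorem tr (c : X7c χ) (v : V) :
    (x7E χ v).trace = if v = 0 then (Fintype.card V : ℚ) else 0 := by
  split_ifs with h
  · rw [h, c.zero, trace_one]
  · simp [trace, x7E, h]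

omit [Fintype V] in
theorem tp (c : X7c χ) {v : V} (h : χ v v = 1) : (x7E χ v)ᵀ = x7E χ v := by
  ext z x
  simp only [x7E, transpose_apply, of_apply]
  by_cases e : z = v + x
  · subst e
    rw [if_pos (by rw [← add_assoc, c.two, zero_add]), if_pos rfl, c.r, h, one_mul]
  · rw [if_neg e, if_neg]
    rintro rfl
    exact e (by rw [← add_assoc, c.two, zero_add])

omit [Fintype V] [DecidableEq V] in
theorem aa (c : X7c χ) (a : X7a χ α) (x y : V) : χ (α x) (α y) = 1 := by rw [a.sa, a.sq, c.zr]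

theorem wsq (c : X7c χ) (a : X7a χ α) : x7W χ α * x7W χ α =
    ((Fintype.card V : ℚ) * (univ.filter fun z => α z = 0).card) • 1 := by
  have e : ∀ x, (χ (α x) x • x7E χ (α x)) * x7W χ α =
      ∑ z, (χ (α z) z * (χ x (α z) * χ (α z) x)) • x7E χ (α z) := fun x => by
    rw [x7W, mul_sum, ← Equiv.sum_comp (Equiv.addRight x)]
    refine sum_congr rfl fun z _ => ?_
    rw [smul_mul_smul_comm, c.mul, c.aa a, one_smul, Equiv.coe_addRight, map_add,
      add_comm (α x), c.can, c.l, c.r, c.r, a.sa x z]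
    congr 1
    linear_combination (χ (α z) z * χ x (α z) * χ (α z) x) * c.sq (α x) x
  conv_lhs => rw [x7W, sum_mul]
  simp only [← x7W.eq_1, e]
  rw [sum_comm]
  simp only [← sum_smul, ← mul_sum, c.csum]
  rw [sum_congr rfl fun z _ => (show (χ (α z) z * if α z = 0 then (Fintype.card V : ℚ) else 0) •
    x7E χ (α z) = (if α z = 0 then (Fintype.card V : ℚ) else 0) • (1 : Matrix V V ℚ) by
      split_ifs with h
      · rw [h, c.zl, c.zero, one_mul]
      · simp), ← sum_smul, ← sum_filter]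
  simp only [sum_const, nsmul_eq_mul, mul_comm]

theorem wtr (c : X7c χ) : (x7W χ α).trace =
    (Fintype.card V : ℚ) * (univ.filter fun z => α z = 0).card := by
  rw [x7W, trace_sum, sum_congr rfl fun z _ => (show (χ (α z) z • x7E χ (α z)).trace =
    if α z = 0 then (Fintype.card V : ℚ) else 0 by
      rw [trace_smul, c.tr]
      split_ifs with h
      · rw [h, c.zl, one_smul]
      · simp), ← sum_filter]
  simp only [sum_const, nsmul_eq_mul, mul_comm]

theorem wE (c : X7c χ) (a : X7a χ α) (y : V) :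
    x7W χ α * x7E χ y = x7E χ (y + α y) * x7W χ α := by
  rw [x7W, sum_mul, mul_sum, ← Equiv.sum_comp (Equiv.addRight y)]
  refine sum_congr rfl fun x _ => ?_
  rw [smul_mul_assoc, mul_smul_comm, c.mul, c.mul, smul_smul, smul_smul, Equiv.coe_addRight,
    map_add, ← c.r, c.can, c.l, c.l, c.aa a, a.sa y x, mul_one]
  congr 2
  abel

theorem wtp (c : X7c χ) (a : X7a χ α) : (x7W χ α)ᵀ = x7W χ α := by
  rw [x7W, transpose_sum]
  exact sum_congr rfl fun x _ => by rw [transpose_smul, c.tp (c.aa a x x)]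

theorem wcm (c : X7c χ) (a : X7a χ α) (cm : ∀ x, α (β x) = β (α x)) :
    x7W χ α * x7W χ β = x7W χ β * x7W χ α := by
  have inv : Function.Involutive fun y => y + α y := fun y => by
    simp only [map_add, a.sq, add_zero, c.can]
  conv_lhs => rw [x7W.eq_1 χ β, mul_sum]
  conv_rhs => rw [x7W.eq_1 χ β, sum_mul, ← Equiv.sum_comp inv.toPerm]
  refine sum_congr rfl fun y _ => ?_
  rw [mul_smul_comm, c.wE a, smul_mul_assoc, Function.Involutive.coe_toPerm, map_add, ← cm,
    c.l, c.r, c.r, c.aa a, a.sa (β y) y, mul_one, mul_assoc, c.sq, mul_one]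

theorem wtr2 (c : X7c χ) (a : X7a χ α) (b : X7a χ β) (cm : ∀ x, α (β x) = β (α x))
    (hi : ∀ x y, α x = β y → ∃ z, α x = α (β z)) : 0 < (x7W χ α * x7W χ β).trace := by
  have e : ∀ x y, ((χ (α x) x • x7E χ (α x)) * (χ (β y) y • x7E χ (β y))).trace =
      if α x = β y then (Fintype.card V : ℚ) else 0 := fun x y => by
    rw [smul_mul_smul_comm, c.mul, trace_smul, trace_smul, c.tr, if_congr c.eqz rfl rfl]
    split_ifs with h
    · obtain ⟨z, hz⟩ := hi x y h
      have h1 : χ (α x) x = 1 := by rw [hz, a.sa, h, c.aa b]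
      have h2 : χ (β y) y = 1 := by rw [← h, hz, cm, b.sa, ← h, c.aa a]
      rw [h1, h2, ← h, c.aa a]; simp
    · simp
  rw [x7W, x7W, sum_mul_sum, trace_sum]
  simp only [trace_sum, e]
  have p : (0 : ℚ) < Fintype.card V := by exact_mod_cast Fintype.card_pos
  refine sum_pos' (fun x _ => sum_nonneg fun y _ => by positivity) ⟨0, mem_univ _,
    sum_pos' (fun y _ => by positivity) ⟨0, mem_univ _, by simpa only [map_zero, ↓ reduceIte, Nat.cast_pos] using p⟩⟩

end X7c

omit [AddCommGroup V] in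
theorem x7_meet {p q : Matrix V V ℚ} (hp : p * p = p) (hq : q * q = q)
    (h : (Fintype.card V : ℚ) < p.trace + q.trace) : ∃ x, x ≠ 0 ∧ p *ᵥ x = x ∧ q *ᵥ x = x := by
  have k : ∀ {p : Matrix V V ℚ}, p * p = p →
      p.trace = Module.finrank ℚ (LinearMap.range (toLin' p)) := fun {p} hp => by
    rw [← trace_toLin'_eq]
    exact (LinearMap.IsIdempotentElem.isProj_range _ (by
      rw [IsIdempotentElem, Module.End.mul_eq_comp, ← toLin'_mul, hp])).trace
  rw [k hp, k hq] at h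
  have h' : Fintype.card V < Module.finrank ℚ (LinearMap.range (toLin' p)) +
    Module.finrank ℚ (LinearMap.range (toLin' q)) := by exact_mod_cast h
  rw [← Submodule.finrank_sup_add_finrank_inf_eq] at h'
  have h1 := Submodule.finrank_le (LinearMap.range (toLin' p) ⊔ LinearMap.range (toLin' q))
  rw [Module.finrank_fintype_fun_eq_card] at h1
  obtain ⟨x, ⟨⟨u, hu⟩, v, hv⟩, n⟩ := Submodule.exists_mem_ne_zero_of_ne_bot
    (p := LinearMap.range (toLin' p) ⊓ LinearMap.range (toLin' q)) fun e => by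
      rw [e, finrank_bot] at h'; omega
  refine ⟨x, n, ?_, ?_⟩
  · rw [← hu, toLin'_apply, mulVec_mulVec, hp]
  · rw [← hv, toLin'_apply, mulVec_mulVec, hq]

theorem x7_fix (c : X7c χ) (a : X7a χ α) (b : X7a χ β) (g : X7a χ γ)
    (cm : ∀ x, α (β x) = β (α x)) (hi : ∀ x y, α x = β y → ∃ z, α x = α (β z))
    (hV : Fintype.card V = 1024) (ka : (univ.filter fun z => α z = 0).card = 64)
    (kb : (univ.filter fun z => β z = 0).card = 64) (kg : (univ.filter fun z => γ z = 0).card = 64) :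
    ∃ x, x ≠ 0 ∧ x7W χ α *ᵥ x = (256 : ℚ) • x ∧ x7W χ β *ᵥ x = (256 : ℚ) • x ∧
      x7W χ γ *ᵥ x = (256 : ℚ) • x := by
  have sa := c.wsq a
  have sb := c.wsq b
  have sg := c.wsq g
  have ta := c.wtr (α := α)
  have tb := c.wtr (α := β)
  have tg := c.wtr (α := γ)
  have t2 := c.wtr2 a b cm hi
  have cc := c.wcm a cm
  rw [hV, ka] at sa ta
  rw [hV, kb] at sb tb
  rw [hV, kg] at sg tg
  generalize x7W χ α = A at *
  generalize x7W χ β = B at *
  generalize x7W χ γ = C at *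
  have id : ∀ {A : Matrix V V ℚ}, A * A = (((1024 : ℕ) : ℚ) * (64 : ℕ)) • 1 →
      A * ((512 : ℚ)⁻¹ • ((256 : ℚ) • 1 + A)) = (256 : ℚ) • (512 : ℚ)⁻¹ • ((256 : ℚ) • 1 + A) ∧
      ((512 : ℚ)⁻¹ • ((256 : ℚ) • 1 + A)) * ((512 : ℚ)⁻¹ • ((256 : ℚ) • 1 + A)) =
        (512 : ℚ)⁻¹ • ((256 : ℚ) • 1 + A) := fun {A} h => by
    simp only [mul_smul_comm, smul_mul_assoc, mul_add, add_mul, mul_one, one_mul, h]
    constructor <;> module
  have cp : Commute ((512 : ℚ)⁻¹ • ((256 : ℚ) • 1 + A)) ((512 : ℚ)⁻¹ • ((256 : ℚ) • 1 + B)) := by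
    simp only [Commute, SemiconjBy, mul_smul_comm, smul_mul_assoc, mul_add, add_mul, mul_one,
      one_mul, cc]
    module
  obtain ⟨x, n, h1, h2⟩ := x7_meet (p := ((512 : ℚ)⁻¹ • ((256 : ℚ) • 1 + A)) *
    ((512 : ℚ)⁻¹ • ((256 : ℚ) • 1 + B))) (by rw [cp.symm.mul_mul_mul_comm, (id sa).2, (id sb).2])
    (id sg).2 (by
      simp only [mul_smul_comm, smul_mul_assoc, mul_add, add_mul, mul_one, one_mul, trace_smul,
        trace_add, trace_one, ta, tb, tg, hV, smul_eq_mul]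
      push_cast
      linarith only [t2])
  refine ⟨x, n, ?_, ?_, ?_⟩
  · conv_lhs => rw [← h1, mulVec_mulVec, ← mul_assoc, (id sa).1, smul_mul_assoc, smul_mulVec, h1]
  · rw [cp.eq] at h1
    conv_lhs => rw [← h1, mulVec_mulVec, ← mul_assoc, (id sb).1, smul_mul_assoc, smul_mulVec, h1]
  · conv_lhs => rw [← h2, mulVec_mulVec, (id sg).1, smul_mulVec, h2]

theorem x7_inv (c : X7c χ) (a : X7a χ α) {x : V → ℚ} (h : x7W χ α *ᵥ x = (256 : ℚ) • x) (v : V) :
    x ⬝ᵥ x7E χ (v + α v) *ᵥ x = x ⬝ᵥ x7E χ v *ᵥ x := by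
  have e := congrArg (fun M => x ⬝ᵥ M *ᵥ x) (c.wE a v)
  simp only [← mulVec_mulVec] at e
  rw [dotProduct_mulVec, ← c.wtp a, vecMul_transpose, c.wtp a, h, mulVec_smul, smul_dotProduct,
    dotProduct_smul] at e
  simp only [smul_eq_mul] at e
  linarith

theorem x7_end (c : X7c χ) (a : X7a χ α) (hV : Fintype.card V = 1024)
    (ka : (univ.filter fun z => α z = 0).card = 64) {x : V → ℚ} (n : x ≠ 0)
    (h : x7W χ α *ᵥ x = (256 : ℚ) • x) {u v : V} (hu : χ u u = 1) (hv : χ v v = 1)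
    (uv : χ u v * χ v u = -1) (e1 : x ⬝ᵥ x7E χ v *ᵥ x = x ⬝ᵥ x7E χ u *ᵥ x)
    (e2 : ∀ z, α z ≠ 0 → x ⬝ᵥ x7E χ (α z) *ᵥ x = x ⬝ᵥ x7E χ u *ᵥ x) : False := by
  have p : x ⬝ᵥ x ≠ 0 := fun e => n (dotProduct_self_eq_zero.1 e)
  have s : ∀ g : V → ℚ, (∀ z, α z = 0 → g z = 1) → x ⬝ᵥ (∑ z, g z • x7E χ (α z)) *ᵥ x =
      64 * (x ⬝ᵥ x - x ⬝ᵥ x7E χ u *ᵥ x) + (∑ z, g z) * (x ⬝ᵥ x7E χ u *ᵥ x) := fun g hg => by
    rw [sum_mulVec, dotProduct_sum, sum_congr rfl fun z _ => (show x ⬝ᵥ (g z • x7E χ (α z)) *ᵥ x =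
      (if α z = 0 then x ⬝ᵥ x - x ⬝ᵥ x7E χ u *ᵥ x else 0) + g z * (x ⬝ᵥ x7E χ u *ᵥ x) by
        rw [smul_mulVec, dotProduct_smul, smul_eq_mul]
        split_ifs with h
        · rw [hg z h, h, c.zero, one_mulVec]; ring
        · rw [e2 z h, zero_add]), sum_add_distrib, ← sum_filter, ← sum_mul]
    simp only [sum_sub_distrib, sum_const, ka, nsmul_eq_mul, Nat.cast_ofNat, mul_sub]
  have s1 := s (fun z => χ (α z) z) fun z h => by rw [h, c.zl]
  have s2 := s (fun _ => 1) fun _ _ => rfl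
  have rw1 : (∑ z, (1 : ℚ) • x7E χ (α z)) * x7W χ α =
      (∑ z, χ (α z) z) • ∑ z, (1 : ℚ) • x7E χ (α z) := by
    rw [x7W, mul_sum, sum_smul]
    refine sum_congr rfl fun y _ => ?_
    rw [mul_smul_comm, sum_mul, ← Equiv.sum_comp (Equiv.addRight y) fun z => (1 : ℚ) • x7E χ (α z)]
    simp only [one_smul, c.mul, c.aa a, Equiv.coe_addRight, map_add]
  have s3 := congrArg (fun M => x ⬝ᵥ M *ᵥ x) rw1
  simp only [← mulVec_mulVec] at s3
  rw [h, mulVec_smul, smul_mulVec, dotProduct_smul, dotProduct_smul, s2] at s3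
  rw [← x7W.eq_1, h, dotProduct_smul] at s1
  have lb : ∑ _z : V, (-1 : ℚ) ≤ ∑ z, χ (α z) z :=
    sum_le_sum fun z _ => by nlinarith only [c.sq (α z) z]
  simp only [sum_const, card_univ, hV, smul_eq_mul, nsmul_eq_mul] at s1 s3 lb
  generalize ∑ z, χ (α z) z = G at *
  have f : x ⬝ᵥ x7E χ u *ᵥ x = x ⬝ᵥ x := by
    generalize x ⬝ᵥ x7E χ u *ᵥ x = f at *
    generalize x ⬝ᵥ x = F at *
    push_cast at *
    by_cases hG : G = 256
    · subst hG; linarith only [s1]
    · have e : 64 * (F - f) + 1024 * f = 0 := by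
        apply mul_left_cancel₀ (sub_ne_zero.2 hG); linarith only [s3]
      have e' : (G + 2816) * F = 0 := by linear_combination 15 * s1 + (G / 64 - 1) * e
      rcases mul_eq_zero.1 e' with e' | e'
      · linarith only [lb, e']
      · exact absurd e' p
  have fx : ∀ {w}, χ w w = 1 → x ⬝ᵥ x7E χ w *ᵥ x = x ⬝ᵥ x → x7E χ w *ᵥ x = x := fun {w} hw e => by
    have o : (x7E χ w *ᵥ x) ⬝ᵥ (x7E χ w *ᵥ x) = x ⬝ᵥ x := by
      rw [dotProduct_mulVec, ← c.tp hw, vecMul_transpose, c.tp hw, mulVec_mulVec, c.mul, hw, c.two,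
        c.zero, one_smul, one_mulVec]
    rw [← sub_eq_zero, ← dotProduct_self_eq_zero, sub_dotProduct, dotProduct_sub, dotProduct_sub, o,
      dotProduct_comm (x7E χ w *ᵥ x) x, e]
    ring
  have f1 := fx hu f
  have f2 := fx hv (e1.trans f)
  have g1 : (x7E χ u * x7E χ v) *ᵥ x = x := by rw [← mulVec_mulVec, f2, f1]
  have g2 : (x7E χ v * x7E χ u) *ᵥ x = x := by rw [← mulVec_mulVec, f1, f2]
  rw [c.mul, smul_mulVec] at g1 g2
  rw [add_comm] at g2
  have g3 := congrArg (x ⬝ᵥ ·) g1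
  have g4 := congrArg (x ⬝ᵥ ·) g2
  simp only [dotProduct_smul, smul_eq_mul] at g3 g4
  apply p
  linear_combination (-1 / 2) * g3 + (-1 / 2) * g4 +
    (x ⬝ᵥ x7E χ (u + v) *ᵥ x) * χ u v / 2 * (uv + c.sq u v) -
    (x ⬝ᵥ x7E χ (u + v) *ᵥ x) * (χ v u + χ u v) / 2 * c.sq u v

end Pool.Agent.MP_c78e8e_al.H75

end

section

namespace Pool.Agent.MP_c78e8e_al.H75

open Subgroup Matrix

variable {K : Type} [Field K] {φ : K →+* K}

/-- The arithmetic of the field with four elements. -/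
structure X7f (φ : K →+* K) (ω : K) : Prop where
  two : (2 : K) = 0
  inv : ∀ s, φ (φ s) = s
  w : φ ω = ω + 1
  sq : ω * ω = ω + 1
  all : ∀ s : K, s = 0 ∨ s = 1 ∨ s = ω ∨ s = ω + 1

theorem x7_field [Finite K] (hφ : ∀ s, φ (φ s) = s) (ne : φ ≠ RingHom.id K) (h : Nat.card K = 4) :
    ∃ ω, X7f φ ω := by
  have := Fintype.ofFinite K
  rw [Nat.card_eq_fintype_card] at h
  have two : (2 : K) = 0 := by
    have := FiniteField.cast_card_eq_zero K
    rw [h] at this
    exact mul_self_eq_zero.1 (by rw [← this]; norm_num)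
  have p : ∀ s : K, s ^ 4 = s := fun s => by rw [← h]; exact FiniteField.pow_card s
  obtain ⟨ω, hω⟩ : ∃ ω, φ ω ≠ ω := by
    by_contra hn
    push Not at hn
    exact ne (RingHom.ext hn)
  have q : ∀ s : K, s = 0 ∨ s = 1 ∨ s * s = s + 1 := fun s => by
    have : s * ((s - 1) * (s * s - (s + 1))) = 0 := by
      linear_combination p s - (s ^ 3 - s) * two
    simpa only [mul_eq_zero, sub_eq_zero] using this
  have sq : ω * ω = ω + 1 := by
    rcases q ω with e | e | e
    · exact absurd (by rw [e, map_zero]) hω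
    · exact absurd (by rw [e, map_one]) hω
    · exact e
  have all : ∀ s : K, s * s = s + 1 → s = ω ∨ s = ω + 1 := fun s e => by
    have : (s - ω) * (s - (ω + 1)) = 0 := by
      linear_combination e + sq + (1 + ω - s * ω) * two
    simpa only [mul_eq_zero, sub_eq_zero] using this
  refine ⟨ω, two, hφ, (all _ (by simpa only [map_mul, map_add, map_one] using congrArg φ sq)).resolve_left hω, sq, fun s => ?_⟩
  rcases q s with e | e | e
  exacts [Or.inl e, Or.inr (Or.inl e), Or.inr (Or.inr (all s e))]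

open Classical in
/-- The additive character. -/
noncomputable def x7p (φ : K →+* K) (ω s : K) : ℚ := if ω * s + φ (ω * s) = 0 then 1 else -1

namespace X7f

variable {ω : K}

theorem neg (f : X7f φ ω) (s : K) : -s = s := by linear_combination (-s) * f.two

theorem nrm (f : X7f φ ω) {s : K} (h : s ≠ 0) : s * φ s = 1 := by
  rcases f.all s with e | e | e | e
  · exact absurd e h
  · simp [e]
  · rw [e, f.w]; linear_combination f.sq + ω * f.two
  · rw [e, map_add, map_one, f.w]; linear_combination f.sq + (2 * ω + 1) * f.two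

theorem tr (f : X7f φ ω) (s : K) : s + φ s = 0 ∨ s + φ s = 1 := by
  rcases f.all s with e | e | e | e
  · simp [e]
  · left; rw [e, map_one]; linear_combination f.two
  · right; rw [e, f.w]; linear_combination ω * f.two
  · right; rw [e, map_add, map_one, f.w]; linear_combination (ω + 1) * f.two

theorem padd (f : X7f φ ω) (s t : K) : x7p φ ω (s + t) = x7p φ ω s * x7p φ ω t := by
  have e : ω * (s + t) + φ (ω * (s + t)) = (ω * s + φ (ω * s)) + (ω * t + φ (ω * t)) := by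
    rw [mul_add, map_add]; ring
  have o : (1 : K) + 1 = 0 := by linear_combination f.two
  unfold x7p
  rw [e]
  rcases f.tr (ω * s) with a | a <;> rcases f.tr (ω * t) with b | b <;> rw [a, b] <;> simp [o]

theorem pz : x7p φ ω 0 = 1 := by simp [x7p]

theorem pw (f : X7f φ ω) : x7p φ ω ω * x7p φ ω (φ ω) = -1 := by
  rw [← f.padd, f.w, show ω + (ω + 1) = 1 by linear_combination ω * f.two, x7p, if_neg]
  rw [mul_one, f.w, show ω + (ω + 1) = 1 by linear_combination ω * f.two]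
  exact one_ne_zero

theorem w0 (f : X7f φ ω) : ω ≠ 0 := fun e => by simpa [e] using f.sq

theorem sym (f : X7f φ ω) (u v : Fin 5 → K) : bu φ v u = φ (bu φ u v) := by
  rw [bu_symm f.inv]; norm_num

theorem sl (f : X7f φ ω) (i : Fin 5) (s : K) (v : Fin 5 → K) :
    bu φ (Pi.single i s) v = s * φ (v i.rev) := by
  rw [bu_single_left, f.neg, one_pow, one_mul]

theorem vv (f : X7f φ ω) (v : Fin 5 → K) : v + v = 0 := by
  rw [← two_smul K, f.two, zero_smul]

theorem cc (f : X7f φ ω) : X7c fun u v : Fin 5 → K => x7p φ ω (bu φ u v) where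
  l := fun u u' v => by rw [bu_add_left, f.padd]
  r := fun u v v' => by rw [bu_add_right, f.padd]
  sq := fun u v => by unfold x7p; split_ifs <;> norm_num
  two := f.vv
  nd := fun w h => by
    obtain ⟨i, hi⟩ := Function.ne_iff.1 h
    have e : bu φ (Pi.single i.rev (ω * w i)) w = ω := by
      rw [f.sl, Fin.rev_rev, mul_assoc, f.nrm hi, mul_one]
    exact ⟨Pi.single i.rev (ω * w i), by rw [f.sym _ w, e, f.pw]⟩

/-- A function that is invariant under the transvections is constant on isotropic vectors. -/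
theorem conn (f : X7f φ ω) {F : (Fin 5 → K) → ℚ}
    (h : ∀ e v, bu φ e e = 0 → F (v + bu φ v e • e) = F v) {u : Fin 5 → K} (n : u ≠ 0)
    (hu : bu φ u u = 0) : F u = F (Pi.single 0 1) := by
  have st : ∀ u v, bu φ u u = 0 → bu φ v v = 0 → bu φ u v = 1 → F v = F u := fun u v a b e => by
    have := h (u + v) u (by
      rw [bu_add_left, bu_add_right, bu_add_right, a, b, f.sym u v, e, map_one]
      linear_combination f.two)
    rwa [bu_add_right, a, e, zero_add, one_smul, ← add_assoc, f.vv, zero_add] at this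
  have iso : ∀ (i : Fin 5) (s : K), i ≠ 2 → bu φ (Pi.single i s) (Pi.single i s) = 0 :=
    fun i s hi => by
      rw [f.sl, Pi.single_eq_of_ne (by revert i; decide), map_zero, mul_zero]
  have s1 : ∀ (i : Fin 5) (s : K), i ≠ 2 → s ≠ 0 → F (Pi.single i.rev s) = F (Pi.single i s) :=
    fun i s hi hs => st _ _ (iso i s hi) (iso _ s (by revert i; decide)) (by
      rw [f.sl, Pi.single_eq_same, f.nrm hs])
  have s2 : ∀ s t : K, s ≠ 0 → t ≠ 0 → F (Pi.single 0 s) = F (Pi.single 3 t) := fun s t hs ht => by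
    have z : bu φ (Pi.single 4 s + Pi.single 1 t) (Pi.single 4 s + Pi.single 1 t : Fin 5 → K) = 0 := by
      rw [bu_add_left, f.sl, f.sl]; simp [Fin.rev]
    rw [← st _ _ (iso 0 s (by decide)) z (by rw [f.sl]; simpa only [Nat.reduceAdd, Fin.isValue, Fin.rev, Fin.coe_ofNat_eq_mod, Nat.zero_mod, zero_add, Nat.add_one_sub_one, Fin.reduceFinMk, Pi.add_apply, Pi.single_eq_same, ne_eq, Fin.reduceEq, not_false_eq_true, Pi.single_eq_of_ne, add_zero] using f.nrm hs),
      st _ _ (iso 3 t (by decide)) z (by rw [f.sl]; simpa only [Nat.reduceAdd, Fin.isValue, Fin.rev, Fin.coe_ofNat_eq_mod, Nat.reduceMod, Nat.reduceSub, Fin.mk_one, Pi.add_apply, ne_eq, Fin.reduceEq, not_false_eq_true, Pi.single_eq_of_ne, Pi.single_eq_same, zero_add] using f.nrm ht)]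
  have s3 : ∀ (i : Fin 5) (s : K), i ≠ 2 → s ≠ 0 → F (Pi.single i s) = F (Pi.single 0 1) :=
    fun i s hi hs => by
      have a := (s2 s 1 hs one_ne_zero).trans (s2 1 1 one_ne_zero one_ne_zero).symm
      have b := (s2 1 s one_ne_zero hs).symm
      fin_cases i
      exacts [a, (s1 3 s (by decide) hs).trans b, absurd rfl hi, b, (s1 0 s (by decide) hs).trans a]
  obtain ⟨i, hi, h0⟩ : ∃ i, i ≠ 2 ∧ u i ≠ 0 := by
    by_contra hn
    push Not at hn
    have e : u = Pi.single 2 (u 2) := by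
      ext i
      by_cases e : i = 2
      · simp [e]
      · simp [e, hn i e]
    rw [e, f.sl] at hu
    refine n (e.trans ?_)
    by_cases z : u 2 = 0
    · simp [z]
    · exact absurd ((f.nrm z).symm.trans (by simpa only [Fin.isValue, mul_eq_zero, map_eq_zero, or_self, Fin.rev, Fin.coe_ofNat_eq_mod, Nat.reduceMod, Nat.reduceAdd, Nat.reduceSub, Fin.reduceFinMk, Pi.single_eq_same] using hu)) one_ne_zero
  have r2 := (by decide : ∀ i : Fin 5, i ≠ 2 → i.rev ≠ 2) i hi
  rw [st _ _ (iso i.rev (u i) r2) hu (by rw [f.sl, Fin.rev_rev, f.nrm h0]), s3 _ _ r2 h0]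

theorem inv1 (f : X7f φ ω) {a : GL (Fin 5) K} (fa : Fx φ a) (aa : a * a = 1) :
    (∀ x, (a.1 + 1) *ᵥ ((a.1 + 1) *ᵥ x) = 0) ∧
      ∀ x y, bu φ ((a.1 + 1) *ᵥ x) y = bu φ x ((a.1 + 1) *ᵥ y) := by
  have e : ∀ x, a.1 *ᵥ (a.1 *ᵥ x) = x := fun x => by
    rw [mulVec_mulVec, ← Units.val_mul, aa, Units.val_one, one_mulVec]
  refine ⟨fun x => ?_, fun x y => ?_⟩
  · simp only [add_mulVec, one_mulVec, mulVec_add, e]
    rw [add_comm x, f.vv]
  · simp only [add_mulVec, one_mulVec, bu_add_left, bu_add_right]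
    rw [← (fx_iff f.inv).1 fa x (a.1 *ᵥ y), e, ← (fx_iff f.inv).1 fa (a.1 *ᵥ x) y, e,
      ← (fx_iff f.inv).1 fa x (a.1 *ᵥ y), e]

/-- The main step: an invariant function that is not constant on the isotropic vectors. -/
theorem main [Finite K] (f : X7f φ ω) (h : Nat.card K = 4) {A B C : (Fin 5 → K) →ₗ[K] (Fin 5 → K)}
    (a1 : ∀ x, A (A x) = 0) (a2 : ∀ x y, bu φ (A x) y = bu φ x (A y))
    (b1 : ∀ x, B (B x) = 0) (b2 : ∀ x y, bu φ (B x) y = bu φ x (B y))
    (c1 : ∀ x, C (C x) = 0) (c2 : ∀ x y, bu φ (C x) y = bu φ x (C y))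
    (cm : ∀ x, A (B x) = B (A x)) (ne : A ≠ B) :
    ∃ F : (Fin 5 → K) → ℚ, (∀ v, F (v + A v) = F v) ∧ (∀ v, F (v + B v) = F v) ∧
      (∀ v, F (v + C v) = F v) ∧ ¬ ∀ u, u ≠ 0 → bu φ u u = 0 → F u = F (Pi.single 0 1) := by
  classical
  have := Fintype.ofFinite K
  rw [Nat.card_eq_fintype_card] at h
  have d5 : Module.finrank K (Fin 5 → K) = 5 := by simp
  have iso : ∀ (i : Fin 5) (s : K), i ≠ 2 → bu φ (Pi.single i s) (Pi.single i s) = 0 :=
    fun i s hi => by
      rw [f.sl, Pi.single_eq_of_ne (by revert i; decide), map_zero, mul_zero]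
  by_cases hU : LinearMap.range A ⊔ LinearMap.range B ⊔ LinearMap.range C = ⊤
  · have rk : ∀ {A : (Fin 5 → K) →ₗ[K] (Fin 5 → K)}, (∀ x, A (A x) = 0) →
        Module.finrank K (LinearMap.range A) ≤ 2 ∧ (2 ≤ Module.finrank K (LinearMap.range A) →
          (Finset.univ.filter fun z => A.toAddMonoidHom z = 0).card = 64) := fun {A} a1 => by
      have e := A.finrank_range_add_finrank_ker
      have l : Module.finrank K (LinearMap.range A) ≤ Module.finrank K (LinearMap.ker A) :=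
        Submodule.finrank_mono (by rintro _ ⟨x, rfl⟩; exact a1 x)
      refine ⟨by omega, fun h2 => ?_⟩
      have k := Module.card_eq_pow_finrank (K := K) (V := LinearMap.ker A)
      rw [h, show Module.finrank K (LinearMap.ker A) = 3 by omega, Fintype.card_subtype] at k
      exact (congrArg Finset.card (Finset.ext fun z => by
        rw [Finset.mem_filter, Finset.mem_filter]; rfl)).trans k
    have e1 := Submodule.finrank_sup_add_finrank_inf_eq (LinearMap.range A ⊔ LinearMap.range B)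
      (LinearMap.range C)
    have e2 := Submodule.finrank_sup_add_finrank_inf_eq (LinearMap.range A) (LinearMap.range B)
    rw [hU, finrank_top, d5] at e1
    obtain ⟨ra, ka⟩ := rk a1
    obtain ⟨rb, kb⟩ := rk b1
    obtain ⟨rc, kc⟩ := rk c1
    have hV : Fintype.card (Fin 5 → K) = 1024 := by simp [h]
    have nz : LinearMap.range (A ∘ₗ B) ≠ ⊥ := fun e => by
      have z : ∀ x, A (B x) = 0 := fun x => by
        have : (A ∘ₗ B) x ∈ LinearMap.range (A ∘ₗ B) := ⟨x, rfl⟩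
        rwa [e] at this
      have k := Module.card_eq_pow_finrank (K := K)
        (V := (LinearMap.range A ⊔ LinearMap.range B : Submodule K (Fin 5 → K)))
      rw [h, Fintype.card_subtype] at k
      have i := f.cc.iso (Finset.univ.filter fun v => v ∈ LinearMap.range A ⊔ LinearMap.range B)
        fun s hs t ht => by
          obtain ⟨_, ⟨x, rfl⟩, _, ⟨y, rfl⟩, rfl⟩ := Submodule.mem_sup.1 (Finset.mem_filter.1 hs).2
          obtain ⟨_, ⟨x', rfl⟩, _, ⟨y', rfl⟩, rfl⟩ := Submodule.mem_sup.1 (Finset.mem_filter.1 ht).2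
          rw [bu_add_left, a2, b2, map_add, map_add, a1, b1, z, ← cm, z]
          simpa using pz
      have l : 4 ^ 3 ≤ 4 ^ Module.finrank K
          (LinearMap.range A ⊔ LinearMap.range B : Submodule K (Fin 5 → K)) :=
        Nat.pow_le_pow_right (by norm_num) (by omega)
      rw [hV, k] at i
      generalize 4 ^ Module.finrank K
        (LinearMap.range A ⊔ LinearMap.range B : Submodule K (Fin 5 → K)) = N at i l
      have l' : (64 : ℚ) ≤ N := by exact_mod_cast l
      push_cast at i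
      nlinarith only [mul_le_mul l' l' (by norm_num) (by linarith only [l']), i]
    have le : LinearMap.range (A ∘ₗ B) ≤ LinearMap.range A ⊓ LinearMap.range B := by
      rintro _ ⟨x, rfl⟩
      exact ⟨⟨_, rfl⟩, ⟨_, (cm x).symm⟩⟩
    have p1 := Submodule.one_le_finrank_iff.2 nz
    have p2 := Submodule.finrank_mono le
    have eq := Submodule.eq_of_le_of_finrank_le le (by omega)
    have xa : X7a (fun u v : Fin 5 → K => x7p φ ω (bu φ u v)) A.toAddMonoidHom :=
      ⟨a1, fun x y => congrArg _ (a2 x y)⟩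
    have xb : X7a (fun u v : Fin 5 → K => x7p φ ω (bu φ u v)) B.toAddMonoidHom :=
      ⟨b1, fun x y => congrArg _ (b2 x y)⟩
    have xc : X7a (fun u v : Fin 5 → K => x7p φ ω (bu φ u v)) C.toAddMonoidHom :=
      ⟨c1, fun x y => congrArg _ (c2 x y)⟩
    obtain ⟨x, n, h1, h2, h3⟩ := x7_fix f.cc xa xb xc cm (fun x y e => by
      obtain ⟨z, hz⟩ : A x ∈ LinearMap.range (A ∘ₗ B) := eq ▸ ⟨⟨x, rfl⟩, ⟨y, e.symm⟩⟩
      exact ⟨z, hz.symm⟩) hV (ka (by omega)) (kb (by omega)) (kc (by omega))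
    refine ⟨fun v => x ⬝ᵥ x7E (fun u v => x7p φ ω (bu φ u v)) v *ᵥ x, x7_inv f.cc xa h1,
      x7_inv f.cc xb h2, x7_inv f.cc xc h3, fun k => ?_⟩
    have e : bu φ (Pi.single 4 ω) (Pi.single 0 1 : Fin 5 → K) = ω := by rw [f.sl]; simp [Fin.rev]
    refine x7_end f.cc xa hV (ka (by omega)) n h1 (u := Pi.single 0 1) (v := Pi.single 4 ω)
      (by rw [iso _ _ (by decide), pz]) (by rw [iso _ _ (by decide), pz])
      (by rw [f.sym (Pi.single 4 ω), e, mul_comm, f.pw])
      (k _ (by simpa using f.w0) (iso _ _ (by decide))) fun z hz => k _ hz ?_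
    exact (a2 _ _).trans (by rw [LinearMap.toAddMonoidHom_coe, a1, bu_zero_right])
  · set U := LinearMap.range A ⊔ LinearMap.range B ⊔ LinearMap.range C with hU'
    have ma : ∀ v, A v ∈ U := fun v => Submodule.mem_sup_left (Submodule.mem_sup_left ⟨v, rfl⟩)
    have mb : ∀ v, B v ∈ U := fun v => Submodule.mem_sup_left (Submodule.mem_sup_right ⟨v, rfl⟩)
    have mc : ∀ v, C v ∈ U := fun v => Submodule.mem_sup_right ⟨v, rfl⟩
    refine ⟨fun v => if v ∈ U then 1 else 0, fun v => if_congr (U.add_mem_iff_left (ma v)) rfl rfl,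
      fun v => if_congr (U.add_mem_iff_left (mb v)) rfl rfl,
      fun v => if_congr (U.add_mem_iff_left (mc v)) rfl rfl, fun k => hU ?_⟩
    obtain ⟨u, n, hu, mu⟩ : ∃ u, u ≠ 0 ∧ bu φ u u = 0 ∧ u ∈ U := by
      obtain ⟨x, hx⟩ := DFunLike.ne_iff.1 ne
      by_cases z : A x = 0
      · exact ⟨B x, fun e => hx (z.trans e.symm), by rw [b2, b1, bu_zero_right], mb x⟩
      · exact ⟨A x, z, by rw [a2, a1, bu_zero_right], ma x⟩
    have al : ∀ v, v ≠ 0 → bu φ v v = 0 → v ∈ U := fun v h1 h2 => by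
      by_contra hn
      have := (k u n hu).trans (k v h1 h2).symm
      simp [mu, hn] at this
    have sg : ∀ (i : Fin 5) (s : K), i ≠ 2 → (Pi.single i s : Fin 5 → K) ∈ U := fun i s hi => by
      by_cases z : s = 0
      · simp [z]
      · exact al _ (by simpa using z) (iso i s hi)
    have s2 : (Pi.single 2 1 : Fin 5 → K) ∈ U := by
      have := al (Pi.single 2 1 + (Pi.single 0 1 + Pi.single 4 ω))
        (fun e => by simpa using congrFun e 2) (by
          rw [bu_add_left, bu_add_left, f.sl, f.sl, f.sl]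
          simp only [Nat.reduceAdd, Fin.isValue, Fin.rev, Fin.coe_ofNat_eq_mod, Nat.reduceMod, Nat.reduceSub, Fin.reduceFinMk, Pi.add_apply, Pi.single_eq_same, ne_eq, Fin.reduceEq, not_false_eq_true, Pi.single_eq_of_ne, add_zero, map_one, mul_one, Nat.zero_mod, zero_add, Nat.add_one_sub_one, f.w, one_mul, Nat.mod_succ, tsub_self, Fin.zero_eta]
          linear_combination (ω + 1) * f.two)
      exact (U.add_mem_iff_left (U.add_mem (sg 0 1 (by decide)) (sg 4 ω (by decide)))).1 this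
    rw [eq_top_iff]
    intro v _
    rw [← Finset.univ_sum_single v]
    refine U.sum_mem fun i _ => ?_
    by_cases e : i = 2
    · subst e
      simpa [← Pi.single_smul] using U.smul_mem (v 2) s2
    · exact sg i _ e

end X7f

theorem no3_su52 [Finite K] (hφ : ∀ s, φ (φ s) = s) (ne : φ ≠ RingHom.id K) (h : Nat.card K = 4) :
    No3 (sug 4 φ) := by
  obtain ⟨ω, f⟩ := x7_field hφ ne h
  have cb : ∀ z : K, z ≠ 0 → z ^ 3 = 1 := fun z hz => by
    have := Fintype.ofFinite K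
    have := FiniteField.pow_card_sub_one_eq_one z hz
    rwa [← Nat.card_eq_fintype_card, h] at this
  have nz : ∀ {g : GL (Fin 5) K} {z : K}, g.1 = z • (1 : Matrix _ _ K) → z ≠ 0 := fun {g z} e hz =>
    g.ne_zero (by rw [e, hz, zero_smul])
  have dt : ∀ g ∈ sug 4 φ, g.1.det = 1 := fun g hg => slg_det ((Subgroup.closure_le _).2 (by
    rintro x ⟨i, j, -, hx⟩
    refine Subgroup.closure_mono ?_ hx
    rintro _ (⟨s, rfl⟩ | ⟨s, rfl⟩) <;> exact ⟨_, _, _, rfl⟩) hg)
  have sc : ∀ g ∈ sug 4 φ, Sc g → g = 1 := fun g hg ⟨z, e⟩ => by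
    have d := dt g hg
    rw [e, det_smul, det_one, Fintype.card_fin] at d
    have : z = 1 := by linear_combination (z ^ 3 + 1) * cb z (nz e) - z * d
    exact Units.ext (by rw [e, this, one_smul, Units.val_one])
  intro a ha b hb c hc g hg g' hg' aa eb ec ab nab
  have aa' := sc _ (mul_mem ha ha) aa
  have cj : ∀ {b g : GL (Fin 5) K}, b ∈ sug 4 φ → g ∈ sug 4 φ → Sc (b⁻¹ * (g * a * g⁻¹)) →
      b * b = 1 := fun {b g} hb hg e => by
    rw [inv_mul_eq_one.1 (sc _ (mul_mem (inv_mem hb) (mul_mem (mul_mem hg ha) (inv_mem hg))) e),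
      conj_mul, aa', mul_one, mul_inv_cancel]
  have cm := inv_mul_eq_one.1 (sc _ (mul_mem (inv_mem (mul_mem ha hb)) (mul_mem hb ha)) ab)
  obtain ⟨a1, a2⟩ := f.inv1 (sug_fx ha) aa'
  obtain ⟨b1, b2⟩ := f.inv1 (sug_fx hb) (cj hb hg eb)
  obtain ⟨c1, c2⟩ := f.inv1 (sug_fx hc) (cj hc hg' ec)
  obtain ⟨F, h1, h2, h3, k⟩ := f.main h (A := (a.1 + 1).mulVecLin) (B := (b.1 + 1).mulVecLin)
    (C := (c.1 + 1).mulVecLin) a1 a2 b1 b2 c1 c2 (fun x => by
      simp only [mulVecLin_apply, mulVec_mulVec, mul_add, add_mul, mul_one, one_mul,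
        ← Units.val_mul, cm]
      congr 1; abel) fun e => nab (sc_of_eq (Units.ext (add_right_cancel (b := 1)
        (toLin'.injective e))))
  let H : Subgroup (GL (Fin 5) K) :=
    { carrier := {g | ∀ v, F (g.1 *ᵥ v) = F v}
      mul_mem' := fun {x y} hx hy v => by rw [Units.val_mul, ← mulVec_mulVec, hx, hy]
      one_mem' := fun v => by simp
      inv_mem' := fun {x} hx v => by
        rw [← hx, mulVec_mulVec, ← Units.val_mul, mul_inv_cancel, Units.val_one, one_mulVec] }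
  have mem : ∀ {a : GL (Fin 5) K}, (∀ v, F (v + (a.1 + 1).mulVecLin v) = F v) →
      a ∈ H ⊔ center _ := fun {a} h => mem_sup_left fun v => by
    rw [← h v, mulVecLin_apply, add_mulVec, one_mulVec, add_comm v, add_assoc, f.vv, add_zero]
  refine ⟨H ⊔ center _, fun z hz => mem_sup_right (sc_iff.1 hz), mem h1, mem h2, mem h3,
    fun le => k fun u n hu => f.conn (fun e v he => ?_) n hu⟩
  have ap : ∀ v, (sie φ e 0 1).1 *ᵥ v = v + bu φ v e • e := fun v => by
    rw [sie_apply he (by simp) (by simp), sub_eq_add_neg, ← neg_smul, f.neg]; simp only [Nat.reduceAdd, smul_zero, add_zero, bu_zero_right, mul_zero, one_mul, zero_add]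
  have tt : sie φ e 0 1 * sie φ e 0 1 = 1 := Units.ext (toLin'.injective (LinearMap.ext fun v => by
    rw [toLin'_apply, toLin'_apply, Units.val_mul, ← mulVec_mulVec, ap, ap, bu_add_left,
      bu_smul_left, he, mul_zero, add_zero, add_assoc, f.vv, Units.val_one, one_mulVec, add_zero]))
  have m := le (mem_sug (by norm_num) hφ (fun _ => ne) (sie_fx hφ he (w := 0) (a := 1) (by simp)
    (by simpa only [map_one, mul_one, bu_zero_right] using by linear_combination f.two)) (by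
      have := congrArg (fun g : GL (Fin 5) K => g.1.det) tt
      simp only [Units.val_mul, det_mul, Units.val_one, det_one] at this
      rcases mul_self_eq_one_iff.1 this with d | d
      exacts [d, d.trans (f.neg 1)]))
  obtain ⟨x, hx, z, hz, e'⟩ := mem_sup_of_normal_right.1 m
  obtain ⟨s, hs⟩ := sc_iff.2 hz
  have z3 : z ^ 3 = 1 := Units.ext (by
    rw [Units.val_pow_eq_pow_val, hs, smul_pow, cb s (nz hs), one_pow, one_smul, Units.val_one])
  have : sie φ e 0 1 = x ^ 3 := by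
    rw [← mul_one (x ^ 3), ← z3, ← Commute.mul_pow (mem_center_iff.1 hz x), e', pow_succ,
      pow_two, tt, one_mul]
  rw [← ap]
  exact (this ▸ pow_mem hx 3 : sie φ e 0 1 ∈ H) v

end Pool.Agent.MP_c78e8e_al.H75

end

section

namespace Pool.Agent.MP_c78e8e_al.H75

open Subgroup Matrix

variable {K : Type} [Field K] {φ : K →+* K}

theorem x7u_mul (a00 a01 a02 a03 a04 a10 a11 a12 a13 a14 a20 a21 a22 a23 a24 a30 a31 a32 a33 a34 a40 a41 a42 a43 a44
    b00 b01 b02 b03 b04 b10 b11 b12 b13 b14 b20 b21 b22 b23 b24 b30 b31 b32 b33 b34 b40 b41 b42 b43 b44 : K) :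
    HMul.hMul (α := Matrix (Fin (4 + 1)) (Fin (4 + 1)) K) (β := Matrix (Fin (4 + 1)) (Fin (4 + 1)) K)
      (γ := Matrix (Fin (4 + 1)) (Fin (4 + 1)) K) !![a00, a01, a02, a03, a04;
      a10, a11, a12, a13, a14;
      a20, a21, a22, a23, a24;
      a30, a31, a32, a33, a34;
      a40, a41, a42, a43, a44]
      !![b00, b01, b02, b03, b04;
      b10, b11, b12, b13, b14;
      b20, b21, b22, b23, b24;
      b30, b31, b32, b33, b34;
      b40, b41, b42, b43, b44] =
    !![a00 * b00 + a01 * b10 + a02 * b20 + a03 * b30 + a04 * b40,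
        a00 * b01 + a01 * b11 + a02 * b21 + a03 * b31 + a04 * b41,
        a00 * b02 + a01 * b12 + a02 * b22 + a03 * b32 + a04 * b42,
        a00 * b03 + a01 * b13 + a02 * b23 + a03 * b33 + a04 * b43,
        a00 * b04 + a01 * b14 + a02 * b24 + a03 * b34 + a04 * b44;
      a10 * b00 + a11 * b10 + a12 * b20 + a13 * b30 + a14 * b40,
        a10 * b01 + a11 * b11 + a12 * b21 + a13 * b31 + a14 * b41,
        a10 * b02 + a11 * b12 + a12 * b22 + a13 * b32 + a14 * b42,
        a10 * b03 + a11 * b13 + a12 * b23 + a13 * b33 + a14 * b43,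
        a10 * b04 + a11 * b14 + a12 * b24 + a13 * b34 + a14 * b44;
      a20 * b00 + a21 * b10 + a22 * b20 + a23 * b30 + a24 * b40,
        a20 * b01 + a21 * b11 + a22 * b21 + a23 * b31 + a24 * b41,
        a20 * b02 + a21 * b12 + a22 * b22 + a23 * b32 + a24 * b42,
        a20 * b03 + a21 * b13 + a22 * b23 + a23 * b33 + a24 * b43,
        a20 * b04 + a21 * b14 + a22 * b24 + a23 * b34 + a24 * b44;
      a30 * b00 + a31 * b10 + a32 * b20 + a33 * b30 + a34 * b40,
        a30 * b01 + a31 * b11 + a32 * b21 + a33 * b31 + a34 * b41,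
        a30 * b02 + a31 * b12 + a32 * b22 + a33 * b32 + a34 * b42,
        a30 * b03 + a31 * b13 + a32 * b23 + a33 * b33 + a34 * b43,
        a30 * b04 + a31 * b14 + a32 * b24 + a33 * b34 + a34 * b44;
      a40 * b00 + a41 * b10 + a42 * b20 + a43 * b30 + a44 * b40,
        a40 * b01 + a41 * b11 + a42 * b21 + a43 * b31 + a44 * b41,
        a40 * b02 + a41 * b12 + a42 * b22 + a43 * b32 + a44 * b42,
        a40 * b03 + a41 * b13 + a42 * b23 + a43 * b33 + a44 * b43,
        a40 * b04 + a41 * b14 + a42 * b24 + a43 * b34 + a44 * b44] := by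
  ext i j
  rw [Matrix.mul_apply, Fin.sum_univ_five]
  fin_cases i <;> fin_cases j <;> rfl

omit [Field K] in
theorem x7u_eta (M : Matrix (Fin 5) (Fin 5) K) : M = !![M 0 0, M 0 1, M 0 2, M 0 3, M 0 4;
    M 1 0, M 1 1, M 1 2, M 1 3, M 1 4;
    M 2 0, M 2 1, M 2 2, M 2 3, M 2 4;
    M 3 0, M 3 1, M 3 2, M 3 3, M 3 4;
    M 4 0, M 4 1, M 4 2, M 4 3, M 4 4] := by
  ext i j
  fin_cases i <;> fin_cases j <;> rfl

theorem x7u_one : (1 : GL (Fin (4 + 1)) K).1 = !![1, 0, 0, 0, 0;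
    0, 1, 0, 0, 0;
    0, 0, 1, 0, 0;
    0, 0, 0, 1, 0;
    0, 0, 0, 0, 1] := by
  rw [Units.val_one, x7u_eta 1]
  simp

theorem x7u_rev : Fin.rev (0 : Fin (4 + 1)) = 4 ∧ Fin.rev (1 : Fin (4 + 1)) = 3 ∧
    Fin.rev (3 : Fin (4 + 1)) = 1 := by decide

/-- Short root elements. -/
def x7uX (φ : K →+* K) (i j : Fin (4 + 1)) (s : K) : GL (Fin (4 + 1)) K :=
  el i j s * el j.rev i.rev (φ s)

/-- Elements of the non-commutative root groups. -/
def x7uY (φ : K →+* K) (i : Fin (4 + 1)) (s u : K) : GL (Fin (4 + 1)) K :=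
  el 2 i.rev (φ s) * el i 2 s * el i i.rev u

theorem x7u_X01 (s : K) : (x7uX φ 0 1 s).1 = !![1, s, 0, 0, 0;
    0, 1, 0, 0, 0;
    0, 0, 1, 0, 0;
    0, 0, 0, 1, φ s;
    0, 0, 0, 0, 1] := by
  rw [x7uX, natb1_val (by decide) (by decide), x7u_eta (1 + _)]
  simp only [Nat.reduceAdd, Fin.isValue, x7u_rev, Fin.rev_zero, Fin.reduceLast, Matrix.add_apply, one_apply_eq, one_ne_zero, and_false, not_false_eq_true, single_apply_of_ne, Fin.reduceEq, and_self, add_zero, ne_eq, zero_ne_one, one_apply_ne, single_apply_same, zero_add, and_true]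

theorem x7u_X10 (s : K) : (x7uX φ 1 0 s).1 = !![1, 0, 0, 0, 0;
    s, 1, 0, 0, 0;
    0, 0, 1, 0, 0;
    0, 0, 0, 1, 0;
    0, 0, 0, φ s, 1] := by
  rw [x7uX, natb1_val (by decide) (by decide), x7u_eta (1 + _)]
  simp only [Nat.reduceAdd, Fin.isValue, Fin.rev_zero, Fin.reduceLast, x7u_rev, Matrix.add_apply, one_apply_eq, one_ne_zero, and_true, not_false_eq_true, single_apply_of_ne, Fin.reduceEq, and_self, add_zero, ne_eq, zero_ne_one, one_apply_ne, single_apply_same, zero_add, and_false]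

theorem x7u_X03 (s : K) : (x7uX φ 0 3 s).1 = !![1, 0, 0, s, 0;
    0, 1, 0, 0, φ s;
    0, 0, 1, 0, 0;
    0, 0, 0, 1, 0;
    0, 0, 0, 0, 1] := by
  rw [x7uX, natb1_val (by decide) (by decide), x7u_eta (1 + _)]
  simp only [Nat.reduceAdd, Fin.isValue, x7u_rev, Fin.rev_zero, Fin.reduceLast, Matrix.add_apply, one_apply_eq, Fin.reduceEq, and_false, not_false_eq_true, single_apply_of_ne, one_ne_zero, and_self, add_zero, ne_eq, zero_ne_one, one_apply_ne, single_apply_same, zero_add, and_true]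

theorem x7u_Y0 (s u : K) : (x7uY φ 0 s u).1 = !![1, 0, s, 0, u;
    0, 1, 0, 0, 0;
    0, 0, 1, 0, φ s;
    0, 0, 0, 1, 0;
    0, 0, 0, 0, 1] := by
  rw [x7uY, natb1_val3 (by decide) (by decide) (by decide), x7u_eta (1 + _)]
  simp only [Nat.reduceAdd, Fin.isValue, Fin.rev_zero, Fin.reduceLast, Matrix.add_apply, one_apply_eq, Fin.reduceEq, and_self, not_false_eq_true, single_apply_of_ne, and_false, add_zero, ne_eq, zero_ne_one, one_apply_ne, single_apply_same, zero_add, and_true, one_ne_zero]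

theorem x7u_Y1 (s u : K) : (x7uY φ 1 s u).1 = !![1, 0, 0, 0, 0;
    0, 1, s, u, 0;
    0, 0, 1, φ s, 0;
    0, 0, 0, 1, 0;
    0, 0, 0, 0, 1] := by
  rw [x7uY, natb1_val3 (by decide) (by decide) (by decide), x7u_eta (1 + _)]
  simp only [Nat.reduceAdd, Fin.isValue, x7u_rev, Matrix.add_apply, one_apply_eq, Fin.reduceEq, and_self, not_false_eq_true, single_apply_of_ne, one_ne_zero, add_zero, ne_eq, zero_ne_one, one_apply_ne, and_true, and_false, single_apply_same, zero_add]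

theorem x7u_Y3 (s u : K) : (x7uY φ 3 s u).1 = !![1, 0, 0, 0, 0;
    0, 1, 0, 0, 0;
    0, φ s, 1, 0, 0;
    0, u, s, 1, 0;
    0, 0, 0, 0, 1] := by
  rw [x7uY, natb1_val3 (by decide) (by decide) (by decide), x7u_eta (1 + _)]
  simp only [Nat.reduceAdd, Fin.isValue, x7u_rev, Matrix.add_apply, one_apply_eq, Fin.reduceEq, one_ne_zero, and_self, not_false_eq_true, single_apply_of_ne, add_zero, ne_eq, zero_ne_one, one_apply_ne, and_true, and_false, single_apply_same, zero_add]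

theorem x7u_short [CharP K 2] (hφ : ∀ s, φ (φ s) = s) {i j : Fin (4 + 1)} (h : i ≠ j) (h1 : j ≠ i.rev)
    (h2 : i ≠ i.rev) (h3 : j ≠ j.rev) (g : GL (Fin (4 + 1)) K) :
    g ∈ rt φ i j ↔ ∃ s, g = x7uX φ i j s := by
  rw [rt_short hφ h h1 h2 h3]
  simp only [Nat.reduceAdd, CharTwo.neg_eq, one_pow, one_mul, x7uX]

theorem x7u_mid [CharP K 2] (hφ : ∀ s, φ (φ s) = s) {i : Fin (4 + 1)} (h : i ≠ 2)
    (g : GL (Fin (4 + 1)) K) : g ∈ rt φ i 2 ↔ ∃ s u, u + φ u = s * φ s ∧ g = x7uY φ i s u := by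
  rw [rt_mid hφ h (by decide)]
  simp only [CharTwo.neg_eq, Nat.reduceAdd, Fin.isValue, Fin.coe_ofNat_eq_mod, Nat.reduceMod, one_pow, one_mul, x7uY]

/-- Monomial involutions. -/
def x7uN (φ : K →+* K) (s : K) : GL (Fin (4 + 1)) K := x7uX φ 1 0 s⁻¹ * x7uX φ 0 1 s * x7uX φ 1 0 s⁻¹

/-- The transposition of the basis vectors `1` and `3`. -/
def x7uW (φ : K →+* K) : GL (Fin (4 + 1)) K := x7uY φ 3 0 1 * x7uY φ 1 0 1 * x7uY φ 3 0 1

/-- The unipotent radical of the stabiliser of the first basis line. -/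
def x7uQ (φ : K →+* K) (x y z a : K) : GL (Fin (4 + 1)) K :=
  x7uX φ 0 3 z * x7uY φ 0 y (a - z * φ x) * x7uX φ 0 1 x

theorem x7u_N [CharP K 2] {s : K} (h : s ≠ 0) : (x7uN φ s).1 = !![0, s, 0, 0, 0; s⁻¹, 0, 0, 0, 0;
    0, 0, 1, 0, 0; 0, 0, 0, 0, φ s; 0, 0, 0, (φ s)⁻¹, 0] := by
  have : φ s ≠ 0 := (map_ne_zero φ).2 h
  simp only [x7uN, Units.val_mul, x7u_X01, x7u_X10, x7u_mul]
  simp [h, this, CharTwo.add_self_eq_zero]

theorem x7u_W [CharP K 2] : (x7uW φ).1 = !![1, 0, 0, 0, 0; 0, 0, 0, 1, 0; 0, 0, 1, 0, 0;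
    0, 1, 0, 0, 0; 0, 0, 0, 0, 1] := by
  simp only [x7uW, Units.val_mul, x7u_Y1, x7u_Y3, x7u_mul]
  simp [CharTwo.add_self_eq_zero]

theorem x7u_Q (x y z a : K) : (x7uQ φ x y z a).1 = !![1, x, y, z, a;
    0, 1, 0, 0, φ z;
    0, 0, 1, 0, φ y;
    0, 0, 0, 1, φ x;
    0, 0, 0, 0, 1] := by
  simp only [x7uQ, Units.val_mul, x7u_X01, x7u_X03, x7u_Y0, x7u_mul]
  simp

theorem x7u_QQ {H : Subgroup (GL (Fin (4 + 1)) K)} {x y z a x' y' z' a' x'' y'' z'' a'' : K}
    (h : x7uQ φ x y z a ∈ H) (h' : x7uQ φ x' y' z' a' ∈ H) (e1 : x'' = x' + x) (e2 : y'' = y' + y)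
    (e3 : z'' = z' + z) (e4 : a'' = a' + x * φ z' + y * φ y' + z * φ x' + a) :
    x7uQ φ x'' y'' z'' a'' ∈ H := by
  convert mul_mem h h' using 1
  refine Units.ext ?_
  simp only [Units.val_mul, x7u_Q, x7u_mul, e1, e2, e3, e4]
  simp

theorem x7u_cj {G : Type} [Group G] {H : Subgroup G} {g x y : G} (hg : g ∈ H) (hx : x ∈ H)
    (e : g * x = y * g) : y ∈ H := by
  rw [← mul_inv_eq_iff_eq_mul.2 e]
  exact mul_mem (mul_mem hg hx) (inv_mem hg)

/-- Four conjugate involutions of rank two, two of them commuting, generate `SU(5, 2^k)`. -/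
theorem tU5e_of [Finite K] (hφ : ∀ s, φ (φ s) = s) (ne : φ ≠ RingHom.id K) (h2 : (2 : K) = 0)
    (no : No3 (sug 4 φ)) : IsLeast {n | Good (chev (CartanMatrix.A 4) Fin.revPerm φ) n} 4 := by
  have : CharP K 2 := CharTwo.of_one_ne_zero_of_two_eq_zero one_ne_zero h2
  obtain ⟨z, zz, oz, -, sp, -⟩ := norm_gen hφ ne
  have sp2 : Spn (z ^ 2) := by simpa [ringChar.eq K 2] using sp.frob 1
  obtain ⟨m, m0, hm⟩ := hilbert90 hφ ne zz
  have m1 : φ m ≠ 0 := (map_ne_zero φ).2 m0
  have m2 : 1 + m ^ 2 ≠ 0 := fun e => by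
    have e1 : m = 1 := by
      have : (m - 1) ^ 2 = 0 := by linear_combination e - m * h2
      exact sub_eq_zero.1 (pow_eq_zero_iff two_ne_zero |>.1 this)
    have : 0 < Nat.card (Fix φ) := Nat.card_pos
    rw [e1, map_one, mul_one] at hm
    rw [hm, orderOf_one] at oz
    omega
  obtain rfl : z = m / φ m := eq_div_of_mul_eq m1 hm
  obtain ⟨t, ht⟩ := trace_surj hφ ne (map_one φ)
  have et : φ t = 1 + t := by linear_combination ht - t * h2
  have s01 : ∀ s, x7uX φ 0 1 s ∈ sug 4 φ := fun s =>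
    rt_mem ((x7u_short hφ (by decide) (by decide) (by decide) (by decide) _).2 ⟨s, rfl⟩)
  have s10 : ∀ s, x7uX φ 1 0 s ∈ sug 4 φ := fun s =>
    rt_mem ((x7u_short hφ (by decide) (by decide) (by decide) (by decide) _).2 ⟨s, rfl⟩)
  have s03 : ∀ s, x7uX φ 0 3 s ∈ sug 4 φ := fun s =>
    rt_mem ((x7u_short hφ (by decide) (by decide) (by decide) (by decide) _).2 ⟨s, rfl⟩)
  have sY : ∀ {i : Fin (4 + 1)}, i ≠ 2 → ∀ {s u}, u + φ u = s * φ s → x7uY φ i s u ∈ sug 4 φ :=
    fun h s u e => rt_mem ((x7u_mid hφ h _).2 ⟨s, u, e, rfl⟩)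
  have c0 : (1 : K) + φ 1 = 0 * φ 0 := by rw [map_one, zero_mul, CharTwo.add_self_eq_zero]
  have c1 : t + φ t = 1 * φ 1 := by rw [map_one, one_mul, ht]
  have c2 : φ t + φ (φ t) = 1 * φ 1 := by rw [hφ, add_comm, c1]
  have sN : ∀ s, x7uN φ s ∈ sug 4 φ := fun s => mul_mem (mul_mem (s10 _) (s01 _)) (s10 _)
  have sW : x7uW φ ∈ sug 4 φ :=
    mul_mem (mul_mem (sY (by decide) c0) (sY (by decide) c0)) (sY (by decide) c0)
  have sc : ∀ {x g a : GL (Fin (4 + 1)) K}, x * g = g * a → Sc (x⁻¹ * (g * a * g⁻¹)) :=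
    fun e => sc_of_eq (eq_mul_inv_of_mul_eq e)
  have vA := x7u_N (φ := φ) one_ne_zero
  have vN := x7u_N (φ := φ) m0
  simp only [map_one, inv_one] at vA
  have vC : (x7uY φ 1 1 t * x7uY φ 3 0 1 * x7uY φ 1 1 (φ t) * x7uY φ 0 0 1).1 = !![1, 0, 0, 0, 1;
      0, 1 + t, t, t * (1 + t), 0; 0, 1, 0, 1 + t, 0; 0, 1, 1, t, 0; 0, 0, 0, 0, 1] := by
    simp only [Units.val_mul, x7u_Y0, x7u_Y1, x7u_Y3, x7u_mul, et]
    simp [CharTwo.add_self_eq_zero]
    clear * - h2
    grind
  refine fourSU (r := 4) (by norm_num) hφ (fun _ => ne) no (a := x7uN φ 1)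
    (b := x7uX φ 0 3 1) (c := x7uY φ 1 1 t * x7uY φ 3 0 1 * x7uY φ 1 1 (φ t) * x7uY φ 0 0 1)
    (d := x7uN φ m * x7uN φ 1 * (x7uN φ m)⁻¹) (g := x7uW φ * x7uX φ 1 0 1)
    (g' := x7uY φ 1 1 t * x7uW φ * x7uX φ 0 1 1 * x7uX φ 1 0 t * x7uW φ * x7uX φ 1 0 1)
    (sN 1) (s03 1) (mul_mem (mul_mem (mul_mem (sY (by decide) c1) (sY (by decide) c0))
      (sY (by decide) c2)) (sY (by decide) c0))
    (mul_mem (mul_mem (sN m) (sN 1)) (inv_mem (sN m))) (mul_mem sW (s10 1))
    (mul_mem (mul_mem (mul_mem (mul_mem (mul_mem (sY (by decide) c1) sW) (s01 1)) (s10 t)) sW)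
      (s10 1)) (sN m)
    ⟨1, ?_⟩ (sc (Units.ext ?_)) (sc (Units.ext ?_)) (sc_of_eq rfl) (sc_of_eq (Units.ext ?_)) ?_ ?_
  · rw [one_smul]
    refine Eq.trans ?_ x7u_one.symm
    simp only [Units.val_mul, vA, x7u_mul]
    simp
  · simp only [Units.val_mul, vA, x7u_W, x7u_X03, x7u_X10, x7u_mul]
    simp [CharTwo.add_self_eq_zero]
  · rw [Units.val_mul, vC]
    simp only [Units.val_mul, vA, x7u_W, x7u_Y1, x7u_X01, x7u_X10, x7u_mul, et]
    simp [CharTwo.add_self_eq_zero, ← add_assoc (1 : K) 1]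
    clear * - h2
    grind
  · simp only [Units.val_mul, vA, x7u_X03, x7u_mul]
    simp
  · rintro ⟨y, e⟩
    have e1 : (x7uX φ 0 3 1).1 = (x7uN φ 1).1 * y • 1 := by
      rw [← e, ← Units.val_mul, mul_inv_cancel_left]
    have e2 := congrFun₂ e1 0 0
    rw [vA, x7u_X03] at e2
    simp at e2
  · intro H _ ha hb hc hd
    have hh : x7uN φ m * x7uN φ 1 * (x7uN φ m * x7uN φ 1) ∈ H := by
      have e : (x7uN φ m)⁻¹ = x7uN φ m := inv_eq_of_mul_eq_one_right (Units.ext (by
        simp only [Units.val_mul, vN, x7u_mul, x7u_one]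
        simp [m0, m1]))
      simpa only [e, mul_assoc] using mul_mem hd ha
    have pT : ∀ {x y z a : K}, x7uQ φ x y z a ∈ H →
        x7uQ φ (m ^ 4 * x) (m ^ 2 * y) ((m / φ m) ^ 2 * z) ((m * φ m) ^ 2 * a) ∈ H := fun k =>
      x7u_cj hh k (Units.ext (by
        simp only [Units.val_mul, vA, vN, x7u_Q, x7u_mul]
        simp [hφ]
        field_simp
        simp))
    have p03 : ∀ s, x7uQ φ 0 0 s 0 ∈ H :=
      sp2.ind (fun s s' k k' => x7u_QQ k' k (by simp) (by simp) rfl (by simp)) one_ne_zero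
        (by simpa [x7uQ, x7uX, x7uY] using hb) fun s k => by simpa using pT k
    have pZ : ∀ s, x7uQ φ s s (s * t) 0 ∈ H := fun s => x7u_cj hc (p03 s) (Units.ext (by
      rw [Units.val_mul, Units.val_mul (x7uQ ..), vC]
      simp only [x7u_Q, x7u_mul, map_mul, et]
      simp [CharTwo.add_self_eq_zero]
      clear * - h2
      grind))
    have p04 : ∀ s, φ s = s → x7uQ φ 0 0 0 s ∈ H := fun s hs => by
      obtain ⟨u, rfl⟩ := trace_surj hφ ne hs
      have k := x7u_QQ (pZ u) (p03 1) rfl rfl rfl rfl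
      refine x7u_QQ k k (CharTwo.add_self_eq_zero _).symm (CharTwo.add_self_eq_zero _).symm
        (CharTwo.add_self_eq_zero _).symm ?_
      simp only [map_add, map_mul, map_one, map_zero, et]
      linear_combination (-u - u * φ u * (1 + t)) * h2
    have p01 : ∀ s, x7uQ φ s 0 0 0 ∈ H := fun s => by
      obtain ⟨s, rfl⟩ : ∃ s', s = m ^ 2 * s' * (1 + m ^ 2) := ⟨s / (m ^ 2 * (1 + m ^ 2)), by field_simp⟩
      have k := x7u_QQ (pZ (m ^ 2 * s)) (pT (pZ s)) rfl rfl rfl rfl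
      have k1 := x7u_QQ k (p03 _) rfl rfl (CharTwo.add_self_eq_zero _).symm rfl
      refine x7u_QQ k1 (p04 ((m * φ m) ^ 2 * (s * φ s) * (1 + t * φ m ^ 2 + φ t * m ^ 2)) ?_)
        (by ring) ?_ (by simp) ?_
      · simp only [map_add, map_mul, map_one, map_pow, hφ]
        ring
      · simp [CharTwo.add_self_eq_zero]
      · simp only [map_add, map_mul, map_zero, map_pow, map_div₀, hφ]
        field_simp
        ring_nf
        simp [CharTwo.two_eq_zero]
    have p02 : ∀ s u, u + φ u = s * φ s → x7uQ φ 0 s 0 u ∈ H := fun s u e => by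
      have k := x7u_QQ (pZ s) (p01 s) (CharTwo.add_self_eq_zero _).symm rfl rfl rfl
      have k1 := x7u_QQ k (p03 _) rfl rfl (CharTwo.add_self_eq_zero _).symm rfl
      refine x7u_QQ k1 (p04 (u + t * (s * φ s)) ?_) (by simp) (by simp) (by simp) ?_
      · simp only [map_add, map_mul, hφ, et]
        linear_combination e + (s * φ s - u) * h2
      · simp only [map_zero]
        linear_combination (-t * (s * φ s)) * h2
    have p10 : ∀ s, x7uX φ 1 0 s ∈ H := fun s => x7u_cj ha (p01 s) (Units.ext (by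
      simp only [Units.val_mul, vA, x7u_X10, x7u_Q, x7u_mul]
      simp))
    have p12 : ∀ s u, u + φ u = s * φ s → x7uY φ 1 s u ∈ H := fun s u e =>
      x7u_cj ha (p02 s u e) (Units.ext (by
        simp only [Units.val_mul, vA, x7u_Y1, x7u_Q, x7u_mul]
        simp))
    have p31 : x7uY φ 3 0 1 ∈ H := by
      have k : x7uY φ 0 0 1 ∈ H := by simpa [x7uQ, x7uX] using p04 1 (map_one φ)
      rwa [H.mul_mem_cancel_right k, H.mul_mem_cancel_right (p12 _ _ c2),
        H.mul_mem_cancel_left (p12 _ _ c1)] at hc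
    have pW : x7uW φ ∈ H := mul_mem (mul_mem p31 (p12 _ _ c0)) p31
    have r01 : rt φ 0 1 ⊆ H := fun g hg => by
      obtain ⟨s, rfl⟩ := (x7u_short hφ (by decide) (by decide) (by decide) (by decide) g).1 hg
      have k := p01 s
      rwa [show x7uQ φ s 0 0 0 = x7uX φ 0 1 s by simp [x7uQ, x7uX, x7uY]] at k
    have r10 : rt φ 1 0 ⊆ H := fun g hg => by
      obtain ⟨s, rfl⟩ := (x7u_short hφ (by decide) (by decide) (by decide) (by decide) g).1 hg
      exact p10 s
    have r12 : rt φ 1 2 ⊆ H := fun g hg => by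
      obtain ⟨s, u, e, rfl⟩ := (x7u_mid hφ (by decide) g).1 hg
      exact p12 s u e
    have r32 : rt φ 3 2 ⊆ H := fun g hg => by
      obtain ⟨s, u, e, rfl⟩ := (x7u_mid hφ (by decide) g).1 hg
      refine x7u_cj pW (p12 s u e) (Units.ext ?_)
      simp only [Units.val_mul, x7u_W, x7u_Y1, x7u_Y3, x7u_mul]
      simp
    intro i
    fin_cases i
    · exact ⟨r01, r10⟩
    · exact ⟨r12, (rt_rev 3 2).le.trans r32⟩
    · exact ⟨(rt_rev 1 2).le.trans r12, r32⟩
    · exact ⟨(rt_rev 0 1).le.trans r01, (rt_rev 1 0).le.trans r10⟩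

theorem x7u_two [Finite K] (h : Nat.card K = 4) : (2 : K) = 0 := by
  have := Fintype.ofFinite K
  have e := FiniteField.cast_card_eq_zero K
  rw [← Nat.card_eq_fintype_card, h] at e
  exact pow_eq_zero_iff two_ne_zero |>.1 (show (2 : K) ^ 2 = 0 by rw [← e]; norm_num)

theorem tU52_of [Finite K] (hφ : ∀ s, φ (φ s) = s) (ne : φ ≠ RingHom.id K) (h : Nat.card K = 4)
    (no : No3 (sug 4 φ)) : IsLeast {n | Good (chev (CartanMatrix.A 4) Fin.revPerm φ) n} 4 :=
  tU5e_of hφ ne (x7u_two h) no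

end Pool.Agent.MP_c78e8e_al.H75

end

section

namespace Pool.Agent.MP_c78e8e_al.H75

open Subgroup Matrix

variable {K : Type} [Field K] {φ : K →+* K}

theorem tU52 [Finite K] (hφ : ∀ s, φ (φ s) = s) (ne : φ ≠ RingHom.id K) (h : Nat.card K = 4) :
    IsLeast {n | Good (chev (CartanMatrix.A 4) Fin.revPerm φ) n} 4 :=
  tU52_of hφ ne h (no3_su52 hφ ne h)

end Pool.Agent.MP_c78e8e_al.H75

end

section

namespace Pool.Agent.MP_c78e8e_al.H75

open Subgroup Matrix

variable {K : Type} [Field K] {φ : K →+* K}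

theorem x9_form (u v : Fin 1 → ℤ) : form (CartanMatrix.A 1) u v = 2 * u 0 * v 0 := by
  simp only [form, dotProduct, Finset.univ_unique, Fin.default_eq_zero, Fin.isValue, mulVec, CartanMatrix.A, Fin.val_eq_zero, zero_add, one_ne_zero, or_self, ↓ reduceIte, of_apply, ite_mul, zero_mul, Finset.sum_ite_eq, Finset.mem_singleton, mul_ite, mul_zero, Finset.sum_ite_eq']; ring

/-- The positive root. -/
def x9p : Root (CartanMatrix.A 1) := ⟨fun _ => 1, by simp [x9_form]⟩

/-- The negative root. -/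
def x9n : Root (CartanMatrix.A 1) := ⟨fun _ => -1, by simp [x9_form]⟩

theorem x9_root (u : Root (CartanMatrix.A 1)) : u = x9p ∨ u = x9n := by
  have h := u.2
  rw [x9_form] at h
  have : u.1 0 = 1 ∨ u.1 0 = -1 := mul_self_eq_one_iff.1 (by linarith)
  exact this.imp (fun e => Subtype.ext (funext fun i => by rw [Subsingleton.elim i 0, e]; rfl))
    fun e => Subtype.ext (funext fun i => by rw [Subsingleton.elim i 0, e]; rfl)

/-- The Lie algebra as traceless matrices. -/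
def x9io (v : Lie (CartanMatrix.A 1) K) : Matrix (Fin 2) (Fin 2) K :=
  !![v.1 0, v.2 x9p; -v.2 x9n, -v.1 0]

/-- The inverse of `x9io`. -/
def x9ka (X : Matrix (Fin 2) (Fin 2) K) : Lie (CartanMatrix.A 1) K :=
  (fun _ => X 0 0, fun u => if u.1 0 = 1 then X 0 1 else -X 1 0)

theorem x9_inj : Function.Injective (x9io (K := K)) := fun v w h => by
  have h0 := congrFun (congrFun h 0) 0
  have h1 := congrFun (congrFun h 0) 1
  have h2 := congrFun (congrFun h 1) 0
  simp [x9io] at h0 h1 h2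
  refine Prod.ext (funext fun i => by rwa [Subsingleton.elim i 0]) (funext fun u => ?_)
  rcases x9_root u with rfl | rfl <;> assumption

theorem x9_ka {X : Matrix (Fin 2) (Fin 2) K} (h : X.trace = 0) : x9io (x9ka X) = X := by
  rw [trace_fin_two] at h
  ext i j
  fin_cases i <;> fin_cases j <;> simp [x9io, x9ka, x9p, x9n]
  linear_combination -h

theorem x9_co (v : Lie (CartanMatrix.A 1) K) (u : Fin 1 → ℤ) : co (CartanMatrix.A 1) v u =
    if u 0 = 1 then v.2 x9p else if u 0 = -1 then v.2 x9n else 0 := by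
  unfold co
  split_ifs with h h1 h2 h3 h4
  · exact congrArg v.2 (Subtype.ext (funext fun i => by rw [Fin.fin_one_eq_zero i]; exact h1))
  · exact congrArg v.2 (Subtype.ext (funext fun i => by rw [Fin.fin_one_eq_zero i]; exact h2))
  · rcases x9_root ⟨u, h⟩ with e | e
    exacts [absurd (congrFun (congrArg Subtype.val e) 0) h1,
      absurd (congrFun (congrArg Subtype.val e) 0) h2]
  · simp [x9_form, h3] at h
  · simp [x9_form, h4] at h
  · rfl

theorem x9_tr : ∃ Ψ : GL (Fin (1 + 1)) K →* Equiv.Perm (Lie (CartanMatrix.A 1) K),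
    (∀ g, Ψ g = 1 ↔ Sc g) ∧ slg 1 K ≤ (chev (CartanMatrix.A 1) 1 (RingHom.id K)).comap Ψ ∧
    ∀ H : Subgroup (Equiv.Perm (Lie (CartanMatrix.A 1) K)), (∀ s,
      el 0 1 s ∈ H.comap Ψ ∧ el 1 0 s ∈ H.comap Ψ) →
      chev (CartanMatrix.A 1) 1 (RingHom.id K) ≤ H := by
  have inj := x9_inj (K := K)
  have key : ∀ (g : GL (Fin 2) K) v, x9io (x9ka (g.1 * x9io v * (g⁻¹).1)) =
      g.1 * x9io v * (g⁻¹).1 := fun g v => x9_ka (by rw [trace_units_conj]; simp [x9io])
  let F : GL (Fin 2) K →* Function.End (Lie (CartanMatrix.A 1) K) :=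
    { toFun := fun g v => x9ka (g.1 * x9io v * (g⁻¹).1)
      map_one' := funext fun v => inj (by rw [key]; simp; rfl)
      map_mul' := fun g k => funext fun v => inj (by
        change x9io (x9ka _) = x9io (x9ka (g.1 * x9io (x9ka _) * _))
        rw [key, key, key, _root_.mul_inv_rev, Units.val_mul, Units.val_mul]
        simp only [mul_assoc]) }
  have hF : ∀ g v, x9io (F.toHomPerm g v) = g.1 * x9io v * (g⁻¹).1 := key
  have xp : ∀ t v, F.toHomPerm (el (r := 1) 0 1 t) v =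
      v + t • ad _ x9p.1 v + t ^ 2 • ad2 _ x9p.1 v := fun t v => inj (by
    rw [hF, el_val (by decide), el_inv (by decide)]
    ext i j
    fin_cases i <;> fin_cases j <;>
      simp [x9io, ad, ad2, x9_co, x9_form, x9p, x9n, mul_apply, Fin.sum_univ_two, single,
        funext_iff, one_apply] <;> ring)
  have xn : ∀ t v, F.toHomPerm (el (r := 1) 1 0 (-t)) v =
      v + t • ad _ x9n.1 v + t ^ 2 • ad2 _ x9n.1 v := fun t v => inj (by
    rw [hF, el_val (by decide), el_inv (by decide)]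
    ext i j
    fin_cases i <;> fin_cases j <;>
      simp [x9io, ad, ad2, x9_co, x9_form, x9p, x9n, mul_apply, Fin.sum_univ_two, single,
        funext_iff, one_apply] <;> ring)
  refine ⟨F.toHomPerm, fun g => ⟨fun e => ?_, ?_⟩, ?_, fun H k => ?_⟩
  · obtain ⟨z, hz⟩ := mem_range_scalar_of_commute_single (M := g.1) fun i j h => by
      have := hF g (x9ka (single i j 1))
      rw [e, Equiv.Perm.one_apply, x9_ka (trace_single_eq_of_ne _ _ _ h)] at this
      change _ * _ = _ * _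
      nth_rewrite 1 [this]
      rw [mul_assoc, Units.inv_mul, mul_one]
    exact ⟨z, by rw [← hz, scalar_apply, smul_one_eq_diagonal]⟩
  · rintro ⟨z, hz⟩
    ext1 v
    refine inj ?_
    rw [hF, Equiv.Perm.one_apply, show g.1 * x9io v = x9io v * g.1 by simp [hz], mul_assoc,
      Units.mul_inv, mul_one]
  · rw [slg, Subgroup.closure_le]
    rintro _ ⟨i, j, s, rfl⟩
    fin_cases i <;> fin_cases j
    · simp
    · exact subset_closure ⟨fun v => by rw [natb_one, natb_one], x9p,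
        subset_closure (natb_un _ (Or.inl ⟨s, xp s⟩))⟩
    · exact subset_closure ⟨fun v => by rw [natb_one, natb_one], x9n,
        subset_closure (natb_un _ (Or.inl ⟨-s, by simpa only [Nat.reduceAdd, Fin.mk_one, Fin.isValue, Fin.zero_eta, MonoidHom.toHomPerm_apply_apply, neg_smul, even_two, Even.neg_pow, Prod.forall, neg_neg] using xn (-s)⟩))⟩
    · simp
  · rw [chev, Subgroup.closure_le]
    rintro u ⟨-, β, hu⟩
    refine (Subgroup.closure_le H).2 (Set.iUnion_subset fun n => ?_) hu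
    rintro g ⟨t, ht⟩
    rw [one_pow, Equiv.Perm.coe_one, Function.comp_id] at ht
    rcases x9_root β with rfl | rfl
    · rw [show g = F.toHomPerm (el (r := 1) 0 1 t) from Equiv.ext fun v => (ht v).trans (xp t v).symm]
      exact (k t).1
    · rw [show g = F.toHomPerm (el (r := 1) 1 0 (-t)) from
        Equiv.ext fun v => (ht v).trans (xn t v).symm]
      exact (k (-t)).2

/-- At most twelve vectors, closed under sign changes. -/
def x9T (a b c d e f : K) : Set (K × K × K) :=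
  {v | v.1 = 0 ∧ v.2.1 ^ 2 = a ^ 2 ∧ v.2.2 ^ 2 = b ^ 2 ∨
    v.2.1 = 0 ∧ v.2.2 ^ 2 = c ^ 2 ∧ v.1 ^ 2 = d ^ 2 ∨ v.2.2 = 0 ∧ v.1 ^ 2 = e ^ 2 ∧ v.2.1 ^ 2 = f ^ 2}

theorem x9_card (a b c d e f : K) : (x9T a b c d e f).ncard ≤ 12 := by
  classical
  refine (Set.ncard_le_ncard (t := ↑[(0, a, b), (0, a, -b), (0, -a, b), (0, -a, -b), (d, 0, c),
    (d, 0, -c), (-d, 0, c), (-d, 0, -c), (e, f, 0), (e, -f, 0), (-e, f, 0), (-e, -f, 0)].toFinset)
    ?_).trans (by rw [Set.ncard_coe_finset]; exact List.toFinset_card_le _)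
  rintro ⟨x, y, z⟩ h
  simp only [x9T, Set.mem_ofPred_eq, sq_eq_sq_iff_eq_or_eq_neg] at h
  rcases h with ⟨rfl, rfl | rfl, rfl | rfl⟩ | ⟨rfl, rfl | rfl, rfl | rfl⟩ |
    ⟨rfl, rfl | rfl, rfl | rfl⟩ <;>
    simp only [List.coe_toFinset, Set.mem_ofPred_eq, List.mem_cons, true_or, or_true]

theorem x9_mem {a b c d e f p q r p' q' r' : K} (m : (p, q, r) ∈ x9T a b c d e f)
    (h : p' ^ 2 = p ^ 2) (k : q' ^ 2 = q ^ 2) (l : r' ^ 2 = r ^ 2) : (p', q', r') ∈ x9T a b c d e f := by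
  have z : ∀ {u v : K}, u ^ 2 = v ^ 2 → (u = 0 ↔ v = 0) := fun e => by
    rw [← sq_eq_zero_iff, e, sq_eq_zero_iff]
  simpa only [x9T, Set.mem_ofPred_eq, z h, z k, z l, h, k, l] using m

/-- The half turn about `(x, y, z)` preserves one of the small sets. -/
def x9P (x y z : K) : Prop := ∃ a b c d e f : K,
  (a ^ 2 + b ^ 2 ≠ 0 ∨ c ^ 2 + d ^ 2 ≠ 0 ∨ e ^ 2 + f ^ 2 ≠ 0) ∧ ∀ p q r, (p, q, r) ∈ x9T a b c d e f →
    (2 * (x * p + y * q + z * r) * x - p, 2 * (x * p + y * q + z * r) * y - q,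
      2 * (x * p + y * q + z * r) * z - r) ∈ x9T a b c d e f

theorem x9P.rot {x y z : K} (h : x9P x y z) : x9P y z x := by
  obtain ⟨a, b, c, d, e, f, n, h⟩ := h
  refine ⟨c, d, e, f, a, b, or_rotate.1 n, fun p q r m => ?_⟩
  have := h r p q (or_rotate.2 m)
  rw [show x * r + y * p + z * q = y * p + z * q + x * r by ring] at this
  exact or_rotate.1 this

theorem x9P.sgn {x y z x' : K} (h : x9P x y z) (k : x' ^ 2 = x ^ 2) : x9P x' y z := by
  rcases sq_eq_sq_iff_eq_or_eq_neg.1 k with rfl | rfl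
  · exact h
  obtain ⟨a, b, c, d, e, f, n, h⟩ := h
  exact ⟨a, b, c, d, e, f, n, fun p q r m => x9_mem (h (-p) q r (x9_mem m (neg_sq _) rfl rfl))
    (by ring) (by ring) (by ring)⟩

theorem x9P.sq {x y z x' y' z' : K} (h : x9P x y z) (k : x' ^ 2 = x ^ 2) (l : y' ^ 2 = y ^ 2)
    (m : z' ^ 2 = z ^ 2) : x9P x' y' z' := (((h.sgn k).rot.sgn l).rot.sgn m).rot

theorem x9_p0 (y z : K) : x9P 0 y z := by
  refine ⟨0, 0, 0, 1, 1, 0, by simp, fun p q r m => ?_⟩
  simp only [x9T, Set.mem_ofPred_eq] at m ⊢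
  grind

theorem x9_p1 {x y z : K} (hx : 4 * x ^ 2 = 1) (hy : 4 * y ^ 2 = 1) (hz : 2 * z ^ 2 = 1) :
    x9P x y z := by
  refine x9P.sq (x := x) (y := x) ⟨0, 1, 1, 0, z, z, by simp only [ne_eq, OfNat.ofNat_ne_zero, not_false_eq_true, zero_pow, one_pow, zero_add, one_ne_zero, add_zero, true_or, or_self], fun p q r m => ?_⟩ rfl
    (by grind) rfl
  simp only [x9T, Set.mem_ofPred_eq] at m ⊢
  rcases m with m | m | ⟨m, m1, m2⟩
  · right; right; grind
  · right; right; grind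
  · rcases sq_eq_sq_iff_eq_or_eq_neg.1 (m2.trans m1.symm) with rfl | rfl
    · left; grind
    · right; right; grind

theorem x9_p2 {x y z : K} (h3 : (3 : K) = 0) (hx : x ^ 2 = 1) (hy : y ^ 4 = -1) (hz : z ^ 2 = -y ^ 2) :
    x9P x y z := by
  obtain ⟨t, ht, e⟩ : ∃ t : K, t ^ 2 = t + 1 ∧ y ^ 2 = t ^ 2 := by
    rcases mul_eq_zero.1 (show (y ^ 2 - y - 1) * (y ^ 2 + y - 1) = 0 by grind) with k | k
    exacts [⟨y, by grind, rfl⟩, ⟨-y, by grind, by ring⟩]
  refine x9P.sq (x := 1) (z := t - 1) ⟨t, 1, t, 1, t, 1, Or.inl fun k => one_ne_zero (α := K)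
    (by grind), fun p q r m => ?_⟩ (by grind) e (by grind)
  simp only [x9T, Set.mem_ofPred_eq] at m ⊢
  clear hx hy hz e
  rcases m with ⟨m, m1, m2⟩ | ⟨m, m1, m2⟩ | ⟨m, m1, m2⟩
  · rcases sq_eq_sq_iff_eq_or_eq_neg.1 (show q ^ 2 = (t * r) ^ 2 by grind) with rfl | rfl
    · right; right; grind
    · right; left; grind
  · rcases sq_eq_sq_iff_eq_or_eq_neg.1 (show r ^ 2 = (t * p) ^ 2 by grind) with rfl | rfl
    · left; grind
    · right; left; grind
  · rcases sq_eq_sq_iff_eq_or_eq_neg.1 (show p ^ 2 = (t * q) ^ 2 by grind) with rfl | rfl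
    · left; grind
    · right; right; grind

theorem x9_fld [Finite K] {n : ℕ} (h : Nat.card K = n + 1) :
    ((n + 1 : ℕ) : K) = 0 ∧ ∀ x : K, x ≠ 0 → x ^ n = 1 := by
  have := Fintype.ofFinite K
  rw [Nat.card_eq_fintype_card] at h
  exact ⟨h ▸ FiniteField.cast_card_eq_zero K,
    fun x n => by simpa only [h, add_tsub_cancel_right] using FiniteField.pow_card_sub_one_eq_one x n⟩

theorem x9_three [Finite K] (h : Nat.card K = 9) : (3 : K) = 0 :=
  mul_self_eq_zero.1 (by have := (x9_fld h).1; push_cast at this; linear_combination this)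

theorem x9_P [Finite K] (h : Nat.card K = 7 ∨ Nat.card K = 9) {x y z : K}
    (e : x ^ 2 + y ^ 2 + z ^ 2 = 1) : x9P x y z := by
  rcases eq_or_ne x 0 with rfl | hx
  · exact x9_p0 _ _
  rcases eq_or_ne y 0 with rfl | hy
  · exact (x9_p0 _ _).rot.rot
  rcases eq_or_ne z 0 with rfl | hz
  · exact (x9_p0 _ _).rot
  rcases h with h | h
  · have := Fintype.ofFinite K
    have f := ZMod.ringEquivOfPrime K (by decide : Nat.Prime 7)
      (Nat.card_eq_fintype_card.symm.trans h)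
    obtain ⟨x, rfl⟩ := f.surjective x
    obtain ⟨y, rfl⟩ := f.surjective y
    obtain ⟨z, rfl⟩ := f.surjective z
    have k : ∀ x y z : ZMod 7, x * (y * z) ≠ 0 → x ^ 2 + y ^ 2 + z ^ 2 = 1 →
        (4 * x ^ 2, 4 * y ^ 2, 2 * z ^ 2) = (1, 1, 1) ∨ (4 * z ^ 2, 4 * x ^ 2, 2 * y ^ 2) = (1, 1, 1) ∨
        (4 * y ^ 2, 4 * z ^ 2, 2 * x ^ 2) = (1, 1, 1) := by decide +kernel
    have l : ∀ {x y z : ZMod 7}, (4 * x ^ 2, 4 * y ^ 2, 2 * z ^ 2) = (1, 1, 1) →
        x9P (f x) (f y) (f z) := fun a => x9_p1 (by simpa only [map_mul, map_ofNat, map_pow, map_one] using congrArg (f ·.1) a)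
      (by simpa only [map_mul, map_ofNat, map_pow, map_one] using congrArg (f ·.2.1) a)
      (by simpa only [map_mul, map_ofNat, map_pow, map_one] using congrArg (f ·.2.2) a)
    rcases k x y z (fun e => mul_ne_zero hx (mul_ne_zero hy hz) (by
      rw [← map_mul, ← map_mul, e, map_zero])) (f.injective (by simpa only [map_add, map_pow, map_one] using e)) with a | a | a
    exacts [l a, (l a).rot, (l a).rot.rot]
  · have h3 := x9_three h
    have k := (x9_fld h).2
    have key : ∀ {x y z : K}, y ^ 8 = 1 → x ^ 2 + y ^ 2 + z ^ 2 = 1 → x ^ 2 = 1 → x9P x y z := by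
      intro x y z b e a
      have : (y ^ 2 - 1) * ((y ^ 2 + 1) * (y ^ 4 + 1)) = 0 := by linear_combination b
      simp only [mul_eq_zero] at this
      rcases this with c | c | c
      · exact x9_p1 (by grind) (by grind) (by grind)
      · exact (x9_p1 (by grind) (by grind) (by grind)).rot
      · exact x9_p2 h3 a (by grind) (by grind)
    have a := k x hx
    have b := k y hy
    have c := k z hz
    have : (x ^ 2 - 1) * ((y ^ 2 - 1) * (z ^ 2 - 1)) = 0 := by
      have : x ^ 6 + y ^ 6 + z ^ 6 = 1 := by grind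
      linear_combination (x * y * z) ^ 2 * (-this) + (y * z) ^ 2 * a + (x * z) ^ 2 * b +
        (x * y) ^ 2 * c + e
    simp only [mul_eq_zero, sub_eq_zero] at this
    rcases this with d | d | d
    exacts [key b e d, (key c (by linear_combination e) d).rot.rot,
      (key a (by linear_combination e) d).rot]

theorem x9_sc {g : GL (Fin 2) K} :
    Sc (r := 1) g ↔ g.1 0 1 = 0 ∧ g.1 1 0 = 0 ∧ g.1 1 1 = g.1 0 0 := by
  constructor
  · rintro ⟨z, h⟩
    have : g.1 = z • (1 : Matrix (Fin 2) (Fin 2) K) := h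
    simp [this]
  · rintro ⟨a, b, c⟩
    refine ⟨g.1 0 0, show g.1 = g.1 0 0 • (1 : Matrix (Fin 2) (Fin 2) K) from ?_⟩
    ext i j
    fin_cases i <;> fin_cases j <;> simp [a, b, c]

/-- Matrices of determinant one. -/
def x9m (a b c d : K) (h : a * d - b * c = 1) : GL (Fin (1 + 1)) K := show GL (Fin 2) K from
  ⟨!![a, b; c, d], !![d, -b; -c, a], by
    ext i j; fin_cases i <;> fin_cases j <;> simp only [Fin.zero_eta, Fin.isValue, mul_apply, of_apply, cons_val', cons_val_fin_one, cons_val_zero, Fin.sum_univ_two, cons_val_one, mul_neg, one_apply_eq, Fin.mk_one, ne_eq, zero_ne_one, not_false_eq_true, one_apply_ne, one_ne_zero] <;> grind, by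
    ext i j; fin_cases i <;> fin_cases j <;> simp only [Fin.zero_eta, Fin.isValue, mul_apply, of_apply, cons_val', cons_val_fin_one, cons_val_zero, Fin.sum_univ_two, cons_val_one, neg_mul, one_apply_eq, Fin.mk_one, ne_eq, zero_ne_one, not_false_eq_true, one_apply_ne, one_ne_zero] <;> grind⟩

theorem x9_up (s : K) : el (r := 1) 0 1 s = x9m 1 s 0 1 (by ring) := Units.ext (by
  rw [el_val (by decide)]
  ext i j
  fin_cases i <;> fin_cases j <;> simp [x9m])

theorem x9_dn (s : K) : el (r := 1) 1 0 s = x9m 1 0 s 1 (by ring) := Units.ext (by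
  rw [el_val (by decide)]
  ext i j
  fin_cases i <;> fin_cases j <;> simp [x9m])

theorem x9_slg (a b c d : K) (h : a * d - b * c = 1) : x9m a b c d h ∈ slg 1 K :=
  mem_slg (show det !![a, b; c, d] = 1 by rwa [det_fin_two_of])

theorem x9_mul (a b c d a' b' c' d' : K) (h : a * d - b * c = 1) (h' : a' * d' - b' * c' = 1) :
    x9m a b c d h * x9m a' b' c' d' h' = x9m (a * a' + b * c') (a * b' + b * d') (c * a' + d * c')
      (c * b' + d * d') (by grind) := Units.ext (by simp only [Nat.reduceAdd, x9m, Units.val_mul, cons_mul, Nat.succ_eq_add_one, vecMul_cons, head_cons, smul_cons, smul_eq_mul, smul_empty, tail_cons, empty_vecMul, add_zero, add_cons, empty_add_empty, empty_mul, Equiv.symm_apply_apply, neg_add_rev])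

theorem x9_inv (a b c d : K) (h : a * d - b * c = 1) :
    (x9m a b c d h)⁻¹ = x9m d (-b) (-c) a (by grind) := Units.ext rfl

theorem x9_scm {a b c d : K} {h : a * d - b * c = 1} :
    Sc (r := 1) (x9m a b c d h) ↔ b = 0 ∧ c = 0 ∧ d = a := x9_sc

theorem x9_ex {g : GL (Fin (1 + 1)) K} (h : g ∈ slg 1 K) : ∃ a b c d e, g = x9m a b c d e :=
  ⟨g.1 0 0, g.1 0 1, g.1 1 0, g.1 1 1, (det_fin_two g.1).symm.trans (slg_det h),
    Units.ext (eta_fin_two _)⟩

theorem x9_big [Finite K] (h2 : (2 : K) ≠ 0) {S : Set (Matrix (Fin 2) (Fin 2) K)}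
    (ng : ∀ Y ∈ S, -Y ∈ S) (cj : ∀ g ∈ slg 1 K, ∀ Y ∈ S, g.1 * Y * (g⁻¹).1 ∈ S)
    {X : Matrix (Fin 2) (Fin 2) K} (hX : X ∈ S) (tr : X.trace = 0) (n : X ≠ 0) :
    2 * Nat.card K ≤ S.ncard := by
  obtain ⟨Y, hY, m⟩ : ∃ Y ∈ S, Y 1 0 ≠ 0 := by
    by_contra h
    push Not at h
    have k := fun s : K => h _ (cj _ (x9_slg 1 0 s 1 (by ring)) X hX)
    have k0 := k 0
    have k1 := k 1
    have k2 := k (-1)
    rw [trace_fin_two] at tr
    simp only [Nat.reduceAdd, x9m, neg_zero, cons_mul, Nat.succ_eq_add_one, empty_mul, Equiv.symm_apply_apply, Units.inv_mk, Fin.isValue, mul_apply, of_apply, cons_val', vecMul, dotProduct, Fin.sum_univ_two, cons_val_zero, one_mul, cons_val_one, cons_val_fin_one, zero_mul, add_zero, zero_add, mul_one, mul_zero, mul_neg, neg_add_rev, neg_neg, neg_mul] at k0 k1 k2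
    have e1 : X 0 1 = 0 := mul_left_cancel₀ h2 (by linear_combination 2 * k0 - k1 - k2)
    have e0 : X 0 0 = 0 := mul_left_cancel₀ h2 (by linear_combination k1 + tr + e1 - k0)
    refine n ?_
    ext i j
    fin_cases i <;> fin_cases j <;> simp [e0, e1, k0]
    linear_combination tr - e0
  let f : K → Matrix (Fin 2) (Fin 2) K := fun s =>
    (x9m 1 s 0 1 (by ring)).1 * Y * ((x9m 1 s 0 1 (by ring))⁻¹).1
  have f0 : ∀ s, f s 0 0 = Y 0 0 + s * Y 1 0 := fun s => by
    simp [f, x9m, mul_apply, vecMul, dotProduct]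
  have f1 : ∀ s, f s 1 0 = Y 1 0 := fun s => by simp [f, x9m, mul_apply, vecMul, dotProduct]
  have := Set.ncard_le_ncard_of_injOn (s := Set.univ) (t := S) (Sum.elim f fun s => -f s)
    (by rintro (s | s) -; exacts [cj _ (x9_slg _ _ _ _ _) _ hY, ng _ (cj _ (x9_slg _ _ _ _ _) _ hY)])
    (by
      rintro (s | s) - (t | t) - e <;> have e0 := congrFun (congrFun e 0) 0 <;>
        have e1 := congrFun (congrFun e 1) 0 <;> simp only [Sum.elim_inl, Sum.elim_inr,
          Matrix.neg_apply, f0, f1] at e0 e1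
      · rw [mul_right_cancel₀ m (add_left_cancel e0)]
      · exact absurd (mul_left_cancel₀ h2 (by linear_combination e1)) m
      · exact absurd (mul_left_cancel₀ h2 (by linear_combination -e1)) m
      · rw [mul_right_cancel₀ m (add_left_cancel (neg_injective e0))])
  rwa [Set.ncard_univ, Nat.card_sum, ← two_mul] at this

theorem x9_two [Finite K] (h : Nat.card K = 7 ∨ Nat.card K = 9) : (2 : K) ≠ 0 := fun k => by
  rcases h with h | h <;> have := (x9_fld h).1 <;> push_cast at this <;> refine one_ne_zero (α := K) ?_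
  exacts [by linear_combination this - 3 * k, by linear_combination this - 4 * k]

theorem x9_neg (a b c d : K) : !![-a, -b; -c, -d] = -!![a, b; c, d] := by simp

theorem x9_ext {R : Type} {a b c d a' b' c' d' : R} (h : a = a') (k : b = b') (l : c = c') (m : d = d') :
    !![a, b; c, d] = !![a', b'; c', d'] := by rw [h, k, l, m]

theorem x9_refl {u0 u1 u2 v0 v1 v2 : K} (s : K) (du : u0 * -u0 - u1 * u2 = 1)
    (bb : 2 * u0 * v0 + u1 * v2 + u2 * v1 = -2 * s) :
    (x9m u0 u1 u2 (-u0) du).1 * !![v0, v1; v2, -v0] * ((x9m u0 u1 u2 (-u0) du)⁻¹).1 =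
      !![2 * s * u0 - v0, 2 * s * u1 - v1; 2 * s * u2 - v2, -(2 * s * u0 - v0)] := by
  ext i j
  fin_cases i <;> fin_cases j <;> simp only [Nat.reduceAdd, x9m, cons_mul, Nat.succ_eq_add_one, vecMul_cons, head_cons, smul_cons, smul_eq_mul, smul_empty, tail_cons, mul_neg, empty_vecMul, add_zero, add_cons, empty_add_empty, neg_smul, neg_cons, neg_neg, neg_empty, empty_mul, Equiv.symm_apply_apply, Units.inv_mk, Fin.zero_eta, Fin.isValue, of_apply, cons_val', cons_val_zero, cons_val_fin_one, neg_sub, Fin.mk_one, cons_val_one] <;> grind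

theorem x9_stab (S : Set (Matrix (Fin 2) (Fin 2) K)) : ∃ H : Subgroup (GL (Fin (1 + 1)) K),
    (∀ z, Sc z → z ∈ H) ∧ (∀ g, Sc (g * g) → (∀ Y ∈ S, g.1 * Y * (g⁻¹).1 ∈ S) → g ∈ H) ∧
    ∀ g ∈ H, ∀ Y ∈ S, g.1 * Y * (g⁻¹).1 ∈ S := by
  have sc : ∀ z : GL (Fin (1 + 1)) K, Sc z → ∀ Y, z.1 * Y * (z⁻¹).1 = Y := by
    rintro z ⟨w, hw⟩ Y
    rw [show z.1 * Y = Y * z.1 by simp [hw], mul_assoc, Units.mul_inv, mul_one]
  refine ⟨{ carrier := {g | ∀ Y, Y ∈ S ↔ g.1 * Y * (g⁻¹).1 ∈ S}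
            one_mem' := fun Y => by simp
            mul_mem' := fun {g k} p q Y => ?_
            inv_mem' := fun {g} p Y => ?_ }, fun z hz Y => by rw [sc z hz],
    fun g gg k Y => ⟨k Y, fun m => ?_⟩, fun g hg Y => (hg Y).1⟩
  · rw [q, p, _root_.mul_inv_rev, Units.val_mul, Units.val_mul]
    simp only [mul_assoc]
  · rw [p (_ * _ * _), inv_inv]
    simp only [mul_assoc, Units.mul_inv, mul_one, Units.mul_inv_cancel_left]
  · rw [← sc _ gg Y, _root_.mul_inv_rev, Units.val_mul, Units.val_mul]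
    simpa only [mul_assoc] using k _ m

theorem x9_low [Finite K] (h : Nat.card K = 7 ∨ Nat.card K = 9) {a0 a1 a2 b0 b1 b2 c0 c1 c2 : K}
    (da : a0 * -a0 - a1 * a2 = 1) (db : b0 * -b0 - b1 * b2 = 1) (dc : c0 * -c0 - c1 * c2 = 1)
    (t : 2 * a0 * b0 + a1 * b2 + a2 * b1 = 0) : ∃ H : Subgroup (GL (Fin (1 + 1)) K),
    (∀ z, Sc z → z ∈ H) ∧ x9m a0 a1 a2 (-a0) da ∈ H ∧ x9m b0 b1 b2 (-b0) db ∈ H ∧
      x9m c0 c1 c2 (-c0) dc ∈ H ∧ ¬ slg 1 K ≤ H := by
  have h2 := x9_two h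
  obtain ⟨x, y, z, e0, e1, e2⟩ : ∃ x y z : K, c0 = x * a0 + y * b0 + z * (a0 * b0 + a1 * b2) ∧
      c1 = x * a1 + y * b1 + z * (a0 * b1 - a1 * b0) ∧
      c2 = x * a2 + y * b2 + z * (a2 * b0 - a0 * b2) := by
    obtain ⟨w, hw⟩ : ∃ w : K, 2 * w = 1 := ⟨2⁻¹, mul_inv_cancel₀ h2⟩
    refine ⟨-w * (2 * a0 * c0 + a1 * c2 + a2 * c1), -w * (2 * b0 * c0 + b1 * c2 + b2 * c1),
      -w * (2 * (a0 * b0 + a1 * b2) * c0 + (a0 * b1 - a1 * b0) * c2 + (a2 * b0 - a0 * b2) * c1),
      ?_, ?_, ?_⟩ <;> grind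
  have nn : ∀ x y z : K, -(x * a0 + y * b0 + z * (a0 * b0 + a1 * b2)) ^ 2 -
      (x * a1 + y * b1 + z * (a0 * b1 - a1 * b0)) * (x * a2 + y * b2 + z * (a2 * b0 - a0 * b2)) =
      x ^ 2 + y ^ 2 + z ^ 2 := fun x y z => by
    linear_combination (x ^ 2 + z ^ 2 * (b0 * -b0 - b1 * b2)) * da + (y ^ 2 + z ^ 2) * db -
      (x * y + x * z * a0 + y * z * b0 + z ^ 2 * (a0 * b0 + a1 * b2)) * t
  obtain ⟨p1, p2, p3, p4, p5, p6, n, cl⟩ := x9_P h (x := x) (y := y) (z := z)
    (by rw [← nn, ← e0, ← e1, ← e2]; linear_combination dc)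
  let L : K × K × K → Matrix (Fin 2) (Fin 2) K := fun v =>
    !![v.1 * a0 + v.2.1 * b0 + v.2.2 * (a0 * b0 + a1 * b2),
      v.1 * a1 + v.2.1 * b1 + v.2.2 * (a0 * b1 - a1 * b0);
      v.1 * a2 + v.2.1 * b2 + v.2.2 * (a2 * b0 - a0 * b2),
      -(v.1 * a0 + v.2.1 * b0 + v.2.2 * (a0 * b0 + a1 * b2))]
  let S := L '' x9T p1 p2 p3 p4 p5 p6
  obtain ⟨H, sc, iv, cj⟩ := x9_stab S
  have key : ∀ x y z u0 u1 u2 du, u0 = x * a0 + y * b0 + z * (a0 * b0 + a1 * b2) →
      u1 = x * a1 + y * b1 + z * (a0 * b1 - a1 * b0) → u2 = x * a2 + y * b2 + z * (a2 * b0 - a0 * b2) →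
      (∀ p q r, (p, q, r) ∈ x9T p1 p2 p3 p4 p5 p6 → (2 * (x * p + y * q + z * r) * x - p,
        2 * (x * p + y * q + z * r) * y - q, 2 * (x * p + y * q + z * r) * z - r) ∈
        x9T p1 p2 p3 p4 p5 p6) → x9m u0 u1 u2 (-u0) du ∈ H := fun x y z u0 u1 u2 du e0 e1 e2 k => by
    refine iv _ (by rw [x9_mul, x9_scm]; refine ⟨?_, ?_, ?_⟩ <;> ring) ?_
    rintro _ ⟨⟨p, q, r⟩, m, rfl⟩
    refine ⟨_, k p q r m, ?_⟩
    rw [x9_refl (x * p + y * q + z * r) du (by
      rw [e0, e1, e2]; linear_combination nn x y z + nn p q r - nn (x + p) (y + q) (z + r)),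
      e0, e1, e2]
    exact x9_ext (by ring) (by ring) (by ring) (by ring)
  refine ⟨H, sc, key 1 0 0 _ _ _ _ (by ring) (by ring) (by ring)
    fun p q r m => x9_mem m (by ring) (by ring) (by ring), key 0 1 0 _ _ _ _ (by ring) (by ring)
    (by ring) fun p q r m => x9_mem m (by ring) (by ring) (by ring), key x y z _ _ _ _ e0 e1 e2 cl,
    fun le => ?_⟩
  · obtain ⟨⟨p, q, r⟩, m, n⟩ : ∃ v ∈ x9T p1 p2 p3 p4 p5 p6, v.1 ^ 2 + v.2.1 ^ 2 + v.2.2 ^ 2 ≠ 0 := by
      rcases n with n | n | n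
      exacts [⟨(0, p1, p2), .inl ⟨rfl, rfl, rfl⟩, fun e => n (by linear_combination e)⟩,
        ⟨(p4, 0, p3), .inr (.inl ⟨rfl, rfl, rfl⟩), fun e => n (by linear_combination e)⟩,
        ⟨(p5, p6, 0), .inr (.inr ⟨rfl, rfl, rfl⟩), fun e => n (by linear_combination e)⟩]
    have := x9_big h2 (S := S) (by
      rintro _ ⟨⟨p, q, r⟩, m, rfl⟩
      refine ⟨(-p, -q, -r), x9_mem m (neg_sq _) (neg_sq _) (neg_sq _), ?_⟩
      exact (x9_ext (by ring) (by ring) (by ring) (by ring)).trans (x9_neg ..))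
      (fun g hg => cj g (le hg)) ⟨_, m, rfl⟩ ((trace_fin_two_of ..).trans (add_neg_cancel _))
      fun e => n (by
        have k0 : p * a0 + q * b0 + r * (a0 * b0 + a1 * b2) = 0 := congrFun (congrFun e 0) 0
        have k1 : p * a1 + q * b1 + r * (a0 * b1 - a1 * b0) = 0 := congrFun (congrFun e 0) 1
        rw [← nn, k0, k1]; ring)
    have := this.trans ((Set.ncard_image_le).trans (x9_card _ _ _ _ _ _))
    omega

theorem x9_no3 [Finite K] (h : Nat.card K = 7 ∨ Nat.card K = 9) : No3 (slg 1 K) := by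
  intro a ha b hb c hc g hg g' hg' aa eb ec ab ne
  have h2 := x9_two h
  have na : ¬ Sc a := fun k => ne (k.inv.mul (by simpa [mul_assoc] using (k.conj g).mul eb.inv))
  obtain ⟨a0, a1, a2, a3, da, rfl⟩ := x9_ex ha
  obtain rfl : a3 = -a0 := by
    rw [x9_mul, x9_scm] at aa
    rw [x9_scm] at na
    grind
  have tr : ∀ {x u : GL (Fin (1 + 1)) K}, x ∈ slg 1 K →
      Sc (x⁻¹ * (u * x9m a0 a1 a2 (-a0) da * u⁻¹)) → ∃ a b c e, x = x9m a b c (-a) e := by
    rintro x u hx ⟨z, hz⟩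
    obtain ⟨p, q, r, s, e, rfl⟩ := x9_ex hx
    have k := congrArg (fun M => trace ((x9m p q r s e).1 * M)) hz
    have n : z ≠ 0 := by
      rintro rfl
      exact Units.ne_zero _ (hz.trans (zero_smul _ _))
    simp only [← Units.val_mul, mul_inv_cancel_left] at k
    rw [Units.val_mul, Units.val_mul, trace_units_conj] at k
    simp only [Nat.reduceAdd, x9m, trace_fin_two_of, add_neg_cancel, Algebra.mul_smul_comm, mul_one, smul_of, smul_cons, smul_eq_mul, smul_empty] at k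
    obtain rfl : s = -p := mul_left_cancel₀ n (by linear_combination -k)
    exact ⟨_, _, _, _, rfl⟩
  obtain ⟨b0, b1, b2, db, rfl⟩ := tr hb eb
  obtain ⟨c0, c1, c2, dc, rfl⟩ := tr hc ec
  have t : 2 * a0 * b0 + a1 * b2 + a2 * b1 = 0 := by
    by_contra t
    obtain ⟨z, hz⟩ := ab
    have k := congrArg (fun M => (x9m a0 a1 a2 (-a0) da * x9m b0 b1 b2 (-b0) db).1 * M) hz
    simp only [← Units.val_mul, mul_inv_cancel_left] at k
    rw [x9_mul, x9_mul] at k
    have k0 := congrFun (congrFun k 0) 0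
    have k1 := congrFun (congrFun k 0) 1
    have k2 := congrFun (congrFun k 1) 0
    have k3 := congrFun (congrFun k 1) 1
    simp only [Nat.reduceAdd, x9m, mul_neg, neg_mul, neg_neg, neg_add_rev, Fin.isValue, of_apply, cons_val', cons_val_zero, cons_val_fin_one, Algebra.mul_smul_comm, mul_one, Matrix.smul_apply, smul_eq_mul, cons_val_one] at k0 k1 k2 k3
    obtain rfl : z = 1 := mul_right_cancel₀ t (by linear_combination -k0 - k3)
    rw [x9_inv, x9_mul, x9_scm] at ne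
    exact ne ⟨mul_left_cancel₀ h2 (by linear_combination k1), mul_left_cancel₀ h2
      (by linear_combination k2), by linear_combination -k0⟩
  exact x9_low h da db dc t

theorem x9_congr {a b c d a' b' c' d' : K} {h : a * d - b * c = 1} {h' : a' * d' - b' * c' = 1}
    (e : a = a' ∧ b = b' ∧ c = c' ∧ d = d') : x9m a b c d h = x9m a' b' c' d' h' := by
  obtain ⟨rfl, rfl, rfl, rfl⟩ := e; rfl

theorem x9_gen {H : Subgroup (GL (Fin (1 + 1)) K)} {h : (0 : K) * 0 - 1 * -1 = 1}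
    (w : x9m 0 1 (-1) 0 h ∈ H) {i : K} (p : el 0 1 1 ∈ H) (q : el 0 1 i ∈ H)
    (sp : ∀ s : K, ∃ m n : ℕ, s = m * 1 + n * i) (s : K) : el 0 1 s ∈ H ∧ el 1 0 s ∈ H := by
  have k : ∀ t, el 0 1 t ∈ H → ∀ n : ℕ, el 0 1 (n * t) ∈ H := fun t m n => by
    induction n with
    | zero => simp only [Nat.reduceAdd, Fin.isValue, Nat.cast_zero, zero_mul, el_zero, one_mem]
    | succ n ih => rw [Nat.cast_succ, add_mul, one_mul, el_add]; exact H.mul_mem ih m
  have u : ∀ s, el 0 1 s ∈ H := fun s => by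
    obtain ⟨m, n, rfl⟩ := sp s
    rw [el_add]; exact H.mul_mem (k _ p m) (k _ q n)
  refine ⟨u s, ?_⟩
  convert H.mul_mem (H.mul_mem w (u (-s))) (H.inv_mem w) using 1
  rw [x9_up, x9_inv, x9_mul, x9_mul, x9_dn]
  exact x9_congr (by simp)

theorem x9_four (no : No3 (slg 1 K)) {a b c d g g' g'' : GL (Fin (1 + 1)) K}
    (ha : a ∈ slg 1 K) (hb : b ∈ slg 1 K) (hc : c ∈ slg 1 K) (hd : d ∈ slg 1 K) (hg : g ∈ slg 1 K)
    (hg' : g' ∈ slg 1 K) (hg'' : g'' ∈ slg 1 K) (aa : Sc (a * a))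
    (eb : Sc (b⁻¹ * (g * a * g⁻¹))) (ec : Sc (c⁻¹ * (g' * a * g'⁻¹)))
    (ed : Sc (d⁻¹ * (g'' * a * g''⁻¹))) (ab : Sc ((a * b)⁻¹ * (b * a))) (ne : ¬ Sc (a⁻¹ * b))
    (gen : ∀ H : Subgroup (GL (Fin (1 + 1)) K), a ∈ H → b ∈ H → c ∈ H → d ∈ H →
      ∀ s, el 0 1 s ∈ H ∧ el 1 0 s ∈ H) :
    IsLeast {n | Good (chev (CartanMatrix.A 1) 1 (RingHom.id K)) n} 4 := by
  obtain ⟨Ψ, ker, mem, k⟩ := x9_tr (K := K)
  exact x4a_tr Ψ ker mem (k _ fun s => ⟨⟨_, el_slg _ _ _, rfl⟩, ⟨_, el_slg _ _ _, rfl⟩⟩) no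
    ha hb hc hd hg hg' hg'' aa eb ec ed ab ne fun H h1 h2 h3 h4 => k H (gen _ h1 h2 h3 h4)

theorem tL279 [Finite K] (h : Nat.card K = 7 ∨ Nat.card K = 9) :
    IsLeast {n | Good (chev (CartanMatrix.A 1) 1 (RingHom.id K)) n} 4 := by
  have no := x9_no3 h
  have h2 := x9_two h
  have := Fintype.ofFinite K
  rcases h with h | h
  · have h7 := (x9_fld h).1
    push_cast at h7
    refine x9_four no (x9_slg 0 1 (-1) 0 (by ring)) (x9_slg 2 3 3 (-2) (by grind))
      (x9_slg 0 2 3 0 (by grind)) (x9_slg (-1) 2 (-1) 1 (by ring)) (x9_slg 2 0 1 4 (by grind))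
      (x9_slg 3 0 0 5 (by grind)) (x9_slg 1 1 0 1 (by ring)) ?_ ?_ ?_ ?_ ?_ ?_
      fun H a b c d => x9_gen a (i := 0) ?_ (by simp) fun s => ?_
    iterate 6 simp only [x9_inv, x9_mul, x9_scm]; grind
    · convert H.mul_mem (H.mul_mem b c) d using 1
      rw [x9_mul, x9_mul, x9_up]
      exact x9_congr (by grind)
    · obtain ⟨a, rfl⟩ := (ZMod.ringEquivOfPrime K (by decide : Nat.Prime 7)
        (Nat.card_eq_fintype_card.symm.trans h)).surjective s
      exact ⟨a.val, 0, by rw [← ZMod.natCast_zmod_val a, map_natCast]; simp only [ZMod.natCast_val, ZMod.cast_id', id_eq, mul_one, Nat.cast_zero, mul_zero, add_zero]⟩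
  · have h3 := x9_three h
    obtain ⟨i, hi⟩ := FiniteField.isSquare_neg_one_iff.2 (show Fintype.card K % 4 ≠ 3 by
      rw [← Nat.card_eq_fintype_card, h]; decide)
    refine x9_four no (x9_slg 0 1 (-1) 0 (by ring)) (x9_slg i 0 0 (-i) (by grind))
      (x9_slg i i 0 (-i) (by grind)) (x9_slg i (-1) 0 (-i) (by grind))
      (x9_slg 1 (-i) i (-1) (by grind)) (x9_slg (1 + i) (-i - 1) i (-1) (by grind))
      (x9_slg 0 i i (-1) (by grind)) ?_ ?_ ?_ ?_ ?_ ?_
      fun H a b c d => x9_gen a (i := i) ?_ ?_ fun s => ?_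
    iterate 6 simp only [x9_inv, x9_mul, x9_scm]; grind
    · convert H.mul_mem (H.inv_mem b) c using 1
      rw [x9_inv, x9_mul, x9_up]
      exact x9_congr (by grind)
    · convert H.mul_mem (H.inv_mem b) d using 1
      rw [x9_inv, x9_mul, x9_up]
      exact x9_congr (by grind)
    · have e : s ^ 9 = s := by
        have := FiniteField.pow_card s
        rwa [← Nat.card_eq_fintype_card, h] at this
      have f : ∀ u : K, u ^ 3 = u → ∃ m : ℕ, u = m := fun u e => by
        have : u * ((u - 1) * (u - 2)) = 0 := by grind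
        simp only [mul_eq_zero, sub_eq_zero] at this
        rcases this with e | e | e
        exacts [⟨0, by simpa using e⟩, ⟨1, by simpa using e⟩, ⟨2, by simpa using e⟩]
      obtain ⟨m, hm⟩ := f (-(s + s ^ 3)) (by grind)
      obtain ⟨n, hn⟩ := f (i * (s - s ^ 3)) (by grind)
      exact ⟨m, n, by rw [← hm, ← hn]; grind⟩

end Pool.Agent.MP_c78e8e_al.H75

end

section

namespace Pool.Agent.MP_c78e8e_al.H75

open Subgroup Matrix

variable {K : Type} [Field K]

/-- The rank one transfer in terms of `SL2`. -/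
theorem p2_tr : ∃ ψ : SL2 K →* Equiv.Perm (Lie (CartanMatrix.A 1) K),
    ψ (mw * mw) = 1 ∧ ψ (mx 1) ≠ 1 ∧ (∀ A, ψ A ∈ chev (CartanMatrix.A 1) 1 (RingHom.id K)) ∧
    ∀ H : Subgroup (Equiv.Perm (Lie (CartanMatrix.A 1) K)), (∀ A, ψ A ∈ H) →
      chev (CartanMatrix.A 1) 1 (RingHom.id K) ≤ H := by
  obtain ⟨Ψ, k, m, g⟩ := x9_tr (K := K)
  refine ⟨Ψ.comp SpecialLinearGroup.toGL, (k _).2 ⟨-1, ?_⟩, fun e => ?_,
    fun A => m (mem_slg A.2), fun H h => g H fun s => ⟨?_, ?_⟩⟩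
  · change (mw : SL2 K).1 * (mw : SL2 K).1 = _
    ext i j
    fin_cases i <;> fin_cases j <;> simp [mw]
  · obtain ⟨z, hz⟩ := (k _).1 e
    have := congrFun (congrFun hz 0) 1
    change (mx (1 : K)).1 0 1 = _ at this
    simp [mx] at this
  all_goals
    have := fun i j => h ⟨(el (r := 1) i j s).1, el_det _ _ _⟩
    rw [← show ∀ i j, SpecialLinearGroup.toGL ⟨(el (r := 1) i j s).1, el_det _ _ _⟩ = el i j s from
      fun i j => Units.ext rfl]
    exact this _ _

variable {G : Type} [Group G] {ψ : SL2 K →* G}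

theorem p2_wz (s : K) : mw * mz s * mw⁻¹ = mx s := by
  rw [mul_inv_eq_iff_eq_mul]
  exact sl2c_ext (by simp only [sl2c_coe]; simp [mw, mx, mz])

theorem p2_zadd (s t : K) : mz (s + t) = mz s * mz t :=
  sl2c_ext (by rw [sl2c_coe]; simp [mz, add_comm])

theorem p2_zneg (s : K) : mz (-s) = (mz s)⁻¹ :=
  eq_inv_of_mul_eq_one_left (by
    rw [← p2_zadd, neg_add_cancel]; exact sl2c_ext (by simp [mz, one_fin_two]))

/-- The diagonal matrices. -/
def p2D : Kˣ →* SL2 K where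
  toFun := mdg
  map_one' := sl2c_ext (by simp [mdg, one_fin_two])
  map_mul' a b := sl2c_ext (by rw [sl2c_coe]; simp [mdg, mul_comm])

theorem p2_wd (a : Kˣ) : mw * mdg a * mw⁻¹ = mdg a⁻¹ := by
  rw [mul_inv_eq_iff_eq_mul]
  exact sl2c_ext (by simp only [sl2c_coe]; simp [mw, mdg])

/-- The three generators are the images of `mw`, `b`, `c`. -/
def P2Gen (ψ : SL2 K →* G) : Prop :=
  ∃ b c : SL2 K, b.1.trace = 0 ∧ c.1.trace = 0 ∧ b.1 1 0 ≠ 0 ∧ c.1 1 0 ≠ 0 ∧
    Commute (ψ mw) (ψ b) ∧ ∀ H : Subgroup G, ψ mw ∈ H → ψ b ∈ H → ψ c ∈ H → ∀ A, ψ A ∈ H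

theorem p2_split (w : ψ (mw * mw) = 1) (a : Kˣ) (so : Sol ((a : K) ^ 2) (-1) 1)
    (sp : Spn ((a : K) ^ 2)) : P2Gen ψ := by
  obtain ⟨u, y, l, i, j, u0, y0, h, hl, x1, c⟩ := so
  have ad : Act ψ (ψ mw) !![0, -1; 1, 0] := by
    have := (act_self (ψ := ψ) mw).smul (c := -1) (by simp)
    simpa [mw] using this
  have ab : Act ψ 1 !![1, 0; 0, 1] := by simpa [one_fin_two] using sl2c_one (ψ := ψ)
  have aτ : Act ψ (ψ (mdg a)) !![(a : K) ^ 2, 0; 0, 1] := by
    have := (act_self (ψ := ψ) (mdg a)).smul a.ne_zero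
    simpa [mdg, sq] using this
  have cm : ∀ s ∈ (ψ.comp p2D).range, ∀ t ∈ (ψ.comp p2D).range, Commute s t := by
    rintro _ ⟨s, rfl⟩ _ ⟨t, rfl⟩
    exact (Commute.all s t).map _
  have n1 : ψ mw ∈ normalizer ((ψ.comp p2D).range : Set G) := by
    have k : ∀ s : Kˣ, ψ mw * ψ (mdg s) * (ψ mw)⁻¹ = ψ (mdg s⁻¹) := fun s => by
      rw [← p2_wd, map_mul, map_mul, map_inv]
    refine mem_normalizer_iff.2 fun g => ⟨?_, ?_⟩
    · rintro ⟨s, rfl⟩
      exact ⟨s⁻¹, (k s).symm⟩
    · rintro ⟨s, e⟩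
      refine ⟨s⁻¹, (MulAut.conj (ψ mw)).injective ?_⟩
      exact (k s⁻¹).trans e
  refine ⟨mM u y (-1) 1 (mul_one 1) h, mw * mdg a, by simp [mM],
    by rw [sl2c_coe]; simp [mw, mdg], by simpa [mM] using y0, by rw [sl2c_coe]; simp [mw, mdg], ?_,
    fun H h1 h2 h3 => ?_⟩
  · simpa only [one_mul] using r1_comm (mul_one 1) h ad ab (by simpa only [one_mul, map_mul] using w) (by simp)
  · refine r1 (T := (ψ.comp p2D).range) (mul_one 1) h u0 y0 hl x1 c sp
      (fun s hs t ht v _ => by rw [(cm s hs t ht).commutator_eq]; exact Commute.one_left v)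
      n1 (fun s => le_normalizer ⟨s, rfl⟩) ⟨a, rfl⟩ aτ n1 ad (one_mem _) ab ?_ h1
      (by simpa using h2)
    simpa [p2D] using H.mul_mem (H.inv_mem h1) h3

theorem p2_five [Finite K] (w : ψ (mw * mw) = 1) (h : Nat.card K = 5) : P2Gen ψ := by
  have := Fintype.ofFinite K
  have h5 : (5 : K) = 0 := by
    have := FiniteField.cast_card_eq_zero K
    rw [← Nat.card_eq_fintype_card, h] at this
    exact_mod_cast this
  have h2 : (2 : K) ≠ 0 := fun e => one_ne_zero (α := K) (by linear_combination h5 - 2 * e)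
  obtain ⟨a, a0, ha⟩ := sl2f_gen (K := K)
  have sp : Spn (a ^ 2) := spn_sq fun s s0 => by
    obtain ⟨n, rfl⟩ := ha s s0
    exact ⟨n, by ring⟩
  have a4 : a ^ 2 = 1 ∨ a ^ 2 = -1 := by
    have := FiniteField.pow_card_sub_one_eq_one a a0
    rw [← Nat.card_eq_fintype_card, h] at this
    exact mul_self_eq_one_iff.1 (by linear_combination this)
  let b : SL2 K := ⟨!![0, 2; 2, 0], by rw [det_fin_two_of]; linear_combination -h5⟩
  refine ⟨b, mw * b * mz 1, by simp [b], by simp only [sl2c_coe]; simp [b, mw, mz],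
    by simpa only [Fin.isValue, of_apply, cons_val', cons_val_zero, cons_val_fin_one, cons_val_one, ne_eq, b] using h2, by simp only [sl2c_coe]; simpa only [mw, cons_mul, Nat.succ_eq_add_one, Nat.reduceAdd, vecMul_cons, head_cons, zero_smul, tail_cons, one_smul, empty_vecMul, add_zero, zero_add, neg_smul, neg_cons, neg_zero, neg_empty, empty_mul, Equiv.symm_apply_apply, mz, Fin.isValue, smul_cons, smul_eq_mul, mul_one, mul_zero, smul_empty, mul_neg, neg_neg, of_apply, cons_val', cons_val_zero, cons_val_fin_one, cons_val_one, ne_eq, b] using h2, ?_,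
    fun H h1 h2 h3 => ?_⟩
  · have : mw * b = mw * mw * (b * mw) := sl2c_ext (by simp only [sl2c_coe]; simp [b, mw])
    change _ * _ = _ * _
    rw [← map_mul, this, map_mul, w, one_mul, map_mul]
  · have z : ∀ s, ψ (mz s) ∈ H := by
      refine sp.ind (P := fun s => ψ (mz s) ∈ H) (fun s t p q => ?_) one_ne_zero ?_ fun s p => ?_
      · rw [p2_zadd, map_mul]; exact H.mul_mem p q
      · simpa [mul_assoc] using H.mul_mem (H.inv_mem (H.mul_mem h1 h2)) h3
      · rcases a4 with e | e <;> rw [e]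
        · rwa [one_mul]
        · rw [neg_one_mul, p2_zneg, map_inv]; exact H.inv_mem p
    refine sl2_gen (fun s => ?_) z
    rw [← p2_wz, map_mul, map_mul, map_inv]
    exact H.mul_mem (H.mul_mem h1 (z s)) (H.inv_mem h1)

theorem p2_gen [Finite K] (w : ψ (mw * mw) = 1) (h : 3 < Nat.card K) (h7 : Nat.card K ≠ 7)
    (h9 : Nat.card K ≠ 9) : P2Gen ψ := by
  have := Fintype.ofFinite K
  by_cases h5 : Nat.card K = 5
  · exact p2_five w h5
  obtain ⟨a, a0, ha⟩ := sl2f_gen (K := K)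
  have hx : ∀ s : K, s ≠ 0 → ∃ n : ℕ, (a ^ 2) ^ n = s ^ 2 := fun s s0 => by
    obtain ⟨n, rfl⟩ := ha s s0
    exact ⟨n, by ring⟩
  refine p2_split w (Units.mk0 a a0) ?_ (spn_sq hx)
  by_cases h2 : (2 : K) = 0
  · refine sol_two h2 (pow_ne_zero 2 a0) (fun e => ?_) (by simp)
    obtain ⟨m, m0, hm⟩ := sl2e_avoid [((0 : K), (-1 : K))] (by simpa using h)
    obtain ⟨n, e'⟩ := hx m m0
    change a ^ 2 = 1 at e
    rw [e, one_pow] at e'
    exact hm _ List.mem_cons_self (by linear_combination -e')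
  · refine sol_sq h2 ?_ (Or.inl h9) hx (pow_ne_zero 2 a0) (by simp) (Or.inl rfl)
    have := FiniteField.odd_card_of_char_ne_two (F := K) fun e => h2 (by
      have := ringChar.Nat.cast_ringChar (R := K)
      rw [e] at this
      exact_mod_cast this)
    rw [← Nat.card_eq_fintype_card] at this
    omega

/-- Block P2. -/
theorem tL2 [Finite K] (h : 3 < Nat.card K) (h7 : Nat.card K ≠ 7) (h9 : Nat.card K ≠ 9) :
    IsLeast {n | Good (chev (CartanMatrix.A 1) 1 (RingHom.id K)) n} 3 := by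
  obtain ⟨ψ, w, n, m, g⟩ := p2_tr (K := K)
  obtain ⟨b, c, tb, tc, nb, nc, ab, gen⟩ := p2_gen w h h7 h9
  have cj : ∀ b : SL2 K, b.1.trace = 0 → b.1 1 0 ≠ 0 → ∃ S, ψ (b⁻¹ * (S * mw * S⁻¹)) = 1 :=
    fun b t n => by
      obtain ⟨S, e⟩ := (sl2c_one (ψ := ψ)).conj (M := mw) (M' := b) (by simp [mw])
        (by simpa using t) (by simp [mw]) (by simpa using n)
      exact ⟨S, by simpa only [map_mul, map_inv, inv_mul_eq_one, one_mul] using e.symm⟩
  obtain ⟨S, eb⟩ := cj b tb nb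
  obtain ⟨S', ec⟩ := cj c tc nc
  exact natb_three ψ (sl2_not_solvable h n m) (m _) (m _) (m _) (m S) (m S') w eb ec
    (by rw [map_mul, map_inv, map_mul, map_mul, ab.eq, inv_mul_cancel])
    fun H h1 h2 h3 => g H (gen H h1 h2 h3)

end Pool.Agent.MP_c78e8e_al.H75

end
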