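import Pool.Agent.MP_c78e8e_al.Mg.Sg_Pk
import Pool.Agent.MP_c78e8e_al.Mg.Sg_Ev
import Pool.Agent.MP_c78e8e_al.Mg.Sg_G2O
import Pool.Agent.MP_c78e8e_al.Sg.G2
import Pool.Agent.MP_c78e8e_al.Mg.Sg_L
import Pool.Agent.MP_c78e8e_al.Mg.Sg_O1
import Pool.Agent.MP_c78e8e_al.Mg.Sg_O2
import Pool.Agent.MP_c78e8e_al.Mg.Sg_O3
import Pool.Agent.MP_c78e8e_al.Mg.Sg_S3
import Pool.Agent.MP_c78e8e_al.Mg.Sg_X7
import Pool.Agent.MP_c78e8e_al.Mg.Sg_Re
import Pool.Agent.MP_c78e8e_al.Mg.Sg_Ree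
import Pool.Agent.MP_c78e8e_al.Mg.Sg_S
import Pool.Agent.MP_c78e8e_al.Mg.Sg_U1
import Pool.Agent.MP_c78e8e_al.Mg.Sg_U2
import Pool.Agent.MP_c78e8e_al.Mg.Sg_X1
import Pool.Agent.MP_c78e8e_al.Mg.Sg_X3
import Pool.Agent.MP_c78e8e_al.Mg.Sg_X4
import Pool.Agent.MP_c78e8e_al.Mg.Sg_X5
import Pool.Agent.MP_c78e8e_al.Mg.Sg_X6

namespace Pool.Agent.MP_c78e8e_al.H75

variable {K : Type} [Field K] [Finite K] {φ : K →+* K}

theorem even_card : Even (Nat.card K) ↔ (2 : K) = 0 := by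
  have := Fintype.ofFinite K
  rw [Nat.card_eq_fintype_card, Nat.even_iff, ← FiniteField.even_card_iff_char_two]
  constructor
  · intro h
    have := (ringChar.spec K 2).2 (by rw [h])
    simpa using this
  · intro h
    have := (ringChar.spec K 2).1 (by simpa using h)
    exact (Nat.prime_dvd_prime_iff_eq (CharP.char_is_prime K _) Nat.prime_two).1 this

theorem allA {r : ℕ} (h : 2 ≤ r ∨ r = 1 ∧ 3 < Nat.card K) :
    IsLeast {n | Good (chev (CartanMatrix.A r) 1 (RingHom.id K)) n}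
      (if r = 2 ∨ r = 3 ∧ Even (Nat.card K) ∨ r = 1 ∧ (Nat.card K = 7 ∨ Nat.card K = 9) then 4
        else 3) := by
  split_ifs with c <;> rw [even_card] at c
  · rcases c with rfl | ⟨rfl, c⟩ | ⟨rfl, c⟩
    exacts [tL3, tL4e c, tL279 c]
  · by_cases e : r = 6 ∨ 8 ≤ r
    · exact mainI (fun _ => rfl) e
    obtain rfl | rfl | rfl | rfl | rfl : r = 1 ∨ r = 3 ∨ r = 4 ∨ r = 5 ∨ r = 7 := by omega
    · exact tL2 (by omega) (by omega) (by omega)
    · exact tL4 (by tauto)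
    exacts [tL5, tL6, tL8]

theorem allC {r : ℕ} (o : Odd r) (h : 5 ≤ r ∨ r = 3 ∧ 2 < Nat.card K) :
    IsLeast {n | Good (chev (CartanMatrix.A r) Fin.revPerm (RingHom.id K)) n}
      (if r = 3 ∧ Nat.card K = 3 then 4 else 3) := by
  obtain ⟨n, hn⟩ := o
  split_ifs with c
  · obtain ⟨rfl, c⟩ := c
    exact tS43 c
  · by_cases e : r = 5 ∨ r = 7 ∨ r = 11
    · by_cases p : (2 : K) = 0
      exacts [tSe p e, tSo p e]
    by_cases e' : r = 3
    · subst e'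
      exact tS4 (by omega)
    exact mainC (fun _ => rfl) (n := n + 1) (by omega) (by omega)

theorem allU (hφ : ∀ s, φ (φ s) = s) (ne : φ ≠ RingHom.id K) {r : ℕ}
    (h : 3 ≤ r ∨ r = 2 ∧ Nat.card K ≠ 4) :
    IsLeast {n | Good (chev (CartanMatrix.A r) Fin.revPerm φ) n}
      (if r = 2 ∨ r = 3 ∧ (Even (Nat.card K) ∨ Nat.card K = 9) ∨ r = 4 ∧ Nat.card K = 4 then 4
        else 3) := by
  split_ifs with c <;> rw [even_card] at c
  · rcases c with rfl | ⟨rfl, c | c⟩ | ⟨rfl, c⟩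
    exacts [tU3 hφ ne (by omega), tU4e hφ ne c, tU43 hφ ne c, tU52 hφ ne c]
  · by_cases e : r = 9 ∨ r = 13 ∨ r = 15 ∨ 17 ≤ r
    · exact mainA' hφ e fun _ => ne
    by_cases e1 : r = 3
    · subst e1
      exact tU4 hφ ne (by tauto) (by tauto)
    by_cases e2 : r = 5 ∨ r = 7 ∨ r = 11
    · by_cases p : (2 : K) = 0
      · exact tUe hφ ne p e2
      rcases e2 with rfl | e2
      exacts [tU6o hφ ne p, tU812 hφ ne p e2]
    by_cases e3 : r = 4 ∨ r = 6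
    · by_cases p : (2 : K) = 0
      exacts [tX2_of hφ ne p (by omega) (evU7_4 hφ ne), tX1 hφ ne p e3]
    by_cases p : (2 : K) = 0
    exacts [tX5 hφ ne p (by omega), tX3 hφ ne p (by omega)]

theorem allD {r : ℕ} (h : 4 ≤ r) :
    IsLeast {n | Good (chev (CartanMatrix.D r) 1 (RingHom.id K)) n} 3 := by
  by_cases e : 7 ≤ r
  · exact mainD0 (fun _ => rfl) e
  by_cases p : (2 : K) = 0
  exacts [tO2 p (by omega), tO1 p (by omega)]

theorem allB (hφ : ∀ s, φ (φ s) = s) {n : ℕ} (h : 2 ≤ n) :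
    IsLeast {k | Good (chev (CartanMatrix.D (n + 2))
      (Equiv.swap (Fin.last n).castSucc (Fin.last (n + 1))) φ) k} 3 := by
  by_cases e : 6 ≤ n
  · exact mainD hφ e
  by_cases q : φ = RingHom.id K <;> by_cases p : (2 : K) = 0
  · exact q ▸ tO6 p h (by omega)
  · exact q ▸ tO3 p h (by omega)
  · exact tO5 hφ q p h (by omega)
  · exact tO4 hφ q p h (by omega)

theorem allG (hφ : ∀ s, φ (φ (φ s)) = s) (h : Nat.card K ≠ 2) :
    IsLeast {n | Good (chev (CartanMatrix.D 4) (Equiv.swap 0 3 * Equiv.swap 0 2) φ) n} 3 := by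
  by_cases p : (2 : K) = 0
  · exact tG2e hφ p h
  by_cases q : Nat.card K = 3
  exacts [tG23 hφ q, tG2o hφ p q]

end Pool.Agent.MP_c78e8e_al.H75
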