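import Pool.Agent.MP_c78e8e_al.Gen
import Pool.Agent.MP_c78e8e_al.Sg.Defs
import Mathlib

attribute [-instance] Semiring.toMonoid SMulZeroClass.toSMul Fintype.decidableForallFintype
  UniformSpace.toTopologicalSpace MonTypeEquivalenceMon.monMonoid RKHS.instFunLike
  NonUnitalRingHomClass.toMulHomClass instCharZeroOfIsSemireal littleWedderburn instCoeOTCOfCoeTC
  DivisionRing.toRing Ring.toSemiring DivisionCommMonoid.toDivisionMonoid
  SemigroupWithZero.toSemigroup NonUnitalAlgSemiHomClass.toMulHomClass RCLike.charZero_rclike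
  DivisionSemiring.toSemiring ContinuousMonoidHom.instCoeOutOfMonoidHomClassOfContinuousMapClass
  MonoidWithZero.toMonoid NumberField.to_charZero AddQuantale.instAddLeftMono
  NonUnitalNonAssocSemiring.toAddCommMonoid MonoidWithZero.toMulZeroOneClass
  FloorSemiring.instCharZero Finset.decidableDforallFinset SetLike.GradeZero.instMonoid
  SubsemiringClass.toSubmonoidClass Multiset.decidableDforallMultiset
  NonAssocSemiring.toMulZeroOneClass instIsRightCancelAddOfAddRightReflectLE
  Vector.instDecidableForallForallMemOfDecidablePred NormedCommRing.toCommRing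
  IdemSemiring.toSemiring Array.instDecidableForallForallMemOfDecidablePred
  AddQuantale.instAddRightMono Option.decidableForallMem GroupConeClass.toSubmonoidClass
  AddGroup.addLeftReflectLE_of_addLeftMono Algebra.toSMul Int.decidableLTLE
  Group.IsPerfect.subsingleton_of_isMulCommutative AddCommMonoidWithOne.toAddMonoidWithOne
  TestFunctionClass.toDFunLike SubsemiringClass.toCommSemiring Int.decidableLELE
  ContDiffMapSupportedInClass.toDFunLike CompletePartialOrder.toPartialOrder
  CoheytingAlgebra.toOrderTop Int.decidableLTLT Int.decidableLELT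
  instIsLeftCancelMulOfMulLeftReflectLE EuclideanDomain.toCommRing SeminormedCommRing.toCommRing
  DivisionRing.toDivInvMonoid instCoeTOfCoeDep IsometryClass.instCoeOutIsometryEquiv
  NonUnitalRing.toNonUnitalNonAssocRing GroupWithZero.toDivInvMonoid
  NonUnitalNormedRing.toNormedAddCommGroup

-- part MP_c78e8e_al.Sg.Alt
section

section

namespace Pool.Agent.MP_c78e8e_al.H75

open Equiv Equiv.Perm Subgroup

theorem alt_good_congr {G G' : Type*} [Group G] [Group G'] (e : G ≃* G') {n : ℕ}
    (h : Good G n) : Good G' n := by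
  obtain ⟨t, hi, ho, hc, hj, i, j, hij, hm⟩ := h
  refine ⟨fun k => e (t k), e.injective.comp hi, fun k => by rw [e.orderOf_eq, ho], ?_,
    fun k l => e.toMonoidHom.map_isConj (hj k l), i, j, hij, by
      simp only [← map_mul, hm]⟩
  have := congrArg (Subgroup.map e.toMonoidHom) hc
  rw [MonoidHom.map_closure, Subgroup.map_top_of_surjective _ e.surjective] at this
  rw [← this, ← Set.range_comp]; rfl

section Gen
variable {Ω : Type*} [Fintype Ω] [DecidableEq Ω]

theorem alt_equiv {n : ℕ} (hn : Fintype.card Ω = n) :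
    Nonempty (alternatingGroup Ω ≃* alternatingGroup (Fin n)) := by
  obtain ⟨e⟩ : Nonempty (Ω ≃ Fin n) := ⟨Fintype.equivFinOfCardEq hn⟩
  refine ⟨(e.permCongrHom.subgroupMap (alternatingGroup Ω)).trans (MulEquiv.subgroupCongr ?_)⟩
  ext x
  simp only [Subgroup.mem_map, mem_alternatingGroup]
  constructor
  · rintro ⟨y, hy, rfl⟩
    rw [← hy]; exact sign_permCongr e y
  · intro hx
    refine ⟨e.symm.permCongr x, by rw [sign_permCongr, hx], ?_⟩
    ext i; simp

/-- Two points joined by a 3-cycle of `H`. -/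
def altRel (H : Subgroup (Perm Ω)) (x y : Ω) : Prop := ∃ z ∈ H, IsThreeCycle z ∧ z x = y

theorem alt_three_conj {z : Perm Ω} (h : IsThreeCycle z) (g : Perm Ω) :
    IsThreeCycle (g * z * g⁻¹) := by
  unfold IsThreeCycle at *
  rw [cycleType_conj, h]

theorem altRel_conj {H : Subgroup (Perm Ω)} {x y : Ω} (h : Relation.EqvGen (altRel H) x y)
    {g : Perm Ω} (hg : g ∈ H) : Relation.EqvGen (altRel H) (g x) (g y) := by
  induction h with
  | rel x y h =>
    obtain ⟨z, hz, h3, rfl⟩ := h
    exact .rel _ _ ⟨g * z * g⁻¹, mul_mem (mul_mem hg hz) (inv_mem hg), alt_three_conj h3 g,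
      by simp only [Perm.coe_mul, Perm.coe_inv, Function.comp_apply, symm_apply_apply]⟩
  | refl x => exact .refl _
  | symm x y _ ih => exact .symm _ _ ih
  | trans x y w _ _ i1 i2 => exact .trans _ _ _ i1 i2

theorem alt_le (H : Subgroup (Perm Ω)) {z : Perm Ω} (hz : z ∈ H) (h3 : IsThreeCycle z)
    (hc : ∀ x y, Relation.EqvGen (altRel H) x y) : alternatingGroup Ω ≤ H := by
  have htr : MulAction.IsPretransitive H Ω := ⟨fun x y => by
    induction hc x y with
    | rel x y h => obtain ⟨z, hz, -, rfl⟩ := h; exact ⟨⟨z, hz⟩, rfl⟩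
    | refl x => exact ⟨1, one_smul _ _⟩
    | symm x y _ ih => obtain ⟨g, rfl⟩ := ih; exact ⟨g⁻¹, inv_smul_smul _ _⟩
    | trans x y w _ _ i1 i2 =>
      obtain ⟨g, rfl⟩ := i1; obtain ⟨g', rfl⟩ := i2; exact ⟨g' * g, mul_smul _ _ _⟩⟩
  refine alternatingGroup_le_of_isPreprimitive_of_isThreeCycle_mem ?_ h3 hz
  refine { htr with isTrivialBlock_of_isBlock := fun {B} hB => ?_ }
  by_cases hs : B.Subsingleton
  · exact Or.inl hs
  right
  obtain ⟨x, hx, y, hy, hxy⟩ := Set.not_subsingleton_iff.1 hs
  have key : ∀ w ∈ H, IsThreeCycle w → ∀ u, u ∈ B ↔ w u ∈ B := by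
    intro w hw hw3 u
    rcases MulAction.isBlock_iff_smul_eq_or_disjoint.1 hB ⟨w, hw⟩ with h | h
    · conv_rhs => rw [← h]
      exact (Set.smul_mem_smul_set_iff (a := (⟨w, hw⟩ : H))).symm
    · exfalso
      have hn : ∀ v ∈ B, w v ∉ B := fun v hv hv' =>
        Set.disjoint_left.1 h (Set.smul_mem_smul_set (a := (⟨w, hw⟩ : H)) hv) hv'
      have hm : ∀ v ∈ B, v ∈ w.support := fun v hv => mem_support.2 fun e => hn v hv (by
        rw [e]; exact hv)
      have hsub : ({x, y, w x, w y} : Finset Ω) ⊆ w.support := by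
        intro v hv
        simp only [Finset.mem_insert, Finset.mem_singleton] at hv
        rcases hv with rfl | rfl | rfl | rfl
        exacts [hm _ hx, hm _ hy, apply_mem_support.2 (hm _ hx), apply_mem_support.2 (hm _ hy)]
      have h1 : x ≠ w x := fun e => hn x hx (e ▸ hx)
      have h2 : x ≠ w y := fun e => hn y hy (e ▸ hx)
      have h3 : y ≠ w x := fun e => hn x hx (e ▸ hy)
      have h4 : y ≠ w y := fun e => hn y hy (e ▸ hy)
      have h5 : w x ≠ w y := fun e => hxy (w.injective e)
      have := Finset.card_le_card hsub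
      rw [hw3.card_support, Finset.card_insert_of_notMem (by simp [hxy, h1, h2]),
        Finset.card_insert_of_notMem (by simp [h3, h4]), Finset.card_pair h5] at this
      omega
  have all : ∀ u v, u ∈ B ↔ v ∈ B := fun u v => by
    induction hc u v with
    | rel u v h => obtain ⟨w, hw, hw3, rfl⟩ := h; exact key w hw hw3 u
    | refl u => rfl
    | symm u v _ ih => exact ih.symm
    | trans u v w _ _ i1 i2 => exact i1.trans i2
  exact Set.eq_univ_of_forall fun v => (all x v).1 hx

theorem alt_conj {a b : alternatingGroup Ω} (ha : (a : Perm Ω) * a = 1) (h1 : (a : Perm Ω) ≠ 1)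
    (h : IsConj (a : Perm Ω) b) : IsConj a b := by
  obtain ⟨g, hg⟩ := isConj_iff.1 h
  rcases Int.units_eq_one_or (sign g) with hs | hs
  · exact isConj_iff.2 ⟨⟨g, hs⟩, Subtype.ext hg⟩
  · obtain ⟨x, hx⟩ : ∃ x, (a : Perm Ω) x ≠ x := by
      by_contra hc; push Not at hc; exact h1 (Equiv.ext hc)
    have hxx : (a : Perm Ω) ((a : Perm Ω) x) = x := by rw [← mul_apply, ha]; rfl
    have hcm : swap x ((a : Perm Ω) x) * a * (swap x ((a : Perm Ω) x))⁻¹ = a := by
      rw [mul_inv_eq_iff_eq_mul, mul_swap_eq_swap_mul, hxx, swap_comm]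
    refine isConj_iff.2 ⟨⟨g * swap x ((a : Perm Ω) x), ?_⟩, Subtype.ext ?_⟩
    · rw [mem_alternatingGroup, map_mul, hs, sign_swap hx.symm]; simp
    · show g * swap x ((a : Perm Ω) x) * a * (g * swap x ((a : Perm Ω) x))⁻¹ = b
      rw [← hg]; conv_rhs => rw [← hcm]
      group

theorem alt_top {S : Set (alternatingGroup Ω)}
    (h : alternatingGroup Ω ≤ closure ((alternatingGroup Ω).subtype '' S)) : closure S = ⊤ := by
  rw [← MonoidHom.map_closure] at h
  refine top_unique fun x _ => ?_
  obtain ⟨y, hy, e⟩ := h x.2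
  rwa [← Subtype.ext e]

theorem alt_type {a : Perm Ω} (ha : a * a = 1) :
    a.cycleType = Multiset.replicate (a.support.card / 2) 2 ∧ 2 ∣ a.support.card ∧
      sign a = (-1) ^ (a.support.card / 2) := by
  have h2 : a ^ 2 = 1 := by rw [pow_two, ha]
  have h := cycleType_of_pow_prime_eq_one h2
  have hs := sum_cycleType a
  rw [h, Multiset.sum_replicate, smul_eq_mul] at hs
  have e : a.support.card / 2 = Multiset.card a.cycleType := by omega
  refine ⟨by rw [e]; exact h, by omega, ?_⟩
  rw [sign_of_cycleType, sum_cycleType, e, ← hs, pow_add, mul_comm _ 2, pow_mul]; simp only [even_two, Even.neg_pow, one_pow, one_mul]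

theorem alt_isConj {a b : Perm Ω} (ha : a * a = 1) (hb : b * b = 1)
    (h : a.support.card = b.support.card) : IsConj a b := by
  rw [isConj_iff_cycleType_eq, (alt_type ha).1, (alt_type hb).1, h]

theorem alt_ns (h : 5 ≤ Fintype.card Ω) : ¬ Group.IsSolvable (alternatingGroup Ω) :=
  not_solvable_of_alt h (MonoidHom.id _) Function.injective_id

theorem alt_three {n : ℕ} (hn : Fintype.card Ω = n) (h5 : 5 ≤ n) (a b c : Perm Ω)
    (ha : a * a = 1) (h1 : a ≠ 1) (hs : sign a = 1) (hab : IsConj a b) (hac : IsConj a c)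
    (hm : a * b = b * a) (hg : alternatingGroup Ω ≤ closure {a, b, c}) :
    Good (alternatingGroup (Fin n)) 3 := by
  obtain ⟨e⟩ := alt_equiv hn
  have sb : sign b = 1 := by
    obtain ⟨g, rfl⟩ := isConj_iff.1 hab; simp only [Perm.sign_mul, hs, mul_one, sign_inv, Int.units_mul_self]
  have sc : sign c = 1 := by
    obtain ⟨g, rfl⟩ := isConj_iff.1 hac; simp only [Perm.sign_mul, hs, mul_one, sign_inv, Int.units_mul_self]
  refine alt_good_congr e (isLeast_three (alt_ns (hn ▸ h5)) (⟨a, hs⟩ : alternatingGroup Ω)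
    ⟨b, sb⟩ ⟨c, sc⟩ (Subtype.ext ha) (alt_conj ha h1 hab) (alt_conj ha h1 hac)
    (Subtype.ext hm) (alt_top ?_)).1
  simpa only [subtype_apply, Set.image_insert_eq, Set.image_singleton] using hg

/-- Product of transpositions. -/
def altS (l : List (Ω × Ω)) : Perm Ω := (l.map fun e => swap e.1 e.2).prod

/-- Value of a word. -/
def altW {k : ℕ} (t : Fin k → Perm Ω) (w : List (Fin k)) : Perm Ω := (w.map t).prod

omit [Fintype Ω] [DecidableEq Ω] in
theorem altW_mem {k : ℕ} {t : Fin k → Perm Ω} {K : Subgroup (Perm Ω)} (h : ∀ i, t i ∈ K)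
    (w : List (Fin k)) : altW t w ∈ K :=
  K.list_prod_mem fun x hx => by
    obtain ⟨i, -, rfl⟩ := List.mem_map.1 hx; exact h i

theorem alt_words {k : ℕ} (t : Fin k → Perm Ω) (zw : List (Fin k)) (p q r : Ω)
    (ws : Ω → List (Fin k)) (hd : p ≠ q ∧ p ≠ r ∧ q ≠ r) (hz : altW t zw = swap p q * swap p r)
    (hw : ∀ y, y = p ∨ (altW t (ws y) * (swap p q * swap p r) * (altW t (ws y))⁻¹) p = y) :
    alternatingGroup Ω ≤ closure (Set.range t) := by
  have hm : ∀ i, t i ∈ closure (Set.range t) := fun i => subset_closure ⟨i, rfl⟩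
  have h3 := isThreeCycle_swap_mul_swap_same hd.1 hd.2.1 hd.2.2
  have hzm : swap p q * swap p r ∈ closure (Set.range t) := hz ▸ altW_mem hm zw
  have : ∀ y, Relation.EqvGen (altRel (closure (Set.range t))) p y := fun y => by
    rcases hw y with rfl | h
    · exact .refl _
    · exact .rel _ _ ⟨_, mul_mem (mul_mem (altW_mem hm _) hzm) (inv_mem (altW_mem hm _)),
        alt_three_conj h3 _, h⟩
  exact alt_le _ hzm h3 fun x y => .trans _ _ _ (.symm _ _ (this x)) (this y)

omit [Fintype Ω] [DecidableEq Ω] in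
theorem alt_via {W : Type*} (ι : W ↪ Ω) (g : Perm Ω) (G P : Perm W)
    (h : ∀ x, P x ≠ x → g (ι x) = ι (G x)) :
    g * viaEmbeddingHom ι P * g⁻¹ = viaEmbeddingHom ι (G * P * G⁻¹) := by
  ext y
  obtain ⟨y, rfl⟩ := g.surjective y
  simp only [viaEmbeddingHom_apply, mul_apply, Perm.coe_inv, symm_apply_apply]
  by_cases hy : ∃ x, P x ≠ x ∧ ι x = y
  · obtain ⟨x, hx, rfl⟩ := hy
    rw [viaEmbedding_apply, h x hx, h _ fun e => hx (P.injective e), viaEmbedding_apply]
    simp only [Perm.coe_mul, Perm.coe_inv, Function.comp_apply, symm_apply_apply]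
  · have e1 : P.viaEmbedding ι y = y := by
      by_cases hr : y ∈ Set.range ι
      · obtain ⟨x, rfl⟩ := hr
        rw [viaEmbedding_apply]
        by_contra hc
        exact hy ⟨x, fun e => hc (by rw [e]), rfl⟩
      · exact viaEmbedding_apply_of_notMem _ _ _ hr
    rw [e1]
    by_cases hr : g y ∈ Set.range ι
    · obtain ⟨w, hw⟩ := hr
      obtain ⟨x, rfl⟩ := G.surjective w
      have : P x = x := by
        by_contra hc
        exact hy ⟨x, hc, g.injective (by rw [h x hc, hw])⟩
      rw [← hw, viaEmbedding_apply]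
      simp only [Perm.coe_mul, Perm.coe_inv, Function.comp_apply, symm_apply_apply, this]
    · exact (viaEmbedding_apply_of_notMem _ _ _ hr).symm

end Gen

/-- The window `-r, …, r` inside `ZMod L`. -/
def altI (L r s : ℕ) (h : 2 * r + 1 ≤ L) : Fin (2 * r + 1) ⊕ Fin s ↪ ZMod L ⊕ Fin s :=
  Function.Embedding.sumMap ⟨fun i => ((i : ℕ) : ZMod L) - r, fun i j e => by
    have := (ZMod.natCast_eq_natCast_iff' _ _ _).1 (sub_left_injective e)
    rw [Nat.mod_eq_of_lt (by omega), Nat.mod_eq_of_lt (by omega)] at this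
    exact Fin.ext this⟩ (Function.Embedding.refl _)

/-- The three local generators. -/
def altT {W : Type*} (G T : Perm W) : Fin 3 → Perm W := ![T, G * T * G⁻¹, G⁻¹ * T * G]

theorem alt_design (L r s : ℕ) (hL : 2 * r + 1 ≤ L) (h5 : 5 ≤ L) (hodd : L % 2 = 1)
    (a0 c0 p0 : Perm (Fin s)) (T σ : Perm (Fin (2 * r + 1) ⊕ Fin s)) (y0 y1 : Fin (2 * r + 1))
    (zw : List (Fin 3)) (p q u : Fin (2 * r + 1) ⊕ Fin s) (w1 : List (Fin 3))
    (ws : Fin s → List (Fin 3)) (hs : (-1) ^ ((L - 1) / 2) * sign a0 = 1)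
    (h : y0.1 = r ∧ y1.1 = r + 1 ∧ a0 * a0 = 1 ∧ p0 * a0 = c0 * p0 ∧
      Perm.sumCongr Fin.revPerm a0 * T = T * Perm.sumCongr Fin.revPerm a0 ∧
      σ * Perm.sumCongr Fin.revPerm a0 = Perm.sumCongr Fin.revPerm a0 * T * σ ∧
      T (.inl 0) = .inl 0 ∧ T (.inl (Fin.last _)) = .inl (Fin.last _) ∧
      p ≠ q ∧ p ≠ u ∧ q ≠ u)
    (hz : altW (altT (Perm.sumCongr (finRotate _) (c0 * a0)) T) zw = swap p q * swap p u)
    (hw : (altW (altT (Perm.sumCongr (finRotate _) (c0 * a0)) T) w1 * (swap p q * swap p u) *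
        (altW (altT (Perm.sumCongr (finRotate _) (c0 * a0)) T) w1)⁻¹) (.inl y0) = .inl y1 ∧
      ∀ j, (altW (altT (Perm.sumCongr (finRotate _) (c0 * a0)) T) (ws j) * (swap p q * swap p u) *
        (altW (altT (Perm.sumCongr (finRotate _) (c0 * a0)) T) (ws j))⁻¹) (.inl y0) = .inr j) :
    Good (alternatingGroup (Fin (L + s))) 3 := by
  obtain ⟨hy0, hy1, haa, hp0, hAT, hσ, hT0, hT1, hpq, hpu, hqu⟩ := h
  have : NeZero L := ⟨by omega⟩
  set ι := altI L r s hL with hι
  set A : Perm (Fin (2 * r + 1) ⊕ Fin s) := Perm.sumCongr Fin.revPerm a0 with hA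
  set G : Perm (Fin (2 * r + 1) ⊕ Fin s) := Perm.sumCongr (finRotate _) (c0 * a0) with hG
  let a : Perm (ZMod L ⊕ Fin s) := Perm.sumCongr (Equiv.neg _) a0
  let c : Perm (ZMod L ⊕ Fin s) := Perm.sumCongr (Equiv.subLeft 1) c0
  let v := viaEmbeddingHom ι
  have il : ∀ i : Fin (2 * r + 1), ι (.inl i) = .inl (((i : ℕ) : ZMod L) - r) := fun _ => rfl
  have ir : ∀ j, ι (.inr j) = .inr j := fun _ => rfl
  have hh : ((((L + 1) / 2 : ℕ) : ZMod L)) * 2 = 1 := by
    have : (L + 1) / 2 * 2 = L + 1 := by omega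
    have e := congrArg (Nat.cast : ℕ → ZMod L) this
    simpa only [Nat.cast_mul, Nat.cast_ofNat, Nat.cast_add, CharP.cast_eq_zero, Nat.cast_one, zero_add] using e
  have ha2 : a * a = 1 := by
    simp only [a, sumCongr_mul, haa]
    ext x; rcases x with x | x <;> simp only [Equiv.sumCongr_apply, Perm.coe_mul, Equiv.neg_apply, neg_involutive, Function.Involutive.comp_self, Perm.coe_one, Sum.map_inl, id_eq, Sum.map_inr]
  have hAA : A * A = 1 := by
    simp only [hA, sumCongr_mul, haa]
    ext x; rcases x with x | x <;> simp only [Equiv.sumCongr_apply, Perm.coe_mul, Perm.coe_one, Sum.map_inl, Function.comp_apply, Fin.revPerm_apply, Fin.rev_rev, id_eq, Sum.map_inr]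
  have haι : ∀ x, a (ι x) = ι (A x) := by
    rintro (i | j)
    · have := i.2
      show Sum.inl (-(((i : ℕ) : ZMod L) - r)) = ι (.inl i.rev)
      rw [il, Fin.val_rev, show 2 * r + 1 - (i + 1) = 2 * r - i by omega,
        Nat.cast_sub (by omega)]
      congr 1; push_cast; ring
    · rfl
  have hgl : ∀ x : ZMod L, (c * a) (.inl x) = .inl (x + 1) := fun x => by
    show Sum.inl (1 - -x) = _
    congr 1; ring
  have hgι : ∀ x, x ≠ .inl (Fin.last _) → (c * a) (ι x) = ι (G x) := by
    rintro (i | j) hx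
    · show _ = ι (.inl (finRotate _ i))
      rw [il, il, hgl, coe_finRotate_of_ne_last fun e => hx (by rw [e])]
      congr 1; push_cast; ring
    · rfl
  have hat : a * v T * a⁻¹ = v T := by
    rw [alt_via ι a A T fun x _ => haι x, hAT, mul_inv_cancel_right]
  have hai : a⁻¹ = a := inv_eq_of_mul_eq_one_right ha2
  have hAi : A⁻¹ = A := inv_eq_of_mul_eq_one_right hAA
  have hcm : a * v T = v T * a := by rw [← mul_inv_eq_iff_eq_mul]; exact hat
  have h2 : (2 : ZMod L) ≠ 0 := fun e => by
    rw [e, mul_zero] at hh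
    have := (ZMod.subsingleton_iff (n := L)).1 (subsingleton_of_zero_eq_one hh)
    omega
  refine alt_three (by simp only [Fintype.card_sum, ZMod.card, Fintype.card_fin, Nat.add_left_cancel_iff]) (by omega) a (a * v T) c ha2 ?_ ?_ ?_ ?_ (by
    rw [mul_assoc, hcm]) ?_
  · intro e
    have : a (.inl 1) = .inl 1 := by rw [e]; rfl
    have : (-1 : ZMod L) = 1 := Sum.inl.inj this
    exact h2 (by linear_combination -this)
  · rw [← hs, sign_sumCongr, sign_of_pow_two_eq_one (by ext; simp [pow_two]), ZMod.card]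
    congr 4
    refine Fintype.card_eq_one_iff.2 ⟨⟨0, neg_zero⟩, fun ⟨x, hx⟩ => Subtype.ext ?_⟩
    have hx : -x = x := hx
    show x = 0
    linear_combination (-x) * hh - (((L + 1) / 2 : ℕ) : ZMod L) * hx
  · refine isConj_iff.2 ⟨v σ, ?_⟩
    have e1 := alt_via ι a A σ⁻¹ fun x _ => haι x
    have e2 : σ * (A * σ⁻¹ * A⁻¹) = T := by
      calc σ * (A * σ⁻¹ * A⁻¹) = σ * A * σ⁻¹ * A⁻¹ := by group
        _ = A * T * A⁻¹ := by rw [hσ]; group
        _ = T := by rw [hAT]; group
    calc v σ * a * (v σ)⁻¹ = v σ * (a * v σ⁻¹ * a⁻¹) * a := by rw [map_inv]; group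
      _ = v T * a := by rw [e1, ← map_mul, e2]
      _ = a * v T := hcm.symm
  · refine isConj_iff.2 ⟨Perm.sumCongr (Equiv.addRight (((L + 1) / 2 : ℕ) : ZMod L)) p0, ?_⟩
    rw [mul_inv_eq_iff_eq_mul]
    simp only [a, c, sumCongr_mul, hp0]
    congr 1
    ext x
    simp only [mul_apply, Equiv.neg_apply, Equiv.coe_addRight, Equiv.subLeft_apply]
    linear_combination hh
  · set H : Subgroup (Perm (ZMod L ⊕ Fin s)) := closure {a, a * v T, c} with hH
    have ma : a ∈ H := subset_closure (by simp)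
    have mg : c * a ∈ H := mul_mem (subset_closure (by simp)) ma
    have mt : v T ∈ H := by
      have : a⁻¹ * (a * v T) ∈ H := mul_mem (inv_mem ma) (subset_closure (by simp))
      simpa using this
    have hm : ∀ i, altT G T i ∈ H.comap v := by
      intro i
      fin_cases i
      · exact mt
      · show v (G * T * G⁻¹) ∈ H
        rw [← alt_via ι (c * a) G T fun x hx => hgι x fun e => hx (by rw [e, hT1])]
        exact mul_mem (mul_mem mg mt) (inv_mem mg)
      · show v (G⁻¹ * T * G) ∈ H
        have := alt_via ι (c * a)⁻¹ G⁻¹ T fun x hx => by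
          rw [Perm.inv_eq_iff_eq, hgι]
          · simp
          · intro e
            rw [Perm.inv_eq_iff_eq] at e
            exact hx (by rw [e]; simpa [hG] using hT0)
        rw [inv_inv, inv_inv] at this
        rw [← this]
        exact mul_mem (mul_mem (inv_mem mg) mt) mg
    have h3 : ∀ z : Perm (Fin (2 * r + 1) ⊕ Fin s), IsThreeCycle z → IsThreeCycle (v z) := by
      intro z hz
      unfold IsThreeCycle at *
      rw [← hz]
      exact @cycleType_extendDomain _ _ _ _ _ _ _ (fun _ => Classical.propDecidable _)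
        (Equiv.ofInjective ι.1 ι.2) z
    have z3 := isThreeCycle_swap_mul_swap_same hpq hpu hqu
    have zm : swap p q * swap p u ∈ H.comap v := hz ▸ altW_mem hm zw
    have loc : ∀ w y, (altW (altT G T) w * (swap p q * swap p u) * (altW (altT G T) w)⁻¹)
        (.inl y0) = y → Relation.EqvGen (altRel H) (.inl 0) (ι y) := fun w y e =>
      .rel _ _ ⟨v _, mul_mem (mul_mem (altW_mem hm w) zm) (inv_mem (altW_mem hm w)),
        h3 _ (alt_three_conj z3 _), by
          rw [← e, ← viaEmbedding_apply, il, hy0, sub_self]; rfl⟩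
    have s1 : ∀ k : ℕ, Relation.EqvGen (altRel H) (.inl (k : ZMod L)) (.inl ((k : ZMod L) + 1)) := by
      intro k
      induction k with
      | zero =>
        have := loc _ _ hw.1
        rw [il, hy1] at this
        simpa using this
      | succ k ih =>
        have := altRel_conj ih mg
        rw [hgl, hgl] at this
        simpa using this
    have s2 : ∀ k : ℕ, Relation.EqvGen (altRel H) (.inl 0) (.inl (k : ZMod L)) := by
      intro k
      induction k with
      | zero => simpa using Relation.EqvGen.refl _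
      | succ k ih => exact .trans _ _ _ ih (by simpa using s1 k)
    have s3 : ∀ y, Relation.EqvGen (altRel H) (.inl 0) y := by
      rintro (x | j)
      · simpa using s2 x.val
      · exact loc _ _ (hw.2 j)
    exact alt_le H zm (h3 _ z3) fun x y => .trans _ _ _ (.symm _ _ (s3 x)) (s3 y)

theorem alt_r1 (m : ℕ) : Good (alternatingGroup (Fin (4 * m + 9))) 3 :=
  alt_design (4 * m + 9) 3 0 (by omega) (by omega) (by omega) 1 1 1
    (altS [(.inl 4, .inl 5), (.inl 2, .inl 1)]) (altS [(.inl 4, .inl 5)]) 3 4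
    [1, 2, 1, 2] (.inl 2) (.inl 3) (.inl 4) [1] (fun _ => [])
    (by rw [show (4 * m + 9 - 1) / 2 = 2 * (m + 2) by omega, pow_mul]; simp only [even_two, Even.neg_pow, one_pow, Perm.sign_one, mul_one])
    (by decide +kernel) (by decide +kernel) (by decide +kernel)

theorem alt_r2 (m : ℕ) : Good (alternatingGroup (Fin (4 * m + 9 + 1))) 3 :=
  alt_design (4 * m + 9) 3 1 (by omega) (by omega) (by omega) 1 1 1
    (altS [(.inl 3, .inr 0), (.inl 5, .inl 1)])
    (altS [(.inl 1, .inl 3), (.inl 1, .inl 2), (.inl 4, .inl 5), (.inl 4, .inr 0)])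
    3 4 [0, 1, 0, 1] (.inl 3) (.inr 0) (.inl 4) []
    ![[0]]
    (by rw [show (4 * m + 9 - 1) / 2 = 2 * (m + 2) by omega, pow_mul]; simp only [even_two, Even.neg_pow, one_pow, Perm.sign_one, mul_one])
    (by decide +kernel) (by decide +kernel) (by decide +kernel)

theorem alt_r3 (m : ℕ) : Good (alternatingGroup (Fin (4 * m + 7 + 4))) 3 :=
  alt_design (4 * m + 7) 3 4 (by omega) (by omega) (by omega) (swap 0 1) (swap 1 2) (swap 0 2)
    (altS [(.inr 2, .inr 3), (.inl 5, .inl 1), (.inr 0, .inl 4), (.inr 1, .inl 2)])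
    (altS [(.inl 1, .inl 3), (.inl 1, .inr 2), (.inl 1, .inr 0), (.inl 1, .inl 5), (.inl 1, .inr 3), (.inl 1, .inr 1), (.inl 1, .inl 4), (.inl 1, .inl 2)])
    3 4 [1, 2, 1, 2] (.inl 1) (.inl 5) (.inr 2) [2, 1, 0, 2, 0, 2, 0]
    ![[0, 2, 1, 0, 2, 0, 2, 0], [0, 2, 0, 1, 0, 1, 0, 1, 0], [2, 1, 0], [0, 2, 1, 0]]
    (by rw [show (4 * m + 7 - 1) / 2 = 2 * (m + 1) + 1 by omega, pow_succ, pow_mul, sign_swap (by decide)]; simp only [even_two, Even.neg_pow, one_pow, mul_neg, mul_one, neg_neg])
    (by decide +kernel) (by decide +kernel) (by decide +kernel)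

theorem alt_r0 (m : ℕ) : Good (alternatingGroup (Fin (4 * m + 11 + 5))) 3 :=
  alt_design (4 * m + 11) 4 5 (by omega) (by omega) (by omega) (swap 0 1) (swap 2 3) (swap 0 2 * swap 1 3)
    (altS [(.inl 4, .inr 2), (.inr 3, .inr 4), (.inl 5, .inl 3), (.inl 6, .inl 2), (.inr 0, .inl 7), (.inr 1, .inl 1)])
    (altS [(.inl 2, .inl 4), (.inl 3, .inr 2), (.inl 3, .inl 6), (.inl 3, .inr 4), (.inl 3, .inr 1), (.inl 3, .inl 5), (.inl 3, .inr 3), (.inl 3, .inr 0), (.inl 3, .inl 7)])
    4 5 [0, 1, 0, 1, 0, 1, 0, 1, 0, 1] (.inl 1) (.inr 1) (.inl 8) [2, 1, 0, 1, 0, 2]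
    ![[1, 2, 1, 2], [1, 2, 0], [2, 1, 0, 1, 2, 1, 2], [1, 2], [0, 1, 2, 0, 1, 2, 0]]
    (by rw [show (4 * m + 11 - 1) / 2 = 2 * (m + 2) + 1 by omega, pow_succ, pow_mul, sign_swap (by decide)]; simp only [even_two, Even.neg_pow, one_pow, mul_neg, mul_one, neg_neg])
    (by decide +kernel) (by decide +kernel) (by decide +kernel)

theorem alt_fin3 {n : ℕ} (h5 : 5 ≤ n) (t : Fin 3 → Perm (Fin n)) (zw : List (Fin 3)) (p q r : Fin n)
    (ws : Fin n → List (Fin 3)) (k : ℕ)
    (h : (∀ i, t i * t i = 1 ∧ (t i).support.card = 4 * k + 4) ∧ t 0 * t 1 = t 1 * t 0)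
    (hd : p ≠ q ∧ p ≠ r ∧ q ≠ r) (hz : altW t zw = swap p q * swap p r)
    (hw : ∀ y, y = p ∨ (altW t (ws y) * (swap p q * swap p r) * (altW t (ws y))⁻¹) p = y) :
    Good (alternatingGroup (Fin n)) 3 := by
  have hc : ∀ i, IsConj (t 0) (t i) := fun i =>
    alt_isConj (h.1 0).1 (h.1 i).1 (by rw [(h.1 0).2, (h.1 i).2])
  refine alt_three (Fintype.card_fin n) h5 (t 0) (t 1) (t 2) (h.1 0).1 ?_ ?_ (hc 1) (hc 2) h.2 ?_
  · intro e
    have := (h.1 0).2
    rw [e] at this; simp at this
  · rw [(alt_type (h.1 0).1).2.2, (h.1 0).2, show (4 * k + 4) / 2 = 2 * (k + 1) by omega, pow_mul]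
    simp only [even_two, Even.neg_pow, one_pow]
  · refine (alt_words t zw p q r ws hd hz hw).trans (closure_mono ?_)
    rintro _ ⟨i, rfl⟩
    fin_cases i <;> simp

theorem alt_fin4 {n : ℕ} (t : Fin 4 → Perm (Fin n)) (zw : List (Fin 4)) (p q r : Fin n)
    (ws : Fin n → List (Fin 4))
    (h : (∀ i, t i * t i = 1 ∧ (t i).support.card = 4) ∧ t 0 * t 1 = t 1 * t 0 ∧
      ∀ i j, t i = t j → i = j)
    (hd : p ≠ q ∧ p ≠ r ∧ q ≠ r) (hz : altW t zw = swap p q * swap p r)
    (hw : ∀ y, y = p ∨ (altW t (ws y) * (swap p q * swap p r) * (altW t (ws y))⁻¹) p = y) :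
    Good (alternatingGroup (Fin n)) 4 := by
  have hs : ∀ i, t i ∈ alternatingGroup (Fin n) := fun i => by
    rw [mem_alternatingGroup, (alt_type (h.1 i).1).2.2, (h.1 i).2]; rfl
  have h1 : ∀ i, t i ≠ 1 := fun i e => by
    have := (h.1 i).2
    rw [e] at this; simp at this
  refine ⟨fun i => ⟨t i, hs i⟩, fun i j e => h.2.2 i j (congrArg Subtype.val e), fun i => ?_,
    alt_top ?_, fun i j => alt_conj (h.1 i).1 (h1 i) (alt_isConj (h.1 i).1 (h.1 j).1 (by
      show (t i).support.card = (t j).support.card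
      rw [(h.1 i).2, (h.1 j).2])), 0, 1, by decide, Subtype.ext h.2.1⟩
  · exact orderOf_eq_prime (Subtype.ext (by rw [pow_two]; exact (h.1 i).1))
      fun e => h1 i (congrArg Subtype.val e)
  · rw [← Set.range_comp]
    exact alt_words t zw p q r ws hd hz hw

theorem alt_5 : Good (alternatingGroup (Fin 5)) 3 :=
  alt_fin3 le_rfl ![altS [(1, 2), (3, 4)], altS [(1, 3), (2, 4)], altS [(0, 1), (2, 3)]]
    [0, 1, 2] 0 1 4 ![[], [2], [1], [0], []] 0
    (by decide +kernel) (by decide +kernel) (by decide +kernel) (by decide +kernel)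

theorem alt_12 : Good (alternatingGroup (Fin 12)) 3 :=
  alt_fin3 (by omega) ![altS [(0, 1), (2, 3), (4, 5), (6, 7)],
    altS [(2, 7), (3, 6), (8, 10), (9, 11)], altS [(0, 6), (2, 9), (3, 8), (5, 10)]]
    [0, 2, 0, 2, 0, 2, 0, 2] 4 10 5 ![[2, 1, 2, 1, 0], [0, 2, 0, 2, 1, 0, 2, 1, 0],
      [2, 0, 2, 0, 2, 1], [2, 1, 0], [], [], [1, 2, 1, 0], [1, 2, 0, 2, 0, 2, 1], [1, 0],
      [0, 2, 0, 2, 1], [0], [1, 0, 2, 0, 2, 1]] 1
    (by decide +kernel) (by decide +kernel) (by decide +kernel) (by decide +kernel)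

theorem alt_6 : Good (alternatingGroup (Fin 6)) 4 :=
  alt_fin4 ![altS [(0, 1), (2, 3)], altS [(0, 2), (1, 3)], altS [(1, 2), (3, 4)],
    altS [(0, 1), (4, 5)]] [0, 1, 2] 0 4 3 ![[], [2, 3, 0], [3, 0], [], [2], [3, 1]]
    (by decide +kernel) (by decide +kernel) (by decide +kernel) (by decide +kernel)

theorem alt_7 : Good (alternatingGroup (Fin 7)) 4 :=
  alt_fin4 ![altS [(0, 1), (2, 3)], altS [(0, 1), (4, 5)], altS [(1, 2), (3, 4)],
    altS [(0, 2), (5, 6)]] [2, 3, 2, 3] 0 1 2
    ![[], [0], [], [1, 0], [2, 1, 0], [1, 0, 2, 1, 0], [3, 1, 2, 0]]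
    (by decide +kernel) (by decide +kernel) (by decide +kernel) (by decide +kernel)

theorem alt_8 : Good (alternatingGroup (Fin 8)) 4 :=
  alt_fin4 ![altS [(0, 1), (2, 3)], altS [(4, 5), (6, 7)], altS [(1, 2), (3, 4)],
    altS [(0, 2), (5, 6)]] [1, 2, 1, 2] 3 5 4
    ![[2, 3, 1, 0], [2, 1, 0], [2, 1, 2, 0], [], [], [1], [3, 1], [1, 3, 1]]
    (by decide +kernel) (by decide +kernel) (by decide +kernel) (by decide +kernel)

/-! ### Lower bounds for `n = 6, 7, 8` -/

/-- Digit `i` of the code `P`. -/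
def altAp (P i : ℕ) : ℕ := Nat.mod (Nat.shiftRight P (Nat.mul 3 i)) 8

/-- The transposition of `x`, `y` on numbers. -/
def altSw (x y i : ℕ) : ℕ := bif Nat.beq i x then y else bif Nat.beq i y then x else i

/-- Preimage of the bit set `S` under the code `P`. -/
def altPre (P S : ℕ) : ℕ → ℕ
  | 0 => 0
  | i + 1 => Nat.lor (altPre P S i) (bif S.testBit (altAp P i) then Nat.pow 2 i else 0)

/-- Code of a function. -/
def altEnc (f : ℕ → ℕ) : ℕ → ℕ
  | 0 => 0
  | i + 1 => Nat.add (altEnc f i) (Nat.shiftLeft (f i) (Nat.mul 3 i))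

/-- Evaluate the argument first. -/
def altForce (q : ℕ) (f : ℕ → Bool) : Bool :=
  match q with
  | 0 => f 0
  | k + 1 => f (k + 1)

theorem altForce_eq (q : ℕ) (f : ℕ → Bool) : altForce q f = f q := by cases q <;> rfl

/-- The code `P` keeps the family `O`. -/
def altPres (n P : ℕ) (O : List ℕ) : Bool :=
  O.all fun S => altForce (altPre P S n) fun q => O.any fun S' => Nat.beq S' q

/-- The bits of `f` mark families kept by `P`. -/
def altVal (n P : ℕ) : List (List ℕ × ℕ × ℕ × ℕ) → ℕ → Bool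
  | [], f => f == 0
  | O :: F, f => (f % 2 == 0 || altPres n P O.1) && altVal n P F (f / 2)

/-- The whole check. -/
def altChk (n A : ℕ) (L : List (ℕ × ℕ)) (F : List (List ℕ × ℕ × ℕ × ℕ)) : Bool :=
  (L.any fun e => e.1 == A) &&
  (L.all fun e => (List.range (n - 1)).all fun x =>
    altForce (altEnc (fun i => altSw x (x + 1) (altAp e.1 (altSw x (x + 1) i))) n) fun q =>
      (L.any fun e' => Nat.beq e'.1 q) &&
      (List.range n).all fun i =>
        Nat.beq (altAp q i) (altSw x (x + 1) (altAp e.1 (altSw x (x + 1) i)))) &&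
  (L.all fun e => altVal n e.1 F e.2) &&
  (F.all fun O => altPres n A O.1 && decide (O.2.1 < n) && decide (O.2.2.1 < n) &&
    decide (O.2.2.2 < n) && O.2.1 != O.2.2.1 && O.2.1 != O.2.2.2 &&
    O.1.any fun S => O.1.all fun S' => (List.range n).any fun i =>
      S'.testBit i != S.testBit (altSw O.2.1 O.2.2.1 (altSw O.2.1 O.2.2.2 i))) &&
  (L.all fun b => b.1 == A ||
    ((List.range n).any fun i => altAp A (altAp b.1 i) != altAp b.1 (altAp A i)) ||
    L.all fun c => b.2 &&& c.2 != 0)

/-- `P` is a code of `p`. -/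
def altRep {n : ℕ} (p : Perm (Fin n)) (P : ℕ) : Prop := ∀ i : Fin n, (p i).1 = altAp P i

/-- `p` keeps the family `O`. -/
def altInv {n : ℕ} (O : List ℕ) (p : Perm (Fin n)) : Prop :=
  ∀ S ∈ O, ∃ S' ∈ O, ∀ i : Fin n, S'.testBit i = S.testBit (p i)

theorem altPre_bit (P S : ℕ) (n i : ℕ) :
    (altPre P S n).testBit i = (decide (i < n) && S.testBit (altAp P i)) := by
  induction n with
  | zero => simp [altPre]
  | succ n ih =>
    rw [altPre, Nat.lor_eq, Nat.testBit_or, ih, Bool.cond_eq_ite, Nat.pow_eq]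
    rcases lt_trichotomy i n with h | rfl | h
    · have : ¬ n = i := by omega
      split_ifs <;> simp [h, this, h.le]
    · split_ifs with h <;> simp [h]
    · have h1 : ¬ n = i := by omega
      have h2 : ¬ i < n := by omega
      have h3 : ¬ i < n + 1 := by omega
      split_ifs <;> simp [h1, h2, h3]

theorem altPres_inv {n P : ℕ} {O : List ℕ} {p : Perm (Fin n)} (hp : altRep p P)
    (h : altPres n P O = true) : altInv O p := by
  intro S hS
  simp only [altPres, altForce_eq, List.all_eq_true, List.any_eq_true, Nat.beq_eq] at h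
  obtain ⟨S', h1, rfl⟩ := h S hS
  exact ⟨_, h1, fun i => by rw [altPre_bit, hp i]; simp⟩

theorem altVal_bit {n P : ℕ} {F : List (List ℕ × ℕ × ℕ × ℕ)} {f j : ℕ}
    (h : altVal n P F f = true) (hj : f.testBit j = true) :
    ∃ O, F[j]? = some O ∧ altPres n P O.1 = true := by
  induction F generalizing f j with
  | nil => simp only [altVal, beq_iff_eq] at h; simp [h] at hj
  | cons O F ih =>
    simp only [altVal, Bool.and_eq_true, Bool.or_eq_true, beq_iff_eq] at h
    cases j with
    | zero =>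
      rw [Nat.testBit_zero, decide_eq_true_eq] at hj
      exact ⟨O, rfl, h.1.resolve_left (by omega)⟩
    | succ j => rw [Nat.testBit_succ] at hj; exact ih h.2 hj

theorem altSw_val {n : ℕ} (x y i : Fin n) : (swap x y i).1 = altSw x y i := by
  simp only [swap_apply_def, altSw, Fin.ext_iff, Bool.cond_eq_ite, Nat.beq_eq]
  split_ifs <;> rfl

theorem alt_sound {n A : ℕ} {L : List (ℕ × ℕ)} {F : List (List ℕ × ℕ × ℕ × ℕ)}
    (h : altChk (n + 1) A L F = true) {a b c : Perm (Fin (n + 1))} (ha : altRep a A)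
    (h2 : a * a = 1) (hb : IsConj a b) (hc : IsConj a c) (hab : a ≠ b) (hm : a * b = b * a) :
    ¬ alternatingGroup (Fin (n + 1)) ≤ closure {a, b, c} := by
  simp only [altChk, altForce_eq, Bool.and_eq_true, Bool.or_eq_true, List.all_eq_true,
    List.any_eq_true, beq_iff_eq, Nat.beq_eq, bne_iff_ne, decide_eq_true_eq,
    List.mem_range] at h
  obtain ⟨⟨⟨⟨h0, h1⟩, hv⟩, hF⟩, hmain⟩ := h
  have cls : ∀ g : Perm (Fin (n + 1)), ∃ e ∈ L, altRep (g * a * g⁻¹) e.1 := by
    intro g
    have hg : g ∈ Submonoid.closure (Set.range fun i : Fin n => swap i.castSucc i.succ) := by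
      rw [mclosure_swap_castSucc_succ]; trivial
    induction hg using Submonoid.closure_induction_left with
    | one => obtain ⟨e, he, e1⟩ := h0; exact ⟨e, he, by simpa [e1] using ha⟩
    | mul_left x hx g _ ih =>
      obtain ⟨i, rfl⟩ := hx
      obtain ⟨e, he, hr⟩ := ih
      obtain ⟨⟨e', he', e1⟩, h3⟩ := h1 e he i i.2
      refine ⟨e', he', fun k => ?_⟩
      rw [e1, h3 k k.2]
      have : swap i.castSucc i.succ * g * a * (swap i.castSucc i.succ * g)⁻¹ =
          swap i.castSucc i.succ * (g * a * g⁻¹) * swap i.castSucc i.succ := by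
        rw [mul_inv_rev, swap_inv]; group
      rw [this, mul_apply, mul_apply, altSw_val, hr, altSw_val]; rfl
  obtain ⟨gb, rfl⟩ := isConj_iff.1 hb
  obtain ⟨gc, rfl⟩ := isConj_iff.1 hc
  obtain ⟨eb, hb1, hb2⟩ := cls gb
  obtain ⟨ec, hc1, hc2⟩ := cls gc
  rcases hmain eb hb1 with (e | ⟨i, hi, e⟩) | e
  · exact absurd (Equiv.ext fun i => Fin.ext (by rw [ha i, hb2 i, e])) hab
  · refine absurd ?_ e
    have := congrArg (fun p : Perm (Fin (n + 1)) => (p ⟨i, hi⟩).1) hm
    simp only [mul_apply (f := a), mul_apply (g := a)] at this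
    rw [ha, hb2, hb2 (a _), ha] at this
    exact this
  obtain ⟨j, hj⟩ := Nat.exists_testBit_of_ne_zero (e ec hc1)
  rw [Nat.testBit_and, Bool.and_eq_true] at hj
  obtain ⟨O, hO, pb⟩ := altVal_bit (hv eb hb1) hj.1
  obtain ⟨O', hO', pc⟩ := altVal_bit (hv ec hc1) hj.2
  obtain rfl : O = O' := Option.some.inj (hO.symm.trans hO')
  obtain ⟨⟨⟨⟨⟨⟨pa, l1⟩, l2⟩, l3⟩, n1⟩, n2⟩, S, hS, hw⟩ := hF O (List.mem_of_getElem? hO)
  intro hle
  have sq : ∀ g : Perm (Fin (n + 1)), (g * a * g⁻¹)⁻¹ = g * a * g⁻¹ := fun g => by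
    rw [mul_inv_rev, mul_inv_rev, inv_inv, inv_eq_of_mul_eq_one_right h2, mul_assoc]
  have gen : ∀ x ∈ ({a, gb * a * gb⁻¹, gc * a * gc⁻¹} : Set (Perm (Fin (n + 1)))),
      altInv O.1 x ∧ x⁻¹ = x := by
    rintro x (rfl | rfl | rfl)
    exacts [⟨altPres_inv ha pa, inv_eq_of_mul_eq_one_right h2⟩, ⟨altPres_inv hb2 pb, sq _⟩,
      ⟨altPres_inv hc2 pc, sq _⟩]
  have all : ∀ x ∈ closure ({a, gb * a * gb⁻¹, gc * a * gc⁻¹} : Set (Perm (Fin (n + 1)))),
      altInv O.1 x := by
    intro x hx
    induction hx using closure_induction'' with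
    | mem x hx => exact (gen x hx).1
    | inv_mem x hx => rw [(gen x hx).2]; exact (gen x hx).1
    | one => exact fun S hS => ⟨S, hS, fun _ => rfl⟩
    | mul x y _ _ ix iy =>
      intro S hS
      obtain ⟨S1, m1, e1⟩ := ix S hS
      obtain ⟨S2, m2, e2⟩ := iy S1 m1
      exact ⟨S2, m2, fun i => by rw [e2, e1]; rfl⟩
  obtain ⟨S', hS', e'⟩ := all (swap ⟨_, l1⟩ ⟨_, l2⟩ * swap ⟨_, l1⟩ ⟨_, l3⟩) (hle (by
    rw [mem_alternatingGroup, map_mul, sign_swap fun e => n1 (congrArg Fin.val e),
      sign_swap fun e => n2 (congrArg Fin.val e)]; rfl)) S hS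
  obtain ⟨i, hi, ne⟩ := hw S' hS'
  refine ne ?_
  have := e' ⟨i, hi⟩
  rwa [mul_apply, altSw_val, altSw_val] at this

theorem alt_not3 {n : ℕ} (h : ∀ k, k = 4 ∨ k = 8 → k ≤ n → ∃ a : Perm (Fin n), a * a = 1 ∧
      a.support.card = k ∧ ∀ b c, IsConj a b → IsConj a c → a ≠ b → a * b = b * a →
      ¬ alternatingGroup (Fin n) ≤ closure {a, b, c}) (hn : n ≤ 8) :
    ¬ Good (alternatingGroup (Fin n)) 3 := by
  rintro ⟨t, hi, ho, hc, hj, i, j, hij, hm⟩
  obtain ⟨k, hk⟩ : ∃ k : Fin 3, ∀ l, l = i ∨ l = j ∨ l = k :=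
    (by decide : ∀ i j : Fin 3, i ≠ j → ∃ k : Fin 3, ∀ l, l = i ∨ l = j ∨ l = k) i j hij
  have h2 : (t i : Perm (Fin n)) * t i = 1 := by
    have := pow_orderOf_eq_one (t i)
    rw [ho, pow_two] at this
    exact congrArg Subtype.val this
  have h1 : (t i : Perm (Fin n)) ≠ 1 := fun e => by
    have := ho i
    rw [show t i = 1 from Subtype.ext e, orderOf_one] at this
    omega
  obtain ⟨-, hd, hs⟩ := alt_type h2
  rw [mem_alternatingGroup.1 (t i).2] at hs
  have hev : Even ((t i : Perm (Fin n)).support.card / 2) := by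
    by_contra hc
    rw [(Nat.not_even_iff_odd.1 hc).neg_one_pow] at hs
    exact absurd hs (by decide)
  have hle : (t i : Perm (Fin n)).support.card ≤ n := by
    simpa only [Fintype.card_fin] using Finset.card_le_univ (t i : Perm (Fin n)).support
  have h0 : (t i : Perm (Fin n)).support.card ≠ 0 := by
    rwa [Ne, Finset.card_eq_zero, support_eq_empty_iff]
  obtain ⟨a, ha, hk2, hno⟩ := h _ (by obtain ⟨w, hw⟩ := hev; omega) hle
  obtain ⟨g, hg⟩ := isConj_iff.1 (alt_isConj h2 ha hk2.symm)
  let f := MulAut.conj g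
  have cj : ∀ l, IsConj a (f (t l)) := fun l => by
    rw [← hg]
    exact f.toMonoidHom.map_isConj ((alternatingGroup (Fin n)).subtype.map_isConj (hj i l))
  have fa : f (t i) = a := hg
  refine hno (f (t j)) (f (t k)) (cj j) (cj k) (fun e => hij (hi (Subtype.ext (f.injective
    (fa.trans e))))) (by
      rw [← fa, ← map_mul, ← map_mul]; exact congrArg (fun x => f x.1) hm) fun x hx => ?_
  have hx' : (⟨g⁻¹ * x * g⁻¹⁻¹, (alternatingGroup.normal (α := Fin n)).conj_mem x hx g⁻¹⟩ :
      alternatingGroup (Fin n)) ∈ closure (Set.range t) := by rw [hc]; trivial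
  have := Subgroup.mem_map_of_mem (f.toMonoidHom.comp (alternatingGroup (Fin n)).subtype) hx'
  rw [MonoidHom.map_closure] at this
  have e : (f.toMonoidHom.comp (alternatingGroup (Fin n)).subtype) ⟨g⁻¹ * x * g⁻¹⁻¹,
      (alternatingGroup.normal (α := Fin n)).conj_mem x hx g⁻¹⟩ = x := by
    show g * (g⁻¹ * x * g⁻¹⁻¹) * g⁻¹ = x
    group
  rw [e] at this
  refine closure_mono ?_ this
  rintro _ ⟨_, ⟨l, rfl⟩, rfl⟩
  rcases hk l with rfl | rfl | rfl
  · exact Or.inl fa
  · exact Or.inr (Or.inl rfl)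
  · exact Or.inr (Or.inr rfl)

/-- Certificate data. -/
def altL62 : List (ℕ × ℕ) :=
  [(152776,249), (109320,136), (80200,136), (153168,513), (178256,34), (117328,68), (152216,257),
  (172824,66), (82776,36), (105120,288), (169184,18), (71520,576), (47272,320), (50408,20),
  (42792,544), (153217,249), (178305,10), (117377,12), (181441,1023), (173825,10), (83777,12),
  (153098,257), (178186,66), (117258,36), (180762,903), (169506,34), (50730,68), (151691,513),
  (172299,34), (82251,68), (180307,903), (168099,66), (49323,36), (101004,576), (165068,18),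
  (67404,288), (165460,66), (164508,34), (34476,144), (14477,544), (17613,20), (9997,320),
  (18005,36), (17053,68), (5797,144)]

/-- Certificate data. -/
def altF62 : List (List ℕ × ℕ × ℕ × ℕ) :=
  [([48],0,1,4), ([32],0,1,5), ([16],0,1,4), ([3],0,1,2), ([12],0,1,2),
  ([7,11,21,26,28,38,41,44,49,50],0,1,2), ([7,11,22,25,28,37,42,44,49,50],0,1,2),
  ([3,12,48],0,1,2), ([5,10,48],0,1,2), ([6,9,48],0,1,2)]

/-- Certificate data. -/
def altL72 : List (ℕ × ℕ) :=
  [(1521800,584), (1174152,8456), (941192,2184), (1524936,1657), (1725640,6330), (1238216,24892),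
  (1517320,584), (1682184,4106), (961800,16396), (1140552,8456), (1653064,4106), (871752,1033),
  (677768,2184), (702856,16396), (641928,1033), (1525328,97), (1726032,162), (1238608,292),
  (1751120,70), (1690192,259), (969808,133), (1524376,97), (1725080,162), (1237656,292),
  (1745688,70), (1655640,259), (705432,133), (1513120,1104), (1677984,9218), (957600,3076),
  (1742048,11350), (1644384,9218), (694176,3076), (1107624,16656), (1620136,16898),
  (838824,18433), (1623272,19219), (1615656,16898), (575400,18433), (415408,4240), (440496,4612),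
  (379568,12289), (443632,12949), (436016,4612), (345968,12289), (1525377,1657), (1726081,6330),
  (1238657,24892), (1751169,21070), (1690241,13579), (969857,19597), (1754305,32767),
  (1746689,21070), (1656641,13579), (706433,19597), (1525258,97), (1725962,162), (1238538,292),
  (1751050,70), (1690122,259), (969738,133), (1753626,487), (1742370,70), (1623594,259),
  (443954,133), (1523851,97), (1724555,162), (1237131,292), (1745163,70), (1655115,259),
  (704907,133), (1753171,487), (1740963,70), (1622187,259), (442547,133), (1509004,1104),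
  (1673868,9218), (953484,3076), (1737932,11350), (1640268,9218), (690060,3076), (1738324,70),
  (1737372,70), (1607340,2066), (427700,8212), (1074829,16656), (1587341,16898), (806029,18433),
  (1590477,19219), (1582861,16898), (542605,18433), (1590869,259), (1589917,259), (1578661,2066),
  (280245,529), (153230,4240), (178318,4612), (117390,12289), (181454,12949), (173838,4612),
  (83790,12289), (181846,133), (180894,133), (169638,8212), (50862,529)]

/-- Certificate data. -/
def altF72 : List (List ℕ × ℕ × ℕ × ℕ) :=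
  [([16],0,1,4), ([64],0,1,6), ([32],0,1,5), ([3],0,1,2), ([12],0,1,2), ([112],0,1,4),
  ([96],0,1,5), ([48],0,1,4), ([80],0,1,4), ([28],0,1,2), ([19],0,1,2), ([76],0,1,2),
  ([67],0,1,2), ([44],0,1,2), ([35],0,1,2)]

/-- Certificate data. -/
def altL82 : List (ℕ × ℕ) :=
  [(14571144,25029), (11789960,99909), (9926280,399429), (14596232,16643), (16201864,133137),
  (12302472,66593), (14535304,16649), (15854216,33297), (10091144,266273), (11521160,66569),
  (15621256,8337), (9370760,266243), (7818888,133129), (8019592,8353), (7532168,33283),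
  (14599368,25039), (16205000,399453), (12305608,99949), (16405704,25077), (15918280,99927),
  (10155208,399463), (14591752,16643), (16197384,133137), (12297992,66593), (16362248,16689),
  (15641864,66579), (8040200,133155), (14501704,16649), (15820616,33297), (10057544,266273),
  (16333128,16689), (15551816,266265), (7950152,33321), (11257736,66569), (15357832,8337),
  (9107336,266243), (15382920,66579), (15321992,266265), (6999944,8331), (5720008,133129),
  (5920712,8353), (5433288,33283), (5945800,133155), (5884872,33321), (5164488,8331),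
  (14599760,458), (16205392,6232), (12306000,1640), (16406096,496), (15918672,1618),
  (10155600,6242), (16431184,3378), (16370256,4920), (15649872,5274), (8048208,2730),
  (14598808,458), (16204440,6232), (12305048,1640), (16405144,496), (15917720,1618),
  (10154648,6242), (16425752,3378), (16335704,4920), (15385496,5274), (5948376,2730),
  (14587552,8454), (16193184,264212), (12293792,33828), (16358048,295216), (15637664,271378),
  (8036000,43042), (16422112,306486), (16324448,295216), (15374240,271378), (5937120,43042),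
  (14468776,8460), (15787688,66068), (10024616,135204), (16300200,196912), (15518888,77848),
  (7917224,139816), (16303336,209724), (16295720,196912), (15255464,77848), (5818344,139816),
  (10995376,33804), (15095472,16532), (8844976,135174), (15120560,148498), (15059632,53272),
  (6737584,163978), (15123696,185502), (15116080,148498), (15026032,53272), (4638704,163978),
  (3622584,264204), (3823288,16548), (3335864,66054), (3848376,84002), (3787448,279080),
  (3067064,327818), (3851512,346798), (3843896,84002), (3753848,279080), (2803640,327818),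
  (14599809,25039), (16205441,399453), (12306049,99949), (16406145,25077), (15918721,99927),
  (10155649,399463), (16431233,216371), (16370305,316217), (15649921,341147), (8048257,174763),
  (16434369,524287), (16426753,216371), (16336705,316217), (15386497,341147), (5949377,174763),
  (14599690,458), (16205322,6232), (12305930,1640), (16406026,496), (15918602,1618),
  (10155530,6242), (16431114,3378), (16370186,4920), (15649802,5274), (8048138,2730),
  (16433690,8186), (16422434,3378), (16303658,4920), (15124018,5274), (3851834,2730),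
  (14598283,458), (16203915,6232), (12304523,1640), (16404619,496), (15917195,1618),
  (10154123,6242), (16425227,3378), (16335179,4920), (15384971,5274), (5947851,2730),
  (16433235,8186), (16421027,3378), (16302251,4920), (15122611,5274), (3850427,2730),
  (14583436,8454), (16189068,264212), (12289676,33828), (16353932,295216), (15633548,271378),
  (8031884,43042), (16417996,306486), (16320332,295216), (15370124,271378), (5933004,43042),
  (16418388,3378), (16417436,3378), (16287404,8500), (15107764,33814), (3835580,264230),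
  (14435981,8460), (15754893,66068), (9991821,135204), (16267405,196912), (15486093,77848),
  (7884429,139816), (16270541,209724), (16262925,196912), (15222669,77848), (5785549,139816),
  (16270933,4920), (16269981,4920), (16258725,8500), (14960309,135196), (3688125,66092),
  (10733198,33804), (14833294,16532), (8582798,135174), (14858382,148498), (14797454,53272),
  (6475406,163978), (14861518,185502), (14853902,148498), (14763854,53272), (4376526,163978),
  (14861910,5274), (14860958,5274), (14849702,33814), (14730926,135196), (2279102,16526),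
  (1525391,264204), (1726095,16548), (1238671,66054), (1751183,84002), (1690255,279080),
  (969871,327818), (1754319,346798), (1746703,84002), (1656655,279080), (706447,327818),
  (1754711,2730), (1753759,2730), (1742503,264230), (1623727,66092), (444087,16526)]

/-- Certificate data. -/
def altF82 : List (List ℕ × ℕ × ℕ × ℕ) :=
  [([3],0,1,2), ([32],0,1,5), ([12],0,1,2), ([16],0,1,4), ([128],0,1,7), ([64],0,1,6),
  ([15],0,1,4), ([48],0,1,4), ([192],0,1,6), ([80],0,1,4), ([160],0,1,5), ([96],0,1,5),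
  ([144],0,1,4), ([51],0,1,2), ([60],0,1,2), ([83],0,1,2), ([92],0,1,2), ([99],0,1,2),
  ([108],0,1,2)]

/-- Certificate data. -/
def altL84 : List (ℕ × ℕ) :=
  [(14570689,32767), (11789505,6553), (9925825,7777), (14527233,11466), (11513089,2184),
  (7810817,3136), (14498113,11058), (9272641,2592), (7434049,2320), (11254145,2320),
  (9042817,3136), (6971265,19796), (5716417,2592), (5368769,2184), (5135809,19116),
  (14570010,25057), (11788826,1927), (9925146,127), (14522914,8384), (11508770,1154),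
  (7806498,74), (14465066,8480), (9239594,50), (7401002,770), (10991666,1284), (8780338,84),
  (6708786,16704), (3618874,44), (3271226,644), (3038266,16544), (14569555,26137), (11788371,127),
  (9924691,1927), (14487907,8720), (11243939,50), (5706211,770), (14459179,9224), (8974763,1154),
  (5300715,74), (10985779,44), (8745331,644), (4608499,16904), (3612987,1284), (3236219,84),
  (2773435,17424), (14518868,9224), (11504724,74), (7802452,1154), (14484316,8480),
  (11240348,770), (5702620,50), (14451948,13612), (6852524,1927), (5017068,127), (10978548,4360),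
  (6623092,385), (4557812,25), (3605756,5152), (2952572,97), (2722748,1537), (14432341,8720),
  (9206869,770), (7368277,50), (14426909,8384), (8942493,74), (5268445,1154), (14423269,13012),
  (6823845,127), (4988389,1927), (8680693,4672), (6565685,97), (4471285,1537), (3171581,4240),
  (2895165,385), (2636221,25), (10729558,84), (8518230,1284), (6446678,17424), (10724126,644),
  (8483678,44), (4346846,16544), (10720486,4240), (6365030,25), (4299750,385), (8451310,5152),
  (6336302,1537), (4241902,97), (2249982,21682), (2206526,1927), (2177406,127), (1521751,644),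
  (1174103,44), (941143,16904), (1516319,84), (1139551,1284), (676767,16704), (1512679,4672),
  (859495,1537), (629671,97), (1107183,4360), (830767,25), (571823,385), (414967,21322),
  (371511,127), (342391,1927)]

/-- Certificate data. -/
def altF84 : List (List ℕ × ℕ × ℕ × ℕ) :=
  [([15,240],0,1,4), ([60,195],0,1,2), ([51,204],0,1,2), ([101,154],0,1,2), ([106,149],0,1,2),
  ([86,169],0,1,2), ([89,166],0,1,2), ([102,153],0,1,2), ([105,150],0,1,2), ([85,170],0,1,2),
  ([90,165],0,1,2), ([3],0,1,2), ([12],0,1,2), ([192],0,1,6), ([48],0,1,4)]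

theorem alt_c62 : altChk 6 181441 altL62 altF62 = true := by decide +kernel
theorem alt_c72 : altChk 7 1754305 altL72 altF72 = true := by decide +kernel
theorem alt_c82 : altChk 8 16434369 altL82 altF82 = true := by decide +kernel
theorem alt_c84 : altChk 8 14570689 altL84 altF84 = true := by decide +kernel

theorem alt_n6 : ¬ Good (alternatingGroup (Fin 6)) 3 :=
  alt_not3 (fun k hk hl => ⟨altS [(0, 1), (2, 3)], by decide +kernel, by
    obtain rfl : k = 4 := by omega
    decide +kernel, fun _ _ => alt_sound alt_c62 (by unfold altRep; decide +kernel)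
      (by decide +kernel)⟩) (by omega)

theorem alt_n7 : ¬ Good (alternatingGroup (Fin 7)) 3 :=
  alt_not3 (fun k hk hl => ⟨altS [(0, 1), (2, 3)], by decide +kernel, by
    obtain rfl : k = 4 := by omega
    decide +kernel, fun _ _ => alt_sound alt_c72 (by unfold altRep; decide +kernel)
      (by decide +kernel)⟩) (by omega)

theorem alt_n8 : ¬ Good (alternatingGroup (Fin 8)) 3 :=
  alt_not3 (fun k hk _ => by
    rcases hk with rfl | rfl
    · exact ⟨altS [(0, 1), (2, 3)], by decide +kernel, by decide +kernel, fun _ _ =>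
        alt_sound alt_c82 (by unfold altRep; decide +kernel) (by decide +kernel)⟩
    · exact ⟨altS [(0, 1), (2, 3), (4, 5), (6, 7)], by decide +kernel, by decide +kernel,
        fun _ _ => alt_sound alt_c84 (by unfold altRep; decide +kernel) (by decide +kernel)⟩)
    le_rfl

/-- `n(A_n) = 3` for `n = 5` and `n ≥ 9`, and `n(A_n) = 4` for `n = 6, 7, 8`. -/
theorem tAlt {n : ℕ} (h5 : 5 ≤ n) :
    IsLeast {k | Good (alternatingGroup (Fin n)) k} (if n = 6 ∨ n = 7 ∨ n = 8 then 4 else 3) := by
  have ns := alt_ns (Ω := Fin n) (by simpa only [Fintype.card_fin] using h5)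
  have four : Good (alternatingGroup (Fin n)) 4 → ¬ Good (alternatingGroup (Fin n)) 3 →
      IsLeast {m | Good (alternatingGroup (Fin n)) m} 4 := fun h4 h3 => ⟨h4, fun m hm => by
    have := three_le_of_good ns hm
    by_contra hc
    obtain rfl : m = 3 := by omega
    exact h3 hm⟩
  split_ifs with h
  · rcases h with rfl | rfl | rfl
    exacts [four alt_6 alt_n6, four alt_7 alt_n7, four alt_8 alt_n8]
  · refine ⟨?_, fun m hm => three_le_of_good ns hm⟩
    obtain rfl | rfl | ⟨m, rfl⟩ | ⟨m, rfl⟩ | ⟨m, rfl⟩ | ⟨m, rfl⟩ : n = 5 ∨ n = 12 ∨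
        (∃ m, n = 4 * m + 9) ∨ (∃ m, n = 4 * m + 9 + 1) ∨ (∃ m, n = 4 * m + 7 + 4) ∨
        ∃ m, n = 4 * m + 11 + 5 := by
      by_cases h1 : n = 5 ∨ n = 12
      · tauto
      have : n % 4 = 1 ∨ n % 4 = 2 ∨ n % 4 = 3 ∨ n % 4 = 0 := by omega
      rcases this with e | e | e | e
      · exact .inr (.inr (.inl ⟨(n - 9) / 4, by omega⟩))
      · exact .inr (.inr (.inr (.inl ⟨(n - 10) / 4, by omega⟩)))
      · exact .inr (.inr (.inr (.inr (.inl ⟨(n - 11) / 4, by omega⟩))))
      · exact .inr (.inr (.inr (.inr (.inr ⟨(n - 16) / 4, by omega⟩))))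
    exacts [alt_5, alt_12, alt_r1 m, alt_r2 m, alt_r3 m, alt_r0 m]

end Pool.Agent.MP_c78e8e_al.H75

end

section

namespace Pool.Agent.MP_c78e8e_al.H75

open Subgroup

def m12s : Fin 3 → M12 :=
  ![⟨List.formPerm [0, 1, 2, 3, 4, 5, 6, 7, 8, 9, 10], subset_closure (by simp only [Fin.isValue, List.formPerm_cons_cons, List.formPerm_singleton, mul_one, Set.mem_insert_iff, Set.mem_singleton_iff, true_or])⟩,
    ⟨List.formPerm [2, 6, 10, 7] * List.formPerm [3, 9, 4, 5], subset_closure (by simp only [Fin.isValue, List.formPerm_cons_cons, List.formPerm_singleton, mul_one, Set.mem_insert_iff, Set.mem_singleton_iff, true_or, or_true])⟩,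
    ⟨Equiv.swap 0 11 * Equiv.swap 1 10 * Equiv.swap 2 5 * Equiv.swap 3 7 * Equiv.swap 4 8 *
      Equiv.swap 6 9, subset_closure (by simp only [Fin.isValue, List.formPerm_cons_cons, List.formPerm_singleton, mul_one, Set.mem_insert_iff, Set.mem_singleton_iff, or_true])⟩]

def m12t : Fin 3 → Fin 12 → Fin 12 :=
  ![![1, 2, 3, 4, 5, 6, 7, 8, 9, 10, 0, 11], ![0, 1, 6, 9, 5, 3, 10, 2, 8, 4, 7, 11],
    ![11, 10, 5, 7, 8, 2, 9, 3, 4, 6, 1, 0]]

def m12w (w : List (Fin 3)) : M12 := (w.map m12s).prod

theorem m12_app (u v : List (Fin 3)) : m12w u * m12w v = m12w (u ++ v) := by simp [m12w]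

theorem m12_ev (w : List (Fin 3)) (i : Fin 12) : (m12w w).1 i = w.foldr m12t i := by
  have h : ∀ k i, (m12s k).1 i = m12t k i := by decide +kernel
  induction w with
  | nil => rfl
  | cons k w ih => rw [List.foldr_cons, ← ih, ← h]; rfl

theorem m12_eq {u v : List (Fin 3)} (h : ∀ i, u.foldr m12t i = v.foldr m12t i) :
    m12w u = m12w v := Subtype.ext (Equiv.ext fun i => by rw [m12_ev, m12_ev, h])

theorem m12_cj {g u v : List (Fin 3)} (h : ∀ i, (g ++ u).foldr m12t i = (v ++ g).foldr m12t i) :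
    m12w g * m12w u * (m12w g)⁻¹ = m12w v := by
  rw [mul_inv_eq_iff_eq_mul, m12_app, m12_app, m12_eq h]

theorem m12_ns : ¬ Group.IsSolvable M12 := by
  refine not_isSolvable_of_mem_derivedSeries (g := m12w [1]) (fun h => ?_) fun n => ?_
  · have := m12_ev [1] 2
    rw [h] at this
    exact absurd this (by decide)
  induction n with
  | zero => exact mem_top _
  | succ n ih =>
    have N := derivedSeries_normal M12
    have v := (N n).conj_mem _ ih (m12w [0])
    rw [m12_cj (v := [0, 1, 2, 0, 2, 0, 2]) (by decide +kernel)] at v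
    have c := commutator_mem_commutator ih v
    rw [commutatorElement_def, m12_cj (v := [1, 0, 1, 1, 1, 0, 1, 1, 0, 1]) (by decide +kernel),
      show m12w [1, 0, 1, 1, 1, 0, 1, 1, 0, 1] * (m12w [0, 1, 2, 0, 2, 0, 2])⁻¹ = m12w [1, 0, 0,
          0, 1, 0, 1, 0, 1, 0] by
        rw [mul_inv_eq_iff_eq_mul, m12_app]; exact m12_eq (by decide +kernel)] at c
    have := (N (n + 1)).conj_mem _ c (m12w [0, 2, 0, 0, 0, 0, 2, 0, 1, 1, 2])
    rwa [m12_cj (v := [1]) (by decide +kernel)] at this

def m12l : Fin 3 → List (Fin 3) := ![[2], [0, 0, 0, 1, 1, 1, 2, 0, 0, 1], [1, 0, 2, 0, 0, 1, 0, 0,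
    1, 1]]

theorem tM12 : IsLeast {n | Good M12 n} 3 := by
  refine isLeast_three m12_ns (m12w (m12l 0)) (m12w (m12l 1)) (m12w (m12l 2)) ?_
    (isConj_iff.2 ⟨m12w [0, 0, 1, 1, 0], m12_cj (by decide +kernel)⟩)
    (isConj_iff.2 ⟨m12w [1, 1, 0, 2, 1], m12_cj (by decide +kernel)⟩) ?_ ?_
  · rw [m12_app]; exact m12_eq (v := []) (by decide +kernel)
  · rw [m12_app, m12_app]; exact m12_eq (by decide +kernel)
  set H := closure ({m12w (m12l 0), m12w (m12l 1), m12w (m12l 2)} : Set M12)
  have m : ∀ w : List (Fin 3), m12w (w.flatMap m12l) ∈ H := by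
    intro w
    induction w with
    | nil => exact H.one_mem
    | cons k w ih =>
      rw [List.flatMap_cons, ← m12_app]
      refine H.mul_mem (subset_closure ?_) ih
      fin_cases k <;> simp
  have s : ∀ k w, (∀ i, [k].foldr m12t i = (List.flatMap m12l w).foldr m12t i) → m12s k ∈ H :=
    fun k w h => by have := m w; rw [← m12_eq h] at this; simpa [m12w] using this
  refine eq_top_iff.2 (closure_closure_coe_preimage.ge.trans ((closure_le H).2 ?_))
  rintro ⟨p, hp⟩ (rfl | rfl | rfl)
  · exact s 0 [2, 0, 1, 2, 1, 2, 0, 2, 1, 2, 0, 2, 0, 2, 1, 2, 0, 1, 2, 0, 2, 1] (by decide +kernel)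
  · exact s 1 [0, 1, 2, 0, 1, 2, 0, 2, 0, 2, 1, 2, 0, 1, 2, 1, 2] (by decide +kernel)
  · exact s 2 [0] (by decide +kernel)

end Pool.Agent.MP_c78e8e_al.H75

end

end

-- part MP_c78e8e_al.Sg.Pk
section

section

namespace Pool.Agent.MP_c78e8e_al.H75

open Finset

/-- The digit number `t` of `x` in base `2 ^ w`. -/
def evDg (w x t : ℕ) : ℕ := x / 2 ^ (w * t) % 2 ^ w

/-- The number with the given digits. -/
def evPk (w N : ℕ) (f : ℕ → ℕ) : ℕ := ∑ t ∈ range N, f t * 2 ^ (w * t)

theorem evPk_succ (w N : ℕ) (f : ℕ → ℕ) :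
    evPk w (N + 1) f = f 0 + 2 ^ w * evPk w N fun t => f (t + 1) := by
  simp only [evPk, sum_range_succ', mul_sum, mul_add, pow_add, mul_one, mul_zero, pow_zero]
  rw [add_comm]
  congr 1
  exact sum_congr rfl fun _ _ => by ring

theorem evDg_succ (w x t : ℕ) : evDg w x (t + 1) = evDg w (x / 2 ^ w) t := by
  simp only [evDg, Nat.div_div_eq_div_mul, ← pow_add]
  congr 3
  ring

theorem evDg_div (w x t k : ℕ) : evDg w (x / 2 ^ (w * k)) t = evDg w x (t + k) := by
  simp only [evDg, Nat.div_div_eq_div_mul, ← pow_add]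
  congr 3
  ring

theorem evDg_pk {w : ℕ} (N : ℕ) : ∀ {f : ℕ → ℕ}, (∀ t, f t < 2 ^ w) → ∀ t < N,
    evDg w (evPk w N f) t = f t := by
  induction N with
  | zero => intro _ _ t h; omega
  | succ N ih =>
    intro f h t ht
    rw [evPk_succ]
    cases t with
    | zero => simp [evDg, Nat.mod_eq_of_lt (h 0)]
    | succ t =>
      rw [evDg_succ, Nat.add_mul_div_left _ _ (by positivity), Nat.div_eq_of_lt (h 0), zero_add]
      exact ih (fun t => h (t + 1)) t (by omega)

theorem evPk_dg (w N : ℕ) : ∀ x, evPk w N (evDg w x) = x % 2 ^ (w * N) := by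
  induction N with
  | zero => intro x; simp [evPk, Nat.mod_one]
  | succ N ih =>
    intro x
    simp only [evPk_succ, evDg_succ]
    rw [ih, mul_add, mul_one, add_comm (w * N), pow_add, Nat.mod_mul]
    simp [evDg]

theorem evPk_congr {w N : ℕ} {f g : ℕ → ℕ} (h : ∀ t < N, f t = g t) : evPk w N f = evPk w N g :=
  sum_congr rfl fun t ht => by rw [h t (mem_range.1 ht)]

/-- The number all of whose `N` digits are `c`. -/
def evMk (c w N : ℕ) : ℕ := Nat.rec 0 (fun _ r => Nat.add c (Nat.shiftLeft r w)) N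

theorem evMk_eq (c w N : ℕ) : evMk c w N = evPk w N fun _ => c := by
  induction N with
  | zero => rfl
  | succ N ih =>
    rw [evPk_succ, ← ih, mul_comm, ← Nat.shiftLeft_eq]
    rfl

theorem evMk_and {v w : ℕ} (h : v ≤ w) (N : ℕ) : ∀ x : ℕ,
    x &&& evMk (2 ^ v - 1) w N = evPk w N fun t => x / 2 ^ (w * t) % 2 ^ v := by
  induction N with
  | zero => intro x; simp only [evMk, Nat.shiftLeft_eq', Nat.add_eq, Nat.rec_zero, Nat.and_zero, evPk, range_zero, sum_empty]
  | succ N ih =>
    intro x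
    have l : 2 ^ v - 1 < 2 ^ w :=
      lt_of_lt_of_le (Nat.sub_lt (by positivity) one_pos) (Nat.pow_le_pow_right two_pos h)
    rw [← Nat.mod_add_div (x &&& _) (2 ^ w), Nat.and_mod_two_pow, Nat.and_div_two_pow, evMk_eq,
      evPk_succ, evPk_succ, Nat.add_mul_mod_self_left, Nat.add_mul_div_left _ _ (by positivity),
      Nat.div_eq_of_lt l, Nat.mod_eq_of_lt l, zero_add, ← evMk_eq, ih, Nat.and_two_pow_sub_one_eq_mod,
      Nat.mod_mod_of_dvd _ (pow_dvd_pow 2 h)]
    simp only [mul_zero, pow_zero, Nat.div_one, Nat.div_div_eq_div_mul, ← pow_add]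
    congr 3
    funext t
    congr 3
    ring

theorem ev_sum {M : Type*} [AddCommMonoid M] (D m : ℕ) (F : ℕ → M) :
    ∑ t ∈ range (D * m), F t = ∑ i ∈ range m, ∑ j ∈ range D, F (D * i + j) := by
  induction m with
  | zero => simp
  | succ m ih => rw [Nat.mul_succ, sum_range_add, ih, sum_range_succ]

/-- The product of two packed matrices before reduction. -/
def evMr (w W B M n : ℕ) : ℕ → ℕ → ℕ :=
  Nat.rec (fun _ _ => 0) (fun _ r x y => Nat.add (Nat.mul (Nat.land x M) (Nat.mod y B))
    (r (Nat.shiftRight x w) (Nat.shiftRight y W))) n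

theorem evMr_eq (w W B M n : ℕ) : ∀ x y, evMr w W B M n x y =
    ∑ k ∈ range n, (x / 2 ^ (w * k) &&& M) * (y / 2 ^ (W * k) % B) := by
  induction n with
  | zero => intro x y; rfl
  | succ n ih =>
    intro x y
    have : evMr w W B M (n + 1) x y =
      (x &&& M) * (y % B) + evMr w W B M n (x >>> w) (y >>> W) := rfl
    rw [this, ih, sum_range_succ', add_comm]
    simp only [Nat.shiftRight_eq_div_pow, Nat.div_div_eq_div_mul, ← pow_add, mul_add, mul_one,
      mul_zero, pow_zero, Nat.div_one, add_comm]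

/-- Simultaneous reduction of all digits. -/
def evRd (p m s M x : ℕ) : ℕ :=
  Nat.sub x (Nat.mul p (Nat.land (Nat.shiftRight (Nat.mul x m) s) M))

variable {V : Type} [AddCommGroup V]

/-- `A` is a packed `D × D` matrix with digits at most `X` whose rows describe the vectors `R i`. -/
def EvR (e : ℕ → V) (w D X A : ℕ) (R : ℕ → V) : Prop := ∃ f : ℕ → ℕ, A = evPk w (D * D) f ∧
  (∀ t, f t ≤ X) ∧ ∀ i < D, ∑ j ∈ range D, f (D * i + j) • e j = R i

variable {e : ℕ → V} {w D X Y A B : ℕ} {R S : ℕ → V}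

theorem EvR.mono (h : EvR e w D X A R) (l : X ≤ Y) (c : ∀ i < D, R i = S i) : EvR e w D Y A S :=
  let ⟨f, a, b, d⟩ := h
  ⟨f, a, fun t => (b t).trans l, fun i hi => (d i hi).trans (c i hi)⟩

theorem EvR.zero : EvR e w D 0 0 0 := ⟨0, by simp [evPk], by simp, by simp⟩

theorem EvR.add (h : EvR e w D X A R) (h' : EvR e w D Y B S) : EvR e w D (X + Y) (A + B) (R + S) := by
  obtain ⟨f, rfl, b, d⟩ := h
  obtain ⟨g, rfl, b', d'⟩ := h'
  refine ⟨f + g, by simp [evPk, add_mul, sum_add_distrib], fun t => add_le_add (b t) (b' t),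
    fun i hi => ?_⟩
  simp only [Pi.add_apply, add_smul, sum_add_distrib, d i hi, d' i hi]

theorem EvR.sum {n : ℕ} {A : ℕ → ℕ} {R : ℕ → ℕ → V} (h : ∀ i < n, EvR e w D X (A i) (R i)) :
    EvR e w D (n * X) (∑ i ∈ range n, A i) (∑ i ∈ range n, R i) := by
  induction n with
  | zero => simpa using EvR.zero
  | succ n ih =>
    rw [sum_range_succ, sum_range_succ, Nat.succ_mul]
    exact (ih fun i hi => h i (by omega)).add (h n (by omega))

theorem EvR.atom {x y : ℕ} (hx : x < D) (hy : y < D) (c : ℕ) :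
    EvR e w D c (c * 2 ^ (w * (D * x + y))) fun i => if i = x then c • e y else 0 := by
  refine ⟨fun t => if t = D * x + y then c else 0, ?_, fun t => by dsimp only; split_ifs <;> simp,
    fun i hi => ?_⟩
  · have : D * x + y < D * D := by nlinarith
    simp [evPk, this]
  · have k : ∀ j ∈ range D, D * i + j = D * x + y ↔ i = x ∧ j = y := fun j hj => by
      refine ⟨fun h => ?_, fun h => by rw [h.1, h.2]⟩
      have h1 := congrArg (· % D) h
      simp only [Nat.mul_add_mod, Nat.mod_eq_of_lt hy, Nat.mod_eq_of_lt (mem_range.1 hj)] at h1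
      exact ⟨Nat.eq_of_mul_eq_mul_left (by omega : 0 < D) (by omega), h1⟩
    dsimp only
    rw [sum_congr rfl (g := fun j => (if i = x ∧ j = y then c else 0) • e j) fun j hj => by
      rw [if_congr (k j hj) rfl rfl]]
    by_cases h : i = x <;> simp [h, hy]

theorem EvR.uniq (l : X < 2 ^ w) (h : EvR e w D X A R) (h' : EvR e w D X A S) {i : ℕ} (hi : i < D) :
    R i = S i := by
  obtain ⟨f, a, b, d⟩ := h
  obtain ⟨g, a', b', d'⟩ := h'
  rw [← d i hi, ← d' i hi]
  refine sum_congr rfl fun j hj => ?_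
  have : D * i + j < D * D := by have := mem_range.1 hj; nlinarith only [hi, this]
  rw [← evDg_pk _ (fun t => (b t).trans_lt l) _ this, ← a, a',
    evDg_pk _ (fun t => (b' t).trans_lt l) _ this]

theorem EvR.mul (l : X < 2 ^ w) (L : V →+ V) (h : EvR e w D X A R)
    (h' : EvR e w D X B fun i => L (e i)) :
    EvR e w D (D * (X * X)) (evMr w (w * D) (2 ^ (w * D)) (evMk (2 ^ w - 1) (w * D) D) D A B)
      fun i => L (R i) := by
  obtain ⟨f, rfl, b, d⟩ := h
  obtain ⟨g, rfl, b', d'⟩ := h'
  have lt : ∀ i < D, ∀ j < D, D * i + j < D * D := fun i hi j hj => by nlinarith only [hi, hj]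
  have dm : ∀ i, ∀ j ∈ range D, (D * i + j) / D = i ∧ (D * i + j) % D = j := fun i j hj => by
    have := mem_range.1 hj
    exact ⟨by rw [Nat.mul_add_div (by omega), Nat.div_eq_of_lt this, add_zero],
      by rw [Nat.mul_add_mod, Nat.mod_eq_of_lt this]⟩
  refine ⟨fun t => ∑ k ∈ range D, f (D * (t / D) + k) * g (D * k + t % D), ?_, fun t => ?_,
    fun i hi => ?_⟩
  · rw [evMr_eq, sum_congr rfl (g := fun k => (∑ i ∈ range D, f (D * i + k) * 2 ^ (w * (D * i))) *
      ∑ j ∈ range D, g (D * k + j) * 2 ^ (w * j)) fun k hk => ?_]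
    · rw [evPk, ev_sum]
      simp only [sum_mul_sum]
      rw [sum_comm]
      refine sum_congr rfl fun i _ => ?_
      rw [sum_comm]
      refine sum_congr rfl fun j hj => ?_
      rw [(dm i j hj).1, (dm i j hj).2, sum_mul]
      exact sum_congr rfl fun k _ => by rw [mul_add, pow_add]; ring
    · have hk := mem_range.1 hk
      rw [evMk_and (Nat.le_mul_of_pos_right _ (by omega)), ← evPk_dg, mul_assoc]
      congr 1
      · refine sum_congr rfl fun i hi => ?_
        rw [← evDg_pk _ (fun t => (b t).trans_lt l) _ (lt i (mem_range.1 hi) k hk),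
          ← evDg_div, evDg]
        simp only [mul_assoc]
      · refine sum_congr rfl fun j hj => ?_
        rw [evDg_div, add_comm j,
          evDg_pk _ (fun t => (b' t).trans_lt l) _ (lt k hk j (mem_range.1 hj))]
  · exact (sum_le_card_nsmul _ _ _ fun k _ => Nat.mul_le_mul (b _) (b' _)).trans (by simp)
  · dsimp only
    rw [← d i hi, map_sum, sum_congr rfl (g := fun j => ∑ k ∈ range D,
      f (D * i + k) • g (D * k + j) • e j) fun j hj => by
        rw [(dm i j hj).1, (dm i j hj).2, sum_smul]; simp only [mul_smul], sum_comm]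
    exact sum_congr rfl fun k hk => by rw [← smul_sum, d' k (mem_range.1 hk), map_nsmul]

theorem EvR.red {p m s : ℕ} (hp : ∀ v : V, p • v = 0) (sw : s ≤ w) (ok : ∀ x ≤ X, x * m < 2 ^ w ∧
    p * (x * m / 2 ^ s) ≤ x ∧ x - p * (x * m / 2 ^ s) ≤ Y) (h : EvR e w D X A R) :
    EvR e w D Y (evRd p m s (evMk (2 ^ (w - s) - 1) w (D * D)) A) R := by
  obtain ⟨f, rfl, b, d⟩ := h
  refine ⟨fun t => f t - p * (f t * m / 2 ^ s), ?_, fun t => (ok _ (b t)).2.2, fun i hi => ?_⟩
  · have e1 : evPk w (D * D) f * m = evPk w (D * D) fun t => f t * m := by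
      simp only [evPk, sum_mul]
      exact sum_congr rfl fun _ _ => by ring
    have e2 : (evPk w (D * D) f * m) >>> s &&& evMk (2 ^ (w - s) - 1) w (D * D) =
        evPk w (D * D) fun t => f t * m / 2 ^ s := by
      rw [evMk_and (Nat.sub_le _ _), e1]
      refine evPk_congr fun t ht => ?_
      rw [← evDg_pk _ (fun t => (ok _ (b t)).1) t ht, evDg, Nat.shiftRight_eq_div_pow,
        Nat.div_div_eq_div_mul, mul_comm (2 ^ s), ← Nat.div_div_eq_div_mul,
        ← Nat.mod_mul_right_div_self, ← pow_add, Nat.add_sub_cancel' sw]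
    change _ - p * ((_ * m) >>> s &&& _) = _
    rw [e2]
    refine Nat.sub_eq_of_eq_add ?_
    simp only [evPk, mul_sum, ← sum_add_distrib]
    exact sum_congr rfl fun t _ => by
      rw [← mul_assoc, ← add_mul, Nat.sub_add_cancel (ok _ (b t)).2.1]
  · rw [← d i hi]
    refine sum_congr rfl fun j _ => ?_
    conv_rhs => rw [← Nat.sub_add_cancel (ok _ (b (D * i + j))).2.1, add_smul, mul_smul, hp, add_zero]

end Pool.Agent.MP_c78e8e_al.H75

end

namespace Pool.Agent.MP_c78e8e_al.H75

/-- Strict evaluation. -/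
def evF {α : Type} (x : ℕ) (k : ℕ → α) : α := Nat.rec (k 0) (fun y _ => k (Nat.succ y)) x

theorem evF_eq {α : Type} (x : ℕ) (k : ℕ → α) : evF x k = k x := by cases x <;> rfl

end Pool.Agent.MP_c78e8e_al.H75

end
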