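import Pool.Agent.MP_c78e8e_al.Sp.Defs
import Pool.Agent.MP_c78e8e_al.Mg.Sg_Pk
import Pool.Agent.MP_c78e8e_al.Gen

attribute [-instance] MonTypeEquivalenceMon.monMonoid littleWedderburn
  MonoidWithZero.toMulZeroOneClass NonUnitalRingHomClass.toMulHomClass IdemSemiring.toSemiring
  DivisionCommMonoid.toDivisionMonoid NormedRing.toRing NonUnitalAlgSemiHomClass.toMulHomClass
  instCharZeroOfIsSemireal NormedCommRing.toCommRing SeminormedRing.toRing RCLike.charZero_rclike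
  instCoeTCOfCoe NonAssocCommSemiring.toNonAssocSemiring SeminormedCommRing.toCommRing
  EuclideanDomain.toCommRing NormedField.toField RKHS.instFunLike
  NonUnitalRing.toNonUnitalNonAssocRing Unique.instSubsingleton FloorSemiring.instCharZero
  Unique.instInhabited MonoidWithZero.toMonoid IdemCommSemiring.toCommSemiring
  Finset.decidableDforallFinset Infinite.instNontrivial MulZeroClass.toMul
  Multiset.decidableDforallMultiset CancelCommMonoid.toLeftCancelMonoid Field.toCommRing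
  Vector.instDecidableForallForallMemOfDecidablePred Int.instLawfulBEq
  Array.instDecidableForallForallMemOfDecidablePred Option.decidableForallMem AddTorsor.nonempty
  NonUnitalNormedCommRing.toNonUnitalCommRing instNontrivialOfCharZero
  NonUnitalSemiring.toNonUnitalNonAssocSemiring ESeminormedCommMonoid.toCommMonoid
  instIsRightCancelAddOfAddRightReflectLE Group.IsPerfect.subsingleton_of_isMulCommutative
  Std.PreorderPackage.toBEq Ring.toNonAssocRing LieAdmissibleRing.toNonUnitalNonAssocRing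
  IsLocalRing.toNontrivial NumberField.instFiniteDimensional instNonemptyOfMonad
  IsDomain.toNontrivial NonUnitalSeminormedCommRing.toNonUnitalCommRing NumberField.to_charZero
  AddCommGroupWithOne.toAddGroupWithOne CompletePartialOrder.toPartialOrder
  GroupWithZero.toDivInvMonoid Submodule.IsLattice.finite
  NonUnitalNonAssocCommSemiring.toNonUnitalNonAssocSemiring
  AlgHom.instNonUnitalAlgHomClassOfAlgHomClass DivisionRing.toDivInvMonoid
  CommMonTypeEquivalenceCommMon.commMonCommMonoid GroupWithZero.toDivisionMonoid NeZero.of_gt'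
  instInhabitedOfMonad AddQuantale.instAddRightMono IsStrictOrderedRing.toNontrivial
  MonoidWithZero.toSemigroupWithZero NonUnitalRing.toNonUnitalSemiring
  NormedDivisionRing.toDivisionRing Int.decidableLTLE
  ContinuousMonoidHom.instCoeOutOfMonoidHomClassOfContinuousMapClass

-- part MP_c78e8e_al.Sp.Eng
section

namespace Pool.Agent.MP_c78e8e_al.Sp

open H75

/-- Codes for the elements of a monoid; the product code `0` means failure. -/
structure Imp {M : Type} [Monoid M] (mu : ℕ → ℕ → ℕ) (R : ℕ → M → Prop) : Prop where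
  mul : ∀ {a b A B}, R a A → R b B → mu a b = 0 ∨ R (mu a b) (A * B)
  uniq : ∀ {a A B}, R a A → R a B → A = B

/-- A register: two codes and the flags. -/
abbrev Rg := ℕ × ℕ × ℕ

def m0 (mu : ℕ → ℕ → ℕ) (x y : ℕ) : ℕ := cond (Nat.beq x 0 || Nat.beq y 0) 0 (mu x y)

def rF {α : Type} (x : Rg) (k : Rg → α) : α :=
  Prod.rec (fun u p => Prod.rec (fun v f => evF u fun u => evF v fun v => evF f fun f =>
    k (u, v, f)) p) x

theorem rF_eq {α : Type} (x : Rg) (k : Rg → α) : rF x k = k x := by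
  obtain ⟨u, v, f⟩ := x
  simp only [rF, evF_eq]

def rget (l : List Rg) : ℕ → Rg :=
  List.rec (fun _ => (0, 0, 0)) (fun a _ r i => Nat.rec a (fun j _ => r j) i) l

def req (x y : Rg) : Bool :=
  (!Nat.beq x.1 0 && Nat.beq x.1 y.1) || (!Nat.beq x.2.1 0 && Nat.beq x.2.1 y.2.1)

section
variable (mu mu' : ℕ → ℕ → ℕ)

def rmul (x y : Rg) : Rg := (m0 mu x.1 y.1, m0 mu' x.2.1 y.2.1, Nat.land (Nat.land x.2.2 y.2.2) 5)

def rwd (l : List Rg) (w : List ℕ) : Rg → Rg :=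
  List.rec (fun x => x) (fun i _ r x => rF (rget l i) fun y => rF (rmul mu mu' x y) r) w

def rpw (n : ℕ) : Rg → ℕ → Rg :=
  Nat.rec (fun _ _ => (0, 0, 0)) (fun _ r x e => cond (Nat.ble e 1) (cond (Nat.beq e 1) x (0, 0, 0))
    (rF (rmul mu mu' x x) fun y => cond (Nat.beq (Nat.mod e 2) 0) (r y (Nat.shiftRight e 1))
      (rF (r y (Nat.shiftRight e 1)) (rmul mu mu' x)))) n

def step (g l : List Rg) : List ℕ → Rg
  | 0 :: i :: w => rF (rget l i) (rwd mu mu' l w)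
  | [1, i, e] => rF (rget l i) fun x => rpw mu mu' e x e
  | [2, i, j] => rF (rget l i) fun x => rF (rget l j) fun y => cond (req x y)
      (cond (Nat.beq x.1 0) y.1 x.1, cond (Nat.beq x.2.1 0) y.2.1 x.2.1, Nat.lor x.2.2 y.2.2) (0, 0, 0)
  | [3, i] => rF (rget l i) fun x => cond (g.all fun y => rF (rmul mu mu' x y) fun a =>
      rF (rmul mu mu' y x) (req a)) (x.1, x.2.1, Nat.lor x.2.2 5) (0, 0, 0)
  | [4, i, j, c] => rF (rget l i) fun x => rF (rget l j) fun y => rF (rget l c) fun z =>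
      cond (rF (rmul mu mu' z x) fun a => rF (rmul mu mu' y z) (req a))
        (y.1, y.2.1, Nat.lor y.2.2 (Nat.land x.2.2 2)) (0, 0, 0)
  | _ => (0, 0, 0)

def run (g : List Rg) (k : List Rg → Bool) (p : List (List ℕ)) : List Rg → Bool :=
  List.rec k (fun v _ r l => rF (step mu mu' g l v) fun y => r (y :: l)) p

def has (b : ℕ) (l : List Rg) (x : Rg) : Bool := l.any fun y => y.2.2.testBit b && req x y

def gens (a b : List ℕ) : List Rg := a.map (fun u => (u, 0, 0)) ++ b.map fun v => (0, v, 0)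

def chk (o o' : ℕ) (a b : List ℕ) (k : ℕ) (p p' : List (List ℕ)) (i j m n : ℕ) (four : Bool) : Bool :=
  run mu mu' (gens a b) (fun l => rF (rget l i) fun x => rF (rget l j) fun y =>
    rF (rget l m) fun z => rF (rget l n) fun w =>
    run mu mu' (gens a b) (fun l => rF (rmul mu mu' x x) (has 2 l) && has 1 l y && has 1 l z &&
      has 1 l w && (gens a b).all (has 0 l) && rF (rmul mu mu' x y) fun s =>
        rF (rmul mu mu' y x) fun t => (!four || has 1 l s) &&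
          l.any fun c => c.2.2.testBit 2 && rF (rmul mu mu' c t) (req s)) p'
      ((x.1, x.2.1, 3) :: (y.1, y.2.1, 1) :: (z.1, z.2.1, 1) :: (w.1, w.2.1, 1) :: l)) p
    (List.zipWith (fun u v => (u, v, 0)) (a.take k) (b.take k) ++ ((o, o', 5) :: gens a b))

end

variable {M M' G : Type} [Monoid M] [Monoid M'] [Group G] {mu mu' : ℕ → ℕ → ℕ}
  {R : ℕ → M → Prop} {R' : ℕ → M' → Prop} {S : Submonoid (M × G)} {S' : Submonoid (M' × G)}
  {H : Subgroup G} {t : G}

/-- The code `u` is void or describes `g`. -/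
def Cd (R : ℕ → M → Prop) (S : Submonoid (M × G)) (u : ℕ) (g : G) : Prop :=
  u = 0 ∨ ∃ U, R u U ∧ (U, g) ∈ S

theorem Cd.mul (I : Imp mu R) {u v : ℕ} {g h : G} (a : Cd R S u g) (b : Cd R S v h) :
    Cd R S (m0 mu u v) (g * h) := by
  rcases a with rfl | ⟨U, a, a'⟩
  · exact Or.inl rfl
  rcases b with rfl | ⟨V, b, b'⟩
  · left; simp [m0]
  unfold m0
  cases Nat.beq u 0 || Nat.beq v 0
  · exact (I.mul a b).imp id fun c => ⟨_, c, S.mul_mem a' b'⟩
  · exact Or.inl rfl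

theorem Cd.eq (I : Imp mu R) (hS : ∀ u g h, (u, g) ∈ S → (u, h) ∈ S → g = h) {u v : ℕ} {g h : G}
    (a : Cd R S u g) (b : Cd R S v h) (e : (!Nat.beq u 0 && Nat.beq u v) = true) : g = h := by
  simp only [Bool.and_eq_true, Bool.not_eq_true', Nat.beq_eq, ← Bool.not_eq_true] at e
  obtain ⟨e, rfl⟩ := e
  obtain ⟨U, a, a'⟩ := a.resolve_left e
  obtain ⟨V, b, b'⟩ := b.resolve_left e
  obtain rfl := I.uniq a b
  exact hS _ _ _ a' b'

/-- The invariant of a register. -/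
def Inv (R : ℕ → M → Prop) (R' : ℕ → M' → Prop) (S : Submonoid (M × G)) (S' : Submonoid (M' × G))
    (H : Subgroup G) (t : G) (r : Rg) (g : G) : Prop :=
  Cd R S r.1 g ∧ Cd R' S' r.2.1 g ∧ (r.2.2.testBit 0 → g ∈ H) ∧ (r.2.2.testBit 1 → IsConj t g) ∧
    (r.2.2.testBit 2 → g = 1)

theorem Inv.void (g : G) : Inv R R' S S' H t (0, 0, 0) g :=
  ⟨Or.inl rfl, Or.inl rfl, by simp, by simp only [Nat.zero_testBit, Bool.false_eq_true, isConj_iff, IsEmpty.forall_iff], by simp⟩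

/-- The standing assumptions. -/
structure Ctx (mu mu' : ℕ → ℕ → ℕ) (R : ℕ → M → Prop) (R' : ℕ → M' → Prop)
    (S : Submonoid (M × G)) (S' : Submonoid (M' × G)) : Prop where
  i : Imp mu R
  i' : Imp mu' R'
  s : ∀ u g h, (u, g) ∈ S → (u, h) ∈ S → g = h
  s' : ∀ u g h, (u, g) ∈ S' → (u, h) ∈ S' → g = h

variable (C : Ctx mu mu' R R' S S') {x y : Rg} {g h : G}
include C

theorem Ctx.mul (a : Inv R R' S S' H t x g) (b : Inv R R' S S' H t y h) :
    Inv R R' S S' H t (rmul mu mu' x y) (g * h) := by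
  refine ⟨a.1.mul C.i b.1, a.2.1.mul C.i' b.2.1, fun e => ?_, fun e => ?_, fun e => ?_⟩ <;>
    simp only [rmul, Nat.land_eq, Nat.testBit_and, Bool.and_eq_true] at e
  · exact H.mul_mem (a.2.2.1 e.1.1) (b.2.2.1 e.1.2)
  · exact absurd e.2 (by decide)
  · rw [a.2.2.2.2 e.1.1, b.2.2.2.2 e.1.2, one_mul]

theorem Ctx.eq {H' : Subgroup G} {t' : G} (a : Inv R R' S S' H t x g) (b : Inv R R' S S' H' t' y h)
    (e : req x y = true) : g = h := by
  rcases Bool.or_eq_true_iff.1 e with e | e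
  exacts [a.1.eq C.i C.s b.1 e, a.2.1.eq C.i' C.s' b.2.1 e]

omit C in
theorem rget_p {l : List Rg} (h : ∀ r ∈ l, ∃ g, Inv R R' S S' H t r g) :
    ∀ i, ∃ g, Inv R R' S S' H t (rget l i) g := by
  induction l with
  | nil => exact fun _ => ⟨1, Inv.void 1⟩
  | cons a l ih =>
    intro i
    cases i with
    | zero => exact h a (by simp)
    | succ i => exact ih (fun x hx => h x (by simp [hx])) i

theorem Ctx.step [IsSimpleGroup G] (nc : ¬ ∀ a b : G, a * b = b * a) {gs l : List Rg} {xs : List G}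
    (hg : List.Forall₂ (Inv R R' S S' H t) gs xs) (hx : Subgroup.closure {g | g ∈ xs} = ⊤)
    (h : ∀ r ∈ l, ∃ g, Inv R R' S S' H t r g) (v : List ℕ) :
    ∃ g, Inv R R' S S' H t (step mu mu' gs l v) g := by
  have w : ∀ w x, (∃ g, Inv R R' S S' H t x g) → ∃ g, Inv R R' S S' H t (rwd mu mu' l w x) g :=
    fun w => by
      induction w with
      | nil => exact fun _ h => h
      | cons i w ih =>
        rintro x ⟨g, a⟩
        obtain ⟨k, b⟩ := rget_p h i
        change ∃ g, Inv R R' S S' H t (rF _ fun y => rF _ (rwd mu mu' l w)) g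
        rw [rF_eq, rF_eq]
        exact ih _ ⟨_, C.mul a b⟩
  have q : ∀ n x e, (∃ g, Inv R R' S S' H t x g) → ∃ g, Inv R R' S S' H t (rpw mu mu' n x e) g :=
    fun n => by
      induction n with
      | zero => exact fun _ _ _ => ⟨1, Inv.void 1⟩
      | succ n ih =>
        rintro x e ⟨g, a⟩
        change ∃ g, Inv R R' S S' H t (cond _ (cond _ _ _) (rF _ fun y => cond _ (rpw mu mu' n y _)
          (rF (rpw mu mu' n y _) (rmul mu mu' x)))) g
        cases Nat.ble e 1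
        · simp only [rF_eq, cond_false]
          obtain ⟨k, b⟩ := ih _ (Nat.shiftRight e 1) ⟨_, C.mul a a⟩
          cases Nat.beq (Nat.mod e 2) 0
          exacts [⟨_, C.mul a b⟩, ⟨_, b⟩]
        · cases Nat.beq e 1
          exacts [⟨1, Inv.void 1⟩, ⟨_, a⟩]
  unfold Sp.step
  split
  · rw [rF_eq]; exact w _ _ (rget_p h _)
  · rw [rF_eq]; exact q _ _ _ (rget_p h _)
  · next i j =>
    simp only [rF_eq]
    obtain ⟨g, a⟩ := rget_p h i
    obtain ⟨k, b⟩ := rget_p h j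
    cases e : req (rget l i) (rget l j)
    · exact ⟨1, Inv.void 1⟩
    obtain rfl := C.eq a b e
    refine ⟨g, ?_, ?_, fun e => ?_, fun e => ?_, fun e => ?_⟩
    · dsimp only [cond_true]
      cases Nat.beq (rget l i).1 0
      exacts [a.1, b.1]
    · dsimp only [cond_true]
      cases Nat.beq (rget l i).2.1 0
      exacts [a.2.1, b.2.1]
    all_goals simp only [cond_true, Nat.lor_eq, Nat.testBit_or, Bool.or_eq_true] at e
    exacts [e.elim a.2.2.1 b.2.2.1, e.elim a.2.2.2.1 b.2.2.2.1, e.elim a.2.2.2.2 b.2.2.2.2]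
  · next i =>
    simp only [rF_eq]
    obtain ⟨g, a⟩ := rget_p h i
    cases e : gs.all fun y => req (rmul mu mu' (rget l i) y) (rmul mu mu' y (rget l i))
    · exact ⟨1, Inv.void 1⟩
    have c : g ∈ Subgroup.center G := by
      have : Subgroup.closure {g | g ∈ xs} ≤ Subgroup.centralizer {g} := by
        rw [Subgroup.closure_le]
        intro k hk
        obtain ⟨r, hr, b⟩ : ∃ r ∈ gs, Inv R R' S S' H t r k := by
          clear e hx
          induction hg with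
          | nil => simp at hk
          | cons b _ ih =>
            rcases List.mem_cons.1 hk with rfl | hk
            · exact ⟨_, List.mem_cons_self, b⟩
            · obtain ⟨r, hr, b⟩ := ih hk
              exact ⟨r, List.mem_cons_of_mem _ hr, b⟩
        rintro _ rfl
        exact C.eq (C.mul a b) (C.mul b a) (List.all_eq_true.1 e r hr)
      rw [hx] at this
      exact Subgroup.mem_center_iff.2 fun k => (this (Subgroup.mem_top k) g rfl).symm
    obtain rfl : g = 1 := by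
      rcases (inferInstance : (Subgroup.center G).Normal).eq_bot_or_eq_top with e | e
      · rwa [e] at c
      · exact absurd (fun a b => Subgroup.mem_center_iff.1 (e ▸ Subgroup.mem_top b) a) nc
    refine ⟨1, a.1, a.2.1, fun _ => H.one_mem, fun e => a.2.2.2.1 ?_, fun _ => rfl⟩
    simp only [cond_true, Nat.lor_eq, Nat.testBit_or, Bool.or_eq_true] at e
    exact e.resolve_right (by decide)
  · next i j c =>
    simp only [rF_eq]
    obtain ⟨g, a⟩ := rget_p h i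
    obtain ⟨k, b⟩ := rget_p h j
    obtain ⟨z, d⟩ := rget_p h c
    cases e : req (rmul mu mu' (rget l c) (rget l i)) (rmul mu mu' (rget l j) (rget l c))
    · exact ⟨1, Inv.void 1⟩
    have u := C.eq (C.mul d a) (C.mul b d) e
    refine ⟨k, b.1, b.2.1, fun e => ?_, fun e => ?_, fun e => ?_⟩ <;>
      simp only [cond_true, Nat.lor_eq, Nat.land_eq, Nat.testBit_or, Nat.testBit_and,
        Bool.or_eq_true, Bool.and_eq_true] at e
    · exact b.2.2.1 (e.resolve_right fun e => absurd e.2 (by decide))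
    · exact e.elim b.2.2.2.1 fun e => (a.2.2.2.1 e.1).trans
        (isConj_iff.2 ⟨z, by rw [u, mul_inv_cancel_right]⟩)
    · exact b.2.2.2.2 (e.resolve_right fun e => absurd e.2 (by decide))
  · exact ⟨1, Inv.void 1⟩

omit C in
theorem run_eq (gs : List Rg) (p : List (List ℕ)) : ∀ l, ∃ l', (∀ k, run mu mu' gs k p l = k l') ∧
    ∀ P : Rg → Prop, (∀ l, (∀ r ∈ l, P r) → ∀ v, P (step mu mu' gs l v)) →
      (∀ r ∈ l, P r) → ∀ r ∈ l', P r := by
  induction p with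
  | nil => exact fun l => ⟨l, fun _ => rfl, fun _ _ h => h⟩
  | cons v p ih =>
    intro l
    obtain ⟨l', a, b⟩ := ih (step mu mu' gs l v :: l)
    exact ⟨l', fun k => (rF_eq _ fun y => run mu mu' gs k p (y :: l)).trans (a k), fun P s h =>
      b P s (List.forall_mem_cons.2 ⟨s l h v, h⟩)⟩

theorem Ctx.has {H' : Subgroup G} {t' : G} {l : List Rg} (h : ∀ r ∈ l, ∃ g, Inv R R' S S' H t r g)
    {b : ℕ} (a : Inv R R' S S' H' t' x g) (e : has b l x = true) :
    ∃ y, y.2.2.testBit b ∧ Inv R R' S S' H t y g := by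
  obtain ⟨y, hy, e⟩ := List.any_eq_true.1 e
  rw [Bool.and_eq_true] at e
  obtain ⟨k, c⟩ := h y hy
  obtain rfl := C.eq a c e.2
  exact ⟨y, e.1, c⟩

omit C in
theorem cd_gens {a : List M} {c : List ℕ} (h : List.Forall₂ R c a) : ∀ {x : List G},
    a.length = x.length → (∀ p ∈ a.zip x, p ∈ S) → List.Forall₂ (Cd R S) c x := by
  induction h with
  | nil =>
    intro x e _
    obtain rfl := List.length_eq_zero_iff.1 e.symm
    exact .nil
  | cons r _ ih =>
    intro x e s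
    cases x with
    | nil => simp at e
    | cons g x =>
      exact .cons (Or.inr ⟨_, r, s _ (by simp)⟩)
        (ih (by simpa using e) fun p hp => s p (by simp [hp]))

omit C in
theorem spor_nc {N : ℕ} [IsSimpleGroup G] (hN : Nat.card G = N) (h : 2 < N ∧ N % 2 = 0) :
    ¬ ∀ a b : G, a * b = b * a := fun c => by
  have : Finite G := Nat.finite_of_card_ne_zero (by omega)
  let _ : CommGroup G := { (inferInstance : Group G) with mul_comm := c }
  have := (IsSimpleGroup.prime_card (α := G)).eq_two_or_odd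
  omega

omit C in
/-- Soundness of the check. -/
theorem chk_sound (I : Imp mu R) (I' : Imp mu' R') {o o' k N : ℕ} {a : List M} {b : List M'}
    {c c' : List ℕ} (ho : R o 1) (ho' : R' o' 1) (hc : List.Forall₂ R c a)
    (hc' : List.Forall₂ R' c' b) (hN : 2 < N ∧ N % 2 = 0) (hG : Spor G N a b k)
    {p p' : List (List ℕ)} {i j m n : ℕ} {four : Bool}
    (e : chk mu mu' o o' c c' k p p' i j m n four = true) :
    ¬ Group.IsSolvable G ∧ ∃ x y z w : G, x * x = 1 ∧ IsConj x y ∧ IsConj x z ∧ IsConj x w ∧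
      x * y = y * x ∧ Subgroup.closure {x, y, z, w} = ⊤ ∧ (n = m → w = z) ∧
      (four → IsConj x (x * y)) := by
  obtain ⟨_, hn, xs, ys, ⟨l1, s1⟩, ⟨l2, s2⟩, tk, top⟩ := hG
  have nc := spor_nc hn hN
  refine ⟨fun s => nc (IsSimpleGroup.comm_iff_isSolvable.2 s), ?_⟩
  have C : Ctx mu mu' R R' _ _ := ⟨I, I', s1, s2⟩
  have g1 := cd_gens hc l1 fun p hp => Submonoid.subset_closure (s := {p | p ∈ a.zip xs}) hp
  have g2 := cd_gens hc' l2 fun p hp => Submonoid.subset_closure (s := {p | p ∈ b.zip ys}) hp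
  generalize Submonoid.closure {p | p ∈ a.zip xs} = S at *
  generalize Submonoid.closure {p | p ∈ b.zip ys} = S' at *
  have hg : ∀ (H : Subgroup G) (t : G), List.Forall₂ (Inv R R' S S' H t) (gens c c') (xs ++ ys) :=
    fun H t => List.rel_append
      (List.forall₂_map_left_iff.2 (g1.imp fun _ _ h => ⟨h, Or.inl rfl, by simp, by simp only [Nat.zero_testBit, Bool.false_eq_true, isConj_iff, IsEmpty.forall_iff], by simp⟩))
      (List.forall₂_map_left_iff.2 (g2.imp fun _ _ h => ⟨Or.inl rfl, h, by simp, by simp only [Nat.zero_testBit, Bool.false_eq_true, isConj_iff, IsEmpty.forall_iff], by simp⟩))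
  have ex : ∀ {P : Rg → G → Prop} {l : List Rg} {x : List G}, List.Forall₂ P l x →
      (∀ r ∈ l, ∃ g, P r g) ∧ ∀ g ∈ x, ∃ r ∈ l, P r g := fun h => by
    induction h with
    | nil => simp
    | cons a _ ih =>
      refine ⟨List.forall_mem_cons.2 ⟨⟨_, a⟩, ih.1⟩, List.forall_mem_cons.2
        ⟨⟨_, List.mem_cons_self, a⟩, fun g hg => ?_⟩⟩
      obtain ⟨r, hr, b⟩ := ih.2 g hg
      exact ⟨r, List.mem_cons_of_mem _ hr, b⟩
  have h0 : ∀ (H : Subgroup G) (t : G), ∀ r ∈ List.zipWith (fun u v => ((u, v, 0) : Rg)) (c.take k)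
      (c'.take k) ++ ((o, o', 5) :: gens c c'), ∃ g, Inv R R' S S' H t r g := fun H t => by
    refine List.forall_mem_append.2 ⟨?_, List.forall_mem_cons.2 ⟨⟨1, Or.inr ⟨1, ho, S.one_mem⟩,
      Or.inr ⟨1, ho', S'.one_mem⟩, fun _ => H.one_mem, fun e => absurd e (by dsimp only; decide), fun _ => rfl⟩,
      (ex (hg H t)).1⟩⟩
    have a1 := List.forall₂_take k g1
    have a2 := List.forall₂_take k g2
    rw [← tk] at a2
    generalize c.take k = u at *
    generalize c'.take k = v at *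
    generalize xs.take k = x at *
    clear tk
    induction a1 generalizing v with
    | nil => simp
    | cons a _ ih =>
      cases a2 with
      | cons b a2 =>
        exact List.forall_mem_cons.2 ⟨⟨_, a, b, by simp, by simp only [Nat.zero_testBit, Bool.false_eq_true, isConj_iff, IsEmpty.forall_iff], by simp⟩, ih _ a2⟩
  unfold chk at e
  obtain ⟨l, r1, r2⟩ := run_eq (mu := mu) (mu' := mu') (gens c c') p _
  rw [r1] at e
  simp only [rF_eq] at e
  have h1 := fun H t => r2 _ (fun l h => C.step nc (hg H t) top h) (h0 H t)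
  choose f hf using rget_p (h1 ⊥ 1)
  obtain ⟨l', r3, r4⟩ := run_eq (mu := mu) (mu' := mu') (gens c c') p' _
  rw [r3] at e
  have mk : ∀ s ∈ ({f i, f j, f m, f n} : Set G), s ∈ Subgroup.closure {f i, f j, f m, f n} :=
    fun s hs => Subgroup.subset_closure hs
  have one : ∀ u, f u ∈ ({f i, f j, f m, f n} : Set G) → Inv R R' S S'
      (Subgroup.closure {f i, f j, f m, f n}) (f i) ((rget l u).1, (rget l u).2.1, 1) (f u) :=
    fun u hu => ⟨(hf u).1, (hf u).2.1, fun _ => mk _ hu, fun e => absurd e (by dsimp only; decide),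
      fun e => absurd e (by dsimp only; decide)⟩
  have h2 := r4 _ (fun l h => C.step nc (hg (Subgroup.closure {f i, f j, f m, f n}) (f i)) top h)
    (List.forall_mem_cons.2 ⟨⟨_, (hf i).1, (hf i).2.1, fun _ => mk _ (by simp), fun _ => IsConj.refl _,
      fun e => absurd e (by dsimp only; decide)⟩, List.forall_mem_cons.2 ⟨⟨_, one j (by simp)⟩,
      List.forall_mem_cons.2 ⟨⟨_, one m (by simp)⟩, List.forall_mem_cons.2 ⟨⟨_, one n (by simp)⟩,
      h1 _ _⟩⟩⟩⟩)
  simp only [Bool.and_eq_true, Bool.or_eq_true, Bool.not_eq_true', List.any_eq_true] at e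
  obtain ⟨⟨⟨⟨⟨e1, e2⟩, e3⟩, e4⟩, e5⟩, e6, z, hz, e7, e8⟩ := e
  have cj : ∀ {x g}, Inv R R' S S' ⊥ 1 x g → Sp.has 1 l' x = true → IsConj (f i) g := fun a e =>
    let ⟨_, u, v⟩ := C.has h2 a e
    v.2.2.2.1 u
  refine ⟨f i, f j, f m, f n, ?_, cj (hf j) e2, cj (hf m) e3, cj (hf n) e4, ?_, ?_,
    fun e => by rw [e], fun e => cj (C.mul (hf i) (hf j)) (e6.resolve_left (by simp [e]))⟩
  · obtain ⟨_, u, v⟩ := C.has h2 (C.mul (hf i) (hf i)) e1
    exact v.2.2.2.2 u
  · obtain ⟨g, a⟩ := h2 z hz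
    obtain rfl := a.2.2.2.2 e7
    have b : Inv R R' S S' ⊥ 1 (z.1, z.2.1, 0) 1 := ⟨a.1, a.2.1, by simp only [Nat.testBit_zero, Nat.zero_mod, zero_ne_one, decide_false, Bool.false_eq_true, one_mem, implies_true], by simp, by simp⟩
    exact (C.eq (C.mul (hf i) (hf j)) (C.mul b (C.mul (hf j) (hf i))) e8).trans (one_mul _)
  · rw [eq_top_iff, ← top, Subgroup.closure_le]
    intro g hx
    obtain ⟨r, hr, a⟩ := (ex (hg ⊥ 1)).2 g hx
    obtain ⟨_, u, v⟩ := C.has h2 a (List.all_eq_true.1 e5 r hr)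
    exact v.2.2.1 u

omit C in
theorem chk_three (I : Imp mu R) (I' : Imp mu' R') {o o' k N : ℕ} {a : List M} {b : List M'}
    {c c' : List ℕ} (ho : R o 1) (ho' : R' o' 1) (hc : List.Forall₂ R c a)
    (hc' : List.Forall₂ R' c' b) (hN : 2 < N ∧ N % 2 = 0) (hG : Spor G N a b k)
    {p p' : List (List ℕ)} {i j m : ℕ} (e : chk mu mu' o o' c c' k p p' i j m m false = true) :
    IsLeast {n | Good G n} 3 := by
  obtain ⟨s, x, y, z, w, h1, h2, h3, -, h5, h6, h7, -⟩ := chk_sound I I' ho ho' hc hc' hN hG e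
  obtain rfl := h7 rfl
  exact isLeast_three s x y w h1 h2 h3 h5 (by simpa using h6)

omit C in
theorem isLeast_four (s : ¬ Group.IsSolvable G) (h3 : ¬ Good G 3) {x y z w : G} (h1 : x * x = 1)
    (hy : IsConj x y) (hz : IsConj x z) (hw : IsConj x w) (c : x * y = y * x)
    (t : Subgroup.closure {x, y, z, w} = ⊤) (e : IsConj x (x * y)) : IsLeast {n | Good G n} 4 := by
  have k : ∀ u, IsConj x u → Subgroup.closure {x, y, u} ≠ ⊤ := fun u hu t =>
    h3 (isLeast_three s x y u h1 hy hu c t).1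
  have a1 : z ≠ x := by rintro rfl; exact k w hw (by rw [← t]; congr 1; ext; simp; tauto)
  have a2 : z ≠ y := by rintro rfl; exact k w hw (by rw [← t]; congr 1; ext; simp)
  have a3 : w ≠ x := by rintro rfl; exact k z hz (by rw [← t]; congr 1; ext; simp; tauto)
  have a4 : w ≠ y := by rintro rfl; exact k z hz (by rw [← t]; congr 1; ext; simp; tauto)
  have a5 : w ≠ z := by rintro rfl; exact k w hw (by rw [← t]; congr 1; ext; simp)
  have a6 : x ≠ 1 := by
    rintro rfl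
    exact a1 (isConj_one_right.1 hz)
  have a7 : y ≠ x := by
    rintro rfl
    rw [h1] at e
    exact a6 (isConj_one_left.1 e)
  have all : ∀ i : Fin 4, IsConj x (![x, y, z, w] i) := by
    intro i; fin_cases i
    exacts [IsConj.refl x, hy, hz, hw]
  refine ⟨⟨![x, y, z, w], fun i j h => ?_, fun i => ?_, ?_, fun i j => (all i).symm.trans (all j),
    0, 1, by decide, c⟩, fun n hn => ?_⟩
  · fin_cases i <;> fin_cases j <;> simp_all [eq_comm]
  · obtain ⟨g, hg⟩ := isConj_iff.1 (all i)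
    rw [← hg]
    refine orderOf_eq_prime ?_ (by simpa using a6)
    rw [conj_pow, pow_two, h1, mul_one, mul_inv_cancel]
  · rw [← t]; congr 1; ext; simp only [Matrix.range_cons, Matrix.range_empty, Set.union_empty, Set.union_singleton, Set.union_insert, Set.mem_insert_iff, Set.mem_singleton_iff]; tauto
  · have := three_le_of_good s hn
    have : n ≠ 3 := by rintro rfl; exact h3 hn
    omega

omit C in
theorem Spor.single {N k : ℕ} {a : List M} (h : Spor G N a a k) (hk : a.length ≤ k) :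
    Spor G N a ([] : List M) 0 := by
  obtain ⟨s, n, x, y, hx, hy, e, t⟩ := h
  rw [List.take_of_length_le (hx.1 ▸ hk), List.take_of_length_le (hy.1 ▸ hk)] at e
  subst e
  refine ⟨s, n, x, [], hx, ⟨rfl, fun u g h a b => ?_⟩, rfl, by simpa using t⟩
  simp only [List.zip_nil_right, List.not_mem_nil, Set.setOf_false, Submonoid.closure_empty,
    Submonoid.mem_bot, Prod.mk_eq_one] at a b
  rw [a.2, b.2]

end Pool.Agent.MP_c78e8e_al.Sp

end

-- part MP_c78e8e_al.Sp.Mat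
section

namespace Pool.Agent.MP_c78e8e_al.Sp

open H75 Finset Matrix

/-- The number `c` is the packed form of the matrix `A`. -/
def RP (p D w c : ℕ) (A : Matrix (Fin D) (Fin D) (ZMod p)) : Prop :=
  ∃ f : ℕ → ℕ, c = evPk w (D * D) f ∧ (∀ t, f t ≤ p - 1) ∧ ∀ i j : Fin D, A i j = f (D * i + j)

/-- The packed product. -/
def muP (p D w m s x y : ℕ) : ℕ :=
  evRd p m s (evMk (2 ^ (w - s) - 1) w (D * D))
    (evMr w (w * D) (2 ^ (w * D)) (evMk (2 ^ w - 1) (w * D) D) D x y)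

/-- The packed product with the constants evaluated once. -/
def withP (p D w m s : ℕ) (k : (ℕ → ℕ → ℕ) → Bool) : Bool :=
  evF (w * D) fun W => evF (2 ^ W) fun B => evF (evMk (2 ^ w - 1) W D) fun M =>
    evF (evMk (2 ^ (w - s) - 1) w (D * D)) fun M' =>
      k fun x y => evF (evMr w W B M D x y) (evRd p m s M')

theorem withP_eq (p D w m s : ℕ) (k : (ℕ → ℕ → ℕ) → Bool) :
    withP p D w m s k = k (muP p D w m s) := by
  simp only [withP, evF_eq]
  rfl

/-- Correctness of the parameters. -/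
def OkP (p D w m s : ℕ) : Prop := p - 1 < 2 ^ w ∧ s ≤ w ∧ ∀ x < D * ((p - 1) * (p - 1)) + 1,
  x * m < 2 ^ w ∧ p * (x * m / 2 ^ s) ≤ x ∧ x - p * (x * m / 2 ^ s) ≤ p - 1

instance (p D w m s : ℕ) : Decidable (OkP p D w m s) := by unfold OkP; infer_instance

variable {p D w m s : ℕ}

/-- The standard basis. -/
def bs (p D j : ℕ) : Fin D → ZMod p := fun k => if j = k then 1 else 0

/-- The rows of a matrix. -/
def rw' (A : Matrix (Fin D) (Fin D) (ZMod p)) (i : ℕ) : Fin D → ZMod p :=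
  if h : i < D then A ⟨i, h⟩ else 0

theorem bs_sum (f : ℕ → ℕ) (k : Fin D) : (∑ j ∈ range D, f j • bs p D j) k = f k := by
  simp only [nsmul_eq_mul, Finset.sum_apply, Pi.mul_apply, Pi.natCast_apply, bs, mul_ite, mul_one, mul_zero, sum_ite_eq', mem_range, Fin.is_lt, ↓ reduceIte]

theorem RP_iff {c : ℕ} {A : Matrix (Fin D) (Fin D) (ZMod p)} :
    RP p D w c A ↔ EvR (bs p D) w D (p - 1) c (rw' A) := by
  refine exists_congr fun f => and_congr_right fun _ => and_congr_right fun _ =>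
    ⟨fun h i hi => funext fun k => ?_, fun h i j => ?_⟩
  · rw [bs_sum fun j => f (D * i + j), rw', dif_pos hi, h]
  · rw [← bs_sum (p := p) fun j => f (D * i + j), h i i.2, rw', dif_pos i.2]

theorem RP.mul (ok : OkP p D w m s) {a b : ℕ} {A B : Matrix (Fin D) (Fin D) (ZMod p)}
    (h : RP p D w a A) (h' : RP p D w b B) : RP p D w (muP p D w m s a b) (A * B) := by
  rw [RP_iff] at *
  refine EvR.red (fun v => funext fun k => by simp) ok.2.1 (fun x hx => ok.2.2 x (by omega))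
    ((EvR.mul ok.1 (vecMulLinear B).toAddMonoidHom h (h'.mono le_rfl fun i hi => ?_)).mono le_rfl
      fun i hi => ?_)
  · funext k
    simp only [rw', hi, ↓ reduceDIte, LinearMap.toAddMonoidHom_coe, LinearMap.flip_apply, vecMulBilin_apply, vecMul, dotProduct, bs, ← Fin.ext_iff (a := ⟨i, hi⟩), ite_mul, one_mul, zero_mul, sum_ite_eq, mem_univ, ↓ reduceIte]
  · funext k
    simp only [rw', hi, ↓ reduceDIte, LinearMap.toAddMonoidHom_coe, LinearMap.flip_apply, vecMulBilin_apply, vecMul, dotProduct, mul_apply]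

theorem RP.uniq (l : p - 1 < 2 ^ w) {a : ℕ} {A B : Matrix (Fin D) (Fin D) (ZMod p)}
    (h : RP p D w a A) (h' : RP p D w a B) : A = B := by
  rw [RP_iff] at *
  funext i
  simpa [rw'] using EvR.uniq l h h' i.2

theorem impP (ok : OkP p D w m s) : Imp (muP p D w m s) (RP p D w) :=
  ⟨fun a b => Or.inr (a.mul ok b), RP.uniq ok.1⟩

/-- Packing the entries `f i j`. -/
def tab (D w : ℕ) (f : ℕ → ℕ → ℕ) : ℕ :=
  Nat.rec 0 (fun t r => Nat.add r (Nat.shiftLeft (f (Nat.div t D) (Nat.mod t D)) (Nat.mul w t))) (D * D)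

theorem RP.tab {f : ℕ → ℕ → ℕ} {A : Matrix (Fin D) (Fin D) (ZMod p)} (b : ∀ i j, f i j ≤ p - 1)
    (h : ∀ i j : Fin D, A i j = f i j) : RP p D w (tab D w f) A := by
  refine ⟨fun t => f (t / D) (t % D), ?_, fun _ => b _ _, fun i j => ?_⟩
  · unfold Sp.tab evPk
    induction D * D with
    | zero => rfl
    | succ n ih => rw [sum_range_succ, ← ih, ← Nat.shiftLeft_eq]; rfl
  · dsimp only
    rw [h, Nat.mul_add_div i.pos, Nat.div_eq_of_lt j.2, Nat.mul_add_mod, Nat.mod_eq_of_lt j.2, add_zero]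

/-- Packing a permutation matrix. -/
def prm (D w : ℕ) (σ : ℕ → ℕ) : ℕ :=
  Nat.rec 0 (fun i r => evF (σ i) fun k => cond (Nat.blt k D)
    (Nat.add r (Nat.shiftLeft 1 (Nat.mul w (Nat.add (Nat.mul D i) k)))) r) D

theorem RP.prm (hp : 2 ≤ p) (σ : ℕ → ℕ) :
    RP p D w (prm D w σ) (Matrix.of fun i j => if σ i = j then 1 else 0) := by
  refine ⟨fun t => if σ (t / D) = t % D then 1 else 0, ?_, fun _ => by dsimp only; split_ifs <;> omega,
    fun i j => ?_⟩
  · rw [evPk, ev_sum]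
    have : ∀ n, (Nat.rec 0 (fun i r => evF (σ i) fun k => cond (Nat.blt k D)
        (Nat.add r (Nat.shiftLeft 1 (Nat.mul w (Nat.add (Nat.mul D i) k)))) r) n : ℕ) = ∑ i ∈ range n,
        ∑ j ∈ range D, (if σ i = j then 1 else 0) * 2 ^ (w * (D * i + j)) := fun n => by
      induction n with
      | zero => rfl
      | succ n ih =>
        rw [sum_range_succ, ← ih]
        simp only [evF_eq, ite_mul, one_mul, zero_mul, sum_ite_eq, mem_range]
        by_cases h : σ n < D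
        · rw [Nat.blt_eq.mpr h, if_pos h, ← Nat.one_shiftLeft]; rfl
        · rw [Bool.eq_false_iff.2 (mt Nat.blt_eq.mp h), if_neg h]; rfl
    refine (this D).trans (sum_congr rfl fun i _ => sum_congr rfl fun j hj => ?_)
    have := mem_range.1 hj
    rw [Nat.mul_add_div (by omega), Nat.div_eq_of_lt this, Nat.mul_add_mod, Nat.mod_eq_of_lt this,
      add_zero]
  · simp only [Nat.mul_add_div i.pos, Nat.div_eq_of_lt j.2, Nat.mul_add_mod, Nat.mod_eq_of_lt j.2,
      add_zero, of_apply]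
    split_ifs <;> simp

theorem RP.one (hp : 2 ≤ p) : RP p D w (Sp.prm D w fun i => i) 1 := by
  convert RP.prm hp fun i => i
  ext i j
  simp [one_apply, Fin.ext_iff]

/-- The code of `pm`. -/
def pmC (D w : ℕ) (c : List (List ℕ)) : ℕ := prm D w (c.map List.formPerm).prod

theorem RP.pm (hp : 2 ≤ p) (c : List (List ℕ)) : RP p D w (pmC D w c) (pm p D c) := RP.prm hp _

/-- Change of the base from `p` to `2 ^ w`. -/
def mxC (p w n : ℕ) : ℕ → ℕ :=
  Nat.rec (fun _ => 0) (fun _ r c => evF (Nat.div c p) fun d =>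
    Nat.add (Nat.mod c p) (Nat.shiftLeft (r d) w)) n

theorem RP.mx (hp : 2 ≤ p) (c : ℕ) : RP p D w (mxC p w (D * D) c) (dm p D c) := by
  refine ⟨fun t => c / p ^ t % p, ?_, fun t => Nat.le_sub_one_of_lt (Nat.mod_lt _ (by omega)),
    fun i j => by simp [Sp.dm]⟩
  induction D * D generalizing c with
  | zero => rfl
  | succ n ih =>
    rw [evPk_succ]
    simp only [pow_zero, Nat.div_one, pow_succ', ← Nat.div_div_eq_div_mul]
    rw [← ih, mul_comm, ← Nat.shiftLeft_eq]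
    exact evF_eq (c / p) fun d => c % p + mxC p w n d <<< w

/-- Words in the generators `g`. -/
def wd {M : Type} [Monoid M] (g : List M) (w : List (List ℕ)) : List M :=
  w.map fun l => (l.map fun i => g.getD i 1).prod

/-- Decimal digits, each decreased by one. -/
def dec (n : ℕ) : ℕ → List ℕ :=
  Nat.rec (fun _ => []) (fun _ r c => cond (Nat.beq c 0) []
    (Nat.pred (Nat.mod c 10) :: r (Nat.div c 10))) n

theorem dec_eq (n : ℕ) : ∀ c ≤ n, dec n c = (Nat.digits 10 c).map (· - 1) := by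
  induction n with
  | zero => intro c h; obtain rfl := Nat.le_zero.1 h; rfl
  | succ n ih =>
    intro c h
    rcases c.eq_zero_or_pos with rfl | k
    · rfl
    have : dec (n + 1) c = cond (Nat.beq c 0) [] ((c % 10 - 1) :: dec n (c / 10)) := rfl
    rw [this, Bool.eq_false_iff.2 (mt Nat.eq_of_beq_eq_true k.ne'), Nat.digits_def' (by omega) k,
      ih _ (by omega)]
    rfl

theorem wn_eq {M : Type} [Monoid M] (g : List M) (w : List ℕ) :
    wn g w = wd g (w.map fun c => dec c c) := by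
  simp only [wn, List.getD_eq_getElem?_getD, Nat.reduceLeDiff, wd, Std.le_refl, dec_eq, List.map_map, Function.comp_def]

/-- The codes of words. -/
def wdC (mu : ℕ → ℕ → ℕ) (o : ℕ) (g : List ℕ) (v : List (List ℕ)) : List ℕ :=
  v.map fun l => List.rec o (fun i _ r => evF r (mu (g.getD i o))) l

theorem wdC_r {M : Type} [Monoid M] {mu : ℕ → ℕ → ℕ} {R : ℕ → M → Prop} {o : ℕ} {c : List ℕ}
    {g : List M} (I : ∀ {a b A B}, R a A → R b B → R (mu a b) (A * B)) (ho : R o 1)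
    (h : List.Forall₂ R c g) (v : List (List ℕ)) : List.Forall₂ R (wdC mu o c v) (wd g v) := by
  have k : ∀ i, R (c.getD i o) (g.getD i 1) := by
    induction h with
    | nil => simpa
    | cons a _ ih => intro i; cases i; exacts [a, ih _]
  refine List.forall₂_map_left_iff.2 (List.forall₂_map_right_iff.2 (List.forall₂_same.2 fun l hl => ?_))
  clear hl
  induction l with
  | nil => exact ho
  | cons i l ih =>
    rw [List.map_cons, List.prod_cons]
    change R (evF _ (mu _)) _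
    rw [evF_eq]
    exact I (k i) ih

/-- Strict evaluation of a list. -/
def lF (l : List ℕ) : (List ℕ → Bool) → Bool :=
  List.rec (fun k => k []) (fun a _ r k => evF a fun a => r fun m => k (a :: m)) l

theorem lF_eq (l : List ℕ) : ∀ k, lF l k = k l := by
  induction l with
  | nil => exact fun _ => rfl
  | cons a l ih => exact fun k => (evF_eq a fun a => lF l fun m => k (a :: m)).trans (ih _)

/-- The sextet of the tetrad `{0, 3, 15, ∞}`. -/
def sx (i : ℕ) : ℕ := [0, 1, 2, 0, 3, 4, 4, 2, 5, 4, 3, 2, 1, 2, 5, 0, 3, 3, 5, 4, 5, 1, 1, 0].getD i 0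

/-- The codes of Conway's generators. -/
def coC : List ℕ :=
  [pmC 24 13 [List.range 23],
   pmC 24 13 [[2, 16, 9, 6, 8], [3, 12, 13, 18, 4], [7, 17, 10, 11, 22], [14, 19, 21, 20, 15]],
   pmC 24 13 [[0, 23], [1, 22], [2, 11], [3, 15], [4, 17], [5, 9], [6, 19], [7, 13], [8, 20],
     [10, 16], [12, 21], [14, 18]],
   tab 24 13 fun i j => if sx i = sx j then
     if sx i = 0 then if i = j then 2 else 1 else if i = j then 1 else 2 else 0]

theorem coC_r : List.Forall₂ (RP 3 24 13) coC con := by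
  refine .cons (RP.pm (by omega) _) (.cons (RP.pm (by omega) _) (.cons (RP.pm (by omega) _)
    (.cons (RP.tab (fun i j => by split_ifs <;> omega) fun i j => ?_) .nil)))
  have : (2 : ZMod 3)⁻¹ = 2 := ZMod.inv_eq_of_mul_eq_one _ _ _ (by decide)
  simp only [of_apply, this, Fin.ext_iff, sx]
  split_ifs <;> decide

theorem okCo : OkP 3 24 13 43 7 := by decide +kernel

/-- An integral matrix with small entries, packed modulo `2 ^ 14`. -/
def RZ (D c : ℕ) (A : Matrix (Fin D) (Fin D) ℤ) : Prop :=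
  RP 16384 D 32 c (A.map (Int.castRingHom _)) ∧ ∀ i j, -31 ≤ A i j ∧ A i j ≤ 32

/-- The product with a check of the size of the entries. -/
def muZ (mu : ℕ → ℕ → ℕ) (J M M' x y : ℕ) : ℕ := evF (mu x y) fun c => evF (Nat.add c J) fun d =>
  cond (Nat.beq (Nat.land d M) (Nat.land d M')) c 0

theorem impZ (hD : D ≤ 15) : Imp (muZ (muP 16384 D 32 1 14) (evMk 31 32 (D * D))
    (evMk (2 ^ 14 - 1) 32 (D * D)) (evMk (2 ^ 6 - 1) 32 (D * D))) (RZ D) := by
  have ok : OkP 16384 D 32 1 14 := ⟨by norm_num, by norm_num, fun x hx => by omega⟩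
  refine ⟨fun {a b A B} h h' => ?_, fun {a A B} h h' => ?_⟩
  · simp only [muZ, evF_eq]
    have r := h.1.mul ok h'.1
    rw [← Matrix.map_mul] at r
    generalize muP 16384 D 32 1 14 a b = c at *
    cases e : Nat.beq _ _
    · exact Or.inl rfl
    refine Or.inr ⟨r, fun i j => ?_⟩
    obtain ⟨f, rfl, b, r⟩ := r
    have e1 : Nat.add (evPk 32 (D * D) f) (evMk 31 32 (D * D)) = evPk 32 (D * D) fun t => f t + 31 := by
      simp [evMk_eq, evPk, add_mul, sum_add_distrib]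
    have lt : D * i + j < D * D := by have := i.2; have := j.2; nlinarith
    rw [e1, Nat.beq_eq, Nat.land_eq, Nat.land_eq, evMk_and (by norm_num), evMk_and (by norm_num)] at e
    have e2 : evDg 32 _ (D * i + j) = evDg 32 _ (D * i + j) := congrArg (evDg 32 · (D * i + j)) e
    have e3 := evDg_pk (w := 32) (D * D) (f := fun t => f t + 31) (fun t => by have := b t; omega) _ lt
    rw [evDg_pk _ (fun t => by omega) _ lt, evDg_pk _ (fun t => by omega) _ lt] at e2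
    have e4 := (ZMod.intCast_eq_intCast_iff_dvd_sub ((A * B) i j) _ 16384).1 ((r i j).trans (Int.cast_natCast _).symm)
    have e5 : |(A * B) i j| ≤ 15 * 1024 := by
      rw [mul_apply]
      refine (abs_sum_le_sum_abs _ _).trans ((sum_le_card_nsmul _ _ 1024 fun k _ => ?_).trans ?_)
      · rw [abs_mul]
        have := h.2 i k
        have := h'.2 k j
        exact (mul_le_mul (b := 32) (d := 32) (abs_le.2 (by omega)) (abs_le.2 (by omega))
          (abs_nonneg _) (by norm_num)).trans (by norm_num)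
      · simp only [card_univ, Fintype.card_fin, nsmul_eq_mul]
        omega
    rw [abs_le] at e5
    unfold evDg at e3
    omega
  · ext i j
    have e := (ZMod.intCast_eq_intCast_iff_dvd_sub (A i j) (B i j) 16384).1
      (congrFun (congrFun (h.1.uniq ok.1 h'.1) i) j)
    have := h.2 i j
    have := h'.2 i j
    omega

/-- The neighbour of the node `i` towards the centre `0` of the diagram `Y p q r`. -/
def up (p q i : ℕ) : ℕ := if i = p + 1 ∨ i = p + q + 1 then 0 else i - 1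

/-- The simple reflections of the Coxeter group `Y p q r`. -/
def rf (p q n : ℕ) (k : ℕ) : Matrix (Fin n) (Fin n) ℤ :=
  Matrix.of fun i j => if i = j then if k = i then -1 else 1 else
    if k = i ∧ (up p q i = j ∨ up p q j = i) then 1 else 0

theorem rot_eq (p q r : ℕ) :
    rot p q r = (List.range (p + q + r)).map fun i => rf p q _ 0 * rf p q _ (i + 1) := rfl

/-- The code of a reflection. -/
def rfC (p q n k : ℕ) : ℕ := tab n 32 fun i j => if i = j then if k = i then 16383 else 1 else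
  if k = i ∧ (up p q i = j ∨ up p q j = i) then 1 else 0

theorem RZ.rf (p q n k : ℕ) : RZ n (rfC p q n k) (rf p q n k) := by
  refine ⟨RP.tab (fun i j => by split_ifs <;> omega) fun i j => ?_, fun i j => ?_⟩ <;>
    simp only [Sp.rf, map_apply, of_apply, Fin.ext_iff] <;> split_ifs <;> first | decide | omega

/-- The check for a quotient of a group given by words in Conway's generators. -/
def chkCo (c : (ℕ → ℕ → ℕ) → ℕ → List ℕ → List ℕ) (p p' : List (List ℕ)) (i j m n : ℕ)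
    (four : Bool) : Bool :=
  withP 3 24 13 43 7 fun mu => evF (prm 24 13 fun i => i) fun o => lF coC fun g =>
    lF (c mu o g) fun a => chk mu mu o o a [] 0 p p' i j m n four

theorem three_co {G : Type} [Group G] {N k : ℕ} {a : List (Matrix (Fin 24) (Fin 24) (ZMod 3))}
    {c : (ℕ → ℕ → ℕ) → ℕ → List ℕ → List ℕ}
    (hc : List.Forall₂ (RP 3 24 13) (c (muP 3 24 13 43 7) (prm 24 13 fun i => i) coC) a)
    (hG : Spor G N a a k) (hN : a.length ≤ k ∧ 2 < N ∧ N % 2 = 0) {p p' : List (List ℕ)} {i j m : ℕ}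
    (e : chkCo c p p' i j m m false = true) : IsLeast {n | Good G n} 3 := by
  simp only [chkCo, withP_eq, evF_eq, lF_eq] at e
  exact chk_three (impP okCo) (impP okCo) (RP.one (by omega)) (RP.one (by omega)) hc .nil hN.2
    (hG.single hN.1) e

theorem four_co {G : Type} [Group G] {N k : ℕ} {a : List (Matrix (Fin 24) (Fin 24) (ZMod 3))}
    {c : (ℕ → ℕ → ℕ) → ℕ → List ℕ → List ℕ}
    (hc : List.Forall₂ (RP 3 24 13) (c (muP 3 24 13 43 7) (prm 24 13 fun i => i) coC) a)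
    (hG : Spor G N a a k) (hN : a.length ≤ k ∧ 2 < N ∧ N % 2 = 0) (h3 : ¬ Good G 3)
    {p p' : List (List ℕ)} {i j m n : ℕ}
    (e : chkCo c p p' i j m n true = true) : IsLeast {n | Good G n} 4 := by
  simp only [chkCo, withP_eq, evF_eq, lF_eq] at e
  obtain ⟨s, x, y, z, w, h1, h2, h4, h5, h6, h7, -, h8⟩ := chk_sound (impP okCo) (impP okCo)
    (RP.one (by omega)) (RP.one (by omega)) hc .nil hN.2 (hG.single hN.1) e
  exact isLeast_four s h3 h1 h2 h4 h5 h6 h7 (h8 rfl)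

theorem wdP (ok : OkP p D w m s) (hp : 2 ≤ p) {c : List ℕ}
    {g : List (Matrix (Fin D) (Fin D) (ZMod p))} (h : List.Forall₂ (RP p D w) c g) (v : List (List ℕ)) :
    List.Forall₂ (RP p D w) (wdC (muP p D w m s) (prm D w fun i => i) c v) (wd g v) :=
  wdC_r (RP.mul ok) (RP.one hp) h v

theorem wdN (v : List ℕ) : List.Forall₂ (RP 3 24 13)
    ((fun mu o g => wdC mu o g (v.map fun c => dec c c)) (muP 3 24 13 43 7) (prm 24 13 fun i => i) coC)
    (wn con v) := by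
  rw [wn_eq]
  exact wdP okCo (by omega) coC_r _

/-- The check for a quotient of the rotation subgroup of a Coxeter group `Y p q r`. -/
def chkY (p q r : ℕ) (u u' : List (List ℕ)) (i j m : ℕ) : Bool :=
  evF (p + q + r + 1) fun D => withP 16384 D 32 1 14 fun mu => evF (evMk 31 32 (D * D)) fun J =>
    evF (evMk (2 ^ 14 - 1) 32 (D * D)) fun M => evF (evMk (2 ^ 6 - 1) 32 (D * D)) fun M' =>
    evF (prm D 32 fun i => i) fun o => evF (rfC p q D 0) fun z =>
    lF ((List.range (p + q + r)).map fun i => muZ mu J M M' z (rfC p q D (i + 1))) fun a =>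
      a.all (fun x => !Nat.beq x 0) &&
        chk (muZ mu J M M') (muZ mu J M M') o o a [] 0 u u' i j m m false

theorem three_Y {G : Type} [Group G] {N p q r : ℕ} (hG : Spor G N (rot p q r) (rot p q r) (p + q + r))
    (hN : p + q + r + 1 ≤ 15 ∧ 2 < N ∧ N % 2 = 0) {u u' : List (List ℕ)} {i j m : ℕ}
    (e : chkY p q r u u' i j m = true) : IsLeast {n | Good G n} 3 := by
  simp only [chkY, withP_eq, evF_eq, lF_eq, Bool.and_eq_true] at e
  have o : RZ (p + q + r + 1) (prm _ 32 fun i => i) 1 :=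
    ⟨by rw [Matrix.map_one _ (map_zero _) (map_one _)]; exact RP.one (by omega),
      fun i j => by rw [one_apply]; split_ifs <;> omega⟩
  rw [rot_eq] at hG
  refine chk_three (impZ hN.1) (impZ hN.1) o o (List.forall₂_map_left_iff.2
    (List.forall₂_map_right_iff.2 (List.forall₂_same.2 fun i hi => ?_))) .nil hN.2
    (hG.single (by simp)) e.2
  refine ((impZ hN.1).mul (RZ.rf p q _ 0) (RZ.rf p q _ (i + 1))).resolve_left fun z => ?_
  have := List.all_eq_true.1 e.1 _ (List.mem_map_of_mem hi)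
  rw [z] at this
  exact absurd this (by decide)

theorem RP.pms (hp : 2 ≤ p) (l : List (List (List ℕ))) :
    List.Forall₂ (RP p D w) (l.map (pmC D w)) (l.map (Sp.pm p D)) :=
  List.forall₂_map_left_iff.2 (List.forall₂_map_right_iff.2 (List.forall₂_same.2 fun _ _ => RP.pm hp _))

theorem RP.mxs (hp : 2 ≤ p) (l : List ℕ) :
    List.Forall₂ (RP p D w) (l.map (mxC p w (D * D))) (l.map (Sp.dm p D)) :=
  List.forall₂_map_left_iff.2 (List.forall₂_map_right_iff.2 (List.forall₂_same.2 fun _ _ => RP.mx hp _))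

/-- The check for two models. -/
def chkA (p D w m s p' D' w' m' s' : ℕ) (a b : List ℕ) (k : ℕ) (u u' : List (List ℕ)) (i j n : ℕ) :
    Bool :=
  decide (OkP p D w m s) && decide (OkP p' D' w' m' s') && withP p D w m s fun mu =>
    withP p' D' w' m' s' fun mu' => evF (prm D w fun i => i) fun o =>
    evF (prm D' w' fun i => i) fun o' => lF a fun a => lF b fun b =>
      chk mu mu' o o' a b k u u' i j n n false

theorem three_A {G : Type} [Group G] {N k p' D' w' m' s' : ℕ}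
    {a : List (Matrix (Fin D) (Fin D) (ZMod p))} {b : List (Matrix (Fin D') (Fin D') (ZMod p'))}
    {c c' : List ℕ} (hc : List.Forall₂ (RP p D w) c a) (hc' : List.Forall₂ (RP p' D' w') c' b)
    (hG : Spor G N a b k) (hN : 2 ≤ p ∧ 2 ≤ p' ∧ 2 < N ∧ N % 2 = 0) {u u' : List (List ℕ)} {i j n : ℕ}
    (e : chkA p D w m s p' D' w' m' s' c c' k u u' i j n = true) : IsLeast {n | Good G n} 3 := by
  simp only [chkA, withP_eq, evF_eq, lF_eq, Bool.and_eq_true, decide_eq_true_eq] at e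
  exact chk_three (impP e.1.1) (impP e.1.2) (RP.one hN.1) (RP.one hN.2.1) hc hc' hN.2.2 hG e.2

end Pool.Agent.MP_c78e8e_al.Sp

end

-- part MP_c78e8e_al.Sp.Four
section

namespace Pool.Agent.MP_c78e8e_al.Sp

namespace Fr

section

open H75

/-- Lookup with the default `o`. -/
def get (o : ℕ) (l : List ℕ) : ℕ → ℕ :=
  List.rec (fun _ => o) (fun a _ r i => Nat.rec a (fun j _ => r j) i) l

/-- A test of all entries of a list, with one hint for each. -/
def all2 {β : Type} (f : ℕ → β → Bool) (l : List ℕ) : List β → Bool :=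
  List.rec (fun _ => true) (fun x _ r h => List.rec false (fun y h' _ => f x y && r h') h) l

theorem all2_p {β : Type} {f : ℕ → β → Bool} {l : List ℕ} :
    ∀ {h}, all2 f l h = true → ∀ x ∈ l, ∃ y, f x y = true := by
  induction l with
  | nil => simp only [List.not_mem_nil, IsEmpty.forall_iff, implies_true]
  | cons a l ih =>
    intro h e
    cases h with
    | nil => exact absurd e Bool.false_ne_true
    | cons y h =>
      have e : (f a y && all2 f l h) = true := e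
      rw [Bool.and_eq_true] at e
      exact List.forall_mem_cons.2 ⟨⟨y, e.1⟩, ih e.2⟩

section
variable (mu : ℕ → ℕ → ℕ) (o : ℕ)

/-- A transversal built from the generators `A`. -/
def tree (A : List ℕ) (k : List ℕ → Bool) (p : List ℕ) : List ℕ → Bool :=
  List.rec k (fun v _ r T => evF (get o T (Nat.div v 8)) fun x => evF (get o A (Nat.mod v 8)) fun y =>
    evF (mu x y) fun c => r (c :: T)) p

/-- Multiplication by the elements of the transversals whose addresses are the digits of `h`. -/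
def pl (Ts : List (List ℕ)) : ℕ → ℕ → ℕ :=
  List.rec (fun _ x => x) (fun T _ r h x => evF (Nat.div h 512) fun h' =>
    Nat.rec (r h' x) (fun j _ => evF (get o T j) fun y => evF (mu y x) (r h')) (Nat.mod h 512)) Ts

/-- The test of the Schreier generators. -/
def sch (A T : List ℕ) (Ts : List (List ℕ)) : List (List ℕ) → Bool :=
  all2 (fun g => all2 (fun t h => Nat.beq (mu t g)
    (evF (get o T (Nat.mod h 512)) (pl mu o Ts (Nat.div h 512)))) T) A

/-- The value of a word. -/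
def wv (l w : List ℕ) : ℕ := List.rec o (fun i _ r => evF (get o l i) fun x => evF r (mu x)) w

/-- The test of a chain of subgroups. -/
def lev (p : List (List ℕ × List (List ℕ) × List (List ℕ))) :
    List ℕ → (List (List ℕ) → Bool) → Bool :=
  List.rec (fun A k => A.isEmpty && k []) (fun v _ r A k => tree mu o A (fun T =>
    lF (v.2.1.map (wv mu o (A ++ T))) fun B => r B fun Ts => sch mu o A T Ts v.2.2 && k (T :: Ts))
      v.1 [o]) p

end

/-- Valid codes `V` of the elements `d` of a monoid. -/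
structure Cx {M : Type} [Monoid M] (mu : ℕ → ℕ → ℕ) (o : ℕ) (V : ℕ → Prop) (d : ℕ → M) : Prop where
  v : ∀ {a b}, V a → V b → V (mu a b)
  m : ∀ {a b}, V a → V b → d (mu a b) = d a * d b
  vo : V o
  one : d o = 1

variable {M : Type} [Monoid M] {mu : ℕ → ℕ → ℕ} {o : ℕ} {V : ℕ → Prop} {d : ℕ → M}
  {E : Submonoid M} {A T : List ℕ} {Ts : List (List ℕ)}

/-- All entries are codes of elements of `E`. -/
def In (V : ℕ → Prop) (d : ℕ → M) (E : Submonoid M) (T : List ℕ) : Prop := ∀ c ∈ T, V c ∧ d c ∈ E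

/-- The monoid generated by the elements with the codes `A`. -/
def Cl (d : ℕ → M) (A : List ℕ) : Submonoid M := Submonoid.closure (d '' {c | c ∈ A})

theorem In.cl (h : In V d E A) : In V d (Cl d A) A :=
  fun c hc => ⟨(h c hc).1, Submonoid.subset_closure ⟨c, hc, rfl⟩⟩

theorem In.le (h : In V d E A) : Cl d A ≤ E :=
  Submonoid.closure_le.2 fun _ ⟨c, hc, e⟩ => e ▸ (h c hc).2

theorem get_p (l : List ℕ) : ∀ i, get o l i ∈ o :: l := by
  induction l with
  | nil => exact fun _ => List.mem_cons_self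
  | cons a l ih =>
    intro i
    cases i with
    | zero => exact List.mem_cons_of_mem _ List.mem_cons_self
    | succ i =>
      rcases List.mem_cons.1 (ih i) with e | e
      · exact List.mem_cons.2 (Or.inl e)
      · exact List.mem_cons_of_mem _ (List.mem_cons_of_mem _ e)

variable (C : Cx mu o V d)
include C

theorem Cx.get (h : In V d E T) (i : ℕ) : V (get o T i) ∧ d (get o T i) ∈ E := by
  rcases List.mem_cons.1 (get_p (o := o) T i) with e | e
  · rw [e, C.one]; exact ⟨C.vo, E.one_mem⟩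
  · exact h _ e

theorem Cx.mul {a b : ℕ} (h : V a ∧ d a ∈ E) (h' : V b ∧ d b ∈ E) : V (mu a b) ∧ d (mu a b) ∈ E :=
  ⟨C.v h.1 h'.1, C.m h.1 h'.1 ▸ E.mul_mem h.2 h'.2⟩

theorem Cx.tree (h : In V d E A) {k : List ℕ → Bool} (p : List ℕ) : ∀ T, In V d E T → o ∈ T →
    ∃ T', tree mu o A k p T = k T' ∧ In V d E T' ∧ o ∈ T' := by
  induction p with
  | nil => exact fun T a b => ⟨T, rfl, a, b⟩
  | cons v p ih =>
    intro T a b
    change ∃ T', (evF _ fun x => evF _ fun y => evF _ fun c => Fr.tree mu o A k p (c :: T)) = _ ∧ _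
    simp only [evF_eq]
    exact ih _ (List.forall_mem_cons.2 ⟨C.mul (C.get a _) (C.get h _), a⟩) (List.mem_cons_of_mem _ b)

theorem Cx.tree' (h : In V d E A) {k : List ℕ → Bool} {p : List ℕ}
    (e : Fr.tree mu o A k p [o] = true) : ∃ T, k T = true ∧ In V d (Cl d A) T ∧ o ∈ T := by
  obtain ⟨T, a, b⟩ := C.tree h.cl (k := k) p [o]
    (List.forall_mem_singleton.2 ⟨C.vo, C.one ▸ one_mem _⟩) List.mem_cons_self
  exact ⟨T, a ▸ e, b⟩

theorem Cx.pl (H : ∀ T ∈ Ts, In V d E T) : ∀ h x, V x →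
    V (pl mu o Ts h x) ∧ ∃ u ∈ E, d (pl mu o Ts h x) = u * d x := by
  induction Ts with
  | nil => exact fun _ x a => ⟨a, 1, E.one_mem, (one_mul _).symm⟩
  | cons T Ts ih =>
    intro h x a
    have ih := ih fun T e => H T (List.mem_cons_of_mem _ e)
    have : Fr.pl mu o (T :: Ts) h x = evF (Nat.div h 512) fun h' => Nat.rec (Fr.pl mu o Ts h' x)
      (fun j _ => evF (Fr.get o T j) fun y => evF (mu y x) (Fr.pl mu o Ts h')) (Nat.mod h 512) := rfl
    rw [this, evF_eq]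
    cases Nat.mod h 512 with
    | zero => exact ih _ _ a
    | succ j =>
      simp only [evF_eq]
      have b := C.get (H T List.mem_cons_self) j
      obtain ⟨v, u, hu, e⟩ := ih (Nat.div h 512) _ (C.v b.1 a)
      exact ⟨v, _, E.mul_mem hu b.2, by rw [e, C.m b.1 a, mul_assoc]⟩

theorem Cx.adr (H : ∀ T ∈ Ts, In V d E T) (h : ℕ) :
    V (Fr.pl mu o Ts h o) ∧ d (Fr.pl mu o Ts h o) ∈ E := by
  obtain ⟨v, u, hu, e⟩ := C.pl H h o C.vo
  exact ⟨v, by rwa [e, C.one, mul_one]⟩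

theorem Cx.sch {F F' : Submonoid M} (hA : In V d F A) (hT : In V d F' T) (ho : o ∈ T)
    (H : ∀ T ∈ Ts, In V d E T) {h : List (List ℕ)} (e : sch mu o A T Ts h = true) :
    ∀ u ∈ Cl d A, ∃ v ∈ E, ∃ c ∈ T, u = v * d c := fun u hu => by
  induction hu using Submonoid.closure_induction_right with
  | one => exact ⟨1, E.one_mem, o, ho, by rw [C.one, one_mul]⟩
  | mul_right x _ y hy ih =>
    obtain ⟨g, hg, rfl⟩ := hy
    obtain ⟨v, hv, t, ht, rfl⟩ := ih
    obtain ⟨_, e⟩ := all2_p e g hg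
    obtain ⟨j, e⟩ := all2_p e t ht
    rw [evF_eq, Nat.beq_eq] at e
    obtain ⟨-, w, hw, e'⟩ := C.pl H (Nat.div j 512) _ (C.get hT (Nat.mod j 512)).1
    refine ⟨_, E.mul_mem hv hw, _, ?_, by rw [mul_assoc, mul_assoc, ← e', ← e, C.m (hT t ht).1 (hA g hg).1]⟩
    exact (List.mem_cons.1 (get_p T _)).elim (fun e => e ▸ ho) id

theorem Cx.wv (h : In V d E T) (w : List ℕ) : V (wv mu o T w) ∧ d (wv mu o T w) ∈ E := by
  induction w with
  | nil => exact ⟨C.vo, C.one ▸ E.one_mem⟩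
  | cons i w ih =>
    have : Fr.wv mu o T (i :: w) = evF (Fr.get o T i) fun x => evF (Fr.wv mu o T w) (mu x) := rfl
    simp only [this, evF_eq]
    exact C.mul (C.get h i) ih

theorem Cx.wd {c : List ℕ} {a : List M} (h : List.Forall₂ (fun x u => V x ∧ d x = u) c a)
    (w : List (List ℕ)) :
    In V d ⊤ (w.map (Fr.wv mu o c)) ∧ (w.map (Fr.wv mu o c)).map d = wd a w := by
  have g : ∀ i, V (Fr.get o c i) ∧ d (Fr.get o c i) = a.getD i 1 := by
    induction h with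
    | nil => exact fun _ => ⟨C.vo, C.one⟩
    | cons u _ ih => intro i; cases i; exacts [u, ih _]
  have g : ∀ l, V (Fr.wv mu o c l) ∧ d (Fr.wv mu o c l) = (l.map fun i => a.getD i 1).prod :=
    fun l => by
      induction l with
      | nil => exact ⟨C.vo, C.one⟩
      | cons i l ih =>
        have : Fr.wv mu o c (i :: l) = evF (Fr.get o c i) fun x => evF (Fr.wv mu o c l) (mu x) := rfl
        simp only [this, evF_eq, List.map_cons, List.prod_cons]
        exact ⟨C.v (g i).1 ih.1, by rw [C.m (g i).1 ih.1, (g i).2, ih.2]⟩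
  exact ⟨List.forall_mem_map.2 fun l _ => ⟨(g l).1, trivial⟩, by
    rw [List.map_map]; exact List.map_congr_left fun l _ => (g l).2⟩

theorem Cx.lev (p : List (List ℕ × List (List ℕ) × List (List ℕ))) : ∀ {A E k}, In V d E A →
    lev mu o p A k = true → ∃ Ts, k Ts = true ∧ (∀ T ∈ Ts, In V d (Cl d A) T) ∧
      ∃ X : Finset M, X.card ≤ (Ts.map List.length).prod ∧ ∀ u ∈ Cl d A, u ∈ X := by
  classical
  induction p with
  | nil =>
    intro A E k _ e
    have e : (A.isEmpty && k []) = true := e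
    rw [Bool.and_eq_true, List.isEmpty_iff] at e
    exact ⟨[], e.2, by simp, {1}, by simp, by simp [Cl, e.1]⟩
  | cons v p ih =>
    intro A E k h e
    obtain ⟨T, e, a, b⟩ := C.tree' h e
    rw [lF_eq] at e
    have c : In V d (Cl d A) (v.2.1.map (Fr.wv mu o (A ++ T))) :=
      List.forall_mem_map.2 fun w _ => C.wv (List.forall_mem_append.2 ⟨h.cl, a⟩) w
    obtain ⟨Ts, e, f, X, g, i⟩ := ih c e
    rw [Bool.and_eq_true] at e
    refine ⟨T :: Ts, e.2, List.forall_mem_cons.2 ⟨a, fun T hT x hx =>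
      ⟨(f T hT x hx).1, c.le (f T hT x hx).2⟩⟩, Finset.image₂ (· * ·) X (T.map d).toFinset,
      (Finset.card_image₂_le _ _ _).trans ?_, fun u hu => ?_⟩
    · rw [List.map_cons, List.prod_cons, mul_comm]
      exact Nat.mul_le_mul ((List.toFinset_card_le _).trans (by simp)) g
    · obtain ⟨x, hx, y, hy, rfl⟩ := C.sch h a b f e.1 u hu
      exact Finset.mem_image₂_of_mem (i x hx) (List.mem_toFinset.2 (List.mem_map_of_mem hy))

omit C

variable {G : Type} [Group G]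

theorem inv_mem_of {S : Submonoid G} [Finite G] {g : G} (h : g ∈ S) : g⁻¹ ∈ S :=
  Submonoid.powers_le.2 h (mem_powers_iff_mem_zpowers.2 (inv_mem (Subgroup.mem_zpowers g)))

/-- A quotient of the same size is the group itself. -/
theorem iso {N k : ℕ} {a : List M} (h : Spor G N a a k) (hk : a.length ≤ k) (hN : N ≠ 0)
    {X : Finset M} (hX : X.card ≤ N) (H : ∀ u ∈ Submonoid.closure {u | u ∈ a}, u ∈ X) :
    ∃ ρ : G →* M, Function.Injective ρ ∧ ∀ u ∈ Submonoid.closure {u | u ∈ a}, ∃ g, ρ g = u := by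
  obtain ⟨-, n, x, y, ⟨l, s⟩, ⟨l', -⟩, -, t⟩ := h.single hk
  obtain rfl := List.length_eq_zero_iff.1 l'.symm
  have : Finite G := Nat.finite_of_card_ne_zero (n ▸ hN)
  set S := Submonoid.closure {p | p ∈ a.zip x}
  have m0 : S ≤ (Submonoid.closure {u | u ∈ a}).comap (MonoidHom.fst M G) :=
    Submonoid.closure_le.2 fun p hp =>
      Submonoid.subset_closure (s := {u | u ∈ a}) (List.of_mem_zip (a := p.1) (b := p.2) hp).1
  have m : ∀ p ∈ S, p.1 ∈ X := fun p hp => H _ (m0 hp)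
  have i1 : ∀ p q : S, p.1.1 = q.1.1 → p = q := fun p q e =>
    Subtype.ext (Prod.ext e (s _ _ _ p.2 (e ▸ q.2)))
  have i2 : Function.Injective fun p : S => (⟨p.1.1, m _ p.2⟩ : X) := fun p q e =>
    i1 p q (congrArg Subtype.val e)
  have : Finite S := Finite.of_injective _ i2
  let π : S →* G := (MonoidHom.snd M G).comp S.subtype
  have su : Function.Surjective π := fun g => by
    have : g ∈ Subgroup.closure {g | g ∈ x ++ []} := t ▸ Subgroup.mem_top g
    change g ∈ MonoidHom.mrange π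
    induction this using Subgroup.closure_induction with
    | mem g hg =>
      obtain ⟨i, hi, rfl⟩ := List.getElem_of_mem (List.append_nil x ▸ hg : g ∈ x)
      exact ⟨⟨(a[i], x[i]), Submonoid.subset_closure (List.mem_iff_getElem.2
        ⟨i, by simp [l, hi], by simp⟩)⟩, rfl⟩
    | one => exact one_mem _
    | mul _ _ _ _ u v => exact mul_mem u v
    | inv _ _ u => exact inv_mem_of u
  let e := MulEquiv.ofBijective π ((Nat.bijective_iff_surjective_and_card π).2 ⟨su, le_antisymm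
    ((Nat.card_le_card_of_injective _ i2).trans (by simpa only [Nat.card_eq_fintype_card, Fintype.card_coe, n] using hX))
    (Nat.card_le_card_of_surjective _ su)⟩)
  refine ⟨((MonoidHom.fst M G).comp S.subtype).comp e.symm.toMonoidHom,
    fun g h q => e.symm.injective (i1 _ _ q), fun u hu => ?_⟩
  suffices ∃ p : S, p.1.1 = u by
    obtain ⟨p, rfl⟩ := this
    exact ⟨e p, by simp only [MulEquiv.toMonoidHom_eq_coe, MonoidHom.coe_comp, MonoidHom.coe_fst, Submonoid.coe_subtype, MonoidHom.coe_coe, Function.comp_apply, MulEquiv.symm_apply_apply]⟩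
  induction hu using Submonoid.closure_induction with
  | mem g hg =>
    obtain ⟨i, hi, rfl⟩ := List.getElem_of_mem hg
    exact ⟨⟨(a[i], x[i]), Submonoid.subset_closure (List.mem_iff_getElem.2
      ⟨i, by simp [← l, hi], by simp⟩)⟩, rfl⟩
  | one => exact ⟨1, rfl⟩
  | mul _ _ _ _ u v =>
    obtain ⟨p, rfl⟩ := u
    obtain ⟨q, rfl⟩ := v
    exact ⟨p * q, rfl⟩

/-- An involution is conjugate into a subgroup of odd index. -/
theorem conj_odd [Finite G] {H : Subgroup G} (h : ¬ 2 ∣ H.index) {g : G} (hg : orderOf g = 2) :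
    ∃ c, c⁻¹ * g * c ∈ H := by
  have : IsPGroup 2 (Subgroup.zpowers g) :=
    IsPGroup.of_card (n := 1) (by rw [Nat.card_zpowers, hg, pow_one])
  obtain ⟨q, hq⟩ := this.nonempty_fixed_point_of_prime_not_dvd_card (G ⧸ H) h
  obtain ⟨c, rfl⟩ := QuotientGroup.mk_surjective q
  have := QuotientGroup.eq.1 (hq ⟨g, Subgroup.mem_zpowers g⟩).symm
  exact ⟨c, by rwa [mul_assoc]⟩

end

open H75 Module Matrix

/-- The matrices. -/
abbrev Mx := Matrix (Fin 24) (Fin 24) (ZMod 3)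

/-- The fixed space. -/
def Fx (A : Mx) : Submodule (ZMod 3) (Fin 24 → ZMod 3) := LinearMap.ker (A - 1).mulVecLin

theorem mem_Fx {A : Mx} {v : Fin 24 → ZMod 3} : v ∈ Fx A ↔ A *ᵥ v = v := by
  simp [Fx, sub_eq_zero]

theorem ker_rank (A : Mx) : A.rank + finrank (ZMod 3) (LinearMap.ker A.mulVecLin) = 24 :=
  (LinearMap.finrank_range_add_finrank_ker _).trans (by simp)

theorem v4 {A B : Mx} (h : A * A = 1) (c : A * B = B * A) :
    (Fx A ⊔ Fx B) ⊓ Fx (A * B) ≤ Fx A ⊓ Fx B := by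
  rintro v ⟨hv, e⟩
  obtain ⟨a, ha, b, hb, rfl⟩ := Submodule.mem_sup.1 hv
  have e := mem_Fx.1 e
  rw [mem_Fx] at ha hb
  rw [mulVec_add, ← mulVec_mulVec b, hb, c, ← mulVec_mulVec, ha] at e
  have e' := congrArg (A *ᵥ ·) e
  simp only [mulVec_add, mulVec_mulVec, h, one_mulVec, ha] at e'
  rw [c, ← mulVec_mulVec, ha] at e'
  have t : ∀ x : Fin 24 → ZMod 3, x + x + x = 0 := fun x => funext fun i =>
    (by decide : ∀ y : ZMod 3, y + y + y = 0) _
  have q : A *ᵥ b = b := by linear_combination (exp := 1) t (A *ᵥ b) - t b - e + e'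
  refine ⟨mem_Fx.2 ?_, mem_Fx.2 ?_⟩ <;> rw [mulVec_add]
  · rw [ha, q]
  · rw [hb]; rw [q] at e; exact e

theorem no_three {G : Type} [Group G] (ρ : G →* Mx) (h : ∀ g, orderOf g = 2 → (ρ g - 1).rank ≤ 8)
    {D : Mx} (hD : D.rank ≤ 3) (f : ∀ v, (∀ g, ρ g *ᵥ v = v) → D *ᵥ v = 0 → v = 0) : ¬ Good G 3 := by
  rintro ⟨t, inj, ord, top, -, i, j, ne, c⟩
  obtain ⟨k, hk⟩ := (by decide : ∀ i j : Fin 3, i ≠ j → ∃ k, ∀ l, l = i ∨ l = j ∨ l = k) i j ne
  have sq : ∀ i, t i * t i = 1 := fun i => by rw [← pow_two, ← ord i, pow_orderOf_eq_one]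
  have d : ∀ g, orderOf g = 2 → 16 ≤ finrank (ZMod 3) (Fx (ρ g)) := fun g hg => by
    have := h g hg
    have := ker_rank (ρ g - 1)
    unfold Fx
    omega
  have d3 := d (t i * t j) (orderOf_eq_prime
    (by rw [pow_two, mul_assoc, ← mul_assoc (t j), ← c, mul_assoc, sq, mul_one, sq])
    fun e => ne (inj (mul_left_cancel ((sq i).trans e.symm))))
  rw [map_mul] at d3
  have d4 := Submodule.finrank_mono (v4 (A := ρ (t i)) (B := ρ (t j))
    (by rw [← map_mul, sq, map_one]) (by rw [← map_mul, c, map_mul]))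
  have le : ∀ W : Submodule (ZMod 3) (Fin 24 → ZMod 3), finrank (ZMod 3) W ≤ 24 := fun W =>
    W.finrank_le.trans (by simp)
  have d5 := Submodule.finrank_sup_add_finrank_inf_eq (Fx (ρ (t i))) (Fx (ρ (t j)))
  have d6 := Submodule.finrank_sup_add_finrank_inf_eq (Fx (ρ (t i)) ⊔ Fx (ρ (t j)))
    (Fx (ρ (t i) * ρ (t j)))
  have d7 := Submodule.finrank_sup_add_finrank_inf_eq (Fx (ρ (t i)) ⊓ Fx (ρ (t j))) (Fx (ρ (t k)))
  have d8 : Disjoint (Fx (ρ (t i)) ⊓ Fx (ρ (t j)) ⊓ Fx (ρ (t k))) (LinearMap.ker D.mulVecLin) := by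
    refine Submodule.disjoint_def.2 fun v hv e => f v (fun g => ?_) e
    have : g ∈ Subgroup.closure (Set.range t) := top ▸ Subgroup.mem_top g
    induction this using Subgroup.closure_induction with
    | mem _ hg =>
      obtain ⟨l, rfl⟩ := hg
      rcases hk l with rfl | rfl | rfl
      exacts [mem_Fx.1 hv.1.1, mem_Fx.1 hv.1.2, mem_Fx.1 hv.2]
    | one => rw [map_one, one_mulVec]
    | mul _ _ _ _ a b => rw [map_mul, ← mulVec_mulVec, b, a]
    | inv x _ a => conv_lhs => rw [← a, mulVec_mulVec, ← map_mul, inv_mul_cancel, map_one, one_mulVec]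
  have d9 := Submodule.finrank_add_finrank_le_of_disjoint d8
  have := ker_rank D
  have := le (Fx (ρ (t i)) ⊔ Fx (ρ (t j)) ⊔ Fx (ρ (t i) * ρ (t j)))
  have := le (Fx (ρ (t i)) ⊓ Fx (ρ (t j)) ⊔ Fx (ρ (t k)))
  have := d _ (ord i)
  have := d _ (ord j)
  have := d _ (ord k)
  simp only [finrank_fintype_fun_eq_card, Fintype.card_fin] at d9
  omega

/-- A code followed by a check number (which spreads the hash values in the kernel's tables). -/
def sl (c : ℕ) : ℕ := Nat.add (Nat.shiftLeft c 64) (Nat.mod c 1000000000000000003)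

/-- Removal of the check number. -/
def us (c : ℕ) : ℕ := Nat.shiftRight c 64

theorem us_sl (c : ℕ) : us (sl c) = c := by
  change (c <<< 64 + c % 1000000000000000003) >>> 64 = c
  rw [Nat.shiftLeft_eq, Nat.shiftRight_eq_div_pow]
  omega

/-- The matrix with the code `c`. -/
def dec (c : ℕ) : Mx := Matrix.of fun i j => (evDg 13 (us c) (24 * i + j) : ℕ)

/-- Valid codes. -/
def Vd (c : ℕ) : Prop := RP 3 24 13 (us c) (dec c) ∧ c = sl (us c)

theorem rp {c : ℕ} {A : Mx} (h : RP 3 24 13 c A) : Vd (sl c) ∧ dec (sl c) = A := by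
  have : dec (sl c) = A := by
    obtain ⟨f, u, b, e⟩ := h
    ext i j
    rw [e, dec, of_apply, us_sl, u, evDg_pk _ (fun t => (b t).trans_lt (by norm_num)) _ (by omega)]
  exact ⟨⟨by rwa [this, us_sl], by rw [us_sl]⟩, this⟩

theorem Vd.inj {a b : ℕ} (h : Vd a) (h' : Vd b) (e : dec a = dec b) : a = b := by
  obtain ⟨⟨f, u, v, w⟩, h⟩ := h
  obtain ⟨⟨g, u', v', w'⟩, h'⟩ := h'
  rw [h, h', u, u']
  refine congrArg sl (evPk_congr fun t ht => ?_)
  have := (w ⟨t / 24, by omega⟩ ⟨t % 24, by omega⟩).symm.trans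
    ((congrFun (congrFun e _) _).trans (w' _ _))
  rw [ZMod.natCast_eq_natCast_iff', Nat.div_add_mod] at this
  have := v t
  have := v' t
  omega

/-- The product of codes. -/
def mq (x y : ℕ) : ℕ := sl (muP 3 24 13 43 7 (us x) (us y))

/-- The product of codes with the constants evaluated once. -/
def withQ (p D w m s : ℕ) (k : (ℕ → ℕ → ℕ) → Bool) : Bool :=
  evF (w * D) fun W => evF (2 ^ W) fun B => evF (evMk (2 ^ w - 1) W D) fun M =>
    evF (evMk (2 ^ (w - s) - 1) w (D * D)) fun M' =>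
      k fun x y => sl (evRd p m s M' (evMr w W B M D (us x) (us y)))

theorem withQ_eq (p D w m s : ℕ) (k : (ℕ → ℕ → ℕ) → Bool) :
    withQ p D w m s k = k fun x y => sl (muP p D w m s (us x) (us y)) := by
  simp only [withQ, evF_eq]
  rfl

/-- The code of the unit matrix. -/
def oq : ℕ := sl (prm 24 13 fun i => i)

theorem cx : Cx mq oq Vd dec :=
  ⟨fun a b => (rp (a.1.mul okCo b.1)).1, fun a b => (rp (a.1.mul okCo b.1)).2,
    (rp (RP.one (by omega))).1, (rp (RP.one (by omega))).2⟩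

/-- Equality of two sums. -/
def eq3 (x y z u v w : ℕ) : Bool := evF x fun x => evF y fun y => evF z fun z => evF u fun u =>
  evF v fun v => evF w fun w => (List.range 576).all fun t =>
    Nat.beq ((evDg 13 (us x) t + evDg 13 (us y) t + evDg 13 (us z) t) % 3)
      ((evDg 13 (us u) t + evDg 13 (us v) t + evDg 13 (us w) t) % 3)

theorem eq3_p {x y z u v w : ℕ} (e : eq3 x y z u v w = true) :
    dec x + dec y + dec z = dec u + dec v + dec w := by
  simp only [eq3, evF_eq, List.all_eq_true, List.mem_range, Nat.beq_eq] at e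
  ext i j
  have := (ZMod.natCast_eq_natCast_iff' _ _ 3).2 (e (24 * i + j) (by omega))
  simpa only [dec, of_add_of, Matrix.add_apply, of_apply, Pi.add_apply, Nat.cast_add] using this

/-- The projection to the coordinates `l`. -/
def dg (l : List ℕ) : ℕ := sl (tab 24 13 fun i j => if i = j ∧ i ∈ l then 1 else 0)

theorem dg_p (l : List ℕ) : Vd (dg l) ∧ (dec (dg l)).rank ≤ l.length := by
  have h := rp (A := diagonal fun i => if i.1 ∈ l then 1 else 0) (RP.tab (w := 13)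
    (f := fun i j => if i = j ∧ i ∈ l then 1 else 0) (fun i j => by split_ifs <;> omega) fun i j => by
      simp only [diagonal_apply, Fin.ext_iff]
      by_cases a : i.1 = j.1 <;> by_cases b : i.1 ∈ l <;> simp only [a, b] <;> simp)
  refine ⟨h.1, ?_⟩
  rw [dg, h.2, rank_diagonal, Fintype.card_subtype]
  exact (Finset.card_le_card_of_injOn Fin.val (fun i hi => by simpa only [List.coe_toFinset, Set.mem_ofPred_eq, ne_eq, ite_eq_right_iff, one_ne_zero, imp_false, Decidable.not_not, Finset.coe_filter, Finset.mem_univ, true_and] using hi)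
    Fin.val_injective.injOn).trans l.toFinset_card_le

/-- The test of the involutions in a Sylow subgroup and of the fixed spaces. -/
def chkB (mu : ℕ → ℕ → ℕ) (o a b n : ℕ) (s p : List ℕ) (h : List (List ℕ)) (t : ℕ) (q l l' : List ℕ)
    (x y z : ℕ) (Ts : List (List ℕ)) : Bool :=
  lF (s.map fun h => pl mu o Ts h o) fun s => evF (pl mu o Ts t o) fun t => evF (dg l) fun D =>
    evF (sl (mxC 3 13 576 x)) fun x => evF (sl (mxC 3 13 576 y)) fun y =>
    evF (sl (mxC 3 13 576 z)) fun z =>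
    eq3 (mu t (mu D t)) D t (mu t D) (mu D t) o && eq3 (mu x a) (mu y b) (mu z (dg l')) o x y &&
    tree mu o s (fun L => Nat.beq L.length n && decide L.Nodup && sch mu o s L [] h &&
      all2 (fun u h => !Nat.beq (mu u u) o || Nat.beq u o ||
        evF (pl mu o Ts h o) fun c => Nat.beq (mu c u) (mu t c)) L q) p [o]

theorem chkB_p {G : Type} [Group G] [Finite G] (ρ : G →* Mx) (inj : Function.Injective ρ)
    {E : Submonoid Mx} (hE : ∀ u ∈ E, ∃ g, ρ g = u) {a b n m : ℕ} (hG : Nat.card G = n * m)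
    {s p : List ℕ} {h : List (List ℕ)} {t : ℕ} {q l l' : List ℕ} {x y z : ℕ} {Ts : List (List ℕ)}
    (hm : ¬ 2 ∣ m ∧ l.length ≤ 8 ∧ l'.length ≤ 3) (ab : In Vd dec E [a, b]) (H : ∀ T ∈ Ts, In Vd dec E T)
    (e : chkB mq oq a b n s p h t q l l' x y z Ts = true) :
    ¬ Good G 3 := by
  simp only [chkB, lF_eq, evF_eq, Bool.and_eq_true] at e
  have C := cx
  generalize mq = mu at *
  generalize oq = o at *
  obtain ⟨⟨e1, e2⟩, e⟩ := e
  have hs : In Vd dec E (s.map fun h => pl mu o Ts h o) := List.forall_mem_map.2 fun h _ => C.adr H h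
  obtain ⟨L, e, hL, oL⟩ := C.tree' hs e
  simp only [Bool.and_eq_true, Nat.beq_eq, decide_eq_true_eq] at e
  obtain ⟨⟨⟨e3, e4⟩, e5⟩, e6⟩ := e
  have e5 := C.sch (E := ⊥) hs hL oL (by simp) e5
  have le := hs.le
  generalize Cl dec _ = S at *
  have vt := (C.adr H t).1
  generalize pl mu o Ts t o = t at *
  let P : Subgroup G := { S.comap ρ with inv_mem' := inv_mem_of }
  have cP : Nat.card P = n := by
    have : ρ '' P = dec '' L.toFinset := by
      ext u
      constructor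
      · rintro ⟨g, hg, rfl⟩
        obtain ⟨v, hv, c, hc, e⟩ := e5 _ hg
        exact ⟨c, by simpa using hc, by rw [e, Submonoid.mem_bot.1 hv, one_mul]⟩
      · rintro ⟨c, hc, rfl⟩
        have := (hL c (by simpa using hc)).2
        obtain ⟨g, e⟩ := hE _ (le this)
        exact ⟨g, show ρ g ∈ S from e ▸ this, e⟩
    rw [← e3, ← List.toFinset_card_of_nodup e4, ← Set.ncard_coe_finset, ← Set.InjOn.ncard_image
      (f := dec) fun a u b v => (hL a (by simpa using u)).1.inj (hL b (by simpa using v)).1,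
      ← this, Set.ncard_image_of_injective _ inj]
    rfl
  have iP : P.index = m := by
    have := P.card_mul_index
    rw [hG, cP] at this
    exact Nat.eq_of_mul_eq_mul_left (cP ▸ Nat.card_pos) this
  have rt : (dec t - 1).rank ≤ 8 := by
    have := eq3_p e1
    rw [C.m vt (C.v (dg_p l).1 vt), C.m (dg_p l).1 vt, C.m vt (dg_p l).1, C.one] at this
    have : dec t - 1 = (1 - dec t) * dec (dg l) * (dec t - 1) := by
      linear_combination (norm := noncomm_ring) this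
    rw [this]
    exact (rank_mul_le_left _ _).trans ((rank_mul_le_right _ _).trans ((dg_p l).2.trans hm.2.1))
  refine no_three ρ (fun g hg => ?_) ((dg_p l').2.trans hm.2.2) fun v hv e => ?_
  · obtain ⟨c, hc⟩ := conj_odd (H := P) (iP ▸ hm.1) hg
    obtain ⟨v, hv, u, hu, e⟩ := e5 _ hc
    rw [Submonoid.mem_bot.1 hv, one_mul] at e
    have vu := (hL u hu).1
    obtain ⟨j, e6⟩ := all2_p e6 u hu
    simp only [Bool.or_eq_true, Bool.not_eq_true', Nat.beq_eq, ← Bool.not_eq_true] at e6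
    have sq : g * g = 1 := by rw [← pow_two, ← hg, pow_orderOf_eq_one]
    rcases e6 with (e6 | e6) | e6
    · refine absurd ((C.v vu vu).inj C.vo ?_) e6
      rw [C.m vu vu, C.one, ← e, ← map_mul, ← map_one ρ]
      congr 1
      calc _ = c⁻¹ * (g * g) * c := by group
        _ = 1 := by rw [sq]; group
    · rw [e6, C.one, ← map_one ρ] at e
      have : g = c * (c⁻¹ * g * c) * c⁻¹ := by group
      rw [inj e] at this
      simp [this] at hg
    · obtain ⟨vj, hj⟩ := C.adr H j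
      obtain ⟨w, hw⟩ := hE _ hj
      have e6 := congrArg dec e6
      rw [C.m vj vu, C.m vt vj, ← e, ← hw, ← map_mul] at e6
      have : ρ g - 1 = ρ (c * w⁻¹) * (dec t - 1) * ρ (w * c⁻¹) := by
        rw [mul_sub, sub_mul, mul_one, ← map_mul, map_mul ρ w, mul_assoc, ← mul_assoc (dec t), ← e6,
          ← map_mul, ← map_mul, ← map_one ρ]
        congr 2 <;> group
      rw [this]
      exact (rank_mul_le_left _ _).trans ((rank_mul_le_right _ _).trans rt)
  · have := congrArg (· *ᵥ v) (eq3_p e2)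
    have mx := fun c => (rp (RP.mx (D := 24) (w := 13) (by omega) c)).1
    obtain ⟨va, ha⟩ := ab a (by simp)
    obtain ⟨vb, hb⟩ := ab b (by simp)
    obtain ⟨g, ha⟩ := hE _ ha
    obtain ⟨k, hb⟩ := hE _ hb
    rw [C.m (mx x) va, C.m (mx y) vb, C.m (mx z) (dg_p l').1, C.one, ← ha, ← hb] at this
    simp only [add_mulVec, ← mulVec_mulVec, hv, e, one_mulVec, mulVec_zero] at this
    linear_combination -this

/-- The test for the group given by the words `w` in Conway's generators. -/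
def chkF (w : List (List ℕ)) (N : ℕ) (p : List (List ℕ × List (List ℕ) × List (List ℕ)))
    (k : (ℕ → ℕ → ℕ) → ℕ → List ℕ → List (List ℕ) → Bool) : Bool :=
  withQ 3 24 13 43 7 fun mu => evF oq fun o => lF (coC.map sl) fun g =>
    lF (w.map (wv mu o g)) fun a => lev mu o p a fun Ts =>
      Nat.ble (Ts.map List.length).prod N && k mu o a Ts

theorem chkF_p {w : List (List ℕ)} {N : ℕ} {p : List (List ℕ × List (List ℕ) × List (List ℕ))}
    {k : (ℕ → ℕ → ℕ) → ℕ → List ℕ → List (List ℕ) → Bool} (e : chkF w N p k = true) :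
    (∃ X : Finset Mx, X.card ≤ N ∧ ∀ u ∈ Submonoid.closure {u | u ∈ wd con w}, u ∈ X) ∧
    ∃ a Ts, In Vd dec (.closure {u | u ∈ wd con w}) a ∧
      (∀ T ∈ Ts, In Vd dec (.closure {u | u ∈ wd con w}) T) ∧
      k mq oq a Ts = true := by
  simp only [chkF, withQ_eq, evF_eq, lF_eq] at e
  obtain ⟨i, h⟩ := cx.wd (List.forall₂_map_left_iff.2 (coC_r.imp fun _ _ => rp)) w
  have q : Cl dec (w.map (wv mq oq (coC.map sl))) = .closure {u | u ∈ wd con w} := by
    rw [← h, Cl]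
    generalize w.map _ = c
    congr 1
    ext
    simp only [Set.mem_image, Set.mem_ofPred_eq, List.mem_map]
  obtain ⟨Ts, e, u, X, v, y⟩ := cx.lev p i e
  rw [Bool.and_eq_true, Nat.ble_eq] at e
  rw [← q]
  exact ⟨⟨X, v.trans e.1, y⟩, _, Ts, i.cl, u, e.2⟩

theorem fin {G : Type} [Group G] {v w : List (List ℕ)} {N N' j n : ℕ} (m : ℕ)
    {p p' : List (List ℕ × List (List ℕ) × List (List ℕ))}
    {k : (ℕ → ℕ → ℕ) → ℕ → List ℕ → List (List ℕ) → Bool} {s r : List ℕ} {h : List (List ℕ)} {t : ℕ}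
    {q l l' : List ℕ} {x y z : ℕ} (hG : Spor G N (wd con w) (wd con w) j) (e : chkF w N p k = true)
    (e' : chkF v N' p' (fun mu o a => chkB mu o (get o a 0) (get o a 1) n s r h t q l l' x y z) = true)
    (H : (w.length ≤ j ∧ N ≠ 0 ∧ N = n * m ∧ ∀ l ∈ v, l ∈ w ∨ ∀ i ∈ l, [i] ∈ w) ∧
      ¬ 2 ∣ m ∧ l.length ≤ 8 ∧ l'.length ≤ 3) : ¬ Good G 3 := by
  obtain ⟨⟨H1, H2, H3, H4⟩, H⟩ := H
  obtain ⟨X, a, b⟩ := (chkF_p e).1
  obtain ⟨ρ, i, c⟩ := iso hG (by simpa only [wd, List.getD_eq_getElem?_getD, List.length_map] using H1) H2 a b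
  obtain ⟨A, Ts, a, b, e⟩ := (chkF_p e').2
  have : Finite G := Nat.finite_of_card_ne_zero (hG.2.1 ▸ H2)
  refine chkB_p ρ i (fun u hu => c u (Submonoid.closure_le.2 (fun u hu => ?_) hu)) (hG.2.1.trans H3) H
    (by simpa [In] using ⟨cx.get a 0, cx.get a 1⟩) b e
  obtain ⟨l, hl, rfl⟩ := List.mem_map.1 hu
  refine (H4 l hl).elim (fun h => Submonoid.subset_closure (List.mem_map.2 ⟨_, h, rfl⟩)) fun h =>
    list_prod_mem (List.forall_mem_map.2 fun i hi => Submonoid.subset_closure ?_)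
  exact List.mem_map.2 ⟨_, h i hi, by simp⟩

theorem e11 : chkF [[0, 1, 0, 0, 1, 1, 0, 0, 1], [2, 0, 1, 1, 2, 0, 2, 0, 1, 0]] 7920
    [([0, 9, 8, 17, 16, 17, 16, 8, 0, 0], [[6, 7, 9], [5, 1, 3]], [[787462, 0, 1, 68720267268, 2,
    270535176, 3, 68854483466, 5, 7, 9], [404226560, 68854220801, 69122396674, 68720791557,
    403441674, 403180041, 136055811, 4, 68854484999, 6, 8]]), ([0, 9, 8, 17, 16, 25, 24, 33, 24],
    [[3, 3, 4], [7, 5, 5, 10]], [[790019, 788487, 788997, 135006721, 0, 134221321, 2, 4, 6, 8],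
    [135006724, 526850, 265225, 134219776, 265734, 786440, 1, 3, 5, 7]]), ([0, 9, 8, 17, 17, 9, 8,
    8], [[2, 4], [1, 0]], [[1539, 263682, 0, 1, 1540, 263174, 1032, 5, 7], [263175, 513, 1024,
    262661, 2, 520, 3, 4, 6]]), ([0, 9, 9], [[3, 1]], [[1, 512, 515, 2], [514, 515, 0, 1]]), ([0],
    [], [[1, 0]])]
    (fun mu o a => chkB mu o (get o a 0) (get o a 1) 16 [68989223942, 134746116]
    [0, 9, 9, 8, 17, 16, 25, 25, 24, 25, 24, 25, 25, 25, 25]
    [[3, 2, 1, 0, 8, 7, 10, 5, 4, 12, 6, 13, 9, 11, 15, 14], [15, 4, 14, 6, 0, 1, 2, 3, 11, 5, 9, 7,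
    8, 10, 12, 13]]
    68989223942
    [0, 0, 0, 0, 0, 69122920963, 270535178, 68721312776, 403180040, 0, 0, 0, 0, 0, 0, 0]
    [0, 3, 4, 6, 7, 8, 10, 15] [0, 3, 23]
    95485365732597462294746180143676577626389347603010378508723332196003632243572717540764529123287881479320341704892929363866823850141249971892736405872994514912709453192232513107881302104918741659066901378402994590416960354246882360998321145189081563780830045419
    35806579814643460508580087677986930697917073142079494380151085951470763706185689001061307672372934627205479322772120136417944111557440352188545417437072016516260996904881102596030765807154072173113238867910728969191708846232024560674200366880401650540229578975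
    22116757890994160811458089310309387062626352329993560005038245934849619926325330277615027889135071600565166180272889742941607586619384597689780365385945308941242168813220702420698634687671159467846563841572288983541511822355739768023606740194102456895067687866196801474179482) = true := by
  decide +kernel

theorem e22 : chkF [[0, 0, 1, 0, 1, 0, 1, 0], [0, 0, 1, 1, 0, 0, 1, 0]] 443520
    [([0, 9, 8, 17, 17, 16, 25, 25, 16, 25, 25, 24, 16, 16, 25, 24, 24, 24, 33, 32, 0], [[15, 18,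
    7], [19, 20]], [[137575799822, 0, 137441847298, 412455798800, 137443675654, 270541322, 1, 3, 4,
    5, 7, 8, 68719749137, 9, 206160267275, 12, 412320012813, 206292916243, 15, 412585564693, 18,
    20], [755918182915, 1030928475648, 962209251333, 1030793468935, 824905310721, 893488994820,
    206158697493, 2, 481036609032, 481173964815, 6, 618612139020, 893488997908, 1031065051657, 10,
    11, 137575534098, 13, 14, 16, 17, 19]]), ([1, 0, 0, 9, 8, 17, 16, 25, 25, 24, 16, 25, 25, 24,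
    33, 33, 32, 24, 16, 16], [[16, 4], [3, 6]], [[403181063, 271876, 14, 0, 1, 403181067, 2,
    1879049224, 3, 1745101829, 6, 2013532684, 9, 1342180880, 10, 19, 13, 15, 17, 18, 134222868],
    [1074010633, 805306880, 8714, 1208492034, 134223361, 1476401155, 1074269702, 536873485, 18, 4,
    5, 7, 8, 671621647, 1342182929, 11, 12, 14, 16, 134218260, 19]]), ([0, 9, 8, 17, 16, 25, 24, 25,
    24, 33, 32, 32, 41, 41, 40, 40, 49, 33, 25], [[2, 3, 5], [4, 5, 17], [11, 12, 1, 4]], [[2621965,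
    3146752, 524801, 3408389, 525327, 525323, 2884105, 19, 3671042, 3, 4, 3933190, 7, 8, 10,
    1573393, 12, 14, 16, 18], [3670020, 1835536, 3408906, 7, 0, 18, 1, 524291, 525331, 2, 1311246,
    5, 6, 1573384, 9, 11, 787468, 13, 15, 17]]), ([1, 10], [[3, 0, 4], [4, 3, 3, 4], [4, 0, 2], [3,
    3, 0, 3]], [[512, 6145, 2562], [1026, 1024, 1], [3073, 3074, 0]]), ([0, 9, 18, 27, 25, 34, 43,
    42, 51, 51, 42, 51, 51, 43, 27], [], [[1, 0, 5, 6, 7, 2, 3, 4, 11, 12, 13, 8, 9, 10, 15, 14],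
    [2, 5, 0, 8, 9, 1, 11, 12, 3, 4, 14, 6, 7, 15, 10, 13], [3, 6, 8, 0, 10, 11, 1, 13, 2, 14, 4, 5,
    15, 7, 9, 12], [4, 7, 9, 10, 0, 12, 13, 1, 14, 2, 3, 15, 5, 6, 8, 11]])]
    (fun mu o a => chkB mu o (get o a 0) (get o a 1) 128 [274877908493, 481308183567, 549758968845]
    [0, 9, 18, 16, 25, 34, 32, 41, 50, 48, 57, 66, 64, 73, 82, 80, 89, 98, 96, 105, 114, 113, 122,
    120, 129, 138, 136, 145, 154, 153, 152, 161, 170, 169, 169, 178, 176, 185, 194, 192, 201, 210,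
    209, 218, 217, 226, 224, 234, 233, 232, 241, 250, 249, 248, 257, 266, 264, 273, 282, 282, 280,
    290, 288, 297, 306, 289, 289, 298, 297, 306, 305, 314, 314, 312, 321, 330, 328, 338, 337, 346,
    345, 346, 344, 354, 344, 353, 353, 353, 362, 360, 369, 378, 376, 386, 384, 393, 402, 393, 393,
    402, 401, 401, 410, 410, 408, 417, 426, 426, 425, 426, 418, 408, 369, 280, 290, 288, 297, 290,
    288, 273, 264, 265, 266, 258, 130, 73, 66]
    [[4, 71, 0, 18, 17, 16, 93, 19, 101, 1, 28, 107, 27, 109, 74, 81, 3, 2, 5, 58, 54, 52, 57, 51,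
    61, 65, 9, 79, 76, 55, 62, 83, 67, 56, 75, 12, 10, 78, 7, 82, 6, 60, 116, 59, 118, 8, 84, 115,
    11, 13, 122, 33, 30, 40, 25, 24, 23, 14, 38, 98, 95, 29, 21, 104, 45, 20, 94, 15, 43, 41, 97,
    26, 102, 46, 22, 39, 36, 48, 31, 35, 49, 32, 34, 37, 105, 47, 42, 124, 44, 110, 125, 99, 50, 53,
    72, 69, 86, 63, 68, 121, 88, 64, 66, 89, 70, 73, 85, 77, 91, 80, 119, 92, 87, 90, 127, 106, 96,
    112, 100, 103, 113, 108, 111, 114, 117, 120, 123, 126], [12, 65, 98, 50, 43, 111, 0, 23, 96, 44,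
    20, 1, 24, 101, 2, 77, 90, 79, 120, 13, 91, 59, 4, 64, 6, 121, 54, 85, 88, 53, 68, 71, 11, 8, 3,
    115, 118, 9, 80, 5, 62, 51, 7, 55, 67, 70, 66, 57, 10, 87, 73, 112, 35, 17, 15, 22, 124, 30, 33,
    106, 109, 14, 27, 19, 42, 32, 16, 37, 47, 49, 38, 100, 18, 34, 21, 114, 25, 26, 28, 29, 45, 31,
    126, 36, 39, 40, 41, 104, 108, 94, 46, 48, 103, 52, 123, 56, 58, 60, 61, 83, 81, 63, 127, 75,
    69, 72, 74, 76, 78, 117, 82, 84, 86, 89, 92, 93, 95, 97, 99, 102, 105, 107, 110, 113, 116, 119,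
    122, 125], [7, 73, 1, 95, 26, 41, 48, 46, 103, 0, 29, 40, 31, 111, 116, 119, 10, 58, 76, 2, 72,
    8, 86, 53, 60, 66, 84, 80, 5, 69, 64, 92, 89, 6, 77, 13, 3, 122, 4, 11, 56, 61, 74, 63, 120, 52,
    9, 117, 82, 12, 78, 34, 32, 107, 14, 36, 39, 25, 105, 100, 18, 28, 15, 113, 110, 22, 96, 21, 44,
    16, 125, 17, 42, 19, 20, 23, 24, 93, 27, 37, 50, 30, 33, 35, 38, 99, 102, 126, 43, 45, 97, 47,
    49, 51, 54, 55, 57, 59, 70, 123, 90, 62, 65, 67, 68, 71, 87, 75, 127, 79, 81, 83, 85, 88, 91,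
    108, 94, 114, 98, 101, 104, 106, 109, 112, 115, 118, 121, 124]]
    206158696467
    [962208467467, 0, 343733174293, 1030794252307, 893621898763, 68723939858, 412454748176,
    687465829381, 0, 206158697484, 0, 0, 618745830421, 0, 0, 0, 0, 268964369, 0, 0, 0, 0, 0, 0,
    10240, 0, 0, 0, 0, 137574219792, 0, 0, 0, 0, 0, 0, 0, 0, 0, 0, 0, 0, 0, 0, 0, 0, 412587663887,
    0, 0, 0, 0, 0, 0, 68723152384, 0, 0, 0, 824768731154, 137441579533, 274882892303, 0, 0, 0, 0, 0,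
    0, 0, 0, 824905311760, 0, 0, 1031065051654, 0, 962209251334, 206428702229, 0, 0, 0, 0,
    756051612165, 0, 0, 0, 0, 824902161427, 412454748172, 0, 68854484993, 0, 275149234698, 0,
    136053776, 0, 0, 0, 0, 0, 0, 0, 0, 0, 0, 0, 481036609029, 0, 343867139601, 0, 0, 0, 0,
    206293436929, 0, 0, 0, 0, 687194776071, 0, 2891789, 0, 137441579525, 0, 824636867078, 0, 0, 0,
    0, 0, 0]
    [1, 3, 5, 6, 7, 8, 10, 17] [0, 1, 23]
    2519475982345676117929625716943997317883760494418328284217200043525563055448046515577393937544768990919269295243686848741965266632203102148025469202675160170812086781721113751392641990777429170679926071356582921162461742046701401746971042825764015666055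
    212053221753513471664793536034342321044674415618772224212485317769746915350473967505833417515385095061216091742756556018235623277259447640466008897464818673881050857459330736681215117991294194350772735313790979427347570756075976152884653286065
    22116757890994160811438125945932933872940608903573423649870993662251265897175089236462679557035546844516984992493566073609107701620173277359733024217366223575443346819914154232411156267369637980313792235113559203347901490600591972067380001962953909802346825954145563155514894) = true := by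
  decide +kernel

theorem e23 : chkF [[0], [1]] 10200960
    [([0, 0, 0, 9, 8, 17, 16, 25, 24, 24, 24, 33, 33, 24, 24, 24, 24, 33, 32, 32, 41, 41], [[3, 11],
    [3, 16]], [[457397777204246, 105554727411712, 246430597385729, 70507931112978, 105554597121038,
    175922939432964, 387030107034128, 2, 3, 5, 6, 7, 8, 281612822784521, 35254837186570, 11, 12, 13,
    15, 17, 19, 20, 21], [457467037225477, 211246090031618, 351913115658243, 527836046436360, 20,
    176059837586447, 0, 1, 422283734951943, 4, 457397645870598, 527835780359185, 35254570058763,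
    35321811569677, 9, 10, 422213543008268, 351982503855635, 14, 16, 18, 281546248168469,
    492719454289942]]), ([0, 9, 8, 17, 16, 25, 24, 33, 25, 25, 24, 25, 24, 33, 33, 32, 41, 40, 41,
    1, 0], [[15, 5, 22], [16, 10]], [[824904522241, 0, 275013178891, 135528450, 550026086933,
    824902160391, 824906620945, 550026351620, 687463989254, 3, 5, 962210043913, 8, 687332655635, 10,
    824902164492, 962343737871, 550028445709, 14, 16, 18, 20], [481305563152, 481173709824, 1,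
    756182682132, 756051872277, 962211093507, 206430802954, 962074519560, 2, 1030797134853, 4, 6, 7,
    9, 206162630670, 11, 12, 824635036690, 13, 15, 17, 19]]), ([0, 9, 8, 9, 8, 8, 17, 17, 16, 17,
    16, 16, 25, 24, 24, 33, 24, 33, 33, 17], [[6, 8], [3, 11, 3]], [[263681, 268704768, 9220,
    402917383, 134751242, 1208222733, 6146, 3, 16, 5, 6, 8, 9, 1342187020, 11, 20, 14, 15,
    939795986, 17, 19], [939524613, 1610882062, 1744836099, 0, 1745099782, 1342177288, 1, 2,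
    1476928523, 4, 134223377, 7, 4105, 10, 537141263, 12, 13, 1879572499, 16, 1073751060, 18]]),
    ([0, 9, 8, 17, 16, 25, 24, 33, 32, 33, 33, 32, 41, 25, 8, 17, 16, 25, 25], [[5, 6, 17], [2, 13],
    [15, 17, 9]], [[3408905, 3932163, 525312, 1035, 1836033, 2, 4, 19, 2359301, 787464, 2884625,
    1311750, 7, 1572879, 1311245, 10, 12, 14, 16, 18], [1835012, 14, 2098188, 3408386, 0, 1, 3,
    1836048, 19, 5, 2359815, 262154, 6, 8, 9, 2359314, 11, 13, 15, 17]]), ([0, 9], [[3, 2, 3, 3],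
    [0, 1, 2], [0, 2, 0, 0], [4, 1, 3, 4]], [[514, 512, 1], [2561, 2562, 0], [7680, 6657, 5122]]),
    ([0, 9, 18, 27, 25, 34, 43, 42, 51, 51, 42, 51, 51, 43, 27], [], [[1, 0, 5, 6, 7, 2, 3, 4, 11,
    12, 13, 8, 9, 10, 15, 14], [2, 5, 0, 8, 9, 1, 11, 12, 3, 4, 14, 6, 7, 15, 10, 13], [3, 6, 8, 0,
    10, 11, 1, 13, 2, 14, 4, 5, 15, 7, 9, 12], [4, 7, 9, 10, 0, 12, 13, 1, 14, 2, 3, 15, 5, 6, 8,
    11]])]
    (fun _ _ _ _ => true) = true := by
  decide +kernel

theorem eMc : chkF [[0, 0, 1, 0, 1, 0, 1, 0], [0, 0, 1, 1, 0, 0, 1, 0], [2, 3, 0, 1, 2, 1, 0, 2, 0, 1, 3]] 898128000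
    [([], [[2, 1, 2], [1, 1]], [[1451314222592], [130048], [246295865088000]]), ([0, 9, 9, 8, 17,
    16, 25, 24, 33, 32, 41, 40, 49, 48, 57, 56, 65, 56, 65, 64, 73, 72, 81, 80, 89, 88, 97, 96, 105,
    104, 113, 112, 121, 120, 129, 128, 137, 137, 136, 136, 145, 144, 153, 152, 152, 161, 161, 152,
    152, 161, 160, 169, 168, 177, 176, 185, 184, 193, 192, 201, 200, 209, 208, 217, 216, 225, 224,
    233, 232, 241, 241, 241, 240, 249, 248, 257, 256, 265, 264, 273, 272, 281, 280, 289, 288, 297,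
    296, 305, 304, 313, 312, 321, 320, 329, 329, 320, 320, 320, 320, 329, 329, 328, 328, 337, 336,
    345, 344, 353, 352, 352, 361, 361, 360, 360, 369, 369, 368, 377, 376, 376, 385, 384, 393, 393,
    392, 401, 400, 409, 408, 417, 416, 425, 424, 433, 424, 424, 433, 432, 441, 440, 449, 440, 449,
    449, 449, 449, 448, 449, 449, 448, 457, 448, 433, 424, 433, 416, 417, 416, 425, 424, 433, 433,
    432, 441, 440, 440, 449, 440, 449, 448, 457, 456, 457, 457, 456, 456, 456, 457, 456, 465, 464,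
    473, 473, 472, 481, 473, 473, 472, 472, 481, 480, 481, 480, 489, 488, 497, 496, 505, 504, 505,
    504, 505, 504, 504, 513, 512, 512, 512, 504, 513, 505, 504, 505, 489, 488, 488, 488, 481, 480,
    489, 488, 497, 497, 496, 497, 497, 464, 473, 472, 481, 481, 472, 473, 449, 449, 448, 448, 440,
    425, 417, 377, 369, 369, 368, 377, 377, 376, 385, 384, 376, 369, 360, 360, 369, 368, 360, 369,
    352, 352, 361, 360, 360, 352, 344, 345, 345, 257, 248, 201, 161, 152, 56, 57, 48], [[51, 66],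
    [71, 33]], [[210869207720, 484008533088, 344673532517, 415283051086, 71019801093, 347636776449,
    209801229575, 0, 347900768772, 72361462791, 2, 2165883912, 414614869578, 73966070286,
    142688948341, 416882898964, 1491875871, 137722088471, 211269189794, 137858158168, 210993975877,
    415287793692, 278654924958, 3, 206979488338, 140676991124, 206427174921, 210189431345,
    140803879022, 413937977583, 208986999862, 68868919864, 481710888208, 71809116203, 208582518823,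
    418103956528, 416886848552, 4849168484, 6, 414082429527, 345496123921, 3492558457, 346300628592,
    277295974441, 348834533440, 74635818694, 346162761841, 141063625436, 417834782753, 344417138270,
    416349725803, 485209153641, 482380879007, 413676906739, 10, 137857865757, 11, 142282639064, 12,
    13, 15, 16, 71808357991, 481858215557, 18, 209123044384, 19, 21, 22, 280114016898, 278110451289,
    72357264133, 24, 70736977434, 25, 27, 481446633532, 30, 210323912819, 70343763500, 72613679650,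
    4308076596, 210596319897, 345495328474, 1900071552, 416495963324, 481174006414, 275561060048,
    1221633059, 481180572236, 415269666483, 482264769104, 36, 344014498488, 37, 38, 414745395246,
    276240284756, 4710729910, 413274776270, 140937292339, 415813375116, 42, 483875655291,
    141887831799, 45, 47, 73431278141, 483323021375, 277570144385, 3508296839, 481320277064,
    73029172315, 50, 141080411794, 53, 55, 4439186051, 348570019038, 57, 58, 59, 412865046160,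
    485749708003, 2825441917, 344145005236, 62, 211141563131, 139457737410, 65, 343600006819, 66,
    67, 68, 70, 71, 5254467198, 73, 207516340985, 75, 77, 79, 81, 275433708768, 83, 85, 86,
    485620229348, 137708222638, 413806633052, 90, 279861807826, 93, 95, 69008654455, 97, 98, 99,
    483594605311, 485879998601, 102, 104, 106, 484796548778, 108, 109, 111, 210340169402, 114, 116,
    415944464086, 118, 212064040638, 483597777098, 120, 825009393, 276637198595, 74229751499,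
    208583040712, 122, 416092018388, 124, 347508073156, 275162120343, 127, 343599755932,
    416494142189, 347223147686, 132, 210459997869, 134, 136, 138, 139, 485339710614, 141, 143, 145,
    147, 149, 483184872169, 152, 154, 155, 157, 142148648205, 160, 161, 3240113868, 164, 165, 167,
    169, 171, 172, 483472179969, 175, 176, 177, 178, 280395279552, 415684660967, 181, 183, 185, 187,
    189, 191, 193, 195, 197, 199, 201, 208048531709, 70344013067, 205, 207, 209, 211, 213, 215, 217,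
    219, 221, 223, 225, 226, 143211407113, 280663985900, 229, 230, 232, 234, 235, 210465768693, 238,
    240, 242, 244, 246, 248, 250, 252, 254, 256, 141469689615, 258, 260, 262, 264, 266, 268, 270,
    74242116882, 273], [484931295234, 280790315533, 277168285865, 417157135360, 2286980685,
    414073270290, 73023636625, 418103962131, 278783624707, 1, 141746006543, 344273491055,
    208044071462, 415010704010, 5655773413, 210205952199, 208595065911, 681593935, 278637893731,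
    276895656464, 141883657798, 69674765377, 138116891745, 210861306963, 418098210310, 4,
    211668736021, 812662396, 139456681124, 275555825811, 348439208458, 5, 4985196257, 207649003074,
    139722808345, 69260326437, 346963349213, 276489356408, 416082590795, 3362566683, 7,
    346431427318, 3771239948, 4435512428, 264, 206965325835, 344271386815, 414480901173,
    277837023829, 2149089342, 209931476510, 277699939505, 8, 9, 74641852964, 211537365526,
    415136487156, 278240727233, 483324598339, 137856045174, 14, 143363712651, 143223182521,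
    344018706143, 17, 275421627434, 208318550040, 20, 483452792461, 277570160738, 23, 276368746762,
    140947018842, 412466862807, 348043897391, 26, 28, 29, 31, 32, 137573214834, 33, 417425528056,
    2834095199, 486686074961, 349110847597, 3908320313, 34, 4447053362, 35, 481860549882,
    5381330639, 141482301499, 344815618727, 485879993527, 485745533498, 39, 40, 277982508696,
    5554756, 142942941290, 41, 206706056237, 417025494138, 43, 44, 46, 485210195093, 346963065051,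
    207241629798, 139050630914, 48, 49, 486017104516, 51, 52, 54, 56, 484668121734, 69008370759,
    346161978600, 416091497076, 60, 142139997782, 137709795503, 61, 207649544444, 63, 415961193053,
    64, 71821203017, 208444604617, 5915581611, 140271700125, 69, 73031797453, 72, 147608736, 74,
    206292951679, 76, 78, 80, 82, 1362906805, 84, 483869065476, 87, 88, 209515204291, 89, 91, 92,
    94, 96, 211930344178, 481051546728, 143090254479, 100, 101, 207371410188, 103, 105,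
    485340495515, 107, 73296001160, 110, 112, 113, 115, 117, 73831575808, 73695531180, 484534148330,
    119, 137851052210, 121, 483189080806, 209931241114, 278380704944, 72764638421, 123, 125, 126,
    273, 128, 129, 130, 131, 209528588989, 133, 135, 137, 278639698629, 2689075873, 140, 142, 144,
    146, 148, 150, 151, 153, 412593690811, 156, 158, 159, 140544595170, 162, 163, 137574513317, 166,
    168, 170, 207642468049, 173, 174, 1763449043, 483865954544, 208851713771, 143077194969, 179,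
    180, 182, 184, 186, 188, 190, 192, 194, 196, 198, 200, 202, 203, 204, 206, 208, 210, 212, 214,
    216, 218, 220, 222, 224, 413661158654, 142290452742, 227, 228, 344539299566, 231, 233,
    345880177934, 236, 237, 239, 241, 243, 245, 247, 249, 251, 253, 255, 276359586066, 257, 259,
    261, 263, 265, 267, 269, 271, 272]]), ([0, 9, 8, 17, 16, 25, 24, 33, 33, 32, 41, 40, 49, 48, 57,
    56, 65, 64, 73, 72, 81, 80, 89, 88, 97, 96, 97, 96, 105, 104, 113, 113, 112, 121, 120, 129, 128,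
    137, 137, 136, 145, 144, 153, 152, 161, 160, 169, 169, 168, 177, 176, 185, 184, 184, 193, 192,
    201, 200, 201, 201, 192, 201, 200, 209, 209, 208, 217, 217, 217, 217, 208, 217, 217, 217, 217,
    217, 216, 216, 225, 224, 233, 233, 232, 233, 233, 233, 233, 216, 216, 225, 224, 233, 233, 233,
    232, 224, 224, 216, 225, 209, 177, 176, 169, 160, 153, 153, 152, 104, 89, 57, 25], [[52, 95],
    [86, 2]], [[811638323, 940846117, 145775104, 948191745, 543967237, 402941988, 807927816,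
    543179794, 9213442, 947163163, 541622296, 811084873, 676089393, 272133190, 681321994, 409484356,
    407916590, 3, 6317120, 542119942, 5269606, 951065647, 274488851, 5774362, 4, 138972202,
    405020216, 813451819, 7, 269499451, 4753941, 806903898, 9, 807703106, 944524835, 675061771,
    142382621, 269496904, 811619917, 544758316, 408159244, 13, 139994663, 14, 15, 946870289, 16,
    6029391, 950022765, 20, 22, 23, 542151252, 812388889, 672433182, 544247849, 810562123,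
    816859232, 28, 677909024, 31, 33, 34, 135034471, 8938022, 950013020, 410542174, 40, 136858678,
    412117567, 538203188, 4994671, 45, 543961168, 48, 50, 270295652, 1069629, 5802603, 53, 55, 57,
    58, 60, 62, 812666978, 65, 67, 69, 71, 274764888, 74, 76, 78, 680810066, 81, 83, 681583190, 85,
    87, 89, 91, 93, 95, 97, 99, 101, 808752745, 104, 106, 108, 110], [815025233, 677679717,
    411868163, 679478842, 0, 682383879, 808217108, 406594594, 808724055, 1, 948729357, 405825596,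
    946102883, 805578783, 2, 410256432, 676896265, 412916844, 674516063, 110, 540548100, 407113761,
    545528872, 137912915, 275025935, 5, 6, 277614689, 950542401, 807959643, 8, 137891381, 678451262,
    10, 679488045, 413666830, 411081797, 813197390, 11, 816066588, 276826183, 12, 546865686,
    274234457, 672939024, 939524684, 948725271, 17, 18, 19, 21, 136871530, 273186883, 948197426, 24,
    25, 26, 27, 679219285, 29, 30, 32, 540803129, 35, 36, 37, 38, 39, 144980573, 41, 42, 43, 44, 46,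
    47, 49, 275551799, 51, 52, 810825290, 54, 56, 410818159, 59, 61, 63, 64, 66, 68, 70, 72, 73, 75,
    77, 79, 80, 82, 84, 7638632, 86, 88, 90, 92, 94, 96, 98, 100, 102, 103, 105, 107, 109]]), ([0,
    9, 8, 17, 16, 25, 24, 33, 32, 41, 40, 49, 48, 57, 56, 65, 64, 73, 72, 81, 80, 89, 88, 97, 96,
    105, 104, 113, 112, 121, 113, 112, 121, 120, 129, 129, 128, 137, 128, 137, 137, 137, 136, 145,
    144, 145, 144, 153, 152, 161, 160, 160, 152, 152, 161, 161, 152, 161, 160, 169, 144, 153, 136,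
    145, 144, 153, 152, 152, 144, 153, 153, 152, 152, 152, 144, 144, 113, 105, 89, 80], [[50, 44],
    [2, 16]], [[798792, 1051172, 1845834, 283156, 1069136, 1055246, 530442, 272429, 273921, 1056258,
    1847364, 0, 1594384, 790072, 1840194, 1591847, 806403, 532504, 11296, 1846793, 791082, 1332761,
    574, 4, 5, 278546, 6, 7, 8, 538700, 11, 18998, 12, 13, 15, 17, 1835572, 1591318, 19, 272414,
    1573414, 1064512, 21, 23, 804392, 1575986, 26, 27, 1843234, 28, 29, 31, 33, 1590828, 35, 37,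
    1576497, 1575494, 41, 805434, 43, 1329199, 46, 48, 6734, 809020, 51, 53, 55, 57, 59, 61, 63, 65,
    67, 69, 71, 73, 75, 77, 79], [532499, 530999, 22079, 69, 10251, 1845775, 264221, 800256, 283660,
    1317921, 280085, 1847324, 3588, 1, 11807, 1851911, 2, 807430, 3, 1855493, 804379, 793114,
    1324107, 1587213, 77, 22601, 20019, 1573959, 1572872, 9, 10, 1851941, 1062969, 6161, 14, 16,
    282647, 5173, 18, 801347, 79, 790075, 20, 22, 803369, 24, 25, 20003, 270896, 15918, 80, 30, 32,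
    34, 791595, 36, 38, 39, 40, 275009, 42, 44, 45, 47, 49, 529469, 50, 52, 54, 56, 58, 60, 62, 64,
    66, 68, 70, 72, 74, 76, 78]]), ([0, 9, 8, 17, 16, 25, 24, 33, 32, 41, 40, 49, 48, 48, 57, 56,
    65, 64, 73, 72, 72, 64, 73, 73, 72, 81, 80, 73, 72, 72, 72, 72, 81, 81, 80, 80, 72, 73, 72, 72,
    81, 72, 73, 49], [[28, 9], [26, 41]], [[1053, 3097, 38, 512, 3088, 3082, 1045, 2592, 2563, 3590,
    1537, 1556, 2, 42, 4, 5, 1058, 7, 1051, 8, 9, 2571, 12, 13, 14, 15, 2578, 3624, 17, 19, 44, 22,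
    2596, 23, 24, 26, 28, 30, 31, 33, 35, 37, 39, 41, 43], [3589, 22, 520, 527, 514, 3591, 26, 0, 4,
    1559, 31, 1, 1555, 3081, 3, 526, 6, 12, 37, 1553, 1048, 10, 11, 3085, 3102, 2593, 16, 41, 3623,
    18, 20, 21, 3612, 2595, 43, 25, 27, 29, 44, 32, 34, 36, 38, 40, 42]]), ([0, 9, 9, 8, 17, 16,
    25], [], [[2, 4, 0, 5, 1, 3, 7, 6], [3, 7, 1, 6, 0, 2, 4, 5]])]
    (fun _ _ _ _ => true) = true := by
  decide +kernel

end Fr

variable {G : Type} [Group G]

/-- M11 (orbits 1 + 11 + 12). -/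
theorem nM11 (h : Spor G 7920 (wd con [[0, 1, 0, 0, 1, 1, 0, 0, 1], [2, 0, 1, 1, 2, 0, 2, 0, 1, 0]])
    (wd con [[0, 1, 0, 0, 1, 1, 0, 0, 1], [2, 0, 1, 1, 2, 0, 2, 0, 1, 0]]) 2) : ¬ Good G 3 :=
  Fr.fin 495 h Fr.e11 Fr.e11 (by decide)

theorem nM22 (h : Spor G 443520 (wd con [[0, 0, 1, 0, 1, 0, 1, 0], [0, 0, 1, 1, 0, 0, 1, 0]])
    (wd con [[0, 0, 1, 0, 1, 0, 1, 0], [0, 0, 1, 1, 0, 0, 1, 0]]) 2) : ¬ Good G 3 :=
  Fr.fin 3465 h Fr.e22 Fr.e22 (by decide)

theorem nM23 (h : Spor G 10200960 (wd con [[0], [1]]) (wd con [[0], [1]]) 2) : ¬ Good G 3 :=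
  Fr.fin 79695 h Fr.e23 Fr.e22 (by decide)

theorem nMcL (h : Spor G 898128000
    (wd con [[0, 0, 1, 0, 1, 0, 1, 0], [0, 0, 1, 1, 0, 0, 1, 0], [2, 3, 0, 1, 2, 1, 0, 2, 0, 1, 3]])
    (wd con [[0, 0, 1, 0, 1, 0, 1, 0], [0, 0, 1, 1, 0, 0, 1, 0], [2, 3, 0, 1, 2, 1, 0, 2, 0, 1, 3]]) 3) :
    ¬ Good G 3 :=
  Fr.fin 7016625 h Fr.eMc Fr.e22 (by decide)

end Pool.Agent.MP_c78e8e_al.Sp

end

-- part MP_c78e8e_al.Sp.Rows
section

namespace Pool.Agent.MP_c78e8e_al.Sp

variable {G : Type} [Group G]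

theorem tM11 (h : Spor G 7920 (wn con [211221121, 1213132213]) (wn con [211221121, 1213132213])
    2) :
    IsLeast {n | Good G n} 4 :=
  four_co (c := fun mu o g => wdC mu o g (List.map (fun c => dec c c) _)) (wdN _) h (by decide) (nM11 (by rw [wn_eq] at h; exact h)) (p :=
    [[0, 1, 1, 1, 2, 1, 2, 1, 1], [1, 0, 2], [1, 4, 3], [0, 1, 0, 1, 5], [1, 0, 2], [0, 7, 7, 7, 6,
    7], [1, 0, 5], [0, 0, 5, 1, 2], [1, 0, 3], [0, 3, 0], [1, 0, 7], [0, 0, 9, 1], [0, 10, 0], [0,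
    15, 14], [1, 0, 10], [0, 0, 13, 1, 2], [1, 0, 3], [0, 3, 0], [1, 0, 2], [0, 20, 21, 20, 20], [1,
    0, 10], [0, 1, 19, 0], [0, 24, 20, 19]]) (p' :=
    [[4, 0, 1, 16], [4, 1, 3, 8], [4, 2, 5, 31], [4, 3, 17, 11], [0, 4, 7], [0, 5, 7, 5], [0, 8, 9,
    8], [1, 2, 3], [0, 3, 3, 1, 3], [0, 4, 4, 3, 4, 2], [1, 1, 3], [1, 1, 3], [0, 1, 0, 3], [1, 0,
    3], [0, 0, 0], [0, 2, 3, 7, 17, 15, 17, 18, 16], [0, 1, 7, 7, 9, 11]])
    (i := 21) (j := 11) (m := 1) (n := 0) (by decide +kernel)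

theorem tM12 (h : Spor G 95040 (wn con [232, 11313]) (wn con [232, 11313]) 2) :
    IsLeast {n | Good G n} 3 :=
  three_co (c := fun mu o g => wdC mu o g (List.map (fun c => dec c c) _)) (wdN _) h (by decide) (p :=
    [[0, 2, 2, 1, 2, 1, 1, 1, 1], [1, 0, 3], [0, 4, 3, 3, 3], [1, 0, 7], [0, 2, 0, 2, 1], [1, 0, 2],
    [0, 3, 0], [0, 8, 8], [1, 0, 4], [0, 0, 7, 1, 2], [1, 0, 2], [0, 3, 0], [1, 0, 5], [0, 0, 11,
    1], [0, 16, 15, 16, 15, 15], [1, 0, 7], [0, 1, 14, 0]]) (p' :=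
    [[4, 0, 1, 8], [4, 1, 3, 7], [0, 2, 4, 2, 3, 4], [0, 5, 3, 5, 4, 3, 5, 3, 5], [1, 1, 7], [0, 1,
    2, 2, 1, 0, 0, 1], [0, 0, 1], [0, 2, 1, 4, 4, 4], [1, 1, 3], [1, 1, 3], [0, 1, 2], [0, 4, 4, 1,
    2, 2], [1, 1, 3], [0, 0, 0], [0, 0, 2, 9, 9, 10, 9, 16, 15, 16], [0, 1, 4, 10, 10, 9, 12, 15]])
    (i := 15) (j := 3) (m := 0) (by decide +kernel)

theorem tM22 (h : Spor G 443520 (wn con [12121211, 12112211]) (wn con [12121211, 12112211]) 2) :
    IsLeast {n | Good G n} 4 :=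
  four_co (c := fun mu o g => wdC mu o g (List.map (fun c => dec c c) _)) (wdN _) h (by decide) (nM22 (by rw [wn_eq] at h; exact h)) (p :=
    [[0, 2, 1, 1], [1, 0, 3], [0, 4, 4, 3, 4, 3, 4], [1, 0, 3], [0, 2, 0, 2, 1], [1, 0, 3], [0, 7,
    7, 7, 8, 8], [1, 0, 6], [0, 0, 6, 1, 2], [1, 0, 3], [0, 3, 0], [1, 0, 4], [0, 0, 10, 1], [0, 11,
    0], [0, 15, 15, 16, 15], [1, 0, 3], [0, 0, 14, 1, 2], [1, 0, 3], [0, 3, 0], [1, 0, 3], [0, 22,
    22, 21], [1, 0, 10], [0, 1, 20, 0], [0, 25, 24, 24, 24], [1, 0, 3], [0, 1, 23, 0]]) (p' :=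
    [[4, 0, 1, 18], [4, 1, 3, 10], [4, 2, 5, 8], [4, 3, 19, 13], [0, 4, 7, 4], [0, 7, 6, 8, 7, 5],
    [1, 0, 4], [0, 2, 1], [0, 9, 3, 9], [0, 10, 2, 10, 4], [1, 2, 2], [1, 1, 4], [0, 1, 2, 3], [0,
    3, 3, 4, 5], [0, 2, 2, 3, 4], [1, 2, 2], [1, 2, 2], [0, 3, 4], [0, 1, 2], [0, 4, 3], [0, 0, 4,
    12, 8, 9, 14, 21, 14, 14, 22, 20, 21], [0, 3, 2, 1, 5, 13, 9, 22, 23, 22, 23, 24]])
    (i := 24) (j := 13) (m := 3) (n := 0) (by decide +kernel)

theorem tM23 (h : Spor G 10200960 (wn con [1, 2]) (wn con [1, 2]) 2) :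
    IsLeast {n | Good G n} 4 :=
  four_co (c := fun mu o g => wdC mu o g (List.map (fun c => dec c c) _)) (wdN _) h (by decide) (nM23 (by rw [wn_eq] at h; exact h)) (p :=
    [[0, 2, 1, 2, 2, 1, 1, 2], [1, 0, 7], [0, 3, 3], [1, 0, 22], [0, 2, 0, 2, 1], [1, 0, 2], [0, 8,
    7, 8, 8, 8], [1, 0, 6], [0, 0, 6, 1, 2], [1, 0, 3], [0, 3, 0], [1, 0, 10], [0, 0, 10, 1], [0,
    11, 0], [1, 16, 4], [0, 0, 13, 17, 1], [1, 0, 3], [0, 19, 0], [1, 0, 4], [0, 20, 21, 20, 21],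
    [1, 0, 4], [0, 1, 19, 0], [0, 24, 20, 7]]) (p' :=
    [[4, 0, 1, 15], [4, 1, 3, 8], [4, 2, 5, 31], [4, 3, 16, 11], [0, 5, 6, 4, 7, 4, 6, 5], [0, 6, 7,
    8, 6, 8, 7, 5, 7], [1, 0, 6], [0, 1, 7, 0], [0, 2, 2, 3], [1, 0, 6], [0, 2, 0, 2, 1, 2], [0, 1,
    3, 1, 1, 1], [0, 3, 3, 4, 2, 4, 2, 4, 3], [1, 1, 4], [1, 1, 2], [0, 4, 2], [0, 4, 4, 3, 2, 2],
    [0, 5, 4, 5, 2, 5], [1, 2, 2], [1, 2, 2], [1, 2, 2], [0, 1, 2], [0, 4, 6], [0, 2, 4], [0, 2, 0,
    12, 12, 15, 15, 17, 26, 24, 27, 24, 27], [0, 3, 2, 6, 14, 13, 16, 16, 20, 26, 28, 26, 27]])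
    (i := 21) (j := 10) (m := 1) (n := 0) (by decide +kernel)

theorem tM24 (h : Spor G 244823040 (wn con [1, 2, 3]) (wn con [1, 2, 3]) 3) :
    IsLeast {n | Good G n} 3 :=
  three_co (c := fun mu o g => wdC mu o g (List.map (fun c => dec c c) _)) (wdN _) h (by decide) (p :=
    [[0, 1, 2, 3, 2, 1], [1, 0, 6], [0, 5, 4, 5, 4, 3, 5], [1, 0, 3], [0, 2, 0, 2, 1], [1, 0, 6],
    [1, 7, 22], [0, 0, 5, 8, 1], [1, 0, 6], [0, 10, 0], [1, 0, 11], [0, 0, 9, 1], [0, 14, 15], [1,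
    0, 9], [0, 1, 12, 0]]) (p' :=
    [[4, 0, 1, 8], [4, 1, 3, 7], [0, 4, 2, 3, 4, 3, 4], [0, 3, 5, 4, 5, 3, 4, 5, 3, 5], [1, 1, 4],
    [1, 1, 13], [0, 2, 2, 3, 0, 0], [1, 0, 4], [0, 1, 3, 0, 3, 1], [1, 0, 4], [0, 1, 7, 7, 1, 7],
    [0, 6, 1, 8, 1, 1, 8], [1, 1, 4], [1, 1, 3], [0, 2, 2, 1, 0], [0, 4, 4, 3, 2], [0, 3, 3, 4, 5,
    2], [1, 2, 2], [0, 2, 0], [0, 2, 1], [0, 5, 4, 5], [0, 6, 4, 6], [0, 2, 1, 7, 8, 9, 9, 17, 12,
    15, 19, 14, 19, 16, 17, 18, 22, 24, 22, 24, 22], [0, 4, 2, 8, 10, 18, 13, 13, 15, 18, 15, 19,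
    19, 19, 20, 20, 23, 24, 25], [0, 5, 4, 3, 2, 11, 12, 21, 14, 16, 16, 19, 17, 20, 20, 20, 21, 21,
    25, 26]])
    (i := 13) (j := 3) (m := 0) (by decide +kernel)

theorem tJ2 (h : Spor G 604800 (wn con [2423142412211123122241314132324,
    2423142412211143142411311313211224]) (wn con [2423142412211123122241314132324,
    2423142412211143142411311313211224]) 2) :
    IsLeast {n | Good G n} 3 :=
  three_co (c := fun mu o g => wdC mu o g (List.map (fun c => dec c c) _)) (wdN _) h (by decide) (p :=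
    [[0, 1, 1, 2, 1, 2], [1, 0, 3], [0, 3, 3, 4, 4, 3, 4], [1, 0, 5], [0, 2, 0, 2, 1], [1, 0, 5],
    [0, 8, 8, 7], [1, 0, 6], [0, 0, 6, 1, 2], [1, 0, 8], [0, 3, 0], [1, 0, 5], [0, 0, 10, 1], [0,
    14, 14, 15, 15, 15], [1, 0, 9], [0, 1, 13, 0]]) (p' :=
    [[4, 0, 1, 8], [4, 1, 3, 7], [1, 2, 3], [1, 4, 3], [1, 6, 3], [0, 5, 5], [3, 0], [0, 7, 8, 9, 7,
    9, 7, 8, 9, 7, 9, 8, 9, 7, 3, 2, 4, 2, 3, 2, 3, 2, 4, 2, 4], [0, 10, 8, 10, 9, 10, 9, 10, 8, 10,
    8, 9, 10, 9, 3, 5, 3, 4, 3, 5, 3, 5, 3, 4, 3, 4], [0, 11, 10, 11, 9, 11, 10, 11, 9, 11, 9, 10,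
    11, 10, 4, 6, 4, 6, 4, 5, 4, 5, 6, 4, 6, 4, 6], [0, 10, 12, 11, 12, 11, 12, 10, 12, 10, 11, 12,
    11, 12, 11, 12, 6, 5, 6, 5, 6, 7, 5, 6, 5, 6, 7, 5, 7, 5], [1, 0, 3], [0, 3, 2, 1], [0, 5, 1,
    13, 14, 15, 14, 15, 13, 15, 14, 15, 13, 14, 15, 13, 15, 14, 15, 13, 15, 14, 8], [0, 1, 6, 6, 16,
    14, 15, 16, 15, 16, 14, 15, 16, 15, 16, 15, 16, 14, 16, 11]])
    (i := 14) (j := 3) (m := 0) (by decide +kernel)

theorem tHS (h : Spor G 44352000 (wn con [12121211, 12112211, 142111123141431]) (wn con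
    [12121211, 12112211, 142111123141431]) 3) :
    IsLeast {n | Good G n} 3 :=
  three_co (c := fun mu o g => wdC mu o g (List.map (fun c => dec c c) _)) (wdN _) h (by decide) (p :=
    [[0, 1, 3, 1, 1, 3], [1, 0, 5], [0, 5, 5], [1, 0, 10], [0, 2, 0, 2, 1], [1, 0, 5], [0, 9, 9, 8,
    9, 8, 8], [1, 0, 5], [0, 0, 6, 1, 2], [1, 0, 8], [0, 3, 0], [1, 0, 10], [0, 0, 10, 1], [0, 14,
    15], [1, 0, 4], [0, 1, 13, 0]]) (p' :=
    [[4, 0, 1, 8], [4, 1, 3, 7], [0, 4, 2, 4, 3, 4, 2, 4, 2, 4, 2, 4, 3, 4, 2, 4], [0, 5, 3, 4, 5,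
    3, 4, 5, 4, 5, 4, 5, 4, 3, 5, 3, 5, 3], [0, 5, 6, 5, 6, 4, 5, 6, 5, 6, 5, 6, 5, 4, 6, 5, 6, 5],
    [1, 1, 4], [0, 0, 3, 0], [0, 2, 4, 1, 4, 2], [0, 3, 4, 5, 4, 5], [1, 2, 3], [1, 2, 4], [1, 2,
    7], [0, 4, 0, 1, 1], [0, 2, 1, 6, 2], [0, 6, 6, 11, 9, 8, 8, 14, 16, 14, 15, 16, 14, 15, 16, 15,
    16, 14, 16, 15], [0, 2, 8, 4, 5, 11, 10, 16, 17, 15, 17, 15, 17, 15, 16, 17, 16, 17, 16, 17,
    16], [0, 2, 8, 6, 5, 10, 11, 13, 16, 18, 16, 18, 17, 18, 16, 18, 16, 18, 16, 18, 16]])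
    (i := 14) (j := 3) (m := 0) (by decide +kernel)

theorem tMcL (h : Spor G 898128000 (wn con [12121211, 12112211, 42131232143]) (wn con [12121211,
    12112211, 42131232143]) 3) :
    IsLeast {n | Good G n} 4 :=
  four_co (c := fun mu o g => wdC mu o g (List.map (fun c => dec c c) _)) (wdN _) h (by decide) (nMcL (by rw [wn_eq] at h; exact h)) (p :=
    [[0, 3, 3], [1, 3, 6], [0, 1, 0, 1, 4], [1, 0, 3], [0, 5, 5], [1, 0, 6], [0, 0, 5, 1, 2], [1, 0,
    2], [0, 3, 0], [1, 0, 6], [0, 0, 9, 1], [0, 10, 0], [1, 13, 6], [0, 0, 12, 14, 1], [1, 0, 3],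
    [0, 16, 0], [1, 0, 5], [0, 20, 19, 19], [1, 0, 6], [0, 1, 18, 0], [0, 22, 23, 22, 22], [1, 0,
    6], [0, 1, 21, 0]]) (p' :=
    [[4, 0, 1, 17], [4, 1, 3, 10], [4, 2, 5, 8], [4, 3, 18, 13], [0, 6, 5, 6], [0, 8, 6, 7, 5, 8, 6,
    7, 6], [0, 6, 7, 9, 6, 7, 9, 6, 8, 9], [1, 1, 3], [1, 1, 10], [0, 4, 2], [0, 5, 4, 3, 2, 1], [0,
    4, 6, 3, 4, 3], [1, 2, 6], [1, 2, 5], [0, 4, 0, 0, 1], [0, 5, 5, 4, 4, 5], [1, 1, 2], [0, 0, 1,
    2], [0, 2, 1, 6, 4, 4, 10, 9, 9, 9, 9, 19, 20, 19, 20, 21, 20, 18], [0, 3, 9, 9, 14, 11, 14, 19,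
    20, 22, 19, 21, 22, 20, 22, 21, 22, 19], [0, 2, 5, 4, 8, 6, 10, 14, 14, 15, 11, 15, 21, 23, 21,
    23, 22, 21, 23]])
    (i := 22) (j := 12) (m := 3) (n := 0) (by decide +kernel)

theorem tSuz (h : Spor G 448345497600 (wn con [111314, 1222121124]) (wn con [111314,
    1222121124]) 2) :
    IsLeast {n | Good G n} 3 :=
  three_co (c := fun mu o g => wdC mu o g (List.map (fun c => dec c c) _)) (wdN _) h (by decide) (p :=
    [[0, 1, 2, 1, 1, 2], [1, 0, 6], [0, 3, 4, 3, 4, 3, 4], [1, 0, 10], [0, 2, 0, 2, 1], [1, 0, 5],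
    [0, 8, 7, 8], [1, 0, 5], [0, 0, 6, 1, 2], [1, 0, 7], [0, 3, 0], [1, 0, 20], [0, 0, 10, 1], [0,
    14, 14, 15], [1, 0, 38], [0, 1, 13, 0]]) (p' :=
    [[4, 0, 1, 8], [4, 1, 3, 7], [1, 2, 3], [1, 4, 3], [1, 6, 3], [0, 5, 5], [3, 0], [1, 4, 3], [1,
    4, 3], [0, 11, 9, 11, 10, 11, 9, 11, 9, 10, 11, 10, 11, 1, 4, 5, 6, 4, 5, 4, 5, 6, 4, 5], [0,
    10, 12, 10, 12, 11, 12, 10, 12, 10, 12, 10, 12, 1, 5, 6, 5, 7, 5, 6, 5, 6, 7, 5, 7], [1, 1, 4],
    [1, 1, 11], [0, 1, 1, 0, 1, 2, 3, 0, 0, 1, 1], [0, 2, 2, 1, 1, 1, 2, 3, 2, 3, 2], [1, 1, 5], [1,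
    1, 4], [0, 2, 2, 3, 3, 0, 0], [0, 4, 1, 2, 3, 3, 4, 1], [0, 3, 2, 5, 4, 3, 2, 2], [1, 2, 2], [1,
    1, 2], [0, 0, 1], [0, 0, 4], [0, 0, 3, 4, 8, 9, 10, 10, 9, 13, 13, 14, 13, 12, 12, 11, 26, 25,
    26, 24, 25, 26, 24, 25, 26, 25, 26, 24, 26, 25, 26, 24, 20], [0, 1, 6, 4, 5, 11, 8, 11, 11, 15,
    14, 13, 12, 12, 13, 27, 26, 27, 25, 27, 25, 26, 27, 25, 27, 26, 27, 25, 27, 25, 27, 25, 27, 26,
    27, 26]])
    (i := 14) (j := 3) (m := 0) (by decide +kernel)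

theorem tCo3 (h : Spor G 495766656000 (wn con [1, 2, 411211314]) (wn con [1, 2, 411211314]) 3) :
    IsLeast {n | Good G n} 3 :=
  three_co (c := fun mu o g => wdC mu o g (List.map (fun c => dec c c) _)) (wdN _) h (by decide) (p :=
    [[0, 2, 3, 1, 1, 2, 1], [1, 0, 11], [0, 4, 4, 5, 3, 4], [1, 0, 6], [0, 2, 0, 2, 1], [1, 0, 7],
    [0, 3, 0], [1, 0, 5], [0, 11, 9], [1, 0, 23], [0, 0, 8, 1, 2], [1, 0, 3], [0, 3, 0], [1, 0, 23],
    [0, 0, 12, 1], [0, 17, 17, 18, 16, 17], [1, 0, 6], [0, 1, 15, 0]]) (p' :=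
    [[4, 0, 1, 8], [4, 1, 3, 7], [0, 3, 4, 2, 4, 2, 3, 4, 3, 4, 2, 3, 4, 2, 4, 2, 4, 2, 4, 2], [0,
    5, 3, 4, 5, 3, 5, 3, 5, 3, 5, 3, 5, 4, 5, 4, 3, 5, 4, 3], [1, 1, 19], [1, 1, 11], [0, 1, 1, 2,
    3, 2, 3, 2], [0, 3, 4, 1, 4, 3, 2, 2, 1], [1, 1, 7], [1, 1, 2], [0, 1, 1, 2, 3, 2], [0, 1, 4, 4,
    3, 2, 1], [1, 1, 7], [1, 1, 7], [0, 1, 1, 0], [0, 1, 4, 3, 3, 4], [1, 1, 3], [1, 1, 3], [0, 0,
    0], [0, 2, 8, 7, 12, 9, 10, 10, 16, 15, 16, 15, 15, 15, 19, 21, 20, 21, 20, 21, 19, 20, 21, 19,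
    21, 20, 21], [0, 1, 7, 8, 13, 10, 11, 12, 17, 16, 17, 16, 15, 15, 14, 22, 20, 22, 20, 22, 20,
    22, 20, 21, 22, 20, 22, 20, 21, 22], [0, 2, 6, 6, 7, 10, 10, 14, 13, 18, 17, 18, 18, 22, 23, 21,
    23, 21, 22, 23, 21, 22, 23, 22, 23, 22, 23, 22, 23]])
    (i := 16) (j := 3) (m := 0) (by decide +kernel)

theorem tCo2 (h : Spor G 42305421312000 (wn con [1, 2, 3141432413]) (wn con [1, 2, 3141432413])
    3) :
    IsLeast {n | Good G n} 3 :=
  three_co (c := fun mu o g => wdC mu o g (List.map (fun c => dec c c) _)) (wdN _) h (by decide) (p :=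
    [[0, 1, 1, 3, 2, 2, 3], [1, 0, 5], [0, 4, 3], [1, 0, 4], [0, 2, 0, 2, 1], [1, 0, 10], [0, 8, 9,
    8, 9, 9], [1, 0, 7], [0, 0, 6, 1, 2], [1, 0, 8], [0, 3, 0], [1, 0, 19], [0, 0, 10, 1], [0, 15,
    15, 14, 16], [1, 0, 17], [0, 1, 13, 0]]) (p' :=
    [[4, 0, 1, 8], [4, 1, 3, 7], [0, 4, 3, 4, 3, 4, 2, 4, 3, 4, 2, 4, 3, 2, 4, 2, 4, 3, 4, 3, 4],
    [0, 5, 3, 5, 4, 5, 3, 4, 5, 3, 5, 3, 5, 4, 5, 4, 5, 4, 5, 4, 5, 4, 5, 3], [1, 1, 8], [1, 1, 11],
    [0, 2, 1, 2, 2, 2, 2, 2], [0, 2, 3, 3, 4, 3, 2, 2, 1, 2, 2], [1, 1, 6], [1, 1, 4], [0, 2, 3, 0,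
    1, 1, 0], [0, 2, 1, 2, 2, 3, 4, 1, 2], [1, 1, 3], [0, 1, 2, 1, 0, 1], [0, 1, 2, 3, 2, 3, 3, 2,
    1, 1, 2, 1, 2, 3], [0, 4, 4, 3, 4, 4, 3, 2, 3, 4, 3, 2, 2, 3, 2, 2], [0, 4, 5, 5, 4, 3, 4, 5, 5,
    4, 3, 3, 4, 5, 4, 3, 3], [0, 3, 2, 1, 0, 6, 6, 5, 4, 5, 4, 5, 10, 9, 9, 8, 7, 10, 14, 14, 11,
    11, 14, 14, 11, 19, 17, 19, 17, 18, 19, 17, 18, 19, 17, 19, 17, 19, 18, 19, 17, 19], [0, 3, 2,
    1, 7, 7, 6, 9, 9, 9, 10, 9, 8, 12, 12, 15, 14, 15, 20, 18, 19, 20, 19, 20, 18, 20, 19, 20, 19,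
    20, 18, 19, 20, 19], [0, 2, 8, 8, 7, 6, 7, 8, 8, 7, 12, 9, 12, 11, 11, 16, 13, 16, 13, 16, 13,
    19, 21, 19, 20, 21, 19, 21, 19, 20, 21, 20, 21, 20, 21, 19, 20, 21, 20, 21, 20]])
    (i := 14) (j := 3) (m := 0) (by decide +kernel)

theorem tCo1 (h : Spor G 4157776806543360000 (wn con [1, 2, 3, 4]) (wn con [1, 2, 3, 4]) 4) :
    IsLeast {n | Good G n} 3 :=
  three_co (c := fun mu o g => wdC mu o g (List.map (fun c => dec c c) _)) (wdN _) h (by decide) (p :=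
    [[0, 3, 4, 2, 1, 3, 3, 4, 1], [1, 0, 11], [0, 6, 4, 5, 6, 6], [1, 0, 13], [0, 2, 0, 2, 1], [1,
    0, 10], [0, 3, 0], [1, 0, 10], [0, 11, 12, 11, 11, 9, 11, 9], [1, 0, 29], [0, 0, 8, 1, 2], [1,
    0, 8], [0, 3, 0], [1, 0, 23], [0, 0, 12, 1], [0, 19, 17, 18, 16, 18], [1, 0, 13], [0, 1, 15, 0]]) (p' :=
    [[4, 0, 1, 8], [4, 1, 3, 7], [0, 2, 4, 3, 4, 3, 4, 3, 4, 3, 4, 2, 3, 4, 2, 4, 3, 2, 4, 2, 4, 2,
    4, 2, 4, 3], [0, 4, 5, 4, 5, 4, 5, 3, 5, 4, 5, 3, 5, 4, 5, 3, 5, 4, 3, 5, 3, 5, 4, 3, 5, 3, 5,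
    4], [1, 1, 13], [1, 1, 17], [0, 3, 0, 1, 1, 2], [0, 2, 3, 3, 3, 2, 3, 2], [1, 1, 4], [1, 1, 8],
    [0, 3, 0, 3, 3, 0, 1, 1, 0], [0, 2, 1, 4, 4, 3, 2, 1, 1, 2], [1, 1, 9], [1, 1, 9], [0, 1, 2, 1],
    [0, 3, 4, 3, 2, 2], [0, 5, 4, 5, 2, 2, 2, 3], [1, 2, 4], [1, 2, 6], [1, 2, 4], [0, 5, 1, 0, 2],
    [0, 5, 5, 1, 5, 6], [1, 1, 3], [1, 1, 6], [0, 1, 1], [0, 4, 3, 2, 1], [0, 4, 3, 3, 4], [1, 1,
    3], [1, 1, 2], [0, 3, 4, 0], [0, 0, 6, 12, 10, 10, 16, 17, 18, 19, 18, 19, 23, 22, 22, 21, 21,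
    20, 20, 27, 27, 24, 25, 25, 25, 26, 32, 31, 32, 30, 31, 32, 30, 31, 32, 30, 32, 30, 32, 31, 32,
    30, 31, 32, 30, 32, 30, 32, 31], [0, 6, 4, 10, 7, 15, 15, 14, 19, 18, 19, 20, 17, 17, 22, 23,
    24, 23, 23, 27, 27, 26, 26, 25, 26, 27, 31, 33, 31, 33, 31, 32, 33, 31, 33, 31, 33, 31, 32, 33,
    31, 32, 33, 31, 33, 31, 33, 32, 33], [0, 7, 4, 10, 9, 14, 13, 21, 20, 21, 20, 21, 20, 25, 25,
    24, 25, 25, 22, 25, 25, 27, 28, 29, 29, 26, 26, 29, 32, 34, 32, 34, 33, 34, 33, 34, 33, 34, 33,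
    34, 33, 34, 32, 34, 33, 34, 33, 34, 32, 33, 34], [0, 8, 12, 9, 16, 17, 13, 20, 20, 19, 22, 19,
    22, 26, 23, 23, 23, 24, 30, 29, 28, 29, 29, 29, 29, 34, 35, 33, 35, 33, 34, 35, 34, 35, 33, 35,
    34, 35, 34, 35, 34, 35, 34, 35, 33, 34, 35, 33]])
    (i := 16) (j := 3) (m := 0) (by decide +kernel)

theorem tFi22 (h : Spor G 64561751654400
    (rot 3 3 2) (rot 3 3 2) (3 + 3 + 2)) : IsLeast {n | Good G n} 3 :=
  three_Y h (by decide) (u :=
    [[0, 8, 5, 6, 5, 2, 3, 2], [1, 5, 2], [0, 10, 0, 7, 8, 7, 6, 4, 5, 4], [1, 4, 2], [1, 11, 2],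
    [0, 1, 0, 13, 1, 0, 10, 7, 1], [0, 8, 4, 11, 11, 12, 8, 12], [0, 8, 14, 10, 13]]) (u' :=
    [[4, 0, 1, 5], [4, 1, 3, 5], [0, 4, 2, 4, 2, 4, 2, 4, 2, 4, 2, 4, 2, 4], [0, 4, 0, 3, 4, 0, 4,
    3, 0, 4, 3, 0, 4], [0, 6, 0, 6, 4, 6, 4, 6, 4, 6, 0, 6], [0, 6, 5], [0, 1, 6], [1, 0, 14], [0,
    0, 0, 0], [0, 1, 3, 2, 3], [1, 1, 4], [0, 1, 2, 1, 0, 1], [0, 0, 3, 0, 1, 0], [0, 2, 2, 0, 2],
    [1, 0, 2], [0, 1, 2], [1, 0, 2], [0, 1, 2, 4, 6, 4], [0, 1, 3, 5, 7, 5, 6, 9, 9], [0, 6, 7, 10,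
    9, 8, 9], [0, 5, 9, 8, 11, 10, 9, 10, 13], [0, 6, 8, 10, 9, 12, 11, 10, 11, 13, 21], [0, 24, 9,
    24, 5, 24], [0, 25, 23, 25, 23, 25], [1, 1, 5], [0, 1, 0], [0, 3, 3, 3], [0, 2, 3, 4, 4, 3, 4],
    [1, 2, 14], [1, 1, 2], [0, 4, 3, 4], [0, 2, 1, 5], [1, 1, 3], [1, 1, 2], [0, 3, 2, 1], [1, 0,
    2], [0, 4, 1, 2], [0, 1, 3, 2], [1, 1, 2], [1, 1, 2], [0, 0, 1, 9, 17]])
    (i := 7) (j := 5) (m := 2) (by decide +kernel)

theorem tFi23 (h : Spor G 4089470473293004800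
    (rot 4 3 2) (rot 4 3 2) (4 + 3 + 2)) : IsLeast {n | Good G n} 3 :=
  three_Y h (by decide) (u :=
    [[0, 9, 6, 7, 6, 3, 4, 3, 1], [1, 2, 2], [1, 7, 2], [0, 9, 10, 6, 5, 1, 0, 9, 5, 6, 7, 1, 5, 6,
    4, 5, 4], [1, 12, 2], [0, 0, 14, 0, 12, 2, 6, 7, 8, 7, 6], [0, 4, 8, 9, 8, 4, 12, 3, 12, 13, 14,
    8, 13, 12, 8, 15, 1, 4, 8, 4, 14, 15, 7, 12, 13, 4, 15, 1, 7, 9, 13], [0, 5, 9, 2, 8, 2, 16, 5,
    11, 10, 8, 16, 15, 5, 4, 13, 14, 10, 11, 14, 13, 8, 8, 2, 16, 5, 13, 14, 8, 4, 13, 5, 16, 2, 8,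
    11, 10, 5, 15, 16, 8, 9, 8, 9, 16, 2, 9, 13, 12, 15, 16, 9, 14, 13, 9, 16, 2, 5, 9, 5, 15, 16,
    8, 13, 14, 5, 16, 2, 8, 10, 14]]) (u' :=
    [[4, 0, 1, 5], [4, 1, 3, 5], [0, 4, 2, 4, 2, 4], [0, 4, 0, 4, 3, 0, 4], [0, 6, 0, 4, 6], [1, 0,
    5], [0, 7, 3, 1, 7, 0, 7], [0, 2, 4, 8, 4, 7, 1], [1, 1, 5], [0, 0, 0], [0, 3, 2], [0, 7, 13,
    7], [1, 2, 2], [0, 13, 1, 0, 13, 10, 0, 1, 13], [0, 14, 2, 4, 14, 1, 2, 14, 1, 2, 14], [1, 1,
    3], [1, 1, 5], [0, 0, 4, 2, 7, 2], [1, 0, 5], [0, 0, 3], [0, 6, 6, 1, 4, 4], [1, 1, 14], [1, 1,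
    5], [0, 3, 3, 2], [0, 4, 1, 4], [0, 3, 3, 2], [1, 1, 3], [0, 2, 1, 0], [0, 1, 4, 3], [0, 5, 1],
    [1, 0, 2], [0, 0, 7], [0, 2, 3, 8, 7, 8], [0, 3, 8, 12], [0, 4, 5, 10, 9, 10, 20, 20], [0, 4,
    11, 10, 11, 14, 19, 18, 22], [0, 12, 7, 9, 15, 20, 36], [1, 26, 9], [0, 26, 0], [0, 1, 1], [1,
    1, 8], [1, 1, 4], [0, 1, 2, 2, 3, 0, 1, 1, 2, 3], [1, 0, 4], [0, 2, 1, 2], [0, 5, 2, 3, 1, 3],
    [1, 0, 4], [0, 2, 2, 1, 2], [1, 0, 4], [0, 2, 1], [0, 3, 1, 3], [1, 0, 2], [0, 2, 1, 1], [0, 0,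
    1]])
    (i := 7) (j := 4) (m := 2) (by decide +kernel)

theorem tFi24 (h : Spor G 1255205709190661721292800
    (rot 4 4 2) (rot 4 4 2) (4 + 4 + 2)) : IsLeast {n | Good G n} 3 :=
  three_Y h (by decide) (u :=
    [[1, 9, 2], [1, 6, 2], [0, 1, 12, 1, 7, 8, 9, 0, 8, 0, 6], [0, 1, 2, 13, 11, 10, 9, 8, 12, 1, 9,
    10, 11, 1, 9, 8, 5], [1, 5, 2], [0, 13, 10, 11, 10, 8, 9, 0, 7, 8, 6], [0, 11, 14, 13, 12, 4,
    15, 14, 13, 9, 8, 13, 14, 12, 13, 7, 7, 5, 16, 1, 13, 12, 7, 16, 15, 1, 14, 13, 7, 5, 16, 1, 10,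
    9, 7, 16, 15, 1, 13, 14, 7, 5, 16, 1, 12, 13, 7, 16, 15, 1, 11, 12, 7, 5, 16, 1, 8, 1, 8, 16,
    15, 8, 12, 4, 5, 16, 8, 13, 12, 8, 16, 15, 14, 13, 5, 16, 8, 5, 4, 8, 13, 14, 8, 1, 8, 1, 14,
    13, 7, 12, 11, 1, 1, 9, 10, 8, 9, 5, 8, 11, 12, 8, 16, 15, 8, 13, 14, 8, 5, 16, 8, 9, 8, 7, 16,
    15, 1, 14, 13, 7, 5, 16, 1, 12, 4, 7, 16, 15, 10, 9, 5, 16, 1, 11, 12, 7, 16, 15, 1, 13, 14, 7,
    5, 16, 1, 12, 4, 16], [0, 2, 10, 5, 5, 13, 9, 14, 15, 9, 2, 9, 2, 15, 14, 8, 13, 12, 2, 2, 10,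
    11, 9, 10, 6, 9, 12, 13, 9, 17, 16, 9, 14, 15, 9, 6, 17, 9, 10, 9, 8, 17, 16, 2, 15, 14, 8, 6,
    17, 2, 13, 5, 8, 17, 16, 11, 10, 6, 17, 2, 12, 13, 8, 17, 16, 2, 14, 15, 8, 6, 17, 2, 13, 5,
    17]]) (u' :=
    [[4, 0, 1, 5], [4, 1, 3, 5], [0, 4, 2, 4, 2, 4, 2, 4], [0, 3, 4, 0, 3, 4, 0, 4, 3, 0, 4, 3, 0,
    4, 3], [0, 4, 5, 1, 4, 5, 1, 4, 1, 5, 1, 4, 1, 5, 4, 1, 5, 4], [0, 7, 1, 7, 1, 0, 7, 0, 7, 1, 7,
    1, 7, 1, 0, 7, 1, 0, 1, 7], [0, 1, 2], [0, 3, 9, 3], [1, 1, 5], [0, 11, 2], [0, 3, 12, 1], [0,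
    4, 4, 3, 2, 2], [0, 1, 0], [0, 3, 3, 3, 2], [1, 1, 2], [1, 1, 6], [0, 0, 0, 1, 2, 3, 2, 2], [1,
    0, 6], [0, 0, 5, 0], [0, 2, 6, 2, 2, 2], [1, 1, 4], [1, 1, 2], [0, 3, 2], [0, 4, 10, 2], [1, 1,
    4], [1, 1, 2], [0, 2, 1], [0, 1, 4], [1, 1, 2], [1, 1, 2], [0, 0, 1], [1, 0, 2], [0, 0, 4], [0,
    1, 6, 8, 8], [0, 3, 5, 9, 15, 15], [0, 14, 17, 17], [0, 4, 7, 13, 13, 17, 17, 19, 19, 20], [0,
    9, 20, 21, 26, 27, 26], [0, 6, 10, 15, 15, 17, 16, 21, 25, 20, 22, 22, 22, 40], [0, 10, 16, 22,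
    41, 30, 30, 35], [1, 34, 5], [0, 35, 38, 0], [0, 42, 36, 39, 43], [1, 0, 19], [0, 2, 1], [0, 3,
    10, 3], [0, 3, 3, 11, 4, 2], [1, 2, 9], [0, 1, 0], [0, 4, 3, 1], [0, 2, 3, 5], [1, 0, 3], [0, 1,
    3], [0, 3, 1, 3], [0, 2, 5, 3], [1, 2, 5], [1, 2, 3], [0, 0, 1], [0, 3, 2], [0, 5, 6, 2], [1, 0,
    5], [0, 3, 0, 0], [1, 0, 3], [0, 0, 4], [1, 0, 2], [0, 0, 7, 12, 13, 20, 22, 23]])
    (i := 5) (j := 4) (m := 2) (by decide +kernel)

theorem tB (h : Spor G 4154781481226426191177580544000000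
    (rot 5 3 3) (rot 5 3 3) (5 + 3 + 3)) : IsLeast {n | Good G n} 3 :=
  three_Y h (by decide) (u :=
    [[1, 6, 2], [1, 2, 2], [0, 12, 13, 12, 10, 1, 4, 5, 6, 7, 4, 5, 6, 0, 4, 5, 4], [1, 12, 2], [0,
    0, 14, 0, 11, 12, 10, 11, 9, 2, 6, 7, 5, 6, 5], [0, 16, 6, 11, 12, 13, 9, 8, 7, 6, 11, 12, 9, 8,
    7, 3, 4, 8, 9, 10, 3, 7, 8, 9, 3, 7, 8, 6, 7, 3], [0, 4, 8, 13, 15, 4, 8, 10, 11, 9, 17], [0, 8,
    9, 10, 9, 5, 11, 10, 9, 5, 13, 14, 17, 18, 5, 9, 11, 12, 10, 18]]) (u' :=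
    [[4, 0, 1, 5], [4, 1, 3, 5], [0, 4, 2, 4, 2, 4, 2, 4, 2, 4], [0, 4, 0, 4, 0, 4], [0, 4, 6, 4, 6,
    4, 0, 6, 4, 6, 4], [0, 5, 7, 1, 7, 5, 7, 1, 7, 5, 7], [1, 0, 2], [0, 8, 7], [1, 3, 5], [0, 1, 0,
    2, 0, 1, 3, 1, 2, 4, 1], [0, 3, 11], [1, 1, 11], [0, 12, 0], [0, 13, 15, 13], [1, 1, 14], [0, 1,
    2, 1], [1, 0, 14], [0, 4, 1, 2, 2, 2], [1, 0, 8], [0, 3, 0, 3], [0, 1, 4, 2], [1, 1, 6], [0, 2,
    1], [0, 3, 3, 2, 1], [1, 1, 3], [1, 1, 3], [0, 3, 3, 0], [0, 2, 3, 4], [1, 1, 2], [1, 1, 3], [0,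
    3, 0], [0, 4, 3, 4], [1, 1, 2], [1, 1, 2], [0, 3, 2, 1], [0, 2, 3, 4], [1, 1, 2], [1, 1, 2], [0,
    0, 3], [0, 0, 4], [0, 1, 3, 6], [0, 10, 11, 12], [0, 7, 9, 19, 18], [0, 8, 11, 13, 14, 18, 21],
    [0, 5, 10, 15, 18, 24, 24, 24, 27], [0, 6, 13, 15, 16, 25, 29, 27, 28, 32], [0, 7, 14, 23, 22,
    25, 24, 28, 33, 33, 30, 32], [0, 12, 15, 26, 25, 26, 29, 32, 31, 34, 49], [1, 37, 11], [0, 44,
    44, 44], [0, 39, 45, 11, 1], [0, 40, 42, 42, 2], [1, 1, 5], [0, 1, 0], [0, 3, 4, 1], [0, 2, 5,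
    2, 2, 5, 4], [1, 0, 2], [0, 0, 2], [0, 2, 4, 1], [0, 4, 5, 2, 5, 4], [1, 0, 2], [0, 3, 2, 3],
    [0, 3, 1, 3], [1, 0, 2], [0, 2, 0, 2], [1, 0, 2], [0, 1, 5, 0], [0, 6, 4, 7], [0, 5, 1, 4], [1,
    1, 2], [1, 1, 2], [0, 3, 0, 1], [0, 3, 4, 1], [1, 1, 2], [0, 2, 1, 0, 13, 18]])
    (i := 5) (j := 3) (m := 2) (by decide +kernel)

theorem tM (h : Spor G 808017424794512875886459904961710757005754368000000000
    (rot 4 4 3) (rot 4 4 3) (4 + 4 + 3)) : IsLeast {n | Good G n} 3 :=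
  three_Y h (by decide) (u :=
    [[1, 9, 2], [0, 10, 11, 12, 0, 11, 0, 8, 9, 7, 8, 3, 4, 5, 3, 4, 3], [1, 3, 2], [0, 6, 5, 0, 2,
    13, 14, 5, 0, 2, 13, 7, 6, 5, 4, 12, 9, 10, 11, 9, 10, 9, 5, 6, 7, 0, 5, 6, 5, 4], [1, 9, 2],
    [0, 4, 15, 16, 14, 15, 14, 11, 12, 0, 11, 9, 7], [0, 3, 9, 8, 3, 10, 9, 8, 12, 13, 15, 16, 1,
    12, 3, 13, 14, 7, 8, 7, 8, 14, 13, 8, 12, 11, 8, 5, 9, 8, 13, 15, 16, 17], [0, 13, 16, 17, 15,
    14, 9, 13, 12, 9, 6, 10, 9, 14, 16, 17, 18]]) (u' :=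
    [[4, 0, 1, 5], [4, 1, 3, 5], [0, 4, 2, 4], [0, 3, 5, 3, 5, 3, 5, 3], [0, 0, 1], [0, 6, 0, 6],
    [0, 8, 6, 0, 8, 0, 8, 0, 6, 8], [0, 0, 8, 2, 8, 0, 8, 2, 8, 0], [0, 1, 9, 1, 9, 1, 9, 1, 9, 1],
    [0, 2, 10, 4, 2, 9, 10, 4, 2, 10, 2, 10, 9, 2, 10, 2, 10, 4, 10], [1, 0, 3], [0, 7, 1, 2, 0, 7],
    [0, 9, 3, 9, 4, 8, 2], [1, 0, 11], [0, 2, 0, 2, 1, 2, 6], [0, 2, 2, 2, 2, 2, 3, 7], [1, 0, 29],
    [0, 0, 0], [0, 2, 3, 1], [1, 1, 14], [0, 14, 0, 14], [0, 15, 2, 15], [0, 3, 16, 4, 16, 2, 16,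
    3], [1, 2, 14], [0, 2, 1, 0, 1], [1, 0, 5], [0, 5, 5, 0, 2, 0, 2, 1, 5], [1, 0, 3], [0, 1, 2],
    [0, 3, 3, 3], [0, 4, 2, 5], [1, 2, 2], [1, 1, 3], [0, 3, 1, 2], [0, 1, 4, 3], [1, 1, 2], [0, 0,
    4], [0, 2, 5], [1, 1, 2], [0, 2, 1, 7], [0, 3, 2, 7], [0, 4, 12, 16, 14], [0, 3, 4, 13, 9, 17,
    15, 19, 26], [0, 6, 14, 18, 19, 17, 22], [0, 7, 6, 11, 21], [0, 6, 13, 21, 20, 24, 19, 39], [0,
    42, 36, 42], [1, 0, 3], [0, 0, 0], [0, 38, 38], [0, 41, 3, 40, 2], [1, 0, 9], [0, 1, 1, 3, 0],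
    [1, 0, 5], [0, 5, 1, 1], [0, 1, 6, 2], [1, 1, 4], [0, 1, 2], [0, 1, 8, 3], [1, 1, 2], [0, 0, 10,
    2], [0, 2, 3, 2], [1, 0, 2], [0, 2, 0, 2, 1, 2], [0, 2, 0], [1, 0, 2], [0, 1, 3, 2], [0, 1, 9,
    14, 15]])
    (i := 6) (j := 4) (m := 2) (by decide +kernel)

theorem tJ1 (h : Spor G 175560 ([59742217373217410912008818046396455710289787,
    124412789792502026216006414760324641976925555873257].map (dm 11 7))
    ([59742217373217410912008818046396455710289787,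
    124412789792502026216006414760324641976925555873257].map (dm 11 7)) 2) :
    IsLeast {n | Good G n} 3 :=
  three_A (w := 19) (m := 745) (s := 13) (w' := 19) (m' := 745) (s' := 13)
    (RP.mxs (by omega) _) .nil (h.single (by decide)) (by decide) (u :=
    [[0, 1, 1, 1, 2, 2], [1, 0, 3], [0, 4, 3, 3], [1, 0, 9], [0, 2, 0, 2, 1], [1, 0, 9], [0, 3, 0],
    [0, 9, 8, 9, 9, 8, 8, 8], [1, 0, 4], [0, 0, 7, 1, 2], [1, 0, 10], [0, 3, 0], [1, 0, 14], [0, 0,
    11, 1], [0, 16, 16, 15, 15, 16], [1, 0, 5], [0, 1, 14, 0]]) (u' :=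
    [[4, 0, 1, 8], [4, 1, 3, 7], [0, 4, 3, 2, 4], [0, 5, 3, 5, 4, 5, 3, 4, 5, 3, 5, 4, 5, 4, 5, 4,
    5, 3, 5, 4, 5, 4, 3], [1, 0, 2], [0, 1, 2, 0, 2], [0, 0, 3, 7, 8, 6, 8, 6, 7, 8, 6, 8, 6, 7, 8,
    6, 8, 7, 8, 6, 8], [0, 2, 7, 8, 9, 7, 9, 8, 9, 7, 9, 7, 8, 9, 7, 8, 9, 7, 8, 9, 7]])
    (i := 15) (j := 3) (n := 0) (by decide +kernel)

theorem tJ3 (h : Spor G 50232960 ([[[0, 12], [1, 4], [2, 17], [3, 6], [5, 9], [7, 14], [8, 18],
    [10, 15], [11, 16], [13, 19]], [[0, 11, 3], [1, 2, 19], [4, 10, 8], [5, 7, 16], [6, 15, 17],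
    [12, 18, 14]], [[0, 1, 2, 3, 4, 5, 6, 7, 8, 9, 10, 11, 12, 13, 14, 15, 16, 17, 18]]].map (pm 2
    20)) ([[[0, 19], [1, 12], [2, 6], [3, 4], [5, 10], [7, 18], [8, 11], [9, 14], [13, 17], [15,
    16]], [[0, 4, 10], [1, 15, 17], [2, 7, 5], [3, 18, 12], [6, 13, 14], [8, 16, 9]], [[0, 1, 2, 3,
    4, 5, 6, 7, 8, 9, 10, 11, 12, 13, 14, 15, 16, 17, 18]]].map (pm 2 20)) 2) :
    IsLeast {n | Good G n} 3 :=
  three_A (w := 5) (m := 1) (s := 1) (w' := 5) (m' := 1) (s' := 1)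
    (RP.pms (by omega) _) (RP.pms (by omega) _) h (by decide) (u :=
    [[0, 0, 1, 1, 0, 1], [1, 0, 4], [0, 1, 2, 0], [0, 4, 3, 8, 3, 4, 4], [1, 0, 18], [0, 1, 5, 0],
    [0, 7, 14, 7, 14, 7, 7], [1, 0, 2], [0, 1, 8, 0]]) (u' :=
    [[4, 0, 13, 11], [4, 0, 14, 16], [4, 0, 15, 17], [4, 2, 4, 12], [4, 1, 6, 10], [0, 7, 5, 7, 5,
    7], [1, 20, 2], [0, 20, 21, 20, 0, 20, 21, 20, 0, 20, 21], [2, 2, 0], [0, 10, 0, 10, 0, 10, 0,
    10, 0, 10], [0, 24, 23, 3, 23, 24, 23, 3, 23, 24], [2, 1, 0], [0, 3, 0], [0, 4, 13], [1, 0, 2],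
    [0, 0, 2, 1, 2, 0, 2, 1, 2], [0, 0, 17, 2, 17, 3, 1], [0, 4, 2, 4], [0, 0, 20, 6, 4]])
    (i := 6) (j := 3) (n := 0) (by decide +kernel)

theorem tHe (h : Spor G 4030387200 ([9241421688489446150, 577588857680175120,
    13853125299270845185, 11696164961055474177].map (dm 2 8)) ([9241421688489445639,
    865820334417260560, 13853125299270845185, 11696164961055474177].map (dm 2 8)) 3) :
    IsLeast {n | Good G n} 3 :=
  three_A (w := 4) (m := 1) (s := 1) (w' := 4) (m' := 1) (s' := 1)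
    (RP.mxs (by omega) _) (RP.mxs (by omega) _) h (by decide) (u :=
    [[1, 0, 4], [0, 1, 2, 1, 3, 0, 2, 0, 3], [0, 4, 2, 4, 2, 3, 2, 2, 2, 2], [1, 0, 9], [0, 1, 2,
    0], [0, 5, 6, 5, 7, 4, 6, 4, 7], [0, 6, 13, 6, 7, 6, 6, 6, 6], [1, 0, 16], [0, 1, 2, 0], [0, 9,
    10, 9, 11, 8, 10, 8, 11], [0, 10, 21, 12, 10, 12, 11, 10, 10], [1, 0, 9], [0, 1, 2, 0]]) (u' :=
    [[4, 0, 15, 13], [0, 18, 19, 18, 20, 17, 19, 17, 20], [4, 1, 0, 22], [0, 20, 21, 20, 22, 19, 21,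
    19, 22], [4, 1, 0, 24], [4, 4, 6, 15], [4, 1, 8, 12], [0, 9, 7, 9, 7, 9], [0, 26, 24, 27, 25,
    25, 26, 24, 24, 27, 25, 26, 24, 27, 24, 26, 25, 27], [2, 1, 0], [0, 11, 0, 11, 0, 10, 11, 0, 10,
    11, 0, 11, 0, 10, 0, 11, 0, 10, 0, 11, 10, 0, 11], [0, 28, 28, 29, 27, 27, 29, 30, 28, 29, 27,
    30], [2, 1, 0], [1, 0, 9], [0, 16, 1, 4, 0, 16, 1, 14, 16], [0, 33, 34, 32, 33, 32, 32, 34, 32,
    33, 32, 32, 34, 32, 33], [2, 1, 0], [1, 0, 3], [0, 0, 8, 1, 8, 0, 8, 0], [0, 19, 9, 6, 2, 9, 19,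
    2], [0, 20, 7, 3, 20, 6, 10], [1, 2, 4], [0, 1, 23, 1, 23], [0, 4, 4, 3, 4, 2, 1, 1, 3, 1, 2, 1,
    2], [0, 0, 26, 24, 7, 26]])
    (i := 8) (j := 4) (n := 0) (by decide +kernel)

theorem tRu (h : Spor G 145926144000
    ([57896486333794311352494555629718523170169412831852947439197645067696478486529,
    57896486333794311352270809573705167272045593269241985286535719098988539937280,
    57896155053339684449905409833806343500289479056291081931753947133121701085185,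
    28948905734546486136968030101597782677670146632589935812375297168103673298945,
    57896486333794311352515630971525843535857893990671139625374311206853127045123].map (dm 2 16))
    ([[[6, 8, 9, 7]], [[5, 6], [7, 9]], [[0, 1, 2]], [[0, 1], [2, 3]], [[2, 3, 4]]].map (pm 2 10))
    4) :
    IsLeast {n | Good G n} 3 :=
  three_A (w := 5) (m := 1) (s := 1) (w' := 4) (m' := 1) (s' := 1)
    (RP.mxs (by omega) _) (RP.pms (by omega) _) h (by decide) (u :=
    [[0, 1, 3], [0, 2, 10, 2, 1, 1, 10, 3, 3], [1, 0, 5], [0, 1, 2, 0], [0, 5, 7], [0, 6, 14, 6, 5,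
    5, 14, 7], [1, 0, 5], [0, 1, 2, 0], [0, 9, 11], [0, 12, 11, 12, 23, 11, 10, 9], [1, 0, 3], [0,
    1, 2, 0]]) (u' :=
    [[4, 0, 15, 13], [0, 18, 20], [4, 1, 0, 22], [0, 20, 22], [4, 1, 0, 24], [4, 4, 6, 15], [4, 1,
    8, 12], [0, 8, 7], [2, 0, 27], [0, 11, 0, 11, 0, 11], [0, 26, 26, 29], [2, 1, 0], [0, 12, 0, 12,
    0, 12, 0, 12, 0, 12], [1, 31, 2], [0, 30, 30, 0, 33, 32], [2, 2, 0], [0, 18, 0, 18, 0, 7, 18],
    [0, 33, 33, 36, 3], [2, 1, 0], [1, 0, 5], [0, 20, 1, 20, 1, 20, 0, 20, 1, 20, 8, 20, 1, 20], [1,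
    37, 3], [0, 39, 0, 39, 8, 41, 40], [2, 2, 0], [1, 0, 3], [0, 0, 9, 1, 1], [0, 17, 2, 14, 1], [0,
    7, 15], [1, 0, 2], [0, 3, 3, 2, 0, 20, 0], [0, 0, 30, 6, 30, 5, 1, 30], [0, 3, 22, 2], [0, 0,
    34, 16]])
    (i := 8) (j := 4) (n := 0) (by decide +kernel)

theorem tON (h : Spor G 460815505920
    ([40536215740647992506109188141531751761180483539919804883866628702322,
    40536215884151591575868324092953099437236418774667556984643473265497,
    42190118644613345000355100517445543731758967694539613574469026,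
    40536215720147495263156960878032112684544281105522070492969860273005].map (dm 7 9))
    ([41246683293367909097196215968308386785259521065526181410237781689795,
    42190357716144856041934955678618188321570327006681114838852010,
    40536216458165999539407647051165586125309501774826195421463394041501,
    40536215720147495263156960878032112684544281105522070492969860273005].map (dm 7 9)) 3) :
    IsLeast {n | Good G n} 3 :=
  three_A (w := 17) (m := 293) (s := 11) (w' := 17) (m' := 293) (s' := 11)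
    (RP.mxs (by omega) _) (RP.mxs (by omega) _) h (by decide) (u :=
    [[0, 1, 1, 1], [0, 2, 12, 2, 12, 2, 1, 12, 1, 2, 12, 1], [1, 0, 2], [0, 1, 2, 0], [0, 5, 5, 5],
    [0, 6, 16, 6, 5, 7, 5, 5, 16], [1, 0, 18], [0, 1, 2, 0], [0, 9, 9, 9], [0, 9, 9, 9, 11, 16, 11,
    10, 9, 16, 9], [1, 0, 18], [0, 1, 2, 0]]) (u' :=
    [[4, 0, 15, 13], [0, 18, 18, 18], [4, 1, 0, 21], [0, 20, 20, 20], [4, 1, 0, 23], [1, 22, 5], [1,
    22, 6], [4, 6, 8, 17], [4, 3, 10, 14], [0, 10, 9], [0, 26, 27, 28, 26, 26, 28, 3, 4, 28], [2, 1,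
    0], [0, 14, 0, 14, 0, 14, 0, 14, 0, 14, 0, 14, 0, 14], [0, 29, 30, 30, 31, 30, 29, 31, 6, 31, 6,
    31], [2, 1, 0], [0, 15, 0, 16, 0, 15, 0, 15, 0, 15, 0, 16, 0, 16, 0, 16, 0, 16, 0, 15, 0, 3, 0,
    15], [0, 32, 10, 9, 34, 10, 32, 34, 32, 32], [2, 1, 0], [1, 0, 5], [0, 7, 0, 0, 4, 1, 4, 1, 7],
    [0, 2, 2, 8, 5, 1, 5, 8, 5], [0, 9, 6, 9, 2, 6, 2, 9, 2], [1, 2, 6], [1, 2, 5], [0, 3, 1, 2, 1,
    1, 2, 4, 3], [0, 0, 27, 6, 10, 7, 27], [0, 2, 4, 3, 4, 6, 4, 6], [0, 0, 27, 12, 5, 27, 9]])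
    (i := 8) (j := 4) (n := 0) (by decide +kernel)

theorem tHN (h : Spor G 273030912000000 ([[[0, 1, 2, 3, 4, 5, 6, 7, 8, 9, 10]], [[0, 11], [1,
    10], [2, 5], [3, 7], [4, 8], [6, 9]], [[2, 10], [3, 4], [5, 9], [6, 7]], [[0, 1, 2]]].map (pm 2
    12)) ([[[10, 9, 8, 7, 6, 5, 4, 3, 2, 1, 0]], [[0, 11], [1, 10], [2, 5], [3, 7], [4, 8], [6, 9]],
    [[2, 10], [3, 4], [5, 9], [6, 7]], [[0, 1, 2]]].map (pm 2 12)) 3) :
    IsLeast {n | Good G n} 3 :=
  three_A (w := 4) (m := 1) (s := 1) (w' := 4) (m' := 1) (s' := 1)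
    (RP.pms (by omega) _) (RP.pms (by omega) _) h (by decide) (u :=
    [[0, 0, 0, 2, 0, 1, 0, 0, 0, 0], [1, 0, 7], [0, 1, 4, 0], [0, 4, 10, 10, 3, 3, 4, 10, 4, 3], [1,
    0, 7], [0, 1, 7, 0], [0, 8, 6, 6, 6, 6, 6, 6, 17], [1, 0, 10], [0, 1, 10, 0]]) (u' :=
    [[4, 0, 15, 11], [4, 0, 16, 17], [4, 0, 17, 18], [4, 2, 4, 12], [4, 1, 6, 10], [0, 7, 5, 7, 5,
    7], [1, 19, 10], [0, 20, 22, 0, 0, 0, 21, 20, 22, 0, 21, 20, 20, 20], [2, 2, 0], [0, 10, 0, 9,
    10, 0, 10, 0, 9, 10, 0, 10, 0, 9, 10, 0, 9, 10, 0, 10, 0, 10, 0, 10, 0, 10, 9, 0, 10, 0, 10, 9,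
    0, 10, 0, 10], [0, 25, 3, 24, 23, 23, 23, 25, 24, 23], [2, 1, 0], [1, 0, 7], [0, 15, 13, 0, 15,
    13, 0, 15, 1, 15, 1, 15], [0, 27, 28, 7, 29, 28, 7, 7, 28, 27, 27, 27, 27], [2, 1, 0], [1, 0,
    5], [0, 0, 17, 0, 17, 5, 5, 5], [0, 6, 2, 18, 2, 5, 1, 1], [0, 19, 2, 2, 7, 10, 3, 7], [1, 2,
    10], [0, 0, 2, 1, 0, 0, 0, 2, 0, 1, 3, 3, 2, 1], [0, 0, 23, 5, 1, 23, 13], [0, 4, 2, 2, 2, 4, 2,
    3, 5, 5, 5, 4], [0, 0, 26, 8, 4, 11]])
    (i := 6) (j := 3) (n := 0) (by decide +kernel)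

theorem tLy (h : Spor G 51765179004000000
    ([61972099213168678750612237043243320340681684412898360561707784967993497001264318747855681513349674843424164148503938117291,
    15466638494462375106878164341081194331345408769345478716884034533416305691744507069627736519570357445517165994354874472588,
    92672302302373386955359736713572278152387790928981151866529534313171247817225009569318576776810336733267690667281688261440,
    92679629461685973139040474474824495878742348852735450531070573208389411145124387154564238500420774127581639737352064187188].map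
    (dm 3 16)) ([50090321838002835, 50068008354934504, 50077319614186349, 50260323488687677].map (dm
    3 6)) 3) :
    IsLeast {n | Good G n} 3 :=
  three_A (w := 12) (m := 43) (s := 7) (w' := 9) (m' := 11) (s' := 5)
    (RP.mxs (by omega) _) (RP.mxs (by omega) _) h (by decide) (u :=
    [[0, 0, 1, 0, 1], [0, 2, 2, 1], [1, 0, 4], [0, 1, 2, 0], [0, 4, 5, 4, 5], [0, 5, 6, 5, 5, 6, 6,
    5, 12], [1, 0, 7], [0, 1, 2, 0], [0, 8, 9, 8, 9, 10], [0, 9, 9, 20, 10, 9, 9, 9, 10, 9, 9, 9],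
    [1, 0, 11], [0, 1, 2, 0]]) (u' :=
    [[4, 0, 15, 13], [0, 17, 18, 17, 18, 19], [0, 18, 25, 19, 18, 25, 19], [4, 2, 1, 0], [0, 20, 21,
    20, 21, 22], [4, 1, 0, 24], [4, 5, 7, 16], [4, 1, 9, 13], [0, 10, 8, 10], [1, 26, 2], [1, 26,
    10], [0, 27, 27, 28, 0, 28, 0, 0, 0, 1], [2, 3, 0], [0, 14, 0, 14, 0, 14, 0, 13, 14, 0, 14, 0,
    14, 0, 14, 0, 14, 13, 0, 14, 0, 14, 0, 14], [0, 30, 4, 3, 31, 30, 30, 30, 30, 31, 30, 4, 32],
    [2, 1, 0], [0, 18, 0, 18, 16, 0, 3, 0, 16, 3, 0, 18, 0, 18], [0, 7, 6, 6, 7, 6, 34, 33, 33, 33,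
    35], [2, 1, 0], [0, 3, 19, 6, 0, 6, 3, 19, 3], [0, 4, 20, 1, 1, 7, 1, 7], [0, 8, 5, 8, 5, 8, 5],
    [1, 2, 10], [1, 2, 2], [0, 4, 4, 0, 1, 0, 4, 4, 4, 2], [0, 0, 26, 12, 2, 6], [0, 6, 6, 2, 6, 6,
    5, 3, 3, 5, 3], [0, 0, 29, 3, 29, 4]])
    (i := 8) (j := 4) (n := 0) (by decide +kernel)

theorem tTh (h : Spor G 90745943887872000
    ([123665204422062557356829759914321237307107484322588576777476790467146498727276412529351227280712350149883584747777310060775552263672136442732081603882892245536070311839006729,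
    1932268819094727458726191803736921611803173981634239320828082203560822709270520547232590232775331991945113279950134051223996860733983973365553931878463881407009292965380160,
    61832602211031772943834134146036600205636902445871557960882162603747936126307346495354978889792956544164784565638334972104063292638149081334210754165200032728537111447207938].map
    (dm 2 24)) ([99140097894441066977501, 53180330505232312334783, 145897545416667470427].map (dm 3
    7)) 2) :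
    IsLeast {n | Good G n} 3 :=
  three_A (w := 5) (m := 1) (s := 1) (w' := 9) (m' := 11) (s' := 5)
    (RP.mxs (by omega) _) (RP.mxs (by omega) _) h (by decide) (u :=
    [[0, 0, 1, 0, 8, 8, 0, 8, 1, 0, 1], [1, 0, 6], [0, 1, 2, 0], [0, 11, 11, 4, 3, 11, 4], [1, 0,
    5], [0, 1, 5, 0], [0, 6, 11, 6, 7, 11, 11, 7, 7, 6, 7], [1, 0, 11], [0, 1, 8, 0]]) (u' :=
    [[4, 0, 13, 11], [4, 0, 14, 16], [4, 0, 15, 17], [1, 17, 5], [4, 3, 5, 13], [4, 2, 7, 11], [0,
    7, 6], [0, 20, 21, 20, 21, 21, 20, 21, 21, 20, 21, 21, 20, 3, 3, 20], [2, 1, 0], [0, 11, 0, 11],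
    [0, 24, 24, 23, 24, 23, 24, 23, 6, 23, 6, 23, 6, 6], [2, 1, 0], [0, 12, 0, 12, 0, 3, 0, 12, 0,
    13, 0, 13, 0, 12, 0, 13, 0, 12], [0, 9, 26, 27, 27, 27, 26, 9, 9], [2, 1, 0], [1, 0, 2], [0, 18,
    1, 18, 0, 18], [0, 30, 31, 31, 31, 30, 31, 31, 31, 30, 31, 31], [2, 1, 0], [0, 19, 4, 0, 20, 0,
    19, 3, 19], [0, 33, 16, 16, 33, 16, 33, 16, 16, 33, 34, 33, 34], [2, 1, 0], [1, 0, 5], [0, 14,
    1, 8, 14, 4], [0, 2, 5, 1, 5, 15], [1, 0, 5], [0, 0, 2, 1, 2, 0, 0, 2, 0, 2, 0, 0, 2, 0], [0, 0,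
    29, 12, 3, 29, 4, 29, 3, 4, 29, 3], [0, 4, 3, 3, 4, 3, 4, 3, 3, 4, 3, 4, 3, 3, 4], [0, 0, 29, 7,
    4, 30]])
    (i := 6) (j := 3) (n := 0) (by decide +kernel)

theorem tJ4 (h : Spor G 86775571046077562880 ([16883842, 21237794, 8917057].map (dm 2 5)) ([[[0,
    4, 12], [1, 3, 7, 2, 10], [6, 8, 9, 11, 18, 20, 17, 15, 14, 13, 19, 16, 21, 22, 23]], [[0, 1],
    [2, 4], [3, 10], [5, 9], [6, 20], [7, 12], [8, 14], [11, 17], [13, 22], [15, 21], [16, 23], [18,
    19]], [[0, 1, 2, 3, 4, 5, 6, 7, 8, 9, 10, 11, 12, 13, 14, 15, 16, 17, 18, 19, 20, 21, 22]]].map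
    (pm 2 24)) 2) :
    IsLeast {n | Good G n} 3 :=
  three_A (w := 3) (m := 1) (s := 1) (w' := 5) (m' := 1) (s' := 1)
    (RP.mxs (by omega) _) (RP.pms (by omega) _) h (by decide) (u :=
    [[0, 1, 0, 0, 0, 0, 0, 8, 8, 0, 0], [1, 0, 11], [0, 1, 3, 0], [0, 3, 3, 4, 11, 3, 3, 3, 3, 11],
    [1, 0, 11], [0, 1, 6, 0], [0, 11, 6, 6, 6, 11, 6, 11, 7, 6, 6], [1, 0, 13], [0, 1, 9, 0]]) (u' :=
    [[4, 0, 14, 11], [4, 0, 15, 16], [4, 0, 16, 17], [1, 16, 14], [4, 3, 5, 13], [4, 2, 7, 11], [0,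
    19, 20, 19, 20, 2, 20, 19, 19, 20, 2, 2, 2, 20, 19, 20, 19, 20, 19], [2, 7, 0], [0, 10, 0, 10,
    0, 10], [0, 22, 22, 22, 23, 22, 22, 22, 22, 22, 22, 23, 22, 22, 22, 22, 22, 23, 5, 23], [2, 1,
    0], [0, 12, 0, 11, 12, 0, 11, 12, 0, 12, 0, 11, 0, 12, 0, 12, 0, 12, 11, 0, 12, 0, 12, 11, 0,
    12, 0, 11, 0, 12], [0, 25, 26, 8, 26, 8, 26, 8, 8, 8, 8, 26, 25, 25, 25, 26, 25, 25, 26], [2, 1,
    0], [1, 0, 3], [0, 17, 1, 4, 1, 7, 17], [0, 29, 29, 29, 30, 12, 12, 30, 29, 29, 30, 12, 12, 12],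
    [2, 1, 0], [0, 19, 4, 18, 0, 19], [0, 32, 32, 32, 32, 32, 33, 15, 15, 33, 15, 15, 33, 15, 33,
    32, 33, 32, 32], [2, 1, 0], [1, 0, 5], [0, 24, 1, 8, 0, 24], [0, 37, 36, 37, 36, 37, 36, 36, 37,
    36, 37, 19, 37, 19, 37, 36, 37, 36], [2, 1, 0], [1, 0, 3], [0, 11, 0, 12, 12, 1, 18, 5], [0, 13,
    2, 19, 2, 6, 12, 2], [1, 1, 14], [0, 0, 0, 1, 0, 1, 2, 2, 1, 0, 0, 0, 0, 0, 1, 2, 1, 0, 0], [0,
    0, 32, 15, 4], [0, 2, 2, 2, 3, 4, 4, 3, 2, 2, 2, 2, 2, 3, 4, 3, 4], [0, 0, 33, 17, 33, 21, 10]])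
    (i := 6) (j := 3) (n := 0) (by decide +kernel)

end Pool.Agent.MP_c78e8e_al.Sp

end
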